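import Pool.Agent.P.MP_7ede32_ag.Hod.DB

/-!
The analytic steps on the base curve and in the plane, as propositions.
-/

open Set Filter Topology Matrix ComplexConjugate Metric MeasureTheory
open scoped ComplexOrder

namespace Pool.Agent.P.MP_7ede32_ag.Hod

open Ell (E2)

/-- The Weierstrass sigma function. -/
def SSig0 : Prop :=
  ∀ L : PeriodPair, ∃ σ : ℂ → ℂ, Differentiable ℂ σ ∧ (∀ z, σ z = 0 ↔ z ∈ L.lattice) ∧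
    (∀ z ∈ L.lattice, deriv σ z ≠ 0) ∧
    ∀ w ∈ L.lattice, ∃ a b : ℂ, ∀ z, σ (z + w) = Complex.exp (a * z + b) * σ z

/-- The normalised sigma function. -/
def SSig : Prop := ∀ L : PeriodPair, ∃ σ β, IsSig L σ β

/-- A maximum principle on the elliptic curve. -/
def SMaxP : Prop :=
  ∀ (L : PeriodPair) (B : Set ℂ) (W : ℂ → ℝ), (∀ᶠ t in cd, t ∉ B) →
    (∀ w ∈ L.lattice, ∀ t ∉ B, t + w ∉ B ∧ W (t + w) = W t) →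
    (∀ t ∉ B, 0 < W t ∧ (∀ c, W t < c → ∀ᶠ s in 𝓝 t, W s < c) ∧ ∃ f : ℂ → ℂ, AnalyticAt ℂ f t ∧
      f t = 1 ∧ ∀ᶠ s in 𝓝 t, W t * ‖f s‖ ≤ W s) →
    (∀ z ∈ B, ∃ c, ∀ᶠ t in 𝓝[≠] z, W t ≤ c) → ∀ t ∉ B, ∀ t' ∉ B, W t = W t'

/-- The determinant is monotone. -/
def SDet : Prop :=
  ∀ (g : ℕ) (A B : Matrix (Fin g) (Fin g) ℂ), A.PosDef → (B - A).PosSemidef →
    ‖A.det‖ ≤ ‖B.det‖ ∧ (‖B.det‖ ≤ ‖A.det‖ → B = A)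

/-- If the degree is not positive, the metric is flat. -/
def SFlat1 : Prop :=
  ∀ (L : PeriodPair) (g : ℕ) (S : ZS L g) (h : MF g), (∀ w ∈ L.lattice, ∀ t, h (t + w) = h t) →
    (∀ t, S.Off t → Gm h t) → (∀ z ∈ S.Z, LowB h (S.G z) z) → 0 ≤ ∑ z ∈ S.Z, S.m z →
    (∀ t, S.Off t → ∀ Γ, Bar h t Γ → BarEq h t Γ) ∧ ∀ z ∈ S.Z, UpB h (S.G z) z

/-- Linear differential equations on a disc. -/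
def SODE : Prop :=
  ∀ (g : ℕ) (m : MF g) (c : ℂ) (r : ℝ), (∀ t ∈ ball c r, AnM m t) →
    ∃ B : MF g, B c = 1 ∧ ∀ t ∈ ball c r, AnM B t ∧ dM B t = B t * m t

/-- The residue of a unitary connection with a bounded frame vanishes. -/
def SFlat2a : Prop :=
  ∀ (g : ℕ) (H n : MF g) (z : ℂ), (∀ᶠ t in 𝓝[≠] z, AnM n t ∧ Fl H n t) →
    (∃ c : ℝ, 0 < c ∧ ∀ᶠ t in 𝓝[≠] z, (H t - (c : ℂ) • 1).PosSemidef) →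
    (∃ c : ℝ, ∀ᶠ t in 𝓝[≠] z, ‖(H t).det‖ ≤ c) →
    ∀ i j, Tendsto (fun t => (t - z) * n t i j) (𝓝[≠] z) (𝓝 0)

/-- A flat frame. -/
def SFlat2 : Prop :=
  ∀ (g : ℕ) (h m G : MF g) (z : ℂ), (∀ᶠ t in 𝓝[≠] z, AnM m t ∧ AnM G t ∧ Fl h m t) →
    LowB h G z → UpB h G z → ∃ A : MF g, AnM A z ∧ (A z).det ≠ 0 ∧
      ∀ᶠ t in 𝓝[≠] z, dM (fun s => A s * G s) t = -(A t * G t * m t)

/-- The codimension of a lattice. -/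
def SCod : Prop :=
  ∀ (g : ℕ) (G : MF g) (z : ℂ) (d c : ℕ) (m : ℤ), MeM G z →
    meromorphicOrderAt (fun t => (G t).det) z = m →
    (∀ i, ExV (fun t => (t - z) ^ d • G t i) z) → m + g * d = c →
    ∀ V : Submodule ℂ (VF g), FiniteDimensional ℂ V →
      (∀ a ∈ V, ExV (fun t => (t - z) ^ d • a t) z) →
      ∃ W ≤ V, Module.finrank ℂ V ≤ Module.finrank ℂ W + c ∧ ∀ a ∈ W, Sp G z a

/-- Elliptic functions with prescribed poles. -/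
def SEllSp : Prop :=
  ∀ (L : PeriodPair) (P : Finset ℂ) (d : ℕ), (∀ p ∈ P, ∀ p' ∈ P, p - p' ∈ L.lattice → p = p') →
    ∃ f : Fin (P.card * d) → ℂ → ℂ,
      (∀ i, Meromorphic (f i) ∧ (∀ w ∈ L.lattice, ∀ t, f i (t + w) = f i t) ∧
        (∀ t, (∀ p ∈ P, t - p ∉ L.lattice) → AnalyticAt ℂ (f i) t) ∧
        ∀ p ∈ P, ∃ b, AnalyticAt ℂ b p ∧ ∀ᶠ t in 𝓝[≠] p, (t - p) ^ d * f i t = b t) ∧
      ∀ c : Fin (P.card * d) → ℂ, (∀ᶠ t in cd, ∑ i, c i * f i t = 0) → c = 0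

/-- If the degree is positive there are sections over an unramified cover. -/
def SCount : Prop :=
  ∀ (L : PeriodPair) (g : ℕ) (S : ZS L g) (z₁ : ℂ), ∑ z ∈ S.Z, S.m z < 0 → S.Off z₁ →
    ∃ n κ, PS L n z₁ κ ∧ (∀ t, S.Off t → AnV κ t) ∧
      ∀ z ∈ S.Z, ∀ w ∈ L.lattice, Sp (S.G z) z fun t => κ (t + w)

/-- A lattice has a basis. -/
def SFrame : Prop :=
  ∀ (g : ℕ) (Λ : Set (VF g)) (z : ℂ), IsLat Λ z → ∃ G, Fr Λ z G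

/-- The dichotomy. -/
def SDich : Prop :=
  ∀ (L : PeriodPair) (g : ℕ) (Λ : ℂ → Set (VF g)) (h : MF g), LS L Λ →
    (∀ w ∈ L.lattice, ∀ t, h (t + w) = h t) → (∀ᶠ t in cd, Gm h t) →
    (∀ z G, Fr (Λ z) z G → LowB h G z) →
    (∀ᶠ z₁ in cd, ∃ n κ, PS L n z₁ κ ∧ ∀ z, κ ∈ Λ z) ∨
      ((∀ᶠ t in cd, ∀ Γ, Bar h t Γ → BarEq h t Γ) ∧ ∀ z G, Fr (Λ z) z G → UpB h G z)

/-- The sum of the residues of an elliptic function is zero. -/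
def SEllRes : Prop :=
  ∀ (L : PeriodPair) (c : ℂ → ℂ), (∀ w ∈ L.lattice, ∀ t, c (t + w) = c t) →
    (∀ z, ∃ w, LW c z w) → ∀ z w, LW c z w → w z ≠ 0

/-- Taylor coefficients are controlled by the values at the roots. -/
def SJet : Prop :=
  ∀ (g μ k : ℕ) (f : Fin g → ℂ → ℂ), (∀ i, AnalyticAt ℂ (f i) 0) → k < μ → ∃ C : ℝ, 0 < C ∧
    ∀ ε > 0, ∀ᶠ τ in 𝓝[≠] (0 : ℂ), ∀ a : Fin g → ℂ, ∃ u, u ^ μ = τ ∧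
      ‖∑ i, a i * iteratedDeriv k (f i) 0‖ ≤ C * (‖∑ i, a i * f i u‖ / ‖u‖ ^ (μ - 1)) + ε * ‖a‖

/-- The mean value inequality for a form on a disc in a curve. -/
def SMean : Prop :=
  ∀ (T : ℂ → Finset ℂ) (f : ℂ → ℂ → ℂ) (ξ η w : ℂ → ℂ) (ρ : ℝ) (O : Set ℂ), 0 < ρ →
    Integrable (fun x => ∑ y ∈ T x, ‖f x y‖ ^ 2) → IsOpen O → O ⊆ ball 0 ρ →
    (ball 0 ρ \ O).Countable → AnalyticOnNhd ℂ w (closedBall 0 ρ) →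
    (∀ v ∈ O, AnalyticAt ℂ ξ v ∧ deriv ξ v ≠ 0 ∧ η v ∈ T (ξ v) ∧
      f (ξ v) (η v) * deriv ξ v = w v) → InjOn (fun v => (ξ v, η v)) O →
    Real.pi * ρ ^ 2 * ‖w 0‖ ^ 2 ≤ ∫ x, ∑ y ∈ T x, ‖f x y‖ ^ 2

/-- The Weierstrass functions separate points. -/
def SWpInj : Prop :=
  ∀ (L : PeriodPair) (a b : ℂ), a ∉ L.lattice → b ∉ L.lattice →
    L.weierstrassP a = L.weierstrassP b → L.derivWeierstrassP a = L.derivWeierstrassP b →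
    a - b ∈ L.lattice

/-- Extension of a quotient that is bounded on most vertical slices. -/
def SExtC : Prop :=
  ∀ (a b : E2 → ℂ) (N : Set ℂ), AnalyticAt ℂ a 0 → AnalyticAt ℂ b 0 →
    (¬ ∀ᶠ v in 𝓝 (0 : ℂ), b (0, v) = 0) → N.Countable →
    (∀ᶠ y in 𝓝 (0 : E2), y.1 ∉ N → ∃ c : ℝ, ∀ᶠ v in 𝓝[≠] y.2, ‖a (y.1, v)‖ ≤ c * ‖b (y.1, v)‖) →
    ∃ c, AnalyticAt ℂ c 0 ∧ ∀ᶠ y in 𝓝 (0 : E2), a y = c y * b y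

/-- Extension of a quotient that is locally bounded off a countable set. -/
def SExt2 : Prop :=
  ∀ (a b : E2 → ℂ) (N : Set E2), AnalyticAt ℂ a 0 → AnalyticAt ℂ b 0 →
    (¬ ∀ᶠ y in 𝓝 (0 : E2), b y = 0) → N.Countable →
    (∀ᶠ y in 𝓝 (0 : E2), y ∉ N → ∃ c : ℝ, ∀ᶠ y' in 𝓝 y, ‖a y'‖ ≤ c * ‖b y'‖) →
    ∃ c, AnalyticAt ℂ c 0 ∧ ∀ᶠ y in 𝓝 (0 : E2), a y = c y * b y

/-- A quotient whose poles lie on `l = 0`. -/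
def SVert : Prop :=
  ∀ l a b : E2 → ℂ, AnalyticAt ℂ l 0 → AnalyticAt ℂ a 0 → AnalyticAt ℂ b 0 →
    (¬ ∀ᶠ y in 𝓝 (0 : E2), l y = 0) → (¬ ∀ᶠ y in 𝓝 (0 : E2), b y = 0) →
    (∀ᶠ y in 𝓝 (0 : E2), l y ≠ 0 → ∃ c : ℝ, ∀ᶠ y' in 𝓝 y, ‖a y'‖ ≤ c * ‖b y'‖) →
    ∃ (k : ℕ) (c : E2 → ℂ), AnalyticAt ℂ c 0 ∧ ∀ᶠ y in 𝓝 (0 : E2), l y ^ k * a y = c y * b y

/-- Normal form at the generic points of a plane curve germ. -/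
def SBrCh : Prop :=
  ∀ F G : E2 → ℂ, AnalyticAt ℂ F 0 → AnalyticAt ℂ G 0 → (¬ ∀ᶠ y in 𝓝 (0 : E2), F y = 0) →
    (¬ ∀ᶠ y in 𝓝 (0 : E2), G y = 0) → ∀ᶠ y in 𝓝[≠] (0 : E2), F y = 0 →
      ∃ (φ U V : E2 → ℂ) (i j : ℕ), AnalyticAt ℂ φ y ∧ AnalyticAt ℂ U y ∧ AnalyticAt ℂ V y ∧
        φ y = 0 ∧ fderiv ℂ φ y ≠ 0 ∧ U y ≠ 0 ∧ V y ≠ 0 ∧ 0 < i ∧
        ∀ᶠ y' in 𝓝 y, F y' = φ y' ^ i * U y' ∧ G y' = φ y' ^ j * V y'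

/-- Some ratio is not constant along the component `u = 0`. -/
def SLeafP : Prop :=
  ∀ (g μ : ℕ) (α : Fin g → E2 → ℂ), 2 ≤ g → (∀ i, AnalyticAt ℂ (α i) 0) →
    (∃ i, ∃ k < μ, iteratedDeriv k (fun u => α i (u, 0)) 0 ≠ 0) →
    (∀ c : Fin g → ℂ, (∀ᶠ y in 𝓝 (0 : E2), ∑ i, c i * α i y = 0) → c = 0) →
    (∀ i j, i ≠ j → ∀ c : ℂ, ∃ δ : ℝ → ℝ, (∀ ε > 0, 0 < δ ε) ∧ ∀ᶠ y in 𝓝 (0 : E2), α j y ≠ 0 →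
      ∀ ε > 0, ‖α i y / α j y - c‖ < δ ε →
        ‖α i y - c * α j y‖ ≤ ε * ‖y.1‖ ^ (μ - 1) * ‖dw (fun y => α i y / α j y) y‖) →
    ∃ i j, i ≠ j ∧ ∃ᶠ v in 𝓝 (0 : ℂ), ∃ ρ : E2 → ℂ, AnalyticAt ℂ ρ (0, v) ∧ dw ρ (0, v) ≠ 0 ∧
      (∀ᶠ y in 𝓝 ((0, v) : E2), α i y = ρ y * α j y) ∧ ¬ ∀ᶠ y in 𝓝 ((0, v) : E2), α j y = 0

/-- Euler's equation. -/
def SEuler : Prop :=
  ∀ (α : E2 → ℂ) (n : ℕ), AnalyticAt ℂ α 0 → (∀ᶠ y in 𝓝 (0 : E2), y.1 * du α y = n * α y) →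
    ∀ ζ : ℂ, ‖ζ‖ = 1 → ∀ᶠ y in 𝓝 (0 : E2), α (ζ * y.1, y.2) = ζ ^ n * α y

/-- The Wronskian. -/
def SWrP : Prop :=
  ∀ (r : ℕ) (f : E2 → ℂ) (c : Fin (r + 1) → ℂ → ℂ), AnalyticAt ℂ f 0 →
    (∀ᶠ y in 𝓝 (0 : E2), y.1 ≠ 0 → du^[r + 1] f y = ∑ k, c k y.1 * du^[k] f y) →
    (∃ᶠ u in 𝓝[≠] (0 : ℂ), ∀ a : Fin (r + 1) → ℂ,
      (∀ᶠ v in 𝓝 (0 : ℂ), ∑ k, a k * du^[k] f (u, v) = 0) → a = 0) →
    ∃ w, LW (c (Fin.last r)) 0 w ∧ ((∀ᶠ v in 𝓝 (0 : ℂ), f (0, v) = 0) → w 0 = 0)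

/-- Integrals with a holomorphic parameter. -/
def SParInt : Prop :=
  ∀ (f : ℂ → ℂ → ℂ) (f' : ℂ → ℂ) (K : Set ℂ) (t₀ : ℂ), IsCompact K →
    (∀ ξ₀ ∈ K, ∀ᶠ q in 𝓝 ((t₀, ξ₀) : E2), ContinuousAt (fun q : E2 => f q.1 q.2) q ∧
      DifferentiableAt ℂ (fun t => f t q.2) q.1) →
    (∀ ξ ∈ K, deriv (fun t => f t ξ) t₀ = f' ξ) →
    AnalyticAt ℂ (fun t => ∫ ξ in K, f t ξ) t₀ ∧
      deriv (fun t => ∫ ξ in K, f t ξ) t₀ = ∫ ξ in K, f' ξ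

end Pool.Agent.P.MP_7ede32_ag.Hod
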