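import Pool.Agent.P.MP_7ede32_ag.Hod.BrT

/-!
Toolbox: parametrisations of the surface.
-/

open Set Filter Topology MeasureTheory ComplexConjugate Polynomial Matrix

noncomputable section

namespace Pool.Agent.P.MP_7ede32_ag.Hod

open Full (Mer)
open Ell (E2)

theorem hasDerivAt_du {f : E2 → ℂ} {y : E2} (hf : DifferentiableAt ℂ f y) :
    HasDerivAt (fun u => f (u, y.2)) (du f y) y.1 := by
  have h1 : HasDerivAt (fun u : ℂ => ((u, y.2) : E2)) (1, 0) y.1 :=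
    (hasDerivAt_id y.1).prodMk (hasDerivAt_const y.1 y.2)
  exact HasFDerivAt.comp_hasDerivAt (l := f) (f := fun u : ℂ => ((u, y.2) : E2)) y.1
    hf.hasFDerivAt h1

theorem hasDerivAt_dw {f : E2 → ℂ} {y : E2} (hf : DifferentiableAt ℂ f y) :
    HasDerivAt (fun v => f (y.1, v)) (dw f y) y.2 := by
  have h1 : HasDerivAt (fun v : ℂ => ((y.1, v) : E2)) (0, 1) y.2 :=
    (hasDerivAt_const y.2 y.1).prodMk (hasDerivAt_id y.2)
  exact HasFDerivAt.comp_hasDerivAt (l := f) (f := fun v : ℂ => ((y.1, v) : E2)) y.2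
    hf.hasFDerivAt h1

theorem an_du {f : E2 → ℂ} {y : E2} (hf : AnalyticAt ℂ f y) : AnalyticAt ℂ (du f) y :=
  ((ContinuousLinearMap.apply ℂ ℂ ((1, 0) : E2)).analyticAt _).comp hf.fderiv

theorem an_dw {f : E2 → ℂ} {y : E2} (hf : AnalyticAt ℂ f y) : AnalyticAt ℂ (dw f) y :=
  ((ContinuousLinearMap.apply ℂ ℂ ((0, 1) : E2)).analyticAt _).comp hf.fderiv

theorem BrUP.fderiv_fderiv_apply {f : E2 → ℂ} {y : E2} (hf : AnalyticAt ℂ f y) (v w : E2) :
    fderiv ℂ (fun z => fderiv ℂ f z w) y v = fderiv ℂ (fderiv ℂ f) y v w := by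
  rw [fderiv_clm_apply hf.fderiv.differentiableAt (differentiableAt_const w)]
  simp

theorem du_dw {f : E2 → ℂ} {y : E2} (hf : AnalyticAt ℂ f y) : du (dw f) y = dw (du f) y := by
  have h : IsSymmSndFDerivAt ℂ f y :=
    (hf.contDiffAt (n := ⊤)).isSymmSndFDerivAt le_top
  have h1 := BrUP.fderiv_fderiv_apply hf (1, 0) (0, 1)
  have h2 := BrUP.fderiv_fderiv_apply hf (0, 1) (1, 0)
  exact h1.trans ((h.eq _ _).trans h2.symm)

/-- a function with zero derivative in the first variable -/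
theorem eq_of_du {f : E2 → ℂ} {y : E2} (hf : AnalyticAt ℂ f y) (h : ∀ᶠ y' in 𝓝 y, du f y' = 0) :
    ∀ᶠ y' in 𝓝 y, f y' = f (y.1, y'.2) := by
  obtain ⟨ε, hε, hb⟩ := Metric.eventually_nhds_iff_ball.1 (hf.eventually_analyticAt.and h)
  filter_upwards [Metric.ball_mem_nhds y hε] with z hz
  have hz' : z.1 ∈ Metric.ball y.1 ε ∧ z.2 ∈ Metric.ball y.2 ε := by
    rw [← ball_prod_same] at hz
    exact hz
  have hm : ∀ u ∈ Metric.ball y.1 ε, ((u, z.2) : E2) ∈ Metric.ball y ε := fun u hu => by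
    rw [← ball_prod_same]
    exact ⟨hu, hz'.2⟩
  have hd : ∀ u ∈ Metric.ball y.1 ε, HasDerivAt (fun u => f (u, z.2)) 0 u := fun u hu => by
    have := hasDerivAt_du (hb _ (hm u hu)).1.differentiableAt
    rwa [(hb _ (hm u hu)).2] at this
  exact Metric.isOpen_ball.is_const_of_deriv_eq_zero (f := fun u => f (u, z.2))
    (convex_ball y.1 ε).isPreconnected
    (fun u hu => (hd u hu).differentiableAt.differentiableWithinAt)
    (fun u hu => (hd u hu).deriv) hz'.1 (Metric.mem_ball_self hε)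

/-- a function with zero derivative in the second variable -/
theorem eq_of_dw {f : E2 → ℂ} {y : E2} (hf : AnalyticAt ℂ f y) (h : ∀ᶠ y' in 𝓝 y, dw f y' = 0) :
    ∀ᶠ y' in 𝓝 y, f y' = f (y'.1, y.2) := by
  obtain ⟨ε, hε, hb⟩ := Metric.eventually_nhds_iff_ball.1 (hf.eventually_analyticAt.and h)
  filter_upwards [Metric.ball_mem_nhds y hε] with z hz
  have hz' : z.1 ∈ Metric.ball y.1 ε ∧ z.2 ∈ Metric.ball y.2 ε := by
    rw [← ball_prod_same] at hz
    exact hz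
  have hm : ∀ u ∈ Metric.ball y.2 ε, ((z.1, u) : E2) ∈ Metric.ball y ε := fun u hu => by
    rw [← ball_prod_same]
    exact ⟨hz'.1, hu⟩
  have hd : ∀ u ∈ Metric.ball y.2 ε, HasDerivAt (fun u => f (z.1, u)) 0 u := fun u hu => by
    have := hasDerivAt_dw (hb _ (hm u hu)).1.differentiableAt
    rwa [(hb _ (hm u hu)).2] at this
  exact Metric.isOpen_ball.is_const_of_deriv_eq_zero (f := fun u => f (z.1, u))
    (convex_ball y.2 ε).isPreconnected
    (fun u hu => (hd u hu).differentiableAt.differentiableWithinAt)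
    (fun u hu => (hd u hu).deriv) hz'.2 (Metric.mem_ball_self hε)

namespace BrUP

theorem du_congr {f g : E2 → ℂ} {y : E2} (h : f =ᶠ[𝓝 y] g) : du f y = du g y := by
  unfold du
  rw [h.fderiv_eq]

theorem dw_congr {f g : E2 → ℂ} {y : E2} (h : f =ᶠ[𝓝 y] g) : dw f y = dw g y := by
  unfold dw
  rw [h.fderiv_eq]

theorem du_eq {f : E2 → ℂ} {y : E2} {a : ℂ} (hf : DifferentiableAt ℂ f y)
    (h : HasDerivAt (fun u => f (u, y.2)) a y.1) : du f y = a :=
  (hasDerivAt_du hf).unique h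

theorem dw_eq {f : E2 → ℂ} {y : E2} {a : ℂ} (hf : DifferentiableAt ℂ f y)
    (h : HasDerivAt (fun v => f (y.1, v)) a y.2) : dw f y = a :=
  (hasDerivAt_dw hf).unique h

theorem du_mul_pow {f g : E2 → ℂ} {y : E2} (hf : DifferentiableAt ℂ f y)
    (hg : DifferentiableAt ℂ g y) (ν : ℕ) : du (fun y => f y * g y ^ ν) y =
      du f y * g y ^ ν + f y * (ν * g y ^ (ν - 1) * du g y) :=
  du_eq (hf.mul (hg.pow ν)) ((hasDerivAt_du hf).mul ((hasDerivAt_du hg).pow ν))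

theorem dw_mul_pow {f g : E2 → ℂ} {y : E2} (hf : DifferentiableAt ℂ f y)
    (hg : DifferentiableAt ℂ g y) (ν : ℕ) : dw (fun y => f y * g y ^ ν) y =
      dw f y * g y ^ ν + f y * (ν * g y ^ (ν - 1) * dw g y) :=
  dw_eq (hf.mul (hg.pow ν)) ((hasDerivAt_dw hf).mul ((hasDerivAt_dw hg).pow ν))

theorem dw_div {f g : E2 → ℂ} {y : E2} (hf : DifferentiableAt ℂ f y)
    (hg : DifferentiableAt ℂ g y) (h0 : g y ≠ 0) : dw (fun y => f y / g y) y =
      (dw f y * g y - f y * dw g y) / g y ^ 2 :=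
  dw_eq (by
      simp only [div_eq_mul_inv]
      exact hf.mul (hg.inv h0))
    ((hasDerivAt_dw hf).div (hasDerivAt_dw hg) h0)

theorem du_fst {τ : ℂ → ℂ} {y : E2} (h : DifferentiableAt ℂ τ y.1) :
    du (fun y => τ y.1) y = deriv τ y.1 :=
  du_eq (h.comp y differentiableAt_fst) h.hasDerivAt

theorem dw_fst {τ : ℂ → ℂ} {y : E2} (h : DifferentiableAt ℂ τ y.1) :
    dw (fun y => τ y.1) y = 0 :=
  dw_eq (h.comp y differentiableAt_fst) (hasDerivAt_const y.2 (τ y.1))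

theorem du_snd {y : E2} : du (fun y => y.2) y = 0 :=
  du_eq differentiableAt_snd (hasDerivAt_const y.1 y.2)

theorem dw_snd {y : E2} : dw (fun y => y.2) y = 1 :=
  dw_eq differentiableAt_snd (hasDerivAt_id y.2)

/-- the inverse function theorem for a map that preserves the first coordinate -/
theorem exists_inv_snd {g : E2 → ℂ} {a : E2} (hg : AnalyticAt ℂ g a) (h0 : dw g a ≠ 0) :
    ∃ k : E2 → ℂ, AnalyticAt ℂ k (a.1, g a) ∧ k (a.1, g a) = a.2 ∧
      (∀ᶠ y in 𝓝 ((a.1, g a) : E2), g (y.1, k y) = y.2) ∧ ∀ᶠ x in 𝓝 a, k (x.1, g x) = x.2 := by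
  set G : E2 → E2 := fun x => (x.1, g x) with hG
  have hGa : AnalyticAt ℂ G a := analyticAt_fst.prod hg
  have hd : HasFDerivAt G ((ContinuousLinearMap.fst ℂ ℂ ℂ).prod (fderiv ℂ g a)) a :=
    hasFDerivAt_fst.prodMk hg.differentiableAt.hasFDerivAt
  have hlin : ∀ v : E2, fderiv ℂ g a v = v.1 * du g a + v.2 * dw g a := fun v => by
    have := Ell.lin_apply (fderiv ℂ g a) v
    simpa [du, dw] using this
  set A : E2 →L[ℂ] E2 := (ContinuousLinearMap.fst ℂ ℂ ℂ).prod (fderiv ℂ g a) with hA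
  have hinj : Function.Injective A := by
    refine (injective_iff_map_eq_zero A).2 fun v hv => ?_
    have h1 : v.1 = 0 := congrArg Prod.fst hv
    have h2 : fderiv ℂ g a v = 0 := congrArg Prod.snd hv
    rw [hlin, h1, zero_mul, zero_add] at h2
    exact Prod.ext h1 ((mul_eq_zero.1 h2).resolve_right h0)
  let e : E2 ≃L[ℂ] E2 := (LinearEquiv.ofInjectiveEndo (A : E2 →ₗ[ℂ] E2) hinj).toContinuousLinearEquiv
  have he : (e : E2 →L[ℂ] E2) = A := by
    ext <;> rfl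
  have hd' : HasFDerivAt G (e : E2 →L[ℂ] E2) a := he ▸ hd
  have hc : ContDiffAt ℂ ⊤ G a := hGa.contDiffAt
  have hn : (⊤ : WithTop ℕ∞) ≠ 0 := by simp
  have hs := hc.hasStrictFDerivAt' hd' hn
  have hk : AnalyticAt ℂ (hs.localInverse G e a) (G a) :=
    (hc.to_localInverse hd' hn).analyticAt
  refine ⟨fun y => (hs.localInverse G e a y).2, analyticAt_snd.comp hk, ?_, ?_, ?_⟩
  · exact congrArg Prod.snd hs.localInverse_apply_image
  · filter_upwards [hs.eventually_right_inverse] with y hy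
    have h1 : (hs.localInverse G e a y).1 = y.1 := congrArg Prod.fst (a₁ := G _) hy
    have h2 : g (hs.localInverse G e a y) = y.2 := congrArg Prod.snd hy
    rw [← h1]
    exact h2
  · filter_upwards [hs.eventually_left_inverse] with x hx
    exact congrArg Prod.snd hx

end BrUP

open BrUP

namespace Pl

variable {L : PeriodPair} {𝒴 : Pl L} {q : E3} {F s r : E3 → ℂ} {γ : E2 → E3} {y : E2}

theorem Ok.chain_du (h : 𝒴.Ok (γ y)) (hγ : AnalyticAt ℂ γ y) {τ : ℂ → ℂ}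
    (hτ : DifferentiableAt ℂ τ y.1) (ho : ∀ᶠ y' in 𝓝 y, 𝒴.On (γ y') ∧ (γ y').1 = τ y'.1)
    (hF : AnalyticAt ℂ F (γ y)) : du (fun y => F (γ y)) y =
      deriv τ y.1 * 𝒴.dT F (γ y) + du (fun y => (γ y).2.1) y * 𝒴.dX F (γ y) := by
  have h1 := h.chain hγ.differentiableAt (ho.mono fun _ h => h.1) hF.differentiableAt (1, 0)
  have h2 : du (fun y => (γ y).1) y = deriv τ y.1 :=
    (du_congr (ho.mono fun _ h => h.2)).trans (du_fst hτ)
  rw [← h2]
  exact h1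

theorem Ok.chain_dw (h : 𝒴.Ok (γ y)) (hγ : AnalyticAt ℂ γ y) {τ : ℂ → ℂ}
    (hτ : DifferentiableAt ℂ τ y.1) (ho : ∀ᶠ y' in 𝓝 y, 𝒴.On (γ y') ∧ (γ y').1 = τ y'.1)
    (hF : AnalyticAt ℂ F (γ y)) : dw (fun y => F (γ y)) y =
      dw (fun y => (γ y).2.1) y * 𝒴.dX F (γ y) := by
  have h1 := h.chain hγ.differentiableAt (ho.mono fun _ h => h.1) hF.differentiableAt (0, 1)
  have h2 : dw (fun y => (γ y).1) y = 0 :=
    (dw_congr (ho.mono fun _ h => h.2)).trans (dw_fst hτ)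
  have h3 : dw (fun y => F (γ y)) y = dw (fun y => (γ y).1) y * 𝒴.dT F (γ y) +
      dw (fun y => (γ y).2.1) y * 𝒴.dX F (γ y) := h1
  rw [h3, h2, zero_mul, zero_add]

/-- the derivative of the coefficient of `F (dξ) ^ ν` in a chart `(u, v)` with `t = u + c` -/
theorem str_gen (ν : ℕ) (h : 𝒴.Ok (γ y)) (hγ : AnalyticAt ℂ γ y)
    (ho : ∀ᶠ y' in 𝓝 y, 𝒴.On (γ y') ∧ (γ y').1 - (γ y).1 = y'.1 - y.1)
    (hF : AnalyticAt ℂ F (γ y)) {x β χ : E2 → ℂ} (hx : x = fun y => (γ y).2.1) (h0 : dw x y ≠ 0)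
    (hβ : β =ᶠ[𝓝 y] fun y => F (γ y) * dw x y ^ ν) (hχ : χ =ᶠ[𝓝 y] fun y => du x y / dw x y) :
    𝒴.dT F (γ y) * dw x y ^ ν = du β y - χ y * dw β y - ν * dw χ y * β y := by
  have hτ : HasDerivAt (fun u : ℂ => u - y.1 + (γ y).1) 1 y.1 :=
    ((hasDerivAt_id y.1).sub_const y.1).add_const (γ y).1
  have ho' : ∀ᶠ y' in 𝓝 y, 𝒴.On (γ y') ∧ (γ y').1 = (fun u : ℂ => u - y.1 + (γ y).1) y'.1 :=
    ho.mono fun y' h => ⟨h.1, by
      have := h.2
      linear_combination this⟩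
  have e1 := h.chain_du hγ hτ.differentiableAt ho' hF
  have e2 := h.chain_dw hγ hτ.differentiableAt ho' hF
  rw [hτ.deriv, ← hx] at e1
  rw [← hx] at e2
  have hxa : AnalyticAt ℂ x y := hx ▸ analyticAt_fst.comp (analyticAt_snd.comp hγ)
  have hFγ : DifferentiableAt ℂ (fun y => F (γ y)) y := (hF.comp hγ).differentiableAt
  have hw := (an_dw hxa).differentiableAt
  have hu := (an_du hxa).differentiableAt
  rw [du_congr hβ, dw_congr hβ, dw_congr hχ, hβ.eq_of_nhds, hχ.eq_of_nhds, du_mul_pow hFγ hw,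
    dw_mul_pow hFγ hw, dw_div hu hw h0, e1, e2, du_dw hxa]
  rcases ν with _ | ν
  · simp only [pow_zero, Nat.cast_zero]
    field_simp
    ring
  · simp only [Nat.add_sub_cancel, pow_succ]
    field_simp
    ring

/-- the Lie derivative in a chart that straightens the vector field -/
theorem str (ν : ℕ) (h : 𝒴.Ok (γ y)) (hγ : AnalyticAt ℂ γ y) {τ : ℂ → ℂ}
    (hτ : AnalyticAt ℂ τ y.1) (ho : ∀ᶠ y' in 𝓝 y, 𝒴.On (γ y') ∧ (γ y').1 = τ y'.1)
    (hF : AnalyticAt ℂ F (γ y)) (hs : AnalyticAt ℂ s (γ y)) {x : E2 → ℂ}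
    (hx : x = fun y => (γ y).2.1) (he : ∀ᶠ y' in 𝓝 y, du x y' = -(deriv τ y'.1 * s (γ y'))) :
    du (fun y => F (γ y) * dw x y ^ ν) y = deriv τ y.1 * 𝒴.LD ν s F (γ y) * dw x y ^ ν := by
  have e1 := h.chain_du hγ hτ.differentiableAt ho hF
  have e2 := h.chain_dw hγ hτ.differentiableAt ho hs
  rw [← hx] at e1 e2
  have hxa : AnalyticAt ℂ x y := hx ▸ analyticAt_fst.comp (analyticAt_snd.comp hγ)
  have hFγ : DifferentiableAt ℂ (fun y => F (γ y)) y := (hF.comp hγ).differentiableAt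
  have hsγ : DifferentiableAt ℂ (fun y => s (γ y)) y := (hs.comp hγ).differentiableAt
  have hw := (an_dw hxa).differentiableAt
  have e3 : dw (du x) y = -(deriv τ y.1 * dw (fun y => s (γ y)) y) := by
    rw [dw_congr he]
    refine dw_eq ((hτ.deriv.differentiableAt.comp y differentiableAt_fst).mul hsγ).neg ?_
    exact ((hasDerivAt_dw hsγ).const_mul (deriv τ y.1)).neg
  rw [du_mul_pow hFγ hw, du_dw hxa, e3, e1, e2, he.self_of_nhds, LD]
  rcases ν with _ | ν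
  · simp only [pow_zero, Nat.cast_zero]
    ring
  · simp only [Nat.add_sub_cancel, pow_succ]
    ring

/-- the coordinates `(t, r)` -/
theorem Ok.par (h : 𝒴.Ok q) (hr : AnalyticAt ℂ r q) (h0 : 𝒴.dX r q ≠ 0) : ∃ γ : E2 → E3,
    AnalyticAt ℂ γ (q.1, r q) ∧ γ (q.1, r q) = q ∧
    (∀ᶠ y in 𝓝 ((q.1, r q) : E2), 𝒴.On (γ y) ∧ (γ y).1 = y.1 ∧ r (γ y) = y.2) ∧
    ∀ᶠ q' in 𝓝 q, 𝒴.On q' → γ (q'.1, r q') = q' := by
  obtain ⟨hp, hpq, -⟩ := h.prj
  obtain ⟨-, -, hev⟩ := h.nr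
  set ι : E2 → E3 := fun x => (x.1, x.2, q.2.2) with hι
  have hιa : ∀ x, AnalyticAt ℂ ι x := fun x =>
    analyticAt_fst.prod (analyticAt_snd.prod analyticAt_const)
  set a : E2 := (q.1, q.2.1) with ha
  have hιq : ι a = q := rfl
  have hpa : AnalyticAt ℂ (fun x => 𝒴.prj (ι x)) a := hp.comp_of_eq (hιa a) hιq
  have hpa0 : 𝒴.prj (ι a) = q := hpq
  set g : E2 → ℂ := fun x => r (𝒴.prj (ι x)) with hg
  have hga : AnalyticAt ℂ g a := hr.comp_of_eq hpa hpa0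
  have hg0 : g a = r q := congrArg r hpa0
  have hdw : dw g a = 𝒴.dX r q := dw_eq hga.differentiableAt (h.hasDerivAt_ξ hr.differentiableAt)
  obtain ⟨k, hk, hk0, hk1, hk2⟩ := exists_inv_snd hga (hdw ▸ h0)
  rw [hg0] at hk hk0 hk1
  have hka : AnalyticAt ℂ (fun y : E2 => ((y.1, k y) : E2)) (q.1, r q) := analyticAt_fst.prod hk
  have hka0 : (fun y : E2 => ((y.1, k y) : E2)) (q.1, r q) = a := Prod.ext rfl hk0
  refine ⟨fun y => 𝒴.prj (ι (y.1, k y)), hpa.comp_of_eq hka hka0, ?_, ?_, ?_⟩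
  · exact (congrArg (fun x => 𝒴.prj (ι x)) hka0).trans hpa0
  · have ht : Tendsto (fun y : E2 => ι (y.1, k y)) (𝓝 (q.1, r q)) (𝓝 q) := by
      have h1 : Tendsto (fun y : E2 => ((y.1, k y) : E2)) (𝓝 (q.1, r q)) (𝓝 a) := by
        rw [← hka0]
        exact hka.continuousAt.tendsto
      exact (hιa a).continuousAt.tendsto.comp h1
    filter_upwards [ht.eventually hev, hk1] with y h1 h2
    exact ⟨h1.1.2.1, rfl, h2⟩
  · have ht : Tendsto (fun q' : E3 => ((q'.1, q'.2.1) : E2)) (𝓝 q) (𝓝 a) :=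
      (continuous_fst.prodMk (continuous_fst.comp continuous_snd)).tendsto q
    filter_upwards [hev, ht.eventually hk2] with q' h1 h2 ho
    have h3 : 𝒴.prj (ι (q'.1, q'.2.1)) = q' := by
      rw [← h1.2.1 ho]
      exact Prod.ext rfl (Prod.ext rfl h1.2.2.symm)
    have h4 : g (q'.1, q'.2.1) = r q' := congrArg r h3
    have h5 : k (q'.1, r q') = q'.2.1 := by
      rw [← h4]
      exact h2
    show 𝒴.prj (ι (q'.1, k (q'.1, r q'))) = q'
    rw [h5, h3]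

/-- derivatives in the coordinates `(t, r)` -/
theorem par_deriv (h : 𝒴.Ok (γ y)) (hγ : AnalyticAt ℂ γ y) (hr : AnalyticAt ℂ r (γ y))
    (ho : ∀ᶠ y' in 𝓝 y, 𝒴.On (γ y') ∧ (γ y').1 = y'.1 ∧ r (γ y') = y'.2) :
    dw (fun y => (γ y).2.1) y * 𝒴.dX r (γ y) = 1 ∧
      𝒴.dT r (γ y) + du (fun y => (γ y).2.1) y * 𝒴.dX r (γ y) = 0 := by
  have ho' : ∀ᶠ y' in 𝓝 y, 𝒴.On (γ y') ∧ (γ y').1 = (fun u : ℂ => u) y'.1 :=
    ho.mono fun _ h => ⟨h.1, h.2.1⟩
  have e1 := h.chain_du hγ differentiableAt_id ho' hr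
  have e2 := h.chain_dw hγ differentiableAt_id ho' hr
  have he : (fun y => r (γ y)) =ᶠ[𝓝 y] fun y => y.2 := ho.mono fun _ h => h.2.2
  rw [du_congr he, du_snd, deriv_id, one_mul] at e1
  rw [dw_congr he, dw_snd] at e2
  exact ⟨e2.symm, e1.symm⟩

/-- the slices of a chart are pieces of the fibres -/
theorem par_fb (hγ : AnalyticAt ℂ γ y) (ho : ∀ᶠ y' in 𝓝 y, 𝒴.On (γ y') ∧ (γ y').1 = y'.1)
    (h0 : dw (fun y => (γ y).2.1) y ≠ 0) :
    Tendsto (fun v => γ (y.1, v)) (𝓝[≠] y.2) (𝒴.fb y.1) := by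
  have hj : AnalyticAt ℂ (fun v : ℂ => ((y.1, v) : E2)) y.2 := analyticAt_const.prod analyticAt_id
  have hxa : AnalyticAt ℂ (fun y => (γ y).2.1) y := analyticAt_fst.comp (analyticAt_snd.comp hγ)
  have hx : AnalyticAt ℂ (fun v : ℂ => (γ (y.1, v)).2.1) y.2 := hxa.comp_of_eq hj rfl
  have ht : Tendsto (fun v : ℂ => ((y.1, v) : E2)) (𝓝 y.2) (𝓝 y) := hj.continuousAt.tendsto
  refine tendsto_fb ?_ hx.meromorphicAt fun c hc => h0 ?_
  · exact ((ht.eventually ho).filter_mono nhdsWithin_le_nhds).mono fun _ h => ⟨h.2, h.1⟩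
  · have h1 : ∀ᶠ v in 𝓝 y.2, (γ (y.1, v)).2.1 = c := by
      have := (hx.frequently_eq_iff_eventually_eq (g := fun _ => c) analyticAt_const).1
        hc.frequently
      exact this
    refine dw_eq hxa.differentiableAt ?_
    exact (hasDerivAt_const y.2 c).congr_of_eventuallyEq h1

end Pl

end Pool.Agent.P.MP_7ede32_ag.Hod
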