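import Pool.Agent.P.MP_7ede32_ag.Hod.DX
import Pool.Agent.P.MP_7ede32_ag.Hod.BrU
import Pool.Agent.P.MP_7ede32_ag.Full.MfB
import Pool.Agent.P.MP_7ede32_ag.Full.Indep

/-!
Toolbox: the fibration in charts.
-/

open Set Filter Topology Polynomial Matrix Bornology Metric

noncomputable section

namespace Pool.Agent.P.MP_7ede32_ag.Hod

open Geo (Sf0 wedge D)
open Full (Mf GT Nc PCh Sec)
open Ell (E2 jac)

namespace Sx

variable {𝒳 : Sx} {p y : 𝒳.X} {z w : ℂ} {e e' : Ch 𝒳.X} {μ : ℕ} {F G : 𝒳.X → ℂ}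

theorem exists_ov (p : 𝒳.X) : ∃ z, 𝒳.Ov p z := by
  obtain ⟨z, hz⟩ := 𝒳.S.Λ.mkQ_surjective (𝒳.S.π p)
  exact ⟨z, hz.symm⟩

theorem ov_nonempty (𝒳 : Sx) (z : ℂ) : ∃ p, 𝒳.Ov p z := by
  exact (𝒳.fib _).nonempty

theorem mk_add (hw : w ∈ 𝒳.L.lattice) : 𝒳.S.Λ.mkQ (z + w) = 𝒳.S.Λ.mkQ z :=
  Sf0.mk_eq_iff.2 (by rwa [𝒳.hΛ, add_sub_cancel_left])

theorem ov_add (hw : w ∈ 𝒳.L.lattice) : 𝒳.Ov p (z + w) ↔ 𝒳.Ov p z := by
  rw [Ov, Ov, mk_add hw]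

theorem Ov.sub_mem (h : 𝒳.Ov p z) (h' : 𝒳.Ov p w) : z - w ∈ 𝒳.L.lattice := by
  rw [← 𝒳.hΛ]
  exact Sf0.mk_eq_iff.1 (h.symm.trans h')

theorem isCompact_ov (𝒳 : Sx) (z : ℂ) : IsCompact {p | 𝒳.Ov p z} := by
  exact (Sf0.isClosed_fib _).isCompact

/-- a neighbourhood of a fibre contains the nearby fibres -/
theorem near_ov {r : 𝒳.X → Prop} (h : ∀ p, 𝒳.Ov p z → ∀ᶠ y in 𝓝 p, r y) :
    ∀ᶠ t in 𝓝 z, ∀ y, 𝒳.Ov y t → r y ∧ 𝒳.lam z y = t := by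
  obtain ⟨l, hl, h1⟩ := Geo.leb (𝒳.isCompact_ov z) (fun _ => {y | r y}) h
  obtain ⟨δ, hδ, h2⟩ := Sf0.near_fib (S := 𝒳.S) (𝒳.S.Λ.mkQ z) hl
  filter_upwards [ball_mem_nhds z hδ, ball_mem_nhds z 𝒳.S.ρ_pos] with t h3 h4 y hy
  rw [mem_ball, dist_eq_norm] at h3 h4
  have h5 : 𝒳.S.π y = 𝒳.S.Λ.mkQ z + 𝒳.S.Λ.mkQ (t - z) := by
    rw [← map_add, add_sub_cancel]
    exact hy
  obtain ⟨α, h6, h7⟩ := h2 y _ h3 h5
  obtain ⟨_, _, h8⟩ := h1 α h6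
  exact ⟨h8 h7, by rw [lam, Sf0.mu_eq h4 h5, add_sub_cancel]⟩

theorem cd_of_finite {B : Set (ℂ ⧸ 𝒳.S.Λ)} (h : B.Finite) : ∀ᶠ z in cd, 𝒳.S.Λ.mkQ z ∉ B := by
  have h1 : ∀ s ∈ B, ∀ᶠ z in cd, 𝒳.S.Λ.mkQ z ≠ s := fun s _ => by
    obtain ⟨c, rfl⟩ := 𝒳.S.Λ.mkQ_surjective s
    filter_upwards [cd_notMem 𝒳.L c] with t h2 h3
    exact h2 (𝒳.hΛ ▸ Sf0.mk_eq_iff.1 h3)
  filter_upwards [(eventually_all_finite h).2 h1] with t h2 h3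
  exact h2 _ h3 rfl

theorem Ov.lam_self (h : 𝒳.Ov p z) : 𝒳.lam z p = z := by
  rw [lam, (Sf0.muOk_fib h).eq_zero_iff.2 h, add_zero]

theorem Ov.isLift (h : 𝒳.Ov p z) : 𝒳.S.IsLift (𝒳.lam z) p := by
  exact ⟨(Sf0.muOk_fib h).2.mono fun y hy => by rw [hy.1, lam, map_add],
    fun e he hx => analyticAt_const.add ((Sf0.muOk_fib h).1 e he hx)⟩

theorem Ov.an_lam (h : 𝒳.Ov p z) : 𝒳.S.AnAt (𝒳.lam z) p := by
  exact h.isLift.2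

theorem Ov.tendsto_lam (h : 𝒳.Ov p z) : Tendsto (𝒳.lam z) (𝓝 p) (𝓝 z) := by
  have h1 := h.an_lam.continuousAt.tendsto
  rwa [h.lam_self] at h1

theorem Ov.lam_ov (h : 𝒳.Ov p z) : ∀ᶠ y in 𝓝 p, 𝒳.Ov y (𝒳.lam z y) := by
  exact h.isLift.1

theorem Ov.lam_lam (h : 𝒳.Ov p z) :
    ∀ᶠ y in 𝓝 p, ∀ᶠ y' in 𝓝 y, 𝒳.lam (𝒳.lam z y) y' = 𝒳.lam z y' := by
  filter_upwards [h.isLift.eventually, h.lam_ov] with y h1 h2
  filter_upwards [h2.isLift.sub_const h1] with y' h3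
  rw [h3, h2.lam_self, sub_self, add_zero]

theorem lam_add (hw : w ∈ 𝒳.L.lattice) (y : 𝒳.X) : 𝒳.lam (z + w) y = 𝒳.lam z y + w := by
  rw [lam, lam, mk_add hw, add_right_comm]

theorem Ov.lam_eq_iff (h : 𝒳.Ov p z) : ∀ᶠ y in 𝓝 p, (𝒳.lam z y = z ↔ 𝒳.Ov y z) := by
  filter_upwards [(Sf0.muOk_fib h).eventually] with y hy
  rw [lam, add_eq_left]
  exact hy.eq_zero_iff

theorem Ov.lam_nc (h : 𝒳.Ov p z) : ¬ ∀ᶠ y in 𝓝 p, 𝒳.lam z y = z := by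
  refine fun h1 => 𝒳.nc p ?_
  filter_upwards [h1, h.lam_eq_iff] with y h2 h3
  exact (h3.1 h2).trans h.symm

theorem Ov.D_lam (h : 𝒳.Ov p z) (he : p ∈ e.source) :
    ∀ᶠ y in 𝓝 p, D (𝒳.lam z) e y = 𝒳.S.dπ e y := by
  exact (h.isLift.dπ_eventually he).mono fun y hy => hy.symm

theorem hu (h : p ∉ 𝒳.Z) (hz : 𝒳.Ov p z) :
    z ∉ 𝒳.L.lattice ∧ 𝒳.M.f 𝒳.M.iu p = 𝒳.L.weierstrassP z := 𝒳.M.hu p h z hz

theorem off_nhds (h : p ∉ 𝒳.Z) : ∀ᶠ y in 𝓝 p, y ∉ 𝒳.Z := by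
  exact 𝒳.M.isClosed_Z.isOpen_compl.mem_nhds h

theorem dense_off (p : 𝒳.X) : ∃ᶠ y in 𝓝 p, y ∉ 𝒳.Z := by
  exact not_eventually.1 (𝒳.M.den_ne p)

theorem an_x (h : p ∉ 𝒳.Z) : 𝒳.S.AnAt 𝒳.x p := 𝒳.M.anAt_f _ h

theorem an_ev (P : MvPolynomial 𝒳.M.ι ℂ) (h : p ∉ 𝒳.Z) : 𝒳.S.AnAt (𝒳.M.ev P) p := by
  intro e he hp
  induction P using MvPolynomial.induction_on with
  | C a => exact (analyticAt_const (v := a)).congr (Eventually.of_forall fun u => by simp [Mf.ev])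
  | add P Q hP hQ => exact (hP.add hQ).congr (Eventually.of_forall fun u => by simp [Mf.ev])
  | mul_X P i hP =>
    exact (hP.mul (𝒳.M.anAt_f i h e he hp)).congr (Eventually.of_forall fun u => by simp [Mf.ev])

theorem W_ne (h : p ∉ 𝒳.Z) (he : e ∈ 𝒳.S.A) (hp : p ∈ e.source) : 𝒳.W e p ≠ 0 :=
  𝒳.M.W_ne p h e he hp

theorem an_D (hF : 𝒳.S.AnAt F p) (he : e ∈ 𝒳.S.A) (hp : p ∈ e.source) :
    𝒳.S.AnAt (D F e) p := by
  refine Sf0.anAt_of_chart he hp ((hF e he hp).fderiv.congr ?_)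
  filter_upwards [e.open_target.mem_nhds (e.map_source hp)] with u hu
  simp [D, e.right_inv hu]

theorem an_app {H : Type} [NormedAddCommGroup H] [NormedSpace ℂ H] {T : E2 → E2 →L[ℂ] H} {u : E2}
    (h : AnalyticAt ℂ T u) (v : E2) : AnalyticAt ℂ (fun u => T u v) u :=
  ((ContinuousLinearMap.apply ℂ H v).analyticAt _).comp h

theorem an_W (h : p ∉ 𝒳.Z) (he : e ∈ 𝒳.S.A) (hp : p ∈ e.source) : 𝒳.S.AnAt (𝒳.W e) p := by
  intro e' he' hp'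
  have h1 := Sf0.anAt_dπ he hp e' he' hp'
  have h2 := an_D (an_x h) he hp e' he' hp'
  exact ((an_app h1 _).mul (an_app h2 _)).sub ((an_app h1 _).mul (an_app h2 _))

theorem W_trans (h : p ∉ 𝒳.Z) (he : e ∈ 𝒳.S.A) (he' : e' ∈ 𝒳.S.A) (hp : p ∈ e.source)
    (hp' : p ∈ e'.source) : 𝒳.W e p = 𝒳.W e' p * jac (fderiv ℂ (e' ∘ e.symm) (e p)) := by
  rw [W, W, Sf0.dπ_trans he he' hp hp', (an_x h).holX.D_trans he he' hp hp', Geo.wedge_comp]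

theorem an_jac (he : e ∈ 𝒳.S.A) (he' : e' ∈ 𝒳.S.A) (hp : p ∈ e.source) (hp' : p ∈ e'.source) :
    𝒳.S.AnAt (fun y => jac (fderiv ℂ (e' ∘ e.symm) (e y))) p ∧
      jac (fderiv ℂ (e' ∘ e.symm) (e p)) ≠ 0 := by
  refine ⟨Sf0.anAt_of_chart he hp ?_, Full.MfB.jac_ne he he' hp hp'⟩
  have h1 := (𝒳.S.trans e he e' he' p hp hp').fderiv
  have h2 := an_app h1 (1, 0)
  have h3 := an_app h1 (0, 1)
  refine (((analyticAt_fst.comp h2).mul (analyticAt_snd.comp h3)).sub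
    ((analyticAt_snd.comp h2).mul (analyticAt_fst.comp h3))).congr ?_
  filter_upwards [e.open_target.mem_nhds (e.map_source hp)] with u hu
  simp [e.right_inv hu, jac, Ell.det2]

/-- identity theorem on the surface -/
theorem an_ne (hF : 𝒳.S.AnAt F p) (h : ¬ ∀ᶠ y in 𝓝 p, F y = 0) :
    ∀ᶠ y in 𝓝 p, ∃ᶠ y' in 𝓝 y, F y' ≠ 0 := by
  obtain ⟨e, he, hp⟩ := 𝒳.S.cover p
  obtain ⟨r, hr, h1⟩ := Metric.eventually_nhds_iff_ball.1 (hF e he hp).eventually_analyticAt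
  filter_upwards [e.open_source.mem_nhds hp, (e.continuousAt hp).eventually (ball_mem_nhds _ hr)]
    with y h2 h3 h4
  have h5 : EqOn (F ∘ e.symm) 0 (ball (e p) r) :=
    AnalyticOnNhd.eqOn_zero_of_preconnected_of_eventuallyEq_zero h1
      (convex_ball _ _).isPreconnected h3
      (Sf0.symm_eventually h2 (h4.mono fun _ h6 => not_not.1 h6))
  refine h ?_
  filter_upwards [e.open_source.mem_nhds hp, (e.continuousAt hp).eventually (ball_mem_nhds _ hr)]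
    with y' h6 h7
  simpa [e.left_inv h6] using h5 h7

theorem an_mul_ne (hF : 𝒳.S.AnAt F p) (hG : 𝒳.S.AnAt G p) (h : ¬ ∀ᶠ y in 𝓝 p, F y = 0)
    (h' : ¬ ∀ᶠ y in 𝓝 p, G y = 0) : ¬ ∀ᶠ y in 𝓝 p, F y * G y = 0 := by
  intro h1
  obtain ⟨y, h2, h3, h4, h5⟩ := ((not_eventually.1 h).and_eventually
    (h1.eventually_nhds.and (hF.eventually.and (an_ne hG h')))).exists
  refine h5 ?_
  filter_upwards [h3, h4.continuousAt.eventually_ne h2] with y' h6 h7 h8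
  exact mul_ne_zero h7 h8 h6

theorem map_chart (hp : p ∈ e.source) : map e (𝓝 p) = 𝓝 (e p) ∧ map e.symm (𝓝 (e p)) = 𝓝 p := by
  exact ⟨e.map_nhds_eq hp, e.symm_map_nhds_eq hp⟩

theorem eventually_chart (hp : p ∈ e.source) {r : 𝒳.X → Prop} :
    (∀ᶠ y in 𝓝 p, r y) ↔ ∀ᶠ v in 𝓝 (e p), r (e.symm v) := by
  rw [← (map_chart hp).2, eventually_map]

theorem D_eq (hp : y ∈ e.source) : D F e y (1, 0) = du (F ∘ e.symm) (e y) ∧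
    D F e y (0, 1) = dw (F ∘ e.symm) (e y) := ⟨rfl, rfl⟩

/-- the chart `(t, x)` -/
theorem exists_tx (hI : Geo.SInv) (h : p ∉ 𝒳.Z) (hz : 𝒳.Ov p z) : ∃ e ∈ 𝒳.S.A, p ∈ e.source ∧
    ∀ y ∈ e.source, e y = (𝒳.lam z y, 𝒳.x y) := by
  obtain ⟨e, he, hp⟩ := 𝒳.S.cover p
  refine hI _ 𝒳.S p e _ _ he hp hz.an_lam (an_x h) ?_
  rw [(hz.D_lam hp).self_of_nhds]
  exact W_ne h he hp

theorem NF.symm_zero (h : 𝒳.NF e p z μ) : e.symm 0 = p := by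
  rw [← h.2.2.1, e.left_inv h.2.1]

theorem NF.eventually (h : 𝒳.NF e p z μ) {r : 𝒳.X → Prop} :
    (∀ᶠ y in 𝓝 p, r y) ↔ ∀ᶠ v in 𝓝 (0 : E2), r (e.symm v) := by
  rw [eventually_chart h.2.1, h.2.2.1]

theorem NF.an (h : 𝒳.NF e p z μ) (hF : 𝒳.S.AnAt F p) : AnalyticAt ℂ (F ∘ e.symm) 0 := by
  exact h.2.2.1 ▸ hF e h.1 h.2.1

theorem NF.lam_symm (h : 𝒳.NF e p z μ) : ∀ᶠ v in 𝓝 (0 : E2), v ∈ e.target ∧
    𝒳.lam z (e.symm v) = z + v.1 ^ μ ∧ 𝒳.Ov (e.symm v) (z + v.1 ^ μ) := by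
  have h1 : e.target ∈ 𝓝 (0 : E2) := h.2.2.1 ▸ e.open_target.mem_nhds (e.map_source h.2.1)
  filter_upwards [h1, h.eventually.1 h.2.2.2.2.2, h.eventually.1 h.2.2.2.1.lam_ov] with v h2 h3 h4
  rw [e.right_inv h2] at h3
  exact ⟨h2, h3, h3 ▸ h4⟩

theorem NF.W_eq (h : 𝒳.NF e p z μ) :
    ∀ᶠ y in 𝓝 p, 𝒳.W e y = μ * (e y).1 ^ (μ - 1) * D 𝒳.x e y (0, 1) := by
  filter_upwards [h.2.2.2.1.D_lam h.2.1, e.open_source.mem_nhds h.2.1,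
    h.2.2.2.2.2.eventually_nhds] with y h1 h2 h3
  have h4 : 𝒳.lam z ∘ e.symm =ᶠ[𝓝 (e y)] fun v => z + v.1 ^ μ := by
    filter_upwards [Sf0.symm_eventually h2 h3, e.open_target.mem_nhds (e.map_source h2)]
      with v h5 h6
    rw [e.right_inv h6] at h5
    exact h5
  have h5 := ((hasDerivAt_pow μ (e y).1).comp_hasFDerivAt (e y)
    (hasFDerivAt_fst (𝕜 := ℂ) (p := e y))).const_add z
  have h6 : D (𝒳.lam z) e y = _ := h4.fderiv_eq.trans h5.fderiv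
  rw [W, ← h1, h6]
  simp [wedge]

/-- the translate of a normal form along the fibre -/
theorem NF.shift (h : 𝒳.NF e p z μ) : ∀ᶠ v in 𝓝 (0 : ℂ), ∃ e', 𝒳.NF e' (e.symm (0, v)) z μ ∧
    e'.source = e.source ∧ (∀ y, e' y = e y - (0, v)) ∧ ∀ u, e'.symm u = e.symm (u + (0, v)) := by
  have h1 : Tendsto (fun v : ℂ => ((0, v) : E2)) (𝓝 0) (𝓝 0) :=
    (continuous_const.prodMk continuous_id).tendsto' _ _ rfl
  filter_upwards [h1.eventually h.lam_symm,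
    h1.eventually (h.eventually.1 h.2.2.2.2.2.eventually_nhds)] with v h2 h3
  refine ⟨e.trans (Homeomorph.subRight ((0, v) : E2)).toOpenPartialHomeomorph,
    ⟨𝒳.S.comp e h.1 _ (fun y _ => ?_) (fun y _ => ?_), by simpa using e.map_target h2.1,
      by simp [e.right_inv h2.1], ?_, h.2.2.2.2.1, h3.mono fun y hy => by simpa using hy⟩,
    by simp, fun y => rfl, fun u => rfl⟩
  · exact analyticAt_id.sub analyticAt_const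
  · exact analyticAt_id.add analyticAt_const
  · simpa [h.2.2.2.2.1.ne'] using h2.2.2

theorem nf_of_pch (h : PCh 𝒳.S e p) (h0 : e p = 0) (hz : 𝒳.Ov p z) : 𝒳.NF e p z 1 := by
  refine ⟨h.1, h.2.1, h0, hz, one_pos, ?_⟩
  have h1 : ∀ᶠ y in 𝓝 p, ‖(e y).1‖ < 𝒳.S.ρ :=
    (e.continuousAt h.2.1).fst.norm.eventually_lt continuousAt_const
      (by simpa [h0] using 𝒳.S.ρ_pos)
  filter_upwards [h1, h.2.2] with y h2 h3
  rw [h0, Prod.fst_zero, sub_zero, show 𝒳.S.π p = _ from hz] at h3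
  rw [lam, Sf0.mu_eq h2 h3, pow_one]

theorem NF.pch (h : 𝒳.NF e p z 1) : PCh 𝒳.S e p := by
  refine ⟨h.1, h.2.1, ?_⟩
  filter_upwards [h.2.2.2.2.2, h.2.2.2.1.lam_ov] with y h1 h2
  rw [h.2.2.1, Prod.fst_zero, sub_zero, show 𝒳.S.π p = _ from h.2.2.2.1, ← map_add,
    ← pow_one (e y).1, ← h1]
  exact h2

theorem mem_Φf {ξ : ℂ} (h : (𝒳.Φ z ξ).Finite) : p ∈ 𝒳.Φf z ξ ↔ p ∈ 𝒳.Φ z ξ := by
  rw [Φf, dif_pos h, h.mem_toFinset]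

theorem Φ_add (hw : w ∈ 𝒳.L.lattice) (ξ : ℂ) : 𝒳.Φ (z + w) ξ = 𝒳.Φ z ξ := by
  simp only [Φ, ov_add hw]

theorem GdF.finite (h : 𝒳.GdF z) : {p | p ∈ 𝒳.Z ∧ 𝒳.Ov p z}.Finite := by
  have h1 : IsCompact {p | p ∈ 𝒳.Z ∧ 𝒳.Ov p z} := (𝒳.isCompact_ov z).inter_left 𝒳.M.isClosed_Z
  refine h1.finite (isDiscrete_iff_nhdsNE.2 fun p hp => ?_)
  rw [inf_principal_eq_bot]
  filter_upwards [(h p hp.2).2.1] with y h2 h3
  exact h2 h3.2 h3.1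

/-- polynomials in the Weierstrass function and `ξ` -/
theorem exists_D (L : PeriodPair) {a : MvPolynomial (Fin 2) ℂ} (h : a ≠ 0) : ∃ D : (KK L)[X],
    D ≠ 0 ∧ ∀ t ∉ L.lattice, ∀ ξ,
      (sp1 D t).eval ξ = MvPolynomial.eval ![L.weierstrassP t, ξ] a := by
  obtain ⟨c, hc⟩ := exists_wp L
  have h1 : ∀ t ∉ L.lattice, ∀ b : MvPolynomial (Fin 2) ℂ,
      Rg1 (b.eval₂ (C.comp (cst L)) ![C c, Polynomial.X]) t ∧ ∀ ξ,
        (sp1 (b.eval₂ (C.comp (cst L)) ![C c, Polynomial.X]) t).eval ξ =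
          MvPolynomial.eval ![L.weierstrassP t, ξ] b := by
    intro t ht b
    induction b using MvPolynomial.induction_on with
    | C a => simpa [(rg_cst a).2] using rg1_C (rg_cst a).1
    | add p q hp hq =>
      rw [MvPolynomial.eval₂_add]
      exact ⟨(hp.1.add hq.1).1, fun ξ => by simp [(hp.1.add hq.1).2, hp.2, hq.2]⟩
    | mul_X p i hp =>
      rw [MvPolynomial.eval₂_mul, MvPolynomial.eval₂_X]
      have h2 : Rg1 ((![C c, Polynomial.X] : Fin 2 → (KK L)[X]) i) t ∧ ∀ ξ,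
          (sp1 ((![C c, Polynomial.X] : Fin 2 → (KK L)[X]) i) t).eval ξ = ![L.weierstrassP t, ξ] i := by
        fin_cases i
        · simpa [(hc t ht).2] using rg1_C (hc t ht).1
        · simpa using rg1_X
      exact ⟨(hp.1.mul h2.1).1, fun ξ => by simp [(hp.1.mul h2.1).2, hp.2, h2.2]⟩
  refine ⟨_, fun h0 => h ?_, fun t ht => (h1 t ht a).2⟩
  refine Full.Indep.main L L.ω₁_div_two_notMem_lattice (G := Prod.snd) ?_
  have h2 : ContinuousAt (fun u : E2 => L.ω₁ / 2 + u.1) 0 := by fun_prop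
  filter_upwards [h2.eventually (L.isClosed_lattice.isOpen_compl.mem_nhds
    (by simpa using L.ω₁_div_two_notMem_lattice))] with u hu
  refine ⟨differentiableAt_snd, by simp [fderiv_snd], ?_⟩
  rw [← (h1 _ hu a).2, h0, sp1_zero, eval_zero]

end Sx

end Pool.Agent.P.MP_7ede32_ag.Hod
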