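import Pool.Agent.P.MP_7ede32_ag.Hod.StX
import Pool.Agent.P.MP_7ede32_ag.Hod.StB
import Pool.Agent.P.MP_7ede32_ag.Hod.XT
import Pool.Agent.P.MP_7ede32_ag.Full.MfB

/-!
The unramified cover is of general type.
-/

open Set Filter Topology

noncomputable section

namespace Pool.Agent.P.MP_7ede32_ag.Hod

open Geo (Sf0)
open Full (GT Sec)
open Ell (E2 jac)

namespace Cov2

/-- elliptic functions with a pole of order at most five at the lattice points -/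
structure Ef (L : PeriodPair) (f : ℂ → ℂ) : Prop where
  per : ∀ w ∈ L.lattice, ∀ u, f (u + w) = f u
  an : ∀ u ∉ L.lattice, AnalyticAt ℂ f u
  pole : AnalyticAt ℂ (fun u => u ^ 6 * f u) 0

lemma ef_one (L : PeriodPair) : Ef L fun _ => 1 :=
  ⟨fun _ _ _ => rfl, fun _ _ => analyticAt_const, by fun_prop⟩

lemma ef_wp (L : PeriodPair) : Ef L L.weierstrassP := by
  refine ⟨fun w hw u => L.weierstrassP_add_coe u ⟨w, hw⟩,
    fun u hu => L.analyticOnNhd_weierstrassP u hu, ?_⟩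
  have h1 : (fun u : ℂ => u ^ 6 * L.weierstrassP u) =
      fun u => u ^ 6 * L.weierstrassPExcept 0 u + u ^ 4 := by
    funext u
    have h2 := L.weierstrassPExcept_add 0 u
    simp only [ZeroMemClass.coe_zero, sub_zero] at h2
    rw [← h2]
    by_cases hu : u = 0
    · simp [hu]
    · field_simp
      simp
  rw [h1]
  exact ((analyticAt_id.pow 6).mul (L.analyticAt_weierstrassPExcept 0)).add (analyticAt_id.pow 4)

lemma ef_dwp (L : PeriodPair) : Ef L L.derivWeierstrassP := by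
  refine ⟨fun w hw u => L.derivWeierstrassP_add_coe u ⟨w, hw⟩,
    fun u hu => L.analyticOnNhd_derivWeierstrassP u hu, ?_⟩
  have h1 : (fun u : ℂ => u ^ 6 * L.derivWeierstrassP u) =
      fun u => u ^ 6 * L.derivWeierstrassPExcept 0 u - 2 * u ^ 3 := by
    funext u
    have h2 := L.derivWeierstrassPExcept_sub 0 u
    simp only [ZeroMemClass.coe_zero, sub_zero] at h2
    rw [← h2]
    by_cases hu : u = 0
    · simp [hu]
    · field_simp
  rw [h1]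
  exact ((analyticAt_id.pow 6).mul (L.analyticAt_derivWeierstrassPExcept 0)).sub
    (analyticAt_const.mul (analyticAt_id.pow 3))

variable {𝒳 : Sx} {n : ℕ} {hn : 0 < n} {z₁ : ℂ}

lemma an_comp {p : 𝒳.X} {z : ℂ} (hp : 𝒳.Ov p z) {g : ℂ → ℂ} (hg : AnalyticAt ℂ g (z - z₁)) :
    𝒳.S.AnAt (fun y => g (𝒳.lam z y - z₁)) p := by
  intro e he hs
  refine hg.comp_of_eq ((hp.an_lam e he hs).sub analyticAt_const) ?_
  simp only [Function.comp_apply, e.left_inv hs, hp.lam_self]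

lemma nsmul_mem {w : ℂ} (hw : w ∈ 𝒳.L.lattice) : (n : ℂ) * w ∈ 𝒳.L.lattice := by
  have := 𝒳.L.lattice.smul_mem (n : ℤ) hw
  simpa using this

/-- the form vanishes over the translates of `z₁` -/
lemma van0 (s : SecC 𝒳 n z₁) {e : Ch 𝒳.X} {p : 𝒳.X} {z : ℂ} (he : e ∈ 𝒳.S.A)
    (hs : p ∈ e.source) (hp : 𝒳.Ov p z) (hz : z - z₁ ∈ (nL 𝒳.L n hn).lattice) :
    s.c z e p = 0 := by
  obtain ⟨w, hw, h1⟩ := mem_nL.1 hz
  obtain rfl : z = z₁ + n * w := by rw [← h1]; ring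
  have h2 : 𝒳.Ov p z₁ := (Sx.ov_add (nsmul_mem hw)).1 hp
  obtain ⟨β, -, h3⟩ := s.van e he p hs h2
  have h4 := h3.self_of_nhds
  rw [h2.lam_self] at h4
  rw [s.per w hw z₁ e he p hs h2, h4]
  simp

/-- the section `σ ω² f (z - z₁)` -/
def sec {μ : ℕ} (s : SecC 𝒳 n z₁) (σ : Sec 𝒳.S μ) (f : ℂ → ℂ) (hf : Ef (nL 𝒳.L n hn) f) :
    LSec 𝒳 n (μ + 2) where
  c z e p := σ.c e (e p) * (s.c z e p ^ 2 * f (z - z₁))
  an z e he p hs hp := by
    refine Full.MfB.an_mul (Full.MfB.sec_an σ he hs) ?_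
    by_cases hz : z - z₁ ∈ (nL 𝒳.L n hn).lattice
    · obtain ⟨w, hw, h1⟩ := mem_nL.1 hz
      obtain rfl : z = z₁ + n * w := by rw [← h1]; ring
      have h2 : 𝒳.Ov p z₁ := (Sx.ov_add (nsmul_mem hw)).1 hp
      obtain ⟨β, hβ, h3⟩ := s.van e he p hs h2
      have h4 : AnalyticAt ℂ (fun u => u ^ 6 * f u) (z₁ - z₁) := by
        rw [sub_self]
        exact hf.pole
      refine Full.anAt_congr (Full.MfB.an_mul (Full.MfB.an_pow hβ 2) (an_comp h2 h4)) ?_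
      filter_upwards [h3, h2.lam_ov, e.open_source.mem_nhds hs] with y h5 h6 h7
      rw [Sx.lam_add (nsmul_mem hw), s.per w hw _ e he y h7 h6, h5,
        show 𝒳.lam z₁ y + n * w - z₁ = 𝒳.lam z₁ y - z₁ + n * w by ring,
        hf.per _ (mem_nL.2 ⟨w, hw, rfl⟩)]
      ring
    · exact Full.MfB.an_mul (Full.MfB.an_pow (s.an z e he p hs hp) 2) (an_comp hp (hf.an _ hz))
  per w hw z e he p hs hp := by
    rw [s.per w hw z e he p hs hp, show z + n * w - z₁ = z - z₁ + n * w by ring,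
      hf.per _ (mem_nL.2 ⟨w, hw, rfl⟩)]
  compat z e he e' he' p hs hs' hp := by
    rw [s.compat z e he e' he' p hs hs' hp, σ.compat e he e' he' p hs hs']
    ring

variable {T : CvT 𝒳 (nL 𝒳.L n hn).lattice} {𝒜 : CvA T} {S' : Sf0 T.X'}

lemma pull (h1 : SPull) (hS : IsCv 𝒜 S') {m : ℕ} (s : LSec 𝒳 n m) :
    ∃ τ : Sec S' m, IsPull 𝒜 s τ.c := by
  obtain ⟨c, h2, h3, h4⟩ := h1 𝒳 n hn T 𝒜 m s
  refine ⟨⟨c, ?_, ?_⟩, h2⟩
  · rw [hS.hA]
    exact h3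
  · rw [hS.hA]
    exact h4

end Cov2

open Cov2 in
theorem sCov2 (h1 : SPull) (h2 : SWpInj) (h3 : Full.SSecId) : SCov2 := by
  intro 𝒳 n hn T 𝒜 z₁ s S' hS
  choose b hb using pull h1 hS (sec s 𝒳.G.b _ (ef_one (nL 𝒳.L n hn)))
  choose b₁ hb₁ using pull h1 hS (sec s 𝒳.G.b _ (ef_wp (nL 𝒳.L n hn)))
  choose b₂ hb₂ using pull h1 hS (sec s 𝒳.G.b _ (ef_dwp (nL 𝒳.L n hn)))
  choose a ha using fun l => pull h1 hS (sec s (𝒳.G.a l) _ (ef_one (nL 𝒳.L n hn)))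
  refine ⟨⟨𝒳.G.μ + 2, 𝒳.G.N + 2, b, Fin.cons b₁ (Fin.cons b₂ a), by omega, ?_, ?_⟩⟩
  · obtain ⟨z, e, he, p, hs, hp, h4⟩ := s.nz
    have h5 : ∀ᶠ y in 𝓝 p, s.c (𝒳.lam z y) e y ≠ 0 := by
      refine (s.an z e he p hs hp).continuousAt.eventually_ne ?_
      rw [hp.lam_self]
      exact h4
    have h11 := not_eventually.1 (h3 _ 𝒳.S _ 𝒳.G.b 𝒳.G.b_ne e he p hs)
    obtain ⟨y, h6, h7, h8, h9⟩ := (h11.and_eventually
      (h5.and (hp.lam_ov.and (e.open_source.mem_nhds hs)))).exists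
    obtain ⟨x, rfl, hx⟩ := T.surj y _ h8
    obtain ⟨e', he', hx', h10⟩ := 𝒜.ch' x e he h9
    refine ⟨e', hS.hA ▸ he', x, hx', ?_⟩
    rw [hb e' he' x hx' _ hx e he h9 h10]
    exact mul_ne_zero h6 (mul_ne_zero (pow_ne_zero 2 h7) one_ne_zero)
  · intro e he e' he' x hx y hy h4 h5 h6
    rw [hS.hA] at he he'
    obtain ⟨c, hc, hx₁, hx₂⟩ := (𝒜.ch e).1 he x hx
    obtain ⟨c', hc', hy₁, hy₂⟩ := (𝒜.ch e').1 he' y hy
    obtain ⟨z, hz⟩ := (nL 𝒳.L n hn).lattice.mkQ_surjective (T.π' x)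
    obtain ⟨w, hw⟩ := (nL 𝒳.L n hn).lattice.mkQ_surjective (T.π' y)
    have k1 := h6 0
    have k2 := h6 (Fin.succ 0)
    have k3 := fun l => h6 (Fin.succ (Fin.succ l))
    simp only [Fin.cons_zero, Fin.cons_succ] at k1 k2 k3
    rw [hb e he x hx z hz.symm c hc hx₁ hx₂] at h4 k1 k2 k3
    rw [hb e' he' y hy w hw.symm c' hc' hy₁ hy₂] at h5 k1 k2 k3
    rw [hb₁ e he x hx z hz.symm c hc hx₁ hx₂, hb₁ e' he' y hy w hw.symm c' hc' hy₁ hy₂] at k1
    rw [hb₂ e he x hx z hz.symm c hc hx₁ hx₂, hb₂ e' he' y hy w hw.symm c' hc' hy₁ hy₂] at k2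
    simp only [sec, mul_one] at h4 h5 k1 k2 k3
    have a1 := left_ne_zero_of_mul h4
    have a2 := right_ne_zero_of_mul h4
    have a3 := left_ne_zero_of_mul h5
    have a4 := right_ne_zero_of_mul h5
    have hz₁ : z - z₁ ∉ (nL 𝒳.L n hn).lattice := fun h =>
      a2 (by rw [van0 s hc hx₁ (T.ov x z hz.symm) h]; simp)
    have hw₁ : w - z₁ ∉ (nL 𝒳.L n hn).lattice := fun h =>
      a4 (by rw [van0 s hc' hy₁ (T.ov y w hw.symm) h]; simp)
    rw [← mul_assoc, ← mul_assoc, mul_div_cancel_left₀ _ h4, mul_div_cancel_left₀ _ h5] at k1 k2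
    have k4 := h2 _ _ _ hz₁ hw₁ k1 k2
    refine T.inj x y (𝒳.G.inj c hc c' hc' _ hx₁ _ hy₁ a1 a3 fun l => ?_) ?_
    · have k5 := k3 l
      rw [ha l e he x hx z hz.symm c hc hx₁ hx₂, ha l e' he' y hy w hw.symm c' hc' hy₁ hy₂] at k5
      simp only [sec, mul_one] at k5
      rwa [mul_div_mul_right _ _ a2, mul_div_mul_right _ _ a4] at k5
    · rw [← hz, ← hw, Submodule.mkQ_apply, Submodule.mkQ_apply, Submodule.Quotient.eq]
      rwa [sub_sub_sub_cancel_right] at k4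

end Pool.Agent.P.MP_7ede32_ag.Hod
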