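import Pool.Agent.P.MP_7ede32_ag.Hod.StX

/-!
The atlas of the unramified cover and the pull-back of sections.
-/

open Set Filter Topology

namespace Pool.Agent.P.MP_7ede32_ag.Hod

open Geo (Sf0)
open Ell (E2 jac)

theorem sCovA : SCovA := by
  intro 𝒳 Λ' T
  refine ⟨⟨{e' | ∀ a ∈ e'.source, ∃ e ∈ 𝒳.S.A, T.pr a ∈ e.source ∧
    ∀ᶠ b in 𝓝 a, e' b = e (T.pr b)}, fun _ => Iff.rfl, fun a e he ha => ?_⟩⟩
  obtain ⟨z, hz⟩ := Λ'.mkQ_surjective (T.π' a)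
  obtain ⟨U, h1, hU, haU⟩ := eventually_nhds_iff.1 (T.lam a z hz.symm)
  have hi : InjOn T.pr U := fun b hb b' hb' h => T.inj b b' h (by rw [h1 b hb, h1 b' hb', h])
  have ho : IsOpenMap T.pr := isOpenMap_iff_nhds_le.2 fun b => (T.map_pr b).ge
  have : Nonempty T.X' := ⟨a⟩
  let φ : OpenPartialHomeomorph T.X' 𝒳.X :=
    OpenPartialHomeomorph.ofContinuousOpen (hi.toPartialEquiv T.pr U) T.cont.continuousOn ho hU
  exact ⟨φ.trans e, fun b hb => ⟨e, he, hb.2, Eventually.of_forall fun _ => rfl⟩, ⟨haU, ha⟩,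
    Eventually.of_forall fun _ => rfl⟩

namespace CovAP

variable {𝒳 : Sx} {n m : ℕ} {hn : 0 < n} {T : CvT 𝒳 (nL 𝒳.L n hn).lattice}

/-- the value does not depend on the choices -/
theorem wd (s : LSec 𝒳 n m) {a : T.X'} {z z' : ℂ} {e e' : Ch 𝒳.X} (he : e ∈ 𝒳.S.A)
    (he' : e' ∈ 𝒳.S.A) (ha : T.pr a ∈ e.source) (ha' : T.pr a ∈ e'.source)
    (hz : T.π' a = (nL 𝒳.L n hn).lattice.mkQ z) (hz' : T.π' a = (nL 𝒳.L n hn).lattice.mkQ z')
    (h : ∀ᶠ b in 𝓝 a, e (T.pr b) = e' (T.pr b)) : s.c z e (T.pr a) = s.c z' e' (T.pr a) := by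
  have h1 : z' - z ∈ (nL 𝒳.L n hn).lattice := (Submodule.Quotient.eq _).1 (hz'.symm.trans hz)
  obtain ⟨w, hw, h2⟩ := mem_nL.1 h1
  have h3 : ∀ᶠ y in 𝓝 (T.pr a), e y = e' y := by
    rw [← T.map_pr a]
    exact h
  have h4 : e' ∘ e.symm =ᶠ[𝓝 (e (T.pr a))] id := by
    filter_upwards [Sf0.symm_eventually ha h3, e.open_target.mem_nhds (e.map_source ha)]
      with u h5 h6
    rw [Function.comp, ← h5, e.right_inv h6, id]
  rw [show z' = z + n * w by linear_combination h2, s.per w hw z e' he' _ ha' (T.ov a z hz),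
    s.compat z e he e' he' _ ha ha' (T.ov a z hz), h4.fderiv_eq, fderiv_id]
  simp [jac, Ell.det2]

/-- the inverse charts are compatible with the projection -/
theorem symm_eq {a : T.X'} {e : Ch 𝒳.X} {e' : Ch T.X'} (ha : T.pr a ∈ e.source)
    (ha' : a ∈ e'.source) (h : ∀ᶠ b in 𝓝 a, e' b = e (T.pr b)) :
    ∀ᶠ u in 𝓝 (e' a), e.symm u = T.pr (e'.symm u) := by
  filter_upwards [Sf0.symm_eventually ha' (h.and (T.cont.continuousAt.eventually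
    (e.open_source.mem_nhds ha))), e'.open_target.mem_nhds (e'.map_source ha')] with u h1 h2
  rw [← e.left_inv h1.2, ← h1.1, e'.right_inv h2]

end CovAP

open CovAP in
theorem sPull : SPull := by
  classical
  intro 𝒳 n hn T 𝒜 m s
  let r : Ch T.X' → T.X' → ℂ × Ch 𝒳.X → Prop := fun e' a x =>
    T.π' a = (nL 𝒳.L n hn).lattice.mkQ x.1 ∧ x.2 ∈ 𝒳.S.A ∧ T.pr a ∈ x.2.source ∧
      ∀ᶠ b in 𝓝 a, e' b = x.2 (T.pr b)
  let c : Ch T.X' → E2 → ℂ := fun e' u =>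
    if h : ∃ x, r e' (e'.symm u) x then s.c h.choose.1 h.choose.2 (T.pr (e'.symm u)) else 0
  have hc : IsPull 𝒜 s c := by
    intro e' _ a ha z hz e he hp h
    have h1 : ∃ x, r e' (e'.symm (e' a)) x := ⟨(z, e), by rw [e'.left_inv ha]; exact ⟨hz, he, hp, h⟩⟩
    have h2 := h1.choose_spec
    simp only [c, dif_pos h1]
    generalize h1.choose = x at h2 ⊢
    rw [e'.left_inv ha] at h2 ⊢
    exact wd s h2.2.1 he h2.2.2.1 hp h2.1 hz
      ((h2.2.2.2.and h).mono fun b hb => hb.1.symm.trans hb.2)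
  refine ⟨c, hc, fun e' he' a ha => ?_, fun e₁ h₁ e₂ h₂ a ha₁ ha₂ => ?_⟩
  · obtain ⟨e, he, hp, h⟩ := (𝒜.ch e').1 he' a ha
    obtain ⟨z, hz⟩ := (nL 𝒳.L n hn).lattice.mkQ_surjective (T.π' a)
    have h1 := s.an z e he _ hp (T.ov a z hz.symm) e he hp
    rw [← h.self_of_nhds] at h1
    refine h1.congr ?_
    filter_upwards [symm_eq hp ha h, e'.open_target.mem_nhds (e'.map_source ha),
      Sf0.symm_eventually ha ((T.lam a z hz.symm).and (h.eventually_nhds.and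
        (T.cont.continuousAt.eventually (e.open_source.mem_nhds hp))))] with u h2 h3 h4
    rw [Function.comp, h2, ← hc e' he' _ (e'.map_target h3) _ h4.1 e he h4.2.2 h4.2.1,
      e'.right_inv h3]
  · obtain ⟨f₁, hf₁, p₁, k₁⟩ := (𝒜.ch e₁).1 h₁ a ha₁
    obtain ⟨f₂, hf₂, p₂, k₂⟩ := (𝒜.ch e₂).1 h₂ a ha₂
    obtain ⟨z, hz⟩ := (nL 𝒳.L n hn).lattice.mkQ_surjective (T.π' a)
    have h1 : e₂ ∘ e₁.symm =ᶠ[𝓝 (e₁ a)] f₂ ∘ f₁.symm := by
      filter_upwards [symm_eq p₁ ha₁ k₁, Sf0.symm_eventually ha₁ k₂] with u h2 h3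
      rw [Function.comp, Function.comp, h2, h3]
    rw [hc e₁ h₁ a ha₁ z hz.symm f₁ hf₁ p₁ k₁, hc e₂ h₂ a ha₂ z hz.symm f₂ hf₂ p₂ k₂,
      h1.fderiv_eq, k₁.self_of_nhds]
    exact s.compat z f₁ hf₁ f₂ hf₂ _ p₁ p₂ (T.ov a z hz.symm)

end Pool.Agent.P.MP_7ede32_ag.Hod
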