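import Pool.Agent.P.MP_7ede32_ag.Hod.StX
import Pool.Agent.P.MP_7ede32_ag.Hod.XT

/-!
The working structure on the unramified cover, and descent of the conclusion.
-/

open Set Filter Topology Polynomial Matrix Bornology Metric

noncomputable section

namespace Pool.Agent.P.MP_7ede32_ag.Hod

open Geo (Sf0 wedge D)
open Full (Mf GT Nc PCh Sec)
open Ell (E2 jac)

namespace CovSP

variable {𝒳 : Sx} {Λ' : Submodule ℤ ℂ} {T : CvT 𝒳 Λ'} {a : T.X'} {e : Ch 𝒳.X} {e' : Ch T.X'}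

theorem symm_eq (ha : a ∈ e'.source) (hp : T.pr a ∈ e.source)
    (h : ∀ᶠ b in 𝓝 a, e' b = e (T.pr b)) :
    ∀ᶠ u in 𝓝 (e' a), T.pr (e'.symm u) = e.symm u := by
  have h1 : ∀ᶠ b in 𝓝 a, T.pr b ∈ e.source :=
    T.cont.continuousAt.eventually (e.open_source.mem_nhds hp)
  filter_upwards [Sf0.symm_eventually ha (h.and h1), e'.open_target.mem_nhds (e'.map_source ha)]
    with u h2 h3
  rw [← e.left_inv h2.2, ← h2.1, e'.right_inv h3]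

theorem comp_eq {F : Type*} (g : 𝒳.X → F) (ha : a ∈ e'.source) (hp : T.pr a ∈ e.source)
    (h : ∀ᶠ b in 𝓝 a, e' b = e (T.pr b)) :
    (g ∘ T.pr) ∘ e'.symm =ᶠ[𝓝 (e' a)] g ∘ e.symm :=
  (symm_eq ha hp h).mono fun _ hu => congrArg g hu

theorem an_pull {F : Type*} [NormedAddCommGroup F] [NormedSpace ℂ F] (𝒜 : CvA T) {g : 𝒳.X → F}
    (hg : 𝒳.S.AnAt g (T.pr a)) (he' : e' ∈ 𝒜.A) (ha : a ∈ e'.source) :
    AnalyticAt ℂ ((g ∘ T.pr) ∘ e'.symm) (e' a) := by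
  obtain ⟨e, he, hp, h⟩ := (𝒜.ch e').1 he' a ha
  refine AnalyticAt.congr ?_ (comp_eq g ha hp h).symm
  rw [h.self_of_nhds]
  exact hg e he hp

theorem exists_pair (𝒜 : CvA T) (a : T.X') : ∃ e ∈ 𝒳.S.A, ∃ e' ∈ 𝒜.A, T.pr a ∈ e.source ∧
    a ∈ e'.source ∧ ∀ᶠ b in 𝓝 a, e' b = e (T.pr b) := by
  obtain ⟨e, he, hp⟩ := 𝒳.S.cover (T.pr a)
  obtain ⟨e', he', ha, h⟩ := 𝒜.ch' a e he hp
  exact ⟨e, he, e', he', hp, ha, h⟩

variable {𝒜 : CvA T} {S' : Sf0 T.X'}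

theorem isLift (H : IsCv 𝒜 S') {z : ℂ} (hz : T.π' a = Λ'.mkQ z) :
    S'.IsLift (𝒳.lam z ∘ T.pr) a :=
  ⟨(T.lam a z hz).mono fun b hb => (H.hπ b _).2 hb,
    fun _ he' ha => an_pull 𝒜 (T.ov a z hz).an_lam (H.hA ▸ he') ha⟩

theorem crit_pr (H : IsCv 𝒜 S') {z : ℂ} (hz : T.π' a = Λ'.mkQ z) (hc : S'.Crit a) :
    𝒳.S.Crit (T.pr a) := by
  obtain ⟨e, he, e', he', hp, ha, h⟩ := exists_pair 𝒜 a
  refine Sf0.crit_of_chart he hp ?_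
  rw [← (T.ov a z hz).isLift.fderiv_eq hp, ← h.self_of_nhds, ← (comp_eq _ ha hp h).fderiv_eq,
    (isLift H hz).fderiv_eq ha]
  exact hc e' (H.hA ▸ he') ha

theorem hol_pr (H : IsCv 𝒜 S') {f : ℂ → T.X'} (hf : S'.Hol f) : 𝒳.S.Hol (T.pr ∘ f) := by
  intro z
  refine ⟨T.cont.continuousAt.comp (hf z).1, fun e he hp => ?_⟩
  obtain ⟨e', he', ha, h⟩ := 𝒜.ch' (f z) e he hp
  refine ((hf z).2 e' (H.hA ▸ he') ha).congr_of_eventuallyEq ?_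
  exact ((hf z).1.eventually h).mono fun _ hw => hw.symm

theorem hol_lift (H : IsCv 𝒜 S') {h : ℂ → 𝒳.X} {φ : ℂ → ℂ} (hh : 𝒳.S.Hol h)
    (hφ : Differentiable ℂ φ) {h' : ℂ → T.X'} (h1 : ∀ z, T.pr (h' z) = h z)
    (h2 : ∀ z, T.π' (h' z) = Λ'.mkQ (φ z)) : S'.Hol h' := by
  intro z
  have h3 : T.pr ∘ h' = h := funext h1
  have hc : ContinuousAt h' z :=
    T.tend (h' z) (φ z) (h2 z) (𝓝 z) h' φ (by rw [h3, h1]; exact (hh z).1)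
      hφ.continuous.continuousAt (Eventually.of_forall h2)
  obtain ⟨e, he, e', he', hp, ha, h4⟩ := exists_pair 𝒜 (h' z)
  refine Sf0.holAt_of_chart hc (H.hA ▸ he') ha ?_
  refine ((hh z).2 e he (h1 z ▸ hp)).congr_of_eventuallyEq ?_
  exact (hc.eventually h4).mono fun w hw => by simp only [Function.comp]; rw [hw, h1]

end CovSP

open CovSP

theorem sCovS (h : SPull) : SCovS := by
  intro 𝒳 n hn T 𝒜 s
  obtain ⟨c, hc, h1, h2⟩ := h 𝒳 n hn T 𝒜 1 s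
  refine ⟨{
    A := 𝒜.A
    cover := fun a => ?_
    trans := fun e₁ he₁ e₂ he₂ a ha₁ ha₂ => ?_
    comp := fun e' he' φ a1 a2 => ?_
    Λ := (nL 𝒳.L n hn).lattice
    disc := ?_
    cocpt := ⟨_, fun w => ⟨ZSpan.floor (nL 𝒳.L n hn).basis w, by
      rw [(nL 𝒳.L n hn).lattice_eq_span_range_basis]; exact Subtype.mem _, by
      rw [dist_eq_norm]; exact ZSpan.norm_fract_le (nL 𝒳.L n hn).basis w⟩⟩
    π := T.π'
    lift := fun a => ?_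
    ω := c
    ω_an := h1
    ω_compat := fun e he e' he' a ha ha' => by rw [h2 e he e' he' a ha ha', pow_one] },
    ⟨rfl, rfl, fun _ _ => Iff.rfl⟩, hc⟩
  · obtain ⟨_, _, e', he', _, ha, _⟩ := exists_pair 𝒜 a
    exact ⟨e', he', ha⟩
  · obtain ⟨e, he, hp, h3⟩ := (𝒜.ch e₂).1 he₂ a ha₂
    refine (an_pull 𝒜 (Sf0.anAt_chart he hp) he₁ ha₁).congr ?_
    exact (Sf0.symm_eventually ha₁ h3).mono fun _ hu => hu.symm
  · refine (𝒜.ch _).2 fun a ha => ?_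
    rw [OpenPartialHomeomorph.trans_source] at ha
    obtain ⟨e, he, hp, h3⟩ := (𝒜.ch e').1 he' a ha.1
    refine ⟨e.trans φ, 𝒳.S.comp e he φ a1 a2, ?_, h3.mono fun b hb => ?_⟩
    · rw [OpenPartialHomeomorph.trans_source]
      exact ⟨hp, by rw [mem_preimage, ← h3.self_of_nhds]; exact ha.2⟩
    · simp only [OpenPartialHomeomorph.coe_trans, Function.comp, hb]
  · obtain ⟨r, hr, h⟩ :=
      Metric.isOpen_iff.1 (isOpen_discrete ({0} : Set (nL 𝒳.L n hn).lattice)) 0 rfl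
    refine ⟨r, hr, fun w hw hwr => ?_⟩
    have : (⟨w, hw⟩ : (nL 𝒳.L n hn).lattice) ∈ ({0} : Set (nL 𝒳.L n hn).lattice) :=
      h (by simpa using hwr)
    simpa using this
  · obtain ⟨z, hz⟩ := (nL 𝒳.L n hn).lattice.mkQ_surjective (T.π' a)
    exact ⟨𝒳.lam z ∘ T.pr, T.lam a z hz.symm,
      fun _ he' ha => an_pull 𝒜 (T.ov a z hz.symm).an_lam he' ha⟩

theorem sCov3 (h1 : SConcl0) (h2 : Full.SLift) : SCov3 := by
  intro 𝒳 n hn T 𝒜 z₁ s S' H hP hG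
  obtain ⟨p₀, hp₀⟩ := 𝒳.ov_nonempty z₁
  obtain ⟨a₀, -, ha₀⟩ := T.surj p₀ z₁ hp₀
  have hZ : ∃ x, x ∉ S'.Z := by
    obtain ⟨z, e, he, p, hp, hz, hc⟩ := s.nz
    obtain ⟨a, rfl, ha⟩ := T.surj p z hz
    obtain ⟨e', he', ha', h⟩ := 𝒜.ch' a e he hp
    exact ⟨a, fun hx => hc ((hP e' he' a ha' z ha e he hp h).symm.trans (hx e' (H.hA ▸ he') ha'))⟩
  have hF : ∀ x, S'.π x = S'.π a₀ → ¬ S'.Crit x ∧ x ∈ S'.Z := by
    intro x hx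
    have hz := (H.hπ x z₁).1 (hx.trans ((H.hπ a₀ z₁).2 ha₀))
    have ho := T.ov x z₁ hz
    refine ⟨fun hc => s.ncrit _ ho (crit_pr H hz hc), ?_⟩
    obtain ⟨e, he, e', he', hp, ha, h⟩ := exists_pair 𝒜 x
    refine Sf0.mem_Z_of_chart (H.hA ▸ he') ha ?_
    obtain ⟨β, -, hβ⟩ := s.van e he _ hp ho
    have h3 := hβ.self_of_nhds
    rw [ho.lam_self] at h3
    rw [hP e' he' x ha z₁ hz e he hp h, h3]
    simp
  obtain ⟨B, T', m, hB, hT, hm, a1, a2⟩ := h1 T.X' S' _ a₀ H.hΛ hG hZ hF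
  choose r hr using S'.Λ.mkQ_surjective
  refine ⟨(fun s => 𝒳.S.Λ.mkQ (r s)) '' B, (fun f => T.pr ∘ f) '' T', m * n, hB.image _,
    hT.image _, Nat.mul_pos hm hn, ?_, fun h hh hne => ?_⟩
  · rintro _ ⟨f, hf, rfl⟩
    obtain ⟨b1, b2, b3⟩ := a1 f hf
    refine ⟨hol_pr H b1, fun z => T.ov _ z ((H.hπ _ z).1 (b2 z)), fun w hw z => ?_⟩
    have h3 : (n : ℂ) * w ∈ S'.Λ := by
      rw [H.hΛ]
      exact mem_nL.2 ⟨w, 𝒳.hΛ ▸ hw, rfl⟩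
    have h4 := b3 _ h3 z
    simp only [Function.comp]
    rw [Nat.cast_mul, mul_assoc, h4]
  · obtain ⟨φ, -, hφ, hl⟩ := h2 𝒳.X 𝒳.S h hh
    choose h' b1 b2 using fun z => T.surj (h z) (φ z) (hl z)
    obtain ⟨z₀, hz₀⟩ := hne
    rcases a2 h' (hol_lift H hh hφ b1 b2) ⟨z₀, fun h3 => hz₀ (by rw [← b1, h3, b1])⟩ with
      ⟨s', hs', h3⟩ | ⟨f, hf, ψ, hψ, h3⟩
    · refine Or.inl ⟨_, mem_image_of_mem _ hs', fun z => ?_⟩
      rw [← b1]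
      exact T.ov _ _ ((H.hπ _ _).1 ((h3 z).trans (hr s').symm))
    · refine Or.inr ⟨_, mem_image_of_mem _ hf, ψ, hψ, funext fun z => ?_⟩
      rw [← b1, h3]
      rfl

end Pool.Agent.P.MP_7ede32_ag.Hod
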