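import Pool.Agent.P.MP_7ede32_ag.Hod.StX
import Pool.Agent.P.MP_7ede32_ag.Hod.XT

/-!
The unramified cover of the surface, as a compact connected metric space.
-/

open Set Filter Topology Metric

noncomputable section

namespace Pool.Agent.P.MP_7ede32_ag.Hod

namespace CovT

variable (𝒳 : Sx) (L' : PeriodPair)

instance closedL : IsClosed (L'.lattice : Set ℂ) := L'.isClosed_lattice

/-- the graph that defines the cover -/
def Gr : Set (𝒳.X × (ℂ ⧸ L'.lattice)) := {a | ∃ z, 𝒳.Ov a.1 z ∧ a.2 = L'.lattice.mkQ z}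

theorem cptQ : CompactSpace (ℂ ⧸ L'.lattice) := by
  obtain ⟨D, hD⟩ : ∃ D : ℝ, ∀ w : ℂ, ∃ l ∈ L'.lattice, dist w l ≤ D :=
    ⟨_, fun w => ⟨ZSpan.floor L'.basis w, by
      rw [L'.lattice_eq_span_range_basis]; exact Subtype.mem _, by
      rw [dist_eq_norm]; exact ZSpan.norm_fract_le L'.basis w⟩⟩
  refine ⟨?_⟩
  have h := (isCompact_closedBall (0 : ℂ) D).image L'.lattice.continuous_mkQ
  refine h.of_isClosed_subset isClosed_univ ?_
  intro q _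
  obtain ⟨w, rfl⟩ := L'.lattice.mkQ_surjective q
  obtain ⟨l, hl, hd⟩ := hD w
  refine ⟨w - l, by simpa [dist_eq_norm] using hd, ?_⟩
  rw [Submodule.mkQ_apply, Submodule.mkQ_apply, Submodule.Quotient.eq]
  simpa using hl

theorem near_mk (z : ℂ) {ε : ℝ} (hε : 0 < ε) :
    ∀ᶠ q in 𝓝 (L'.lattice.mkQ z), ∃ t, ‖t - z‖ < ε ∧ q = L'.lattice.mkQ t := by
  have h := L'.lattice.isOpenMap_mkQ.image_mem_nhds (ball_mem_nhds z hε)
  filter_upwards [h] with q hq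
  obtain ⟨t, ht, rfl⟩ := hq
  exact ⟨t, by simpa [dist_eq_norm] using ht, rfl⟩

variable {𝒳 L'}

theorem ov_of (hle : L'.lattice ≤ 𝒳.L.lattice) {a : 𝒳.X × (ℂ ⧸ L'.lattice)} (ha : a ∈ Gr 𝒳 L')
    {t : ℂ} (ht : a.2 = L'.lattice.mkQ t) : 𝒳.Ov a.1 t := by
  obtain ⟨z, hz, h⟩ := ha
  rw [h, Submodule.mkQ_apply, Submodule.mkQ_apply, Submodule.Quotient.eq] at ht
  have h1 : z = t + (z - t) := by ring
  rw [h1] at hz
  exact (Sx.ov_add (hle ht)).1 hz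

theorem lam_near {p : 𝒳.X} {z : ℂ} (h : 𝒳.Ov p z) {ε : ℝ} (hε : 0 < ε) :
    ∀ᶠ y in 𝓝 p, 𝒳.Ov y (𝒳.lam z y) ∧ ‖𝒳.lam z y - z‖ < ε := by
  filter_upwards [h.lam_ov, Metric.tendsto_nhds.1 h.tendsto_lam ε hε] with y h1 h2
  exact ⟨h1, by simpa [dist_eq_norm] using h2⟩

theorem closed_Gr (hle : L'.lattice ≤ 𝒳.L.lattice) : IsClosed (Gr 𝒳 L') := by
  rw [← isOpen_compl_iff, isOpen_iff_mem_nhds]
  rintro ⟨p, q⟩ hpq
  obtain ⟨t, rfl⟩ := L'.lattice.mkQ_surjective q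
  obtain ⟨z, hz⟩ := Sx.exists_ov p
  have h1 : t - z ∉ 𝒳.L.lattice := by
    intro h
    refine hpq ⟨t, ?_, rfl⟩
    have h1 : t = z + (t - z) := by ring
    rw [h1]
    exact (Sx.ov_add h).2 hz
  obtain ⟨ε, hε, hb⟩ := Metric.isOpen_iff.1 𝒳.L.isClosed_lattice.isOpen_compl _ h1
  rw [nhds_prod_eq]
  filter_upwards [prod_mem_prod (lam_near hz (half_pos hε)) (near_mk L' t (half_pos hε))]
  rintro ⟨p', q'⟩ ⟨⟨h2, h3⟩, t', h4, h5⟩ hG
  have h6 : 𝒳.Ov p' t' := ov_of hle hG h5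
  refine hb (?_ : t' - 𝒳.lam z p' ∈ ball (t - z) ε) (h6.sub_mem h2)
  rw [mem_ball, dist_eq_norm]
  have h7 : t' - 𝒳.lam z p' - (t - z) = (t' - t) - (𝒳.lam z p' - z) := by ring
  rw [h7]
  have := norm_sub_le (t' - t) (𝒳.lam z p' - z)
  simp only at h3
  linarith

theorem lam_loc (hle : L'.lattice ≤ 𝒳.L.lattice) (a : Gr 𝒳 L') {z : ℂ}
    (h : a.1.2 = L'.lattice.mkQ z) :
    ∀ᶠ b in 𝓝 a, b.1.2 = L'.lattice.mkQ (𝒳.lam z b.1.1) := by
  obtain ⟨r, hr, hd⟩ := 𝒳.S.disc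
  have hz := ov_of hle a.2 h
  have c1 : Tendsto (fun b : Gr 𝒳 L' => b.1.1) (𝓝 a) (𝓝 a.1.1) :=
    (continuous_fst.comp continuous_subtype_val).continuousAt
  have c2 : Tendsto (fun b : Gr 𝒳 L' => b.1.2) (𝓝 a) (𝓝 (L'.lattice.mkQ z)) := by
    rw [← h]
    exact (continuous_snd.comp continuous_subtype_val).continuousAt
  filter_upwards [c1.eventually (lam_near hz (half_pos hr)),
    c2.eventually (near_mk L' z (half_pos hr))] with b h1 h2
  obtain ⟨t, h3, h4⟩ := h2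
  have h5 : 𝒳.Ov b.1.1 t := ov_of hle b.2 h4
  have h6 : t - 𝒳.lam z b.1.1 = 0 := by
    refine hd _ (𝒳.hΛ ▸ h5.sub_mem h1.1) ?_
    have h7 : t - 𝒳.lam z b.1.1 = (t - z) - (𝒳.lam z b.1.1 - z) := by ring
    rw [h7]
    have := norm_sub_le (t - z) (𝒳.lam z b.1.1 - z)
    linarith [h1.2]
  rw [h4, sub_eq_zero.1 h6]

theorem tend {ι : Type} (a : Gr 𝒳 L') {z : ℂ} (h : a.1.2 = L'.lattice.mkQ z) (l : Filter ι)
    (g : ι → Gr 𝒳 L') (φ : ι → ℂ) (h1 : Tendsto (fun i => (g i).1.1) l (𝓝 a.1.1))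
    (h2 : Tendsto φ l (𝓝 z)) (h3 : ∀ᶠ i in l, (g i).1.2 = L'.lattice.mkQ (φ i)) :
    Tendsto g l (𝓝 a) := by
  rw [tendsto_subtype_rng]
  have h4 : Tendsto (fun i => (g i).1.2) l (𝓝 a.1.2) := by
    rw [h]
    exact ((L'.lattice.continuous_mkQ.tendsto z).comp h2).congr' (h3.mono fun i hi => hi.symm)
  exact h1.prodMk_nhds h4

theorem map_pr (hle : L'.lattice ≤ 𝒳.L.lattice) (a : Gr 𝒳 L') :
    map (fun b : Gr 𝒳 L' => b.1.1) (𝓝 a) = 𝓝 a.1.1 := by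
  classical
  refine le_antisymm (continuous_fst.comp continuous_subtype_val).continuousAt ?_
  obtain ⟨z, hz, h⟩ := a.2
  let s : 𝒳.X → Gr 𝒳 L' := fun y =>
    if hy : 𝒳.Ov y (𝒳.lam z y) then ⟨(y, L'.lattice.mkQ (𝒳.lam z y)), _, hy, rfl⟩ else a
  have h1 : ∀ᶠ y in 𝓝 a.1.1, (s y).1.1 = y ∧ (s y).1.2 = L'.lattice.mkQ (𝒳.lam z y) := by
    filter_upwards [hz.lam_ov] with y hy
    simp only [s, dif_pos hy, and_self]
  have h2 : Tendsto s (𝓝 a.1.1) (𝓝 a) :=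
    tend a h _ s (𝒳.lam z) (tendsto_id.congr' (h1.mono fun y hy => hy.1.symm)) hz.tendsto_lam
      (h1.mono fun y hy => hy.2)
  have h3 : Tendsto ((fun b : Gr 𝒳 L' => b.1.1) ∘ s) (𝓝 a.1.1)
      (map (fun b : Gr 𝒳 L' => b.1.1) (𝓝 a)) := tendsto_map.comp h2
  exact (h3.congr' (h1.mono fun y hy => hy.1) : Tendsto id _ _)

theorem cpt_Gr (hle : L'.lattice ≤ 𝒳.L.lattice) : CompactSpace (Gr 𝒳 L') := by
  haveI := cptQ L'
  exact isCompact_iff_compactSpace.1 (closed_Gr hle).isCompact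

theorem con_Gr (hle : L'.lattice ≤ 𝒳.L.lattice) : ConnectedSpace (Gr 𝒳 L') := by
  haveI := cpt_Gr hle
  have hc : Continuous (fun b : Gr 𝒳 L' => b.1.2) := continuous_snd.comp continuous_subtype_val
  have hs : Function.Surjective (fun b : Gr 𝒳 L' => b.1.2) := by
    intro q
    obtain ⟨z, rfl⟩ := L'.lattice.mkQ_surjective q
    obtain ⟨p, hp⟩ := 𝒳.ov_nonempty z
    exact ⟨⟨(p, L'.lattice.mkQ z), z, hp, rfl⟩, rfl⟩
  have hq := hc.isClosedMap.isQuotientMap hc hs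
  have hf : ∀ q, IsConnected ((fun b : Gr 𝒳 L' => b.1.2) ⁻¹' {q}) := by
    intro q
    obtain ⟨z, rfl⟩ := L'.lattice.mkQ_surjective q
    have h1 : IsConnected {p | 𝒳.Ov p z} := 𝒳.fib _
    have h2 := h1.image (fun p : 𝒳.X => (p, L'.lattice.mkQ z))
      (continuous_id.prodMk continuous_const).continuousOn
    refine ⟨?_, ?_⟩
    · obtain ⟨b, hb⟩ := hs (L'.lattice.mkQ z)
      exact ⟨b, hb⟩
    · rw [← Topology.IsInducing.subtypeVal.isPreconnected_image]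
      have h3 : Subtype.val '' ((fun b : Gr 𝒳 L' => b.1.2) ⁻¹' {L'.lattice.mkQ z}) =
          (fun p : 𝒳.X => (p, L'.lattice.mkQ z)) '' {p | 𝒳.Ov p z} := by
        ext ⟨p, q⟩
        constructor
        · rintro ⟨b, hb, h⟩
          have hb' : b.1.2 = L'.lattice.mkQ z := hb
          refine ⟨b.1.1, ov_of hle b.2 hb', ?_⟩
          rw [← h, ← hb']
        · rintro ⟨p', hp', h⟩
          exact ⟨⟨(p', L'.lattice.mkQ z), z, hp', rfl⟩, rfl, h⟩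
      rw [h3]
      exact h2.isPreconnected
  haveI : ConnectedSpace (ℂ ⧸ L'.lattice) :=
    L'.lattice.mkQ_surjective.connectedSpace L'.lattice.continuous_mkQ
  have h := preimage_connectedComponent_connected hf hq.isCoinducing 0
  rw [PreconnectedSpace.connectedComponent_eq_univ, preimage_univ] at h
  exact connectedSpace_iff_univ.2 h

theorem main (hle : L'.lattice ≤ 𝒳.L.lattice) : Nonempty (CvT 𝒳 L'.lattice) := by
  haveI := cpt_Gr hle
  haveI := con_Gr hle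
  exact ⟨{
    X' := Gr 𝒳 L'
    π' := fun b => b.1.2
    pr := fun b => b.1.1
    cont := continuous_fst.comp continuous_subtype_val
    ov := fun a z h => ov_of hle a.2 h
    inj := fun a b h1 h2 => Subtype.ext (Prod.ext h1 h2)
    surj := fun p z h => ⟨⟨(p, L'.lattice.mkQ z), z, h, rfl⟩, rfl, rfl⟩
    lam := fun a z h => lam_loc hle a h
    tend := fun a z h l g φ h1 h2 h3 => tend a h l g φ h1 h2 h3
    map_pr := map_pr hle }⟩

end CovT

theorem sCovT : SCovT := by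
  intro 𝒳 n hn
  refine CovT.main ?_
  intro w hw
  obtain ⟨w₀, h0, rfl⟩ := mem_nL.1 hw
  simpa using 𝒳.L.lattice.smul_mem (n : ℤ) h0

end Pool.Agent.P.MP_7ede32_ag.Hod
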