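import Pool.Agent.P.MP_7ede32_ag.Hod.StB

/-!
The Weierstrass functions separate points modulo the lattice.
-/

open Set Filter Topology PeriodPair

namespace Pool.Agent.P.MP_7ede32_ag.Hod

namespace WpInj

variable (L : PeriodPair)

theorem countable_lattice : (L.lattice : Set ℂ).Countable := by
  have : Countable L.lattice := L.latticeEquivProd.toEquiv.countable_iff.2 inferInstance
  exact Set.countable_coe_iff.1 this

theorem isPreconnected_compl {S : Set ℂ} (h : S.Countable) : IsPreconnected Sᶜ :=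
  (h.isPathConnected_compl_of_one_lt_rank (by simp)).isConnected.isPreconnected

theorem wp_eq (z : ℂ) : ℘[L] z = L.weierstrassPExcept 0 z + 1 / z ^ 2 := by
  have := L.weierstrassPExcept_add 0 z
  simpa using this.symm

theorem wp'_eq (z : ℂ) : ℘'[L] z = L.derivWeierstrassPExcept 0 z - 2 / z ^ 3 := by
  have := L.derivWeierstrassPExcept_sub 0 z
  simpa using this.symm

theorem preconn : IsPreconnected (L.lattice : Set ℂ)ᶜ :=
  isPreconnected_compl (countable_lattice L)

theorem ev_not_mem (a : ℂ) : ∀ᶠ u in 𝓝[≠] (0 : ℂ), a + u ∉ L.lattice := by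
  have h : ContinuousAt (fun u : ℂ => a + u) 0 := by fun_prop
  have h2 := h.preimage_mem_nhds (by simpa using L.compl_lattice_sdiff_singleton_mem_nhds a)
  filter_upwards [mem_nhdsWithin_of_mem_nhds h2, self_mem_nhdsWithin] with u hu h0 hm
  exact hu ⟨hm, by simpa using h0⟩

theorem ev_not_mem0 : ∀ᶠ u in 𝓝[≠] (0 : ℂ), u ∉ L.lattice := by
  simpa using ev_not_mem L 0

/-- the pole at the origin -/
theorem pole {h : ℂ → ℂ} (hh : ContinuousAt h 0) : ∀ᶠ u in 𝓝[≠] (0 : ℂ), ℘[L] u ≠ h u := by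
  have hp := (L.analyticAt_weierstrassPExcept 0).continuousAt
  have h1 : ContinuousAt (fun u : ℂ => 1 + u ^ 2 * (L.weierstrassPExcept 0 u - h u)) 0 := by
    fun_prop
  have h2 := h1.eventually_ne (y := 0) (by simp)
  filter_upwards [mem_nhdsWithin_of_mem_nhds h2, self_mem_nhdsWithin] with u hu h0 e
  have h0' : u ≠ 0 := h0
  apply hu
  rw [← e, wp_eq]
  field_simp
  ring

theorem hasDeriv_wp {z : ℂ} (hz : z ∉ L.lattice) : HasDerivAt ℘[L] (℘'[L] z) z := by
  have := (L.analyticOnNhd_weierstrassP z hz).differentiableAt.hasDerivAt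
  rwa [deriv_weierstrassP] at this

theorem hasDeriv_wp' {z : ℂ} (hz : z ∉ L.lattice) :
    HasDerivAt ℘'[L] (6 * ℘[L] z ^ 2 - L.g₂ / 2) z := by
  have a1 := L.analyticOnNhd_weierstrassP
  have a2 := L.analyticOnNhd_derivWeierstrassP
  have a3 : AnalyticOnNhd ℂ (fun z => deriv ℘'[L] z - (6 * ℘[L] z ^ 2 - L.g₂ / 2))
      (L.lattice : Set ℂ)ᶜ := fun x hx => by
    have := a1 x hx
    have := (a2 x hx).deriv
    fun_prop
  have key : ∀ x ∈ (L.lattice : Set ℂ)ᶜ,
      ℘'[L] x * (deriv ℘'[L] x - (6 * ℘[L] x ^ 2 - L.g₂ / 2)) = 0 := by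
    intro x hx
    have d1 := hasDeriv_wp L hx
    have d2 := (a2 x hx).differentiableAt.hasDerivAt
    have e : (fun z => ℘'[L] z ^ 2) =ᶠ[𝓝 x] fun z => 4 * ℘[L] z ^ 3 - L.g₂ * ℘[L] z - L.g₃ := by
      filter_upwards [L.isClosed_lattice.isOpen_compl.mem_nhds hx] with y hy
      exact L.derivWeierstrassP_sq y hy
    have d3 := d2.fun_pow 2
    have d4 := (((d1.fun_pow 3).const_mul 4).fun_sub (d1.const_mul L.g₂)).sub_const L.g₃
    have := (d4.congr_of_eventuallyEq e).unique d3
    simp only [Nat.cast_ofNat, Nat.add_one_sub_one, pow_one] at this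
    linear_combination (-1 / 2) * this
  rcases a2.eq_zero_or_eq_zero_of_mul_eq_zero a3 key (preconn L) with h | h
  · exfalso
    have hp := (L.analyticAt_derivWeierstrassPExcept 0).continuousAt
    have h1 : ContinuousAt (fun u : ℂ => u ^ 3 * L.derivWeierstrassPExcept 0 u - 2) 0 := by
      fun_prop
    have h2 := h1.eventually_ne (y := 0) (by simp)
    obtain ⟨u, hu, h3, h0⟩ := ((h2.filter_mono (nhdsWithin_le_nhds (s := {0}ᶜ))).and
      ((ev_not_mem0 L).and self_mem_nhdsWithin)).exists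
    have h0' : u ≠ 0 := h0
    have h4 := h u h3
    rw [wp'_eq] at h4
    apply hu
    field_simp at h4
    linear_combination h4
  · have := (a2 z hz).differentiableAt.hasDerivAt
    rwa [sub_eq_zero.1 (h z hz)] at this

/-- uniqueness for a linear second order equation with analytic coefficient -/
theorem ode {u g : ℂ → ℂ} (hu : AnalyticAt ℂ u 0) (hg : AnalyticAt ℂ g 0) (h0 : u 0 = 0)
    (h1 : deriv u 0 = 0) (h2 : deriv (deriv u) =ᶠ[𝓝 0] g * u) : ∀ᶠ z in 𝓝 0, u z = 0 := by
  rw [← analyticOrderAt_eq_top]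
  have e1 := hu.analyticOrderAt_deriv_add_one
  have e2 := hu.deriv.analyticOrderAt_deriv_add_one
  simp only [h0, h1, sub_zero] at e1 e2
  rw [analyticOrderAt_congr h2, analyticOrderAt_mul hg hu] at e2
  change _ = analyticOrderAt u 0 at e1
  change _ = analyticOrderAt (deriv u) 0 at e2
  rw [← e2] at e1
  generalize analyticOrderAt u 0 = n at e1
  generalize analyticOrderAt g 0 = m at e1
  cases n with
  | top => rfl
  | coe n =>
    cases m with
    | top => simp at e1
    | coe m =>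
      norm_cast at e1
      omega

theorem near {a b : ℂ} (ha : a ∉ L.lattice) (hb : b ∉ L.lattice) (h0 : ℘[L] a = ℘[L] b)
    (h1 : ℘'[L] a = ℘'[L] b) : ∀ᶠ t in 𝓝 (0 : ℂ), ℘[L] (a + t) - ℘[L] (b + t) = 0 := by
  have ev : ∀ c : ℂ, c ∉ L.lattice → ∀ᶠ t in 𝓝 (0 : ℂ), c + t ∉ L.lattice := fun c hc => by
    have h : ContinuousAt (fun u : ℂ => c + u) 0 := by fun_prop
    exact h.preimage_mem_nhds (by simpa using L.isClosed_lattice.isOpen_compl.mem_nhds hc)
  have an : ∀ c : ℂ, c ∉ L.lattice → AnalyticAt ℂ (fun t => ℘[L] (c + t)) 0 := fun c hc =>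
    (L.analyticOnNhd_weierstrassP (c + 0) (by simpa using hc)).comp (by fun_prop)
  have e1 : deriv (fun t => ℘[L] (a + t) - ℘[L] (b + t)) =ᶠ[𝓝 0]
      fun t => ℘'[L] (a + t) - ℘'[L] (b + t) := by
    filter_upwards [ev a ha, ev b hb] with t h h'
    exact (((hasDeriv_wp L h).comp_const_add a t).fun_sub
      ((hasDeriv_wp L h').comp_const_add b t)).deriv
  have := an a ha
  have := an b hb
  refine ode (g := fun t => 6 * (℘[L] (a + t) + ℘[L] (b + t))) (by fun_prop) (by fun_prop)
    (by simp [h0]) (by simp [e1.self_of_nhds, h1]) (e1.deriv.trans ?_)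
  filter_upwards [ev a ha, ev b hb] with t h h'
  rw [(((hasDeriv_wp' L h).comp_const_add a t).fun_sub
      ((hasDeriv_wp' L h').comp_const_add b t)).deriv]
  simp only [Pi.mul_apply]
  ring

end WpInj

open WpInj in
theorem sWpInj : SWpInj := by
  intro L a b ha hb h0 h1
  by_contra hab
  set U : Set ℂ := ((fun l => l - a) '' L.lattice ∪ (fun l => l - b) '' L.lattice)ᶜ with hU
  have hmem : ∀ x, x ∈ U ↔ a + x ∉ L.lattice ∧ b + x ∉ L.lattice := by
    intro x
    simp only [hU, mem_compl_iff, mem_union, not_or, mem_image, SetLike.mem_coe]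
    refine and_congr (not_congr ⟨?_, fun h => ⟨_, h, by ring⟩⟩)
      (not_congr ⟨?_, fun h => ⟨_, h, by ring⟩⟩) <;>
    · rintro ⟨l, hl, rfl⟩
      simpa using hl
  have hUc : IsPreconnected U := isPreconnected_compl
    (((countable_lattice L).image _).union ((countable_lattice L).image _))
  have an : AnalyticOnNhd ℂ (fun t => ℘[L] (a + t) - ℘[L] (b + t)) U := fun x hx => by
    obtain ⟨h, h'⟩ := (hmem x).1 hx
    have a1 : AnalyticAt ℂ (fun t => ℘[L] (a + t)) x :=
      (L.analyticOnNhd_weierstrassP (a + x) h).comp (by fun_prop)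
    have a2 : AnalyticAt ℂ (fun t => ℘[L] (b + t)) x :=
      (L.analyticOnNhd_weierstrassP (b + x) h').comp (by fun_prop)
    fun_prop
  have e := an.eqOn_zero_of_preconnected_of_eventuallyEq_zero hUc
    ((hmem 0).2 ⟨by simpa using ha, by simpa using hb⟩) (near L ha hb h0 h1)
  have hba : b - a + 0 ∉ L.lattice := fun h => hab (by simpa using neg_mem h)
  have c1 : ContinuousAt (fun u : ℂ => ℘[L] (b - a + u)) 0 :=
    ((L.analyticOnNhd_weierstrassP (b - a + 0) hba).comp (by fun_prop)).continuousAt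
  obtain ⟨u, h2, h3, h4⟩ := ((pole L c1).and ((ev_not_mem0 L).and (ev_not_mem L (b - a)))).exists
  have e1 : a + (u - a) = u := by ring
  have e2 : b + (u - a) = b - a + u := by ring
  have := e ((hmem (u - a)).2 ⟨by rwa [e1], by rwa [e2]⟩)
  simp only [e1, e2, Pi.zero_apply] at this
  exact h2 (sub_eq_zero.1 this)

end Pool.Agent.P.MP_7ede32_ag.Hod
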