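import Pool.Agent.P.MP_7ede32_ag.Hod.StR

/-!
The area formula for a locally injective analytic map with finite fibres.
-/

open Set Filter Topology MeasureTheory Function

namespace Pool.Agent.P.MP_7ede32_ag.Hod

namespace AreaP

lemma exists_pieces {O : Set ℂ} {g : ℂ → ℂ} (hO : IsOpen O)
    (hg : ∀ v ∈ O, AnalyticAt ℂ g v ∧ deriv g v ≠ 0) :
    ∃ s : ℕ → Set ℂ, (∀ n, MeasurableSet (s n)) ∧ Pairwise (Disjoint on s) ∧ ⋃ n, s n = O ∧
      ∀ n, InjOn g (s n) := by
  set S : Set (Set ℂ) := {U | IsOpen U ∧ U ⊆ O ∧ InjOn g U} with hS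
  obtain ⟨T, hT, hTS, hU⟩ := TopologicalSpace.isOpen_sUnion_countable S (fun U hU => hU.1)
  have hSO : ⋃₀ S = O := by
    refine Subset.antisymm (sUnion_subset fun U hU => hU.2.1) fun v hv => ?_
    have h1 : HasStrictDerivAt g (deriv g v) v := (hg v hv).1.hasStrictDerivAt
    have h2 := h1.eventually_left_inverse (hg v hv).2
    obtain ⟨U, hU1, hU2, hU3⟩ := mem_nhds_iff.1 (h2.and (hO.mem_nhds hv))
    refine ⟨U, ⟨hU2, fun x hx => (hU1 hx).2, fun x hx y hy hxy => ?_⟩, hU3⟩
    have hx' := (hU1 hx).1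
    have hy' := (hU1 hy).1
    rw [← hx', ← hy', hxy]
  obtain ⟨u, hu⟩ := (hT.insert ∅).exists_eq_range (insert_nonempty _ _)
  have huS : ∀ n, u n ∈ S := fun n => by
    have : u n ∈ insert ∅ T := hu ▸ mem_range_self n
    rcases this with h | h
    · rw [h]; exact ⟨isOpen_empty, empty_subset _, injOn_empty _⟩
    · exact hTS h
  refine ⟨disjointed u, fun n => MeasurableSet.disjointed (fun i => (huS i).1.measurableSet) n,
    disjoint_disjointed u, ?_, fun n => (huS n).2.2.mono (disjointed_subset u n)⟩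
  rw [iUnion_disjointed, ← sUnion_range, ← hu, sUnion_insert, empty_union, hU, hSO]

/-- The real derivative given by a complex number. -/
noncomputable def dm (a : ℂ) : ℂ →L[ℝ] ℂ :=
  (ContinuousLinearMap.toSpanSingleton ℂ a).restrictScalars ℝ

lemma det_dm (a : ℂ) : |(dm a).det| = ‖a‖ ^ 2 := by
  have h : (dm a).det = Algebra.norm ℝ
      (LinearMap.det ((ContinuousLinearMap.toSpanSingleton ℂ a : ℂ →L[ℂ] ℂ) : ℂ →ₗ[ℂ] ℂ)) := by
    rw [← LinearMap.det_restrictScalars]; rfl
  have h2 : LinearMap.det ((ContinuousLinearMap.toSpanSingleton ℂ a : ℂ →L[ℂ] ℂ) : ℂ →ₗ[ℂ] ℂ)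
      = a := ContinuousLinearMap.det_toSpanSingleton a
  rw [h, h2, Algebra.norm_complex_apply, Complex.normSq_eq_norm_sq, abs_of_nonneg (sq_nonneg _)]

lemma integrable_tsum {G : ℕ → ℂ → ℂ} (h1 : ∀ n, Integrable (G n))
    (h2 : Summable fun n => ∫ a, ‖G n a‖) (h3 : ∀ a, Summable fun n => G n a) :
    Integrable fun a => ∑' n, G n a := by
  refine ⟨?_, ?_⟩
  · refine aestronglyMeasurable_of_tendsto_ae atTop
      (f := fun N a => ∑ n ∈ Finset.range N, G n a) (fun N => ?_) (.of_forall fun a => ?_)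
    · exact (integrable_finsetSum _ fun n _ => h1 n).1
    · exact (h3 a).hasSum.tendsto_sum_nat
  · refine lt_of_le_of_lt (lintegral_mono fun a => enorm_tsum_le_tsum_enorm) ?_
    rw [lintegral_tsum fun n => (h1 n).1.enorm]
    have h4 : ∀ n, ∫⁻ a, ‖G n a‖ₑ = ENNReal.ofReal (∫ a, ‖G n a‖) := fun n =>
      (ofReal_integral_norm_eq_lintegral_enorm (h1 n)).symm
    simp only [h4]
    rw [← ENNReal.ofReal_tsum_of_nonneg (fun n => integral_nonneg fun a => norm_nonneg _) h2]
    exact ENNReal.ofReal_lt_top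

end AreaP

open AreaP in
theorem sArea : SArea := by
  classical
  intro O g F hO hg hfin hint
  obtain ⟨s, hm, hd, hU, hinj⟩ := exists_pieces hO hg
  have hsO : ∀ n, s n ⊆ O := fun n => hU ▸ subset_iUnion s n
  have hder : ∀ n, ∀ x ∈ s n, HasFDerivWithinAt g (dm (deriv g x)) (s n) x := fun n x hx =>
    ((hg x (hsO n hx)).1.differentiableAt.hasDerivAt.hasFDerivAt.restrictScalars
      ℝ).hasFDerivWithinAt
  have hmi : ∀ n, MeasurableSet (g '' s n) := fun n =>
    measurable_image_of_fderivWithin (hm n) (hder n) (hinj n)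
  set H : ℂ → ℂ := fun v => F v * ((‖deriv g v‖ ^ 2 : ℝ) : ℂ) with hH
  set G : ℕ → ℂ → ℂ := fun n => indicator (g '' s n) (fun ξ => F (invFunOn g (s n) ξ)) with hG
  have hE : ∀ n, EqOn (fun x => |(dm (deriv g x)).det| • F (invFunOn g (s n) (g x))) H (s n) :=
    fun n x hx => by
      simp only [hH]
      rw [det_dm, (hinj n).leftInvOn_invFunOn hx, Complex.real_smul, mul_comm]
  have hEn : ∀ n, EqOn (fun x => |(dm (deriv g x)).det| • ‖F (invFunOn g (s n) (g x))‖)
      (fun x => ‖H x‖) (s n) := fun n x hx => by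
    have := hE n hx
    simp only at this ⊢
    rw [← this, norm_smul, Real.norm_eq_abs, abs_abs, smul_eq_mul]
  have hGi : ∀ n, Integrable (G n) := fun n => by
    simp only [hG]
    rw [integrable_indicator_iff (hmi n),
      integrableOn_image_iff_integrableOn_abs_det_fderiv_smul volume (hm n) (hder n) (hinj n),
      integrableOn_congr_fun (hE n) (hm n)]
    exact hint.mono_set (hsO n)
  have hGv : ∀ n, ∫ a, G n a = ∫ x in s n, H x := fun n => by
    simp only [hG]
    rw [integral_indicator (hmi n),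
      integral_image_eq_integral_abs_det_fderiv_smul volume (hm n) (hder n) (hinj n)]
    exact setIntegral_congr_fun (hm n) (hE n)
  have hGn : ∀ n, ∫ a, ‖G n a‖ = ∫ x in s n, ‖H x‖ := fun n => by
    simp only [hG, norm_indicator_eq_indicator_norm]
    rw [integral_indicator (hmi n),
      integral_image_eq_integral_abs_det_fderiv_smul volume (hm n) (hder n) (hinj n)]
    exact setIntegral_congr_fun (hm n) (hEn n)
  have hsum : Summable fun n => ∫ a, ‖G n a‖ := by
    simp only [hGn]
    exact (hasSum_integral_iUnion hm hd (f := fun x => ‖H x‖) (hU ▸ hint.norm)).summable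
  have hpt : ∀ ξ, HasSum (fun n => G n ξ) (∑ᶠ v ∈ {v | v ∈ O ∧ g v = ξ}, F v) := fun ξ => by
    rw [finsum_mem_eq_finite_toFinset_sum _ (hfin ξ)]
    have h1 : ∀ n, G n ξ = ∑ v ∈ (hfin ξ).toFinset, indicator (s n) F v := fun n => by
      by_cases hξ : ξ ∈ g '' s n
      · obtain ⟨w, hw, rfl⟩ := hξ
        rw [Finset.sum_eq_single w]
        · simp only [hG]
          rw [indicator_of_mem (mem_image_of_mem g hw), indicator_of_mem hw,
            (hinj n).leftInvOn_invFunOn hw]
        · intro v hv hvw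
          refine indicator_of_notMem (fun hvs => hvw ?_) _
          exact hinj n hvs hw ((Finite.mem_toFinset _).1 hv).2
        · intro h
          exact absurd ((hfin (g w)).mem_toFinset.2 ⟨hsO n hw, rfl⟩) h
      · simp only [hG]
        rw [indicator_of_notMem hξ]
        refine (Finset.sum_eq_zero fun v hv => indicator_of_notMem (fun hvs => hξ ?_) _).symm
        exact ⟨v, hvs, ((Finite.mem_toFinset _).1 hv).2⟩
    simp only [h1]
    refine hasSum_sum fun v hv => ?_
    have hvO : v ∈ ⋃ n, s n := hU ▸ ((Finite.mem_toFinset _).1 hv).1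
    obtain ⟨n, hn⟩ := mem_iUnion.1 hvO
    have h2 := hasSum_single (f := fun m => indicator (s m) F v) n fun m hmn =>
      indicator_of_notMem (fun hvm => disjoint_left.1 (hd hmn) hvm hn) _
    simpa only [indicator_of_mem hn] using h2
  have hfun : (fun ξ => ∑ᶠ v ∈ {v | v ∈ O ∧ g v = ξ}, F v) = fun ξ => ∑' n, G n ξ :=
    funext fun ξ => (hpt ξ).tsum_eq.symm
  rw [hfun]
  refine ⟨integrable_tsum hGi hsum fun a => (hpt a).summable, ?_⟩
  have h1 := hasSum_integral_of_summable_integral_norm hGi hsum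
  simp only [hGv] at h1
  have h2 := hasSum_integral_iUnion hm hd (f := H) (hU ▸ hint)
  rw [hU] at h2
  exact h1.unique h2

end Pool.Agent.P.MP_7ede32_ag.Hod
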