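import Pool.Agent.P.MP_7ede32_ag.Hod.StB

/-!
The sum of the residues of an elliptic function is zero.
-/

open Set Filter Topology Metric ComplexConjugate

namespace Pool.Agent.P.MP_7ede32_ag.Hod

open Full (cd_iff)

namespace EllResP

variable {L : PeriodPair} {c e : ℂ → ℂ} {z n m : ℂ}

/-- `c` has at most a simple pole at `z`, with residue `n` -/
def Rs (c : ℂ → ℂ) (z n : ℂ) : Prop :=
  ∃ a : ℂ → ℂ, AnalyticAt ℂ a z ∧ ∀ᶠ t in 𝓝[≠] z, c t = n / (t - z) + a t

/-- quasi-periodic functions -/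
def QP (L : PeriodPair) (e : ℂ → ℂ) (κ : ℝ) : Prop :=
  ∀ w ∈ L.lattice, ∀ z, ∀ᶠ t in 𝓝[≠] z, e (t + w) = e t + κ * conj w

theorem rs_of_LW {w : ℂ → ℂ} (h : LW c z w) : ∃ n : ℕ, Rs c z n ∧ (w z = 0 ↔ n ≠ 0) := by
  obtain ⟨h1, h2⟩ := h
  have h3 : ¬ ∀ᶠ t in 𝓝 z, w t = 0 := fun h3 => by
    obtain ⟨t, h4, h5⟩ := (h2.and (mem_nhdsWithin_of_mem_nhds h3)).exists
    exact h4.1 h5
  obtain ⟨n, g, hg, hg0, hw⟩ := h1.exists_eventuallyEq_pow_smul_nonzero_iff.2 h3
  refine ⟨n, ⟨fun t => deriv g t / g t, hg.deriv.div hg hg0, ?_⟩, ?_⟩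
  · filter_upwards [h2, mem_nhdsWithin_of_mem_nhds (hw.eventually_nhds.and
      (hg.eventually_analyticAt.and (hg.continuousAt.eventually_ne hg0))),
      self_mem_nhdsWithin] with t h4 h5 h6
    have h7 : t - z ≠ 0 := sub_ne_zero.2 h6
    have h8 : HasDerivAt (fun s => (s - z) ^ n • g s)
        ((n * (t - z) ^ (n - 1) * 1) * g t + (t - z) ^ n * deriv g t) t :=
      (((hasDerivAt_id' t).sub_const z).fun_pow n).mul h5.2.1.differentiableAt.hasDerivAt
    have h9 := (h8.congr_of_eventuallyEq h5.1).deriv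
    have h10 := h5.1.self_of_nhds
    refine mul_right_cancel₀ h4.1 ?_
    rw [← h4.2, h9, h10, smul_eq_mul]
    have h11 := h5.2.2
    rcases n with _ | n
    · simp [h11]
    · rw [Nat.add_sub_cancel]
      field_simp
      ring
  · rw [hw.self_of_nhds]
    simp [hg0]

theorem rs_unique (h : Rs c z n) (h' : Rs c z m) : n = m := by
  have key : ∀ {k : ℂ}, Rs c z k → Tendsto (fun t => (t - z) * c t) (𝓝[≠] z) (𝓝 k) := by
    rintro k ⟨a, ha, h1⟩
    have h2 : ContinuousAt (fun t => k + (t - z) * a t) z := by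
      have := ha.continuousAt
      fun_prop
    have h3 := h2.tendsto.mono_left (nhdsWithin_le_nhds (s := {z}ᶜ))
    rw [sub_self, zero_mul, add_zero] at h3
    refine h3.congr' ?_
    filter_upwards [h1, self_mem_nhdsWithin] with t h4 h5
    have h6 : t - z ≠ 0 := sub_ne_zero.2 h5
    rw [h4]
    field_simp
  exact tendsto_nhds_unique (key h) (key h')

theorem rs_near (h : Rs c z n) : ∀ᶠ s in 𝓝[≠] z, Rs c s 0 := by
  obtain ⟨a, ha, h1⟩ := h
  filter_upwards [(eventually_eventually_nhdsWithin.2 h1), mem_nhdsWithin_of_mem_nhds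
    ha.eventually_analyticAt, self_mem_nhdsWithin] with s h2 h3 h4
  rw [isOpen_compl_singleton.nhdsWithin_eq h4] at h2
  refine ⟨fun t => n / (t - z) + a t, (analyticAt_const.div (analyticAt_id.sub analyticAt_const)
    (sub_ne_zero.2 h4)).add h3, ?_⟩
  filter_upwards [mem_nhdsWithin_of_mem_nhds h2] with t ht
  rw [ht, zero_div, zero_add]

theorem tendsto_add (z w : ℂ) : Tendsto (fun t => t + w) (𝓝[≠] z) (𝓝[≠] (z + w)) := by
  refine tendsto_nhdsWithin_iff.2 ⟨?_, ?_⟩
  · exact ((continuous_id.add continuous_const).tendsto z).mono_left nhdsWithin_le_nhds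
  · filter_upwards [self_mem_nhdsWithin] with t ht
    exact fun h => ht (add_right_cancel h)

theorem rs_per {κ : ℝ} (he : QP L e κ) {w : ℂ} (hw : w ∈ L.lattice) (h : Rs e (z + w) n) :
    Rs e z n := by
  obtain ⟨a, ha, h1⟩ := h
  refine ⟨fun t => a (t + w) - κ * conj w, (ha.comp_of_eq (analyticAt_id.add analyticAt_const)
    rfl).sub analyticAt_const, ?_⟩
  filter_upwards [(tendsto_add z w).eventually h1, he w hw z] with t h2 h3
  rw [add_sub_add_right_eq_sub] at h2
  linear_combination h2 - h3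

theorem rs_sub (h : Rs c z n) (h' : Rs e z m) (k : ℂ) :
    Rs (fun t => c t - k * e t) z (n - k * m) := by
  obtain ⟨a, ha, h1⟩ := h
  obtain ⟨b, hb, h2⟩ := h'
  refine ⟨fun t => a t - k * b t, ha.sub (analyticAt_const.mul hb), ?_⟩
  filter_upwards [h1, h2] with t h3 h4
  rw [h3, h4]
  ring

theorem det_ne (L : PeriodPair) : L.ω₁.re * L.ω₂.im - L.ω₁.im * L.ω₂.re ≠ 0 := fun h => by
  have h1 := LinearIndependent.pair_iff.1 L.indep L.ω₂.im (-L.ω₁.im) (by
    apply Complex.ext <;> simp <;> linarith)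
  have h2 := LinearIndependent.pair_iff.1 L.indep L.ω₂.re (-L.ω₁.re) (by
    apply Complex.ext <;> simp <;> linarith)
  have h3 : L.ω₂ = 0 := Complex.ext h2.1 h1.1
  exact one_ne_zero (LinearIndependent.pair_iff.1 L.indep 0 1 (by simp [h3])).2

/-- an entire quasi-periodic function is periodic -/
theorem base {κ : ℝ} (he : QP L e κ) (h : ∀ z, Rs e z 0) : κ = 0 := by
  choose a ha h1 using h
  simp only [zero_div, zero_add] at h1
  have uniq : ∀ {f g : ℂ → ℂ} {z : ℂ}, ContinuousAt f z → ContinuousAt g z →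
      (∀ᶠ t in 𝓝[≠] z, f t = g t) → f z = g z := fun hf hg h =>
    tendsto_nhds_unique_of_eventuallyEq (hf.tendsto.mono_left nhdsWithin_le_nhds)
      (hg.tendsto.mono_left nhdsWithin_le_nhds) h
  have h2 : ∀ z, ∀ᶠ s in 𝓝[≠] z, a s s = a z s := fun z => by
    filter_upwards [(eventually_eventually_nhdsWithin.2 (h1 z)), mem_nhdsWithin_of_mem_nhds
      (ha z).eventually_analyticAt, self_mem_nhdsWithin] with s h2 h3 h4
    rw [isOpen_compl_singleton.nhdsWithin_eq h4] at h2
    refine uniq (ha s).continuousAt h3.continuousAt ?_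
    filter_upwards [h1 s, mem_nhdsWithin_of_mem_nhds h2] with t h5 h6
    rw [← h5, h6]
  have h3 : ∀ z, AnalyticAt ℂ (fun s => a s s) z := fun z => by
    refine (ha z).congr ?_
    have h4 : ∀ᶠ s in 𝓝 z, a s s = a z s := by
      rw [← nhdsNE_sup_pure, eventually_sup]
      exact ⟨h2 z, rfl⟩
    filter_upwards [h4] with s hs using hs.symm
  have h4 : ∀ z, ∀ᶠ s in 𝓝[≠] z, e s = a s s := fun z => by
    filter_upwards [h1 z, h2 z] with s h5 h6 using h5.trans h6.symm
  obtain ⟨E, hE⟩ : ∃ E : ℂ → ℂ, E = fun s => a s s := ⟨_, rfl⟩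
  have h5 : ∀ z, ∀ᶠ s in 𝓝[≠] z, e s = E s := by simpa only [hE] using h4
  have hd : Differentiable ℂ E := fun z => (hE ▸ h3 z).differentiableAt
  have hc := hd.continuous
  have h6 : ∀ w ∈ L.lattice, ∀ z, E (z + w) = E z + κ * conj w := fun w hw z => by
    refine uniq (f := fun t => E (t + w)) (g := fun t => E t + κ * conj w) (by fun_prop)
      (by fun_prop) ?_
    filter_upwards [(tendsto_add z w).eventually (h5 (z + w)), h5 z, he w hw z] with t p1 p2 p3
    rw [← p1, ← p2, p3]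
  have hd' : Differentiable ℂ (deriv E) := fun z => (hd.analyticAt z).deriv.differentiableAt
  have h7 := hd'.apply_eq_apply_of_bounded (IsZLattice.isCompact_range_of_periodic L.lattice _
    hd'.continuous fun z w hw => by
      rw [← deriv_comp_add_const, funext (h6 w hw), deriv_add_const]).isBounded
  have h8 := is_const_of_deriv_eq_zero (f := fun t => E t - deriv E 0 * t) (by fun_prop) fun t => by
    rw [((hd t).hasDerivAt.fun_sub ((hasDerivAt_id' t).const_mul _)).deriv, h7 t 0]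
    ring
  have h9 : ∀ w ∈ L.lattice, deriv E 0 * w = κ * conj w := fun w hw => by
    have p1 := h6 w hw 0
    have p2 := h8 w 0
    rw [zero_add] at p1
    linear_combination p1 - p2
  have h10 : κ * (conj L.ω₁ * L.ω₂ - conj L.ω₂ * L.ω₁) = 0 := by
    linear_combination L.ω₁ * h9 _ L.ω₂_mem_lattice - L.ω₂ * h9 _ L.ω₁_mem_lattice
  rcases mul_eq_zero.1 h10 with p | p
  · exact_mod_cast p
  · have := congrArg Complex.im p
    simp at this
    exact absurd (by linarith) (det_ne L)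

variable {σ : ℂ → ℂ} {β : ℝ}

theorem off (L : PeriodPair) (x z : ℂ) : ∀ᶠ t in 𝓝[≠] z, t - x ∉ L.lattice := by
  have h1 : Tendsto (fun t => t - x) (𝓝 z) (𝓝 (z - x)) :=
    (continuous_id.sub continuous_const).tendsto z
  filter_upwards [mem_nhdsWithin_of_mem_nhds (h1.eventually
    (L.compl_lattice_sdiff_singleton_mem_nhds (z - x))), self_mem_nhdsWithin] with t h2 h3 h4
  exact h2 ⟨h4, fun h5 => h3 (sub_left_injective h5)⟩

theorem zeta_LW (hσ : IsSig L σ β) (x z : ℂ) :
    LW (fun t => deriv σ (t - x) / σ (t - x)) z fun t => σ (t - x) := by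
  refine ⟨(hσ.diff.analyticAt _).comp (analyticAt_id.sub analyticAt_const), ?_⟩
  filter_upwards [off L x z] with t ht
  have h1 : σ (t - x) ≠ 0 := fun h => ht ((hσ.zero _).1 h)
  exact ⟨h1, by rw [deriv_comp_sub_const, div_mul_cancel₀ _ h1]⟩

theorem zeta_QP (hσ : IsSig L σ β) (x : ℂ) :
    QP L (fun t => deriv σ (t - x) / σ (t - x)) (2 * β) := by
  intro w hw z
  obtain ⟨C, hC, h1⟩ := hσ.per w hw
  have hC0 : C ≠ 0 := norm_pos_iff.1 (hC ▸ Real.exp_pos _)
  filter_upwards [off L x z] with t ht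
  have h2 : σ (t - x) ≠ 0 := fun h => ht ((hσ.zero _).1 h)
  have h3 := (((((hasDerivAt_id' (t - x)).const_mul (2 * β * conj w)).cexp).const_mul C).fun_mul
    (hσ.diff (t - x)).hasDerivAt).deriv
  rw [← funext h1, deriv_comp_add_const] at h3
  have h4 := Complex.exp_ne_zero (2 * β * conj w * (t - x))
  rw [add_sub_right_comm, h3, h1]
  push_cast
  field_simp
  ring

theorem step (hσ : IsSig L σ β) (F : Finset ℂ) : ∀ (e : ℂ → ℂ) (κ : ℝ), QP L e κ →
    (∀ z, ∃ n : ℕ, Rs e z n) → (∀ z, (∀ x ∈ F, z - x ∉ L.lattice) → Rs e z 0) →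
    0 ≤ κ ∧ (κ = 0 → ∀ z, Rs e z 0) := by
  classical
  induction F using Finset.induction_on with
  | empty =>
    intro e κ h1 _ h3
    have h4 : ∀ z, Rs e z 0 := fun z => h3 z (by simp)
    exact ⟨(base h1 h4).ge, fun _ => h4⟩
  | insert x F _ ih =>
    intro e κ h1 h2 h3
    obtain ⟨n, hn⟩ := h2 x
    obtain ⟨m, hm, hm0⟩ := rs_of_LW (zeta_LW hσ x x)
    have hm1 : m ≠ 0 := hm0.1 ((hσ.zero _).2 (by simp))
    have hm2 : (m : ℂ) ≠ 0 := Nat.cast_ne_zero.2 hm1
    have hq : QP L (fun t => e t - (n / m : ℂ) * (deriv σ (t - x) / σ (t - x)))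
        (κ - n / m * (2 * β)) := fun w hw z => by
      filter_upwards [h1 w hw z, zeta_QP hσ x w hw z] with t p1 p2
      rw [p1, p2]
      push_cast
      ring
    have hin : ∀ z, z - x ∈ L.lattice →
        Rs (fun t => e t - (n / m : ℂ) * (deriv σ (t - x) / σ (t - x))) z 0 := fun z hz => by
      refine rs_per hq (neg_mem hz) ?_
      have := rs_sub hn hm (n / m)
      rw [div_mul_cancel₀ _ hm2, sub_self] at this
      rwa [show z + -(z - x) = x by ring]
    have hout : ∀ z k, z - x ∉ L.lattice → Rs e z k →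
        Rs (fun t => e t - (n / m : ℂ) * (deriv σ (t - x) / σ (t - x))) z k := fun z k hz hk => by
      obtain ⟨j, hj, hj0⟩ := rs_of_LW (zeta_LW hσ x z)
      have hj1 : j = 0 := by_contra fun h => hz ((hσ.zero _).1 (hj0.2 h))
      simpa [hj1] using rs_sub hk hj (n / m)
    obtain ⟨h4, h5⟩ := ih _ _ hq
      (fun z => by
        by_cases hz : z - x ∈ L.lattice
        · exact ⟨0, by simpa using hin z hz⟩
        · exact (h2 z).imp fun k hk => hout z k hz hk)
      (fun z h => by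
        by_cases hz : z - x ∈ L.lattice
        · exact hin z hz
        · exact hout z 0 hz (h3 z ((Finset.forall_mem_insert _ _ _).2 ⟨hz, h⟩)))
    have hβ := hσ.pos
    have h6 : (0 : ℝ) ≤ n / m * (2 * β) := by positivity
    refine ⟨by linarith, fun h0 z => ?_⟩
    have h7 : (n / m : ℝ) = 0 :=
      (mul_eq_zero.1 (by linarith : (n / m : ℝ) * (2 * β) = 0)).resolve_right (by linarith)
    have h8 : (n / m : ℂ) = 0 := by simpa using congrArg Complex.ofReal h7
    simpa [h8] using h5 (by rw [h0, h7]; ring) z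

/-- finitely many classes -/
theorem exists_fin {q : ℂ → Prop} (h1 : ∀ᶠ t in cd, q t)
    (h2 : ∀ w ∈ L.lattice, ∀ t, q (t + w) → q t) :
    ∃ F : Finset ℂ, ∀ t, (∀ x ∈ F, t - x ∉ L.lattice) → q t := by
  have hK : IsCompact (closedBall (0 : ℂ) (∑ i, ‖L.basis i‖)) := isCompact_closedBall _ _
  have hf := hK.finite_sdiff_of_mem_codiscreteWithin
    (codiscreteWithin_mono (subset_univ _) h1)
  refine ⟨hf.toFinset, fun t ht => by_contra fun hq => ?_⟩
  have h3 : ((ZSpan.floor L.basis t : Submodule.span ℤ (range L.basis)) : ℂ) ∈ L.lattice := by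
    rw [L.lattice_eq_span_range_basis]
    exact Subtype.property _
  refine ht (ZSpan.fract L.basis t) (hf.mem_toFinset.2
    ⟨mem_closedBall_zero_iff.2 (ZSpan.norm_fract_le _ _), fun h4 => hq ?_⟩) ?_
  · refine h2 _ (neg_mem h3) t ?_
    rw [← sub_eq_add_neg, ← ZSpan.fract_apply]
    exact h4
  · rwa [ZSpan.fract_apply, sub_sub_cancel]

end EllResP

open EllResP in
theorem sEllRes (h : SSig) : SEllRes := by
  intro L c hper hLW z w hw hz
  obtain ⟨σ, β, hσ⟩ := h L
  have hq : QP L c 0 := fun w hw z => Eventually.of_forall fun t => by simp [hper w hw]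
  have h1 : ∀ z, ∃ n : ℕ, Rs c z n := fun z =>
    (hLW z).elim fun _ h => (rs_of_LW h).imp fun _ h => h.1
  obtain ⟨F, hF⟩ := exists_fin (L := L) (q := fun t => Rs c t 0)
    (cd_iff.2 fun x => (h1 x).elim fun _ h => rs_near h) fun w hw t h => rs_per hq hw h
  obtain ⟨n, hn, h0⟩ := rs_of_LW hw
  exact h0.1 hz (Nat.cast_eq_zero.1 (rs_unique hn ((step hσ F c 0 hq h1 hF).2 rfl z)))

end Pool.Agent.P.MP_7ede32_ag.Hod
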