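import Pool.Agent.P.MP_7ede32_ag.Hod.DX

/-!
The steps on the surface, as propositions.
-/

open Set Filter Topology Polynomial Matrix Bornology

namespace Pool.Agent.P.MP_7ede32_ag.Hod

open Geo (Sf0 wedge D)
open Full (Mf GT Nc PCh Sec)
open Ell (E2 jac)
open MP_5d7cf0_gt.T (RS)

/-- The family of meromorphic functions. -/
def SMgB : Prop :=
  ∀ (X : Type) [MetricSpace X] [PreconnectedSpace X] (S : Sf0 X) (L : PeriodPair),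
    S.Λ = L.lattice → Nc S → GT S → Nonempty (Mg S L)

/-- Almost all fibres are good. -/
def SBad2 : Prop := ∀ 𝒳 : Sx, ∀ᶠ z in cd, 𝒳.GdF z

/-- Normal form of the fibration at the generic points of a fibre. -/
def SNF : Prop :=
  ∀ (𝒳 : Sx) (z : ℂ), {p | 𝒳.Ov p z ∧ ¬ ∃ e μ, 𝒳.NF e p z μ}.Finite ∧ ∃ e p μ, 𝒳.NF e p z μ

/-- The covering `(t, x)`. -/
def SCovX1 : Prop :=
  ∀ (𝒳 : Sx) (z : ℂ), 𝒳.GdF z → (𝒳.Tz z).Finite ∧ ∀ ξ ∉ 𝒳.Tz z, 𝒳.CovAt z ξ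

/-- The degree of the covering. -/
def SCovX2 : Prop :=
  ∀ 𝒳 : Sx, ∃ n, 0 < n ∧ ∀ᶠ z in cd, ∀ ξ ∉ 𝒳.Tz z, (𝒳.Φf z ξ).card = n

/-- Integrality. -/
def SIntg : Prop :=
  ∀ (𝒳 : Sx) (i : 𝒳.M.ι), ∃ a : MvPolynomial (Fin 2) ℂ, a ≠ 0 ∧
    𝒳.PB (𝒳.M.ev (MvPolynomial.rename ![𝒳.M.iu, 𝒳.M.ix] a * MvPolynomial.X i))

/-- Symmetric functions in the fibres of the covering. -/
def SSymX : Prop :=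
  ∀ (𝒳 : Sx) (F y : 𝒳.X → ℂ), 𝒳.PB F → 𝒳.PB y →
    (∃ P : (KK 𝒳.L)[X][X], P.Monic ∧ 0 < P.natDegree ∧ ∀ᶠ z in cd, ∀ ξ ∉ 𝒳.Tz z,
      (sp P z).map (evalRingHom ξ) = ∏ p ∈ 𝒳.Φf z ξ, (X - C (y p))) ∧
    open Classical in ∃ N : (KK 𝒳.L)[X][X], ∀ᶠ z in cd, ∀ ξ ∉ 𝒳.Tz z,
      (sp N z).map (evalRingHom ξ) =
        ∑ p ∈ 𝒳.Φf z ξ, C (F p) * ∏ p' ∈ (𝒳.Φf z ξ).erase p, (X - C (y p'))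

/-- The plane model exists. -/
def SPm : Prop := ∀ 𝒳 : Sx, Nonempty (Pm 𝒳)

/-- The functions of the family are rational. -/
def SRatQ : Prop := ∀ (𝒳 : Sx) (Q : Pm 𝒳), Q.RatAll

/-- A smooth fibre is a compact Riemann surface. -/
def SFbE : Prop :=
  ∀ (𝒳 : Sx) (z : ℂ), (∀ p, 𝒳.Ov p z → ¬ 𝒳.S.Crit p) →
    ∃ (Y : Type) (_ : TopologicalSpace Y) (_ : ChartedSpace ℂ Y) (_ : RS Y),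
      Nonempty (FbD 𝒳 z Y)

/-- Almost all fibres are smooth models. -/
def SMdE : Prop := ∀ (𝒳 : Sx) (Q : Pm 𝒳), ∀ᶠ z in cd, Nonempty (MdX Q z)

/-- Rational functions are meromorphic. -/
def SQuot : Prop :=
  ∀ (𝒳 : Sx) (Q : Pm 𝒳) (ν : ℕ) (F : E3 → ℂ), Q.𝒴.Rat F → ∃ G ∈ cd, ∀ z p, 𝒳.Ov p z →
    ∀ e ∈ 𝒳.S.A, p ∈ e.source → ∃ a b : 𝒳.X → ℂ, 𝒳.S.AnAt a p ∧ 𝒳.S.AnAt b p ∧
      (∀ᶠ y in Q.Nb p z, b y ≠ 0 ∧ F (Q.jm z y) * 𝒳.W e y ^ ν * b y = a y) ∧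
      (z ∈ G → ∀ᶠ y in 𝓝[≠] p, 𝒳.Ov y z → b y ≠ 0)

/-- Holomorphic on the fibres implies holomorphic on the surface. -/
def SUp : Prop :=
  ∀ (𝒳 : Sx) (Q : Pm 𝒳) (Ψ : MFam Q) (ν : ℕ) (F : E3 → ℂ), Q.𝒴.Rat F →
    (∀ᶠ t in cd, ∀ h : t ∈ Ψ.G, (Ψ.mx t h).md.HolF ν F) → ∀ᶠ z in cd, Q.HXf ν F z

/-- Holomorphic on the surface implies holomorphic to first order along the fibres. -/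
def SMd2 : Prop :=
  ∀ (𝒳 : Sx) (Q : Pm 𝒳) (Ψ : MFam Q) (ν : ℕ) (F : E3 → ℂ), Q.𝒴.Rat F →
    (∀ᶠ z in cd, Q.HXf ν F z) → ∀ᶠ t in cd, ∀ h : t ∈ Ψ.G, (Ψ.mx t h).md.RegF ν F

/-- Poles along a fibre have finite order. -/
def SMero : Prop :=
  ∀ (𝒳 : Sx) (Q : Pm 𝒳) (ν : ℕ) (F : E3 → ℂ), Q.𝒴.Rat F → (∀ᶠ z in cd, Q.HXf ν F z) →
    ∀ z, ∃ k : ℕ, Q.HXf ν (fun q => (q.1 - z) ^ k * F q) z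

/-- Division by the equation of the fibre. -/
def SNF0 : Prop :=
  ∀ (𝒳 : Sx) (Q : Pm 𝒳) (ν : ℕ) (F : E3 → ℂ) (z : ℂ), Q.HXf ν F z →
    (∀ e p μ α, 𝒳.NF e p z μ → Q.Co e p z ν F α →
      ∀ k < μ, iteratedDeriv k (fun u => α (e.symm (u, 0))) 0 = 0) →
    Q.HXf ν (fun q => (q.1 - z)⁻¹ * F q) z

/-- Independence on the fibres, read in a chart. -/
def SInd : Prop :=
  ∀ (𝒳 : Sx) (T : Tk 𝒳) (e : Ch 𝒳.X) (p : 𝒳.X) (z : ℂ) (μ r ν : ℕ) (F : Fin r → E3 → ℂ)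
    (α : Fin r → 𝒳.X → ℂ), 𝒳.NF e p z μ → (∀ i, T.Q.Co e p z ν (F i) (α i)) →
    (∀ᶠ t in 𝓝[≠] z ⊓ cc, (∀ i, T.Q.𝒴.RatF t (F i)) ∧ T.Q.𝒴.Ind t F) →
    ∃ᶠ u in 𝓝[≠] (0 : ℂ), ∀ c : Fin r → ℂ,
      (∀ᶠ v in 𝓝 (0 : ℂ), ∑ i, c i * α i (e.symm (u, v)) = 0) → c = 0

/-- The poles of the elements of the lattice are bounded. -/
def SLat2 : Prop :=
  ∀ (𝒳 : Sx) (T : Cx 𝒳) (z : ℂ), ∃ k : ℕ, ∀ a ∈ T.Lat z, ExV (fun t => (t - z) ^ k • a t) z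

/-- The direct image is a system of lattices. -/
def SLat1 : Prop := ∀ (𝒳 : Sx) (T : Cx 𝒳), LS 𝒳.L T.Lat

/-- The Hodge norm dominates the values in a chart. -/
def SLow1 : Prop :=
  ∀ (𝒳 : Sx) (T : Cx 𝒳) (e : Ch 𝒳.X) (p : 𝒳.X) (z : ℂ) (μ : ℕ) (G : MF T.g)
    (α : Fin T.g → 𝒳.X → ℂ), 𝒳.NF e p z μ → MeM G z →
    (∀ i, T.Q.Co e p z 1 (T.row G i) (α i)) → ∃ c : ℝ, ∀ᶠ u in 𝓝[≠] (0 : ℂ), ∀ a : Fin T.g → ℂ,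
      ‖∑ i, a i * α i (e.symm (u, 0))‖ ^ 2 ≤ c * ‖u‖ ^ (2 * (μ - 1)) *
        (a ⬝ᵥ ((G (z + u ^ μ) * T.h (z + u ^ μ) * (G (z + u ^ μ))ᴴ) *ᵥ star a)).re

/-- The lower bound for the Hodge metric. -/
def SLowB : Prop :=
  ∀ (𝒳 : Sx) (T : Cx 𝒳) (z : ℂ) (G : MF T.g), Fr (T.Lat z) z G → LowB T.h G z

/-- A flat frame of the lattice. -/
def SFlatFr : Prop :=
  ∀ (L : PeriodPair) (g : ℕ) (m : Matrix (Fin g) (Fin g) (KK L)) (h G : MF g) (Λ : Set (VF g))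
    (z : ℂ), 0 < g → Fr Λ z G → (∀ᶠ t in cd, Fl h (km m) t) → LowB h G z → UpB h G z →
    ∃ Θ, FFr m Λ z Θ

/-- A component of the fibre on which a ratio of flat forms is not constant. -/
def SLeaf1 : Prop :=
  ∀ (𝒳 : Sx) (T : Cx 𝒳) (m : Matrix (Fin T.g) (Fin T.g) (KK 𝒳.L)) (s : E3 → ℂ) (z : ℂ)
    (Θ : MF T.g), 2 ≤ T.g → T.Q.𝒴.VFd T.N m s → FFr m (T.Lat z) z Θ →
    ∃ e p μ ρ, T.Leaf Θ e p z μ ρ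

/-- The ratio as a coordinate. -/
def SLeaf2 : Prop :=
  ∀ (𝒳 : Sx) (T : Cx 𝒳) (Θ : MF T.g) (e : Ch 𝒳.X) (p : 𝒳.X) (z : ℂ) (μ : ℕ) (ρ : 𝒳.X → ℂ),
    T.Leaf Θ e p z μ ρ → ∃ (e' : Ch 𝒳.X) (c : ℂ), T.Leaf Θ e' p z μ fun y => (e' y).2 + c

/-- The component has multiplicity one. -/
def SLeaf3 : Prop :=
  ∀ (𝒳 : Sx) (T : Cx 𝒳) (m : Matrix (Fin T.g) (Fin T.g) (KK 𝒳.L)) (s : E3 → ℂ) (z : ℂ)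
    (Θ : MF T.g) (e : Ch 𝒳.X) (p : 𝒳.X) (μ : ℕ) (c : ℂ), T.Q.𝒴.VFd T.N m s → FlF m z Θ →
    T.Leaf Θ e p z μ (fun y => (e y).2 + c) → T.Q.Str e p z s

/-- The Wronskian at a fibre. -/
def SWr1 : Prop :=
  ∀ (𝒳 : Sx) (T : Tk 𝒳) (s F : E3 → ℂ) (e : Ch 𝒳.X) (p : 𝒳.X) (z : ℂ) (ν r : ℕ) (α : 𝒳.X → ℂ)
    (c : Fin (r + 1) → KK 𝒳.L), T.Q.𝒴.Rat s → T.Q.𝒴.Rat F → T.Q.Str e p z s →
    T.Q.Co e p z ν F α →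
    (∀ᶠ q in T.Q.𝒴.gen, (T.Q.𝒴.LD ν s)^[r + 1] F q =
      ∑ k, rv (c k) q.1 * (T.Q.𝒴.LD ν s)^[k] F q) →
    (∀ᶠ t in cc, T.Q.𝒴.Ind t fun k : Fin (r + 1) => (T.Q.𝒴.LD ν s)^[k] F) →
    ∃ w, LW (rv (c (Fin.last r))) z w ∧ ((∀ᶠ y in 𝓝[≠] p, 𝒳.Ov y z → α y = 0) → w z = 0)

/-- Two pluricanonical sections with ratio `ξ`. -/
def SSecG : Prop :=
  ∀ (𝒳 : Sx) (T : Tk 𝒳), ∃ (ν : ℕ) (F : E3 → ℂ), 0 < ν ∧ T.Q.𝒴.Rat F ∧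
    (¬ ∀ᶠ q in T.Q.𝒴.gen, F q = 0) ∧ (∀ z, T.Q.HXf ν F z) ∧
    ∀ z, T.Q.HXf ν (fun q => q.2.1 * F q) z

/-- A function of the family that is independent of `x`. -/
def SIndX : Prop :=
  ∀ 𝒳 : Sx, ∃ i ∈ 𝒳.M.I, ∀ H : ℂ[X][X], H ≠ 0 →
    ∃ p ∉ 𝒳.Z, H.evalEval (𝒳.x p) (𝒳.M.f i p) ≠ 0

/-- A pluricanonical section that vanishes on a fibre. -/
def SSecV : Prop :=
  ∀ (𝒳 : Sx) (T : Tk 𝒳), ∃ (ν : ℕ) (F : E3 → ℂ) (z₁ : ℂ), T.Q.𝒴.Rat F ∧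
    (¬ ∀ᶠ q in T.Q.𝒴.gen, F q = 0) ∧ ∀ z p, 𝒳.Ov p z → ∀ e ∈ 𝒳.S.A, p ∈ e.source →
      ∃ α, T.Q.Co e p z ν F α ∧ (z = z₁ → ∀ᶠ y in 𝓝[≠] p, 𝒳.Ov y z → α y = 0)

/-- The two-form on the cover. -/
def SSecA : Prop :=
  ∀ (𝒳 : Sx) (T : Cx 𝒳) (n : ℕ) (z₁ : ℂ) (κ : VF T.g), PS 𝒳.L n z₁ κ → (∀ z, κ ∈ T.Lat z) →
    (∀ p, 𝒳.Ov p z₁ → ¬ 𝒳.S.Crit p) → (∀ i, T.Q.HXf 1 (T.φ i) z₁) → Nonempty (SecC 𝒳 n z₁)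

/-- The cover as a space. -/
def SCovT : Prop :=
  ∀ (𝒳 : Sx) (n : ℕ) (hn : 0 < n), Nonempty (CvT 𝒳 (nL 𝒳.L n hn).lattice)

/-- The atlas of the cover. -/
def SCovA : Prop := ∀ (𝒳 : Sx) (Λ' : Submodule ℤ ℂ) (T : CvT 𝒳 Λ'), Nonempty (CvA T)

/-- Sections on the cover. -/
def SPull : Prop :=
  ∀ (𝒳 : Sx) (n : ℕ) (hn : 0 < n) (T : CvT 𝒳 (nL 𝒳.L n hn).lattice) (𝒜 : CvA T) (m : ℕ)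
    (s : LSec 𝒳 n m), ∃ c, IsPull 𝒜 s c ∧
      (∀ e ∈ 𝒜.A, ∀ a ∈ e.source, AnalyticAt ℂ (c e) (e a)) ∧
      ∀ e ∈ 𝒜.A, ∀ e' ∈ 𝒜.A, ∀ a ∈ e.source, a ∈ e'.source →
        c e (e a) = c e' (e' a) * jac (fderiv ℂ (e' ∘ e.symm) (e a)) ^ m

/-- The working structure on the cover. -/
def SCovS : Prop :=
  ∀ (𝒳 : Sx) (n : ℕ) (hn : 0 < n) (T : CvT 𝒳 (nL 𝒳.L n hn).lattice) (𝒜 : CvA T)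
    (s : LSec 𝒳 n 1), ∃ S' : Sf0 T.X', IsCv 𝒜 S' ∧ IsPull 𝒜 s S'.ω

/-- The cover is of general type. -/
def SCov2 : Prop :=
  ∀ (𝒳 : Sx) (n : ℕ) (hn : 0 < n) (T : CvT 𝒳 (nL 𝒳.L n hn).lattice) (𝒜 : CvA T) (z₁ : ℂ)
    (_s : SecC 𝒳 n z₁) (S' : Sf0 T.X'), IsCv 𝒜 S' → Nonempty (GT S')

/-- The theorem for a surface with a two-form that vanishes on a smooth fibre. -/
def SConcl0 : Prop :=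
  ∀ (X : Type) [MetricSpace X] [CompactSpace X] [ConnectedSpace X] (S : Sf0 X) (L : PeriodPair)
    (x₀ : X), S.Λ = L.lattice → GT S → (∃ x, x ∉ S.Z) →
    (∀ x, S.π x = S.π x₀ → ¬ S.Crit x ∧ x ∈ S.Z) → Concl S

/-- Descent from the cover. -/
def SCov3 : Prop :=
  ∀ (𝒳 : Sx) (n : ℕ) (hn : 0 < n) (T : CvT 𝒳 (nL 𝒳.L n hn).lattice) (𝒜 : CvA T) (z₁ : ℂ)
    (s : SecC 𝒳 n z₁) (S' : Sf0 T.X'), IsCv 𝒜 S' → IsPull 𝒜 s.toLSec S'.ω → GT S' → Concl 𝒳.S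

end Pool.Agent.P.MP_7ede32_ag.Hod
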