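import Pool.Agent.P.MP_7ede32_ag.Hod.StX
import Pool.Agent.P.MP_7ede32_ag.Hod.StB
import Pool.Agent.P.MP_7ede32_ag.Hod.XT

/-!
Good fibres, and the normal form of the fibration.
-/

open Set Filter Topology Bornology

noncomputable section

namespace Pool.Agent.P.MP_7ede32_ag.Hod

open Geo (Sf0 wedge D)
open Ell (E2 lin_apply)

namespace Bad2P

theorem finite_of_iso {X : Type} [TopologicalSpace X] {K s : Set X} (hK : IsCompact K)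
    (hs : s ⊆ K) (h : ∀ p ∈ K, ∀ᶠ y in 𝓝[≠] p, y ∉ s) : s.Finite := by
  by_contra hi
  obtain ⟨p, hp, ha⟩ := Set.Infinite.exists_accPt_of_subset_isCompact hi hK hs
  exact (accPt_iff_frequently_nhdsNE.1 ha) (h p hp)

variable {𝒳 : Sx} {p y : 𝒳.X} {e : Ch 𝒳.X} {F G : 𝒳.X → ℂ} {z : ℂ}

theorem comp_chart (he : e ∈ 𝒳.S.A) (hy : y ∈ e.source) {g : E2 → ℂ}
    (hg : AnalyticAt ℂ g (e y)) : 𝒳.S.AnAt (g ∘ e) y ∧ D (g ∘ e) e y = fderiv ℂ g (e y) := by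
  have h : (g ∘ e) ∘ e.symm =ᶠ[𝓝 (e y)] g := by
    filter_upwards [e.open_target.mem_nhds (e.map_source hy)] with v hv
    simp [e.right_inv hv]
  exact ⟨Sf0.anAt_of_chart he hy (hg.congr h.symm), h.fderiv_eq⟩

theorem tendsto_ne (hp : p ∈ e.source) : Tendsto e (𝓝[≠] p) (𝓝[≠] (e p)) := by
  refine tendsto_nhdsWithin_iff.2 ⟨(e.continuousAt hp).tendsto.mono_left nhdsWithin_le_nhds, ?_⟩
  filter_upwards [self_mem_nhdsWithin, nhdsWithin_le_nhds (e.open_source.mem_nhds hp)]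
    with y h1 h2 h3
  exact h1 (e.injOn h2 hp h3)

/-- the normal form of a curve germ on the surface -/
theorem brX (h : SBrCh) (he : e ∈ 𝒳.S.A) (hp : p ∈ e.source) (h0 : e p = 0)
    (hF : 𝒳.S.AnAt F p) (hG : 𝒳.S.AnAt G p) (nF : ¬ ∀ᶠ y in 𝓝 p, F y = 0)
    (nG : ¬ ∀ᶠ y in 𝓝 p, G y = 0) : ∀ᶠ y in 𝓝[≠] p, y ∈ e.source ∧ (F y = 0 →
      ∃ (φ U V : E2 → ℂ) (i j : ℕ), AnalyticAt ℂ φ (e y) ∧ AnalyticAt ℂ U (e y) ∧
        AnalyticAt ℂ V (e y) ∧ φ (e y) = 0 ∧ fderiv ℂ φ (e y) ≠ 0 ∧ U (e y) ≠ 0 ∧ V (e y) ≠ 0 ∧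
        0 < i ∧ ∀ᶠ y' in 𝓝 y, F y' = φ (e y') ^ i * U (e y') ∧ G y' = φ (e y') ^ j * V (e y')) := by
  have h1 := h (F ∘ e.symm) (G ∘ e.symm) (h0 ▸ hF e he hp) (h0 ▸ hG e he hp)
    (fun a => nF ((Sx.eventually_chart hp).2 (h0 ▸ a)))
    (fun a => nG ((Sx.eventually_chart hp).2 (h0 ▸ a)))
  rw [← h0] at h1
  filter_upwards [(tendsto_ne hp).eventually h1,
    nhdsWithin_le_nhds (e.open_source.mem_nhds hp)] with y h2 hy
  refine ⟨hy, fun h3 => ?_⟩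
  obtain ⟨φ, U, V, i, j, a1, a2, a3, a4, a5, a6, a7, a8, a9⟩ := h2 (by simpa [e.left_inv hy])
  refine ⟨φ, U, V, i, j, a1, a2, a3, a4, a5, a6, a7, a8, ?_⟩
  filter_upwards [(e.continuousAt hy).eventually a9, e.open_source.mem_nhds hy] with y' b1 b2
  simpa [e.left_inv b2] using b1

theorem num_ne (p : 𝒳.X) : ¬ ∀ᶠ y in 𝓝 p, 𝒳.M.num p 𝒳.M.ix y = 0 := fun h => by
  have h1 : ∀ᶠ y in 𝓝 p, 𝒳.x y = 0 := by
    filter_upwards [h, (𝒳.M.U_open p).mem_nhds (𝒳.M.mem_U p)] with y h1 h2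
    rw [Sx.x, 𝒳.M.f_eq p _ y h2, h1, zero_div]
  obtain ⟨y, hy, h2⟩ := ((Sx.dense_off p).and_eventually h1.eventually_nhds).exists
  obtain ⟨e, he, hy'⟩ := 𝒳.S.cover y
  refine Sx.W_ne hy he hy' ?_
  have h3 : D 𝒳.x e y = 0 := by
    rw [Sf0.D_congr (g := fun _ => 0) h2 hy']
    exact fderiv_const_apply 0
  simp [Sx.W, h3, wedge]

theorem den_ne (p : 𝒳.X) : ¬ ∀ᶠ y in 𝓝 p, 𝒳.M.den p y = 0 := fun h => 𝒳.M.den_ne p <| by
  filter_upwards [h, (𝒳.M.U_open p).mem_nhds (𝒳.M.mem_U p)] with y h1 h2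
  exact (𝒳.M.Z_iff p y h2).2 h1

/-- the points of indeterminacy are isolated -/
theorem det_near (h : SBrCh) (p : 𝒳.X) : ∀ᶠ y in 𝓝[≠] p,
    𝒳.M.Gd 𝒳.x y ∨ Tendsto 𝒳.x (𝓝[𝒳.Zᶜ] y) (cobounded ℂ) := by
  obtain ⟨e, he, hp, h0⟩ := 𝒳.S.exists_chart0 p
  have ha := 𝒳.M.an p p (𝒳.M.mem_U p)
  filter_upwards [brX h he hp h0 ha.1 (ha.2 𝒳.M.ix) (den_ne p) (num_ne p),
    nhdsWithin_le_nhds ((𝒳.M.U_open p).mem_nhds (𝒳.M.mem_U p))] with y ⟨hy, h1⟩ hU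
  by_cases hZ : y ∈ 𝒳.Z
  swap
  · exact .inl (𝒳.M.gd_of_anAt (Sx.an_x hZ)).1
  obtain ⟨φ, U, V, i, j, a1, a2, a3, a4, -, a6, a7, -, a9⟩ := h1 ((𝒳.M.Z_iff p y hU).1 hZ)
  have hx : ∀ᶠ y' in 𝓝 y, y' ∉ 𝒳.Z → φ (e y') ^ i * U (e y') ≠ 0 ∧
      𝒳.x y' = φ (e y') ^ j * V (e y') / (φ (e y') ^ i * U (e y')) := by
    filter_upwards [a9, (𝒳.M.U_open p).mem_nhds hU] with y' b1 b2 b3
    rw [← b1.1, ← b1.2]
    exact ⟨fun h => b3 ((𝒳.M.Z_iff p y' b2).2 h), 𝒳.M.f_eq p _ y' b2⟩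
  rcases le_or_gt i j with hij | hij
  · obtain ⟨k, rfl⟩ := Nat.exists_eq_add_of_le hij
    refine .inl ⟨_, (comp_chart he hy (((a1.pow k).mul a3).div a2 a6)).1, ?_⟩
    filter_upwards [hx] with y' b1 b2
    obtain ⟨c1, c2⟩ := b1 b2
    rw [c2, pow_add, mul_assoc, mul_div_mul_left _ _ (left_ne_zero_of_mul c1)]
    rfl
  · obtain ⟨k, rfl⟩ := Nat.exists_eq_add_of_lt hij
    have hg := (((a1.pow (k + 1)).mul a2).div a3 a7).continuousAt.tendsto.comp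
      (e.continuousAt hy).tendsto
    have hV := (a3.continuousAt.tendsto.comp (e.continuousAt hy).tendsto).eventually_ne a7
    have hx' : ∀ᶠ y' in 𝓝[𝒳.Zᶜ] y, φ (e y') ^ (k + 1) * U (e y') / V (e y') ≠ 0 ∧
        (φ (e y') ^ (k + 1) * U (e y') / V (e y'))⁻¹ = 𝒳.x y' := by
      filter_upwards [nhdsWithin_le_nhds hx, nhdsWithin_le_nhds hV, self_mem_nhdsWithin]
        with y' b1 b2 b3
      obtain ⟨c1, c2⟩ := b1 b3
      rw [add_assoc, pow_add, mul_assoc] at c1 c2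
      refine ⟨div_ne_zero (right_ne_zero_of_mul c1) b2, ?_⟩
      rw [c2, mul_div_mul_left _ _ (left_ne_zero_of_mul c1), inv_div]
    refine .inr ((tendsto_inv₀_nhdsNE_zero.comp (tendsto_nhdsWithin_iff.2 ⟨?_,
      hx'.mono fun _ h => h.1⟩)).congr' (hx'.mono fun _ h => h.2))
    simpa [a4, Function.comp_def] using hg.mono_left nhdsWithin_le_nhds

/-- absorbing the unit -/
theorem root {φ U : E2 → ℂ} {v : E2} {i : ℕ} (hφ : AnalyticAt ℂ φ v) (hU : AnalyticAt ℂ U v)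
    (h0 : φ v = 0) (h1 : fderiv ℂ φ v ≠ 0) (h2 : U v ≠ 0) (hi : 0 < i) : ∃ u : E2 → ℂ,
    AnalyticAt ℂ u v ∧ u v = 0 ∧ fderiv ℂ u v ≠ 0 ∧ ∀ᶠ w in 𝓝 v, u w ^ i = φ w ^ i * U w := by
  obtain ⟨c, hc⟩ := IsAlgClosed.exists_pow_nat_eq (U v) hi
  have hc0 : c ≠ 0 := by
    rintro rfl
    exact h2 (by rw [← hc, zero_pow hi.ne'])
  have hr : AnalyticAt ℂ (fun w => c * Complex.exp (Complex.log (U w / U v) / i)) v :=
    analyticAt_const.mul (((hU.div_const (c := U v)).clog (by simp [h2])).div_const).cexp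
  refine ⟨fun w => φ w * (c * Complex.exp (Complex.log (U w / U v) / i)), hφ.mul hr,
    by simp [h0], ?_, ?_⟩
  · rw [fderiv_fun_mul hφ.differentiableAt hr.differentiableAt, h0]
    intro h
    refine h1 (ContinuousLinearMap.ext fun w => ?_)
    simpa [hc0] using congrArg (fun l : E2 →L[ℂ] ℂ => l w) h
  · filter_upwards [hU.continuousAt.eventually_ne h2] with w hw
    have hi' : (i : ℂ) ≠ 0 := Nat.cast_ne_zero.2 hi.ne'
    rw [mul_pow, mul_pow, hc, ← Complex.exp_nat_mul, mul_div_cancel₀ _ hi',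
      Complex.exp_log (div_ne_zero hw h2), mul_div_cancel₀ _ h2]

/-- completing a function to a chart -/
theorem chart_of (h2 : Geo.SInv) (he : e ∈ 𝒳.S.A) (hy : y ∈ e.source) {u : E2 → ℂ}
    (hu : AnalyticAt ℂ u (e y)) (h0 : u (e y) = 0) (h1 : fderiv ℂ u (e y) ≠ 0) :
    ∃ e' ∈ 𝒳.S.A, y ∈ e'.source ∧ e' y = 0 ∧ ∀ y' ∈ e'.source, (e' y').1 = u (e y') := by
  obtain ⟨l, hl⟩ : ∃ l : E2 →L[ℂ] ℂ, wedge (fderiv ℂ u (e y)) l ≠ 0 := by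
    by_contra hc
    push Not at hc
    have a1 := hc (ContinuousLinearMap.fst ℂ ℂ ℂ)
    have a2 := hc (ContinuousLinearMap.snd ℂ ℂ ℂ)
    simp only [wedge, ContinuousLinearMap.coe_fst', ContinuousLinearMap.coe_snd', mul_zero,
      mul_one, zero_sub, sub_zero, neg_eq_zero] at a1 a2
    refine h1 (ContinuousLinearMap.ext fun v => ?_)
    rw [lin_apply _ v, a1, a2]
    simp
  have hl' : AnalyticAt ℂ (fun w => l w - l (e y)) (e y) := (l.analyticAt _).sub analyticAt_const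
  obtain ⟨e', he', hy', h3⟩ := h2 𝒳.X 𝒳.S y e _ _ he hy (comp_chart he hy hu).1
    (comp_chart he hy hl').1 (by
      rwa [(comp_chart he hy hu).2, (comp_chart he hy hl').2, fderiv_sub_const, l.fderiv])
  exact ⟨e', he', hy', by simp [h3 y hy', h0], fun y' h => by simp [h3 y' h]⟩

theorem nf_near (h1 : SBrCh) (h2 : Geo.SInv) (hp : 𝒳.Ov p z) :
    ∀ᶠ y in 𝓝[≠] p, 𝒳.Ov y z → ∃ e μ, 𝒳.NF e y z μ := by
  obtain ⟨e, he, hp', h0⟩ := 𝒳.S.exists_chart0 p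
  have ha : 𝒳.S.AnAt (fun y => 𝒳.lam z y - z) p := fun e he h =>
    (hp.an_lam e he h).sub analyticAt_const
  have hn : ¬ ∀ᶠ y in 𝓝 p, 𝒳.lam z y - z = 0 := by simpa only [sub_eq_zero] using hp.lam_nc
  filter_upwards [brX h1 he hp' h0 ha ha hn hn] with y ⟨hy, h3⟩ ho
  obtain ⟨φ, U, V, i, j, a1, a2, -, a4, a5, a6, -, a8, a9⟩ := h3 (sub_eq_zero.2 ho.lam_self)
  obtain ⟨u, b1, b2, b3, b4⟩ := root a1 a2 a4 a5 a6 a8
  obtain ⟨e', he', hy', c1, c2⟩ := chart_of h2 he hy b1 b2 b3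
  refine ⟨e', i, he', hy', c1, ho, a8, ?_⟩
  filter_upwards [a9, (e.continuousAt hy).eventually b4, e'.open_source.mem_nhds hy']
    with y' d1 d2 d3
  rw [c2 y' d3, d2, ← d1.1, add_sub_cancel]

theorem not_iso (h3 : SExt2) (hp : 𝒳.Ov p z) : ∃ᶠ y in 𝓝[≠] p, 𝒳.Ov y z := fun h => by
  obtain ⟨e, he, hp', h0⟩ := 𝒳.S.exists_chart0 p
  have ha : AnalyticAt ℂ (fun v => 𝒳.lam z (e.symm v) - z) 0 :=
    AnalyticAt.sub (h0 ▸ hp.an_lam e he hp') analyticAt_const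
  have hs : e.symm 0 = p := h0 ▸ e.left_inv hp'
  have hn : ∀ᶠ v in 𝓝 (0 : E2), v ≠ 0 → 𝒳.lam z (e.symm v) - z ≠ 0 := by
    have h4 := (Sx.eventually_chart hp').1 ((eventually_nhdsWithin_iff.1 h).and hp.lam_eq_iff)
    rw [h0] at h4
    filter_upwards [h4, e.open_target.mem_nhds (h0 ▸ e.map_source hp')] with v h5 h6 h7 h8
    refine h5.1 (fun h9 => h7 ?_) (h5.2.1 (sub_eq_zero.1 h8))
    rw [← e.right_inv h6, mem_singleton_iff.1 h9, h0]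
  obtain ⟨c, -, hc⟩ := h3 (fun _ => 1) _ {0} analyticAt_const ha (fun h4 => hp.lam_nc (by
    rw [Sx.eventually_chart hp', h0]
    simpa only [sub_eq_zero] using h4)) (countable_singleton _) (by
    filter_upwards [hn, ha.eventually_analyticAt] with v h4 h5 h6
    have h7 := norm_pos_iff.2 (h4 h6)
    refine ⟨2 / ‖𝒳.lam z (e.symm v) - z‖, ?_⟩
    filter_upwards [h5.continuousAt.norm.eventually (lt_mem_nhds (half_lt_self h7))] with w h8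
    rw [norm_one, div_mul_eq_mul_div, le_div_iff₀ h7]
    linarith)
  simpa [hs, hp.lam_self] using hc.self_of_nhds

end Bad2P

open Bad2P

theorem sBad2 (h1 : Full.SBad) (h2 : SBrCh) : SBad2 := by
  intro 𝒳
  obtain ⟨B, hB, hb⟩ := h1 𝒳.X 𝒳.S 𝒳.M.Z 𝒳.nc 𝒳.M.crv_Z
  have hE : {y | ¬ (𝒳.M.Gd 𝒳.x y ∨ Tendsto 𝒳.x (𝓝[𝒳.Zᶜ] y) (cobounded ℂ))}.Finite :=
    finite_of_iso isCompact_univ (subset_univ _) fun p _ =>
      (det_near h2 p).mono fun y h h' => h' h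
  filter_upwards [Sx.cd_of_finite (hB.union (hE.image 𝒳.S.π))] with z hz p hp
  have h3 := hb p fun h => hz (.inl (hp ▸ h))
  refine ⟨h3.1, h3.2.mono fun y h h' => h (h'.trans hp.symm), ?_⟩
  by_contra h4
  exact hz (.inr ⟨p, h4, hp⟩)

theorem sNF (h1 : SBrCh) (h2 : Geo.SInv) (h3 : SExt2) : SNF := by
  intro 𝒳 z
  refine ⟨finite_of_iso (𝒳.isCompact_ov z) (fun p h => h.1) fun p hp =>
    (nf_near h1 h2 hp).mono fun y h h' => h'.2 (h h'.1), ?_⟩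
  obtain ⟨p, hp⟩ := 𝒳.ov_nonempty z
  obtain ⟨y, hy, h⟩ := ((not_iso h3 hp).and_eventually (nf_near h1 h2 hp)).exists
  obtain ⟨e, μ, h'⟩ := h hy
  exact ⟨e, y, μ, h'⟩

end Pool.Agent.P.MP_7ede32_ag.Hod
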