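import Pool.Agent.P.MP_7ede32_ag.Hod.StX
import Pool.Agent.P.MP_7ede32_ag.Full.Brg

/-!
The theorem for a surface with a two-form, and the passage from complex manifolds.
-/

open Filter Topology Metric Set
open scoped Manifold

noncomputable section

namespace Pool.Agent.P.MP_7ede32_ag.Hod

open Geo Full
open Ell (E2 Charts PluriForm IsEntire IsHolomorphic)

theorem sConcl0 (hM : SMain) (h1 : SPhi) (h2 : SMfB) (h3 : SHf) (h4 : SLift) : SConcl0 := by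
  intro X _ _ _ S L x₀ hΛ _G ⟨x₁, hx₁⟩ h₀
  have hn : Nc S := π_nc_of (h₀ x₀ rfl).1
  obtain ⟨M⟩ := h2 X S L hΛ hn _G
  have hS : S.Hyp (S.π x₀) := ⟨ω_ne_of hx₁, hn, h₀, h3 X S L M hn⟩
  have hT := (hM X S _ hS).1
  obtain ⟨n, hn, hper⟩ := Sf0.periodic_of_finite hT
  refine ⟨_, _, n, hS.fin, hT, hn, fun f hf => ⟨hf.1, hf.2, hper f hf.1 hf.2⟩, fun h hh H => ?_⟩
  obtain ⟨φ, hφ⟩ := h4 X S h hh
  by_cases hc : ∃ z, φ z ≠ φ 0
  · obtain ⟨f, a1, a2, a3⟩ := h1 X S _ L hS M h φ hφ hc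
    exact Or.inr ⟨f, ⟨a1, a2⟩, φ, hφ.2.1, a3⟩
  · push Not at hc
    have h5 : ∀ z, S.π (h z) = S.π (h 0) := fun z => by rw [hφ.2.2, hφ.2.2, hc]
    exact Or.inl ⟨_, ⟨h, hh, h5, not_forall.2 H⟩, h5⟩

/-- a surjective fibration has a point that is not critical -/
theorem exists_ncrit {X : Type*} [MetricSpace X] [PreconnectedSpace X] {S : Sf0 X}
    (h : ∀ s, ∃ p, S.π p = s) : ∃ p, ¬ S.Crit p := by
  by_contra hc
  push Not at hc
  have h1 : IsLocallyConstant S.π := by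
    refine (IsLocallyConstant.iff_eventually_eq _).2 fun x => ?_
    obtain ⟨e, he, hx⟩ := S.cover x
    have hg := Sf0.isLift_lf (S := S) x
    have h2 : ∀ᶠ v in 𝓝 (e x), fderiv ℂ (S.lf x ∘ e.symm) v = 0 := by
      filter_upwards [Sf0.symm_eventually hx hg.eventually,
        e.open_target.mem_nhds (e.map_source hx)] with v a1 a2
      have := a1.fderiv_eq (e.map_target a2)
      rw [e.right_inv a2] at this
      rw [this]
      exact hc _ e he (e.map_target a2)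
    obtain ⟨r, hr, h3⟩ := Metric.eventually_nhds_iff_ball.1
      (h2.and (hg.2 e he hx).eventually_analyticAt)
    have h4 : ∀ v ∈ ball (e x) r, (S.lf x ∘ e.symm) v = (S.lf x ∘ e.symm) (e x) := fun v hv =>
      isOpen_ball.is_const_of_fderiv_eq_zero (𝕜 := ℂ) (convex_ball _ _).isPreconnected
        (fun w hw => (h3 w hw).2.differentiableAt.differentiableWithinAt) (fun w hw => (h3 w hw).1)
        hv (mem_ball_self hr)
    filter_upwards [(e.continuousAt hx).eventually (ball_mem_nhds _ hr), hg.1,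
      e.open_source.mem_nhds hx] with y a1 a2 a3
    have := h4 _ a1
    simp only [Function.comp, e.left_inv a3, e.left_inv hx] at this
    rw [a2, hg.1.self_of_nhds, this]
  obtain ⟨r, hr, h2⟩ := S.disc
  obtain ⟨p, hp⟩ := h (S.Λ.mkQ 0)
  obtain ⟨q, hq⟩ := h (S.Λ.mkQ ((r / 2 : ℝ) : ℂ))
  have h3 := h1.apply_eq_of_preconnectedSpace q p
  rw [hp, hq] at h3
  have h4 := h2 _ (Sf0.mk_eq_iff.1 h3) (by
    rw [sub_zero, Complex.norm_real, Real.norm_of_nonneg (by positivity)]; linarith)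
  rw [sub_zero, Complex.ofReal_eq_zero] at h4
  linarith

variable {X : Type} [MetricSpace X] [ChartedSpace (ℂ × ℂ) X] [IsManifold 𝓘(ℂ, ℂ × ℂ) ⊤ X]

/-- the zero two-form -/
def zf (X : Type) [TopologicalSpace X] [ChartedSpace (ℂ × ℂ) X] : PluriForm X 1 where
  coeff _ _ := 0
  analytic _ _ := analyticOnNhd_const
  compat _ _ _ _ _ _ := by simp

theorem final (hM : SMgB) (hC : ∀ 𝒳 : Sx, Concl 𝒳.S) [CompactSpace X] [ConnectedSpace X]
    (L : PeriodPair) (π : X → ℂ ⧸ L.lattice) (hπ : IsHolomorphic L π) (hX : GenType X)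
    (hc : ∀ s, IsConnected (π ⁻¹' {s})) :
    ∃ (B : Set (ℂ ⧸ L.lattice)) (T : Set (ℂ → X)) (n : ℕ), B.Finite ∧ T.Finite ∧ 0 < n ∧
      (∀ f ∈ T, IsEntire f ∧ (∀ z, π (f z) = L.lattice.mkQ z) ∧
        ∀ w ∈ L.lattice, ∀ z, f (z + n * w) = f z) ∧
      ∀ h : ℂ → X, IsEntire h → (∃ z, h z ≠ h 0) → (∃ s ∈ B, ∀ z, π (h z) = s) ∨
        ∃ f ∈ T, ∃ φ : ℂ → ℂ, Differentiable ℂ φ ∧ h = f ∘ φ := by
  let S := toSf L π hπ (zf X)
  obtain ⟨p, hp⟩ := exists_ncrit (S := S) fun s => (hc s).nonempty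
  have hn : Nc S := π_nc_of hp
  obtain ⟨G⟩ := gt_of (S := S) rfl hX
  obtain ⟨M⟩ := hM X S L rfl hn G
  obtain ⟨B, T, n, a1, a2, a3, a4, a5⟩ := hC ⟨X, S, L, rfl, hn, hc, G, M⟩
  exact ⟨B, T, n, a1, a2, a3, fun f hf => ⟨(hol_iff rfl).1 (a4 f hf).1, (a4 f hf).2⟩,
    fun h hh => a5 h ((hol_iff rfl).2 hh)⟩

end Pool.Agent.P.MP_7ede32_ag.Hod
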