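import Pool.Agent.P.MP_7ede32_ag.Hod.StX
import Pool.Agent.P.MP_7ede32_ag.Hod.XT

/-!
The map `(t, x)` is a covering near the good points.
-/

open Set Filter Topology Bornology Metric

namespace Pool.Agent.P.MP_7ede32_ag.Hod

open Ell (E2)

namespace CovX1P

variable {𝒳 : Sx} {p y : 𝒳.X} {z ξ : ℂ}

/-- `ξ` is the limit value of `x` at `y` -/
def V (𝒳 : Sx) (y : 𝒳.X) (ξ : ℂ) : Prop := Tendsto 𝒳.x (𝓝[𝒳.Zᶜ] y) (𝓝 ξ)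

theorem neBot (y : 𝒳.X) : (𝓝[𝒳.Zᶜ] y).NeBot := 𝒳.M.neBot y

theorem v_off (h : y ∉ 𝒳.Z) : V 𝒳 y (𝒳.x y) :=
  (Sx.an_x h).continuousAt.tendsto.mono_left nhdsWithin_le_nhds

theorem away {l : Filter ℂ} (hd : Disjoint (𝓝 ξ) l) (h : Tendsto 𝒳.x (𝓝[𝒳.Zᶜ] p) l) :
    ∀ᶠ w : ℂ × 𝒳.X in 𝓝 ξ ×ˢ 𝓝 p, ¬ V 𝒳 w.2 w.1 := by
  obtain ⟨s, hs, t, ht, hst⟩ := Filter.disjoint_iff.1 hd
  have h1 : ∀ᶠ y in 𝓝 p, ∀ᶠ y' in 𝓝[𝒳.Zᶜ] y, 𝒳.x y' ∈ t :=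
    eventually_nhds_nhdsWithin.2 (h.eventually ht)
  filter_upwards [prod_mem_prod (eventually_mem_nhds_iff.2 hs) h1] with w hw hv
  have := neBot w.2
  have h2 : ∀ᶠ y' in 𝓝[𝒳.Zᶜ] w.2, 𝒳.x y' ∈ t := hw.2
  obtain ⟨y', a1, a2⟩ := (h2.and (hv.eventually hw.1)).exists
  exact Set.disjoint_left.1 hst a2 a1

theorem away' (hg : 𝒳.GdF z) (hξ : ξ ∉ 𝒳.Tz z) (hp : 𝒳.Ov p z) (h : p ∉ 𝒳.Φ z ξ) :
    ∀ᶠ w : ℂ × 𝒳.X in 𝓝 ξ ×ˢ 𝓝 p, ¬ V 𝒳 w.2 w.1 := by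
  by_cases hZ : p ∈ 𝒳.Z
  · rcases (hg p hp).2.2 with ⟨F, a1, a2⟩ | a
    · have a3 : V 𝒳 p (F p) := (a1.continuousAt.tendsto.mono_left nhdsWithin_le_nhds).congr'
        ((eventually_nhdsWithin_iff.2 a2).mono fun _ e => e.symm)
      exact away (disjoint_nhds_nhds.2 fun e => hξ ⟨p, hZ, hp, e ▸ a3⟩) a3
    · exact away (disjoint_nhds_cobounded ξ) a
  · exact away (disjoint_nhds_nhds.2 fun e => h ⟨hZ, hp, e.symm⟩) (v_off hZ)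

/-- properness -/
theorem glue (hg : 𝒳.GdF z) (hξ : ξ ∉ 𝒳.Tz z) {r : 𝒳.X → Prop}
    (h : ∀ p ∈ 𝒳.Φ z ξ, ∀ᶠ y in 𝓝 p, r y) : ∀ᶠ q in 𝓝 ((z, ξ) : E2), ∀ y, 𝒳.Ov y q.1 →
      V 𝒳 y q.2 → r y ∧ 𝒳.lam z y = q.1 := by
  have h1 := (𝒳.isCompact_ov z).mem_prod_nhdsSet_of_forall (l := 𝓝 ξ)
    (s := {w : ℂ × 𝒳.X | V 𝒳 w.2 w.1 → r w.2}) fun p hp => by
      by_cases e : p ∈ 𝒳.Φ z ξ
      · exact (tendsto_snd.eventually (h p e)).mono fun _ a _ => a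
      · exact (away' hg hξ hp e).mono fun _ a b => absurd b a
  obtain ⟨s, hs, t, ht, hst⟩ := mem_prod_iff.1 h1
  have h2 := Sx.near_ov (r := (· ∈ t)) fun p hp => mem_nhdsSet_iff_forall.1 ht p hp
  rw [nhds_prod_eq]
  filter_upwards [prod_mem_prod h2 hs] with q hq y a b
  exact ⟨hst (mk_mem_prod hq.2 (hq.1 y a).1) b, (hq.1 y a).2⟩

/-- the local sections -/
theorem exists_sec (hI : Geo.SInv) (h : p ∈ 𝒳.Φ z ξ) : ∃ s : E2 → 𝒳.X, s (z, ξ) = p ∧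
    ContinuousAt s (z, ξ) ∧
    (∀ F : 𝒳.X → ℂ, 𝒳.S.AnAt F p → AnalyticAt ℂ (fun q => F (s q)) (z, ξ)) ∧
    (∀ᶠ q in 𝓝 ((z, ξ) : E2), s q ∈ 𝒳.Φ q.1 q.2) ∧
    ∀ᶠ y in 𝓝 p, s (𝒳.lam z y, 𝒳.x y) = y := by
  obtain ⟨e, a1, a2, a3⟩ := Sx.exists_tx hI h.1 h.2.1
  have e0 : e p = (z, ξ) := by rw [a3 p a2, h.2.1.lam_self, h.2.2]
  have e1 : e.symm (z, ξ) = p := by rw [← e0, e.left_inv a2]
  have ht : ((z, ξ) : E2) ∈ e.target := e0 ▸ e.map_source a2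
  have hc : ContinuousAt e.symm (z, ξ) := e.continuousAt_symm ht
  have hc' : Tendsto e.symm (𝓝 (z, ξ)) (𝓝 p) := e1 ▸ hc
  refine ⟨e.symm, e1, hc, fun F hF => e0 ▸ hF e a1 a2, ?_, ?_⟩
  · filter_upwards [e.open_target.mem_nhds ht, hc'.eventually (Sx.off_nhds h.1),
      hc'.eventually h.2.1.lam_ov] with q b1 b2 b3
    have b4 := (a3 _ (e.map_target b1)).symm.trans (e.right_inv b1)
    exact ⟨b2, (congrArg Prod.fst b4 : 𝒳.lam z (e.symm q) = q.1) ▸ b3, congrArg Prod.snd b4⟩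
  · filter_upwards [e.open_source.mem_nhds a2] with y hy
    rw [← a3 y hy, e.left_inv hy]

end CovX1P

open CovX1P in
theorem sCovX1 (h : Geo.SInv) : SCovX1 := by
  intro 𝒳 z hg
  refine ⟨(hg.finite.image fun p => limUnder (𝓝[𝒳.Zᶜ] p) 𝒳.x).subset ?_, fun ξ hξ => ?_⟩
  · rintro ξ ⟨p, a1, a2, a3⟩
    have := neBot p
    exact ⟨p, ⟨a1, a2⟩, a3.limUnder_eq⟩
  choose! s s1 s2 s3 s4 s5 using fun p (hp : p ∈ 𝒳.Φ z ξ) => exists_sec h hp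
  have hf : (𝒳.Φ z ξ).Finite := by
    obtain ⟨t, -, ht⟩ := (𝒳.isCompact_ov z).elim_nhds_subcover
      (fun p => {y | y ∈ 𝒳.Φ z ξ → y = p}) fun p hp => by
        by_cases e : p ∈ 𝒳.Φ z ξ
        · filter_upwards [s5 p e] with y a b
          rw [← a, b.2.1.lam_self, b.2.2, s1 p e]
        · obtain ⟨u, hu, v, hv, huv⟩ := mem_prod_iff.1 (away' hg hξ hp e)
          filter_upwards [hv] with y a b
          exact absurd (b.2.2 ▸ v_off b.1) (huv (mk_mem_prod (mem_of_mem_nhds hu) a))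
    refine t.finite_toSet.subset fun y hy => ?_
    obtain ⟨p, a, b⟩ := mem_iUnion₂.1 (ht hy.2.1)
    exact (b hy : y = p) ▸ a
  have hl := glue hg hξ (r := fun y => y ∉ 𝒳.Z ∧ ∃ p ∈ 𝒳.Φ z ξ, s p (𝒳.lam z y, 𝒳.x y) = y)
    fun p hp => ((Sx.off_nhds hp.1).and (s5 p hp)).mono fun _ a => ⟨a.1, p, hp, a.2⟩
  refine ⟨hf, ?_, s, fun p hp => ⟨s1 p hp, s2 p hp, s3 p hp⟩, ?_⟩
  · filter_upwards [hl] with q hq
    rintro ⟨y, a1, a2, a3⟩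
    exact (hq y a2 a3).1.1 a1
  · have hi : ∀ᶠ q in 𝓝 ((z, ξ) : E2), ∀ p ∈ 𝒳.Φ z ξ, ∀ p' ∈ 𝒳.Φ z ξ, p ≠ p' →
        s p q ≠ s p' q :=
      (eventually_all_finite hf).2 fun p hp => (eventually_all_finite hf).2 fun p' hp' => by
        by_cases e : p = p'
        · exact Eventually.of_forall fun _ a => absurd e a
        · have a : (s p (z, ξ), s p' (z, ξ)) ∈ (diagonal 𝒳.X)ᶜ := by
            rw [s1 p hp, s1 p' hp']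
            exact e
          exact (((s2 p hp).prodMk (s2 p' hp')).eventually
            (isClosed_diagonal.isOpen_compl.mem_nhds a)).mono fun _ b _ => b
    filter_upwards [hl, hi, (eventually_all_finite hf).2 s4] with q a b c
    refine ⟨c, fun p hp p' hp' e => by_contra fun n => b p hp p' hp' n e, fun y hy => ?_⟩
    obtain ⟨⟨-, p, d1, d2⟩, d3⟩ := a y hy.2.1 (hy.2.2 ▸ v_off hy.1)
    refine ⟨p, d1, ?_⟩
    rw [d3, hy.2.2] at d2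
    exact d2

end Pool.Agent.P.MP_7ede32_ag.Hod
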