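import Pool.Agent.P.MP_7ede32_ag.Hod.DA

/-!
Toolbox: values of elliptic functions.
-/

open Set Filter Topology MeasureTheory ComplexConjugate Polynomial Matrix

noncomputable section

namespace Pool.Agent.P.MP_7ede32_ag.Hod

open Full (Mer)
open Ell (E2)

variable {L : PeriodPair} {c c' : KK L} {t w : ℂ}

theorem cc_le_cd : cc ≤ cd := by
  intro s hs
  obtain ⟨Z, hZ, h⟩ := TopologicalSpace.countable_cover_nhds
    fun x => eventually_nhdsWithin_iff.mp (Full.cd_iff.1 hs x)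
  refine mem_cocountable.2 (hZ.mono fun y hy => ?_)
  obtain ⟨x, hx, h1⟩ := mem_iUnion₂.mp (h ▸ mem_univ y)
  by_contra h2
  exact hy (h1 fun h3 => h2 (mem_singleton_iff.mp h3 ▸ hx))

instance cc_neBot : cc.NeBot := by
  refine ⟨fun h => ?_⟩
  have h1 : (∅ : Set ℂ) ∈ cc := h ▸ mem_bot
  exact not_countable_complex (by simpa using mem_cocountable.1 h1)

instance cc_countableInter : CountableInterFilter cc :=
  ⟨fun _ hS h => mem_cocountable.2 (by
    rw [compl_sInter, sUnion_image]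
    exact hS.biUnion fun s hs => mem_cocountable.1 (h s hs))⟩

theorem nhdsNE_le_cd (z : ℂ) : 𝓝[≠] z ≤ cd := by
  exact fun s hs => Full.cd_iff.1 hs z

instance nhdsNE_cc_neBot (z : ℂ) : (𝓝[≠] z ⊓ cc).NeBot := by
  refine inf_neBot_iff.2 fun s hs u hu => ?_
  obtain ⟨y, h1, h2⟩ := (((mem_cocountable.1 hu).insert z).dense_compl ℂ).inter_nhds_nonempty
    (eventually_nhdsWithin_iff.mp hs)
  rw [mem_compl_iff, mem_insert_iff, not_or] at h1
  exact ⟨y, h2 h1.1, not_not.mp h1.2⟩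

theorem cd_nhds {p : ℂ → Prop} (h : ∀ᶠ t in cd, p t) : ∀ᶠ t in cd, ∀ᶠ s in 𝓝 t, p s := by
  refine Full.cd_iff.2 fun x => ?_
  filter_upwards [mem_nhdsWithin_of_mem_nhds
    (eventually_nhdsWithin_iff.mp (Full.cd_iff.1 h x)).eventually_nhds, self_mem_nhdsWithin]
    with y h1 h2
  filter_upwards [h1, eventually_ne_nhds h2] with s h3 h4 using h3 h4

theorem cd_ne (z : ℂ) : ∀ᶠ t in cd, t ≠ z := by
  refine Full.cd_iff.2 fun x => ?_
  rcases eq_or_ne x z with rfl | h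
  · exact self_mem_nhdsWithin
  · exact mem_nhdsWithin_of_mem_nhds (eventually_ne_nhds h)

theorem cd_notMem (L : PeriodPair) (z : ℂ) : ∀ᶠ t in cd, t - z ∉ L.lattice := by
  refine Full.cd_iff.2 fun x => ?_
  filter_upwards [mem_nhdsWithin_of_mem_nhds ((continuous_sub_right z).continuousAt.eventually
    (L.compl_lattice_sdiff_singleton_mem_nhds (x - z))), self_mem_nhdsWithin] with y h1 h2 h3
  exact h1 ⟨h3, fun h4 => h2 (sub_left_injective h4)⟩

theorem rv_per (c : KK L) (hw : w ∈ L.lattice) (t : ℂ) : rv c (t + w) = rv c t := by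
  have h := (Homeomorph.addRight w).map_punctured_nhds_eq t
  simp only [Homeomorph.coe_addRight] at h
  rw [rv, rv, limUnder, limUnder, ← h, Filter.map_map]
  congr 1
  exact map_congr (Full.cd_iff.1 (c.2 w hw) t)

theorem rg_per (c : KK L) (hw : w ∈ L.lattice) (t : ℂ) : Rg c (t + w) ↔ Rg c t := by
  rw [Rg, Rg, ← meromorphicOrderAt_fun_comp_add_const_eq_meromorphicOrderAt,
    meromorphicOrderAt_congr (f₂ := c.1.rep) (Full.cd_iff.1 (c.2 w hw) t)]

theorem rg_of_rep {f : ℂ → ℂ} (hf : AnalyticAt ℂ f t) (h : c.1.rep =ᶠ[𝓝[≠] t] f) :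
    Rg c t ∧ rv c t = f t :=
  ⟨(c.1.mer_rep t).meromorphicOrderAt_nonneg_iff.2 ⟨f, hf, h⟩,
    ((hf.continuousAt.tendsto.mono_left nhdsWithin_le_nhds).congr' h.symm).limUnder_eq⟩

theorem rg_cd (c : KK L) : ∀ᶠ t in cd, Rg c t := by
  exact (Full.cd_analytic c.1.mer_rep).mono fun t h => (rg_of_rep h EventuallyEq.rfl).1

theorem rv_eq (c : KK L) : rv c =ᶠ[cd] c.1.rep := by
  exact (Full.cd_analytic c.1.mer_rep).mono fun t h => (rg_of_rep h EventuallyEq.rfl).2

theorem Rg.an (h : Rg c t) : AnalyticAt ℂ (rv c) t := by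
  obtain ⟨f, hf, h1⟩ := (c.1.mer_rep t).meromorphicOrderAt_nonneg_iff.1 h
  exact hf.congr (eventuallyEq_nhds_of_eventuallyEq_nhdsNE
    (EventuallyEq.trans (Full.cd_iff.1 (rv_eq c) t) h1) (rg_of_rep hf h1).2).symm

theorem Rg.eventually (h : Rg c t) : ∀ᶠ s in 𝓝 t, Rg c s := by
  rw [← nhdsNE_sup_pure, eventually_sup]
  exact ⟨Full.cd_iff.1 (rg_cd c) t, h⟩

theorem mer_rv (c : KK L) (t : ℂ) : MeromorphicAt (rv c) t := by
  exact (c.1.mer_rep t).congr (Full.cd_iff.1 (rv_eq c).symm t)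

theorem rg_of_an {f : ℂ → ℂ} (hf : AnalyticAt ℂ f t) (h : rv c =ᶠ[𝓝[≠] t] f) :
    Rg c t ∧ rv c t = f t := by
  exact rg_of_rep hf (EventuallyEq.trans (Full.cd_iff.1 (rv_eq c).symm t) h)

theorem rg_of_cd {f : ℂ → ℂ} (hf : AnalyticAt ℂ f t) (h : c.1.rep =ᶠ[cd] f) :
    Rg c t ∧ rv c t = f t := rg_of_rep hf (Full.cd_iff.1 h t)

@[simp] theorem rv_zero : rv (0 : KK L) t = 0 := by
  exact (rg_of_cd analyticAt_const Mer.rep_zero).2

@[simp] theorem rv_one : rv (1 : KK L) t = 1 := by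
  exact (rg_of_cd analyticAt_const Mer.rep_one).2

theorem rg_zero : Rg (0 : KK L) t := by
  exact (rg_of_cd analyticAt_const Mer.rep_zero).1

theorem rg_one : Rg (1 : KK L) t := by
  exact (rg_of_cd analyticAt_const Mer.rep_one).1

theorem Rg.add (h : Rg c t) (h' : Rg c' t) : Rg (c + c') t ∧ rv (c + c') t = rv c t + rv c' t := by
  exact rg_of_cd (h.an.add h'.an)
    ((Mer.rep_add c.1 c'.1).trans ((rv_eq c).symm.add (rv_eq c').symm))

theorem Rg.mul (h : Rg c t) (h' : Rg c' t) : Rg (c * c') t ∧ rv (c * c') t = rv c t * rv c' t := by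
  exact rg_of_cd (h.an.mul h'.an)
    ((Mer.rep_mul c.1 c'.1).trans ((rv_eq c).symm.mul (rv_eq c').symm))

theorem Rg.neg (h : Rg c t) : Rg (-c) t ∧ rv (-c) t = -rv c t := by
  exact rg_of_cd h.an.neg ((Mer.rep_neg c.1).trans (rv_eq c).symm.neg)

theorem Rg.inv (h : Rg c t) (h0 : rv c t ≠ 0) : Rg c⁻¹ t ∧ rv c⁻¹ t = (rv c t)⁻¹ := by
  exact rg_of_cd (h.an.inv h0) ((Mer.rep_inv c.1).trans (rv_eq c).symm.inv)

theorem rv_ne (h : c ≠ 0) : ∀ᶠ t in cd, rv c t ≠ 0 := by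
  filter_upwards [Mer.rep_ne (f := c.1) fun h1 => h (Subtype.ext h1), rv_eq c] with t h1 h2
  rwa [h2]

theorem eq_of_rv (h : ∃ᶠ t in cd, rv c t = rv c' t) : c = c' := by
  by_contra h0
  refine h ?_
  filter_upwards [rv_ne (sub_ne_zero.2 h0), rg_cd c, rg_cd c'] with t h1 h2 h3 h4
  rw [sub_eq_add_neg, (h2.add h3.neg.1).2, h3.neg.2, h4] at h1
  exact h1 (add_neg_cancel _)

theorem exists_kk {f : ℂ → ℂ} (hf : Meromorphic f)
    (hp : ∀ w ∈ L.lattice, (fun z => f (z + w)) =ᶠ[cd] f) : ∃ c : KK L, rv c =ᶠ[cd] f := by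
  refine ⟨⟨Mer.mk f hf, fun w hw => ?_⟩, (rv_eq _).trans (Mer.rep_mk f hf)⟩
  filter_upwards [Mer.rep_mk f hf, (tendsto_add_cd w).eventually (Mer.rep_mk f hf), hp w hw]
    with z h1 h2 h3
  rw [h1, h2, h3]

/-- the local ring at `t` -/
def Ot (L : PeriodPair) (t : ℂ) : Subring (KK L) where
  carrier := {c | Rg c t}
  mul_mem' h h' := (Rg.mul h h').1
  one_mem' := rg_one
  add_mem' h h' := (Rg.add h h').1
  zero_mem' := rg_zero
  neg_mem' h := (Rg.neg h).1

/-- evaluation at `t` -/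
def evO (L : PeriodPair) (t : ℂ) : Ot L t →+* ℂ where
  toFun c := rv c.1 t
  map_one' := rv_one
  map_mul' a b := (Rg.mul a.2 b.2).2
  map_zero' := rv_zero
  map_add' a b := (Rg.add a.2 b.2).2

/-- constants -/
def cst (L : PeriodPair) : ℂ →+* KK L :=
  Mer.const.codRestrict (EF L) fun a w _ => by
    filter_upwards [Mer.rep_const a, (tendsto_add_cd w).eventually (Mer.rep_const a)] with z h1 h2
    rw [h1, h2]

instance : CharZero (KK L) := (RingHom.charZero_iff (cst L).injective).1 inferInstance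

theorem rg_cst (a : ℂ) : Rg (cst L a) t ∧ rv (cst L a) t = a := by
  exact rg_of_cd analyticAt_const (Mer.rep_const a)

theorem exists_dK (c : KK L) : ∃ c' : KK L, ∀ t, Rg c t → Rg c' t ∧ deriv (rv c) t = rv c' t := by
  refine ⟨⟨Mer.D c.1, fun w hw => ?_⟩, fun t h => ?_⟩
  · filter_upwards [Mer.rep_D c.1, (tendsto_add_cd w).eventually (Mer.rep_D c.1),
      Full.cd_deriv (c.2 w hw)] with z h1 h2 h3
    rw [h1, h2, ← h3, deriv_comp_add_const]
  · exact (rg_of_cd h.an.deriv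
      ((Mer.rep_D c.1).trans (Full.cd_deriv (rv_eq c).symm))).imp_right Eq.symm

theorem exists_wp (L : PeriodPair) :
    ∃ c : KK L, ∀ t ∉ L.lattice, Rg c t ∧ rv c t = L.weierstrassP t := by
  obtain ⟨c, hc⟩ := exists_kk (L := L) L.meromorphic_weierstrassP fun w hw =>
    Eventually.of_forall fun z => L.weierstrassP_add_coe z ⟨w, hw⟩
  exact ⟨c, fun t ht => rg_of_an (L.analyticOnNhd_weierstrassP t ht) (Full.cd_iff.1 hc t)⟩

/-- at a very general point, evaluation is a homomorphism on a countable subfield -/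
theorem exists_iota (k : Subfield (KK L)) (hk : Countable k) :
    ∀ᶠ t in cc, ∃ ι : k →+* ℂ, ∀ c : k, Rg c.1 t ∧ ι c = rv c.1 t := by
  filter_upwards [eventually_countable_forall.2 fun c : k => (rg_cd c.1).filter_mono cc_le_cd]
    with t h
  exact ⟨(evO L t).comp (k.subtype.codRestrict (Ot L t) h), fun c => ⟨h c, rfl⟩⟩

/-- a countable set of polynomials is defined over a countable subfield -/
theorem exists_subfield (s : Set (KK L)[X][X]) (hs : s.Countable) : ∃ k : Subfield (KK L),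
    Countable k ∧ ∀ N ∈ s, ∃ N₀ : k[X][X], N₀.map (mapRingHom k.subtype) = N := by
  set T : Set (KK L) := ⋃ N ∈ s, range fun p : ℕ × ℕ => (N.coeff p.1).coeff p.2
  have hT : T.Countable := hs.biUnion fun N _ => countable_range _
  refine ⟨Subfield.closure T, Cardinal.mk_le_aleph0_iff.1
    ((Subfield.cardinalMk_closure_le_max T).trans
      (max_le (Cardinal.le_aleph0_iff_set_countable.2 hT) le_rfl)), fun N hN => ?_⟩
  refine (mem_lifts _).1 ((lifts_iff_coeff_lifts _).2 fun j => ?_)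
  refine (mem_lifts _).1 ((lifts_iff_coeff_lifts _).2 fun i => ?_)
  exact ⟨⟨_, Subfield.subset_closure (mem_biUnion hN ⟨(j, i), rfl⟩)⟩, rfl⟩

end Pool.Agent.P.MP_7ede32_ag.Hod
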