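import Pool.Agent.P.MP_7ede32_ag.Hod.StX
import Pool.Agent.P.MP_7ede32_ag.Hod.XT
import Pool.Agent.P.MP_7ede32_ag.Hod.AT1
import Pool.Agent.P.MP_7ede32_ag.Geo.Inv

/-!
The degree of the covering `(t, x)`.
-/

open Set Filter Topology

namespace Pool.Agent.P.MP_7ede32_ag.Hod

open Ell (E2)

namespace CovX2P

variable {𝒳 : Sx} {z ξ : ℂ}

theorem loc (h : 𝒳.CovAt z ξ) : ∀ᶠ q in 𝓝 ((z, ξ) : E2), q.2 ∉ 𝒳.Tz q.1 ∧
    (𝒳.Φf q.1 q.2).card = (𝒳.Φf z ξ).card := by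
  obtain ⟨h1, h2, s, -, h3⟩ := h
  filter_upwards [h2, h3] with q a b
  have h4 : (𝒳.Φ q.1 q.2).Finite := b.image_eq ▸ h1.image _
  refine ⟨a, (Finset.card_nbij (fun p => s p q) (fun p hp => ?_) (fun p hp p' hp' e => ?_)
    fun p hp => ?_).symm⟩
  · exact (Sx.mem_Φf h4).2 (b.1 ((Sx.mem_Φf h1).1 hp))
  · exact b.2.1 ((Sx.mem_Φf h1).1 hp) ((Sx.mem_Φf h1).1 hp') e
  · obtain ⟨p', a1, a2⟩ := b.2.2 ((Sx.mem_Φf h4).1 hp)
    exact ⟨p', (Sx.mem_Φf h1).2 a1, a2⟩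

theorem pre {s : Set ℂ} (h : s.Countable) : IsPreconnected sᶜ :=
  (h.isConnected_compl_of_one_lt_rank (by simp)).isPreconnected

theorem fib (h2 : SCovX1) (hg : 𝒳.GdF z) {ξ ξ' : ℂ} (h : ξ ∉ 𝒳.Tz z) (h' : ξ' ∉ 𝒳.Tz z) :
    (𝒳.Φf z ξ).card = (𝒳.Φf z ξ').card := by
  obtain ⟨a, b⟩ := h2 𝒳 z hg
  refine (pre a.countable).constant (f := fun η => (𝒳.Φf z η).card) (fun η hη => ?_) h h'
  have h3 : Tendsto (fun u : ℂ => ((z, u) : E2)) (𝓝 η) (𝓝 (z, η)) :=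
    (continuous_const.prodMk continuous_id).tendsto η
  exact (continuousAt_const.congr ((h3.eventually (loc (b η hη))).mono
    fun u hu => hu.2.symm)).continuousWithinAt

end CovX2P

open CovX2P in
theorem sCovX2 (h1 : SBad2) (h2 : SCovX1) (_h3 : Full.SPch) : SCovX2 := by
  intro 𝒳
  have hG := h1 𝒳
  have hc : ({z | 𝒳.GdF z}ᶜ).Countable := mem_cocountable.1 (cc_le_cd hG)
  have hp := pre hc
  rw [compl_compl] at hp
  have ex : ∀ z, ∃ ξ, 𝒳.GdF z → ξ ∉ 𝒳.Tz z := fun z => by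
    by_cases h : 𝒳.GdF z
    · obtain ⟨ξ, hξ⟩ := (h2 𝒳 z h).1.infinite_compl.nonempty
      exact ⟨ξ, fun _ => hξ⟩
    · exact ⟨0, fun h' => absurd h' h⟩
  choose ξ hξ using ex
  have key : ∀ z z', 𝒳.GdF z → 𝒳.GdF z' →
      (𝒳.Φf z (ξ z)).card = (𝒳.Φf z' (ξ z')).card := fun z z' a b => by
    refine hp.constant (f := fun t => (𝒳.Φf t (ξ t)).card) (fun t ht => ?_) a b
    have h3 : Tendsto (fun u : ℂ => ((u, ξ t) : E2)) (𝓝 t) (𝓝 (t, ξ t)) :=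
      (continuous_id.prodMk continuous_const).tendsto t
    refine (continuousWithinAt_const (b := (𝒳.Φf t (ξ t)).card)).congr_of_eventuallyEq ?_ rfl
    filter_upwards [mem_nhdsWithin_of_mem_nhds
      (h3.eventually (loc ((h2 𝒳 t ht).2 _ (hξ t ht)))), self_mem_nhdsWithin] with u hu hu'
    exact (fib h2 hu' (hξ u hu') hu.1).trans hu.2
  obtain ⟨p₀, -⟩ := 𝒳.ov_nonempty 0
  obtain ⟨p, hp⟩ := (Sx.dense_off p₀).exists
  obtain ⟨z, hz⟩ := Sx.exists_ov p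
  obtain ⟨e, -, he, hE⟩ := Sx.exists_tx Geo.sinv hp hz
  have h4 : ∀ᶠ v in 𝓝 (e p), (𝒳.Φ v.1 v.2).Nonempty := by
    filter_upwards [(Sx.eventually_chart he).1 ((Sx.off_nhds hp).and hz.lam_ov),
      e.open_target.mem_nhds (e.map_source he)] with v a b
    have h5 := hE _ (e.map_target b)
    rw [e.right_inv b] at h5
    exact ⟨e.symm v, a.1, by rw [h5]; simpa [← h5] using a.2, by rw [h5]; simp [← h5]⟩
  rw [hE p he, nhds_prod_eq] at h4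
  have h6 := h4.curry
  obtain ⟨t, a1, a2⟩ := ((Full.cd_iff.1 hG _).and (mem_nhdsWithin_of_mem_nhds h6)).exists
  have h7 : ∀ᶠ η in 𝓝[≠] (𝒳.x p), η ∉ 𝒳.Tz t :=
    Filter.Eventually.filter_mono (nhdsNE_le_cofinite _) (h2 𝒳 t a1).1.compl_mem_cofinite
  obtain ⟨η, a3, y, a4⟩ := (h7.and (mem_nhdsWithin_of_mem_nhds a2)).exists
  refine ⟨(𝒳.Φf t η).card, Finset.card_pos.2 ⟨y, (Sx.mem_Φf ((h2 𝒳 t a1).2 η a3).1).2 a4⟩, ?_⟩
  filter_upwards [hG] with u hu η' hη'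
  exact (fib h2 hu hη' (hξ u hu)).trans ((key u t hu a1).trans (fib h2 a1 (hξ t a1) a3))

end Pool.Agent.P.MP_7ede32_ag.Hod
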