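import Pool.Agent.P.MP_7ede32_ag.Hod.StX
import Pool.Agent.P.MP_7ede32_ag.Hod.XT

/-!
A smooth fibre is a compact Riemann surface.
-/

open Set Filter Topology Metric
open scoped Manifold ContDiff

noncomputable section

namespace Pool.Agent.P.MP_7ede32_ag.Hod

open Ell (E2)
open MP_5d7cf0_gt.T (RS zc)

namespace FbE

variable {𝒳 : Sx} {z : ℂ}

/-- the fibre -/
abbrev Fib (𝒳 : Sx) (z : ℂ) : Type := {p : 𝒳.X // 𝒳.Ov p z}

/-- a product chart and a radius -/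
structure Dat (a : Fib 𝒳 z) where
  E : Ch 𝒳.X
  r : ℝ
  pos : 0 < r
  nf : 𝒳.NF E a.1 z 1
  ok : ∀ v ∈ ball (0 : E2) r, v ∈ E.target ∧ (𝒳.Ov (E.symm v) z ↔ v.1 = 0)

lemma exists_dat (h : Full.SPch) (a : Fib 𝒳 z) (hc : ¬ 𝒳.S.Crit a.1) : Nonempty (Dat a) := by
  obtain ⟨E, h1, h2⟩ := (h _ 𝒳.S).1 a.1 hc
  have nf := Sx.nf_of_pch h1 h2 a.2
  have h3 : ∀ᶠ v in 𝓝 (0 : E2), v ∈ E.target ∧ (𝒳.Ov (E.symm v) z ↔ v.1 = 0) := by
    filter_upwards [nf.lam_symm, nf.eventually.1 a.2.lam_eq_iff] with v b1 b2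
    refine ⟨b1.1, ?_⟩
    rw [← b2, b1.2.1, pow_one, add_eq_left]
  obtain ⟨r, hr, hb⟩ := Metric.eventually_nhds_iff_ball.1 h3
  exact ⟨⟨E, r, hr, nf, hb⟩⟩

namespace Dat

variable {a : Fib 𝒳 z} (d : Dat a)

lemma mem {v : ℂ} (hv : v ∈ ball (0 : ℂ) d.r) : ((0, v) : E2) ∈ ball (0 : E2) d.r := by
  rw [mem_ball_zero_iff] at hv ⊢
  simpa [Prod.norm_def] using hv

lemma ov {v : ℂ} (hv : v ∈ ball (0 : ℂ) d.r) : 𝒳.Ov (d.E.symm (0, v)) z :=
  (d.ok _ (d.mem hv)).2.2 rfl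

lemma eq {b : Fib 𝒳 z} (h1 : b.1 ∈ d.E.source) (h2 : d.E b.1 ∈ ball (0 : E2) d.r) :
    d.E b.1 = (0, (d.E b.1).2) := by
  refine Prod.ext ((d.ok _ h2).2.1 ?_) rfl
  rw [d.E.left_inv h1]
  exact b.2

open Classical in
/-- the inverse of the chart -/
def inv (v : ℂ) : Fib 𝒳 z :=
  if h : 𝒳.Ov (d.E.symm (0, v)) z then ⟨d.E.symm (0, v), h⟩ else a

lemma inv_val {v : ℂ} (hv : v ∈ ball (0 : ℂ) d.r) : (d.inv v).1 = d.E.symm (0, v) := by
  rw [inv, dif_pos (d.ov hv)]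

lemma snd_mem {u : E2} (h : u ∈ ball (0 : E2) d.r) : u.2 ∈ ball (0 : ℂ) d.r := by
  rw [mem_ball_zero_iff] at h ⊢
  exact (norm_snd_le u).trans_lt h

/-- the chart of the fibre -/
def ch : OpenPartialHomeomorph (Fib 𝒳 z) ℂ where
  toFun b := (d.E b.1).2
  invFun := d.inv
  source := {b | b.1 ∈ d.E.source ∧ d.E b.1 ∈ ball (0 : E2) d.r}
  target := ball 0 d.r
  map_source' _ hb := d.snd_mem hb.2
  map_target' v hv := by
    have h := (d.ok _ (d.mem hv)).1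
    refine ⟨?_, ?_⟩
    · rw [d.inv_val hv]
      exact d.E.map_target h
    · rw [d.inv_val hv, d.E.right_inv h]
      exact d.mem hv
  left_inv' b hb := by
    refine Subtype.ext ?_
    rw [d.inv_val (d.snd_mem hb.2), ← d.eq hb.1 hb.2, d.E.left_inv hb.1]
  right_inv' v hv := by
    rw [d.inv_val hv, d.E.right_inv (d.ok _ (d.mem hv)).1]
  open_source := (d.E.isOpen_inter_preimage isOpen_ball).preimage continuous_subtype_val
  open_target := isOpen_ball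
  continuousOn_toFun := continuous_snd.comp_continuousOn
    (d.E.continuousOn.comp continuous_subtype_val.continuousOn fun _ hb => hb.1)
  continuousOn_invFun := by
    refine IsInducing.subtypeVal.continuousOn_iff.2 ?_
    refine ContinuousOn.congr (f := fun v : ℂ => d.E.symm (0, v)) ?_ fun v hv => d.inv_val hv
    exact d.E.continuousOn_symm.comp (continuous_const.prodMk continuous_id).continuousOn
      fun v hv => (d.ok _ (d.mem hv)).1

lemma self_mem : a ∈ d.ch.source :=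
  ⟨d.nf.2.1, by rw [d.nf.2.2.1]; exact mem_ball_self d.pos⟩

lemma trans {a' : Fib 𝒳 z} (d' : Dat a') :
    ContDiffOn ℂ ω (d.ch.symm ≫ₕ d'.ch) (d.ch.symm ≫ₕ d'.ch).source := by
  have key : ∀ v ∈ (d.ch.symm ≫ₕ d'.ch).source,
      v ∈ ball (0 : ℂ) d.r ∧ d.E.symm (0, v) ∈ d'.E.source := by
    intro v hv
    have h1 : v ∈ ball (0 : ℂ) d.r := hv.1
    have h2 : (d.inv v).1 ∈ d'.E.source := hv.2.1
    exact ⟨h1, d.inv_val h1 ▸ h2⟩
  refine ContDiffOn.congr (f := fun v : ℂ => (d'.E (d.E.symm (0, v))).2) (fun v hv => ?_)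
    fun v hv => ?_
  · obtain ⟨h1, h2⟩ := key v hv
    have h3 := (d.ok _ (d.mem h1)).1
    have h4 := 𝒳.S.trans _ d.nf.1 _ d'.nf.1 _ (d.E.map_target h3) h2
    rw [d.E.right_inv h3] at h4
    have h5 : AnalyticAt ℂ (fun v : ℂ => (d'.E ∘ d.E.symm) (0, v)) v :=
      AnalyticAt.comp (f := fun v : ℂ => ((0, v) : E2)) h4 (analyticAt_const.prod analyticAt_id)
    exact (analyticAt_snd.comp h5).contDiffAt.contDiffWithinAt
  · change (d'.E (d.inv v).1).2 = _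
    rw [d.inv_val (key v hv).1]

end Dat

/-- the charted space -/
@[reducible] def cs (d : ∀ a : Fib 𝒳 z, Dat a) : ChartedSpace ℂ (Fib 𝒳 z) where
  atlas := range fun a => (d a).ch
  chartAt a := (d a).ch
  mem_chart_source a := (d a).self_mem
  chart_mem_atlas a := ⟨a, rfl⟩

end FbE

open FbE in
theorem sFbE (h : Full.SPch) : SFbE := by
  intro 𝒳 z hc
  have d : ∀ a : Fib 𝒳 z, Dat a := fun a => (exists_dat h a (hc a.1 a.2)).some
  let _ := cs d
  have h1 : CompactSpace (Fib 𝒳 z) := isCompact_iff_compactSpace.1 (𝒳.isCompact_ov z)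
  have h2 : ConnectedSpace (Fib 𝒳 z) := isConnected_iff_connectedSpace.1 (𝒳.fib _)
  have h3 : IsManifold 𝓘(ℂ) ω (Fib 𝒳 z) := by
    refine isManifold_of_contDiffOn _ _ _ ?_
    rintro _ _ ⟨a, rfl⟩ ⟨a', rfl⟩
    simpa using (d a).trans (d a')
  refine ⟨Fib 𝒳 z, inferInstance, cs d, { }, ⟨⟨Subtype.val, IsEmbedding.subtypeVal, fun p => ?_,
    fun a => (d a).E, fun a => (d a).nf, fun a => ?_⟩⟩⟩
  · rw [Subtype.range_coe_subtype]
    rfl
  · filter_upwards [(d a).ch.open_source.mem_nhds (d a).self_mem] with b hb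
    exact (d a).eq hb.1 hb.2

end Pool.Agent.P.MP_7ede32_ag.Hod
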