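import Pool.Agent.P.MP_7ede32_ag.Hod.StX
import Pool.Agent.P.MP_7ede32_ag.Hod.XT

/-!
Integrality and independence of the functions of the family.
-/

open Set Filter Topology Polynomial

namespace Pool.Agent.P.MP_7ede32_ag.Hod

open Ell (E2)

namespace IntgP

theorem root_bound {q : ℂ[X]} {n : ℕ} (hq : q.natDegree ≤ n) {y : ℂ} (h : q.eval y = 0) {B : ℝ}
    (hB : ∀ k, ‖q.coeff k‖ ≤ B) : ‖q.coeff n * y‖ ≤ (n + 1) * B := by
  have h0 : 0 ≤ B := (norm_nonneg _).trans (hB 0)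
  rw [eval_eq_sum_range' (Nat.lt_succ_of_le hq), Finset.sum_range_succ] at h
  rcases le_or_gt ‖y‖ 1 with hy | hy
  · rw [norm_mul]
    have := mul_le_mul (hB n) hy (norm_nonneg _) h0
    have : 0 ≤ (n : ℝ) * B := by positivity
    linarith
  · rcases n with _ | n
    · simp only [Finset.range_zero, Finset.sum_empty, pow_zero, mul_one, zero_add] at h
      simpa [h] using h0
    · have h1 : ‖q.coeff (n + 1) * y‖ * ‖y‖ ^ n ≤ ((n + 1 : ℕ) * B) * ‖y‖ ^ n := by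
        rw [← norm_pow, ← norm_mul, mul_assoc, ← pow_succ', eq_neg_of_add_eq_zero_right h, norm_neg]
        refine (norm_sum_le _ _).trans ((Finset.sum_le_card_nsmul _ _ (B * ‖y‖ ^ n)
          fun k hk => ?_).trans (by simp [mul_assoc]))
        rw [norm_mul, norm_pow]
        exact mul_le_mul (hB k) (pow_le_pow_right₀ hy.le (Nat.lt_succ_iff.1
          (Finset.mem_range.1 hk))) (by positivity) h0
      have h2 := le_of_mul_le_mul_right h1 (by positivity)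
      linarith

/-- polynomial growth -/
def Bd (F : (Fin 2 → ℂ) → ℝ) : Prop :=
  ∃ (c : ℝ) (a : ℕ), 0 ≤ c ∧ ∀ s, F s ≤ c * (1 + ‖s 0‖ + ‖s 1‖) ^ a

theorem Bd.add {F G H : (Fin 2 → ℂ) → ℝ} (hF : Bd F) (hG : Bd G) (h : ∀ s, H s ≤ F s + G s) :
    Bd H := by
  obtain ⟨c, a, hc, h1⟩ := hF
  obtain ⟨c', a', hc', h2⟩ := hG
  refine ⟨c + c', a + a', by positivity, fun s => ?_⟩
  have h3 : 1 ≤ 1 + ‖s 0‖ + ‖s 1‖ := by linarith [norm_nonneg (s 0), norm_nonneg (s 1)]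
  have h4 := mul_le_mul_of_nonneg_left (pow_le_pow_right₀ h3 (Nat.le_add_right a a')) hc
  have h5 := mul_le_mul_of_nonneg_left (pow_le_pow_right₀ h3 (Nat.le_add_left a' a)) hc'
  linarith [h s, h1 s, h2 s]

theorem bd_eval (a : MvPolynomial (Fin 2) ℂ) : Bd fun s => ‖MvPolynomial.eval s a‖ := by
  induction a using MvPolynomial.induction_on with
  | C c => exact ⟨‖c‖, 0, norm_nonneg _, fun s => by simp⟩
  | add p q hp hq => exact hp.add hq fun s => by rw [map_add]; exact norm_add_le _ _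
  | mul_X p i hp =>
    obtain ⟨c, a, hc, h⟩ := hp
    refine ⟨c, a + 1, hc, fun s => ?_⟩
    have h1 : ‖s i‖ ≤ 1 + ‖s 0‖ + ‖s 1‖ := by
      have := norm_nonneg (s 0)
      have := norm_nonneg (s 1)
      fin_cases i
      · simp only [Fin.zero_eta]
        linarith
      · simp only [Fin.mk_one]
        linarith
    simp only [map_mul, MvPolynomial.eval_X, norm_mul, pow_succ, ← mul_assoc]
    exact mul_le_mul (h s) h1 (norm_nonneg _) (by positivity)

theorem bd_sum (c : ℕ → MvPolynomial (Fin 2) ℂ) (n : ℕ) :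
    Bd fun s => ∑ k ∈ Finset.range n, ‖MvPolynomial.eval s (c k)‖ := by
  induction n with
  | zero => exact ⟨0, 0, le_rfl, fun s => by simp⟩
  | succ n ih => exact ih.add (bd_eval (c n)) fun s => by rw [Finset.sum_range_succ]

end IntgP

open IntgP

theorem sIntg (h : Full.SSieg) : SIntg := by
  intro 𝒳 i
  obtain ⟨P, hP, hv⟩ := h 𝒳.X 𝒳.S 𝒳.L 𝒳.M.toMf (Fin.cons i ![𝒳.M.iu, 𝒳.M.ix])
  set Q := MvPolynomial.finSuccEquiv ℂ 2 P with hQ
  have hQ0 : Q ≠ 0 := by simpa [hQ] using hP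
  refine ⟨Q.leadingCoeff, leadingCoeff_ne_zero.2 hQ0, fun p hp => Sx.an_ev _ hp, ?_⟩
  obtain ⟨c, a, -, hb⟩ := bd_sum Q.coeff (Q.natDegree + 1)
  refine ⟨(Q.natDegree + 1) * c, a, fun p hp => ?_⟩
  set s : Fin 2 → ℂ := ![𝒳.M.f 𝒳.M.iu p, 𝒳.x p] with hs
  have e1 : (fun i => 𝒳.M.f i p) ∘ ![𝒳.M.iu, 𝒳.M.ix] = s := by
    funext k
    fin_cases k <;> rfl
  have e2 : (fun i => 𝒳.M.f i p) ∘ (Fin.cons i ![𝒳.M.iu, 𝒳.M.ix] : Fin 3 → 𝒳.M.ι) =
      Fin.cons (𝒳.M.f i p) s := by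
    funext k
    fin_cases k <;> rfl
  have h1 := hv p hp
  rw [Full.Mf.ev, MvPolynomial.eval_rename, e2, MvPolynomial.eval_eq_eval_mv_eval'] at h1
  have h2 := root_bound natDegree_map_le h1
    (B := ∑ k ∈ Finset.range (Q.natDegree + 1), ‖MvPolynomial.eval s (Q.coeff k)‖) fun k => by
      rw [coeff_map]
      rcases le_or_gt k Q.natDegree with hk | hk
      · exact Finset.single_le_sum (f := fun k => ‖MvPolynomial.eval s (Q.coeff k)‖)
          (fun _ _ => norm_nonneg _) (Finset.mem_range.2 (Nat.lt_succ_of_le hk))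
      · rw [coeff_eq_zero_of_natDegree_lt hk, map_zero, norm_zero]
        positivity
  rw [Full.Mf.ev, map_mul, MvPolynomial.eval_rename, e1, MvPolynomial.eval_X, mul_assoc]
  rw [coeff_map] at h2
  exact h2.trans (mul_le_mul_of_nonneg_left (hb s) (by positivity))

theorem sIndX (h : Geo.SInv) : SIndX := by
  intro 𝒳
  by_contra hc
  push Not at hc
  choose H hH0 hH using fun i : 𝒳.M.I => hc i.1 i.2
  obtain ⟨p, hp⟩ := (Sx.dense_off (Classical.arbitrary 𝒳.X)).exists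
  obtain ⟨z, hz⟩ := Sx.exists_ov p
  obtain ⟨e, -, hpe, he⟩ := Sx.exists_tx h hp hz
  have h1 : ∀ᶠ v in 𝓝 (e p), v ∈ e.target ∧ e.symm v ∉ 𝒳.Z :=
    (e.open_target.eventually_mem (e.map_source hpe)).and
      ((Sx.eventually_chart hpe).1 (Sx.off_nhds hp))
  have h2 : ∀ᶠ ξ in 𝓝 (e p).2, ∀ᶠ t in 𝓝 (e p).1, (t, ξ) ∈ e.target ∧ e.symm (t, ξ) ∉ 𝒳.Z :=
    Eventually.curry_nhds (p := fun v : E2 => v.swap ∈ e.target ∧ e.symm v.swap ∉ 𝒳.Z)
      ((continuous_swap.tendsto ((e p).2, (e p).1)).eventually h1)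
  have h3 : ∀ᶠ ξ in cofinite, ∀ i, (H i).map (evalRingHom ξ) ≠ 0 := by
    refine eventually_all.2 fun i => ?_
    have h4 : ∀ᶠ ξ in cofinite, (H i).leadingCoeff.eval ξ ≠ 0 := by
      simpa [eventually_cofinite] using finite_setOfPred_isRoot (leadingCoeff_ne_zero.2 (hH0 i))
    refine h4.mono fun ξ h5 h6 => h5 ?_
    simpa using congrArg (coeff · (H i).natDegree) h6
  obtain ⟨ξ, h4, h5⟩ := ((h2.filter_mono (nhdsWithin_le_nhds (s := {(e p).2}ᶜ))).and
    (h3.filter_mono (nhdsNE_le_cofinite _))).exists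
  refine infinite_of_mem_nhds _ h4 (Finite.of_injOn
    (f := fun t (i : 𝒳.M.I) => 𝒳.M.f i.1 (e.symm (t, ξ))) (fun t ht => ?_)
    (fun t ht t' ht' e1 => ?_) (Finite.pi' fun i => finite_setOfPred_isRoot (h5 i)))
  · intro i
    have h6 := he _ (e.map_target ht.1)
    rw [e.right_inv ht.1] at h6
    have h7 := hH i _ ht.2
    rw [show 𝒳.x (e.symm (t, ξ)) = ξ from (Prod.ext_iff.1 h6).2.symm] at h7
    simpa [IsRoot, map_evalRingHom_eval] using h7
  · have h6 := 𝒳.M.injI _ ht.2 _ ht'.2 fun i hi => congrFun e1 ⟨i, hi⟩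
    exact (Prod.ext_iff.1 (e.symm.injOn ht.1 ht'.1 h6)).1

end Pool.Agent.P.MP_7ede32_ag.Hod
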