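import Pool.Agent.P.MP_7ede32_ag.Hod.NT

/-!
Toolbox: coefficients of pluricanonical forms.
-/

open Set Filter Topology Polynomial Matrix Bornology Metric

noncomputable section

namespace Pool.Agent.P.MP_7ede32_ag.Hod

open Geo (Sf0 wedge D)
open Full (Mf GT Nc PCh Sec)
open Ell (E2 jac)

namespace Pm

variable {𝒳 : Sx} {Q : Pm 𝒳} {p y : 𝒳.X} {z w : ℂ} {e e' : Ch 𝒳.X} {ν : ℕ} {F G : E3 → ℂ}
  {α β : 𝒳.X → ℂ}

theorem Co.unique (hp : 𝒳.Ov p z) (h : Q.Co e p z ν F α) (h' : Q.Co e p z ν F β) :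
    ∀ᶠ y in 𝓝 p, α y = β y := by
  have h1 : ∀ᶠ y in Q.Nb p z, α y = β y := by
    filter_upwards [h.2, h'.2] with y h1 h2
    exact h1.symm.trans h2
  filter_upwards [nb_eq hp h1, h.1.eventually, h'.1.eventually] with y h2 h3 h4
  exact h2 h3.continuousAt h4.continuousAt

theorem Co.congr (hp : 𝒳.Ov p z) (h : Q.Co e p z ν F α) (hF : ∀ᶠ q in Q.𝒴.gz z, F q = G q) :
    Q.Co e p z ν G α := by
  refine ⟨h.1, ?_⟩
  filter_upwards [h.2, nb_gz hp hF] with y h1 h2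
  rw [← h2, h1]

theorem Co.congr_right (h : Q.Co e p z ν F α) (h' : ∀ᶠ y in 𝓝 p, α y = β y) :
    Q.Co e p z ν F β := by
  refine ⟨Full.anAt_congr h.1 h', ?_⟩
  filter_upwards [h.2, nb_le h'] with y h1 h2
  exact h1.trans h2

theorem Co.add (h : Q.Co e p z ν F α) (h' : Q.Co e p z ν G β) :
    Q.Co e p z ν (fun q => F q + G q) fun y => α y + β y := by
  refine ⟨fun e₁ he hs => (h.1 e₁ he hs).add (h'.1 e₁ he hs), ?_⟩
  filter_upwards [h.2, h'.2] with y h1 h2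
  rw [add_mul, h1, h2]

theorem Co.smul (hp : 𝒳.Ov p z) (h : Q.Co e p z ν F α) {c : ℂ → ℂ} (hc : AnalyticAt ℂ c z) :
    Q.Co e p z ν (fun q => c q.1 * F q) fun y => c (𝒳.lam z y) * α y := by
  refine ⟨fun e₁ he hs => AnalyticAt.mul
    (hc.comp_of_eq (hp.an_lam e₁ he hs) ?_) (h.1 e₁ he hs), ?_⟩
  · rw [e₁.left_inv hs, hp.lam_self]
  · filter_upwards [h.2] with y h1
    rw [mul_assoc, h1]
    rfl

theorem co_sum {ι : Type*} {s : Finset ι} {f : ι → E3 → ℂ} {a : ι → 𝒳.X → ℂ}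
    (h : ∀ i ∈ s, Q.Co e p z ν (f i) (a i)) :
    Q.Co e p z ν (fun q => ∑ i ∈ s, f i q) fun y => ∑ i ∈ s, a i y := by
  classical
  induction s using Finset.induction_on with
  | empty => exact ⟨fun _ _ _ => analyticAt_const, Eventually.of_forall fun y => by simp⟩
  | insert i s hi ih =>
    simp only [Finset.sum_insert hi]
    exact (h i (Finset.mem_insert_self i s)).add
      (ih fun j hj => h j (Finset.mem_insert_of_mem hj))

theorem co_comb {g : ℕ} {f : Fin g → E3 → ℂ} {a : Fin g → 𝒳.X → ℂ}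
    (h : ∀ i, Q.Co e p z ν (f i) (a i)) (c : Fin g → ℂ) :
    Q.Co e p z ν (fun q => ∑ i, c i * f i q) fun y => ∑ i, c i * a i y := by
  refine co_sum (f := fun i q => c i * f i q) (a := fun i y => c i * a i y) fun i _ =>
    ⟨fun e₁ he hs => analyticAt_const.mul ((h i).1 e₁ he hs), ?_⟩
  filter_upwards [(h i).2] with y h1
  rw [mul_assoc, h1]

theorem Co.loc (hp : 𝒳.Ov p z) (h : Q.Co e p z ν F α) :
    ∀ᶠ y in 𝓝 p, Q.Co e y (𝒳.lam z y) ν F α := by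
  filter_upwards [h.1.eventually, nb_loc hp h.2, jm_jm (Q := Q) hp] with y h1 h2 h3
  refine ⟨h1, ?_⟩
  filter_upwards [h2, nb_le h3] with y' h4 h5
  rw [h5, h4]

theorem Co.trans (h : Q.Co e' p z ν F α) (he : e ∈ 𝒳.S.A) (he' : e' ∈ 𝒳.S.A) (hs : p ∈ e.source)
    (hs' : p ∈ e'.source) :
    Q.Co e p z ν F fun y => α y * jac (fderiv ℂ (e' ∘ e.symm) (e y)) ^ ν := by
  refine ⟨fun e₁ he₁ hs₁ => (h.1 e₁ he₁ hs₁).mul
    (((Sx.an_jac he he' hs hs').1 e₁ he₁ hs₁).pow ν), ?_⟩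
  filter_upwards [h.2, nb_off, nb_le (e.open_source.mem_nhds hs),
    nb_le (e'.open_source.mem_nhds hs')] with y h1 h2 h3 h4
  rw [Sx.W_trans h2 he he' h3 h4, mul_pow, ← mul_assoc, h1]

/-- a translated chart gives the same coefficient -/
theorem Co.shift (h : Q.Co e p z ν F α) {c : E2} (hs : e'.source = e.source)
    (h1 : ∀ y, e' y = e y - c) (h2 : ∀ u, e'.symm u = e.symm (u + c)) : Q.Co e' p z ν F α := by
  have h3 : ∀ (g : 𝒳.X → ℂ) y, fderiv ℂ (g ∘ e'.symm) (e' y) = fderiv ℂ (g ∘ e.symm) (e y) := by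
    intro g y
    have h4 : g ∘ e'.symm = fun u => (g ∘ e.symm) (u + c) := funext fun u => congrArg g (h2 u)
    rw [h4, fderiv_comp_add_right, h1, sub_add_cancel]
  refine ⟨h.1, h.2.mono fun y hy => ?_⟩
  rw [← hy]
  simp only [Sx.W, Sf0.dπ, D, h3]

theorem Co.hx (h : Q.Co e p z ν F α) (he : e ∈ 𝒳.S.A) (hs : p ∈ e.source) : Q.HX ν F p z := by
  exact fun e₁ he₁ hs₁ => ⟨_, h.trans he₁ he hs₁ hs⟩

theorem Co.limUnder (hp : 𝒳.Ov p z) (h : Q.Co e p z ν F α) :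
    limUnder (Q.Nb p z) (fun y => F (Q.jm z y) * 𝒳.W e y ^ ν) = α p := by
  have := nb_neBot (Q := Q) hp
  exact ((h.1.continuousAt.tendsto.mono_left nb_le).congr'
    (h.2.mono fun _ hy => hy.symm)).limUnder_eq

theorem HX.loc (hp : 𝒳.Ov p z) (h : Q.HX ν F p z) : ∀ᶠ y in 𝓝 p, Q.HX ν F y (𝒳.lam z y) := by
  obtain ⟨e, he, hs⟩ := 𝒳.S.cover p
  obtain ⟨α, hα⟩ := h e he hs
  filter_upwards [hα.loc hp, e.open_source.mem_nhds hs] with y h1 h2
  exact h1.hx he h2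

theorem HXf.congr (h : Q.HXf ν F z) (hF : ∀ᶠ q in Q.𝒴.gz z, F q = G q) : Q.HXf ν G z := by
  exact fun p hp e he hs => (h p hp e he hs).imp fun _ hα => hα.congr hp hF

theorem HXf.add (h : Q.HXf ν F z) (h' : Q.HXf ν G z) : Q.HXf ν (fun q => F q + G q) z := by
  intro p hp e he hs
  obtain ⟨α, hα⟩ := h p hp e he hs
  obtain ⟨β, hβ⟩ := h' p hp e he hs
  exact ⟨_, hα.add hβ⟩

theorem HXf.smul (h : Q.HXf ν F z) {c : ℂ → ℂ} (hc : AnalyticAt ℂ c z) :
    Q.HXf ν (fun q => c q.1 * F q) z := by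
  intro p hp e he hs
  obtain ⟨α, hα⟩ := h p hp e he hs
  exact ⟨_, hα.smul hp hc⟩

theorem hxf_sum {ι : Type*} {s : Finset ι} {f : ι → E3 → ℂ} (h : ∀ i ∈ s, Q.HXf ν (f i) z) :
    Q.HXf ν (fun q => ∑ i ∈ s, f i q) z := by
  classical
  induction s using Finset.induction_on with
  | empty =>
    exact fun p _ e _ _ => ⟨fun _ => 0, fun _ _ _ => analyticAt_const,
      Eventually.of_forall fun y => by simp⟩
  | insert i s hi ih =>
    simp only [Finset.sum_insert hi]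
    exact (h i (Finset.mem_insert_self i s)).add
      (ih fun j hj => h j (Finset.mem_insert_of_mem hj))

theorem HXf.shift (h : Q.HXf ν F z) (hw : w ∈ 𝒳.L.lattice) :
    Q.HXf ν (fun q => F (q.1 - w, q.2.1, q.2.2)) (z + w) := by
  intro p hp e he hs
  obtain ⟨α, hα⟩ := h p ((Sx.ov_add hw).1 hp) e he hs
  refine ⟨α, hα.1, ?_⟩
  rw [nb_add hw]
  filter_upwards [hα.2] with y h1
  rw [jm_add hw, ← h1]
  simp only [add_sub_cancel_right, jm]

theorem HXf.eventually (h : Q.HXf ν F z) : ∀ᶠ t in 𝓝 z, Q.HXf ν F t := by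
  filter_upwards [Sx.near_ov (r := fun y => Q.HX ν F y (𝒳.lam z y)) fun p hp => (h p hp).loc hp]
    with t ht y hy
  exact (ht y hy).2 ▸ (ht y hy).1

end Pm

end Pool.Agent.P.MP_7ede32_ag.Hod
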