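import Pool.Agent.P.MP_7ede32_ag.Hod.StX
import Pool.Agent.P.MP_7ede32_ag.Hod.StB
import Pool.Agent.P.MP_7ede32_ag.Hod.HXT

/-!
The lower bound for the Hodge metric in a frame of the lattice, and flat frames.
-/

open Set Filter Topology Matrix ComplexConjugate Metric MeasureTheory
open scoped ComplexOrder

namespace Pool.Agent.P.MP_7ede32_ag.Hod

open Ell (E2)

namespace LowBP

variable {g : ℕ}

/-- the Hermitian form of a matrix -/
noncomputable def fm (H : Matrix (Fin g) (Fin g) ℂ) (a : Fin g → ℂ) : ℝ :=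
  (a ⬝ᵥ (H *ᵥ star a)).re

theorem fm_smul (H : Matrix (Fin g) (Fin g) ℂ) (r : ℝ) (a : Fin g → ℂ) :
    fm H (r • a) = r ^ 2 * fm H a := by
  rw [fm, fm, star_smul, mulVec_smul, smul_dotProduct, dotProduct_smul, star_trivial,
    Complex.smul_re, Complex.smul_re, smul_eq_mul, smul_eq_mul]
  ring

theorem psd_of_fm {H : Matrix (Fin g) (Fin g) ℂ} (h : H.IsHermitian) (h' : ∀ a, 0 ≤ fm H a) :
    H.PosSemidef :=
  PosSemidef.of_dotProduct_mulVec_nonneg h fun x => Complex.nonneg_iff.2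
    ⟨by simpa only [fm, star_star] using h' (star x), (h.im_star_dotProduct_mulVec_self x).symm⟩

theorem fm_conj (G h : Matrix (Fin g) (Fin g) ℂ) (a : Fin g → ℂ) :
    fm (G * h * Gᴴ) a = fm h (a ᵥ* G) := by
  rw [fm, fm, ← mulVec_mulVec, ← mulVec_mulVec, dotProduct_mulVec, star_vecMul]

/-- a negative form with nonnegative diagonal vanishes -/
theorem fm_zero {G h : Matrix (Fin g) (Fin g) ℂ} (hG : G.det ≠ 0) (hh : h.IsHermitian)
    (hd : ∀ i, 0 ≤ h i i) (hn : ∀ a, fm (G * h * Gᴴ) a ≤ 0) (a : Fin g → ℂ) :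
    fm (G * h * Gᴴ) a = 0 := by
  have p : (-h).PosSemidef := psd_of_fm hh.neg fun b => by
    have := hn (b ᵥ* G⁻¹)
    rw [fm_conj, vecMul_vecMul, nonsing_inv_mul _ (Ne.isUnit hG), vecMul_one] at this
    rw [fm, neg_mulVec, dotProduct_neg, Complex.neg_re]
    exact neg_nonneg.2 this
  have z : h = 0 := neg_eq_zero.1 (p.trace_eq_zero_iff.1 (Finset.sum_eq_zero fun i _ =>
    le_antisymm (neg_nonpos.2 (hd i)) p.diag_nonneg))
  simp [z, fm]

theorem psd_sub {H : Matrix (Fin g) (Fin g) ℂ} (h : H.IsHermitian) {c : ℝ} (hc : 0 < c)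
    (h' : ∀ a ∈ sphere (0 : Fin g → ℂ) 1, c ≤ fm H a) :
    (H - ((c / (g + 1) : ℝ) : ℂ) • 1).PosSemidef := by
  refine psd_of_fm (h.sub ?_) fun a => ?_
  · rw [IsHermitian, conjTranspose_smul, conjTranspose_one, RCLike.star_def, Complex.conj_ofReal]
  have e : fm (H - ((c / (g + 1) : ℝ) : ℂ) • 1) a = fm H a - c / (g + 1) * ∑ i, ‖a i‖ ^ 2 := by
    rw [fm, fm, sub_mulVec, dotProduct_sub, Complex.sub_re, smul_mulVec, one_mulVec,
      dotProduct_smul, smul_eq_mul, Complex.re_ofReal_mul]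
    refine congrArg (fun x : ℝ => (a ⬝ᵥ H *ᵥ star a).re - c / (g + 1) * x) ?_
    rw [dotProduct, Complex.re_sum]
    refine Finset.sum_congr rfl fun i _ => ?_
    rw [Pi.star_apply, RCLike.star_def, Complex.mul_conj, Complex.ofReal_re,
      Complex.normSq_eq_norm_sq]
  have b : ∑ i, ‖a i‖ ^ 2 ≤ (g + 1) * ‖a‖ ^ 2 := by
    have := Finset.sum_le_card_nsmul Finset.univ (fun i => ‖a i‖ ^ 2) (‖a‖ ^ 2) fun i _ =>
      pow_le_pow_left₀ (norm_nonneg _) (norm_le_pi_norm a i) 2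
    rw [Finset.card_univ, Fintype.card_fin, nsmul_eq_mul] at this
    nlinarith [sq_nonneg ‖a‖]
  have k : c * ‖a‖ ^ 2 ≤ fm H a := by
    by_cases ha : a = 0
    · simp [ha, fm]
    have n0 : 0 < ‖a‖ := norm_pos_iff.2 ha
    have := h' ((‖a‖⁻¹ : ℝ) • a) (by simp [norm_smul, n0.ne'])
    rw [fm_smul, inv_pow, ← div_eq_inv_mul, le_div_iff₀ (by positivity)] at this
    exact this
  rw [e, sub_nonneg]
  refine le_trans ((mul_le_mul_of_nonneg_left b (by positivity)).trans_eq ?_) k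
  field_simp

/-- a vector that stays in the lattice after division by `t - z` vanishes at `z` -/
theorem eq_zero {G : MF g} {z : ℂ} {a : VF g} (hG : ∀ᶠ t in 𝓝[≠] z, (G t).det ≠ 0)
    (ha : AnV a z) (h : Sp G z fun t => (t - z)⁻¹ • (a t ᵥ* G t)) : a z = 0 := by
  obtain ⟨b, hb, h⟩ := h
  funext i
  have e : (fun t => a t i) =ᶠ[𝓝[≠] z] fun t => (t - z) * b t i := by
    filter_upwards [hG, h, self_mem_nhdsWithin] with t h1 h2 h3
    have h4 : t - z ≠ 0 := sub_ne_zero.2 h3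
    have h5 : (t - z)⁻¹ • a t - b t = 0 :=
      eq_zero_of_vecMul_eq_zero h1 (by rw [sub_vecMul, smul_vecMul, h2, sub_self])
    have h6 := congrFun h5 i
    rw [Pi.sub_apply, Pi.smul_apply, smul_eq_mul, Pi.zero_apply, sub_eq_zero] at h6
    rw [← h6, mul_inv_cancel_left₀ h4]
  have c : ContinuousAt (fun t => (t - z) * b t i) z :=
    (continuousAt_id.sub continuousAt_const).mul (hb i).continuousAt
  have := tendsto_nhds_unique_of_eventuallyEq
    ((ha i).continuousAt.tendsto.mono_left nhdsWithin_le_nhds)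
    (c.tendsto.mono_left nhdsWithin_le_nhds) e
  simpa using this

theorem roots {P : ℂ → Prop} {μ : ℕ} (hμ : 0 < μ) (h : ∀ᶠ u in 𝓝[≠] (0 : ℂ), P u) :
    ∀ᶠ τ in 𝓝[≠] (0 : ℂ), ∀ u, u ^ μ = τ → u ≠ 0 ∧ P u := by
  obtain ⟨r, hr, h⟩ := Metric.eventually_nhds_iff.1 (eventually_nhdsWithin_iff.1 h)
  filter_upwards [self_mem_nhdsWithin, mem_nhdsWithin_of_mem_nhds (ball_mem_nhds (0 : ℂ)
    (pow_pos hr μ))] with τ h1 h2 u hu
  have h3 : u ≠ 0 := by
    rintro rfl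
    exact h1 (by rw [← hu, zero_pow hμ.ne']; rfl)
  refine ⟨h3, h ?_ h3⟩
  rw [mem_ball_zero_iff, ← hu, norm_pow] at h2
  rw [dist_zero_right]
  exact lt_of_pow_lt_pow_left₀ μ hr.le h2

theorem tendsto_sub (z : ℂ) : Tendsto (fun t => t - z) (𝓝[≠] z) (𝓝[≠] 0) :=
  tendsto_nhdsWithin_iff.2 ⟨((continuous_sub_right z).tendsto' z 0 (sub_self z)).mono_left
    nhdsWithin_le_nhds, eventually_mem_nhdsWithin.mono fun _ h => sub_ne_zero.2 h⟩

theorem tendsto_pow (z : ℂ) {μ : ℕ} (hμ : 0 < μ) :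
    Tendsto (fun u => z + u ^ μ) (𝓝[≠] (0 : ℂ)) (𝓝[≠] z) :=
  tendsto_nhdsWithin_iff.2 ⟨(Continuous.tendsto' (by fun_prop) 0 z
    (by simp [hμ.ne'])).mono_left nhdsWithin_le_nhds, eventually_mem_nhdsWithin.mono
      fun _ h h' => h (pow_eq_zero_iff hμ.ne' |>.1 (add_eq_left.1 h'))⟩

/-- the lower bound near a vector on which a jet does not vanish -/
theorem near (hJ : SJet) {μ k : ℕ} {f : Fin g → ℂ → ℂ} (hf : ∀ i, AnalyticAt ℂ (f i) 0)
    (hk : k < μ) {H : MF g} {z : ℂ} {c : ℝ} (hc : 0 ≤ c)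
    (h : ∀ᶠ u in 𝓝[≠] (0 : ℂ), ∀ a : Fin g → ℂ,
      ‖∑ i, a i * f i u‖ ^ 2 ≤ c * ‖u‖ ^ (2 * (μ - 1)) * fm (H (z + u ^ μ)) a)
    {a : Fin g → ℂ} (ha : ∑ i, a i * iteratedDeriv k (f i) 0 ≠ 0) :
    ∃ U ∈ 𝓝 a, ∃ d : ℝ, 0 < d ∧ ∀ᶠ t in 𝓝[≠] z, ∀ b ∈ U, d ≤ fm (H t) b := by
  obtain ⟨C, hC, hJ⟩ := hJ g μ k f hf hk
  obtain ⟨δ, hδ, h1⟩ : ∃ δ : ℝ, 0 < δ ∧ 2 * δ < ‖∑ i, a i * iteratedDeriv k (f i) 0‖ :=
    ⟨‖∑ i, a i * iteratedDeriv k (f i) 0‖ / 3, by have := norm_pos_iff.2 ha; positivity,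
      by have := norm_pos_iff.2 ha; linarith⟩
  have c1 : Continuous fun b : Fin g → ℂ => ‖∑ i, b i * iteratedDeriv k (f i) 0‖ := by fun_prop
  have n0 : 0 < ‖a‖ + 1 := by positivity
  refine ⟨{b | 2 * δ < ‖∑ i, b i * iteratedDeriv k (f i) 0‖ ∧ ‖b‖ < ‖a‖ + 1},
    (c1.continuousAt.eventually (lt_mem_nhds h1)).and
      (continuous_norm.continuousAt.eventually (gt_mem_nhds (lt_add_one _))),
    (δ / C) ^ 2 / (c + 1), by positivity, ?_⟩
  filter_upwards [(tendsto_sub z).eventually (hJ (δ / (‖a‖ + 1)) (by positivity)),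
    (tendsto_sub z).eventually (roots (Nat.zero_lt_of_lt hk) h)] with t h2 h3 b hb
  obtain ⟨u, hu, h4⟩ := h2 b
  obtain ⟨u0, h5⟩ := h3 u hu
  have h6 := h5 b
  rw [hu, add_sub_cancel, pow_mul'] at h6
  have p : 0 < ‖u‖ ^ (μ - 1) := pow_pos (norm_pos_iff.2 u0) _
  have h7 : δ / (‖a‖ + 1) * ‖b‖ ≤ δ := by
    rw [div_mul_eq_mul_div, div_le_iff₀ n0]
    exact mul_le_mul_of_nonneg_left hb.2.le hδ.le
  have h8 : δ / C * ‖u‖ ^ (μ - 1) ≤ ‖∑ i, b i * f i u‖ := by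
    rw [← le_div_iff₀ p, div_le_iff₀' hC]
    linarith [hb.1]
  have h9 := (pow_le_pow_left₀ (by positivity) h8 2).trans h6
  rw [mul_pow, mul_right_comm, mul_le_mul_iff_left₀ (by positivity)] at h9
  have h10 : 0 < c * fm (H t) b := lt_of_lt_of_le (by positivity) h9
  have h11 := pos_of_mul_pos_right h10 hc
  rw [div_le_iff₀' (by positivity)]
  linarith

/-- the constant can be taken nonnegative -/
theorem abs_c {μ : ℕ} (hμ : 0 < μ) {f : Fin g → ℂ → ℂ} {G h : MF g} {z : ℂ} {c : ℝ}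
    (hG : ∀ᶠ t in 𝓝[≠] z, (G t).det ≠ 0) (hh : ∀ t, (h t).IsHermitian) (hd : ∀ t i, 0 ≤ h t i i)
    (h1 : ∀ᶠ u in 𝓝[≠] (0 : ℂ), ∀ a : Fin g → ℂ, ‖∑ i, a i * f i u‖ ^ 2 ≤
      c * ‖u‖ ^ (2 * (μ - 1)) * fm (G (z + u ^ μ) * h (z + u ^ μ) * (G (z + u ^ μ))ᴴ) a) :
    ∀ᶠ u in 𝓝[≠] (0 : ℂ), ∀ a : Fin g → ℂ, ‖∑ i, a i * f i u‖ ^ 2 ≤ |c| *
      ‖u‖ ^ (2 * (μ - 1)) * fm (G (z + u ^ μ) * h (z + u ^ μ) * (G (z + u ^ μ))ᴴ) a := by
  rcases le_or_gt 0 c with hc | hc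
  · rwa [abs_of_nonneg hc]
  filter_upwards [h1, (tendsto_pow z hμ).eventually hG, self_mem_nhdsWithin] with u h2 h3 h4 a
  have p : c * ‖u‖ ^ (2 * (μ - 1)) < 0 :=
    mul_neg_of_neg_of_pos hc (pow_pos (norm_pos_iff.2 h4) _)
  have z0 := fm_zero h3 (hh _) (hd _)
    (fun b => nonpos_of_mul_nonneg_right ((sq_nonneg _).trans (h2 b)) p) a
  have := h2 a
  rwa [z0, mul_zero] at this ⊢

theorem hm_herm {L : PeriodPair} (𝒴 : Pl L) (N : Fin g → Polynomial (Polynomial (KK L))) (t : ℂ) :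
    (𝒴.hm N t).IsHermitian := by
  ext i j
  rw [conjTranspose_apply, Pl.hm, of_apply, of_apply, RCLike.star_def, ← integral_conj]
  refine integral_congr_ae (ae_of_all _ fun ξ => ?_)
  simp only [map_sum, map_mul, Complex.conj_conj, mul_comm]

theorem hm_diag {L : PeriodPair} (𝒴 : Pl L) (N : Fin g → Polynomial (Polynomial (KK L))) (t : ℂ)
    (i : Fin g) : 0 ≤ 𝒴.hm N t i i :=
  integral_nonneg fun _ => Finset.sum_nonneg fun _ _ => mul_star_self_nonneg _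

variable {𝒳 : Sx} {T : Cx 𝒳} {z : ℂ} {G : MF T.g}

theorem an_slice {e : Ch 𝒳.X} {p : 𝒳.X} {μ : ℕ} (h : 𝒳.NF e p z μ) {α : 𝒳.X → ℂ}
    (hα : 𝒳.S.AnAt α p) : AnalyticAt ℂ (fun u : ℂ => α (e.symm (u, 0))) 0 :=
  AnalyticAt.comp_of_eq (g := α ∘ e.symm) (f := fun u : ℂ => ((u, 0) : E2)) (h.an hα)
    (analyticAt_id.prod analyticAt_const) rfl

theorem row_mem (hF : Fr (T.Lat z) z G) (i : Fin T.g) : T.Q.HXf 1 (T.row G i) z :=
  ((hF.2.2 fun t => G t i).2 ⟨fun _ => Pi.single i 1, fun _ => analyticAt_const,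
    Eventually.of_forall fun t => (single_one_vecMul i (G t)).symm⟩).2

/-- some jet does not vanish -/
theorem jet (h1 : SNF0) (hF : Fr (T.Lat z) z G) {a : Fin T.g → ℂ} (ha : a ≠ 0) :
    ∃ (e : Ch 𝒳.X) (p : 𝒳.X) (μ k : ℕ) (α : Fin T.g → 𝒳.X → ℂ), 𝒳.NF e p z μ ∧ k < μ ∧
      (∀ i, T.Q.Co e p z 1 (T.row G i) (α i)) ∧
      ∑ i, a i * iteratedDeriv k (fun u => α i (e.symm (u, 0))) 0 ≠ 0 := by
  by_contra hn
  push Not at hn
  have hx : T.Q.HXf 1 (fun q => ∑ i, a i * T.row G i q) z :=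
    Pm.hxf_sum fun i _ => (row_mem hF i).smul (c := fun _ => a i) analyticAt_const
  have h2 := h1 𝒳 T.Q 1 _ z hx fun e p μ β he hβ k hk => by
    choose α hα using fun i => row_mem hF i p he.2.2.2.1 e he.1 he.2.1
    have h3 := he.eventually.1 (hβ.unique he.2.2.2.1 (Pm.co_comb hα a))
    have h4 : Tendsto (fun u : ℂ => ((u, 0) : E2)) (𝓝 0) (𝓝 0) :=
      Continuous.tendsto' (by fun_prop) _ _ rfl
    have h5 : (fun u : ℂ => β (e.symm (u, 0))) =ᶠ[𝓝 0]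
        fun u => ∑ i, a i * α i (e.symm (u, 0)) := h4.eventually h3
    rw [h5.iteratedDeriv_eq k, iteratedDeriv_fun_sum
      fun i _ => contDiffAt_const.mul (an_slice he (hα i).1).contDiffAt]
    simp only [iteratedDeriv_const_mul_field]
    exact hn e p μ k α he hk hα
  refine ha (eq_zero (a := fun _ => a) hF.2.1 (fun _ => analyticAt_const)
    ((hF.2.2 _).1 ⟨fun j => ?_, ?_⟩))
  · simp only [Pi.smul_apply, smul_eq_mul, vecMul, dotProduct]
    exact ((MeromorphicAt.id z).sub (MeromorphicAt.const z z)).inv.mul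
      (MeromorphicAt.fun_sum fun i _ => (MeromorphicAt.const _ z).mul (hF.1 i j))
  · refine (congrArg (fun F => T.Q.HXf 1 F z) (funext fun q => ?_)).mp h2
    simp only [Cx.row, cb, Pi.smul_apply, smul_eq_mul, vecMul, dotProduct, Finset.mul_sum,
      Finset.sum_mul, mul_assoc]
    exact Finset.sum_comm

end LowBP

open LowBP

theorem sLowB (h1 : SNF0) (h2 : SJet) (h3 : SLow1) : SLowB := by
  intro 𝒳 T z G hF
  have k : ∃ d : ℝ, 0 < d ∧ ∀ᶠ t in 𝓝[≠] z, ∀ b ∈ sphere (0 : Fin T.g → ℂ) 1,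
      d ≤ fm (G t * T.h t * (G t)ᴴ) b := by
    refine (isCompact_sphere (0 : Fin T.g → ℂ) 1).induction_on
      (p := fun s => ∃ d : ℝ, 0 < d ∧ ∀ᶠ t in 𝓝[≠] z, ∀ b ∈ s, d ≤ fm (G t * T.h t * (G t)ᴴ) b)
      ⟨1, one_pos, Eventually.of_forall fun _ _ h => h.elim⟩ ?_ ?_ ?_
    · rintro s s' hs ⟨d, hd, h⟩
      exact ⟨d, hd, h.mono fun t ht b hb => ht b (hs hb)⟩
    · rintro s s' ⟨d, hd, h⟩ ⟨d', hd', h'⟩
      refine ⟨min d d', lt_min hd hd', ?_⟩
      filter_upwards [h, h'] with t ht ht' b hb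
      exact hb.elim (fun hb => (min_le_left _ _).trans (ht b hb))
        fun hb => (min_le_right _ _).trans (ht' b hb)
    · intro a ha
      obtain ⟨e, p, μ, k, α, he, hk, hα, hl⟩ := jet h1 hF (a := a) (by
        rintro rfl
        simp at ha)
      obtain ⟨c, hc⟩ := h3 𝒳 T e p z μ G α he hF.1 hα
      obtain ⟨U, hU, h⟩ := near (H := fun t => G t * T.h t * (G t)ᴴ) h2
        (fun i => an_slice he (hα i).1) hk (abs_nonneg c)
        (abs_c he.2.2.2.2.1 hF.2.1 (hm_herm _ _) (hm_diag _ _) hc) hl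
      exact ⟨U, mem_nhdsWithin_of_mem_nhds hU, h⟩
  obtain ⟨d, hd, h⟩ := k
  exact ⟨d / (T.g + 1), by positivity, h.mono fun t ht =>
    psd_sub (isHermitian_mul_mul_conjTranspose _ (hm_herm _ _ t)) hd ht⟩

theorem sFlatFr (h : SFlat2) : SFlatFr := by
  intro L g m H G Λ z hg hF hfl hl hu
  obtain ⟨A, hA, hA0, hd⟩ := h g H (km m) G z (by
    filter_upwards [nhdsNE_le_cd z hfl,
      eventually_all.2 fun i => eventually_all.2 fun j => (mer_rv (m i j) z).eventually_analyticAt,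
      eventually_all.2 fun i => eventually_all.2 fun j => (hF.1 i j).eventually_analyticAt]
      with t h1 h2 h3
    exact ⟨h2, h3, h1⟩) hl hu
  have cA : ContinuousAt (fun t => (A t).det) z :=
    (Continuous.matrix_det continuous_id).continuousAt.comp
      (continuousAt_pi.2 fun i => continuousAt_pi.2 fun j => (hA i j).continuousAt)
  refine ⟨fun t => A t * G t, ?_, fun i => (hF.2.2 _).2 ⟨fun t => A t i, hA i,
    Eventually.of_forall fun t => mul_apply_eq_vecMul _ _ _⟩, ⟨0, hg⟩, fun hn => hA0 ?_⟩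
  · filter_upwards [hd, hF.2.1, mem_nhdsWithin_of_mem_nhds (cA.eventually_ne hA0),
      mem_nhdsWithin_of_mem_nhds (eventually_all.2 fun i => eventually_all.2 fun j =>
        (hA i j).eventually_analyticAt),
      eventually_all.2 fun i => eventually_all.2 fun j => (hF.1 i j).eventually_analyticAt]
      with t h1 h2 h3 h4 h5
    refine ⟨fun i j => ?_, by rw [det_mul]; exact mul_ne_zero h3 h2, h1⟩
    simp only [mul_apply]
    exact Finset.analyticAt_fun_sum _ fun k _ => (h4 i k).mul (h5 k j)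
  · exact det_eq_zero_of_row_eq_zero ⟨0, hg⟩ (congrFun
      (eq_zero (a := fun t => A t ⟨0, hg⟩) hF.2.1 (hA _) ((hF.2.2 _).1 hn)))

end Pool.Agent.P.MP_7ede32_ag.Hod
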