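import Pool.Agent.P.MP_7ede32_ag.Hod.RU2

/-!
Toolbox: the integral and plane models.
-/

set_option linter.unusedSectionVars false

open Set Filter Topology MeasureTheory ComplexConjugate Polynomial Bornology Manifold

namespace Pool.Agent.P.MP_7ede32_ag.Hod

open MP_5d7cf0_gt.T (RS zc loc An D Sm Db Hf Om source_mem D_zc_ne an_zc D_zc_self an_const
  An.add An.mul)

variable {Y : Type} [TopologicalSpace Y] [ChartedSpace ℂ Y] {p : Y} {θ θ' σ σ' : Y → ℂ × ℂ}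

namespace XC

variable (C : XC Y)

variable [RS Y]

theorem tr_add (F G : Y → ℂ) (ξ : ℂ) : C.tr (fun p => F p + G p) ξ = C.tr F ξ + C.tr G ξ := by
  exact finsum_mem_add_distrib (C.Φ_finite ξ)

theorem pr_add (h : Integrable (C.tr (C.wd θ σ))) (h' : Integrable (C.tr (C.wd θ' σ))) :
    Integrable (C.tr (C.wd (θ + θ') σ)) ∧ C.pr (θ + θ') σ = C.pr θ σ + C.pr θ' σ := by
  have e : C.tr (C.wd (θ + θ') σ) = fun ξ => C.tr (C.wd θ σ) ξ + C.tr (C.wd θ' σ) ξ := by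
    funext ξ
    rw [← tr_add]
    congr 1
    funext p
    simp only [wd, Pi.add_apply, Prod.fst_add, Prod.snd_add]
    ring
  unfold pr
  rw [e]
  exact ⟨h.add h', integral_add h h'⟩

omit [RS Y] in
theorem int_smul (c : ℂ) (h : Integrable (C.tr (C.wd θ σ))) :
    Integrable (C.tr (C.wd (c • θ) σ)) := by
  have e : C.tr (C.wd (c • θ) σ) = fun ξ => c * C.tr (C.wd θ σ) ξ := by
    funext ξ
    rw [tr, tr, mul_finsum_mem]
    refine finsum_mem_congr rfl fun p _ => ?_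
    simp only [wd, Pi.smul_apply, Prod.smul_fst, Prod.smul_snd, smul_eq_mul]
    ring
  rw [e]
  exact h.const_mul c

theorem pr_sum {ι : Type*} (s : Finset ι) (a : ι → ℂ) (f : ι → Y → ℂ × ℂ)
    (h : ∀ i ∈ s, Integrable (C.tr (C.wd (f i) σ))) :
    Integrable (C.tr (C.wd (∑ i ∈ s, a i • f i) σ)) ∧
      C.pr (∑ i ∈ s, a i • f i) σ = ∑ i ∈ s, a i * C.pr (f i) σ := by
  classical
  induction s using Finset.induction_on with
  | empty =>
    have e : C.tr (C.wd 0 σ) = fun _ => 0 := by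
      funext ξ
      simp [tr, wd]
    simp only [Finset.sum_empty, pr, e, integral_zero, and_true]
    exact integrable_zero _ _ _
  | insert j s hj ih =>
    obtain ⟨h1, h2⟩ := ih fun i hi => h i (Finset.mem_insert_of_mem hi)
    obtain ⟨h3, h4⟩ := C.pr_add (C.int_smul (a j) (h j (Finset.mem_insert_self j s))) h1
    rw [Finset.sum_insert hj, Finset.sum_insert hj]
    exact ⟨h3, by rw [h4, h2, pr_smul]⟩

theorem zk_of_zc (h : C.Zc θ) : ∃ K, IsCompact K ∧ (∀ ξ ∈ K, C.R.eval ξ ≠ 0) ∧ C.Zk K θ := by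
  have hT : IsClosed {p | ¬∀ᶠ y in 𝓝 p, θ y = 0} := isOpen_setOfPred_eventually_nhds.isClosed_compl
  have hS : ∀ p, (¬∀ᶠ y in 𝓝 p, θ y = 0) → p ∉ C.Sg := fun p hp hs => hp (h.2 p hs)
  refine ⟨C.x '' {p | ¬∀ᶠ y in 𝓝 p, θ y = 0}, hT.isCompact.image_of_continuousOn fun p hp =>
    (C.reg p (hS p hp)).1.continuousAt.continuousWithinAt, ?_, h.1, fun p hp => ?_⟩
  · rintro _ ⟨p, hp, rfl⟩
    exact (C.reg p (hS p hp)).2.2
  · have : ¬∀ᶠ y in 𝓝 p, θ y = 0 := fun e => hp e.self_of_nhds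
    exact ⟨hS p this, p, this, rfl⟩

theorem zc_of_zk {K : Set ℂ} (hK : IsCompact K) (hR : ∀ ξ ∈ K, C.R.eval ξ ≠ 0) (h : C.Zk K θ) :
    C.Zc θ := by
  refine ⟨h.1, fun p hp => ?_⟩
  have h1 : ∀ᶠ y in 𝓝[≠] p, C.x y ∉ K := by
    rcases C.bad p hp with ⟨β, h0, hβ⟩ | hβ
    · exact hβ.eventually (hK.isClosed.isOpen_compl.mem_nhds fun hb => hR β hb h0)
    · exact hβ.eventually hK.isBounded
  filter_upwards [eventually_nhdsWithin_iff.mp h1] with y hy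
  by_contra h0
  by_cases e : y = p
  · exact (h.2 y h0).1 (e ▸ hp)
  · exact hy e (h.2 y h0).2

theorem int_cl (hP : SPr) (h : Cl θ) (h' : Cl σ) : Integrable (C.tr (C.wd θ σ)) := by
  exact hP Y C θ σ fun p => Or.inl ⟨(h p).cn, (h' p).cn⟩

theorem int_zc (hP : SPr) {ψ : Y → ℂ} (h : ∀ p ∉ C.Sg, Hf ψ p) (h' : C.Zc σ) :
    Integrable (C.tr (C.wd (hf ψ) σ)) := by
  refine hP Y C _ σ fun p => ?_
  by_cases hp : p ∈ C.Sg
  · exact Or.inr (h'.2 p hp)
  · exact Or.inl ⟨(lc_hf (h p hp)).cn, (h'.1 p).cn⟩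

theorem Q_add (hP : SPr) (h : Cl θ) (h' : Cl θ') (hσ : Cl σ) :
    C.Q (θ + θ') σ = C.Q θ σ + C.Q θ' σ ∧ C.Q σ (θ + θ') = C.Q σ θ + C.Q σ θ' := by
  have e : C.Q (θ + θ') σ = C.Q θ σ + C.Q θ' σ :=
    (C.pr_add (C.int_cl hP h hσ.cj) (C.int_cl hP h' hσ.cj)).2
  exact ⟨e, by rw [← Q_conj, e, map_add, Q_conj, Q_conj]⟩

theorem Q_sub (hP : SPr) (h : Cl θ) (h' : Cl θ') (hσ : Cl σ) :
    C.Q (θ - θ') σ = C.Q θ σ - C.Q θ' σ ∧ C.Q σ (θ - θ') = C.Q σ θ - C.Q σ θ' := by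
  have e : C.Q (θ - θ') σ = C.Q θ σ - C.Q θ' σ := by
    rw [eq_sub_iff_add_eq, ← (C.Q_add hP (h.sub h') h' hσ).1, sub_add_cancel]
  exact ⟨e, by rw [← Q_conj, e, map_sub, Q_conj, Q_conj]⟩

theorem Q_sum (hP : SPr) {ι : Type*} (s : Finset ι) (a : ι → ℂ) (f : ι → Y → ℂ × ℂ)
    (h : ∀ i ∈ s, Cl (f i)) (hσ : Cl σ) :
    C.Q (∑ i ∈ s, a i • f i) σ = ∑ i ∈ s, a i * C.Q (f i) σ ∧
      C.Q σ (∑ i ∈ s, a i • f i) = ∑ i ∈ s, conj (a i) * C.Q σ (f i) := by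
  have e : C.Q (∑ i ∈ s, a i • f i) σ = ∑ i ∈ s, a i * C.Q (f i) σ :=
    (C.pr_sum s a f fun i hi => C.int_cl hP (h i hi) hσ.cj).2
  refine ⟨e, ?_⟩
  rw [← Q_conj, e, map_sum]
  simp only [map_mul, Q_conj]

theorem Q_dd (hS : SSt) {u : Y → ℂ} (h : Cl θ) (hu : ∀ p, Sm u p) :
    C.Q θ (dd u) = 0 ∧ C.Q (dd u) θ = 0 := by
  have e : C.Q θ (dd u) = 0 := by
    rw [Q, ← dd_conj]
    exact hS Y C θ _ h fun p => (hu p).conj
  exact ⟨e, by rw [← Q_conj, e, map_zero]⟩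

theorem hol_one {w : Y → ℂ} (h : w ∈ Om Y) : C.Hol 1 fun p => w p / D C.x p := by
  refine fun p => ⟨_, h p, ?_⟩
  filter_upwards [C.off_near p] with y hy
  rw [pow_one, dv, div_mul_div_cancel₀ (C.reg y hy).2.1]

theorem Hol.congr {C : XC Y} {ν : ℕ} {F G : Y → ℂ} (h : C.Hol ν F)
    (e : ∀ᶠ p in cofinite, F p = G p) : C.Hol ν G := by
  intro p
  obtain ⟨β, h1, h2⟩ := h p
  refine ⟨β, h1, ?_⟩
  filter_upwards [h2, Hod.cofinite_iff.mp e p] with y h3 h4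
  rw [← h4, h3]

theorem Hol.om {C : XC Y} {F : Y → ℂ} (h : C.Hol 1 F) :
    ∃ w ∈ Om Y, ∀ᶠ p in cofinite, w p = F p * D C.x p := by
  choose β h1 h2 using h
  have key : ∀ p, ∀ᶠ y in 𝓝[≠] p,
      β y y / D (zc p) y = β p y ∧ β y y = F y * D C.x y := fun p => by
    have hp := mem_chart_source ℂ p
    have ho : ({p}ᶜ : Set Y) ∈ 𝓝[≠] p := self_mem_nhdsWithin
    filter_upwards [(eventually_nhdsWithin_iff.mp (h2 p)).eventually_nhds.filter_mono
      nhdsWithin_le_nhds, (h1 p).eventually.filter_mono nhdsWithin_le_nhds,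
      mem_nhdsWithin_of_mem_nhds (source_mem hp), ho] with y h3 h4 h5 h6
    have h7 : ∀ᶠ y' in 𝓝 y, F y' * D C.x y' = β p y' * D (zc p) y' := by
      filter_upwards [h3, source_mem h5, isOpen_compl_singleton.mem_nhds h6] with y' a b c
      rw [← a c, pow_one, dv, mul_assoc, div_mul_cancel₀ _ (D_zc_ne b)]
    have h8 : β y y = β p y * D (zc p) y := by
      refine tendsto_nhds_unique (l := 𝓝[≠] y)
        ((h1 y).continuousAt.tendsto.mono_left nhdsWithin_le_nhds)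
        ((((an_zc h5).hf.mul h4).tendsto.mono_left nhdsWithin_le_nhds).congr' ?_)
      filter_upwards [h2 y, h7.filter_mono nhdsWithin_le_nhds] with y' a b
      rw [← a, ← b, pow_one, dv, mul_div_assoc]
    exact ⟨by rw [h8, mul_div_cancel_right₀ _ (D_zc_ne h5)], by rw [h8, h7.self_of_nhds]⟩
  refine ⟨fun p => β p p, fun p => (h1 p).congr ?_,
    Hod.cofinite_iff.mpr fun p => (key p).mono fun y hy => hy.2⟩
  filter_upwards [eventually_nhdsWithin_iff.mp (key p)] with y hy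
  by_cases e : y = p
  · rw [e, D_zc_self, div_one]
  · exact (hy e).1.symm

end XC

namespace PM

variable (M : PM Y)

theorem on (h : p ∉ M.Sg) : M.ev M.P p = 0 := by
  exact (M.bij _ (M.reg p h).2.2).mapsTo ⟨h, rfl⟩

theorem der_ne (h : p ∉ M.Sg) : M.ev (derivative M.P) p ≠ 0 := by
  exact Hod.der_ne M.bez (M.reg p h).2.2 (M.on h)

/-- induction over polynomials in `x` and `y` -/
theorem ev_ind {G : (Y → ℂ) → Prop} (hc : ∀ c, G fun _ => c) (hx : G M.x) (hy : G M.y)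
    (ha : ∀ f g, G f → G g → G fun p => f p + g p)
    (hm : ∀ f g, G f → G g → G fun p => f p * g p) (N : ℂ[X][X]) : G (M.ev N) := by
  have h1 : ∀ Q : ℂ[X], G fun p => Q.eval (M.x p) := fun Q => by
    induction Q using Polynomial.induction_on with
    | C a => simpa only [eval_C] using hc a
    | add a b h h' => simpa only [eval_add] using ha _ _ h h'
    | monomial n a h => simpa only [pow_succ, ← mul_assoc, eval_mul, eval_X] using hm _ _ h hx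
  unfold ev
  induction N using Polynomial.induction_on with
  | C a => simpa only [evalEval_C] using h1 a
  | add a b h h' => simpa only [evalEval_add] using ha _ _ h h'
  | monomial n a h =>
    simpa only [pow_succ, ← mul_assoc, evalEval_mul, evalEval_X] using hm _ _ h hy

theorem an_ev (N : ℂ[X][X]) (h : p ∉ M.Sg) : An (M.ev N) p := by
  exact M.ev_ind (G := fun f => An f p) an_const (M.reg p h).1 (M.yan p h)
    (fun _ _ => An.add) (fun _ _ => An.mul) N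

theorem grow (N : ℂ[X][X]) : ∃ (c : ℝ) (a : ℕ), ∀ p ∉ M.Sg, ‖M.ev N p‖ ≤ c * (1 + ‖M.x p‖) ^ a := by
  have one : ∀ p, 1 ≤ 1 + ‖M.x p‖ := fun p => le_add_of_nonneg_right (norm_nonneg _)
  have : ∃ (c : ℝ) (a : ℕ), 0 ≤ c ∧ ∀ p ∉ M.Sg, ‖M.ev N p‖ ≤ c * (1 + ‖M.x p‖) ^ a := by
    refine M.ev_ind (G := fun f => ∃ (c : ℝ) (a : ℕ), 0 ≤ c ∧
      ∀ p ∉ M.Sg, ‖f p‖ ≤ c * (1 + ‖M.x p‖) ^ a) (fun c => ⟨‖c‖, 0, norm_nonneg _, by simp⟩)
      ⟨1, 1, zero_le_one, by simp⟩ ?_ ?_ ?_ N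
    · obtain ⟨c, a, h⟩ := root_grow M.monic
      exact ⟨|c|, a, abs_nonneg c, fun p hp => (h _ _ (M.on hp)).trans
        (mul_le_mul_of_nonneg_right (le_abs_self c) (by positivity))⟩
    · rintro f g ⟨c, a, hc, h⟩ ⟨d, b, hd, h'⟩
      refine ⟨c + d, a + b, add_nonneg hc hd, fun p hp => (norm_add_le _ _).trans ?_⟩
      rw [add_mul]
      exact add_le_add
        ((h p hp).trans (mul_le_mul_of_nonneg_left (pow_le_pow_right₀ (one p) le_self_add) hc))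
        ((h' p hp).trans (mul_le_mul_of_nonneg_left (pow_le_pow_right₀ (one p) le_add_self) hd))
    · rintro f g ⟨c, a, hc, h⟩ ⟨d, b, hd, h'⟩
      refine ⟨c * d, a + b, mul_nonneg hc hd, fun p hp => ?_⟩
      rw [norm_mul, pow_add, mul_mul_mul_comm]
      exact mul_le_mul (h p hp) (h' p hp) (norm_nonneg _) (by positivity)
  obtain ⟨c, a, -, h⟩ := this
  exact ⟨c, a, h⟩

theorem tr_eq (f : ℂ → ℂ → ℂ) {ξ : ℂ} (h : M.R.eval ξ ≠ 0) :
    M.tr (fun p => f (M.x p) (M.y p)) ξ = ∑ η ∈ (M.P.map (evalRingHom ξ)).roots.toFinset, f ξ η := by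
  rw [← finsum_mem_coe_finset]
  have e : ((M.P.map (evalRingHom ξ)).roots.toFinset : Set ℂ) = {η | M.P.evalEval ξ η = 0} := by
    ext η
    simp only [Finset.mem_coe, Multiset.mem_toFinset, mem_roots (M.monic.map _).ne_zero,
      IsRoot.def, map_evalRingHom_eval, mem_ofPred_eq]
  rw [e]
  exact finsum_mem_eq_of_bijOn M.y (M.bij ξ h) fun p hp => by rw [hp.2]

theorem cofinite_iff [RS Y] {q : ℂ → ℂ → Prop} : (∀ᶠ p in cofinite, q (M.x p) (M.y p)) ↔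
    ∀ᶠ ξ in cofinite, ∀ η, M.P.evalEval ξ η = 0 → q ξ η := by
  constructor
  · intro h
    have h1 : ∀ᶠ ξ in cofinite, ξ ∉ M.x '' {p | ¬q (M.x p) (M.y p)} :=
      (Set.Finite.image M.x h).compl_mem_cofinite
    have h2 : ∀ᶠ ξ in cofinite, ξ ∉ {ξ | M.R.IsRoot ξ} :=
      (finite_setOfPred_isRoot M.toXC.R_ne).compl_mem_cofinite
    filter_upwards [h1, h2] with ξ h1 h2 η hη
    obtain ⟨p, hp, rfl⟩ := (M.bij ξ h2).surjOn hη
    by_contra hq
    exact h1 ⟨p, fun e => hq (hp.2 ▸ e), hp.2⟩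
  · intro h
    filter_upwards [M.toXC.tendsto_x.eventually h, M.toXC.off] with p h1 h2
    exact h1 _ (M.on h2)

end PM

end Pool.Agent.P.MP_7ede32_ag.Hod
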