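import Pool.Agent.P.MP_7ede32_ag.Hod.FT

/-!
Toolbox: rational functions on the surface.
-/

open Set Filter Topology MeasureTheory ComplexConjugate Polynomial Matrix

noncomputable section

namespace Pool.Agent.P.MP_7ede32_ag.Hod

open Full (Mer)
open Ell (E2)

namespace RaT

/-- a polynomial not divisible by an irreducible monic polynomial is invertible modulo it, up to
a nonzero constant -/
theorem bez {K : Type*} [Field K] {P N : K[X][X]} (hP : P.Monic) (hi : Irreducible P)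
    (hn : ¬ P ∣ N) : ∃ (a b : K[X][X]) (E : K[X]), E ≠ 0 ∧ C E = N * a + P * b := by
  have := AdjoinRoot.isDomain_of_prime hi.prime
  have := hP.finite_adjoinRoot
  have h1 : IsAlgebraic K[X] (AdjoinRoot.mk P N) :=
    (Algebra.IsIntegral.isIntegral (R := K[X]) (AdjoinRoot.mk P N)).isAlgebraic
  obtain ⟨E, hE, c, hc⟩ := h1.exists_nonzero_dvd
    (mem_nonZeroDivisors_of_ne_zero fun h => hn (AdjoinRoot.mk_eq_zero.mp h))
  obtain ⟨a, rfl⟩ := AdjoinRoot.mk_surjective c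
  rw [AdjoinRoot.algebraMap_eq, ← AdjoinRoot.mk_C, ← map_mul, AdjoinRoot.mk_eq_mk] at hc
  obtain ⟨b, hb⟩ := hc
  exact ⟨a, b, E, hE, by rw [← hb]; ring⟩

variable {L : PeriodPair} {𝒴 : Pl L}

theorem rg2 (N : (KK L)[X][X]) : ∀ᶠ q in 𝒴.gen, Rg2 N q.1 := Pl.gen_fst (rg2_cd N)

theorem rg1 (D : (KK L)[X]) : ∀ᶠ q in 𝒴.gen, Rg1 D q.1 := Pl.gen_fst (rg1_cd D)

theorem ev_add (N N' : (KK L)[X][X]) : ∀ᶠ q in 𝒴.gen, ev (N + N') q = ev N q + ev N' q := by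
  filter_upwards [rg2 N, rg2 N'] with q h h'
  rw [ev, (h.add h').2, evalEval_add]
  rfl

theorem ev_mul (N N' : (KK L)[X][X]) : ∀ᶠ q in 𝒴.gen, ev (N * N') q = ev N q * ev N' q := by
  filter_upwards [rg2 N, rg2 N'] with q h h'
  rw [ev, (h.mul h').2, evalEval_mul]
  rfl

theorem ev1_mul (D D' : (KK L)[X]) : ∀ᶠ q in 𝒴.gen, ev1 (D * D') q = ev1 D q * ev1 D' q := by
  filter_upwards [rg1 D, rg1 D'] with q h h'
  rw [ev1, (h.mul h').2, eval_mul]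
  rfl

theorem ev1_one (q : E3) : ev1 (1 : (KK L)[X]) q = 1 := by
  rw [ev1, sp1_one, eval_one]

theorem ev_one (q : E3) : ev (1 : (KK L)[X][X]) q = 1 := by
  rw [← C_1, ev_C, ev1_one]

theorem ev_dvd {N : (KK L)[X][X]} (h : 𝒴.P ∣ N) : ∀ᶠ q in 𝒴.gen, ev N q = 0 := by
  obtain ⟨M, rfl⟩ := h
  filter_upwards [ev_mul 𝒴.P M, 𝒴.gen_ok] with q h1 h2
  rw [h1, show ev 𝒴.P q = 0 from h2.2.1, zero_mul]

theorem ev_inv {N : (KK L)[X][X]} (hi : Irreducible 𝒴.P) (h : ¬ 𝒴.P ∣ N) :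
    ∃ (a : (KK L)[X][X]) (E : (KK L)[X]), E ≠ 0 ∧ ∀ᶠ q in 𝒴.gen, ev N q * ev a q = ev1 E q := by
  obtain ⟨a, b, E, hE, e⟩ := bez 𝒴.monic hi h
  refine ⟨a, E, hE, ?_⟩
  filter_upwards [ev_add (N * a) (𝒴.P * b), ev_mul N a, ev_dvd (dvd_mul_right 𝒴.P b)]
    with q h1 h2 h3
  rw [← ev_C, e, h1, h2, h3, add_zero]

end RaT

open RaT

namespace Pl

variable {L : PeriodPair} {𝒴 : Pl L} {F G s : E3 → ℂ}

theorem Rat.ratF (h : 𝒴.Rat F) : ∀ᶠ t in cd, 𝒴.RatF t F := by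
  obtain ⟨h1, N, D, hD, h2⟩ := h
  filter_upwards [gen_fb h1, gen_fb h2, sp1_ne hD] with t a b c
  refine ⟨a, sp N t, sp1 D t, c, ?_⟩
  filter_upwards [b, 𝒴.fb_on t] with q e e'
  rw [e, ev, ev1, e'.1]

theorem rat_ev_div (N : (KK L)[X][X]) {D : (KK L)[X]} (h : D ≠ 0) :
    𝒴.Rat fun q => ev N q / ev1 D q := by
  refine ⟨?_, N, D, h, Eventually.of_forall fun _ => rfl⟩
  filter_upwards [rg2 N, rg1 D, gen_ne h] with q h1 h2 h3
  exact (analyticAt_ev h1).div (analyticAt_ev1 h2) h3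

theorem rat_ev (N : (KK L)[X][X]) : 𝒴.Rat (ev N) := by
  have h := rat_ev_div (𝒴 := 𝒴) N one_ne_zero
  simp only [ev1_one, div_one] at h
  exact h

theorem rat_rv (c : KK L) : 𝒴.Rat fun q => rv c q.1 := by
  have h := rat_ev (𝒴 := 𝒴) (C (C c))
  have e : ev (C (C c)) = fun q : E3 => rv c q.1 := funext fun q => by
    rw [ev_C, ev1, sp1_C, eval_C]
  rwa [e] at h

theorem rat_const (c : ℂ) : 𝒴.Rat fun _ => c := by
  have h := rat_rv (𝒴 := 𝒴) (cst L c)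
  simp only [(rg_cst c).2] at h
  exact h

theorem rat_ξ : 𝒴.Rat fun q => q.2.1 := by
  have h := rat_ev (𝒴 := 𝒴) (C X)
  have e : ev (C (X : (KK L)[X])) = fun q : E3 => q.2.1 := funext fun q => by
    rw [ev_C, ev1, sp1_X, eval_X]
  rwa [e] at h

theorem Rat.congr (h : 𝒴.Rat F) (hG : ∀ᶠ q in 𝒴.gen, AnalyticAt ℂ G q)
    (e : ∀ᶠ q in 𝒴.gen, F q = G q) : 𝒴.Rat G := by
  obtain ⟨-, N, D, hD, h2⟩ := h
  refine ⟨hG, N, D, hD, ?_⟩
  filter_upwards [h2, e] with q a b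
  rw [← b, a]

theorem Rat.add (h : 𝒴.Rat F) (h' : 𝒴.Rat G) : 𝒴.Rat fun q => F q + G q := by
  obtain ⟨h1, N, D, hD, h2⟩ := h
  obtain ⟨h1', N', D', hD', h2'⟩ := h'
  refine ⟨(h1.and h1').mono fun q a => a.1.add a.2, N * C D' + N' * C D, D * D',
    mul_ne_zero hD hD', ?_⟩
  filter_upwards [h2, h2', gen_ne hD, gen_ne hD', ev_add (N * C D') (N' * C D), ev_mul N (C D'),
    ev_mul N' (C D), ev1_mul D D'] with q a a' b b' c1 c2 c3 c4
  rw [a, a', c1, c2, c3, c4, ev_C, ev_C]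
  field_simp

theorem Rat.mul (h : 𝒴.Rat F) (h' : 𝒴.Rat G) : 𝒴.Rat fun q => F q * G q := by
  obtain ⟨h1, N, D, hD, h2⟩ := h
  obtain ⟨h1', N', D', hD', h2'⟩ := h'
  refine ⟨(h1.and h1').mono fun q a => a.1.mul a.2, N * N', D * D', mul_ne_zero hD hD', ?_⟩
  filter_upwards [h2, h2', ev_mul N N', ev1_mul D D'] with q a a' c1 c2
  rw [a, a', c1, c2, div_mul_div_comm]

theorem Rat.sub (h : 𝒴.Rat F) (h' : 𝒴.Rat G) : 𝒴.Rat fun q => F q - G q := by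
  have e := h.add ((rat_const (-1)).mul h')
  simp only [neg_one_mul, ← sub_eq_add_neg] at e
  exact e

theorem rat_ph (N : (KK L)[X][X]) : 𝒴.Rat (𝒴.ph N) := by
  refine ((rat_ev N).mul (rat_ev_div 𝒴.B (pow_ne_zero 𝒴.k 𝒴.monR.ne_zero))).congr ?_ ?_
  · filter_upwards [rg2 N, 𝒴.gen_ok] with q h1 h2 using anO_ph h1 q h2 rfl
  · filter_upwards [𝒴.gen_ok] with q h
    rw [← h.inv_py, ph, div_eq_mul_inv]

theorem Rat.pow (h : 𝒴.Rat F) (n : ℕ) : 𝒴.Rat fun q => F q ^ n := by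
  induction n with
  | zero => simpa only [pow_zero] using rat_const 1
  | succ n ih => simpa only [pow_succ] using ih.mul h

theorem rat_sum {ι : Type*} {u : Finset ι} {f : ι → E3 → ℂ} (h : ∀ i ∈ u, 𝒴.Rat (f i)) :
    𝒴.Rat fun q => ∑ i ∈ u, f i q := by
  classical
  induction u using Finset.induction_on with
  | empty => simpa only [Finset.sum_empty] using rat_const 0
  | insert a u ha ih =>
    simpa only [Finset.sum_insert ha] using (h a (Finset.mem_insert_self a u)).add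
      (ih fun i hi => h i (Finset.mem_insert_of_mem hi))

theorem Rat.eval (h : 𝒴.Rat F) (H : ℂ[X]) : 𝒴.Rat fun q => H.eval (F q) := by
  induction H using Polynomial.induction_on' with
  | add a b ha hb => simpa only [eval_add] using ha.add hb
  | monomial n a => simpa only [eval_monomial] using (rat_const a).mul (h.pow n)

theorem Rat.evalEval (h : 𝒴.Rat F) (h' : 𝒴.Rat G) (H : ℂ[X][X]) :
    𝒴.Rat fun q => H.evalEval (F q) (G q) := by
  induction H using Polynomial.induction_on' with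
  | add a b ha hb => simpa only [evalEval_add] using ha.add hb
  | monomial n a =>
    simpa only [Polynomial.evalEval, eval_monomial, eval_mul, eval_pow, eval_C] using
      (h.eval a).mul (h'.pow n)

/-- the derivative of a polynomial along the lift of a coordinate vector field -/
theorem rat_lift {a b : ℂ} (hv : ∀ N : (KK L)[X][X], ∃ N' : (KK L)[X][X], ∀ q : E3, Rg2 N q.1 →
      Rg2 N' q.1 ∧ fderiv ℂ (ev N) q (a, b, 0) = ev N' q) (N : (KK L)[X][X])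
    (han : ∀ᶠ q in 𝒴.gen, AnalyticAt ℂ G q) (hG : ∀ q, G q =
      fderiv ℂ (ev N) q (a, b, -fderiv ℂ (ev 𝒴.P) q (a, b, 0) / 𝒴.py q)) : 𝒴.Rat G := by
  obtain ⟨N', h1⟩ := hv N
  obtain ⟨P', h2⟩ := hv 𝒴.P
  refine ((rat_ev N').sub ((rat_ph P').mul (rat_ev (derivative N)))).congr han ?_
  filter_upwards [rg2 N, rg2 𝒴.P] with q c1 c2
  have e : ∀ z : ℂ, ((a, b, z) : E3) = (a, b, 0) + z • ((0, 0, 1) : E3) := fun z => by simp
  rw [hG, e, map_add, map_smul, (h1 q c1).2, (h2 q c2).2, fderiv_ev_η c1, ph, smul_eq_mul]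
  ring

/-- a derivation preserves rational functions -/
theorem Rat.der {d : (E3 → ℂ) → E3 → ℂ} (h : 𝒴.Rat F)
    (h1 : ∀ N : (KK L)[X][X], 𝒴.Rat (d (ev N)))
    (h2 : ∀ {F : E3 → ℂ} {q : E3}, 𝒴.Ok q → AnalyticAt ℂ F q → AnalyticAt ℂ (d F) q)
    (h3 : ∀ {F G : E3 → ℂ} {q : E3}, 𝒴.Ok q → DifferentiableAt ℂ F q → DifferentiableAt ℂ G q →
      (∀ᶠ q' in 𝓝 q, 𝒴.On q' → F q' = G q') → d F q = d G q)
    (h4 : ∀ {F G : E3 → ℂ} {q : E3}, DifferentiableAt ℂ F q → DifferentiableAt ℂ G q → G q ≠ 0 →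
      d (fun q => F q / G q) q = (d F q * G q - F q * d G q) / G q ^ 2) : 𝒴.Rat (d F) := by
  obtain ⟨ha, N, D, hD, e⟩ := h
  refine ((((h1 N).mul (rat_ev (C D))).sub ((rat_ev N).mul (h1 (C D)))).mul
    ((rat_ev_div 1 hD).pow 2)).congr ?_ ?_
  · filter_upwards [ha, 𝒴.gen_ok] with q c1 c2 using h2 c2 c1
  · filter_upwards [ha, 𝒴.gen_ok, gen_nhds e, rg2 N, rg2 (C D), gen_ne hD] with q c1 c2 c3 c4 c5 c6
    have c7 : ev (C D) q ≠ 0 := by rwa [ev_C]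
    have a1 := analyticAt_ev c4
    have a2 := analyticAt_ev c5
    rw [h3 (G := fun q => ev N q / ev (C D) q) c2 c1.differentiableAt
      (a1.div a2 c7).differentiableAt (by simpa only [ev_C] using c3),
      h4 a1.differentiableAt a2.differentiableAt c7, ev_one, ev_C]
    ring

theorem Rat.dX (h : 𝒴.Rat F) : 𝒴.Rat (𝒴.dX F) := by
  refine h.der (fun N => rat_lift exists_ev_ξ N ?_ fun _ => rfl) Ok.an_dX
    (fun a b c e => a.dX_congr b c (e.mono fun _ f _ => f)) dX_div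
  filter_upwards [rg2 N, 𝒴.gen_ok] with q c1 c2 using c2.an_dX (analyticAt_ev c1)

theorem Rat.dT (h : 𝒴.Rat F) : 𝒴.Rat (𝒴.dT F) := by
  refine h.der (fun N => rat_lift exists_ev_t N ?_ fun _ => rfl) Ok.an_dT Ok.dT_congr dT_div
  filter_upwards [rg2 N, 𝒴.gen_ok] with q c1 c2 using c2.an_dT (analyticAt_ev c1)

theorem Rat.LD (ν : ℕ) (hs : 𝒴.Rat s) (h : 𝒴.Rat F) : 𝒴.Rat (𝒴.LD ν s F) := by
  exact (h.dT.sub (hs.mul h.dX)).sub (((rat_const ν).mul hs.dX).mul h)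

theorem Rat.iter (ν : ℕ) (hs : 𝒴.Rat s) (h : 𝒴.Rat F) (k : ℕ) : 𝒴.Rat ((𝒴.LD ν s)^[k] F) := by
  induction k with
  | zero => exact h
  | succ k ih =>
    rw [Function.iterate_succ_apply']
    exact Rat.LD ν hs ih

/-- a rational function that vanishes on many fibres is zero -/
theorem Rat.zero_of_fb (h : 𝒴.Rat F) (h0 : ∃ᶠ t in cd, ∀ᶠ q in 𝒴.fb t, F q = 0) :
    ∀ᶠ q in 𝒴.gen, F q = 0 := by
  obtain ⟨-, N, D, hD, e⟩ := h
  have h1 : 𝒴.P ∣ N := by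
    refine dvd_of_gen ((h0.and_eventually (gen_fb (e.and (gen_ne hD)))).mono fun t a => ?_)
    filter_upwards [a.1, a.2] with q b c
    rw [c.1, div_eq_zero_iff] at b
    exact b.resolve_right c.2
  filter_upwards [e, ev_dvd h1] with q a b
  rw [a, b, zero_div]

/-- identity theorem on an irreducible surface -/
theorem Rat.zero_or (h : 𝒴.Rat F) (hi : Irreducible 𝒴.P) :
    (∀ᶠ q in 𝒴.gen, F q = 0) ∨ ∀ᶠ q in 𝒴.gen, F q ≠ 0 := by
  obtain ⟨-, N, D, hD, e⟩ := h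
  by_cases h1 : 𝒴.P ∣ N
  · left
    filter_upwards [e, ev_dvd h1] with q a b
    rw [a, b, zero_div]
  · right
    obtain ⟨a, E, hE, h2⟩ := ev_inv hi h1
    filter_upwards [e, h2, gen_ne hD, gen_ne hE] with q c1 c2 c3 c4
    rw [c1]
    exact div_ne_zero (left_ne_zero_of_mul (c2 ▸ c4)) c3

theorem Rat.div (h : 𝒴.Rat F) (h' : 𝒴.Rat G) (hi : Irreducible 𝒴.P)
    (h0 : ∀ᶠ q in 𝒴.gen, G q ≠ 0) : 𝒴.Rat fun q => F q / G q := by
  obtain ⟨ha, N, D, hD, e⟩ := h'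
  have h1 : ¬ 𝒴.P ∣ N := fun h1 => by
    obtain ⟨q, a, b, c⟩ := (e.and ((ev_dvd h1).and h0)).exists
    exact c (by rw [a, b, zero_div])
  obtain ⟨a, E, hE, h2⟩ := ev_inv hi h1
  refine ((h.mul (rat_ev (C D))).mul (rat_ev_div a hE)).congr ?_ ?_
  · filter_upwards [h.1, ha, h0] with q c1 c2 c3 using c1.div c2 c3
  · filter_upwards [e, h2, gen_ne hD, gen_ne hE] with q c1 c2 c3 c4
    rw [← c2, mul_ne_zero_iff] at c4
    obtain ⟨c4, c5⟩ := c4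
    rw [c1, ← c2, ev_C]
    field_simp

theorem Rat.ne_of_fb (h : 𝒴.Rat F) (hi : Irreducible 𝒴.P)
    (h0 : ∃ᶠ t in cd, ∃ᶠ q in 𝒴.fb t, F q ≠ 0) : ∀ᶠ q in 𝒴.gen, F q ≠ 0 := by
  refine (h.zero_or hi).resolve_left fun h1 => ?_
  obtain ⟨t, a, b⟩ := (h0.and_eventually (gen_fb h1)).exists
  obtain ⟨q, c, e⟩ := (a.and_eventually b).exists
  exact c e

end Pl

end Pool.Agent.P.MP_7ede32_ag.Hod
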