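import Pool.Agent.P.MP_7ede32_ag.Hod.DF
import Pool.Agent.P.MP_7ede32_ag.Hod.RaT
import Pool.Agent.P.MP_7ede32_ag.Hod.RU

/-!
Toolbox: the dictionary between the smooth model and the plane curve.
-/

open Set Filter Topology MeasureTheory ComplexConjugate Polynomial Matrix

noncomputable section

namespace Pool.Agent.P.MP_7ede32_ag.Hod

open MP_5d7cf0_gt.T (RS zc loc An D Om Hf symm_zc eventually_chart source_mem D_zc_ne map_zc_ne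
  an_of_loc om_eq_zero_of_finite)

variable {L : PeriodPair} {g : ℕ} {𝒴 : Pl L} {t : ℂ}

namespace Md

variable {μ : Md 𝒴 t} {p p' : μ.Y} {F : E3 → ℂ} {N : Fin g → (KK L)[X][X]}
  {w : Fin g → μ.Y → ℂ}

theorem ev_j (N : (KK L)[X][X]) (p : μ.Y) : ev N (μ.j p) = μ.M.ev (sp N t) p := rfl

theorem py_j (p : μ.Y) : 𝒴.py (μ.j p) = μ.M.ev (derivative μ.M.P) p := by
  rw [μ.hP, ← μ.rt.1.derivative.2]
  rfl

theorem R_j (p : μ.Y) : ev1 𝒴.R (μ.j p) = μ.M.R.eval (μ.M.x p) := by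
  rw [μ.hR]
  rfl

theorem ok_j (h : p ∉ μ.M.Sg) : 𝒴.Ok (μ.j p) := by
  refine ⟨μ.rt, ?_, ?_⟩
  · have h1 := μ.M.on h
    rwa [μ.hP] at h1
  · rw [R_j]
    exact (μ.M.reg p h).2.2

theorem inj_j (h : p ∉ μ.M.Sg) (h' : p' ∉ μ.M.Sg) (e : μ.j p = μ.j p') : p = p' := by
  have h1 : μ.M.x p = μ.M.x p' := congrArg (fun q : E3 => q.2.1) e
  have h2 : μ.M.y p = μ.M.y p' := congrArg (fun q : E3 => q.2.2) e
  exact (μ.M.bij _ (μ.M.reg p h).2.2).injOn ⟨h, rfl⟩ ⟨h', h1.symm⟩ h2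

theorem surj_j (μ : Md 𝒴 t) {q : E3} (h : 𝒴.Ok q) (ht : q.1 = t) :
    ∃ p, p ∉ μ.M.Sg ∧ μ.j p = q := by
  obtain ⟨s, ξ, η⟩ := q
  obtain rfl : s = t := ht
  have h1 : μ.M.R.eval ξ ≠ 0 := by
    rw [μ.hR]
    exact h.2.2
  have h2 : μ.M.P.evalEval ξ η = 0 := by
    rw [μ.hP]
    exact h.2.1
  obtain ⟨p, ⟨h3, h4⟩, h5⟩ := (μ.M.bij ξ h1).surjOn h2
  exact ⟨p, h3, by rw [j, h4, h5]⟩

theorem cofinite_iff (μ : Md 𝒴 t) {r : E3 → Prop} :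
    (∀ᶠ p in cofinite, r (μ.j p)) ↔ ∀ᶠ q in 𝒴.fb t, r q := by
  rw [Pl.eventually_fb]
  refine (μ.M.cofinite_iff (q := fun ξ η => r (t, ξ, η))).trans ?_
  rw [μ.hP]
  rfl

theorem near (μ : Md 𝒴 t) {r : E3 → Prop} (h : ∀ᶠ q in 𝒴.fb t, r q) (p : μ.Y) :
    ∀ᶠ y in 𝓝[≠] p, y ∉ μ.M.Sg ∧ r (μ.j y) := by
  exact (μ.M.off_near p).and (Hod.cofinite_iff.1 (μ.cofinite_iff.2 h) p)

theorem continuousAt_j (h : p ∉ μ.M.Sg) : ContinuousAt μ.j p := by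
  exact continuousAt_const.prodMk
    ((μ.M.reg p h).1.continuousAt.prodMk (μ.M.yan p h).continuousAt)

theorem an_comp (h : p ∉ μ.M.Sg) (hF : AnalyticAt ℂ F (μ.j p)) :
    An (fun y => F (μ.j y)) p ∧ D (fun y => F (μ.j y)) p = 𝒴.dX F (μ.j p) * D μ.M.x p := by
  have hp := mem_chart_source ℂ p
  have e : μ.j ((chartAt ℂ p).symm (zc p p)) = μ.j p := by rw [symm_zc hp]
  have hγ : AnalyticAt ℂ (fun z => μ.j ((chartAt ℂ p).symm z)) (zc p p) :=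
    analyticAt_const.prod (AnalyticAt.prod (μ.M.reg p h).1 (μ.M.yan p h))
  refine ⟨AnalyticAt.comp_of_eq (g := F) (f := fun z => μ.j ((chartAt ℂ p).symm z)) hF hγ e, ?_⟩
  have h1 := Pl.Ok.chain (𝒴 := 𝒴) (F := F) (γ := fun z => μ.j ((chartAt ℂ p).symm z))
    (a := zc p p) (by rw [e]; exact ok_j h) hγ.differentiableAt
    ((eventually_chart hp (P := fun y => 𝒴.On (μ.j y))).1
      ((μ.M.off_nhds h).mono fun y hy => (ok_j hy).2.1))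
    (by rw [e]; exact hF.differentiableAt) 1
  rw [e] at h1
  have h2 : fderiv ℂ (fun b => (μ.j ((chartAt ℂ p).symm b)).1) (zc p p) 1 = 0 := by
    simp [j]
  rw [h2, zero_mul, zero_add, mul_comm] at h1
  exact h1

theorem dv_comp (p : μ.Y) {y : μ.Y} (h : y ∉ μ.M.Sg) (hF : AnalyticAt ℂ F (μ.j y)) :
    dv (fun y => F (μ.j y)) p y = 𝒴.dX F (μ.j y) * μ.xv p y := by
  rw [dv, (an_comp h hF).2, mul_div_assoc]
  rfl

theorem xv_ne (p : μ.Y) : ∀ᶠ y in 𝓝[≠] p, μ.xv p y ≠ 0 ∧ An (μ.xv p) y := by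
  filter_upwards [μ.M.reg_near p,
    mem_nhdsWithin_of_mem_nhds (source_mem (mem_chart_source ℂ p))] with y h1 h2
  exact ⟨div_ne_zero h1.2 (D_zc_ne h2), an_dv h2 h1.1⟩

theorem an_χ (p : μ.Y) : ∀ᶠ y in 𝓝[≠] p, An (μ.χ p) y := by
  have hp := mem_chart_source ℂ p
  have h1 := (μ.mer p).eventually_analyticAt
  rw [← map_zc_ne hp, eventually_map] at h1
  filter_upwards [h1, mem_nhdsWithin_of_mem_nhds (source_mem hp)] with y h2 h3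
  exact an_of_loc h3 h2

theorem hf_fm (h : p ∉ μ.M.Sg) (hF : AnalyticAt ℂ F (μ.j p)) : Hf (μ.fm F) p := by
  exact hf_mul_D (an_comp h hF).1 (μ.M.reg p h).1

theorem tr_eq (μ : Md 𝒴 t) (F : E3 → ℂ) {ξ : ℂ} (h : μ.M.R.eval ξ ≠ 0) :
    μ.M.tr (fun p => F (μ.j p)) ξ = ∑ η ∈ 𝒴.rts t ξ, F (t, ξ, η) := by
  refine (μ.M.tr_eq (fun ξ η => F (t, ξ, η)) h).trans ?_
  rw [μ.hP]
  rfl

theorem tr_ae (μ : Md 𝒴 t) (F : E3 → ℂ) :
    μ.M.tr (fun p => F (μ.j p)) =ᵐ[volume] fun ξ => ∑ η ∈ 𝒴.rts t ξ, F (t, ξ, η) := by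
  have h : ∀ᵐ ξ : ℂ, μ.M.R.eval ξ ≠ 0 :=
    (finite_setOfPred_isRoot μ.M.R_ne).countable.ae_notMem volume
  exact h.mono fun ξ h1 => μ.tr_eq F h1

theorem irr (hI : SIrr) (μ : Md 𝒴 t) : 𝒴.Irr t := by
  exact ⟨μ.rt, μ.hP ▸ (hI μ.Y μ.M).2⟩

theorem RegF.holF {ν : ℕ} (h : μ.RegF ν F) : μ.HolF ν F := by
  intro p
  obtain ⟨β, β₁, h1, -, h2⟩ := h p
  exact ⟨β, h1, h2.mono fun y hy => hy.1⟩

theorem IsF.div (h : μ.IsF N w) (i : Fin g) (hp : p ∉ μ.M.Sg) :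
    w i p / D μ.M.x p = 𝒴.phs N i (μ.j p) := by
  rw [(h i).2.2 p hp, fm, mul_div_cancel_right₀ _ (μ.M.reg p hp).2.1]

theorem IsF.sum (h : μ.IsF N w) (c : Fin g → ℂ) (hp : p ∉ μ.M.Sg) :
    (∑ i, c i • w i) p = (∑ i, c i * 𝒴.phs N i (μ.j p)) * D μ.M.x p := by
  rw [Finset.sum_apply, Finset.sum_mul]
  refine Finset.sum_congr rfl fun i _ => ?_
  rw [Pi.smul_apply, smul_eq_mul, (h i).2.2 p hp, fm, mul_assoc]

theorem IsF.wd (h : μ.IsF N w) (i j : Fin g) :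
    μ.M.tr (μ.M.wd (hf (w i)) (cj (hf (w j)))) =ᵐ[volume] fun ξ =>
      ∑ η ∈ 𝒴.rts t ξ, 𝒴.phs N i (t, ξ, η) * conj (𝒴.phs N j (t, ξ, η)) := by
  refine EventuallyEq.trans (Eventually.of_forall fun ξ => ?_)
    (μ.tr_ae fun q => 𝒴.phs N i q * conj (𝒴.phs N j q))
  refine finsum_mem_congr rfl fun p hp => ?_
  rw [← h.div i hp.1, ← h.div j hp.1]
  simp only [XC.wd, cj, hf, zero_mul, sub_zero, map_div₀]
  rw [div_mul_div_comm, Complex.mul_conj, Complex.normSq_eq_norm_sq]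

theorem IsF.hm (h : μ.IsF N w) :
    𝒴.hm N t = μ.M.gram (fun i => hf (w i)) fun i => hf (w i) := by
  ext i j
  refine Eq.symm ?_
  change ∫ ξ, μ.M.tr (μ.M.wd (hf (w i)) (cj (hf (w j)))) ξ = _
  exact integral_congr_ae (h.wd i j)

theorem IsF.Q (h : μ.IsF N w) (i : Fin g) (σ : μ.Y → ℂ × ℂ) :
    μ.M.Q (hf (w i)) σ = μ.M.Q (hf (μ.fm (𝒴.phs N i))) σ := by
  refine μ.M.Q_congr (fun p hp => ?_) fun _ _ => rfl
  rw [hf, hf, (h i).2.2 p hp]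

theorem IsF.int (hP : SPr) (h : μ.IsF N w) (i j : Fin g) : Integrable fun ξ =>
    ∑ η ∈ 𝒴.rts t ξ, 𝒴.phs N i (t, ξ, η) * conj (𝒴.phs N j (t, ξ, η)) := by
  exact (μ.M.int_cl hP (cl_hf (h i).2.1) (cl_hf (h j).2.1).cj).congr (h.wd i j)

/-- the Hodge norm of a combination -/
theorem IsF.quad (hP : SPr) (h : μ.IsF N w) (c : Fin g → ℂ) :
    Integrable (fun ξ => ∑ η ∈ 𝒴.rts t ξ, ‖∑ i, c i * 𝒴.phs N i (t, ξ, η)‖ ^ 2) ∧
    (c ⬝ᵥ (𝒴.hm N t *ᵥ star c)).re =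
      ∫ ξ, ∑ η ∈ 𝒴.rts t ξ, ‖∑ i, c i * 𝒴.phs N i (t, ξ, η)‖ ^ 2 := by
  have e : ∀ ξ, ((∑ η ∈ 𝒴.rts t ξ, ‖∑ i, c i * 𝒴.phs N i (t, ξ, η)‖ ^ 2 : ℝ) : ℂ) =
      ∑ i, ∑ j, c i * conj (c j) *
        ∑ η ∈ 𝒴.rts t ξ, 𝒴.phs N i (t, ξ, η) * conj (𝒴.phs N j (t, ξ, η)) := fun ξ => by
    simp only [Finset.mul_sum]
    rw [Finset.sum_congr rfl fun i _ => Finset.sum_comm, Finset.sum_comm, Complex.ofReal_sum]
    refine Finset.sum_congr rfl fun η _ => ?_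
    rw [← Complex.normSq_eq_norm_sq, ← Complex.mul_conj, map_sum, Finset.sum_mul_sum]
    refine Finset.sum_congr rfl fun i _ => Finset.sum_congr rfl fun j _ => ?_
    rw [map_mul]
    ring
  have hi : ∀ i, Integrable fun ξ => ∑ j, c i * conj (c j) *
      ∑ η ∈ 𝒴.rts t ξ, 𝒴.phs N i (t, ξ, η) * conj (𝒴.phs N j (t, ξ, η)) := fun i =>
    integrable_finsetSum _ fun j _ => (h.int hP i j).const_mul _
  have h1 : Integrable fun ξ =>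
      ((∑ η ∈ 𝒴.rts t ξ, ‖∑ i, c i * 𝒴.phs N i (t, ξ, η)‖ ^ 2 : ℝ) : ℂ) := by
    simp only [e]
    exact integrable_finsetSum _ fun i _ => hi i
  refine ⟨by simpa only [RCLike.re_to_complex, Complex.ofReal_re] using h1.re, ?_⟩
  have h2 : c ⬝ᵥ (𝒴.hm N t *ᵥ star c) =
      ∫ ξ, ((∑ η ∈ 𝒴.rts t ξ, ‖∑ i, c i * 𝒴.phs N i (t, ξ, η)‖ ^ 2 : ℝ) : ℂ) := by
    simp only [e]
    rw [integral_finsetSum _ fun i _ => hi i]
    refine Finset.sum_congr rfl fun i _ => ?_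
    rw [integral_finsetSum _ fun j _ => (h.int hP i j).const_mul _, mulVec, dotProduct,
      Finset.mul_sum]
    refine Finset.sum_congr rfl fun j _ => ?_
    rw [integral_const_mul, mul_assoc, mul_comm (conj (c j))]
    rfl
  rw [h2, integral_complex_ofReal, Complex.ofReal_re]

theorem IsF.holF (h : μ.IsF N w) (i : Fin g) : μ.HolF 1 (𝒴.phs N i) := by
  exact (μ.M.hol_one (h i).2.1).congr (μ.M.off.mono fun p hp => h.div i hp)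

/-- the coefficient of a holomorphic form in the chart at `p` -/
theorem IsF.coef (h : μ.IsF N w) (i : Fin g) (p : μ.Y) : ∀ᶠ y in 𝓝[≠] p,
    𝒴.phs N i (μ.j y) * μ.xv p y = w i y / D (zc p) y := by
  filter_upwards [μ.M.off_near p] with y hy
  rw [(h i).2.2 y hy, fm, mul_div_assoc]
  rfl

theorem IsF.ratF (h : μ.IsF N w) (i : Fin g) : 𝒴.RatF t (𝒴.phs N i) :=
  Pl.ratF_ph μ.rt (h i).1

theorem IsB.ind (h : μ.IsB N w) : 𝒴.Ind t (𝒴.phs N) := by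
  intro c hc
  have h1 : ∀ᶠ p in cofinite, (∑ i, c i • w i) p = 0 := by
    filter_upwards [μ.cofinite_iff.2 hc, μ.M.off] with p h1 h2
    rw [h.1.sum c h2, h1, zero_mul]
  have h2 : ∑ i, c i • w i = 0 :=
    om_eq_zero_of_finite (Submodule.sum_mem _ fun i _ => Submodule.smul_mem _ _ (h.1 i).2.1)
      (eventually_cofinite.1 h1) fun y hy => not_not.1 hy
  exact funext (Fintype.linearIndependent_iff.1 h.2.1 c h2)

theorem IsB.finrank (h : μ.IsB N w) :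
    FiniteDimensional ℂ (Om μ.Y) ∧ Module.finrank ℂ (Om μ.Y) = g := by
  have e : Om μ.Y = Submodule.span ℂ (range w) :=
    le_antisymm h.2.2 (Submodule.span_le.2 (range_subset_iff.2 fun i => (h.1 i).2.1))
  rw [e]
  exact ⟨FiniteDimensional.span_of_finite ℂ (finite_range w),
    (finrank_span_eq_card h.2.1).trans (Fintype.card_fin g)⟩

/-- a holomorphic form is a combination of the basis -/
theorem IsB.span (h : μ.IsB N w) (hF : μ.HolF 1 F) :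
    ∃ c : Fin g → ℂ, ∀ᶠ q in 𝒴.fb t, F q = ∑ i, c i * 𝒴.phs N i q := by
  obtain ⟨w', h1, h2⟩ := XC.Hol.om hF
  obtain ⟨c, rfl⟩ := (Submodule.mem_span_range_iff_exists_fun ℂ).1 (h.2.2 w' h1)
  refine ⟨c, μ.cofinite_iff.1 ?_⟩
  filter_upwards [h2, μ.M.off] with p h3 h4
  rw [h.1.sum c h4] at h3
  exact (mul_right_cancel₀ (μ.M.reg p h4).2.1 h3).symm

end Md

namespace Fam

variable (Φ : Fam 𝒴) {N : Fin g → (KK L)[X][X]}

include Φ in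
theorem irr_cd (hI : SIrr) : ∀ᶠ t in cd, 𝒴.Irr t := by
  filter_upwards [Φ.mem] with t ht using Md.irr hI (Φ.md t ht)

include Φ in
theorem irr (hI : SIrr) : Irreducible 𝒴.P := by
  have : cd.NeBot := cc_neBot.mono cc_le_cd
  exact irreducible_of_sp 𝒴.monic ((Φ.irr_cd hI).mono fun t h => h.2).frequently

variable {Φ}

theorem Bas.ind (h : Φ.Bas N) : ∀ᶠ t in cd, 𝒴.Ind t (𝒴.phs N) ∧ ∀ i, 𝒴.RatF t (𝒴.phs N i) := by
  filter_upwards [h, Φ.mem] with t h1 ht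
  obtain ⟨w, hw⟩ := h1 ht
  exact ⟨hw.ind, hw.1.ratF⟩

theorem Bas.H (h : Φ.Bas N) (i : Fin g) : Φ.H 1 (𝒴.phs N i) := by
  filter_upwards [h] with t h1 ht
  obtain ⟨w, hw⟩ := h1 ht
  exact hw.1.holF i

theorem Bas.ne (hI : SIrr) (h : Φ.Bas N) (i : Fin g) : ∀ᶠ q in 𝒴.gen, 𝒴.phs N i q ≠ 0 := by
  have : cd.NeBot := cc_neBot.mono cc_le_cd
  refine (Pl.rat_ph (N i)).ne_of_fb (Φ.irr hI) (h.ind.mono fun t ht => ?_).frequently
  intro h0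
  have h1 := ht.1 (Pi.single i 1) (h0.mono fun q hq => by
    simpa [Pi.single_apply, Pl.phs] using not_not.1 hq)
  simpa using congrFun h1 i

end Fam

end Pool.Agent.P.MP_7ede32_ag.Hod
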