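import Pool.Agent.P.MP_7ede32_ag.Hod.StB

/-!
The Wronskian of a function of two variables.
-/

open Set Filter Topology Matrix Metric

namespace Pool.Agent.P.MP_7ede32_ag.Hod

open Ell (E2)

namespace WrP

lemma an_du {f : E2 → ℂ} {y : E2} (h : AnalyticAt ℂ f y) (k : ℕ) : AnalyticAt ℂ (du^[k] f) y := by
  induction k with
  | zero => exact h
  | succ k ih =>
    rw [Function.iterate_succ_apply']
    exact ((ContinuousLinearMap.apply ℂ ℂ ((1, 0) : E2)).analyticAt _).comp ih.fderiv

lemma der_du {f : E2 → ℂ} {u v : ℂ} (h : AnalyticAt ℂ f (u, v)) :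
    HasDerivAt (fun t => f (t, v)) (du f (u, v)) u :=
  h.differentiableAt.hasFDerivAt.comp_hasDerivAt u
    ((hasDerivAt_id u).prodMk (hasDerivAt_const u v))

lemma exists_points {n : ℕ} {ι : Type} (g : ι → Fin n → ℂ)
    (h : ∀ a : Fin n → ℂ, (∀ v, ∑ k, a k * g v k = 0) → a = 0) :
    ∃ v : Fin n → ι, (Matrix.of fun j k => g (v j) k).det ≠ 0 := by
  have top : Submodule.span ℂ (range g) = ⊤ := by
    by_contra hc
    obtain ⟨l, l0, hl⟩ := Submodule.exists_le_ker_of_lt_top _ (lt_top_iff_ne_top.2 hc)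
    refine l0 ?_
    have e : ∀ x : Fin n → ℂ, l x = ∑ k, l (Pi.single k 1) * x k := fun x => by
      rw [LinearMap.pi_apply_eq_sum_univ]
      refine Finset.sum_congr rfl fun k _ => ?_
      rw [smul_eq_mul, mul_comm]
      congr 2
      ext j; simp [Pi.single_apply, eq_comm]
    have := h (fun k => l (Pi.single k 1)) fun v => by
      rw [← e]; exact hl (Submodule.subset_span ⟨v, rfl⟩)
    ext x
    simpa using congrFun this x
  obtain ⟨κ, a, -, h1, h2⟩ := exists_linearIndependent' ℂ g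
  let e := (Module.Basis.mk h2 (by rw [h1, top])).indexEquiv (Pi.basisFun ℂ (Fin n))
  refine ⟨a ∘ e.symm, ((Matrix.isUnit_iff_isUnit_det _).1
    (Matrix.linearIndependent_rows_iff_isUnit.1 ?_)).ne_zero⟩
  exact h2.comp e.symm e.symm.injective

lemma der_det {n : ℕ} {M : ℂ → Matrix (Fin n) (Fin n) ℂ} {M' : Matrix (Fin n) (Fin n) ℂ} {u : ℂ}
    (h : ∀ j k, HasDerivAt (fun t => M t j k) (M' j k) u) :
    HasDerivAt (fun t => (M t).det) (∑ i, ((M u).updateCol i fun j => M' j i).det) u := by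
  simp only [Matrix.det_apply']
  rw [Finset.sum_comm]
  refine HasDerivAt.fun_sum fun σ _ => ?_
  rw [← Finset.mul_sum]
  refine HasDerivAt.const_mul _ ?_
  convert HasDerivAt.fun_finsetProd (u := Finset.univ) fun i _ => h (σ i) i using 2 with i
  rw [← Finset.mul_prod_erase _ _ (Finset.mem_univ i), updateCol_self, smul_eq_mul, mul_comm]
  congr 1
  exact Finset.prod_congr rfl fun j hj => updateCol_ne (Finset.ne_of_mem_erase hj)

lemma an_det {n : ℕ} {M : ℂ → Matrix (Fin n) (Fin n) ℂ} {u : ℂ}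
    (h : ∀ j k, AnalyticAt ℂ (fun t => M t j k) u) : AnalyticAt ℂ (fun t => (M t).det) u := by
  simp only [Matrix.det_apply']
  exact Finset.analyticAt_fun_sum _ fun σ _ => analyticAt_const.mul
    (Finset.analyticAt_fun_prod _ fun i _ => h _ _)

end WrP

open WrP in
theorem sWrP : SWrP := by
  intro r f c hf hc hi
  obtain ⟨ρ, hρ, H⟩ := Metric.eventually_nhds_iff_ball.1 (hf.eventually_analyticAt.and hc)
  have H' : ∀ u ∈ ball (0 : ℂ) ρ, ∀ v ∈ ball (0 : ℂ) ρ, (u, v) ∈ ball (0 : E2) ρ := by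
    intro u hu v hv
    rw [← Prod.mk_zero_zero, ← ball_prod_same]
    exact ⟨hu, hv⟩
  obtain ⟨u₁, h1, hu₁⟩ := (hi.and_eventually
    (mem_nhdsWithin_of_mem_nhds (ball_mem_nhds (0 : ℂ) hρ))).exists
  obtain ⟨v, hv⟩ := exists_points (fun (v : ball (0 : ℂ) ρ) (k : Fin (r + 1)) => du^[k] f (u₁, v))
    fun a ha => h1 a (by
      filter_upwards [ball_mem_nhds (0 : ℂ) hρ] with v hv using ha ⟨v, hv⟩)
  set M : ℂ → Matrix (Fin (r + 1)) (Fin (r + 1)) ℂ :=
    fun u => Matrix.of fun j k => du^[k] f (u, v j) with hM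
  have an : AnalyticOnNhd ℂ (fun t => (M t).det) (ball 0 ρ) := fun u hu =>
    an_det fun j k => (an_du (H _ (H' u hu _ (v j).2)).1 k).comp_of_eq
      (analyticAt_id.prod analyticAt_const) rfl
  have a0 := an 0 (mem_ball_self hρ)
  refine ⟨fun t => (M t).det, ⟨a0, Eventually.and ?_ ?_⟩, fun h0 => ?_⟩
  · refine a0.eventually_eq_zero_or_eventually_ne_zero.resolve_left fun h => hv ?_
    exact an.eqOn_zero_of_preconnected_of_eventuallyEq_zero (convex_ball _ _).isPreconnected
      (mem_ball_self hρ) h hu₁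
  · filter_upwards [mem_nhdsWithin_of_mem_nhds (ball_mem_nhds (0 : ℂ) hρ), self_mem_nhdsWithin]
      with u hu hu0
    have := der_det (M := M) (u := u) (M' := Matrix.of fun j k => du^[k + 1] f (u, v j))
      fun j k => by
        simp only [hM, of_apply, Function.iterate_succ_apply']
        exact der_du (an_du (H _ (H' u hu _ (v j).2)).1 k)
    rw [this.deriv, Fin.sum_univ_castSucc, Finset.sum_eq_zero, zero_add, ← smul_eq_mul,
      ← det_updateCol_sum (M u) (Fin.last r) fun k => c k u]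
    · congr 2
      ext j
      simpa [hM] using (H _ (H' u hu _ (v j).2)).2 hu0
    · intro i _
      exact det_updateCol_eq_zero (M := M u) (i := i.succ) (j := i.castSucc)
        (Fin.castSucc_lt_succ (i := i)).ne'
  · refine det_eq_zero_of_column_eq_zero 0 fun j => ?_
    have a1 : AnalyticOnNhd ℂ (fun t => f (0, t)) (ball 0 ρ) := fun t ht =>
      (H _ (H' 0 (mem_ball_self hρ) t ht)).1.comp_of_eq (analyticAt_const.prod analyticAt_id) rfl
    exact a1.eqOn_zero_of_preconnected_of_eventuallyEq_zero (convex_ball _ _).isPreconnected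
      (mem_ball_self hρ) h0 (v j).2

end Pool.Agent.P.MP_7ede32_ag.Hod
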