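import Pool.Agent.P.MP_7ede32_ag.Hod.StX
import Pool.Agent.P.MP_7ede32_ag.Hod.HXT
import Pool.Agent.P.MP_7ede32_ag.Hod.RaT
import Pool.Agent.P.MP_7ede32_ag.Hod.MT
import Pool.Agent.P.MP_7ede32_ag.Hod.WrP
import Pool.Agent.P.MP_7ede32_ag.Hod.LowB

/-!
The direct image of the canonical bundle is a system of lattices.
-/

open Set Filter Topology Polynomial Matrix Metric

namespace Pool.Agent.P.MP_7ede32_ag.Hod

open Ell (E2)

namespace Lat2P

variable {𝒳 : Sx}

theorem hx (T : Cx 𝒳) (i : Fin T.g) : ∀ᶠ z in cd, T.Q.HXf 1 (T.φ i) z :=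
  T.hx 1 _ (Pl.rat_ph _) (T.bas.H i)

theorem big (h1 : SMero) (T : Cx 𝒳) (z : ℂ) :
    ∃ k : ℕ, ∀ i, T.Q.HXf 1 (fun q => (q.1 - z) ^ k * T.φ i q) z := by
  choose k hk using fun i => h1 𝒳 T.Q 1 (T.φ i) (Pl.rat_ph _) (hx T i) z
  refine ⟨∑ i, k i, fun i => ?_⟩
  have h2 := (hk i).smul (c := fun t => (t - z) ^ (∑ j, k j - k i)) (by fun_prop)
  refine h2.congr (Eventually.of_forall fun q => ?_)
  rw [← mul_assoc, ← pow_add, Nat.sub_add_cancel
    (Finset.single_le_sum (f := k) (fun _ _ => Nat.zero_le _) (Finset.mem_univ i))]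

theorem ex_of_bound {f : ℂ → ℂ} {z : ℂ} {c : ℝ} (hf : MeromorphicAt f z)
    (h : ∀ᶠ t in 𝓝[≠] z, ‖f t‖ ≤ c) : ∃ b, AnalyticAt ℂ b z ∧ f =ᶠ[𝓝[≠] z] b := by
  refine ⟨toMeromorphicNFAt f z, ?_, hf.eq_nhdsNE_toMeromorphicNFAt⟩
  rw [← meromorphicNFAt_toMeromorphicNFAt.meromorphicOrderAt_nonneg_iff_analyticAt,
    ← meromorphicOrderAt_congr hf.eq_nhdsNE_toMeromorphicNFAt]
  by_contra h0
  have h1 := (tendsto_cobounded_iff_meromorphicOrderAt_neg hf).2 (not_le.1 h0)
  obtain ⟨t, h2, h3⟩ := (h.and ((tendsto_norm_atTop_iff_cobounded.2 h1).eventually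
    (eventually_gt_atTop c))).exists
  exact absurd h2 (not_le.2 h3)

end Lat2P

open Lat2P in
theorem sLat2 (h1 : SMero) (h2 : SNF) (h3 : SInd) : SLat2 := by
  intro 𝒳 T z
  obtain ⟨e, p, μ, hN⟩ := (h2 𝒳 z).2
  obtain ⟨k, hk⟩ := big h1 T z
  have hp : 𝒳.Ov p z := hN.2.2.2.1
  have hμ : 0 < μ := hN.2.2.2.2.1
  choose α hα using fun i => hk i p hp e hN.1 hN.2.1
  have hi := h3 𝒳 T.toTk e p z μ T.g 1 _ α hN hα (by
    filter_upwards [(T.bas.ind.filter_mono cc_le_cd).filter_mono inf_le_right,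
      (eventually_mem_nhdsWithin (a := z) (s := {z}ᶜ)).filter_mono inf_le_left] with t h4 h5
    have h6 : ∀ᶠ q in T.Q.𝒴.fb t, q.1 = t :=
      (eventually_principal.2 fun q hq => hq.1).filter_mono inf_le_left
    have h7 : (t - z) ^ k ≠ 0 := pow_ne_zero _ (sub_ne_zero.2 h5)
    refine ⟨fun i => ?_, fun c hc => ?_⟩
    · obtain ⟨a1, N, D, a2, a3⟩ := h4.2 i
      refine ⟨a1.mono fun q hq => ((analyticAt_fst.sub analyticAt_const).pow k).mul hq,
        C (C ((t - z) ^ k)) * N, D, a2, ?_⟩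
      filter_upwards [a3, h6] with q b1 b2
      rw [evalEval_mul, evalEval_C, eval_C, mul_div_assoc, ← b1, b2]
      rfl
    · have := h4.1 (fun i => (t - z) ^ k * c i) (by
        filter_upwards [hc, h6] with q b1 b2
        rw [← b1]
        refine Finset.sum_congr rfl fun i _ => ?_
        rw [b2, Cx.φ]
        ring)
      exact funext fun i => (mul_eq_zero.1 (congrFun this i)).resolve_left h7)
  have hbox : ∀ᶠ v in 𝓝 (0 : E2), (v ∈ e.target ∧ 𝒳.lam z (e.symm v) = z + v.1 ^ μ ∧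
      𝒳.Ov (e.symm v) (z + v.1 ^ μ)) ∧ (∀ i, AnalyticAt ℂ (α i ∘ e.symm) v) ∧
      ∀ i, T.Q.Co e (e.symm v) (𝒳.lam z (e.symm v)) 1 (fun q => (q.1 - z) ^ k * T.φ i q) (α i) :=
    hN.lam_symm.and ((eventually_all.2 fun i => (hN.an (hα i).1).eventually_analyticAt).and
      (hN.eventually.1 (eventually_all.2 fun i => (hα i).loc hp)))
  obtain ⟨ρ, hρ, hb⟩ := Metric.eventually_nhds_iff_ball.1 hbox
  have hin : ∀ u ∈ ball (0 : ℂ) ρ, ∀ v ∈ ball (0 : ℂ) ρ, ((u, v) : E2) ∈ ball (0 : E2) ρ := by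
    intro u hu v hv
    rw [mem_ball_zero_iff] at hu hv ⊢
    exact max_lt hu hv
  have h0 : (0 : ℂ) ∈ ball (0 : ℂ) ρ := mem_ball_self hρ
  obtain ⟨u₁, a1, a2⟩ := (hi.and_eventually
    (mem_nhdsWithin_of_mem_nhds (ball_mem_nhds (0 : ℂ) hρ))).exists
  obtain ⟨v, hv⟩ := WrP.exists_points (ι := ball (0 : ℂ) ρ)
    (fun v i => α i (e.symm (u₁, v.1))) fun c hc => a1 c
      (mem_of_superset (ball_mem_nhds (0 : ℂ) hρ) fun w hw => hc ⟨w, hw⟩)
  let M : ℂ → Matrix (Fin T.g) (Fin T.g) ℂ := fun u => Matrix.of fun j i =>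
    α i (e.symm (u, (v j).1))
  have hM : ∀ u ∈ ball (0 : ℂ) ρ, ∀ j i, AnalyticAt ℂ (fun s => M s j i) u := fun u hu j i =>
    ((hb _ (hin u hu _ (v j).2)).2.1 i).comp_of_eq (analyticAt_id.prod analyticAt_const) rfl
  have hD : AnalyticOnNhd ℂ (fun u => (M u).det) (ball 0 ρ) := fun u hu => WrP.an_det (hM u hu)
  obtain ⟨d, g, g1, g2, g3⟩ := (hD 0 h0).exists_eventuallyEq_pow_smul_nonzero_iff.2 fun h =>
    hv (hD.eqOn_zero_of_preconnected_of_eventuallyEq_zero (convex_ball _ _).isPreconnected h0 h a2)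
  refine ⟨d, fun a ha => ?_⟩
  have key : ∀ j, ∃ b : ℂ → ℂ, ContinuousAt b 0 ∧
      ∀ᶠ u in 𝓝[≠] (0 : ℂ), (M u *ᵥ a (z + u ^ μ)) j = b u := fun j => by
    obtain ⟨⟨b1, b2, b3⟩, -, b4⟩ := hb _ (hin 0 h0 _ (v j).2)
    simp only [zero_pow hμ.ne', add_zero] at b2 b3
    rw [b2] at b4
    obtain ⟨β, hβ⟩ := ha.2 _ b3 e hN.1 (e.map_target b1)
    have hc : ContinuousAt (fun u : ℂ => e.symm (u, (v j).1)) 0 :=
      ContinuousAt.comp (f := fun u : ℂ => ((u, (v j).1) : E2)) (e.continuousAt_symm b1)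
        (by fun_prop)
    have c1 := T.Q.nb_eq b3 (F := fun y => ∑ i, α i y * a (𝒳.lam z y) i)
      (G := fun y => (𝒳.lam z y - z) ^ k * β y) (by
        filter_upwards [hβ.2, eventually_all.2 fun i => (b4 i).2] with y d1 d2
        rw [← d1, cb, Finset.sum_mul, Finset.mul_sum]
        refine Finset.sum_congr rfl fun i _ => ?_
        rw [← d2 i]
        change (𝒳.lam z y - z) ^ k * _ * _ * _ = (𝒳.lam z y - z) ^ k * (a (𝒳.lam z y) i * _ * _)
        ring)
    have c2 : ∀ᶠ y in 𝓝 (e.symm (0, (v j).1)), 𝒳.lam z y ≠ z →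
        ∀ i, AnalyticAt ℂ (fun t => a t i) (𝒳.lam z y) :=
      b3.tendsto_lam.eventually (eventually_nhdsWithin_iff.1
        (eventually_all.2 fun i => (ha.1 i).eventually_analyticAt))
    have c3 : ∀ᶠ y in 𝓝 (e.symm (0, (v j).1)), 𝒳.lam z y ≠ z →
        ∑ i, α i y * a (𝒳.lam z y) i = (𝒳.lam z y - z) ^ k * β y := by
      filter_upwards [c1, c2, b3.an_lam.eventually, hβ.1.eventually,
        eventually_all.2 fun i => (b4 i).1.eventually] with y d1 d2 d3 d4 d5 d6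
      exact d1 (tendsto_finsetSum _ fun i _ => (d5 i).continuousAt.mul
        ((d2 d6 i).continuousAt.comp d3.continuousAt))
        (((d3.continuousAt.sub continuousAt_const).pow k).mul d4.continuousAt)
    refine ⟨fun u => (u ^ μ) ^ k * β (e.symm (u, (v j).1)),
      ContinuousAt.mul (by fun_prop) (hβ.1.continuousAt.comp_of_eq hc rfl), ?_⟩
    filter_upwards [(hc.eventually c3).filter_mono nhdsWithin_le_nhds, self_mem_nhdsWithin,
      mem_nhdsWithin_of_mem_nhds (ball_mem_nhds (0 : ℂ) hρ)] with u d1 d2 d3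
    rw [(hb _ (hin u d3 _ (v j).2)).1.2.1, add_sub_cancel_left] at d1
    exact d1 fun h => d2 (pow_eq_zero_iff hμ.ne' |>.1 (add_eq_left.1 h))
  choose b b1 b2 using key
  have fin : ∀ i, ∃ c, AnalyticAt ℂ c z ∧ (fun t => (t - z) ^ d * a t i) =ᶠ[𝓝[≠] z] c := fun i => by
    have c1 : ContinuousAt (fun u => ((M u).updateCol i fun j => b j u).det / g u) 0 := by
      refine ContinuousAt.div ?_ g1.continuousAt g2
      refine (Continuous.matrix_det continuous_id).continuousAt.comp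
        (continuousAt_pi.2 fun j => continuousAt_pi.2 fun l => ?_)
      by_cases hl : l = i
      · exact (b1 j).congr (Eventually.of_forall fun u => by simp [hl])
      · exact (hM 0 h0 j l).continuousAt.congr
          (Eventually.of_forall fun u => by simp [hl])
    obtain ⟨c, hc⟩ := c1.norm.isBoundedUnder_le
    have c2 : ∀ᶠ u in 𝓝[≠] (0 : ℂ), ‖(u ^ μ) ^ d * a (z + u ^ μ) i‖ ≤ c := by
      filter_upwards [eventually_all.2 b2, (eventually_map.1 hc).filter_mono nhdsWithin_le_nhds,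
        (g3.and (g1.continuousAt.eventually_ne g2)).filter_mono nhdsWithin_le_nhds,
        mem_nhdsWithin_of_mem_nhds (closedBall_mem_nhds (0 : ℂ) one_pos)] with u d1 d2 d3 d4
      have d5 : (fun j => b j u) = M u *ᵥ a (z + u ^ μ) := funext fun j => (d1 j).symm
      have d6 := congrFun (cramer_eq_adjugate_mulVec (M u) (M u *ᵥ a (z + u ^ μ))) i
      rw [mulVec_mulVec, adjugate_mul, cramer_apply, smul_mulVec, one_mulVec] at d6
      rw [d5, d6, Pi.smul_apply, d3.1, sub_zero, smul_eq_mul, smul_eq_mul, mul_right_comm,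
        mul_div_cancel_right₀ _ d3.2] at d2
      refine le_trans ?_ d2
      rw [norm_mul, norm_mul, norm_pow, norm_pow, norm_pow]
      rw [mem_closedBall_zero_iff] at d4
      exact mul_le_mul_of_nonneg_right (pow_le_pow_left₀ (by positivity)
        (pow_le_of_le_one (norm_nonneg _) d4 hμ.ne') d) (norm_nonneg _)
    refine ex_of_bound (c := c) (MeromorphicAt.mul (by fun_prop) (ha.1 i)) ?_
    filter_upwards [(LowBP.tendsto_sub z).eventually (LowBP.roots hμ c2)] with t ht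
    obtain ⟨u, hu⟩ := IsAlgClosed.exists_pow_nat_eq (t - z) hμ
    have := (ht u hu).2
    rwa [hu, add_sub_cancel] at this
  choose c c1 c2 using fin
  refine ⟨fun t i => c i t, c1, ?_⟩
  filter_upwards [eventually_all.2 c2] with t ht
  exact funext ht

open Lat2P in
theorem sLat1 (h1 : SMero) (h2 : SLat2) : SLat1 := by
  intro 𝒳 T
  refine ⟨fun z => ⟨fun a ha => ha.1, fun a ha a' h => ⟨fun i => (ha.1 i).congr
    (h.mono fun t ht => congrFun ht i), ha.2.congr ?_⟩, fun a ha a' ha' =>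
    ⟨fun i => (ha.1 i).add (ha'.1 i), (ha.2.add ha'.2).congr (Eventually.of_forall fun q => ?_)⟩,
    fun a ha c hc => ⟨fun i => hc.meromorphicAt.mul (ha.1 i),
      (ha.2.smul hc).congr (Eventually.of_forall fun q => ?_)⟩, ?_, h2 𝒳 T z⟩,
    fun w hw z a ha => ⟨fun i => ?_, (ha.2.shift hw).congr (Eventually.of_forall fun q => ?_)⟩, ?_⟩
  · filter_upwards [(tendsto_comap.eventually h).filter_mono inf_le_right] with q hq
    rw [cb, cb, hq]
  · simp [cb, add_mul, Finset.sum_add_distrib]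
  · simp [cb, Finset.mul_sum, mul_assoc]
  · obtain ⟨k, hk⟩ := big h1 T z
    refine ⟨k, fun i => ⟨fun j => MeromorphicAt.mul (by fun_prop) (MeromorphicAt.const _ _),
      (hk i).congr (Eventually.of_forall fun q => ?_)⟩⟩
    simp [cb, Pi.single_apply]
  · exact MeromorphicAt.comp_analyticAt (f := fun t => a t i) (g := fun t => t - w) (x := z + w)
      (by simpa using ha.1 i) (by fun_prop)
  · refine Finset.sum_congr rfl fun i _ => ?_
    have := Pl.ph_per (𝒴 := T.Q.𝒴) (T.N i) hw (q.1 - w) q.2.1 q.2.2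
    rw [sub_add_cancel] at this
    exact congrArg _ this.symm
  · filter_upwards [eventually_all.2 (hx T)] with z hz a ha
    exact ⟨fun i => (ha i).meromorphicAt, Pm.hxf_sum fun i _ => (hz i).smul (ha i)⟩

end Pool.Agent.P.MP_7ede32_ag.Hod
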