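import Pool.Agent.P.MP_7ede32_ag.Hod.DF

/-!
The steps for the family of fibres, as propositions.
-/

open Set Filter Topology MeasureTheory ComplexConjugate Polynomial Matrix
open scoped ComplexOrder

namespace Pool.Agent.P.MP_7ede32_ag.Hod

open MP_5d7cf0_gt.T (RS zc loc An D Om)
open Ell (E2)

/-- The pairing with a transported form is holomorphic in the parameter. -/
def STr1 : Prop :=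
  ∀ (L : PeriodPair) (𝒴 : Pl L) (t₀ : ℂ) (μ : Md 𝒴 t₀) (θ : μ.Y → ℂ × ℂ) (F : E3 → ℂ),
    μ.M.Zc θ → 𝒴.AnO F t₀ → AnalyticAt ℂ (μ.Gam θ F) t₀ ∧
      μ.Gam θ F t₀ = μ.M.Q (hf (μ.fm F)) θ ∧
      deriv (μ.Gam θ F) t₀ = μ.M.Q (hf (μ.fm (𝒴.dT F))) θ

/-- Transport of closed forms to the nearby fibres. -/
def STr2 : Prop :=
  ∀ (L : PeriodPair) (𝒴 : Pl L) (t₀ : ℂ) (μ₀ : Md 𝒴 t₀) (𝒮 : Set (μ₀.Y → ℂ × ℂ)), 𝒮.Finite →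
    (∀ θ ∈ 𝒮, μ₀.M.Zc θ) → ∀ᶠ t in 𝓝 t₀, ∀ μ : Md 𝒴 t,
      ∃ tp : (μ₀.Y → ℂ × ℂ) → μ.Y → ℂ × ℂ, ∀ θ ∈ 𝒮, μ.M.Zc (tp θ) ∧
        (∀ θ' ∈ 𝒮, μ.M.Q (tp θ) (tp θ') = μ₀.M.Q θ θ') ∧
        ∀ F, μ.M.Q (hf (μ.fm F)) (tp θ) = μ₀.Gam θ F t

/-- The genus is lower semicontinuous. -/
def SGenL : Prop :=
  ∀ (L : PeriodPair) (𝒴 : Pl L) (t₀ : ℂ) (μ₀ : Md 𝒴 t₀), ∀ᶠ t in 𝓝 t₀, ∀ μ : Md 𝒴 t,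
    Module.finrank ℂ (Om μ₀.Y) ≤ Module.finrank ℂ (Om μ.Y)

/-- A basis of the holomorphic forms over the field of elliptic functions. -/
def SBas : Prop :=
  ∀ (L : PeriodPair) (𝒴 : Pl L) (Φ : Fam 𝒴), ∃ (g : ℕ) (N : Fin g → (KK L)[X][X]), Φ.Bas N

/-- The genus is at least two. -/
def SG2 : Prop :=
  ∀ (L : PeriodPair) (𝒴 : Pl L) (Φ : Fam 𝒴) (g : ℕ) (N : Fin g → (KK L)[X][X]) (ν : ℕ)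
    (F : E3 → ℂ), Φ.Bas N → 0 < ν → 𝒴.Rat F → (¬ ∀ᶠ q in 𝒴.gen, F q = 0) → Φ.H ν F →
    Φ.H ν (fun q => q.2.1 * F q) → 2 ≤ g

/-- The barrier for the Hodge metric. -/
def SGam : Prop :=
  ∀ (L : PeriodPair) (𝒴 : Pl L) (Φ : Fam 𝒴) (g : ℕ) (N : Fin g → (KK L)[X][X]), Φ.Bas N →
    ∀ᶠ t in cd, ∀ h : t ∈ Φ.G, (𝒴.hm N t).PosDef ∧ ∃ Γ, Bar (𝒴.hm N) t Γ ∧
      (BarEq (𝒴.hm N) t Γ → ∀ σ, (Φ.md t h).M.Zc σ → ∀ i,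
        (Φ.md t h).M.Q (hf ((Φ.md t h).fm (𝒴.dT (𝒴.phs N i)))) σ =
          ∑ j, (dM Γ t * (𝒴.hm N t)⁻¹) i j * (Φ.md t h).M.Q (hf ((Φ.md t h).fm (𝒴.phs N j))) σ)

/-- The Hodge metric is good. -/
def SGm : Prop :=
  ∀ (L : PeriodPair) (𝒴 : Pl L) (Φ : Fam 𝒴) (g : ℕ) (N : Fin g → (KK L)[X][X]), Φ.Bas N →
    ∀ᶠ t in cd, Gm (𝒴.hm N) t

/-- The connection on one fibre. -/
def SConn1 : Prop :=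
  ∀ (L : PeriodPair) (𝒴 : Pl L) (Φ : Fam 𝒴) (g : ℕ) (N : Fin g → (KK L)[X][X]), Φ.Bas N →
    (∀ᶠ t in cd, ∀ Γ, Bar (𝒴.hm N) t Γ → BarEq (𝒴.hm N) t Γ) →
    ∀ᶠ t in cd, ∃ m₀ : Matrix (Fin g) (Fin g) ℂ, Fl (𝒴.hm N) (fun _ => m₀) t ∧
      ∀ i, ∃ (k : ℕ) (N' : ℂ[X][X]), ∀ᶠ q in 𝒴.fb t,
        𝒴.dX (fun q => N'.evalEval q.2.1 q.2.2 / ev1 𝒴.R q ^ k) q =
          𝒴.dT (𝒴.phs N i) q - ∑ j, m₀ i j * 𝒴.phs N j q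

/-- The connection. -/
def SConn2 : Prop :=
  ∀ (L : PeriodPair) (𝒴 : Pl L) (Φ : Fam 𝒴) (g : ℕ) (N : Fin g → (KK L)[X][X]), Φ.Bas N →
    (∀ᶠ t in cd, ∀ Γ, Bar (𝒴.hm N) t Γ → BarEq (𝒴.hm N) t Γ) →
    ∃ m u, 𝒴.Conn N m u ∧ ∀ᶠ t in cd, Fl (𝒴.hm N) (km m) t

/-- The principal parts of the primitives, and the Koszul relations. -/
def SCw : Prop :=
  ∀ (L : PeriodPair) (𝒴 : Pl L) (Φ : Fam 𝒴) (g : ℕ) (N : Fin g → (KK L)[X][X])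
    (m : Matrix (Fin g) (Fin g) (KK L)) (u : Fin g → E3 → ℂ), Φ.Bas N → 𝒴.Conn N m u →
    ∀ᶠ t in cd, 𝒴.CwB N u t ∧ ∀ h : t ∈ Φ.G, (Φ.md t h).CwA N u

/-- Points with the same canonical image. -/
def SSepY : Prop :=
  ∀ (L : PeriodPair) (𝒴 : Pl L) (Φ : Fam 𝒴) (g : ℕ) (N : Fin g → (KK L)[X][X]), Φ.Bas N →
    ∀ᶠ t in cd, 𝒴.SepAt N t

/-- The alternative of the infinitesimal Torelli theorem. -/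
def SPartY : Prop :=
  ∀ (L : PeriodPair) (𝒴 : Pl L) (Φ : Fam 𝒴) (g : ℕ) (N : Fin g → (KK L)[X][X])
    (u : Fin g → E3 → ℂ), Φ.Bas N → ∀ᶠ t in cd, 𝒴.CwB N u t → 𝒴.AltI N u t ∨ 𝒴.AltII N t

/-- The hyperelliptic involution in a family. -/
def SHypA : Prop :=
  ∀ (L : PeriodPair) (𝒴 : Pl L) (Φ : Fam 𝒴) (g : ℕ) (N : Fin g → (KK L)[X][X]) (i₁ i₂ : Fin g)
    (T : E3 → Prop), Φ.Bas N → i₁ ≠ i₂ → (∃ᶠ t in cc, 𝒴.AltII N t) → (∀ᶠ q in 𝒴.gen, T q) →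
    𝒴.TwoCh N i₁ i₂ T

/-- The Kodaira-Spencer class of a hyperelliptic family. -/
def SHypB : Prop :=
  ∀ (L : PeriodPair) (𝒴 : Pl L) (Φ : Fam 𝒴) (g : ℕ) (N : Fin g → (KK L)[X][X]) (i₁ i₂ : Fin g)
    (m : Matrix (Fin g) (Fin g) (KK L)) (u : Fin g → E3 → ℂ), Φ.Bas N → i₁ ≠ i₂ →
    𝒴.Conn N m u → (∀ᶠ t in cd, 𝒴.CwB N u t ∧ 𝒴.SepAt N t) →
    (∀ T : E3 → Prop, (∀ᶠ q in 𝒴.gen, T q) → 𝒴.TwoCh N i₁ i₂ T) → ∃ᶠ t in cc, 𝒴.AltI N u t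

/-- The vector field. -/
def SVF : Prop :=
  ∀ (L : PeriodPair) (𝒴 : Pl L) (Φ : Fam 𝒴) (g : ℕ) (N : Fin g → (KK L)[X][X])
    (m : Matrix (Fin g) (Fin g) (KK L)) (u : Fin g → E3 → ℂ), Φ.Bas N → 0 < g → 𝒴.Conn N m u →
    (∀ᶠ t in cd, ∀ h : t ∈ Φ.G, (Φ.md t h).CwA N u) → (∃ᶠ t in cc, 𝒴.AltI N u t) →
    ∃ s, 𝒴.VFd N m s ∧ Φ.Reg s

/-- The Lie derivative of a holomorphic differential is holomorphic. -/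
def SCyc1 : Prop :=
  ∀ (L : PeriodPair) (𝒴 : Pl L) (Φ : Fam 𝒴) (s F : E3 → ℂ) (ν : ℕ), 𝒴.Rat s → Φ.Reg s →
    𝒴.Rat F → Φ.H ν F → Φ.H ν (𝒴.LD ν s F)

/-- The first linear relation in a sequence of holomorphic differentials. -/
def SCyc2 : Prop :=
  ∀ (L : PeriodPair) (𝒴 : Pl L) (Φ : Fam 𝒴) (ν : ℕ) (F : ℕ → E3 → ℂ),
    (∀ k, 𝒴.Rat (F k) ∧ Φ.H ν (F k)) → (¬ ∀ᶠ q in 𝒴.gen, F 0 q = 0) →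
    ∃ (r : ℕ) (c : Fin (r + 1) → KK L),
      (∀ᶠ q in 𝒴.gen, F (r + 1) q = ∑ k, rv (c k) q.1 * F k q) ∧
      ∀ᶠ t in cc, 𝒴.Ind t fun k : Fin (r + 1) => F k

/-- Flat forms are invariant, and their ratios are first integrals. -/
def SRel1 : Prop :=
  ∀ (L : PeriodPair) (𝒴 : Pl L) (g : ℕ) (N : Fin g → (KK L)[X][X])
    (m : Matrix (Fin g) (Fin g) (KK L)) (s : E3 → ℂ) (z : ℂ) (Θ : MF g), 𝒴.VFd N m s →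
    FlF m z Θ → ∀ a b : Fin g → ℂ, ∀ᶠ q in 𝒴.gz z, AnalyticAt ℂ (𝒴.cf N Θ a) q ∧
      𝒴.LD 1 s (𝒴.cf N Θ a) q = 0 ∧ (𝒴.cf N Θ b q ≠ 0 →
        𝒴.dT (fun q => 𝒴.cf N Θ a q / 𝒴.cf N Θ b q) q =
          s q * 𝒴.dX (fun q => 𝒴.cf N Θ a q / 𝒴.cf N Θ b q) q)

/-- The relations between a ratio and a flat form do not depend on the fibre. -/
def SRelC : Prop :=
  ∀ (L : PeriodPair) (𝒴 : Pl L) (Φ : Fam 𝒴) (g : ℕ) (N : Fin g → (KK L)[X][X])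
    (m : Matrix (Fin g) (Fin g) (KK L)) (s : E3 → ℂ) (z : ℂ) (Θ : MF g) (a b : Fin g → ℂ)
    (r : E3 → ℂ), Φ.Bas N → 𝒴.VFd N m s → FlF m z Θ →
    (∀ c d : ℂ, c • a + d • b = 0 → c = 0 ∧ d = 0) →
    (r = fun q => 𝒴.cf N Θ a q / 𝒴.cf N Θ b q) → ∃ U ∈ 𝓝[≠] z, ∀ H : ℂ[X][X], ∀ t ∈ U, ∀ t' ∈ U,
      (∀ᶠ q in 𝒴.fb t, H.evalEval (r q) (𝒴.cf N Θ b q / 𝒴.dX r q) = 0) →
      ∀ᶠ q in 𝒴.fb t', H.evalEval (r q) (𝒴.cf N Θ b q / 𝒴.dX r q) = 0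

/-- A uniform bound near the zeros of a ratio. -/
def SRel2 : Prop :=
  ∀ (L : PeriodPair) (𝒴 : Pl L) (Φ : Fam 𝒴) (g : ℕ) (N : Fin g → (KK L)[X][X])
    (m : Matrix (Fin g) (Fin g) (KK L)) (s : E3 → ℂ) (z : ℂ) (Θ : MF g) (a b : Fin g → ℂ),
    Φ.Bas N → 𝒴.VFd N m s → FlF m z Θ → (∀ c d : ℂ, c • a + d • b = 0 → c = 0 ∧ d = 0) →
    ∃ δ : ℝ → ℝ, (∀ ε > 0, 0 < δ ε) ∧ ∀ᶠ q in 𝒴.gz z, 𝒴.cf N Θ b q ≠ 0 → ∀ ε > 0,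
      ‖𝒴.cf N Θ a q / 𝒴.cf N Θ b q‖ < δ ε →
        ‖𝒴.cf N Θ a q‖ ≤ ε * ‖𝒴.dX (fun q => 𝒴.cf N Θ a q / 𝒴.cf N Θ b q) q‖

end Pool.Agent.P.MP_7ede32_ag.Hod
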