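import Pool.Agent.P.MP_7ede32_ag.Hod.StX
import Pool.Agent.P.MP_7ede32_ag.Hod.StF
import Pool.Agent.P.MP_7ede32_ag.Hod.StB
import Pool.Agent.P.MP_7ede32_ag.Hod.HXT

/-!
The ratio of two flat forms as a coordinate, and the multiplicity of the component.
-/

open Set Filter Topology Polynomial Matrix Bornology Metric

noncomputable section

namespace Pool.Agent.P.MP_7ede32_ag.Hod

open Geo (Sf0 wedge D)
open Full (Mf GT Nc PCh Sec)
open Ell (E2 jac)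

namespace Leaf3

theorem D_fst {X : Type} [MetricSpace X] {e : Ch X} {y : X} (hy : y ∈ e.source) :
    D (fun y => (e y).1) e y = ContinuousLinearMap.fst ℂ ℂ ℂ := by
  have h : (fun y => (e y).1) ∘ e.symm =ᶠ[𝓝 (e y)] fun v => v.1 := by
    filter_upwards [e.open_target.mem_nhds (e.map_source hy)] with v hv
    simp [e.right_inv hv]
  rw [D, h.fderiv_eq]
  exact (hasFDerivAt_fst (𝕜 := ℂ)).fderiv

theorem D_snd {X : Type} [MetricSpace X] {e : Ch X} {y : X} (hy : y ∈ e.source) (c : ℂ) :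
    D (fun y => (e y).2 + c) e y = ContinuousLinearMap.snd ℂ ℂ ℂ := by
  have h : (fun y => (e y).2 + c) ∘ e.symm =ᶠ[𝓝 (e y)] fun v => v.2 + c := by
    filter_upwards [e.open_target.mem_nhds (e.map_source hy)] with v hv
    simp [e.right_inv hv]
  rw [D, h.fderiv_eq]
  exact ((hasFDerivAt_snd (𝕜 := ℂ)).add_const c).fderiv

theorem D_congr {X : Type} [MetricSpace X] {e : Ch X} {y : X} (hy : y ∈ e.source) {F G : X → ℂ}
    (h : ∀ᶠ y' in 𝓝 y, F y' = G y') : D F e y = D G e y := by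
  have h1 : F ∘ e.symm =ᶠ[𝓝 (e y)] G ∘ e.symm := Geo.Sf0.symm_eventually hy h
  rw [D, D, h1.fderiv_eq]

theorem an_fst {X : Type} [MetricSpace X] {S : Sf0 X} {e : Ch X} {y : X} (he : e ∈ S.A)
    (hy : y ∈ e.source) : S.AnAt (fun y => (e y).1) y := fun e' he' hy' =>
  analyticAt_fst.comp (Geo.Sf0.anAt_chart he hy e' he' hy')

theorem an_snd {X : Type} [MetricSpace X] {S : Sf0 X} {e : Ch X} {y : X} (he : e ∈ S.A)
    (hy : y ∈ e.source) (c : ℂ) : S.AnAt (fun y => (e y).2 + c) y := fun e' he' hy' =>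
  (analyticAt_snd.comp (Geo.Sf0.anAt_chart he hy e' he' hy')).add analyticAt_const

variable {𝒳 : Sx} {T : Cx 𝒳}

theorem row_eq (Θ : MF T.g) (k : Fin T.g) :
    T.Q.𝒴.cf T.N Θ (Pi.single k 1) = T.row Θ k := by
  funext q
  simp [Pl.cf, Cx.row, cb, Cx.φ]

/-- the ratio of two rows -/
def rat (T : Cx 𝒳) (Θ : MF T.g) (i j : Fin T.g) (q : E3) : ℂ := T.row Θ i q / T.row Θ j q

/-- the facts that hold at a generic point -/
structure Gd (T : Cx 𝒳) (s : E3 → ℂ) (z : ℂ) (Θ : MF T.g) (e : Ch 𝒳.X) (μ : ℕ) (c : ℂ)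
    (α : Fin T.g → 𝒳.X → ℂ) (i j : Fin T.g) (y : 𝒳.X) : Prop where
  off : y ∉ 𝒳.Z
  src : y ∈ e.source
  ok : T.Q.𝒴.Ok (T.Q.jm z y)
  an : AnalyticAt ℂ (T.Q.jm z ∘ e.symm) (e y)
  on : T.Q.𝒴.On (T.Q.jm z y)
  anr : ∀ k, AnalyticAt ℂ (T.row Θ k) (T.Q.jm z y)
  ld : ∀ k, T.Q.𝒴.LD 1 s (T.row Θ k) (T.Q.jm z y) = 0
  rel : T.row Θ j (T.Q.jm z y) ≠ 0 → T.Q.𝒴.dT (rat T Θ i j) (T.Q.jm z y) =
    s (T.Q.jm z y) * T.Q.𝒴.dX (rat T Θ i j) (T.Q.jm z y)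
  co : ∀ k, T.row Θ k (T.Q.jm z y) * (μ * (e y).1 ^ (μ - 1) * D 𝒳.x e y (0, 1)) = α k y
  ne : (μ : ℂ) * (e y).1 ^ (μ - 1) * D 𝒳.x e y (0, 1) ≠ 0
  chain : ∀ F : E3 → ℂ, DifferentiableAt ℂ F (T.Q.jm z y) →
    D (fun y => F (T.Q.jm z y)) e y (0, 1) = D 𝒳.x e y (0, 1) * T.Q.𝒴.dX F (T.Q.jm z y) ∧
    D (fun y => F (T.Q.jm z y)) e y (1, 0) = μ * (e y).1 ^ (μ - 1) * T.Q.𝒴.dT F (T.Q.jm z y) +
      D 𝒳.x e y (1, 0) * T.Q.𝒴.dX F (T.Q.jm z y)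
  lam : 𝒳.lam z y = z + (e y).1 ^ μ
  ov : 𝒳.Ov y (𝒳.lam z y)
  ij : α i y = ((e y).2 + c) * α j y
  ans : AnalyticAt ℂ s (T.Q.jm z y)
  ana : ∀ k, 𝒳.S.AnAt (α k) y

variable {m : Matrix (Fin T.g) (Fin T.g) (KK 𝒳.L)} {s : E3 → ℂ} {z c : ℂ} {Θ : MF T.g}
  {e : Ch 𝒳.X} {p y : 𝒳.X} {μ : ℕ} {α : Fin T.g → 𝒳.X → ℂ} {i j : Fin T.g}

theorem gd_ev (h1 : SRel1) (hv : T.Q.𝒴.VFd T.N m s) (hf : FlF m z Θ) (hn : 𝒳.NF e p z μ)
    (hc : ∀ k, T.Q.Co e p z 1 (T.row Θ k) (α k))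
    (hij : ∀ᶠ y in 𝓝 p, α i y = ((e y).2 + c) * α j y) :
    ∀ᶠ y in T.Q.Nb p z, Gd T s z Θ e μ c α i j y := by
  have hp := hn.2.2.2.1
  have a1 : ∀ᶠ q in T.Q.𝒴.gz z, ∀ k, AnalyticAt ℂ (T.row Θ k) q ∧
      T.Q.𝒴.LD 1 s (T.row Θ k) q = 0 := by
    refine eventually_all.2 fun k => ?_
    filter_upwards [h1 _ T.Q.𝒴 _ T.N m s z Θ hv hf (Pi.single k 1) 0] with q hq
    rw [row_eq] at hq
    exact ⟨hq.1, hq.2.1⟩
  have a2 : ∀ᶠ q in T.Q.𝒴.gz z, T.row Θ j q ≠ 0 → T.Q.𝒴.dT (rat T Θ i j) q =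
      s q * T.Q.𝒴.dX (rat T Θ i j) q := by
    filter_upwards [h1 _ T.Q.𝒴 _ T.N m s z Θ hv hf (Pi.single i 1) (Pi.single j 1)] with q hq
    rw [row_eq, row_eq] at hq
    exact hq.2.2
  have a3 : ∀ᶠ y in T.Q.Nb p z, ∀ k, T.row Θ k (T.Q.jm z y) * 𝒳.W e y ^ 1 = α k y :=
    eventually_all.2 fun k => (hc k).2
  have a4 : ∀ᶠ y in 𝓝 p, ∀ k, 𝒳.S.AnAt (α k) y := eventually_all.2 fun k => (hc k).1.eventually
  filter_upwards [Pm.nb_off, Pm.nb_par hp hn.1 hn.2.1, Pm.nb_gz hp a1, Pm.nb_gz hp a2, a3,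
    Pm.nb_le hn.W_eq, Pm.nb_chain hn, Pm.nb_le hn.2.2.2.2.2, Pm.nb_le hp.lam_ov, Pm.nb_le hij,
    Pm.nb_gen hv.rat.1, Pm.nb_le a4] with y b1 b2 b3 b4 b5 b6 b7 b8 b9 b10 b11 b12
  refine ⟨b1, b2.1, b2.2.1, b2.2.2.1, b2.2.1.2.1, fun k => (b3 k).1, fun k => (b3 k).2, b4,
    fun k => ?_, ?_, b7, b8, b9, b10, b11, b12⟩
  · rw [← b5 k, pow_one, b6]
  · rw [← b6]
    exact Sx.W_ne b1 hn.1 b2.1

theorem Gd.row_ne (h : Gd T s z Θ e μ c α i j y) (h0 : α j y ≠ 0) :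
    T.row Θ j (T.Q.jm z y) ≠ 0 := fun h1 => h0 (by rw [← h.co j, h1, zero_mul])

theorem key (h : ∀ᶠ y' in 𝓝 y, Gd T s z Θ e μ c α i j y') (h0 : α j y ≠ 0) :
    D 𝒳.x e y (0, 1) * T.Q.𝒴.dX (rat T Θ i j) (T.Q.jm z y) = 1 ∧
      D 𝒳.x e y (1, 0) = -(μ * (e y).1 ^ (μ - 1) * s (T.Q.jm z y)) := by
  have g := h.self_of_nhds
  have hr := g.row_ne h0
  have hd : DifferentiableAt ℂ (rat T Θ i j) (T.Q.jm z y) :=
    ((g.anr i).div (g.anr j) hr).differentiableAt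
  have e1 : ∀ᶠ y' in 𝓝 y, rat T Θ i j (T.Q.jm z y') = (e y').2 + c := by
    filter_upwards [h, (g.ana j).continuousAt.eventually_ne h0] with y' g' h0'
    have h2 := g'.ij
    rw [← g'.co i, ← g'.co j, ← mul_assoc ((e y').2 + c)] at h2
    rw [rat, div_eq_iff (g'.row_ne h0')]
    exact mul_right_cancel₀ g'.ne h2
  have e2 := D_congr g.src e1
  rw [D_snd g.src] at e2
  obtain ⟨c1, c2⟩ := g.chain _ hd
  rw [e2] at c1 c2
  simp only [ContinuousLinearMap.coe_snd'] at c1 c2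
  rw [g.rel hr] at c2
  refine ⟨c1.symm, ?_⟩
  have hX : T.Q.𝒴.dX (rat T Θ i j) (T.Q.jm z y) ≠ 0 := fun h => by simp [h] at c1
  apply mul_right_cancel₀ hX
  linear_combination -c2

theorem Gd.cont_jm (g : Gd T s z Θ e μ c α i j y) : ContinuousAt (T.Q.jm z) y := by
  have h1 : T.Q.jm z =ᶠ[𝓝 y] (T.Q.jm z ∘ e.symm) ∘ e := by
    filter_upwards [e.open_source.mem_nhds g.src] with y' hy'
    simp [e.left_inv hy']
  exact (ContinuousAt.comp g.an.continuousAt (e.continuousAt g.src)).congr h1.symm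

theorem key2 (he : e ∈ 𝒳.S.A) (h : ∀ᶠ y' in 𝓝 y, Gd T s z Θ e μ c α i j y')
    (h0 : ∃ᶠ y' in 𝓝 y, α j y' ≠ 0) :
    D 𝒳.x e y (1, 0) = -(μ * (e y).1 ^ (μ - 1) * s (T.Q.jm z y)) := by
  have g := h.self_of_nhds
  have c1 : ContinuousAt (fun y => D 𝒳.x e y (1, 0)) y :=
    ContinuousAt.comp (g := du (𝒳.x ∘ e.symm)) (an_du (Sx.an_x g.off e he g.src)).continuousAt
      (e.continuousAt g.src)
  have c2 : ContinuousAt (fun y => -(μ * (e y).1 ^ (μ - 1) * s (T.Q.jm z y))) y :=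
    ((continuousAt_const.mul ((e.continuousAt g.src).fst.pow _)).mul
      (ContinuousAt.comp g.ans.continuousAt g.cont_jm)).neg
  refine tendsto_nhds_unique_of_frequently_eq c1 c2 ?_
  exact (h0.and_eventually h.eventually_nhds).mono fun y' hy' => (key hy'.2 hy'.1).2

/-- the Euler equation at a generic point -/
theorem euler (he : e ∈ 𝒳.S.A) {n : ℕ} (h : ∀ᶠ y' in 𝓝 y, Gd T s z Θ e (n + 2) c α i j y' ∧
      D 𝒳.x e y' (1, 0) = -((n + 2 : ℕ) * (e y').1 ^ (n + 2 - 1) * s (T.Q.jm z y'))) (k : Fin T.g) :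
    (e y).1 * du (α k ∘ e.symm) (e y) = (n + 1 : ℕ) * α k y := by
  have g := h.self_of_nhds.1
  have hl : e.symm (e y) = y := e.left_inv g.src
  have hc := (Geo.Sf0.symm_eventually g.src h).and (e.open_target.mem_nhds (e.map_source g.src))
  have hτ : ∀ u : ℂ, HasDerivAt (fun u : ℂ => z + u ^ (n + 2)) ((n + 2 : ℕ) * u ^ (n + 2 - 1)) u :=
    fun u => (hasDerivAt_pow (n + 2) u).const_add z
  have hx : AnalyticAt ℂ (𝒳.x ∘ e.symm) (e y) := Sx.an_x g.off e he g.src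
  have hF : AnalyticAt ℂ (T.row Θ k) ((T.Q.jm z ∘ e.symm) (e y)) := by
    simpa [hl] using g.anr k
  have h1 := Pl.str (𝒴 := T.Q.𝒴) (γ := T.Q.jm z ∘ e.symm) (y := e y) (F := T.row Θ k) (s := s)
    (τ := fun u => z + u ^ (n + 2)) (x := 𝒳.x ∘ e.symm) 1 (by simpa [hl] using g.ok) g.an
    (by fun_prop) (by
      filter_upwards [hc] with v hv
      refine ⟨hv.1.1.on, ?_⟩
      have := hv.1.1.lam
      rwa [e.right_inv hv.2] at this) hF (by simpa [hl] using g.ans) rfl (by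
      filter_upwards [hc] with v hv
      have := hv.1.2
      rw [(Sx.D_eq hv.1.1.src).1, e.right_inv hv.2] at this
      rw [this, (hτ v.1).deriv]
      rfl)
  have h2 : T.Q.𝒴.LD 1 s (T.row Θ k) ((T.Q.jm z ∘ e.symm) (e y)) = 0 := by
    simpa [hl] using g.ld k
  rw [h2, mul_zero, zero_mul] at h1
  set β : E2 → ℂ := fun v => T.row Θ k ((T.Q.jm z ∘ e.symm) v) * dw (𝒳.x ∘ e.symm) v ^ 1 with hβ
  have hβa : AnalyticAt ℂ β (e y) := (AnalyticAt.comp hF g.an).mul ((an_dw hx).pow 1)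
  have h3 : α k ∘ e.symm =ᶠ[𝓝 (e y)] fun v => ((n + 2 : ℕ) * β v) * v.1 ^ (n + 1) := by
    filter_upwards [hc] with v hv
    have := hv.1.1.co k
    rw [(Sx.D_eq hv.1.1.src).2, e.right_inv hv.2] at this
    simp only [Function.comp, hβ, ← this]
    rw [show n + 2 - 1 = n + 1 from rfl]
    ring
  have h4 : du (fun v => ((n + 2 : ℕ) : ℂ) * β v) (e y) = 0 := by
    rw [du, fderiv_const_mul hβa.differentiableAt]
    simp only [_root_.smul_apply, smul_eq_mul]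
    rw [show fderiv ℂ β (e y) (1, 0) = du β (e y) from rfl, h1, mul_zero]
  have h5 : du (fun v : E2 => v.1) (e y) = 1 := by
    rw [du, fderiv_fst]
    rfl
  have h6 := h3.self_of_nhds
  rw [Function.comp, hl] at h6
  rw [BrUP.du_congr h3, BrUP.du_mul_pow (f := fun v => ((n + 2 : ℕ) : ℂ) * β v)
    (g := fun v : E2 => v.1) (hβa.differentiableAt.const_mul _) differentiableAt_fst, h4, h5, h6]
  rw [show n + 1 - 1 = n from rfl]
  ring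

/-- two generic points that are exchanged by the rotation -/
theorem contra {y' : 𝒳.X} {ζ : ℂ} (h : ∀ᶠ w in 𝓝 y, Gd T s z Θ e μ c α i j w)
    (h' : ∀ᶠ w in 𝓝 y', Gd T s z Θ e μ c α i j w) (hζ : ζ ^ μ = 1) (hζ1 : ζ ≠ 1) (hζ0 : ζ ≠ 0)
    (hu : (e y).1 ≠ 0) (hy : (e y').1 = ζ * (e y).1) (h0 : α j y ≠ 0)
    (hα : ∀ k, α k y' = ζ ^ (μ - 1) * α k y) (hs : T.Q.𝒴.SepAt T.N (𝒳.lam z y))
    (hΘ : AnM Θ (𝒳.lam z y)) (hd : (Θ (𝒳.lam z y)).det ≠ 0)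
    (hi : ∀ p ∉ 𝒳.Z, ∀ p' ∉ 𝒳.Z, 𝒳.Ov p (𝒳.lam z y) → 𝒳.Ov p' (𝒳.lam z y) →
      ev1 T.Q.𝒴.R (𝒳.lam z y, 𝒳.x p, T.Q.y p) ≠ 0 → 𝒳.x p = 𝒳.x p' → T.Q.y p = T.Q.y p' →
      p = p') : False := by
  have g := h.self_of_nhds
  have g' := h'.self_of_nhds
  have ht : 𝒳.lam z y' = 𝒳.lam z y := by rw [g.lam, g'.lam, hy, mul_pow, hζ, one_mul]
  have h0' : α j y' ≠ 0 := by
    rw [hα]
    exact mul_ne_zero (pow_ne_zero _ hζ0) h0
  have k1 := (key h h0).1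
  have k2 := (key h' h0').1
  have hv' : D 𝒳.x e y' (0, 1) ≠ 0 := right_ne_zero_of_mul g'.ne
  have hne : T.Q.jm z y ≠ T.Q.jm z y' := fun he => by
    have e1 : 𝒳.x y = 𝒳.x y' := congrArg (fun q : E3 => q.2.1) he
    have e2 : T.Q.y y = T.Q.y y' := congrArg (fun q : E3 => q.2.2) he
    have := hi y g.off y' g'.off g.ov (ht ▸ g'.ov) g.ok.2.2 e1 e2
    rw [← this] at hy
    exact hζ1 (mul_right_cancel₀ hu (by rw [one_mul]; exact hy.symm))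
  set l := D 𝒳.x e y (0, 1) / D 𝒳.x e y' (0, 1) with hl
  have hrow : ∀ k, T.row Θ k (T.Q.jm z y') = l * T.row Θ k (T.Q.jm z y) := fun k => by
    have a1 := hα k
    rw [← g.co k, ← g'.co k] at a1
    apply mul_right_cancel₀ g'.ne
    rw [a1, hy, mul_pow, hl]
    field_simp
  have hφ : ∀ a, T.Q.𝒴.phs T.N a (T.Q.jm z y') = l * T.Q.𝒴.phs T.N a (T.Q.jm z y) := by
    have := Matrix.eq_zero_of_mulVec_eq_zero hd
      (v := fun a => T.φ a (T.Q.jm z y') - l * T.φ a (T.Q.jm z y)) (by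
        funext k
        have a1 := hrow k
        simp only [Cx.row, cb, Pm.jm, ht, Finset.mul_sum] at a1
        simp only [mulVec, dotProduct, Pm.jm, ht, mul_sub, Finset.sum_sub_distrib, a1,
          Pi.zero_apply]
        rw [sub_eq_zero]
        exact Finset.sum_congr rfl fun a _ => by ring)
    exact fun a => sub_eq_zero.1 (congrFun this a)
  have h3 := hs _ _ l g.ok g'.ok rfl ht hne hφ (fun t => Θ t i) (fun t => Θ t j) (hΘ i) (hΘ j)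
    (g.row_ne h0)
  change T.Q.𝒴.dX (rat T Θ i j) _ = -l * T.Q.𝒴.dX (rat T Θ i j) _ at h3
  rw [h3, hl] at k2
  field_simp at k2
  have : (2 : ℂ) = 0 := by linear_combination -k1 - k2
  norm_num at this

end Leaf3

open Leaf3

theorem sLeaf2 (h : Geo.SInv) : SLeaf2 := by
  rintro 𝒳 T Θ e p z μ ρ ⟨hn, hρ, hd, α, i, j, hc, hij, hj⟩
  obtain ⟨he, hp, h0, hz, hμ, hl⟩ := hn
  have hD : D (fun y => ρ y - ρ p) e p = D ρ e p := fderiv_sub_const _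
  obtain ⟨e', he', hp', hy⟩ := h _ 𝒳.S p e (fun y => (e y).1) (fun y => ρ y - ρ p) he hp
    (an_fst he hp) (fun e he hp => (hρ e he hp).sub analyticAt_const)
    (by rw [D_fst hp, hD]; simpa [wedge] using hd)
  have hs := e'.open_source.mem_nhds hp'
  have hJ := Sx.an_jac he' he hp' hp
  refine ⟨e', ρ p, ⟨he', hp', by rw [hy p hp', h0]; simp, hz, hμ, ?_⟩, an_snd he' hp' _,
    by rw [D_snd hp']; simp, fun k y => α k y * jac (fderiv ℂ (e ∘ e'.symm) (e' y)) ^ 1, i, j,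
    fun k => (hc k).trans he' he hp' hp, ?_, fun h1 => hj ?_⟩
  · filter_upwards [hl, hs] with y h1 h2
    rw [h1, hy y h2]
  · filter_upwards [hij, hs] with y h1 h2
    rw [h1, hy y h2]
    ring
  · filter_upwards [h1, hJ.1.continuousAt.eventually_ne hJ.2] with y h2 h3
    exact (mul_eq_zero.1 h2).resolve_right (pow_ne_zero _ h3)

theorem sLeaf3 (h1 : SRel1) (h2 : SSepY) (h3 : SEuler) : SLeaf3 := by
  rintro 𝒳 T m s z Θ e p μ c hv hf ⟨hn, -, -, α, i, j, hc, hij, hj⟩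
  have hp := hn.2.2.2.1
  have hG := Pm.nb_nhds hp (gd_ev h1 hv hf hn hc hij)
  have hE : ∀ᶠ y in T.Q.Nb p z,
      D 𝒳.x e y (1, 0) = -(μ * (e y).1 ^ (μ - 1) * s (T.Q.jm z y)) := by
    filter_upwards [hG, Pm.nb_le (Sx.an_ne (hc j).1 hj)] with y a1 a2
    exact key2 hn.1 a1 a2
  obtain rfl | hμ : μ = 1 ∨ 2 ≤ μ := by have := hn.2.2.2.2.1; omega
  · exact ⟨hn, hE.mono fun y hy => by simpa using hy⟩
  exfalso
  obtain ⟨n, rfl⟩ : ∃ n, μ = n + 2 := ⟨μ - 2, by omega⟩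
  have hs := e.open_source.mem_nhds hn.2.1
  have hA : ∀ k, AnalyticAt ℂ (α k ∘ e.symm) 0 := fun k => hn.an (hc k).1
  have hζ := Complex.isPrimitiveRoot_exp (n + 2) (by omega)
  set ζ := Complex.exp (2 * Real.pi * Complex.I / (n + 2 : ℕ))
  have hζ0 : ζ ≠ 0 := Complex.exp_ne_zero _
  have hEu : ∀ k, ∀ᶠ v in 𝓝 (0 : E2), (α k ∘ e.symm) (ζ * v.1, v.2) =
      ζ ^ (n + 1) * (α k ∘ e.symm) v := fun k => by
    refine h3 _ (n + 1) (hA k) ?_ ζ (Complex.norm_eq_one_of_pow_eq_one hζ.pow_eq_one (by omega))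
    have a1 : ∀ᶠ y in T.Q.Nb p z, (e y).1 * du (α k ∘ e.symm) (e y) = (n + 1 : ℕ) * α k y :=
      (Pm.nb_nhds hp ((gd_ev h1 hv hf hn hc hij).and hE)).mono fun y hy => euler hn.1 hy k
    have a2 : ∀ᶠ y in 𝓝 p, (e y).1 * du (α k ∘ e.symm) (e y) = (n + 1 : ℕ) * α k y := by
      filter_upwards [Pm.nb_eq hp a1, (hc k).1.eventually, hs] with y b1 b2 b3
      exact b1 ((e.continuousAt b3).fst.mul (ContinuousAt.comp (g := du (α k ∘ e.symm))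
        (an_du (b2 e hn.1 b3)).continuousAt (e.continuousAt b3)))
        (continuousAt_const.mul b2.continuousAt)
    filter_upwards [hn.eventually.1 a2, hn.lam_symm] with v b1 b2
    rwa [e.right_inv b2.1] at b1
  have hR : ∀ᶠ y in T.Q.Nb p z, (∀ᶠ w in 𝓝 y, Gd T s z Θ e (n + 2) c α i j w) ∧
      T.Q.𝒴.SepAt T.N (𝒳.lam z y) ∧ (AnM Θ (𝒳.lam z y) ∧ (Θ (𝒳.lam z y)).det ≠ 0) ∧
      ∀ p ∉ 𝒳.Z, ∀ p' ∉ 𝒳.Z, 𝒳.Ov p (𝒳.lam z y) → 𝒳.Ov p' (𝒳.lam z y) →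
        ev1 T.Q.𝒴.R (𝒳.lam z y, 𝒳.x p, T.Q.y p) ≠ 0 → 𝒳.x p = 𝒳.x p' → T.Q.y p = T.Q.y p' →
        p = p' :=
    hG.and ((Pm.nb_fst hp (nhdsNE_le_cd z (h2 _ _ T.Φ _ T.N T.bas))).and
      ((Pm.nb_fst hp (s := fun t => AnM Θ t ∧ (Θ t).det ≠ 0)
        (hf.mono fun t ht => ⟨ht.1, ht.2.1⟩)).and (Pm.nb_fst hp (nhdsNE_le_cd z T.inj))))
  obtain ⟨r, hr, hsl⟩ := Pm.slice hn hR
  have hrot : Tendsto (fun u : ℂ => ζ * u) (𝓝[≠] 0) (𝓝[≠] 0) :=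
    tendsto_nhdsWithin_iff.2 ⟨((continuous_const.mul continuous_id).tendsto' 0 0
      (by simp)).mono_left nhdsWithin_le_nhds,
      eventually_mem_nhdsWithin.mono fun u hu => mul_ne_zero hζ0 hu⟩
  have hsl2 := eventually_nhdsWithin_iff.1 (hsl.and (hrot.eventually hsl))
  have hrot2 : Tendsto (fun v : E2 => ((ζ * v.1, v.2) : E2)) (𝓝 0) (𝓝 0) :=
    Continuous.tendsto' (by fun_prop) 0 0 (by simp)
  have hfr : ∃ᶠ v in 𝓝 (0 : E2), α j (e.symm v) * (e (e.symm v)).1 ≠ 0 := by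
    intro h
    refine Sx.an_mul_ne (hc j).1 (an_fst hn.1 hn.2.1) hj (fun h0 => hp.lam_nc ?_)
      (hn.eventually.2 (h.mono fun v hv => not_not.1 hv))
    filter_upwards [h0, hn.2.2.2.2.2] with y b1 b2
    rw [b2, b1]
    simp
  have hS : ∀ᶠ v in 𝓝 (0 : E2), v ∈ e.target ∧ ((ζ * v.1, v.2) : E2) ∈ e.target ∧
      ∀ k, (α k ∘ e.symm) (ζ * v.1, v.2) = ζ ^ (n + 1) * (α k ∘ e.symm) v :=
    (hn.lam_symm.mono fun v hv => hv.1).and
      ((hrot2.eventually (hn.lam_symm.mono fun v hv => hv.1)).and (eventually_all.2 hEu))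
  obtain ⟨v, a1, a2, a3, a4, a5⟩ := (hfr.and_eventually (hS.eventually_nhds.and
    ((hA j).eventually_analyticAt.and ((continuous_fst.tendsto' (0 : E2) 0 rfl).eventually hsl2
      |>.and ((continuous_snd.tendsto' (0 : E2) 0 rfl).eventually (ball_mem_nhds 0 hr)))))).exists
  rw [e.right_inv a2.self_of_nhds.1] at a1
  have hu : v.1 ≠ 0 := right_ne_zero_of_mul a1
  have hln : Tendsto (fun w : ℂ => ((v.1, w) : E2)) (𝓝[≠] v.2) (𝓝 v) :=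
    (Continuous.tendsto' (by fun_prop) v.2 v rfl).mono_left nhdsWithin_le_nhds
  obtain ⟨w, b1, b2, b3, b4⟩ := (((a4 hu).1 v.2 a5).1.and ((((a4 hu).2 v.2 a5).1).and
    ((hln.eventually a2).and (hln.eventually (a3.continuousAt.eventually_ne
      (left_ne_zero_of_mul a1)))))).exists
  exact contra (ζ := ζ) b1.1 b2.1 hζ.pow_eq_one (hζ.ne_one (by omega)) hζ0
    (by rw [e.right_inv b3.1]; exact hu) (by rw [e.right_inv b3.1, e.right_inv b3.2.1]) b4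
    b3.2.2 b1.2.1 b1.2.2.1.1 b1.2.2.1.2 b1.2.2.2

end Pool.Agent.P.MP_7ede32_ag.Hod
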