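import Pool.Agent.P.MP_7ede32_ag.Hod.HXT
import Pool.Agent.P.MP_7ede32_ag.Hod.MT

/-!
Toolbox: the fibre as a Riemann surface.
-/

open Set Filter Topology Polynomial Matrix Bornology Metric

noncomputable section

namespace Pool.Agent.P.MP_7ede32_ag.Hod

open Geo (Sf0 wedge D)
open Full (Mf GT Nc PCh Sec)
open Ell (E2 jac)

open MP_5d7cf0_gt.T (RS zc loc An)

namespace FbD

variable {𝒳 : Sx} {z : ℂ} {Y : Type} [TopologicalSpace Y] [ChartedSpace ℂ Y] (B : FbD 𝒳 z Y)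
  {F : 𝒳.X → ℂ}

theorem ov (a : Y) : 𝒳.Ov (B.ι a) z := (B.rng _).1 ⟨a, rfl⟩

include B in
theorem zc_self (a : Y) : zc a a = 0 := by
  exact (congrArg Prod.snd ((B.nf a).2.2.1.symm.trans (B.zc_eq a).self_of_nhds)).symm

theorem eventually_iff (a : Y) {r : 𝒳.X → Prop} :
    (∀ᶠ b in 𝓝 a, r (B.ι b)) ↔ ∀ᶠ y in 𝓝 (B.ι a), 𝒳.Ov y z → r y := by
  rw [B.emb.isInducing.nhds_eq_comap a, eventually_comap]
  refine eventually_congr (Eventually.of_forall fun y => ⟨fun h hy => ?_, fun h b hb => ?_⟩)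
  · obtain ⟨b, rfl⟩ := (B.rng y).2 hy
    exact h b rfl
  · subst hb
    exact h (B.ov b)

theorem eventually_ne_iff (a : Y) {r : 𝒳.X → Prop} :
    (∀ᶠ b in 𝓝[≠] a, r (B.ι b)) ↔ ∀ᶠ y in 𝓝[≠] (B.ι a), 𝒳.Ov y z → r y := by
  rw [eventually_nhdsWithin_iff, eventually_nhdsWithin_iff]
  refine Iff.trans (eventually_congr (Eventually.of_forall fun b => ?_))
    ((B.eventually_iff a (r := fun y => y ≠ B.ι a → r y)).trans
      (eventually_congr (Eventually.of_forall fun y => imp.swap)))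
  exact imp_congr_left B.emb.injective.ne_iff.symm

theorem symm_eq (a : Y) :
    ∀ᶠ v in 𝓝 (0 : ℂ), B.ι ((chartAt ℂ a).symm v) = (B.E a).symm (0, v) := by
  have ha := mem_chart_source ℂ a
  have h1 : ∀ᶠ b in 𝓝 a, B.ι b ∈ (B.E a).source :=
    B.emb.continuous.continuousAt.eventually ((B.E a).open_source.mem_nhds (B.nf a).2.1)
  have h2 := (MP_5d7cf0_gt.T.eventually_chart ha).1 ((B.zc_eq a).and h1)
  have h3 := MP_5d7cf0_gt.T.target_mem ha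
  rw [B.zc_self a] at h2 h3
  filter_upwards [h2, h3] with v h4 h5
  rw [MP_5d7cf0_gt.T.zc_symm h5] at h4
  rw [← h4.1, (B.E a).left_inv h4.2]

theorem loc_comp (a : Y) : ∀ᶠ b in 𝓝 a, ∀ F : 𝒳.X → ℂ, 𝒳.S.AnAt F (B.ι b) →
    AnalyticAt ℂ (loc (fun b => F (B.ι b)) a) (zc a b) ∧
      deriv (loc (fun b => F (B.ι b)) a) (zc a b) = D F (B.E a) (B.ι b) (0, 1) := by
  have h1 : ∀ᶠ b in 𝓝 a, B.ι b ∈ (B.E a).source :=
    B.emb.continuous.continuousAt.eventually ((B.E a).open_source.mem_nhds (B.nf a).2.1)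
  have h2 : Tendsto (zc a) (𝓝 a) (𝓝 0) :=
    B.zc_self a ▸ (MP_5d7cf0_gt.T.continuousAt_zc (mem_chart_source ℂ a)).tendsto
  filter_upwards [h1, B.zc_eq a, h2.eventually (B.symm_eq a).eventually_nhds] with b h3 h4 h5 F hF
  have h6 : loc (fun b => F (B.ι b)) a =ᶠ[𝓝 (zc a b)] fun v => (F ∘ (B.E a).symm) (0, v) :=
    h5.mono fun v hv => congrArg F hv
  have h7 := hF _ (B.nf a).1 h3
  rw [h4] at h7
  refine ⟨(h7.comp (f := fun v : ℂ => ((0, v) : E2))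
    (analyticAt_const.prod analyticAt_id)).congr h6.symm, ?_⟩
  rw [h6.deriv_eq, D, h4]
  exact (h7.differentiableAt.hasFDerivAt.comp_hasDerivAt (zc a b)
    ((hasDerivAt_const (zc a b) (0 : ℂ)).prodMk (hasDerivAt_id (zc a b)))).deriv

theorem an_comp {a : Y} (h : 𝒳.S.AnAt F (B.ι a)) : An (fun b => F (B.ι b)) a ∧
    MP_5d7cf0_gt.T.D (fun b => F (B.ι b)) a = D F (B.E a) (B.ι a) (0, 1) := by
  exact (B.loc_comp a).self_of_nhds F h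

theorem dv_comp [RS Y] (a : Y) : ∀ᶠ b in 𝓝 a, ∀ F : 𝒳.X → ℂ, 𝒳.S.AnAt F (B.ι b) →
    dv (fun b => F (B.ι b)) a b = D F (B.E a) (B.ι b) (0, 1) := by
  filter_upwards [B.loc_comp a, MP_5d7cf0_gt.T.source_mem (mem_chart_source ℂ a)] with b h1 h2 F hF
  rw [dv_eq h2 (MP_5d7cf0_gt.T.an_of_loc h2 (h1 F hF).1), (h1 F hF).2]

theorem W_eq (a : Y) : ∀ᶠ y in 𝓝 (B.ι a), 𝒳.W (B.E a) y = D 𝒳.x (B.E a) y (0, 1) := by
  filter_upwards [(B.nf a).W_eq] with y hy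
  simpa using hy

end FbD

namespace MdX

variable {𝒳 : Sx} {Q : Pm 𝒳} {z : ℂ} (m : MdX Q z) {ν : ℕ} {F : E3 → ℂ}

theorem off (a : m.md.Y) : ∀ᶠ b in 𝓝[≠] a, m.fb.ι b ∉ 𝒳.Z ∧ b ∉ m.md.M.Sg ∧
    m.md.j b = Q.jm z (m.fb.ι b) ∧ m.md.xv a b = 𝒳.W (m.fb.E a) (m.fb.ι b) := by
  have hc := m.fb.emb.continuous
  filter_upwards [(m.fb.eventually_ne_iff a (r := fun y => y ∉ 𝒳.Z)).2
    (m.gd _ (m.fb.ov a)).2.1, m.md.M.off_near a,
    (m.fb.dv_comp a).filter_mono nhdsWithin_le_nhds,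
    (hc.continuousAt.eventually (m.fb.W_eq a)).filter_mono nhdsWithin_le_nhds] with b h1 h2 h3 h4
  refine ⟨h1, h2, ?_, ?_⟩
  · rw [Pm.jm_self (m.fb.ov b), Md.j, (m.hx b h1).1, (m.hx b h1).2.1]
  · have h5 : m.md.M.x =ᶠ[𝓝 b] fun b => 𝒳.x (m.fb.ι b) :=
      (hc.continuousAt.eventually (Sx.off_nhds h1)).mono fun b' hb' => (m.hx b' hb').1
    rw [h4, ← h3 _ (Sx.an_x h1), Md.xv, dv, dv, MP_5d7cf0_gt.T.D_congr h5]

/-- a differential that is holomorphic on the fibre has a locally bounded coefficient -/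
theorem bdd (h : m.md.HolF ν F) {p : 𝒳.X} (hp : 𝒳.Ov p z) {e : Ch 𝒳.X} (he : e ∈ 𝒳.S.A)
    (hs : p ∈ e.source) :
    ∃ c : ℝ, ∀ᶠ y in 𝓝[≠] p, 𝒳.Ov y z → ‖F (Q.jm z y) * 𝒳.W e y ^ ν‖ ≤ c := by
  obtain ⟨a, rfl⟩ := (m.fb.rng p).2 hp
  obtain ⟨β, h1, h2⟩ := h a
  have hc := m.fb.emb.continuous.continuousAt (x := a)
  have h3 : ContinuousAt (fun b => ‖β b *
      jac (fderiv ℂ (m.fb.E a ∘ e.symm) (e (m.fb.ι b))) ^ ν‖) a :=
    (h1.continuousAt.mul (((Sx.an_jac he (m.fb.nf a).1 hs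
      (m.fb.nf a).2.1).1.continuousAt.comp hc).pow ν)).norm
  refine ⟨‖β a * jac (fderiv ℂ (m.fb.E a ∘ e.symm) (e (m.fb.ι a))) ^ ν‖ + 1,
    (m.fb.eventually_ne_iff a (r := fun y => ‖F (Q.jm z y) * 𝒳.W e y ^ ν‖ ≤ _)).1 ?_⟩
  filter_upwards [h2, m.off a, (h3.eventually (gt_mem_nhds (lt_add_one _))).filter_mono
    nhdsWithin_le_nhds, (hc.eventually (e.open_source.mem_nhds hs)).filter_mono nhdsWithin_le_nhds,
    (hc.eventually ((m.fb.E a).open_source.mem_nhds (m.fb.nf a).2.1)).filter_mono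
      nhdsWithin_le_nhds] with b h4 h5 h6 h7 h8
  rw [Sx.W_trans h5.1 he (m.fb.nf a).1 h7 h8, mul_pow, ← mul_assoc, ← h5.2.2.1, ← h5.2.2.2,
    Md.xv, h4]
  exact h6.le

include m in
theorem inj {p p' : 𝒳.X} (h : p ∉ 𝒳.Z) (h' : p' ∉ 𝒳.Z) (hp : 𝒳.Ov p z) (hp' : 𝒳.Ov p' z)
    (hR : ev1 Q.𝒴.R (z, 𝒳.x p, Q.y p) ≠ 0) (hx : 𝒳.x p = 𝒳.x p') (hy : Q.y p = Q.y p') :
    p = p' := by
  obtain ⟨a, rfl⟩ := (m.fb.rng p).2 hp
  obtain ⟨a', rfl⟩ := (m.fb.rng p').2 hp'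
  have h1 : m.md.j a = (z, 𝒳.x (m.fb.ι a), Q.y (m.fb.ι a)) := by
    rw [Md.j, (m.hx a h).1, (m.hx a h).2.1]
  have h2 : m.md.j a' = (z, 𝒳.x (m.fb.ι a), Q.y (m.fb.ι a)) := by
    rw [Md.j, (m.hx a' h').1, (m.hx a' h').2.1, hx, hy]
  rw [Md.inj_j ((m.hx a h).2.2 (by rwa [← Md.R_j, h1]))
    ((m.hx a' h').2.2 (by rwa [← Md.R_j, h2])) (h1.trans h2.symm)]

end MdX

end Pool.Agent.P.MP_7ede32_ag.Hod
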