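import Pool.Agent.P.MP_7ede32_ag.Hod.StX
import Pool.Agent.P.MP_7ede32_ag.Hod.StB
import Pool.Agent.P.MP_7ede32_ag.Hod.MdT

/-!
A pointwise bound for the coefficients of a frame by the Hodge norm.
-/

open Set Filter Topology Polynomial Matrix Bornology Metric

noncomputable section

namespace Pool.Agent.P.MP_7ede32_ag.Hod

open Geo (Sf0 wedge D)
open Ell (E2)

namespace Low1P

theorem tendsto_pow (z : ℂ) {μ : ℕ} (h : 0 < μ) :
    Tendsto (fun u : ℂ => z + u ^ μ) (𝓝[≠] 0) (𝓝[≠] z) := by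
  refine tendsto_nhdsWithin_iff.2 ⟨?_, eventually_mem_nhdsWithin.mono fun u hu h0 => ?_⟩
  · have : Continuous fun u : ℂ => z + u ^ μ := by fun_prop
    simpa [h.ne'] using (this.tendsto 0).mono_left nhdsWithin_le_nhds
  · exact hu (pow_eq_zero_iff h.ne' |>.1 (add_eq_left.1 h0))

theorem deriv_slice {f : E2 → ℂ} {u v : ℂ} (h : AnalyticAt ℂ f (u, v)) :
    AnalyticAt ℂ (fun s => f (u, s)) v ∧ deriv (fun s => f (u, s)) v = fderiv ℂ f (u, v) (0, 1) := by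
  have h1 : HasDerivAt (fun s : ℂ => ((u, s) : E2)) (0, 1) v :=
    (hasDerivAt_const v u).prodMk (hasDerivAt_id v)
  exact ⟨h.comp_of_eq (analyticAt_const.prod analyticAt_id) rfl,
    (h.differentiableAt.hasFDerivAt.comp_hasDerivAt v h1).deriv⟩

theorem form_eq {g : ℕ} (G H : Matrix (Fin g) (Fin g) ℂ) (a : Fin g → ℂ) :
    a ⬝ᵥ ((G * H * Gᴴ) *ᵥ star a) = (a ᵥ* G) ⬝ᵥ (H *ᵥ star (a ᵥ* G)) := by
  rw [star_vecMul, ← mulVec_mulVec, ← mulVec_mulVec, dotProduct_mulVec]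

theorem comb_eq {g : ℕ} (G : Matrix (Fin g) (Fin g) ℂ) (a φ : Fin g → ℂ) :
    ∑ i, a i * ∑ j, G i j * φ j = ∑ j, (a ᵥ* G) j * φ j :=
  dotProduct_mulVec a G φ

end Low1P

open Low1P in
theorem sLow1 (h1 : SMean) (h2 : SPr) : SLow1 := by
  intro 𝒳 T e p z μ G α hN _ hα
  have hp : 𝒳.Ov p z := hN.2.2.2.1
  have hμ : 0 < μ := hN.2.2.2.2.1
  let r : 𝒳.X → Prop := fun y => y ∉ 𝒳.Z ∧
    (∀ i, T.row G i (T.Q.jm z y) * 𝒳.W e y ^ 1 = α i y) ∧
    𝒳.W e y = μ * (e y).1 ^ (μ - 1) * D 𝒳.x e y (0, 1) ∧ T.Q.𝒴.Ok (T.Q.jm z y)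
  have hr : ∀ᶠ y in T.Q.Nb p z, r y := by
    filter_upwards [Pm.nb_off, eventually_all.2 fun i => (hα i).2,
      hN.W_eq.filter_mono Pm.nb_le, Pm.nb_par hp hN.1 hN.2.1] with y k1 k2 k3 k4
    exact ⟨k1, k2, k3, k4.2.1⟩
  obtain ⟨ρ₀, hρ₀, hsl⟩ := Pm.slice hN (Pm.nb_nhds hp hr)
  have hbox : ∀ᶠ v in 𝓝 (0 : E2), (v ∈ e.target ∧ 𝒳.lam z (e.symm v) = z + v.1 ^ μ ∧
      𝒳.Ov (e.symm v) (z + v.1 ^ μ)) ∧ ∀ i, AnalyticAt ℂ (α i ∘ e.symm) v :=
    hN.lam_symm.and (eventually_all.2 fun i => (hN.an (hα i).1).eventually_analyticAt)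
  obtain ⟨ε, hε, hb⟩ := nhds_basis_closedBall.eventually_iff.1 hbox
  have hρ : 0 < min ρ₀ ε := lt_min hρ₀ hε
  set ρ := min ρ₀ ε with hρd
  refine ⟨(μ : ℝ) ^ 2 / (Real.pi * ρ ^ 2), ?_⟩
  have htd := (tendsto_pow z hμ).mono_right (nhdsNE_le_cd z)
  filter_upwards [hsl, eventually_mem_nhdsWithin, htd.eventually T.bas, htd.eventually T.Φ.mem,
    htd.eventually T.inj, mem_nhdsWithin_of_mem_nhds (closedBall_mem_nhds (0 : ℂ) hε)]
    with u hu hu0 hbas hG hinj huε a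
  obtain ⟨w, hw⟩ := hbas hG
  have hu0' : u ≠ 0 := hu0
  have hm : (μ : ℂ) * u ^ (μ - 1) ≠ 0 :=
    mul_ne_zero (Nat.cast_ne_zero.2 hμ.ne') (pow_ne_zero _ hu0')
  have hin : ∀ v ∈ closedBall (0 : ℂ) ρ, ((u, v) : E2) ∈ closedBall (0 : E2) ε := fun v hv => by
    rw [mem_closedBall_zero_iff] at hv huε ⊢
    exact max_le huε (hv.trans (min_le_right _ _))
  obtain ⟨q1, q2⟩ := hw.1.quad h2 (a ᵥ* G (z + u ^ μ))
  let O : Set ℂ := {v | v ∈ ball (0 : ℂ) ρ ∧ ∀ᶠ y in 𝓝 (e.symm (u, v)), r y}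
  have hc : ∀ v ∈ ball (0 : ℂ) ρ, ContinuousAt (fun s : ℂ => e.symm (u, s)) v := fun v hv =>
    ContinuousAt.comp (f := fun s : ℂ => ((u, s) : E2))
      (e.continuousAt_symm (hb (hin v (ball_subset_closedBall hv))).1.1) (by fun_prop)
  have hO : IsOpen O := isOpen_iff_mem_nhds.2 fun v hv =>
    (isOpen_ball.eventually_mem hv.1).and ((hc v hv.1).eventually hv.2.eventually_nhds)
  have hcnt : (ball (0 : ℂ) ρ \ O).Countable := Full.countable_of_isolated fun v hv => by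
    filter_upwards [(hu v (ball_subset_ball (min_le_left _ _) hv.1)).1] with v' k1 k2
    exact k2.2 ⟨k2.1, k1⟩
  have hj : ∀ v ∈ ball (0 : ℂ) ρ, T.Q.jm z (e.symm (u, v)) =
      (z + u ^ μ, 𝒳.x (e.symm (u, v)), T.Q.y (e.symm (u, v))) := fun v hv => by
    rw [Pm.jm, (hb (hin v (ball_subset_closedBall hv))).1.2.1]
  have key := h1 (fun ξ => T.Q.𝒴.rts (z + u ^ μ) ξ)
    (fun ξ η => ∑ i, (a ᵥ* G (z + u ^ μ)) i * T.Q.𝒴.phs T.N i (z + u ^ μ, ξ, η))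
    (fun v => 𝒳.x (e.symm (u, v))) (fun v => T.Q.y (e.symm (u, v)))
    (fun v => (∑ i, a i * α i (e.symm (u, v))) / (μ * u ^ (μ - 1))) ρ O hρ q1 hO
    (fun v hv => hv.1) hcnt
    (fun v hv => (Finset.analyticAt_fun_sum _ fun i _ => analyticAt_const.mul
      (deriv_slice ((hb (hin v hv)).2 i)).1).div analyticAt_const hm)
    (fun v hv => by
      have ht := (hb (hin v (ball_subset_closedBall hv.1))).1.1
      obtain ⟨k1, k2, k3, k4⟩ := hv.2.self_of_nhds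
      have hs := e.map_target ht
      have hx := Sx.an_x k1 e hN.1 hs
      have hW := Sx.W_ne k1 hN.1 hs
      rw [D, e.right_inv ht] at k3
      rw [e.right_inv ht] at hx
      obtain ⟨d1, d2⟩ := deriv_slice hx
      have d3 : deriv (fun v => 𝒳.x (e.symm (u, v))) v =
        fderiv ℂ (𝒳.x ∘ e.symm) (u, v) (0, 1) := d2
      rw [hj v hv.1] at k2 k4
      refine ⟨d1, fun h0 => hW (by rw [k3, ← d3, h0, mul_zero]), Pl.mem_rts.2 k4.2.1, ?_⟩
      rw [eq_div_iff hm, ← comb_eq, d3, mul_assoc, mul_comm (fderiv ℂ _ _ _), ← k3,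
        Finset.sum_mul]
      refine Finset.sum_congr rfl fun i _ => ?_
      rw [← k2 i, pow_one, mul_assoc]
      rfl)
    (fun v hv v' hv' h => by
      have ht := (hb (hin v (ball_subset_closedBall hv.1))).1
      have ht' := (hb (hin v' (ball_subset_closedBall hv'.1))).1
      obtain ⟨k1, -, -, k4⟩ := hv.2.self_of_nhds
      rw [hj v hv.1] at k4
      have := hinj _ k1 _ hv'.2.self_of_nhds.1 ht.2.2 ht'.2.2 k4.2.2 (congrArg Prod.fst h)
        (congrArg Prod.snd h)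
      exact congrArg Prod.snd (e.symm.injOn ht.1 ht'.1 this))
  rw [form_eq, Cx.h, q2]
  have hπ : 0 < Real.pi * ρ ^ 2 := by positivity
  have hn : 0 < (μ : ℝ) * ‖u‖ ^ (μ - 1) := by
    have := norm_pos_iff.2 hu0'
    positivity
  rw [norm_div, norm_mul, norm_pow, Complex.norm_natCast, div_pow, ← mul_div_assoc,
    div_le_iff₀ (by positivity)] at key
  rw [div_mul_eq_mul_div, div_mul_eq_mul_div, le_div_iff₀ hπ, mul_comm 2 (μ - 1), pow_mul,
    ← mul_pow]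
  linarith

end Pool.Agent.P.MP_7ede32_ag.Hod
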