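import Pool.Agent.P.MP_7ede32_ag.Hod.StB

/-!
A lattice of germs of meromorphic vectors has a basis.
-/

open Set Filter Topology Matrix

namespace Pool.Agent.P.MP_7ede32_ag.Hod

namespace FrameP

variable {g : ℕ} {Λ : Set (VF g)} {z : ℂ}

theorem an_det {B : MF g} (h : AnM B z) : AnalyticAt ℂ (fun t => (B t).det) z := by
  simp only [Matrix.det_apply']
  refine Finset.analyticAt_fun_sum _ fun σ _ => analyticAt_const.mul ?_
  exact Finset.analyticAt_fun_prod _ fun i _ => h _ _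

/-- the determinant has a pole of bounded order -/
theorem ex_det {k : ℕ} (hk : ∀ a ∈ Λ, ExV (fun t => (t - z) ^ k • a t) z) {G : MF g}
    (hG : ∀ i, (fun t => G t i) ∈ Λ) :
    ∃ f, AnalyticAt ℂ f z ∧ ∀ᶠ t in 𝓝[≠] z, (t - z) ^ (k * g) * (G t).det = f t := by
  choose b hb hb' using fun i => hk _ (hG i)
  refine ⟨fun t => (Matrix.of fun i j => b i t j).det, an_det fun i j => hb i j, ?_⟩
  filter_upwards [eventually_all.2 hb'] with t ht
  have : (Matrix.of fun i j => b i t j) = (t - z) ^ k • G t := by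
    ext i j
    have := congrFun (ht i) j
    simpa using this.symm
  rw [this, Matrix.det_smul, Fintype.card_fin, pow_mul]

/-- the order of the determinant -/
def Od (Λ : Set (VF g)) (z : ℂ) (N n : ℕ) (G : MF g) : Prop :=
  (∀ i, (fun t => G t i) ∈ Λ) ∧ ∃ u, AnalyticAt ℂ u z ∧ u z ≠ 0 ∧
    ∀ᶠ t in 𝓝[≠] z, (t - z) ^ N * (G t).det = (t - z) ^ n * u t

theorem sum_mem (h : IsLat Λ z) (h0 : (0 : VF g) ∈ Λ) {ι : Type} (s : Finset ι) (a : ι → VF g)
    (ha : ∀ i, a i ∈ Λ) : (∑ i ∈ s, a i) ∈ Λ :=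
  Finset.sum_induction a (· ∈ Λ) (fun x y hx hy => h.add x hx y hy) h0 fun i _ => ha i

theorem cramer_row {G : Matrix (Fin g) (Fin g) ℂ} {a b : Fin g → ℂ} (hG : G.det ≠ 0)
    (h : ∀ i, (G.updateRow i a).det = b i * G.det) : a = b ᵥ* G := by
  have h1 := Matrix.mulVec_cramer Gᵀ a
  have h2 : cramer Gᵀ a = G.det • b := by
    funext i
    rw [Matrix.cramer_transpose_apply, h i, Pi.smul_apply, smul_eq_mul, mul_comm]
  rw [h2, Matrix.det_transpose, Matrix.mulVec_smul, Matrix.mulVec_transpose] at h1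
  exact (smul_right_injective _ hG h1).symm

end FrameP

open FrameP

theorem frame0 {g : ℕ} {Λ : Set (VF g)} {z : ℂ} (h : IsLat Λ z) (h0 : (0 : VF g) ∈ Λ) :
    ∃ G, Fr Λ z G := by
  classical
  obtain ⟨k, hk⟩ := h.small
  obtain ⟨l, hl⟩ := h.big
  have hex : ∃ n, ∃ G, Od Λ z (k * g) n G := by
    refine ⟨k * g + l * g, fun t => (t - z) ^ l • (1 : Matrix (Fin g) (Fin g) ℂ), fun i => ?_,
      fun _ => 1, analyticAt_const, one_ne_zero, Eventually.of_forall fun t => ?_⟩
    · convert hl i using 2 with t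
      funext j
      simp [Matrix.one_apply, Pi.single_apply, eq_comm]
    · rw [Matrix.det_smul, Fintype.card_fin, det_one, pow_add, pow_mul _ l]
      ring
  obtain ⟨G, hG, u, hu, hu0, hGu⟩ := Nat.find_spec hex
  have hne : ∀ᶠ t in 𝓝[≠] z, t - z ≠ 0 :=
    eventually_mem_nhdsWithin.mono fun t ht => sub_ne_zero.2 ht
  have hun : ∀ᶠ t in 𝓝[≠] z, u t ≠ 0 :=
    (hu.continuousAt.eventually_ne hu0).filter_mono nhdsWithin_le_nhds
  have hdet : ∀ᶠ t in 𝓝[≠] z, (G t).det ≠ 0 := by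
    filter_upwards [hne, hun, hGu] with t h1 h2 h3 h4
    rw [h4, mul_zero] at h3
    exact mul_ne_zero (pow_ne_zero _ h1) h2 h3.symm
  refine ⟨G, fun i j => h.mer _ (hG i) j, hdet, fun a => ⟨fun ha => ?_, ?_⟩⟩
  · have key : ∀ i, ∃ b, AnalyticAt ℂ b z ∧
        ∀ᶠ t in 𝓝[≠] z, ((G t).updateRow i (a t)).det = b t * (G t).det := by
      intro i
      have hG' : ∀ j, (fun t => (G t).updateRow i (a t) j) ∈ Λ := by
        intro j
        by_cases hj : j = i
        · subst hj
          simpa using ha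
        · simpa [Matrix.updateRow_ne hj] using hG j
      obtain ⟨f, hf, hf'⟩ := ex_det hk (G := fun t => (G t).updateRow i (a t)) hG'
      by_cases hz : ∀ᶠ t in 𝓝 z, f t = 0
      · refine ⟨fun _ => 0, analyticAt_const, ?_⟩
        filter_upwards [hne, hf', hz.filter_mono nhdsWithin_le_nhds] with t h1 h2 h3
        rw [h3] at h2
        rw [zero_mul]
        exact (mul_eq_zero.1 h2).resolve_left (pow_ne_zero _ h1)
      · obtain ⟨m, v, hv, hv0, hfv⟩ := hf.exists_eventuallyEq_pow_smul_nonzero_iff.2 hz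
        have hfv' : ∀ᶠ t in 𝓝[≠] z,
            (t - z) ^ (k * g) * ((G t).updateRow i (a t)).det = (t - z) ^ m * v t := by
          filter_upwards [hf', hfv.filter_mono nhdsWithin_le_nhds] with t h1 h2
          rw [h1, h2, smul_eq_mul]
        have hm : Nat.find hex ≤ m :=
          Nat.find_min' hex ⟨fun t => (G t).updateRow i (a t), hG', v, hv, hv0, hfv'⟩
        obtain ⟨d, rfl⟩ := Nat.exists_eq_add_of_le hm
        refine ⟨fun t => (t - z) ^ d * v t / u t,
          (((analyticAt_id.sub analyticAt_const).pow d).mul hv).div hu hu0, ?_⟩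
        filter_upwards [hne, hun, hGu, hfv'] with t h1 h2 h3 h4
        refine mul_left_cancel₀ (pow_ne_zero (k * g) h1) ?_
        rw [h4, mul_left_comm, h3, pow_add]
        field_simp
    choose b hb hb' using key
    refine ⟨fun t i => b i t, hb, ?_⟩
    filter_upwards [hdet, eventually_all.2 hb'] with t h1 h2
    exact cramer_row h1 h2
  · rintro ⟨b, hb, hab⟩
    refine h.congr _ (sum_mem h h0 Finset.univ (fun i t => b t i • G t i)
      fun i => h.smul _ (hG i) _ (hb i)) _ ?_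
    filter_upwards [hab] with t ht
    rw [ht, Finset.sum_apply, Matrix.vecMul_eq_sum]

theorem IsLat.zero_mem {g : ℕ} {Λ : Set (VF g)} {z : ℂ} (h : IsLat Λ z) (hg : 0 < g) :
    (0 : VF g) ∈ Λ := by
  obtain ⟨l, hl⟩ := h.big
  convert h.smul _ (hl ⟨0, hg⟩) (fun _ => 0) analyticAt_const using 1
  funext t
  simp

theorem frame_pos {g : ℕ} {Λ : Set (VF g)} {z : ℂ} (h : IsLat Λ z) (hg : 0 < g) :
    ∃ G, Fr Λ z G :=
  frame0 h (h.zero_mem hg)

end Pool.Agent.P.MP_7ede32_ag.Hod
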