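import Pool.Agent.P.MP_7ede32_ag.Hod.StX
import Pool.Agent.P.MP_7ede32_ag.Hod.StF
import Pool.Agent.P.MP_7ede32_ag.Hod.MdT
import Pool.Agent.P.MP_7ede32_ag.Hod.Frame

/-!
The main argument.
-/

open Set Filter Topology Polynomial

noncomputable section

namespace Pool.Agent.P.MP_7ede32_ag.Hod

variable {𝒳 : Sx}

instance cd_neBot : cd.NeBot := cc_neBot.mono cc_le_cd

theorem exists_tk (h1 : SPm) (h2 : SRatQ) (h3 : SMdE) (h4 : SUp) (h5 : SMd2) (𝒳 : Sx) :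
    Nonempty (Tk 𝒳) := by
  obtain ⟨Q⟩ := h1 𝒳
  let Ψ : MFam Q := ⟨{z | Nonempty (MdX Q z)}, h3 𝒳 Q, fun z hz => Classical.choice hz⟩
  refine ⟨⟨Q, h2 𝒳 Q, ⟨Ψ.G, Ψ.mem, fun t h => (Ψ.mx t h).md,
    fun ν F hF h => h5 𝒳 Q Ψ ν F hF (h4 𝒳 Q Ψ ν F hF h)⟩, h4 𝒳 Q Ψ, fun ν F hF h =>
      (h5 𝒳 Q Ψ ν F hF h).mono fun t ht h => (ht h).holF, ?_⟩⟩
  filter_upwards [Ψ.mem] with z hz p a1 p' a2 a3 a4 using (Ψ.mx z hz).inj a1 a2 a3 a4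

theorem two_le (h1 : SSecG) (h2 : SG2) (T : Cx 𝒳) : 2 ≤ T.g := by
  obtain ⟨ν, F, a1, a2, a3, a4, a5⟩ := h1 𝒳 T.toTk
  exact h2 _ _ T.Φ _ T.N ν F T.bas a1 a2 a3 (T.fh ν F a2 (.of_forall a4))
    (T.fh ν _ (Pl.rat_ξ.mul a2) (.of_forall a5))

theorem positive (h1 : SSecA) (h2 : SCovT) (h3 : SCovA) (h4 : SCovS) (h5 : SCov2) (h6 : SCov3)
    (T : Cx 𝒳) (h : ∀ᶠ z₁ in cd, ∃ n κ, PS 𝒳.L n z₁ κ ∧ ∀ z, κ ∈ T.Lat z) : Concl 𝒳.S := by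
  obtain ⟨z₁, ⟨n, κ, a1, a2⟩, a3, a4⟩ := (h.and (T.Q.gd.and (eventually_all.2 fun i =>
    T.hx 1 _ (Pl.rat_ph (T.N i)) (T.bas.H i)))).exists
  obtain ⟨s⟩ := h1 𝒳 T n z₁ κ a1 a2 (fun p hp => (a3 p hp).1) a4
  obtain ⟨C⟩ := h2 𝒳 n a1.pos
  obtain ⟨𝒜⟩ := h3 𝒳 _ C
  obtain ⟨S', b1, b2⟩ := h4 𝒳 n a1.pos C 𝒜 s.toLSec
  obtain ⟨G⟩ := h5 𝒳 n a1.pos C 𝒜 z₁ s S' b1
  exact h6 𝒳 n a1.pos C 𝒜 z₁ s S' b1 b2 G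

theorem exists_vf (h1 : SConn2) (h2 : SCw) (h3 : SSepY) (h4 : SPartY) (h5 : SHypA) (h6 : SHypB)
    (h7 : SVF) (T : Cx 𝒳) (hg : 2 ≤ T.g) (h : ∀ᶠ t in cd, ∀ Γ, Bar T.h t Γ → BarEq T.h t Γ) :
    ∃ m s, T.Q.𝒴.VFd T.N m s ∧ T.Φ.Reg s ∧ ∀ᶠ t in cd, Fl T.h (km m) t := by
  obtain ⟨m, u, a1, a2⟩ := h1 _ _ T.Φ _ T.N T.bas h
  have a3 := h2 _ _ T.Φ _ T.N m u T.bas a1
  have a4 : ∃ᶠ t in cc, T.Q.𝒴.AltI T.N u t := by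
    by_cases hc : ∃ᶠ t in cc, T.Q.𝒴.AltII T.N t
    · have hi : (⟨0, by omega⟩ : Fin T.g) ≠ ⟨1, by omega⟩ := by simp
      exact h6 _ _ T.Φ _ T.N _ _ m u T.bas hi a1
        ((a3.and (h3 _ _ T.Φ _ T.N T.bas)).mono fun t ht => ⟨ht.1.1, ht.2⟩)
        fun r hr => h5 _ _ T.Φ _ T.N _ _ r T.bas hi hc hr
    · have := cc_neBot
      refine Eventually.frequently ?_
      filter_upwards [not_frequently.1 hc, cc_le_cd a3, cc_le_cd (h4 _ _ T.Φ _ T.N u T.bas)]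
        with t b1 b2 b3 using (b3 b2.1).resolve_right b1
  obtain ⟨s, a5, a6⟩ := h7 _ _ T.Φ _ T.N m u T.bas (by omega) a1 (a3.mono fun t ht => ht.2) a4
  exact ⟨m, s, a5, a6, a2⟩

theorem exists_str (h1 : SLat1) (h2 : SLowB) (h3 : SFlatFr) (h4 : SLeaf1) (h5 : SLeaf2)
    (h6 : SLeaf3) (T : Cx 𝒳) (hg : 2 ≤ T.g) (h : ∀ z G, Fr (T.Lat z) z G → UpB T.h G z)
    {m : Matrix (Fin T.g) (Fin T.g) (KK 𝒳.L)} {s : E3 → ℂ} (hs : T.Q.𝒴.VFd T.N m s)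
    (hm : ∀ᶠ t in cd, Fl T.h (km m) t) (z : ℂ) : ∃ e p, T.Q.Str e p z s := by
  obtain ⟨G, hG⟩ := frame_pos ((h1 𝒳 T).lat z) (by omega)
  obtain ⟨Θ, a1⟩ := h3 _ _ m T.h G _ z (by omega) hG hm (h2 𝒳 T z G hG) (h z G hG)
  obtain ⟨e, p, μ, ρ, a2⟩ := h4 𝒳 T m s z Θ hg hs a1
  obtain ⟨e', c, a3⟩ := h5 𝒳 T Θ e p z μ ρ a2
  exact ⟨e', p, h6 𝒳 T m s z Θ e' p μ c hs a1.1 a3⟩

theorem not_str (h1 : SSecV) (h2 : SCyc1) (h3 : SCyc2) (h4 : SWr1) (h5 : SEllRes) (T : Tk 𝒳)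
    {s : E3 → ℂ} (hs : T.Q.𝒴.Rat s) (hr : T.Φ.Reg s) (h : ∀ z, ∃ e p, T.Q.Str e p z s) :
    False := by
  obtain ⟨ν, F, z₁, a1, a2, a3⟩ := h1 𝒳 T
  have a4 : ∀ k, T.Φ.H ν ((T.Q.𝒴.LD ν s)^[k] F) := fun k => by
    induction k with
    | zero =>
      exact T.fh ν F a1 (.of_forall fun z p hp e he hp' => (a3 z p hp e he hp').imp fun _ h => h.1)
    | succ k ih =>
      rw [Function.iterate_succ_apply']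
      exact h2 _ _ T.Φ s _ ν hs hr (hs.iter ν a1 k) ih
  obtain ⟨r, c, a5, a6⟩ := h3 _ _ T.Φ ν (fun k => (T.Q.𝒴.LD ν s)^[k] F)
    (fun k => ⟨hs.iter ν a1 k, a4 k⟩) a2
  have key : ∀ z, ∃ w, LW (rv (c (Fin.last r))) z w ∧ (z = z₁ → w z = 0) := fun z => by
    obtain ⟨e, p, b1⟩ := h z
    obtain ⟨α, b2, b3⟩ := a3 z p b1.1.2.2.2.1 e b1.1.1 b1.1.2.1
    obtain ⟨w, b4, b5⟩ := h4 𝒳 T s F e p z ν r α c hs a1 b1 b2 a5 a6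
    exact ⟨w, b4, fun hz => b5 (b3 hz)⟩
  obtain ⟨w, b1, b2⟩ := key z₁
  exact h5 𝒳.L _ (fun w hw t => rv_per _ hw t) (fun z => (key z).imp fun _ h => h.1) z₁ w b1
    (b2 rfl)

theorem concl_of (T : Cx 𝒳) (hD : SDich) (h1 : SLat1) (h2 : SGm) (h3 : SLowB)
    (hP : (∀ᶠ z₁ in cd, ∃ n κ, PS 𝒳.L n z₁ κ ∧ ∀ z, κ ∈ T.Lat z) → Concl 𝒳.S)
    (hN : (∀ᶠ t in cd, ∀ Γ, Bar T.h t Γ → BarEq T.h t Γ) →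
      (∀ z G, Fr (T.Lat z) z G → UpB T.h G z) → False) : Concl 𝒳.S :=
  (hD 𝒳.L _ T.Lat T.h (h1 𝒳 T) (fun _ hw t => Pl.hm_per T.N hw t) (h2 _ _ T.Φ _ T.N T.bas)
    (h3 𝒳 T)).elim hP fun h => (hN h.1 h.2).elim

end Pool.Agent.P.MP_7ede32_ag.Hod
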