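import Pool.Agent.P.MP_7ede32_ag.Hod.StX
import Pool.Agent.P.MP_7ede32_ag.Hod.MdT

/-!
Holomorphic on the surface implies holomorphic to first order along the fibres.
-/

open Set Filter Topology Polynomial Matrix Bornology Metric

noncomputable section

namespace Pool.Agent.P.MP_7ede32_ag.Hod

open Geo (Sf0 wedge D)
open Ell (E2 jac)
open MP_5d7cf0_gt.T (RS zc loc An)

namespace Md2P

variable {𝒳 : Sx} {Q : Pm 𝒳} {e : Ch 𝒳.X} {y : 𝒳.X} {t : ℂ} {ν : ℕ} {F : E3 → ℂ}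
  {α : 𝒳.X → ℂ}

theorem an_D (he : e ∈ 𝒳.S.A) (hy : y ∈ e.source) (h : 𝒳.S.AnAt α y) (v : E2) :
    𝒳.S.AnAt (fun y => D α e y v) y := by
  refine Geo.Sf0.anAt_of_chart he hy ?_
  have h1 : AnalyticAt ℂ (fun u => fderiv ℂ (α ∘ e.symm) u v) (e y) :=
    ((ContinuousLinearMap.apply ℂ ℂ v).analyticAt _).comp (h e he hy).fderiv
  refine h1.congr ?_
  filter_upwards [e.open_target.mem_nhds (e.map_source hy)] with u hu
  simp only [Function.comp, D, e.right_inv hu]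

theorem an_div (he : e ∈ 𝒳.S.A) (hy : y ∈ e.source) {a b : 𝒳.X → ℂ} (ha : 𝒳.S.AnAt a y)
    (hb : 𝒳.S.AnAt b y) (h0 : b y ≠ 0) : 𝒳.S.AnAt (fun y => a y / b y) y := by
  refine Geo.Sf0.anAt_of_chart he hy ((ha e he hy).div (hb e he hy) ?_)
  simpa only [Function.comp, e.left_inv hy] using h0

/-- the formula at a point of the surface -/
theorem key (he : e ∈ 𝒳.S.A) (hy : y ∈ e.source) (hj : 𝒳.S.AnAt (Q.jm t) y)
    (ho : ∀ᶠ y' in 𝓝 y, Q.𝒴.Ok (Q.jm t y')) (hF : AnalyticAt ℂ F (Q.jm t y))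
    (hl : ∀ᶠ y' in 𝓝 y, 𝒳.lam t y' = t + (e y').1 ^ 1) (h0 : D 𝒳.x e y (0, 1) ≠ 0)
    (hα : ∀ᶠ y' in 𝓝 y, F (Q.jm t y') * D 𝒳.x e y' (0, 1) ^ ν = α y') :
    Q.𝒴.dT F (Q.jm t y) * D 𝒳.x e y (0, 1) ^ ν = D α e y (1, 0) -
      D 𝒳.x e y (1, 0) / D 𝒳.x e y (0, 1) * D α e y (0, 1) -
      ν * D (fun y => D 𝒳.x e y (1, 0) / D 𝒳.x e y (0, 1)) e y (0, 1) * α y := by
  have hs : e.symm (e y) = y := e.left_inv hy
  have ht : ∀ᶠ u in 𝓝 (e y), u ∈ e.target := e.open_target.mem_nhds (e.map_source hy)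
  have h := Pl.str_gen (𝒴 := Q.𝒴) (F := F) (γ := Q.jm t ∘ e.symm) (y := e y) ν
    (by simpa only [Function.comp, hs] using ho.self_of_nhds) (hj e he hy)
    (by
      filter_upwards [(Sx.eventually_chart hy).1 ho, (Sx.eventually_chart hy).1 hl, ht]
        with u h1 h2 h3
      refine ⟨h1.2.1, ?_⟩
      show 𝒳.lam t (e.symm u) - 𝒳.lam t (e.symm (e y)) = _
      rw [h2, hs, hl.self_of_nhds, e.right_inv h3]
      ring)
    (by simpa only [Function.comp, hs] using hF) (x := 𝒳.x ∘ e.symm) (β := α ∘ e.symm)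
    (χ := (fun y => D 𝒳.x e y (1, 0) / D 𝒳.x e y (0, 1)) ∘ e.symm) rfl h0
    (by
      filter_upwards [(Sx.eventually_chart hy).1 hα, ht] with u h1 h2
      simp only [D, e.right_inv h2] at h1
      exact h1.symm)
    (by
      filter_upwards [ht] with u h2
      simp only [Function.comp, D, e.right_inv h2]
      rfl)
  simp only [Function.comp_apply, hs] at h
  exact h

end Md2P

open Md2P

theorem sMd2 : SMd2 := by
  intro 𝒳 Q Ψ ν F hF hH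
  filter_upwards [hH, Pm.fib (Q := Q) (T := fun q => Q.𝒴.Ok q ∧ AnalyticAt ℂ F q)
    (Q.𝒴.gen_ok.and hF.1)] with t hx hfib ht
  generalize Ψ.mx t ht = m
  intro a
  have hnf := m.fb.nf a
  have he := hnf.1
  have hs := hnf.2.1
  have hp := m.fb.ov a
  obtain ⟨α, hα⟩ := hx _ hp _ he hs
  refine ⟨fun b => α (m.fb.ι b), fun b => D α (m.fb.E a) (m.fb.ι b) (1, 0),
    (m.fb.an_comp hα.1).1, (m.fb.an_comp (an_D he hs hα.1 (1, 0))).1, ?_⟩
  have hc : Tendsto m.fb.ι (𝓝[≠] a) (𝓝 (m.fb.ι a)) :=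
    m.fb.emb.continuous.continuousAt.tendsto.mono_left nhdsWithin_le_nhds
  have h1 := ((Pm.nb_eq hp hα.2).and (hα.1.eventually.and ((Pm.an_jm (Q := Q) hp).and
    ((m.fb.W_eq a).and (hnf.2.2.2.2.2.and
      ((m.fb.E a).open_source.mem_nhds hs)))))).eventually_nhds
  filter_upwards [m.off a, (m.fb.eventually_ne_iff a).2 (hfib _ hp), hc.eventually h1,
    (m.fb.dv_comp a).filter_mono nhdsWithin_le_nhds] with b h2 h3 h4 h5
  obtain ⟨hZ, -, hj, hxv⟩ := h2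
  obtain ⟨-, hαb, hjb, hWb, -, hsb⟩ := h4.self_of_nhds
  have h6 : ∀ᶠ y in 𝓝 (m.fb.ι b), F (Q.jm t y) * 𝒳.W (m.fb.E a) y ^ ν = α y := by
    filter_upwards [h4, h3.2, Sx.off_nhds hZ] with y hy hy' hyZ
    refine hy.1 ?_ hy.2.1.continuousAt
    exact (hy'.2.continuousAt.comp (hy.2.2.1 hyZ).continuousAt).mul
      ((Sx.an_W hyZ he hy.2.2.2.2.2).continuousAt.pow ν)
  have h0 : D 𝒳.x (m.fb.E a) (m.fb.ι b) (0, 1) ≠ 0 := hWb ▸ Sx.W_ne hZ he hsb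
  have hk := key (ν := ν) (α := α) he hsb (hjb hZ) (h3.2.mono fun _ h => h.1)
    h3.2.self_of_nhds.2 (h4.mono fun _ h => h.2.2.2.2.1) h0
    (by
      filter_upwards [h4, h6] with y hy hy'
      rw [← hy.2.2.2.1]
      exact hy')
  have hχ : m.md.χ a = fun b => D 𝒳.x (m.fb.E a) (m.fb.ι b) (1, 0) /
      D 𝒳.x (m.fb.E a) (m.fb.ι b) (0, 1) := funext (m.hχ a)
  have hx' := Sx.an_x hZ
  refine ⟨?_, ?_⟩
  · rw [hj, hxv]
    exact h6.self_of_nhds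
  · rw [hj, hxv, hWb, hk, hχ, h5 α hαb,
      h5 _ (an_div he hsb (an_D he hsb hx' (1, 0)) (an_D he hsb hx' (0, 1)) h0)]

end Pool.Agent.P.MP_7ede32_ag.Hod
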