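import Pool.Agent.P.MP_7ede32_ag.Hod.DR

/-!
The steps on a compact Riemann surface, as propositions.
-/

open Set Filter Topology MeasureTheory ComplexConjugate Polynomial Bornology Matrix
open scoped ComplexOrder

namespace Pool.Agent.P.MP_7ede32_ag.Hod

open MP_5d7cf0_gt.T (RS zc loc An D Sm Db Hf Om)

/-- The function `x` is a covering map outside the roots of `R`. -/
def SCov : Prop :=
  ∀ (Y : Type) [TopologicalSpace Y] [ChartedSpace ℂ Y] [RS Y] (C : XC Y), ∃ n, 0 < n ∧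
    ∀ ξ₀, C.R.eval ξ₀ ≠ 0 → (C.Φ ξ₀).ncard = n ∧ ∃ s : Y → ℂ → Y,
      (∀ p ∈ C.Φ ξ₀, IsSec C.x (s p) p) ∧
        ∀ᶠ ξ in 𝓝 ξ₀, BijOn (fun p => s p ξ) (C.Φ ξ₀) (C.Φ ξ)

/-- Properness at the roots of `R` and at infinity. -/
def SPrp : Prop :=
  ∀ (Y : Type) [TopologicalSpace Y] [ChartedSpace ℂ Y] [RS Y] (C : XC Y) (U : Y → Prop),
    (∀ β, C.R.eval β = 0 → (∀ p ∈ C.Sg, Tendsto C.x (𝓝[≠] p) (𝓝 β) → ∀ᶠ y in 𝓝[≠] p, U y) →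
      ∀ᶠ ξ in 𝓝 β, ∀ y ∈ C.Φ ξ, U y) ∧
    ((∀ p ∈ C.Sg, Tendsto C.x (𝓝[≠] p) (cobounded ℂ) → ∀ᶠ y in 𝓝[≠] p, U y) →
      ∀ᶠ ξ in cobounded ℂ, ∀ y ∈ C.Φ ξ, U y)

/-- A function with removable singularities and polynomial growth is a polynomial. -/
def SPolyR : Prop :=
  ∀ (R : ℂ[X]) (e : ℂ → ℂ) (a : ℕ) (c : ℝ), R ≠ 0 → (∀ ξ, R.eval ξ ≠ 0 → AnalyticAt ℂ e ξ) →
    (∀ β, R.eval β = 0 → Tendsto (fun ξ => (ξ - β) * e ξ) (𝓝[≠] β) (𝓝 0)) →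
    (∀ᶠ ξ in cobounded ℂ, ‖e ξ‖ ≤ c * ‖ξ‖ ^ a) →
    ∃ q : ℂ[X], q.natDegree ≤ a ∧ ∀ ξ, R.eval ξ ≠ 0 → e ξ = q.eval ξ

/-- Bounds for the roots of an integral equation. -/
def SRb : Prop :=
  ∀ (R : ℂ[X]) (m : ℕ) (A : ℕ → ℂ[X]),
    (∀ β, R.eval β = 0 → ∀ ε > 0, ∀ᶠ ξ in 𝓝 β, ∀ ψ, CP R m A ξ ψ → ‖ψ‖ ≤ ε) ∧
    (DegC R.natDegree m A → R ≠ 0 → ∀ ε > 0, ∀ᶠ ξ in cobounded ℂ, ∀ ψ, CP R m A ξ ψ →
      ‖ξ‖ * ‖ψ‖ ≤ ε * ‖R.eval ξ‖)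

/-- The area formula. -/
def SArea : Prop :=
  ∀ (O : Set ℂ) (g F : ℂ → ℂ), IsOpen O → (∀ v ∈ O, AnalyticAt ℂ g v ∧ deriv g v ≠ 0) →
    (∀ ξ, {v | v ∈ O ∧ g v = ξ}.Finite) →
    IntegrableOn (fun v => F v * ((‖deriv g v‖ ^ 2 : ℝ) : ℂ)) O →
    Integrable (fun ξ => ∑ᶠ v ∈ {v | v ∈ O ∧ g v = ξ}, F v) ∧
      ∫ ξ, ∑ᶠ v ∈ {v | v ∈ O ∧ g v = ξ}, F v = ∫ v in O, F v * ((‖deriv g v‖ ^ 2 : ℝ) : ℂ)

/-- The integral of a density that lives in a chart. -/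
def SCh : Prop :=
  ∀ (Y : Type) [TopologicalSpace Y] [ChartedSpace ℂ Y] [RS Y] (C : XC Y) (F : Y → ℂ) (f : ℂ → ℂ)
    (p : Y) (K : Set ℂ), IsCompact K → K ⊆ (chartAt ℂ p).target → Continuous f →
    (∀ z ∉ K, f z = 0) →
    (∀ y ∈ (chartAt ℂ p).source, F y = f (zc p y) * ((‖D (zc p) y‖ ^ 2 : ℝ) : ℂ)) →
    (∀ y ∉ (chartAt ℂ p).source, F y = 0) →
    Integrable (C.tr fun y => F y / ((‖D C.x y‖ ^ 2 : ℝ) : ℂ)) ∧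
      ∫ ξ, C.tr (fun y => F y / ((‖D C.x y‖ ^ 2 : ℝ) : ℂ)) ξ = ∫ z, f z

/-- Integrability. -/
def SPr : Prop :=
  ∀ (Y : Type) [TopologicalSpace Y] [ChartedSpace ℂ Y] [RS Y] (C : XC Y) (θ θ' : Y → ℂ × ℂ),
    (∀ p, (Cn θ p ∧ Cn θ' p) ∨ ∀ᶠ y in 𝓝 p, θ' y = 0) → Integrable (C.tr (C.wd θ θ'))

/-- Stokes' theorem. -/
def SSt : Prop :=
  ∀ (Y : Type) [TopologicalSpace Y] [ChartedSpace ℂ Y] [RS Y] (C : XC Y) (θ : Y → ℂ × ℂ)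
    (u : Y → ℂ), Cl θ → (∀ p, Sm u p) → C.pr θ (dd u) = 0

/-- Positivity on holomorphic forms. -/
def SPos : Prop :=
  ∀ (Y : Type) [TopologicalSpace Y] [ChartedSpace ℂ Y] [RS Y] (C : XC Y), ∀ w ∈ Om Y,
    0 ≤ C.Q (hf w) (hf w) ∧ (C.Q (hf w) (hf w) = 0 → w = 0)

/-- Truncation of a form that has local primitives around `Sg`. -/
def SCut : Prop :=
  ∀ (Y : Type) [TopologicalSpace Y] [ChartedSpace ℂ Y] [RS Y] (C : XC Y),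
    (∀ (ψ : Y → ℂ) (b : Y → Y → ℂ), (∀ p ∉ C.Sg, Hf ψ p) →
      (∀ p ∈ C.Sg, ∀ᶠ y in 𝓝[≠] p, An (b p) y ∧ D (b p) y = ψ y) →
      ∃ θ U, C.Zc θ ∧ (∀ p ∉ C.Sg, Sm U p ∧ θ p = hf ψ p - dd U p) ∧
        ∀ p ∈ C.Sg, U =ᶠ[𝓝 p] b p) ∧
    ∀ w ∈ Om Y, ∃ θ u, C.Zc θ ∧ (∀ p, Sm u p) ∧ θ = hf w - dd u

/-- The Hodge decomposition. -/
def SHodge : Prop :=
  ∀ (Y : Type) [TopologicalSpace Y] [ChartedSpace ℂ Y] [RS Y] (_C : XC Y),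
    FiniteDimensional ℂ (Om Y) → ∀ θ, Cl θ → ∃ w₀ ∈ Om Y, ∃ w₁ ∈ Om Y, ∃ u, (∀ p, Sm u p) ∧
      θ = hf w₀ + cj (hf w₁) + dd u

/-- The extremal property of the holomorphic part. -/
def SSup : Prop :=
  ∀ (Y : Type) [TopologicalSpace Y] [ChartedSpace ℂ Y] [RS Y] (C : XC Y) (g k : ℕ)
    (w : Fin g → Y → ℂ) (θ : Fin k → Y → ℂ × ℂ) (H : Matrix (Fin g) (Fin g) ℂ)
    (Γ : Matrix (Fin g) (Fin k) ℂ), (∀ i, w i ∈ Om Y) → LinearIndependent ℂ w →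
    (∀ w' ∈ Om Y, w' ∈ Submodule.span ℂ (range w)) → (∀ i, Cl (θ i)) →
    H = C.gram (fun i => hf (w i)) (fun i => hf (w i)) → Γ = C.gram (fun i => hf (w i)) θ →
    H.PosDef ∧ (Γᴴ * H⁻¹ * Γ - C.gram θ θ).PosSemidef ∧ (Γᴴ * H⁻¹ * Γ = C.gram θ θ →
      ∀ i, ∃ u, (∀ p, Sm u p) ∧ θ i = hf (∑ j, (Γᴴ * H⁻¹) i j • w j) + dd u)

/-- A bound for positive subspaces, and nondegeneracy. -/
def SSup2 : Prop :=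
  ∀ (Y : Type) [TopologicalSpace Y] [ChartedSpace ℂ Y] [RS Y] (C : XC Y),
    FiniteDimensional ℂ (Om Y) →
    (∀ (k : ℕ) (θ : Fin k → Y → ℂ × ℂ), (∀ i, Cl (θ i)) → (C.gram θ θ).PosDef →
      k ≤ Module.finrank ℂ (Om Y)) ∧
    (∀ (k : ℕ) (w : Fin k → Y → ℂ), (∀ i, w i ∈ Om Y) → LinearIndependent ℂ w →
      (C.gram (fun i => hf (w i)) fun i => hf (w i)).PosDef) ∧
    ∀ θ, Cl θ → (∀ σ, C.Zc σ → C.Q θ σ = 0) → ∃ u, (∀ p, Sm u p) ∧ θ = dd u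

/-- Transport of forms along an isomorphism of coverings. -/
def STp : Prop :=
  ∀ (Y₀ Y : Type) [TopologicalSpace Y₀] [ChartedSpace ℂ Y₀] [RS Y₀] [TopologicalSpace Y]
    [ChartedSpace ℂ Y] [RS Y] (C₀ : XC Y₀) (C : XC Y) (Ω K : Set ℂ) (τ : Y → Y₀), IsOpen Ω →
    IsCompact K → K ⊆ Ω → (∀ ξ ∈ K, C.R.eval ξ ≠ 0) → (∀ ξ ∈ Ω, BijOn τ (C.Φ ξ) (C₀.Φ ξ)) →
    (∀ p ∉ C.Sg, C.x p ∈ Ω → ContinuousAt τ p) →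
    ∃ tp : (Y₀ → ℂ × ℂ) → Y → ℂ × ℂ, ∀ θ, C₀.Zk K θ → C.Zk K (tp θ) ∧
      (∀ θ', C₀.Zk K θ' → C.Q (tp θ) (tp θ') = C₀.Q θ θ') ∧
      ∀ p ∉ C.Sg, C.x p ∈ Ω → (tp θ p).1 / D C.x p = (θ (τ p)).1 / D C₀.x (τ p)

/-- Lagrange interpolation in the fibres. -/
def SLag : Prop :=
  ∀ (Y : Type) [TopologicalSpace Y] [ChartedSpace ℂ Y] [RS Y] (M : PM Y) (a : ℕ), ∃ d : ℕ,
    ∀ φ : Y → ℂ, (∀ p ∉ M.Sg, An φ p) →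
      (∀ p ∈ M.Sg, ∀ β, Tendsto M.x (𝓝[≠] p) (𝓝 β) →
        Tendsto (fun y => (M.x y - β) * φ y) (𝓝[≠] p) (𝓝 0)) →
      (∀ p ∈ M.Sg, Tendsto M.x (𝓝[≠] p) (cobounded ℂ) →
        ∃ c : ℝ, ∀ᶠ y in 𝓝[≠] p, ‖φ y‖ ≤ c * ‖M.x y‖ ^ a) →
      ∃ N : ℂ[X][X], N.degree < M.P.degree ∧ (∀ j, (N.coeff j).natDegree ≤ d) ∧
        ∀ p ∉ M.Sg, M.ev N p = φ p * M.ev (derivative M.P) p

/-- Meromorphic functions are rational. -/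
def SRatU : Prop :=
  ∀ (Y : Type) [TopologicalSpace Y] [ChartedSpace ℂ Y] [RS Y] (M : PM Y) (U : Y → ℂ),
    (∀ p ∉ M.Sg, An U p) → (∀ p ∈ M.Sg, MeromorphicAt (loc U p) (zc p p)) →
    ∃ (k : ℕ) (N : ℂ[X][X]), ∀ p ∉ M.Sg, U p * M.R.eval (M.x p) ^ k = M.ev N p

/-- Finite dimension. -/
def SFinD : Prop :=
  ∀ (Y : Type) [TopologicalSpace Y] [ChartedSpace ℂ Y] [RS Y] (M : PM Y),
    FiniteDimensional ℂ (Om Y) ∧ ∀ ν, ∃ d : ℕ, ∀ F : Fin (d + 1) → Y → ℂ, (∀ i, M.Hol ν (F i)) →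
      ∃ c : Fin (d + 1) → ℂ, c ≠ 0 ∧ ∀ᶠ p in cofinite, ∑ i, c i * F i p = 0

/-- The characteristic polynomial of a holomorphic form. -/
def SChr : Prop :=
  ∀ (Y : Type) [TopologicalSpace Y] [ChartedSpace ℂ Y] [RS Y] (C : XC Y), ∀ w ∈ Om Y, ∀ ξ₀,
    C.R.eval ξ₀ ≠ 0 → ∃ A : ℕ → ℂ[X], DegC C.R.natDegree (C.Φ ξ₀).ncard A ∧ ∀ p ∉ C.Sg,
      CP C.R (C.Φ ξ₀).ncard A (C.x p) (C.R.eval (C.x p) * (w p / D C.x p))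

/-- Functions that vanish on the curve, and irreducibility. -/
def SIrr : Prop :=
  ∀ (Y : Type) [TopologicalSpace Y] [ChartedSpace ℂ Y] [RS Y] (M : PM Y),
    (∀ N, (∀ᶠ p in cofinite, M.ev N p = 0) → M.P ∣ N) ∧ Irreducible M.P

/-- The algebraic description of holomorphic forms. -/
def SVA : Prop :=
  ∀ (Y : Type) [TopologicalSpace Y] [ChartedSpace ℂ Y] [RS Y] (M : PM Y),
    (∀ N, AV M.P M.R N → ∃ w ∈ Om Y, ∀ p ∉ M.Sg,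
      w p = M.ev N p / M.ev (derivative M.P) p * D M.x p) ∧
    ∀ w ∈ Om Y, ∃ N, N.degree < M.P.degree ∧ AV M.P M.R N ∧ ∀ p ∉ M.Sg,
      w p = M.ev N p / M.ev (derivative M.P) p * D M.x p

/-- The space of adjoint polynomials. -/
def SA2O : Prop :=
  ∀ (Y : Type) [TopologicalSpace Y] [ChartedSpace ℂ Y] [RS Y] (M : PM Y),
    ∃ V : Submodule ℂ ℂ[X][X], FiniteDimensional ℂ V ∧
      (∀ N, N ∈ V ↔ N.degree < M.P.degree ∧ AV M.P M.R N) ∧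
      ∀ (g : ℕ) (N : Fin g → ℂ[X][X]), (∀ i, N i ∈ V) → ∃ w : Fin g → Y → ℂ,
        (∀ i, w i ∈ Om Y ∧ ∀ p ∉ M.Sg, w i p = M.ev (N i) p / M.ev (derivative M.P) p * D M.x p) ∧
        (LinearIndependent ℂ N → LinearIndependent ℂ w) ∧
        ((∀ N₀ ∈ V, N₀ ∈ Submodule.span ℂ (range N)) →
          ∀ w' ∈ Om Y, w' ∈ Submodule.span ℂ (range w))

/-- The genus is at least two. -/
def SGen2 : Prop :=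
  ∀ (Y : Type) [TopologicalSpace Y] [ChartedSpace ℂ Y] [RS Y] (C : XC Y) (μ : ℕ) (F : Y → ℂ),
    0 < μ → (¬ ∀ᶠ p in cofinite, F p = 0) → C.Hol μ F → C.Hol μ (fun p => C.x p * F p) →
    FiniteDimensional ℂ (Om Y) → 2 ≤ Module.finrank ℂ (Om Y)

/-- Two points with the same canonical image are exchanged by the hyperelliptic involution. -/
def SSep : Prop :=
  ∀ (Y : Type) [TopologicalSpace Y] [ChartedSpace ℂ Y] [RS Y] (p p' : Y) (l : ℂ), p ≠ p' →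
    (∃ w ∈ Om Y, w ≠ 0) → (∀ w ∈ Om Y, w p' = l * w p) → l ≠ 0 ∧ ∀ w₁ ∈ Om Y, ∀ w₂ ∈ Om Y,
      w₂ p ≠ 0 → D (fun y => w₁ y / w₂ y) p' = -l * D (fun y => w₁ y / w₂ y) p

/-- The covering given by the ratio of two holomorphic forms. -/
def SXCE : Prop :=
  ∀ (Y : Type) [TopologicalSpace Y] [ChartedSpace ℂ Y] [RS Y], ∀ w₁ ∈ Om Y, ∀ w₂ ∈ Om Y,
    (∀ a b : ℂ, a • w₁ + b • w₂ = 0 → a = 0 ∧ b = 0) → ∃ C : XC Y,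
      (C.x = fun p => w₁ p / w₂ p) ∧ C.R.eval 0 = 0 ∧ ∀ p ∉ C.Sg, w₂ p ≠ 0

/-- If the canonical image lies on a rational normal curve, points have partners. -/
def SPar : Prop :=
  ∀ (Y : Type) [TopologicalSpace Y] [ChartedSpace ℂ Y] [RS Y] (g : ℕ) (t : Fin g → Y → ℂ)
    (i₁ i₂ : Fin g), (∀ i, t i ∈ Om Y) → LinearIndependent ℂ t →
    (∀ w ∈ Om Y, w ∈ Submodule.span ℂ (range t)) → i₁ ≠ i₂ →
    (∀ l, ∃ α β : ℂ, ∀ᶠ p in cofinite, t i₁ p * t i₂ p = t l p * (α * t i₂ p + β * t i₁ p)) →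
    ∀ S : Set Y, S.Finite → ∀ᶠ p in cofinite, ∃ p' ∉ S, p' ≠ p ∧ ∃ l : ℂ,
      ∀ w ∈ Om Y, w p' = l * w p

/-- The linear algebra of the infinitesimal Torelli theorem. -/
def STor1 : Prop :=
  ∀ (g : ℕ) (Pt : Type) (𝓕 : Filter Pt) [𝓕.NeBot] (φ u : Pt → Fin g → ℂ)
    (c : Fin g → Fin g → Fin g → ℂ), (∀ a : Fin g → ℂ, a ≠ 0 → ∀ᶠ p in 𝓕, a ⬝ᵥ φ p ≠ 0) →
    (∀ᶠ p in 𝓕, ∀ i j, u p i * φ p j - u p j * φ p i = c i j ⬝ᵥ φ p) →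
    (∃ f : Fin g → ℂ, ∀ᶠ p in 𝓕, ∀ i j, (u p i - f i) * φ p j = (u p j - f j) * φ p i) ∨
    ∃ (T : Matrix (Fin g) (Fin g) ℂ) (i₁ i₂ : Fin g), T.det ≠ 0 ∧ i₁ ≠ i₂ ∧ ∀ l, ∃ α β : ℂ,
      ∀ᶠ p in 𝓕, (T *ᵥ φ p) i₁ * (T *ᵥ φ p) i₂ =
        (T *ᵥ φ p) l * (α * (T *ᵥ φ p) i₂ + β * (T *ᵥ φ p) i₁)

/-- A holomorphic form that is exact outside a finite set is zero. -/
def SRMer : Prop :=
  ∀ (Y : Type) [TopologicalSpace Y] [ChartedSpace ℂ Y] [RS Y], ∀ w ∈ Om Y, ∀ U : Y → ℂ,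
    (∀ᶠ p in cofinite, An U p ∧ D U p = w p) → w = 0

/-- From a birational model to a plane model. -/
def SRef : Prop :=
  ∀ (Y : Type) [TopologicalSpace Y] [ChartedSpace ℂ Y] [RS Y] (x y : Y → ℂ) (S : Set Y)
    (P A B : ℂ[X][X]) (R : ℂ[X]) (k : ℕ), S.Finite → R.Separable → P.Monic → 0 < P.natDegree →
    C (R ^ k) = A * P + B * derivative P →
    (∀ p ∉ S, An x p ∧ An y p ∧ D x p ≠ 0 ∧ P.evalEval (x p) (y p) = 0) →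
    (∀ p ∈ S, (∃ β, Tendsto x (𝓝[≠] p) (𝓝 β)) ∨ Tendsto x (𝓝[≠] p) (cobounded ℂ)) →
    (∀ᶠ ξ in cofinite, BijOn y {p | p ∉ S ∧ x p = ξ} {η | P.evalEval ξ η = 0}) →
    ∃ M : PM Y, M.P = P ∧ M.R = R ∧
      ∀ p ∉ S, M.x p = x p ∧ M.y p = y p ∧ (R.eval (x p) ≠ 0 → p ∉ M.Sg)

/-- A form of the second kind that is orthogonal to all closed forms is exact. -/
def SGMr : Prop :=
  ∀ (Y : Type) [TopologicalSpace Y] [ChartedSpace ℂ Y] [RS Y] (M : PM Y) (ψ : Y → ℂ),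
    (∀ p ∉ M.Sg, Hf ψ p) →
    (∀ p ∈ M.Sg, ∃ b, MeromorphicAt (loc b p) (zc p p) ∧ ∀ᶠ y in 𝓝[≠] p, An b y ∧ D b y = ψ y) →
    (∀ σ, M.Zc σ → M.Q (hf ψ) σ = 0) → ∃ (k : ℕ) (N : ℂ[X][X]), ∀ p ∉ M.Sg,
      D (fun y => M.ev N y / M.R.eval (M.x y) ^ k) p = ψ p

end Pool.Agent.P.MP_7ede32_ag.Hod
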