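import Pool.Agent.P.MP_7ede32_ag.Hod.StX
import Pool.Agent.P.MP_7ede32_ag.Hod.StR
import Pool.Agent.P.MP_7ede32_ag.Hod.MdT

/-!
Almost all fibres are smooth models of the plane curves.
-/

open Set Filter Topology Polynomial Matrix Bornology Metric

noncomputable section

namespace Pool.Agent.P.MP_7ede32_ag.Hod

open Geo (Sf0 wedge D)
open Full (Mf GT Nc PCh Sec)
open Ell (E2 jac)

open MP_5d7cf0_gt.T (RS zc loc An)

namespace MdEP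

variable {𝒳 : Sx} {z : ℂ} {Y : Type} [TopologicalSpace Y] [ChartedSpace ℂ Y]

theorem tend (B : FbD 𝒳 z Y) (h : 𝒳.GdF z) (a : Y) :
    Tendsto B.ι (𝓝[≠] a) (𝓝[𝒳.Zᶜ] (B.ι a)) :=
  tendsto_nhdsWithin_iff.2 ⟨B.emb.continuous.continuousAt.tendsto.mono_left nhdsWithin_le_nhds,
    (B.eventually_ne_iff a (r := fun y => y ∉ 𝒳.Z)).2 (h _ (B.ov a)).2.1⟩

/-- the numerator of the derivative of `x` -/
theorem D_quot {p : 𝒳.X} {e : Ch 𝒳.X} (he : e ∈ 𝒳.S.A) (hp : p ∈ e.source) (v : E2) :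
    ∃ α : 𝒳.X → ℂ, 𝒳.S.AnAt α p ∧
      ∀ᶠ y in 𝓝 p, y ∉ 𝒳.Z → D 𝒳.x e y v = α y / 𝒳.M.den p y ^ 2 := by
  have h1 := 𝒳.M.an p p (𝒳.M.mem_U p)
  refine ⟨fun y => 𝒳.M.den p y * D (𝒳.M.num p 𝒳.M.ix) e y v -
    𝒳.M.num p 𝒳.M.ix y * D (𝒳.M.den p) e y v, fun e' he' hp' => ?_, ?_⟩
  · exact ((h1.1 e' he' hp').mul (Sx.an_app (Sx.an_D (h1.2 _) he hp e' he' hp') v)).sub
      ((h1.2 _ e' he' hp').mul (Sx.an_app (Sx.an_D h1.1 he hp e' he' hp') v))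
  · filter_upwards [(𝒳.M.U_open p).mem_nhds (𝒳.M.mem_U p), e.open_source.mem_nhds hp]
      with y h2 h3 h4
    have h5 := 𝒳.M.an p y h2
    have h6 : 𝒳.x ∘ e.symm =ᶠ[𝓝 (e y)]
        fun u => (𝒳.M.num p 𝒳.M.ix ∘ e.symm) u / (𝒳.M.den p ∘ e.symm) u := by
      filter_upwards [Sf0.symm_eventually h3 ((𝒳.M.U_open p).mem_nhds h2)] with u hu
      exact 𝒳.M.f_eq p _ _ hu
    have h7 : (𝒳.M.den p ∘ e.symm) (e y) = 𝒳.M.den p y := by simp [e.left_inv h3]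
    have h8 : (𝒳.M.num p 𝒳.M.ix ∘ e.symm) (e y) = 𝒳.M.num p 𝒳.M.ix y := by simp [e.left_inv h3]
    rw [D, h6.fderiv_eq, Full.MfB.fderiv_div_apply (h5.2 _ e he h3).differentiableAt
      (h5.1 e he h3).differentiableAt (by rw [h7]; exact mt (𝒳.M.Z_iff p y h2).2 h4), h7, h8]
    rfl

theorem mer_D (B : FbD 𝒳 z Y) (h : 𝒳.GdF z) (a : Y) (v : E2) :
    MeromorphicAt (loc (fun b => D 𝒳.x (B.E a) (B.ι b) v) a) (zc a a) := by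
  obtain ⟨α, h1, h2⟩ := D_quot (B.nf a).1 (B.nf a).2.1 v
  have h3 := (𝒳.M.an _ _ (𝒳.M.mem_U (B.ι a))).1
  refine (((B.an_comp h1).1.meromorphicAt).div ((B.an_comp h3).1.meromorphicAt.pow 2)).congr ?_
  have h4 := tend B h a
  refine (MP_5d7cf0_gt.T.eventually_chart_ne (mem_chart_source ℂ a)
    (P := fun b => α (B.ι b) / 𝒳.M.den (B.ι a) (B.ι b) ^ 2 = D 𝒳.x (B.E a) (B.ι b) v)).1 ?_
  filter_upwards [h4.eventually (h2.filter_mono nhdsWithin_le_nhds),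
    h4.eventually eventually_mem_nhdsWithin] with b h5 h6
  exact (h5 h6).symm

end MdEP

open MdEP in
theorem sMdE (h1 : SFbE) (h2 : SRef) : SMdE := by
  intro 𝒳 Q
  filter_upwards [Q.gd, cd_nhds Q.on, Q.bij, Q.𝒴.rt_cd] with z hg ho hb hr
  obtain ⟨Y, _, _, _, ⟨B⟩⟩ := h1 𝒳 z fun p hp => (hg p hp).1
  have hS : (B.ι ⁻¹' 𝒳.Z).Finite :=
    (hg.finite.preimage B.emb.injective.injOn).subset fun a ha => ⟨ha, B.ov a⟩
  obtain ⟨M, hP, hR, hM⟩ := h2 Y (fun a => 𝒳.x (B.ι a)) (fun a => Q.y (B.ι a)) (B.ι ⁻¹' 𝒳.Z)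
    (sp Q.𝒴.P z) (sp Q.𝒴.A z) (sp Q.𝒴.B z) (sp1 Q.𝒴.R z) Q.𝒴.k hS hr.sep
    (monic_sp Q.𝒴.monic).1 ((monic_sp Q.𝒴.monic).2.1.symm ▸ Q.𝒴.pos) hr.bez
    (fun a ha => ⟨(B.an_comp (Sx.an_x ha)).1, (B.an_comp (Pm.an_y ha)).1, by
      rw [(B.an_comp (Sx.an_x ha)).2, ← (B.W_eq a).self_of_nhds]
      exact Sx.W_ne ha (B.nf a).1 (B.nf a).2.1, ho.self_of_nhds _ ha (B.ov a)⟩)
    (fun a _ => by
      have h3 := tend B hg a
      rcases (hg _ (B.ov a)).2.2 with ⟨F, hF, h4⟩ | h4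
      · refine Or.inl ⟨F (B.ι a), ?_⟩
        refine ((hF.continuousAt.tendsto.mono_left nhdsWithin_le_nhds).comp h3).congr' ?_
        filter_upwards [h3.eventually (h4.filter_mono nhdsWithin_le_nhds),
          h3.eventually eventually_mem_nhdsWithin] with b h5 h6
        exact (h5 h6).symm
      · exact Or.inr (h4.comp h3))
    (hb.mono fun ξ hξ => by
      refine hξ.comp (f := B.ι) ⟨fun a ha => ⟨ha.1, B.ov a, ha.2⟩, B.emb.injective.injOn,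
        fun p hp => ?_⟩
      obtain ⟨a, rfl⟩ := (B.rng p).2 hp.2.1
      exact ⟨a, ⟨hp.1, hp.2.2⟩, rfl⟩)
  refine ⟨⟨⟨Y, M, hP, hR, hr, fun a b =>
    D 𝒳.x (B.E a) (B.ι b) (1, 0) / D 𝒳.x (B.E a) (B.ι b) (0, 1),
    fun a => (mer_D B hg a _).div (mer_D B hg a _)⟩, B, hg, ho, fun a ha => ?_, fun _ _ => rfl⟩⟩
  obtain ⟨h3, h4, h5⟩ := hM a ha
  exact ⟨h3, h4, fun h6 => h5 (by rwa [← hR, ← h3])⟩

end Pool.Agent.P.MP_7ede32_ag.Hod
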