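import Pool.Agent.P.MP_7ede32_ag.Hod.StB
import Pool.Agent.P.MP_7ede32_ag.Hod.StX
import Pool.Agent.P.MP_7ede32_ag.Hod.MdT

/-!
Poles along a fibre have finite order; independence on the fibres read in a chart.
-/

open Set Filter Topology Polynomial

namespace Pool.Agent.P.MP_7ede32_ag.Hod

open Geo (Sf0)
open Ell (E2)

namespace MeroP

variable {𝒳 : Sx} {Q : Pm 𝒳} {ν : ℕ} {F : E3 → ℂ} {p : 𝒳.X} {z : ℂ}

theorem hx_mono (hp : 𝒳.Ov p z) {k k' : ℕ} (hk : k ≤ k')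
    (h : Q.HX ν (fun q => (q.1 - z) ^ k * F q) p z) :
    Q.HX ν (fun q => (q.1 - z) ^ k' * F q) p z := by
  intro e he hs
  obtain ⟨α, hα⟩ := h e he hs
  have h1 := hα.smul hp (c := fun t => (t - z) ^ (k' - k)) (by fun_prop)
  refine ⟨_, h1.congr hp (Eventually.of_forall fun q => ?_)⟩
  rw [← mul_assoc, ← pow_add, Nat.sub_add_cancel hk]

/-- off the fibre the quotient is locally bounded -/
theorem bdd_off (hp : 𝒳.Ov p z) (hF : ∀ᶠ z in cd, Q.HXf ν F z) {e : Ch 𝒳.X} (he : e ∈ 𝒳.S.A)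
    (hs : p ∈ e.source) {a b : 𝒳.X → ℂ} (ha : 𝒳.S.AnAt a p) (hb : 𝒳.S.AnAt b p)
    (h : ∀ᶠ y in Q.Nb p z, F (Q.jm z y) * 𝒳.W e y ^ ν * b y = a y) :
    ∀ᶠ y in 𝓝 p, 𝒳.lam z y - z ≠ 0 → ∃ c : ℝ, ∀ᶠ y' in 𝓝 y, ‖a y'‖ ≤ c * ‖b y'‖ := by
  filter_upwards [hp.tendsto_lam.eventually (eventually_nhdsWithin_iff.1 (nhdsNE_le_cd z hF)),
    hp.lam_ov, e.open_source.mem_nhds hs, Pm.nb_loc hp h, Pm.jm_jm (Q := Q) hp,
    ha.eventually.eventually_nhds, hb.eventually.eventually_nhds] with y a1 a2 a3 a4 a5 a6 a7 h0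
  obtain ⟨α, hα, e1⟩ := a1 (sub_ne_zero.1 h0) y a2 e he a3
  have e2 : ∀ᶠ y' in Q.Nb y (𝒳.lam z y), a y' = α y' * b y' := by
    filter_upwards [a4, e1, a5.filter_mono Pm.nb_le] with y' b1 b2 b3
    rw [← b1, ← b2, b3]
  refine ⟨‖α y‖ + 1, ?_⟩
  filter_upwards [Pm.nb_eq a2 e2, a6, a7, hα.eventually,
    hα.continuousAt.norm.eventually (gt_mem_nhds (lt_add_one ‖α y‖))] with y' b1 b2 b3 b4 b5
  rw [b1 b2.continuousAt (b4.continuousAt.mul b3.continuousAt), norm_mul]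
  exact mul_le_mul_of_nonneg_right b5.le (norm_nonneg _)

theorem loc_mero (h1 : SQuot) (h2 : SVert) (hR : Q.𝒴.Rat F) (hF : ∀ᶠ z in cd, Q.HXf ν F z)
    (hp : 𝒳.Ov p z) : ∃ k : ℕ, Q.HX ν (fun q => (q.1 - z) ^ k * F q) p z := by
  obtain ⟨e, he, hs, h0⟩ := Sf0.exists_chart0 (S := 𝒳.S) p
  obtain ⟨G, -, hG⟩ := h1 𝒳 Q ν F hR
  obtain ⟨a, b, ha, hb, hq, -⟩ := hG z p hp e he hs
  have hch : ∀ {r : 𝒳.X → Prop}, (∀ᶠ y in 𝓝 p, r y) ↔ ∀ᶠ v in 𝓝 (0 : E2), r (e.symm v) :=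
    fun {r} => h0 ▸ Sx.eventually_chart hs
  have ht : ∀ᶠ v in 𝓝 (0 : E2), v ∈ e.target := e.open_target.mem_nhds (h0 ▸ e.map_source hs)
  obtain ⟨k, c, hc, hk⟩ := h2 (fun v => 𝒳.lam z (e.symm v) - z) (a ∘ e.symm) (b ∘ e.symm)
    ((h0 ▸ hp.an_lam e he hs).sub analyticAt_const) (h0 ▸ ha e he hs) (h0 ▸ hb e he hs)
    (fun h => hp.lam_nc (hch.2 (h.mono fun _ hv => sub_eq_zero.1 hv)))
    (fun h => Pm.nb_frequently hp (hq.mono fun _ hy => hy.1)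
      ((hch (r := fun y => b y = 0).2 h).mono fun _ hy hn => hn hy)) (by
      filter_upwards [hch.1 (bdd_off hp hF he hs ha hb (hq.mono fun _ hy => hy.2)), ht]
        with v hv hv' hl
      obtain ⟨c, hc⟩ := hv hl
      exact ⟨c, (e.continuousAt_symm hv').eventually hc⟩)
  refine ⟨k, Pm.Co.hx (α := fun y => c (e y)) ⟨Sf0.anAt_of_chart he hs ?_, ?_⟩ he hs⟩
  · rw [h0]
    refine hc.congr ?_
    filter_upwards [ht] with v hv
    simp [e.right_inv hv]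
  · have hk' : ∀ᶠ y in 𝓝 p, (𝒳.lam z y - z) ^ k * a y = c (e y) * b y := by
      refine hch.2 ?_
      filter_upwards [hk, ht] with v hv hv'
      rw [e.right_inv hv']
      exact hv
    filter_upwards [hq, hk'.filter_mono Pm.nb_le] with y hy hy'
    apply mul_right_cancel₀ hy.1
    rw [← hy', ← hy.2]
    change (𝒳.lam z y - z) ^ k * F (Q.jm z y) * 𝒳.W e y ^ ν * b y = _
    ring

theorem tendsto_pow (z : ℂ) {μ : ℕ} (hμ : 0 < μ) :
    Tendsto (fun u : ℂ => z + u ^ μ) (𝓝[≠] 0 ⊓ cc) (𝓝[≠] z ⊓ cc) := by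
  refine Tendsto.inf (tendsto_nhdsWithin_iff.2 ⟨?_, ?_⟩) fun s hs => ?_
  · have h : Continuous fun u : ℂ => z + u ^ μ := by fun_prop
    simpa [hμ.ne'] using (h.tendsto 0).mono_left nhdsWithin_le_nhds
  · filter_upwards [self_mem_nhdsWithin] with u hu
    simpa [hμ.ne'] using hu
  · refine mem_cocountable.2 (((mem_cocountable.1 hs).biUnion fun t _ =>
      (nthRootsFinset μ (t - z)).finite_toSet.countable).mono fun u hu => ?_)
    exact mem_biUnion (x := z + u ^ μ) hu (by simp [mem_nthRootsFinset hμ])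

end MeroP

open MeroP

theorem sMero (h1 : SQuot) (h2 : SVert) : SMero := by
  intro 𝒳 Q ν F hR hF z
  refine (𝒳.isCompact_ov z).induction_on (p := fun s => ∃ k : ℕ, ∀ p ∈ s, 𝒳.Ov p z →
    Q.HX ν (fun q => (q.1 - z) ^ k * F q) p z) ⟨0, fun _ h => h.elim⟩
    (fun s t hst ⟨k, hk⟩ => ⟨k, fun p hp => hk p (hst hp)⟩)
    (fun s t ⟨k, hk⟩ ⟨k', hk'⟩ => ⟨max k k', fun p hp ho => hp.elim
      (fun h => hx_mono ho (le_max_left _ _) (hk p h ho))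
      fun h => hx_mono ho (le_max_right _ _) (hk' p h ho)⟩) (fun p hp => ?_) |>.imp
    fun k hk p hp => hk p hp hp
  obtain ⟨k, hk⟩ := loc_mero h1 h2 hR hF hp
  refine ⟨_, mem_nhdsWithin_of_mem_nhds ((hk.loc hp).and (Sx.Ov.lam_eq_iff hp)), k,
    fun y hy ho => ?_⟩
  have := hy.1
  rwa [hy.2.2 ho] at this

theorem sInd (h : SIrr) : SInd := by
  intro 𝒳 T e p z μ r ν F α hN hC hF
  obtain ⟨ρ, hρ, hs⟩ := Pm.slice (Q := T.Q) hN (r := fun y => 𝒳.W e y ≠ 0 ∧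
      ∀ i, F i (T.Q.jm z y) * 𝒳.W e y ^ ν = α i y) (by
    filter_upwards [Pm.nb_off, Pm.nb_le (e.open_source.mem_nhds hN.2.1),
      eventually_all.2 fun i => (hC i).2] with y a1 a2 a3
    exact ⟨Sx.W_ne a1 hN.1 a2, a3⟩)
  have hI : ∀ᶠ t in 𝓝[≠] z ⊓ cc, T.Q.𝒴.Irr t :=
    (T.Φ.irr_cd h).filter_mono (inf_le_right.trans cc_le_cd)
  refine Frequently.filter_mono (Eventually.frequently ?_) (inf_le_left (b := cc))
  filter_upwards [(tendsto_pow z hN.2.2.2.2.1).eventually (hF.and hI),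
    hs.filter_mono inf_le_left] with u ⟨⟨a1, a2⟩, a3⟩ a4 c hc
  by_contra hn
  obtain ⟨b1, b2⟩ := a4 0 (Metric.mem_ball_self hρ)
  obtain ⟨v, c1, c2, c3⟩ := (b1.and ((b2.eventually (a2.ne a1 a3 hn)).and
    (hc.filter_mono nhdsWithin_le_nhds))).exists
  refine mul_ne_zero c2 (pow_ne_zero ν c1.1) ?_
  rw [← c3, Finset.sum_mul]
  exact Finset.sum_congr rfl fun i _ => by rw [mul_assoc, c1.2 i]

end Pool.Agent.P.MP_7ede32_ag.Hod
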