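import Pool.Agent.P.MP_7ede32_ag.Hod.StX
import Pool.Agent.P.MP_7ede32_ag.Full.MfB

/-!
The family of meromorphic functions attached to pluricanonical sections.
-/

open Filter Topology Metric Set

noncomputable section

namespace Pool.Agent.P.MP_7ede32_ag.Hod

open Geo (Sf0 wedge D)
open Ell (E2 jac det2)
open Full.MfB

theorem sMgB (h1 : Full.SW) (h2 : Full.SRho) (h3 : Full.SSecId) : SMgB := by
  intro X _ _ S L hΛ hNc G
  obtain ⟨l₀, W, hW, hWe⟩ := h1 X S G hNc
  obtain ⟨V, ρ, σ, t, hV, hρ, ht⟩ := h2 X S L hΛ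
  choose ch hch hx using S.cover
  let U : X → Set X := fun x => (ch x).source ∩ V x
  let den : X → X → ℂ := fun x y =>
    G.b.c (ch x) (ch x y) * W.c (ch x) (ch x y) ^ G.μ * ρ x y
  let num : X → Fin G.N ⊕ Bool → X → ℂ := fun x i y =>
    Sum.elim (fun l => (G.a l).c (ch x) (ch x y) * W.c (ch x) (ch x y) ^ G.μ * ρ x y)
      (fun j => bif j then G.b.c (ch x) (ch x y) ^ (2 * G.μ + 2) * ρ x y
        else G.b.c (ch x) (ch x y) * W.c (ch x) (ch x y) ^ G.μ * σ x y) i
  let g : X → X → X → ℂ := fun x x' y =>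
    jac (fderiv ℂ (ch x' ∘ (ch x).symm) (ch x y)) ^ (G.μ * (2 * G.μ + 2)) * t x x' y
  let f : Fin G.N ⊕ Bool → X → ℂ := fun i y => num y i y / den y y
  have hU : ∀ x, x ∈ U x := fun x => ⟨hx x, (hV x).2⟩
  have hUo : ∀ x, IsOpen (U x) := fun x => (ch x).open_source.inter (hV x).1
  have han : ∀ x, ∀ y ∈ U x, S.AnAt (den x) y ∧ ∀ i, S.AnAt (num x i) y := fun x y hy => by
    have a1 := sec_an G.b (hch x) hy.1
    have a2 := an_pow (sec_an W (hch x) hy.1) G.μ
    have a3 := hρ x y hy.2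
    refine ⟨an_mul (an_mul a1 a2) a3.1, ?_⟩
    rintro (l | _ | _)
    · exact an_mul (an_mul (sec_an (G.a l) (hch x) hy.1) a2) a3.1
    · exact an_mul (an_mul a1 a2) a3.2.1
    · exact an_mul (an_pow a1 _) a3.1
  have htr : ∀ x x', ∀ y ∈ U x, y ∈ U x' → ContinuousAt (g x x') y ∧
      den x y = g x x' y * den x' y ∧ ∀ i, num x i y = g x x' y * num x' i y := by
    intro x x' y hy hy'
    obtain ⟨a1, -, a2, a3⟩ := ht x x' y hy.2 hy'.2
    have a4 := G.b.compat _ (hch x) _ (hch x') y hy.1 hy'.1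
    have a5 := W.compat _ (hch x) _ (hch x') y hy.1 hy'.1
    refine ⟨((jac_cont (hch x) (hch x') hy.1 hy'.1).pow _).mul a1, ?_, ?_⟩
    · simp only [den, g]
      rw [a2, a4, a5]
      ring
    · rintro (l | _ | _)
      · simp only [num, g, Sum.elim_inl]
        rw [a2, a5, (G.a l).compat _ (hch x) _ (hch x') y hy.1 hy'.1]
        ring
      · simp only [num, g, Sum.elim_inr, cond_false]
        rw [a3, a4, a5]
        ring
      · simp only [num, g, Sum.elim_inr, cond_true]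
        rw [a2, a4]
        ring
  have hg : ∀ x x', ∀ y ∈ U x, y ∈ U x' → g x x' y ≠ 0 := fun x x' y hy hy' =>
    mul_ne_zero (pow_ne_zero _ (jac_ne (hch x) (hch x') hy.1 hy'.1)) (ht x x' y hy.2 hy'.2).2.1
  have hZ : ∀ x, ∀ y ∈ U x, den y y = 0 ↔ den x y = 0 := fun x y hy => by
    rw [(htr y x y (hU y) hy).2.1, mul_eq_zero, or_iff_right (hg y x y (hU y) hy)]
  have hne : ∀ y, den y y ≠ 0 → G.b.c (ch y) (ch y y) ≠ 0 ∧ W.c (ch y) (ch y y) ≠ 0 ∧
      ρ y y ≠ 0 := fun y hy => by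
    have a1 := left_ne_zero_of_mul hy
    exact ⟨left_ne_zero_of_mul a1, ne_zero_pow G.μ_pos.ne' (right_ne_zero_of_mul a1),
      right_ne_zero_of_mul hy⟩
  have hfl : ∀ l y, den y y ≠ 0 →
      f (Sum.inl l) y = (G.a l).c (ch y) (ch y y) / G.b.c (ch y) (ch y y) := fun l y hy => by
    obtain ⟨a1, a2, a3⟩ := hne y hy
    simp only [f, num, den, Sum.elim_inl]
    field_simp
  have hfe : ∀ e ∈ S.A, ∀ y ∈ e.source, den y y ≠ 0 → G.b.c e (e y) ≠ 0 ∧ W.c e (e y) ≠ 0 ∧
      (∀ l, f (Sum.inl l) y = (G.a l).c e (e y) / G.b.c e (e y)) ∧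
      f (Sum.inr true) y = G.b.c e (e y) ^ (2 * G.μ + 1) / W.c e (e y) ^ G.μ := by
    intro e he y hy h0
    obtain ⟨a1, a2, a3⟩ := hne y h0
    have a4 := G.b.compat _ (hch y) _ he y (hx y) hy
    have a5 := W.compat _ (hch y) _ he y (hx y) hy
    have a6 := jac_ne (hch y) he (hx y) hy
    have a7 : G.b.c e (e y) ≠ 0 := left_ne_zero_of_mul (a4 ▸ a1)
    have a8 : W.c e (e y) ≠ 0 := left_ne_zero_of_mul (a5 ▸ a2)
    refine ⟨a7, a8, fun l => ?_, ?_⟩
    · rw [hfl l y h0, a4, (G.a l).compat _ (hch y) _ he y (hx y) hy]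
      field_simp
    · simp only [f, num, den, Sum.elim_inr, cond_true]
      rw [a4, a5]
      field_simp
      ring
  have hD : ∀ e ∈ S.A, ∀ y ∈ e.source, den y y ≠ 0 → ∀ v, D (f (Sum.inl l₀)) e y v =
      (G.b.c e (e y) * fderiv ℂ ((G.a l₀).c e) (e y) v -
        (G.a l₀).c e (e y) * fderiv ℂ (G.b.c e) (e y) v) / G.b.c e (e y) ^ 2 := by
    intro e he y a2 hy v
    have a3 : f (Sum.inl l₀) ∘ e.symm =ᶠ[𝓝 (e y)] fun u => (G.a l₀).c e u / G.b.c e u := by
      have a4 : ∀ᶠ z in 𝓝 y, f (Sum.inl l₀) z = (G.a l₀).c e (e z) / G.b.c e (e z) := by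
        filter_upwards [(hUo y).mem_nhds (hU y), e.open_source.mem_nhds a2,
          (han y y (hU y)).1.continuousAt.eventually_ne hy] with z c1 c2 c3
        exact (hfe e he z c2 fun h => c3 ((hZ y z c1).1 h)).2.2.1 l₀
      filter_upwards [Sf0.symm_eventually a2 a4, e.open_target.mem_nhds (e.map_source a2)]
        with u c1 c2
      rwa [e.right_inv c2] at c1
    rw [D, a3.fderiv_eq, fderiv_div_apply ((G.a l₀).an e he y a2).differentiableAt
      (G.b.an e he y a2).differentiableAt (hfe e he y a2 hy).1]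
  have hWd : ∀ e ∈ S.A, ∀ y ∈ e.source, den y y ≠ 0 →
      wedge (S.dπ e y) (D (f (Sum.inl l₀)) e y) = W.c e (e y) / G.b.c e (e y) ^ 2 := by
    intro e he y a2 hy
    have b1 := (hfe e he y a2 hy).1
    rw [hWe e he y a2]
    simp only [wedge, hD e he y a2 hy, sub_apply,
      smul_apply, smul_eq_mul]
    field_simp
  have hinj : ∀ y, den y y ≠ 0 → ∀ y', den y' y' ≠ 0 →
      (∀ l, f (Sum.inl l) y = f (Sum.inl l) y') → y = y' := fun y hy y' hy' h => by
    refine G.inj _ (hch y) _ (hch y') y (hx y) y' (hx y') (hne y hy).1 (hne y' hy').1 fun l => ?_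
    rw [← hfl l y hy, ← hfl l y' hy', h]
  refine ⟨{ ι := Fin G.N ⊕ Bool
            iu := Sum.inr false
            ix := Sum.inl l₀
            ia := Sum.inr true
            μ := G.μ
            f := f
            Z := {y | den y y = 0}
            U := U
            den := den
            num := num
            g := g
            μ_pos := G.μ_pos
            U_open := hUo
            mem_U := hU
            an := han
            trans := htr
            Z_iff := hZ
            f_eq := fun x i y hy => ?_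
            den_ne := fun x h => ?_
            hu := fun y hy w hw => ?_
            a_ne := fun y hy => ?_
            reg := fun e p hp => ?_
            inj := fun y hy y' hy' h => hinj y hy y' hy' fun l => h _
            I := range Sum.inl
            ix_mem := mem_range_self _
            W_ne := fun y hy e he hy' => ?_
            regA := fun e he p hp => ?_
            regI := ?_
            injI := fun y hy y' hy' h => hinj y hy y' hy' fun l => h _ (mem_range_self _) }⟩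
  · simp only [f]
    rw [(htr y x y (hU y) hy).2.1, (htr y x y (hU y) hy).2.2 i,
      mul_div_mul_left _ _ (hg y x y (hU y) hy)]
  · have a1 : ∀ᶠ y in 𝓝 x, y ∈ U x ∧ den x y = 0 := by
      filter_upwards [h, (hUo x).mem_nhds (hU x)] with y a1 a2
      exact ⟨a2, (hZ x y a2).1 a1⟩
    obtain ⟨x₁, a2, a3⟩ := step G.b (hch x) (hx x) (h3 X S _ G.b G.b_ne _ (hch x) x (hx x)) a1
    obtain ⟨x₂, a4, a5⟩ := step W (hch x) a2 (h3 X S _ W hW _ (hch x) x₁ a2) a3
    have a6 : ∀ᶠ y in 𝓝 x₂, S.π y = 0 := by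
      filter_upwards [a5] with y hy
      obtain ⟨⟨⟨b1, b2⟩, b3⟩, b4⟩ := hy
      exact (hρ x y b1.2).2.2.1.1
        ((mul_eq_zero.1 b2).resolve_left (mul_ne_zero b3 (pow_ne_zero _ b4)))
    exact hNc x₂ (a6.mono fun y hy => hy.trans a6.self_of_nhds.symm)
  · obtain ⟨a1, a2, a3⟩ := hne y hy
    obtain ⟨-, -, a4, a5⟩ := hρ y y (hV y).2
    have a6 : S.π y ≠ 0 := fun h => a3 (a4.2 h)
    refine ⟨fun h => a6 ?_, ?_⟩
    · rw [hw]
      exact (Submodule.Quotient.mk_eq_zero _).2 (hΛ ▸ h)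
    · simp only [f, num, den, Sum.elim_inr, cond_false]
      rw [a5 w hw a6]
      field_simp
  · obtain ⟨a1, a2, a3⟩ := hne y hy
    exact div_ne_zero (mul_ne_zero (pow_ne_zero _ a1) a3) hy
  · refine ⟨fun y => G.b.c e (e y), fun y => (G.a l₀).c e (e y), sec_an _ hp.1 hp.2.1,
      sec_an _ hp.1 hp.2.1, ?_⟩
    filter_upwards [dπ_fst hp, e.open_source.mem_nhds hp.2.1] with y a1 a2 hy
    obtain ⟨b1, b2, b3, b4⟩ := hfe e hp.1 y a2 hy
    have a4 : D (f (Sum.inl l₀)) e y (0, 1) = W.c e (e y) / G.b.c e (e y) ^ 2 := by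
      rw [← hWd e hp.1 y a2 hy, a1]
      simp [wedge]
    rw [a4, b3 l₀, b4]
    refine ⟨div_ne_zero b2 (pow_ne_zero _ b1), ?_, ?_⟩
    · rw [div_pow]
      field_simp
      ring
    · rw [div_pow]
      field_simp
      ring
  · obtain ⟨b1, b2, -, -⟩ := hfe e he y hy' hy
    rw [hWd e he y hy' hy]
    exact div_ne_zero b2 (pow_ne_zero _ b1)
  · refine ⟨fun y => G.b.c e (e y), sec_an _ he hp, ?_⟩
    filter_upwards [e.open_source.mem_nhds hp] with y a2 hy
    obtain ⟨b1, b2, -, b4⟩ := hfe e he y a2 hy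
    rw [hWd e he y a2 hy, b4, div_pow]
    field_simp
    ring
  · rintro _ ⟨l, rfl⟩ e he p hp
    refine ⟨fun y => (G.a l).c e (e y), sec_an _ he hp, ?_⟩
    filter_upwards [e.open_source.mem_nhds hp] with y a2 hy
    obtain ⟨b1, b2, b3, b4⟩ := hfe e he y a2 hy
    rw [hWd e he y a2 hy, b3 l, b4, div_pow]
    field_simp
    ring

end Pool.Agent.P.MP_7ede32_ag.Hod
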