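import Pool.Agent.P.MP_7ede32_ag.Hod.StX
import Pool.Agent.P.MP_7ede32_ag.Hod.StB
import Pool.Agent.P.MP_7ede32_ag.Hod.HXT

/-!
Division by the equation of the fibre.
-/

open Set Filter Topology Polynomial Matrix Bornology Metric

noncomputable section

namespace Pool.Agent.P.MP_7ede32_ag.Hod

open Geo (Sf0 wedge D)
open Ell (E2 jac)

namespace NF0P

theorem bd {T : Type} [TopologicalSpace T] {a b c : T → ℂ} {y : T} (hc : ContinuousAt c y)
    (h : ∀ᶠ y' in 𝓝 y, a y' = c y' * b y') : ∃ k : ℝ, ∀ᶠ y' in 𝓝 y, ‖a y'‖ ≤ k * ‖b y'‖ := by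
  refine ⟨‖c y‖ + 1, ?_⟩
  filter_upwards [h, hc.norm.eventually (gt_mem_nhds (lt_add_one ‖c y‖))] with y' h1 h2
  rw [h1, norm_mul]
  exact mul_le_mul_of_nonneg_right h2.le (norm_nonneg _)

theorem bd' {T : Type} [TopologicalSpace T] {a b : T → ℂ} {y : T} (ha : ContinuousAt a y)
    (hb : ContinuousAt b y) (h : b y ≠ 0) : ∃ k : ℝ, ∀ᶠ y' in 𝓝 y, ‖a y'‖ ≤ k * ‖b y'‖ := by
  refine bd (ha.div hb h) ?_
  filter_upwards [hb.eventually_ne h] with y' h1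
  rw [Pi.div_apply, div_mul_cancel₀ _ h1]

variable {𝒳 : Sx} {Q : Pm 𝒳} {p : 𝒳.X} {z : ℂ} {e : Ch 𝒳.X} {ν μ : ℕ} {F : E3 → ℂ}
  {α γ : 𝒳.X → ℂ}

theorem comp_chart (he : e ∈ 𝒳.S.A) (hy : p ∈ e.source) {g : E2 → ℂ}
    (hg : AnalyticAt ℂ g (e p)) : 𝒳.S.AnAt (fun y => g (e y)) p := by
  refine Sf0.anAt_of_chart he hy (hg.congr ?_)
  filter_upwards [e.open_target.mem_nhds (e.map_source hy)] with v hv
  simp [e.right_inv hv]

theorem div_of (hp : 𝒳.Ov p z) (h : Q.Co e p z ν F α) (hγ : 𝒳.S.AnAt γ p)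
    (h1 : ∀ᶠ y in 𝓝 p, α y = γ y * (𝒳.lam z y - z)) :
    Q.Co e p z ν (fun q => (q.1 - z)⁻¹ * F q) γ := by
  refine ⟨hγ, ?_⟩
  filter_upwards [h.2, Pm.nb_le h1, Pm.nb_fst (Q := Q) hp (s := fun t => t ≠ z)
    self_mem_nhdsWithin] with y a1 a2 a3
  have a4 : 𝒳.lam z y - z ≠ 0 := sub_ne_zero.2 a3
  rw [mul_assoc, a1, a2]
  show (𝒳.lam z y - z)⁻¹ * _ = _
  field_simp

theorem mul_of (hp : 𝒳.Ov p z) (h : Q.Co e p z ν (fun q => (q.1 - z)⁻¹ * F q) γ) :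
    Q.Co e p z ν F fun y => γ y * (𝒳.lam z y - z) := by
  refine ⟨fun e₁ he hs => (h.1 e₁ he hs).mul ((hp.an_lam e₁ he hs).sub analyticAt_const), ?_⟩
  filter_upwards [h.2, Pm.nb_fst (Q := Q) hp (s := fun t => t ≠ z)
    self_mem_nhdsWithin] with y a1 a3
  have a4 : 𝒳.lam z y - z ≠ 0 := sub_ne_zero.2 a3
  rw [← a1]
  show _ = (𝒳.lam z y - z)⁻¹ * _ * _ * _
  field_simp

theorem at_nf (h2 : SExtC)
    (hj : ∀ e p μ α, 𝒳.NF e p z μ → Q.Co e p z ν F α →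
      ∀ k < μ, iteratedDeriv k (fun u => α (e.symm (u, 0))) 0 = 0)
    (hn : 𝒳.NF e p z μ) (h : Q.Co e p z ν F α) :
    Q.HX ν (fun q => (q.1 - z)⁻¹ * F q) p z := by
  obtain ⟨he, hs, h0, hp, hμ, hl⟩ := id hn
  have ha := hn.an h.1
  have sw : AnalyticAt ℂ (fun y : E2 => ((y.2, y.1) : E2)) 0 := analyticAt_snd.prod analyticAt_fst
  have ha' : AnalyticAt ℂ (fun y : E2 => (α ∘ e.symm) (y.2, y.1)) 0 :=
    AnalyticAt.fun_comp_of_eq ha sw rfl
  have t1 : Tendsto (fun v : ℂ => ((0, v) : E2)) (𝓝 0) (𝓝 0) :=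
    (continuous_const.prodMk continuous_id).tendsto' _ _ rfl
  have jets : ∀ᶠ v in 𝓝 (0 : ℂ), ∀ k < μ,
      iteratedDeriv k (fun u => α (e.symm (u, v))) 0 = 0 := by
    filter_upwards [hn.shift, t1.eventually (hn.eventually.1 (h.loc hp)),
      t1.eventually hn.lam_symm] with v a1 a2 a3
    obtain ⟨e', b1, b2, b3, b4⟩ := a1
    rw [a3.2.1] at a2
    simp only [zero_pow hμ.ne', add_zero] at a2
    have b5 := hj e' _ μ α b1 (a2.shift b2 b3 b4)
    simpa only [b4, Prod.mk_add_mk, add_zero, zero_add] using b5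
  obtain ⟨c, hc, hac⟩ := h2 _ (fun y : E2 => y.2 ^ μ) ∅ ha' (analyticAt_snd.pow μ) (by
    intro h3
    obtain ⟨v, v1, v2⟩ := ((h3.filter_mono nhdsWithin_le_nhds).and
      (self_mem_nhdsWithin (a := (0 : ℂ)) (s := {0}ᶜ))).exists
    exact v2 (pow_eq_zero_iff hμ.ne' |>.1 v1)) countable_empty (by
    have f1 : Tendsto (fun y : E2 => y.1) (𝓝 0) (𝓝 0) := continuous_fst.continuousAt.tendsto
    filter_upwards [f1.eventually jets, ha'.eventually_analyticAt] with y y1 y2 _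
    have y3 : AnalyticAt ℂ (fun u : ℂ => α (e.symm (u, y.1))) y.2 :=
      AnalyticAt.fun_comp_of_eq (f := fun u : ℂ => ((y.1, u) : E2)) y2
        (analyticAt_const.prod analyticAt_id) rfl
    suffices hh : ∃ k : ℝ, ∀ᶠ u in 𝓝 y.2, ‖α (e.symm (u, y.1))‖ ≤ k * ‖u ^ μ‖ from
      hh.imp fun k hk => hk.filter_mono nhdsWithin_le_nhds
    by_cases h4 : y.2 = 0
    · rw [h4] at y3 ⊢
      obtain ⟨g, hg, hg'⟩ := (natCast_le_analyticOrderAt y3).1
        ((natCast_le_analyticOrderAt_iff_iteratedDeriv_eq_zero y3).2 y1)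
      refine bd hg.continuousAt (hg'.mono fun u hu => ?_)
      rw [hu, sub_zero, smul_eq_mul, mul_comm]
    · exact bd' y3.continuousAt (continuous_pow μ).continuousAt (pow_ne_zero μ h4))
  have te : Tendsto e (𝓝 p) (𝓝 0) := h0 ▸ (e.continuousAt hs).tendsto
  have ts : Tendsto (fun y => (((e y).2, (e y).1) : E2)) (𝓝 p) (𝓝 0) :=
    sw.continuousAt.tendsto.comp te
  refine (div_of hp h (comp_chart he hs (g := fun y => c (y.2, y.1))
    (h0 ▸ AnalyticAt.fun_comp_of_eq hc sw rfl)) ?_).hx he hs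
  filter_upwards [ts.eventually hac, hl, e.eventually_left_inverse hs] with y y1 y2 y3
  rw [y2, add_sub_cancel_left, ← y1]
  simp only [Function.comp_apply, Prod.mk.eta]
  rw [show e.symm (e y) = y from y3]

end NF0P

open NF0P

theorem sNF0 (h1 : SNF) (h2 : SExtC) (h3 : SExt2) : SNF0 := by
  intro 𝒳 Q ν F z hF hj p hp
  obtain ⟨e, he, hs, h0⟩ := 𝒳.S.exists_chart0 p
  obtain ⟨α, hα⟩ := hF p hp e he hs
  have hb : AnalyticAt ℂ (fun v => 𝒳.lam z (e.symm v) - z) 0 :=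
    AnalyticAt.sub (h0 ▸ hp.an_lam e he hs) analyticAt_const
  have ha : AnalyticAt ℂ (α ∘ e.symm) 0 := h0 ▸ hα.1 e he hs
  obtain ⟨c, hc, hac⟩ := h3 _ _ (e '' {p | 𝒳.Ov p z ∧ ¬ ∃ e μ, 𝒳.NF e p z μ}) ha hb
    (fun h4 => hp.lam_nc (by
      rw [Sx.eventually_chart hs, h0]
      simpa only [sub_eq_zero] using h4)) ((h1 𝒳 z).1.image e).countable (by
    have h4 := (Sx.eventually_chart hs).1 ((hα.loc hp).and hp.lam_eq_iff)
    rw [h0] at h4
    filter_upwards [h4, e.open_target.mem_nhds (h0 ▸ e.map_source hs), ha.eventually_analyticAt,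
      hb.eventually_analyticAt] with v v1 v2 v3 v4 v5
    by_cases h5 : 𝒳.lam z (e.symm v) = z
    · have ho := v1.2.1 h5
      have hsv := e.map_target v2
      obtain ⟨e', μ, hn⟩ : ∃ e' μ, 𝒳.NF e' (e.symm v) z μ := by
        by_contra hh
        exact v5 ⟨e.symm v, ⟨ho, hh⟩, e.right_inv v2⟩
      obtain ⟨α', hα'⟩ := hF _ ho e' hn.1 hn.2.1
      obtain ⟨γ, hγ⟩ := at_nf h2 hj hn hα' e he hsv
      have h6 := (Sx.eventually_chart hsv).1 (Pm.Co.unique ho (h5 ▸ v1.1) (mul_of ho hγ))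
      have h7 := (hγ.1 e he hsv).continuousAt
      rw [e.right_inv v2] at h6 h7
      exact bd h7 h6
    · exact bd' v3.continuousAt v4.continuousAt (sub_ne_zero.2 h5))
  have te : Tendsto e (𝓝 p) (𝓝 0) := h0 ▸ (e.continuousAt hs).tendsto
  refine (div_of hp hα (comp_chart he hs (h0 ▸ hc)) ?_).hx he hs
  filter_upwards [te.eventually hac, e.eventually_left_inverse hs] with y y1 y3
  simpa only [Function.comp_apply, show e.symm (e y) = y from y3] using y1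

end Pool.Agent.P.MP_7ede32_ag.Hod
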