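import Pool.Agent.P.MP_7ede32_ag.Hod.DA

/-!
The algebraic steps, as propositions.
-/

open Set Filter Topology MeasureTheory ComplexConjugate Polynomial Matrix
open scoped ComplexOrder

namespace Pool.Agent.P.MP_7ede32_ag.Hod

open Ell (E2)

/-- A number outside a subfield is moved by an endomorphism that fixes the subfield. -/
def SAut : Prop :=
  ∀ (k : Subfield ℂ) (z : ℂ), z ∉ k → ∃ σ : ℂ →+* ℂ, (∀ c ∈ k, σ c = c) ∧ σ z ≠ z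

/-- An invariant subspace is defined over the subfield. -/
def SInvS : Prop :=
  ∀ (k : Subfield ℂ) (V : Submodule ℂ ℂ[X][X]),
    (∀ σ : ℂ →+* ℂ, (∀ c ∈ k, σ c = c) → ∀ N ∈ V, N.map (mapRingHom σ) ∈ V) →
    ∀ N ∈ V, N ∈ Submodule.span ℂ {N' | N' ∈ V ∧ ∀ j i, (N'.coeff j).coeff i ∈ k}

/-- Adjoint polynomials are defined over the field of definition of the curve. -/
def SDescV1 : Prop :=
  ∀ (k : Type) [Field k] (ι : k →+* ℂ) (P : k[X][X]) (R : k[X]) (V : Submodule ℂ ℂ[X][X]),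
    (∀ N, N ∈ V ↔ N.degree < P.degree ∧ AV (P.map (mapRingHom ι)) (R.map ι) N) →
    ∀ N ∈ V, N ∈ Submodule.span ℂ
      {N' | ∃ N₀ : k[X][X], N₀.degree < P.degree ∧ AV P R N₀ ∧ N' = N₀.map (mapRingHom ι)}

/-- A basis of adjoint polynomials over the field of elliptic functions. -/
def SDescV2 : Prop :=
  ∀ (L : PeriodPair) (𝒴 : Pl L), (∀ᶠ t in cc, ∃ V : Submodule ℂ ℂ[X][X], FiniteDimensional ℂ V ∧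
      ∀ N, N ∈ V ↔ N.degree < (sp 𝒴.P t).degree ∧ AV (sp 𝒴.P t) (sp1 𝒴.R t) N) →
    ∃ (g : ℕ) (N : Fin g → (KK L)[X][X]),
      (∀ᶠ t in cd, (∀ i, (sp (N i) t).degree < (sp 𝒴.P t).degree ∧
        AV (sp 𝒴.P t) (sp1 𝒴.R t) (sp (N i) t)) ∧ LinearIndependent ℂ fun i => sp (N i) t) ∧
      ∀ᶠ t in cc, ∀ N', N'.degree < (sp 𝒴.P t).degree → AV (sp 𝒴.P t) (sp1 𝒴.R t) N' →
        N' ∈ Submodule.span ℂ (range fun i => sp (N i) t)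

/-- Linear relations on a very general fibre spread out. -/
def SDesc : Prop :=
  ∀ (L : PeriodPair) (𝒴 : Pl L) (𝒜 : Set (E3 → ℂ)), 𝒜.Countable → (∀ F ∈ 𝒜, 𝒴.Rat F) →
    ∀ᶠ t in cc, ∀ (I J : Type) [Fintype I] (a : J → E3 → ℂ) (b : J → I → E3 → ℂ) (c : I → ℂ),
      (∀ j, a j ∈ 𝒜) → (∀ j i, b j i ∈ 𝒜) →
      (∀ j, ∀ᶠ q in 𝒴.fb t, a j q = ∑ i, c i * b j i q) →
      ∃ c' : I → KK L, ∀ j, ∀ᶠ q in 𝒴.gen, a j q = ∑ i, rv (c' i) q.1 * b j i q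

/-- The discriminant. -/
def SBez : Prop :=
  ∀ (L : PeriodPair) (P : (KK L)[X][X]), P.Monic → 0 < P.natDegree →
    (∃ᶠ t in cd, ∃ ξ, ((sp P t).map (evalRingHom ξ)).Separable) → ∃ 𝒴 : Pl L, 𝒴.P = P

/-- Periodic functions of polynomial growth are polynomials over the elliptic functions. -/
def SSymR : Prop :=
  ∀ (L : PeriodPair) (T : ℂ → Set ℂ) (e : E2 → ℂ) (c : ℝ) (a : ℕ),
    (∀ w ∈ L.lattice, ∀ t ξ, e (t + w, ξ) = e (t, ξ)) →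
    (∀ᶠ t in cd, (T t).Finite ∧ ∀ ξ ∉ T t, AnalyticAt ℂ e (t, ξ) ∧
      (∀ᶠ y in 𝓝 ((t, ξ) : E2), y.2 ∉ T y.1) ∧
      ‖e (t, ξ)‖ ≤ c * (1 + ‖L.weierstrassP t‖ + ‖ξ‖) ^ a) →
    ∃ p : (KK L)[X], ∀ᶠ t in cd, ∀ ξ ∉ T t, e (t, ξ) = (sp1 p t).eval ξ

/-- Matching of the roots over a compact set. -/
def SMatch : Prop :=
  ∀ (L : PeriodPair) (𝒴 : Pl L) (t₀ : ℂ) (K : Set ℂ), 𝒴.Rt t₀ → IsCompact K →
    (∀ ξ ∈ K, (sp1 𝒴.R t₀).eval ξ ≠ 0) → ∃ Ω, IsOpen Ω ∧ K ⊆ Ω ∧ ∀ᶠ t in 𝓝 t₀, 𝒴.Rt t ∧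
      ∀ ξ ∈ Ω, (sp1 𝒴.R t).eval ξ ≠ 0 ∧
        BijOn (fun η => 𝒴.nr (t, ξ, η)) (𝒴.rts t₀ ξ) (𝒴.rts t ξ) ∧
        (∀ η ∈ 𝒴.rts t₀ ξ, 𝒴.nr (t₀, ξ, 𝒴.nr (t, ξ, η)) = η) ∧
        ∀ η ∈ 𝒴.rts t ξ, ContinuousAt (fun y : E2 => 𝒴.nr (t₀, y.1, y.2)) (ξ, η)

/-- The Hodge metric is lower semicontinuous. -/
def SLsc : Prop :=
  ∀ (L : PeriodPair) (𝒴 : Pl L) (g : ℕ) (N : Fin g → (KK L)[X][X]) (t₀ : ℂ), 𝒴.Rt t₀ →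
    (∀ i, Rg2 (N i) t₀) → (∀ᶠ t in 𝓝 t₀, ∀ i j, Integrable fun ξ =>
      ∑ η ∈ 𝒴.rts t ξ, 𝒴.phs N i (t, ξ, η) * conj (𝒴.phs N j (t, ξ, η))) →
    (𝒴.hm N t₀).PosDef → Lsc (𝒴.hm N) t₀

end Pool.Agent.P.MP_7ede32_ag.Hod
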