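import Pool.Agent.P.MP_7ede32_ag.Hod.StX
import Pool.Agent.P.MP_7ede32_ag.Hod.StA
import Pool.Agent.P.MP_7ede32_ag.Hod.XT

/-!
The plane model exists.
-/

open Set Filter Topology Polynomial

noncomputable section

namespace Pool.Agent.P.MP_7ede32_ag.Hod

open Ell (E2)

namespace PmEP

/-- a linear form that separates finitely many vectors -/
theorem exists_sep {ι α : Type} [Fintype ι] {s : Set α} (hs : s.Finite) (v : α → ι → ℂ)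
    (hv : InjOn v s) : ∃ c : ι → ℂ, InjOn (fun p => ∑ i, c i * v p i) s := by
  classical
  have := hs.to_subtype
  obtain ⟨f, hf⟩ := Module.exists_dual_forall_apply_ne_zero (K := ℂ)
    (fun j : {j : s × s // j.1 ≠ j.2} => v j.1.1 - v j.1.2)
    fun j h => j.2 (Subtype.ext (hv j.1.1.2 j.1.2.2 (sub_eq_zero.1 h)))
  have h1 : ∀ w : ι → ℂ, f w = ∑ i, f (fun j => if i = j then 1 else 0) * w i := fun w => by
    rw [LinearMap.pi_apply_eq_sum_univ f w]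
    exact Finset.sum_congr rfl fun i _ => mul_comm _ _
  refine ⟨fun i => f fun j => if i = j then 1 else 0, fun p hp p' hp' h => by_contra fun h0 => ?_⟩
  refine hf ⟨(⟨p, hp⟩, ⟨p', hp'⟩), fun h2 => h0 (congrArg Subtype.val h2)⟩ ?_
  rw [map_sub, h1, h1]
  exact sub_eq_zero.2 h

variable {𝒳 : Sx}

theorem ev_sum (c : 𝒳.M.ι → ℂ) (F : 𝒳.M.ι → MvPolynomial 𝒳.M.ι ℂ) (p : 𝒳.X) :
    𝒳.M.ev (∑ i, MvPolynomial.C (c i) * F i) p = ∑ i, c i * 𝒳.M.ev (F i) p := by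
  simp only [Full.Mf.ev, map_sum, map_mul, MvPolynomial.eval_C]

theorem pb_sum (c : 𝒳.M.ι → ℂ) {F : 𝒳.M.ι → MvPolynomial 𝒳.M.ι ℂ}
    (h : ∀ i, 𝒳.PB (𝒳.M.ev (F i))) : 𝒳.PB (𝒳.M.ev (∑ i, MvPolynomial.C (c i) * F i)) := by
  choose b a hb using fun i => (h i).2
  refine ⟨fun p hp => Sx.an_ev _ hp, ∑ i, ‖c i‖ * |b i|, ∑ i, a i, fun p hp => ?_⟩
  rw [ev_sum, Finset.sum_mul]
  refine (norm_sum_le _ _).trans (Finset.sum_le_sum fun i _ => ?_)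
  have h1 : 1 ≤ 1 + ‖𝒳.M.f 𝒳.M.iu p‖ + ‖𝒳.x p‖ := by
    linarith [norm_nonneg (𝒳.M.f 𝒳.M.iu p), norm_nonneg (𝒳.x p)]
  rw [norm_mul, mul_assoc]
  refine mul_le_mul_of_nonneg_left ((hb i p hp).trans ?_) (norm_nonneg _)
  exact mul_le_mul (le_abs_self _) (pow_le_pow_right₀ h1 (Finset.single_le_sum
    (fun j _ => Nat.zero_le (a j)) (Finset.mem_univ i))) (by positivity) (abs_nonneg _)

theorem ev_ren (a : MvPolynomial (Fin 2) ℂ) (i : 𝒳.M.ι) {p : 𝒳.X} {z ξ : ℂ}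
    (hp : p ∈ 𝒳.Φ z ξ) :
    𝒳.M.ev (MvPolynomial.rename ![𝒳.M.iu, 𝒳.M.ix] a * MvPolynomial.X i) p =
      MvPolynomial.eval ![𝒳.L.weierstrassP z, ξ] a * 𝒳.M.f i p := by
  rw [Full.Mf.ev, map_mul, MvPolynomial.eval_X, MvPolynomial.eval_rename]
  congr 3
  funext j
  fin_cases j
  · exact (Sx.hu hp.1 hp.2.1).2
  · exact hp.2.2

/-- injectivity on the fibres of the covering is an open condition -/
theorem inj_near {z ξ : ℂ} (h : 𝒳.CovAt z ξ) {y : 𝒳.X → ℂ} (hy : ∀ p ∉ 𝒳.Z, 𝒳.S.AnAt y p)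
    (hi : InjOn y (𝒳.Φ z ξ)) :
    ∀ᶠ q in 𝓝 ((z, ξ) : E2), (𝒳.Φ q.1 q.2).Finite ∧ InjOn y (𝒳.Φ q.1 q.2) := by
  obtain ⟨hf, -, s, hs, hb⟩ := h
  have h1 : ∀ᶠ q in 𝓝 ((z, ξ) : E2), ∀ p ∈ 𝒳.Φ z ξ, ∀ p' ∈ 𝒳.Φ z ξ,
      y (s p q) = y (s p' q) → p = p' := by
    refine (eventually_all_finite hf).2 fun p hp => (eventually_all_finite hf).2 fun p' hp' => ?_
    by_cases h0 : p = p'
    · exact Eventually.of_forall fun _ _ => h0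
    · have h2 := (((hs p hp).2.2 y (hy p hp.1)).sub
        ((hs p' hp').2.2 y (hy p' hp'.1))).continuousAt.eventually_ne (y := 0) (by
          simp only [Pi.sub_apply, (hs p hp).1, (hs p' hp').1]
          exact fun h3 => h0 (hi hp hp' (sub_eq_zero.1 h3)))
      exact h2.mono fun q h3 h4 => absurd (sub_eq_zero.2 h4) h3
  filter_upwards [h1, hb] with q h2 h3
  refine ⟨h3.image_eq ▸ hf.image _, fun a ha a' ha' h4 => ?_⟩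
  obtain ⟨p, hp, rfl⟩ := h3.surjOn ha
  obtain ⟨p', hp', rfl⟩ := h3.surjOn ha'
  rw [h2 p hp p' hp' h4]

theorem on_iff {P : ℂ[X][X]} {z ξ : ℂ} {y : 𝒳.X → ℂ} (hf : (𝒳.Φ z ξ).Finite)
    (h : P.map (evalRingHom ξ) = ∏ p ∈ 𝒳.Φf z ξ, (X - C (y p))) (η : ℂ) :
    P.evalEval ξ η = 0 ↔ ∃ p ∈ 𝒳.Φ z ξ, y p = η := by
  rw [← map_evalRingHom_eval, h, eval_prod, Finset.prod_eq_zero_iff]
  simp only [Sx.mem_Φf hf, eval_sub, eval_X, eval_C, sub_eq_zero, eq_comm]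

/-- points of the fibre near a point off the polar set -/
theorem exists_path (hI : Geo.SInv) {p : 𝒳.X} {z : ℂ} (hp : p ∉ 𝒳.Z) (hz : 𝒳.Ov p z) :
    ∃ γ : ℂ → 𝒳.X, Tendsto γ (𝓝 (𝒳.x p)) (𝓝 p) ∧ ∀ᶠ ξ in 𝓝 (𝒳.x p), γ ξ ∈ 𝒳.Φ z ξ := by
  obtain ⟨e, -, hs, he⟩ := Sx.exists_tx hI hp hz
  have h1 : e p = (z, 𝒳.x p) := by rw [he p hs, hz.lam_self]
  have h2 : Tendsto (fun ξ => ((z, ξ) : E2)) (𝓝 (𝒳.x p)) (𝓝 (e p)) :=
    h1 ▸ (continuous_const.prodMk continuous_id).continuousAt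
  have h3 : Tendsto (fun ξ => e.symm (z, ξ)) (𝓝 (𝒳.x p)) (𝓝 p) :=
    (e.tendsto_symm hs).comp h2
  refine ⟨_, h3, ?_⟩
  filter_upwards [h2.eventually (e.open_target.mem_nhds (e.map_source hs)),
    h3.eventually (Sx.off_nhds hp), h3.eventually hz.lam_eq_iff] with ξ h4 h5 h6
  have h7 := (he _ (e.map_target h4)).symm.trans (e.right_inv h4)
  exact ⟨h5, h6.1 (congrArg Prod.fst h7), congrArg Prod.snd h7⟩

theorem sep_of_rt {L : PeriodPair} {𝒴 : Pl L} {t ξ : ℂ} (h : 𝒴.Rt t)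
    (h0 : (sp1 𝒴.R t).eval ξ ≠ 0) : ((sp 𝒴.P t).map (evalRingHom ξ)).Separable := by
  have h1 := congrArg (Polynomial.map (evalRingHom ξ)) h.bez
  rw [Polynomial.map_add, Polynomial.map_mul, Polynomial.map_mul, map_C, ← derivative_map,
    coe_evalRingHom, eval_pow] at h1
  refine ⟨C (((sp1 𝒴.R t).eval ξ ^ 𝒴.k)⁻¹) * (sp 𝒴.A t).map (evalRingHom ξ),
    C (((sp1 𝒴.R t).eval ξ ^ 𝒴.k)⁻¹) * (sp 𝒴.B t).map (evalRingHom ξ), ?_⟩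
  rw [mul_assoc, mul_assoc, ← mul_add, ← h1, ← C_mul, inv_mul_cancel₀ (pow_ne_zero _ h0), C_1]

end PmEP

open PmEP in
theorem sPm (h1 : SBad2) (h2 : SCovX1) (h3 : SIntg) (h4 : SSymX) (h5 : SBez) (h6 : Geo.SInv) :
    SPm := by
  intro 𝒳
  choose a ha hpb using h3 𝒳
  choose D hD hDa using fun i => Sx.exists_D 𝒳.L (ha i)
  obtain ⟨z₀, hg, hz₀, hD₀⟩ := (((h1 𝒳).and ((cd_notMem 𝒳.L 0).and
    (eventually_all.2 fun i => sp1_ne (hD i)))).filter_mono (nhdsNE_le_cd 0)).exists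
  rw [sub_zero] at hz₀
  obtain ⟨hT, hc⟩ := h2 𝒳 z₀ hg
  obtain ⟨ξ₀, hξ, hξ'⟩ := ((eventually_all.2 fun i => Pl.eval_ne (hD₀ i)).and
    hT.eventually_cofinite_notMem).exists
  have hc₀ := hc ξ₀ hξ'
  obtain ⟨c, hi⟩ := exists_sep hc₀.1 (fun p i =>
    𝒳.M.ev (MvPolynomial.rename ![𝒳.M.iu, 𝒳.M.ix] (a i) * MvPolynomial.X i) p)
    fun p hp p' hp' h => 𝒳.M.inj p hp.1 p' hp'.1 fun i => by
      have h7 := congrFun h i
      simp only [ev_ren _ _ hp, ev_ren _ _ hp', ← hDa i z₀ hz₀] at h7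
      exact mul_left_cancel₀ (hξ i) h7
  have pb := pb_sum c hpb
  set Qy := ∑ i, MvPolynomial.C (c i) *
    (MvPolynomial.rename ![𝒳.M.iu, 𝒳.M.ix] (a i) * MvPolynomial.X i)
  have hi' : InjOn (𝒳.M.ev Qy) (𝒳.Φ z₀ ξ₀) := fun p hp p' hp' h =>
    hi hp hp' (((ev_sum _ _ _).symm.trans h).trans (ev_sum _ _ _))
  obtain ⟨P, hP, hP0, hpr⟩ := (h4 𝒳 _ _ pb pb).1
  obtain ⟨𝒴, rfl⟩ := h5 𝒳.L P hP hP0 (by
    refine (Eventually.frequently ?_).filter_mono (nhdsNE_le_cd z₀)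
    have h7 : Tendsto (fun t => ((t, ξ₀) : E2)) (𝓝[≠] z₀) (𝓝 (z₀, ξ₀)) :=
      (continuous_id.prodMk continuous_const).continuousAt.tendsto.mono_left nhdsWithin_le_nhds
    filter_upwards [h7.eventually (inj_near hc₀ pb.1 hi'), h7.eventually hc₀.2.1,
      hpr.filter_mono (nhdsNE_le_cd z₀)] with t h8 h9 h10
    refine ⟨ξ₀, ?_⟩
    rw [h10 ξ₀ h9]
    exact separable_prod_X_sub_C_iff'.2 fun p hp p' hp' =>
      h8.2 ((Sx.mem_Φf h8.1).1 hp) ((Sx.mem_Φf h8.1).1 hp'))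
  refine ⟨⟨𝒴, Qy, pb, h1 𝒳, hpr, ?_, ?_⟩⟩
  · filter_upwards [h1 𝒳, hpr, rg2_cd 𝒴.P] with z h7 h8 h9 p hp hz
    obtain ⟨hT, hc⟩ := h2 𝒳 z h7
    obtain ⟨γ, hγ, hγ'⟩ := exists_path h6 hp hz
    have h10 : Tendsto (fun ξ => ev 𝒴.P (z, ξ, 𝒳.M.ev Qy (γ ξ))) (𝓝[≠] (𝒳.x p))
        (𝓝 (ev 𝒴.P (z, 𝒳.x p, 𝒳.M.ev Qy p))) :=
      ((analyticAt_ev (q := (z, 𝒳.x p, 𝒳.M.ev Qy p)) h9).continuousAt.tendsto.comp
        (tendsto_const_nhds.prodMk_nhds (tendsto_id.prodMk_nhds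
          ((pb.1 p hp).continuousAt.tendsto.comp hγ)))).mono_left nhdsWithin_le_nhds
    refine tendsto_nhds_unique h10 (tendsto_const_nhds.congr' ?_)
    filter_upwards [hT.eventually_cofinite_notMem.filter_mono (nhdsNE_le_cofinite _),
      mem_nhdsWithin_of_mem_nhds hγ'] with ξ h11 h12
    exact ((on_iff (hc ξ h11).1 (h8 ξ h11) _).2 ⟨_, h12, rfl⟩).symm
  · filter_upwards [h1 𝒳, hpr, 𝒴.rt_cd] with z h7 h8 h9
    obtain ⟨hT, hc⟩ := h2 𝒳 z h7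
    filter_upwards [hT.eventually_cofinite_notMem,
      Pl.eval_ne (monic_sp1 (t := z) 𝒴.monR).1.ne_zero] with ξ h10 h11
    have hf := (hc ξ h10).1
    have h12 := sep_of_rt h9 h11
    rw [h8 ξ h10] at h12
    exact ⟨fun p hp => (on_iff hf (h8 ξ h10) _).2 ⟨p, hp, rfl⟩,
      fun p hp p' hp' => separable_prod_X_sub_C_iff'.1 h12 p ((Sx.mem_Φf hf).2 hp) p'
        ((Sx.mem_Φf hf).2 hp'), fun η hη => (on_iff hf (h8 ξ h10) η).1 hη⟩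

end Pool.Agent.P.MP_7ede32_ag.Hod
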