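import Pool.Agent.P.MP_7ede32_ag.Hod.XT
import Pool.Agent.P.MP_7ede32_ag.Geo.Inv
import Pool.Agent.P.MP_7ede32_ag.Full.Pch

/-!
Toolbox: generic points of the surface.
-/

open Set Filter Topology Polynomial Matrix Bornology Metric

noncomputable section

namespace Pool.Agent.P.MP_7ede32_ag.Hod

open Geo (Sf0 wedge D)
open Full (Mf GT Nc PCh Sec)
open Ell (E2 jac)

namespace Pm

variable {𝒳 : Sx} {Q : Pm 𝒳} {p y : 𝒳.X} {z w : ℂ} {e : Ch 𝒳.X} {μ : ℕ} {r : 𝒳.X → Prop}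
  {T : E3 → Prop}

theorem an_y (h : p ∉ 𝒳.Z) : 𝒳.S.AnAt Q.y p := Sx.an_ev _ h

theorem jm_self (h : 𝒳.Ov p z) : Q.jm z p = (z, 𝒳.x p, Q.y p) := by
  rw [jm, h.lam_self]

theorem jm_add (hw : w ∈ 𝒳.L.lattice) (y : 𝒳.X) :
    Q.jm (z + w) y = (𝒳.lam z y + w, 𝒳.x y, Q.y y) := by
  rw [jm, Sx.lam_add hw]

theorem jm_jm (h : 𝒳.Ov p z) : ∀ᶠ y in 𝓝 p, ∀ᶠ y' in 𝓝 y, Q.jm (𝒳.lam z y) y' = Q.jm z y' := by
  filter_upwards [h.lam_lam] with y hy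
  filter_upwards [hy] with y' hy'
  rw [jm, jm, hy']

theorem an_jm (h : 𝒳.Ov p z) : ∀ᶠ y in 𝓝 p, y ∉ 𝒳.Z → 𝒳.S.AnAt (Q.jm z) y := by
  filter_upwards [h.an_lam.eventually] with y hy hZ e he hs
  exact (hy e he hs).prod ((Sx.an_x hZ e he hs).prod (an_y hZ e he hs))

theorem nb_le : Q.Nb p z ≤ 𝓝 p := by
  exact inf_le_left.trans nhdsWithin_le_nhds

theorem nb_off : ∀ᶠ y in Q.Nb p z, y ∉ 𝒳.Z := by
  exact Eventually.filter_mono inf_le_left eventually_mem_nhdsWithin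

theorem nb_gen (h : ∀ᶠ q in Q.𝒴.gen, T q) : ∀ᶠ y in Q.Nb p z, T (Q.jm z y) := by
  exact Eventually.filter_mono inf_le_right (tendsto_comap.eventually h)

theorem NTP.nb_iff0 : (∀ᶠ y in Q.Nb p z, r y) ↔ ∃ T : E3 → Prop, (∀ᶠ q in Q.𝒴.gen, T q) ∧
    ∀ᶠ y in 𝓝 p, y ∉ 𝒳.Z → T (Q.jm z y) → r y := by
  constructor
  · intro h
    obtain ⟨s, hs, t, ⟨T, hT, ht⟩, h⟩ := eventually_inf.1 h
    refine ⟨fun q => q ∈ T, hT, ?_⟩
    filter_upwards [eventually_nhdsWithin_iff.1 hs] with y h1 h2 h3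
    exact h y ⟨h1 h2, ht h3⟩
  · rintro ⟨T, hT, h⟩
    filter_upwards [nb_gen hT, nb_off, h.filter_mono nb_le] with y h1 h2 h3
    exact h3 h2 h1

theorem NTP.nb_iff (hp : 𝒳.Ov p z) : (∀ᶠ y in Q.Nb p z, r y) ↔
    ∃ (D : (KK 𝒳.L)[X]) (G : ℂ → Prop), D ≠ 0 ∧ (∀ᶠ t in cd, G t) ∧
      ∀ᶠ y in 𝓝 p, y ∉ 𝒳.Z → G (𝒳.lam z y) → ev1 D (Q.jm z y) ≠ 0 → r y := by
  constructor
  · intro h
    obtain ⟨T, hT, h⟩ := NTP.nb_iff0.1 h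
    obtain ⟨D, hD, hT⟩ := Pl.eventually_gen.1 hT
    refine ⟨D, _, hD, hT.and Q.on, ?_⟩
    filter_upwards [h, hp.lam_ov] with y h1 h2 h3 h4 h5
    exact h1 h3 (h4.1 _ _ (h4.2 y h3 h2) h5)
  · rintro ⟨D, G, hD, hG, h⟩
    refine NTP.nb_iff0.2 ⟨_, (Pl.gen_fst hG).and (Pl.gen_ne hD), ?_⟩
    filter_upwards [h] with y h1 h2 h3
    exact h1 h2 h3.1 h3.2

theorem NTP.tendsto_lam (hp : 𝒳.Ov p z) : Tendsto (𝒳.lam z) (Q.Nb p z) (𝓝[≠] z) :=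
  tendsto_nhdsWithin_iff.2 ⟨hp.tendsto_lam.mono_left nb_le, nb_gen (Pl.gen_fst (cd_ne z))⟩

theorem NTP.frequently_plane {D : (KK 𝒳.L)[X]} {G : ℂ → Prop} (hD : D ≠ 0)
    (hG : ∀ᶠ t in cd, G t) (v : E2) : ∃ᶠ u in 𝓝 v, G u.1 ∧ (sp1 D u.1).eval u.2 ≠ 0 := by
  intro h
  rw [nhds_prod_eq] at h
  obtain ⟨pa, ha, pb, hb, h⟩ := eventually_prod_iff.1 h
  obtain ⟨t, ⟨h1, h2⟩, h3⟩ := ((Full.cd_iff.1 (hG.and (sp1_ne hD)) v.1).and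
    (ha.filter_mono nhdsWithin_le_nhds)).exists
  obtain ⟨ξ, h4, h5⟩ := (((Pl.eval_ne h2).filter_mono (nhdsNE_le_cofinite v.2)).and
    (hb.filter_mono nhdsWithin_le_nhds)).exists
  exact h h3 h5 ⟨h1, h4⟩

theorem NTP.dense_gen (hp : 𝒳.Ov p z) {D : (KK 𝒳.L)[X]} {G : ℂ → Prop} (hD : D ≠ 0)
    (hG : ∀ᶠ t in cd, G t) : ∀ᶠ y in 𝓝 p, ∃ᶠ y' in 𝓝 y,
      y' ∉ 𝒳.Z ∧ G (𝒳.lam z y') ∧ ev1 D (Q.jm z y') ≠ 0 := by
  filter_upwards [(hp.lam_ov.and hp.lam_lam).eventually_nhds] with y hy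
  refine frequently_frequently_nhds.1 (((Sx.dense_off y).and_eventually hy).mono ?_)
  rintro a ⟨h1, h2, h3⟩
  obtain ⟨e, -, hs, he⟩ := Sx.exists_tx Geo.sinv h1 h2
  have h4 := NTP.frequently_plane hD hG (e a)
  rw [← (Sx.map_chart hs).1, frequently_map] at h4
  refine (h4.and_eventually ((Sx.off_nhds h1).and
    (h3.and (e.open_source.mem_nhds hs)))).mono ?_
  rintro b ⟨h5, h6, h7, h8⟩
  rw [he b h8, h7] at h5
  exact ⟨h6, h5⟩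

theorem nb_gz (hp : 𝒳.Ov p z) (h : ∀ᶠ q in Q.𝒴.gz z, T q) :
    ∀ᶠ y in Q.Nb p z, T (Q.jm z y) := by
  have : Tendsto (Q.jm z) (Q.Nb p z) (Q.𝒴.gz z) :=
    tendsto_inf.2 ⟨tendsto_comap.mono_left inf_le_right,
      tendsto_comap_iff.2 (NTP.tendsto_lam hp)⟩
  exact this.eventually h

theorem nb_fst (hp : 𝒳.Ov p z) {s : ℂ → Prop} (h : ∀ᶠ t in 𝓝[≠] z, s t) :
    ∀ᶠ y in Q.Nb p z, s (𝒳.lam z y) := by
  exact (NTP.tendsto_lam hp).eventually h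

theorem nb_nhds (hp : 𝒳.Ov p z) (h : ∀ᶠ y in Q.Nb p z, r y) :
    ∀ᶠ y in Q.Nb p z, ∀ᶠ y' in 𝓝 y, r y' := by
  obtain ⟨D, G, hD, hG, h⟩ := (NTP.nb_iff hp).1 h
  refine (NTP.nb_iff hp).2 ⟨D, _, hD, (cd_nhds hG).and (rg1_cd D), ?_⟩
  filter_upwards [h.eventually_nhds, hp.an_lam.eventually, an_jm (Q := Q) hp]
    with y h1 h2 h3 h4 h5 h6
  have h7 : ContinuousAt (fun y => ev1 D (Q.jm z y)) y :=
    (analyticAt_ev1 (q := Q.jm z y) h5.2).continuousAt.comp (h3 h4).continuousAt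
  filter_upwards [h1, Sx.off_nhds h4, h2.continuousAt.eventually h5.1, h7.eventually_ne h6]
    with y' a1 a2 a3 a4
  exact a1 a2 a3 a4

theorem nb_dense (hp : 𝒳.Ov p z) (h : ∀ᶠ y in Q.Nb p z, r y) :
    ∀ᶠ y in 𝓝 p, ∃ᶠ y' in 𝓝 y, r y' := by
  obtain ⟨D, G, hD, hG, h⟩ := (NTP.nb_iff hp).1 h
  filter_upwards [h.eventually_nhds, NTP.dense_gen (Q := Q) hp hD hG] with y h1 h2
  exact (h2.and_eventually h1).mono fun y' a => a.2 a.1.1 a.1.2.1 a.1.2.2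

theorem nb_neBot (hp : 𝒳.Ov p z) : (Q.Nb p z).NeBot := by
  refine ⟨fun h => ?_⟩
  have h1 : ∀ᶠ y in Q.Nb p z, False := h ▸ eventually_bot
  exact (nb_dense hp h1).self_of_nhds.exists.elim fun _ h => h

theorem nb_frequently (hp : 𝒳.Ov p z) (h : ∀ᶠ y in Q.Nb p z, r y) : ∃ᶠ y in 𝓝 p, r y := by
  exact (nb_dense hp h).self_of_nhds

theorem nb_loc (hp : 𝒳.Ov p z) (h : ∀ᶠ y in Q.Nb p z, r y) :
    ∀ᶠ y in 𝓝 p, ∀ᶠ y' in Q.Nb y (𝒳.lam z y), r y' := by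
  obtain ⟨T, hT, h⟩ := NTP.nb_iff0.1 h
  filter_upwards [h.eventually_nhds, jm_jm (Q := Q) hp] with y h1 h2
  refine NTP.nb_iff0.2 ⟨T, hT, ?_⟩
  filter_upwards [h1, h2] with y' a1 a2 a3 a4
  exact a1 a3 (a2 ▸ a4)

theorem nb_add (hw : w ∈ 𝒳.L.lattice) : Q.Nb p (z + w) = Q.Nb p z := by
  have key : ∀ z w : ℂ, w ∈ 𝒳.L.lattice → Q.Nb p z ≤ Q.Nb p (z + w) := fun z w hw => by
    refine inf_le_inf_left _ (tendsto_iff_comap.1 ?_)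
    exact ((Pl.gen_shift hw).comp tendsto_comap).congr fun y => (jm_add hw y).symm
  refine le_antisymm ?_ (key z w hw)
  have := key (z + w) (-w) (neg_mem hw)
  rwa [add_neg_cancel_right] at this

/-- an identity between continuous functions extends from the generic points -/
theorem nb_eq (hp : 𝒳.Ov p z) {F G : 𝒳.X → ℂ} (h : ∀ᶠ y in Q.Nb p z, F y = G y) :
    ∀ᶠ y in 𝓝 p, ContinuousAt F y → ContinuousAt G y → F y = G y := by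
  filter_upwards [nb_dense hp h] with y h1 h2 h3
  exact tendsto_nhds_unique_of_frequently_eq h2 h3 h1

theorem nb_le_of (hp : 𝒳.Ov p z) {F G : 𝒳.X → ℝ} (h : ∀ᶠ y in Q.Nb p z, F y ≤ G y) :
    ∀ᶠ y in 𝓝 p, ContinuousAt F y → ContinuousAt G y → F y ≤ G y := by
  filter_upwards [nb_dense hp h] with y h1 h2 h3
  by_contra h4
  obtain ⟨a, h5, h6⟩ := (h1.and_eventually (h3.eventually_lt h2 (not_le.1 h4))).exists
  exact absurd h5 (not_le.2 h6)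

/-- at a generic point the map to the plane model, read in a chart, is a parametrisation -/
theorem nb_par (hp : 𝒳.Ov p z) (he : e ∈ 𝒳.S.A) (hs : p ∈ e.source) : ∀ᶠ y in Q.Nb p z,
    y ∈ e.source ∧ Q.𝒴.Ok (Q.jm z y) ∧ AnalyticAt ℂ (Q.jm z ∘ e.symm) (e y) ∧
      ∀ᶠ v in 𝓝 (e y), Q.𝒴.On (Q.jm z (e.symm v)) := by
  have h1 : ∀ᶠ y in Q.Nb p z, Q.𝒴.Ok (Q.jm z y) := nb_gen Q.𝒴.gen_ok
  filter_upwards [h1, nb_nhds hp h1, nb_off, (an_jm (Q := Q) hp).filter_mono nb_le,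
    nb_le (e.open_source.mem_nhds hs)] with y a1 a2 a3 a4 a5
  exact ⟨a5, a1, a4 a3 e he a5, ((Sx.eventually_chart a5).1 a2).mono fun v hv => hv.2.1⟩

/-- the chain rule in a normal form chart -/
theorem nb_chain (h : 𝒳.NF e p z μ) : ∀ᶠ y in Q.Nb p z, ∀ F : E3 → ℂ,
    DifferentiableAt ℂ F (Q.jm z y) →
    D (fun y => F (Q.jm z y)) e y (0, 1) = D 𝒳.x e y (0, 1) * Q.𝒴.dX F (Q.jm z y) ∧
    D (fun y => F (Q.jm z y)) e y (1, 0) = μ * (e y).1 ^ (μ - 1) * Q.𝒴.dT F (Q.jm z y) +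
      D 𝒳.x e y (1, 0) * Q.𝒴.dX F (Q.jm z y) := by
  obtain ⟨he, hs, -, hp, -, hl⟩ := id h
  filter_upwards [nb_par (Q := Q) hp he hs, hl.eventually_nhds.filter_mono nb_le]
    with y ⟨a1, a2, a3, a4⟩ a5 F hF
  have e0 : (Q.jm z ∘ e.symm) (e y) = Q.jm z y := by rw [Function.comp_apply, e.left_inv a1]
  have hτ : HasDerivAt (fun u : ℂ => z + u ^ μ) (μ * (e y).1 ^ (μ - 1)) (e y).1 :=
    (hasDerivAt_pow μ (e y).1).const_add z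
  have e1 : (fun v => ((Q.jm z ∘ e.symm) v).1) =ᶠ[𝓝 (e y)]
      fun v => (fun u : ℂ => z + u ^ μ) v.1 := by
    filter_upwards [(Sx.eventually_chart a1).1 a5, e.open_target.mem_nhds (e.map_source a1)]
      with v b1 b2
    rw [e.right_inv b2] at b1
    exact b1
  have e2 : du (fun v => ((Q.jm z ∘ e.symm) v).1) (e y) = μ * (e y).1 ^ (μ - 1) :=
    (BrUP.du_congr e1).trans ((BrUP.du_fst hτ.differentiableAt).trans hτ.deriv)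
  have e3 : dw (fun v => ((Q.jm z ∘ e.symm) v).1) (e y) = 0 :=
    (BrUP.dw_congr e1).trans (BrUP.dw_fst hτ.differentiableAt)
  have c := fun v => Pl.Ok.chain (F := F) (e0 ▸ a2) a3.differentiableAt a4 (e0 ▸ hF) v
  rw [e0] at c
  constructor
  · have c1 : D (fun y => F (Q.jm z y)) e y (0, 1) =
        dw (fun v => ((Q.jm z ∘ e.symm) v).1) (e y) * Q.𝒴.dT F (Q.jm z y) +
        D 𝒳.x e y (0, 1) * Q.𝒴.dX F (Q.jm z y) := c (0, 1)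
    rw [c1, e3, zero_mul, zero_add]
  · have c1 : D (fun y => F (Q.jm z y)) e y (1, 0) =
        du (fun v => ((Q.jm z ∘ e.symm) v).1) (e y) * Q.𝒴.dT F (Q.jm z y) +
        D 𝒳.x e y (1, 0) * Q.𝒴.dX F (Q.jm z y) := c (1, 0)
    rw [c1, e2]

theorem NTP.slice_aux (Q : Pm 𝒳) (h : 𝒳.NF e p z μ) : ∀ᶠ a in 𝓝 (0 : E2),
    (μ : ℂ) * a.1 ^ (μ - 1) ≠ 0 → 𝒳.GdF (z + a.1 ^ μ) →
    (∀ y ∉ 𝒳.Z, 𝒳.Ov y (z + a.1 ^ μ) → Q.𝒴.On (z + a.1 ^ μ, 𝒳.x y, Q.y y)) →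
    (∀ᶠ v in 𝓝[≠] a.2, e.symm (a.1, v) ∉ 𝒳.Z) ∧
      Tendsto (fun v => Q.jm z (e.symm (a.1, v))) (𝓝[≠] a.2) (Q.𝒴.fb (z + a.1 ^ μ)) := by
  have he := h.1
  filter_upwards [(h.lam_symm.and (h.eventually.1 h.W_eq)).eventually_nhds] with a ha h0 hg ho
  have hj : ∀ v : ℂ, HasDerivAt (fun v : ℂ => ((a.1, v) : E2)) (0, 1) v := fun v =>
    (hasDerivAt_const v a.1).prodMk (hasDerivAt_id v)
  have ha' := ((hj a.2).continuousAt.tendsto.eventually (p := fun b => _) ha)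
  have hat : a ∈ e.target := ha.self_of_nhds.1.1
  have hc : ∀ v, ((a.1, v) : E2) ∈ e.target → ContinuousAt (fun v => e.symm (a.1, v)) v :=
    fun v hv => (e.continuousAt_symm hv).comp (f := fun v : ℂ => ((a.1, v) : E2))
      (hj v).continuousAt
  have ht : Tendsto (fun v => e.symm (a.1, v)) (𝓝[≠] a.2) (𝓝[≠] (e.symm a)) := by
    refine tendsto_nhdsWithin_iff.2 ⟨(hc a.2 hat).tendsto.mono_left nhdsWithin_le_nhds, ?_⟩
    filter_upwards [ha'.filter_mono nhdsWithin_le_nhds, self_mem_nhdsWithin] with v h1 h2 h3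
    exact h2 (congrArg Prod.snd (e.symm.injOn h1.1.1 hat h3))
  have hZ : ∀ᶠ v in 𝓝[≠] a.2, e.symm (a.1, v) ∉ 𝒳.Z := by
    filter_upwards [ht.eventually (hg _ ha.self_of_nhds.1.2.2).2.1,
      ha'.filter_mono nhdsWithin_le_nhds] with v h1 h2
    exact h1 h2.1.2.2
  refine ⟨hZ, Pl.tendsto_fb ?_ ?_ fun c hc' => ?_⟩
  · filter_upwards [hZ, ha'.filter_mono nhdsWithin_le_nhds] with v h1 h2
    refine ⟨h2.1.2.1, ?_⟩
    rw [jm, h2.1.2.1]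
    exact ho _ h1 h2.1.2.2
  · refine 𝒳.M.mero 𝒳.M.ix (h := fun v => e.symm (a.1, v)) ?_
    filter_upwards [ha'.eventually_nhds] with v h1
    have h2 := h1.self_of_nhds.1.1
    refine Sf0.holAt_of_chart (hc v h2) he (e.map_target h2) ?_
    refine (hj v).differentiableAt.congr_of_eventuallyEq ?_
    filter_upwards [h1] with v' h3
    exact e.right_inv h3.1.1
  · obtain ⟨v, ⟨h1, h2⟩, h3⟩ := ((hZ.and (eventually_eventually_nhdsWithin.2 hc')).and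
      ((ha'.filter_mono nhdsWithin_le_nhds).and self_mem_nhdsWithin)).exists
    have h4 : ∀ᶠ v' in 𝓝 v, 𝒳.x (e.symm (a.1, v')) = c := by
      rwa [nhdsWithin_eq_nhds.2 (isOpen_compl_singleton.mem_nhds h3.2)] at h2
    have h5 := e.map_target h3.1.1.1
    have h6 := e.right_inv h3.1.1.1
    have h7 : AnalyticAt ℂ (𝒳.x ∘ e.symm) (a.1, v) := by
      have := Sx.an_x h1 e he h5
      rwa [h6] at this
    have h8 : dw (𝒳.x ∘ e.symm) (a.1, v) = 0 :=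
      BrUP.dw_eq h7.differentiableAt ((hasDerivAt_const v c).congr_of_eventuallyEq h4)
    apply Sx.W_ne h1 he h5
    rw [h3.1.2, (Sx.D_eq h5).2, h6, h8, mul_zero]

/-- slices of a normal form chart -/
theorem slice (h : 𝒳.NF e p z μ) (hr : ∀ᶠ y in Q.Nb p z, r y) : ∃ ρ > 0, ∀ᶠ u in 𝓝[≠] (0 : ℂ),
    ∀ v₀ ∈ ball (0 : ℂ) ρ, (∀ᶠ v in 𝓝[≠] v₀, r (e.symm (u, v))) ∧
      Tendsto (fun v => Q.jm z (e.symm (u, v))) (𝓝[≠] v₀) (Q.𝒴.fb (z + u ^ μ)) := by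
  obtain ⟨-, -, -, hp, hμ, -⟩ := id h
  obtain ⟨D, G, hD, hG, hr⟩ := (NTP.nb_iff hp).1 hr
  obtain ⟨ρ, hρ, hb⟩ := Metric.eventually_nhds_iff_ball.1 ((NTP.slice_aux Q h).and
    (h.lam_symm.and (h.eventually.1 hr)).eventually_nhds)
  have ht : Tendsto (fun u : ℂ => z + u ^ μ) (𝓝[≠] 0) (𝓝[≠] z) := by
    refine tendsto_nhdsWithin_iff.2 ⟨Tendsto.mono_left ?_ nhdsWithin_le_nhds, ?_⟩
    · have : Continuous fun u : ℂ => z + u ^ μ := by fun_prop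
      simpa [hμ.ne'] using this.tendsto 0
    · filter_upwards [self_mem_nhdsWithin] with u hu h1
      exact pow_ne_zero μ hu (add_eq_left.1 h1)
  refine ⟨ρ, hρ, ?_⟩
  filter_upwards [ht.eventually (Full.cd_iff.1 ((hG.and (sp1_ne hD)).and (Q.gd.and Q.on)) z),
    self_mem_nhdsWithin, mem_nhdsWithin_of_mem_nhds (ball_mem_nhds (0 : ℂ) hρ)]
    with u h1 h2 h3 v₀ hv₀
  have h4 : ((u, v₀) : E2) ∈ ball (0 : E2) ρ := by
    rw [← ball_prod_same]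
    exact ⟨h3, hv₀⟩
  obtain ⟨h5, h6⟩ := hb _ h4
  obtain ⟨h7, h8⟩ := h5 (mul_ne_zero (Nat.cast_ne_zero.2 hμ.ne') (pow_ne_zero _ h2))
    h1.2.1 h1.2.2
  refine ⟨?_, h8⟩
  have hj : Tendsto (fun v : ℂ => ((u, v) : E2)) (𝓝[≠] v₀) (𝓝 (u, v₀)) :=
    (Continuous.prodMk_right u).continuousAt.tendsto.mono_left nhdsWithin_le_nhds
  filter_upwards [h7, h8.eventually (Pl.fb_ne h1.1.2), hj.eventually h6] with v a1 a2 a3
  refine a3.2 a1 (a3.1.2.1 ▸ h1.1.1) ?_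
  have a4 : (Q.jm z (e.symm (u, v))).1 = z + u ^ μ := a3.1.2.1
  rwa [ev1, a4]

/-- generic points of a fibre -/
theorem fib_fb (Q : Pm 𝒳) : ∀ᶠ z in cd, ∀ T : E3 → Prop, (∀ᶠ q in Q.𝒴.fb z, T q) → ∀ p,
    𝒳.Ov p z → ∀ᶠ y in 𝓝[≠] p, 𝒳.Ov y z → y ∉ 𝒳.Z ∧ T (Q.jm z y) := by
  filter_upwards [Q.gd, Q.on] with z hg ho T hT p hp
  obtain ⟨e, he, h0⟩ := (Full.sPch Geo.sinv 𝒳.X 𝒳.S).1 p (hg p hp).1
  have h := Sx.nf_of_pch he h0 hp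
  have hz : z + (0 : E2).1 ^ 1 = z := by simp
  obtain ⟨h1, h2⟩ := (NTP.slice_aux Q h).self_of_nhds (by simp) (hz.symm ▸ hg) (hz.symm ▸ ho)
  rw [hz] at h2
  have h3 := eventually_nhdsWithin_iff.1 (h1.and (h2.eventually hT))
  have hs := h.2.1
  have ht : Tendsto (fun y => (e y).2) (𝓝 p) (𝓝 (0 : E2).2) := by
    rw [← h0]
    exact continuousAt_snd.comp (e.continuousAt hs)
  refine eventually_nhdsWithin_iff.2 ?_
  filter_upwards [ht.eventually h3, h.2.2.2.2.2, e.open_source.mem_nhds hs] with y a1 a2 a3 a4 a5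
  have a6 : (e y).1 = 0 := by
    rw [a5.lam_self, pow_one] at a2
    exact add_eq_left.1 a2.symm
  have a7 : ((0 : E2).1, (e y).2) = e y := Prod.ext a6.symm rfl
  rw [a7, e.left_inv a3] at a1
  refine a1 fun a8 => a4 (e.injOn a3 hs ?_)
  rw [h0]
  exact Prod.ext a6 a8

/-- generic points of almost all fibres -/
theorem fib (h : ∀ᶠ q in Q.𝒴.gen, T q) : ∀ᶠ z in cd, ∀ p, 𝒳.Ov p z → ∀ᶠ y in 𝓝[≠] p,
    𝒳.Ov y z → y ∉ 𝒳.Z ∧ ∀ᶠ y' in 𝓝 y, T (Q.jm z y') := by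
  filter_upwards [fib_fb Q, Pl.gen_fb (Pl.gen_nhds h), cd_nhds Q.on] with z h1 h2 h3 p hp
  filter_upwards [h1 _ h2 p hp, (((hp.tendsto_lam.eventually h3).and hp.lam_ov).eventually_nhds.and
    (an_jm (Q := Q) hp)).filter_mono nhdsWithin_le_nhds] with y a1 a2 a3
  obtain ⟨a4, a5⟩ := a1 a3
  refine ⟨a4, ?_⟩
  filter_upwards [(a2.2 a4).continuousAt.eventually a5, a2.1, Sx.off_nhds a4] with y' b1 b2 b3
  exact b1 (b2.1 y' b3 b2.2)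

end Pm

end Pool.Agent.P.MP_7ede32_ag.Hod
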