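import Pool.Agent.P.MP_7ede32_ag.Hod.StX
import Pool.Agent.P.MP_7ede32_ag.Hod.NT

/-!
Rational functions of the plane model are meromorphic on the surface.
-/

open Set Filter Topology Polynomial Matrix Bornology Metric

noncomputable section

namespace Pool.Agent.P.MP_7ede32_ag.Hod

open Geo (Sf0 wedge D)
open Full (Mf GT Nc PCh Sec)
open Ell (E2 jac)

namespace QuotP

variable {𝒳 : Sx} {p : 𝒳.X} {z : ℂ} {e : Ch 𝒳.X} {g : Prop} {u u' : 𝒳.X → ℂ}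

/-- `u` is a quotient of two analytic functions, with control of the denominator -/
def Mq (𝒳 : Sx) (p : 𝒳.X) (z : ℂ) (g : Prop) (u : 𝒳.X → ℂ) : Prop :=
  ∃ a c : 𝒳.X → ℂ, 𝒳.S.AnAt a p ∧ 𝒳.S.AnAt c p ∧ ∀ᶠ y in 𝓝 p, y ∉ 𝒳.Z →
    (g ∨ 𝒳.lam z y ≠ z) → c y ≠ 0 ∧ u y * c y = a y

theorem an_mul {F G : 𝒳.X → ℂ} (h : 𝒳.S.AnAt F p) (h' : 𝒳.S.AnAt G p) :
    𝒳.S.AnAt (fun y => F y * G y) p := fun e he hy => (h e he hy).mul (h' e he hy)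

theorem an_add {F G : 𝒳.X → ℂ} (h : 𝒳.S.AnAt F p) (h' : 𝒳.S.AnAt G p) :
    𝒳.S.AnAt (fun y => F y + G y) p := fun e he hy => (h e he hy).add (h' e he hy)

theorem an_sub {F G : 𝒳.X → ℂ} (h : 𝒳.S.AnAt F p) (h' : 𝒳.S.AnAt G p) :
    𝒳.S.AnAt (fun y => F y - G y) p := fun e he hy => (h e he hy).sub (h' e he hy)

theorem an_pow {F : 𝒳.X → ℂ} (h : 𝒳.S.AnAt F p) (n : ℕ) :
    𝒳.S.AnAt (fun y => F y ^ n) p := fun e he hy => (h e he hy).pow n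

theorem an_const (c : ℂ) : 𝒳.S.AnAt (fun _ => c) p := fun _ _ _ => analyticAt_const

theorem an_comp (hp : 𝒳.Ov p z) {f : ℂ → ℂ} (hf : AnalyticAt ℂ f z) :
    𝒳.S.AnAt (fun y => f (𝒳.lam z y)) p := fun e he hy =>
  AnalyticAt.comp_of_eq (g := f) (f := 𝒳.lam z ∘ e.symm) hf (hp.an_lam e he hy)
    (by simp [e.left_inv hy, hp.lam_self])

theorem an_D {F : 𝒳.X → ℂ} (h : 𝒳.S.AnAt F p) (he : e ∈ 𝒳.S.A) (hp : p ∈ e.source) (v : E2) :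
    𝒳.S.AnAt (fun y => D F e y v) p := by
  refine Sf0.anAt_of_chart he hp ?_
  have h1 : AnalyticAt ℂ (fun w => fderiv ℂ (F ∘ e.symm) w v) (e p) :=
    ((ContinuousLinearMap.apply ℂ ℂ v).analyticAt _).comp (h e he hp).fderiv
  refine h1.congr ?_
  filter_upwards [e.open_target.mem_nhds (e.map_source hp)] with w hw
  simp [D, e.right_inv hw]

theorem Mq.of_an (h : 𝒳.S.AnAt u p) : Mq 𝒳 p z g u :=
  ⟨u, fun _ => 1, h, an_const 1, Eventually.of_forall fun _ _ _ => ⟨one_ne_zero, mul_one _⟩⟩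

theorem Mq.mul (h : Mq 𝒳 p z g u) (h' : Mq 𝒳 p z g u') : Mq 𝒳 p z g fun y => u y * u' y := by
  obtain ⟨a, c, h1, h2, h3⟩ := h
  obtain ⟨a', c', h4, h5, h6⟩ := h'
  refine ⟨_, _, an_mul h1 h4, an_mul h2 h5, ?_⟩
  filter_upwards [h3, h6] with y a1 a2 a3 a4
  refine ⟨mul_ne_zero (a1 a3 a4).1 (a2 a3 a4).1, ?_⟩
  rw [← (a1 a3 a4).2, ← (a2 a3 a4).2]
  ring

theorem Mq.add (h : Mq 𝒳 p z g u) (h' : Mq 𝒳 p z g u') : Mq 𝒳 p z g fun y => u y + u' y := by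
  obtain ⟨a, c, h1, h2, h3⟩ := h
  obtain ⟨a', c', h4, h5, h6⟩ := h'
  refine ⟨_, _, an_add (an_mul h1 h5) (an_mul h4 h2), an_mul h2 h5, ?_⟩
  filter_upwards [h3, h6] with y a1 a2 a3 a4
  refine ⟨mul_ne_zero (a1 a3 a4).1 (a2 a3 a4).1, ?_⟩
  rw [← (a1 a3 a4).2, ← (a2 a3 a4).2]
  ring

theorem Mq.pow (h : Mq 𝒳 p z g u) (n : ℕ) : Mq 𝒳 p z g fun y => u y ^ n := by
  obtain ⟨a, c, h1, h2, h3⟩ := h
  refine ⟨_, _, an_pow h1 n, an_pow h2 n, ?_⟩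
  filter_upwards [h3] with y a1 a3 a4
  exact ⟨pow_ne_zero n (a1 a3 a4).1, by rw [← (a1 a3 a4).2, mul_pow]⟩

theorem Mq.sum {ι : Type*} {s : Finset ι} {f : ι → 𝒳.X → ℂ} (h : ∀ i ∈ s, Mq 𝒳 p z g (f i)) :
    Mq 𝒳 p z g fun y => ∑ i ∈ s, f i y := by
  classical
  induction s using Finset.induction_on with
  | empty => simpa using Mq.of_an (an_const 0)
  | insert i s hi ih =>
    simp only [Finset.sum_insert hi]
    exact (h i (Finset.mem_insert_self i s)).add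
      (ih fun j hj => h j (Finset.mem_insert_of_mem hj))

theorem mq_rv (hp : 𝒳.Ov p z) {c : KK 𝒳.L} (h : g → Rg c z) :
    Mq 𝒳 p z g fun y => rv c (𝒳.lam z y) := by
  by_cases hg : g
  · exact Mq.of_an (an_comp hp (h hg).an)
  obtain ⟨n, hn⟩ := mer_rv c z
  refine ⟨_, fun y => (𝒳.lam z y - z) ^ n, an_comp hp hn,
    an_pow (an_sub hp.an_lam (an_const z)) n, Eventually.of_forall fun y _ a2 => ⟨?_, ?_⟩⟩
  · exact pow_ne_zero n (sub_ne_zero.2 (a2.resolve_left hg))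
  · simp [mul_comm]

theorem mq_x : Mq 𝒳 p z g 𝒳.x := by
  have h1 := 𝒳.M.an p p (𝒳.M.mem_U p)
  refine ⟨_, _, h1.2 𝒳.M.ix, h1.1, ?_⟩
  filter_upwards [(𝒳.M.U_open p).mem_nhds (𝒳.M.mem_U p)] with y a1 a2 _
  have h2 : 𝒳.M.den p y ≠ 0 := fun h => a2 ((𝒳.M.Z_iff p y a1).2 h)
  exact ⟨h2, by rw [Sx.x, 𝒳.M.f_eq p _ y a1, div_mul_cancel₀ _ h2]⟩

theorem mq_ev (h : Full.SHom) (P : MvPolynomial 𝒳.M.ι ℂ) : Mq 𝒳 p z g (𝒳.M.ev P) := by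
  obtain ⟨d, F, hF⟩ := h 𝒳.X 𝒳.S 𝒳.L 𝒳.M.toMf P
  have h1 := 𝒳.M.an p p (𝒳.M.mem_U p)
  refine ⟨F p, _, (hF p p (𝒳.M.mem_U p)).1, an_pow h1.1 (d + 1), ?_⟩
  filter_upwards [(𝒳.M.U_open p).mem_nhds (𝒳.M.mem_U p)] with y a1 a2 _
  have h2 : 𝒳.M.den p y ≠ 0 := fun h => a2 ((𝒳.M.Z_iff p y a1).2 h)
  exact ⟨pow_ne_zero _ h2, by rw [(hF p y a1).2, mul_comm]⟩

theorem fderiv_quot {a b : E2 → ℂ} {q : E2} (ha : DifferentiableAt ℂ a q)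
    (hb : DifferentiableAt ℂ b q) (h0 : b q ≠ 0) (v : E2) :
    fderiv ℂ (fun u => a u / b u) q v * b q ^ 2 =
      b q * fderiv ℂ a q v - a q * fderiv ℂ b q v := by
  have h1 := ha.hasFDerivAt.mul ((hasDerivAt_inv h0).comp_hasFDerivAt q hb.hasFDerivAt)
  have h2 : (fun u => a u / b u) = a * (fun x => x⁻¹) ∘ b := by
    funext u
    simp [div_eq_mul_inv]
  rw [h2, h1.fderiv]
  simp only [_root_.add_apply, _root_.smul_apply, smul_eq_mul,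
    Function.comp_apply]
  field_simp
  ring

theorem mq_Dx (he : e ∈ 𝒳.S.A) (hp : p ∈ e.source) (v : E2) :
    Mq 𝒳 p z g fun y => D 𝒳.x e y v := by
  have h1 := 𝒳.M.an p p (𝒳.M.mem_U p)
  refine ⟨_, _, an_sub (an_mul h1.1 (an_D (h1.2 𝒳.M.ix) he hp v))
    (an_mul (h1.2 𝒳.M.ix) (an_D h1.1 he hp v)), an_pow h1.1 2, ?_⟩
  filter_upwards [(𝒳.M.U_open p).mem_nhds (𝒳.M.mem_U p), e.open_source.mem_nhds hp]
    with y a1 a0 a2 _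
  have h2 : 𝒳.M.den p y ≠ 0 := fun h => a2 ((𝒳.M.Z_iff p y a1).2 h)
  refine ⟨pow_ne_zero _ h2, ?_⟩
  have h3 := 𝒳.M.an p y a1
  have h4 : 𝒳.x ∘ e.symm =ᶠ[𝓝 (e y)]
      fun w => (𝒳.M.num p 𝒳.M.ix ∘ e.symm) w / (𝒳.M.den p ∘ e.symm) w := by
    filter_upwards [Sf0.symm_eventually a0 ((𝒳.M.U_open p).mem_nhds a1)] with w hw
    exact 𝒳.M.f_eq p _ _ hw
  have h5 := fderiv_quot (h3.2 𝒳.M.ix e he a0).differentiableAt (h3.1 e he a0).differentiableAt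
    (by simpa [e.left_inv a0] using h2) v
  rw [← h4.fderiv_eq] at h5
  simpa [D, e.left_inv a0] using h5

theorem Mq.congr (h : Mq 𝒳 p z g u) (h' : ∀ᶠ y in 𝓝 p, u y = u' y) : Mq 𝒳 p z g u' := by
  obtain ⟨a, c, h1, h2, h3⟩ := h
  refine ⟨a, c, h1, h2, ?_⟩
  filter_upwards [h3, h'] with y a1 a2 a3 a4
  rw [← a2]
  exact a1 a3 a4

theorem mq_W (hz : 𝒳.Ov p z) (he : e ∈ 𝒳.S.A) (hp : p ∈ e.source) : Mq 𝒳 p z g (𝒳.W e) := by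
  have h1 := ((Mq.of_an (z := z) (g := g) (an_D hz.an_lam he hp (1, 0))).mul
    (mq_Dx he hp (0, 1))).add ((Mq.of_an (an_mul (an_const (-1))
      (an_D hz.an_lam he hp (0, 1)))).mul (mq_Dx he hp (1, 0)))
  refine h1.congr ?_
  filter_upwards [hz.D_lam hp] with y hy
  rw [Sx.W, wedge, hy]
  ring

theorem mq_N (h : Full.SHom) (Q : Pm 𝒳) (hz : 𝒳.Ov p z) {N : (KK 𝒳.L)[X][X]}
    (hN : g → Rg2 N z) : Mq 𝒳 p z g fun y => ev N (Q.jm z y) := by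
  obtain ⟨s, hs⟩ := ev_eq_sum N
  simp only [hs, Pm.jm]
  exact Mq.sum fun i _ => ((mq_rv hz fun hg => hN hg i.2 i.1).mul (mq_x.pow _)).mul
    ((mq_ev h Q.Qy).pow _)

end QuotP

open QuotP in
theorem sQuot (h : Full.SHom) : SQuot := by
  intro 𝒳 Q ν F hF
  obtain ⟨-, N, Dn, hD, hF⟩ := hF
  have hG := (rg2_cd N).and ((rg1_cd Dn).and (Pm.fib (Q := Q) (Pl.gen_ne hD)))
  refine ⟨_, hG, fun z p hz e he hp => ?_⟩
  obtain ⟨a₁, c₁, h1, h2, h3⟩ :=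
    mq_N (g := Rg2 N z ∧ Rg1 Dn z) h Q hz (N := N) fun hg => hg.1
  obtain ⟨a₂, c₂, h4, h5, h6⟩ :=
    mq_N (g := Rg2 N z ∧ Rg1 Dn z) h Q hz (N := C Dn) fun hg => rg2_C hg.2
  obtain ⟨a₃, c₃, h7, h8, h9⟩ := (mq_W (g := Rg2 N z ∧ Rg1 Dn z) hz he hp).pow ν
  simp only [ev_C] at h6
  refine ⟨_, _, an_mul (an_mul h1 h5) h7, an_mul (an_mul h2 h4) h8, ?_, fun hg => ?_⟩
  · filter_upwards [h3.filter_mono Pm.nb_le, h6.filter_mono Pm.nb_le, h9.filter_mono Pm.nb_le,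
      Pm.nb_off, Pm.nb_fst hz (s := fun t => t ≠ z) self_mem_nhdsWithin, Pm.nb_gen hF,
      Pm.nb_gen (Pl.gen_ne hD)] with y b1 b2 b3 b4 b5 b6 b7
    obtain ⟨d1, d2⟩ := b1 b4 (Or.inr b5)
    obtain ⟨d3, d4⟩ := b2 b4 (Or.inr b5)
    obtain ⟨d5, d6⟩ := b3 b4 (Or.inr b5)
    refine ⟨mul_ne_zero (mul_ne_zero d1 (d4 ▸ mul_ne_zero b7 d3)) d5, ?_⟩
    rw [b6, ← d2, ← d4, ← d6]
    field_simp
  · filter_upwards [h3.filter_mono nhdsWithin_le_nhds, h6.filter_mono nhdsWithin_le_nhds,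
      h9.filter_mono nhdsWithin_le_nhds, hg.2.2 p hz] with y b1 b2 b3 b4 b5
    obtain ⟨b6, b7⟩ := b4 b5
    have hg' : Rg2 N z ∧ Rg1 Dn z := ⟨hg.1, hg.2.1⟩
    obtain ⟨d3, d4⟩ := b2 b6 (Or.inl hg')
    exact mul_ne_zero (mul_ne_zero (b1 b6 (Or.inl hg')).1
      (d4 ▸ mul_ne_zero b7.self_of_nhds d3)) (b3 b6 (Or.inl hg')).1

end Pool.Agent.P.MP_7ede32_ag.Hod
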