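import Pool.Agent.P.MP_7ede32_ag.Hod.StX
import Pool.Agent.P.MP_7ede32_ag.Hod.MdT

/-!
The two-form on the cover.
-/

open Set Filter Topology Polynomial Matrix Bornology Metric

noncomputable section

namespace Pool.Agent.P.MP_7ede32_ag.Hod

open Geo (Sf0 wedge D)
open Full (Mf GT Nc PCh Sec)
open Ell (E2 jac)

namespace SecAP

variable {𝒳 : Sx} {Q : Pm 𝒳} {p : 𝒳.X} {z : ℂ} {e : Ch 𝒳.X} {F : E3 → ℂ} {α : 𝒳.X → ℂ}

/-- the value of the coefficient -/
def val (Q : Pm 𝒳) (F : E3 → ℂ) (z : ℂ) (e : Ch 𝒳.X) (p : 𝒳.X) : ℂ :=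
  limUnder (Q.Nb p z) fun y => F (Q.jm z y) * 𝒳.W e y ^ 1

theorem val_loc (hp : 𝒳.Ov p z) (h : Q.Co e p z 1 F α) :
    ∀ᶠ y in 𝓝 p, val Q F (𝒳.lam z y) e y = α y := by
  filter_upwards [h.loc hp, hp.lam_ov] with y h1 h2 using h1.limUnder h2

theorem ne_near {g : ℕ} {κ : VF g} (hm : ∀ z, MeV κ z) (hn : ¬ ∀ᶠ t in cd, κ t = 0) (z : ℂ) :
    ∀ᶠ t in 𝓝[≠] z, κ t ≠ 0 := by
  by_contra h
  refine hn ?_
  have h1 : ∀ i, ∀ x, meromorphicOrderAt (fun t => κ t i) x = ⊤ := by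
    intro i x
    by_contra hx
    have h2 : MeromorphicOn (fun t => κ t i) univ := fun y _ => hm y i
    have h3 := (h2.exists_meromorphicOrderAt_ne_top_iff_forall isConnected_univ).1
      ⟨⟨x, trivial⟩, hx⟩ ⟨z, trivial⟩
    refine h (((meromorphicOrderAt_ne_top_iff_eventually_ne_zero (hm z i)).1 h3).mono
      fun t ht h4 => ht ?_)
    rw [h4]
    rfl
  refine Full.cd_iff.2 fun x => ?_
  exact (eventually_all.2 fun i => meromorphicOrderAt_eq_top_iff.1 (h1 i x)).mono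
    fun t ht => funext ht

theorem ind_cb {L : PeriodPair} {𝒴 : Pl L} {g : ℕ} {κ : VF g} {φ : Fin g → E3 → ℂ} {t : ℂ}
    (h : 𝒴.Ind t φ) (h0 : κ t ≠ 0) : 𝒴.Ind t fun _ : Fin 1 => cb κ φ := by
  intro c hc
  have h1 := h (fun j => c 0 * κ t j) (by
    filter_upwards [hc, 𝒴.fb_on t] with q h2 h3
    rw [Fin.sum_univ_one, cb, h3.1, Finset.mul_sum] at h2
    simpa only [mul_assoc] using h2)
  funext i
  obtain rfl : i = 0 := Subsingleton.elim _ _
  by_contra h4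
  exact h0 (funext fun j => (mul_eq_zero.1 (congrFun h1 j)).resolve_left h4)

end SecAP

open SecAP in
theorem sSecA (h1 : SNF) (h2 : SInd) : SSecA := by
  intro 𝒳 T n z₁ κ hP hL hc hφ
  refine ⟨{
    c := val T.Q (cb κ T.φ)
    an := fun z e he p hs hp => ?_
    per := fun w hw z e he p hs hp => ?_
    compat := fun z e he e' he' p hs hs' hp => ?_
    nz := ?_
    van := fun e he p hs hp => ?_
    ncrit := hc }⟩
  · obtain ⟨α, hα⟩ := (hL z).2 p hp e he hs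
    exact Full.anAt_congr hα.1 ((val_loc hp hα).mono fun y hy => hy.symm)
  · have hn : (n : ℂ) * w ∈ 𝒳.L.lattice := by
      rw [← nsmul_eq_mul]
      exact nsmul_mem hw n
    rw [val, val, Pm.nb_add hn]
    congr 1
    funext y
    rw [Pm.jm_add hn]
    simp only [cb, Cx.φ, Pl.phs, Pl.ph_per _ hn, hP.per w hw, Pm.jm]
  · obtain ⟨α, hα⟩ := (hL z).2 p hp e' he' hs'
    rw [val, val, (hα.trans he he' hs hs').limUnder hp, hα.limUnder hp]
  · by_contra h0
    obtain ⟨e, p, μ, hN⟩ := (h1 𝒳 z₁).2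
    have hp := hN.2.2.2.1
    obtain ⟨α, hα⟩ := (hL z₁).2 p hp e hN.1 hN.2.1
    have h3 := h2 𝒳 T.toTk e p z₁ μ 1 1 (fun _ => cb κ T.φ) (fun _ => α) hN (fun _ => hα) (by
      refine Eventually.filter_mono inf_le_left ?_
      filter_upwards [nhdsNE_le_cd z₁ T.bas.ind, ne_near hP.mer hP.ne z₁,
        eventually_all.2 fun i => (hP.mer z₁ i).eventually_analyticAt] with t h4 h5 h6
      exact ⟨fun _ => Pl.ratF_cb h6 h4.2, ind_cb h4.1 h5⟩)
    have h4 : ∀ᶠ y in 𝓝 p, α y = 0 := by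
      filter_upwards [val_loc hp hα, hp.lam_ov, e.open_source.mem_nhds hN.2.1] with y h5 h6 h7
      by_contra h8
      exact h0 ⟨_, e, hN.1, y, h7, h6, h5 ▸ h8⟩
    have h5 := hN.eventually.1 h4
    rw [← Prod.mk_zero_zero, nhds_prod_eq] at h5
    obtain ⟨u, h6, h7⟩ := (h3.and_eventually (nhdsWithin_le_nhds h5.curry)).exists
    have h8 := congrFun (h6 (fun _ => 1) (h7.mono fun v hv => by
      rw [Fin.sum_univ_one, hv, mul_zero])) 0
    exact one_ne_zero h8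
  · obtain ⟨b, hb, hκ⟩ := hP.van
    choose α hα using fun i => hφ i p hp e he hs
    have h3 := Pm.co_sum (s := Finset.univ) fun i _ => (hα i).smul hp (hb i)
    have h4 := (h3.smul hp (c := fun t => (t - z₁) ^ 3) (by fun_prop)).congr hp
      (G := cb κ T.φ) ((Pl.gz_fst hκ).mono fun q hq => by
        simp only [cb, hq, Finset.mul_sum, Pi.smul_apply, smul_eq_mul, mul_assoc])
    exact ⟨_, h3.1, val_loc hp h4⟩

end Pool.Agent.P.MP_7ede32_ag.Hod
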