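import Pool.Agent.P.MP_7ede32_ag.Hod.StX
import Pool.Agent.P.MP_7ede32_ag.Hod.MdT

/-!
Pluricanonical sections as rational functions on the plane model.
-/

open Set Filter Topology Polynomial Matrix Bornology Metric

noncomputable section

namespace Pool.Agent.P.MP_7ede32_ag.Hod

open Geo (Sf0 wedge D)
open Full (Mf GT Nc PCh Sec)
open Ell (E2 jac)

namespace SecVP

/-- homogenisation -/
theorem hom (H : ℂ[X][X]) : ∃ d : ℕ, ∀ d' ≥ d, ∃ G : E3 → ℂ, (∀ v, AnalyticAt ℂ G v) ∧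
    ∀ β a b, G (β, a * β, b * β) = β ^ d' * H.evalEval a b := by
  have add : ∀ {H H' : ℂ[X][X]}, (∃ d : ℕ, ∀ d' ≥ d, ∃ G : E3 → ℂ, (∀ v, AnalyticAt ℂ G v) ∧
      ∀ β a b, G (β, a * β, b * β) = β ^ d' * H.evalEval a b) →
      (∃ d : ℕ, ∀ d' ≥ d, ∃ G : E3 → ℂ, (∀ v, AnalyticAt ℂ G v) ∧
      ∀ β a b, G (β, a * β, b * β) = β ^ d' * H'.evalEval a b) →
      ∃ d : ℕ, ∀ d' ≥ d, ∃ G : E3 → ℂ, (∀ v, AnalyticAt ℂ G v) ∧
      ∀ β a b, G (β, a * β, b * β) = β ^ d' * (H + H').evalEval a b := by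
    rintro H H' ⟨d, h⟩ ⟨d', h'⟩
    refine ⟨max d d', fun n hn => ?_⟩
    obtain ⟨G, a1, a2⟩ := h n (le_of_max_le_left hn)
    obtain ⟨G', b1, b2⟩ := h' n (le_of_max_le_right hn)
    refine ⟨fun v => G v + G' v, fun v => (a1 v).add (b1 v), fun β a b => ?_⟩
    beta_reduce
    rw [a2, b2, evalEval_add, mul_add]
  induction H using Polynomial.induction_on' with
  | add p q hp hq => exact add hp hq
  | monomial n p =>
    induction p using Polynomial.induction_on' with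
    | add p q hp hq =>
      rw [map_add]
      exact add hp hq
    | monomial m c =>
      refine ⟨m + n, fun d hd => ?_⟩
      obtain ⟨k, rfl⟩ := Nat.exists_eq_add_of_le hd
      refine ⟨fun v => c * v.1 ^ k * v.2.1 ^ m * v.2.2 ^ n, fun v =>
        ((analyticAt_const.mul (analyticAt_fst.pow k)).mul
          ((analyticAt_fst.comp analyticAt_snd).pow m)).mul
          ((analyticAt_snd.comp analyticAt_snd).pow n), fun β a b => ?_⟩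
      rw [← C_mul_X_pow_eq_monomial, ← C_mul_X_pow_eq_monomial]
      simp only [evalEval_mul, evalEval_C, evalEval_pow, evalEval_X, eval_mul, eval_C, eval_pow,
        eval_X]
      ring

variable {𝒳 : Sx} {Q : Pm 𝒳} {p : 𝒳.X} {z : ℂ} {i : 𝒳.M.ι} {F : E3 → ℂ}

theorem nb_f (h : ∀ᶠ q in Q.𝒴.gen, ∀ p ∉ 𝒳.Z, 𝒳.Ov p q.1 → 𝒳.x p = q.2.1 →
    Q.y p = q.2.2 → 𝒳.M.f i p = F q) (hp : 𝒳.Ov p z) :
    ∀ᶠ y in Q.Nb p z, 𝒳.M.f i y = F (Q.jm z y) := by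
  filter_upwards [Pm.nb_gen h, Pm.nb_off, hp.lam_ov.filter_mono Pm.nb_le] with y h1 h2 h3
  exact h1 y h2 h3 rfl rfl

end SecVP

open SecVP

theorem sSecG : SSecG := by
  intro 𝒳 T
  obtain ⟨F, hF, h⟩ := T.rat 𝒳.M.ia
  refine ⟨𝒳.M.μ, F, 𝒳.M.μ_pos, hF, fun h0 => ?_, fun z p hp e he hs => ?_,
    fun z p hp e he hs => ?_⟩
  · obtain ⟨p, hp⟩ := 𝒳.ov_nonempty 0
    have := Pm.nb_neBot (Q := T.Q) hp
    obtain ⟨y, h1, h2, h3⟩ := ((nb_f h hp).and ((Pm.nb_gen h0).and Pm.nb_off)).exists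
    exact 𝒳.M.a_ne y h3 (h1.trans h2)
  · obtain ⟨β, h1, h2⟩ := 𝒳.M.regA e he p hs
    refine ⟨β, h1, ?_⟩
    filter_upwards [nb_f h hp, Pm.nb_off, h2.filter_mono Pm.nb_le] with y h3 h4 h5
    rw [← h3]
    exact h5 h4
  · obtain ⟨β, h1, h2⟩ := 𝒳.M.regI _ 𝒳.M.ix_mem e he p hs
    refine ⟨β, h1, ?_⟩
    filter_upwards [nb_f h hp, Pm.nb_off, h2.filter_mono Pm.nb_le] with y h3 h4 h5
    rw [← h3]
    exact h5 h4

theorem sSecV (hI : SIndX) : SSecV := by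
  intro 𝒳 T
  obtain ⟨i, hi, hH⟩ := hI 𝒳
  obtain ⟨A, hA, ha⟩ := T.rat 𝒳.M.ia
  obtain ⟨R, hR, hr⟩ := T.rat i
  obtain ⟨z₁, c1, c2, c3⟩ := (hR.ratF.and (T.Q.fib_fb.and (Pl.gen_fb hr))).exists
  obtain ⟨H, H0, h0⟩ := c1.alg
  obtain ⟨d, hd⟩ := hom H
  obtain ⟨G, g1, g2⟩ := hd d le_rfl
  refine ⟨𝒳.M.μ * d, fun q => A q ^ d * H.evalEval q.2.1 (R q), z₁,
    (hA.pow d).mul (Pl.rat_ξ.evalEval hR H), fun hz => ?_, fun z p hp e he hs => ?_⟩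
  · obtain ⟨p, p1, p2⟩ := hH H H0
    obtain ⟨z, hp⟩ := Sx.exists_ov p
    have := Pm.nb_neBot (Q := T.Q) hp
    have e : ∀ a b, H.evalEval a b = G (1, a, b) := fun a b => by
      simpa only [mul_one, one_pow, one_mul] using (g2 1 a b).symm
    have k : ContinuousAt (fun y => G (1, 𝒳.x y, 𝒳.M.f i y)) p :=
      ContinuousAt.comp (g := G) (g1 _).continuousAt (continuousAt_const.prodMk
        ((Sx.an_x p1).continuousAt.prodMk (𝒳.M.anAt_f i p1).continuousAt))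
    rw [e] at p2
    obtain ⟨y, ⟨h1, h2⟩, ⟨h3, h4⟩, h5⟩ := (((nb_f ha hp).and (nb_f hr hp)).and
      (((Pm.nb_gen hz).and Pm.nb_off).and ((k.eventually_ne p2).filter_mono Pm.nb_le))).exists
    beta_reduce at h3
    rw [← h1, ← h2, e] at h3
    exact mul_ne_zero (pow_ne_zero d (𝒳.M.a_ne y h4)) h5 h3
  · obtain ⟨β, b1, b2⟩ := 𝒳.M.regA e he p hs
    obtain ⟨α, a1, a2⟩ := 𝒳.M.regI _ 𝒳.M.ix_mem e he p hs
    obtain ⟨γ, e1, e2⟩ := 𝒳.M.regI i hi e he p hs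
    have k : ∀ᶠ y in 𝓝 p, y ∉ 𝒳.Z → G (β y, α y, γ y) =
        (𝒳.M.f 𝒳.M.ia y * 𝒳.W e y ^ 𝒳.M.μ) ^ d * H.evalEval (𝒳.x y) (𝒳.M.f i y) := by
      filter_upwards [b2, a2, e2] with y h1 h2 h3 h4
      rw [← h1 h4, ← h2 h4, ← h3 h4, mul_assoc, mul_assoc]
      exact g2 _ _ _
    refine ⟨fun y => G (β y, α y, γ y), ⟨fun e' he' hs' => ?_, ?_⟩, ?_⟩
    · exact AnalyticAt.comp (g := G) (g1 _)
        ((b1 e' he' hs').prod ((a1 e' he' hs').prod (e1 e' he' hs')))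
    · filter_upwards [nb_f ha hp, nb_f hr hp, Pm.nb_off, k.filter_mono Pm.nb_le]
        with y h1 h2 h3 h4
      rw [h4 h3, ← h1, ← h2, pow_mul, mul_pow, mul_right_comm]
      rfl
    · rintro rfl
      filter_upwards [c2 _ (h0.and c3) p hp, k.filter_mono nhdsWithin_le_nhds] with y h1 h2 h3
      obtain ⟨h4, h5, h6⟩ := h1 h3
      rw [Pm.jm_self h3] at h5 h6
      rw [h2 h4, h6 y h4 h3 rfl rfl, h5, mul_zero]

end Pool.Agent.P.MP_7ede32_ag.Hod
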