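import Pool.Agent.P.MP_7ede32_ag.Hod.StX
import Pool.Agent.P.MP_7ede32_ag.Hod.StA
import Pool.Agent.P.MP_7ede32_ag.Hod.XT

/-!
Symmetric functions in the fibres of the covering are polynomials over the elliptic functions.
-/

open Set Filter Topology Polynomial

noncomputable section

namespace Pool.Agent.P.MP_7ede32_ag.Hod

open Ell (E2)

namespace SymXP

open Classical in
/-- the interpolation polynomial -/
def sm {α : Type} (s : Finset α) (F y : α → ℂ) : ℂ[X] :=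
  ∑ p ∈ s, C (F p) * ∏ p' ∈ s.erase p, (X - C (y p'))

open Classical in
theorem sm_image {α : Type} {s : Finset α} {σ : α → α} (h : InjOn σ s) (F y : α → ℂ) :
    sm (s.image σ) F y = sm s (fun p => F (σ p)) fun p => y (σ p) := by
  unfold sm
  rw [Finset.sum_image h]
  refine Finset.sum_congr rfl fun p hp => ?_
  have e : (s.image σ).erase (σ p) = (s.erase p).image σ := by
    ext a
    simp only [Finset.mem_erase, Finset.mem_image]
    constructor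
    · rintro ⟨h1, b, hb, rfl⟩
      exact ⟨b, ⟨fun e => h1 (e ▸ rfl), hb⟩, rfl⟩
    · rintro ⟨b, ⟨h1, hb⟩, rfl⟩
      exact ⟨fun e => h1 (h hb hp e), b, hb, rfl⟩
  rw [e, Finset.prod_image (h.mono (Finset.coe_subset.2 (Finset.erase_subset _ _)))]

theorem coeff_lin (a : ℂ) (G : ℂ[X]) (k : ℕ) :
    ((X - C a) * G).coeff k = (if k = 0 then 0 else G.coeff (k - 1)) - a * G.coeff k := by
  rw [sub_mul, coeff_sub, coeff_C_mul]
  cases k <;> simp [coeff_X_mul]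

theorem an_prod {α : Type} (s : Finset α) {y : α → E2 → ℂ} {q : E2}
    (h : ∀ p ∈ s, AnalyticAt ℂ (y p) q) (k : ℕ) :
    AnalyticAt ℂ (fun q => (∏ p ∈ s, (X - C (y p q))).coeff k) q := by
  classical
  induction s using Finset.induction_on generalizing k with
  | empty => simpa using analyticAt_const
  | insert a s ha ih =>
    simp only [Finset.prod_insert ha, coeff_lin]
    have ih' := ih fun p hp => h p (Finset.mem_insert_of_mem hp)
    refine AnalyticAt.fun_sub ?_ ((h a (Finset.mem_insert_self _ _)).mul (ih' k))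
    split_ifs
    · exact analyticAt_const
    · exact ih' _

open Classical in
theorem an_sm {α : Type} (s : Finset α) {F y : α → E2 → ℂ} {q : E2}
    (hF : ∀ p ∈ s, AnalyticAt ℂ (F p) q) (h : ∀ p ∈ s, AnalyticAt ℂ (y p) q) (k : ℕ) :
    AnalyticAt ℂ (fun q => (sm s (fun p => F p q) fun p => y p q).coeff k) q := by
  simp only [sm, finsetSum_coeff, coeff_C_mul]
  exact Finset.analyticAt_fun_sum _ fun p hp =>
    (hF p hp).mul (an_prod _ (fun p' hp' => h p' (Finset.mem_of_mem_erase hp')) k)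

theorem bd_prod {α : Type} (s : Finset α) {y : α → ℂ} {B : ℝ} (hB : 0 ≤ B)
    (h : ∀ p ∈ s, ‖y p‖ ≤ B) (k : ℕ) :
    ‖(∏ p ∈ s, (X - C (y p))).coeff k‖ ≤ (1 + B) ^ s.card := by
  classical
  induction s using Finset.induction_on generalizing k with
  | empty =>
    simp only [Finset.prod_empty, coeff_one, Finset.card_empty, pow_zero]
    split_ifs <;> simp
  | insert a s ha ih =>
    have ih' := ih fun p hp => h p (Finset.mem_insert_of_mem hp)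
    rw [Finset.prod_insert ha, coeff_lin, Finset.card_insert_of_notMem ha, pow_succ', add_mul,
      one_mul]
    refine (norm_sub_le _ _).trans (add_le_add ?_ ?_)
    · split_ifs
      · rw [norm_zero]; positivity
      · exact ih' _
    · rw [norm_mul]
      exact mul_le_mul (h a (Finset.mem_insert_self _ _)) (ih' k) (norm_nonneg _) hB

open Classical in
theorem bd_sm {α : Type} (s : Finset α) {F y : α → ℂ} {A B : ℝ} (hA : 0 ≤ A) (hB : 0 ≤ B)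
    (hF : ∀ p ∈ s, ‖F p‖ ≤ A) (h : ∀ p ∈ s, ‖y p‖ ≤ B) (k : ℕ) :
    ‖(sm s F y).coeff k‖ ≤ s.card * (A * (1 + B) ^ s.card) := by
  simp only [sm, finsetSum_coeff, coeff_C_mul]
  rw [← nsmul_eq_mul, ← Finset.sum_const]
  refine norm_sum_le_of_le _ fun p hp => ?_
  rw [norm_mul]
  refine mul_le_mul (hF p hp) ((bd_prod _ hB (fun p' hp' => h p' (Finset.mem_of_mem_erase hp'))
    k).trans ?_) (norm_nonneg _) hA
  exact pow_le_pow_right₀ (by linarith) Finset.card_erase_le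

theorem deg_prod {α : Type} (s : Finset α) (y : α → ℂ) :
    (∏ p ∈ s, (X - C (y p))).natDegree = s.card := by
  rw [natDegree_prod_of_monic _ _ fun p _ => monic_X_sub_C _]
  simp

open Classical in
theorem deg_sm {α : Type} (s : Finset α) (F y : α → ℂ) : (sm s F y).natDegree ≤ s.card := by
  refine natDegree_sum_le_of_forall_le _ _ fun p _ => (natDegree_C_mul_le _ _).trans ?_
  rw [deg_prod]
  exact Finset.card_erase_le

theorem coeff_mk {K : Type} [Semiring K] (n : ℕ) (p : ℕ → K) (k : ℕ) :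
    (∑ j ∈ Finset.range (n + 1), monomial j (p j)).coeff k = if k ≤ n then p k else 0 := by
  simp only [finsetSum_coeff, coeff_monomial, Finset.sum_ite_eq', Finset.mem_range, Nat.lt_succ_iff]

variable {𝒳 : Sx}

open Classical in
theorem near {z ξ : ℂ} (h : 𝒳.CovAt z ξ) : ∃ s : 𝒳.X → E2 → 𝒳.X,
    (∀ p ∈ 𝒳.Φf z ξ, ∀ F : 𝒳.X → ℂ, 𝒳.PB F → AnalyticAt ℂ (fun q => F (s p q)) (z, ξ)) ∧
    ∀ᶠ q in 𝓝 ((z, ξ) : E2), InjOn (fun p => s p q) (𝒳.Φf z ξ) ∧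
      𝒳.Φf q.1 q.2 = (𝒳.Φf z ξ).image fun p => s p q := by
  obtain ⟨hf, -, s, h1, h2⟩ := h
  refine ⟨s, fun p hp F hF => ?_, h2.mono fun q hq => ⟨hq.injOn.mono fun p hp =>
    (Sx.mem_Φf hf).1 hp, ?_⟩⟩
  · have hp' := (Sx.mem_Φf hf).1 hp
    exact (h1 p hp').2.2 F (hF.1 p hp'.1)
  · ext a
    rw [Sx.mem_Φf (hq.image_eq ▸ hf.image _), ← hq.image_eq, Finset.mem_image]
    simp only [mem_image, Sx.mem_Φf hf]

theorem bd {F : 𝒳.X → ℂ} (h : 𝒳.PB F) : ∃ (c : ℝ) (a : ℕ), 0 ≤ c ∧ ∀ z ξ, (𝒳.Φ z ξ).Finite →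
    ∀ p ∈ 𝒳.Φf z ξ, ‖F p‖ ≤ c * (1 + ‖𝒳.L.weierstrassP z‖ + ‖ξ‖) ^ a := by
  obtain ⟨c, a, hc⟩ := h.2
  refine ⟨|c|, a, abs_nonneg _, fun z ξ hf p hp => ?_⟩
  obtain ⟨h1, h2, h3⟩ := (Sx.mem_Φf hf).1 hp
  have := hc p h1
  rw [(Sx.hu h1 h2).2, h3] at this
  exact this.trans (mul_le_mul_of_nonneg_right (le_abs_self _) (by positivity))

theorem key (h1 : SBad2) (h2 : SCovX1) (h4 : SSymR) {n : ℕ}
    (hn : ∀ᶠ z in cd, ∀ ξ ∉ 𝒳.Tz z, (𝒳.Φf z ξ).card = n) (Ψ : Finset 𝒳.X → ℂ[X]) (c : ℝ) (a : ℕ)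
    (ha : ∀ z ξ, 𝒳.CovAt z ξ → ∀ k,
      AnalyticAt ℂ (fun q : E2 => (Ψ (𝒳.Φf q.1 q.2)).coeff k) (z, ξ))
    (hb : ∀ z ξ, (𝒳.Φ z ξ).Finite → (𝒳.Φf z ξ).card = n → ∀ k,
      ‖(Ψ (𝒳.Φf z ξ)).coeff k‖ ≤ c * (1 + ‖𝒳.L.weierstrassP z‖ + ‖ξ‖) ^ a) :
    ∃ p : ℕ → (KK 𝒳.L)[X], ∀ᶠ z in cd, ∀ ξ ∉ 𝒳.Tz z, (𝒳.Φf z ξ).card = n ∧
      ∀ k ≤ n, (sp1 (p k) z).eval ξ = (Ψ (𝒳.Φf z ξ)).coeff k := by
  have h : ∀ k, ∃ p : (KK 𝒳.L)[X], ∀ᶠ z in cd, ∀ ξ ∉ 𝒳.Tz z,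
      (Ψ (𝒳.Φf z ξ)).coeff k = (sp1 p z).eval ξ := fun k => by
    refine h4 𝒳.L 𝒳.Tz (fun q => (Ψ (𝒳.Φf q.1 q.2)).coeff k) c a (fun w hw t ξ => ?_) ?_
    · have e : 𝒳.Φf (t + w) ξ = 𝒳.Φf t ξ := by
        unfold Sx.Φf
        rw [Sx.Φ_add hw]
      simp only [e]
    · filter_upwards [h1 𝒳, hn] with z hz hz'
      obtain ⟨h5, h6⟩ := h2 𝒳 z hz
      exact ⟨h5, fun ξ hξ => ⟨ha z ξ (h6 ξ hξ) k, (h6 ξ hξ).2.1,
        hb z ξ (h6 ξ hξ).1 (hz' ξ hξ) k⟩⟩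
  choose p hp using h
  refine ⟨p, ?_⟩
  filter_upwards [hn, (eventually_all_finset (Finset.range (n + 1))).2 fun k _ => hp k]
    with z h5 h6 ξ hξ
  exact ⟨h5 ξ hξ, fun k hk => (h6 k (Finset.mem_range.2 (Nat.lt_succ_of_le hk)) ξ hξ).symm⟩

theorem sp_mk {L : PeriodPair} {n : ℕ} {p : ℕ → (KK L)[X]} {z ξ : ℂ} {G : ℂ[X]}
    (hG : G.natDegree ≤ n) (h : ∀ k ≤ n, (sp1 (p k) z).eval ξ = G.coeff k) :
    (sp (∑ j ∈ Finset.range (n + 1), monomial j (p j)) z).map (evalRingHom ξ) = G := by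
  ext k
  rw [coeff_map, coeff_sp, coeff_mk, coe_evalRingHom]
  split_ifs with hk
  · exact h k hk
  · rw [sp1_zero, eval_zero, coeff_eq_zero_of_natDegree_lt (by omega)]

end SymXP

open SymXP in
theorem sSymX (h1 : SBad2) (h2 : SCovX1) (h3 : SCovX2) (h4 : SSymR) : SSymX := by
  intro 𝒳 F y hF hy
  classical
  obtain ⟨n, hn0, hn⟩ := h3 𝒳
  obtain ⟨cF, aF, hcF, hF'⟩ := bd hF
  obtain ⟨cy, ay, hcy, hy'⟩ := bd hy
  have hM : ∀ z ξ : ℂ, (1 + cy * (1 + ‖𝒳.L.weierstrassP z‖ + ‖ξ‖) ^ ay) ^ n ≤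
      (1 + cy) ^ n * (1 + ‖𝒳.L.weierstrassP z‖ + ‖ξ‖) ^ (ay * n) := fun z ξ => by
    have h5 : (1 : ℝ) ≤ (1 + ‖𝒳.L.weierstrassP z‖ + ‖ξ‖) ^ ay :=
      one_le_pow₀ (by linarith [norm_nonneg (𝒳.L.weierstrassP z), norm_nonneg ξ])
    rw [pow_mul, ← mul_pow]
    exact pow_le_pow_left₀ (by positivity) (by linarith) n
  constructor
  · obtain ⟨p, hp⟩ := key h1 h2 h4 hn (fun s => ∏ p ∈ s, (X - C (y p))) ((1 + cy) ^ n) (ay * n)
      (fun z ξ h k => by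
        obtain ⟨s, h5, h6⟩ := near h
        refine (an_prod (𝒳.Φf z ξ) (fun p hp => h5 p hp y hy) k).congr (h6.mono fun q hq => ?_)
        simp only [hq.2, Finset.prod_image hq.1])
      (fun z ξ hf hc k => by
        have := bd_prod _ (by positivity) (hy' z ξ hf) k
        rw [hc] at this
        exact this.trans (hM z ξ))
    have hc : (∑ j ∈ Finset.range (n + 1),
        monomial j (if j = n then (1 : (KK 𝒳.L)[X]) else p j)).coeff n = 1 := by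
      rw [coeff_mk, if_pos le_rfl, if_pos rfl]
    have hd : (∑ j ∈ Finset.range (n + 1),
        monomial j (if j = n then (1 : (KK 𝒳.L)[X]) else p j)).natDegree ≤ n :=
      natDegree_le_iff_coeff_eq_zero.2 fun k hk => by rw [coeff_mk, if_neg hk.not_ge]
    refine ⟨_, monic_of_natDegree_le_of_coeff_eq_one n hd hc,
      hn0.trans_le (le_natDegree_of_ne_zero (by rw [hc]; exact one_ne_zero)), ?_⟩
    filter_upwards [hp] with z hz ξ hξ
    obtain ⟨h5, h6⟩ := hz ξ hξ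
    refine sp_mk (by rw [deg_prod, h5]) fun k hk => ?_
    split_ifs with e
    · rw [sp1_one, eval_one, e, ← h5, ← deg_prod _ y]
      exact (monic_prod_of_monic _ _ fun p _ => monic_X_sub_C _).coeff_natDegree.symm
    · exact h6 k hk
  · obtain ⟨p, hp⟩ := key h1 h2 h4 hn (fun s => sm s F y) (n * (cF * (1 + cy) ^ n)) (aF + ay * n)
      (fun z ξ h k => by
        obtain ⟨s, h5, h6⟩ := near h
        refine (an_sm (𝒳.Φf z ξ) (fun p hp => h5 p hp F hF) (fun p hp => h5 p hp y hy) k).congr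
          (h6.mono fun q hq => ?_)
        simp only [hq.2, sm_image hq.1])
      (fun z ξ hf hc k => by
        have := bd_sm _ (by positivity) (by positivity) (hF' z ξ hf) (hy' z ξ hf) k
        rw [hc] at this
        refine this.trans ?_
        calc (n : ℝ) * (cF * (1 + ‖𝒳.L.weierstrassP z‖ + ‖ξ‖) ^ aF *
              (1 + cy * (1 + ‖𝒳.L.weierstrassP z‖ + ‖ξ‖) ^ ay) ^ n)
            ≤ n * (cF * (1 + ‖𝒳.L.weierstrassP z‖ + ‖ξ‖) ^ aF *
              ((1 + cy) ^ n * (1 + ‖𝒳.L.weierstrassP z‖ + ‖ξ‖) ^ (ay * n))) := by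
              gcongr
              exact hM z ξ
          _ = _ := by ring)
    refine ⟨∑ j ∈ Finset.range (n + 1), monomial j (p j), ?_⟩
    filter_upwards [hp] with z hz ξ hξ
    obtain ⟨h5, h6⟩ := hz ξ hξ
    exact sp_mk (G := sm (𝒳.Φf z ξ) F y) (h5 ▸ deg_sm _ _ _) h6

end Pool.Agent.P.MP_7ede32_ag.Hod
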