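import Pool.Agent.P.MP_7ede32_ag.Hod.StX
import Pool.Agent.P.MP_7ede32_ag.Hod.StB
import Pool.Agent.P.MP_7ede32_ag.Hod.MdT

/-!
A rational differential that is holomorphic on the fibres is holomorphic on the surface.
-/

open Set Filter Topology Polynomial Matrix Bornology Metric

noncomputable section

namespace Pool.Agent.P.MP_7ede32_ag.Hod

open Geo (Sf0 wedge D)
open Ell (E2 jac)

namespace UpP

variable {𝒳 : Sx} {e : Ch 𝒳.X}

/-- a vertical slice of a chart -/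
theorem tendsto_slice {y : E2} (hy : y ∈ e.target) :
    Tendsto (fun v => e.symm (y.1, v)) (𝓝[≠] y.2) (𝓝[≠] (e.symm y)) := by
  have h0 : Tendsto (fun v : ℂ => ((y.1, v) : E2)) (𝓝 y.2) (𝓝 y) :=
    (continuous_const.prodMk continuous_id).continuousAt.tendsto
  refine tendsto_nhdsWithin_iff.2
    ⟨((e.continuousAt_symm hy).tendsto.comp h0).mono_left nhdsWithin_le_nhds, ?_⟩
  filter_upwards [mem_nhdsWithin_of_mem_nhds (h0.eventually (e.open_target.mem_nhds hy)),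
    self_mem_nhdsWithin] with v h1 h2 h3
  exact h2 (congrArg Prod.snd (e.symm.injOn h1 hy h3))

end UpP

theorem sUp (h1 : SQuot) (h2 : SExtC) : SUp := by
  intro 𝒳 Q Ψ ν F hF hH
  obtain ⟨G, hG, hQ⟩ := h1 𝒳 Q ν F hF
  have hΨ : ∀ᶠ t in cd, t ∈ Ψ.G := Ψ.mem
  have hG' : ∀ᶠ t in cd, t ∈ G := hG
  filter_upwards [hG', cd_nhds (hΨ.and hH)] with z hz hn p hp
  obtain ⟨a₀, rfl⟩ := ((Ψ.mx z hn.self_of_nhds.1).fb.rng p).2 hp
  have hNF := (Ψ.mx z hn.self_of_nhds.1).fb.nf a₀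
  generalize (Ψ.mx z hn.self_of_nhds.1).fb.E a₀ = e at hNF
  generalize (Ψ.mx z hn.self_of_nhds.1).fb.ι a₀ = p at hNF hp
  have he := hNF.1
  have hs := hNF.2.1
  obtain ⟨a, b, ha, hb, hr, hb0⟩ := hQ z p hp e he hs
  have hl := hNF.lam_symm
  have sl : ∀ y : E2, Tendsto (fun v : ℂ => ((y.1, v) : E2)) (𝓝[≠] y.2) (𝓝 y) := fun y =>
    ((continuous_const.prodMk continuous_id).continuousAt.tendsto).mono_left nhdsWithin_le_nhds
  obtain ⟨ρ, hρ, hsl⟩ := Pm.slice hNF hr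
  obtain ⟨c, hc, hac⟩ := h2 (a ∘ e.symm) (b ∘ e.symm) {0} (hNF.an ha) (hNF.an hb) (by
    intro h0
    have t1 := UpP.tendsto_slice hl.self_of_nhds.1
    rw [hNF.symm_zero] at t1
    obtain ⟨v, v1, v2, v3⟩ := ((t1.eventually (hb0 hz)).and (((sl 0).eventually hl).and
      (mem_nhdsWithin_of_mem_nhds h0))).exists
    refine v1 ?_ v3
    simpa using v2.2.2) (countable_singleton 0) (by
    have f1 : Tendsto (fun y : E2 => y.1) (𝓝 0) (𝓝 0) := continuous_fst.continuousAt.tendsto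
    have f2 : Tendsto (fun y : E2 => y.2) (𝓝 0) (𝓝 0) := continuous_snd.continuousAt.tendsto
    have f3 : Tendsto (fun y : E2 => z + y.1 ^ 1) (𝓝 0) (𝓝 z) := by
      simpa using f1.const_add z
    filter_upwards [f1.eventually (eventually_nhdsWithin_iff.1 hsl),
      f2.eventually (ball_mem_nhds _ hρ), f3.eventually hn, hl.eventually_nhds,
      hNF.eventually.1 (Pm.jm_jm (Q := Q) hp)] with y y1 y2 y3 y4 y5 y6
    obtain ⟨y7, y8, y9⟩ := y4.self_of_nhds
    obtain ⟨c, hc⟩ := (Ψ.mx _ y3.1).bdd (y3.2 y3.1) y9 he (e.map_target y7)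
    refine ⟨c, ?_⟩
    have t1 := UpP.tendsto_slice y7
    rw [y8] at y5
    filter_upwards [(y1 y6 _ y2).1, t1.eventually hc, (sl y).eventually y4,
      t1.eventually (mem_nhdsWithin_of_mem_nhds y5)] with v v1 v2 v3 v4
    have v5 := v2 v3.2.2
    rw [show Q.jm (z + y.1 ^ 1) (e.symm (y.1, v)) = Q.jm z (e.symm (y.1, v)) from v4] at v5
    simp only [Function.comp_apply]
    rw [← v1.2, norm_mul]
    exact mul_le_mul_of_nonneg_right v5 (norm_nonneg _))
  have h0 : e p = 0 := hNF.2.2.1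
  have hle : ∀ᶠ y in 𝓝 p, e.symm (e y) = y := e.eventually_left_inverse hs
  have te : Tendsto e (𝓝 p) (𝓝 0) := h0 ▸ (e.continuousAt hs).tendsto
  refine Pm.Co.hx (α := fun y => c (e y)) ⟨?_, ?_⟩ he hs
  · refine Geo.Sf0.anAt_of_chart he hs ?_
    rw [h0]
    refine hc.congr ?_
    filter_upwards [hl] with v hv
    simp only [Function.comp_apply, e.right_inv hv.1]
  · filter_upwards [hr, Pm.nb_le hle, Pm.nb_le (te.eventually hac)] with y y1 y2 y3
    have y4 : a (e.symm (e y)) = c (e y) * b (e.symm (e y)) := y3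
    rw [show e.symm (e y) = y from y2, ← y1.2] at y4
    exact mul_right_cancel₀ y1.1 y4

end Pool.Agent.P.MP_7ede32_ag.Hod
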