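import Pool.Agent.P.MP_7ede32_ag.Hod.StX
import Pool.Agent.P.MP_7ede32_ag.Hod.StB
import Pool.Agent.P.MP_7ede32_ag.Hod.HXT
import Pool.Agent.P.MP_7ede32_ag.Hod.RaT

/-!
The Wronskian of the Lie derivatives of a section, at a fibre.
-/

open Set Filter Topology

namespace Pool.Agent.P.MP_7ede32_ag.Hod

open Geo (Sf0 D)
open Ell (E2)

namespace Wr1P

variable {𝒳 : Sx} {Q : Pm 𝒳} {s F : E3 → ℂ} {e : Ch 𝒳.X} {p : 𝒳.X} {z : ℂ} {ν : ℕ}

theorem an_du {f : E2 → ℂ} {y : E2} (h : AnalyticAt ℂ f y) (k : ℕ) :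
    AnalyticAt ℂ (du^[k] f) y := by
  induction k with
  | zero => exact h
  | succ k ih =>
    rw [Function.iterate_succ_apply']
    exact ((ContinuousLinearMap.apply ℂ ℂ ((1, 0) : E2)).analyticAt _).comp ih.fderiv

/-- the Lie derivative is the derivative in the first variable -/
theorem step (hs : Q.𝒴.Rat s) (hF : Q.𝒴.Rat F) (h : Q.Str e p z s) {g : E2 → ℂ}
    (hg : ∀ᶠ y in Q.Nb p z, F (Q.jm z y) * 𝒳.W e y ^ ν = g (e y)) :
    ∀ᶠ y in Q.Nb p z, Q.𝒴.LD ν s F (Q.jm z y) * 𝒳.W e y ^ ν = du g (e y) := by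
  obtain ⟨a1, a2, -, a4, -, a6⟩ := h.1
  filter_upwards [Q.nb_nhds a4 (hg.and h.2), Q.nb_par a4 a1 a2, Q.nb_gen hs.1, Q.nb_gen hF.1,
    (a6.and h.1.W_eq).eventually_nhds.filter_mono Q.nb_le] with y b1 ⟨b2, b3, b4, b5⟩ b6 b7 b8
  have c0 : (Q.jm z ∘ e.symm) (e y) = Q.jm z y := congrArg (Q.jm z) (e.left_inv b2)
  have c1 := (Sx.eventually_chart b2).1 (b1.and b8)
  have c2 : ∀ᶠ v in 𝓝 (e y), e (e.symm v) = v := e.eventually_right_inverse' b2
  have c3 : ∀ v, e (e.symm v) = v → D 𝒳.x e (e.symm v) = fderiv ℂ (𝒳.x ∘ e.symm) v := fun v hv =>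
    congrArg (fderiv ℂ (𝒳.x ∘ e.symm)) hv
  have c4 : ∀ u : ℂ, deriv (fun u => z + u) u = 1 := fun u => by simp
  have c5 := Pl.str (γ := Q.jm z ∘ e.symm) (y := e y) ν (c0 ▸ b3) b4 (τ := fun u => z + u)
    (analyticAt_const.add analyticAt_id) (by
      filter_upwards [b5, c1, c2] with v d1 d2 d3
      refine ⟨d1, d2.2.1.trans ?_⟩
      rw [d3, pow_one]) (c0 ▸ b7) (c0 ▸ b6) (x := 𝒳.x ∘ e.symm) rfl (by
      filter_upwards [c1, c2] with v d2 d3
      rw [c4, one_mul]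
      exact (congrArg (· (1, 0)) (c3 v d3)).symm.trans d2.1.2)
  have c6 : (fun v => F ((Q.jm z ∘ e.symm) v) * dw (𝒳.x ∘ e.symm) v ^ ν) =ᶠ[𝓝 (e y)] g := by
    filter_upwards [c1, c2] with v d2 d3
    have d4 := d2.1.1
    rw [d2.2.2, c3 v d3, d3] at d4
    simpa [dw] using d4
  rw [c4, one_mul, c0, du, c6.fderiv_eq] at c5
  rw [b8.self_of_nhds.2, du, c5]
  simp [dw, D]

theorem iter (hs : Q.𝒴.Rat s) (hF : Q.𝒴.Rat F) (h : Q.Str e p z s) {α : 𝒳.X → ℂ}
    (hα : Q.Co e p z ν F α) (k : ℕ) :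
    Q.Co e p z ν ((Q.𝒴.LD ν s)^[k] F) fun y => du^[k] (α ∘ e.symm) (e y) := by
  obtain ⟨a1, a2, a3, a4, -, -⟩ := h.1
  constructor
  · refine 𝒳.S.anAt_of_chart a1 a2 ((a3 ▸ an_du (h.1.an hα.1) k).congr ?_)
    filter_upwards [e.eventually_right_inverse' a2] with v hv
    rw [Function.comp_apply, hv]
  induction k with
  | zero =>
    filter_upwards [hα.2, Q.nb_par a4 a1 a2] with y b1 b2
    exact b1.trans (congrArg α (e.left_inv b2.1).symm)
  | succ k ih =>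
    simp only [Function.iterate_succ_apply']
    exact step hs (hs.iter ν hF k) h ih

end Wr1P

open Wr1P in
theorem sWr1 (h1 : SWrP) (h2 : SInd) : SWr1 := by
  intro 𝒳 T s F e p z ν r α c hs hF h hα hc hi
  have co := iter hs hF h hα
  obtain ⟨-, a2, a3, a4, -, -⟩ := h.1
  have hf := h.1.an hα.1
  have hr : ∀ᶠ v in 𝓝 (0 : E2), e (e.symm v) = v := a3 ▸ e.eventually_right_inverse' a2
  obtain ⟨w, ⟨w1, w2⟩, w3⟩ := h1 r (α ∘ e.symm) (fun k u => rv (c k) (z + u)) hf (by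
    have b1 := T.Q.nb_eq a4 (F := fun y => du^[r + 1] (α ∘ e.symm) (e y))
      (G := fun y => ∑ k, rv (c k) (𝒳.lam z y) * du^[k] (α ∘ e.symm) (e y)) (by
        filter_upwards [T.Q.nb_gen hc, (co (r + 1)).2,
          eventually_all.2 fun k : Fin (r + 1) => (co k).2] with y d1 d2 d3
        rw [← d2, d1, Finset.sum_mul]
        exact Finset.sum_congr rfl fun k _ => by rw [← d3 k, mul_assoc]; rfl)
    have b2 : ∀ᶠ y in 𝓝 p, 𝒳.lam z y ≠ z → ∀ k, Rg (c k) (𝒳.lam z y) :=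
      a4.tendsto_lam.eventually (eventually_nhdsWithin_iff.1
        (Full.cd_iff.1 (eventually_all.2 fun k => rg_cd (c k)) z))
    have b3 : ∀ᶠ y in 𝓝 p, 𝒳.lam z y ≠ z → du^[r + 1] (α ∘ e.symm) (e y) =
        ∑ k, rv (c k) (𝒳.lam z y) * du^[k] (α ∘ e.symm) (e y) := by
      filter_upwards [b1, b2, a4.an_lam.eventually, (co (r + 1)).1.eventually,
        eventually_all.2 fun k : Fin (r + 1) => (co k).1.eventually] with y d1 d2 d3 d4 d5 d6
      exact d1 d4.continuousAt (tendsto_finsetSum _ fun k _ =>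
        ((d2 d6 k).an.continuousAt.comp d3.continuousAt).mul (d5 k).continuousAt)
    filter_upwards [h.1.eventually.1 b3, h.1.lam_symm, hr] with v d1 d2 d3 d4
    rw [d3, d2.2.1, pow_one] at d1
    exact d1 fun d5 => d4 (add_eq_left.1 d5)) (by
    have b1 := h2 𝒳 T e p z 1 (r + 1) ν _ _ h.1 (fun k => co k)
      ((((eventually_all.2 fun k : Fin (r + 1) => (hs.iter ν hF k).ratF).filter_mono
        cc_le_cd).and hi).filter_mono inf_le_right)
    refine (b1.and_eventually (hr.curry_nhds.filter_mono nhdsWithin_le_nhds)).mono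
      fun u d a ha => d.1 a ?_
    filter_upwards [ha, d.2] with v d1 d2
    rw [d2]
    exact d1)
  have t1 : Tendsto (fun t => t - z) (𝓝[≠] z) (𝓝[≠] 0) :=
    tendsto_nhdsWithin_iff.2 ⟨((continuous_sub_right z).tendsto' z 0 (sub_self z)).mono_left
      nhdsWithin_le_nhds, eventually_mem_nhdsWithin.mono fun t ht => sub_ne_zero.2 ht⟩
  refine ⟨fun t => w (t - z), ⟨w1.comp_of_eq (analyticAt_id.sub analyticAt_const) (sub_self z),
    (t1.eventually w2).mono fun t ht => ⟨ht.1, ?_⟩⟩, fun h0 => ?_⟩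
  · rw [deriv_comp_sub_const, ht.2]
    simp only [add_sub_cancel]
  · simp only [sub_self]
    have b0 : AnalyticAt ℂ (fun v : ℂ => ((0, v) : E2)) 0 := analyticAt_const.prod analyticAt_id
    have b1 : AnalyticAt ℂ (fun v : ℂ => (α ∘ e.symm) (0, v)) 0 := hf.comp_of_eq b0 rfl
    refine w3 (b1.frequently_zero_iff_eventually_zero.1 (Eventually.frequently ?_))
    have b2 := (show Tendsto (fun v : ℂ => ((0, v) : E2)) (𝓝 0) (𝓝 0) from b0.continuousAt).eventually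
      ((h.1.eventually.1 (eventually_nhdsWithin_iff.1 h0)).and (h.1.lam_symm.and hr))
    filter_upwards [b2.filter_mono nhdsWithin_le_nhds, self_mem_nhdsWithin] with v d1 d2
    refine d1.1 (fun d3 => d2 ?_) (by simpa using d1.2.1.2.2)
    have d4 := d1.2.2
    rw [d3, a3] at d4
    exact (congrArg Prod.snd d4).symm

end Pool.Agent.P.MP_7ede32_ag.Hod
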