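import Pool.Agent.P.MP_7ede32_ag.Hod.AllR
import Pool.Agent.P.MP_7ede32_ag.Hod.Main
import Pool.Agent.P.MP_7ede32_ag.Hod.Concl0
import Pool.Agent.P.MP_7ede32_ag.Hod.MgB
import Pool.Agent.P.MP_7ede32_ag.Hod.Bad2
import Pool.Agent.P.MP_7ede32_ag.Hod.CovX1
import Pool.Agent.P.MP_7ede32_ag.Hod.CovX2
import Pool.Agent.P.MP_7ede32_ag.Hod.Intg
import Pool.Agent.P.MP_7ede32_ag.Hod.SymX
import Pool.Agent.P.MP_7ede32_ag.Hod.PmE
import Pool.Agent.P.MP_7ede32_ag.Hod.RatQ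
import Pool.Agent.P.MP_7ede32_ag.Hod.FbE
import Pool.Agent.P.MP_7ede32_ag.Hod.MdE
import Pool.Agent.P.MP_7ede32_ag.Hod.Quot
import Pool.Agent.P.MP_7ede32_ag.Hod.Up
import Pool.Agent.P.MP_7ede32_ag.Hod.Md2
import Pool.Agent.P.MP_7ede32_ag.Hod.Mero
import Pool.Agent.P.MP_7ede32_ag.Hod.NF0
import Pool.Agent.P.MP_7ede32_ag.Hod.Lat2
import Pool.Agent.P.MP_7ede32_ag.Hod.Low1
import Pool.Agent.P.MP_7ede32_ag.Hod.LowB
import Pool.Agent.P.MP_7ede32_ag.Hod.Leaf1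
import Pool.Agent.P.MP_7ede32_ag.Hod.Leaf3
import Pool.Agent.P.MP_7ede32_ag.Hod.Wr1
import Pool.Agent.P.MP_7ede32_ag.Hod.SecV
import Pool.Agent.P.MP_7ede32_ag.Hod.SecA
import Pool.Agent.P.MP_7ede32_ag.Hod.CovT
import Pool.Agent.P.MP_7ede32_ag.Hod.CovA
import Pool.Agent.P.MP_7ede32_ag.Hod.CovS
import Pool.Agent.P.MP_7ede32_ag.Hod.Cov2

/-!
Assembly.
-/

namespace Pool.Agent.P.MP_7ede32_ag.Hod

open Geo (sinv)

theorem aMgB : SMgB := sMgB (Full.sW Full.aPch Full.sSecId) Full.sRho Full.sSecId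

theorem aBad2 : SBad2 := sBad2 Full.aBad aBrCh

theorem aNF : SNF := sNF aBrCh sinv aExt2

theorem aIntg : SIntg := sIntg (Full.sSieg Full.sSchw)

theorem aSymX : SSymX :=
  sSymX aBad2 (sCovX1 sinv) (sCovX2 aBad2 (sCovX1 sinv) Full.aPch) (sSymR aPolyR)

theorem aQuot : SQuot := sQuot Full.sHom

theorem aMero : SMero := sMero aQuot (sVert aExtC)

theorem aInd : SInd := sInd sIrr

theorem aNF0 : SNF0 := sNF0 aNF aExtC aExt2

theorem aLat1 : SLat1 := sLat1 aMero (sLat2 aMero aNF aInd)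

theorem aLowB : SLowB := sLowB aNF0 sJet (sLow1 (sMean sArea) aPr)

theorem aConcl0 : SConcl0 := sConcl0 Geo.smain_all Full.aPhi Full.aMfB Full.aHf Full.sLift

theorem concl_all (𝒳 : Sx) : Concl 𝒳.S := by
  obtain ⟨K⟩ := exists_tk (sPm aBad2 (sCovX1 sinv) aIntg aSymX sBez sinv)
    (sRatQ (sCovX1 sinv) aIntg aSymX sinv) (sMdE (sFbE Full.aPch) sRef) (sUp aQuot aExtC) sMd2 𝒳
  obtain ⟨g, N, hN⟩ := aBas _ _ K.Φ
  let T : Cx 𝒳 := ⟨K, g, N, hN⟩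
  have hg := two_le sSecG aG2 T
  refine concl_of T aDich aLat1 aGm aLowB (positive (sSecA aNF aInd) sCovT sCovA (sCovS sPull)
    (sCov2 sPull sWpInj Full.sSecId) (sCov3 aConcl0 Full.sLift) T) fun h1 h2 => ?_
  obtain ⟨m, s, a1, a2, a3⟩ :=
    exists_vf aConn2 sCw aSepY aPartY (sHypA sIrr) (sHypB sIrr) aVF T hg h1
  exact not_str (sSecV (sIndX sinv)) sCyc1 aCyc2 (sWr1 sWrP aInd) (sEllRes aSig) K a1.rat a2
    (exists_str aLat1 aLowB (sFlatFr aFlat2) (sLeaf1 aNF0 aInd aRel2 (sLeafP Full.aDiv2))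
      (sLeaf2 sinv) (sLeaf3 sRel1 aSepY sEuler) T hg h2 a1 a3)

end Pool.Agent.P.MP_7ede32_ag.Hod
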