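import Pool.Agent.P.MP_7ede32_ag.Hod.RU

/-!
The space of adjoint polynomials.
-/

open Set Filter Topology Polynomial

noncomputable section

namespace Pool.Agent.P.MP_7ede32_ag.Hod

open MP_5d7cf0_gt.T (RS zc loc An D Sm Db Hf Om)

namespace A2OP

variable {Y : Type} [TopologicalSpace Y] [ChartedSpace ℂ Y] (M : PM Y)

/-- the form `N dx / P_y` outside `Sg` -/
def L : ℂ[X][X] →ₗ[ℂ] ({p // p ∉ M.Sg} → ℂ) where
  toFun N p := M.ev N p / M.ev (derivative M.P) p * D M.x p
  map_add' a b := by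
    funext p
    simp only [PM.ev, evalEval_add, Pi.add_apply]
    ring
  map_smul' c a := by
    funext p
    simp only [PM.ev, evalEval_smul, Pi.smul_apply, RingHom.id_apply, smul_eq_mul]
    ring

/-- restriction to the complement of `Sg` -/
def res : (Y → ℂ) →ₗ[ℂ] ({p // p ∉ M.Sg} → ℂ) := LinearMap.funLeft ℂ ℂ Subtype.val

theorem rel_iff {N : ℂ[X][X]} {w : Y → ℂ} : res M w = L M N ↔
    ∀ p ∉ M.Sg, w p = M.ev N p / M.ev (derivative M.P) p * D M.x p :=
  ⟨fun h p hp => congrFun h ⟨p, hp⟩, fun h => funext fun p => h p.1 p.2⟩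

/-- the space of adjoint polynomials -/
def V : Submodule ℂ ℂ[X][X] :=
  (degreeLT ℂ[X] M.P.natDegree).restrictScalars ℂ ⊓ ((Om Y).map (res M)).comap (L M)

theorem mem_V {N : ℂ[X][X]} :
    N ∈ V M ↔ N.degree < M.P.degree ∧ ∃ w ∈ Om Y, res M w = L M N := by
  rw [degree_eq_natDegree M.monic.ne_zero, ← mem_degreeLT]
  rfl

variable [RS Y]

theorem res_inj {w : Y → ℂ} (hw : w ∈ Om Y) (h : res M w = 0) : w = 0 :=
  MP_5d7cf0_gt.T.om_eq_zero_of_finite hw M.fin fun y hy => congrFun h ⟨y, hy⟩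

theorem L_inj (h3 : SIrr) {N : ℂ[X][X]} (hN : N.degree < M.P.degree) (h : L M N = 0) :
    N = 0 := by
  refine eq_zero_of_dvd_of_degree_lt ((h3 Y M).1 N ?_) hN
  filter_upwards [M.toXC.off] with p hp
  have h1 : M.ev N p / M.ev (derivative M.P) p * D M.x p = 0 := congrFun h ⟨p, hp⟩
  exact (div_eq_zero_iff.1 ((mul_eq_zero.1 h1).resolve_right (M.reg p hp).2.1)).resolve_right
    (M.der_ne hp)

end A2OP

open A2OP in
theorem sA2O (h1 : SVA) (h2 : SFinD) (h3 : SIrr) : SA2O := by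
  intro Y _ _ _ M
  have := (h2 Y M).1
  have hV : ∀ N, N ∈ V M ↔ N.degree < M.P.degree ∧ AV M.P M.R N := by
    intro N
    rw [mem_V]
    refine and_congr_right fun hN => ⟨?_, fun h => ?_⟩
    · rintro ⟨w, hw, e⟩
      obtain ⟨N', d', a', e'⟩ := (h1 Y M).2 w hw
      have : N - N' = 0 := L_inj M h3 ((degree_sub_le _ _).trans_lt (max_lt hN d'))
        (by rw [map_sub, ← e, ← (rel_iff M).2 e', sub_self])
      rwa [sub_eq_zero.1 this]
    · obtain ⟨w, hw, e⟩ := (h1 Y M).1 N h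
      exact ⟨w, hw, (rel_iff M).2 e⟩
  refine ⟨V M, ?_, hV, fun g N hN => ?_⟩
  · refine FiniteDimensional.of_injective
      ((L M).restrict (p := V M) (q := (Om Y).map (res M)) fun N hN => hN.2) ?_
    refine (injective_iff_map_eq_zero _).2 fun N hN => Subtype.ext ?_
    exact L_inj M h3 ((mem_V M).1 N.2).1 (congrArg Subtype.val hN)
  · choose w hw e using fun i => ((mem_V M).1 (hN i)).2
    have key : ∀ c : Fin g → ℂ, res M (∑ i, c i • w i) = L M (∑ i, c i • N i) := fun c => by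
      simp only [map_sum, map_smul, e]
    refine ⟨w, fun i => ⟨hw i, (rel_iff M).1 (e i)⟩, fun hl => ?_, fun hs w' hw' => ?_⟩
    · rw [Fintype.linearIndependent_iff] at hl ⊢
      intro c hc
      refine hl c (L_inj M h3 ((mem_V M).1
        ((V M).sum_mem fun i _ => (V M).smul_mem _ (hN i))).1 ?_)
      rw [← key, hc, map_zero]
    · obtain ⟨N', d', a', e'⟩ := (h1 Y M).2 w' hw'
      obtain ⟨c, hc⟩ := (Submodule.mem_span_range_iff_exists_fun ℂ).1
        (hs N' ((hV N').2 ⟨d', a'⟩))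
      refine (Submodule.mem_span_range_iff_exists_fun ℂ).2 ⟨c, sub_eq_zero.1 (res_inj M
        ((Om Y).sub_mem ((Om Y).sum_mem fun i _ => (Om Y).smul_mem _ (hw i)) hw') ?_)⟩
      rw [map_sub, key, hc, (rel_iff M).2 e', sub_self]

end Pool.Agent.P.MP_7ede32_ag.Hod
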