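import Pool.Agent.P.MP_7ede32_ag.Hod.AT1

/-!
Toolbox: specialisation of polynomials.
-/

open Set Filter Topology MeasureTheory ComplexConjugate Polynomial Matrix

noncomputable section

namespace Pool.Agent.P.MP_7ede32_ag.Hod

open Full (Mer)
open Ell (E2)

variable {L : PeriodPair} {c : KK L} {t w : ℂ} {p p' : (KK L)[X]} {N N' : (KK L)[X][X]} {q : E3}

@[simp] theorem coeff_sp1 (i : ℕ) : (sp1 p t).coeff i = rv (p.coeff i) t := by
  rw [sp1, Polynomial.coeff_sum, Polynomial.sum]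
  simp only [coeff_monomial, Finset.sum_ite_eq']
  split_ifs with h
  · rfl
  · rw [notMem_support_iff.1 h, rv_zero]

@[simp] theorem sp1_zero : sp1 (0 : (KK L)[X]) t = 0 := by
  ext i
  simp

@[simp] theorem coeff_sp (j : ℕ) : (sp N t).coeff j = sp1 (N.coeff j) t := by
  rw [sp, Polynomial.coeff_sum, Polynomial.sum]
  simp only [coeff_monomial, Finset.sum_ite_eq']
  split_ifs with h
  · rfl
  · rw [notMem_support_iff.1 h, sp1_zero]

@[simp] theorem sp1_one : sp1 (1 : (KK L)[X]) t = 1 := by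
  ext i
  simp only [coeff_sp1, coeff_one]
  split_ifs <;> simp

@[simp] theorem sp1_X : sp1 (X : (KK L)[X]) t = X := by
  ext i
  simp only [coeff_sp1, coeff_X]
  split_ifs <;> simp

@[simp] theorem sp1_C : sp1 (C c) t = C (rv c t) := by
  ext i
  simp only [coeff_sp1, coeff_C]
  split_ifs <;> simp

@[simp] theorem sp_zero : sp (0 : (KK L)[X][X]) t = 0 := by
  refine Polynomial.ext fun i => ?_
  simp

@[simp] theorem sp_one : sp (1 : (KK L)[X][X]) t = 1 := by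
  refine Polynomial.ext fun i => ?_
  simp only [coeff_sp, coeff_one]
  split_ifs <;> simp

@[simp] theorem sp_X : sp (X : (KK L)[X][X]) t = X := by
  refine Polynomial.ext fun i => ?_
  simp only [coeff_sp, coeff_X]
  split_ifs <;> simp

@[simp] theorem sp_C : sp (C p) t = C (sp1 p t) := by
  refine Polynomial.ext fun i => ?_
  simp only [coeff_sp, coeff_C]
  split_ifs <;> simp

theorem sp_hom {k : Type} [CommRing k] {f : k →+* KK L} {ι : k →+* ℂ}
    (h : ∀ c : k, Rg (f c) t ∧ ι c = rv (f c) t) :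
    (∀ p₀ : k[X], Rg1 (p₀.map f) t ∧ sp1 (p₀.map f) t = p₀.map ι) ∧
    ∀ N₀ : k[X][X], Rg2 (N₀.map (mapRingHom f)) t ∧
      sp (N₀.map (mapRingHom f)) t = N₀.map (mapRingHom ι) := by
  have h1 : ∀ p₀ : k[X], Rg1 (p₀.map f) t ∧ sp1 (p₀.map f) t = p₀.map ι := fun p₀ =>
    ⟨fun i => by rw [coeff_map]; exact (h _).1, by
      ext i
      rw [coeff_sp1, coeff_map, coeff_map, (h _).2]⟩
  refine ⟨h1, fun N₀ => ⟨fun j => ?_, Polynomial.ext fun j => ?_⟩⟩
  · rw [coeff_map]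
    exact (h1 _).1
  · rw [coeff_sp, coeff_map, coeff_map]
    exact (h1 _).2

theorem sp1_map (p₀ : (Ot L t)[X]) :
    Rg1 (p₀.map (Ot L t).subtype) t ∧ sp1 (p₀.map (Ot L t).subtype) t = p₀.map (evO L t) := by
  exact (sp_hom (f := (Ot L t).subtype) (ι := evO L t) fun c => ⟨c.2, rfl⟩).1 p₀

theorem sp_map (N₀ : (Ot L t)[X][X]) : Rg2 (N₀.map (mapRingHom (Ot L t).subtype)) t ∧
    sp (N₀.map (mapRingHom (Ot L t).subtype)) t = N₀.map (mapRingHom (evO L t)) := by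
  exact (sp_hom (f := (Ot L t).subtype) (ι := evO L t) fun c => ⟨c.2, rfl⟩).2 N₀

theorem Rg1.lift (h : Rg1 p t) : ∃ p₀ : (Ot L t)[X], p₀.map (Ot L t).subtype = p := by
  exact (mem_lifts p).1 ((lifts_iff_coeff_lifts p).2 fun i => ⟨⟨_, h i⟩, rfl⟩)

theorem Rg2.lift (h : Rg2 N t) :
    ∃ N₀ : (Ot L t)[X][X], N₀.map (mapRingHom (Ot L t).subtype) = N := by
  exact (mem_lifts N).1 ((lifts_iff_coeff_lifts N).2 fun j => (h j).lift)

theorem sp_iota {k : Subfield (KK L)} {ι : k →+* ℂ} (h : ∀ c : k, Rg c.1 t ∧ ι c = rv c.1 t) :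
    (∀ p₀ : k[X], Rg1 (p₀.map k.subtype) t ∧ sp1 (p₀.map k.subtype) t = p₀.map ι) ∧
    ∀ N₀ : k[X][X], Rg2 (N₀.map (mapRingHom k.subtype)) t ∧
      sp (N₀.map (mapRingHom k.subtype)) t = N₀.map (mapRingHom ι) := by
  exact sp_hom (f := k.subtype) h

theorem sp_cst (N₀ : ℂ[X][X]) : Rg2 (N₀.map (mapRingHom (cst L))) t ∧
    sp (N₀.map (mapRingHom (cst L))) t = N₀ := by
  have h := (sp_hom (t := t) (f := cst L) (ι := RingHom.id ℂ)
    fun c => ⟨(rg_cst c).1, (rg_cst c).2.symm⟩).2 N₀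
  rwa [mapRingHom_id, Polynomial.map_id] at h

theorem sp1_cst (p₀ : ℂ[X]) : Rg1 (p₀.map (cst L)) t ∧ sp1 (p₀.map (cst L)) t = p₀ := by
  have h := (sp_hom (t := t) (f := cst L) (ι := RingHom.id ℂ)
    fun c => ⟨(rg_cst c).1, (rg_cst c).2.symm⟩).1 p₀
  rwa [Polynomial.map_id] at h

theorem rg1_zero : Rg1 (0 : (KK L)[X]) t := fun i => by
  rw [coeff_zero]
  exact rg_zero

theorem rg1_ev {F : Filter ℂ} (h : ∀ i, ∀ᶠ t in F, Rg (p.coeff i) t) : ∀ᶠ t in F, Rg1 p t := by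
  filter_upwards [(eventually_all_finset p.support).2 fun i _ => h i] with t ht i
  by_cases hi : i ∈ p.support
  · exact ht i hi
  · rw [notMem_support_iff.1 hi]
    exact rg_zero

theorem rg2_ev {F : Filter ℂ} (h : ∀ i, ∀ᶠ t in F, Rg1 (N.coeff i) t) : ∀ᶠ t in F, Rg2 N t := by
  filter_upwards [(eventually_all_finset N.support).2 fun i _ => h i] with t ht i
  by_cases hi : i ∈ N.support
  · exact ht i hi
  · rw [notMem_support_iff.1 hi]
    exact rg1_zero

theorem rg1_cd (p : (KK L)[X]) : ∀ᶠ t in cd, Rg1 p t := by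
  exact rg1_ev fun i => rg_cd _

theorem rg2_cd (N : (KK L)[X][X]) : ∀ᶠ t in cd, Rg2 N t := by
  exact rg2_ev fun i => rg1_cd _

theorem Rg1.eventually (h : Rg1 p t) : ∀ᶠ s in 𝓝 t, Rg1 p s := by
  exact rg1_ev fun i => (h i).eventually

theorem Rg2.eventually (h : Rg2 N t) : ∀ᶠ s in 𝓝 t, Rg2 N s := by
  exact rg2_ev fun i => (h i).eventually

theorem rg1_C (h : Rg c t) : Rg1 (C c) t := by
  intro i
  rw [coeff_C]
  split_ifs
  exacts [h, rg_zero]

theorem rg2_C (h : Rg1 p t) : Rg2 (C p) t := by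
  intro i
  rw [coeff_C]
  split_ifs
  exacts [h, rg1_zero]

theorem rg1_X : Rg1 (X : (KK L)[X]) t := by
  simpa using (sp1_map (L := L) (t := t) X).1

theorem rg2_X : Rg2 (X : (KK L)[X][X]) t := by
  simpa using (sp_map (L := L) (t := t) X).1

theorem Rg1.add (h : Rg1 p t) (h' : Rg1 p' t) :
    Rg1 (p + p') t ∧ sp1 (p + p') t = sp1 p t + sp1 p' t := by
  obtain ⟨a, rfl⟩ := h.lift
  obtain ⟨b, rfl⟩ := h'.lift
  rw [(sp1_map a).2, (sp1_map b).2, ← Polynomial.map_add, ← Polynomial.map_add]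
  exact sp1_map _

theorem Rg1.sub (h : Rg1 p t) (h' : Rg1 p' t) :
    Rg1 (p - p') t ∧ sp1 (p - p') t = sp1 p t - sp1 p' t := by
  obtain ⟨a, rfl⟩ := h.lift
  obtain ⟨b, rfl⟩ := h'.lift
  rw [(sp1_map a).2, (sp1_map b).2, ← Polynomial.map_sub, ← Polynomial.map_sub]
  exact sp1_map _

theorem Rg1.mul (h : Rg1 p t) (h' : Rg1 p' t) :
    Rg1 (p * p') t ∧ sp1 (p * p') t = sp1 p t * sp1 p' t := by
  obtain ⟨a, rfl⟩ := h.lift
  obtain ⟨b, rfl⟩ := h'.lift
  rw [(sp1_map a).2, (sp1_map b).2, ← Polynomial.map_mul, ← Polynomial.map_mul]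
  exact sp1_map _

theorem Rg1.pow (h : Rg1 p t) (n : ℕ) : Rg1 (p ^ n) t ∧ sp1 (p ^ n) t = sp1 p t ^ n := by
  obtain ⟨a, rfl⟩ := h.lift
  rw [(sp1_map a).2, ← Polynomial.map_pow, ← Polynomial.map_pow]
  exact sp1_map _

theorem Rg1.derivative (h : Rg1 p t) :
    Rg1 (derivative p) t ∧ sp1 (derivative p) t = derivative (sp1 p t) := by
  obtain ⟨a, rfl⟩ := h.lift
  rw [(sp1_map a).2, derivative_map, derivative_map]
  exact sp1_map _

theorem rg1_prod {ι : Type*} {s : Finset ι} {f : ι → (KK L)[X]} (h : ∀ i ∈ s, Rg1 (f i) t) :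
    Rg1 (∏ i ∈ s, f i) t ∧ sp1 (∏ i ∈ s, f i) t = ∏ i ∈ s, sp1 (f i) t := by
  classical
  induction s using Finset.induction_on with
  | empty => simpa using (rg1_X (L := L) (t := t)).pow 0
  | insert a s ha ih =>
    have h1 := ih fun i hi => h i (Finset.mem_insert_of_mem hi)
    rw [Finset.prod_insert ha, Finset.prod_insert ha, ← h1.2]
    exact (h a (Finset.mem_insert_self _ _)).mul h1.1

theorem Rg2.add (h : Rg2 N t) (h' : Rg2 N' t) :
    Rg2 (N + N') t ∧ sp (N + N') t = sp N t + sp N' t := by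
  obtain ⟨a, rfl⟩ := h.lift
  obtain ⟨b, rfl⟩ := h'.lift
  rw [(sp_map a).2, (sp_map b).2, ← Polynomial.map_add, ← Polynomial.map_add]
  exact sp_map _

theorem Rg2.sub (h : Rg2 N t) (h' : Rg2 N' t) :
    Rg2 (N - N') t ∧ sp (N - N') t = sp N t - sp N' t := by
  obtain ⟨a, rfl⟩ := h.lift
  obtain ⟨b, rfl⟩ := h'.lift
  rw [(sp_map a).2, (sp_map b).2, ← Polynomial.map_sub, ← Polynomial.map_sub]
  exact sp_map _

theorem Rg2.mul (h : Rg2 N t) (h' : Rg2 N' t) :
    Rg2 (N * N') t ∧ sp (N * N') t = sp N t * sp N' t := by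
  obtain ⟨a, rfl⟩ := h.lift
  obtain ⟨b, rfl⟩ := h'.lift
  rw [(sp_map a).2, (sp_map b).2, ← Polynomial.map_mul, ← Polynomial.map_mul]
  exact sp_map _

theorem Rg2.pow (h : Rg2 N t) (n : ℕ) : Rg2 (N ^ n) t ∧ sp (N ^ n) t = sp N t ^ n := by
  obtain ⟨a, rfl⟩ := h.lift
  rw [(sp_map a).2, ← Polynomial.map_pow, ← Polynomial.map_pow]
  exact sp_map _

theorem Rg2.derivative (h : Rg2 N t) :
    Rg2 (derivative N) t ∧ sp (derivative N) t = derivative (sp N t) := by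
  obtain ⟨a, rfl⟩ := h.lift
  rw [(sp_map a).2, derivative_map, derivative_map]
  exact sp_map _

theorem rg2_sum {ι : Type*} {s : Finset ι} {f : ι → (KK L)[X][X]} (h : ∀ i ∈ s, Rg2 (f i) t) :
    Rg2 (∑ i ∈ s, f i) t ∧ sp (∑ i ∈ s, f i) t = ∑ i ∈ s, sp (f i) t := by
  classical
  induction s using Finset.induction_on with
  | empty => simpa using rg2_C (p := 0) rg1_zero
  | insert a s ha ih =>
    have h1 := ih fun i hi => h i (Finset.mem_insert_of_mem hi)
    rw [Finset.sum_insert ha, Finset.sum_insert ha, ← h1.2]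
    exact (h a (Finset.mem_insert_self _ _)).add h1.1

theorem degree_sp1_le : (sp1 p t).degree ≤ p.degree := by
  refine (degree_le_iff_coeff_zero _ _).2 fun m hm => ?_
  rw [coeff_sp1, coeff_eq_zero_of_degree_lt hm, rv_zero]

theorem degree_sp_le : (sp N t).degree ≤ N.degree := by
  refine (degree_le_iff_coeff_zero _ _).2 fun m hm => ?_
  rw [coeff_sp, coeff_eq_zero_of_degree_lt hm, sp1_zero]

theorem monic_sp1 (h : p.Monic) : (sp1 p t).Monic ∧ (sp1 p t).natDegree = p.natDegree := by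
  have h1 : (sp1 p t).natDegree ≤ p.natDegree := natDegree_le_natDegree degree_sp1_le
  have h2 : (sp1 p t).coeff p.natDegree = 1 := by rw [coeff_sp1, h.coeff_natDegree, rv_one]
  exact ⟨monic_of_natDegree_le_of_coeff_eq_one _ h1 h2,
    natDegree_eq_of_le_of_coeff_ne_zero h1 (h2 ▸ one_ne_zero)⟩

theorem monic_sp (h : N.Monic) : (sp N t).Monic ∧ (sp N t).natDegree = N.natDegree ∧
    (sp N t).degree = N.degree := by
  have h1 : (sp N t).natDegree ≤ N.natDegree := natDegree_le_natDegree degree_sp_le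
  have h2 : (sp N t).coeff N.natDegree = 1 := by rw [coeff_sp, h.coeff_natDegree, sp1_one]
  have h3 := monic_of_natDegree_le_of_coeff_eq_one _ h1 h2
  have h4 := natDegree_eq_of_le_of_coeff_ne_zero h1 (h2 ▸ one_ne_zero)
  exact ⟨h3, h4, by rw [degree_eq_natDegree h3.ne_zero, degree_eq_natDegree h.ne_zero, h4]⟩

theorem sp1_ne (h : p ≠ 0) : ∀ᶠ t in cd, sp1 p t ≠ 0 := by
  filter_upwards [rv_ne (leadingCoeff_ne_zero.2 h)] with t ht h0
  exact ht (by rw [leadingCoeff, ← coeff_sp1, h0, coeff_zero])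

theorem sp_ne (h : N ≠ 0) : ∀ᶠ t in cd, sp N t ≠ 0 := by
  filter_upwards [sp1_ne (leadingCoeff_ne_zero.2 h)] with t ht h0
  exact ht (by rw [leadingCoeff, ← coeff_sp, h0, coeff_zero])

theorem sp1_per (p : (KK L)[X]) (hw : w ∈ L.lattice) (t : ℂ) : sp1 p (t + w) = sp1 p t := by
  ext i
  rw [coeff_sp1, coeff_sp1, rv_per _ hw]

theorem sp_per (N : (KK L)[X][X]) (hw : w ∈ L.lattice) (t : ℂ) : sp N (t + w) = sp N t := by
  refine Polynomial.ext fun i => ?_
  rw [coeff_sp, coeff_sp, sp1_per _ hw]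

theorem supp2 {R : Type} [CommRing R] (N : R[X][X]) :
    ∃ s : Finset (ℕ × ℕ), ∀ x ∉ s, (N.coeff x.2).coeff x.1 = 0 := by
  refine ⟨N.support.biUnion fun b => (N.coeff b).support.image fun a => (a, b),
    fun x hx => by_contra fun h => hx ?_⟩
  exact Finset.mem_biUnion.2 ⟨x.2, mem_support_iff.2 fun h0 => h (by rw [h0, coeff_zero]),
    Finset.mem_image.2 ⟨x.1, mem_support_iff.2 h, rfl⟩⟩

theorem exp2 {R : Type} [CommRing R] (N : R[X][X]) (s : Finset (ℕ × ℕ))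
    (h : ∀ x ∉ s, (N.coeff x.2).coeff x.1 = 0) :
    N = ∑ x ∈ s, (N.coeff x.2).coeff x.1 • monomial x.2 (monomial x.1 (1 : R)) := by
  ext b a
  rw [finsetSum_coeff, finsetSum_coeff, Finset.sum_eq_single (a, b)]
  · simp
  · rintro ⟨a', b'⟩ _ hx
    simp only [coeff_smul, coeff_monomial]
    split_ifs with h1
    · rw [coeff_monomial, if_neg (fun h2 => hx (Prod.ext h2 h1)), smul_zero]
    · simp
  · intro hx
    rw [h _ hx]
    simp

theorem rg_sum {ι : Type*} {s : Finset ι} {f : ι → KK L} (h : ∀ i ∈ s, Rg (f i) t) :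
    Rg (∑ i ∈ s, f i) t ∧ rv (∑ i ∈ s, f i) t = ∑ i ∈ s, rv (f i) t := by
  classical
  induction s using Finset.induction_on with
  | empty => simpa using rg_zero
  | insert a s ha ih =>
    have h1 := ih fun i hi => h i (Finset.mem_insert_of_mem hi)
    rw [Finset.sum_insert ha, Finset.sum_insert ha, ← h1.2]
    exact (h a (Finset.mem_insert_self _ _)).add h1.1

theorem indep_sp {g : ℕ} {N : Fin g → (KK L)[X][X]} (h : LinearIndependent (KK L) N) :
    ∀ᶠ t in cd, LinearIndependent ℂ fun i => sp (N i) t := by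
  classical
  obtain ⟨r, hr⟩ := (Fintype.linearCombination (KK L) N).exists_leftInverse_of_injective
    (LinearMap.ker_eq_bot.2 (linearIndependent_iff_injective_fintypeLinearCombination.1 h))
  choose s hs using fun i => supp2 (N i)
  have h1 : ∀ i j, ∑ x ∈ Finset.univ.biUnion s, ((N j).coeff x.2).coeff x.1 *
      r (monomial x.2 (monomial x.1 1)) i = if i = j then 1 else 0 := fun i j => by
    have h2 := congrFun (LinearMap.congr_fun hr (Pi.single j 1)) i
    rw [LinearMap.comp_apply, Fintype.linearCombination_apply_single, one_smul,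
      exp2 (N j) (Finset.univ.biUnion s) fun x hx => hs j x fun h3 =>
        hx (Finset.mem_biUnion.2 ⟨j, Finset.mem_univ _, h3⟩), map_sum, Finset.sum_apply] at h2
    simpa [Pi.single_apply] using h2
  filter_upwards [eventually_all.2 fun i => rg2_cd (N i),
    (eventually_all_finset (Finset.univ.biUnion s)).2 fun x _ => eventually_all.2 fun i =>
      rg_cd (r (monomial x.2 (monomial x.1 1)) i)] with t h2 h3
  refine Fintype.linearIndependent_iff.2 fun a ha i => ?_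
  have h4 : ∀ j, ∑ x ∈ Finset.univ.biUnion s, rv (((N j).coeff x.2).coeff x.1) t *
      rv (r (monomial x.2 (monomial x.1 1)) i) t = if i = j then 1 else 0 := fun j => by
    have h5 := rg_sum (t := t) (s := Finset.univ.biUnion s) (f := fun x =>
      ((N j).coeff x.2).coeff x.1 * r (monomial x.2 (monomial x.1 1)) i)
      fun x hx => ((h2 j x.2 x.1).mul (h3 x hx i)).1
    rw [h1, Finset.sum_congr rfl fun x hx => ((h2 j x.2 x.1).mul (h3 x hx i)).2] at h5
    rw [← h5.2]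
    split_ifs <;> simp
  have h5 : ∀ x : ℕ × ℕ, ∑ j, a j * rv (((N j).coeff x.2).coeff x.1) t = 0 := fun x => by
    simpa [finsetSum_coeff] using congrArg (fun M : ℂ[X][X] => (M.coeff x.2).coeff x.1) ha
  calc a i = ∑ j, a j * if i = j then 1 else 0 := by simp
    _ = 0 := by
      simp only [← h4, Finset.mul_sum, ← mul_assoc]
      rw [Finset.sum_comm]
      simp only [← Finset.sum_mul, h5, zero_mul, Finset.sum_const_zero]

theorem AV.sp {P : (KK L)[X][X]} {R : (KK L)[X]} (h : AV P R N) (hR : R.Monic) :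
    ∀ᶠ t in cd, AV (sp P t) (sp1 R t) (sp N t) := by
  obtain ⟨m, A, h1, Q, h2⟩ := h
  filter_upwards [rg2_cd P, rg1_cd R, rg2_cd N, rg2_cd Q,
    (eventually_all_finset (Finset.range m)).2 fun k _ => rg1_cd (A k)] with t hP hR' hN hQ hA
  refine ⟨m, fun k => sp1 (A k) t, fun k hk i hi => ?_, Hod.sp Q t, ?_⟩
  · rw [(monic_sp1 hR).2] at hi
    rw [coeff_sp1, h1 k hk i hi, rv_zero]
  · have a1 := (rg2_C hR').mul hN
    have a2 := fun k hk => (rg2_C (hA k hk)).mul (a1.1.pow k).1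
    have a3 := fun k hk => (a2 k hk).1.mul (hP.derivative.1.pow (m - k)).1
    have a4 := rg2_sum fun k hk => (a3 k hk).1
    have a5 := (rg2_C hR').mul a4.1
    rw [← (hP.mul hQ).2, ← h2, ((a1.1.pow m).1.add a5.1).2, a5.2, a4.2, (a1.1.pow m).2, a1.2, sp_C]
    congr 2
    refine Finset.sum_congr rfl fun k hk => ?_
    rw [(a3 k hk).2, (a2 k hk).2, (a1.1.pow k).2, a1.2, (hP.derivative.1.pow _).2,
      hP.derivative.2, sp_C, sp_C]

theorem irreducible_of_sp (h : N.Monic) (hi : ∃ᶠ t in cd, Irreducible (sp N t)) :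
    Irreducible N := by
  refine (irreducible_of_monic h ?_).2 fun f g hf hg e => ?_
  · rintro rfl
    obtain ⟨t, ht⟩ := hi.exists
    exact ht.not_isUnit (by simp)
  · obtain ⟨t, h1, h2, h3⟩ := (hi.and_eventually ((rg2_cd f).and (rg2_cd g))).exists
    rw [← e, (h2.mul h3).2] at h1
    refine (h1.isUnit_or_isUnit rfl).imp (fun u => ?_) fun u => ?_
    · exact hf.natDegree_eq_zero.1 ((monic_sp hf).2.1.symm.trans (natDegree_eq_zero_of_isUnit u))
    · exact hg.natDegree_eq_zero.1 ((monic_sp hg).2.1.symm.trans (natDegree_eq_zero_of_isUnit u))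

theorem ev_C : ev (C p) q = ev1 p q := by
  rw [ev, sp_C, evalEval_C, ev1]

theorem ev_eq_sum (N : (KK L)[X][X]) : ∃ (s : Finset (ℕ × ℕ)), ∀ q : E3,
    ev N q = ∑ i ∈ s, rv ((N.coeff i.2).coeff i.1) q.1 * q.2.1 ^ i.1 * q.2.2 ^ i.2 := by
  obtain ⟨s, hs⟩ := supp2 N
  refine ⟨s, fun q => ?_⟩
  rw [ev, exp2 (sp N q.1) s fun x hx => by rw [coeff_sp, coeff_sp1, hs x hx, rv_zero],
    evalEval_finsetSum]
  refine Finset.sum_congr rfl fun x _ => ?_
  simp [evalEval, mul_assoc]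

theorem analyticAt_ev (h : Rg2 N q.1) : AnalyticAt ℂ (ev N) q := by
  obtain ⟨s, hs⟩ := ev_eq_sum N
  rw [funext hs]
  refine Finset.analyticAt_fun_sum _ fun x _ => ?_
  exact (((h x.2 x.1).an.comp analyticAt_fst).mul
    ((analyticAt_fst.comp analyticAt_snd).pow _)).mul ((analyticAt_snd.comp analyticAt_snd).pow _)

theorem analyticAt_ev1 (h : Rg1 p q.1) : AnalyticAt ℂ (ev1 p) q := by
  have h1 := analyticAt_ev (rg2_C h)
  rwa [show ev (C p) = ev1 p from funext fun _ => ev_C] at h1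

theorem fderiv_line (h : Rg2 N q.1) {γ : ℂ → E3} {s a : ℂ} {v : E3} (e : γ s = q)
    (hγ : HasDerivAt γ v s) (ha : HasDerivAt (fun u => ev N (γ u)) a s) :
    fderiv ℂ (ev N) q v = a := by
  subst e
  exact ((analyticAt_ev h).differentiableAt.hasFDerivAt.comp_hasDerivAt s hγ).unique ha

theorem ev_mon (s : Finset (ℕ × ℕ)) (e : ℕ × ℕ → ℕ) (f : ℕ × ℕ → KK L)
    (h : ∀ x ∈ s, Rg (f x) q.1) :
    Rg2 (∑ x ∈ s, C (C (f x) * X ^ e x) * X ^ x.2) q.1 ∧
      ev (∑ x ∈ s, C (C (f x) * X ^ e x) * X ^ x.2) q =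
        ∑ x ∈ s, rv (f x) q.1 * q.2.1 ^ e x * q.2.2 ^ x.2 := by
  have a1 := fun x hx => (rg1_C (h x hx)).mul (rg1_X.pow (e x)).1
  have a2 := fun x hx => (rg2_C (a1 x hx).1).mul (rg2_X.pow x.2).1
  have a3 := rg2_sum fun x hx => (a2 x hx).1
  refine ⟨a3.1, ?_⟩
  rw [ev, a3.2, evalEval_finsetSum]
  refine Finset.sum_congr rfl fun x hx => ?_
  rw [(a2 x hx).2, sp_C, (a1 x hx).2, (rg1_X.pow _).2, (rg2_X.pow _).2]
  simp [evalEval]

theorem fderiv_ev_η (h : Rg2 N q.1) : fderiv ℂ (ev N) q (0, 0, 1) = ev (derivative N) q := by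
  refine fderiv_line h (γ := fun s => (q.1, q.2.1, s)) (s := q.2.2) rfl
    ((hasDerivAt_const _ _).prodMk ((hasDerivAt_const _ _).prodMk (hasDerivAt_id' _))) ?_
  have h1 := ((sp N q.1).map (evalRingHom q.2.1)).hasDerivAt q.2.2
  simp only [derivative_map, map_evalRingHom_eval] at h1
  rw [ev, h.derivative.2]
  exact h1

theorem exists_ev_ξ (N : (KK L)[X][X]) : ∃ N' : (KK L)[X][X], ∀ q : E3, Rg2 N q.1 →
    Rg2 N' q.1 ∧ fderiv ℂ (ev N) q (0, 1, 0) = ev N' q := by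
  obtain ⟨s, hs⟩ := ev_eq_sum N
  refine ⟨∑ x ∈ s, C (C (cst L x.1 * (N.coeff x.2).coeff x.1) * X ^ (x.1 - 1)) * X ^ x.2,
    fun q h => ?_⟩
  have a1 := fun x : ℕ × ℕ => (rg_cst (L := L) (t := q.1) x.1).1.mul (h x.2 x.1)
  have a2 := ev_mon (q := q) s (fun x => x.1 - 1) _ fun x _ => (a1 x).1
  refine ⟨a2.1, fderiv_line h (γ := fun u => (q.1, u, q.2.2)) (s := q.2.1) rfl
    ((hasDerivAt_const _ _).prodMk ((hasDerivAt_id' _).prodMk (hasDerivAt_const _ _))) ?_⟩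
  simp only [hs, a2.2]
  refine HasDerivAt.fun_sum fun x _ => ?_
  refine (((hasDerivAt_pow x.1 q.2.1).const_mul (rv ((N.coeff x.2).coeff x.1) q.1)).mul_const
    (q.2.2 ^ x.2)).congr_deriv ?_
  rw [(a1 x).2, (rg_cst _).2]
  ring

theorem exists_ev_t (N : (KK L)[X][X]) : ∃ N' : (KK L)[X][X], ∀ q : E3, Rg2 N q.1 →
    Rg2 N' q.1 ∧ fderiv ℂ (ev N) q (1, 0, 0) = ev N' q := by
  obtain ⟨s, hs⟩ := ev_eq_sum N
  choose d hd using exists_dK (L := L)
  refine ⟨∑ x ∈ s, C (C (d ((N.coeff x.2).coeff x.1)) * X ^ x.1) * X ^ x.2, fun q h => ?_⟩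
  have a1 := fun x : ℕ × ℕ => hd _ _ (h x.2 x.1)
  have a2 := ev_mon (q := q) s (fun x => x.1) _ fun x _ => (a1 x).1
  refine ⟨a2.1, fderiv_line h (γ := fun u => (u, q.2.1, q.2.2)) (s := q.1) rfl
    ((hasDerivAt_id' _).prodMk (hasDerivAt_const _ _)) ?_⟩
  simp only [hs, a2.2]
  refine HasDerivAt.fun_sum fun x _ => ?_
  rw [← (a1 x).2]
  exact ((h x.2 x.1).an.differentiableAt.hasDerivAt.mul_const _).mul_const _

end Pool.Agent.P.MP_7ede32_ag.Hod
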