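import Pool.Agent.P.MP_7ede32_ag.Hod.StA

/-!
Endomorphisms of the complex numbers over a subfield, and descent of invariant subspaces.
-/

open Set Polynomial

namespace Pool.Agent.P.MP_7ede32_ag.Hod

namespace AutP

theorem lift_hom {R S M : Type} [CommRing R] [IsDomain R] [Field S] [Field M] [IsAlgClosed M]
    [Algebra R S] [FaithfulSMul R S] [Algebra.IsAlgebraic R S] (g : R →+* M)
    (hg : Function.Injective g) : ∃ σ : S →+* M, ∀ r, σ (algebraMap R S r) = g r := by
  let _ := g.toAlgebra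
  have _ : FaithfulSMul R M := (faithfulSMul_iff_algebraMap_injective R M).2 hg
  exact ⟨(IsAlgClosed.lift : S →ₐ[R] M).toRingHom, fun r => AlgHom.commutes _ r⟩

/-- An injective endomorphism of the polynomial ring on a transcendence basis extends. -/
theorem ext_hom {K : Type} [Field K] [Algebra K ℂ] {B : Set ℂ}
    (hB : IsTranscendenceBasis K ((↑) : B → ℂ)) (τ : MvPolynomial B K →+* MvPolynomial B K)
    (hτ : Function.Injective τ) :
    ∃ σ : ℂ →+* ℂ, ∀ p, σ (MvPolynomial.aeval ((↑) : B → ℂ) p) =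
      MvPolynomial.aeval ((↑) : B → ℂ) (τ p) := by
  have _ := hB.isAlgebraic
  obtain ⟨σ, h⟩ := lift_hom (S := ℂ) (((MvPolynomial.aeval ((↑) : B → ℂ)).toRingHom.comp τ).comp
    hB.1.aevalEquiv.symm.toRingEquiv.toRingHom)
    (((algebraicIndependent_iff_injective_aeval.1 hB.1).comp hτ).comp
      hB.1.aevalEquiv.symm.injective)
  refine ⟨σ, fun p => ?_⟩
  rw [← hB.1.algebraMap_aevalEquiv, h]
  simp

/-- The coefficients of a polynomial in two variables. -/
noncomputable def co (N : ℂ[X][X]) (p : ℕ × ℕ) : ℂ := (N.coeff p.1).coeff p.2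

/-- The support of a polynomial in two variables. -/
def su (N : ℂ[X][X]) : Set (ℕ × ℕ) := {p | co N p ≠ 0}

theorem co_sub (N M : ℂ[X][X]) (p : ℕ × ℕ) : co (N - M) p = co N p - co M p := by
  simp [co]

theorem co_smul (a : ℂ) (N : ℂ[X][X]) (p : ℕ × ℕ) : co (a • N) p = a * co N p := by
  simp [co]

theorem co_map (σ : ℂ →+* ℂ) (N : ℂ[X][X]) (p : ℕ × ℕ) :
    co (N.map (mapRingHom σ)) p = σ (co N p) := by
  simp [co]

theorem ex_co {N : ℂ[X][X]} (h : N ≠ 0) : ∃ p, co N p ≠ 0 := by
  by_contra h1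
  push Not at h1
  exact h (Polynomial.ext fun j => Polynomial.ext fun i => by simpa [co] using h1 (j, i))

theorem su_fin (N : ℂ[X][X]) : (su N).Finite := by
  refine (N.support.biUnion fun j => (N.coeff j).support.image fun i => (j, i)).finite_toSet.subset
    fun p hp => ?_
  simp only [Finset.coe_biUnion, Finset.coe_image, mem_iUnion, mem_image, Finset.mem_coe,
    mem_support_iff]
  refine ⟨p.1, fun h => hp ?_, p.2, hp, rfl⟩
  rw [co, h, coeff_zero]

theorem su_lt {N M : ℂ[X][X]} {p : ℕ × ℕ} (h : su M ⊆ su N) (hp : co N p ≠ 0) (hq : co M p = 0) :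
    (su M).ncard < (su N).ncard :=
  ncard_lt_ncard ⟨h, fun h1 => h1 hp hq⟩ (su_fin N)

theorem ex_min (h : SAut) (k : Subfield ℂ) (V : Submodule ℂ ℂ[X][X])
    (hV : ∀ σ : ℂ →+* ℂ, (∀ c ∈ k, σ c = c) → ∀ N ∈ V, N.map (mapRingHom σ) ∈ V) (n : ℕ) :
    ∀ N ∈ V, N ≠ 0 → (su N).ncard < n →
      ∃ M ∈ V, su M ⊆ su N ∧ (∃ p, co M p = 1) ∧ ∀ p, co M p ∈ k := by
  induction n with
  | zero => exact fun _ _ _ h0 => absurd h0 (Nat.not_lt_zero _)
  | succ n ih =>
    intro N hN h0 hn
    obtain ⟨p, hp⟩ := ex_co h0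
    have hM : (co N p)⁻¹ • N ∈ V := V.smul_mem _ hN
    have h1 : co ((co N p)⁻¹ • N) p = 1 := by rw [co_smul, inv_mul_cancel₀ hp]
    have h2 : su ((co N p)⁻¹ • N) ⊆ su N := fun q hq hq' => hq (by rw [co_smul, hq', mul_zero])
    by_cases hk : ∀ q, co ((co N p)⁻¹ • N) q ∈ k
    · exact ⟨_, hM, h2, ⟨p, h1⟩, hk⟩
    push Not at hk
    obtain ⟨q, hq⟩ := hk
    obtain ⟨σ, h3, h4⟩ := h k _ hq
    have h5 : su (((co N p)⁻¹ • N).map (mapRingHom σ) - (co N p)⁻¹ • N) ⊆ su N := by
      intro r hr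
      refine h2 fun hr' => hr ?_
      rw [co_sub, co_map, hr', map_zero, sub_zero]
    have h6 := su_lt h5 hp (by rw [co_sub, co_map, h1, map_one, sub_self])
    obtain ⟨M, h7, h8, h9⟩ := ih _ (V.sub_mem (hV σ h3 _ hM) hM) (fun h7 => h4 (by
      have h8 := congrArg (fun M => co M q) h7
      simp only [co_sub, co_map] at h8
      rw [← sub_eq_zero, h8, co, coeff_zero, coeff_zero])) (by omega)
    exact ⟨M, h7, h8.trans h5, h9⟩

end AutP

open AutP

theorem sAut : SAut := by
  intro k z hz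
  by_cases ha : IsAlgebraic k z
  · have _ : IsGalois k (algebraicClosure k ℂ) := {}
    have h1 : (⟨z, mem_algebraicClosure_iff.2 ha⟩ : algebraicClosure k ℂ) ∉
        (⊥ : IntermediateField k (algebraicClosure k ℂ)) := by
      rintro ⟨c, hc⟩
      have h2 : (c : ℂ) = z := congrArg Subtype.val hc
      exact hz (h2 ▸ c.2)
    rw [InfiniteGalois.mem_bot_iff_fixed] at h1
    push Not at h1
    obtain ⟨f, hf⟩ := h1
    obtain ⟨B, hB⟩ := exists_isTranscendenceBasis (algebraicClosure k ℂ) ℂ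
    obtain ⟨σ, h⟩ := ext_hom hB (MvPolynomial.map f.toRingEquiv.toRingHom)
      (MvPolynomial.map_injective _ f.injective)
    have h2 : ∀ c : algebraicClosure k ℂ, σ c = f c := fun c => by
      simpa using h (MvPolynomial.C c)
    refine ⟨σ, fun c hc => ?_, fun h3 => hf (Subtype.ext ((h2 _).symm.trans h3))⟩
    exact (h2 (algebraMap k _ ⟨c, hc⟩)).trans (congrArg Subtype.val (f.commutes ⟨c, hc⟩))
  · obtain ⟨B, hzB, hB⟩ := exists_isTranscendenceBasis_superset (R := k) (s := {z})
      ((algebraicIndependent_singleton_iff (⟨z, rfl⟩ : ({z} : Set ℂ))).2 ha)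
    have hτ : ∀ p : MvPolynomial B k, MvPolynomial.aeval (fun b => -MvPolynomial.X b)
        (MvPolynomial.aeval (fun b => -MvPolynomial.X b) p : MvPolynomial B k) = p := by
      intro p
      induction p using MvPolynomial.induction_on with
      | C a => simp
      | add p q hp hq => rw [map_add, map_add, hp, hq]
      | mul_X p b hp => rw [map_mul, map_mul, hp]; simp
    obtain ⟨σ, h⟩ := ext_hom hB
      (MvPolynomial.aeval (R := k) fun b : B => (-MvPolynomial.X b : MvPolynomial B k)).toRingHom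
      (Function.LeftInverse.injective hτ)
    have h1 : ∀ c : k, σ (algebraMap k ℂ c) = algebraMap k ℂ c := fun c => by
      simpa using h (MvPolynomial.C c)
    refine ⟨σ, fun c hc => h1 ⟨c, hc⟩, fun h3 => hz ?_⟩
    have h2 : σ z = -z := by simpa using h (MvPolynomial.X ⟨z, hzB rfl⟩)
    rw [h3, eq_neg_iff_add_eq_zero, add_self_eq_zero] at h2
    rw [h2]
    exact k.zero_mem

theorem sInvS (h : SAut) : SInvS := by
  intro k V hV
  have key : ∀ n, ∀ N ∈ V, (su N).ncard < n →
      N ∈ Submodule.span ℂ {N' | N' ∈ V ∧ ∀ j i, (N'.coeff j).coeff i ∈ k} := by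
    intro n
    induction n with
    | zero => exact fun _ _ h0 => absurd h0 (Nat.not_lt_zero _)
    | succ n ih =>
      intro N hN hn
      by_cases h0 : N = 0
      · rw [h0]
        exact Submodule.zero_mem _
      obtain ⟨M, h1, h2, ⟨p, h3⟩, h4⟩ := ex_min h k V hV _ N hN h0 hn
      have h5 : su (N - co N p • M) ⊆ su N := by
        intro r hr hr'
        have h6 : co M r = 0 := by
          by_contra h6
          exact h2 h6 hr'
        exact hr (by rw [co_sub, co_smul, hr', h6, mul_zero, sub_zero])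
      have h6 := su_lt h5 (h2 (show co M p ≠ 0 by rw [h3]; exact one_ne_zero))
        (by rw [co_sub, co_smul, h3, mul_one, sub_self])
      have h7 := ih _ (V.sub_mem hN (V.smul_mem (co N p) h1)) (by omega)
      have h8 := Submodule.add_mem _ h7 (Submodule.smul_mem _ (co N p)
        (Submodule.subset_span ⟨h1, fun j i => h4 (j, i)⟩))
      rwa [sub_add_cancel] at h8
  exact fun N hN => key _ N hN (Nat.lt_succ_self _)

end Pool.Agent.P.MP_7ede32_ag.Hod
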