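import Pool.Agent.P.MP_7ede32_ag.Hod.StF
import Pool.Agent.P.MP_7ede32_ag.Hod.StA
import Pool.Agent.P.MP_7ede32_ag.Hod.StR
import Pool.Agent.P.MP_7ede32_ag.Hod.MT

/-!
A basis of the holomorphic forms over the field of elliptic functions.
-/

open Set Filter Topology MeasureTheory ComplexConjugate Polynomial Matrix

noncomputable section

namespace Pool.Agent.P.MP_7ede32_ag.Hod

open MP_5d7cf0_gt.T (RS zc loc An D Om)

namespace BasP

theorem fin_om (h1 : SA2O) (Y : Type) [TopologicalSpace Y] [ChartedSpace ℂ Y] [RS Y] (M : PM Y) :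
    FiniteDimensional ℂ (Om Y) := by
  obtain ⟨V, hV, -, h⟩ := h1 Y M
  have : Module.Free ℂ V := Module.Free.of_divisionRing ℂ V
  obtain ⟨w, -, -, hw⟩ := h _ (fun i => (Module.finBasis ℂ V i : ℂ[X][X])) fun i => Subtype.prop _
  have e : Om Y ≤ Submodule.span ℂ (range w) := by
    refine hw fun N hN => ?_
    have := (Module.finBasis ℂ V).mem_span ⟨N, hN⟩
    have := Submodule.apply_mem_span_image_of_mem_span V.subtype this
    rwa [← range_comp] at this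
  have := FiniteDimensional.span_of_finite ℂ (finite_range w)
  exact Submodule.finiteDimensional_of_le e

theorem forms (h1 : SA2O) {L : PeriodPair} {𝒴 : Pl L} {t : ℂ} (μ : Md 𝒴 t) {g : ℕ}
    {N : Fin g → (KK L)[X][X]} (hr : ∀ i, Rg2 (N i) t)
    (hN : ∀ i, (sp (N i) t).degree < (sp 𝒴.P t).degree ∧
      AV (sp 𝒴.P t) (sp1 𝒴.R t) (sp (N i) t)) :
    ∃ w, μ.IsF N w ∧ ((LinearIndependent ℂ fun i => sp (N i) t) → LinearIndependent ℂ w) ∧
      ((∀ N', N'.degree < (sp 𝒴.P t).degree → AV (sp 𝒴.P t) (sp1 𝒴.R t) N' →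
        N' ∈ Submodule.span ℂ (range fun i => sp (N i) t)) →
        ∀ w' ∈ Om μ.Y, w' ∈ Submodule.span ℂ (range w)) := by
  obtain ⟨V, -, hV, h⟩ := h1 μ.Y μ.M
  rw [μ.hP, μ.hR] at hV
  obtain ⟨w, a, b, c⟩ := h g (fun i => sp (N i) t) fun i => (hV _).2 (hN i)
  refine ⟨w, fun i => ⟨hr i, (a i).1, fun p hp => ?_⟩, b,
    fun e => c fun N₀ h₀ => e N₀ ((hV _).1 h₀).1 ((hV _).1 h₀).2⟩
  rw [(a i).2 p hp, Md.fm, Pl.phs, Pl.ph, Md.ev_j, Md.py_j]

end BasP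

open BasP in
theorem sBas (h1 : SA2O) (h2 : SDescV2) (h3 : SGenL) : SBas := by
  intro L 𝒴 Φ
  obtain ⟨g, N, hd, hc⟩ := h2 L 𝒴 (by
    filter_upwards [cc_le_cd Φ.mem] with t ht
    obtain ⟨V, hV, e, -⟩ := h1 _ (Φ.md t ht).M
    rw [(Φ.md t ht).hP, (Φ.md t ht).hR] at e
    exact ⟨V, hV, e⟩)
  have hr : ∀ᶠ t in cd, ∀ i, Rg2 (N i) t := eventually_all.2 fun i => rg2_cd (N i)
  refine ⟨g, N, ?_⟩
  filter_upwards [hd, hr] with t₀ d₀ r₀ m₀
  obtain ⟨w, a, b, -⟩ := forms h1 (Φ.md t₀ m₀) r₀ d₀.1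
  have b := b d₀.2
  refine ⟨w, a, b, ?_⟩
  have e1 : ∀ᶠ t in 𝓝[≠] t₀ ⊓ cc, ∀ μ : Md 𝒴 t,
      Module.finrank ℂ (Om (Φ.md t₀ m₀).Y) ≤ Module.finrank ℂ (Om μ.Y) :=
    (h3 L 𝒴 t₀ _).filter_mono (inf_le_left.trans nhdsWithin_le_nhds)
  have e2 := (cc_le_cd ((hd.and hr).and Φ.mem))
  obtain ⟨t, f1, ⟨⟨d, r⟩, m⟩, c⟩ :=
    (e1.and (Eventually.filter_mono inf_le_right (Eventually.and e2 hc))).exists
  obtain ⟨w₁, -, -, s⟩ := forms h1 (Φ.md t m) r d.1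
  have s : Om (Φ.md t m).Y ≤ Submodule.span ℂ (range w₁) := s c
  have := FiniteDimensional.span_of_finite ℂ (finite_range w₁)
  have k1 : Module.finrank ℂ (Om (Φ.md t m).Y) ≤ g :=
    (Submodule.finrank_mono s).trans ((finrank_range_le_card w₁).trans (Fintype.card_fin g).le)
  have := fin_om h1 _ (Φ.md t₀ m₀).M
  have le : Submodule.span ℂ (range w) ≤ Om (Φ.md t₀ m₀).Y :=
    Submodule.span_le.2 (range_subset_iff.2 fun i => (a i).2.1)
  have e := Submodule.eq_of_le_of_finrank_le le (by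
    rw [finrank_span_eq_card b, Fintype.card_fin]
    exact (f1 _).trans k1)
  intro w' hw'
  rwa [e]

end Pool.Agent.P.MP_7ede32_ag.Hod
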