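import Pool.Agent.P.MP_7ede32_ag.Hod.StA
import Pool.Agent.P.MP_7ede32_ag.Hod.AT2

/-!
The discriminant of a family of plane curves.
-/

open Set Filter Topology Polynomial

namespace Pool.Agent.P.MP_7ede32_ag.Hod

namespace BezP

theorem res_ne {f : ℂ[X]} (hf : f.Monic) (hs : f.Separable) {m : ℕ} (hm : f.natDegree = m) :
    resultant f (derivative f) m m ≠ 0 := by
  subst hm
  obtain ⟨k, hk⟩ := Nat.exists_eq_add_of_le (natDegree_derivative_le f |>.trans (Nat.sub_le _ 1))
  have h := resultant_add_right_deg f (derivative f) f.natDegree (derivative f).natDegree k le_rfl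
  rw [← hk, hf.coeff_natDegree, one_pow, one_mul] at h
  rw [h]
  exact resultant_ne_zero _ _ hs

theorem disc_ne {L : PeriodPair} {P : (KK L)[X][X]} (hP : P.Monic) {t ξ : ℂ} (ht : Rg2 P t)
    (hs : ((sp P t).map (evalRingHom ξ)).Separable) :
    resultant P (derivative P) P.natDegree P.natDegree ≠ 0 := by
  have hm := monic_sp (t := t) hP
  have h1 := res_ne (hm.1.map (evalRingHom ξ)) hs ((hm.1.natDegree_map _).trans hm.2.1)
  generalize P.natDegree = m at h1 ⊢
  obtain ⟨P₀, rfl⟩ := ht.lift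
  rw [(sp_map P₀).2, derivative_map, derivative_map, resultant_map_map, resultant_map_map] at h1
  rw [derivative_map, resultant_map_map]
  intro h
  refine h1 ?_
  have h2 : resultant P₀ (derivative P₀) m m = 0 :=
    Polynomial.map_injective _ (Ot L t).subtype_injective (by
      rw [Polynomial.map_zero]
      exact h)
  rw [h2, map_zero, map_zero]

theorem exists_rad {K : Type} [Field K] [CharZero K] {D : K[X]} (hD : D ≠ 0) :
    ∃ (R a b c : K[X]) (k : ℕ), R.Monic ∧ a * R + b * derivative R = 1 ∧ R ^ k = c * D := by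
  obtain ⟨y, n, hy, -, c, hc⟩ := exists_squarefree_dvd_pow_of_ne_zero hD
  have h0 : y ≠ 0 := hy.ne_zero
  have hu : IsUnit (C y.leadingCoeff⁻¹ : K[X]) :=
    isUnit_C.2 (inv_ne_zero (leadingCoeff_ne_zero.2 h0)).isUnit
  obtain ⟨a, b, hab⟩ := (PerfectField.separable_iff_squarefree.2 hy).mul_unit hu
  exact ⟨y * C y.leadingCoeff⁻¹, a, b, c * C y.leadingCoeff⁻¹ ^ n, n,
    monic_mul_leadingCoeff_inv h0, hab, by rw [mul_pow, hc]; ring⟩

end BezP

theorem sBez : SBez := by
  intro L P hP h0 hs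
  obtain ⟨t, ⟨ξ, hξ⟩, ht⟩ := (hs.and_eventually (rg2_cd P)).exists
  obtain ⟨R, a, b, c, k, hR, hab, hc⟩ := BezP.exists_rad (BezP.disc_ne hP ht hξ)
  obtain ⟨p, q, -, -, e⟩ := exists_mul_add_mul_eq_C_resultant P (derivative P) le_rfl
    (natDegree_derivative_le P |>.trans (Nat.sub_le _ 1)) (Or.inl h0.ne')
  refine ⟨⟨P, C c * p, C c * q, R, a, b, k, hP, h0, hR, hab, ?_⟩, rfl⟩
  rw [hc, C_mul, ← e]
  ring

end Pool.Agent.P.MP_7ede32_ag.Hod
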