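import Pool.Agent.P.MP_7ede32_ag.Hod.StB
import Pool.Agent.P.MP_7ede32_ag.Full.StC

/-!
Normal form of two functions at the generic points of a plane curve germ.
-/

open Set Filter Topology Metric

namespace Pool.Agent.P.MP_7ede32_ag.Hod

open Ell (E2 det2)

namespace BrChP

/-- a germ that is not zero is not zero at the nearby points -/
lemma ne_near {F : E2 → ℂ} (hF : AnalyticAt ℂ F 0) (h : ¬ ∀ᶠ y in 𝓝 (0 : E2), F y = 0) :
    ∀ᶠ y in 𝓝 (0 : E2), AnalyticAt ℂ F y ∧ ¬ ∀ᶠ y' in 𝓝 y, F y' = 0 := by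
  obtain ⟨r, hr, hb⟩ := Metric.eventually_nhds_iff_ball.1 hF.eventually_analyticAt
  filter_upwards [ball_mem_nhds (0 : E2) hr] with y hy
  refine ⟨hb y hy, fun h0 => h ?_⟩
  have h1 : AnalyticOnNhd ℂ F (ball 0 r) := hb
  have h2 := h1.eqOn_zero_of_preconnected_of_eventuallyEq_zero (convex_ball _ _).isPreconnected hy h0
  filter_upwards [ball_mem_nhds (0 : E2) hr] with z hz using h2 hz

lemma mul_ne {F G : E2 → ℂ} (hF : AnalyticAt ℂ F 0) (hG : AnalyticAt ℂ G 0)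
    (h1 : ¬ ∀ᶠ y in 𝓝 (0 : E2), F y = 0) (h2 : ¬ ∀ᶠ y in 𝓝 (0 : E2), G y = 0) :
    ¬ ∀ᶠ y in 𝓝 (0 : E2), F y * G y = 0 := by
  intro h
  apply h2
  filter_upwards [ne_near hF h1, hG.eventually_analyticAt, h.eventually_nhds] with y a1 a2 a3
  by_contra hne
  apply a1.2
  filter_upwards [a3, a2.continuousAt.eventually_ne hne] with z b1 b2
  exact (mul_eq_zero.1 b1).resolve_right b2

/-- local inverse of an analytic map of the plane with injective derivative -/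
lemma chart {Ψ : E2 → E2} {y : E2} (hΨ : AnalyticAt ℂ Ψ y)
    (hinj : ∀ v, fderiv ℂ Ψ y v = 0 → v = 0) :
    ∃ ψ : E2 → E2, AnalyticAt ℂ ψ (Ψ y) ∧ ψ (Ψ y) = y ∧ (∀ᶠ y' in 𝓝 y, ψ (Ψ y') = y') ∧
      ∀ᶠ p in 𝓝 (Ψ y), Ψ (ψ p) = p := by
  have h0 : Function.Injective (fderiv ℂ Ψ y).toLinearMap := by
    rw [injective_iff_map_eq_zero]
    exact hinj
  obtain ⟨i, hi⟩ : ∃ i : E2 ≃L[ℂ] E2, fderiv ℂ Ψ y = i :=
    ⟨(LinearEquiv.ofInjectiveEndo _ h0).toContinuousLinearEquiv, by ext <;> rfl⟩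
  have hs : HasStrictFDerivAt Ψ (i : E2 →L[ℂ] E2) y := hi ▸ hΨ.hasStrictFDerivAt
  have ha := hs.mem_toOpenPartialHomeomorph_source
  exact ⟨(hs.toOpenPartialHomeomorph Ψ).symm,
    (hs.toOpenPartialHomeomorph Ψ).analyticAt_symm' ha hΨ hi,
    (hs.toOpenPartialHomeomorph Ψ).left_inv ha, hs.eventually_left_inverse,
    hs.eventually_right_inverse⟩

/-- a germ whose zeros lie on the first axis is a unit times a power of the second coordinate -/
lemma unit (h2 : Full.SDiv2) (h3 : SExt2) {H : E2 → ℂ} (hH : AnalyticAt ℂ H 0)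
    (hne : ¬ ∀ᶠ p in 𝓝 (0 : E2), H p = 0) (hz : ∀ᶠ p in 𝓝 (0 : E2), H p = 0 → p.2 = 0) :
    ∃ (i : ℕ) (U : E2 → ℂ), AnalyticAt ℂ U 0 ∧ U 0 ≠ 0 ∧
      ∀ᶠ p in 𝓝 (0 : E2), H p = p.2 ^ i * U p := by
  obtain ⟨k, U, a1, a2, a3⟩ := h2 H hH hne
  refine ⟨k, U, a1, ?_, a2⟩
  have b1 : ¬ ∀ᶠ p in 𝓝 (0 : E2), U p = 0 := fun h => hne (by
    filter_upwards [h, a2] with p c1 c2
    rw [c2, c1, mul_zero])
  have b2 : ∀ᶠ p in 𝓝 (0 : E2), p.1 ≠ 0 → U (p.1, 0) ≠ 0 :=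
    (continuous_fst.tendsto (0 : E2)).eventually (eventually_nhdsWithin_iff.1 a3)
  obtain ⟨c, -, c2⟩ := h3 (fun _ => 1) U {0} analyticAt_const a1 b1 (countable_singleton _) (by
    filter_upwards [a2, hz, b2, a1.eventually_analyticAt] with p d1 d2 d3 d4 hp
    have hU : U p ≠ 0 := fun h0 => by
      have e1 : p.2 = 0 := d2 (by rw [d1, h0, mul_zero])
      have e2 : p.1 ≠ 0 := fun e => hp (Prod.ext e e1)
      exact d3 e2 (by rwa [show ((p.1, 0) : E2) = p from Prod.ext rfl e1.symm])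
    have hpos : 0 < ‖U p‖ := norm_pos_iff.2 hU
    refine ⟨2 / ‖U p‖, ?_⟩
    filter_upwards [d4.continuousAt.norm.eventually (lt_mem_nhds (half_lt_self hpos))] with q hq
    rw [norm_one, div_mul_eq_mul_div, le_div_iff₀ hpos]
    linarith)
  intro h0
  have := c2.self_of_nhds
  rw [h0, mul_zero] at this
  exact one_ne_zero this

/-- transfer to the point `y` through the chart -/
lemma unit_at (h2 : Full.SDiv2) (h3 : SExt2) {Ψ : E2 → E2} {y : E2} (hΨ : AnalyticAt ℂ Ψ y)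
    (h0 : Ψ y = 0) (hinj : ∀ v, fderiv ℂ Ψ y v = 0 → v = 0) {F : E2 → ℂ} (hF : AnalyticAt ℂ F y)
    (hne : ¬ ∀ᶠ p in 𝓝 y, F p = 0) (hz : ∀ᶠ p in 𝓝 y, F p = 0 → (Ψ p).2 = 0) :
    ∃ (i : ℕ) (U : E2 → ℂ), AnalyticAt ℂ U y ∧ U y ≠ 0 ∧
      ∀ᶠ p in 𝓝 y, F p = (Ψ p).2 ^ i * U p := by
  obtain ⟨ψ, a1, a2, a3, a4⟩ := chart hΨ hinj
  rw [h0] at a1 a2 a4
  have t1 : Tendsto Ψ (𝓝 y) (𝓝 0) := h0 ▸ hΨ.continuousAt
  have t2 : Tendsto ψ (𝓝 0) (𝓝 y) := a2 ▸ a1.continuousAt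
  obtain ⟨i, U, b1, b2, b3⟩ := unit h2 h3 (H := F ∘ ψ) (hF.comp_of_eq a1 a2) (fun h => hne (by
    filter_upwards [t1.eventually h, a3] with p c1 c2
    rwa [Function.comp_apply, c2] at c1)) (by
    filter_upwards [t2.eventually hz, a4] with p c1 c2 c3
    rw [← c2]
    exact c1 c3)
  refine ⟨i, U ∘ Ψ, b1.comp_of_eq hΨ h0, by rwa [Function.comp_apply, h0], ?_⟩
  filter_upwards [t1.eventually b3, a3] with p c1 c2
  rwa [Function.comp_apply, c2] at c1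

/-- the chart adapted to a smooth branch -/
lemma adapted {b : ℂ → E2} {σ : E2 → ℂ} {t : ℂ} (hb : AnalyticAt ℂ b t)
    (hσ : AnalyticAt ℂ σ (b t)) (hl : ∀ᶠ s in 𝓝 t, σ (b s) = s) :
    ∃ Ψ : E2 → E2, AnalyticAt ℂ Ψ (b t) ∧ Ψ (b t) = 0 ∧ (∀ v, fderiv ℂ Ψ (b t) v = 0 → v = 0) ∧
      fderiv ℂ (fun p => (Ψ p).2) (b t) ≠ 0 ∧ ∀ p, p = b (σ p) → (Ψ p).2 = 0 := by
  have e0 : σ (b t) = t := hl.self_of_nhds
  set w : E2 := deriv b t with hw
  set l : E2 →L[ℂ] ℂ := fderiv ℂ σ (b t) with hl'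
  have d1 : HasDerivAt b w t := hb.differentiableAt.hasDerivAt
  have d2 : HasFDerivAt σ l (b t) := hσ.differentiableAt.hasFDerivAt
  have d3 : l w = 1 := by
    have h1 : HasDerivAt (fun s => σ (b s)) (l w) t := d2.comp_hasDerivAt t d1
    exact h1.unique ((hasDerivAt_id t).congr_of_eventuallyEq hl)
  set m : E2 →L[ℂ] ℂ := w.1 • ContinuousLinearMap.snd ℂ ℂ ℂ - w.2 • ContinuousLinearMap.fst ℂ ℂ ℂ
    with hm
  have m1 : ∀ v, m v = w.1 * v.2 - w.2 * v.1 := fun v => by simp [hm]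
  have hb' : AnalyticAt ℂ b (σ (b t)) := by rwa [e0]
  have an1 : AnalyticAt ℂ (fun p => m (p - b (σ p))) (b t) :=
    (m.analyticAt _).fun_comp (analyticAt_id.sub (hb'.comp hσ))
  have d4 : HasFDerivAt (fun p => m (p - b (σ p))) m (b t) := by
    have h1 : HasFDerivAt b (ContinuousLinearMap.toSpanSingleton ℂ w) (σ (b t)) := by
      rw [e0]; exact d1.hasFDerivAt
    have h2 := m.hasFDerivAt.comp (b t) ((hasFDerivAt_id (b t)).sub (h1.comp (b t) d2))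
    refine h2.congr_fderiv ?_
    ext <;> simp [m1] <;> ring
  have d5 : HasFDerivAt (fun p => (σ p - t, m (p - b (σ p)))) (l.prod m) (b t) :=
    (d2.sub_const t).prodMk d4
  have key : ∀ v, l v = 0 → m v = 0 → v = 0 := by
    intro v h1 h2
    rw [m1] at h2
    have h3 := Ell.lin_apply l w
    have h4 := Ell.lin_apply l v
    rw [d3] at h3
    rw [h1] at h4
    simp only [smul_eq_mul] at h3 h4
    refine Prod.ext ?_ ?_
    · change v.1 = 0
      linear_combination v.1 * h3 - w.1 * h4 - l (0, 1) * h2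
    · change v.2 = 0
      linear_combination v.2 * h3 - w.2 * h4 + l (1, 0) * h2
  refine ⟨fun p => (σ p - t, m (p - b (σ p))), (hσ.sub analyticAt_const).prod an1, ?_, ?_, ?_, ?_⟩
  · simp [e0]
  · intro v hv
    rw [d5.fderiv] at hv
    exact key v (congrArg Prod.fst hv) (congrArg Prod.snd hv)
  · rw [d4.fderiv]
    intro h0
    have h1 := m1 (1, 0)
    have h2 := m1 (0, 1)
    rw [h0] at h1 h2
    have h3 : w = 0 := Prod.ext (by simpa using h2.symm) (by simpa using h1.symm)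
    rw [h3, map_zero] at d3
    exact zero_ne_one d3
  · intro p hp
    change m (p - b (σ p)) = 0
    rw [← hp, sub_self, map_zero]

/-- an analytic function with the same modulus as the variable -/
lemma eq_id {g : ℂ → ℂ} {t : ℂ} (ht : t ≠ 0) (hg : AnalyticAt ℂ g t) (h0 : g t = t)
    (h : ∀ᶠ s in 𝓝 t, ‖g s‖ = ‖s‖) : ∀ᶠ s in 𝓝 t, g s = s := by
  have h1 : AnalyticAt ℂ (fun s => g s / s) t := hg.div analyticAt_id ht
  have h2 : ∀ᶠ s in 𝓝 t, s ≠ 0 := eventually_ne_nhds ht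
  have h3 := Complex.eventually_eq_of_isLocalMax_norm
    (h1.eventually_analyticAt.mono fun s hs => hs.differentiableAt) (by
      filter_upwards [h, h2] with s a1 a2
      simp only [Function.comp_apply, norm_div, a1, h0]
      rw [div_self (norm_ne_zero_iff.2 a2), div_self (norm_ne_zero_iff.2 ht)])
  filter_upwards [h3, h2] with s a1 a2
  rw [h0, div_self ht, div_eq_one_iff_eq a2] at a1
  exact a1

end BrChP

open BrChP in
theorem sBrCh (h1 : Geo.SBr) (h2 : Full.SDiv2) (h3 : SExt2) : SBrCh := by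
  intro F G hF hG nF nG
  obtain ⟨m, ρ, b, -, a1, a2, a3, a4⟩ := h1 (fun p => F p * G p) (hF.mul hG) (mul_ne hF hG nF nG)
  rw [eventually_nhdsWithin_iff]
  filter_upwards [a2 1 one_pos, ne_near hF nF, ne_near hG nG] with y c1 c2 c3 hy hFy
  obtain ⟨k, t, ht, -, rfl⟩ := c1 (by rw [hFy, zero_mul])
  have t0 : t ≠ 0 := fun h => hy (by rw [h]; exact (a1 k).2.1)
  obtain ⟨σ, s1, s2, s3⟩ := a3 k t ht t0
  have hb : AnalyticAt ℂ (b k) t := (a1 k).1 t ht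
  have hg : AnalyticAt ℂ (fun s => σ (b k s)) t := s1.comp hb
  have hl : ∀ᶠ s in 𝓝 t, σ (b k s) = s := by
    refine eq_id t0 hg s2 ?_
    have e1 : ∀ᶠ s in 𝓝 t, σ (b k s) ∈ ball (0 : ℂ) ρ :=
      hg.continuousAt.eventually_mem (by rw [s2]; exact isOpen_ball.mem_nhds ht)
    filter_upwards [hb.continuousAt.eventually s3, isOpen_ball.mem_nhds ht, e1] with s d1 d2 d3
    exact ((a4 k k s d2 _ d3 (d1 ((a1 k).2.2 s d2).1)).1).symm
  obtain ⟨Ψ, p1, p2, p3, p4, p5⟩ := adapted hb s1 hl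
  obtain ⟨i, U, u1, u2, u3⟩ := unit_at h2 h3 p1 p2 p3 c2.1 c2.2 (by
    filter_upwards [s3] with p d1 d2
    exact p5 p (d1 (by rw [d2, zero_mul])))
  obtain ⟨j, V, v1, v2, v3⟩ := unit_at h2 h3 p1 p2 p3 c3.1 c3.2 (by
    filter_upwards [s3] with p d1 d2
    exact p5 p (d1 (by rw [d2, mul_zero])))
  refine ⟨fun p => (Ψ p).2, U, V, i, j, analyticAt_snd.comp p1, u1, v1, congrArg Prod.snd p2, p4, u2,
    v2, ?_, u3.and v3⟩
  rcases Nat.eq_zero_or_pos i with rfl | hi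
  · have := u3.self_of_nhds
    rw [hFy, pow_zero, one_mul] at this
    exact absurd this.symm u2
  · exact hi

end Pool.Agent.P.MP_7ede32_ag.Hod
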