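import Pool.Agent.P.MP_7ede32_ag.Hod.RU

/-!
The integral of a density that lives in a chart.
-/

open Set Filter Topology MeasureTheory

namespace Pool.Agent.P.MP_7ede32_ag.Hod

open MP_5d7cf0_gt.T (RS zc loc An D zc_symm symm_zc zc_mem loc_zc D_eq D_zc_ne)

theorem sCh (h : SArea) : SCh := by
  intro Y _ _ _ C F f p K hK hKt hf hf0 hF hF0
  have hN : (zc p '' ((chartAt ℂ p).source ∩ C.Sg)).Finite := (C.fin.inter_of_right _).image _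
  set O := (chartAt ℂ p).target \ zc p '' ((chartAt ℂ p).source ∩ C.Sg) with hO
  have hop : IsOpen O := (chartAt ℂ p).open_target.sdiff hN.isClosed
  have h1 : ∀ v ∈ O, ∃ y ∈ (chartAt ℂ p).source, y ∉ C.Sg ∧ zc p y = v := fun v hv =>
    ⟨_, (chartAt ℂ p).map_target hv.1,
      fun hs => hv.2 ⟨_, ⟨(chartAt ℂ p).map_target hv.1, hs⟩, zc_symm hv.1⟩, zc_symm hv.1⟩
  have h2 : ∀ y ∈ (chartAt ℂ p).source, y ∉ C.Sg → zc p y ∈ O := fun y hy hs =>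
    ⟨zc_mem hy, fun ⟨y', hy', e⟩ => hs ((chartAt ℂ p).injOn hy'.1 hy e ▸ hy'.2)⟩
  have h3 : ∀ v ∈ O, AnalyticAt ℂ (loc C.x p) v ∧ deriv (loc C.x p) v ≠ 0 := fun v hv => by
    obtain ⟨y, hy, hs, rfl⟩ := h1 v hv
    obtain ⟨a1, a2, -⟩ := C.reg y hs
    exact ⟨a1.loc hy, fun e => a2 (by rw [D_eq hy a1, e, zero_mul])⟩
  have h4 : ∀ ξ, BijOn (zc p) (C.Φ ξ ∩ (chartAt ℂ p).source)
      {v | v ∈ O ∧ loc C.x p v = ξ} := fun ξ =>
    ⟨fun y hy => ⟨h2 y hy.2 hy.1.1, (loc_zc hy.2).trans hy.1.2⟩,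
      (chartAt ℂ p).injOn.mono inter_subset_right, fun v hv => by
        obtain ⟨y, hy, hs, rfl⟩ := h1 v hv.1
        exact ⟨y, ⟨⟨hs, (loc_zc hy).symm.trans hv.2⟩, hy⟩, rfl⟩⟩
  have h5 : EqOn (fun v => f v / ((‖deriv (loc C.x p) v‖ ^ 2 : ℝ) : ℂ) *
      ((‖deriv (loc C.x p) v‖ ^ 2 : ℝ) : ℂ)) f O := fun v hv =>
    div_mul_cancel₀ _ (Complex.ofReal_ne_zero.2 (pow_ne_zero 2 (norm_ne_zero_iff.2 (h3 v hv).2)))
  have hi : Integrable f := hf.integrable_of_hasCompactSupport (HasCompactSupport.intro hK hf0)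
  obtain ⟨h6, h7⟩ := h O (loc C.x p) (fun v => f v / ((‖deriv (loc C.x p) v‖ ^ 2 : ℝ) : ℂ)) hop h3
    (fun ξ => (((C.Φ_finite ξ).inter_of_left _).image _).subset (h4 ξ).surjOn)
    (hi.integrableOn.congr_fun h5.symm hop.measurableSet)
  have h8 : (C.tr fun y => F y / ((‖D C.x y‖ ^ 2 : ℝ) : ℂ)) = fun ξ =>
      ∑ᶠ v ∈ {v | v ∈ O ∧ loc C.x p v = ξ}, f v / ((‖deriv (loc C.x p) v‖ ^ 2 : ℝ) : ℂ) := by
    funext ξ
    refine (finsum_mem_inter_support_eq' _ _ (C.Φ ξ ∩ (chartAt ℂ p).source) fun y hy =>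
      ⟨fun h => ⟨h, by_contra fun h' => hy (by simp only [hF0 y h', zero_div])⟩,
        fun h => h.1⟩).trans (finsum_mem_eq_of_bijOn _ (h4 ξ) fun y hy => ?_)
    rw [hF y hy.2, D_eq hy.2 (C.reg y hy.1.1).1, norm_mul, mul_pow, Complex.ofReal_mul,
      mul_div_mul_right _ _
        (Complex.ofReal_ne_zero.2 (pow_ne_zero 2 (norm_ne_zero_iff.2 (D_zc_ne hy.2))))]
  rw [h8]
  refine ⟨h6, h7.trans ((setIntegral_congr_fun hop.measurableSet h5).trans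
    (setIntegral_eq_integral_of_ae_compl_eq_zero ?_))⟩
  filter_upwards [hN.countable.ae_notMem volume] with v hv hv'
  exact hf0 v fun hk => hv' ⟨hKt hk, hv⟩

end Pool.Agent.P.MP_7ede32_ag.Hod
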