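import Pool.Agent.P.MP_7ede32_ag.Hod.RU

/-!
The characteristic polynomial of a holomorphic form.
-/

open Set Filter Topology Polynomial Bornology Asymptotics

namespace Pool.Agent.P.MP_7ede32_ag.Hod

open MP_5d7cf0_gt.T (RS zc loc An D Hf Om)

namespace ChrP

theorem coeff_le {ι : Type} (s : Finset ι) (r : ι → ℂ) {k : ℕ} (h : k ≤ s.card) {ε : ℝ}
    (hr : ∀ i ∈ s, ‖r i‖ ≤ ε) :
    ‖(∏ i ∈ s, (X + C (r i))).coeff k‖ ≤ s.card.choose (s.card - k) * ε ^ (s.card - k) := by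
  rw [Finset.prod_X_add_C_coeff s r h]
  refine (norm_sum_le _ _).trans ((Finset.sum_le_card_nsmul _ _ (ε ^ (s.card - k))
    fun t ht => ?_).trans ?_)
  · obtain ⟨h1, h2⟩ := Finset.mem_powersetCard.1 ht
    rw [norm_prod, ← h2, ← Finset.prod_const]
    exact Finset.prod_le_prod (fun _ _ => norm_nonneg _) fun i hi => hr i (h1 hi)
  · rw [Finset.card_powersetCard, nsmul_eq_mul]

theorem coeff_an {ι : Type} (s : Finset ι) (r : ι → ℂ → ℂ) {k : ℕ} (h : k ≤ s.card) {z : ℂ}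
    (hr : ∀ i ∈ s, AnalyticAt ℂ (r i) z) :
    AnalyticAt ℂ (fun ξ => (∏ i ∈ s, (X + C (r i ξ))).coeff k) z := by
  simp only [Finset.prod_X_add_C_coeff s _ h]
  exact Finset.analyticAt_fun_sum _ fun t ht => Finset.analyticAt_fun_prod _ fun i hi =>
    hr i ((Finset.mem_powersetCard.1 ht).1 hi)

theorem deg_lt {P Q : ℂ[X]} (hQ : Q ≠ 0)
    (h : ∀ ε > 0, ∀ᶠ ξ in cobounded ℂ, ‖P.eval ξ‖ ≤ ε * ‖Q.eval ξ‖) : P.degree < Q.degree := by
  by_contra h1
  have h2 := (isBigO_cobounded_of_degree_le (not_lt.1 h1)).trans_isLittleO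
    (isLittleO_iff.2 fun ε hε => h ε hε)
  refine isLittleO_irrefl (Eventually.frequently ?_) h2
  rw [Metric.cobounded_eq_cocompact]
  exact cocompact_le_cofinite (Q.finite_setOfPred_isRoot hQ).compl_mem_cofinite

theorem small (c : ℝ) {m : ℕ} (hm : 0 < m) {ε : ℝ} (hε : 0 < ε) : ∃ δ > 0, c * δ ^ m ≤ ε := by
  have h1 : Tendsto (fun δ : ℝ => c * δ ^ m) (𝓝[>] 0) (𝓝 0) := by
    have : Continuous fun δ : ℝ => c * δ ^ m := by fun_prop
    simpa [hm.ne'] using (this.tendsto 0).mono_left (nhdsWithin_le_nhds (s := Ioi 0))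
  obtain ⟨δ, h2, h3⟩ := ((h1.eventually (ge_mem_nhds hε)).and self_mem_nhdsWithin).exists
  exact ⟨δ, h3, h2⟩

/-- from the estimates to the polynomial -/
theorem poly (h3 : SPolyR) {R : ℂ[X]} (hR : R.Separable) (e : ℂ → ℂ) {m : ℕ} (hm : 0 < m) (c : ℝ)
    (ha : ∀ ξ, R.eval ξ ≠ 0 → AnalyticAt ℂ e ξ)
    (hf : ∀ β, R.eval β = 0 → ∀ δ > 0, ∀ᶠ ξ in 𝓝 β, R.eval ξ ≠ 0 → ‖e ξ‖ ≤ c * δ ^ m)
    (hi : ∀ δ > 0, ∀ᶠ ξ in cobounded ℂ, R.eval ξ ≠ 0 →
      ‖e ξ‖ ≤ c * (δ * ‖R.eval ξ‖ / ‖ξ‖) ^ m) :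
    ∃ A : ℂ[X], (∀ i, m * R.natDegree ≤ i + m + R.natDegree → A.coeff i = 0) ∧
      ∀ ξ, R.eval ξ ≠ 0 → e ξ = R.eval ξ * A.eval ξ := by
  have h0 := hR.ne_zero
  have hne : ∀ᶠ ξ in cobounded ℂ, R.eval ξ ≠ 0 := by
    rw [Metric.cobounded_eq_cocompact]
    exact cocompact_le_cofinite (R.finite_setOfPred_isRoot h0).compl_mem_cofinite
  have h1 : ∀ᶠ ξ : ℂ in cobounded ℂ, 1 ≤ ‖ξ‖ :=
    tendsto_norm_cobounded_atTop.eventually (eventually_ge_atTop 1)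
  obtain ⟨m, rfl⟩ : ∃ j, m = j + 1 := ⟨m - 1, by omega⟩
  obtain ⟨c', hc'⟩ := (isBigO_cobounded_of_degree_le (P := R ^ m) (Q := X ^ (R ^ m).natDegree)
    (by rw [degree_X_pow]; exact degree_le_natDegree)).bound
  obtain ⟨A, -, hA⟩ := h3 R (fun ξ => e ξ / R.eval ξ) (R ^ m).natDegree (|c| * c') h0
    (fun ξ hξ => (ha ξ hξ).div (R.differentiable.analyticAt ξ) hξ) (fun β hβ => by
      obtain ⟨c₁, h2, h4⟩ := simple_root hR hβ
      rw [Metric.tendsto_nhds]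
      intro ε hε
      obtain ⟨δ, h5, h6⟩ := small (c₁ * c) hm (half_pos hε)
      filter_upwards [nhdsWithin_le_nhds h4, nhdsWithin_le_nhds (hf β hβ δ h5)] with ξ h7 h8
      rw [dist_zero_right]
      by_cases h9 : R.eval ξ = 0
      · simpa [h9] using hε
      have h10 := norm_pos_iff.2 h9
      calc ‖(ξ - β) * (e ξ / R.eval ξ)‖ = ‖ξ - β‖ / ‖R.eval ξ‖ * ‖e ξ‖ := by
            rw [norm_mul, norm_div]; ring
        _ ≤ c₁ * (c * δ ^ (m + 1)) :=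
            mul_le_mul ((div_le_iff₀ h10).2 h7.2) (h8 h9) (norm_nonneg _) h2.le
        _ < ε := by linarith [mul_assoc c₁ c (δ ^ (m + 1))]) (by
      filter_upwards [hne, h1, hi 1 one_pos, hc'] with ξ h2 h4 h5 h6
      have h10 := norm_pos_iff.2 h2
      simp only [eval_pow, eval_X, norm_pow] at h6
      rw [norm_div, div_le_iff₀ h10]
      calc ‖e ξ‖ ≤ |c| * (1 * ‖R.eval ξ‖ / ‖ξ‖) ^ (m + 1) :=
            (h5 h2).trans (mul_le_mul_of_nonneg_right (le_abs_self c) (by positivity))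
        _ ≤ |c| * ‖R.eval ξ‖ ^ (m + 1) := by
            rw [one_mul]
            gcongr
            exact div_le_self h10.le h4
        _ = |c| * ‖R.eval ξ‖ ^ m * ‖R.eval ξ‖ := by ring
        _ ≤ |c| * (c' * ‖ξ‖ ^ (R ^ m).natDegree) * ‖R.eval ξ‖ := by gcongr
        _ = _ := by ring)
  have hA' : ∀ ξ, R.eval ξ ≠ 0 → e ξ = R.eval ξ * A.eval ξ := fun ξ hξ => by
    rw [← hA ξ hξ, mul_div_cancel₀ _ hξ]
  refine ⟨A, fun i hi' => ?_, hA'⟩
  by_cases hA0 : A = 0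
  · simp [hA0]
  have h7 : (X ^ (m + 1) * (R * A)).degree < (R ^ (m + 1)).degree :=
    deg_lt (pow_ne_zero _ h0) fun ε hε => by
      obtain ⟨δ, h5, h6⟩ := small c hm hε
      filter_upwards [hne, h1, hi δ h5] with ξ h2 h4 h8
      have h9 : 0 < ‖ξ‖ := by linarith
      rw [eval_mul, eval_mul, ← hA' ξ h2, eval_pow, eval_pow, eval_X, norm_mul, norm_pow, norm_pow]
      calc ‖ξ‖ ^ (m + 1) * ‖e ξ‖ ≤ ‖ξ‖ ^ (m + 1) * (c * (δ * ‖R.eval ξ‖ / ‖ξ‖) ^ (m + 1)) := by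
            gcongr
            exact h8 h2
        _ = c * δ ^ (m + 1) * ‖R.eval ξ‖ ^ (m + 1) := by
            rw [div_pow, mul_pow]
            field_simp
        _ ≤ _ := by gcongr
  have h8 : X ^ (m + 1) * (R * A) ≠ 0 := mul_ne_zero (pow_ne_zero _ X_ne_zero) (mul_ne_zero h0 hA0)
  have h9 := natDegree_lt_natDegree h8 h7
  rw [natDegree_mul (pow_ne_zero _ X_ne_zero) (mul_ne_zero h0 hA0), natDegree_mul h0 hA0,
    natDegree_X_pow, natDegree_pow] at h9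
  exact coeff_eq_zero_of_natDegree_lt (by omega)

variable {Y : Type} [TopologicalSpace Y] [ChartedSpace ℂ Y] [RS Y] {w : Y → ℂ} {p : Y}

theorem lim (C : XC Y) (hw : Hf w p) {u : Y → ℂ}
    (h : Tendsto (fun y => u y / dv C.x p y) (𝓝[≠] p) (𝓝 0)) :
    Tendsto (fun y => u y * (w y / D C.x y)) (𝓝[≠] p) (𝓝 0) := by
  have h1 := h.mul (hw.tendsto.mono_left nhdsWithin_le_nhds)
  rw [zero_mul] at h1
  refine h1.congr' ?_
  filter_upwards [nhdsWithin_le_nhds (chart_source_mem_nhds ℂ p)] with y hy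
  have h2 := MP_5d7cf0_gt.T.D_zc_ne hy
  rw [dv]
  by_cases h3 : D C.x y = 0
  · simp [h3]
  · field_simp

end ChrP

open ChrP in
theorem sChr (h1 : SCov) (h2 : SPrp) (h3 : SPolyR) : SChr := by
  intro Y _ _ _ C w hw ξ₀ h0
  obtain ⟨n, -, hn⟩ := h1 Y C
  rw [(hn ξ₀ h0).1]
  let ψ : Y → ℂ := fun y => C.R.eval (C.x y) * (w y / D C.x y)
  let S : ℂ → Finset Y := fun ξ => (C.Φ_finite ξ).toFinset
  have hS : ∀ ξ y, y ∈ S ξ ↔ y ∈ C.Φ ξ := fun ξ y => Finite.mem_toFinset _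
  have hc : ∀ ξ, C.R.eval ξ ≠ 0 → (S ξ).card = n := fun ξ hξ => by
    rw [← (hn ξ hξ).1, ncard_eq_toFinset_card _ (C.Φ_finite ξ)]
  let G : ℂ → ℂ[X] := fun ξ => ∏ y ∈ S ξ, (X + Polynomial.C (-ψ y))
  have key : ∀ k, ∃ A : ℂ[X], k < n →
      (∀ i, (n - k) * C.R.natDegree ≤ i + (n - k) + C.R.natDegree → A.coeff i = 0) ∧
      ∀ ξ, C.R.eval ξ ≠ 0 → (G ξ).coeff k = C.R.eval ξ * A.eval ξ := fun k => by
    by_cases hk : k < n
    swap
    · exact ⟨0, fun h => absurd h hk⟩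
    have bd : ∀ ξ ε, C.R.eval ξ ≠ 0 → (∀ y ∈ C.Φ ξ, ‖ψ y‖ ≤ ε) →
        ‖(G ξ).coeff k‖ ≤ n.choose (n - k) * ε ^ (n - k) := fun ξ ε hξ h => by
      have := coeff_le (S ξ) (fun y => -ψ y) (k := k) (by rw [hc ξ hξ]; omega) (ε := ε)
        fun y hy => by rw [norm_neg]; exact h y ((hS ξ y).1 hy)
      rwa [hc ξ hξ] at this
    refine (poly h3 C.sep (fun ξ => (G ξ).coeff k) (m := n - k) (by omega)
      (n.choose (n - k)) (fun ξ hξ => ?_) (fun β hβ δ hδ => ?_) fun δ hδ => ?_).imp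
        fun A hA _ => hA
    · obtain ⟨-, s, h4, h5⟩ := hn ξ hξ
      refine (coeff_an (S ξ) (fun y ζ => -ψ (s y ζ)) (k := k) (by rw [hc ξ hξ]; omega)
        fun y hy => ?_).congr ?_
      · obtain ⟨h6, rfl⟩ := (hS ξ y).1 hy
        obtain ⟨h7, h8, -⟩ := C.reg y h6
        exact ((h4 y ⟨h6, rfl⟩).analyticAt ((h7.poly C.R).mul (an_div_D (hw y) h7 h8))).neg
      · filter_upwards [h5] with ζ hζ
        congr 1
        exact Finset.prod_nbij (fun y => s y ζ) (fun y hy => (hS ζ _).2 (hζ.mapsTo ((hS ξ y).1 hy)))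
          (by simpa [S] using hζ.injOn) (by simpa [S] using hζ.surjOn) fun _ _ => rfl
    · refine ((h2 Y C fun y => ‖ψ y‖ ≤ δ).1 β hβ fun p _ hp => ?_).mono
        fun ξ h4 h5 => bd ξ δ h5 h4
      obtain ⟨c, h4, h5⟩ := simple_root C.sep hβ
      have h6 := (lim C (hw p) (C.fin_facts hp).1).norm.const_mul c
      rw [norm_zero, mul_zero] at h6
      filter_upwards [h6.eventually (ge_mem_nhds hδ), hp.eventually h5] with y h7 h8
      refine le_trans ?_ h7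
      simp only [ψ, norm_mul]
      rw [← mul_assoc]
      exact mul_le_mul_of_nonneg_right h8.1 (norm_nonneg _)
    · have h8 := (h2 Y C fun y => ‖C.x y * (w y / D C.x y)‖ ≤ δ).2 fun p _ hp => by
        have h6 := (lim C (hw p) (C.inf_facts hp).1).norm
        rw [norm_zero] at h6
        exact h6.eventually (ge_mem_nhds hδ)
      filter_upwards [h8, tendsto_norm_cobounded_atTop.eventually (eventually_gt_atTop 0)]
        with ξ h4 h5 h6
      refine bd ξ _ h6 fun y hy => ?_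
      have h7 := h4 y hy
      obtain ⟨-, rfl⟩ := hy
      rw [norm_mul] at h7
      simp only [ψ, norm_mul]
      rw [le_div_iff₀ h5, mul_comm δ, mul_assoc, mul_comm _ ‖C.x y‖]
      exact mul_le_mul_of_nonneg_left h7 (norm_nonneg _)
  choose A hA using key
  refine ⟨A, fun k hk => (hA k hk).1, fun p hp => ?_⟩
  have h4 := (C.reg p hp).2.2
  have h5 : (G (C.x p)).Monic := monic_prod_of_monic _ _ fun y _ => monic_X_add_C _
  have h6 : (G (C.x p)).natDegree = n := by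
    rw [natDegree_prod_of_monic _ _ fun y _ => monic_X_add_C _]
    simp only [natDegree_X_add_C]
    simp [hc _ h4]
  have h7 : (G (C.x p)).eval (ψ p) = 0 := by
    rw [eval_prod]
    exact Finset.prod_eq_zero ((hS _ p).2 ⟨hp, rfl⟩) (by simp)
  rw [eval_eq_sum_range, h6, Finset.sum_range_succ, ← h6, h5.coeff_natDegree, h6, one_mul] at h7
  rw [CP, Finset.mul_sum, add_comm, ← h7]
  congr 1
  exact Finset.sum_congr rfl fun k hk => by
    rw [(hA k (Finset.mem_range.1 hk)).2 _ h4, mul_assoc]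

end Pool.Agent.P.MP_7ede32_ag.Hod
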