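import Pool.Agent.P.MP_7ede32_ag.Hod.StB

/-!
The codimension of a lattice is the order of the determinant of a frame.
-/

open Set Filter Topology Matrix

namespace Pool.Agent.P.MP_7ede32_ag.Hod

namespace CodP

variable {g : ℕ} {z : ℂ}

theorem an_det {G : MF g} (h : AnM G z) : AnalyticAt ℂ (fun t => (G t).det) z := by
  simp only [det_apply']
  exact Finset.analyticAt_fun_sum _ fun σ _ => analyticAt_const.mul
    (Finset.analyticAt_fun_prod _ fun i _ => h _ _)

theorem mer_det {G : MF g} (h : MeM G z) : MeromorphicAt (fun t => (G t).det) z := by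
  simp only [det_apply']
  exact MeromorphicAt.fun_sum fun σ _ => (MeromorphicAt.const _ _).fun_mul
    (MeromorphicAt.fun_prod fun i _ => h _ _)

theorem an_update {G : MF g} (h : AnM G z) {r : VF g} (hr : AnV r z) (i : Fin g) :
    AnM (fun t => (G t).updateRow i (r t)) z := by
  intro k j
  simp only [updateRow_apply]
  split_ifs
  · exact hr j
  · exact h k j

theorem an_inv {G : MF g} (h : AnM G z) (h0 : (G z).det ≠ 0) : AnM (fun t => (G t)⁻¹) z := by
  intro i j
  simp only [Matrix.inv_def, Ring.inverse_eq_inv', Matrix.smul_apply, smul_eq_mul, adjugate_apply]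
  exact ((an_det h).inv h0).mul (an_det (an_update h
    (r := fun _ => Pi.single i 1) (fun _ => analyticAt_const) j))

theorem an_vecMul {G : MF g} (h : AnM G z) {b : VF g} (hb : AnV b z) :
    AnV (fun t => b t ᵥ* G t) z := by
  intro j
  simp only [vecMul, dotProduct]
  exact Finset.analyticAt_fun_sum _ fun i _ => (hb i).mul (h i j)

theorem div_zero {f : ℂ → ℂ} (h : AnalyticAt ℂ f z) (h0 : f z = 0) :
    ∃ q, AnalyticAt ℂ q z ∧ ∀ t, f t = (t - z) * q t := by
  obtain ⟨p, hp⟩ := h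
  refine ⟨dslope f z, ⟨_, hp.has_fpower_series_dslope_fslope⟩, fun t => ?_⟩
  rw [← smul_eq_mul, sub_smul_dslope, h0, sub_zero]

theorem vecMul_update (b r : Fin g → ℂ) (A : Matrix (Fin g) (Fin g) ℂ) (i : Fin g) :
    b ᵥ* A.updateRow i r = Function.update b i 0 ᵥ* A + b i • r := by
  ext j
  simp only [vecMul, dotProduct, Pi.add_apply, Pi.smul_apply, smul_eq_mul]
  rw [← Finset.add_sum_erase _ _ (Finset.mem_univ i), ← Finset.add_sum_erase _ _ (Finset.mem_univ i),
    updateRow_self, Function.update_self, zero_mul, zero_add, add_comm]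
  congr 1
  refine Finset.sum_congr rfl fun k hk => ?_
  rw [updateRow_ne (Finset.ne_of_mem_erase hk), Function.update_of_ne (Finset.ne_of_mem_erase hk)]

/-- the functions with limit zero have codimension at most one -/
theorem ker_lim {E : Type*} [AddCommGroup E] [Module ℂ E] (V : Submodule ℂ E)
    [FiniteDimensional ℂ V] (T : E →ₗ[ℂ] ℂ → ℂ) (l : Filter ℂ) [l.NeBot]
    (h : ∀ a ∈ V, ∃ c, Tendsto (T a) l (𝓝 c)) :
    ∃ W ≤ V, Module.finrank ℂ V ≤ Module.finrank ℂ W + 1 ∧ ∀ a ∈ W, Tendsto (T a) l (𝓝 0) := by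
  choose c hc using fun a : V => h a a.2
  let ℓ : V →ₗ[ℂ] ℂ :=
    { toFun := c
      map_add' := fun a b => tendsto_nhds_unique (hc (a + b)) (by
        rw [Submodule.coe_add, map_add]
        exact (hc a).add (hc b))
      map_smul' := fun s a => tendsto_nhds_unique (hc (s • a)) (by
        rw [Submodule.coe_smul, map_smul]
        exact (hc a).const_smul s) }
  refine ⟨(LinearMap.ker ℓ).map V.subtype, Submodule.map_subtype_le _ _, ?_, ?_⟩
  · rw [Submodule.finrank_map_subtype_eq, ← ℓ.finrank_range_add_finrank_ker, add_comm]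
    have := (LinearMap.range ℓ).finrank_le
    rw [Module.finrank_self] at this
    omega
  · rintro _ ⟨a, ha, rfl⟩
    have := hc a
    rwa [show c a = 0 from ha] at this

theorem key (ψ : VF g →ₗ[ℂ] VF g) (V : Submodule ℂ (VF g)) [FiniteDimensional ℂ V]
    (hV : ∀ a ∈ V, ExV (ψ a) z) (c : ℕ) : ∀ (G : MF g) (u : ℂ → ℂ), AnM G z →
      AnalyticAt ℂ u z → u z ≠ 0 → (∀ᶠ t in 𝓝[≠] z, (G t).det = (t - z) ^ c * u t) →
      ∃ W ≤ V, Module.finrank ℂ V ≤ Module.finrank ℂ W + c ∧ ∀ a ∈ W, Sp G z (ψ a) := by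
  have unit : ∀ G : MF g, AnM G z → (G z).det ≠ 0 → ∀ a ∈ V, Sp G z (ψ a) := by
    intro G hG h0 a ha
    obtain ⟨b, hb, e⟩ := hV a ha
    refine ⟨fun t => b t ᵥ* (G t)⁻¹, an_vecMul (an_inv hG h0) hb, ?_⟩
    filter_upwards [e, ((an_det hG).continuousAt.eventually_ne h0).filter_mono nhdsWithin_le_nhds]
      with t h1 h2
    rw [vecMul_vecMul, nonsing_inv_mul _ (Ne.isUnit h2), vecMul_one, h1]
  induction c with
  | zero =>
    intro G u hG hu hu0 e
    refine ⟨V, le_rfl, le_rfl, unit G hG ?_⟩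
    have t1 : Tendsto (fun t => (G t).det) (𝓝[≠] z) (𝓝 (G z).det) :=
      (an_det hG).continuousAt.tendsto.mono_left nhdsWithin_le_nhds
    have t2 : Tendsto (fun t => (G t).det) (𝓝[≠] z) (𝓝 (u z)) :=
      (hu.continuousAt.tendsto.mono_left nhdsWithin_le_nhds).congr' (e.mono fun t h => by simp [h])
    rwa [tendsto_nhds_unique t1 t2]
  | succ c ih =>
    intro G u hG hu hu0 e
    by_cases h0 : (G z).det = 0
    swap
    · exact ⟨V, le_rfl, Nat.le_add_right _ _, unit G hG h0⟩
    obtain ⟨v, hv, hv0⟩ := exists_vecMul_eq_zero_iff.2 h0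
    obtain ⟨i, hi⟩ := Function.ne_iff.1 hv
    have hi : v i ≠ 0 := hi
    have hvG : AnV (fun t => v ᵥ* G t) z := an_vecMul hG (b := fun _ => v) fun _ => analyticAt_const
    choose q hq hq' using fun j => div_zero (hvG j) (congrFun hv0 j)
    set r : VF g := fun t j => q j t with hr
    have hr1 : ∀ t, v ᵥ* G t = (t - z) • r t := fun t => funext fun j => hq' j t
    set G₁ : MF g := fun t => (G t).updateRow i (r t) with hG₁
    have hA : AnM G₁ z := an_update hG hq i
    have hdet : ∀ᶠ t in 𝓝[≠] z, (G₁ t).det = (t - z) ^ c * (v i * u t) := by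
      filter_upwards [e, self_mem_nhdsWithin] with t h1 h2
      have h3 : t - z ≠ 0 := sub_ne_zero.2 h2
      refine mul_left_cancel₀ h3 ?_
      rw [hG₁, ← det_updateRow_smul, ← hr1, vecMul_eq_sum]
      refine (det_updateRow_sum (G t) i v).trans ?_
      rw [h1, smul_eq_mul]
      ring
    have hne : ∀ᶠ t in 𝓝[≠] z, (G₁ t).det ≠ 0 := by
      filter_upwards [hdet, self_mem_nhdsWithin,
        (hu.continuousAt.eventually_ne hu0).filter_mono nhdsWithin_le_nhds] with t h1 h2 h3
      rw [h1]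
      exact mul_ne_zero (pow_ne_zero _ (sub_ne_zero.2 h2)) (mul_ne_zero hi h3)
    obtain ⟨W₁, hW₁, hd₁, hS₁⟩ := ih G₁ (fun t => v i * u t) hA (analyticAt_const.mul hu)
      (mul_ne_zero hi hu0) hdet
    have : FiniteDimensional ℂ W₁ := Submodule.finiteDimensional_of_le hW₁
    let T : VF g →ₗ[ℂ] ℂ → ℂ :=
      { toFun := fun a t => (ψ a t ᵥ* (G₁ t)⁻¹) i
        map_add' := fun a b => funext fun t => by simp [add_vecMul]
        map_smul' := fun s a => funext fun t => by simp [smul_vecMul] }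
    have hT : ∀ a b, AnV b z → (∀ᶠ t in 𝓝[≠] z, ψ a t = b t ᵥ* G₁ t) →
        Tendsto (T a) (𝓝[≠] z) (𝓝 (b z i)) := by
      intro a b hb h
      refine ((hb i).continuousAt.tendsto.mono_left nhdsWithin_le_nhds).congr' ?_
      filter_upwards [h, hne] with t h1 h2
      show b t i = (ψ a t ᵥ* (G₁ t)⁻¹) i
      rw [h1, vecMul_vecMul, mul_nonsing_inv _ (Ne.isUnit h2), vecMul_one]
    obtain ⟨W, hW, hd, hS⟩ := ker_lim W₁ T (𝓝[≠] z) fun a ha => by
      obtain ⟨b, hb, h⟩ := hS₁ a ha
      exact ⟨_, hT a b hb h⟩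
    refine ⟨W, hW.trans hW₁, by omega, fun a ha => ?_⟩
    obtain ⟨b, hb, h⟩ := hS₁ a (hW ha)
    obtain ⟨β, hβ, hβ'⟩ := div_zero (hb i) (tendsto_nhds_unique (hT a b hb h) (hS a ha))
    refine ⟨fun t => Function.update (b t) i 0 + β t • v, fun j => ?_, h.mono fun t h1 => ?_⟩
    · simp only [Pi.add_apply, Pi.smul_apply, smul_eq_mul, Function.update_apply]
      refine AnalyticAt.fun_add ?_ (hβ.mul analyticAt_const)
      split_ifs
      · exact analyticAt_const
      · exact hb j
    · rw [h1, hG₁, vecMul_update, add_vecMul, smul_vecMul, hr1, smul_smul, hβ', mul_comm]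

end CodP

open CodP in
theorem sCod : SCod := by
  intro g G z d c m hG hm hE hc V hV ha
  choose r hr hr' using hE
  obtain ⟨u, hu, hu0, e⟩ := (meromorphicOrderAt_eq_int_iff (mer_det hG)).1 hm
  let ψ : VF g →ₗ[ℂ] VF g :=
    { toFun := fun a t => (t - z) ^ d • a t
      map_add' := fun a b => funext fun t => by simp
      map_smul' := fun s a => funext fun t => by simp [smul_comm s] }
  have hG' : ∀ᶠ t in 𝓝[≠] z, Matrix.of (fun i => r i t) = (t - z) ^ d • G t := by
    filter_upwards [eventually_all.2 hr'] with t h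
    ext i j
    exact (congrFun (h i) j).symm
  obtain ⟨W, hW, hd, hS⟩ := key ψ V ha c (fun t => Matrix.of fun i => r i t) u
    (fun i j => hr i j) hu hu0 (by
      filter_upwards [hG', e, self_mem_nhdsWithin] with t h1 h2 h3
      have h4 : t - z ≠ 0 := sub_ne_zero.2 h3
      rw [h1, det_smul, h2, Fintype.card_fin, smul_eq_mul, ← mul_assoc, ← zpow_natCast (t - z) c,
        ← hc, zpow_add₀ h4, ← pow_mul, ← Nat.cast_mul, zpow_natCast, mul_comm g d]
      ring)
  refine ⟨W, hW, hd, fun a haW => ?_⟩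
  obtain ⟨b, hb, h⟩ := hS a haW
  refine ⟨b, hb, ?_⟩
  filter_upwards [h, hG', self_mem_nhdsWithin] with t h1 h2 h3
  have h4 : (t - z) ^ d ≠ 0 := pow_ne_zero _ (sub_ne_zero.2 h3)
  rw [h2, vecMul_smul] at h1
  exact smul_right_injective _ h4 h1

end Pool.Agent.P.MP_7ede32_ag.Hod
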