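import Pool.Agent.P.MP_7ede32_ag.Hod.StF
import Pool.Agent.P.MP_7ede32_ag.Hod.StA
import Pool.Agent.P.MP_7ede32_ag.Hod.MT

/-!
The Hodge metric is good, and the connection on one fibre.
-/

open Set Filter Topology MeasureTheory ComplexConjugate Polynomial Matrix
open scoped ComplexOrder

namespace Pool.Agent.P.MP_7ede32_ag.Hod

open MP_5d7cf0_gt.T (RS zc loc An D Om Hf fderiv_holo D_zc_ne D_sub D_mul an_zc_self source_mem)

namespace Conn1P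

variable {L : PeriodPair} {g : ℕ} {𝒴 : Pl L} {t : ℂ}

theorem fd {a b : Fin g → ℂ → ℂ} (ha : ∀ k, DifferentiableAt ℂ (a k) t)
    (hb : ∀ k, DifferentiableAt ℂ (b k) t) :
    DifferentiableAt ℝ (fun s => ∑ k, a k s * conj (b k s)) t ∧
      ∀ v, fderiv ℝ (fun s => ∑ k, a k s * conj (b k s)) t v =
        v * ∑ k, deriv (a k) t * conj (b k t) + conj v * ∑ k, a k t * conj (deriv (b k) t) := by
  have h1 : ∀ k, DifferentiableAt ℝ (a k) t := fun k => (ha k).restrictScalars ℝ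
  have h2 : ∀ k, DifferentiableAt ℝ (fun s => conj (b k s)) t := fun k =>
    Complex.conjCLE.differentiableAt.comp t ((hb k).restrictScalars ℝ)
  refine ⟨DifferentiableAt.fun_sum fun k _ => (h1 k).fun_mul (h2 k), fun v => ?_⟩
  rw [fderiv_fun_sum fun k _ => (h1 k).fun_mul (h2 k), _root_.sum_apply,
    Finset.mul_sum, Finset.mul_sum, ← Finset.sum_add_distrib]
  refine Finset.sum_congr rfl fun k _ => ?_
  rw [fderiv_fun_mul (h1 k) (h2 k), _root_.add_apply, _root_.smul_apply,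
    _root_.smul_apply, fderiv_cj, fderiv_holo (ha k), fderiv_holo (hb k), smul_eq_mul,
    smul_eq_mul, map_mul]
  ring

theorem solve {A H G : Matrix (Fin g) (Fin g) ℂ} (hA : A.det ≠ 0) (h : Gᴴ * H⁻¹ * G = A) :
    H = G * A⁻¹ * Gᴴ := by
  rw [← h, det_mul, det_mul, mul_ne_zero_iff, mul_ne_zero_iff] at hA
  have h1 : IsUnit H.det := (isUnit_iff_isUnit_det _).1
    (isUnit_nonsing_inv_iff.1 ((isUnit_iff_isUnit_det _).2 hA.1.2.isUnit))
  rw [← h, Matrix.mul_inv_rev, Matrix.mul_inv_rev, nonsing_inv_nonsing_inv _ h1,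
    mul_nonsing_inv_cancel_left _ _ hA.2.isUnit, nonsing_inv_mul_cancel_right _ _ hA.1.1.isUnit]

theorem fl {h Γ : MF g} (hp : (h t).PosDef) (hb : Bar h t Γ) (he : BarEq h t Γ) :
    Fl h (fun _ => dM Γ t * (h t)⁻¹) t := by
  intro i j
  have h0 : (h t).det ≠ 0 := hp.det_pos.ne'
  have e : (fun s => h s i j) =ᶠ[𝓝 t]
      fun s => ∑ k, (∑ l, Γ s i l * (h t)⁻¹ l k) * conj (Γ s j k) := he.mono fun s hs => by
    beta_reduce
    conv_lhs => rw [solve h0 hs]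
    rfl
  have hd : ∀ k, HasDerivAt (fun s => ∑ l, Γ s i l * (h t)⁻¹ l k) ((dM Γ t * (h t)⁻¹) i k) t :=
    fun k => HasDerivAt.fun_sum fun l _ => (hb.1 i l).differentiableAt.hasDerivAt.mul_const _
  obtain ⟨h1, h2⟩ := fd (fun k => (hd k).differentiableAt) fun k => (hb.1 j k).differentiableAt
  refine ⟨h1.congr_of_eventuallyEq e, fun v => ?_⟩
  rw [e.fderiv_eq, h2]
  have h3 : dM Γ t * (h t)⁻¹ * h t = dM Γ t * (h t)⁻¹ * (Γ t)ᴴ := by rw [hb.2.1, hp.1.eq]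
  have h4 : h t * (dM Γ t * (h t)⁻¹)ᴴ = Γ t * (h t)⁻¹ * (dM Γ t)ᴴ := by
    rw [hb.2.1, conjTranspose_mul, hp.1.inv.eq, Matrix.mul_assoc]
  simp only [h3, h4, (hd _).deriv]
  rfl

theorem prim {μ : Md 𝒴 t} {F : E3 → ℂ} (hF : μ.RegF 1 F) {w : μ.Y → ℂ} (hw : w ∈ Om μ.Y)
    (p : μ.Y) : ∃ b, MeromorphicAt (loc b p) (zc p p) ∧
      ∀ᶠ y in 𝓝[≠] p, An b y ∧ D b y = μ.fm (𝒴.dT F) y - w y := by
  obtain ⟨β, β₁, h1, h2, h3⟩ := hF p
  obtain ⟨B, hB⟩ := exists_prim ((hf_mul_D h2 an_zc_self).sub (hw p))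
  refine ⟨fun y => B y - μ.χ p y * β y, (AnalyticAt.meromorphicAt hB.self_of_nhds.1).sub
    ((μ.mer p).mul (AnalyticAt.meromorphicAt h1)), ?_⟩
  filter_upwards [h3, Md.an_χ p, nhdsWithin_le_nhds hB, nhdsWithin_le_nhds h1.eventually,
    nhdsWithin_le_nhds (source_mem (mem_chart_source ℂ p))] with y a b c d e
  refine ⟨c.1.sub (b.mul d), ?_⟩
  have h4 := a.2
  have h5 := D_zc_ne e
  rw [D_sub c.1 (b.mul d), D_mul b d, c.2, Md.fm]
  simp only [Md.xv, dv, pow_one, Nat.cast_one, one_mul] at h4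
  field_simp at h4
  linear_combination -h4

theorem an_poly (L : PeriodPair) (N : ℂ[X][X]) (q : E3) :
    AnalyticAt ℂ (fun q : E3 => N.evalEval q.2.1 q.2.2) q :=
  (analyticAt_ev (L := L) (sp_cst N).1).congr (Eventually.of_forall fun q => by
    rw [ev, (sp_cst N).2])

end Conn1P

open Conn1P

theorem sGm (h1 : SGam) (h2 : SLsc) (h3 : SPr) : SGm := by
  intro L 𝒴 Φ g N hB
  filter_upwards [h1 L 𝒴 Φ g N hB, Φ.mem, hB, cd_nhds hB, cd_nhds Φ.mem] with t a b c d e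
  obtain ⟨hp, Γ, hΓ, -⟩ := a b
  obtain ⟨w, hw⟩ := c b
  refine ⟨hp, h2 L 𝒴 g N t (Φ.md t b).rt (fun i => (hw.1 i).1) ?_ hp, Γ, hΓ⟩
  filter_upwards [d, e] with s d e
  obtain ⟨w, hw⟩ := d e
  exact hw.1.int h3

theorem sConn1 (h1 : SGam) (h2 : SGMr) (h3 : SPr) : SConn1 := by
  intro L 𝒴 Φ g N hB hE
  filter_upwards [h1 L 𝒴 Φ g N hB, Φ.mem, hB, hE, eventually_all.2 fun i =>
    Φ.up 1 (𝒴.phs N i) (Pl.rat_ph _) (hB.H i)] with t a b c d e
  obtain ⟨hp, Γ, hΓ, hO⟩ := a b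
  obtain ⟨w, hw, -⟩ := c b
  refine ⟨_, fl hp hΓ (d Γ hΓ), fun i => ?_⟩
  replace hO := fun σ hσ => hO (d Γ hΓ) σ hσ i
  replace e := e i b
  generalize dM Γ t * (𝒴.hm N t)⁻¹ = m at hO ⊢
  generalize Φ.md t b = μ at w hw hO e
  have hW : ∑ j, m i j • w j ∈ Om μ.Y :=
    Submodule.sum_mem _ fun j _ => Submodule.smul_mem _ _ (hw j).2.1
  have hH : ∀ p ∉ μ.M.Sg, Hf (fun y => μ.fm (𝒴.dT (𝒴.phs N i)) y - (∑ j, m i j • w j) y) p :=
    fun p hp => (Md.hf_fm hp ((Md.ok_j hp).an_dT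
      (Pl.anO_ph (hw i).1 _ (Md.ok_j hp) rfl))).sub (hW p)
  obtain ⟨k, N', hN⟩ := h2 μ.Y μ.M _ hH (fun p _ => prim e hW p) fun σ hσ => by
    have h4 := (μ.M.pr_add (μ.M.int_zc h3 hH hσ.cj) (μ.M.int_zc h3 (fun p _ => hW p) hσ.cj)).2
    have h5 := (μ.M.pr_sum Finset.univ (m i) (fun j => hf (w j))
      fun j _ => μ.M.int_zc h3 (fun p _ => (hw j).2.1 p) hσ.cj).2
    have h6 := hO σ hσ
    simp only [← hw.Q] at h6
    rw [← hf_add, show (fun y => μ.fm (𝒴.dT (𝒴.phs N i)) y - (∑ j, m i j • w j) y) +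
      ∑ j, m i j • w j = μ.fm (𝒴.dT (𝒴.phs N i)) from funext fun y => sub_add_cancel _ _,
      hf_sum] at h4
    simp only [hf_smul] at h4
    simp only [XC.Q] at h6 ⊢
    linear_combination h6 - h4 - h5
  refine ⟨k, N', μ.cofinite_iff.1 (μ.M.off.mono fun p hp => ?_)⟩
  have h4 := (Md.an_comp hp ((an_poly L N' _).fun_div ((analyticAt_ev1 μ.rt.2.2.2.1).fun_pow k)
    (pow_ne_zero k (Md.ok_j hp).2.2))).2
  refine mul_right_cancel₀ (μ.M.reg p hp).2.1 ?_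
  rw [← h4]
  simp only [Md.R_j]
  refine (hN p hp).trans ?_
  rw [sub_mul, Finset.sum_mul, Finset.sum_apply]
  refine congrArg _ (Finset.sum_congr rfl fun j _ => ?_)
  rw [Pi.smul_apply, (hw j).2.2 p hp, mul_assoc]
  rfl

end Pool.Agent.P.MP_7ede32_ag.Hod
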