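import Pool.Agent.P.MP_7ede32_ag.Hod.StB

/-!
Counting sections over an unramified cover of the elliptic curve.
-/

open Set Filter Topology Matrix ComplexConjugate
open scoped ComplexOrder

noncomputable section

namespace Pool.Agent.P.MP_7ede32_ag.Hod

namespace CountP

variable {g : ℕ}

/-- finitely many conditions of finite codimension -/
theorem fin_cond {ι E : Type*} [AddCommGroup E] [Module ℂ E] (V : Submodule ℂ E)
    [FiniteDimensional ℂ V] (Q : ι → E → Prop) (c : ι → ℕ) (I : Finset ι)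
    (h : ∀ x ∈ I, ∀ V' ≤ V, ∃ W ≤ V', Module.finrank ℂ V' ≤ Module.finrank ℂ W + c x ∧
      ∀ a ∈ W, Q x a) :
    ∃ W ≤ V, Module.finrank ℂ V ≤ Module.finrank ℂ W + ∑ x ∈ I, c x ∧ ∀ x ∈ I, ∀ a ∈ W, Q x a := by
  classical
  induction I using Finset.induction_on with
  | empty => exact ⟨V, le_rfl, by simp, by simp⟩
  | insert x I hx ih =>
    obtain ⟨W, hW, h1, h2⟩ := ih fun y hy => h y (Finset.mem_insert_of_mem hy)
    obtain ⟨W', hW', h3, h4⟩ := h x (Finset.mem_insert_self _ _) W hW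
    refine ⟨W', hW'.trans hW, by rw [Finset.sum_insert hx]; omega, fun y hy a ha => ?_⟩
    rcases Finset.mem_insert.1 hy with rfl | hy
    · exact h4 a ha
    · exact h2 y hy a (hW' ha)

theorem tend_add (z w : ℂ) : Tendsto (fun t => t + w) (𝓝[≠] z) (𝓝[≠] (z + w)) := by
  refine tendsto_nhdsWithin_iff.2 ⟨?_, ?_⟩
  · exact ((continuous_add_const w).tendsto z).mono_left nhdsWithin_le_nhds
  · filter_upwards [self_mem_nhdsWithin] with t ht h
    exact ht (add_right_cancel h)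

theorem mer_det {G : MF g} {z : ℂ} (h : MeM G z) : MeromorphicAt (fun t => (G t).det) z := by
  simp only [Matrix.det_apply']
  refine MeromorphicAt.fun_sum fun σ _ => ?_
  exact (MeromorphicAt.const _ _).mul (MeromorphicAt.fun_prod fun i _ => h _ _)

theorem an_det {G : MF g} {z : ℂ} (h : AnM G z) : AnalyticAt ℂ (fun t => (G t).det) z := by
  simp only [Matrix.det_apply']
  refine Finset.analyticAt_fun_sum _ fun σ _ => ?_
  exact analyticAt_const.mul (Finset.analyticAt_fun_prod _ fun i _ => h _ _)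

/-- a common bound for the poles -/
theorem exists_d (Z : Finset ℂ) (G : ℂ → MF g) (h : ∀ z ∈ Z, MeM (G z) z) :
    ∃ d : ℕ, ∀ z ∈ Z, AnM (fun t => (t - z) ^ d • G z t) z := by
  have h1 : ∀ z ∈ Z, ∀ i j, ∀ᶠ d in atTop,
      AnalyticAt ℂ (fun t => (t - z) ^ d * G z t i j) z := by
    intro z hz i j
    obtain ⟨k, hk⟩ := h z hz i j
    filter_upwards [eventually_ge_atTop k] with d hd
    obtain ⟨e, rfl⟩ := Nat.exists_eq_add_of_le hd
    have h2 : AnalyticAt ℂ (fun t => (t - z) ^ e) z := by fun_prop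
    refine (h2.mul hk).congr (Eventually.of_forall fun t => ?_)
    simp only [Pi.mul_apply, smul_eq_mul]
    ring
  have h2 : ∀ᶠ d in atTop, ∀ z ∈ Z, ∀ i j, AnalyticAt ℂ (fun t => (t - z) ^ d * G z t i j) z :=
    (Filter.eventually_all_finset Z).2 fun z hz =>
      eventually_all.2 fun i => eventually_all.2 fun j => h1 z hz i j
  obtain ⟨d, hd⟩ := h2.exists
  exact ⟨d, fun z hz i j => by simpa using hd z hz i j⟩

theorem ord_nonneg {G : MF g} {z : ℂ} {d : ℕ} {m : ℤ} (h : MeM G z)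
    (ho : meromorphicOrderAt (fun t => (G t).det) z = m)
    (hd : AnM (fun t => (t - z) ^ d • G t) z) : 0 ≤ m + g * d := by
  have h1 := (an_det hd).meromorphicOrderAt_nonneg
  have h2 : (fun t => ((t - z) ^ d • G t).det) = fun t => (t - z) ^ (d * g) * (G t).det := by
    funext t
    rw [Matrix.det_smul, Fintype.card_fin, pow_mul]
  rw [h2, fun_meromorphicOrderAt_mul (by fun_prop) (mer_det h), ho,
    fun_meromorphicOrderAt_pow_id_sub_const] at h1
  have h3 : (0 : ℤ) ≤ ((d * g : ℕ) : ℤ) + m := by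
    rw [← WithTop.coe_le_coe, WithTop.coe_add]
    exact h1
  push_cast at h3
  linarith

/-- the space of vectors with given components -/
def Φ {N : ℕ} (f : Fin N → ℂ → ℂ) : (Fin g × Fin N → ℂ) →ₗ[ℂ] VF g where
  toFun c := fun t i => ∑ k, c (i, k) * f k t
  map_add' c c' := by
    funext t i
    simp [add_mul, Finset.sum_add_distrib]
  map_smul' r c := by
    funext t i
    simp [Finset.mul_sum, mul_assoc]

theorem Φ_apply {N : ℕ} (f : Fin N → ℂ → ℂ) (c : Fin g × Fin N → ℂ) (t : ℂ) (i : Fin g) :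
    Φ f c t i = ∑ k, c (i, k) * f k t := rfl

theorem Φ_zero {N : ℕ} {f : Fin N → ℂ → ℂ}
    (hf : ∀ c : Fin N → ℂ, (∀ᶠ t in cd, ∑ i, c i * f i t = 0) → c = 0)
    {c : Fin g × Fin N → ℂ} (h : ∀ᶠ t in cd, Φ f c t = 0) : c = 0 := by
  funext ⟨i, k⟩
  exact congrFun (hf (fun k => c (i, k)) (h.mono fun t ht => congrFun ht i)) k

/-- the translation vector -/
def tv (L : PeriodPair) (x : ℕ × ℕ) : ℂ := x.1 * L.ω₁ + x.2 * L.ω₂

theorem tv_mem (L : PeriodPair) (x : ℕ × ℕ) : tv L x ∈ L.lattice :=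
  PeriodPair.mem_lattice.2 ⟨x.1, x.2, by simp [tv]⟩

theorem nL_le {L : PeriodPair} {n : ℕ} {hn : 0 < n} {w : ℂ} (h : w ∈ (nL L n hn).lattice) :
    w ∈ L.lattice := by
  obtain ⟨w₀, h0, rfl⟩ := mem_nL.1 h
  simpa using L.lattice.smul_mem (n : ℤ) h0

theorem tv_inj {L : PeriodPair} {n : ℕ} {hn : 0 < n} {x y : ℕ × ℕ} (hx : x.1 < n ∧ x.2 < n)
    (hy : y.1 < n ∧ y.2 < n) (h : tv L x - tv L y ∈ (nL L n hn).lattice) : x = y := by
  obtain ⟨w₀, h0, h1⟩ := mem_nL.1 h
  obtain ⟨a, b, rfl⟩ := PeriodPair.mem_lattice.1 h0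
  have h2 := LinearIndependent.pair_iff.1 L.indep ((x.1 : ℝ) - y.1 - n * a) (x.2 - y.2 - n * b) (by
    simp only [Complex.real_smul, tv] at h1 ⊢
    push_cast
    linear_combination h1)
  have h3 : (x.1 : ℤ) - y.1 - n * a = 0 := by exact_mod_cast h2.1
  have h4 : (x.2 : ℤ) - y.2 - n * b = 0 := by exact_mod_cast h2.2
  have key : ∀ (u v : ℕ) (e : ℤ), u < n → v < n → (u : ℤ) - v - n * e = 0 → u = v := by
    intro u v e hu hv he
    have h5 : e = 0 := by
      by_contra h6
      rcases lt_or_gt_of_ne h6 with h6 | h6 <;> nlinarith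
    subst h5
    omega
  exact Prod.ext (key _ _ _ hx.1 hy.1 h3) (key _ _ _ hx.2 hy.2 h4)

theorem tv_surj {L : PeriodPair} {n : ℕ} (hn : 0 < n) {w : ℂ} (h : w ∈ L.lattice) :
    ∃ x : ℕ × ℕ, x.1 < n ∧ x.2 < n ∧ ∃ w' ∈ L.lattice, w = tv L x + n * w' := by
  obtain ⟨a, b, rfl⟩ := PeriodPair.mem_lattice.1 h
  have hn' : (0 : ℤ) < n := by exact_mod_cast hn
  have key : ∀ a : ℤ, ∃ u : ℕ, u < n ∧ ∃ e : ℤ, a = u + n * e := fun a => by
    refine ⟨(a % n).toNat, ?_, a / n, ?_⟩
    · have := Int.emod_lt_of_pos a hn'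
      have := Int.emod_nonneg a hn'.ne'
      omega
    · rw [Int.toNat_of_nonneg (Int.emod_nonneg a hn'.ne'), Int.emod_add_mul_ediv]
  obtain ⟨u, hu, e, rfl⟩ := key a
  obtain ⟨v, hv, e', rfl⟩ := key b
  refine ⟨(u, v), hu, hv, _, PeriodPair.mem_lattice.2 ⟨e, e', rfl⟩, ?_⟩
  simp only [tv]
  push_cast
  ring

end CountP

open CountP

theorem sCount (h1 : SCod) (h2 : SEllSp) : SCount := by
  classical
  intro L g S z₁ hm hz₁
  set n := 3 * g + 1 with hn
  have hn0 : 0 < n := by omega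
  obtain ⟨d, hd⟩ := exists_d S.Z S.G S.mer
  set I : Finset (ℂ × ℕ × ℕ) := S.Z ×ˢ (Finset.range n ×ˢ Finset.range n) with hI
  have memI : ∀ x, x ∈ I ↔ x.1 ∈ S.Z ∧ x.2.1 < n ∧ x.2.2 < n := fun x => by
    simp [hI]
  set π : ℂ × ℕ × ℕ → ℂ := fun x => x.1 + tv L x.2 with hπ
  have inj : ∀ x ∈ I, ∀ y ∈ I, π x - π y ∈ (nL L n hn0).lattice → x = y := by
    intro x hx y hy h
    have hx' := (memI x).1 hx
    have hy' := (memI y).1 hy
    have e1 : x.1 = y.1 := by
      refine S.sep _ hx'.1 _ hy'.1 ?_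
      have := L.lattice.add_mem (L.lattice.sub_mem (nL_le h) (tv_mem L x.2)) (tv_mem L y.2)
      convert this using 1
      simp only [hπ]
      ring
    refine Prod.ext e1 (tv_inj (L := L) (hn := hn0) hx'.2 hy'.2 ?_)
    convert h using 1
    simp only [hπ, e1]
    ring
  have hcard : (I.image π).card = S.Z.card * (n * n) := by
    rw [Finset.card_image_of_injOn fun x hx y hy h => inj x hx y hy (by simp [h])]
    simp [hI]
  obtain ⟨f, hf, hind⟩ := h2 (nL L n hn0) (I.image π) d (by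
    intro p hp p' hp' h
    obtain ⟨x, hx, rfl⟩ := Finset.mem_image.1 hp
    obtain ⟨y, hy, rfl⟩ := Finset.mem_image.1 hp'
    rw [inj x hx y hy h])
  set V : Submodule ℂ (VF g) := LinearMap.range (Φ f) with hV
  have hdim : Module.finrank ℂ V = g * (S.Z.card * (n * n) * d) := by
    rw [hV, LinearMap.finrank_range_of_inj]
    · simp [hcard]
    · exact (injective_iff_map_eq_zero _).2 fun c hc =>
        Φ_zero hind (Eventually.of_forall fun t => congrFun hc t)
  have hoff : ∀ a ∈ V, ∀ t, S.Off t → AnV a t := by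
    rintro _ ⟨c, rfl⟩ t ht i
    simp only [Φ_apply]
    refine Finset.analyticAt_fun_sum _ fun k _ => analyticAt_const.mul ((hf k).2.2.1 t ?_)
    intro p hp h
    obtain ⟨x, hx, rfl⟩ := Finset.mem_image.1 hp
    refine ht x.1 ((memI x).1 hx).1 ?_
    have := L.lattice.add_mem (nL_le h) (tv_mem L x.2)
    convert this using 1
    simp only [hπ]
    ring
  have hc0 : ∀ z ∈ S.Z, 0 ≤ S.m z + g * d := fun z hz =>
    ord_nonneg (S.mer z hz) (S.ord z hz) (hd z hz)
  obtain ⟨W, hWV, hW1, hW2⟩ := fin_cond V (fun x a => Sp (fun t => S.G x.1 (t - tv L x.2)) (π x) a)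
    (fun x => (S.m x.1 + g * d).toNat) I (by
      intro x hx V' hV'
      have hz := ((memI x).1 hx).1
      have e : π x - tv L x.2 = x.1 := by simp [hπ]
      refine h1 g _ (π x) d _ (S.m x.1) ?_ ?_ ?_ (Int.toNat_of_nonneg (hc0 _ hz)).symm V'
        (Submodule.finiteDimensional_of_le hV') ?_
      · intro i j
        exact meromorphicAt_fun_comp_sub_const_iff_meromorphicAt
          (f := fun t => S.G x.1 t i j).2 (e ▸ S.mer _ hz i j)
      · rw [meromorphicOrderAt_fun_comp_sub_const_eq_meromorphicOrderAt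
          (f := fun t => (S.G x.1 t).det), e, S.ord _ hz]
      · intro i
        refine ⟨_, fun j => ?_, EventuallyEq.rfl⟩
        have h3 : AnalyticAt ℂ (fun t => ((t - x.1) ^ d • S.G x.1 t) i j) (π x - tv L x.2) :=
          e ▸ hd _ hz i j
        refine (h3.comp_of_eq (f := fun t => t - tv L x.2) (by fun_prop) rfl).congr
          (Eventually.of_forall fun t => ?_)
        simp only [hπ, Function.comp, Matrix.smul_apply, Pi.smul_apply]
        congr 2
        ring
      · intro a ha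
        obtain ⟨c, rfl⟩ := hV' ha
        choose b hb hb' using fun k => (hf k).2.2.2 (π x) (Finset.mem_image_of_mem π hx)
        refine ⟨fun t i => ∑ k, c (i, k) * b k t, fun i =>
          Finset.analyticAt_fun_sum _ fun k _ => analyticAt_const.mul (hb k), ?_⟩
        filter_upwards [eventually_all.2 hb'] with t ht
        funext i
        simp only [Pi.smul_apply, Φ_apply, smul_eq_mul, Finset.mul_sum, ← ht]
        exact Finset.sum_congr rfl fun k _ => by ring)
  obtain ⟨W', hW'W, hW3, hW4⟩ := h1 g (fun t => (t - z₁) ^ 3 • (1 : Matrix (Fin g) (Fin g) ℂ)) z₁ 0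
    (3 * g) (3 * g : ℕ) (fun i j => by simp only [Matrix.smul_apply, smul_eq_mul]; fun_prop)
    (by
      have e : (fun t => ((t - z₁) ^ 3 • (1 : Matrix (Fin g) (Fin g) ℂ)).det) =
          fun t => (t - z₁) ^ (3 * g) := by
        funext t
        rw [Matrix.det_smul, Fintype.card_fin, Matrix.det_one, mul_one, pow_mul]
      rw [e, fun_meromorphicOrderAt_pow_id_sub_const]
      rfl)
    (fun i => ⟨_, fun j => by
      simp only [Pi.smul_apply, Matrix.smul_apply, smul_eq_mul]; fun_prop, EventuallyEq.rfl⟩)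
    (by simp) W (Submodule.finiteDimensional_of_le hWV)
    (fun a ha => ⟨a, hoff a (hWV ha) z₁ hz₁, Eventually.of_forall fun t => by simp⟩)
  have hsum : ((∑ x ∈ I, (S.m x.1 + g * d).toNat : ℕ) : ℤ) =
      n * n * (∑ z ∈ S.Z, S.m z + S.Z.card * (g * d)) := by
    rw [hI, Finset.sum_product]
    push_cast
    rw [Finset.sum_congr rfl fun z hz => show
      ∑ _y ∈ Finset.range n ×ˢ Finset.range n, (((S.m z + g * d).toNat : ℕ) : ℤ) =
        n * n * (S.m z + g * d) by
      rw [Int.toNat_of_nonneg (hc0 z hz)]; simp]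
    rw [← Finset.mul_sum, Finset.sum_add_distrib]
    simp
  have hpos : 0 < Module.finrank ℂ W' := by
    have e1 : (g : ℤ) * (S.Z.card * (n * n) * d) ≤ Module.finrank ℂ W' + 3 * g +
        n * n * (∑ z ∈ S.Z, S.m z + S.Z.card * (g * d)) := by
      rw [← hsum]
      have := hdim ▸ hW1
      exact_mod_cast this.trans (Nat.add_le_add_right hW3 _)
    have e2 : (n : ℤ) = 3 * g + 1 := by simp [hn]
    have e3 : (n : ℤ) * n * (∑ z ∈ S.Z, S.m z) ≤ -(n * n) := by nlinarith [mul_self_nonneg (n : ℤ)]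
    have e4 : (3 * g : ℤ) < n * n := by nlinarith [Int.natCast_nonneg g]
    have e5 : (0 : ℤ) < Module.finrank ℂ W' := by nlinarith
    exact_mod_cast e5
  obtain ⟨κ, hκ, hκ0⟩ := (Submodule.ne_bot_iff W').1 (by
    rintro rfl
    simp at hpos)
  have hκV := hWV (hW'W hκ)
  have hper : ∀ w ∈ L.lattice, ∀ t, κ (t + n * w) = κ t := by
    obtain ⟨c, rfl⟩ := hκV
    intro w hw t
    funext i
    simp only [Φ_apply, fun k => (hf k).2.1 _ (mem_nL.2 ⟨w, hw, rfl⟩) t]
  refine ⟨n, κ, ⟨hn0, ?_, hper, ?_, ?_⟩, hoff κ hκV, ?_⟩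
  · obtain ⟨c, rfl⟩ := hκV
    intro z i
    simp only [Φ_apply]
    exact MeromorphicAt.fun_sum fun k _ => (MeromorphicAt.const _ _).mul ((hf k).1 z)
  · obtain ⟨c, rfl⟩ := hκV
    intro h
    exact hκ0 (by rw [Φ_zero hind h, map_zero])
  · obtain ⟨b, hb, hb'⟩ := hW4 κ hκ
    exact ⟨b, hb, hb'.mono fun t ht => by rw [ht, Matrix.vecMul_smul, Matrix.vecMul_one]⟩
  · intro z hz w hw
    obtain ⟨x, hx1, hx2, w', hw', rfl⟩ := tv_surj hn0 hw
    obtain ⟨b, hb, hb'⟩ := hW2 (z, x) ((memI _).2 ⟨hz, hx1, hx2⟩) κ (hW'W hκ)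
    refine ⟨fun t => b (t + tv L x), fun i =>
      (hb i).comp_of_eq (f := fun t => t + tv L x) (by fun_prop) rfl, ?_⟩
    filter_upwards [(tend_add z (tv L x)).eventually hb'] with t ht
    rw [← add_assoc, hper w' hw', ht, add_sub_cancel_right]

end Pool.Agent.P.MP_7ede32_ag.Hod
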