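import Pool.Agent.P.MP_7ede32_ag.Hod.RU

/-!
The function `x` is proper and a covering outside the roots of `R`.
-/

open Set Filter Topology Polynomial Bornology

namespace Pool.Agent.P.MP_7ede32_ag.Hod

open MP_5d7cf0_gt.T (RS zc loc An D Sm Db Hf Om eventually_notMem eventually_notMem')

namespace CovP

variable {Y : Type} [TopologicalSpace Y] [ChartedSpace ℂ Y] (C : XC Y) {U : Y → Prop}
  {l m : Filter ℂ} {p : Y}

theorem of_disj (hd : Disjoint l m) (ht : Tendsto C.x (𝓝[C.Sgᶜ] p) m) :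
    ∀ᶠ z : ℂ × Y in l ×ˢ 𝓝 p, z.2 ∈ C.Φ z.1 → U z.2 := by
  obtain ⟨s, hs, t, ht', hst⟩ := Filter.disjoint_iff.mp hd
  filter_upwards [prod_mem_prod hs (eventually_nhdsWithin_iff.mp (ht.eventually ht'))]
    with z hz h1
  exact absurd (h1.2 ▸ hz.2 h1.1) (Set.disjoint_left.mp hst hz.1)

theorem of_ev (h : ∀ᶠ y in 𝓝[C.Sgᶜ] p, U y) :
    ∀ᶠ z : ℂ × Y in l ×ˢ 𝓝 p, z.2 ∈ C.Φ z.1 → U z.2 := by
  filter_upwards [prod_mem_prod univ_mem (eventually_nhdsWithin_iff.mp h)] with z hz h1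
  exact hz.2 h1.1

theorem le_ne (hp : p ∈ C.Sg) : 𝓝[C.Sgᶜ] p ≤ 𝓝[≠] p :=
  nhdsWithin_mono p fun _ hy h => hy (mem_singleton_iff.mp h ▸ hp)

theorem glue [CompactSpace Y] (h : ∀ p, ∀ᶠ z : ℂ × Y in l ×ˢ 𝓝 p, z.2 ∈ C.Φ z.1 → U z.2) :
    ∀ᶠ ξ in l, ∀ y ∈ C.Φ ξ, U y := by
  have h1 := isCompact_univ.mem_prod_nhdsSet_of_forall fun p _ => h p
  rw [nhdsSet_univ] at h1
  obtain ⟨s, hs, t, ht, hst⟩ := mem_prod_iff.mp h1
  filter_upwards [hs] with ξ hξ y hy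
  exact hst (mk_mem_prod hξ (mem_top.mp ht ▸ mem_univ y)) hy

theorem prp_fin [RS Y] (ξ₀ : ℂ) (h1 : ∀ p ∈ C.Sg, C.R.eval ξ₀ = 0 →
      Tendsto C.x (𝓝[≠] p) (𝓝 ξ₀) → ∀ᶠ y in 𝓝[≠] p, U y)
    (h2 : ∀ p ∈ C.Φ ξ₀, ∀ᶠ y in 𝓝 p, U y) : ∀ᶠ ξ in 𝓝 ξ₀, ∀ y ∈ C.Φ ξ, U y := by
  refine glue C fun p => ?_
  by_cases hp : p ∈ C.Sg
  · rcases C.bad p hp with ⟨β, hβ, ht⟩ | ht
    · by_cases e : ξ₀ = β
      · subst e
        exact of_ev C ((h1 p hp hβ ht).filter_mono (le_ne C hp))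
      · exact of_disj C (disjoint_nhds_nhds.mpr e) (ht.mono_left (le_ne C hp))
    · exact of_disj C (Metric.disjoint_nhds_cobounded ξ₀) (ht.mono_left (le_ne C hp))
  · by_cases e : ξ₀ = C.x p
    · exact of_ev C ((h2 p ⟨hp, e.symm⟩).filter_mono nhdsWithin_le_nhds)
    · exact of_disj C (disjoint_nhds_nhds.mpr e)
        ((C.reg p hp).1.continuousAt.tendsto.mono_left nhdsWithin_le_nhds)

theorem prp_inf [RS Y]
    (h1 : ∀ p ∈ C.Sg, Tendsto C.x (𝓝[≠] p) (cobounded ℂ) → ∀ᶠ y in 𝓝[≠] p, U y) :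
    ∀ᶠ ξ in cobounded ℂ, ∀ y ∈ C.Φ ξ, U y := by
  refine glue C fun p => ?_
  by_cases hp : p ∈ C.Sg
  · rcases C.bad p hp with ⟨β, -, ht⟩ | ht
    · exact of_disj C (Metric.disjoint_nhds_cobounded β).symm (ht.mono_left (le_ne C hp))
    · exact of_ev C ((h1 p hp ht).filter_mono (le_ne C hp))
  · exact of_disj C (Metric.disjoint_nhds_cobounded _).symm
      ((C.reg p hp).1.continuousAt.tendsto.mono_left nhdsWithin_le_nhds)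

theorem local_sec [RS Y] {ξ₀ : ℂ} (h0 : C.R.eval ξ₀ ≠ 0) : ∃ s : Y → ℂ → Y,
    (∀ p ∈ C.Φ ξ₀, IsSec C.x (s p) p) ∧
      ∀ᶠ ξ in 𝓝 ξ₀, BijOn (fun p => s p ξ) (C.Φ ξ₀) (C.Φ ξ) := by
  have hex : ∀ p, ∃ s : ℂ → Y, p ∈ C.Φ ξ₀ → IsSec C.x s p := fun p => by
    by_cases hp : p ∈ C.Φ ξ₀
    · obtain ⟨s, hs⟩ := exists_isSec (C.reg p hp.1).1 (C.reg p hp.1).2.1
      exact ⟨s, fun _ => hs⟩
    · exact ⟨fun _ => p, fun h => absurd h hp⟩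
  choose s hs using hex
  have hf := C.Φ_finite ξ₀
  have ht : ∀ p ∈ C.Φ ξ₀, Tendsto (s p) (𝓝 ξ₀) (𝓝 p) := fun p hp => by
    have := (hs p hp).cont.tendsto
    rwa [(hs p hp).self, hp.2] at this
  refine ⟨s, hs, ?_⟩
  have h1 : ∀ᶠ ξ in 𝓝 ξ₀, ∀ p ∈ C.Φ ξ₀, s p ξ ∈ C.Φ ξ := by
    refine (hf.eventually_all).mpr fun p hp => ?_
    have h2 := (hs p hp).right
    rw [hp.2] at h2
    filter_upwards [h2, (ht p hp).eventually (eventually_notMem' C.fin hp.1)] with ξ h3 h4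
    exact ⟨h4, h3⟩
  have h2 : ∀ᶠ ξ in 𝓝 ξ₀, ∀ p ∈ C.Φ ξ₀, ∀ p' ∈ C.Φ ξ₀, s p ξ = s p' ξ → p = p' := by
    refine (hf.eventually_all).mpr fun p hp => (hf.eventually_all).mpr fun p' hp' => ?_
    by_cases e : p = p'
    · exact Eventually.of_forall fun _ _ => e
    · obtain ⟨a, ha, b, hb, hab⟩ := Filter.disjoint_iff.mp (disjoint_nhds_nhds.mpr e)
      filter_upwards [(ht p hp).eventually ha, (ht p' hp').eventually hb] with ξ h3 h4 h5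
      exact absurd (h5 ▸ h4) (Set.disjoint_left.mp hab h3)
  have h3 := prp_fin C (U := fun y => ∃ p ∈ C.Φ ξ₀, s p (C.x y) = y) ξ₀
    (fun _ _ h => absurd h h0) fun p hp => (hs p hp).left.mono fun y hy => ⟨p, hp, hy⟩
  filter_upwards [h1, h2, h3] with ξ h1 h2 h3
  refine ⟨h1, fun p hp p' hp' => h2 p hp p' hp', fun y hy => ?_⟩
  obtain ⟨p, hp, e⟩ := h3 y hy
  exact ⟨p, hp, by rw [← hy.2]; exact e⟩

theorem ncard_eq [RS Y] {ξ ξ' : ℂ} (h : C.R.eval ξ ≠ 0) (h' : C.R.eval ξ' ≠ 0) :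
    (C.Φ ξ).ncard = (C.Φ ξ').ncard := by
  have hfin : {z : ℂ | C.R.eval z = 0}.Finite := finite_setOfPred_isRoot C.sep.ne_zero
  have hc : IsPreconnected {z : ℂ | C.R.eval z = 0}ᶜ :=
    (hfin.countable.isConnected_compl_of_one_lt_rank (by simp)).isPreconnected
  refine hc.constant (f := fun z => (C.Φ z).ncard) (fun z hz => ?_) h h'
  obtain ⟨s, -, hs⟩ := local_sec C hz
  refine (continuousAt_const.congr (f := fun _ => (C.Φ z).ncard) ?_).continuousWithinAt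
  exact hs.mono fun w hw => hw.ncard_eq

end CovP

theorem sPrp : SPrp := fun _ _ _ _ C _ =>
  ⟨fun β hβ h => CovP.prp_fin C β (fun p hp _ => h p hp)
    fun p hp => absurd (hp.2 ▸ hβ) (C.reg p hp.1).2.2, CovP.prp_inf C⟩

theorem sCov : SCov := fun Y _ _ _ C => by
  obtain ⟨q⟩ : Nonempty Y := inferInstance
  obtain ⟨p, hp⟩ := (eventually_notMem C.fin q).exists
  refine ⟨(C.Φ (C.x p)).ncard, (Set.ncard_pos (C.Φ_finite _)).mpr ⟨p, hp, rfl⟩, fun ξ₀ h0 => ?_⟩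
  exact ⟨CovP.ncard_eq C h0 (C.reg p hp).2.2, CovP.local_sec C h0⟩

end Pool.Agent.P.MP_7ede32_ag.Hod
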