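import Pool.Agent.P.MP_7ede32_ag.Hod.RU

/-!
Truncation of a form that has local primitives around the exceptional set.
-/

open Set Filter Topology MeasureTheory ComplexConjugate Polynomial Bornology Manifold

namespace Pool.Agent.P.MP_7ede32_ag.Hod

open MP_5d7cf0_gt.T (RS zc loc An D Sm Db Hf Om sm_const sm_sum an_of_Db)

namespace CutP

variable {Y : Type} [TopologicalSpace Y] [ChartedSpace ℂ Y] [RS Y]

/-- a holomorphic form has a local primitive -/
theorem prim {w : Y → ℂ} {p : Y} (h : Hf w p) :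
    ∃ b : Y → ℂ, ∀ᶠ y in 𝓝 p, An b y ∧ D b y = w y := by
  obtain ⟨u, hu⟩ := lc_hf h
  refine ⟨u, ?_⟩
  filter_upwards [hu.eventually_nhds] with y hy
  have han : An u y := an_of_Db (hy.mono fun z hz => ⟨hz.1, (congrArg Prod.snd hz.2).symm⟩)
  have h1 := hy.self_of_nhds.2
  rw [dd_an han] at h1
  exact ⟨han, (congrArg Prod.fst h1).symm⟩

/-- gluing of germs at the exceptional points -/
theorem glue (C : XC Y) (b : Y → Y → ℂ) (h : ∀ p ∈ C.Sg, ∀ᶠ y in 𝓝[≠] p, An (b p) y) :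
    ∃ U : Y → ℂ, (∀ p ∉ C.Sg, Sm U p) ∧ ∀ p ∈ C.Sg, U =ᶠ[𝓝 p] b p := by
  have hV : ∀ p, {y | y ≠ p → y ∉ C.Sg ∧ (p ∈ C.Sg → An (b p) y)} ∈ 𝓝 p := by
    intro p
    have h1 : ∀ᶠ y in 𝓝[≠] p, y ∉ C.Sg ∧ (p ∈ C.Sg → An (b p) y) := by
      by_cases hp : p ∈ C.Sg
      · filter_upwards [C.off_near p, h p hp] with y h1 h2 using ⟨h1, fun _ => h2⟩
      · filter_upwards [C.off_near p] with y h1 using ⟨h1, fun h2 => absurd h2 hp⟩
    exact eventually_nhdsWithin_iff.1 h1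
  choose ρ K hρ h1 hK hKV h0 using fun p => exists_rho p (hV p)
  have hz : ∀ q p, p ∉ K q → ∀ᶠ y in 𝓝 p, ρ q y = 0 := fun q p hp => by
    filter_upwards [(hK q).isClosed.isOpen_compl.mem_nhds hp] with y hy using h0 q y hy
  refine ⟨fun y => ∑ q ∈ C.fin.toFinset, ρ q y * b q y, fun p hp => sm_sum fun q hq => ?_,
    fun p hp => ?_⟩
  · have hq' : q ∈ C.Sg := C.fin.mem_toFinset.1 hq
    by_cases hpK : p ∈ K q
    · have hne : p ≠ q := fun e => hp (e ▸ hq')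
      exact (hρ q p).mul ((hKV q hpK hne).2 hq').sm
    · refine (sm_const 0).congr ?_
      filter_upwards [hz q p hpK] with y hy
      rw [hy, zero_mul]
  · have h2 : ∀ᶠ y in 𝓝 p, ∀ q ∈ C.fin.toFinset, q ≠ p → ρ q y = 0 := by
      refine (eventually_all_finset _).2 fun q _ => ?_
      by_cases hqp : q = p
      · exact Eventually.of_forall fun y h3 => absurd hqp h3
      · have hpK : p ∉ K q := fun h3 => (hKV q h3 (Ne.symm hqp)).1 hp
        filter_upwards [hz q p hpK] with y hy _ using hy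
    filter_upwards [h2, h1 p] with y h3 h4
    rw [Finset.sum_eq_single p, h4, one_mul]
    · intro q hq hqp
      rw [h3 q hq hqp, zero_mul]
    · intro h5
      exact absurd (C.fin.mem_toFinset.2 hp) h5

theorem first (C : XC Y) (ψ : Y → ℂ) (b : Y → Y → ℂ) (h1 : ∀ p ∉ C.Sg, Hf ψ p)
    (h2 : ∀ p ∈ C.Sg, ∀ᶠ y in 𝓝[≠] p, An (b p) y ∧ D (b p) y = ψ y) :
    ∃ θ U, C.Zc θ ∧ (∀ p ∉ C.Sg, Sm U p ∧ θ p = hf ψ p - dd U p) ∧
      ∀ p ∈ C.Sg, U =ᶠ[𝓝 p] b p := by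
  classical
  obtain ⟨U, hU, hb⟩ := glue C b fun p hp => (h2 p hp).mono fun y hy => hy.1
  have hz : ∀ p ∈ C.Sg, ∀ᶠ y in 𝓝 p,
      (if y ∈ C.Sg then 0 else hf ψ y - dd U y) = (0 : ℂ × ℂ) := by
    intro p hp
    filter_upwards [eventually_nhdsWithin_iff.1 (h2 p hp), (hb p hp).eventually_nhds] with y h3 h4
    by_cases hy : y ∈ C.Sg
    · exact if_pos hy
    · have hne : y ≠ p := fun e => hy (e ▸ hp)
      rw [if_neg hy, dd_congr h4, dd_an (h3 hne).1, (h3 hne).2]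
      exact sub_self _
  refine ⟨fun y => if y ∈ C.Sg then 0 else hf ψ y - dd U y, U, ⟨fun p => ?_, hz⟩,
    fun p hp => ⟨hU p hp, if_neg hp⟩, hb⟩
  by_cases hp : p ∈ C.Sg
  · exact lc_of_zero (hz p hp)
  · have h3 : Lc (dd U) p := ⟨U, (hU p hp).eventually.mono fun y hy => ⟨hy, rfl⟩⟩
    refine ((lc_hf (h1 p hp)).sub h3).congr ?_
    filter_upwards [C.off_nhds hp] with y hy
    exact (if_neg hy).symm

end CutP

theorem sCut : SCut := by
  intro Y _ _ _ C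
  refine ⟨CutP.first C, fun w hw => ?_⟩
  choose b hb using fun p => CutP.prim (hw p)
  obtain ⟨θ, U, hθ, h1, h2⟩ := CutP.first C w b (fun p _ => hw p)
    fun p _ => (hb p).filter_mono nhdsWithin_le_nhds
  refine ⟨θ, U, hθ, fun p => ?_, funext fun p => ?_⟩
  · by_cases hp : p ∈ C.Sg
    · exact (hb p).self_of_nhds.1.sm.congr (h2 p hp).symm
    · exact (h1 p hp).1
  · by_cases hp : p ∈ C.Sg
    · rw [(hθ.2 p hp).self_of_nhds, Pi.sub_apply, dd_congr (h2 p hp),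
        dd_an (hb p).self_of_nhds.1, (hb p).self_of_nhds.2]
      exact (sub_self _).symm
    · exact (h1 p hp).2

end Pool.Agent.P.MP_7ede32_ag.Hod
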