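import Pool.Agent.P.MP_7ede32_ag.Hod.StF
import Pool.Agent.P.MP_7ede32_ag.Hod.MT

/-!
The principal parts of the primitives and the Koszul relations.
-/

open Set Filter Topology Polynomial Matrix

noncomputable section

namespace Pool.Agent.P.MP_7ede32_ag.Hod

open MP_5d7cf0_gt.T (RS zc loc An D Om Hf an_sum an_const D_add D_sub D_mul D_zc_ne an_zc_self)

namespace CwP

variable {L : PeriodPair} {g : ℕ} {𝒴 : Pl L} {t : ℂ} {μ : Md 𝒴 t}
  {N : Fin g → (KK L)[X][X]} {u : Fin g → E3 → ℂ}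

theorem cwA {m : Matrix (Fin g) (Fin g) (KK L)} (hr : ∀ i, μ.RegF 1 (𝒴.phs N i))
    (hu : ∀ᶠ q in 𝒴.fb t, (∀ i, AnalyticAt ℂ (u i) q) ∧ ∀ i,
      𝒴.dX (u i) q = 𝒴.dT (𝒴.phs N i) q - ∑ j, rv (m i j) q.1 * 𝒴.phs N j q) :
    μ.CwA N u := by
  intro p i
  choose β β₁ hβ hβ₁ he using fun j => hr j p
  have hγ : An (fun y => β₁ i y - ∑ j, rv (m i j) t * β j y) p :=
    (hβ₁ i).sub (an_sum fun j _ => (an_const _).mul (hβ j))
  obtain ⟨F, hF⟩ := exists_prim (hf_mul_D hγ an_zc_self)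
  have hs : ∀ᶠ y in 𝓝 p, y ∈ (chartAt ℂ p).source :=
    (chartAt ℂ p).open_source.mem_nhds (mem_chart_source ℂ p)
  have h0 : ∀ᶠ y in 𝓝[≠] p, An (fun y => u i (μ.j y) + μ.χ p y * β i y - F y) y ∧
      D (fun y => u i (μ.j y) + μ.χ p y * β i y - F y) y = 0 := by
    filter_upwards [μ.near hu p, Md.an_χ p, eventually_all.2 he, nhdsWithin_le_nhds hF,
      nhdsWithin_le_nhds hs, nhdsWithin_le_nhds (hβ i).eventually] with y h1 h2 h3 h4 h5 h6
    obtain ⟨h7, h8⟩ := Md.an_comp h1.1 (h1.2.1 i)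
    refine ⟨(h7.add (h2.mul h6)).sub h4.1, ?_⟩
    have hc := D_zc_ne h5
    have h9 := (h3 i).2
    have h10 : ∑ j, rv (m i j) t * β j y =
        (∑ j, rv (m i j) t * 𝒴.phs N j (μ.j y)) * μ.xv p y := by
      rw [Finset.sum_mul]
      refine Finset.sum_congr rfl fun j _ => ?_
      rw [← (h3 j).1, pow_one, mul_assoc]
    rw [D_sub (h7.add (h2.mul h6)) h4.1, D_add h7 (h2.mul h6), D_mul h2 h6, h8, h4.2, h1.2.2 i,
      h10, show (μ.j y).1 = t from rfl]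
    simp only [Md.xv, dv, pow_one, Nat.cast_one, one_mul] at h9 ⊢
    field_simp at h9 ⊢
    linear_combination h9
  obtain ⟨c, hc⟩ := const_of_D_punctured h0
  refine ⟨fun y => F y + c, hF.self_of_nhds.1.add (an_const c), ?_⟩
  filter_upwards [hc, he i] with y h1 h2
  rw [pow_one] at h2
  rw [h2.1]
  linear_combination h1

theorem holF (hr : ∀ i, μ.RegF 1 (𝒴.phs N i)) (h : μ.CwA N u) (i j : Fin g) :
    μ.HolF 1 fun q => u i q * 𝒴.phs N j q - u j q * 𝒴.phs N i q := by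
  intro p
  obtain ⟨a, ha, e1⟩ := h p i
  obtain ⟨a', ha', e2⟩ := h p j
  obtain ⟨β, _, hβ, -, e3⟩ := hr i p
  obtain ⟨β', _, hβ', -, e4⟩ := hr j p
  refine ⟨fun y => a y * β' y - a' y * β y, (ha.mul hβ').sub (ha'.mul hβ), ?_⟩
  filter_upwards [e1, e2, e3, e4] with y h1 h2 h3 h4
  rw [← h1, ← h2, ← h3.1, ← h4.1]
  simp only [Md.xv]
  ring

end CwP

theorem sCw : SCw := by
  intro L 𝒴 Φ g N m u hB hC
  have h1 : ∀ᶠ t in cd, ∀ i, ∀ h : t ∈ Φ.G, (Φ.md t h).RegF 1 (𝒴.phs N i) :=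
    eventually_all.2 fun i => Φ.up 1 _ (Pl.rat_ph (N i)) (hB.H i)
  have h2 := Pl.gen_fb ((eventually_all.2 fun i => (hC.rat i).1).and hC.eq)
  filter_upwards [h1, h2, hB, Φ.mem] with t h3 h4 h5 ht
  refine ⟨?_, fun h => CwP.cwA (fun i => h3 i h) h4⟩
  obtain ⟨w, hw⟩ := h5 ht
  choose c hc using fun i j =>
    hw.span (CwP.holF (fun i => h3 i ht) (CwP.cwA (fun i => h3 i ht) h4) i j)
  exact ⟨c, eventually_all.2 fun i => eventually_all.2 fun j => hc i j⟩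

end Pool.Agent.P.MP_7ede32_ag.Hod
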