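import Pool.Agent.P.MP_7ede32_ag.Hod.StF
import Pool.Agent.P.MP_7ede32_ag.Hod.StA
import Pool.Agent.P.MP_7ede32_ag.Hod.MT

/-!
Lie derivatives of holomorphic differentials and the first linear relation among them.
-/

open Set Filter Topology Polynomial

namespace Pool.Agent.P.MP_7ede32_ag.Hod

open MP_5d7cf0_gt.T (RS zc loc An D D_congr D_mul D_pow D_sub D_zc_ne an_const)

namespace CycP

/-- a nontrivial linear relation can be solved for its top term -/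
theorem top {X : Type} {l : Filter X} (F : ℕ → X → ℂ) (m : ℕ) (c : Fin m → ℂ) (hc : c ≠ 0)
    (h : ∀ᶠ q in l, ∑ i, c i * F i q = 0) :
    ∃ k < m, ∃ c' : Fin k → ℂ, ∀ᶠ q in l, F k q = ∑ j, c' j * F j q := by
  induction m with
  | zero => exact absurd (Subsingleton.elim _ _) hc
  | succ m ih =>
    by_cases h0 : c (Fin.last m) = 0
    · obtain ⟨k, hk, h'⟩ := ih (fun i => c i.castSucc) (fun e => hc (by
        funext i
        induction i using Fin.lastCases with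
        | last => exact h0
        | cast i => exact congrFun e i)) (by
        filter_upwards [h] with q hq
        simpa [Fin.sum_univ_castSucc, h0] using hq)
      exact ⟨k, hk.trans m.lt_succ_self, h'⟩
    · refine ⟨m, m.lt_succ_self, fun j => -c j.castSucc / c (Fin.last m), ?_⟩
      filter_upwards [h] with q hq
      simp only [Fin.sum_univ_castSucc, Fin.val_castSucc, Fin.val_last] at hq
      have : ∑ j : Fin m, -c j.castSucc / c (Fin.last m) * F j q =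
          -(∑ j : Fin m, c j.castSucc * F j q) / c (Fin.last m) := by
        rw [← Finset.sum_neg_distrib, Finset.sum_div]
        exact Finset.sum_congr rfl fun j _ => by ring
      rw [this, eq_div_iff h0]
      linear_combination hq

theorem cc_forall {p : ℂ → ℕ → Prop} (h : ∀ k, ∀ᶠ t in cc, p t k) : ∀ᶠ t in cc, ∀ k, p t k := by
  refine mem_cocountable.2 ((countable_iUnion fun k => mem_cocountable.1 (h k)).mono ?_)
  intro t ht
  simpa using ht

variable {L : PeriodPair} {𝒴 : Pl L} {t : ℂ}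

theorem hol_ld (μ : Md 𝒴 t) {s F : E3 → ℂ} {ν : ℕ} (hs : 𝒴.RatF t s) (hF : 𝒴.RatF t F)
    (h1 : μ.SReg s) (h2 : μ.RegF ν F) : μ.HolF ν (𝒴.LD ν s F) := by
  intro p
  obtain ⟨σ, hσ, e1⟩ := h1 p
  obtain ⟨β, β₁, hβ, hβ₁, e2⟩ := h2 p
  have hp := mem_chart_source ℂ p
  refine ⟨fun y => β₁ y - σ y * dv β p y - ν * dv σ p y * β y,
    (hβ₁.sub (hσ.mul (an_dv hp hβ))).sub (((an_const _).mul (an_dv hp hσ)).mul hβ), ?_⟩
  have e3 : ∀ᶠ y in 𝓝[≠] p, s (μ.j y) = μ.xv p y * (σ y - μ.χ p y) := by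
    filter_upwards [e1, Md.xv_ne p] with y h h'
    rw [← h]
    field_simp [h'.1]
    ring
  filter_upwards [e2, e3, eventually_nhdsNE_eventually_nhds_iff.2 e3,
    eventually_nhdsNE_eventually_nhds_iff.2 (e2.mono fun _ h => h.1), μ.near hs.1 p,
    μ.near hF.1 p, Md.xv_ne p, Md.an_χ p, hσ.eventually.filter_mono nhdsWithin_le_nhds,
    mem_nhdsWithin_of_mem_nhds ((chartAt ℂ p).open_source.mem_nhds hp)]
    with y a1 a2 a3 a4 a5 a6 a7 a8 a9 a10
  have hz := D_zc_ne a10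
  have b1 := Md.dv_comp p a5.1 a5.2
  have b2 := Md.dv_comp p a6.1 a6.2
  have b3 := D_congr a3
  have b4 := D_congr a4
  rw [D_mul a7.2 (a9.sub a8), D_sub a9 a8] at b3
  rw [D_mul (Md.an_comp a6.1 a6.2).1 (a7.2.pow ν), D_pow a7.2] at b4
  rw [dv, div_eq_iff hz] at b1 b2
  have hx := a7.1
  have b5 : (ν : ℂ) * μ.xv p y ^ (ν - 1) * μ.xv p y = ν * μ.xv p y ^ ν := by
    cases ν with
    | zero => simp
    | succ n => rw [Nat.add_sub_cancel, pow_succ, mul_assoc]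
  change 𝒴.LD ν s F (μ.j y) * μ.xv p y ^ ν = _
  have c1 := a1.1
  have c2 := a1.2
  simp only [dv] at c2 ⊢
  rw [Pl.LD, a2]
  apply mul_left_cancel₀ (mul_ne_zero hx hz)
  have hz' : D (zc p) y * (D (zc p) y)⁻¹ = 1 := mul_inv_cancel₀ hz
  simp only [div_eq_mul_inv] at c2 ⊢
  set x := μ.xv p y
  set z := D (zc p) y
  set w := z⁻¹
  set P := x ^ ν
  linear_combination (x * z) * c2
    - (x * (σ y - μ.χ p y)) * b4 + (x * P * (σ y - μ.χ p y)) * b2
    + (ν * F (μ.j y) * P) * b1 - (ν * F (μ.j y) * P) * b3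
    + (F (μ.j y) * D (μ.xv p) y * (σ y - μ.χ p y)) * b5
    - (ν * x * (D σ y - D (μ.χ p) y)) * c1
    + (x * (σ y - μ.χ p y) * D β y + ν * x * β y * (D σ y - D (μ.χ p) y)) * hz'

end CycP

open CycP

theorem sCyc1 : SCyc1 := by
  intro L 𝒴 Φ s F ν hs h1 hF h2
  filter_upwards [h1, Φ.up ν F hF h2, hs.ratF, hF.ratF] with t a1 a2 a3 a4 h
  exact hol_ld _ a3 a4 (a1 h) (a2 h)

theorem sCyc2 (h1 : SDesc) (h2 : SFinD) : SCyc2 := by
  classical
  intro L 𝒴 Φ ν F hF h0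
  have key : ∀ᶠ t in cc, ∀ (m : ℕ) (c : Fin m → ℂ), c ≠ 0 →
      (∀ᶠ q in 𝒴.fb t, ∑ i, c i * F i q = 0) →
      ∃ k < m, ∃ c' : Fin k → KK L, ∀ᶠ q in 𝒴.gen, F k q = ∑ j, rv (c' j) q.1 * F j q := by
    filter_upwards [h1 L 𝒴 (range F) (countable_range F) (by
      rintro _ ⟨k, rfl⟩
      exact (hF k).1)] with t ht m c hc hr
    obtain ⟨k, hk, c', h'⟩ := top F m c hc hr
    obtain ⟨c'', h''⟩ := ht (Fin k) Unit (fun _ => F k) (fun _ j => F j) c'
      (fun _ => mem_range_self _) (fun _ _ => mem_range_self _) fun _ => h'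
    exact ⟨k, hk, c'', h'' ()⟩
  have ex : ∃ k, ∃ c' : Fin k → KK L, ∀ᶠ q in 𝒴.gen, F k q = ∑ j, rv (c' j) q.1 * F j q := by
    have hH : ∀ᶠ t in cc, ∀ k, ∀ h : t ∈ Φ.G, (Φ.md t h).HolF ν (F k) :=
      cc_forall fun k => (hF k).2.filter_mono cc_le_cd
    obtain ⟨t, ht, hH, hG⟩ := (key.and (hH.and (cc_le_cd Φ.mem))).exists
    obtain ⟨d, hd⟩ := (h2 _ (Φ.md t hG).M).2 ν
    obtain ⟨c, hc, hr⟩ := hd (fun i p => F i ((Φ.md t hG).j p)) fun i => hH i hG
    obtain ⟨k, -, h⟩ := ht (d + 1) c hc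
      ((Φ.md t hG).cofinite_iff (r := fun q => ∑ i, c i * F i q = 0) |>.1 hr)
    exact ⟨k, h⟩
  have hne : Nat.find ex ≠ 0 := fun e => by
    obtain ⟨c, hc⟩ := e ▸ Nat.find_spec ex
    exact h0 (by simpa using hc)
  obtain ⟨r, hr⟩ := Nat.exists_eq_succ_of_ne_zero hne
  obtain ⟨c, hc⟩ := hr ▸ Nat.find_spec ex
  refine ⟨r, c, hc, ?_⟩
  filter_upwards [key] with t ht a ha
  by_contra hn
  obtain ⟨k, hk, h⟩ := ht (r + 1) a hn ha
  exact Nat.find_min ex (hr ▸ hk) h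

end Pool.Agent.P.MP_7ede32_ag.Hod
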