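import Pool.Agent.P.MP_7ede32_ag.Hod.RT

/-!
Toolbox: the covering, the integral and plane models.
-/

open Set Filter Topology MeasureTheory ComplexConjugate Polynomial Bornology Manifold

namespace Pool.Agent.P.MP_7ede32_ag.Hod

open MP_5d7cf0_gt.T (RS zc loc An D Sm Db Hf Om)

/-- the roots of a monic polynomial grow polynomially -/
theorem root_grow {P : ℂ[X][X]} (hP : P.Monic) : ∃ (c : ℝ) (a : ℕ), ∀ ξ η : ℂ,
    P.evalEval ξ η = 0 → ‖η‖ ≤ c * (1 + ‖ξ‖) ^ a := by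
  have hb : ∀ (f : ℂ[X]) (a : ℕ), f.natDegree ≤ a → ∀ ξ : ℂ,
      ‖f.eval ξ‖ ≤ (∑ j ∈ Finset.range (a + 1), ‖f.coeff j‖) * (1 + ‖ξ‖) ^ a := by
    intro f a ha ξ
    rw [eval_eq_sum_range' (Nat.lt_succ_of_le ha), Finset.sum_mul]
    refine (norm_sum_le _ _).trans (Finset.sum_le_sum fun j hj => ?_)
    rw [norm_mul, norm_pow]
    refine mul_le_mul_of_nonneg_left ?_ (norm_nonneg _)
    have h0 := norm_nonneg ξ
    exact (pow_le_pow_left₀ h0 (by linarith) j).trans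
      (pow_le_pow_right₀ (by linarith) (Nat.lt_succ_iff.1 (Finset.mem_range.1 hj)))
  obtain ⟨a, ha⟩ : ∃ a : ℕ, ∀ i ∈ Finset.range P.natDegree, (P.coeff i).natDegree ≤ a :=
    ⟨(Finset.range P.natDegree).sup fun i => (P.coeff i).natDegree, fun i hi =>
      Finset.le_sup (f := fun i => (P.coeff i).natDegree) hi⟩
  set c : ℝ := ∑ i ∈ Finset.range P.natDegree, ∑ j ∈ Finset.range (a + 1), ‖(P.coeff i).coeff j‖
    with hc
  have hc0 : 0 ≤ c := Finset.sum_nonneg fun i _ => Finset.sum_nonneg fun j _ => norm_nonneg _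
  refine ⟨c + 1, a, fun ξ η h => ?_⟩
  have hq : (P.map (evalRingHom ξ)).Monic := hP.map _
  have hr : (P.map (evalRingHom ξ)).IsRoot η := by
    rw [IsRoot, map_evalRingHom_eval]; exact h
  have h1 := hr.norm_lt_cauchyBound hq.ne_zero
  have hp1 : (1 : ℝ) ≤ (1 + ‖ξ‖) ^ a := one_le_pow₀ (by linarith [norm_nonneg ξ])
  have hK : 0 ≤ c * (1 + ‖ξ‖) ^ a := by positivity
  have h2 : (Finset.range (P.map (evalRingHom ξ)).natDegree).sup
      (fun i => ‖(P.map (evalRingHom ξ)).coeff i‖₊) ≤ NNReal.mk _ hK := by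
    refine Finset.sup_le fun i hi => ?_
    rw [hP.natDegree_map] at hi
    rw [← NNReal.coe_le_coe, coe_nnnorm, coeff_map, NNReal.coe_mk]
    refine (hb _ a (ha i hi) ξ).trans ?_
    refine mul_le_mul_of_nonneg_right ?_ (by positivity)
    exact Finset.single_le_sum (f := fun i => ∑ j ∈ Finset.range (a + 1), ‖(P.coeff i).coeff j‖)
      (fun i _ => Finset.sum_nonneg fun j _ => norm_nonneg _) hi
  rw [cauchyBound, hq.leadingCoeff, nnnorm_one, div_one] at h1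
  have h3 : ‖η‖₊ ≤ NNReal.mk _ hK + 1 := h1.le.trans (add_le_add h2 le_rfl)
  have h4 : ‖η‖ ≤ c * (1 + ‖ξ‖) ^ a + 1 := h3
  nlinarith

theorem der_ne {P A B : ℂ[X][X]} {R : ℂ[X]} {k : ℕ} (h : C (R ^ k) = A * P + B * derivative P)
    {ξ η : ℂ} (hR : R.eval ξ ≠ 0) (h0 : P.evalEval ξ η = 0) :
    (derivative P).evalEval ξ η ≠ 0 := by
  intro h1
  have h2 := congrArg (evalEval ξ η) h
  rw [evalEval_add, evalEval_mul, evalEval_mul, h0, h1, evalEval_C, eval_pow] at h2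
  exact pow_ne_zero k hR (by simpa using h2)

theorem roots_card {P A B : ℂ[X][X]} {R : ℂ[X]} {k : ℕ} (hP : P.Monic)
    (h : C (R ^ k) = A * P + B * derivative P) {ξ : ℂ} (hR : R.eval ξ ≠ 0) :
    {η | P.evalEval ξ η = 0}.Finite ∧ {η | P.evalEval ξ η = 0}.ncard = P.natDegree := by
  classical
  set q := P.map (evalRingHom ξ) with hq
  have hm : q.Monic := hP.map _
  have hs : {η | P.evalEval ξ η = 0} = ↑q.roots.toFinset := by
    ext η
    rw [Finset.mem_coe, Multiset.mem_toFinset, mem_roots hm.ne_zero, IsRoot, hq,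
      map_evalRingHom_eval]
    rfl
  have hsep : q.Separable := by
    have h2 := congrArg (Polynomial.map (evalRingHom ξ)) h
    rw [Polynomial.map_add, Polynomial.map_mul, Polynomial.map_mul, ← derivative_map, map_C, ← hq]
      at h2
    have h3 : (evalRingHom ξ) (R ^ k) ≠ 0 := by
      rw [map_pow]; exact pow_ne_zero k hR
    refine ⟨C ((evalRingHom ξ) (R ^ k))⁻¹ * A.map (evalRingHom ξ),
      C ((evalRingHom ξ) (R ^ k))⁻¹ * B.map (evalRingHom ξ), ?_⟩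
    rw [mul_assoc, mul_assoc, ← mul_add, ← h2, ← C_mul, inv_mul_cancel₀ h3, C_1]
  rw [hs]
  refine ⟨Finset.finite_toSet _, ?_⟩
  rw [ncard_coe_finset, Multiset.toFinset_card_of_nodup (nodup_roots hsep),
    ← (IsAlgClosed.splits q).natDegree_eq_card_roots, hq, hP.natDegree_map]

/-- at a root of a separable polynomial, `R ξ` is comparable with `ξ - β` -/
theorem simple_root {R : ℂ[X]} (hR : R.Separable) {β : ℂ} (h : R.eval β = 0) : ∃ c > 0,
    ∀ᶠ ξ in 𝓝 β, ‖R.eval ξ‖ ≤ c * ‖ξ - β‖ ∧ ‖ξ - β‖ ≤ c * ‖R.eval ξ‖ := by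
  obtain ⟨S, hS⟩ : (X - C β) ∣ R := dvd_iff_isRoot.2 h
  have hS0 : S.eval β ≠ 0 := by
    intro h0
    obtain ⟨a, b, hab⟩ := hR
    have h2 := congrArg (eval β) hab
    rw [hS] at h2
    simp [h0] at h2
  have hn : 0 < ‖S.eval β‖ := norm_pos_iff.2 hS0
  have hcont : Tendsto (fun ξ => ‖S.eval ξ‖) (𝓝 β) (𝓝 ‖S.eval β‖) :=
    (S.continuous.norm.tendsto β)
  have e1 := hcont.eventually (gt_mem_nhds (show ‖S.eval β‖ < 2 * ‖S.eval β‖ by linarith))
  have e2 := hcont.eventually (lt_mem_nhds (show ‖S.eval β‖ / 2 < ‖S.eval β‖ by linarith))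
  refine ⟨2 * ‖S.eval β‖ + 2 / ‖S.eval β‖, by positivity, ?_⟩
  filter_upwards [e1, e2] with ξ h1 h2
  have hR' : ‖R.eval ξ‖ = ‖ξ - β‖ * ‖S.eval ξ‖ := by
    rw [hS]; simp
  have hd := norm_nonneg (ξ - β)
  have hi : 0 < 2 / ‖S.eval β‖ := by positivity
  have h3 : 1 ≤ 2 / ‖S.eval β‖ * ‖S.eval ξ‖ := by
    rw [div_mul_eq_mul_div, le_div_iff₀ hn]; linarith
  rw [hR']
  constructor
  · nlinarith [mul_le_mul_of_nonneg_left h1.le hd, mul_nonneg hi.le hd]
  · nlinarith [mul_le_mul_of_nonneg_left h3 hd, mul_nonneg (mul_nonneg hn.le hd) (norm_nonneg (S.eval ξ))]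

variable {Y : Type} [TopologicalSpace Y] [ChartedSpace ℂ Y] {p : Y} {θ θ' σ σ' : Y → ℂ × ℂ}

namespace XC

variable (C : XC Y)

theorem R_ne : C.R ≠ 0 := C.sep.ne_zero

theorem tr_const_mul (c : ℂ) (F : Y → ℂ) (ξ : ℂ) : C.tr (fun p => c * F p) ξ = c * C.tr F ξ :=
  (mul_finsum_mem F c).symm

theorem tr_conj (F : Y → ℂ) (ξ : ℂ) : C.tr (fun p => conj (F p)) ξ = conj (C.tr F ξ) := by
  unfold tr
  have h := (starAddEquiv (R := ℂ)).map_finsum (fun p => ∑ᶠ _ : p ∈ C.Φ ξ, F p)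
  refine Eq.trans ?_ h.symm
  exact finsum_congr fun p => ((starAddEquiv (R := ℂ)).map_finsum (fun _ : p ∈ C.Φ ξ => F p)).symm

theorem Φ_root {ξ : ℂ} (h : C.R.eval ξ = 0) : C.Φ ξ = ∅ := by
  refine eq_empty_of_forall_notMem fun p hp => (C.reg p hp.1).2.2 ?_
  rw [hp.2]; exact h

theorem pr_congr' (h : ∀ p ∉ C.Sg, C.wd θ σ p = C.wd θ' σ' p) : C.pr θ σ = C.pr θ' σ' := by
  unfold pr tr
  refine congrArg _ (funext fun ξ => finsum_mem_congr rfl fun p hp => h p hp.1)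

theorem Q_congr (h : ∀ p ∉ C.Sg, θ p = θ' p) (h' : ∀ p ∉ C.Sg, σ p = σ' p) :
    C.Q θ σ = C.Q θ' σ' := by
  refine C.pr_congr' fun p hp => ?_
  simp only [wd, cj, h p hp, h' p hp]

theorem pr_anti : C.pr θ σ = -C.pr σ θ := by
  have h : C.wd θ σ = fun p => (-1 : ℂ) * C.wd σ θ p := by
    funext p; simp only [wd]; ring
  unfold pr
  rw [h, ← integral_neg]
  refine congrArg _ (funext fun ξ => ?_)
  rw [tr_const_mul, neg_one_mul]

theorem pr_cj : C.pr (cj θ) (cj σ) = -conj (C.pr θ σ) := by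
  have h : C.wd (cj θ) (cj σ) = fun p => (-1 : ℂ) * conj (C.wd θ σ p) := by
    funext p
    simp only [wd, cj, map_div₀, map_sub, map_mul, Complex.conj_ofReal]; ring
  unfold pr
  rw [h, ← integral_conj, ← integral_neg]
  refine congrArg _ (funext fun ξ => ?_)
  rw [tr_const_mul, neg_one_mul, tr_conj]

theorem Q_conj : conj (C.Q θ σ) = C.Q σ θ := by
  have h : cj (cj σ) = σ := by
    funext p; simp [cj]
  have h1 := C.pr_cj (θ := θ) (σ := cj σ)
  rw [h, C.pr_anti] at h1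
  exact (neg_inj.1 h1).symm

theorem Q_cj : C.Q (cj θ) (cj σ) = -conj (C.Q θ σ) := by
  exact C.pr_cj

theorem Q_hf_cj (w w' : Y → ℂ) : C.Q (hf w) (cj (hf w')) = 0 := by
  have h : C.wd (hf w) (cj (cj (hf w'))) = fun _ => 0 := by
    funext p; simp [wd, cj, hf]
  unfold Q pr
  rw [h]
  simp [tr]

theorem pr_smul (c : ℂ) : C.pr (c • θ) σ = c * C.pr θ σ := by
  have h : C.wd (c • θ) σ = fun p => c * C.wd θ σ p := by
    funext p
    simp only [wd, Pi.smul_apply, Prod.smul_fst, Prod.smul_snd, smul_eq_mul]; ring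
  unfold pr
  rw [h, ← integral_const_mul]
  exact congrArg _ (funext fun ξ => C.tr_const_mul c _ ξ)

theorem Q_smul (c : ℂ) : C.Q (c • θ) σ = c * C.Q θ σ := by
  exact C.pr_smul c

theorem Q_hf (w : Y → ℂ) :
    C.Q (hf w) σ = ∫ ξ, C.tr (fun p => w p / D C.x p * conj ((σ p).1 / D C.x p)) ξ := by
  have h : C.wd (hf w) (cj σ) = fun p => w p / D C.x p * conj ((σ p).1 / D C.x p) := by
    funext p
    simp only [wd, cj, hf, zero_mul, sub_zero, map_div₀]
    rw [div_mul_div_comm, Complex.mul_conj, Complex.normSq_eq_norm_sq]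
  unfold Q pr
  rw [h]

theorem gram_herm {ι : Type} (θ : ι → Y → ℂ × ℂ) : (C.gram θ θ).IsHermitian := by
  ext i j
  exact C.Q_conj
end XC

end Pool.Agent.P.MP_7ede32_ag.Hod
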