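import Pool.Agent.P.MP_7ede32_ag.Hod.AT2
import Pool.Agent.P.MP_7ede32_ag.Hod.RU1

/-!
Toolbox: the family of plane curves and the generic filters.
-/

open Set Filter Topology MeasureTheory ComplexConjugate Polynomial Matrix

noncomputable section

namespace Pool.Agent.P.MP_7ede32_ag.Hod

open Full (Mer)
open Ell (E2)

namespace Pl

variable {L : PeriodPair} {𝒴 : Pl L} {t z w ξ η : ℂ} {q : E3} {p : E3 → Prop}

theorem rt_cd (𝒴 : Pl L) : ∀ᶠ t in cd, 𝒴.Rt t := by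
  filter_upwards [rg2_cd 𝒴.P, rg2_cd 𝒴.A, rg2_cd 𝒴.B, rg1_cd 𝒴.R, rg1_cd 𝒴.a, rg1_cd 𝒴.b]
    with t h1 h2 h3 h4 h5 h6 using ⟨h1, h2, h3, h4, h5, h6⟩

theorem Rt.eventually (h : 𝒴.Rt t) : ∀ᶠ s in 𝓝 t, 𝒴.Rt s := by
  obtain ⟨h1, h2, h3, h4, h5, h6⟩ := h
  filter_upwards [h1.eventually, h2.eventually, h3.eventually, h4.eventually, h5.eventually,
    h6.eventually] with t h1 h2 h3 h4 h5 h6 using ⟨h1, h2, h3, h4, h5, h6⟩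

theorem Rt.sep (h : 𝒴.Rt t) : (sp1 𝒴.R t).Separable := by
  obtain ⟨-, -, -, h4, h5, h6⟩ := h
  refine ⟨sp1 𝒴.a t, sp1 𝒴.b t, ?_⟩
  rw [← h4.derivative.2, ← (h5.mul h4).2, ← (h6.mul h4.derivative.1).2,
    ← ((h5.mul h4).1.add (h6.mul h4.derivative.1).1).2, 𝒴.sep, sp1_one]

theorem Rt.bez (h : 𝒴.Rt t) : C (sp1 𝒴.R t ^ 𝒴.k) =
    sp 𝒴.A t * sp 𝒴.P t + sp 𝒴.B t * derivative (sp 𝒴.P t) := by
  obtain ⟨h1, h2, h3, h4, -, -⟩ := h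
  rw [← h1.derivative.2, ← (h2.mul h1).2, ← (h3.mul h1.derivative.1).2,
    ← ((h2.mul h1).1.add (h3.mul h1.derivative.1).1).2, ← 𝒴.bez, sp_C, (h4.pow _).2]

theorem Rt.py (h : 𝒴.Rt q.1) : 𝒴.py q = (derivative (sp 𝒴.P q.1)).evalEval q.2.1 q.2.2 := by
  rw [← h.1.derivative.2]
  rfl

theorem Ok.py_ne (h : 𝒴.Ok q) : 𝒴.py q ≠ 0 := by
  rw [h.1.py]
  exact der_ne h.1.bez h.2.2 h.2.1

theorem Ok.inv_py (h : 𝒴.Ok q) : (𝒴.py q)⁻¹ = ev 𝒴.B q / ev1 (𝒴.R ^ 𝒴.k) q := by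
  have h1 := congrArg (evalEval q.2.1 q.2.2) h.1.bez
  have h2 : (sp 𝒴.P q.1).evalEval q.2.1 q.2.2 = 0 := h.2.1
  rw [evalEval_add, evalEval_mul, evalEval_mul, h2, mul_zero, zero_add, evalEval_C, ← h.1.py] at h1
  have h3 : (sp1 𝒴.R q.1 ^ 𝒴.k).eval q.2.1 ≠ 0 := by
    rw [eval_pow]
    exact pow_ne_zero _ h.2.2
  rw [ev1, (h.1.2.2.2.1.pow _).2, eq_div_iff h3, h1, mul_comm, mul_assoc,
    mul_inv_cancel₀ h.py_ne, mul_one]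
  rfl

theorem Ok.eventually (h : 𝒴.Ok q) : ∀ᶠ q' in 𝓝 q, 𝒴.On q' → 𝒴.Ok q' := by
  filter_upwards [continuousAt_fst.eventually h.1.eventually,
    (analyticAt_ev1 h.1.2.2.2.1).continuousAt.eventually_ne h.2.2] with q' h1 h2 h3
    using ⟨h1, h3, h2⟩

theorem Ok.an_py (h : 𝒴.Ok q) : AnalyticAt ℂ 𝒴.py q := by
  exact analyticAt_ev h.1.1.derivative.1

theorem anO_ph {N : (KK L)[X][X]} (h : Rg2 N t) : 𝒴.AnO (𝒴.ph N) t := by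
  rintro q hq rfl
  exact (analyticAt_ev h).div hq.an_py hq.py_ne

theorem mem_rts : η ∈ 𝒴.rts t ξ ↔ 𝒴.On (t, ξ, η) := by
  rw [rts, Multiset.mem_toFinset, mem_roots ((monic_sp 𝒴.monic).1.map _).ne_zero, IsRoot.def,
    map_evalRingHom_eval]
  rfl

theorem rts_nonempty (𝒴 : Pl L) (t ξ : ℂ) : (𝒴.rts t ξ).Nonempty := by
  have h := monic_sp (t := t) 𝒴.monic
  obtain ⟨η, hη⟩ := IsAlgClosed.exists_root ((sp 𝒴.P t).map (evalRingHom ξ)) (by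
    rw [h.1.degree_map, h.2.2]
    exact (natDegree_pos_iff_degree_pos.mp 𝒴.pos).ne')
  exact ⟨η, mem_rts.mpr ((map_evalRingHom_eval _ _ _).symm.trans hη)⟩

theorem card_rts (h : 𝒴.Rt t) (h0 : (sp1 𝒴.R t).eval ξ ≠ 0) :
    (𝒴.rts t ξ).card = 𝒴.P.natDegree := by
  have h1 := monic_sp (t := t) 𝒴.monic
  rw [← h1.2.1, ← (roots_card h1.1 h.bez h0).2, ← Set.ncard_coe_finset]
  congr 1
  ext η
  exact mem_rts

theorem hm_per {g : ℕ} (N : Fin g → (KK L)[X][X]) (hw : w ∈ L.lattice) (t : ℂ) :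
    𝒴.hm N (t + w) = 𝒴.hm N t := by
  simp only [hm, rts, phs, ph, py, ev, sp_per _ hw]

theorem ph_per (N : (KK L)[X][X]) (hw : w ∈ L.lattice) (t ξ η : ℂ) :
    𝒴.ph N (t + w, ξ, η) = 𝒴.ph N (t, ξ, η) := by
  simp only [ph, py, ev, sp_per _ hw]

theorem eval_ne {D : ℂ[X]} (h : D ≠ 0) : ∀ᶠ ξ in cofinite, D.eval ξ ≠ 0 :=
  (finite_setOfPred_isRoot h).compl_mem_cofinite

theorem eventually_aux {F : Filter ℂ} (hF : F ≤ cd) :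
    (∀ᶠ q in comap Prod.fst F ⊓ ⨅ D ∈ {D : (KK L)[X] | D ≠ 0}, 𝓟 {q | 𝒴.On q ∧ ev1 D q ≠ 0}, p q) ↔
    ∃ D : (KK L)[X], D ≠ 0 ∧
      ∀ᶠ t in F, ∀ ξ η, 𝒴.On (t, ξ, η) → ev1 D (t, ξ, η) ≠ 0 → p (t, ξ, η) := by
  constructor
  · let H : Filter E3 :=
      { sets := {s | ∃ D : (KK L)[X], D ≠ 0 ∧
          ∀ᶠ t in F, ∀ ξ η, 𝒴.On (t, ξ, η) → ev1 D (t, ξ, η) ≠ 0 → (t, ξ, η) ∈ s}
        univ_sets := ⟨1, one_ne_zero, Eventually.of_forall fun _ _ _ _ _ => trivial⟩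
        sets_of_superset := fun ⟨D, hD, h⟩ hs =>
          ⟨D, hD, h.mono fun t h1 ξ η h2 h3 => hs (h1 ξ η h2 h3)⟩
        inter_sets := fun ⟨D, hD, h⟩ ⟨D', hD', h'⟩ => ⟨D * D', mul_ne_zero hD hD', by
          filter_upwards [h, h', hF (rg1_cd D), hF (rg1_cd D')] with t h1 h2 h3 h4 ξ η h5 h6
          rw [ev1, (Rg1.mul h3 h4).2, eval_mul, mul_ne_zero_iff] at h6
          exact ⟨h1 ξ η h5 h6.1, h2 ξ η h5 h6.2⟩⟩ }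
    refine fun h => (?_ : H ≤ _) h
    refine le_inf ?_ (le_iInf₂ fun D hD => le_principal_iff.mpr
      ⟨D, hD, Eventually.of_forall fun _ _ _ h1 h2 => ⟨h1, h2⟩⟩)
    rintro s ⟨T, hT, hs⟩
    exact ⟨1, one_ne_zero, mem_of_superset hT fun t ht ξ η _ _ => hs ht⟩
  · rintro ⟨D, hD, h⟩
    refine Eventually.filter_mono (inf_le_inf_left _ (biInf_le _ hD)) ?_
    exact eventually_inf_principal.mpr ((h.comap Prod.fst).mono fun q h1 h2 => h1 _ _ h2.1 h2.2)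

theorem nhds_aux {F : Filter ℂ} (hF : F ≤ cd) {D : (KK L)[X]} (h : ∀ᶠ t in F, ∀ᶠ s in 𝓝 t,
    ∀ ξ η, 𝒴.On (s, ξ, η) → ev1 D (s, ξ, η) ≠ 0 → p (s, ξ, η)) :
    ∀ᶠ t in F, ∀ ξ η, 𝒴.On (t, ξ, η) → ev1 D (t, ξ, η) ≠ 0 →
      ∀ᶠ q' in 𝓝 ((t, ξ, η) : E3), 𝒴.On q' → p q' := by
  filter_upwards [h, hF (rg1_cd D)] with t h1 h2 ξ η _ h3
  filter_upwards [(continuousAt_fst (p := ((t, ξ, η) : E3))).eventually h1,
    (analyticAt_ev1 (q := (t, ξ, η)) h2).continuousAt.eventually_ne h3] with q' h4 h5 h6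
  exact h4 _ _ h6 h5

theorem gz_eq : 𝒴.gz z = comap Prod.fst (𝓝[≠] z) ⊓
    ⨅ D ∈ {D : (KK L)[X] | D ≠ 0}, 𝓟 {q | 𝒴.On q ∧ ev1 D q ≠ 0} := by
  rw [gz, gen, inf_right_comm, inf_eq_right.mpr (comap_mono (nhdsNE_le_cd z))]

theorem eventually_gen : (∀ᶠ q in 𝒴.gen, p q) ↔ ∃ D : (KK L)[X], D ≠ 0 ∧
    ∀ᶠ t in cd, ∀ ξ η, 𝒴.On (t, ξ, η) → ev1 D (t, ξ, η) ≠ 0 → p (t, ξ, η) := by
  exact eventually_aux le_rfl

theorem eventually_fb : (∀ᶠ q in 𝒴.fb t, p q) ↔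
    ∀ᶠ ξ in cofinite, ∀ η, 𝒴.On (t, ξ, η) → p (t, ξ, η) := by
  rw [fb, inf_comm, eventually_inf_principal, eventually_comap]
  refine eventually_congr (Eventually.of_forall fun ξ => ⟨fun h η h1 => h _ rfl ⟨rfl, h1⟩, ?_⟩)
  rintro h ⟨_, _, η⟩ rfl ⟨rfl, h1⟩
  exact h η h1

theorem frequently_fb : (∃ᶠ q in 𝒴.fb t, p q) ↔
    {ξ | ∃ η, 𝒴.On (t, ξ, η) ∧ p (t, ξ, η)}.Infinite := by
  rw [Filter.Frequently, eventually_fb, eventually_cofinite]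
  simp only [not_forall, not_not, exists_prop]
  rfl

theorem gen_ok (𝒴 : Pl L) : ∀ᶠ q in 𝒴.gen, 𝒴.Ok q := by
  exact eventually_gen.mpr ⟨𝒴.R, 𝒴.monR.ne_zero,
    𝒴.rt_cd.mono fun t h1 ξ η h2 h3 => ⟨h1, h2, h3⟩⟩

theorem gen_fst {r : ℂ → Prop} (h : ∀ᶠ t in cd, r t) : ∀ᶠ q in 𝒴.gen, r q.1 := by
  exact eventually_gen.mpr ⟨1, one_ne_zero, h.mono fun t h1 _ _ _ _ => h1⟩

theorem gen_ne {D : (KK L)[X]} (h : D ≠ 0) : ∀ᶠ q in 𝒴.gen, ev1 D q ≠ 0 := by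
  exact eventually_gen.mpr ⟨D, h, Eventually.of_forall fun _ _ _ _ h1 => h1⟩

theorem gen_nhds (h : ∀ᶠ q in 𝒴.gen, p q) :
    ∀ᶠ q in 𝒴.gen, ∀ᶠ q' in 𝓝 q, 𝒴.On q' → p q' := by
  obtain ⟨D, hD, h⟩ := eventually_gen.mp h
  exact eventually_gen.mpr ⟨D, hD, nhds_aux le_rfl (cd_nhds h)⟩

theorem gen_shift (hw : w ∈ L.lattice) :
    Tendsto (fun q : E3 => (q.1 + w, q.2.1, q.2.2)) 𝒴.gen 𝒴.gen := by
  intro s hs
  obtain ⟨D, hD, h⟩ := eventually_gen.mp hs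
  refine eventually_gen.mpr ⟨D, hD, ((tendsto_add_cd w).eventually h).mono
    fun t h1 ξ η h2 h3 => h1 ξ η ?_ ?_⟩
  · simpa only [On, ev, sp_per _ hw] using h2
  · simpa only [ev1, sp1_per _ hw] using h3

theorem gz_le : 𝒴.gz z ≤ 𝒴.gen := inf_le_left

theorem gz_fst {r : ℂ → Prop} (h : ∀ᶠ t in 𝓝[≠] z, r t) : ∀ᶠ q in 𝒴.gz z, r q.1 := by
  exact Eventually.filter_mono inf_le_right (h.comap Prod.fst)

theorem gz_nhds (h : ∀ᶠ q in 𝒴.gz z, p q) :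
    ∀ᶠ q in 𝒴.gz z, ∀ᶠ q' in 𝓝 q, 𝒴.On q' → p q' := by
  rw [gz_eq, eventually_aux (nhdsNE_le_cd z)] at h ⊢
  obtain ⟨D, hD, h⟩ := h
  refine ⟨D, hD, nhds_aux (nhdsNE_le_cd z) ?_⟩
  filter_upwards [eventually_eventually_nhdsWithin.mpr h, self_mem_nhdsWithin] with t h1 h2
  rwa [nhdsWithin_eq_nhds.mpr (isOpen_compl_singleton.mem_nhds h2)] at h1

theorem eventually_gz : (∀ᶠ q in 𝒴.gz z, p q) ↔ ∃ D : (KK L)[X], D ≠ 0 ∧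
    ∀ᶠ t in 𝓝[≠] z, ∀ ξ η, 𝒴.On (t, ξ, η) → ev1 D (t, ξ, η) ≠ 0 → p (t, ξ, η) := by
  rw [gz_eq, eventually_aux (nhdsNE_le_cd z)]

theorem gen_fb (h : ∀ᶠ q in 𝒴.gen, p q) : ∀ᶠ t in cd, ∀ᶠ q in 𝒴.fb t, p q := by
  obtain ⟨D, hD, h⟩ := eventually_gen.mp h
  filter_upwards [h, sp1_ne hD] with t h1 h2
  exact eventually_fb.mpr ((eval_ne h2).mono fun ξ h3 η h4 => h1 ξ η h4 h3)

theorem gz_fb (h : ∀ᶠ q in 𝒴.gz z, p q) : ∀ᶠ t in 𝓝[≠] z, ∀ᶠ q in 𝒴.fb t, p q := by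
  obtain ⟨D, hD, h⟩ := eventually_gz.mp h
  filter_upwards [h, nhdsNE_le_cd z (sp1_ne hD)] with t h1 h2
  exact eventually_fb.mpr ((eval_ne h2).mono fun ξ h3 η h4 => h1 ξ η h4 h3)

instance fb_neBot : (𝒴.fb t).NeBot := by
  refine ⟨fun h => ?_⟩
  obtain ⟨ξ, h1⟩ := (eventually_fb.mp (eventually_false_iff_eq_bot.mpr h)).exists
  obtain ⟨η, h2⟩ := 𝒴.rts_nonempty t ξ
  exact h1 η (mem_rts.mp h2)

instance gz_neBot : (𝒴.gz z).NeBot := by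
  refine ⟨fun h => ?_⟩
  obtain ⟨t, h1⟩ := (gz_fb (eventually_false_iff_eq_bot.mpr h)).exists
  exact h1.exists.elim fun _ h2 => h2

instance gen_neBot : 𝒴.gen.NeBot := by
  exact (gz_neBot (z := 0)).mono gz_le

theorem fb_on (𝒴 : Pl L) (t : ℂ) : ∀ᶠ q in 𝒴.fb t, q.1 = t ∧ 𝒴.On q := by
  exact eventually_fb.mpr (Eventually.of_forall fun _ _ h => ⟨rfl, h⟩)

theorem fb_ok (h : 𝒴.Rt t) : ∀ᶠ q in 𝒴.fb t, 𝒴.Ok q := by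
  exact eventually_fb.mpr ((eval_ne (monic_sp1 𝒴.monR).1.ne_zero).mono
    fun ξ h1 η h2 => ⟨h, h2, h1⟩)

theorem fb_ne {D : ℂ[X]} (h : D ≠ 0) : ∀ᶠ q in 𝒴.fb t, D.eval q.2.1 ≠ 0 := by
  exact eventually_fb.mpr ((eval_ne h).mono fun ξ h1 _ _ => h1)

theorem fb_nhds (h : ∀ᶠ q in 𝒴.fb t, p q) :
    ∀ᶠ q in 𝒴.fb t, ∀ᶠ q' in 𝓝 q, q'.1 = t → 𝒴.On q' → p q' := by
  rw [eventually_fb] at h ⊢
  refine h.mono fun ξ h1 η _ => ?_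
  have h2 : ∀ᶠ q' in 𝓝 ((t, ξ, η) : E3), ∀ η, 𝒴.On (t, q'.2.1, η) → p (t, q'.2.1, η) := by
    have h3 : ∀ᶠ x in 𝓝 ξ, ∀ η, 𝒴.On (t, x, η) → p (t, x, η) :=
      mem_of_superset ((eventually_cofinite.mp h).isClosed.isOpen_compl.mem_nhds (not_not.mpr h1))
        fun _ h => not_not.mp h
    exact (continuous_snd.fst.tendsto ((t, ξ, η) : E3)).eventually h3
  filter_upwards [h2]
  rintro ⟨_, ξ', η'⟩ h3 rfl h4
  exact h3 η' h4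

theorem fb_uncountable (h : ∀ᶠ q in 𝒴.fb t, p q) :
    ¬ {q | q.1 = t ∧ 𝒴.On q ∧ p q}.Countable := by
  intro hc
  refine not_countable_complex (((hc.image fun q => q.2.1).union
    (eventually_cofinite.mp (eventually_fb.mp h)).countable).mono fun ξ _ => ?_)
  by_cases h1 : ∀ η, 𝒴.On (t, ξ, η) → p (t, ξ, η)
  · obtain ⟨η, h2⟩ := 𝒴.rts_nonempty t ξ
    exact Or.inl ⟨(t, ξ, η), ⟨rfl, mem_rts.mp h2, h1 η (mem_rts.mp h2)⟩, rfl⟩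
  · exact Or.inr h1

/-- a parametrised piece of the fibre -/
theorem tendsto_fb {δ : ℂ → E3} {v : ℂ} (h : ∀ᶠ u in 𝓝[≠] v, (δ u).1 = t ∧ 𝒴.On (δ u))
    (hm : MeromorphicAt (fun u => (δ u).2.1) v) (hn : ∀ c, ¬ ∀ᶠ u in 𝓝[≠] v, (δ u).2.1 = c) :
    Tendsto δ (𝓝[≠] v) (𝒴.fb t) := by
  refine tendsto_inf.mpr ⟨tendsto_principal.mpr h, tendsto_comap_iff.mpr
    (le_cofinite_iff_eventually_ne.mpr fun c => ?_)⟩
  rcases (hm.sub (MeromorphicAt.const c v)).eventually_eq_zero_or_eventually_ne_zero with h1 | h1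
  · exact absurd (h1.mono fun u hu => sub_eq_zero.mp hu) (hn c)
  · exact eventually_map.mpr (h1.mono fun u hu => sub_ne_zero.mp hu)

/-- a polynomial that vanishes on the fibre is divisible by the equation -/
theorem dvd_of_fb (h : 𝒴.Rt t) {N : ℂ[X][X]} (h0 : ∀ᶠ q in 𝒴.fb t, N.evalEval q.2.1 q.2.2 = 0) :
    sp 𝒴.P t ∣ N := by
  have hm := monic_sp (t := t) 𝒴.monic
  have hne : sp 𝒴.P t ≠ 1 := fun e => by
    have := 𝒴.pos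
    rw [← hm.2.1, e, natDegree_one] at this
    exact lt_irrefl _ this
  have h2 : ∀ᶠ ξ in cofinite, (N %ₘ sp 𝒴.P t).map (evalRingHom ξ) = 0 := by
    filter_upwards [eventually_fb.mp h0, eval_ne (monic_sp1 (t := t) 𝒴.monR).1.ne_zero] with ξ a b
    refine eq_zero_of_natDegree_lt_card_of_eval_eq_zero' _ (𝒴.rts t ξ) (fun η hη => ?_) ?_
    · have h3 : (sp 𝒴.P t).evalEval ξ η = 0 := mem_rts.mp hη
      have h4 := congrArg (evalEval ξ η) (modByMonic_add_div N (sp 𝒴.P t))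
      rw [evalEval_add, evalEval_mul, h3, zero_mul, add_zero, a η h3] at h4
      rwa [map_evalRingHom_eval]
    · rw [card_rts h b, ← hm.2.1]
      exact natDegree_map_le.trans_lt (natDegree_modByMonic_lt N hm.1 hne)
  rw [← modByMonic_eq_zero_iff_dvd hm.1]
  ext1 j
  by_contra h3
  obtain ⟨ξ, h4, h5⟩ := (h2.and (eval_ne h3)).exists
  exact h5 (by simpa using congrArg (fun q => q.coeff j) h4)

/-- a polynomial that vanishes on the surface is divisible by the equation -/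
theorem dvd_of_gen {N : (KK L)[X][X]} (h0 : ∃ᶠ t in cd, ∀ᶠ q in 𝒴.fb t, ev N q = 0) :
    𝒴.P ∣ N := by
  rw [← modByMonic_eq_zero_iff_dvd 𝒴.monic]
  by_contra hr
  obtain ⟨t, h1, h2, h3, h4, h5⟩ := (h0.and_eventually (𝒴.rt_cd.and ((sp_ne hr).and
    ((rg2_cd (N %ₘ 𝒴.P)).and (rg2_cd (N /ₘ 𝒴.P)))))).exists
  have h6 : sp 𝒴.P t ∣ sp N t := by
    refine dvd_of_fb h2 ?_
    filter_upwards [h1, 𝒴.fb_on t] with q a b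
    rwa [ev, b.1] at a
  rw [← modByMonic_add_div N 𝒴.P, (h4.add (h2.1.mul h5).1).2, (h2.1.mul h5).2,
    dvd_add_left (dvd_mul_right _ _)] at h6
  refine h3 (eq_zero_of_dvd_of_degree_lt h6 (degree_sp_le.trans_lt ?_))
  rw [(monic_sp 𝒴.monic).2.2]
  exact degree_modByMonic_lt N 𝒴.monic

end Pl

end Pool.Agent.P.MP_7ede32_ag.Hod
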