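import Pool.Agent.P.MP_7ede32_ag.Hod.StA
import Pool.Agent.P.MP_7ede32_ag.Hod.GT

/-!
Linear relations on a very general fibre extend to the surface.
-/

open Set Filter Topology MeasureTheory ComplexConjugate Polynomial Matrix

noncomputable section

namespace Pool.Agent.P.MP_7ede32_ag.Hod

namespace DescP

variable {I : Type} [Fintype I] [DecidableEq I]

/-- the relation with cleared denominators -/
def cl {R : Type} [CommRing R] (na ea : R) (n e c : I → R) : R :=
  na * ∏ i, e i - ∑ i, c i * (ea * n i * ∏ i' ∈ Finset.univ.erase i, e i')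

theorem map_cl {R S : Type} [CommRing R] [CommRing S] (f : R →+* S) (na ea : R)
    (n e c : I → R) : f (cl na ea n e c) =
      cl (f na) (f ea) (fun i => f (n i)) (fun i => f (e i)) fun i => f (c i) := by
  simp only [cl, map_sub, map_mul, map_prod, map_sum]

theorem cl_eq_zero {na ea : ℂ} {n e c : I → ℂ} (ha : ea ≠ 0) (he : ∀ i, e i ≠ 0) :
    cl na ea n e c = 0 ↔ na / ea = ∑ i, c i * (n i / e i) := by
  have hp : ∏ i, e i ≠ 0 := Finset.prod_ne_zero_iff.2 fun i _ => he i
  have h : cl na ea n e c = (na / ea - ∑ i, c i * (n i / e i)) * (ea * ∏ i, e i) := by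
    rw [cl, sub_mul, Finset.sum_mul]
    congr 1
    · field_simp
    · refine Finset.sum_congr rfl fun i _ => ?_
      rw [← Finset.mul_prod_erase Finset.univ e (Finset.mem_univ i)]
      have := he i
      field_simp
  rw [h, mul_eq_zero, sub_eq_zero, or_iff_left (mul_ne_zero ha hp)]

theorem exists_retr {k : Type} [Field k] (ι : k →+* ℂ) :
    ∃ r : ℂ →+ k, r 1 = 1 ∧ ∀ a b, r (ι a * b) = a * r b := by
  let := ι.toAlgebra
  obtain ⟨r, hr⟩ := (Algebra.linearMap k ℂ).exists_leftInverse_of_injective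
    (LinearMap.ker_eq_bot.2 ι.injective)
  exact ⟨r.toAddMonoidHom, by simpa using LinearMap.congr_fun hr 1, fun a b => r.map_smul a b⟩

omit [DecidableEq I] in
theorem dvd_desc {k : Type} [Field k] {ι : k →+* ℂ} {r : ℂ →+ k} (h1 : r 1 = 1)
    (h2 : ∀ a b, r (ι a * b) = a * r b) {P A : k[X][X]} (hP : P.Monic) {B : I → k[X][X]}
    {c : I → ℂ} (h : P.map (mapRingHom ι) ∣
      A.map (mapRingHom ι) - ∑ i, C (C (c i)) * (B i).map (mapRingHom ι)) :
    P ∣ A - ∑ i, C (C (r (c i))) * B i := by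
  have hP' := hP.map (mapRingHom ι)
  rw [← modByMonic_eq_zero_iff_dvd hP'] at h
  rw [← modByMonic_eq_zero_iff_dvd hP]
  have e1 : ∀ {K : Type} [Field K] (P A : K[X][X]) (B : I → K[X][X]) (c : I → K),
      (A - ∑ i, C (C (c i)) * B i) %ₘ P = A %ₘ P - ∑ i, C (C (c i)) * (B i %ₘ P) := by
    intro K _ P A B c
    have := map_sub (modByMonicHom P) A (∑ i, C (c i) • B i)
    simp only [map_sum, map_smul] at this
    simpa only [modByMonicHom_apply, smul_eq_C_mul] using this
  rw [e1, sub_eq_zero] at h ⊢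
  simp only [← map_modByMonic _ hP] at h
  ext j i
  have h3 := congrArg (fun N : ℂ[X][X] => r ((N.coeff j).coeff i)) h
  simp only [coeff_map, coe_mapRingHom, finsetSum_coeff, coeff_C_mul, map_sum] at h3 ⊢
  rw [← mul_one (ι _), h2, h1, mul_one] at h3
  rw [h3]
  exact Finset.sum_congr rfl fun l _ => by rw [mul_comm, h2, mul_comm]

theorem dvd_cl {k : Type} [Field k] {ι : k →+* ℂ} {r : ℂ →+ k} (h1 : r 1 = 1)
    (h2 : ∀ a b, r (ι a * b) = a * r b) {P na ea : k[X][X]} (hP : P.Monic) {n e : I → k[X][X]}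
    {c : I → ℂ} (h : P.map (mapRingHom ι) ∣
      cl (na.map (mapRingHom ι)) (ea.map (mapRingHom ι)) (fun i => (n i).map (mapRingHom ι))
        (fun i => (e i).map (mapRingHom ι)) fun i => C (C (c i))) :
    P ∣ cl na ea n e fun i => C (C (r (c i))) := by
  refine dvd_desc h1 h2 hP ?_
  simpa only [cl, Polynomial.map_mul, Polynomial.map_prod] using h

variable {L : PeriodPair}

/-- polynomials as germs of functions on the surface -/
def evG (𝒴 : Pl L) : (KK L)[X][X] →+* Germ 𝒴.gen ℂ where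
  toFun N := (ev N : E3 → ℂ)
  map_one' := Germ.coe_eq.2 (Eventually.of_forall fun q => by simp [ev])
  map_zero' := Germ.coe_eq.2 (Eventually.of_forall fun q => by simp [ev])
  map_mul' N N' := Germ.coe_eq.2 (by
    filter_upwards [𝒴.gen_fst (rg2_cd N), 𝒴.gen_fst (rg2_cd N')] with q h h'
    simp only [ev, (h.mul h').2, evalEval_mul])
  map_add' N N' := Germ.coe_eq.2 (by
    filter_upwards [𝒴.gen_fst (rg2_cd N), 𝒴.gen_fst (rg2_cd N')] with q h h'
    simp only [ev, (h.add h').2, evalEval_add])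

theorem gen_cl (𝒴 : Pl L) {na ea : (KK L)[X][X]} {n e : I → (KK L)[X][X]} {c : I → KK L}
    (h : 𝒴.P ∣ cl na ea n e fun i => C (C (c i))) : ∀ᶠ q in 𝒴.gen,
      cl (ev na q) (ev ea q) (fun i => ev (n i) q) (fun i => ev (e i) q)
        (fun i => rv (c i) q.1) = 0 := by
  have h0 : evG 𝒴 𝒴.P = 0 := Germ.coe_eq.2 (𝒴.gen_ok.mono fun q hq => hq.2.1)
  have h1 := _root_.map_dvd (evG 𝒴) h
  rw [h0, zero_dvd_iff, map_cl] at h1
  have h2 : Germ.coeRingHom 𝒴.gen (cl (ev na) (ev ea) (fun i => ev (n i)) (fun i => ev (e i))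
      fun i => ev (C (C (c i)))) = 0 := by
    rw [map_cl]
    exact h1
  filter_upwards [Germ.coe_eq.1 h2] with q hq
  have h3 := map_cl (Pi.evalRingHom (fun _ : E3 => ℂ) q) (ev na) (ev ea) (fun i => ev (n i))
    (fun i => ev (e i)) fun i => ev (C (C (c i)))
  have h4 : ∀ i, ev (C (C (c i))) q = rv (c i) q.1 := fun i => by simp [ev]
  simp only [Pi.evalRingHom_apply, h4] at h3
  exact h3.symm.trans hq

end DescP

open DescP in
theorem sDesc : SDesc := by
  intro L 𝒴 𝒜 hc hr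
  have := hc.to_subtype
  have : CountableInterFilter cc :=
    CardinalInterFilter.toCountableInterFilter _ Cardinal.aleph0_lt_aleph_one
  have h0 : ∀ F : 𝒜, ∃ N E : (KK L)[X][X],
      ∀ᶠ q in 𝒴.gen, ev E q ≠ 0 ∧ F.1 q = ev N q / ev E q := fun F => by
    obtain ⟨N, D, hD, h⟩ := (hr F.1 F.2).2
    refine ⟨N, C D, ?_⟩
    filter_upwards [h, 𝒴.gen_ne hD] with q h1 h2
    rw [ev_C]
    exact ⟨h2, h1⟩
  choose N E h0 using h0
  obtain ⟨k, hk, hs⟩ := exists_subfield (insert 𝒴.P (range N ∪ range E))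
    (((countable_range N).union (countable_range E)).insert _)
  obtain ⟨P₀, hP⟩ := hs _ (mem_insert _ _)
  choose N₀ hN using fun F => hs (N F) (mem_insert_of_mem _ (Or.inl (mem_range_self F)))
  choose E₀ hE using fun F => hs (E F) (mem_insert_of_mem _ (Or.inr (mem_range_self F)))
  have hm : P₀.Monic := by
    refine monic_of_injective (f := mapRingHom k.subtype)
      (map_injective _ k.subtype.injective) ?_
    rw [hP]
    exact 𝒴.monic
  filter_upwards [exists_iota k hk, cc_le_cd 𝒴.rt_cd,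
    eventually_countable_forall.2 fun F => cc_le_cd (Pl.gen_fb (h0 F))]
    with t ⟨ι, hι⟩ hR hF I J _ a b c ha hb h
  classical
  obtain ⟨r, r1, r2⟩ := exists_retr ι
  have hsp := fun M => ((sp_iota hι).2 M).2
  refine ⟨fun i => (r (c i)).1, fun j => ?_⟩
  have h1 : P₀ ∣ cl (N₀ ⟨_, ha j⟩) (E₀ ⟨_, ha j⟩) (fun i => N₀ ⟨_, hb j i⟩)
      (fun i => E₀ ⟨_, hb j i⟩) fun i => C (C (r (c i))) := by
    refine dvd_cl r1 r2 hm ?_
    rw [← hsp, hP]
    refine Pl.dvd_of_fb hR ?_
    filter_upwards [h j, hF ⟨_, ha j⟩, eventually_all.2 fun i => hF ⟨_, hb j i⟩, 𝒴.fb_on t]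
      with q h1 h2 h3 h4
    rw [← coe_evalEvalRingHom, map_cl]
    simp only [coe_evalEvalRingHom, ← hsp, hN, hE, evalEval_C, eval_C, ← h4.1]
    refine (cl_eq_zero h2.1 fun i => (h3 i).1).2 ?_
    exact h2.2.symm.trans (h1.trans (Finset.sum_congr rfl fun i _ => congrArg _ (h3 i).2))
  have h2 := _root_.map_dvd (mapRingHom (mapRingHom k.subtype)) h1
  rw [map_cl] at h2
  simp only [coe_mapRingHom, hP, hN, hE, map_C, Subfield.coe_subtype] at h2
  filter_upwards [gen_cl 𝒴 h2, h0 ⟨_, ha j⟩, eventually_all.2 fun i => h0 ⟨_, hb j i⟩]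
    with q h3 h4 h5
  exact h4.2.trans (((cl_eq_zero h4.1 fun i => (h5 i).1).1 h3).trans
    (Finset.sum_congr rfl fun i _ => congrArg _ (h5 i).2.symm))

end Pool.Agent.P.MP_7ede32_ag.Hod
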