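import Pool.Agent.P.MP_7ede32_ag.Hod.StA

/-!
Adjoint polynomials are defined over the field of definition of the curve.
-/

open Set Filter Topology MeasureTheory ComplexConjugate Polynomial Matrix

namespace Pool.Agent.P.MP_7ede32_ag.Hod

namespace DescV1P

/-- a retraction of rings of coefficients extends to polynomials -/
theorem exists_lift {A B : Type} [CommRing A] [CommRing B] (f : A →+* B) (r : B →+ A)
    (h : ∀ a b, r (f a * b) = a * r b) : ∃ r' : B[X] →+ A[X],
      (∀ p i, (r' p).coeff i = r (p.coeff i)) ∧ ∀ a b, r' (mapRingHom f a * b) = a * r' b := by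
  have hc : ∀ (p : B[X]) i, (p.sum fun i c => monomial i (r c)).coeff i = r (p.coeff i) := by
    intro p i
    rw [coeff_sum, Polynomial.sum, Finset.sum_eq_single i]
    · rw [coeff_monomial, if_pos rfl]
    · intro j _ hj
      rw [coeff_monomial, if_neg hj]
    · intro hi
      rw [notMem_support_iff.1 hi, map_zero, map_zero, coeff_zero]
  refine ⟨AddMonoidHom.mk' (fun p => p.sum fun i c => monomial i (r c)) fun p q => ?_, hc,
    fun a b => ?_⟩
  · ext i
    rw [coeff_add, hc, hc, hc, coeff_add, map_add]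
  · ext i
    simp only [AddMonoidHom.mk'_apply, hc, coeff_mul, map_sum, coe_mapRingHom, coeff_map, h]

variable {K K' : Type} [Field K] [Field K']

theorem av_map (f : K →+* K') {P N : K[X][X]} {R : K[X]} (h : AV P R N) :
    AV (P.map (mapRingHom f)) (R.map f) (N.map (mapRingHom f)) := by
  obtain ⟨m, A, h1, h2⟩ := h
  refine ⟨m, fun k => (A k).map f, fun k hk i hi => ?_, ?_⟩
  · rw [natDegree_map] at hi
    rw [coeff_map, h1 k hk i hi, map_zero]
  · have h3 := Polynomial.map_dvd (mapRingHom f) h2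
    simpa only [Polynomial.map_add, Polynomial.map_mul, Polynomial.map_pow, Polynomial.map_sum,
      map_C, coe_mapRingHom, derivative_map] using h3

theorem av_of_map (f : K →+* K') {P N : K[X][X]} {R : K[X]}
    (h : AV (P.map (mapRingHom f)) (R.map f) (N.map (mapRingHom f))) : AV P R N := by
  let := f.toAlgebra
  obtain ⟨r, hr⟩ := (Algebra.linearMap K K').exists_leftInverse_of_injective
    (LinearMap.ker_eq_bot.2 f.injective)
  have hr1 : r 1 = 1 := by simpa using LinearMap.congr_fun hr 1
  obtain ⟨r1, c1, m1⟩ := exists_lift f r.toAddMonoidHom fun a b => r.map_smul a b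
  obtain ⟨r2, c2, m2⟩ := exists_lift (mapRingHom f) r1 m1
  have hC : ∀ a, r2 (C a) = C (r1 a) := fun a => by
    ext1 i
    rw [c2, coeff_C, coeff_C, apply_ite r1, map_zero]
  have h11 : r1 1 = 1 := by
    ext1 i
    rw [c1, coeff_one, coeff_one, apply_ite r.toAddMonoidHom, map_zero]
    exact if_congr Iff.rfl hr1 rfl
  have h21 : r2 1 = 1 := by rw [← C_1, hC, h11, C_1]
  obtain ⟨m, A, h1, Q, h2⟩ := h
  refine ⟨m, fun k => r1 (A k), fun k hk i hi => ?_, r2 Q, ?_⟩
  · rw [c1, h1 k hk i (by rwa [natDegree_map]), map_zero]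
  · have h3 : mapRingHom (mapRingHom f) ((C R * N) ^ m) * 1 + ∑ k ∈ Finset.range m,
        mapRingHom (mapRingHom f) (C R * (C R * N) ^ k * derivative P ^ (m - k)) * C (A k) =
        mapRingHom (mapRingHom f) P * Q := by
      rw [coe_mapRingHom, ← h2, Finset.mul_sum]
      simp only [Polynomial.map_mul, Polynomial.map_pow, map_C, coe_mapRingHom, derivative_map,
        mul_one]
      exact congrArg₂ (· + ·) rfl (Finset.sum_congr rfl fun k _ => by ring)
    have h4 := congrArg r2 h3
    rw [map_add, map_sum, m2, m2, h21, mul_one] at h4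
    rw [← h4, Finset.mul_sum]
    exact congrArg₂ (· + ·) rfl (Finset.sum_congr rfl fun k _ => by rw [m2, hC]; ring)

end DescV1P

theorem sDescV1 (h : SInvS) : SDescV1 := by
  intro k _ ι P R V hV N hN
  refine Submodule.span_mono ?_ (h ι.fieldRange V (fun σ hσ M hM => ?_) N hN)
  · rintro M ⟨hM, hc⟩
    obtain ⟨N₀, rfl⟩ : M ∈ lifts (mapRingHom ι) :=
      (lifts_iff_coeff_lifts _).2 fun j => (lifts_iff_coeff_lifts _).2 fun i => hc j i
    obtain ⟨h1, h2⟩ := (hV _).1 hM
    refine ⟨N₀, ?_, DescV1P.av_of_map ι h2, rfl⟩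
    rwa [coe_mapRingHom, degree_map_eq_of_injective (Polynomial.map_injective ι ι.injective)] at h1
  · obtain ⟨h1, h2⟩ := (hV _).1 hM
    have h3 : σ.comp ι = ι := RingHom.ext fun c => hσ _ ⟨c, rfl⟩
    have h4 := DescV1P.av_map σ h2
    rw [Polynomial.map_map, Polynomial.map_map, mapRingHom_comp, h3] at h4
    exact (hV _).2 ⟨degree_map_le.trans_lt h1, h4⟩

end Pool.Agent.P.MP_7ede32_ag.Hod
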