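import Pool.Agent.P.MP_7ede32_ag.Hod.StA
import Pool.Agent.P.MP_7ede32_ag.Hod.AT2

/-!
A basis of adjoint polynomials over the field of elliptic functions.
-/

open Set Filter Topology Polynomial

namespace Pool.Agent.P.MP_7ede32_ag.Hod

namespace DescV2P

lemma av_map {K K' : Type} [CommRing K] [CommRing K'] (f : K →+* K') (hf : Function.Injective f)
    {P N : K[X][X]} {R : K[X]} (h : AV P R N) :
    AV (P.map (mapRingHom f)) (R.map f) (N.map (mapRingHom f)) := by
  obtain ⟨m, A, h1, h2⟩ := h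
  refine ⟨m, fun k => (A k).map f, fun k hk i hi => ?_, ?_⟩
  · rw [natDegree_map_eq_of_injective hf] at hi
    rw [coeff_map, h1 k hk i hi, map_zero]
  · have h3 := Polynomial.map_dvd (mapRingHom f) h2
    simpa only [Polynomial.map_add, Polynomial.map_mul, Polynomial.map_pow, Polynomial.map_sum,
      map_C, coe_mapRingHom, derivative_map] using h3

lemma countable_poly (K : Type) [Semiring K] [Countable K] : Countable K[X] :=
  (show Function.Injective (fun p : K[X] => p.toFinsupp.coeff) from fun _ _ h =>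
    Polynomial.toFinsupp_injective (AddMonoidAlgebra.coeff_injective h)).countable

lemma cc_all {ι : Type} [Countable ι] {p : ι → ℂ → Prop} (h : ∀ i, ∀ᶠ t in cc, p i t) :
    ∀ᶠ t in cc, ∀ i, p i t := by
  refine mem_cocountable.2 ((countable_iUnion fun i => mem_cocountable.1 (h i)).mono ?_)
  intro t ht
  simpa using ht

lemma smul_eq {K : Type} [CommRing K] (c : K) (N : K[X][X]) : c • N = C (C c) * N := by
  rw [← smul_eq_C_mul, ← algebraMap_smul K[X] c N, algebraMap_eq]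

variable {L : PeriodPair} {g : ℕ}

lemma sp_comb {N : Fin g → (KK L)[X][X]} {c : Fin g → KK L} {t : ℂ} (hN : ∀ i, Rg2 (N i) t)
    (hc : ∀ i, Rg (c i) t) : sp (∑ i, c i • N i) t = ∑ i, rv (c i) t • sp (N i) t := by
  have h2 : ∀ i, Rg2 (C (C (c i)) * N i) t ∧
      sp (C (C (c i)) * N i) t = sp (C (C (c i))) t * sp (N i) t := fun i =>
    (rg2_C (rg1_C (hc i))).mul (hN i)
  simp only [smul_eq]
  rw [(rg2_sum fun i _ => (h2 i).1).2]
  refine Finset.sum_congr rfl fun i _ => ?_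
  rw [(h2 i).2, sp_C, sp1_C]

end DescV2P

open DescV2P in
theorem sDescV2 (h : SDescV1) : SDescV2 := by
  classical
  intro L 𝒴 hV
  set U : Set (KK L)[X][X] := {N | N.degree < 𝒴.P.degree ∧ AV 𝒴.P 𝒴.R N} with hU
  have hsp : ∀ {g : ℕ} {N : Fin g → (KK L)[X][X]}, (∀ i, N i ∈ U) → LinearIndependent (KK L) N →
      ∀ᶠ t in cd, (∀ i, (sp (N i) t).degree < (sp 𝒴.P t).degree ∧
        AV (sp 𝒴.P t) (sp1 𝒴.R t) (sp (N i) t)) ∧ LinearIndependent ℂ fun i => sp (N i) t := by
    intro g N hN hi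
    filter_upwards [eventually_all.2 fun i => (hN i).2.sp 𝒴.monR, indep_sp hi] with t h1 h2
    refine ⟨fun i => ⟨?_, h1 i⟩, h2⟩
    rw [(monic_sp 𝒴.monic).2.2]
    exact degree_sp_le.trans_lt (hN i).1
  obtain ⟨d, hd⟩ : ∃ d : ℕ, ∃ᶠ t in cc, ∃ V : Submodule ℂ ℂ[X][X], FiniteDimensional ℂ V ∧
      (∀ N, N ∈ V ↔ N.degree < (sp 𝒴.P t).degree ∧ AV (sp 𝒴.P t) (sp1 𝒴.R t) N) ∧
      Module.finrank ℂ V = d := by
    by_contra hc
    simp only [not_exists, not_frequently] at hc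
    obtain ⟨t, ⟨V, h1, h2⟩, h3⟩ := (hV.and (cc_all hc)).exists
    exact h3 _ V ⟨h1, h2, rfl⟩
  let Q : ℕ → Prop := fun g => ∃ N : Fin g → (KK L)[X][X],
    (∀ i, N i ∈ U) ∧ LinearIndependent (KK L) N
  have hQ : ∀ g, Q g → g ≤ d := by
    rintro g ⟨N, hN, hi⟩
    obtain ⟨t, ⟨V, h1, h2, h3⟩, h4, h5⟩ := (hd.and_eventually ((hsp hN hi).filter_mono cc_le_cd)).exists
    have h6 : LinearIndependent ℂ fun i => (⟨sp (N i) t, (h2 _).2 (h4 i)⟩ : V) :=
      LinearIndependent.of_comp V.subtype h5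
    simpa [h3] using h6.fintype_card_le_finrank
  obtain ⟨N, hN, hi⟩ : Q (Nat.findGreatest Q d) :=
    Nat.findGreatest_spec (Nat.zero_le d) ⟨Fin.elim0, fun i => i.elim0, linearIndependent_empty_type⟩
  have hspan : ∀ M ∈ U, ∃ c : Fin (Nat.findGreatest Q d) → KK L, ∑ i, c i • N i = M := by
    intro M hM
    by_contra hc
    have h1 : M ∉ Submodule.span (KK L) (range N) := fun h1 =>
      hc ((Submodule.mem_span_range_iff_exists_fun _).1 h1)
    have h2 : Q (Nat.findGreatest Q d + 1) :=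
      ⟨Fin.cons M N, fun i => Fin.cases hM hN i, hi.finCons h1⟩
    exact Nat.findGreatest_is_greatest (Nat.lt_succ_self _) (hQ _ h2) h2
  refine ⟨_, N, hsp hN hi, ?_⟩
  obtain ⟨k, hk, hk'⟩ := exists_subfield {𝒴.P, C 𝒴.R} (Set.toFinite _).countable
  obtain ⟨P₀, hP⟩ := hk' 𝒴.P (by simp)
  obtain ⟨R₁, hR₁⟩ := hk' (C 𝒴.R) (by simp)
  have hR : (R₁.coeff 0).map k.subtype = 𝒴.R := by
    have h1 := congrArg (fun p => p.coeff 0) hR₁
    simpa using h1
  have hinj : Function.Injective (mapRingHom k.subtype) := map_injective _ k.subtype.injective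
  have := countable_poly k
  have := countable_poly k[X]
  have hall : ∀ M : k[X][X], ∀ᶠ t in cc, M.degree < P₀.degree → AV P₀ (R₁.coeff 0) M →
      sp (M.map (mapRingHom k.subtype)) t ∈ Submodule.span ℂ (range fun i => sp (N i) t) := by
    intro M
    by_cases hM : M.degree < P₀.degree ∧ AV P₀ (R₁.coeff 0) M
    · obtain ⟨c, hc⟩ := hspan (M.map (mapRingHom k.subtype)) ⟨by
        rw [← hP, degree_map_eq_of_injective hinj, degree_map_eq_of_injective hinj]
        exact hM.1, by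
        rw [← hP, ← hR]
        exact av_map _ k.subtype.injective hM.2⟩
      refine Eventually.filter_mono cc_le_cd ?_
      filter_upwards [eventually_all.2 fun i => rg2_cd (N i), eventually_all.2 fun i => rg_cd (c i)]
        with t h1 h2 _ _
      rw [← hc, sp_comb h1 h2]
      exact Submodule.sum_mem _ fun i _ =>
        Submodule.smul_mem _ _ (Submodule.subset_span ⟨i, rfl⟩)
    · exact Eventually.of_forall fun t h1 h2 => (hM ⟨h1, h2⟩).elim
  filter_upwards [hV, exists_iota k hk, cc_all hall] with t ⟨V, _, h1⟩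
    ⟨ι, hι⟩ h2 N' h3 h4
  obtain ⟨h5, h6⟩ := sp_iota hι
  have h7 : sp 𝒴.P t = P₀.map (mapRingHom ι) := by rw [← hP, (h6 P₀).2]
  have h8 : sp1 𝒴.R t = (R₁.coeff 0).map ι := by rw [← hR, (h5 _).2]
  have h9 : (sp 𝒴.P t).degree = P₀.degree := by
    rw [(monic_sp 𝒴.monic).2.2, ← hP, degree_map_eq_of_injective hinj]
  have h10 := h k ι P₀ (R₁.coeff 0) V (fun M => by rw [h1 M, h9, h7, h8]) N' ((h1 N').2 ⟨h3, h4⟩)
  refine Submodule.span_le.2 ?_ h10
  rintro _ ⟨M, hM1, hM2, rfl⟩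
  rw [← (h6 M).2]
  exact h2 M hM1 hM2

end Pool.Agent.P.MP_7ede32_ag.Hod
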