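import Pool.Agent.P.MP_7ede32_ag.Hod.StB

/-!
The determinant is monotone on positive definite matrices.
-/

open Matrix
open scoped ComplexOrder MatrixOrder

namespace Pool.Agent.P.MP_7ede32_ag.Hod

namespace DetP

variable {g : ℕ}

lemma det_one_add {P : Matrix (Fin g) (Fin g) ℂ} (hP : P.IsHermitian) :
    (1 + P).det = ((∏ i, (1 + hP.eigenvalues i) : ℝ) : ℂ) := by
  have h1 := Matrix.eval_charpoly P (-1)
  rw [hP.charpoly_eq, Polynomial.eval_prod] at h1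
  have h2 : Matrix.scalar (Fin g) (-1 : ℂ) - P = (-1 : ℂ) • (1 + P) := by
    rw [map_neg, map_one, neg_one_smul, neg_add, sub_eq_add_neg]
  rw [h2, det_smul] at h1
  have h3 : ∏ i, Polynomial.eval (-1 : ℂ) (Polynomial.X - Polynomial.C (hP.eigenvalues i : ℂ))
      = (-1 : ℂ) ^ Fintype.card (Fin g) * ∏ i, (1 + (hP.eigenvalues i : ℂ)) := by
    rw [← Finset.card_univ, ← Finset.prod_const, ← Finset.prod_mul_distrib]
    refine Finset.prod_congr rfl fun i _ => ?_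
    simp only [Polynomial.eval_sub, Polynomial.eval_X, Polynomial.eval_C]
    ring
  have h4 : (-1 : ℂ) ^ Fintype.card (Fin g) * ∏ i, (1 + (hP.eigenvalues i : ℂ))
      = (-1 : ℂ) ^ Fintype.card (Fin g) * (1 + P).det := h3.symm.trans h1
  have h5 := mul_left_cancel₀ (pow_ne_zero _ (by norm_num : (-1 : ℂ) ≠ 0)) h4
  rw [← h5]
  push_cast
  rfl

lemma one_add_psd {P : Matrix (Fin g) (Fin g) ℂ} (hP : P.PosSemidef) :
    1 ≤ ‖(1 + P).det‖ ∧ (‖(1 + P).det‖ ≤ 1 → P = 0) := by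
  have h0 : ∀ i, (1 : ℝ) ≤ 1 + hP.1.eigenvalues i := fun i =>
    le_add_of_nonneg_right (hP.eigenvalues_nonneg i)
  have h1 : (1 : ℝ) ≤ ∏ i, (1 + hP.1.eigenvalues i) :=
    Finset.one_le_prod fun i _ => h0 i
  rw [det_one_add hP.1, Complex.norm_real, Real.norm_eq_abs, abs_of_nonneg (zero_le_one.trans h1)]
  refine ⟨h1, fun h => hP.1.eigenvalues_eq_zero_iff.1 (funext fun i => ?_)⟩
  rw [← Finset.mul_prod_erase _ _ (Finset.mem_univ i)] at h
  have h2 : (1 : ℝ) ≤ ∏ j ∈ Finset.univ.erase i, (1 + hP.1.eigenvalues j) :=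
    Finset.one_le_prod fun j _ => h0 j
  have h3 := hP.eigenvalues_nonneg i
  have h4 : 1 + hP.1.eigenvalues i ≤ 1 := (le_mul_of_one_le_right (by linarith) h2).trans h
  simp only [Pi.zero_apply]
  linarith

end DetP

open DetP in
theorem sDet : SDet := by
  intro g A B hA hB
  obtain ⟨C, hC, hAC⟩ := CStarAlgebra.isStrictlyPositive_iff_eq_star_mul_self.mp
    hA.isStrictlyPositive
  have hCd : IsUnit C.det := (Matrix.isUnit_iff_isUnit_det C).1 hC
  set P : Matrix (Fin g) (Fin g) ℂ := (C⁻¹)ᴴ * (B - A) * C⁻¹ with hP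
  have hPs : P.PosSemidef := hB.conjTranspose_mul_mul_same _
  have h1 : C⁻¹ * C = 1 := nonsing_inv_mul C hCd
  have h2 : Cᴴ * (C⁻¹)ᴴ = 1 := by rw [← conjTranspose_mul, h1, conjTranspose_one]
  have h3 : Cᴴ * P * C = B - A := by
    calc Cᴴ * P * C = (Cᴴ * (C⁻¹)ᴴ) * (B - A) * (C⁻¹ * C) := by
          simp only [hP, Matrix.mul_assoc]
      _ = B - A := by rw [h1, h2, Matrix.one_mul, Matrix.mul_one]
  have hAC' : A = Cᴴ * C := hAC
  have h4 : B = Cᴴ * (1 + P) * C := by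
    rw [Matrix.mul_add, Matrix.add_mul, h3, Matrix.mul_one, ← hAC']
    abel
  have h5 : ‖B.det‖ = ‖A.det‖ * ‖(1 + P).det‖ := by
    rw [← norm_mul]
    congr 1
    conv_lhs => rw [h4]
    conv_rhs => rw [hAC']
    simp only [det_mul]
    ring
  have h6 : 0 < ‖A.det‖ := norm_pos_iff.2 hA.det_pos.ne'
  obtain ⟨h7, h8⟩ := one_add_psd hPs
  refine ⟨h5 ▸ le_mul_of_one_le_right h6.le h7, fun h => ?_⟩
  rw [h5] at h
  have h9 : P = 0 := h8 (by nlinarith)
  rw [h9, Matrix.mul_zero, Matrix.zero_mul] at h3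
  exact sub_eq_zero.1 h3.symm

end Pool.Agent.P.MP_7ede32_ag.Hod
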