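import Pool.Agent.P.MP_7ede32_ag.Hod.Dich
import Pool.Agent.P.MP_7ede32_ag.Hod.Frame

/-!
The dichotomy, without a hypothesis on frames.
-/

open Set Filter Topology Matrix Metric

open scoped ComplexOrder

namespace Pool.Agent.P.MP_7ede32_ag.Hod

open Full (cd_iff)

open DichP in
theorem sDich' (h2 : SFlat1) (h3 : SCount) : SDich := by
  classical
  intro L g Λ h hΛ hper hG hlow
  have hq : ∀ᶠ t in cd, Gm h t ∧ ∀ a, AnV a t → a ∈ Λ t := hG.and hΛ.std
  have hs : ∀ w ∈ L.lattice, ∀ t, (Gm h t ∧ ∀ a, AnV a t → a ∈ Λ t) →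
      Gm h (t + w) ∧ ∀ a, AnV a (t + w) → a ∈ Λ (t + w) :=
    fun w hw t H => ⟨gm_shift (hper w hw) H.1, std_shift hΛ hw H.2⟩
  rcases Nat.eq_zero_or_pos g with rfl | hg
  · refine Or.inr ⟨Eventually.of_forall fun t Γ _ => Eventually.of_forall fun s =>
      Subsingleton.elim _ _, fun z G _ => ⟨1, Eventually.of_forall fun t => ?_⟩⟩
    simp
  choose G₀ hG₀ using fun y => frame_pos (hΛ.lat y) hg
  by_cases hc : ∃ S : ZS L g, (∀ y, Fr (Λ y) y (S.G y)) ∧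
      (∀ t, S.Off t → Gm h t ∧ ∀ a, AnV a t → a ∈ Λ t) ∧ ∑ z ∈ S.Z, S.m z < 0
  · obtain ⟨S, a1, a2, a3⟩ := hc
    refine Or.inl ((off_cd S).mono fun z₁ hz => ?_)
    obtain ⟨n, κ, b1, b2, b3⟩ := h3 L g S z₁ a3 hz
    refine ⟨n, κ, b1, fun y => ?_⟩
    by_cases hy : S.Off y
    · exact (a2 y hy).2 κ (b2 y hy)
    · simp only [ZS.Off, not_forall, not_not] at hy
      obtain ⟨z, hz, hw⟩ := hy
      have := mem_shift hΛ hw (((a1 z).2.2 _).2 (b3 z hz _ hw))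
      rwa [add_sub_cancel] at this
  · have key : ∀ (G : ℂ → MF g), (∀ y, Fr (Λ y) y (G y)) → ∀ z,
        (∀ᶠ t in cd, ∀ Γ, Bar h t Γ → BarEq h t Γ) ∧ UpB h (G z) z := fun G hG' z => by
      obtain ⟨S, rfl, a2, a3⟩ := exists_ZS hq hs G hG' z
      obtain ⟨b1, b2⟩ := h2 L g S h hper (fun t ht => (a3 t ht).1)
        (fun y _ => hlow y _ (hG' y)) (not_lt.1 fun a4 => hc ⟨S, hG', a3, a4⟩)
      exact ⟨(off_cd S).mono b1, b2 z a2⟩
    refine Or.inr ⟨(key G₀ hG₀ 0).1, fun z G hz => ?_⟩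
    have := (key (Function.update G₀ z G) (fun y => by
      rcases eq_or_ne y z with rfl | hy
      · rwa [Function.update_self]
      · rw [Function.update_of_ne hy]
        exact hG₀ y) z).2
    rwa [Function.update_self] at this

end Pool.Agent.P.MP_7ede32_ag.Hod
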