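import Pool.Agent.P.MP_7ede32_ag.Hod.StB

/-!
Elliptic functions with prescribed poles, as quotients of sigma functions.
-/

open Set Filter Topology ComplexConjugate

namespace Pool.Agent.P.MP_7ede32_ag.Hod

namespace EllSpP

/-- functions of different orders are independent -/
theorem indep {D : ℕ} {F : Filter ℂ} [F.NeBot] {φ : ℂ → ℂ} {u : Fin D → ℂ → ℂ} {a c : Fin D → ℂ}
    (h0 : Tendsto φ F (𝓝 0)) (h1 : ∀ᶠ t in F, φ t ≠ 0) (hu : ∀ i, Tendsto (u i) F (𝓝 (a i)))
    (ha : ∀ i, a i ≠ 0) (h : ∀ᶠ t in F, ∑ i, c i * (φ t ^ (i : ℕ) * u i t) = 0) : c = 0 := by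
  have key : ∀ n : ℕ, ∀ i : Fin D, (i : ℕ) = n → c i = 0 := by
    intro n
    induction n using Nat.strong_induction_on with
    | _ n ih =>
      intro i hi
      have e1 : ∀ᶠ t in F, ∑ j, c j * (φ t ^ ((j : ℕ) - n) * u j t) = 0 := by
        filter_upwards [h, h1] with t ht h1
        refine mul_left_cancel₀ (pow_ne_zero n h1) ?_
        rw [mul_zero, ← ht, Finset.mul_sum]
        refine Finset.sum_congr rfl fun j _ => ?_
        rcases lt_or_ge (j : ℕ) n with hj | hj
        · rw [ih j hj j rfl]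
          simp
        · obtain ⟨k, hk⟩ := Nat.exists_eq_add_of_le hj
          rw [hk, Nat.add_sub_cancel_left, pow_add]
          ring
      have e2 : Tendsto (fun t => ∑ j, c j * (φ t ^ ((j : ℕ) - n) * u j t)) F
          (𝓝 (∑ j, c j * (0 ^ ((j : ℕ) - n) * a j))) :=
        tendsto_finsetSum _ fun j _ => ((h0.pow _).mul (hu j)).const_mul _
      have e3 : ∑ j, c j * (0 ^ ((j : ℕ) - n) * a j) = 0 :=
        tendsto_nhds_unique e2 (tendsto_const_nhds.congr' (e1.mono fun t ht => ht.symm))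
      rw [Finset.sum_eq_single i] at e3
      · rw [hi, Nat.sub_self, pow_zero, one_mul] at e3
        exact (mul_eq_zero.1 e3).resolve_right (ha i)
      · intro j _ hj
        rcases lt_or_gt_of_ne hj with hj | hj
        · rw [ih j (hi ▸ hj) j rfl, zero_mul]
        · rw [zero_pow (by have : (i : ℕ) < j := hj; omega), zero_mul, mul_zero]
      · simp
  exact funext fun i => key i i rfl

theorem cnt (L : PeriodPair) : (L.lattice : Set ℂ).Countable :=
  countable_of_Lindelof_of_discrete (X := L.lattice)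

/-- a generic point -/
theorem generic (L : PeriodPair) (P : Finset ℂ) (s : ℂ) :
    ∃ c : ℂ, c ∉ L.lattice ∧ (∀ p ∈ P, c - p ∉ L.lattice) ∧
      ∀ k : ℕ, c - (s - k * c) ∉ L.lattice := by
  have h1 : (⋃ p ∈ (P : Set ℂ), (fun c => c - p) ⁻¹' (L.lattice : Set ℂ)).Countable :=
    P.countable_toSet.biUnion fun p _ => (cnt L).preimage sub_left_injective
  have h2 : (⋃ k : ℕ, (fun c : ℂ => c - (s - k * c)) ⁻¹' (L.lattice : Set ℂ)).Countable := by
    refine countable_iUnion fun k => (cnt L).preimage fun x y hxy => ?_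
    have h0 : (k : ℂ) + 1 ≠ 0 := Nat.cast_add_one_ne_zero k
    refine mul_left_cancel₀ h0 ?_
    linear_combination hxy
  obtain ⟨c, hc⟩ := ((((cnt L).union h1).union h2).dense_compl ℂ).nonempty
  simp only [mem_compl_iff, mem_union, mem_iUnion, mem_preimage, not_or, not_exists,
    SetLike.mem_coe] at hc
  exact ⟨c, hc.1.1, hc.1.2, hc.2⟩

variable {L : PeriodPair} {σ : ℂ → ℂ} {β : ℝ}

/-- the denominator -/
noncomputable def den (σ : ℂ → ℂ) (P : Finset ℂ) (d : ℕ) (t : ℂ) : ℂ := ∏ p ∈ P, σ (t - p) ^ d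

/-- the numerator without the zero at `c` -/
noncomputable def num (σ : ℂ → ℂ) (m : ℕ) (q t : ℂ) : ℂ := σ t ^ m * σ (t - q)

theorem an_sub (h : IsSig L σ β) (p t : ℂ) : AnalyticAt ℂ (fun t => σ (t - p)) t :=
  (h.diff.comp (differentiable_id.sub_const p)).analyticAt t

theorem an_den (h : IsSig L σ β) (P : Finset ℂ) (d : ℕ) (t : ℂ) :
    AnalyticAt ℂ (den σ P d) t :=
  Finset.analyticAt_fun_prod _ fun p _ => (an_sub h p t).pow d

theorem an_num (h : IsSig L σ β) (m : ℕ) (q t : ℂ) : AnalyticAt ℂ (num σ m q) t :=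
  ((h.diff.analyticAt t).pow m).mul (an_sub h q t)

theorem den_ne (h : IsSig L σ β) {P : Finset ℂ} (d : ℕ) {t : ℂ}
    (ht : ∀ p ∈ P, t - p ∉ L.lattice) : den σ P d t ≠ 0 :=
  Finset.prod_ne_zero_iff.2 fun p hp => pow_ne_zero _ fun h0 => ht p hp ((h.zero _).1 h0)

theorem periodic (h : IsSig L σ β) (P : Finset ℂ) (d k m : ℕ) (c : ℂ)
    (hk : k + m + 1 = P.card * d) {w : ℂ} (hw : w ∈ L.lattice) (t : ℂ) :
    σ (t + w - c) ^ k * (num σ m (d * ∑ p ∈ P, p - k * c) (t + w) / den σ P d (t + w)) =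
      σ (t - c) ^ k * (num σ m (d * ∑ p ∈ P, p - k * c) t / den σ P d t) := by
  obtain ⟨e, he, hσ⟩ := h.per w hw
  have e0 : e ≠ 0 := norm_ne_zero_iff.1 (he ▸ (Real.exp_pos _).ne')
  set l : ℂ := 2 * β * conj w
  have hs : ∀ p, σ (t + w - p) = e * Complex.exp (l * (t - p)) * σ (t - p) := fun p => by
    rw [← hσ, add_sub_right_comm]
  have hk' : (k : ℂ) + m + 1 = P.card * d := by exact_mod_cast hk
  have E0 : e ^ (P.card * d) * Complex.exp (l * (P.card * d * t - d * ∑ p ∈ P, p)) ≠ 0 :=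
    mul_ne_zero (pow_ne_zero _ e0) (Complex.exp_ne_zero _)
  have h1 : den σ P d (t + w) =
      e ^ (P.card * d) * Complex.exp (l * (P.card * d * t - d * ∑ p ∈ P, p)) * den σ P d t := by
    simp only [den, hs, mul_pow, Finset.prod_mul_distrib, Finset.prod_const, ← Complex.exp_nat_mul,
      ← Complex.exp_sum, ← pow_mul]
    rw [mul_comm d P.card]
    congr 3
    rw [← Finset.mul_sum, ← Finset.mul_sum, Finset.sum_sub_distrib, Finset.sum_const, nsmul_eq_mul]
    ring
  have h2 : σ (t + w - c) ^ k * num σ m (d * ∑ p ∈ P, p - k * c) (t + w) =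
      e ^ (P.card * d) * Complex.exp (l * (P.card * d * t - d * ∑ p ∈ P, p)) *
        (σ (t - c) ^ k * num σ m (d * ∑ p ∈ P, p - k * c) t) := by
    have : l * (P.card * d * t - d * ∑ p ∈ P, p) =
        k * (l * (t - c)) + m * (l * t) + l * (t - (d * ∑ p ∈ P, p - k * c)) := by
      rw [← hk']
      ring
    rw [this, ← hk]
    simp only [num, hs, hσ, mul_pow, Complex.exp_add, Complex.exp_nat_mul, pow_add, pow_one]
    ring
  rw [← mul_div_assoc, ← mul_div_assoc, h1, h2, mul_div_mul_left _ _ E0]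

theorem pole (h : IsSig L σ β) {P : Finset ℂ} (d : ℕ)
    (hP : ∀ p ∈ P, ∀ p' ∈ P, p - p' ∈ L.lattice → p = p') {p : ℂ} (hp : p ∈ P) :
    ∃ b, AnalyticAt ℂ b p ∧ ∀ t, t ≠ p → (t - p) ^ d / den σ P d t = b t := by
  classical
  have hv : Differentiable ℂ (dslope σ 0) := differentiableOn_univ.1
    ((Complex.differentiableOn_dslope univ_mem).2 h.diff.differentiableOn)
  have h0 : σ 0 = 0 := (h.zero 0).2 (zero_mem _)
  have e : ∀ z, σ z = z * dslope σ 0 z := fun z => by
    have := sub_smul_dslope σ 0 z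
    rw [sub_zero, h0, sub_zero, smul_eq_mul] at this
    exact this.symm
  refine ⟨fun t => (dslope σ 0 (t - p) ^ d * den σ (P.erase p) d t)⁻¹, AnalyticAt.inv
    ((((hv.comp (differentiable_id.sub_const p)).analyticAt p).pow d).mul (an_den h _ d p)) ?_,
    fun t ht => ?_⟩
  · refine mul_ne_zero (pow_ne_zero _ ?_) (den_ne h d fun q hq hm => ?_)
    · rw [sub_self, dslope_same]
      exact h.simple 0 (zero_mem _)
    · exact (Finset.mem_erase.1 hq).1 (hP p hp q (Finset.mem_of_mem_erase hq) hm).symm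
  · have : den σ P d t = (t - p) ^ d * (dslope σ 0 (t - p) ^ d * den σ (P.erase p) d t) := by
      rw [den, ← Finset.mul_prod_erase P _ hp, e (t - p), mul_pow, mul_assoc]
      rfl
    rw [this, div_mul_cancel_left₀ (pow_ne_zero _ (sub_ne_zero.2 ht))]

end EllSpP

open EllSpP in
theorem sEllSp (h : SSig) : SEllSp := by
  intro L P d hP
  obtain ⟨σ, β, hσ⟩ := h L
  obtain ⟨c, c1, c2, c3⟩ := generic L P (d * ∑ p ∈ P, p)
  let u : Fin (P.card * d) → ℂ → ℂ := fun i t =>
    num σ (P.card * d - 1 - i) (d * ∑ p ∈ P, p - (i : ℕ) * c) t / den σ P d t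
  refine ⟨fun i t => σ (t - c) ^ (i : ℕ) * u i t, fun i => ⟨fun t => ?_, fun w hw t => ?_,
    fun t ht => ?_, fun p hp => ?_⟩, fun a ha => ?_⟩
  · exact ((an_sub hσ c t).pow _).meromorphicAt.mul
      ((an_num hσ _ _ t).meromorphicAt.div (an_den hσ P d t).meromorphicAt)
  · exact periodic hσ P d i _ c (by have := i.2; omega) hw t
  · exact ((an_sub hσ c t).pow _).mul ((an_num hσ _ _ t).div (an_den hσ P d t) (den_ne hσ d ht))
  · obtain ⟨b, hb, hb'⟩ := pole hσ d hP hp
    refine ⟨fun t => σ (t - c) ^ (i : ℕ) * (num σ (P.card * d - 1 - i)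
      (d * ∑ p ∈ P, p - (i : ℕ) * c) t * b t),
      ((an_sub hσ c p).pow _).mul ((an_num hσ _ _ p).mul hb), ?_⟩
    filter_upwards [self_mem_nhdsWithin] with t ht
    rw [← hb' t ht]
    simp only [u]
    ring
  · refine indep (F := 𝓝[≠] c) (φ := fun t => σ (t - c)) (a := fun i => u i c) ?_ ?_
      (fun i => ?_) (fun i => ?_) (Full.cd_iff.1 ha c)
    · have := (an_sub hσ c c).continuousAt.tendsto
      rw [sub_self, (hσ.zero 0).2 (zero_mem _)] at this
      exact this.mono_left nhdsWithin_le_nhds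
    · refine ((an_sub hσ c c).eventually_eq_zero_or_eventually_ne_zero).resolve_left fun h0 => ?_
      have h1 := EventuallyEq.deriv_eq (f₁ := fun t => σ (t - c)) (f := fun _ => 0) h0
      rw [deriv_comp_sub_const, sub_self, deriv_const] at h1
      exact hσ.simple 0 (zero_mem _) h1
    · exact ((an_num hσ _ _ c).div (an_den hσ P d c)
        (den_ne hσ d c2)).continuousAt.tendsto.mono_left nhdsWithin_le_nhds
    · exact div_ne_zero (mul_ne_zero (pow_ne_zero _ fun h0 => c1 ((hσ.zero _).1 h0))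
        fun h0 => c3 i ((hσ.zero _).1 h0)) (den_ne hσ d c2)

end Pool.Agent.P.MP_7ede32_ag.Hod
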