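import Pool.Agent.P.MP_7ede32_ag.Hod.StB

/-!
Extension of locally bounded quotients in two variables.
-/

open Set Filter Topology Metric Asymptotics

namespace Pool.Agent.P.MP_7ede32_ag.Hod

open Ell (E2)

namespace Ext2P

/-- a germ that is not zero is not zero on some line through the origin -/
theorem exists_line {b : E2 → ℂ} (hb : AnalyticAt ℂ b 0) (hn : ¬ ∀ᶠ y in 𝓝 (0 : E2), b y = 0) :
    ∃ w : E2, w ≠ 0 ∧ ¬ ∀ᶠ t in 𝓝 (0 : ℂ), b (t • w) = 0 := by
  by_contra hc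
  push Not at hc
  obtain ⟨r, hr, hB⟩ := Metric.eventually_nhds_iff_ball.1 hb.eventually_analyticAt
  apply hn
  filter_upwards [ball_mem_nhds (0 : E2) hr] with w hw
  by_cases hw0 : w = 0
  · have h1 : ((1, 0) : E2) ≠ 0 := by simp
    simpa [hw0] using (hc _ h1).self_of_nhds
  have hsc : Convex ℝ ((fun t : ℂ => t • w) ⁻¹' ball 0 r) :=
    (convex_ball (0 : E2) r).is_linear_preimage
      ((ContinuousLinearMap.toSpanSingleton ℂ w).restrictScalars ℝ).toLinearMap.isLinear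
  have han : AnalyticOnNhd ℂ (fun t : ℂ => b (t • w)) ((fun t : ℂ => t • w) ⁻¹' ball 0 r) :=
    fun t ht => (hB _ ht).comp (f := fun t : ℂ => t • w) (by fun_prop)
  have h0 : (0 : ℂ) ∈ (fun t : ℂ => t • w) ⁻¹' ball 0 r := by simpa using hr
  have h1 : (1 : ℂ) ∈ (fun t : ℂ => t • w) ⁻¹' ball 0 r := by simpa using hw
  simpa using han.eqOn_zero_of_preconnected_of_eventuallyEq_zero hsc.isPreconnected h0
    (hc w hw0) h1

/-- a linear change of coordinates that maps the vertical axis to a given line -/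
theorem exists_equiv {w : E2} (hw : w ≠ 0) : ∃ T : E2 ≃L[ℂ] E2, ∀ v : ℂ, T (0, v) = v • w := by
  have h1 : ((0, 1) : E2) ≠ 0 := by simp
  obtain ⟨T, hT⟩ := SeparatingDual.exists_continuousLinearEquiv_apply_eq (R := ℂ) h1 hw
  refine ⟨T, fun v => ?_⟩
  have : ((0, v) : E2) = v • ((0, 1) : E2) := by simp
  rw [this, map_smul, hT]

theorem exists_coord {b : E2 → ℂ} (hb : AnalyticAt ℂ b 0) (hn : ¬ ∀ᶠ y in 𝓝 (0 : E2), b y = 0) :
    ∃ T : E2 ≃L[ℂ] E2, ¬ ∀ᶠ v in 𝓝 (0 : ℂ), b (T (0, v)) = 0 := by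
  obtain ⟨w, hw, h⟩ := exists_line hb hn
  obtain ⟨T, hT⟩ := exists_equiv hw
  exact ⟨T, by simpa only [hT] using h⟩

theorem an_comp {f : E2 → ℂ} (hf : AnalyticAt ℂ f 0) (T : E2 ≃L[ℂ] E2) :
    AnalyticAt ℂ (fun y => f (T y)) 0 :=
  AnalyticAt.comp_of_eq (g := f) (f := fun y => T y) hf (T.analyticAt 0) (map_zero T)

theorem tendsto_zero (T : E2 ≃L[ℂ] E2) : Tendsto T (𝓝 0) (𝓝 0) := by
  simpa using T.continuous.tendsto 0

theorem tendsto_slice (T : E2 ≃L[ℂ] E2) (y : E2) :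
    Tendsto (fun v => T (y.1, v)) (𝓝 y.2) (𝓝 (T y)) :=
  (show Continuous fun v => T (y.1, v) by fun_prop).tendsto y.2

theorem an_slice {f : E2 → ℂ} {y : E2} (hf : AnalyticAt ℂ f y) :
    AnalyticAt ℂ (fun v => f (y.1, v)) y.2 :=
  AnalyticAt.comp_of_eq (g := f) (f := fun v : ℂ => (y.1, v)) hf (by fun_prop) rfl

theorem an_dw {f : E2 → ℂ} {y : E2} (hf : AnalyticAt ℂ f y) : AnalyticAt ℂ (dw f) y :=
  ((ContinuousLinearMap.apply ℂ ℂ ((0, 1) : E2)).analyticAt _).comp hf.fderiv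

theorem deriv_slice {f : E2 → ℂ} {y : E2} (hf : AnalyticAt ℂ f y) :
    deriv (fun v => f (y.1, v)) y.2 = dw f y := by
  have h1 : HasDerivAt (fun v : ℂ => (y.1, v)) ((0, 1) : E2) y.2 :=
    (hasDerivAt_const _ _).prodMk (hasDerivAt_id _)
  exact (hf.differentiableAt.hasFDerivAt.comp_hasDerivAt_of_eq y.2 h1 rfl).deriv

theorem iter_slice (n : ℕ) {f : E2 → ℂ} {y : E2} (hf : AnalyticAt ℂ f y) :
    AnalyticAt ℂ (dw^[n] f) y ∧ iteratedDeriv n (fun v => f (y.1, v)) y.2 = dw^[n] f y := by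
  induction n generalizing f with
  | zero => exact ⟨hf, by simp⟩
  | succ n ih =>
    obtain ⟨h1, h2⟩ := ih (an_dw hf)
    refine ⟨h1, ?_⟩
    rw [iteratedDeriv_succ', Function.iterate_succ_apply, ← h2]
    apply Filter.EventuallyEq.iteratedDeriv_eq
    have hc : Tendsto (fun v : ℂ => (y.1, v)) (𝓝 y.2) (𝓝 y) :=
      (show Continuous fun v : ℂ => (y.1, v) by fun_prop).tendsto y.2
    filter_upwards [hc.eventually hf.eventually_analyticAt] with v hv
    exact deriv_slice hv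

/-- one variable: a function of order at most `n` dominates `l ^ n` if `l` vanishes -/
theorem quot_bdd {l a g : ℂ → ℂ} {z : ℂ} {n : ℕ} (hl : AnalyticAt ℂ l z) (ha : AnalyticAt ℂ a z)
    (hg : AnalyticAt ℂ g z) (h0 : l z = 0) (hn : iteratedDeriv n g z ≠ 0) :
    (fun v => l v ^ n * a v) =O[𝓝 z] g := by
  have hlt : ¬ ((n + 1 : ℕ) : ℕ∞) ≤ analyticOrderAt g z := fun h =>
    hn ((natCast_le_analyticOrderAt_iff_iteratedDeriv_eq_zero hg).1 h n (Nat.lt_succ_self n))
  have hne : analyticOrderAt g z ≠ ⊤ := fun h => hlt (h ▸ le_top)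
  obtain ⟨j, hj⟩ := ENat.ne_top_iff_exists.1 hne
  have hjn : j ≤ n := by
    rw [← hj, Nat.cast_le] at hlt
    omega
  obtain ⟨U, hU, hU0, hgU⟩ := hg.analyticOrderAt_eq_natCast.1 hj.symm
  have e1 : l =O[𝓝 z] fun v => v - z := by
    simpa [h0] using hl.differentiableAt.isBigO_sub
  have e2 : a =O[𝓝 z] fun _ => (1 : ℂ) := ha.continuousAt.tendsto.isBigO_one ℂ
  have e3 : (fun v => (v - z) ^ (n - j) * (U v)⁻¹) =O[𝓝 z] fun _ => (1 : ℂ) := by
    have : ContinuousAt (fun v => (v - z) ^ (n - j) * (U v)⁻¹) z :=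
      (by fun_prop : ContinuousAt (fun v : ℂ => (v - z) ^ (n - j)) z).mul
        (hU.continuousAt.inv₀ hU0)
    exact this.tendsto.isBigO_one ℂ
  have e4 : (fun v => (v - z) ^ n * 1) =ᶠ[𝓝 z] fun v => ((v - z) ^ (n - j) * (U v)⁻¹) * g v := by
    filter_upwards [hgU, hU.continuousAt.eventually_ne hU0] with v h1 h2
    rw [h1, smul_eq_mul, ← Nat.sub_add_cancel hjn, pow_add, Nat.add_sub_cancel]
    field_simp
  refine ((e1.pow n).mul e2).trans (e4.trans_isBigO ?_)
  simpa using e3.mul (isBigO_refl g (𝓝 z))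

end Ext2P

open Ext2P

theorem sExt2 (h : SExtC) : SExt2 := by
  intro a b N ha hb hn hN hq
  obtain ⟨T, hT⟩ := exists_coord hb hn
  obtain ⟨c, hc, he⟩ := h (fun y => a (T y)) (fun y => b (T y)) (Prod.fst '' (T.symm '' N))
    (an_comp ha T) (an_comp hb T) hT ((hN.image _).image _) (by
      filter_upwards [(tendsto_zero T).eventually hq] with y hy hyN
      obtain ⟨c, hc⟩ := hy fun hm => hyN ⟨y, ⟨T y, hm, T.symm_apply_apply y⟩, rfl⟩
      exact ⟨c, ((tendsto_slice T y).eventually hc).filter_mono nhdsWithin_le_nhds⟩)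
  refine ⟨fun y => c (T.symm y), an_comp hc T.symm, ?_⟩
  filter_upwards [(tendsto_zero T.symm).eventually he] with y hy
  simpa using hy

theorem sVert (h : SExtC) : SVert := by
  intro l a b hl ha hb _ hn hq
  obtain ⟨T, hT⟩ := exists_coord hb hn
  have hb' := an_comp hb T
  obtain ⟨n, hn0⟩ : ∃ n, iteratedDeriv n (fun v : ℂ => b (T (0, v))) 0 ≠ 0 := by
    by_contra hc
    push Not at hc
    apply hT
    have hs : AnalyticAt ℂ (fun v : ℂ => b (T (0, v))) 0 := an_slice hb'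
    rw [← analyticOrderAt_eq_top, ENat.eq_top_iff_forall_ge]
    exact fun m => (natCast_le_analyticOrderAt_iff_iteratedDeriv_eq_zero hs).2 fun i _ => hc i
  obtain ⟨h1, h2⟩ := iter_slice n hb'
  have hn1 : dw^[n] (fun y => b (T y)) 0 ≠ 0 := h2 ▸ hn0
  obtain ⟨c, hc, he⟩ := h (fun y => l (T y) ^ n * a (T y)) (fun y => b (T y)) ∅
    (((an_comp hl T).pow n).mul (an_comp ha T)) hb' hT countable_empty (by
      filter_upwards [(tendsto_zero T).eventually hq, h1.continuousAt.eventually_ne hn1,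
        (an_comp hl T).eventually_analyticAt, (an_comp ha T).eventually_analyticAt,
        hb'.eventually_analyticAt] with y hy hy1 hyl hya hyb _
      have key : (fun v => l (T (y.1, v)) ^ n * a (T (y.1, v))) =O[𝓝 y.2]
          fun v => b (T (y.1, v)) := by
        by_cases h0 : l (T y) = 0
        · refine quot_bdd (an_slice hyl) (an_slice hya) (an_slice hyb) h0 ?_
          rw [(iter_slice n hyb).2]
          exact hy1
        · obtain ⟨c, hc⟩ := hy h0
          have e1 : (fun v => a (T (y.1, v))) =O[𝓝 y.2] fun v => b (T (y.1, v)) :=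
            IsBigO.of_bound c ((tendsto_slice T y).eventually hc)
          have e2 : (fun v => l (T (y.1, v)) ^ n) =O[𝓝 y.2] fun _ => (1 : ℂ) :=
            ((an_slice hyl).continuousAt.pow n).tendsto.isBigO_one ℂ
          simpa using e2.mul e1
      obtain ⟨c, hc⟩ := key.bound
      exact ⟨c, hc.filter_mono nhdsWithin_le_nhds⟩)
  refine ⟨n, fun y => c (T.symm y), an_comp hc T.symm, ?_⟩
  filter_upwards [(tendsto_zero T.symm).eventually he] with y hy
  simpa using hy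

end Pool.Agent.P.MP_7ede32_ag.Hod
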