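import Pool.Agent.P.MP_7ede32_ag.Hod.StB
import Pool.Agent.P.MP_7ede32_ag.Full.StC
import Pool.Agent.P.MP_e711b0_an.Basic

/-!
Extension of a quotient of two analytic functions that is bounded on most vertical slices.
-/

open Set Filter Topology Metric

namespace Pool.Agent.P.MP_7ede32_ag.Hod

open Ell (E2)

namespace ExtCP

/-- removable singularity of a bounded quotient -/
theorem local_ext {A B : ℂ → ℂ} {v : ℂ} (hA : AnalyticAt ℂ A v) (hB : AnalyticAt ℂ B v)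
    (hne : ∀ᶠ x in 𝓝[≠] v, B x ≠ 0) {c : ℝ} (hc : ∀ᶠ x in 𝓝[≠] v, ‖A x‖ ≤ c * ‖B x‖) :
    ∃ G : ℂ → ℂ, AnalyticAt ℂ G v ∧ ∀ᶠ x in 𝓝[≠] v, A x / B x = G x := by
  have h1 : ∀ᶠ x in 𝓝[≠] v, DifferentiableAt ℂ (fun x => A x / B x) x ∧ ‖A x / B x‖ ≤ c := by
    filter_upwards [hne, hc, nhdsWithin_le_nhds hA.eventually_analyticAt,
      nhdsWithin_le_nhds hB.eventually_analyticAt] with x h1 h2 h3 h4
    refine ⟨h3.differentiableAt.div h4.differentiableAt h1, ?_⟩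
    rw [norm_div, div_le_iff₀ (norm_pos_iff.2 h1)]
    exact h2
  rw [eventually_nhdsWithin_iff] at h1
  set s : Set ℂ := {x | x ∈ ({v}ᶜ : Set ℂ) →
    DifferentiableAt ℂ (fun x => A x / B x) x ∧ ‖A x / B x‖ ≤ c} with hs
  have hsn : s ∈ 𝓝 v := h1
  have hd : DifferentiableOn ℂ (fun x => A x / B x) (s \ {v}) :=
    fun x hx => (hx.1 hx.2).1.differentiableWithinAt
  have hb : BddAbove (norm ∘ (fun x => A x / B x) '' (s \ {v})) := by
    refine ⟨c, ?_⟩
    rintro _ ⟨x, hx, rfl⟩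
    exact (hx.1 hx.2).2
  have h2 := Complex.differentiableOn_update_limUnder_of_bddAbove hsn hd hb
  refine ⟨_, h2.analyticAt hsn, ?_⟩
  filter_upwards [self_mem_nhdsWithin] with x hx
  rw [Function.update_of_ne hx]

/-- the extension of a quotient to an open set -/
theorem global_ext {A B : ℂ → ℂ} {U : Set ℂ} (hA : ∀ v ∈ U, AnalyticAt ℂ A v)
    (hB : ∀ v ∈ U, AnalyticAt ℂ B v) (hne : ∀ v ∈ U, ∀ᶠ x in 𝓝[≠] v, B x ≠ 0)
    (hc : ∀ v ∈ U, ∃ c : ℝ, ∀ᶠ x in 𝓝[≠] v, ‖A x‖ ≤ c * ‖B x‖) :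
    ∃ g : ℂ → ℂ, ∀ v ∈ U, AnalyticAt ℂ g v ∧ A v = g v * B v := by
  refine ⟨fun v => limUnder (𝓝[≠] v) (fun x => A x / B x), fun v hv => ?_⟩
  obtain ⟨c, hcv⟩ := hc v hv
  obtain ⟨G, hG, hq⟩ := local_ext (hA v hv) (hB v hv) (hne v hv) hcv
  have key : ∀ w, AnalyticAt ℂ G w → (∀ᶠ x in 𝓝[≠] w, A x / B x = G x) →
      limUnder (𝓝[≠] w) (fun x => A x / B x) = G w := by
    intro w hw h
    have h1 : Tendsto G (𝓝[≠] w) (𝓝 (G w)) := hw.continuousAt.tendsto.mono_left nhdsWithin_le_nhds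
    exact (h1.congr' (h.mono fun x hx => hx.symm)).limUnder_eq
  have h2 : ∀ᶠ w in 𝓝 v, ∀ᶠ x in 𝓝[≠] w, A x / B x = G x := by
    have h3 := eventually_nhdsWithin_iff.1 hq
    filter_upwards [h3.eventually_nhds] with w hw
    by_cases hwv : w = v
    · rw [hwv]; exact hq
    · have h4 : ∀ᶠ x in 𝓝 w, x ≠ v := isOpen_ne.mem_nhds hwv
      filter_upwards [nhdsWithin_le_nhds hw, nhdsWithin_le_nhds h4] with x h5 h6 using h5 h6
  have h5 : (fun v => limUnder (𝓝[≠] v) (fun x => A x / B x)) =ᶠ[𝓝 v] G := by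
    filter_upwards [h2, hG.eventually_analyticAt] with w h6 h7 using key w h7 h6
  refine ⟨hG.congr h5.symm, ?_⟩
  have h5' := h5.eq_of_nhds
  simp only at h5' ⊢
  rw [h5']
  have h6 : Tendsto A (𝓝[≠] v) (𝓝 (A v)) :=
    (hA v hv).continuousAt.tendsto.mono_left nhdsWithin_le_nhds
  have h7 : Tendsto (fun x => G x * B x) (𝓝[≠] v) (𝓝 (G v * B v)) :=
    (hG.continuousAt.mul (hB v hv).continuousAt).tendsto.mono_left nhdsWithin_le_nhds
  refine tendsto_nhds_unique_of_eventuallyEq h6 h7 ?_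
  filter_upwards [hq, hne v hv] with x h8 h9
  rw [← h8, div_mul_cancel₀ _ h9]

theorem slice {a : E2 → ℂ} {u v : ℂ} (h : AnalyticAt ℂ a (u, v)) :
    AnalyticAt ℂ (fun x => a (u, x)) v :=
  AnalyticAt.comp (g := a) (f := fun x => ((u, x) : E2)) h (analyticAt_const.prod analyticAt_id)

end ExtCP

open ExtCP in
theorem sExtC (h : Full.SOsg) : SExtC := by
  intro a b N ha hb hb0 hN hH
  obtain ⟨ε, hε, hball⟩ := Metric.eventually_nhds_iff_ball.1
    (ha.eventually_analyticAt.and (hb.eventually_analyticAt.and hH))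
  have hmem : ∀ u v : ℂ, ‖u‖ < ε → ‖v‖ < ε → ((u, v) : E2) ∈ ball (0 : E2) ε := by
    intro u v hu hv
    rw [mem_ball_zero_iff, Prod.norm_def]
    exact max_lt hu hv
  have hb1 : ∀ᶠ v in 𝓝[≠] (0 : ℂ), b (0, v) ≠ 0 :=
    ((slice (u := 0) (v := 0) hb).eventually_eq_zero_or_eventually_ne_zero).resolve_left hb0
  obtain ⟨r0, hr0, hr1⟩ := Metric.eventually_nhds_iff_ball.1 (eventually_nhdsWithin_iff.1 hb1)
  set r : ℝ := min r0 ε / 2 with hr
  have hmin : 0 < min r0 ε := lt_min hr0 hε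
  have hrp : 0 < r := by positivity
  have hrr : r < r0 := by have := min_le_left r0 ε; linarith
  have hre : r < ε := by have := min_le_right r0 ε; linarith
  have htube : ∀ᶠ u in 𝓝 (0 : ℂ), ∀ ζ ∈ sphere (0 : ℂ) r, b (u, ζ) ≠ 0 := by
    refine (isCompact_sphere (0 : ℂ) r).eventually_forall_of_forall_eventually ?_
    intro ζ hζ
    have hζ' : ‖ζ‖ = r := mem_sphere_zero_iff_norm.1 hζ
    have h1 : b (0, ζ) ≠ 0 := by
      refine hr1 ζ (mem_ball_zero_iff.2 (by rw [hζ']; exact hrr)) ?_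
      intro h0
      rw [mem_singleton_iff.1 h0, norm_zero] at hζ'
      exact hrp.ne hζ'
    have h2 := (hball _ (hmem 0 ζ (by simpa using hε) (by rw [hζ']; exact hre))).2.1.continuousAt
    exact h2.eventually_ne h1
  obtain ⟨δ0, hδ0, hδ1⟩ := Metric.eventually_nhds_iff_ball.1 htube
  set O : Set E2 := {y | ‖y.1‖ < min δ0 ε ∧ ‖y.2‖ < r} with hO
  have hOo : IsOpen O :=
    IsOpen.inter (s := {y : E2 | ‖y.1‖ < min δ0 ε}) (t := {y : E2 | ‖y.2‖ < r})
      (isOpen_lt (by fun_prop) continuous_const) (isOpen_lt (by fun_prop) continuous_const)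
  have hO0 : O ∈ 𝓝 (0 : E2) := hOo.mem_nhds ⟨by simpa using ⟨hδ0, hε⟩, by simpa using hrp⟩
  set c : E2 → ℂ := fun y => (2 * Real.pi * Complex.I : ℂ)⁻¹ •
    ∮ ζ in C(0, r), (ζ - y.2)⁻¹ • (a (y.1, ζ) / b (y.1, ζ)) with hc
  have hcd : DifferentiableOn ℂ c O := by
    have h1 := MP_e711b0_an.differentiableOn_circleIntegral (Z := E2) (W := ℂ)
      (h := fun p => (p.2 - p.1.2)⁻¹ • (a (p.1.1, p.2) / b (p.1.1, p.2))) (O := O) (c := 0) (R := r)
      hOo hrp.le (by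
        intro y hy ζ hζ
        have hζ' : ‖ζ‖ = r := mem_sphere_zero_iff_norm.1 hζ
        have hm := hball _ (hmem y.1 ζ (hy.1.trans_le (min_le_right _ _)) (by rw [hζ']; exact hre))
        have hp : DifferentiableAt ℂ (fun p : E2 × ℂ => ((p.1.1, p.2) : E2)) (y, ζ) := by fun_prop
        have h2 : DifferentiableAt ℂ (fun p : E2 × ℂ => a (p.1.1, p.2)) (y, ζ) :=
          DifferentiableAt.comp (g := a) (y, ζ) hm.1.differentiableAt hp
        have h3 : DifferentiableAt ℂ (fun p : E2 × ℂ => b (p.1.1, p.2)) (y, ζ) :=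
          DifferentiableAt.comp (g := b) (y, ζ) hm.2.1.differentiableAt hp
        have h4 : b (y.1, ζ) ≠ 0 :=
          hδ1 y.1 (mem_ball_zero_iff.2 (hy.1.trans_le (min_le_left _ _))) ζ hζ
        have h5 : ζ - y.2 ≠ 0 := by
          intro h0
          have h6 := hy.2
          rw [← sub_eq_zero.1 h0, hζ'] at h6
          exact lt_irrefl _ h6
        have h6 : DifferentiableAt ℂ (fun p : E2 × ℂ => p.2 - p.1.2) (y, ζ) := by fun_prop
        have h7 := (h6.inv h5).mul (h2.mul (h3.inv h4))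
        simp only [smul_eq_mul, div_eq_mul_inv]
        exact h7)
    exact h1.const_smul (2 * Real.pi * Complex.I : ℂ)⁻¹
  have hgood : ∀ y ∈ O, y.1 ∉ N → a y = c y * b y := by
    rintro ⟨u, v⟩ hy hu
    have hue : ‖u‖ < ε := hy.1.trans_le (min_le_right _ _)
    have hm : ∀ x ∈ ball (0 : ℂ) ε, _ := fun x hx => hball _ (hmem u x hue (mem_ball_zero_iff.1 hx))
    have hsp : ∀ ζ ∈ sphere (0 : ℂ) r, b (u, ζ) ≠ 0 :=
      hδ1 u (mem_ball_zero_iff.2 (hy.1.trans_le (min_le_left _ _)))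
    have hB : AnalyticOnNhd ℂ (fun x => b (u, x)) (ball 0 ε) := fun x hx => slice (hm x hx).2.1
    have hne : ∀ x ∈ ball (0 : ℂ) ε, ∀ᶠ t in 𝓝[≠] x, b (u, t) ≠ 0 := by
      intro x hx
      refine (hB x hx).eventually_eq_zero_or_eventually_ne_zero.resolve_left fun h0 => ?_
      have h1 := hB.eqOn_zero_of_preconnected_of_eventuallyEq_zero (convex_ball _ _).isPreconnected
        hx h0
      have h2 : ((r : ℂ)) ∈ sphere (0 : ℂ) r := by simp [abs_of_pos hrp]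
      exact hsp _ h2 (h1 (sphere_subset_ball hre h2))
    obtain ⟨g, hg⟩ := global_ext (U := ball 0 ε) (fun x hx => slice (hm x hx).1) hB hne
      (fun x hx => (hm x hx).2.2 hu)
    have hsub : closedBall (0 : ℂ) r ⊆ ball 0 ε := closedBall_subset_ball hre
    have hgd : DifferentiableOn ℂ g (closedBall 0 r) :=
      fun x hx => (hg x (hsub hx)).1.differentiableAt.differentiableWithinAt
    have hv : v ∈ ball (0 : ℂ) r := mem_ball_zero_iff.2 hy.2
    have h1 := hgd.circleIntegral_sub_inv_smul hv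
    have h2 : (∮ ζ in C(0, r), (ζ - v)⁻¹ • (a (u, ζ) / b (u, ζ))) =
        ∮ ζ in C(0, r), (ζ - v)⁻¹ • g ζ := by
      refine circleIntegral.integral_congr hrp.le fun ζ hζ => ?_
      have h3 := (hg ζ (hsub (sphere_subset_closedBall hζ))).2
      have h4 : a (u, ζ) / b (u, ζ) = g ζ := by rw [h3, mul_div_cancel_right₀ _ (hsp ζ hζ)]
      simp only [h4]
    have h4 : c (u, v) = g v := by
      simp only [hc]
      rw [h2, h1, inv_smul_smul₀ Complex.two_pi_I_ne_zero]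
    rw [h4]
    exact (hg v (hsub (ball_subset_closedBall hv))).2
  have hca : ∀ y ∈ O, DifferentiableAt ℂ c y := fun y hy => hcd.differentiableAt (hOo.mem_nhds hy)
  refine ⟨c, h c 0 (by filter_upwards [hO0] with y hy using hca y hy), ?_⟩
  filter_upwards [hO0] with y hy
  have hm := hball _ (hmem y.1 y.2 (hy.1.trans_le (min_le_right _ _)) (hy.2.trans hre))
  have hp : Tendsto (fun u : ℂ => ((u, y.2) : E2)) (𝓝 y.1) (𝓝 y) :=
    (by fun_prop : Continuous fun u : ℂ => ((u, y.2) : E2)).tendsto' y.1 y rfl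
  have h1 : Tendsto (fun u : ℂ => a (u, y.2)) (𝓝 y.1) (𝓝 (a y)) := hm.1.continuousAt.tendsto.comp hp
  have h2 : Tendsto (fun u : ℂ => c (u, y.2) * b (u, y.2)) (𝓝 y.1) (𝓝 (c y * b y)) :=
    ((hca y hy).continuousAt.mul hm.2.1.continuousAt).tendsto.comp hp
  refine tendsto_nhds_unique_of_frequently_eq h1 h2 ?_
  have h3 : ∃ᶠ u in 𝓝 y.1, u ∈ Nᶜ := mem_closure_iff_frequently.1 (hN.dense_compl ℂ y.1)
  refine (h3.and_eventually (hp.eventually (hOo.mem_nhds hy))).mono fun u hu => ?_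
  exact hgood _ hu.2 hu.1

end Pool.Agent.P.MP_7ede32_ag.Hod
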