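import Pool.Agent.P.MP_7ede32_ag.Hod.StB

/-!
If the degree is not positive, the metric is flat.
-/

open Set Filter Topology Matrix ComplexConjugate Metric MeasureTheory
open scoped ComplexOrder

noncomputable section

namespace Pool.Agent.P.MP_7ede32_ag.Hod

namespace Flat1P

variable {L : PeriodPair} {σ : ℂ → ℂ} {β : ℝ} {g : ℕ}

/-- the periodic absolute value of the sigma function -/
def tau (σ : ℂ → ℂ) (β : ℝ) (u : ℂ) : ℝ := ‖σ u‖ * Real.exp (-(β * ‖u‖ ^ 2))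

theorem norm_add_sq' (u w : ℂ) : ‖u + w‖ ^ 2 = ‖u‖ ^ 2 + 2 * (conj w * u).re + ‖w‖ ^ 2 := by
  simp only [Complex.sq_norm, Complex.normSq_apply, Complex.add_re, Complex.add_im,
    Complex.mul_re, Complex.conj_re, Complex.conj_im]
  ring

theorem tau_nonneg (u : ℂ) : 0 ≤ tau σ β u := mul_nonneg (norm_nonneg _) (Real.exp_pos _).le

theorem tau_pos (hσ : IsSig L σ β) {u : ℂ} (hu : u ∉ L.lattice) : 0 < tau σ β u :=
  mul_pos (norm_pos_iff.2 fun h => hu ((hσ.zero u).1 h)) (Real.exp_pos _)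

theorem tau_cont (hσ : IsSig L σ β) : Continuous (tau σ β) := by
  have := hσ.diff.continuous
  unfold tau
  fun_prop

theorem tau_per (hσ : IsSig L σ β) {w : ℂ} (hw : w ∈ L.lattice) (u : ℂ) :
    tau σ β (u + w) = tau σ β u := by
  obtain ⟨c, hc, h⟩ := hσ.per w hw
  have h1 : (2 * (β : ℂ) * conj w * u).re = 2 * β * (conj w * u).re := by
    rw [mul_assoc, show (2 * (β : ℂ)) = ((2 * β : ℝ) : ℂ) by push_cast; ring, Complex.re_ofReal_mul]
  rw [tau, tau, h, norm_mul, norm_mul, hc, Complex.norm_exp, h1, norm_add_sq', mul_comm _ ‖σ u‖,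
    mul_assoc, ← Real.exp_add, ← Real.exp_add]
  congr 2
  ring

/-- the holomorphic part of the quotient of two values of `tau` -/
def psi (σ : ℂ → ℂ) (β : ℝ) (a : ℂ) (v : ℂ) : ℂ :=
  σ (v + a) / σ a * Complex.exp (-(2 * β * (conj a * v)))

theorem tau_eq (hσ : IsSig L σ β) {a : ℂ} (ha : a ∉ L.lattice) (v : ℂ) :
    tau σ β (v + a) = tau σ β a * ‖psi σ β a v‖ * Real.exp (-(β * ‖v‖ ^ 2)) := by
  have h0 : ‖σ a‖ ≠ 0 := norm_ne_zero_iff.2 fun h => ha ((hσ.zero a).1 h)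
  have h1 : (-(2 * (β : ℂ) * (conj a * v))).re = -(2 * β * (conj a * v).re) := by
    rw [Complex.neg_re, show (2 * (β : ℂ)) = ((2 * β : ℝ) : ℂ) by push_cast; ring,
      Complex.re_ofReal_mul]
  have h2 : Real.exp (-(β * (‖v‖ ^ 2 + 2 * (conj a * v).re + ‖a‖ ^ 2))) =
      Real.exp (-(β * ‖a‖ ^ 2)) * Real.exp (-(2 * β * (conj a * v).re)) *
        Real.exp (-(β * ‖v‖ ^ 2)) := by
    rw [← Real.exp_add, ← Real.exp_add]
    congr 1
    ring
  rw [tau, tau, psi, norm_mul, norm_div, Complex.norm_exp, h1, norm_add_sq', h2]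
  field_simp

/-- the weight -/
def wt (σ : ℂ → ℂ) (β : ℝ) (S : ZS L g) (t : ℂ) : ℝ := ∏ z ∈ S.Z, tau σ β (t - z) ^ (-2 * S.m z)

variable {S : ZS L g}

theorem wt_nonneg (t : ℂ) : 0 ≤ wt σ β S t :=
  Finset.prod_nonneg fun _ _ => zpow_nonneg (tau_nonneg _) _

theorem wt_pos (hσ : IsSig L σ β) {t : ℂ} (ht : S.Off t) : 0 < wt σ β S t :=
  Finset.prod_pos fun z hz => zpow_pos (tau_pos hσ (ht z hz)) _

theorem wt_per (hσ : IsSig L σ β) {w : ℂ} (hw : w ∈ L.lattice) (t : ℂ) :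
    wt σ β S (t + w) = wt σ β S t :=
  Finset.prod_congr rfl fun z _ => by rw [add_sub_right_comm, tau_per hσ hw]

theorem cont_fac (hσ : IsSig L σ β) {t z : ℂ} (h : t - z ∉ L.lattice) (n : ℤ) :
    ContinuousAt (fun s => tau σ β (s - z) ^ n) t :=
  ((tau_cont hσ).comp (continuous_id.sub continuous_const)).continuousAt.zpow₀ n
    (Or.inl (tau_pos hσ h).ne')

theorem wt_cont (hσ : IsSig L σ β) {t : ℂ} (ht : S.Off t) : ContinuousAt (wt σ β S) t :=
  tendsto_finsetProd _ fun z hz => cont_fac hσ (ht z hz) _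

theorem off_nhds (hσ : IsSig L σ β) {t : ℂ} (ht : S.Off t) : ∀ᶠ s in 𝓝 t, S.Off s := by
  refine (eventually_all_finset _).2 fun z hz => ?_
  have h1 : ContinuousAt (fun s => σ (s - z)) t :=
    (hσ.diff.continuous.comp (continuous_id.sub continuous_const)).continuousAt
  filter_upwards [h1.eventually_ne fun h => ht z hz ((hσ.zero _).1 h)] with s hs h
  exact hs ((hσ.zero _).2 h)

theorem off_near (hσ : IsSig L σ β) (t : ℂ) : ∀ᶠ s in 𝓝[≠] t, S.Off s := by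
  refine (eventually_all_finset _).2 fun z _ => ?_
  by_cases ht : t - z ∈ L.lattice
  · have h1 : HasDerivAt (fun s => σ (s - z)) (deriv σ (t - z)) t :=
      (hσ.diff (t - z)).hasDerivAt.comp_sub_const t z
    filter_upwards [h1.eventually_ne (c := 0) (hσ.simple _ ht)] with s hs h
    exact hs ((hσ.zero _).2 h)
  · have h1 : ContinuousAt (fun s => σ (s - z)) t :=
      (hσ.diff.continuous.comp (continuous_id.sub continuous_const)).continuousAt
    filter_upwards [(h1.eventually_ne fun h => ht ((hσ.zero _).1 h)).filter_mono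
      nhdsWithin_le_nhds] with s hs h
    exact hs ((hσ.zero _).2 h)

/-- a holomorphic barrier for the weight -/
theorem wt_bar (hσ : IsSig L σ β) (hm : 0 ≤ ∑ z ∈ S.Z, S.m z) {t : ℂ} (ht : S.Off t) :
    ∃ φ : ℂ → ℂ, AnalyticAt ℂ φ t ∧ φ t = 1 ∧ ∀ s, wt σ β S t * ‖φ s‖ ≤ wt σ β S s := by
  have h1 : ∀ z ∈ S.Z, psi σ β (t - z) (t - t) = 1 := fun z hz => by
    have h0 : σ (t - z) ≠ 0 := fun h => ht z hz ((hσ.zero _).1 h)
    simp [psi, h0]
  refine ⟨fun s => ∏ z ∈ S.Z, psi σ β (t - z) (s - t) ^ (-2 * S.m z), ?_, ?_, fun s => ?_⟩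
  · refine Finset.analyticAt_fun_prod _ fun z hz => ?_
    refine AnalyticAt.fun_zpow ?_ (by rw [h1 z hz]; exact one_ne_zero)
    have h2 : Differentiable ℂ fun s => psi σ β (t - z) (s - t) := by
      have := hσ.diff
      unfold psi
      fun_prop
    exact h2.analyticAt t
  · exact Finset.prod_eq_one fun z hz => by rw [h1 z hz, _root_.one_zpow]
  · have h2 : wt σ β S s = wt σ β S t * ‖∏ z ∈ S.Z, psi σ β (t - z) (s - t) ^ (-2 * S.m z)‖ *
        ∏ z ∈ S.Z, Real.exp (-(β * ‖s - t‖ ^ 2)) ^ (-2 * S.m z) := by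
      rw [wt, wt, norm_prod, ← Finset.prod_mul_distrib, ← Finset.prod_mul_distrib]
      refine Finset.prod_congr rfl fun z hz => ?_
      rw [show s - z = (s - t) + (t - z) by ring, tau_eq hσ (ht z hz), mul_zpow, mul_zpow,
        norm_zpow]
    have h3 : 1 ≤ ∏ z ∈ S.Z, Real.exp (-(β * ‖s - t‖ ^ 2)) ^ (-2 * S.m z) := by
      have h4 : ∀ z ∈ S.Z, Real.exp (-(β * ‖s - t‖ ^ 2)) ^ (-2 * S.m z) =
          Real.exp (2 * β * ‖s - t‖ ^ 2 * S.m z) := fun z _ => by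
        rw [← Real.rpow_intCast, ← Real.exp_mul]
        congr 1
        push_cast
        ring
      rw [Finset.prod_congr rfl h4, ← Real.exp_sum, ← Finset.mul_sum]
      refine Real.one_le_exp (mul_nonneg ?_ ?_)
      · have := hσ.pos
        positivity
      · exact_mod_cast hm
    rw [h2]
    exact le_mul_of_one_le_right (mul_nonneg (wt_nonneg _) (norm_nonneg _)) h3

/-- the weight compensates the order of the frame -/
theorem wt_lim (hσ : IsSig L σ β) {z : ℂ} (hz : z ∈ S.Z) : ∃ K : ℝ,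
    Tendsto (fun t => ‖(S.G z t).det‖ ^ 2 * wt σ β S t) (𝓝[≠] z) (𝓝 K) := by
  classical
  have hmer : MeromorphicAt (fun t => (S.G z t).det) z := by
    simp only [Matrix.det_apply, Units.smul_def, zsmul_eq_mul]
    exact MeromorphicAt.fun_sum fun τ _ => (MeromorphicAt.const _ _).fun_mul
      (MeromorphicAt.fun_prod fun i _ => S.mer z hz _ _)
  obtain ⟨u, hu, -, h⟩ := (meromorphicOrderAt_eq_int_iff hmer).1 (S.ord z hz)
  have h0 : (0 : ℂ) ∈ L.lattice := L.lattice.zero_mem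
  have h1 : HasDerivAt (fun s => σ (s - z)) (deriv σ 0) z := by
    have h2 := (hσ.diff (z - z)).hasDerivAt.comp_sub_const z z
    rwa [sub_self] at h2
  have h2 : Tendsto (fun t => ‖σ (t - z) / (t - z)‖ * Real.exp (-(β * ‖t - z‖ ^ 2))) (𝓝[≠] z)
      (𝓝 (‖deriv σ 0‖ * Real.exp (-(β * ‖z - z‖ ^ 2)))) := by
    refine Tendsto.mul (Tendsto.norm ?_) (tendsto_nhdsWithin_of_tendsto_nhds ?_)
    · refine (hasDerivAt_iff_tendsto_slope.1 h1).congr fun t => ?_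
      rw [slope_def_field, sub_self, (hσ.zero 0).2 h0, sub_zero]
    · exact ContinuousAt.tendsto (f := fun t => Real.exp (-(β * ‖t - z‖ ^ 2))) (by fun_prop)
  have h3 := h2.zpow₀ (-2 * S.m z)
    (Or.inl (mul_pos (norm_pos_iff.2 (hσ.simple 0 h0)) (Real.exp_pos _)).ne')
  have h4 : Tendsto (fun t => ∏ z' ∈ S.Z.erase z, tau σ β (t - z') ^ (-2 * S.m z')) (𝓝[≠] z)
      (𝓝 (∏ z' ∈ S.Z.erase z, tau σ β (z - z') ^ (-2 * S.m z'))) :=
    tendsto_nhdsWithin_of_tendsto_nhds (tendsto_finsetProd _ fun z' hz' => cont_fac hσ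
      (fun h5 => Finset.ne_of_mem_erase hz' (S.sep z hz z' (Finset.mem_of_mem_erase hz') h5).symm)
      _)
  have h5 : Tendsto (fun t => ‖u t‖ ^ 2) (𝓝[≠] z) (𝓝 (‖u z‖ ^ 2)) :=
    tendsto_nhdsWithin_of_tendsto_nhds (hu.continuousAt.norm.pow 2)
  refine ⟨_, ((h5.mul h3).mul h4).congr' ?_⟩
  filter_upwards [h, self_mem_nhdsWithin] with t ht hne
  have h6 : ‖t - z‖ ≠ 0 := norm_ne_zero_iff.2 (sub_ne_zero.2 hne)
  have h7 : tau σ β (t - z) =
      ‖t - z‖ * (‖σ (t - z) / (t - z)‖ * Real.exp (-(β * ‖t - z‖ ^ 2))) := by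
    rw [tau, norm_div]
    field_simp
  have h8 : (‖t - z‖ ^ S.m z) ^ 2 * ‖t - z‖ ^ (-2 * S.m z) = 1 := by
    rw [← zpow_natCast, ← _root_.zpow_mul, ← zpow_add₀ h6]
    simp [mul_comm]
  rw [wt, ← Finset.mul_prod_erase _ _ hz, ht, smul_eq_mul, norm_mul, norm_zpow, h7,
    mul_zpow ‖t - z‖, mul_pow]
  linear_combination (-(‖u t‖ ^ 2 *
    (‖σ (t - z) / (t - z)‖ * Real.exp (-(β * ‖t - z‖ ^ 2))) ^ (-2 * S.m z) *
      ∏ z' ∈ S.Z.erase z, tau σ β (t - z') ^ (-2 * S.m z'))) * h8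

theorem norm_det_conj (A B : Matrix (Fin g) (Fin g) ℂ) :
    ‖(Aᴴ * B⁻¹ * A).det‖ = ‖A.det‖ ^ 2 * ‖B.det‖⁻¹ := by
  rw [Matrix.det_mul, Matrix.det_mul, Matrix.det_conjTranspose, Matrix.det_nonsing_inv,
    Ring.inverse_eq_inv', norm_mul, norm_mul, norm_star, norm_inv]
  ring

theorem norm_det_conj' (A B : Matrix (Fin g) (Fin g) ℂ) :
    ‖(A * B * Aᴴ).det‖ = ‖A.det‖ ^ 2 * ‖B.det‖ := by
  rw [Matrix.det_mul, Matrix.det_mul, Matrix.det_conjTranspose, norm_mul, norm_mul, norm_star]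
  ring

theorem norm_det_smul {θ : ℝ} (hθ : 0 < θ) (A : Matrix (Fin g) (Fin g) ℂ) :
    ‖((θ : ℂ) • A).det‖ = θ ^ g * ‖A.det‖ := by
  rw [Matrix.det_smul, norm_mul, norm_pow, Complex.norm_real, Real.norm_of_nonneg hθ.le,
    Fintype.card_fin]

theorem posDef_smul {θ : ℝ} (hθ : 0 < θ) {A : Matrix (Fin g) (Fin g) ℂ} (hA : A.PosDef) :
    ((θ : ℂ) • A).PosDef := hA.smul (Complex.zero_lt_real.2 hθ)

theorem det_pos {A : Matrix (Fin g) (Fin g) ℂ} (hA : A.PosDef) : 0 < ‖A.det‖ :=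
  norm_pos_iff.2 hA.det_pos.ne'

theorem an_det {Γ : MF g} {t : ℂ} (h : AnM Γ t) : AnalyticAt ℂ (fun s => (Γ s).det) t := by
  simp only [Matrix.det_apply, Units.smul_def, zsmul_eq_mul]
  exact Finset.analyticAt_fun_sum _ fun τ _ => analyticAt_const.fun_mul
    (Finset.analyticAt_fun_prod _ fun i _ => h _ _)

variable {h : MF g}

/-- the function to which the maximum principle is applied -/
def W (σ : ℂ → ℂ) (β : ℝ) (S : ZS L g) (h : MF g) (t : ℂ) : ℝ := ‖(h t).det‖⁻¹ * wt σ β S t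

theorem usc (h3 : SDet) (hσ : IsSig L σ β) {t : ℂ} (ht : S.Off t) (hg : Gm h t) (c : ℝ)
    (hc : W σ β S h t < c) : ∀ᶠ s in 𝓝 t, W σ β S h s < c := by
  have hd := det_pos hg.1
  have h1 : ContinuousAt (fun θ : ℝ => (θ ^ g * ‖(h t).det‖)⁻¹ * wt σ β S t) 1 :=
    (ContinuousAt.inv₀ (by fun_prop) (by simpa using hd.ne')).mul continuousAt_const
  have h2 : ∀ᶠ θ : ℝ in 𝓝[<] 1, (θ ^ g * ‖(h t).det‖)⁻¹ * wt σ β S t < c :=
    (h1.eventually_lt continuousAt_const (by simpa [W] using hc)).filter_mono nhdsWithin_le_nhds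
  obtain ⟨θ, ⟨h4, h5⟩, h6⟩ := ((h2.and ((lt_mem_nhds zero_lt_one).filter_mono
    nhdsWithin_le_nhds)).and self_mem_nhdsWithin).exists
  have h7 : ContinuousAt (fun s => (θ ^ g * ‖(h t).det‖)⁻¹ * wt σ β S s) t :=
    continuousAt_const.mul (wt_cont hσ ht)
  filter_upwards [hg.2.1 θ h6, h7.eventually_lt continuousAt_const h4] with s h8 h9
  have h10 := (h3 g _ _ (posDef_smul h5 hg.1) h8).1
  rw [norm_det_smul h5] at h10
  exact lt_of_le_of_lt (mul_le_mul_of_nonneg_right (inv_anti₀ (by positivity) h10)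
    (wt_nonneg _)) h9

/-- the barrier, with the intermediate term -/
theorem bar (hσ : IsSig L σ β) (hm : 0 ≤ ∑ z ∈ S.Z, S.m z) {t : ℂ} (ht : S.Off t)
    (hp : (h t).PosDef) {Γ : MF g} (hΓ : Bar h t Γ) : ∃ f : ℂ → ℂ, AnalyticAt ℂ f t ∧ f t = 1 ∧
      ∀ s, W σ β S h t * ‖f s‖ ≤ ‖(h t).det‖ / ‖(Γ s).det‖ ^ 2 * wt σ β S s := by
  obtain ⟨φ, h1, h2, h4⟩ := wt_bar hσ hm ht
  have hd := det_pos hp
  have h0 : (Γ t).det ≠ 0 := by rw [hΓ.2.1]; exact norm_pos_iff.1 hd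
  refine ⟨fun s => ((h t).det / (Γ s).det) ^ 2 * φ s,
    ((analyticAt_const.fun_div (an_det hΓ.1) h0).fun_pow 2).fun_mul h1, ?_, fun s => ?_⟩
  · simp only [h2, ← hΓ.2.1, div_self h0, one_pow, mul_one]
  · have h5 : W σ β S h t * ‖((h t).det / (Γ s).det) ^ 2 * φ s‖ =
        ‖(h t).det‖ / ‖(Γ s).det‖ ^ 2 * (wt σ β S t * ‖φ s‖) := by
      rw [W, norm_mul, norm_pow, norm_div, div_pow]
      field_simp
    rw [h5]
    exact mul_le_mul_of_nonneg_left (h4 s) (by positivity)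

theorem bar_le (h3 : SDet) {t : ℂ} (hp : (h t).PosDef) {Γ : MF g} (hΓ : Bar h t Γ) :
    ∀ᶠ s in 𝓝 t, 0 < ‖(Γ s).det‖ ∧
      ‖(h t).det‖ / ‖(Γ s).det‖ ^ 2 * wt σ β S s ≤ W σ β S h s := by
  have hd := det_pos hp
  filter_upwards [hΓ.2.2] with s hs
  have h1 := (h3 g _ _ hp hs).1
  rw [norm_det_conj] at h1
  have h2 : 0 < ‖(Γ s).det‖ := by
    refine (norm_nonneg _).lt_of_ne fun h0 => ?_
    rw [← h0] at h1
    simp only [ne_eq, OfNat.ofNat_ne_zero, not_false_eq_true, zero_pow, zero_mul] at h1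
    exact absurd hd (not_lt.2 h1)
  refine ⟨h2, mul_le_mul_of_nonneg_right ?_ (wt_nonneg _)⟩
  rw [div_le_iff₀ (by positivity)]
  linarith

theorem bdd (h3 : SDet) (hσ : IsSig L σ β) {z : ℂ} (hz : z ∈ S.Z) (hl : LowB h (S.G z) z) :
    ∃ c, ∀ᶠ t in 𝓝[≠] z, W σ β S h t ≤ c := by
  obtain ⟨K, hK⟩ := wt_lim hσ hz
  obtain ⟨c, hc, h1⟩ := hl
  refine ⟨(c ^ g)⁻¹ * (K + 1), ?_⟩
  filter_upwards [h1, hK.eventually (gt_mem_nhds (lt_add_one K))] with t h2 h4
  have h5 := (h3 g _ _ (posDef_smul hc Matrix.PosDef.one) h2).1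
  rw [norm_det_smul hc, norm_det_conj', Matrix.det_one, norm_one, mul_one] at h5
  have h6 : 0 < c ^ g := pow_pos hc g
  have h7 : 0 < ‖(h t).det‖ := by
    refine (norm_nonneg _).lt_of_ne fun h0 => ?_
    rw [← h0, mul_zero] at h5
    exact absurd h6 (not_lt.2 h5)
  have h8 : ‖(h t).det‖⁻¹ ≤ (c ^ g)⁻¹ * ‖(S.G z t).det‖ ^ 2 := by
    rw [inv_mul_eq_div, le_div_iff₀ h6, inv_mul_le_iff₀ h7]
    linarith
  calc W σ β S h t ≤ (c ^ g)⁻¹ * ‖(S.G z t).det‖ ^ 2 * wt σ β S t :=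
        mul_le_mul_of_nonneg_right h8 (wt_nonneg _)
    _ = (c ^ g)⁻¹ * (‖(S.G z t).det‖ ^ 2 * wt σ β S t) := mul_assoc _ _ _
    _ ≤ (c ^ g)⁻¹ * (K + 1) := mul_le_mul_of_nonneg_left h4.le (by positivity)

end Flat1P

open Flat1P in
theorem sFlat1 (h1 : SSig) (h2 : SMaxP) (h3 : SDet) : SFlat1 := by
  intro L g S h hper hg hl hm
  obtain ⟨σ, β, hσ⟩ := h1 L
  have hW : ∀ w ∈ L.lattice, ∀ t, W σ β S h (t + w) = W σ β S h t := fun w hw t => by
    rw [W, W, hper w hw, wt_per hσ hw]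
  have hpos : ∀ t, S.Off t → 0 < W σ β S h t := fun t ht =>
    mul_pos (inv_pos.2 (det_pos (hg t ht).1)) (wt_pos hσ ht)
  have hc : ∀ t, S.Off t → ∀ t', S.Off t' → W σ β S h t = W σ β S h t' := by
    intro t ht t' ht'
    refine h2 L {t | ¬S.Off t} (W σ β S h) ?_ ?_ ?_ ?_ t (not_not.2 ht) t' (not_not.2 ht')
    · exact Full.cd_iff.2 fun x => (off_near hσ x).mono fun s hs => not_not.2 hs
    · refine fun w hw s hs => ⟨not_not.2 fun z hz h4 => not_not.1 hs z hz ?_, hW w hw s⟩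
      have h5 := L.lattice.sub_mem h4 hw
      rwa [show s + w - z - w = s - z by ring] at h5
    · intro s hs
      have hs' : S.Off s := not_not.1 hs
      obtain ⟨Γ, hΓ⟩ := (hg s hs').2.2
      obtain ⟨f, h4, h5, h6⟩ := bar hσ hm hs' (hg s hs').1 hΓ
      exact ⟨hpos s hs', usc h3 hσ hs' (hg s hs'), f, h4, h5,
        (bar_le h3 (hg s hs').1 hΓ).mono fun u hu => (h6 u).trans hu.2⟩
    · intro x hx
      have hx' : ∃ z ∈ S.Z, x - z ∈ L.lattice := by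
        by_contra h4
        exact hx fun z hz h5 => h4 ⟨z, hz, h5⟩
      obtain ⟨z, hz, h4⟩ := hx'
      obtain ⟨c, h5⟩ := bdd h3 hσ hz (hl z hz)
      have h6 : Tendsto (fun s => s - (x - z)) (𝓝[≠] x) (𝓝[≠] z) := by
        refine tendsto_nhdsWithin_iff.2 ⟨tendsto_nhdsWithin_of_tendsto_nhds ?_, ?_⟩
        · exact Continuous.tendsto' (by fun_prop) _ _ (by ring)
        · filter_upwards [self_mem_nhdsWithin] with s hs h7
          exact hs (by rw [mem_singleton_iff] at h7 ⊢; linear_combination h7)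
      refine ⟨c, (h6.eventually h5).mono fun s hs => ?_⟩
      rwa [← hW _ h4, sub_add_cancel] at hs
  refine ⟨fun t ht Γ hΓ => ?_, fun z hz => ?_⟩
  · have hp := (hg t ht).1
    obtain ⟨f, h4, h5, h6⟩ := bar hσ hm ht hp hΓ
    have h7 := bar_le (σ := σ) (β := β) (S := S) h3 hp hΓ
    have h8 : IsLocalMax (norm ∘ f) t := by
      filter_upwards [h7, off_nhds hσ ht] with s hs ho
      have h9 := (h6 s).trans hs.2
      rw [hc s ho t ht] at h9
      simp only [Function.comp, h5, norm_one]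
      exact (mul_le_iff_le_one_right (hpos t ht)).1 h9
    have h9 := Complex.eventually_eq_of_isLocalMax_norm
      (h4.eventually_analyticAt.mono fun s hs => hs.differentiableAt) h8
    filter_upwards [h7, off_nhds hσ ht, h9, hΓ.2.2] with s hs ho he hpsd
    refine (h3 g _ _ hp hpsd).2 ?_
    have h10 := h6 s
    rw [he, h5, norm_one, mul_one, hc t ht s ho, W] at h10
    have h11 := le_of_mul_le_mul_right h10 (wt_pos hσ ho)
    rw [le_div_iff₀ (pow_pos hs.1 2)] at h11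
    rw [norm_det_conj]
    linarith
  · obtain ⟨K, hK⟩ := wt_lim hσ hz
    obtain ⟨t₁, ht₁⟩ := (off_near (S := S) hσ z).exists
    refine ⟨(K + 1) / W σ β S h t₁, ?_⟩
    filter_upwards [off_near hσ z, hK.eventually (gt_mem_nhds (lt_add_one K))] with t ho h4
    have h5 := det_pos (hg t ho).1
    rw [le_div_iff₀ (hpos t₁ ht₁), hc t₁ ht₁ t ho, W, mul_assoc, ← mul_assoc ‖(h t).det‖,
      mul_inv_cancel₀ h5.ne', one_mul]
    exact h4.le

end Pool.Agent.P.MP_7ede32_ag.Hod
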