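import Pool.Agent.P.MP_7ede32_ag.Hod.StB

/-!
A flat frame at a point where the metric is bounded.
-/

open Set Filter Topology Matrix ComplexConjugate Metric Asymptotics
open scoped ComplexOrder

namespace Pool.Agent.P.MP_7ede32_ag.Hod

namespace Flat2P

variable {g : ℕ} {F F' : MF g} {t : ℂ} {L L' : ℂ → Matrix (Fin g) (Fin g) ℂ}

/-- real derivative of a matrix valued function -/
def DD (F : MF g) (t : ℂ) (L : ℂ → Matrix (Fin g) (Fin g) ℂ) : Prop :=
  ∀ i j, DifferentiableAt ℝ (fun s => F s i j) t ∧ ∀ v, fderiv ℝ (fun s => F s i j) t v = L v i j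

theorem DD.mul (h : DD F t L) (h' : DD F' t L') :
    DD (fun s => F s * F' s) t fun v => L v * F' t + F t * L' v := by
  intro i j
  have a := HasFDerivAt.fun_sum (u := Finset.univ) fun k _ =>
    (h i k).1.hasFDerivAt.fun_mul (h' k j).1.hasFDerivAt
  simp only [Matrix.mul_apply, Matrix.add_apply]
  refine ⟨a.differentiableAt, fun v => ?_⟩
  rw [a.fderiv, ← Finset.sum_add_distrib, _root_.sum_apply]
  refine Finset.sum_congr rfl fun k _ => ?_
  simp only [_root_.add_apply, _root_.smul_apply, (h i k).2, (h' k j).2,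
    smul_eq_mul]
  ring

theorem DD.ct (h : DD F t L) : DD (fun s => (F s)ᴴ) t fun v => (L v)ᴴ := by
  intro i j
  have a := (Complex.conjCLE.toContinuousLinearMap.hasFDerivAt).comp t (h j i).1.hasFDerivAt
  have e : (fun s => (F s)ᴴ i j) = Complex.conjCLE.toContinuousLinearMap ∘ fun s => F s j i := rfl
  rw [e]
  refine ⟨a.differentiableAt, fun v => ?_⟩
  rw [a.fderiv]
  simp [(h j i).2]

theorem dd_an (h : AnM F t) : DD F t fun v => v • dM F t := by
  intro i j
  have a := (h i j).differentiableAt.hasDerivAt.hasFDerivAt.restrictScalars ℝ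
  refine ⟨a.differentiableAt, fun v => ?_⟩
  rw [a.fderiv]
  simp [dM]

theorem an_mul (h : AnM F t) (h' : AnM F' t) : AnM (fun s => F s * F' s) t := fun i j => by
  simp only [Matrix.mul_apply]
  exact Finset.analyticAt_fun_sum _ fun k _ => (h i k).mul (h' k j)

theorem an_det (h : AnM F t) : AnalyticAt ℂ (fun s => (F s).det) t := by
  simp only [Matrix.det_apply']
  refine Finset.analyticAt_fun_sum _ fun σ _ => analyticAt_const.mul ?_
  exact Finset.analyticAt_fun_prod _ fun i _ => h _ _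

theorem an_inv (h : AnM F t) (h0 : (F t).det ≠ 0) : AnM (fun s => (F s)⁻¹) t := fun i j => by
  simp only [Matrix.inv_def, Ring.inverse_eq_inv', Matrix.smul_apply, smul_eq_mul,
    Matrix.adjugate_apply]
  refine ((an_det h).inv h0).mul (an_det (F := fun s => (F s).updateRow j (Pi.single i 1))
    fun k l => ?_)
  simp only [Matrix.updateRow_apply]
  split_ifs
  exacts [analyticAt_const, h k l]

theorem dM_mul (h : AnM F t) (h' : AnM F' t) :
    dM (fun s => F s * F' s) t = dM F t * F' t + F t * dM F' t := by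
  ext i j
  simpa using ((dd_an (an_mul h h') i j).2 1).symm.trans (((dd_an h).mul (dd_an h') i j).2 1)

theorem ext_an {e : ℂ → ℂ} {z : ℂ} (h : ∀ᶠ t in 𝓝[≠] z, AnalyticAt ℂ e t)
    (h' : Tendsto (fun t => (t - z) * e t) (𝓝[≠] z) (𝓝 0)) :
    ∃ f, AnalyticAt ℂ f z ∧ ∀ t, t ≠ z → f t = e t := by
  obtain ⟨s, hs, hs'⟩ := (eventually_nhdsWithin_iff.1 h).exists_mem
  have ho : (fun t => e t - e z) =o[𝓝[≠] z] fun t => (t - z)⁻¹ := by
    refine (isLittleO_iff_tendsto' ?_).2 ?_
    · filter_upwards [self_mem_nhdsWithin] with t ht h0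
      exact absurd (sub_eq_zero.1 (inv_eq_zero.1 h0)) ht
    · have a : Tendsto (fun t : ℂ => (t - z) * e z) (𝓝[≠] z) (𝓝 ((z - z) * e z)) :=
        tendsto_nhdsWithin_of_tendsto_nhds
          ((continuous_id.sub continuous_const).mul continuous_const).continuousAt
      have := h'.sub a
      simp only [sub_self, zero_mul] at this
      refine this.congr fun t => ?_
      rw [div_inv_eq_mul]; ring
  exact ⟨_, (Complex.differentiableOn_update_limUnder_of_isLittleO hs (fun t ht =>
    (hs' t ht.1 ht.2).differentiableAt.differentiableWithinAt) ho).analyticAt hs,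
    fun t ht => Function.update_of_ne ht _ _⟩

end Flat2P

open Flat2P

theorem sFlat2 (h1 : SODE) (h2 : SFlat2a) : SFlat2 := by
  intro g h m G z ha hL hU
  obtain ⟨c, c0, hc⟩ := id hL
  have hd : ∀ᶠ t in 𝓝[≠] z, (G t).det ≠ 0 := by
    filter_upwards [hc] with t ht h0
    have a : (G t * h t * (G t)ᴴ - (c : ℂ) • 1 + (c : ℂ) • 1).PosDef :=
      PosDef.posSemidef_add ht (PosDef.one.smul (by exact_mod_cast c0))
    have b := a.det_pos
    rw [sub_add_cancel, det_mul, det_mul, h0, zero_mul, zero_mul] at b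
    exact lt_irrefl _ b
  let n : MF g := fun t => (dM G t + G t * m t) * (G t)⁻¹
  have hn : ∀ᶠ t in 𝓝[≠] z, AnM n t ∧ Fl (fun s => G s * h s * (G s)ᴴ) n t := by
    filter_upwards [ha, hd] with t ⟨a1, a2, a3⟩ a4
    refine ⟨an_mul (fun i j => (a2 i j).deriv.add (an_mul a2 a1 i j)) (an_inv a2 a4), fun i j => ?_⟩
    have b1 : DD h t fun v => v • (m t * h t) + conj v • (h t * (m t)ᴴ) := a3
    have b2 := ((dd_an a2).mul b1).mul (dd_an a2).ct i j
    refine ⟨b2.1, fun v => (b2.2 v).trans ?_⟩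
    have b3 : n t * G t = dM G t + G t * m t :=
      nonsing_inv_mul_cancel_right _ _ (Ne.isUnit a4)
    have b4 : n t * (G t * h t * (G t)ᴴ) = (dM G t + G t * m t) * h t * (G t)ᴴ := by
      rw [← b3]; simp only [Matrix.mul_assoc]
    have b5 : G t * h t * (G t)ᴴ * (n t)ᴴ = G t * h t * (dM G t + G t * m t)ᴴ := by
      rw [← b3, conjTranspose_mul (n t)]; simp only [Matrix.mul_assoc]
    change _ = (v • (n t * (G t * h t * (G t)ᴴ)) + conj v • (G t * h t * (G t)ᴴ * (n t)ᴴ)) i j
    rw [b4, b5]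
    refine congrArg (fun M : Matrix (Fin g) (Fin g) ℂ => M i j) ?_
    simp only [conjTranspose_smul, conjTranspose_add, conjTranspose_mul, Matrix.add_mul,
      Matrix.mul_add, Matrix.smul_mul, Matrix.mul_smul, smul_add, Matrix.mul_assoc,
      RCLike.star_def]
    abel
  have hlim := h2 g _ n z hn hL (hU.imp fun c hc => hc.mono fun t ht => by
    rw [det_mul, det_mul, det_conjTranspose, norm_mul, norm_mul, norm_star]
    linarith)
  choose N hN hN' using fun i j => ext_an (hn.mono fun t ht => ht.1 i j) (hlim i j)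
  obtain ⟨r, r0, hr⟩ := Metric.eventually_nhds_iff_ball.1
    (eventually_all.2 fun i => eventually_all.2 fun j => (hN i j).neg.eventually_analyticAt)
  obtain ⟨A, a1, a2⟩ := h1 g (fun t => -Matrix.of fun i j => N i j t) z r fun t ht => hr t ht
  refine ⟨A, (a2 z (mem_ball_self r0)).1, by simp [a1], ?_⟩
  filter_upwards [ha, hd, self_mem_nhdsWithin, nhdsWithin_le_nhds (ball_mem_nhds z r0)]
    with t b1 b2 b3 b4
  have b5 : (Matrix.of fun i j => N i j t) = n t := by
    ext i j
    exact hN' i j t b3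
  have b6 : n t * G t = dM G t + G t * m t := nonsing_inv_mul_cancel_right _ _ (Ne.isUnit b2)
  rw [dM_mul (a2 t b4).1 b1.2.1, (a2 t b4).2, b5, Matrix.mul_neg, Matrix.neg_mul,
    Matrix.mul_assoc, b6, Matrix.mul_add, Matrix.mul_assoc]
  abel

end Pool.Agent.P.MP_7ede32_ag.Hod
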