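import Pool.Agent.P.MP_7ede32_ag.Hod.StB

/-!
The residue of a unitary connection with a bounded frame vanishes.
-/

open Set Filter Topology Matrix ComplexConjugate Metric
open scoped ComplexOrder

namespace Pool.Agent.P.MP_7ede32_ag.Hod

namespace Flat2aP

variable {g : ℕ}

lemma det_one_add {P : Matrix (Fin g) (Fin g) ℂ} (hP : P.IsHermitian) :
    (1 + P).det = ((∏ i, (1 + hP.eigenvalues i) : ℝ) : ℂ) := by
  have h1 := Matrix.eval_charpoly P (-1)
  rw [hP.charpoly_eq, Polynomial.eval_prod] at h1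
  have h2 : Matrix.scalar (Fin g) (-1 : ℂ) - P = (-1 : ℂ) • (1 + P) := by
    rw [map_neg, map_one, neg_one_smul, neg_add, sub_eq_add_neg]
  rw [h2, det_smul] at h1
  have h3 : ∏ i, Polynomial.eval (-1 : ℂ) (Polynomial.X - Polynomial.C (hP.eigenvalues i : ℂ))
      = (-1 : ℂ) ^ Fintype.card (Fin g) * ∏ i, (1 + (hP.eigenvalues i : ℂ)) := by
    rw [← Finset.card_univ, ← Finset.prod_const, ← Finset.prod_mul_distrib]
    refine Finset.prod_congr rfl fun i _ => ?_
    simp only [Polynomial.eval_sub, Polynomial.eval_X, Polynomial.eval_C]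
    ring
  have h4 : (-1 : ℂ) ^ Fintype.card (Fin g) * ∏ i, (1 + (hP.eigenvalues i : ℂ))
      = (-1 : ℂ) ^ Fintype.card (Fin g) * (1 + P).det := h3.symm.trans h1
  have h5 := mul_left_cancel₀ (pow_ne_zero _ (by norm_num : (-1 : ℂ) ≠ 0)) h4
  rw [← h5]
  push_cast
  rfl

lemma diag_le_psd {P : Matrix (Fin g) (Fin g) ℂ} (hP : P.PosSemidef) (i : Fin g) :
    (P i i).re ≤ g * ‖(1 + P).det‖ := by
  have h0 : ∀ k, (1 : ℝ) ≤ 1 + hP.1.eigenvalues k := fun k =>
    le_add_of_nonneg_right (hP.eigenvalues_nonneg k)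
  have h1 : (1 : ℝ) ≤ ∏ k, (1 + hP.1.eigenvalues k) :=
    Finset.one_le_prod fun k _ => h0 k
  have h2 : ∀ k, hP.1.eigenvalues k ≤ ∏ k, (1 + hP.1.eigenvalues k) := fun k => by
    rw [← Finset.mul_prod_erase _ _ (Finset.mem_univ k)]
    have h3 : (1 : ℝ) ≤ ∏ j ∈ Finset.univ.erase k, (1 + hP.1.eigenvalues j) :=
      Finset.one_le_prod fun j _ => h0 j
    have h4 := hP.eigenvalues_nonneg k
    nlinarith
  rw [det_one_add hP.1, Complex.norm_real, Real.norm_eq_abs, abs_of_nonneg (zero_le_one.trans h1)]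
  have h5 : (P i i).re ≤ (P.trace).re := by
    rw [Matrix.trace, Complex.re_sum]
    exact Finset.single_le_sum (f := fun k => (P.diag k).re)
      (fun k _ => (Complex.nonneg_iff.1 (hP.diag_nonneg (i := k))).1) (Finset.mem_univ i)
  have h6 : (P.trace).re = ∑ k, hP.1.eigenvalues k := by
    rw [hP.1.trace_eq_sum_eigenvalues, Complex.re_sum]
    exact Finset.sum_congr rfl fun k _ => Complex.ofReal_re _
  refine h5.trans (h6.le.trans ?_)
  have h7 := Finset.sum_le_card_nsmul Finset.univ _ _ fun k _ => h2 k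
  simpa using h7

lemma diag_le {H : Matrix (Fin g) (Fin g) ℂ} {c C : ℝ} (hc : 0 < c)
    (hH : (H - (c : ℂ) • 1).PosSemidef) (hC : ‖H.det‖ ≤ C) (i : Fin g) :
    (H i i).re ≤ c * (1 + g * (C / c ^ g)) := by
  have hc' : (c : ℂ) ≠ 0 := Complex.ofReal_ne_zero.2 hc.ne'
  set P : Matrix (Fin g) (Fin g) ℂ := ((c⁻¹ : ℝ) : ℂ) • (H - (c : ℂ) • 1) with hP
  have hPs : P.PosSemidef := hH.smul (Complex.zero_le_real.2 (inv_pos.2 hc).le)
  have h1 : H = (c : ℂ) • (1 + P) := by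
    rw [hP, smul_add, smul_smul, Complex.ofReal_inv, mul_inv_cancel₀ hc', one_smul]
    abel
  have h2 : ‖(1 + P).det‖ ≤ C / c ^ g := by
    rw [le_div_iff₀ (pow_pos hc g)]
    refine le_trans (le_of_eq ?_) hC
    conv_rhs => rw [h1]
    rw [det_smul, norm_mul, norm_pow, Complex.norm_real, Real.norm_eq_abs, abs_of_pos hc,
      Fintype.card_fin, mul_comm]
  have h3 := diag_le_psd hPs i
  have h4 : (H i i).re = c * (1 + (P i i).re) := by
    conv_lhs => rw [h1]
    simp [Matrix.smul_apply, Matrix.add_apply]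
  rw [h4]
  have h5 : (g : ℝ) * ‖(1 + P).det‖ ≤ g * (C / c ^ g) :=
    mul_le_mul_of_nonneg_left h2 (Nat.cast_nonneg g)
  exact mul_le_mul_of_nonneg_left (by linarith) hc.le

lemma entry_le {B H K : Matrix (Fin g) (Fin g) ℂ} {c M : ℝ} (hc : 0 < c)
    (hH : (H - (c : ℂ) • 1).PosSemidef) (hK : B * H * Bᴴ = K) (hM : ∀ i, (K i i).re ≤ c * M)
    (i j : Fin g) : ‖B i j‖ ≤ Real.sqrt M := by
  have h1 := (hH.mul_mul_conjTranspose_same B).diag_nonneg (i := i)
  have h2 : B * (H - (c : ℂ) • 1) * Bᴴ = K - (c : ℂ) • (B * Bᴴ) := by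
    rw [Matrix.mul_sub, Matrix.sub_mul, hK, Matrix.mul_smul, Matrix.mul_one, Matrix.smul_mul]
  rw [h2] at h1
  have h3 := (Complex.nonneg_iff.1 h1).1
  have h4 : ((B * Bᴴ) i i) = ((∑ k, ‖B i k‖ ^ 2 : ℝ) : ℂ) := by
    rw [Matrix.mul_apply]
    push_cast
    refine Finset.sum_congr rfl fun k _ => ?_
    rw [conjTranspose_apply, Complex.star_def, Complex.mul_conj, Complex.normSq_eq_norm_sq]
    push_cast
    rfl
  rw [Matrix.sub_apply, Matrix.smul_apply, h4, smul_eq_mul, ← Complex.ofReal_mul, Complex.sub_re,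
    Complex.ofReal_re] at h3
  have h5 : ∑ k, ‖B i k‖ ^ 2 ≤ M := le_of_mul_le_mul_left (by linarith [hM i]) hc
  have h6 : ‖B i j‖ ^ 2 ≤ ∑ k, ‖B i k‖ ^ 2 :=
    Finset.single_le_sum (f := fun k => ‖B i k‖ ^ 2) (fun k _ => sq_nonneg _) (Finset.mem_univ j)
  exact Real.le_sqrt_of_sq_le (h6.trans h5)

/-- entrywise derivative along a real parameter -/
def HD (F : ℝ → Matrix (Fin g) (Fin g) ℂ) (F' : Matrix (Fin g) (Fin g) ℂ) (τ : ℝ) : Prop :=
  ∀ i j, HasDerivAt (fun x => F x i j) (F' i j) τ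

lemma HD.mul {F G : ℝ → Matrix (Fin g) (Fin g) ℂ} {F' G' : Matrix (Fin g) (Fin g) ℂ} {τ : ℝ}
    (hF : HD F F' τ) (hG : HD G G' τ) : HD (fun x => F x * G x) (F' * G τ + F τ * G') τ := by
  intro i j
  simp only [Matrix.mul_apply, Matrix.add_apply, ← Finset.sum_add_distrib]
  exact HasDerivAt.fun_sum fun k _ => (hF i k).fun_mul (hG k j)

lemma HD.ct {F : ℝ → Matrix (Fin g) (Fin g) ℂ} {F' : Matrix (Fin g) (Fin g) ℂ} {τ : ℝ}
    (hF : HD F F' τ) : HD (fun x => (F x)ᴴ) F'ᴴ τ := fun i j => (hF j i).star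

lemma hd_an {B : MF g} {γ : ℝ → ℂ} {v : ℂ} {τ : ℝ} (hB : AnM B (γ τ)) (hγ : HasDerivAt γ v τ) :
    HD (fun x => B (γ x)) (v • dM B (γ τ)) τ := by
  intro i j
  have h1 := ((hB i j).differentiableAt.hasDerivAt.hasFDerivAt.restrictScalars ℝ).comp_hasDerivAt
    τ hγ
  have h2 : (v • dM B (γ τ)) i j = v * deriv (fun s => B s i j) (γ τ) := rfl
  rw [h2]
  simpa [Function.comp_def] using h1

lemma hd_fl {H n : MF g} {γ : ℝ → ℂ} {v : ℂ} {τ : ℝ} (hH : Fl H n (γ τ))
    (hγ : HasDerivAt γ v τ) : HD (fun x => H (γ x))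
      (v • (n (γ τ) * H (γ τ)) + conj v • (H (γ τ) * (n (γ τ))ᴴ)) τ := by
  intro i j
  have h1 := (hH i j).1.hasFDerivAt.comp_hasDerivAt τ hγ
  rw [(hH i j).2 v] at h1
  exact h1

lemma const {H n B : MF g} {z s₀ : ℂ} {r : ℝ}
    (hH : ∀ s ∈ ball s₀ r, Fl H n (z + Complex.exp s)) (hB0 : B s₀ = 1)
    (hB : ∀ s ∈ ball s₀ r, AnM B s ∧ dM B s = B s * (-Complex.exp s • n (z + Complex.exp s)))
    {s : ℂ} (hs : s ∈ ball s₀ r) :
    B s * H (z + Complex.exp s) * (B s)ᴴ = H (z + Complex.exp s₀) := by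
  set γ : ℝ → ℂ := fun x => s₀ + x * (s - s₀) with hγ
  have hγd : ∀ x, HasDerivAt γ (s - s₀) x := fun x => by
    have h0 := ((Complex.ofRealCLM.hasDerivAt (x := x)).mul_const (s - s₀)).const_add s₀
    simpa [hγ] using h0
  have hγm : ∀ x ∈ Icc (0 : ℝ) 1, γ x ∈ ball s₀ r := fun x hx => by
    rw [mem_ball, dist_eq_norm] at hs ⊢
    have h1 : γ x - s₀ = x * (s - s₀) := by simp [hγ]
    rw [h1, norm_mul, Complex.norm_real, Real.norm_eq_abs, abs_of_nonneg hx.1]
    exact (mul_le_of_le_one_left (norm_nonneg _) hx.2).trans_lt hs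
  have hK : ∀ x ∈ Icc (0 : ℝ) 1, HD (fun x => B (γ x) * H (z + Complex.exp (γ x)) * (B (γ x))ᴴ)
      0 x := fun x hx => by
    have h1 := hd_an (hB _ (hγm x hx)).1 (hγd x)
    have h2 := hd_fl (γ := fun x => z + Complex.exp (γ x)) (hH _ (hγm x hx))
      ((hγd x).cexp.const_add z)
    have h3 := (h1.mul h2).mul h1.ct
    convert h3 using 1
    rw [(hB _ (hγm x hx)).2]
    simp only [conjTranspose_smul, conjTranspose_mul, Matrix.mul_add, Matrix.add_mul,
      Matrix.mul_smul, Matrix.smul_mul, smul_smul, Matrix.mul_assoc, Complex.star_def, map_mul,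
      map_neg]
    module
  ext i j
  have h4 := constant_of_has_deriv_right_zero
    (f := fun x => (B (γ x) * H (z + Complex.exp (γ x)) * (B (γ x))ᴴ) i j) (a := 0) (b := 1)
    (fun x hx => (hK x hx i j).continuousAt.continuousWithinAt)
    (fun x hx => (hK x (Ico_subset_Icc_self hx) i j).hasDerivWithinAt) 1 (by simp)
  simpa [hγ, hB0] using h4

end Flat2aP

open Flat2aP in
theorem sFlat2a (h : SODE) : SFlat2a := by
  rintro g H n z h1 ⟨c, hc, h2⟩ ⟨C, h3⟩ i j
  obtain ⟨δ, hδ, hb⟩ := Metric.eventually_nhds_iff.1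
    (eventually_nhdsWithin_iff.1 (h1.and (h2.and h3)))
  set M : ℝ := Real.sqrt (1 + g * (C / c ^ g)) with hM
  have key : ∀ t, t ≠ z → ‖t - z‖ < δ →
      ‖(t - z) * n t i j‖ ≤ 2 * M / (Real.log δ - Real.log ‖t - z‖) := by
    intro t ht htδ
    have ht0 : t - z ≠ 0 := sub_ne_zero.2 ht
    set s₀ := Complex.log (t - z) with hs₀
    set r := Real.log δ - Real.log ‖t - z‖ with hr
    have hr0 : 0 < r := sub_pos.2 (Real.log_lt_log (norm_pos_iff.2 ht0) htδ)
    have he : Complex.exp s₀ = t - z := Complex.exp_log ht0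
    have hg : ∀ s ∈ ball s₀ r, (AnM n (z + Complex.exp s) ∧ Fl H n (z + Complex.exp s)) ∧
        (H (z + Complex.exp s) - (c : ℂ) • 1).PosSemidef ∧ ‖(H (z + Complex.exp s)).det‖ ≤ C := by
      intro s hs
      refine hb ?_ (by simp)
      rw [dist_eq_norm, add_sub_cancel_left, Complex.norm_exp, ← Real.lt_log_iff_exp_lt hδ]
      have h4 : (s - s₀).re ≤ ‖s - s₀‖ := Complex.re_le_norm _
      rw [mem_ball, dist_eq_norm] at hs
      rw [Complex.sub_re, hs₀, Complex.log_re] at h4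
      linarith
    obtain ⟨B, hB0, hB⟩ := h g (fun s => -Complex.exp s • n (z + Complex.exp s)) s₀ r
      fun s hs k l => by
        have h5 : AnalyticAt ℂ (fun s => z + Complex.exp s) s := analyticAt_const.add analyticAt_cexp
        exact analyticAt_cexp.neg.mul (((hg s hs).1.1 k l).comp_of_eq h5 rfl)
    have hbd : ∀ s ∈ ball s₀ r, ‖B s i j‖ ≤ M := fun s hs =>
      entry_le hc (hg s hs).2.1 (const (fun s hs => (hg s hs).1.2) hB0 hB hs)
        (diag_le hc (hg s₀ (mem_ball_self hr0)).2.1 (hg s₀ (mem_ball_self hr0)).2.2) i j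
    have h6 := Complex.norm_deriv_le_div_of_mapsTo_ball (f := fun s => B s i j) (c := s₀)
      (R₁ := r) (R₂ := 2 * M)
      (fun s hs => ((hB s hs).1 i j).differentiableAt.differentiableWithinAt)
      (fun s hs => by
        rw [mem_closedBall, dist_eq_norm]
        exact (norm_sub_le _ _).trans (by linarith [hbd s hs, hbd s₀ (mem_ball_self hr0)])) hr0
    have h7 : deriv (fun s => B s i j) s₀ = -((t - z) * n t i j) := by
      have h8 := congrFun (congrFun (hB s₀ (mem_ball_self hr0)).2 i) j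
      rw [hB0, Matrix.one_mul, he, add_sub_cancel] at h8
      rw [← neg_mul]
      exact h8
    rwa [h7, norm_neg] at h6
  have h9 : Tendsto (fun t => ‖t - z‖) (𝓝[≠] z) (𝓝[>] 0) :=
    tendsto_norm_sub_self_nhdsNE z
  have h10 : Tendsto (fun t => Real.log δ - Real.log ‖t - z‖) (𝓝[≠] z) atTop := by
    simp only [sub_eq_add_neg (Real.log δ)]
    exact tendsto_atTop_add_const_left _ _
      (tendsto_neg_atBot_atTop.comp (Real.tendsto_log_nhdsGT_zero.comp h9))
  refine squeeze_zero_norm' ?_ (h10.const_div_atTop (2 * M))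
  filter_upwards [self_mem_nhdsWithin, mem_nhdsWithin_of_mem_nhds (ball_mem_nhds z hδ)] with t ht htδ
  exact key t ht (by rwa [mem_ball, dist_eq_norm] at htδ)

end Pool.Agent.P.MP_7ede32_ag.Hod
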