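import Pool.Agent.P.MP_7ede32_ag.Hod.RU

/-!
A form of the second kind that is orthogonal to all closed forms is exact.
-/

open Set Filter Topology MeasureTheory ComplexConjugate Polynomial Bornology Manifold

namespace Pool.Agent.P.MP_7ede32_ag.Hod

open MP_5d7cf0_gt.T (RS zc loc An D Sm Db Hf Om sm_const an_of_Db D_congr loc_congr)

namespace GMrP

variable {Y : Type} [TopologicalSpace Y] [ChartedSpace ℂ Y] [RS Y]

/-- a smooth function that vanishes near a finite set and is one near the complement of `V` -/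
theorem cut {S : Set Y} (hS : S.Finite) {V : Set Y} (hV : ∀ p ∈ S, V ∈ 𝓝 p) : ∃ χ : Y → ℂ,
    (∀ y, Sm χ y) ∧ (∀ p ∈ S, ∀ᶠ y in 𝓝 p, χ y = 0) ∧ ∀ y ∉ V, ∀ᶠ z in 𝓝 y, χ z = 1 := by
  induction S, hS using Set.Finite.induction_on with
  | empty => exact ⟨fun _ => 1, fun _ => sm_const 1, by simp, by simp⟩
  | @insert a S _ _ ih =>
    obtain ⟨χ, h1, h2, h3⟩ := ih fun p hp => hV p (mem_insert_of_mem _ hp)
    obtain ⟨ρ, K, k1, k2, k3, k4, k5⟩ := exists_rho a (hV a (mem_insert _ _))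
    refine ⟨fun y => χ y * (1 - ρ y), fun y => (h1 y).mul ((sm_const 1).sub (k1 y)), ?_, ?_⟩
    · rintro p (rfl | hp)
      · filter_upwards [k2] with y hy
        simp [hy]
      · filter_upwards [h2 p hp] with y hy
        simp [hy]
    · intro y hy
      filter_upwards [h3 y hy, k3.isClosed.isOpen_compl.mem_nhds fun h => hy (k4 h)] with z h4 h5
      simp [h4, k5 z h5]

theorem orth (h2 : SSt) (h4 : SPr) (C : XC Y) {ψ U : Y → ℂ} {θ σ : Y → ℂ × ℂ} (hθ : Cl θ)
    (hU : ∀ p ∉ C.Sg, Sm U p ∧ θ p = hf ψ p - dd U p) (hσ : C.Zc σ) :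
    C.Q θ σ = C.Q (hf ψ) σ := by
  obtain ⟨χ, k1, k2, k3⟩ := cut C.fin (V := {y | σ y = 0}) hσ.2
  have hs : ∀ p, Sm (fun y => χ y * U y) p := fun p => by
    by_cases hp : p ∈ C.Sg
    · refine (sm_const 0).congr ?_
      filter_upwards [k2 p hp] with y hy
      simp [hy]
    · exact (k1 p).mul (hU p hp).1
  have e : C.Q (θ + dd fun y => χ y * U y) σ = C.Q (hf ψ) σ := by
    refine C.pr_congr' fun p hp => ?_
    by_cases h0 : σ p = 0
    · simp [XC.wd, cj_eq_zero.2 h0]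
    · have e1 : dd (fun y => χ y * U y) p = dd U p := by
        refine dd_congr ?_
        filter_upwards [k3 p h0] with y hy
        simp [hy]
      have e2 : (θ + dd fun y => χ y * U y) p = hf ψ p := by
        rw [Pi.add_apply, e1, (hU p hp).2, sub_add_cancel]
      simp only [XC.wd, e2]
  rw [← e, (C.Q_add h4 hθ (cl_dd hs) hσ.1).1, (C.Q_dd h2 hσ.1 hs).2, add_zero]

end GMrP

theorem sGMr (h1 : SCut) (h2 : SSt) (h3 : SSup2) (h4 : SPr) (h5 : SRatU) (h6 : SFinD) : SGMr := by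
  intro Y _ _ _ M ψ hψ hb hQ
  choose! b hb1 hb2 using hb
  obtain ⟨θ, U, hθ, hU, hUb⟩ := (h1 Y M.toXC).1 ψ b hψ hb2
  obtain ⟨u, hu, e⟩ := (h3 Y M.toXC (h6 Y M).1).2.2 θ hθ.1 fun σ hσ => by
    rw [GMrP.orth h2 h4 M.toXC hθ.1 hU hσ, hQ σ hσ]
  have k1 : ∀ p ∉ M.Sg, dd (fun y => u y + U y) p = hf ψ p := fun p hp => by
    rw [dd_add (hu p) (hU p hp).1, ← e, (hU p hp).2, sub_add_cancel]
  have k2 : ∀ p ∉ M.Sg, An (fun y => u y + U y) p := fun p hp => by
    refine an_of_Db ?_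
    filter_upwards [M.off_nhds hp] with y hy
    exact ⟨(hu y).add (hU y hy).1, congrArg Prod.snd (k1 y hy)⟩
  have k3 : ∀ p ∈ M.Sg, MeromorphicAt (loc (fun y => u y + U y) p) (zc p p) := fun p hp => by
    have k4 : An u p := by
      refine an_of_Db ?_
      filter_upwards [hθ.2 p hp] with y hy
      exact ⟨hu y, congrArg Prod.snd (e ▸ hy : dd u y = 0)⟩
    have k5 : MeromorphicAt (loc U p) (zc p p) :=
      (hb1 p hp).congr ((loc_congr (mem_chart_source ℂ p) (hUb p hp).symm).filter_mono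
        nhdsWithin_le_nhds)
    exact (AnalyticAt.meromorphicAt k4).add k5
  obtain ⟨k, N, hN⟩ := h5 Y M _ k2 k3
  refine ⟨k, N, fun p hp => ?_⟩
  have k6 : D (fun y => u y + U y) p = ψ p :=
    congrArg Prod.fst ((dd_an (k2 p hp)).symm.trans (k1 p hp))
  rw [← k6]
  refine D_congr ?_
  filter_upwards [M.off_nhds hp] with y hy
  rw [← hN y hy, mul_div_assoc, div_self (pow_ne_zero _ (M.reg y hy).2.2), mul_one]

end Pool.Agent.P.MP_7ede32_ag.Hod
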