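import Pool.Agent.P.MP_7ede32_ag.Hod.StF
import Pool.Agent.P.MP_7ede32_ag.Hod.MT

/-!
The barrier for the Hodge metric.
-/

open Set Filter Topology MeasureTheory ComplexConjugate Polynomial Matrix
open scoped ComplexOrder

namespace Pool.Agent.P.MP_7ede32_ag.Hod

open MP_5d7cf0_gt.T (RS zc loc An D Sm Om)

namespace GamP

variable {L : PeriodPair} {g : ℕ} {𝒴 : Pl L} {N : Fin g → (KK L)[X][X]}

theorem solve {M Γ A : Matrix (Fin g) (Fin g) ℂ} (hA : IsUnit A.det) (h : M * Γ = A)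
    (γ : Fin g → ℂ) : γ = Γ *ᵥ (A⁻¹ *ᵥ (M *ᵥ γ)) := by
  have h1 : A⁻¹ * M * Γ = 1 := by rw [Matrix.mul_assoc, h, nonsing_inv_mul A hA]
  rw [mulVec_mulVec, mulVec_mulVec, Matrix.mul_assoc, mul_eq_one_comm.1 h1, one_mulVec]

/-- the extremal property on a nearby fibre -/
theorem near (h3 : SSup) (h5 : SSt) (h6 : SPr) {t s : ℂ} {μ₀ : Md 𝒴 t} {μ : Md 𝒴 s}
    {w : Fin g → μ.Y → ℂ} (hw : μ.IsB N w) {θ : Fin g → μ₀.Y → ℂ × ℂ} {𝒮 : Set (μ₀.Y → ℂ × ℂ)}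
    (hθ : ∀ i, θ i ∈ 𝒮) {tp : (μ₀.Y → ℂ × ℂ) → μ.Y → ℂ × ℂ}
    (htp : ∀ θ ∈ 𝒮, μ.M.Zc (tp θ) ∧ (∀ θ' ∈ 𝒮, μ.M.Q (tp θ) (tp θ') = μ₀.M.Q θ θ') ∧
      ∀ F, μ.M.Q (hf (μ.fm F)) (tp θ) = μ₀.Gam θ F s) {Γ : Matrix (Fin g) (Fin g) ℂ}
    (hΓ : ∀ i j, Γ i j = μ₀.Gam (θ j) (𝒴.phs N i) s) :
    (Γᴴ * (𝒴.hm N s)⁻¹ * Γ - μ₀.M.gram θ θ).PosSemidef ∧
      (Γᴴ * (𝒴.hm N s)⁻¹ * Γ = μ₀.M.gram θ θ → ∀ σ ∈ 𝒮, (fun i => μ₀.M.Q (θ i) σ) =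
        (Γᴴ * (𝒴.hm N s)⁻¹) *ᵥ fun j => μ₀.Gam σ (𝒴.phs N j) s) := by
  have e : μ.M.gram (fun i => tp (θ i)) (fun i => tp (θ i)) = μ₀.M.gram θ θ := by
    ext i j
    exact (htp _ (hθ i)).2.1 _ (hθ j)
  obtain ⟨-, k1, k2⟩ := h3 μ.Y μ.M.toXC g g w (fun i => tp (θ i)) (𝒴.hm N s) Γ
    (fun i => (hw.1 i).2.1) hw.2.1 hw.2.2 (fun i => (htp _ (hθ i)).1.1) hw.1.hm (by
      ext i j
      rw [hΓ, ← (htp _ (hθ j)).2.2, ← hw.1.Q]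
      rfl)
  rw [e] at k1 k2
  refine ⟨k1, fun h σ hσ => funext fun i => ?_⟩
  obtain ⟨u, hu, hd⟩ := k2 h i
  have c := (htp σ hσ).1.1
  have hm : ∑ j, (Γᴴ * (𝒴.hm N s)⁻¹) i j • w j ∈ Om μ.Y :=
    Submodule.sum_mem _ fun j _ => Submodule.smul_mem _ _ (hw.1 j).2.1
  rw [← (htp _ (hθ i)).2.1 σ hσ, hd, (μ.M.Q_add h6 (cl_hf hm) (cl_dd hu) c).1,
    (μ.M.Q_dd h5 c hu).2, add_zero, hf_sum]
  simp only [hf_smul]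
  rw [(μ.M.Q_sum h6 Finset.univ _ (fun j => hf (w j)) (fun j _ => cl_hf (hw.1 j).2.1) c).1]
  exact Finset.sum_congr rfl fun j _ => by rw [hw.1.Q, (htp σ hσ).2.2]

end GamP

open GamP in
theorem sGam (h1 : STr1) (h2 : STr2) (h3 : SSup) (h4 : SCut) (h5 : SSt) (h6 : SPr) : SGam := by
  intro L 𝒴 Φ g N hB
  have hn : ∀ᶠ s in cd, ∃ μ : Md 𝒴 s, ∃ w, μ.IsB N w := by
    filter_upwards [hB, Φ.mem] with s k1 k2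
    exact ⟨_, k1 k2⟩
  filter_upwards [hB, cd_nhds hn] with t hb hnb h
  obtain ⟨w, hw⟩ := hb h
  generalize Φ.md t h = μ at w hw ⊢
  have hO : ∀ i, w i ∈ Om μ.Y := fun i => (hw.1 i).2.1
  have hA : ∀ i, 𝒴.AnO (𝒴.phs N i) t := fun i => Pl.anO_ph (hw.1 i).1
  choose θ u hz hu hθ using fun j => (h4 μ.Y μ.M.toXC).2 (w j) (hO j)
  have q1 : ∀ σ, Cl σ → ∀ i, μ.M.Q (θ i) σ = μ.M.Q (hf (w i)) σ := fun σ hσ i => by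
    rw [hθ i, (μ.M.Q_sub h6 (cl_hf (hO i)) (cl_dd (hu i)) hσ).1, (μ.M.Q_dd h5 hσ (hu i)).2,
      sub_zero]
  have q2 : ∀ i j, μ.M.Q (hf (w i)) (θ j) = 𝒴.hm N t i j := fun i j => by
    rw [hw.1.hm, ← μ.M.Q_conj, q1 _ (cl_hf (hO i)), μ.M.Q_conj]
    rfl
  have q3 : μ.M.gram θ θ = 𝒴.hm N t := by
    ext i j
    exact (q1 _ (hz j).1 i).trans (q2 i j)
  have hpd : (𝒴.hm N t).PosDef := (h3 μ.Y μ.M.toXC g g w θ _ _ hO hw.2.1 hw.2.2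
    (fun i => (hz i).1) hw.1.hm rfl).1
  have hdet : IsUnit (𝒴.hm N t).det := (isUnit_iff_isUnit_det _).1 hpd.isUnit
  let Γ : MF g := fun s => Matrix.of fun i j => μ.Gam (θ j) (𝒴.phs N i) s
  have hΓ : AnM Γ t := fun i j => (h1 L 𝒴 t μ (θ j) _ (hz j) (hA i)).1
  refine ⟨hpd, Γ, ⟨hΓ, ?_, ?_⟩, fun he σ hσ i => ?_⟩
  · ext i j
    rw [← q2, hw.1.Q]
    exact (h1 L 𝒴 t μ (θ j) _ (hz j) (hA i)).2.1
  · filter_upwards [hnb, h2 L 𝒴 t μ (range θ) (finite_range θ) (forall_mem_range.2 hz)]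
      with s ⟨μ', w', hw'⟩ k
    obtain ⟨tp, htp⟩ := k μ'
    rw [← q3]
    exact (near h3 h5 h6 hw' (mem_range_self (f := θ)) htp fun _ _ => rfl).1
  · have e : (μ.Gam σ (𝒴.phs N i)) =ᶠ[𝓝 t] fun s =>
        ∑ k, Γ s i k * ((𝒴.hm N t)⁻¹ *ᵥ fun j => μ.M.Q (θ j) σ) k := by
      filter_upwards [hnb, he, h2 L 𝒴 t μ (insert σ (range θ)) ((finite_range θ).insert σ)
        (forall_mem_insert.2 ⟨hσ, forall_mem_range.2 hz⟩)] with s ⟨μ', w', hw'⟩ k0 k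
      obtain ⟨tp, htp⟩ := k μ'
      rw [(near h3 h5 h6 hw' (fun i => mem_insert_of_mem _ (mem_range_self (f := θ) i)) htp
        (Γ := Γ s) fun _ _ => rfl).2 (k0.trans q3.symm) σ (mem_insert _ _)]
      exact congrFun (solve hdet k0 fun j => μ.Gam σ (𝒴.phs N j) s) i
    have hd : HasDerivAt (fun s => ∑ k, Γ s i k * ((𝒴.hm N t)⁻¹ *ᵥ fun j => μ.M.Q (θ j) σ) k)
        (∑ k, dM Γ t i k * ((𝒴.hm N t)⁻¹ *ᵥ fun j => μ.M.Q (θ j) σ) k) t :=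
      HasDerivAt.fun_sum fun k _ => (hΓ i k).differentiableAt.hasDerivAt.mul_const _
    rw [← (h1 L 𝒴 t μ σ _ hσ (hA i)).2.2, e.deriv_eq, hd.deriv]
    refine (congrFun (mulVec_mulVec (fun j => μ.M.Q (θ j) σ) (dM Γ t) (𝒴.hm N t)⁻¹) i).trans ?_
    simp only [q1 σ hσ.1, hw.1.Q]
    rfl

end Pool.Agent.P.MP_7ede32_ag.Hod
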