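import Pool.Agent.P.MP_7ede32_ag.Hod.RU
import Pool.Agent.P.MP_5d7cf0_gt.T.Pq

/-!
Two pluri-differentials with a non-constant ratio force genus at least two.
-/

open Set Filter Topology

noncomputable section

namespace Pool.Agent.P.MP_7ede32_ag.Hod

open MP_5d7cf0_gt.T (RS zc loc An D Hf Om SP D_const D_congr source_mem D_zc_ne D_zc_self
  eventually_notMem const_of_an not_const_of_pole nf_D nf_preimages D_of_mul_eq_one)

namespace Gen2P

open MP_5d7cf0_gt.T.PqP (ev_ev)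

variable {Y : Type} [TopologicalSpace Y] [ChartedSpace ℂ Y] [RS Y] {G w f F : Y → ℂ} {p : Y}

omit [RS Y] in
theorem val_eq {β β' : Y → ℂ} (h : An β p) (h' : An β' p) (e : ∀ᶠ y in 𝓝[≠] p, β y = β' y) :
    β p = β' p :=
  tendsto_nhds_unique (l := 𝓝[≠] p)
    ((h.continuousAt.tendsto.mono_left nhdsWithin_le_nhds).congr' e)
    (h'.continuousAt.tendsto.mono_left nhdsWithin_le_nhds)

/-- a function with removable singularities only is constant -/
theorem glue (h : ∀ p, ∃ β, An β p ∧ ∀ᶠ y in 𝓝[≠] p, G y = β y) :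
    ∃ c, ∀ p, ∀ᶠ y in 𝓝[≠] p, G y = c := by
  choose β h1 h2 using h
  have key : ∀ p, ∀ᶠ y in 𝓝[≠] p, β y y = β p y := by
    intro p
    filter_upwards [ev_ev (h2 p), mem_nhdsWithin_of_mem_nhds (h1 p).eventually] with y a b
    refine val_eq (h1 y) b ?_
    filter_upwards [h2 y, mem_nhdsWithin_of_mem_nhds a] with z c d
    exact c.symm.trans d
  obtain ⟨c, hc⟩ := const_of_an (u := fun y => β y y) fun p => (h1 p).congr (by
    have := key p
    rw [eventually_nhdsWithin_iff] at this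
    filter_upwards [this] with y hy
    by_cases e : y = p
    · rw [e]
    · exact (hy e).symm)
  refine ⟨c, fun p => ?_⟩
  filter_upwards [h2 p, key p] with y a b
  exact a.trans (b.symm.trans (hc y))

theorem ratio {C : XC Y} {μ : ℕ} (h : C.Hol μ F) (hw : Hf w p) (h0 : w p ≠ 0) :
    ∃ β, An β p ∧ ∀ᶠ y in 𝓝[≠] p, F y * (D C.x y / w y) ^ μ = β y := by
  obtain ⟨β, h1, h2⟩ := h p
  refine ⟨fun y => β y * (w y / D (zc p) y)⁻¹ ^ μ,
    h1.mul ((An.inv hw (by simpa [D_zc_self] using h0)).pow μ), ?_⟩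
  filter_upwards [h2, mem_nhdsWithin_of_mem_nhds (source_mem (mem_chart_source ℂ p))] with y a b
  have e := D_zc_ne b
  rw [← a, dv, mul_assoc, ← mul_pow, inv_div, div_mul_div_cancel₀ e]

theorem zero_of {C : XC Y} {μ : ℕ} (h : ∀ p, ∀ᶠ y in 𝓝[≠] p, F y * (D C.x y / w y) ^ μ = 0)
    (hw : ∀ p, ∀ᶠ y in 𝓝[≠] p, w y ≠ 0) : ∀ᶠ p in cofinite, F p = 0 := by
  refine cofinite_iff.2 fun p => ?_
  filter_upwards [h p, hw p, C.reg_near p] with y a b c
  exact (mul_eq_zero.1 a).resolve_right (pow_ne_zero _ (div_ne_zero c.2 b))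

theorem D_ne (hD : MP_5d7cf0_gt.T.S_Deg) (an : ∀ y, y ≠ p → An f y) (sp : SP f p) {y : Y}
    (hy : y ≠ p) : D f y ≠ 0 := by
  intro hd
  obtain ⟨C, hC, hc⟩ := hD Y f {p} (Finset.singleton_nonempty p)
    (fun y hy => an y (by simpa using hy)) (by simpa using sp)
  obtain ⟨n, ψ, a1, a2, a3, a4, a5⟩ := (an y hy).nf fun h =>
    not_const_of_pole (finite_singleton p) an sp.tendsto y (f y) (mem_nhdsWithin_of_mem_nhds h)
  have n2 := (nf_D a1 a2 a3 a4 a5).1 hd
  obtain ⟨c, ⟨s, s1, s2⟩, c2⟩ := ((nf_preimages a1 a2 a3 a4 a5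
    (isOpen_compl_singleton.mem_nhds hy)).and (eventually_notMem hC (f y))).exists
  have k := hc c c2
  rw [Finset.card_singleton] at k
  have := ncard_le_ncard (s := (s : Set Y)) (t := {y | y ∉ ({p} : Finset Y) ∧ f y = c})
    (fun y hy => ⟨by simpa using (s2 y hy).1, (s2 y hy).2⟩) (finite_of_ncard_ne_zero (by omega))
  rw [ncard_coe_finset] at this
  omega

theorem genus_zero (hD : MP_5d7cf0_gt.T.S_Deg) (an : ∀ y, y ≠ p → An f y) (sp : SP f p)
    {C : XC Y} {μ : ℕ} (hμ : 0 < μ) (h : C.Hol μ F) : ∀ᶠ p in cofinite, F p = 0 := by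
  have hd : ∀ y, y ≠ p → D f y ≠ 0 := fun y hy => D_ne hD an sp hy
  obtain ⟨φ, p1, p2, p3, p4⟩ := sp
  obtain ⟨β, h1, h2⟩ := h p
  have a1 : An (fun y => β y * (-φ y ^ 2 * (D φ y / D (zc p) y)⁻¹) ^ μ) p :=
    h1.mul (((p1.pow 2).neg.mul (An.inv p1.hf (by simpa [D_zc_self] using p3))).pow μ)
  have a2 : ∀ᶠ y in 𝓝[≠] p, F y * (D C.x y / D f y) ^ μ =
      β y * (-φ y ^ 2 * (D φ y / D (zc p) y)⁻¹) ^ μ := by
    filter_upwards [h2, mem_nhdsWithin_of_mem_nhds (source_mem (mem_chart_source ℂ p)), ev_ev p4,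
      mem_nhdsWithin_of_mem_nhds p1.eventually] with y a b c d
    have e := D_zc_ne b
    rw [← a, dv, mul_assoc, ← mul_pow, D_of_mul_eq_one d c]
    congr 2
    by_cases e2 : D φ y = 0
    · simp [e2]
    · have e6 : φ y ≠ 0 := left_ne_zero_of_mul_eq_one c.self_of_nhds
      field_simp
  obtain ⟨c, hc⟩ := glue (G := fun y => F y * (D C.x y / D f y) ^ μ) fun q => by
    by_cases e : q = p
    · exact e ▸ ⟨_, a1, a2⟩
    · exact ratio h (an q e).hf (hd q e)
  have c0 : c = 0 := by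
    have := val_eq (MP_5d7cf0_gt.T.an_const c) a1 (by
      filter_upwards [hc p, a2] with y a b
      exact a.symm.trans b)
    simpa [p2, hμ.ne'] using this
  refine zero_of (C := C) (μ := μ) (w := D f) (fun q => c0 ▸ hc q) fun q => ?_
  filter_upwards [eventually_notMem (finite_singleton p) q] with y hy
  exact hd y hy

theorem genus_one (hw : w ∈ Om Y) (h0 : ∀ p, w p ≠ 0) {C : XC Y} {μ : ℕ} (h : C.Hol μ F)
    (h' : C.Hol μ fun p => C.x p * F p) : ∀ᶠ p in cofinite, F p = 0 := by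
  obtain ⟨c, hc⟩ := glue fun q => ratio h (hw q) (h0 q)
  obtain ⟨c', hc'⟩ := glue fun q => ratio h' (hw q) (h0 q)
  by_cases c0 : c = 0
  · exact zero_of (C := C) (μ := μ) (w := w) (fun q => c0 ▸ hc q) fun q =>
      Eventually.of_forall h0
  exfalso
  obtain ⟨p⟩ : Nonempty Y := inferInstance
  have e : ∀ᶠ y in 𝓝[≠] p, C.x y = c' / c := by
    filter_upwards [hc p, hc' p] with y a b
    rw [mul_assoc, a] at b
    exact eq_div_of_mul_eq c0 b
  obtain ⟨y, a, b⟩ := ((ev_ev e).and (C.reg_near p)).exists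
  exact b.2 ((D_congr a).trans (D_const _))

end Gen2P

open Gen2P

theorem sGen2 (h1 : MP_5d7cf0_gt.T.S_ML) (h2 : MP_5d7cf0_gt.T.S_Deg)
    (h3 : MP_5d7cf0_gt.T.S_Bpf) : SGen2 := by
  intro Y _ _ _ C μ F hμ hF h h' _
  by_contra hn
  obtain ⟨v, hv⟩ := finrank_le_one_iff.1 (show Module.finrank ℂ (Om Y) ≤ 1 by omega)
  have hv' : ∀ w ∈ Om Y, ∀ p, v.1 p = 0 → w p = 0 := fun w hw p hp => by
    obtain ⟨c, hc⟩ := hv ⟨w, hw⟩
    have := congrFun (congrArg Subtype.val hc) p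
    simpa [hp] using this.symm
  apply hF
  by_cases h0 : v.1 = 0
  · obtain ⟨p⟩ : Nonempty Y := inferInstance
    obtain ⟨f, a1, a2⟩ := h1 Y {p} (fun _ => 1) fun w hw => by
      simp [hv' w hw p (congrFun h0 p)]
    obtain ⟨u, hu, hf⟩ := a2 p (Finset.mem_singleton_self p)
    exact genus_zero h2 (fun y hy => a1 y (by simpa using hy))
      (MP_5d7cf0_gt.T.PqP.sp_of one_ne_zero hu hf) hμ h
  · refine genus_one v.2 (fun p hp => ?_) h h'
    obtain ⟨w, hw, a⟩ := h3 Y ⟨v.1, v.2, h0⟩ p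
    exact a (hv' w hw p hp)

end Pool.Agent.P.MP_7ede32_ag.Hod
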