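import Pool.Agent.P.MP_7ede32_ag.Hod.StF
import Pool.Agent.P.MP_7ede32_ag.Hod.MT

/-!
Lower semicontinuity of the genus, and the genus is at least two.
-/

open Set Filter Topology MeasureTheory ComplexConjugate Polynomial Matrix
open scoped ComplexOrder

namespace Pool.Agent.P.MP_7ede32_ag.Hod

open MP_5d7cf0_gt.T (RS zc loc An D Sm Om)

namespace GenLP

/-- a positive family of closed forms that vanish near the exceptional set -/
theorem exists_pos (h2 : SCut) (h3 : SSt) (h4 : SPr) (h5 : SSup2) {Y : Type} [TopologicalSpace Y]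
    [ChartedSpace ℂ Y] [RS Y] (C : XC Y) (hfd : FiniteDimensional ℂ (Om Y)) :
    ∃ θ : Fin (Module.finrank ℂ (Om Y)) → Y → ℂ × ℂ, (∀ i, C.Zc (θ i)) ∧ (C.gram θ θ).PosDef := by
  obtain ⟨w, hw, hli⟩ : ∃ w : Fin (Module.finrank ℂ (Om Y)) → Y → ℂ, (∀ i, w i ∈ Om Y) ∧
      LinearIndependent ℂ w :=
    ⟨fun i => (Module.finBasis ℂ (Om Y) i : Y → ℂ), fun i => (Module.finBasis ℂ (Om Y) i).2,
      (Module.finBasis ℂ (Om Y)).linearIndependent.map' (Om Y).subtype (Om Y).ker_subtype⟩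
  choose θ u a1 a2 a3 using fun i => (h2 Y C).2 (w i) (hw i)
  refine ⟨θ, a1, ?_⟩
  have e : C.gram θ θ = C.gram (fun i => hf (w i)) fun i => hf (w i) := by
    ext i j
    change C.Q (θ i) (θ j) = C.Q (hf (w i)) (hf (w j))
    have b1 : C.Q (θ i) (θ j) = C.Q (hf (w i)) (θ j) := by
      conv_lhs => rw [a3 i]
      rw [(C.Q_sub h4 (cl_hf (hw i)) (cl_dd (a2 i)) (a1 j).1).1, (C.Q_dd h3 (a1 j).1 (a2 i)).2,
        sub_zero]
    rw [b1, a3 j, (C.Q_sub h4 (cl_hf (hw j)) (cl_dd (a2 j)) (cl_hf (hw i))).2,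
      (C.Q_dd h3 (cl_hf (hw i)) (a2 j)).1, sub_zero]
  rw [e]
  exact (h5 Y C hfd).2.1 _ w hw hli

end GenLP

theorem sGenL (h1 : STr2) (h2 : SCut) (h3 : SSt) (h4 : SPr) (h5 : SSup2) (h6 : SFinD) : SGenL := by
  intro L 𝒴 t₀ μ₀
  obtain ⟨θ, a1, a2⟩ := GenLP.exists_pos h2 h3 h4 h5 μ₀.M.toXC (h6 μ₀.Y μ₀.M).1
  filter_upwards [h1 L 𝒴 t₀ μ₀ (range θ) (finite_range θ) (forall_mem_range.2 a1)] with t ht μ
  obtain ⟨tp, b⟩ := ht μ
  refine (h5 μ.Y μ.M.toXC (h6 μ.Y μ.M).1).1 _ (fun i => tp (θ i))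
    (fun i => (b _ (mem_range_self i)).1.1) ?_
  have e : μ.M.gram (fun i => tp (θ i)) (fun i => tp (θ i)) = μ₀.M.gram θ θ := by
    ext i j
    exact (b _ (mem_range_self i)).2.1 _ (mem_range_self j)
  rw [e]
  exact a2

theorem sG2 (h1 : SGen2) (h2 : SIrr) : SG2 := by
  intro L 𝒴 Φ g N ν F hB hν hF hne H1 H2
  have a0 : Irreducible 𝒴.P := irreducible_of_sp 𝒴.monic
    (Eventually.frequently (Eventually.mono Φ.mem fun t ht => (Md.irr h2 (Φ.md t ht)).2))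
  have a1 := Pl.gen_fb ((hF.zero_or a0).resolve_left hne)
  obtain ⟨t, ht, b1, b2, b3, b4⟩ := (Eventually.and Φ.mem (a1.and (Eventually.and hB
    (Eventually.and H1 H2)))).exists
  obtain ⟨w, hw⟩ := b2 ht
  rw [← hw.finrank.2]
  refine h1 _ (Φ.md t ht).M.toXC ν (fun p => F ((Φ.md t ht).j p)) hν (fun h0 => ?_) (b3 ht) (b4 ht)
    hw.finrank.1
  obtain ⟨p, c1, c2⟩ := (h0.and (((Φ.md t ht).cofinite_iff (r := fun q => F q ≠ 0)).2 b1)).exists
  exact c2 c1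

end Pool.Agent.P.MP_7ede32_ag.Hod
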