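import Pool.Agent.P.MP_7ede32_ag.Hod.StF
import Pool.Agent.P.MP_7ede32_ag.Hod.MT
import Pool.Agent.P.MP_7ede32_ag.Hod.BrU

/-!
The hyperelliptic involution in a family.
-/

open Set Filter Topology Metric Polynomial

noncomputable section

namespace Pool.Agent.P.MP_7ede32_ag.Hod

open Ell (E2)

namespace HypA

/-- an analytic function on a disc with uncountably many zeros is zero -/
lemma zero1 {f : ℂ → ℂ} {c : ℂ} {ρ : ℝ} (hf : AnalyticOnNhd ℂ f (ball c ρ))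
    (h : ¬ {v | v ∈ ball c ρ ∧ f v = 0}.Countable) : ∀ v ∈ ball c ρ, f v = 0 := by
  by_contra hne
  apply h
  set Z := {v | v ∈ ball c ρ ∧ f v = 0} with hZ
  have key : ∀ x ∈ Z, ({x} : Set ℂ) ∈ 𝓝[Z] x := by
    intro x hx
    have h1 : ∀ᶠ w in 𝓝[≠] x, f w ≠ 0 := by
      by_contra hc
      apply hne
      have hc' : ∃ᶠ w in 𝓝[≠] x, f w = 0 := (not_eventually.1 hc).mono fun w hw => not_not.1 hw
      exact fun v hv => hf.eqOn_zero_of_preconnected_of_frequently_eq_zero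
        (convex_ball c ρ).isPreconnected hx.1 hc' hv
    rw [eventually_nhdsWithin_iff] at h1
    rw [mem_nhdsWithin_iff_eventually]
    filter_upwards [h1] with w hw hwZ
    by_contra hwx
    exact hw hwx hwZ.2
  obtain ⟨s, -, hs, hc⟩ := TopologicalSpace.countable_cover_nhdsWithin key
  refine hs.mono fun x hx => ?_
  obtain ⟨y, hy, hxy⟩ := mem_iUnion₂.1 (hc hx)
  rw [mem_singleton_iff.1 hxy]
  exact hy

/-- the same on a bidisc -/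
lemma zero2 {H : E2 → ℂ} {y₀ : E2} {ρ : ℝ} (hH : ∀ y ∈ ball y₀ ρ, AnalyticAt ℂ H y)
    (h : ¬ {t | ¬ {v | ((t, v) : E2) ∈ ball y₀ ρ ∧ H (t, v) = 0}.Countable}.Countable) :
    ∀ y ∈ ball y₀ ρ, H y = 0 := by
  have hb : ∀ t v, ((t, v) : E2) ∈ ball y₀ ρ ↔ t ∈ ball y₀.1 ρ ∧ v ∈ ball y₀.2 ρ := by
    intro t v
    rw [← ball_prod_same y₀.1 y₀.2 ρ]
    exact mem_prod
  intro y hy
  obtain ⟨h1, h2⟩ := (hb y.1 y.2).1 hy
  refine zero1 (f := fun t => H (t, y.2)) (c := y₀.1) (ρ := ρ) (fun t ht => ?_) (fun hc => ?_)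
    y.1 h1
  · exact AnalyticAt.comp (f := fun t : ℂ => ((t, y.2) : E2)) (hH _ ((hb t y.2).2 ⟨ht, h2⟩))
      (analyticAt_id.prod analyticAt_const)
  · refine h (hc.mono fun t ht => ?_)
    have hne : {v | ((t, v) : E2) ∈ ball y₀ ρ ∧ H (t, v) = 0}.Nonempty := by
      by_contra h0
      exact ht (by rw [not_nonempty_iff_eq_empty.1 h0]; exact countable_empty)
    obtain ⟨v₀, hv₀, -⟩ := hne
    have ht1 := ((hb t v₀).1 hv₀).1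
    refine ⟨ht1, zero1 (f := fun v => H (t, v)) (c := y₀.2) (ρ := ρ) (fun v hv => ?_)
      (fun hc' => ht (hc'.mono fun v hv => And.intro ((hb t v).1 hv.1).2 hv.2)) y.2 h2⟩
    exact AnalyticAt.comp (f := fun v : ℂ => ((t, v) : E2)) (hH _ ((hb t v).2 ⟨ht1, hv⟩))
      (analyticAt_const.prod analyticAt_id)

variable {L : PeriodPair} {𝒴 : Pl L}

lemma fb_neBot (𝒴 : Pl L) (t : ℂ) : (𝒴.fb t).NeBot := by
  refine ⟨fun h => ?_⟩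
  have h0 : ∀ᶠ q in 𝒴.fb t, (fun _ => False) q := by rw [h]; exact eventually_bot
  exact Pl.fb_uncountable h0 (by simp)

/-- the points near which `G` holds on the surface -/
def Nb (𝒴 : Pl L) (G : E3 → Prop) (q : E3) : Prop := 𝒴.On q ∧ ∀ᶠ q' in 𝓝 q, 𝒴.On q' → G q'

lemma Nb.self {G : E3 → Prop} {q : E3} (h : Nb 𝒴 G q) : G q := h.2.self_of_nhds h.1

/-- the data attached to a pair of points -/
structure Dat (𝒴 : Pl L) (G : E3 → Prop) (r : E3 → ℂ) (y₀ : E2) (ρ : ℝ) (γ γ' : E2 → E3)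
    (W : Set (E3 × E3)) : Prop where
  pos : 0 < ρ
  an : ∀ y ∈ ball y₀ ρ, AnalyticAt ℂ γ y ∧ AnalyticAt ℂ γ' y
  c1 : ∀ y ∈ ball y₀ ρ, G (γ y) ∧ 𝒴.On (γ y) ∧ (γ y).1 = y.1 ∧ r (γ y) = y.2
  c2 : ∀ y ∈ ball y₀ ρ, G (γ' y) ∧ 𝒴.On (γ' y) ∧ (γ' y).1 = y.1 ∧ r (γ' y) = y.2
  ne : ∀ y ∈ ball y₀ ρ, γ y ≠ γ' y
  inv : ∀ a ∈ W, 𝒴.On a.1 → 𝒴.On a.2 →
    ((a.1.1, r a.1) : E2) ∈ ball y₀ ρ ∧ γ (a.1.1, r a.1) = a.1 ∧ γ' (a.2.1, r a.2) = a.2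

lemma chart {G : E3 → Prop} {r : E3 → ℂ} {q : E3} (h : Nb 𝒴 G q) (ho : 𝒴.Ok q)
    (hr : AnalyticAt ℂ r q) (h0 : 𝒴.dX r q ≠ 0) : ∃ γ : E2 → E3, γ (q.1, r q) = q ∧
      (∀ᶠ y in 𝓝 ((q.1, r q) : E2), AnalyticAt ℂ γ y ∧
        G (γ y) ∧ 𝒴.On (γ y) ∧ (γ y).1 = y.1 ∧ r (γ y) = y.2) ∧
      ∀ᶠ q' in 𝓝 q, 𝒴.On q' → γ (q'.1, r q') = q' := by
  obtain ⟨γ, h1, h2, h3, h4⟩ := ho.par hr h0
  refine ⟨γ, h2, ?_, h4⟩
  have h5 : Tendsto γ (𝓝 (q.1, r q)) (𝓝 q) := by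
    have := h1.continuousAt.tendsto
    rwa [h2] at this
  filter_upwards [h1.eventually_analyticAt, h3, h5.eventually h.2] with y a b c
  exact ⟨a, c b.1, b⟩

lemma exists_dat {G : E3 → Prop} {r : E3 → ℂ}
    (hG : ∀ q, G q → 𝒴.Ok q ∧ AnalyticAt ℂ r q ∧ 𝒴.dX r q ≠ 0) {p : E3 × E3}
    (h1 : Nb 𝒴 G p.1) (h2 : Nb 𝒴 G p.2) (hne : p.1 ≠ p.2) (ht : p.2.1 = p.1.1)
    (hr : r p.2 = r p.1) : ∃ y₀ ρ γ γ' W, W ∈ 𝓝 p ∧ Dat 𝒴 G r y₀ ρ γ γ' W := by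
  obtain ⟨a1, a2, a3⟩ := hG _ h1.self
  obtain ⟨b1, b2, b3⟩ := hG _ h2.self
  obtain ⟨γ, c1, c2, c3⟩ := chart h1 a1 a2 a3
  obtain ⟨γ', d1, d2, d3⟩ := chart h2 b1 b2 b3
  rw [ht, hr] at d1 d2
  have e1 : ∀ᶠ y in 𝓝 ((p.1.1, r p.1) : E2), γ y ≠ γ' y := by
    refine (c2.self_of_nhds.1.continuousAt.ne_iff_eventually_ne
      d2.self_of_nhds.1.continuousAt).1 ?_
    rw [c1, d1]
    exact hne
  obtain ⟨ρ, hρ, hb⟩ := Metric.eventually_nhds_iff_ball.1 (c2.and (d2.and e1))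
  have e2 : ∀ᶠ a in 𝓝 p.1, ((a.1, r a) : E2) ∈ ball ((p.1.1, r p.1) : E2) ρ :=
    (continuous_fst.continuousAt.prodMk a2.continuousAt).eventually (ball_mem_nhds _ hρ)
  have e3 : ∀ᶠ a : E3 × E3 in 𝓝 p, 𝒴.On a.1 → 𝒴.On a.2 →
      ((a.1.1, r a.1) : E2) ∈ ball ((p.1.1, r p.1) : E2) ρ ∧ γ (a.1.1, r a.1) = a.1 ∧
        γ' (a.2.1, r a.2) = a.2 := by
    filter_upwards [continuous_fst.continuousAt.eventually (e2.and c3),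
      continuous_snd.continuousAt.eventually d3] with a x1 x2 o1 o2
    exact ⟨x1.1, x1.2 o1, x2 o2⟩
  exact ⟨_, ρ, γ, γ', _, e3, hρ, fun y hy => ⟨(hb y hy).1.1, (hb y hy).2.1.1⟩,
    fun y hy => (hb y hy).1.2, fun y hy => (hb y hy).2.1.2, fun y hy => (hb y hy).2.2,
    fun a ha => ha⟩

/-- the main argument -/
lemma main {ι : Type} {G : E3 → Prop} {r : E3 → ℂ} {K : ι → E3 × E3 → ℂ}
    (hG : ∀ q, G q → 𝒴.Ok q ∧ AnalyticAt ℂ r q ∧ 𝒴.dX r q ≠ 0)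
    (hK : ∀ i q q', G q → G q' → AnalyticAt ℂ (K i) (q, q'))
    (h : ∃ᶠ t in cc, ∀ᶠ q in 𝒴.fb t, Nb 𝒴 G q ∧ ∃ q', Nb 𝒴 G q' ∧ q'.1 = t ∧ q' ≠ q ∧
      r q' = r q ∧ ∀ i, K i (q, q') = 0) :
    ∃ y₀ ρ γ γ' W, Dat 𝒴 G r y₀ ρ γ γ' W ∧ ∀ y ∈ ball y₀ ρ, ∀ i, K i (γ y, γ' y) = 0 := by
  set S : Set (E3 × E3) :=
    {p | Nb 𝒴 G p.1 ∧ Nb 𝒴 G p.2 ∧ p.1 ≠ p.2 ∧ p.2.1 = p.1.1 ∧ r p.2 = r p.1} with hS
  have h1 : ∀ p ∈ S, ∃ y₀ ρ γ γ' W, W ∈ 𝓝 p ∧ Dat 𝒴 G r y₀ ρ γ γ' W := fun p hp =>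
    exists_dat hG hp.1 hp.2.1 hp.2.2.1 hp.2.2.2.1 hp.2.2.2.2
  choose! y₀ ρ γ γ' W hW hD using h1
  obtain ⟨C, hCS, hC, hcov⟩ := TopologicalSpace.countable_cover_nhdsWithin (f := W) (s := S)
    fun p hp => mem_nhdsWithin_of_mem_nhds (hW p hp)
  set V : E3 × E3 → ℂ → Set ℂ := fun p t =>
    {v | ((t, v) : E2) ∈ ball (y₀ p) (ρ p) ∧ ∀ i, K i (γ p (t, v), γ' p (t, v)) = 0} with hV
  have h2 : ∃ p ∈ C, ¬ {t | ¬ (V p t).Countable}.Countable := by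
    by_contra hc
    have hc' : ∀ p ∈ C, {t | ¬ (V p t).Countable}.Countable := fun p hp => by
      by_contra h'
      exact hc ⟨p, hp, h'⟩
    have h3 : ∀ᶠ t in cc, ∀ p ∈ C, (V p t).Countable := by
      refine mem_cocountable.2 ((hC.biUnion hc').mono fun t ht => ?_)
      by_contra h'
      refine ht fun p hp => ?_
      by_contra h''
      exact h' (mem_iUnion₂.2 ⟨p, hp, h''⟩)
    obtain ⟨t, ht1, ht2⟩ := (h.and_eventually h3).exists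
    refine Pl.fb_uncountable ht1 ((hC.biUnion fun p hp =>
      (ht2 p hp).image fun v => γ p (t, v)).mono ?_)
    rintro q ⟨hq1, hq2, hq3, q', a1, a2, a3, a4, a5⟩
    have hm : (q, q') ∈ S := ⟨hq3, a1, a3.symm, a2.trans hq1.symm, a4⟩
    obtain ⟨p, hp, hpW⟩ := mem_iUnion₂.1 (hcov hm)
    obtain ⟨b1, b2, b3⟩ := (hD p (hCS hp)).inv _ hpW hq2 a1.1
    dsimp only at b1 b2 b3
    rw [hq1] at b1 b2
    rw [a2, a4] at b3
    refine mem_iUnion₂.2 ⟨p, hp, r q, ⟨b1, fun i => ?_⟩, b2⟩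
    rw [b2, b3]
    exact a5 i
  obtain ⟨p, hp, h3⟩ := h2
  have hd := hD p (hCS hp)
  refine ⟨_, _, _, _, _, hd, fun y hy i => ?_⟩
  refine zero2 (H := fun y => K i (γ p y, γ' p y)) (fun y hy => ?_) (fun hc => h3 ?_) y hy
  · exact AnalyticAt.comp (f := fun y => (γ p y, γ' p y))
      (hK i _ _ (hd.c1 y hy).1 (hd.c2 y hy).1) ((hd.an y hy).1.prod (hd.an y hy).2)
  · refine hc.mono fun t ht => ?_
    intro hc'
    exact ht (hc'.mono fun v hv => And.intro hv.1 (hv.2 i))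

lemma cb_single {g : ℕ} (φ : Fin g → E3 → ℂ) (i : Fin g) :
    cb (fun _ => Pi.single i 1) φ = φ i := by
  funext q
  simp [cb, Pi.single_apply]

lemma irr_cd (hI : SIrr) (Φ : Fam 𝒴) : ∀ᶠ t in cd, 𝒴.Irr t := by
  filter_upwards [Φ.mem] with t ht
  exact (Φ.md t ht).irr hI

lemma irr (hI : SIrr) (Φ : Fam 𝒴) : Irreducible 𝒴.P := by
  have : cd.NeBot := cc_neBot.mono cc_le_cd
  exact irreducible_of_sp 𝒴.monic ((irr_cd hI Φ).mono fun t ht => ht.2).frequently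

/-- the ratio of two forms of the basis is a coordinate at the generic points -/
lemma dX_ne (hI : SIrr) {Φ : Fam 𝒴} {g : ℕ} {N : Fin g → (KK L)[X][X]} {i₁ i₂ : Fin g}
    (hB : Φ.Bas N) (hi : i₁ ≠ i₂) :
    ∀ᶠ q in 𝒴.gen, 𝒴.dX (fun q => 𝒴.phs N i₁ q / 𝒴.phs N i₂ q) q ≠ 0 := by
  have h1 : 𝒴.Rat fun q => 𝒴.phs N i₁ q / 𝒴.phs N i₂ q :=
    (Pl.rat_ph (N i₁)).div (Pl.rat_ph (N i₂)) (irr hI Φ) (hB.ne hI i₂)
  refine h1.dX.ne_of_fb (irr hI Φ) ?_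
  have : cd.NeBot := cc_neBot.mono cc_le_cd
  refine Eventually.frequently ?_
  filter_upwards [hB.ind, irr_cd hI Φ] with t h2 h3
  have := fb_neBot 𝒴 t
  have h4 := h2.1.dX_ne h2.2 h3 (a := fun _ => Pi.single i₁ 1) (b := fun _ => Pi.single i₂ 1)
    (fun _ => analyticAt_const) (fun _ => analyticAt_const) (fun c d e => by
      have e1 := congrFun e i₁
      have e2 := congrFun e i₂
      simp [hi, hi.symm] at e1 e2
      exact ⟨e1, e2⟩)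
  rw [cb_single, cb_single] at h4
  exact (h4.mono fun q hq => hq.2).frequently

end HypA

open HypA in
theorem sHypA (h : SIrr) : SHypA := by
  intro L 𝒴 Φ g N i₁ i₂ T hB hi hA hT
  set φ := 𝒴.phs N with hφ
  set r : E3 → ℂ := fun q => φ i₁ q / φ i₂ q with hr
  set G : E3 → Prop := fun q =>
    𝒴.Ok q ∧ T q ∧ (∀ i, AnalyticAt ℂ (φ i) q) ∧ φ i₂ q ≠ 0 ∧ 𝒴.dX r q ≠ 0 with hG
  have h1 : ∀ᶠ q in 𝒴.gen, G q := by
    have a : ∀ᶠ q in 𝒴.gen, ∀ i, AnalyticAt ℂ (φ i) q :=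
      eventually_all.2 fun i => (Pl.rat_ph (N i)).1
    filter_upwards [𝒴.gen_ok, hT, a, hB.ne h i₂, dX_ne h hB hi] with q a1 a2 a3 a4 a5
    exact ⟨a1, a2, a3, a4, a5⟩
  have h2 : ∀ᶠ q in 𝒴.gen, Nb 𝒴 G q := by
    filter_upwards [𝒴.gen_ok, Pl.gen_nhds h1] with q a1 a2
    exact ⟨a1.2.1, a2⟩
  obtain ⟨y₀, ρ, γ, γ', W, hd, hK⟩ := main (𝒴 := 𝒴) (G := G) (r := r)
    (K := fun i p => φ i p.2 * φ i₂ p.1 - φ i p.1 * φ i₂ p.2)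
    (fun q hq => ⟨hq.1, (hq.2.2.1 i₁).div (hq.2.2.1 i₂) hq.2.2.2.1, hq.2.2.2.2⟩)
    (fun i q q' hq hq' => by
      have a : ∀ j, AnalyticAt ℂ (fun p : E3 × E3 => φ j p.1) (q, q') := fun j =>
        AnalyticAt.comp (f := fun p : E3 × E3 => p.1) (hq.2.2.1 j) analyticAt_fst
      have b : ∀ j, AnalyticAt ℂ (fun p : E3 × E3 => φ j p.2) (q, q') := fun j =>
        AnalyticAt.comp (f := fun p : E3 × E3 => p.2) (hq'.2.2.1 j) analyticAt_snd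
      exact ((b i).mul (a i₂)).sub ((a i).mul (b i₂)))
    (by
      refine (hA.and_eventually ((Pl.gen_fb h2).filter_mono cc_le_cd)).mono fun t ht => ?_
      filter_upwards [ht.2, ht.1 _ ht.2] with q a1 ⟨q', b1, b2, _, b4, l, b5⟩
      have hl : l ≠ 0 := fun e => b1.self.2.2.2.1 (by rw [hφ, b5, e, zero_mul])
      refine ⟨a1, q', b1, b2, b4, ?_, fun i => ?_⟩
      · simp only [hr, hφ, b5]
        exact mul_div_mul_left _ _ hl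
      · simp only [hφ, b5]
        ring)
  have hy : y₀ ∈ ball y₀ ρ := mem_ball_self hd.pos
  refine ⟨y₀, γ, γ', (hd.an _ hy).1, (hd.an _ hy).2, ?_⟩
  filter_upwards [ball_mem_nhds y₀ hd.pos] with y hy
  exact ⟨⟨(hd.c1 y hy).1.2.1, (hd.c1 y hy).2⟩, ⟨(hd.c2 y hy).1.2.1, (hd.c2 y hy).2⟩, hd.ne y hy,
    fun i => sub_eq_zero.1 (hK y hy i)⟩

end Pool.Agent.P.MP_7ede32_ag.Hod
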