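import Pool.Agent.P.MP_7ede32_ag.Hod.StF
import Pool.Agent.P.MP_7ede32_ag.Hod.MT
import Pool.Agent.P.MP_7ede32_ag.Hod.BrU

/-!
The Kodaira-Spencer class of a hyperelliptic family.
-/

open Set Filter Topology Polynomial Matrix

noncomputable section

namespace Pool.Agent.P.MP_7ede32_ag.Hod

open Ell (E2)

namespace HypBP

variable {L : PeriodPair} {𝒴 : Pl L} {g : ℕ} {N : Fin g → (KK L)[X][X]} {i₁ i₂ : Fin g}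
  {m : Matrix (Fin g) (Fin g) (KK L)} {u : Fin g → E3 → ℂ} {γ γ' : E2 → E3} {y y₀ : E2}

theorem fd_mul {f h : E2 → ℂ} (hf : AnalyticAt ℂ f y) (hh : AnalyticAt ℂ h y) (v : E2) :
    fderiv ℂ (fun y => f y * h y) y v = fderiv ℂ f y v * h y + f y * fderiv ℂ h y v := by
  rw [fderiv_fun_mul hf.differentiableAt hh.differentiableAt]
  simp only [_root_.add_apply, _root_.smul_apply, smul_eq_mul]
  ring

theorem fd_add {f h : E2 → ℂ} (hf : AnalyticAt ℂ f y) (hh : AnalyticAt ℂ h y) (v : E2) :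
    fderiv ℂ (fun y => f y + h y) y v = fderiv ℂ f y v + fderiv ℂ h y v := by
  rw [fderiv_fun_add hf.differentiableAt hh.differentiableAt]
  rfl

/-- the good points -/
def T (𝒴 : Pl L) (N : Fin g → (KK L)[X][X]) (i₂ : Fin g) (m : Matrix (Fin g) (Fin g) (KK L))
    (u : Fin g → E3 → ℂ) (q : E3) : Prop :=
  𝒴.Ok q ∧ (∀ i, AnalyticAt ℂ (𝒴.phs N i) q) ∧ (∀ i, AnalyticAt ℂ (u i) q) ∧
    (∀ i, 𝒴.dX (u i) q = 𝒴.dT (𝒴.phs N i) q - ∑ j, rv (m i j) q.1 * 𝒴.phs N j q) ∧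
    𝒴.phs N i₂ q ≠ 0 ∧ (𝒴.CwB N u q.1 ∧ 𝒴.SepAt N q.1) ∧ 𝒴.Irr q.1 ∧
    (∀ i, 𝒴.RatF q.1 (𝒴.phs N i)) ∧ ∀ i, 𝒴.RatF q.1 (u i)

/-- a chart -/
def Ch (𝒴 : Pl L) (N : Fin g → (KK L)[X][X]) (i₁ i₂ : Fin g) (m : Matrix (Fin g) (Fin g) (KK L))
    (u : Fin g → E3 → ℂ) (γ : E2 → E3) (y : E2) : Prop :=
  AnalyticAt ℂ γ y ∧ ∀ᶠ y' in 𝓝 y, T 𝒴 N i₂ m u (γ y') ∧ 𝒴.On (γ y') ∧ (γ y').1 = y'.1 ∧
    𝒴.phs N i₁ (γ y') / 𝒴.phs N i₂ (γ y') = y'.2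

/-- the coordinate -/
def xx (γ : E2 → E3) (y : E2) : ℂ := (γ y).2.1

/-- the forms in the chart -/
def ps (𝒴 : Pl L) (N : Fin g → (KK L)[X][X]) (γ : E2 → E3) (i : Fin g) (y : E2) : ℂ :=
  𝒴.phs N i (γ y) * dw (xx γ) y

/-- the primitives in the chart -/
def UU (𝒴 : Pl L) (N : Fin g → (KK L)[X][X]) (u : Fin g → E3 → ℂ) (γ : E2 → E3) (i : Fin g)
    (y : E2) : ℂ := u i (γ y) + 𝒴.phs N i (γ y) * du (xx γ) y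

namespace Ch

theorem ev (h : Ch 𝒴 N i₁ i₂ m u γ y) : ∀ᶠ y' in 𝓝 y, Ch 𝒴 N i₁ i₂ m u γ y' :=
  h.1.eventually_analyticAt.and h.2.eventually_nhds

theorem t (h : Ch 𝒴 N i₁ i₂ m u γ y) : T 𝒴 N i₂ m u (γ y) := h.2.self_of_nhds.1

theorem fst (h : Ch 𝒴 N i₁ i₂ m u γ y) : (γ y).1 = y.1 := h.2.self_of_nhds.2.2.1

theorem ax (h : Ch 𝒴 N i₁ i₂ m u γ y) : AnalyticAt ℂ (xx γ) y :=
  analyticAt_fst.comp (analyticAt_snd.comp h.1)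

theorem aφ (h : Ch 𝒴 N i₁ i₂ m u γ y) (i : Fin g) :
    AnalyticAt ℂ (fun y => 𝒴.phs N i (γ y)) y := (h.t.2.1 i).comp h.1

theorem au (h : Ch 𝒴 N i₁ i₂ m u γ y) (i : Fin g) : AnalyticAt ℂ (fun y => u i (γ y)) y :=
  (h.t.2.2.1 i).comp h.1

theorem aU (h : Ch 𝒴 N i₁ i₂ m u γ y) (i : Fin g) : AnalyticAt ℂ (UU 𝒴 N u γ i) y :=
  (h.au i).add ((h.aφ i).mul (an_du h.ax))

theorem one (h : Ch 𝒴 N i₁ i₂ m u γ y) :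
    dw (xx γ) y * 𝒴.dX (fun q => 𝒴.phs N i₁ q / 𝒴.phs N i₂ q) (γ y) = 1 :=
  (Pl.par_deriv h.t.1 h.1 ((h.t.2.1 i₁).div (h.t.2.1 i₂) h.t.2.2.2.2.1)
    (h.2.mono fun _ a => a.2)).1

theorem ne (h : Ch 𝒴 N i₁ i₂ m u γ y) : dw (xx γ) y ≠ 0 := left_ne_zero_of_mul_eq_one h.one

theorem chain (h : Ch 𝒴 N i₁ i₂ m u γ y) {F : E3 → ℂ} (hF : AnalyticAt ℂ F (γ y)) (v : E2) :
    fderiv ℂ (fun b => F (γ b)) y v =
      v.1 * 𝒴.dT F (γ y) + fderiv ℂ (xx γ) y v * 𝒴.dX F (γ y) := by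
  have e : (fun b => (γ b).1) =ᶠ[𝓝 y] Prod.fst := h.2.mono fun _ a => a.2.2.1
  rw [h.t.1.chain h.1.differentiableAt (h.2.mono fun _ a => a.2.1) hF.differentiableAt,
    e.fderiv_eq, fderiv_fst]
  rfl

theorem gm (h : Ch 𝒴 N i₁ i₂ m u γ y) (i : Fin g) : du (ps 𝒴 N γ i) y =
    dw (UU 𝒴 N u γ i) y + ∑ j, rv (m i j) y.1 * ps 𝒴 N γ j y := by
  have a1 := fd_mul (h.aφ i) (an_dw h.ax) (1, 0)
  have a2 := fd_add (h.au i) ((h.aφ i).mul (an_du h.ax)) (0, 1)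
  have a3 := fd_mul (h.aφ i) (an_du h.ax) (0, 1)
  have a4 := h.chain (h.t.2.1 i) (1, 0)
  have a5 := h.chain (h.t.2.1 i) (0, 1)
  have a6 := h.chain (h.t.2.2.1 i) (0, 1)
  have a7 := du_dw h.ax
  have a8 := h.t.2.2.2.1 i
  have a9 : ∑ j, rv (m i j) y.1 * ps 𝒴 N γ j y =
      (∑ j, rv (m i j) (γ y).1 * 𝒴.phs N j (γ y)) * dw (xx γ) y := by
    rw [Finset.sum_mul, h.fst]
    exact Finset.sum_congr rfl fun j _ => (mul_assoc _ _ _).symm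
  have b1 : du (ps 𝒴 N γ i) y = (𝒴.dT (𝒴.phs N i) (γ y) + du (xx γ) y * 𝒴.dX (𝒴.phs N i) (γ y)) *
      dw (xx γ) y + 𝒴.phs N i (γ y) * du (dw (xx γ)) y := by
    rw [a4, one_mul] at a1
    exact a1
  have b2 : dw (UU 𝒴 N u γ i) y = dw (xx γ) y * 𝒴.dX (u i) (γ y) +
      (dw (xx γ) y * 𝒴.dX (𝒴.phs N i) (γ y) * du (xx γ) y +
        𝒴.phs N i (γ y) * dw (du (xx γ)) y) := by
    rw [a5, zero_mul, zero_add] at a3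
    rw [a6, zero_mul, zero_add] at a2
    exact a2.trans (congrArg _ a3)
  rw [b1, b2, a9, a8, a7]
  ring

theorem fb (h : Ch 𝒴 N i₁ i₂ m u γ y) :
    Tendsto (fun v => γ (y.1, v)) (𝓝[≠] y.2) (𝒴.fb y.1) :=
  Pl.par_fb h.1 (h.2.mono fun _ a => ⟨a.2.1, a.2.2.1⟩) h.ne

theorem kos (h : Ch 𝒴 N i₁ i₂ m u γ y) {c : Fin g → Fin g → Fin g → ℂ}
    (hc : ∀ᶠ q in 𝒴.fb y.1, ∀ i j, u i q * 𝒴.phs N j q - u j q * 𝒴.phs N i q =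
      c i j ⬝ᵥ fun k => 𝒴.phs N k q) : ∀ᶠ v in 𝓝[≠] y.2, ∀ i j,
      UU 𝒴 N u γ i (y.1, v) * ps 𝒴 N γ j (y.1, v) - UU 𝒴 N u γ j (y.1, v) * ps 𝒴 N γ i (y.1, v) =
        ∑ k, c i j k * ps 𝒴 N γ k (y.1, v) := by
  filter_upwards [h.fb.eventually hc] with v a i j
  have b : ∑ k, c i j k * ps 𝒴 N γ k (y.1, v) =
      (c i j ⬝ᵥ fun k => 𝒴.phs N k (γ (y.1, v))) * dw (xx γ) (y.1, v) := by
    rw [dotProduct, Finset.sum_mul]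
    exact Finset.sum_congr rfl fun k _ => (mul_assoc _ _ _).symm
  rw [b, ← a i j, UU, UU, ps, ps]
  ring

theorem neg (h : Ch 𝒴 N i₁ i₂ m u γ y) (h' : Ch 𝒴 N i₁ i₂ m u γ' y) (hn : γ y ≠ γ' y)
    (he : ∀ i, 𝒴.phs N i (γ' y) * 𝒴.phs N i₂ (γ y) = 𝒴.phs N i (γ y) * 𝒴.phs N i₂ (γ' y))
    (i : Fin g) : ps 𝒴 N γ' i y = -ps 𝒴 N γ i y := by
  have h0 := h.t.2.2.2.2.1
  have a1 : ∀ i, 𝒴.phs N i (γ' y) = 𝒴.phs N i₂ (γ' y) / 𝒴.phs N i₂ (γ y) * 𝒴.phs N i (γ y) := by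
    intro i
    rw [div_mul_eq_mul_div, eq_div_iff h0, he i, mul_comm]
  have a2 : ∀ i, cb (fun _ => Pi.single i 1) (𝒴.phs N) = 𝒴.phs N i := by
    intro i
    funext q
    simp [cb, Pi.single_apply]
  have a3 := h.t.2.2.2.2.2.1.2 (γ y) (γ' y) _ h.t.1 h'.t.1 rfl (h'.fst.trans h.fst.symm) hn a1
    (fun _ => Pi.single i₁ 1) (fun _ => Pi.single i₂ 1) (fun _ => analyticAt_const)
    (fun _ => analyticAt_const) (by rw [a2]; exact h0)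
  simp only [a2] at a3
  have a4 := h'.one
  have a5 := h.one
  rw [a3] at a4
  rw [ps, ps, a1 i]
  linear_combination (-(𝒴.phs N i (γ y) * dw (xx γ) y)) * a4 -
    (𝒴.phs N i₂ (γ' y) / 𝒴.phs N i₂ (γ y) * 𝒴.phs N i (γ y) * dw (xx γ') y) * a5

end Ch

theorem alt (h : Ch 𝒴 N i₁ i₂ m u γ y) (h' : Ch 𝒴 N i₁ i₂ m u γ' y) {f : Fin g → ℂ → ℂ}
    (h1 : ∀ᶠ y' in 𝓝 y, ∀ i, ps 𝒴 N γ' i y' = -ps 𝒴 N γ i y')
    (h2 : ∀ᶠ y' in 𝓝 y, ∀ i, UU 𝒴 N u γ i y' + UU 𝒴 N u γ' i y' = f i y'.1) :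
    𝒴.AltI N u y.1 := by
  obtain ⟨-, -, -, -, -, ⟨⟨c, hc⟩, -⟩, a1, a2, a3⟩ := h.t
  rw [h.fst] at hc a1 a2 a3
  have ht : Tendsto (fun v : ℂ => ((y.1, v) : E2)) (𝓝[≠] y.2) (𝓝 y) :=
    ((by fun_prop : Continuous fun v : ℂ => ((y.1, v) : E2)).tendsto' _ _ rfl).mono_left
      nhdsWithin_le_nhds
  refine ⟨fun i => f i y.1 / 2, eventually_all.mpr fun i => eventually_all.mpr fun j => ?_⟩
  refine Pl.RatF.eq_of_frequently (((a3 i).sub (Pl.ratF_const _)).mul (a2 j))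
    (((a3 j).sub (Pl.ratF_const _)).mul (a2 i)) a1 (h.fb.frequently (Eventually.frequently ?_))
  filter_upwards [h.kos hc, h'.kos hc, ht.eventually h1, ht.eventually h2, ht.eventually h.ev]
    with v b1 b2 b3 b4 b5
  have c1 := b1 i j
  have c2 := b2 i j
  simp only [b3, mul_neg, Finset.sum_neg_distrib] at c2
  have c3 := b4 i
  have c4 := b4 j
  refine mul_right_cancel₀ b5.ne ?_
  have c5 : (UU 𝒴 N u γ i (y.1, v) - f i y.1 / 2) * ps 𝒴 N γ j (y.1, v) =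
      (UU 𝒴 N u γ j (y.1, v) - f j y.1 / 2) * ps 𝒴 N γ i (y.1, v) := by
    linear_combination (1 / 2) * c1 + (1 / 2) * c2 + (ps 𝒴 N γ j (y.1, v) / 2) * c3 -
      (ps 𝒴 N γ i (y.1, v) / 2) * c4
  rw [UU, UU, ps, ps] at c5
  linear_combination c5

end HypBP

open HypBP

theorem sHypB (h : SIrr) : SHypB := by
  intro L 𝒴 Φ g N i₁ i₂ m u hB _ hC hG H
  have hT : ∀ᶠ q in 𝒴.gen, T 𝒴 N i₂ m u q := by
    filter_upwards [𝒴.gen_ok, eventually_all.mpr fun i => (Pl.rat_ph (𝒴 := 𝒴) (N i)).1,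
      eventually_all.mpr fun i => (hC.rat i).1, hC.eq, hB.ne h i₂, Pl.gen_fst hG,
      Pl.gen_fst (Φ.irr_cd h), Pl.gen_fst hB.ind,
      Pl.gen_fst (eventually_all.mpr fun i => (hC.rat i).ratF)] with q a1 a2 a3 a4 a5 a6 a7 a8 a9
      using ⟨a1, a2, a3, a4, a5, a6, a7, a8.2, a9⟩
  obtain ⟨y₀, γ, γ', hγ, hγ', h0⟩ := H _ hT
  have c1 : Ch 𝒴 N i₁ i₂ m u γ y₀ := ⟨hγ, h0.mono fun _ a => a.1⟩
  have c2 : Ch 𝒴 N i₁ i₂ m u γ' y₀ := ⟨hγ', h0.mono fun _ a => a.2.1⟩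
  have h1 : ∀ᶠ y in 𝓝 y₀, ∀ i, ps 𝒴 N γ' i y = -ps 𝒴 N γ i y := by
    filter_upwards [c1.ev, c2.ev, h0] with y a1 a2 a3 using a1.neg a2 a3.2.2.1 a3.2.2.2
  have h2 : ∀ᶠ y in 𝓝 y₀, ∀ i, UU 𝒴 N u γ i y + UU 𝒴 N u γ' i y =
      UU 𝒴 N u γ i (y.1, y₀.2) + UU 𝒴 N u γ' i (y.1, y₀.2) := by
    refine eventually_all.mpr fun i => eq_of_dw
      (f := fun y => UU 𝒴 N u γ i y + UU 𝒴 N u γ' i y) ((c1.aU i).add (c2.aU i)) ?_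
    filter_upwards [c1.ev, c2.ev, h1.eventually_nhds] with y a1 a2 a3
    have b1 : ps 𝒴 N γ' i =ᶠ[𝓝 y] -ps 𝒴 N γ i := a3.mono fun _ a => a i
    have b2 : du (ps 𝒴 N γ' i) y = -du (ps 𝒴 N γ i) y := by
      rw [du, b1.fderiv_eq, fderiv_neg]
      rfl
    have b3 := a1.gm i
    have b4 := a2.gm i
    simp only [a3.self_of_nhds, mul_neg, Finset.sum_neg_distrib] at b4
    have b5 : dw (fun y => UU 𝒴 N u γ i y + UU 𝒴 N u γ' i y) y =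
        dw (UU 𝒴 N u γ i) y + dw (UU 𝒴 N u γ' i) y := fd_add (a1.aU i) (a2.aU i) (0, 1)
    linear_combination b5 + b2 - b3 - b4
  have h3 : ∀ᶠ y in 𝓝 y₀, 𝒴.AltI N u y.1 := by
    filter_upwards [c1.ev, c2.ev, h1.eventually_nhds, h2.eventually_nhds] with y a1 a2 a3 a4
      using alt a1 a2 (f := fun i t => UU 𝒴 N u γ i (t, y₀.2) + UU 𝒴 N u γ' i (t, y₀.2)) a3 a4
  have h4 : ∀ᶠ t in 𝓝 y₀.1, 𝒴.AltI N u t :=
    ((by fun_prop : Continuous fun t : ℂ => ((t, y₀.2) : E2)).tendsto' _ _ rfl).eventually h3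
  exact (Eventually.frequently (f := 𝓝[≠] y₀.1 ⊓ cc)
    (h4.filter_mono (inf_le_left.trans nhdsWithin_le_nhds))).filter_mono inf_le_right

end Pool.Agent.P.MP_7ede32_ag.Hod
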