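import Pool.Agent.P.MP_7ede32_ag.Hod.RU

/-!
The plane model is irreducible, and a polynomial that vanishes on the surface is a multiple of
the equation.
-/

open Set Filter Topology Polynomial

namespace Pool.Agent.P.MP_7ede32_ag.Hod

open MP_5d7cf0_gt.T (RS An an_eq_zero)

namespace IrrP

variable {Y : Type} [TopologicalSpace Y] [ChartedSpace ℂ Y] [RS Y]

theorem dvd (M : PM Y) (N : ℂ[X][X]) (h : ∀ᶠ p in cofinite, M.ev N p = 0) : M.P ∣ N := by
  classical
  have h1 := (M.cofinite_iff (q := fun ξ η => N.evalEval ξ η = 0)).mp h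
  have hR : ∀ᶠ ξ in cofinite, M.R.eval ξ ≠ 0 := by
    have := M.R.finite_setOf_isRoot M.toXC.R_ne
    rw [eventually_cofinite]
    simpa [IsRoot.def] using this
  have hne : M.P ≠ 1 := fun e => by
    have := M.pos
    rw [e, natDegree_one] at this
    exact lt_irrefl _ this
  have hdeg : (N %ₘ M.P).natDegree < M.P.natDegree := natDegree_modByMonic_lt N M.monic hne
  have h2 : ∀ᶠ ξ in cofinite, (N %ₘ M.P).map (evalRingHom ξ) = 0 := by
    filter_upwards [h1, hR] with ξ a b
    obtain ⟨hf, hc⟩ := roots_card M.monic M.bez b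
    refine eq_zero_of_natDegree_lt_card_of_eval_eq_zero' _ hf.toFinset (fun η hη => ?_) ?_
    · have h3 : M.P.evalEval ξ η = 0 := by simpa using hη
      have h4 := congrArg (evalEval ξ η) (modByMonic_add_div N M.P)
      rw [evalEval_add, evalEval_mul, h3, zero_mul, add_zero, a η h3] at h4
      rwa [map_evalRingHom_eval]
    · rw [← Set.ncard_eq_toFinset_card _ hf, hc]
      exact natDegree_map_le.trans_lt hdeg
  rw [← modByMonic_eq_zero_iff_dvd M.monic]
  ext1 j
  refine eq_zero_of_infinite_isRoot _ ?_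
  refine (Set.infinite_of_finite_compl (eventually_cofinite.mp h2)).mono fun ξ hξ => ?_
  have h5 := congrArg (fun q => q.coeff j) (show (N %ₘ M.P).map (evalRingHom ξ) = 0 from hξ)
  simpa using h5

theorem one (M : PM Y) {f g : ℂ[X][X]} (hf : f.Monic) (hg : g.Monic) (e : f * g = M.P) {p : Y}
    (h : ∀ᶠ y in 𝓝[≠] p, M.ev f y = 0) : g = 1 := by
  have h1 := an_eq_zero M.fin (fun y hy => M.an_ev f hy) h
  have h2 : M.P ∣ f := dvd M f (M.toXC.off.mono h1)
  rw [← e] at h2
  have h3 : g ∣ 1 := (mul_dvd_mul_iff_left hf.ne_zero).mp (by rwa [mul_one])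
  exact hg.eq_one_of_isUnit (isUnit_of_dvd_one h3)

theorem irr (M : PM Y) : Irreducible M.P := by
  have hne : M.P ≠ 1 := fun e => by
    have := M.pos
    rw [e, natDegree_one] at this
    exact lt_irrefl _ this
  refine (irreducible_of_monic M.monic hne).mpr fun f g hf hg e => ?_
  obtain ⟨p, hp⟩ := (M.toXC.off_near (Classical.arbitrary Y)).exists
  rcases (M.an_ev f hp).zero_or with h | h
  · exact Or.inr (one M hf hg e (h.filter_mono nhdsWithin_le_nhds))
  · refine Or.inl (one M hg hf (by rw [mul_comm, e]) (p := p) ?_)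
    filter_upwards [h, M.toXC.off_near p] with y h1 h2
    have h3 := M.on h2
    rw [← e, PM.ev, evalEval_mul] at h3
    exact (mul_eq_zero.mp h3).resolve_left h1

end IrrP

theorem sIrr : SIrr := fun _ _ _ _ M => ⟨IrrP.dvd M, IrrP.irr M⟩

end Pool.Agent.P.MP_7ede32_ag.Hod
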