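import Pool.Agent.P.MP_7ede32_ag.Hod.StB

/-!
Taylor coefficients are controlled by the values at the roots of `u ^ μ = τ`.
-/

open Set Filter Topology Metric

namespace Pool.Agent.P.MP_7ede32_ag.Hod

namespace JetP

theorem orth {μ j k : ℕ} {ζ : ℂ} (hζ : IsPrimitiveRoot ζ μ) (hj : j < μ) (hk : k < μ) :
    ∑ l ∈ Finset.range μ, (ζ ^ (j + (μ - k))) ^ l = if j = k then (μ : ℂ) else 0 := by
  split_ifs with h
  · rw [h, show k + (μ - k) = μ by omega, hζ.pow_eq_one]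
    simp
  · have h1 : ζ ^ (j + (μ - k)) ≠ 1 := fun h1 => by
      obtain ⟨c, hc⟩ := (hζ.pow_eq_one_iff_dvd _).mp h1
      rcases c with _ | _ | c
      · omega
      · omega
      · have : μ * (c + 1 + 1) = μ * c + 2 * μ := by ring
        omega
    rw [geom_sum_eq h1, ← pow_mul, mul_comm, pow_mul, hζ.pow_eq_one, one_pow, sub_self, zero_div]

/-- the discrete Cauchy estimate -/
theorem cauchy {μ k : ℕ} (hk : k < μ) {ζ : ℂ} (hζ : IsPrimitiveRoot ζ μ) (p : ℕ → ℂ) (u : ℂ)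
    {B : ℝ} (hB : ∀ l < μ, ‖∑ j ∈ Finset.range μ, p j * (ζ ^ l * u) ^ j‖ ≤ B) :
    ‖p k‖ * ‖u‖ ^ k ≤ B := by
  have hμ : 0 < μ := by omega
  have hn : ‖ζ‖ = 1 := hζ.norm'_eq_one hμ.ne'
  have h1 : ∑ l ∈ Finset.range μ, (ζ ^ (μ - k)) ^ l *
      ∑ j ∈ Finset.range μ, p j * (ζ ^ l * u) ^ j = μ * (p k * u ^ k) := by
    simp only [Finset.mul_sum]
    rw [Finset.sum_comm]
    have h2 : ∀ j ∈ Finset.range μ, ∑ l ∈ Finset.range μ,
        (ζ ^ (μ - k)) ^ l * (p j * (ζ ^ l * u) ^ j) =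
          (if j = k then (μ : ℂ) else 0) * (p j * u ^ j) := fun j hj => by
      rw [← orth hζ (Finset.mem_range.mp hj) hk, Finset.sum_mul]
      refine Finset.sum_congr rfl fun l _ => ?_
      rw [pow_add, mul_pow, mul_pow, ← pow_mul ζ l j, ← pow_mul ζ j l, mul_comm l j]
      ring
    rw [Finset.sum_congr rfl h2]
    simp [hk]
  have h3 : (μ : ℝ) * (‖p k‖ * ‖u‖ ^ k) ≤ μ * B := by
    have h4 := congrArg norm h1
    rw [norm_mul, norm_mul, norm_pow, Complex.norm_natCast] at h4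
    rw [← h4]
    refine (norm_sum_le _ _).trans ((Finset.sum_le_card_nsmul _ _ B fun l hl => ?_).trans_eq
      (by simp))
    rw [norm_mul, norm_pow, norm_pow, hn, one_pow, one_pow, one_mul]
    exact hB l (Finset.mem_range.mp hl)
  exact le_of_mul_le_mul_left h3 (by exact_mod_cast hμ)

end JetP

open JetP

theorem sJet : SJet := by
  intro g μ k f hf hk
  have hμ : 0 < μ := by omega
  choose F hF hF' using fun i => (hf i).exists_eq_sum_add_pow_mul μ
  refine ⟨k.factorial, by exact_mod_cast k.factorial_pos, fun ε hε => ?_⟩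
  set M : ℝ := ∑ i, (‖F i 0‖ + 1) with hM
  have hM0 : 0 ≤ M := Finset.sum_nonneg fun i _ => by positivity
  have h1 : ∀ᶠ u in 𝓝 (0 : ℂ), (∀ i, ‖F i u‖ ≤ ‖F i 0‖ + 1) ∧ ‖u‖ ≤ 1 ∧
      k.factorial * M * ‖u‖ ≤ ε := by
    refine (eventually_all.mpr fun i => (hF i).continuousAt.norm.tendsto.eventually
      (eventually_le_nhds (lt_add_one _))).and (Eventually.and ?_ ?_)
    · exact continuous_norm.continuousAt.tendsto.eventually (eventually_le_nhds (by simp))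
    · exact (continuous_const.mul continuous_norm).continuousAt.tendsto.eventually
        (eventually_le_nhds (by simpa using hε))
  obtain ⟨δ, hδ, h2⟩ := Metric.eventually_nhds_iff.mp h1
  filter_upwards [mem_nhdsWithin_of_mem_nhds (ball_mem_nhds (0 : ℂ) (pow_pos hδ μ)),
    self_mem_nhdsWithin] with τ h3 h4 a
  obtain ⟨u₀, hu₀⟩ := IsAlgClosed.exists_pow_nat_eq τ hμ
  have hζ := Complex.isPrimitiveRoot_exp μ hμ.ne'
  set ζ := Complex.exp (2 * Real.pi * Complex.I / μ)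
  have hn : ∀ l, ‖ζ ^ l * u₀‖ = ‖u₀‖ := fun l => by
    rw [norm_mul, norm_pow, hζ.norm'_eq_one hμ.ne', one_pow, one_mul]
  have h5 : ‖u₀‖ < δ := by
    rw [mem_ball_zero_iff, ← hu₀, norm_pow] at h3
    exact lt_of_pow_lt_pow_left₀ μ hδ.le h3
  have h6 : 0 < ‖u₀‖ := norm_pos_iff.mpr fun h => h4 (by
    rw [← hu₀, h, zero_pow hμ.ne']; rfl)
  obtain ⟨l₀, -, hl₀⟩ := Finset.exists_max_image (Finset.range μ)
    (fun l => ‖∑ i, a i * f i (ζ ^ l * u₀)‖) ⟨0, Finset.mem_range.mpr hμ⟩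
  refine ⟨ζ ^ l₀ * u₀, by rw [mul_pow, ← pow_mul, mul_comm l₀, pow_mul, hζ.pow_eq_one, one_pow,
    one_mul, hu₀], ?_⟩
  set V := ‖∑ i, a i * f i (ζ ^ l₀ * u₀)‖
  have hV : 0 ≤ V := norm_nonneg _
  have h7 := cauchy hk hζ (fun j => (∑ i, a i * iteratedDeriv j (f i) 0) / j.factorial) u₀
    (B := V + ‖u₀‖ ^ μ * (M * ‖a‖)) fun l hl => by
      have h8 : ∑ j ∈ Finset.range μ, (∑ i, a i * iteratedDeriv j (f i) 0) / j.factorial *
          (ζ ^ l * u₀) ^ j = ∑ i, a i * f i (ζ ^ l * u₀) -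
            (ζ ^ l * u₀) ^ μ * ∑ i, a i * F i (ζ ^ l * u₀) := by
        simp only [fun i => hF' i (ζ ^ l * u₀), smul_eq_mul, mul_add, Finset.sum_add_distrib,
          Finset.mul_sum, Finset.sum_div, Finset.sum_mul]
        rw [Finset.sum_comm, eq_sub_iff_add_eq]
        congr 1
        · exact Finset.sum_congr rfl fun i _ => Finset.sum_congr rfl fun j _ => by ring
        · exact Finset.sum_congr rfl fun i _ => by ring
      rw [h8]
      refine (norm_sub_le _ _).trans (add_le_add (hl₀ l (Finset.mem_range.mpr hl)) ?_)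
      rw [norm_mul, norm_pow, hn]
      refine mul_le_mul_of_nonneg_left ((norm_sum_le _ _).trans ?_) (by positivity)
      rw [hM, Finset.sum_mul]
      refine Finset.sum_le_sum fun i _ => ?_
      rw [norm_mul, mul_comm]
      exact mul_le_mul ((h2 (by rw [dist_zero_right, hn]; exact h5)).1 i) (norm_le_pi_norm a i)
        (norm_nonneg _) (by positivity)
  obtain ⟨-, h9, h10⟩ := h2 (y := u₀) (by rwa [dist_zero_right])
  rw [norm_div, Complex.norm_natCast] at h7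
  rw [hn]
  have hk0 : (0 : ℝ) < k.factorial := by exact_mod_cast k.factorial_pos
  set X := ‖∑ i, a i * iteratedDeriv k (f i) 0‖
  have h11 : X / k.factorial ≤ V / ‖u₀‖ ^ (μ - 1) + ‖u₀‖ * (M * ‖a‖) := by
    have h12 : X / k.factorial ≤ (V + ‖u₀‖ ^ μ * (M * ‖a‖)) / ‖u₀‖ ^ k :=
      (le_div_iff₀ (pow_pos h6 k)).mpr h7
    refine h12.trans ?_
    rw [add_div]
    refine add_le_add (div_le_div_of_nonneg_left hV (pow_pos h6 _)
      (pow_le_pow_of_le_one h6.le h9 (by omega))) ?_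
    rw [div_le_iff₀ (pow_pos h6 k)]
    have h13 : ‖u₀‖ ^ μ ≤ ‖u₀‖ ^ (k + 1) := pow_le_pow_of_le_one h6.le h9 (by omega)
    calc _ ≤ ‖u₀‖ ^ (k + 1) * (M * ‖a‖) := mul_le_mul_of_nonneg_right h13 (by positivity)
      _ = _ := by ring
  rw [div_le_iff₀ hk0] at h11
  calc X ≤ (V / ‖u₀‖ ^ (μ - 1) + ‖u₀‖ * (M * ‖a‖)) * k.factorial := h11
    _ = k.factorial * (V / ‖u₀‖ ^ (μ - 1)) + k.factorial * M * ‖u₀‖ * ‖a‖ := by ring
    _ ≤ _ := add_le_add le_rfl (mul_le_mul_of_nonneg_right h10 (norm_nonneg _))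

end Pool.Agent.P.MP_7ede32_ag.Hod
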