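import Pool.Agent.P.MP_7ede32_ag.Hod.RU

/-!
Lagrange interpolation in the fibres of a plane model.
-/

open Set Filter Topology Polynomial Bornology

namespace Pool.Agent.P.MP_7ede32_ag.Hod

open MP_5d7cf0_gt.T (RS zc loc An D Sm Db Hf Om)

namespace LagP

variable {Y : Type} [TopologicalSpace Y] [ChartedSpace ℂ Y] [RS Y]

theorem tr_sum (C : XC Y) (F : Y → ℂ) (ξ : ℂ) :
    C.tr F ξ = ∑ p ∈ (C.Φ_finite ξ).toFinset, F p :=
  finsum_mem_eq_finite_toFinset_sum F (C.Φ_finite ξ)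

/-- the fibres have boundedly many points -/
theorem card_le (h1 : SCov) (C : XC Y) : ∃ n : ℕ, ∀ ξ, (C.Φ_finite ξ).toFinset.card ≤ n := by
  obtain ⟨n, -, hn⟩ := h1 Y C
  refine ⟨n, fun ξ => ?_⟩
  rw [← Set.ncard_eq_toFinset_card _ (C.Φ_finite ξ)]
  by_cases h : C.R.eval ξ = 0
  · rw [C.Φ_root h]; simp
  · exact (hn ξ h).1.le

theorem norm_tr_le (C : XC Y) {n : ℕ} (hn : ∀ ξ, (C.Φ_finite ξ).toFinset.card ≤ n) {F : Y → ℂ}
    {ξ : ℂ} {b : ℝ} (hb : 0 ≤ b) (h : ∀ y ∈ C.Φ ξ, ‖F y‖ ≤ b) : ‖C.tr F ξ‖ ≤ n * b := by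
  rw [tr_sum]
  calc ‖∑ p ∈ (C.Φ_finite ξ).toFinset, F p‖ ≤ ∑ p ∈ (C.Φ_finite ξ).toFinset, ‖F p‖ :=
        norm_sum_le _ _
    _ ≤ (C.Φ_finite ξ).toFinset.card • b :=
        Finset.sum_le_card_nsmul _ _ _ fun y hy => h y (by simpa using hy)
    _ ≤ n * b := by
        rw [nsmul_eq_mul]
        exact mul_le_mul_of_nonneg_right (by exact_mod_cast hn ξ) hb

theorem an_tr (h1 : SCov) (C : XC Y) {F : Y → ℂ} (hF : ∀ p ∉ C.Sg, An F p) {ξ₀ : ℂ}
    (h : C.R.eval ξ₀ ≠ 0) : AnalyticAt ℂ (C.tr F) ξ₀ := by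
  obtain ⟨n, -, hn⟩ := h1 Y C
  obtain ⟨-, s, hs, hb⟩ := hn ξ₀ h
  have h2 : AnalyticAt ℂ (fun ξ => ∑ p ∈ (C.Φ_finite ξ₀).toFinset, F (s p ξ)) ξ₀ := by
    refine Finset.analyticAt_fun_sum _ fun p hp => ?_
    have hp' : p ∈ C.Φ ξ₀ := by simpa using hp
    have := (hs p hp').analyticAt (hF p hp'.1)
    rwa [hp'.2] at this
  refine h2.congr (hb.mono fun ξ hξ => ?_)
  show ∑ p ∈ (C.Φ_finite ξ₀).toFinset, F (s p ξ) = C.tr F ξ
  rw [← finsum_mem_eq_finite_toFinset_sum (fun p => F (s p ξ)) (C.Φ_finite ξ₀)]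
  exact finsum_mem_eq_of_bijOn (fun p => s p ξ) hξ fun _ _ => rfl

/-- the trace of a function with small singularities is a polynomial -/
theorem tr_poly (h1 : SCov) (h2 : SPrp) (h3 : SPolyR) (C : XC Y) (a : ℕ) {F : Y → ℂ}
    (hF : ∀ p ∉ C.Sg, An F p)
    (hf : ∀ p ∈ C.Sg, ∀ β, Tendsto C.x (𝓝[≠] p) (𝓝 β) →
      Tendsto (fun y => (C.x y - β) * F y) (𝓝[≠] p) (𝓝 0))
    (hi : ∀ p ∈ C.Sg, Tendsto C.x (𝓝[≠] p) (cobounded ℂ) →
      ∃ c : ℝ, ∀ᶠ y in 𝓝[≠] p, ‖F y‖ ≤ c * ‖C.x y‖ ^ a) :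
    ∃ q : ℂ[X], q.natDegree ≤ a ∧ ∀ ξ, C.R.eval ξ ≠ 0 → C.tr F ξ = q.eval ξ := by
  classical
  obtain ⟨n, hn⟩ := card_le h1 C
  have hc : ∀ p, ∃ c : ℝ, p ∈ C.Sg → Tendsto C.x (𝓝[≠] p) (cobounded ℂ) →
      ∀ᶠ y in 𝓝[≠] p, ‖F y‖ ≤ c * ‖C.x y‖ ^ a := by
    intro p
    by_cases h : p ∈ C.Sg ∧ Tendsto C.x (𝓝[≠] p) (cobounded ℂ)
    · obtain ⟨c, hc⟩ := hi p h.1 h.2
      exact ⟨c, fun _ _ => hc⟩
    · exact ⟨0, fun h' h'' => (h ⟨h', h''⟩).elim⟩
  choose c hc using hc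
  set c₀ : ℝ := ∑ p ∈ C.fin.toFinset, |c p| with hc₀
  have hc0 : 0 ≤ c₀ := Finset.sum_nonneg fun _ _ => abs_nonneg _
  have hle : ∀ p ∈ C.Sg, c p ≤ c₀ := fun p hp =>
    (le_abs_self _).trans (Finset.single_le_sum (f := fun p => |c p|)
      (fun _ _ => abs_nonneg _) (by simpa using hp))
  refine h3 C.R (C.tr F) a (n * c₀) C.R_ne (fun ξ h => an_tr h1 C hF h) (fun β hβ => ?_) ?_
  · rw [NormedAddGroup.tendsto_nhds_zero]
    intro ε hε
    have hδ : 0 < ε / (n + 1) := by positivity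
    have := (h2 Y C fun y => ‖(C.x y - β) * F y‖ ≤ ε / (n + 1)).1 β hβ fun p hp hx =>
      ((NormedAddGroup.tendsto_nhds_zero.1 (hf p hp β hx)) _ hδ).mono fun _ h => h.le
    refine (this.filter_mono nhdsWithin_le_nhds).mono fun ξ hξ => ?_
    have e : (ξ - β) * C.tr F ξ = C.tr (fun y => (C.x y - β) * F y) ξ := by
      rw [tr_sum, tr_sum, Finset.mul_sum]
      refine Finset.sum_congr rfl fun y hy => ?_
      have hy' : y ∈ C.Φ ξ := by simpa using hy
      rw [hy'.2]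
    rw [e]
    refine (norm_tr_le C hn hδ.le hξ).trans_lt ?_
    rw [← mul_div_assoc, div_lt_iff₀ (by positivity)]
    nlinarith
  · have := (h2 Y C fun y => ‖F y‖ ≤ c₀ * ‖C.x y‖ ^ a).2 fun p hp hx =>
      (hc p hp hx).mono fun y h =>
        h.trans (mul_le_mul_of_nonneg_right (hle p hp) (by positivity))
    refine this.mono fun ξ hξ => ?_
    rw [mul_assoc]
    refine norm_tr_le C hn (by positivity) fun y hy => ?_
    have := hξ y hy
    rwa [hy.2] at this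

/-- the coefficients of the quotient by a linear factor, as polynomials on the curve -/
noncomputable def bq (P : ℂ[X][X]) (j : ℕ) : ℂ[X][X] :=
  ∑ i ∈ Finset.Icc (j + 1) P.natDegree, X ^ (i - (j + 1)) * C (P.coeff i)

theorem bq_eval {P : ℂ[X][X]} (hP : P.Monic) (j : ℕ) (ξ η : ℂ) :
    (bq P j).evalEval ξ η = ((P.map (evalRingHom ξ)) /ₘ (X - C η)).coeff j := by
  rw [coeff_divByMonic_X_sub_C, hP.natDegree_map, bq, evalEval_finsetSum]
  refine Finset.sum_congr rfl fun i _ => ?_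
  rw [evalEval_mul, evalEval_pow, evalEval_X, evalEval_C, coeff_map, coe_evalRingHom]

theorem sum_bq {P : ℂ[X][X]} (hP : P.Monic) (h0 : 0 < P.natDegree) (ξ η η' : ℂ) :
    ∑ j ∈ Finset.range P.natDegree, (bq P j).evalEval ξ η' * η ^ j =
      ((P.map (evalRingHom ξ)) /ₘ (X - C η')).eval η := by
  rw [eval_eq_sum_range' (n := P.natDegree)]
  · exact Finset.sum_congr rfl fun j _ => by rw [bq_eval hP]
  · rw [natDegree_divByMonic _ (monic_X_sub_C η'), natDegree_X_sub_C, hP.natDegree_map]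
    omega

theorem quot_other {Q : ℂ[X]} {η η' : ℂ} (h : Q.eval η = 0) (h' : Q.eval η' = 0) (hne : η ≠ η') :
    (Q /ₘ (X - C η')).eval η = 0 := by
  have e := mul_divByMonic_eq_iff_isRoot.2 (show Q.IsRoot η' from h')
  rw [← e, eval_mul, eval_sub, eval_X, eval_C] at h
  exact (mul_eq_zero.1 h).resolve_left (sub_ne_zero.2 hne)

theorem quot_self {Q : ℂ[X]} {η : ℂ} (h : Q.eval η = 0) :
    (Q /ₘ (X - C η)).eval η = (derivative Q).eval η := by
  have e := mul_divByMonic_eq_iff_isRoot.2 (show Q.IsRoot η from h)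
  conv_rhs => rw [← e]
  simp [derivative_mul]

end LagP

open LagP in
theorem sLag (h1 : SCov) (h2 : SPrp) (h3 : SPolyR) : SLag := by
  intro Y _ _ _ M a
  classical
  choose c b hb using fun j => M.grow (bq M.P j)
  refine ⟨a + ∑ j ∈ Finset.range M.P.natDegree, b j, fun φ hφ hf hi => ?_⟩
  have key : ∀ j, ∃ q : ℂ[X], q.natDegree ≤ a + b j ∧ ∀ ξ, M.R.eval ξ ≠ 0 →
      M.tr (fun p => φ p * M.ev (bq M.P j) p) ξ = q.eval ξ := by
    intro j
    refine tr_poly h1 h2 h3 M.toXC (a + b j)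
      (fun p hp => (hφ p hp).mul (M.an_ev _ hp)) (fun p hp β hx => ?_) fun p hp hx => ?_
    · have t1 : Tendsto (fun y => c j * (1 + ‖M.x y‖) ^ b j) (𝓝[≠] p)
          (𝓝 (c j * (1 + ‖β‖) ^ b j)) := ((hx.norm.const_add 1).pow _).const_mul _
      have t2 := (hf p hp β hx).norm.mul t1
      rw [norm_zero, zero_mul] at t2
      refine squeeze_zero_norm' ((M.off_near p).mono fun y hy => ?_) t2
      rw [← mul_assoc, norm_mul]
      exact mul_le_mul_of_nonneg_left (hb j y hy) (norm_nonneg _)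
    · obtain ⟨c', hc'⟩ := hi p hp hx
      refine ⟨|c'| * (|c j| * 2 ^ b j), ?_⟩
      have t1 : ∀ᶠ y in 𝓝[≠] p, 1 ≤ ‖M.x y‖ :=
        (tendsto_norm_cobounded_atTop.comp hx).eventually_ge_atTop 1
      filter_upwards [hc', t1, M.off_near p] with y hy h1y hys
      have e1 : ‖φ y‖ ≤ |c'| * ‖M.x y‖ ^ a :=
        hy.trans (mul_le_mul_of_nonneg_right (le_abs_self _) (by positivity))
      have e2 : ‖M.ev (bq M.P j) y‖ ≤ |c j| * (2 * ‖M.x y‖) ^ b j :=
        (hb j y hys).trans (mul_le_mul (le_abs_self _)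
          (pow_le_pow_left₀ (by positivity) (by linarith) _) (by positivity) (abs_nonneg _))
      calc ‖φ y * M.ev (bq M.P j) y‖ ≤ (|c'| * ‖M.x y‖ ^ a) * (|c j| * (2 * ‖M.x y‖) ^ b j) := by
            rw [norm_mul]
            exact mul_le_mul e1 e2 (norm_nonneg _) (by positivity)
        _ = |c'| * (|c j| * 2 ^ b j) * ‖M.x y‖ ^ (a + b j) := by ring
  choose q hq hq' using key
  refine ⟨∑ j ∈ Finset.range M.P.natDegree, monomial j (q j), ?_, fun j => ?_, fun p hp => ?_⟩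
  · rw [degree_eq_natDegree M.monic.ne_zero]
    refine (degree_sum_le _ _).trans_lt ((Finset.sup_lt_iff (WithBot.bot_lt_coe _)).2 fun j hj => ?_)
    exact (degree_monomial_le _ _).trans_lt (by exact_mod_cast Finset.mem_range.1 hj)
  · rw [finsetSum_coeff]
    simp only [coeff_monomial, Finset.sum_ite_eq']
    split_ifs with hj
    · exact (hq j).trans (Nat.add_le_add_left
        (Finset.single_le_sum (f := b) (fun _ _ => Nat.zero_le _) hj) _)
    · simp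
  · have hR := (M.reg p hp).2.2
    have hbij := M.bij _ hR
    have hpm : p ∈ (M.Φ_finite (M.x p)).toFinset := by simpa using ⟨hp, rfl⟩
    have hon : ∀ p' ∈ M.Φ (M.x p), (M.P.map (evalRingHom (M.x p))).eval (M.y p') = 0 := by
      intro p' hp'
      rw [map_evalRingHom_eval]
      exact hbij.mapsTo hp'
    have e1 : M.ev (∑ j ∈ Finset.range M.P.natDegree, monomial j (q j)) p =
        ∑ p' ∈ (M.Φ_finite (M.x p)).toFinset, φ p' *
          ((M.P.map (evalRingHom (M.x p))) /ₘ (X - C (M.y p'))).eval (M.y p) := by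
      rw [PM.ev, evalEval_finsetSum]
      have : ∀ j ∈ Finset.range M.P.natDegree, (monomial j (q j)).evalEval (M.x p) (M.y p) =
          ∑ p' ∈ (M.Φ_finite (M.x p)).toFinset,
            φ p' * ((bq M.P j).evalEval (M.x p) (M.y p') * M.y p ^ j) := by
        intro j _
        rw [← C_mul_X_pow_eq_monomial, evalEval_mul, evalEval_pow, evalEval_X, evalEval_C,
          ← hq' j _ hR, tr_sum, Finset.sum_mul]
        refine Finset.sum_congr rfl fun p' hp' => ?_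
        have hp'' : p' ∈ M.Φ (M.x p) := by simpa using hp'
        rw [PM.ev, hp''.2, mul_assoc]
      rw [Finset.sum_congr rfl this, Finset.sum_comm]
      refine Finset.sum_congr rfl fun p' _ => ?_
      rw [← Finset.mul_sum, sum_bq M.monic M.pos]
    rw [e1, Finset.sum_eq_single_of_mem p hpm, quot_self (hon p ⟨hp, rfl⟩), derivative_map,
      map_evalRingHom_eval, PM.ev]
    intro p' hp' hne
    have hp'' : p' ∈ M.Φ (M.x p) := by simpa using hp'
    rw [quot_other (hon p ⟨hp, rfl⟩) (hon p' hp'') fun e => hne (hbij.injOn hp'' ⟨hp, rfl⟩ e.symm),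
      mul_zero]

end Pool.Agent.P.MP_7ede32_ag.Hod
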