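import Pool.Agent.P.MP_7ede32_ag.Hod.StB
import Pool.Agent.P.MP_7ede32_ag.Full.StC

/-!
Two lemmas on analytic germs in the plane: a ratio that is not constant along a line, and the
solutions of Euler's equation.
-/

open Set Filter Topology Metric

namespace Pool.Agent.P.MP_7ede32_ag.Hod

open Ell (E2)

namespace LeafPP

theorem punct (c : ℂ) (r : ℝ) : IsPreconnected (ball c r \ {c}) := by
  by_cases hr : 0 < r
  · have : ball c r \ {c} = (fun w => c + Complex.exp w) '' {w | w.re < Real.log r} := by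
      ext z
      constructor
      · rintro ⟨h1, h2⟩
        have h3 : z - c ≠ 0 := sub_ne_zero.mpr h2
        refine ⟨Complex.log (z - c), ?_, by simp [Complex.exp_log h3]⟩
        change (Complex.log (z - c)).re < _
        rw [Complex.log_re]
        exact Real.log_lt_log (norm_pos_iff.mpr h3) (by rwa [mem_ball, dist_eq_norm] at h1)
      · rintro ⟨w, h1, rfl⟩
        refine ⟨?_, by simp⟩
        rw [mem_ball, dist_eq_norm, add_sub_cancel_left, Complex.norm_exp]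
        exact (Real.lt_log_iff_exp_lt hr).mp h1
    rw [this]
    exact (convex_halfSpace_re_lt _).isPreconnected.image _ (by fun_prop)
  · rw [ball_eq_empty.mpr (not_lt.mp hr), empty_sdiff]
    exact isPreconnected_empty

theorem const_punct (f : ℂ → ℂ) (h : ∀ᶠ v in 𝓝[≠] (0 : ℂ), HasDerivAt f 0 v) :
    ∃ c, ∀ᶠ v in 𝓝[≠] (0 : ℂ), f v = c := by
  obtain ⟨r, hr, h1⟩ := Metric.mem_nhdsWithin_iff.mp h
  have hs : IsOpen (ball (0 : ℂ) r \ {0}) := isOpen_ball.sdiff isClosed_singleton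
  obtain ⟨a, ha⟩ := hs.exists_is_const_of_deriv_eq_zero (punct 0 r)
    (fun x hx => (h1 hx).differentiableAt.differentiableWithinAt) (fun x hx => (h1 hx).deriv)
  exact ⟨a, Metric.mem_nhdsWithin_iff.mpr ⟨r, hr, fun x hx => ha x hx⟩⟩

theorem hd_dw {f : E2 → ℂ} {u v : ℂ} (h : DifferentiableAt ℂ f (u, v)) :
    HasDerivAt (fun t => f (u, t)) (dw f (u, v)) v := by
  have h1 : HasDerivAt (fun t : ℂ => ((u, t) : E2)) (0, 1) v :=
    (hasDerivAt_const v u).prodMk (hasDerivAt_id v)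
  exact h.hasFDerivAt.comp_hasDerivAt v h1

theorem hd_du {f : E2 → ℂ} {u v : ℂ} (h : DifferentiableAt ℂ f (u, v)) :
    HasDerivAt (fun t => f (t, v)) (du f (u, v)) u := by
  have h1 : HasDerivAt (fun t : ℂ => ((t, v) : E2)) (1, 0) u :=
    (hasDerivAt_id u).prodMk (hasDerivAt_const u v)
  exact h.hasFDerivAt.comp_hasDerivAt u h1

theorem tv : Tendsto (fun v : ℂ => ((0, v) : E2)) (𝓝 0) (𝓝 0) :=
  (by fun_prop : Continuous fun v : ℂ => ((0, v) : E2)).tendsto' 0 0 rfl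

theorem tu (v : ℂ) : Tendsto (fun u : ℂ => ((u, v) : E2)) (𝓝 0) (𝓝 (0, v)) :=
  (by fun_prop : Continuous fun u : ℂ => ((u, v) : E2)).tendsto' 0 _ rfl

theorem tswap : Tendsto (Prod.swap : E2 → E2) (𝓝 0) (𝓝 0) :=
  continuous_swap.tendsto' 0 0 rfl

theorem div1 (h : Full.SDiv2) (F : E2 → ℂ) (hF : AnalyticAt ℂ F 0)
    (h0 : ¬ ∀ᶠ p in 𝓝 0, F p = 0) : ∃ (k : ℕ) (F' : E2 → ℂ), AnalyticAt ℂ F' 0 ∧
      (∀ᶠ p in 𝓝 (0 : E2), F p = p.1 ^ k * F' p) ∧ ∀ᶠ t in 𝓝[≠] (0 : ℂ), F' (0, t) ≠ 0 := by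
  have hs : AnalyticAt ℂ (Prod.swap : E2 → E2) 0 := analyticAt_snd.prod analyticAt_fst
  obtain ⟨k, G, hG, h1, h2⟩ := h (fun p => F p.swap) (AnalyticAt.comp_of_eq hF hs rfl)
    (fun hc => h0 (by simpa using tswap.eventually hc))
  refine ⟨k, fun p => G p.swap, AnalyticAt.comp_of_eq hG hs rfl, ?_, h2⟩
  simpa using tswap.eventually h1

theorem dw_cont {f : E2 → ℂ} {y : E2} (h : AnalyticAt ℂ f y) : ContinuousAt (dw f) y :=
  h.fderiv.continuousAt.clm_apply continuousAt_const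

theorem key {τ γ A B β : E2 → ℂ} {v c : ℂ} {k e m : ℕ} (he : 0 < e) (hk : k ≤ m)
    (hτ : AnalyticAt ℂ τ (0, v)) (hγ : ContinuousAt γ (0, v)) {δ : ℝ → ℝ} (hδ : ∀ ε > 0, 0 < δ ε)
    (hβ : ∀ᶠ y in 𝓝 ((0, v) : E2), β y ≠ 0)
    (h1 : ∀ᶠ y in 𝓝 ((0, v) : E2), B y = y.1 ^ k * β y)
    (h2 : ∀ᶠ y in 𝓝 ((0, v) : E2), A y - c * B y = y.1 ^ (k + e) * γ y)
    (h3 : ∀ᶠ y in 𝓝 ((0, v) : E2), γ y = τ y * β y)
    (H : ∀ᶠ y in 𝓝 ((0, v) : E2), B y ≠ 0 → ∀ ε > 0, ‖A y / B y - c‖ < δ ε →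
      ‖A y - c * B y‖ ≤ ε * ‖y.1‖ ^ m * ‖dw (fun y => A y / B y) y‖) : γ (0, v) = 0 := by
  have h4 : ∀ᶠ y in 𝓝 ((0, v) : E2), y.1 ≠ 0 → B y ≠ 0 ∧ A y / B y = c + y.1 ^ e * τ y := by
    filter_upwards [hβ, h1, h2, h3] with y a1 a2 a3 a4 a5
    have b1 : B y ≠ 0 := by rw [a2]; exact mul_ne_zero (pow_ne_zero _ a5) a1
    refine ⟨b1, ?_⟩
    rw [div_eq_iff b1, add_mul, ← sub_eq_iff_eq_add', a3, a4, a2]
    ring
  have h5 : ∀ᶠ y in 𝓝 ((0, v) : E2), y.1 ≠ 0 →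
      dw (fun y => A y / B y) y = y.1 ^ e * dw τ y := by
    filter_upwards [h4.eventually_nhds, hτ.eventually_analyticAt] with y a1 a2 a3
    obtain ⟨u, w⟩ := y
    have b0 : ∀ᶠ y in 𝓝 ((u, w) : E2), y.1 ≠ 0 := continuous_fst.continuousAt.eventually_ne a3
    have b1 : (fun y => A y / B y) =ᶠ[𝓝 ((u, w) : E2)] fun y => c + y.1 ^ e * τ y := by
      filter_upwards [a1, b0] with y c1 c2 using (c1 c2).2
    have b2 : AnalyticAt ℂ (fun y : E2 => c + y.1 ^ e * τ y) (u, w) :=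
      analyticAt_const.add ((analyticAt_fst.pow e).mul a2)
    have b3 := hd_dw b2.differentiableAt
    have b4 := ((hd_dw a2.differentiableAt).const_mul (u ^ e)).const_add c
    have b5 : dw (fun y => A y / B y) (u, w) = dw (fun y : E2 => c + y.1 ^ e * τ y) (u, w) := by
      unfold dw
      rw [b1.fderiv_eq]
    rw [b5]
    exact b3.unique b4
  have h6 : ∀ ε > 0, ‖γ (0, v)‖ ≤ ε * ‖dw τ (0, v)‖ := by
    intro ε hε
    have t1 : Tendsto (fun u : ℂ => ‖γ (u, v)‖) (𝓝[≠] 0) (𝓝 ‖γ (0, v)‖) :=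
      ((hγ.tendsto.comp (tu v)).norm).mono_left nhdsWithin_le_nhds
    have t2 : Tendsto (fun u : ℂ => ε * ‖dw τ (u, v)‖) (𝓝[≠] 0) (𝓝 (ε * ‖dw τ (0, v)‖)) :=
      ((((dw_cont hτ).tendsto.comp (tu v)).norm).const_mul ε).mono_left nhdsWithin_le_nhds
    have t3 : ∀ᶠ y in 𝓝 ((0, v) : E2), ‖y.1 ^ e * τ y‖ < δ ε := by
      have c1 : ContinuousAt (fun y : E2 => ‖y.1 ^ e * τ y‖) (0, v) :=
        ((continuous_fst.continuousAt.pow e).mul hτ.continuousAt).norm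
      exact c1.eventually_lt continuousAt_const (by simpa [he.ne'] using hδ ε hε)
    have t4 : ∀ᶠ y in 𝓝 ((0, v) : E2), ‖y.1‖ < 1 :=
      continuous_fst.continuousAt.norm.eventually_lt continuousAt_const (by simp)
    have t5 : ∀ᶠ y in 𝓝 ((0, v) : E2), y.1 ≠ 0 → ‖γ y‖ ≤ ε * ‖dw τ y‖ := by
      filter_upwards [h2, h4, h5, H, t3, t4] with y a2 a4 a5 a6 a7 a8 a9
      have b1 := a6 (a4 a9).1 ε hε (by rw [(a4 a9).2, add_sub_cancel_left]; exact a7)
      rw [a2, a5 a9, norm_mul, norm_mul, norm_pow, norm_pow] at b1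
      have b2 : 0 < ‖y.1‖ := norm_pos_iff.mpr a9
      have b3 : ‖y.1‖ ^ m ≤ ‖y.1‖ ^ k := pow_le_pow_of_le_one b2.le a8.le hk
      refine le_of_mul_le_mul_left (b1.trans ?_) (pow_pos b2 (k + e))
      calc ε * ‖y.1‖ ^ m * (‖y.1‖ ^ e * ‖dw τ y‖)
          ≤ ε * ‖y.1‖ ^ k * (‖y.1‖ ^ e * ‖dw τ y‖) := by gcongr
        _ = _ := by ring
    refine le_of_tendsto_of_tendsto t1 t2 ?_
    filter_upwards [((tu v).eventually t5).filter_mono nhdsWithin_le_nhds, self_mem_nhdsWithin]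
      with u a1 a2 using a1 a2
  have h7 : Tendsto (fun ε : ℝ => ε * ‖dw τ (0, v)‖) (𝓝[>] 0) (𝓝 0) := by
    have : Continuous fun ε : ℝ => ε * ‖dw τ (0, v)‖ := by fun_prop
    exact (this.tendsto' 0 0 (by simp)).mono_left nhdsWithin_le_nhds
  exact norm_le_zero_iff.mp (ge_of_tendsto h7 (eventually_nhdsWithin_of_forall h6))

theorem not_ev {B β : E2 → ℂ} {v : ℂ} {k : ℕ} (hβ : ∀ᶠ y in 𝓝 ((0, v) : E2), β y ≠ 0)
    (h1 : ∀ᶠ y in 𝓝 ((0, v) : E2), B y = y.1 ^ k * β y) :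
    ¬ ∀ᶠ y in 𝓝 ((0, v) : E2), B y = 0 := by
  intro h
  have h2 : ∀ᶠ u in 𝓝[≠] (0 : ℂ), False := by
    filter_upwards [((tu v).eventually (hβ.and (h1.and h))).filter_mono nhdsWithin_le_nhds,
      self_mem_nhdsWithin] with u ⟨a1, a2, a3⟩ a4
    rw [a3] at a2
    exact mul_ne_zero (pow_ne_zero _ a4) a1 a2.symm
  exact h2.exists.elim fun _ h => h

end LeafPP

open LeafPP

theorem sLeafP (h : Full.SDiv2) : SLeafP := by
  intro g μ α hg hα ⟨i0, k0, hk0, hd⟩ hind H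
  classical
  have hne : ∀ i, ¬ ∀ᶠ y in 𝓝 (0 : E2), α i y = 0 := by
    intro i hc
    have := hind (Pi.single i 1) (by
      filter_upwards [hc] with y hy
      simp [Pi.single_apply, hy])
    simpa using congrFun this i
  choose k β hβ hαβ hβ0 using fun i => div1 h (α i) (hα i) (hne i)
  obtain ⟨j, -, hj⟩ := Finset.exists_min_image Finset.univ k ⟨i0, Finset.mem_univ _⟩
  have hjμ : k j ≤ μ - 1 := by
    have a0 : AnalyticAt ℂ (fun u : ℂ => ((u, 0) : E2)) 0 := analyticAt_id.prod analyticAt_const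
    have a1 : AnalyticAt ℂ (fun u : ℂ => α i0 (u, 0)) 0 := AnalyticAt.comp_of_eq (hα i0) a0 rfl
    have a2 : (k i0 : ℕ∞) ≤ analyticOrderAt (fun u : ℂ => α i0 (u, 0)) 0 :=
      (natCast_le_analyticOrderAt a1).mpr ⟨fun u => β i0 (u, 0),
        AnalyticAt.comp_of_eq (hβ i0) a0 rfl, by simpa using (tu 0).eventually (hαβ i0)⟩
    have a3 := (natCast_le_analyticOrderAt_iff_iteratedDeriv_eq_zero a1).mp a2 k0
    have a4 := hj i0 (Finset.mem_univ _)
    have a5 : ¬ k0 < k i0 := fun hc => hd (a3 hc)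
    omega
  have : Nontrivial (Fin g) := Fin.nontrivial_iff_two_le.mpr hg
  obtain ⟨i, hij⟩ := exists_ne j
  obtain ⟨d, hdk⟩ := Nat.exists_eq_add_of_le (hj i (Finset.mem_univ _))
  refine ⟨i, j, hij, ?_⟩
  by_contra hc
  rw [not_frequently] at hc
  have loc : ∀ {p : E2 → Prop}, (∀ᶠ y in 𝓝 (0 : E2), p y) →
      ∀ᶠ v in 𝓝[≠] (0 : ℂ), ∀ᶠ y in 𝓝 ((0, v) : E2), p y := fun hp =>
    (tv.eventually hp.eventually_nhds).filter_mono nhdsWithin_le_nhds
  have an : ∀ {f : E2 → ℂ}, AnalyticAt ℂ f 0 → ∀ᶠ v in 𝓝[≠] (0 : ℂ), AnalyticAt ℂ f (0, v) :=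
    fun hf => (tv.eventually hf.eventually_analyticAt).filter_mono nhdsWithin_le_nhds
  have nb : ∀ᶠ v in 𝓝[≠] (0 : ℂ), ∀ᶠ y in 𝓝 ((0, v) : E2), β j y ≠ 0 := by
    filter_upwards [an (hβ j), hβ0 j] with v a1 a2 using a1.continuousAt.eventually_ne a2
  have h1 : ∀ᶠ v in 𝓝[≠] (0 : ℂ),
      HasDerivAt (fun t => (fun y : E2 => y.1 ^ d * β i y / β j y) (0, t)) 0 v := by
    filter_upwards [hc.filter_mono nhdsWithin_le_nhds, an (hβ i), an (hβ j), hβ0 j, nb,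
      loc (hαβ i), loc (hαβ j)] with v a1 a2 a3 a4 a5 a6 a7
    have b1 : AnalyticAt ℂ (fun y : E2 => y.1 ^ d * β i y / β j y) (0, v) :=
      ((analyticAt_fst.pow d).mul a2).div a3 a4
    have b2 : dw (fun y : E2 => y.1 ^ d * β i y / β j y) (0, v) = 0 := by
      by_contra b3
      refine a1 ⟨_, b1, b3, ?_, not_ev a5 a7⟩
      filter_upwards [a5, a6, a7] with y c1 c2 c3
      rw [c2, c3, hdk]
      field_simp
      ring
    have b4 := hd_dw b1.differentiableAt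
    rwa [b2] at b4
  obtain ⟨c, h2⟩ := const_punct _ h1
  have h3 : ∀ᶠ y in 𝓝 (0 : E2),
      α i y - c * α j y = y.1 ^ k j * (y.1 ^ d * β i y - c * β j y) := by
    filter_upwards [hαβ i, hαβ j] with y a1 a2
    rw [a1, a2, hdk]
    ring
  obtain ⟨e, γ, hγ, h4, h5⟩ := div1 h (fun y => y.1 ^ d * β i y - c * β j y)
    (((analyticAt_fst.pow d).mul (hβ i)).sub (analyticAt_const.mul (hβ j))) (by
      intro hc
      have := hind (Pi.single i 1 - Pi.single j c) (by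
        filter_upwards [hc, h3] with y a1 a2
        rw [a1, mul_zero] at a2
        simpa [Pi.single_apply, sub_mul] using a2)
      simpa [hij] using congrFun this i)
  obtain ⟨δ, hδ, H1⟩ := H i j hij c
  have h6 : ∀ᶠ v in 𝓝[≠] (0 : ℂ), False := by
    filter_upwards [h2, h5, an hγ, an (hβ j), hβ0 j, nb, loc (hαβ j), loc h3, loc h4, loc H1]
      with v a1 a2 a3 a4 a5 a6 a7 a8 a9 a10
    have he : 0 < e := by
      rcases Nat.eq_zero_or_pos e with rfl | he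
      · have b1 := a9.self_of_nhds
        rw [div_eq_iff a5] at a1
        simp only [pow_zero, one_mul] at b1 a1
        exact absurd (by rw [← b1, a1, sub_self]) a2
      · exact he
    refine a2 (key (τ := fun y => γ y / β j y) he hjμ (a3.div a4 a5) a3.continuousAt hδ a6 a7
      ?_ ?_ a10)
    · filter_upwards [a8, a9] with y b1 b2
      rw [b1, b2]
      ring
    · filter_upwards [a6] with y b1
      field_simp
  exact h6.exists.elim fun _ h => h

theorem sEuler : SEuler := by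
  intro α n hα h ζ hζ
  obtain ⟨r, hr, h1⟩ := Metric.eventually_nhds_iff_ball.mp (h.and hα.eventually_analyticAt)
  filter_upwards [ball_mem_nhds (0 : E2) hr] with y hy
  obtain ⟨u, v⟩ := y
  have h2 : ∀ s : ℝ, HasDerivAt (fun z : ℂ => Complex.exp (-(n * (z * Complex.I))) *
      α (Complex.exp (z * Complex.I) * u, v)) 0 s := by
    intro s
    have a1 : ((Complex.exp (s * Complex.I) * u, v) : E2) ∈ ball (0 : E2) r := by
      simpa [Prod.norm_def, Complex.norm_exp_ofReal_mul_I] using hy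
    obtain ⟨a2, a3⟩ := h1 _ a1
    have a4 : HasDerivAt (fun z : ℂ => z * Complex.I) Complex.I s := by
      simpa using (hasDerivAt_id (s : ℂ)).mul_const Complex.I
    have a5 := (hd_du a3.differentiableAt).comp (s : ℂ) (a4.cexp.mul_const u)
    have a6 := ((a4.const_mul (n : ℂ)).neg.cexp).mul a5
    refine HasDerivAt.congr_deriv a6 ?_
    simp only [Function.comp_apply, Pi.neg_apply] at a2 ⊢
    linear_combination (Complex.exp (-(n * (s * Complex.I))) * Complex.I) * a2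
  have h3 := is_const_of_deriv_eq_zero (fun s => (h2 s).comp_ofReal.differentiableAt)
    (fun s => (h2 s).comp_ofReal.deriv) (Complex.arg ζ) 0
  have h4 : Complex.exp (Complex.arg ζ * Complex.I) = ζ := by
    simpa [hζ] using Complex.norm_mul_exp_arg_mul_I ζ
  have h5 : ζ ≠ 0 := by rintro rfl; simp at hζ
  simp only [Complex.exp_neg, Complex.exp_nat_mul, h4] at h3
  simp only [Complex.ofReal_zero, zero_mul, Complex.exp_zero, one_pow, inv_one, one_mul] at h3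
  rw [← h3]
  field_simp

end Pool.Agent.P.MP_7ede32_ag.Hod
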