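import Pool.Agent.P.MP_7ede32_ag.Hod.GT

/-!
Toolbox: calculus on the surface.
-/

open Set Filter Topology MeasureTheory ComplexConjugate Polynomial Matrix

noncomputable section

namespace Pool.Agent.P.MP_7ede32_ag.Hod

open Full (Mer)
open Ell (E2)

/-- the implicit function theorem in the last variable -/
theorem BrTP.ift {f : E3 → ℂ} {q : E3} (hf : AnalyticAt ℂ f q)
    (h0 : fderiv ℂ f q (0, 0, 1) ≠ 0) : ∃ b : E2 → ℂ, AnalyticAt ℂ b (q.1, q.2.1) ∧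
      b (q.1, q.2.1) = q.2.2 ∧ ∀ᶠ q' in 𝓝 q, (f q' = f q ↔ b (q'.1, q'.2.1) = q'.2.2) := by
  let e : (ℂ × ℂ) × ℂ →L[ℂ] E3 := (ContinuousLinearEquiv.prodAssoc ℂ ℂ ℂ ℂ).toContinuousLinearMap
  have hq : e ((q.1, q.2.1), q.2.2) = q := rfl
  have hf' : AnalyticAt ℂ f (e ((q.1, q.2.1), q.2.2)) := hq ▸ hf
  have h1 : ContDiffAt ℂ ⊤ (f ∘ e) ((q.1, q.2.1), q.2.2) :=
    (hf'.comp (e.analyticAt _)).contDiffAt
  have h2 : (fderiv ℂ (f ∘ e) ((q.1, q.2.1), q.2.2) ∘L .inr ℂ (ℂ × ℂ) ℂ).IsInvertible := by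
    refine ⟨ContinuousLinearEquiv.unitsEquivAut ℂ (Units.mk0 _ h0), ?_⟩
    rw [(hf'.differentiableAt.hasFDerivAt.comp _ e.hasFDerivAt).fderiv, hq]
    ext
    simp [e]
  refine ⟨h1.implicitFunction (by simp) h2,
    (h1.contDiffAt_implicitFunction (by simp) h2).analyticAt,
    h1.implicitFunction_apply_self (by simp) h2, ?_⟩
  have h3 : Tendsto (fun q' : E3 => ((q'.1, q'.2.1), q'.2.2)) (𝓝 q) (𝓝 ((q.1, q.2.1), q.2.2)) :=
    Continuous.tendsto (by fun_prop) q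
  exact h3.eventually (h1.eventually_apply_eq_iff_implicitFunction (by simp) h2)

theorem BrTP.an_app {f : E3 → E3 →L[ℂ] ℂ} {v : E3 → E3} {q : E3} (hf : AnalyticAt ℂ f q)
    (hv : AnalyticAt ℂ v q) : AnalyticAt ℂ (fun q => f q (v q)) q :=
  (hf.contDiffAt.clm_apply hv.contDiffAt).analyticAt

open BrTP

namespace Pl

variable {L : PeriodPair} {𝒴 : Pl L} {t ξ : ℂ} {q : E3} {F G s : E3 → ℂ}

theorem nr_spec (𝒴 : Pl L) (q : E3) : 𝒴.On (q.1, q.2.1, 𝒴.nr q) ∧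
    ∀ η', 𝒴.On (q.1, q.2.1, η') → ‖𝒴.nr q - q.2.2‖ ≤ ‖η' - q.2.2‖ := by
  refine Classical.epsilon_spec (p := fun η => 𝒴.On (q.1, q.2.1, η) ∧
    ∀ η', 𝒴.On (q.1, q.2.1, η') → ‖η - q.2.2‖ ≤ ‖η' - q.2.2‖) ?_
  obtain ⟨η, h1, h2⟩ := Finset.exists_min_image _ (fun η => ‖η - q.2.2‖)
    (𝒴.rts_nonempty q.1 q.2.1)
  exact ⟨η, mem_rts.1 h1, fun η' h => h2 η' (mem_rts.2 h)⟩

theorem on_prj (𝒴 : Pl L) (q : E3) : 𝒴.On (𝒴.prj q) := (𝒴.nr_spec q).1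

theorem On.prj (h : 𝒴.On q) : 𝒴.prj q = q := by
  have := (𝒴.nr_spec q).2 q.2.2 h
  rw [sub_self, norm_zero, norm_le_zero_iff, sub_eq_zero] at this
  simp [Pl.prj, this]

theorem Ok.branch (h : 𝒴.Ok q) : ∃ b : E2 → ℂ, AnalyticAt ℂ b (q.1, q.2.1) ∧
    b (q.1, q.2.1) = q.2.2 ∧ ∀ᶠ q' in 𝓝 q, 𝒴.nr q' = b (q'.1, q'.2.1) := by
  obtain ⟨b, hb, hb0, hu⟩ := ift (analyticAt_ev h.1.1) (by rw [fderiv_ev_η h.1.1]; exact h.py_ne)
  refine ⟨b, hb, hb0, ?_⟩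
  have h0 : ev 𝒴.P q = 0 := h.2.1
  rw [h0] at hu
  have c1 : ContinuousAt (fun q' : E3 => b (q'.1, q'.2.1)) q :=
    ContinuousAt.comp (f := fun q' : E3 => (q'.1, q'.2.1)) hb.continuousAt (by fun_prop)
  have c2 : Tendsto (fun q' : E3 => (q'.1, q'.2.1, b (q'.1, q'.2.1))) (𝓝 q) (𝓝 q) := by
    have : ContinuousAt (fun q' : E3 => (q'.1, q'.2.1, b (q'.1, q'.2.1))) q := by fun_prop
    simpa [ContinuousAt, hb0] using this
  obtain ⟨ε, hε, hU⟩ := Metric.eventually_nhds_iff.1 hu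
  have c3 : ∀ᶠ q' in 𝓝 q, dist (b (q'.1, q'.2.1)) q.2.2 < ε / 3 := by
    have := Metric.tendsto_nhds.1 c1 (ε / 3) (by positivity)
    simpa only [hb0] using this
  filter_upwards [c2.eventually hu, c3, Metric.ball_mem_nhds q (by positivity : 0 < ε / 3)]
    with q' h1 h2 h3
  have h4 := (𝒴.nr_spec q').2 _ (h1.2 rfl)
  rw [Metric.mem_ball, Prod.dist_eq, Prod.dist_eq, max_lt_iff, max_lt_iff] at h3
  refine ((hU (y := (q'.1, q'.2.1, 𝒴.nr q')) ?_).1 (𝒴.nr_spec q').1).symm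
  rw [Prod.dist_eq, Prod.dist_eq, max_lt_iff, max_lt_iff]
  refine ⟨by linarith [h3.1], by linarith [h3.2.1], ?_⟩
  rw [← dist_eq_norm, ← dist_eq_norm] at h4
  have := dist_triangle (𝒴.nr q') q'.2.2 q.2.2
  have := dist_triangle_right (b (q'.1, q'.2.1)) q'.2.2 q.2.2
  linarith [h3.2.2]

/-- the nearest root is a holomorphic retraction near an unramified point -/
theorem Ok.nr (h : 𝒴.Ok q) : AnalyticAt ℂ 𝒴.nr q ∧ 𝒴.nr q = q.2.2 ∧ ∀ᶠ q' in 𝓝 q,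
    𝒴.Ok (𝒴.prj q') ∧ (𝒴.On q' → 𝒴.prj q' = q') ∧ 𝒴.nr q' = 𝒴.nr (q'.1, q'.2.1, q.2.2) := by
  obtain ⟨b, hb, hb0, hu⟩ := h.branch
  have h1 : AnalyticAt ℂ 𝒴.nr q :=
    (AnalyticAt.comp (f := fun q' : E3 => (q'.1, q'.2.1)) hb
      (analyticAt_fst.prod (analyticAt_fst.comp analyticAt_snd))).congr
      (hu.mono fun q' h => h.symm)
  have h2 : 𝒴.nr q = q.2.2 := hu.self_of_nhds.trans hb0
  have h3 : Tendsto 𝒴.prj (𝓝 q) (𝓝 q) := by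
    have : ContinuousAt 𝒴.prj q :=
      continuousAt_fst.prodMk (continuousAt_snd.fst.prodMk h1.continuousAt)
    simpa [ContinuousAt, h.2.1.prj] using this
  have h4 : Tendsto (fun q' : E3 => (q'.1, q'.2.1, q.2.2)) (𝓝 q) (𝓝 q) :=
    Continuous.tendsto (f := fun q' : E3 => (q'.1, q'.2.1, q.2.2)) (by fun_prop) q
  refine ⟨h1, h2, ?_⟩
  filter_upwards [h3.eventually h.eventually, hu, h4.eventually hu] with q' a1 a2 a3
  exact ⟨a1 (𝒴.on_prj q'), On.prj, a2.trans a3.symm⟩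

theorem Ok.prj (h : 𝒴.Ok q) : AnalyticAt ℂ 𝒴.prj q ∧ 𝒴.prj q = q ∧
    ∀ v : E3, fderiv ℂ 𝒴.prj q v = v.1 • 𝒴.vT q + v.2.1 • 𝒴.vX q := by
  have h1 := h.nr.1
  have h2 : HasFDerivAt 𝒴.prj ((ContinuousLinearMap.fst ℂ ℂ (ℂ × ℂ)).prod
      (((ContinuousLinearMap.fst ℂ ℂ ℂ).comp (ContinuousLinearMap.snd ℂ ℂ (ℂ × ℂ))).prod
        (fderiv ℂ 𝒴.nr q))) q :=
    hasFDerivAt_fst.prodMk (hasFDerivAt_snd.fst.prodMk h1.differentiableAt.hasFDerivAt)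
  refine ⟨analyticAt_fst.prod ((analyticAt_fst.comp analyticAt_snd).prod h1), h.2.1.prj,
    fun v => ?_⟩
  have h3 : HasFDerivAt (ev 𝒴.P) (fderiv ℂ (ev 𝒴.P) q) (𝒴.prj q) := by
    rw [h.2.1.prj]
    exact (analyticAt_ev h.1.1).differentiableAt.hasFDerivAt
  have h4 := h3.comp q h2
  rw [show ev 𝒴.P ∘ 𝒴.prj = fun _ => 0 from funext fun q' => 𝒴.on_prj q'] at h4
  have h5 : fderiv ℂ (ev 𝒴.P) q (v.1, v.2.1, fderiv ℂ 𝒴.nr q v) = 0 :=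
    DFunLike.congr_fun (h4.unique (hasFDerivAt_const 0 q)) v
  have h6 : (v.1, v.2.1, fderiv ℂ 𝒴.nr q v) = v.1 • ((1, 0, 0) : E3) + v.2.1 • ((0, 1, 0) : E3) +
      fderiv ℂ 𝒴.nr q v • ((0, 0, 1) : E3) := by simp
  rw [h6, map_add, map_add, map_smul, map_smul, map_smul, fderiv_ev_η h.1.1] at h5
  have h7 := h.py_ne
  rw [h2.fderiv]
  refine Prod.ext (by simp [vT, vX]) (Prod.ext (by simp [vT, vX]) ?_)
  simp only [smul_eq_mul] at h5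
  change fderiv ℂ 𝒴.nr q v = v.1 * (-fderiv ℂ (ev 𝒴.P) q (1, 0, 0) / 𝒴.py q) +
    v.2.1 * (-fderiv ℂ (ev 𝒴.P) q (0, 1, 0) / 𝒴.py q)
  field_simp
  unfold py
  linear_combination h5

theorem rts_local (h : 𝒴.Rt t) (h0 : (sp1 𝒴.R t).eval ξ ≠ 0) : ∀ᶠ y in 𝓝 ((t, ξ) : E2),
    BijOn (fun η => 𝒴.nr (y.1, y.2, η)) (𝒴.rts t ξ) (𝒴.rts y.1 y.2) := by
  have ok : ∀ η ∈ 𝒴.rts t ξ, 𝒴.Ok (t, ξ, η) := fun η hη => ⟨h, mem_rts.1 hη, h0⟩
  have c : ∀ η ∈ 𝒴.rts t ξ, Tendsto (fun y : E2 => 𝒴.nr (y.1, y.2, η)) (𝓝 (t, ξ)) (𝓝 η) := by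
    intro η hη
    have : ContinuousAt (fun y : E2 => 𝒴.nr (y.1, y.2, η)) (t, ξ) :=
      ContinuousAt.comp (f := fun y : E2 => (y.1, y.2, η)) (x := (t, ξ))
        (ok η hη).nr.1.continuousAt (by fun_prop)
    simpa [ContinuousAt, (ok η hη).nr.2.1] using this
  have inj : ∀ᶠ y in 𝓝 ((t, ξ) : E2), ∀ η ∈ 𝒴.rts t ξ, ∀ η' ∈ 𝒴.rts t ξ, η ≠ η' →
      𝒴.nr (y.1, y.2, η) ≠ 𝒴.nr (y.1, y.2, η') := by
    simp only [Finset.eventually_all, eventually_all]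
    exact fun η hη η' hη' hn => ((c η hη).sub (c η' hη')).eventually_ne (sub_ne_zero.2 hn) |>.mono
      fun y hy => sub_ne_zero.1 hy
  have r1 : ∀ᶠ y in 𝓝 ((t, ξ) : E2), 𝒴.Rt y.1 := continuousAt_fst.eventually h.eventually
  have r2 : ∀ᶠ y in 𝓝 ((t, ξ) : E2), ev1 𝒴.R (y.1, y.2, 0) ≠ 0 :=
    (ContinuousAt.comp (f := fun y : E2 => ((y.1, y.2, 0) : E3)) (x := (t, ξ))
      (analyticAt_ev1 (q := (t, ξ, 0)) h.2.2.2.1).continuousAt (by fun_prop)).eventually_ne h0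
  filter_upwards [inj, r1, r2] with y a1 a2 a3
  have m : MapsTo (fun η => 𝒴.nr (y.1, y.2, η)) (𝒴.rts t ξ) (𝒴.rts y.1 y.2) :=
    fun η _ => mem_rts.2 (𝒴.nr_spec (y.1, y.2, η)).1
  have i : InjOn (fun η => 𝒴.nr (y.1, y.2, η)) (𝒴.rts t ξ) :=
    fun η hη η' hη' e => by_contra fun hn => a1 η hη η' hη' hn e
  exact ⟨m, i, Finset.surjOn_of_injOn_of_card_le _ m i (by rw [card_rts h h0, card_rts a2 a3])⟩

theorem Ok.tendsto_t (h : 𝒴.Ok q) :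
    Tendsto (fun t => 𝒴.prj (t, q.2.1, q.2.2)) (𝓝 q.1) (𝓝 q) := by
  have : ContinuousAt (fun t => 𝒴.prj (t, q.2.1, q.2.2)) q.1 :=
    ContinuousAt.comp (f := fun t => (t, q.2.1, q.2.2)) h.prj.1.continuousAt (by fun_prop)
  simpa [ContinuousAt, h.prj.2.1] using this

theorem Ok.tendsto_ξ (h : 𝒴.Ok q) :
    Tendsto (fun ξ => 𝒴.prj (q.1, ξ, q.2.2)) (𝓝 q.2.1) (𝓝 q) := by
  have : ContinuousAt (fun ξ => 𝒴.prj (q.1, ξ, q.2.2)) q.2.1 :=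
    ContinuousAt.comp (f := fun ξ => (q.1, ξ, q.2.2)) h.prj.1.continuousAt (by fun_prop)
  simpa [ContinuousAt, h.prj.2.1] using this

/-- points of the fibre are limits of generic points of the fibre -/
theorem Ok.fb_closure (h : 𝒴.Ok q) {p : E3 → Prop} (hp : ∀ᶠ q' in 𝒴.fb q.1, p q') :
    ∃ᶠ q' in 𝓝 q, q'.1 = q.1 ∧ 𝒴.On q' ∧ p q' := by
  refine (h.tendsto_ξ.mono_left (nhdsWithin_le_nhds (s := {q.2.1}ᶜ))).frequently
    (Eventually.frequently ?_)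
  filter_upwards [(eventually_fb.1 hp).filter_mono (nhdsNE_le_cofinite q.2.1)] with ξ h1
  exact ⟨rfl, 𝒴.on_prj _, h1 _ (𝒴.on_prj (q.1, ξ, q.2.2))⟩

/-- a property that holds on the fibre near a point holds frequently on the fibre -/
theorem Ok.frequently_fb (h : 𝒴.Ok q) {p : E3 → Prop}
    (hp : ∀ᶠ q' in 𝓝 q, q'.1 = q.1 → 𝒴.On q' → p q') : ∃ᶠ q' in 𝒴.fb q.1, p q' := by
  refine Pl.frequently_fb.2 (infinite_of_mem_nhds q.2.1 ?_)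
  filter_upwards [h.tendsto_ξ.eventually hp] with ξ h1
  exact ⟨_, 𝒴.on_prj (q.1, ξ, q.2.2), h1 rfl (𝒴.on_prj _)⟩

theorem Ok.an_vT (h : 𝒴.Ok q) : AnalyticAt ℂ 𝒴.vT q := by
  exact analyticAt_const.prod (analyticAt_const.prod
    ((an_app (analyticAt_ev h.1.1).fderiv analyticAt_const).neg.div h.an_py h.py_ne))

theorem Ok.an_vX (h : 𝒴.Ok q) : AnalyticAt ℂ 𝒴.vX q := by
  exact analyticAt_const.prod (analyticAt_const.prod
    ((an_app (analyticAt_ev h.1.1).fderiv analyticAt_const).neg.div h.an_py h.py_ne))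

theorem Ok.an_dT (h : 𝒴.Ok q) (hF : AnalyticAt ℂ F q) : AnalyticAt ℂ (𝒴.dT F) q := by
  exact an_app hF.fderiv h.an_vT

theorem Ok.an_dX (h : 𝒴.Ok q) (hF : AnalyticAt ℂ F q) : AnalyticAt ℂ (𝒴.dX F) q := by
  exact an_app hF.fderiv h.an_vX

theorem Ok.an_LD (h : 𝒴.Ok q) (ν : ℕ) (hs : AnalyticAt ℂ s q) (hF : AnalyticAt ℂ F q) :
    AnalyticAt ℂ (𝒴.LD ν s F) q := by
  exact ((h.an_dT hF).sub (hs.mul (h.an_dX hF))).sub
    ((analyticAt_const.mul (h.an_dX hs)).mul hF)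

theorem Ok.hasDerivAt_t (h : 𝒴.Ok q) (hF : DifferentiableAt ℂ F q) :
    HasDerivAt (fun t => F (𝒴.prj (t, q.2.1, q.2.2))) (𝒴.dT F q) q.1 := by
  have h1 : HasDerivAt (fun t => ((t, q.2.1, q.2.2) : E3)) (1, 0, 0) q.1 :=
    (hasDerivAt_id _).prodMk (hasDerivAt_const _ _)
  have h2 := (h.prj.1.differentiableAt.hasFDerivAt).comp_hasDerivAt q.1 h1
  have h3 : HasFDerivAt F (fderiv ℂ F q) (𝒴.prj q) := by
    rw [h.prj.2.1]
    exact hF.hasFDerivAt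
  have h4 := h3.comp_hasDerivAt q.1 h2
  rw [h.prj.2.2] at h4
  simpa [dT, Function.comp_def] using h4

theorem Ok.hasDerivAt_ξ (h : 𝒴.Ok q) (hF : DifferentiableAt ℂ F q) :
    HasDerivAt (fun ξ => F (𝒴.prj (q.1, ξ, q.2.2))) (𝒴.dX F q) q.2.1 := by
  have h1 : HasDerivAt (fun ξ => ((q.1, ξ, q.2.2) : E3)) (0, 1, 0) q.2.1 :=
    (hasDerivAt_const _ _).prodMk ((hasDerivAt_id _).prodMk (hasDerivAt_const _ _))
  have h2 := (h.prj.1.differentiableAt.hasFDerivAt).comp_hasDerivAt q.2.1 h1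
  have h3 : HasFDerivAt F (fderiv ℂ F q) (𝒴.prj q) := by
    rw [h.prj.2.1]
    exact hF.hasFDerivAt
  have h4 := h3.comp_hasDerivAt q.2.1 h2
  rw [h.prj.2.2] at h4
  simpa [dX, Function.comp_def] using h4

theorem Ok.dT_congr (h : 𝒴.Ok q) (hF : DifferentiableAt ℂ F q) (hG : DifferentiableAt ℂ G q)
    (e : ∀ᶠ q' in 𝓝 q, 𝒴.On q' → F q' = G q') : 𝒴.dT F q = 𝒴.dT G q := by
  refine (h.hasDerivAt_t hF).unique ((h.hasDerivAt_t hG).congr_of_eventuallyEq ?_)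
  filter_upwards [h.tendsto_t.eventually e] with t h1
  exact h1 (𝒴.on_prj _)

theorem Ok.dX_congr (h : 𝒴.Ok q) (hF : DifferentiableAt ℂ F q) (hG : DifferentiableAt ℂ G q)
    (e : ∀ᶠ q' in 𝓝 q, q'.1 = q.1 → 𝒴.On q' → F q' = G q') : 𝒴.dX F q = 𝒴.dX G q := by
  refine (h.hasDerivAt_ξ hF).unique ((h.hasDerivAt_ξ hG).congr_of_eventuallyEq ?_)
  filter_upwards [h.tendsto_ξ.eventually e] with t h1
  exact h1 rfl (𝒴.on_prj _)

theorem Ok.LD_congr (h : 𝒴.Ok q) (ν : ℕ) (hF : DifferentiableAt ℂ F q)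
    (hG : DifferentiableAt ℂ G q) (e : ∀ᶠ q' in 𝓝 q, 𝒴.On q' → F q' = G q') :
    𝒴.LD ν s F q = 𝒴.LD ν s G q := by
  rw [LD, LD, h.dT_congr hF hG e, h.dX_congr hF hG (e.mono fun q' a _ => a),
    e.self_of_nhds h.2.1]

/-- the chain rule for maps into the surface -/
theorem Ok.chain {E : Type*} [NormedAddCommGroup E] [NormedSpace ℂ E] {γ : E → E3} {a : E}
    (h : 𝒴.Ok (γ a)) (hγ : DifferentiableAt ℂ γ a) (ho : ∀ᶠ b in 𝓝 a, 𝒴.On (γ b))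
    (hF : DifferentiableAt ℂ F (γ a)) (v : E) : fderiv ℂ (fun b => F (γ b)) a v =
      fderiv ℂ (fun b => (γ b).1) a v * 𝒴.dT F (γ a) +
        fderiv ℂ (fun b => (γ b).2.1) a v * 𝒴.dX F (γ a) := by
  have h1 : (fun b => 𝒴.prj (γ b)) =ᶠ[𝓝 a] γ := ho.mono fun b hb => hb.prj
  have h2 := (h.prj.1.differentiableAt.hasFDerivAt.comp a hγ.hasFDerivAt).congr_of_eventuallyEq
    h1.symm
  have h3 : fderiv ℂ γ a v = fderiv ℂ 𝒴.prj (γ a) (fderiv ℂ γ a v) :=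
    DFunLike.congr_fun h2.fderiv v
  have h4 : fderiv ℂ (fun b => F (γ b)) a v = fderiv ℂ F (γ a) (fderiv ℂ γ a v) :=
    DFunLike.congr_fun (hF.hasFDerivAt.comp a hγ.hasFDerivAt).fderiv v
  rw [h4, h3, h.prj.2.2, map_add, map_smul, map_smul, hγ.hasFDerivAt.fst.fderiv,
    hγ.hasFDerivAt.snd.fst.fderiv]
  rfl

theorem dT_add (hF : DifferentiableAt ℂ F q) (hG : DifferentiableAt ℂ G q) :
    𝒴.dT (fun q => F q + G q) q = 𝒴.dT F q + 𝒴.dT G q := by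
  rw [dT, fderiv_fun_add hF hG]
  rfl

theorem dX_add (hF : DifferentiableAt ℂ F q) (hG : DifferentiableAt ℂ G q) :
    𝒴.dX (fun q => F q + G q) q = 𝒴.dX F q + 𝒴.dX G q := by
  rw [dX, fderiv_fun_add hF hG]
  rfl

theorem dT_sub (hF : DifferentiableAt ℂ F q) (hG : DifferentiableAt ℂ G q) :
    𝒴.dT (fun q => F q - G q) q = 𝒴.dT F q - 𝒴.dT G q := by
  rw [dT, fderiv_fun_sub hF hG]
  rfl

theorem dX_sub (hF : DifferentiableAt ℂ F q) (hG : DifferentiableAt ℂ G q) :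
    𝒴.dX (fun q => F q - G q) q = 𝒴.dX F q - 𝒴.dX G q := by
  rw [dX, fderiv_fun_sub hF hG]
  rfl

theorem dT_mul (hF : DifferentiableAt ℂ F q) (hG : DifferentiableAt ℂ G q) :
    𝒴.dT (fun q => F q * G q) q = 𝒴.dT F q * G q + F q * 𝒴.dT G q := by
  rw [dT, fderiv_fun_mul hF hG]
  simp only [dT, _root_.add_apply, _root_.smul_apply, smul_eq_mul]
  ring

theorem dX_mul (hF : DifferentiableAt ℂ F q) (hG : DifferentiableAt ℂ G q) :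
    𝒴.dX (fun q => F q * G q) q = 𝒴.dX F q * G q + F q * 𝒴.dX G q := by
  rw [dX, fderiv_fun_mul hF hG]
  simp only [dX, _root_.add_apply, _root_.smul_apply, smul_eq_mul]
  ring

theorem dT_div (hF : DifferentiableAt ℂ F q) (hG : DifferentiableAt ℂ G q) (h0 : G q ≠ 0) :
    𝒴.dT (fun q => F q / G q) q = (𝒴.dT F q * G q - F q * 𝒴.dT G q) / G q ^ 2 := by
  have h1 : DifferentiableAt ℂ (fun q => F q / G q) q := by
    simp only [div_eq_mul_inv]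
    exact hF.mul (hG.inv h0)
  have h2 : (fun q => F q / G q * G q) =ᶠ[𝓝 q] F :=
    (hG.continuousAt.eventually_ne h0).mono fun q' h => div_mul_cancel₀ _ h
  have h3 := dT_mul (𝒴 := 𝒴) h1 hG
  rw [dT, h2.fderiv_eq, ← dT] at h3
  rw [h3]
  field_simp
  ring

theorem dX_div (hF : DifferentiableAt ℂ F q) (hG : DifferentiableAt ℂ G q) (h0 : G q ≠ 0) :
    𝒴.dX (fun q => F q / G q) q = (𝒴.dX F q * G q - F q * 𝒴.dX G q) / G q ^ 2 := by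
  have h1 : DifferentiableAt ℂ (fun q => F q / G q) q := by
    simp only [div_eq_mul_inv]
    exact hF.mul (hG.inv h0)
  have h2 : (fun q => F q / G q * G q) =ᶠ[𝓝 q] F :=
    (hG.continuousAt.eventually_ne h0).mono fun q' h => div_mul_cancel₀ _ h
  have h3 := dX_mul (𝒴 := 𝒴) h1 hG
  rw [dX, h2.fderiv_eq, ← dX] at h3
  rw [h3]
  field_simp
  ring

theorem dT_sum {ι : Type*} {u : Finset ι} {f : ι → E3 → ℂ}
    (h : ∀ i ∈ u, DifferentiableAt ℂ (f i) q) :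
    𝒴.dT (fun q => ∑ i ∈ u, f i q) q = ∑ i ∈ u, 𝒴.dT (f i) q := by
  rw [dT, fderiv_fun_sum h, _root_.sum_apply]
  rfl

theorem dX_sum {ι : Type*} {u : Finset ι} {f : ι → E3 → ℂ}
    (h : ∀ i ∈ u, DifferentiableAt ℂ (f i) q) :
    𝒴.dX (fun q => ∑ i ∈ u, f i q) q = ∑ i ∈ u, 𝒴.dX (f i) q := by
  rw [dX, fderiv_fun_sum h, _root_.sum_apply]
  rfl

theorem dT_fst {c : ℂ → ℂ} (h : DifferentiableAt ℂ c q.1) :
    𝒴.dT (fun q => c q.1) q = deriv c q.1 := by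
  have := (h.hasDerivAt.hasFDerivAt.comp q (hasFDerivAt_fst (𝕜 := ℂ) (p := q))).fderiv
  rw [dT, show (fun q : E3 => c q.1) = c ∘ Prod.fst from rfl, this]
  simp [vT]

theorem dX_fst {c : ℂ → ℂ} (h : DifferentiableAt ℂ c q.1) : 𝒴.dX (fun q => c q.1) q = 0 := by
  have := (h.hasDerivAt.hasFDerivAt.comp q (hasFDerivAt_fst (𝕜 := ℂ) (p := q))).fderiv
  rw [dX, show (fun q : E3 => c q.1) = c ∘ Prod.fst from rfl, this]
  simp [vX]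

theorem dT_ξ : 𝒴.dT (fun q => q.2.1) q = 0 := by
  rw [dT, (hasFDerivAt_snd (𝕜 := ℂ) (p := q)).fst.fderiv]
  simp [vT]

theorem dX_ξ : 𝒴.dX (fun q => q.2.1) q = 1 := by
  rw [dX, (hasFDerivAt_snd (𝕜 := ℂ) (p := q)).fst.fderiv]
  simp [vX]

theorem LD_cb {g : ℕ} {a : VF g} {φ : Fin g → E3 → ℂ} (ν : ℕ) (ha : AnV a q.1)
    (hφ : ∀ i, DifferentiableAt ℂ (φ i) q) : 𝒴.LD ν s (cb a φ) q =
      ∑ i, (deriv (fun t => a t i) q.1 * φ i q + a q.1 i * 𝒴.LD ν s (φ i) q) := by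
  have h1 : ∀ i, DifferentiableAt ℂ (fun q : E3 => a q.1 i) q := fun i =>
    DifferentiableAt.comp (g := fun t => a t i) q (ha i).differentiableAt differentiableAt_fst
  have h2 : ∀ i ∈ Finset.univ, DifferentiableAt ℂ (fun q : E3 => a q.1 i * φ i q) q :=
    fun i _ => (h1 i).mul (hφ i)
  unfold LD cb
  rw [dT_sum h2, dX_sum h2, Finset.mul_sum, Finset.mul_sum, ← Finset.sum_sub_distrib,
    ← Finset.sum_sub_distrib]
  refine Finset.sum_congr rfl fun i _ => ?_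
  rw [dT_mul (h1 i) (hφ i), dX_mul (h1 i) (hφ i),
    dT_fst (c := fun t => a t i) (ha i).differentiableAt,
    dX_fst (c := fun t => a t i) (ha i).differentiableAt]
  ring

end Pl

end Pool.Agent.P.MP_7ede32_ag.Hod
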