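import Pool.Agent.P.MP_7ede32_ag.Hod.StA
import Pool.Agent.P.MP_7ede32_ag.Hod.BrT

/-!
The Hodge metric is lower semicontinuous.
-/

open Set Filter Topology MeasureTheory ComplexConjugate Polynomial Matrix
open scoped ComplexOrder

namespace Pool.Agent.P.MP_7ede32_ag.Hod

namespace LscP

variable {g : ℕ}

theorem psd_int {F : ℂ → Matrix (Fin g) (Fin g) ℂ} (h : ∀ ξ, (F ξ).PosSemidef)
    (hi : ∀ i j, Integrable fun ξ => F ξ i j) :
    (Matrix.of fun i j => ∫ ξ, F ξ i j).PosSemidef := by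
  refine PosSemidef.of_dotProduct_mulVec_nonneg ?_ fun x => ?_
  · ext i j
    rw [conjTranspose_apply, of_apply, of_apply, RCLike.star_def, ← integral_conj]
    exact integral_congr_ae (ae_of_all _ fun ξ => (h ξ).1.apply i j)
  · have e : star x ⬝ᵥ (Matrix.of fun i j => ∫ ξ, F ξ i j) *ᵥ x = ∫ ξ, star x ⬝ᵥ F ξ *ᵥ x := by
      simp only [dotProduct, mulVec, of_apply]
      rw [integral_finsetSum _ fun i _ =>
        (integrable_finsetSum _ fun j _ => (hi i j).mul_const _).const_mul _]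
      refine Finset.sum_congr rfl fun i _ => ?_
      rw [integral_const_mul, integral_finsetSum _ fun j _ => (hi i j).mul_const _]
      simp only [integral_mul_const]
    rw [e]
    exact integral_nonneg fun ξ => (h ξ).dotProduct_mulVec_nonneg x

theorem psd_near {A : Matrix (Fin g) (Fin g) ℂ} (h : A.PosDef) :
    ∀ᶠ M in 𝓝 A, M.IsHermitian → M.PosSemidef := by
  have a := (isCompact_sphere (0 : Fin g → ℂ) 1).eventually_forall_of_forall_eventually (x₀ := A)
    (P := fun M x => 0 < (star x ⬝ᵥ M *ᵥ x).re) fun x hx => by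
      have c : Continuous fun z : Matrix (Fin g) (Fin g) ℂ × (Fin g → ℂ) =>
          (star z.2 ⬝ᵥ z.1 *ᵥ z.2).re := by fun_prop
      refine c.continuousAt.eventually (lt_mem_nhds (h.re_dotProduct_pos ?_))
      rintro rfl
      simp at hx
  filter_upwards [a] with M hM h1
  refine PosSemidef.of_dotProduct_mulVec_nonneg h1 fun x => ?_
  by_cases hx : x = 0
  · simp [hx]
  have n0 : 0 < ‖x‖ := norm_pos_iff.2 hx
  have b := hM ((‖x‖⁻¹ : ℝ) • x) (by simp [norm_smul, n0.ne'])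
  rw [star_smul, mulVec_smul, smul_dotProduct, dotProduct_smul, star_trivial, Complex.smul_re,
    Complex.smul_re, smul_eq_mul, smul_eq_mul] at b
  refine Complex.nonneg_iff.2 ⟨?_, (h1.im_star_dotProduct_mulVec_self x).symm⟩
  exact (pos_of_mul_pos_right (pos_of_mul_pos_right b (by positivity)) (by positivity)).le

theorem lsc {I : ℂ → ℂ → Matrix (Fin g) (Fin g) ℂ} {t₀ : ℂ} (h : ∀ t ξ, (I t ξ).PosSemidef)
    (hi : ∀ᶠ t in 𝓝 t₀, ∀ i j, Integrable fun ξ => I t ξ i j)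
    (hc : ∀ᵐ ξ, ∀ i j, ContinuousAt (fun t => I t ξ i j) t₀)
    (hp : (Matrix.of fun i j => ∫ ξ, I t₀ ξ i j).PosDef) :
    Lsc (fun t => Matrix.of fun i j => ∫ ξ, I t ξ i j) t₀ := by
  intro θ hθ
  let τ : ℂ → ℂ → ℝ := fun t ξ => ∑ i, ∑ j, ‖I t ξ i j‖
  have τ0 : ∀ t ξ, 0 ≤ τ t ξ := fun t ξ => by positivity
  have τ1 : ∀ t ξ i j, ‖I t ξ i j‖ ≤ τ t ξ := fun t ξ i j =>
    (Finset.single_le_sum (f := fun j => ‖I t ξ i j‖) (fun _ _ => norm_nonneg _)
      (Finset.mem_univ j)).trans (Finset.single_le_sum (f := fun i => ∑ j, ‖I t ξ i j‖)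
        (fun _ _ => by positivity) (Finset.mem_univ i))
  have τ2 : ∀ᶠ t in 𝓝 t₀, Integrable (τ t) := hi.mono fun t ht =>
    integrable_finsetSum _ fun i _ => integrable_finsetSum _ fun j _ => (ht i j).norm
  let s : ℂ → ℂ → ℝ := fun t ξ => min 1 (2 * τ t₀ ξ / τ t ξ)
  have s0 : ∀ t ξ, 0 ≤ s t ξ := fun t ξ =>
    le_min one_pos.le (div_nonneg (mul_nonneg two_pos.le (τ0 _ _)) (τ0 _ _))
  have s1 : ∀ t ξ i j, ‖s t ξ • I t ξ i j‖ ≤ 2 * τ t₀ ξ := fun t ξ i j => by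
    rw [norm_smul, Real.norm_of_nonneg (s0 t ξ)]
    refine (mul_le_mul (min_le_right _ _) (τ1 t ξ i j) (norm_nonneg _)
      ((s0 t ξ).trans (min_le_right _ _))).trans ?_
    rcases (τ0 t ξ).eq_or_lt with e | e
    · rw [← e, mul_zero]
      exact mul_nonneg two_pos.le (τ0 _ _)
    · rw [div_mul_cancel₀ _ e.ne']
  have s2 : ∀ᶠ t in 𝓝 t₀, ∀ i j, AEStronglyMeasurable (fun ξ => s t ξ • I t ξ i j) volume := by
    filter_upwards [hi, τ2] with t h1 h2 i j
    exact (aemeasurable_const.min ((τ2.self_of_nhds.aemeasurable.const_mul 2).div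
      h2.aemeasurable)).aestronglyMeasurable.smul (h1 i j).1
  have s3 : ∀ᶠ t in 𝓝 t₀, ∀ i j, Integrable fun ξ => s t ξ • I t ξ i j := s2.mono fun t ht i j =>
    (τ2.self_of_nhds.const_mul 2).mono' (ht i j) (ae_of_all _ fun ξ => s1 t ξ i j)
  have a1 : Tendsto (fun t => Matrix.of fun i j => ∫ ξ, s t ξ • I t ξ i j) (𝓝 t₀)
      (𝓝 (Matrix.of fun i j => ∫ ξ, I t₀ ξ i j)) := by
    refine tendsto_pi_nhds.2 fun i => tendsto_pi_nhds.2 fun j =>
      tendsto_integral_filter_of_dominated_convergence _ (s2.mono fun t ht => ht i j)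
        (Eventually.of_forall fun t => ae_of_all _ fun ξ => s1 t ξ i j)
        (τ2.self_of_nhds.const_mul 2) (hc.mono fun ξ hξ => ?_)
    rcases (τ0 t₀ ξ).eq_or_lt with e | e
    · have e1 : I t₀ ξ i j = 0 := norm_le_zero_iff.1 (e ▸ τ1 t₀ ξ i j)
      simp [s, ← e, e1]
    · have c : ContinuousAt (fun t => τ t ξ) t₀ :=
        tendsto_finsetSum _ fun i _ => tendsto_finsetSum _ fun j _ => (hξ i j).norm
      have := (tendsto_const_nhds.min ((tendsto_const_nhds (x := 2 * τ t₀ ξ)).div c e.ne')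
        (a₁ := 1)).smul (hξ i j)
      rwa [mul_div_cancel_right₀ _ e.ne', min_eq_left one_le_two, one_smul] at this
  have a2 := (a1.sub_const ((θ : ℂ) • Matrix.of fun i j => ∫ ξ, I t₀ ξ i j)).eventually
    (psd_near (by
      rw [← one_smul ℂ (Matrix.of fun i j => ∫ ξ, I t₀ ξ i j), smul_smul, ← sub_smul, mul_one]
      exact hp.smul (by exact_mod_cast sub_pos.2 hθ)))
  filter_upwards [a2, s3, hi] with t b1 b2 b3
  have b4 := psd_int (F := fun ξ => s t ξ • I t ξ) (fun ξ => (h t ξ).smul (s0 t ξ)) b2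
  have b5 := psd_int (F := fun ξ => (1 - s t ξ) • I t ξ)
    (fun ξ => (h t ξ).smul (sub_nonneg.2 (min_le_left _ _)))
    fun i j => ((b3 i j).sub (b2 i j)).congr (ae_of_all _ fun ξ => by simp [sub_mul])
  have b6 := b5.add (b1 (b4.1.sub (by
    rw [IsHermitian, conjTranspose_smul, hp.1, RCLike.star_def, Complex.conj_ofReal])))
  rw [← add_sub_assoc] at b6
  refine (congrArg (fun M => PosSemidef (M - _)) ?_).mp b6
  ext i j
  simp only [Matrix.add_apply, of_apply, Matrix.smul_apply, sub_smul, one_smul]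
  rw [integral_sub (b3 i j) (b2 i j), sub_add_cancel]

end LscP

theorem sLsc : SLsc := by
  intro L 𝒴 g N t₀ hR hN hi hp
  refine LscP.lsc (I := fun t ξ => Matrix.of fun i j =>
    ∑ η ∈ 𝒴.rts t ξ, 𝒴.phs N i (t, ξ, η) * conj (𝒴.phs N j (t, ξ, η))) (fun t ξ => ?_) hi ?_ hp
  · have := posSemidef_sum (𝒴.rts t ξ) fun η _ =>
      posSemidef_vecMulVec_self_star fun i => 𝒴.phs N i (t, ξ, η)
    refine (congrArg PosSemidef ?_).mp this
    ext i j
    simp [Matrix.sum_apply, vecMulVec_apply]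
  · have hf : {ξ | (sp1 𝒴.R t₀).eval ξ = 0}.Finite :=
      finite_setOfPred_isRoot (monic_sp1 𝒴.monR).1.ne_zero
    filter_upwards [hf.countable.ae_notMem volume] with ξ hξ i j
    have c0 : ContinuousAt (fun t : ℂ => (t, ξ)) t₀ := by fun_prop
    have ok : ∀ η ∈ 𝒴.rts t₀ ξ, 𝒴.Ok (t₀, ξ, η) := fun η hη => ⟨hR, Pl.mem_rts.1 hη, hξ⟩
    have c1 : ∀ η ∈ 𝒴.rts t₀ ξ, ∀ i, ContinuousAt (fun t => 𝒴.phs N i (𝒴.prj (t, ξ, η))) t₀ :=
      fun η hη i => ((ok η hη).hasDerivAt_t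
        (Pl.anO_ph (hN i) _ (ok η hη) rfl).differentiableAt).continuousAt
    refine ContinuousAt.congr (f := fun t => ∑ η ∈ 𝒴.rts t₀ ξ,
      𝒴.phs N i (𝒴.prj (t, ξ, η)) * conj (𝒴.phs N j (𝒴.prj (t, ξ, η))))
      (tendsto_finsetSum _ fun η hη => (c1 η hη i).mul
        (Complex.continuous_conj.continuousAt.comp (c1 η hη j))) ?_
    filter_upwards [c0.eventually (Pl.rts_local hR hξ)] with t ht
    exact Finset.sum_nbij _ ht.mapsTo ht.injOn ht.surjOn fun _ _ => rfl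

end Pool.Agent.P.MP_7ede32_ag.Hod
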