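import Pool.Agent.P.MP_7ede32_ag.Hod.StA
import Pool.Agent.P.MP_7ede32_ag.Hod.BrT

/-!
Matching of the roots over a compact set.
-/

open Set Filter Topology MeasureTheory ComplexConjugate Polynomial Matrix

noncomputable section

namespace Pool.Agent.P.MP_7ede32_ag.Hod

open Ell (E2)

namespace MatchP

variable {L : PeriodPair} {𝒴 : Pl L} {t₀ ξ₀ : ℂ}

theorem bijOn_of_comp {α β γ : Type*} {s : Set α} {u : Set β} {v : Set γ} {f : β → γ} {g : α → β}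
    {h : α → γ} (hg : BijOn g s u) (hh : BijOn h s v) (e : ∀ a ∈ s, f (g a) = h a) :
    BijOn f u v := by
  refine ⟨fun b hb => ?_, fun b hb b' hb' hbb => ?_, fun c hc => ?_⟩
  · obtain ⟨a, ha, rfl⟩ := hg.surjOn hb
    rw [e a ha]; exact hh.mapsTo ha
  · obtain ⟨a, ha, rfl⟩ := hg.surjOn hb
    obtain ⟨a', ha', rfl⟩ := hg.surjOn hb'
    rw [e a ha, e a' ha'] at hbb
    rw [hh.injOn ha ha' hbb]
  · obtain ⟨a, ha, rfl⟩ := hh.surjOn hc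
    exact ⟨g a, hg.mapsTo ha, e a ha⟩

/-- the property to be spread over a neighbourhood of the compact set -/
def Good (𝒴 : Pl L) (t₀ : ℂ) (y : E2) : Prop :=
  (sp1 𝒴.R y.1).eval y.2 ≠ 0 ∧
    BijOn (fun η => 𝒴.nr (y.1, y.2, η)) (𝒴.rts t₀ y.2) (𝒴.rts y.1 y.2) ∧
    (∀ η ∈ 𝒴.rts t₀ y.2, 𝒴.nr (t₀, y.2, 𝒴.nr (y.1, y.2, η)) = η) ∧
    ∀ η ∈ 𝒴.rts y.1 y.2, ContinuousAt (fun z : E2 => 𝒴.nr (t₀, z.1, z.2)) (y.2, η)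

theorem branch (h : 𝒴.Rt t₀) (h0 : (sp1 𝒴.R t₀).eval ξ₀ ≠ 0) {η₀ : ℂ} (hη : η₀ ∈ 𝒴.rts t₀ ξ₀) :
    ∀ᶠ y in 𝓝 ((t₀, ξ₀) : E2),
      𝒴.nr (y.1, y.2, 𝒴.nr (t₀, y.2, η₀)) = 𝒴.nr (y.1, y.2, η₀) ∧
      𝒴.nr (t₀, y.2, 𝒴.nr (y.1, y.2, η₀)) = 𝒴.nr (t₀, y.2, η₀) ∧
      ContinuousAt (fun z : E2 => 𝒴.nr (t₀, z.1, z.2)) (y.2, 𝒴.nr (y.1, y.2, η₀)) := by
  have hq : 𝒴.Ok (t₀, ξ₀, η₀) := ⟨h, Pl.mem_rts.1 hη, h0⟩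
  obtain ⟨han, hval, hev⟩ := hq.nr
  have hc : Tendsto 𝒴.nr (𝓝 (t₀, ξ₀, η₀)) (𝓝 η₀) := by
    have := han.continuousAt.tendsto
    rwa [hval] at this
  have f1 : Tendsto (fun y : E2 => y.1) (𝓝 (t₀, ξ₀)) (𝓝 t₀) := continuous_fst.tendsto _
  have f2 : Tendsto (fun y : E2 => y.2) (𝓝 (t₀, ξ₀)) (𝓝 ξ₀) := continuous_snd.tendsto _
  have b0 : Tendsto (fun y : E2 => 𝒴.nr (t₀, y.2, η₀)) (𝓝 (t₀, ξ₀)) (𝓝 η₀) :=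
    hc.comp (tendsto_const_nhds.prodMk_nhds (f2.prodMk_nhds tendsto_const_nhds))
  have b1 : Tendsto (fun y : E2 => 𝒴.nr (y.1, y.2, η₀)) (𝓝 (t₀, ξ₀)) (𝓝 η₀) :=
    hc.comp (f1.prodMk_nhds (f2.prodMk_nhds tendsto_const_nhds))
  have q1 : Tendsto (fun y : E2 => ((y.1, y.2, 𝒴.nr (t₀, y.2, η₀)) : E3)) (𝓝 (t₀, ξ₀))
      (𝓝 (t₀, ξ₀, η₀)) := f1.prodMk_nhds (f2.prodMk_nhds b0)
  have q2 : Tendsto (fun y : E2 => ((t₀, y.2, 𝒴.nr (y.1, y.2, η₀)) : E3)) (𝓝 (t₀, ξ₀))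
      (𝓝 (t₀, ξ₀, η₀)) := tendsto_const_nhds.prodMk_nhds (f2.prodMk_nhds b1)
  filter_upwards [q1.eventually hev, q2.eventually hev, q2.eventually han.eventually_analyticAt]
    with y h1 h2 h3
  refine ⟨h1.2.2, h2.2.2, ?_⟩
  have hk : Continuous fun z : E2 => ((t₀, z.1, z.2) : E3) := by fun_prop
  exact ContinuousAt.comp (g := 𝒴.nr) (f := fun z : E2 => ((t₀, z.1, z.2) : E3))
    (x := (y.2, 𝒴.nr (y.1, y.2, η₀))) h3.continuousAt hk.continuousAt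

theorem good (h : 𝒴.Rt t₀) (h0 : (sp1 𝒴.R t₀).eval ξ₀ ≠ 0) :
    ∀ᶠ y in 𝓝 ((t₀, ξ₀) : E2), Good 𝒴 t₀ y := by
  have hR : ∀ᶠ y in 𝓝 ((t₀, ξ₀) : E2), (sp1 𝒴.R y.1).eval y.2 ≠ 0 := by
    have ha : AnalyticAt ℂ (ev1 𝒴.R) ((t₀, ξ₀, 0) : E3) := analyticAt_ev1 h.2.2.2.1
    have hk : Continuous fun y : E2 => ((y.1, y.2, 0) : E3) := by fun_prop
    exact (hk.tendsto (t₀, ξ₀)).eventually (ha.continuousAt.eventually_ne h0)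
  have hb := Pl.rts_local h h0
  have hk : Tendsto (fun y : E2 => ((t₀, y.2) : E2)) (𝓝 (t₀, ξ₀)) (𝓝 (t₀, ξ₀)) :=
    tendsto_const_nhds.prodMk_nhds (continuous_snd.tendsto _)
  have hall := (Finset.eventually_all (𝒴.rts t₀ ξ₀)).2 fun η₀ hη => branch h h0 hη
  filter_upwards [hR, hb, hk.eventually hb, hall] with y h1 h2 h3 h4
  refine ⟨h1, bijOn_of_comp h3 h2 fun a ha => (h4 a ha).1, fun η hη => ?_, fun η hη => ?_⟩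
  · obtain ⟨a, ha, rfl⟩ := h3.surjOn hη
    show 𝒴.nr (t₀, y.2, 𝒴.nr (y.1, y.2, 𝒴.nr (t₀, y.2, a))) = 𝒴.nr (t₀, y.2, a)
    rw [(h4 a ha).1, (h4 a ha).2.1]
  · obtain ⟨a, ha, rfl⟩ := h2.surjOn hη
    exact (h4 a ha).2.2

end MatchP

theorem sMatch : SMatch := by
  intro L 𝒴 t₀ K h hK h0
  have hsub : ({t₀} : Set ℂ) ×ˢ K ⊆ interior {y : E2 | MatchP.Good 𝒴 t₀ y} := by
    rintro ⟨t, ξ⟩ ⟨ht, hξ⟩
    obtain rfl : t = t₀ := ht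
    exact mem_interior_iff_mem_nhds.2 (MatchP.good h (h0 ξ hξ))
  obtain ⟨u, v, hu, hv, hu', hv', huv⟩ :=
    generalized_tube_lemma isCompact_singleton hK isOpen_interior hsub
  refine ⟨v, hv, hv', ?_⟩
  filter_upwards [h.eventually, hu.mem_nhds (hu' rfl)] with t h1 h2
  refine ⟨h1, fun ξ hξ => ?_⟩
  have h3 : MatchP.Good 𝒴 t₀ (t, ξ) :=
    (interior_subset (huv (mk_mem_prod h2 hξ)) : (t, ξ) ∈ {y : E2 | MatchP.Good 𝒴 t₀ y})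
  exact h3

end Pool.Agent.P.MP_7ede32_ag.Hod
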