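import Pool.Agent.P.MP_7ede32_ag.Hod.StB

/-!
A maximum principle on the elliptic curve.
-/

open Set Filter Topology Metric

namespace Pool.Agent.P.MP_7ede32_ag.Hod

namespace MaxP

/-- positive, upper semicontinuous, with a holomorphic barrier -/
def Br (W : ℂ → ℝ) (t : ℂ) : Prop :=
  0 < W t ∧ (∀ c, W t < c → ∀ᶠ s in 𝓝 t, W s < c) ∧ ∃ f : ℂ → ℂ, AnalyticAt ℂ f t ∧
    f t = 1 ∧ ∀ᶠ s in 𝓝 t, W t * ‖f s‖ ≤ W s

theorem loc_const {W : ℂ → ℝ} {t : ℂ} (h : Br W t) (hm : ∀ᶠ s in 𝓝 t, W s ≤ W t) :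
    ∀ᶠ s in 𝓝 t, W s = W t := by
  obtain ⟨hp, -, f, hf, hf1, hb⟩ := h
  have hmax : IsLocalMax (norm ∘ f) t := by
    filter_upwards [hm, hb] with s h1 h2
    simp only [Function.comp, hf1, norm_one]
    have : W t * ‖f s‖ ≤ W t * 1 := by linarith
    exact le_of_mul_le_mul_left this hp
  have hd : ∀ᶠ s in 𝓝 t, DifferentiableAt ℂ f s :=
    hf.eventually_analyticAt.mono fun s hs => hs.differentiableAt
  filter_upwards [Complex.eventually_eq_of_isLocalMax_norm hd hmax, hm, hb] with s h0 h1 h2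
  rw [h0, hf1, norm_one, mul_one] at h2
  exact le_antisymm h1 h2

theorem pre_const {V : ℂ → ℝ} {S : Set ℂ} (hS : IsPreconnected S) {M : ℝ}
    (hle : ∀ t ∈ S, V t ≤ M) (husc : ∀ t ∈ S, V t < M → ∀ᶠ s in 𝓝 t, V s < M)
    (hloc : ∀ t ∈ S, V t = M → ∀ᶠ s in 𝓝 t, V s = M) {t₀ : ℂ} (h₀ : t₀ ∈ S) (hM : V t₀ = M) :
    ∀ t ∈ S, V t = M := by
  have hsub : S ⊆ interior {s | V s = M} := by
    refine hS.subset_left_of_subset_union (v := interior {s | V s < M}) isOpen_interior
      isOpen_interior ?_ ?_ ⟨t₀, h₀, mem_interior_iff_mem_nhds.2 (hloc t₀ h₀ hM)⟩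
    · refine Set.disjoint_left.2 fun s h1 h2 => ?_
      have a1 : V s = M := (interior_subset h1 : s ∈ {s | V s = M})
      have a2 : V s < M := (interior_subset h2 : s ∈ {s | V s < M})
      linarith
    · intro s hs
      rcases (hle s hs).eq_or_lt with h | h
      · exact Or.inl (mem_interior_iff_mem_nhds.2 (hloc s hs h))
      · exact Or.inr (mem_interior_iff_mem_nhds.2 (husc s hs h))
  exact fun t ht => (interior_subset (hsub ht) : t ∈ {s | V s = M})

/-- the twisted function -/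
noncomputable def tw (W : ℂ → ℝ) (z : ℂ) (r ε : ℝ) (s : ℂ) : ℝ :=
  open Classical in
  if s = z then 0 else W s * Real.exp (ε * (Real.log ‖s - z‖ - Real.log r))

theorem Br.tw {W : ℂ → ℝ} {t z : ℂ} (h : Br W t) (hz : t ≠ z) (r ε : ℝ) :
    Br (tw W z r ε) t := by
  obtain ⟨hp, hu, f, hf, hf1, hb⟩ := h
  have hne : ∀ᶠ s in 𝓝 t, s ≠ z := eventually_ne_nhds hz
  have htz : t - z ≠ 0 := sub_ne_zero.2 hz
  have hc : ContinuousAt (fun s : ℂ => Real.exp (ε * (Real.log ‖s - z‖ - Real.log r))) t := by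
    have h1 : ContinuousAt (fun s : ℂ => ‖s - z‖) t := by fun_prop
    have h2 : ContinuousAt (fun s : ℂ => Real.log ‖s - z‖) t := h1.log (norm_ne_zero_iff.2 htz)
    fun_prop
  refine ⟨?_, ?_, ?_⟩
  · simp only [MaxP.tw, if_neg hz]; positivity
  · intro c hc0
    simp only [MaxP.tw, if_neg hz] at hc0
    have h1 : ∀ᶠ x in 𝓝[>] (W t), x * Real.exp (ε * (Real.log ‖t - z‖ - Real.log r)) < c := by
      have : ContinuousAt (fun x : ℝ => x * Real.exp (ε * (Real.log ‖t - z‖ - Real.log r)))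
          (W t) := by fun_prop
      exact nhdsWithin_le_nhds (this.eventually_lt continuousAt_const hc0)
    obtain ⟨c₁, h2, h3⟩ := (h1.and self_mem_nhdsWithin).exists
    have h4 := (continuousAt_const (y := c₁).mul hc).eventually_lt continuousAt_const h2
    filter_upwards [hne, hu c₁ h3, h4] with s a1 a2 a3
    simp only [MaxP.tw, if_neg a1]
    refine lt_of_le_of_lt ?_ a3
    exact mul_le_mul_of_nonneg_right a2.le (Real.exp_pos _).le
  · refine ⟨fun s => f s * Complex.exp (ε * Complex.log ((s - z) / (t - z))), ?_, ?_, ?_⟩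
    · have h1 : AnalyticAt ℂ (fun s : ℂ => (s - z) / (t - z)) t := by fun_prop
      have h2 : AnalyticAt ℂ (fun s : ℂ => Complex.log ((s - z) / (t - z))) t :=
        h1.clog (by rw [div_self htz]; exact Complex.one_mem_slitPlane)
      exact hf.mul (analyticAt_const.mul h2).cexp
    · simp [hf1, div_self htz]
    · filter_upwards [hne, hb] with s a1 a2
      have hsz : s - z ≠ 0 := sub_ne_zero.2 a1
      simp only [MaxP.tw, if_neg hz, if_neg a1, norm_mul, Complex.norm_exp]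
      have e1 : ((ε : ℂ) * Complex.log ((s - z) / (t - z))).re =
          ε * (Real.log ‖s - z‖ - Real.log ‖t - z‖) := by
        rw [Complex.re_ofReal_mul, Complex.log_re, norm_div,
          Real.log_div (norm_ne_zero_iff.2 hsz) (norm_ne_zero_iff.2 htz)]
      have e2 : Real.exp (ε * (Real.log ‖s - z‖ - Real.log r)) =
          Real.exp (ε * (Real.log ‖t - z‖ - Real.log r)) *
            Real.exp (ε * (Real.log ‖s - z‖ - Real.log ‖t - z‖)) := by
        rw [← Real.exp_add]; congr 1; ring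
      rw [e1, e2]
      have := mul_le_mul_of_nonneg_right a2 (mul_pos
        (Real.exp_pos (ε * (Real.log ‖t - z‖ - Real.log r)))
        (Real.exp_pos (ε * (Real.log ‖s - z‖ - Real.log ‖t - z‖)))).le
      linarith

theorem tw_usc {W : ℂ → ℝ} {z : ℂ} {c : ℝ} (hc : ∀ᶠ t in 𝓝[≠] z, W t ≤ c) (r : ℝ) {ε : ℝ}
    (hε : 0 < ε) {a : ℝ} (ha : 0 < a) : ∀ᶠ s in 𝓝 z, tw W z r ε s < a := by
  have h1 : Tendsto (fun s : ℂ => ‖s - z‖) (𝓝[≠] z) (𝓝[≠] 0) := by
    refine tendsto_nhdsWithin_iff.2 ⟨?_, ?_⟩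
    · have : ContinuousAt (fun s : ℂ => ‖s - z‖) z := by fun_prop
      have h := this.tendsto
      simp only [sub_self, norm_zero] at h
      exact h.mono_left nhdsWithin_le_nhds
    · filter_upwards [self_mem_nhdsWithin] with s hs
      exact norm_ne_zero_iff.2 (sub_ne_zero.2 hs)
  have h2 : Tendsto (fun s : ℂ => Real.exp (ε * (Real.log ‖s - z‖ - Real.log r))) (𝓝[≠] z)
      (𝓝 0) := by
    refine Real.tendsto_exp_atBot.comp (Tendsto.const_mul_atBot hε ?_)
    exact tendsto_atBot_add_const_right _ (-Real.log r) (Real.tendsto_log_nhdsNE_zero.comp h1)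
  have h3 := h2.const_mul c
  rw [mul_zero] at h3
  have h4 : ∀ᶠ s in 𝓝[≠] z, tw W z r ε s < a := by
    filter_upwards [hc, h3.eventually_lt_const ha, self_mem_nhdsWithin] with s a1 a2 a3
    have a4 : s ≠ z := a3
    simp only [tw, if_neg a4]
    exact lt_of_le_of_lt (mul_le_mul_of_nonneg_right a1 (Real.exp_pos _).le) a2
  rw [eventually_nhdsWithin_iff] at h4
  filter_upwards [h4] with s hs
  by_cases h : s = z
  · simp [tw, h, ha]
  · exact hs h

theorem disc {W : ℂ → ℝ} {z : ℂ} {r c m : ℝ} (hr : 0 < r)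
    (hB : ∀ t ∈ closedBall z r, t ≠ z → Br W t) (hc : ∀ᶠ t in 𝓝[≠] z, W t ≤ c)
    (hm : ∀ t ∈ sphere z r, W t ≤ m) : ∀ t ∈ closedBall z r, t ≠ z → W t ≤ m := by
  intro t ht htz
  have key : ∀ ε : ℝ, 0 < ε → tw W z r ε t ≤ m := by
    intro ε hε
    by_contra hlt
    push Not at hlt
    have husc : ∀ s ∈ closedBall z r, ∀ a, tw W z r ε s < a → ∀ᶠ s' in 𝓝 s, tw W z r ε s' < a := by
      intro s hs a ha
      by_cases h : s = z
      · subst h
        exact tw_usc hc r hε (by simpa [tw] using ha)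
      · exact ((hB s hs h).tw h r ε).2.1 a ha
    obtain ⟨s₀, hs₀, hmax⟩ := UpperSemicontinuousOn.exists_isMaxOn (f := tw W z r ε)
      ⟨t, ht⟩ (isCompact_closedBall z r)
      (fun s hs a ha => nhdsWithin_le_nhds (husc s hs a ha))
    have hpos : 0 < tw W z r ε t := ((hB t ht htz).tw htz r ε).1
    have ht0 : tw W z r ε t ≤ tw W z r ε s₀ := hmax ht
    have hs0z : s₀ ≠ z := by
      rintro rfl
      have : tw W s₀ r ε s₀ = 0 := by simp [tw]
      linarith
    have hn : 0 < ‖s₀ - z‖ := norm_pos_iff.2 (sub_ne_zero.2 hs0z)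
    have hle : ‖s₀ - z‖ ≤ r := by simpa [dist_eq_norm] using hs₀
    have hsph : ∀ s ∈ sphere z r, tw W z r ε s ≤ m := by
      intro s hs
      have e : ‖s - z‖ = r := by simpa [dist_eq_norm] using hs
      have : s ≠ z := by
        rintro rfl
        simp at e; linarith
      simp only [tw, if_neg this, e, sub_self, mul_zero, Real.exp_zero, mul_one]
      exact hm s hs
    set S : Set ℂ := (fun x : ℝ => z + x * (s₀ - z)) '' Icc 1 (r / ‖s₀ - z‖) with hS
    have hSp : IsPreconnected S := isPreconnected_Icc.image _ (by fun_prop)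
    have hnorm : ∀ x : ℝ, 0 ≤ x → dist (z + x * (s₀ - z)) z = x * ‖s₀ - z‖ := by
      intro x hx
      rw [dist_eq_norm, add_sub_cancel_left, norm_mul, Complex.norm_real, Real.norm_of_nonneg hx]
    have hSs : ∀ s ∈ S, s ∈ closedBall z r ∧ s ≠ z := by
      rintro _ ⟨x, ⟨h1, h2⟩, rfl⟩
      have e := hnorm x (by linarith)
      refine ⟨?_, ?_⟩
      · rw [mem_closedBall, e]; exact (le_div_iff₀ hn).1 h2
      · intro h
        have h' : z + x * (s₀ - z) = z := h
        rw [h', dist_self] at e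
        have : 0 < x * ‖s₀ - z‖ := mul_pos (by linarith) hn
        linarith
    have h1r : 1 ≤ r / ‖s₀ - z‖ := (le_div_iff₀ hn).2 (by linarith)
    have hall := pre_const (V := tw W z r ε) hSp (M := tw W z r ε s₀)
      (fun s hs => hmax (hSs s hs).1) (fun s hs h => husc s (hSs s hs).1 _ h) ?_
      (t₀ := s₀) ⟨1, ⟨le_rfl, h1r⟩, by simp⟩ rfl
    · have a1 := hall _ ⟨r / ‖s₀ - z‖, ⟨h1r, le_rfl⟩, rfl⟩
      have a2 := hsph (z + ((r / ‖s₀ - z‖ : ℝ) : ℂ) * (s₀ - z)) (by
        rw [mem_sphere, hnorm _ (by linarith)]; field_simp)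
      simp only at a1
      linarith
    · intro s hs hsM
      obtain ⟨b1, b2⟩ := hSs s hs
      have b3 : s ∈ ball z r := by
        rcases (mem_closedBall.1 b1).eq_or_lt with h | h
        · have := hsph s h
          linarith
        · exact h
      rw [← hsM]
      refine loc_const ((hB s b1 b2).tw b2 r ε) ?_
      filter_upwards [isOpen_ball.mem_nhds b3] with s' hs'
      rw [hsM]
      exact hmax (ball_subset_closedBall hs')
  have hlim : Tendsto (fun ε : ℝ => W t * Real.exp (ε * (Real.log ‖t - z‖ - Real.log r)))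
      (𝓝[>] 0) (𝓝 (W t)) := by
    have : ContinuousAt (fun ε : ℝ => W t * Real.exp (ε * (Real.log ‖t - z‖ - Real.log r))) 0 := by
      fun_prop
    have h := this.tendsto
    simp only [zero_mul, Real.exp_zero, mul_one] at h
    exact h.mono_left nhdsWithin_le_nhds
  refine le_of_tendsto hlim ?_
  filter_upwards [self_mem_nhdsWithin] with ε hε
  have := key ε hε
  simpa only [tw, if_neg htz] using this

theorem cpt {W : ℂ → ℝ} {B K : Set ℂ} (hK : IsCompact K) (T : ℝ → Prop) {c₀ : ℝ} (h₀ : T c₀)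
    (h : ∀ z, ∃ c, T c ∧ ∀ᶠ t in 𝓝 z, t ∉ B → W t ≤ c) :
    ∃ c, T c ∧ ∀ t ∈ K, t ∉ B → W t ≤ c := by
  refine hK.induction_on (p := fun K => ∃ c, T c ∧ ∀ t ∈ K, t ∉ B → W t ≤ c) ?_ ?_ ?_ ?_
  · exact ⟨c₀, h₀, fun t ht => absurd ht (notMem_empty t)⟩
  · rintro s t hst ⟨c, h1, h2⟩
    exact ⟨c, h1, fun x hx => h2 x (hst hx)⟩
  · rintro s t ⟨c, h1, h2⟩ ⟨d, h3, h4⟩
    rcases le_total c d with hcd | hcd
    · exact ⟨d, h3, fun x hx hb => hx.elim (fun a => (h2 x a hb).trans hcd) fun a => h4 x a hb⟩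
    · exact ⟨c, h1, fun x hx hb => hx.elim (fun a => h2 x a hb) fun a => (h4 x a hb).trans hcd⟩
  · intro z _
    obtain ⟨c, h1, h2⟩ := h z
    exact ⟨_, nhdsWithin_le_nhds h2, c, h1, fun t ht => ht⟩

theorem fund (L : PeriodPair) :
    ∃ K : Set ℂ, IsCompact K ∧ ∀ t, ∃ w ∈ L.lattice, t + w ∈ K := by
  refine ⟨closure (ZSpan.fundamentalDomain L.basis),
    (ZSpan.fundamentalDomain_isBounded L.basis).isCompact_closure, fun t => ?_⟩
  obtain ⟨v, hv, -⟩ := ZSpan.exist_unique_vadd_mem_fundamentalDomain L.basis t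
  refine ⟨v, by rw [L.lattice_eq_span_range_basis]; exact v.2, subset_closure ?_⟩
  rw [add_comm]
  exact hv

end MaxP

open MaxP in
theorem sMaxP : SMaxP := by
  intro L B W hcd hper hBr hbd t ht t' ht'
  have hBr' : ∀ t ∉ B, Br W t := hBr
  obtain ⟨hcl, hdis⟩ := compl_mem_codiscrete_iff.1 (show Bᶜ ∈ codiscrete ℂ from hcd)
  have hcount : B.Countable := hcl.isLindelof.countable_of_isDiscrete hdis
  have hconn : IsPreconnected Bᶜ :=
    (hcount.isConnected_compl_of_one_lt_rank (by simp)).isPreconnected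
  have hpun : ∀ z, ∀ᶠ s in 𝓝[≠] z, s ∉ B := fun z =>
    mem_codiscreteWithin_iff_forall_mem_nhdsNE.1 hcd z (mem_univ z) |> fun h => by
      filter_upwards [h] with s hs
      simpa using hs
  obtain ⟨K, hK, hKw⟩ := fund L
  have hglob : ∀ c, (∀ s ∈ K, s ∉ B → W s ≤ c) → ∀ s ∉ B, W s ≤ c := by
    intro c hc s hs
    obtain ⟨w, hw, h1⟩ := hKw s
    obtain ⟨h2, h3⟩ := hper w hw s hs
    rw [← h3]
    exact hc _ h1 h2
  have hbdd : BddAbove (W '' Bᶜ) := by
    obtain ⟨c, -, hc⟩ := cpt (W := W) (B := B) hK (fun _ => True) (c₀ := 0) trivial (by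
      intro z
      by_cases hz : z ∈ B
      · obtain ⟨c, hc⟩ := hbd z hz
        refine ⟨c, trivial, ?_⟩
        rw [eventually_nhdsWithin_iff] at hc
        filter_upwards [hc] with s h1 h2
        exact h1 (by rintro rfl; exact h2 hz)
      · exact ⟨W z + 1, trivial, ((hBr' z hz).2.1 _ (lt_add_one _)).mono fun s h _ => h.le⟩)
    exact ⟨c, by rintro _ ⟨s, hs, rfl⟩; exact hglob c hc s hs⟩
  set M := sSup (W '' Bᶜ) with hM
  have hle : ∀ s ∉ B, W s ≤ M := fun s hs => le_csSup hbdd ⟨s, hs, rfl⟩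
  have hatt : ∃ s ∉ B, W s = M := by
    by_contra hno
    push Not at hno
    have hlt : ∀ s ∉ B, W s < M := fun s hs => lt_of_le_of_ne (hle s hs) (hno s hs)
    obtain ⟨c, hcM, hc⟩ := cpt (W := W) (B := B) hK (fun c => c < M) (c₀ := M - 1)
      (by linarith) (by
      intro z
      by_cases hz : z ∈ B
      · obtain ⟨c, hc⟩ := hbd z hz
        have h1 := hpun z
        rw [eventually_nhdsWithin_iff] at h1
        obtain ⟨r, hr, h2⟩ := nhds_basis_closedBall.eventually_iff.1 h1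
        have h3 : ∀ s ∈ sphere z r, s ∉ B := fun s hs => h2 (sphere_subset_closedBall hs) (by
          rintro rfl
          simp at hs; linarith)
        obtain ⟨s₀, hs₀, hmax⟩ := UpperSemicontinuousOn.exists_isMaxOn (f := W)
          (NormedSpace.sphere_nonempty.2 hr.le) (isCompact_sphere z r)
          (fun s hs a ha => nhdsWithin_le_nhds ((hBr' s (h3 s hs)).2.1 a ha))
        refine ⟨W s₀, hlt _ (h3 _ hs₀), ?_⟩
        filter_upwards [closedBall_mem_nhds z hr] with s hs hsB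
        exact disc hr (fun u hu huz => hBr' u (h2 hu huz)) hc (fun u hu => hmax hu) s hs
          (by rintro rfl; exact hsB hz)
      · have := hlt z hz
        exact ⟨(W z + M) / 2, by linarith,
          ((hBr' z hz).2.1 _ (by linarith)).mono fun s h _ => h.le⟩)
    have : M ≤ c := csSup_le ⟨_, t, ht, rfl⟩ (by rintro _ ⟨s, hs, rfl⟩; exact hglob c hc s hs)
    linarith
  obtain ⟨s₀, hs₀, hs₀M⟩ := hatt
  have hall := pre_const (V := W) hconn (M := M) hle (fun s hs h => (hBr' s hs).2.1 _ h)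
    (fun s hs h => by
      rw [← h]
      refine loc_const (hBr' s hs) ?_
      filter_upwards [hcl.isOpen_compl.mem_nhds hs] with u hu
      rw [h]
      exact hle u hu) hs₀ hs₀M
  rw [hall t ht, hall t' ht']

end Pool.Agent.P.MP_7ede32_ag.Hod
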