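import Pool.Agent.P.MP_7ede32_ag.Hod.StB
import Pool.Agent.P.MP_7ede32_ag.Hod.StR

/-!
The mean value inequality for a form on a disc in a curve.
-/

open Set Filter Topology Metric MeasureTheory Real

namespace Pool.Agent.P.MP_7ede32_ag.Hod

namespace MeanP

theorem polar_eq (p : ℝ × ℝ) : Complex.polarCoord.symm p = circleMap 0 p.1 p.2 := by
  rw [Complex.polarCoord_symm_apply, circleMap, zero_add, Complex.exp_mul_I]
  simp

theorem circ {u : ℂ → ℂ} {ρ r : ℝ} (hu : AnalyticOnNhd ℂ u (closedBall 0 ρ)) (h0 : 0 < r)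
    (hr : r < ρ) : ∫ θ in Ioo (-π) π, u (circleMap 0 r θ) = (2 * π : ℝ) • u 0 := by
  have hs : closedBall (0 : ℂ) |r| ⊆ closedBall 0 ρ := by
    rw [abs_of_pos h0]
    exact closedBall_subset_closedBall hr.le
  have h1 : circleAverage u 0 r = u 0 :=
    circleAverage_of_differentiable_on_off_countable (s := ∅) countable_empty
      (hu.continuousOn.mono hs)
      fun z hz => (hu z (hs (ball_subset_closedBall hz.1))).differentiableAt
  rw [circleAverage_eq_integral_add (-π),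
    intervalIntegral.integral_comp_add_right (fun θ => u (circleMap 0 r θ))] at h1
  have e1 : (0 : ℝ) + -π = -π := by ring
  have e2 : 2 * π + -π = π := by ring
  rw [e1, e2, intervalIntegral.integral_of_le (by linarith [pi_pos]), integral_Ioc_eq_integral_Ioo]
    at h1
  rw [← h1, smul_smul, mul_inv_cancel₀ two_pi_pos.ne', one_smul]

/-- the mean value property on a disc -/
theorem area {u : ℂ → ℂ} {ρ : ℝ} (hρ : 0 < ρ) (hu : AnalyticOnNhd ℂ u (closedBall 0 ρ)) :
    ∫ z in ball (0 : ℂ) ρ, u z = (π * ρ ^ 2 : ℝ) • u 0 := by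
  rw [← integral_indicator measurableSet_ball, ← Complex.integral_comp_polarCoord_symm]
  have hm : MeasurableSet (Ioo (0 : ℝ) ρ ×ˢ Ioo (-π) π) := measurableSet_Ioo.prod measurableSet_Ioo
  have e1 : ∫ p in polarCoord.target, p.1 • (ball (0 : ℂ) ρ).indicator u (Complex.polarCoord.symm p)
      = ∫ p in Ioo (0 : ℝ) ρ ×ˢ Ioo (-π) π, p.1 • u (circleMap 0 p.1 p.2) := by
    rw [setIntegral_eq_of_subset_of_forall_sdiff_eq_zero polarCoord.open_target.measurableSet
      (s := Ioo (0 : ℝ) ρ ×ˢ Ioo (-π) π) (fun p hp => ⟨hp.1.1, hp.2⟩)]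
    · refine setIntegral_congr_fun hm fun p hp => ?_
      have : Complex.polarCoord.symm p ∈ ball (0 : ℂ) ρ := by
        rw [mem_ball_zero_iff, Complex.norm_polarCoord_symm, abs_of_pos hp.1.1]
        exact hp.1.2
      rw [indicator_of_mem this, polar_eq]
    · intro p hp
      have : Complex.polarCoord.symm p ∉ ball (0 : ℂ) ρ := by
        rw [mem_ball_zero_iff, Complex.norm_polarCoord_symm, abs_of_pos hp.1.1]
        exact fun h => hp.2 ⟨⟨hp.1.1, h⟩, hp.1.2⟩
      rw [indicator_of_notMem this, smul_zero]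
  have hi : IntegrableOn (fun p : ℝ × ℝ => p.1 • u (circleMap 0 p.1 p.2))
      (Ioo (0 : ℝ) ρ ×ˢ Ioo (-π) π) (volume.prod volume) := by
    have hc : ContinuousOn (fun p : ℝ × ℝ => p.1 • u (circleMap 0 p.1 p.2))
        (Icc (0 : ℝ) ρ ×ˢ Icc (-π) π) := by
      refine continuousOn_fst.smul (hu.continuousOn.comp circleMap.continuous.continuousOn ?_)
      intro p hp
      rw [mem_closedBall_zero_iff, norm_circleMap_zero, abs_of_nonneg hp.1.1]
      exact hp.1.2
    exact (hc.integrableOn_compact (isCompact_Icc.prod isCompact_Icc)).mono_set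
      (prod_mono Ioo_subset_Icc_self Ioo_subset_Icc_self)
  rw [e1, Measure.volume_eq_prod, setIntegral_prod _ hi]
  have e2 : ∫ r in Ioo (0 : ℝ) ρ, ∫ θ in Ioo (-π) π, r • u (circleMap 0 r θ) =
      ∫ r in Ioo (0 : ℝ) ρ, r • ((2 * π : ℝ) • u 0) := by
    refine setIntegral_congr_fun measurableSet_Ioo fun r hr => ?_
    rw [integral_smul, circ hu hr.1 hr.2]
  rw [e2, integral_smul_const, ← integral_Ioc_eq_integral_Ioo,
    ← intervalIntegral.integral_of_le hρ.le, integral_id, smul_smul]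
  congr 1
  ring

theorem area_le {w : ℂ → ℂ} {ρ : ℝ} (hρ : 0 < ρ) (hw : AnalyticOnNhd ℂ w (closedBall 0 ρ)) :
    π * ρ ^ 2 * ‖w 0‖ ^ 2 ≤ ∫ z in ball (0 : ℂ) ρ, ‖w z‖ ^ 2 := by
  have h1 := area (u := fun z => w z ^ 2) hρ fun z hz => (hw z hz).pow 2
  have h2 := norm_integral_le_integral_norm (μ := volume.restrict (ball (0 : ℂ) ρ))
    fun z => w z ^ 2
  rw [h1, norm_smul, Real.norm_of_nonneg (by positivity)] at h2
  simpa only [norm_pow] using h2

end MeanP

theorem sMean (h : SArea) : SMean := by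
  classical
  intro T f ξ η w ρ O hρ hint hO hOb hc hw hv hinj
  have hfib : ∀ x, InjOn η {v | v ∈ O ∧ ξ v = x} := fun x a ha b hb e =>
    hinj ha.1 hb.1 (Prod.ext (ha.2.trans hb.2.symm) e)
  have hmap : ∀ x, MapsTo η {v | v ∈ O ∧ ξ v = x} (T x) := fun x a ha => by
    have := (hv a ha.1).2.2.1
    rwa [ha.2] at this
  have hfin : ∀ x, {v | v ∈ O ∧ ξ v = x}.Finite := fun x =>
    Finite.of_finite_image ((T x).finite_toSet.subset (hmap x).image_subset) (hfib x)
  have hE : EqOn (fun v => ((‖f (ξ v) (η v)‖ ^ 2 : ℝ) : ℂ) * ((‖deriv ξ v‖ ^ 2 : ℝ) : ℂ))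
      (fun v => ((‖w v‖ ^ 2 : ℝ) : ℂ)) O := fun v hv' => by
    simp only
    rw [← (hv v hv').2.2.2, norm_mul, mul_pow, Complex.ofReal_mul]
  have hwi : IntegrableOn (fun v => ‖w v‖ ^ 2) (ball (0 : ℂ) ρ) :=
    ((hw.continuousOn.norm.pow 2).integrableOn_compact (isCompact_closedBall 0 ρ)).mono_set
      ball_subset_closedBall
  obtain ⟨h1, h2⟩ := h O ξ (fun v => ((‖f (ξ v) (η v)‖ ^ 2 : ℝ) : ℂ)) hO
    (fun v hv' => ⟨(hv v hv').1, (hv v hv').2.1⟩) hfin
    ((integrableOn_congr_fun hE hO.measurableSet).2 (hwi.mono_set hOb).ofReal)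
  rw [setIntegral_congr_fun hO.measurableSet hE, integral_complex_ofReal] at h2
  have hae : O =ᵐ[volume] ball (0 : ℂ) ρ := by
    rw [ae_eq_set]
    exact ⟨by rw [sdiff_eq_empty.2 hOb, measure_empty], hc.measure_zero _⟩
  rw [setIntegral_congr_set hae] at h2
  refine (MeanP.area_le hρ hw).trans ?_
  have h3 : ∫ z in ball (0 : ℂ) ρ, ‖w z‖ ^ 2 =
      ∫ x, (∑ᶠ v ∈ {v | v ∈ O ∧ ξ v = x}, ((‖f (ξ v) (η v)‖ ^ 2 : ℝ) : ℂ)).re := by
    have := integral_re h1
    simp only [RCLike.re_to_complex] at this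
    rw [this, h2]
    simp
  rw [h3]
  refine integral_mono h1.re hint fun x => ?_
  simp only
  rw [finsum_mem_eq_finite_toFinset_sum _ (hfin x), Complex.re_sum]
  simp only [Complex.ofReal_re]
  calc ∑ v ∈ (hfin x).toFinset, ‖f (ξ v) (η v)‖ ^ 2
      = ∑ v ∈ (hfin x).toFinset, ‖f x (η v)‖ ^ 2 :=
        Finset.sum_congr rfl fun v hv' => by rw [((Finite.mem_toFinset _).1 hv').2]
    _ = ∑ y ∈ (hfin x).toFinset.image η, ‖f x y‖ ^ 2 := by
        rw [Finset.sum_image fun a ha b hb e =>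
          hfib x ((Finite.mem_toFinset _).1 ha) ((Finite.mem_toFinset _).1 hb) e]
    _ ≤ _ := by
        refine Finset.sum_le_sum_of_subset_of_nonneg (fun y hy => ?_) fun _ _ _ => by positivity
        obtain ⟨a, ha, rfl⟩ := Finset.mem_image.1 hy
        exact hmap x ((Finite.mem_toFinset _).1 ha)

end Pool.Agent.P.MP_7ede32_ag.Hod
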