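import Pool.Agent.P.MP_7ede32_ag.Hod.RU

/-!
Partners of points when the canonical image lies on a rational normal curve.
-/

open Set Filter Topology MeasureTheory ComplexConjugate Polynomial Bornology Manifold

namespace Pool.Agent.P.MP_7ede32_ag.Hod

open MP_5d7cf0_gt.T (RS zc loc An D Sm Db Hf Om)

namespace ParP

theorem pair_indep {Y : Type} {g : ℕ} {t : Fin g → Y → ℂ} (h : LinearIndependent ℂ t)
    {i₁ i₂ : Fin g} (hne : i₁ ≠ i₂) (a b : ℂ) (hab : a • t i₁ + b • t i₂ = 0) :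
    a = 0 ∧ b = 0 := by
  have hinj : Function.Injective (![i₁, i₂] : Fin 2 → Fin g) := by
    intro x y hxy
    fin_cases x <;> fin_cases y <;> simp_all [eq_comm]
  have h2 := h.comp _ hinj
  have e : t ∘ (![i₁, i₂] : Fin 2 → Fin g) = ![t i₁, t i₂] := by
    funext x
    fin_cases x <;> rfl
  rw [e, LinearIndependent.pair_iff] at h2
  exact h2 a b hab

theorem ratio {a b c α β : ℂ} (ha : a ≠ 0) (hb : b ≠ 0) (h : a * b = c * (α * b + β * a)) :
    c = b * (a / b / (α + β * (a / b))) := by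
  have h1 : α * b + β * a ≠ 0 := by
    intro h0
    rw [h0, mul_zero] at h
    exact mul_ne_zero ha hb h
  have h2 : α + β * (a / b) = (α * b + β * a) / b := by
    field_simp
  have h3 : b * (a / b / ((α * b + β * a) / b)) = a * b / (α * b + β * a) := by
    field_simp
  rw [h2, h3, eq_div_iff h1, h]

end ParP

theorem sPar (h1 : SXCE) (h2 : SChr) (h3 : SCov) : SPar := by
  intro Y _ _ _ g t i₁ i₂ hOm hli hspan hne hrel S hS
  obtain ⟨C, hx, hR0, hw2⟩ := h1 Y (t i₁) (hOm i₁) (t i₂) (hOm i₂) (ParP.pair_indep hli hne)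
  choose α β hαβ using hrel
  obtain ⟨n, hn0, hn⟩ := h3 Y C
  have hxp : ∀ p, C.x p = t i₁ p / t i₂ p := fun p => by rw [hx]
  have hw1 : ∀ p ∉ C.Sg, t i₁ p ≠ 0 := by
    intro p hp h0
    have h4 := (C.reg p hp).2.2
    rw [hxp, h0, zero_div] at h4
    exact h4 hR0
  have hn2 : 1 < n := by
    by_contra hlt
    have e1 : n = 1 := by omega
    obtain ⟨p, hp⟩ := C.off.exists
    obtain ⟨-, hD, hR⟩ := C.reg p hp
    obtain ⟨A, hA, hCP⟩ := h2 Y C (t i₂) (hOm i₂) (C.x p) hR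
    rw [(hn _ hR).1, e1] at hA hCP
    have hA0 : A 0 = 0 := by
      ext i
      exact hA 0 one_pos i (by omega)
    have h5 := hCP p hp
    simp only [CP, pow_one, Finset.range_one, Finset.sum_singleton, hA0, eval_zero, zero_mul,
      mul_zero, add_zero] at h5
    exact mul_ne_zero hR (div_ne_zero (hw2 p hp) hD) h5
  have hall : ∀ᶠ p in cofinite, ∀ l,
      t i₁ p * t i₂ p = t l p * (α l * t i₂ p + β l * t i₁ p) := eventually_all.mpr hαβ
  set T : Set Y := {p | ¬ ∀ l, t i₁ p * t i₂ p = t l p * (α l * t i₂ p + β l * t i₁ p)} ∪ S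
    with hT
  have hTf : T.Finite := (eventually_cofinite.mp hall).union hS
  have hev : ∀ᶠ p in cofinite, C.x p ∉ C.x '' T :=
    C.tendsto_x.eventually (hTf.image C.x).compl_mem_cofinite
  filter_upwards [hev, C.off] with p hp hpS
  have hR := (C.reg p hpS).2.2
  have hcard : 1 < (C.Φ (C.x p)).ncard := by rw [(hn _ hR).1]; exact hn2
  obtain ⟨p', hp', hpp⟩ := Set.exists_ne_of_one_lt_ncard hcard p
  obtain ⟨hp'S, hxx⟩ := hp'
  have hpT : p ∉ T := fun h => hp ⟨p, h, rfl⟩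
  have hp'T : p' ∉ T := fun h => hp ⟨p', h, hxx⟩
  have key : ∀ q, q ∉ T → q ∉ C.Sg → ∀ l,
      t l q = t i₂ q * (C.x q / (α l + β l * C.x q)) := by
    intro q hq hqS l
    have h6 : ∀ l, t i₁ q * t i₂ q = t l q * (α l * t i₂ q + β l * t i₁ q) := by
      by_contra h7
      exact hq (Or.inl h7)
    rw [hxp]
    exact ParP.ratio (hw1 q hqS) (hw2 q hqS) (h6 l)
  refine ⟨p', fun h => hp'T (Or.inr h), hpp, t i₂ p' / t i₂ p, fun w hw => ?_⟩
  obtain ⟨c, rfl⟩ := (Submodule.mem_span_range_iff_exists_fun ℂ).mp (hspan w hw)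
  simp only [Finset.sum_apply, Pi.smul_apply, smul_eq_mul, Finset.mul_sum]
  refine Finset.sum_congr rfl fun l _ => ?_
  have h8 := hw2 p hpS
  rw [key p' hp'T hp'S l, key p hpT hpS l, hxx]
  field_simp

end Pool.Agent.P.MP_7ede32_ag.Hod
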