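import Pool.Agent.P.MP_7ede32_ag.Hod.StB
import Pool.Agent.P.MP_e711b0_an.Basic

/-!
Integrals over a compact set of the plane with a holomorphic parameter.
-/

open Set Filter Topology Metric MeasureTheory

namespace Pool.Agent.P.MP_7ede32_ag.Hod

open Ell (E2)

namespace ParIntP

theorem exists_int (K : Set ℂ) (hK : IsCompact K) [CompactSpace K] :
    ∃ L : C(K, ℂ) →L[ℂ] ℂ, ∀ (g : C(K, ℂ)) (F : ℂ → ℂ), (∀ x : K, g x = F x) →
      L g = ∫ ξ in K, F ξ := by
  set μ : Measure K := Measure.comap Subtype.val (volume : Measure ℂ) with hμ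
  have hm : MeasurableSet K := hK.measurableSet
  have : IsFiniteMeasure μ := ⟨by
    rw [hμ, (MeasurableEmbedding.subtype_coe hm).comap_apply]
    simpa using hK.measure_lt_top⟩
  have hi : ∀ g : C(K, ℂ), Integrable g μ := fun g =>
    g.continuous.integrable_of_hasCompactSupport (HasCompactSupport.of_compactSpace g)
  let L0 : C(K, ℂ) →ₗ[ℂ] ℂ :=
    { toFun := fun g => ∫ x, g x ∂μ
      map_add' := fun g h => by
        simp only [ContinuousMap.add_apply]
        exact integral_add (hi g) (hi h)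
      map_smul' := fun c g => by
        simp only [ContinuousMap.smul_apply, RingHom.id_apply]
        exact integral_smul c _ }
  have hL0 : ∀ g, ‖L0 g‖ ≤ μ.real univ * ‖g‖ := fun g => by
    rw [mul_comm]
    exact norm_integral_le_of_norm_le_const (Eventually.of_forall fun x => g.norm_coe_le_norm x)
  refine ⟨L0.mkContinuous _ hL0, fun g F hF => ?_⟩
  rw [← integral_subtype_comap hm F]
  simp only [LinearMap.mkContinuous_apply]
  exact integral_congr_ae (Eventually.of_forall hF)

end ParIntP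

theorem sParInt : SParInt := by
  intro f f' K t₀ hK h hd
  have : CompactSpace K := isCompact_iff_compactSpace.mp hK
  obtain ⟨L, hL⟩ := ParIntP.exists_int K hK
  have hev := hK.eventually_forall_of_forall_eventually (x₀ := t₀)
    (P := fun t ξ => ContinuousAt (fun q : E2 => f q.1 q.2) (t, ξ) ∧
      DifferentiableAt ℂ (fun t => f t ξ) t) h
  obtain ⟨r, hr, hb⟩ := Metric.mem_nhds_iff.mp hev
  have hc : ContinuousOn (fun p : ℂ × K => f p.1 p.2) (ball t₀ r ×ˢ univ) := fun p hp =>
    (ContinuousAt.comp (f := fun p : ℂ × K => ((p.1, (p.2 : ℂ)) : E2))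
      (hb hp.1 p.2 p.2.2).1 (by fun_prop)).continuousWithinAt
  have h1 := MP_e711b0_an.differentiableOn_mkD (X := K) (Φ := fun t x => f t x) isOpen_ball hc
    (fun x t ht => (hb ht x x.2).2.differentiableWithinAt)
  set Φ : ℂ → C(K, ℂ) := fun t => ContinuousMap.mkD (fun x : K => f t x) 0 with hΦ
  have hval : ∀ t ∈ ball t₀ r, ∀ x : K, Φ t x = f t x := fun t ht x => by
    have hcont : Continuous fun x : K => f t x := by
      have : ContinuousOn (fun x : K => f t x) univ :=
        hc.comp (f := fun x : K => (t, x)) (by fun_prop) (fun x _ => ⟨ht, trivial⟩)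
      exact continuousOn_univ.mp this
    simp only [hΦ, ContinuousMap.mkD_of_continuous hcont, ContinuousMap.coe_mk]
  have hn : ball t₀ r ∈ 𝓝 t₀ := ball_mem_nhds _ hr
  have he : (fun t => ∫ ξ in K, f t ξ) =ᶠ[𝓝 t₀] L ∘ Φ :=
    Eventually.mono hn fun t ht => (hL _ _ (hval t ht)).symm
  have hD : HasDerivAt Φ (deriv Φ t₀) t₀ := (h1.differentiableAt hn).hasDerivAt
  refine ⟨AnalyticAt.congr ?_ he.symm, ?_⟩
  · exact (L.differentiable.comp_differentiableOn h1).analyticAt hn
  · rw [he.deriv_eq, (L.hasFDerivAt.comp_hasDerivAt t₀ hD).deriv]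
    refine hL _ _ fun x => ?_
    have h2 := ((ContinuousMap.evalCLM ℂ x).hasFDerivAt.comp_hasDerivAt t₀ hD)
    have h3 : (fun t => f t x) =ᶠ[𝓝 t₀] (ContinuousMap.evalCLM ℂ x) ∘ Φ :=
      Eventually.mono hn fun t ht => (hval t ht x).symm
    rw [← hd x x.2, h3.deriv_eq, h2.deriv]
    rfl

end Pool.Agent.P.MP_7ede32_ag.Hod
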