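import Pool.Agent.P.MP_7ede32_ag.Hod.StR

/-!
Removable singularities at the roots of a polynomial; bounds for the roots of an integral equation.
-/

open Set Filter Topology Polynomial Bornology Asymptotics

namespace Pool.Agent.P.MP_7ede32_ag.Hod

namespace PolP

theorem ne_near {R : ℂ[X]} (hR : R ≠ 0) (β : ℂ) : ∀ᶠ ξ in 𝓝[≠] β, R.eval ξ ≠ 0 := by
  have hf : {ξ | R.eval ξ = 0}.Finite := R.finite_setOfPred_isRoot hR
  have hc : IsClosed ({ξ | R.eval ξ = 0} \ {β}) := (hf.subset sdiff_subset).isClosed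
  have : ({ξ | R.eval ξ = 0} \ {β})ᶜ ∈ 𝓝 β := hc.isOpen_compl.mem_nhds (by simp)
  filter_upwards [nhdsWithin_le_nhds this, self_mem_nhdsWithin] with ξ h1 h2 h3
  exact h1 ⟨h3, h2⟩

theorem ne_inf {R : ℂ[X]} (hR : R ≠ 0) : ∀ᶠ ξ in cobounded ℂ, R.eval ξ ≠ 0 := by
  have hf : {ξ | R.eval ξ = 0}.Finite := R.finite_setOfPred_isRoot hR
  exact hf.isBounded

theorem bound {α : Type} {l : Filter α} (m : ℕ) (c : ℕ → α → ℂ)
    (hc : ∀ k < m, Tendsto (c k) l (𝓝 0)) {ε : ℝ} (hε : 0 < ε) :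
    ∀ᶠ ξ in l, ∀ χ : ℂ, χ ^ m + ∑ k ∈ Finset.range m, c k ξ * χ ^ k = 0 → ‖χ‖ ≤ ε := by
  have h1 : Tendsto (fun ξ => ∑ k ∈ Finset.range m, ‖c k ξ‖ / ε ^ (m - k)) l (𝓝 0) := by
    have : Tendsto (fun ξ => ∑ k ∈ Finset.range m, ‖c k ξ‖ / ε ^ (m - k)) l
        (𝓝 (∑ k ∈ Finset.range m, ‖(0 : ℂ)‖ / ε ^ (m - k))) :=
      tendsto_finsetSum _ fun k hk => ((hc k (Finset.mem_range.1 hk)).norm).div_const _
    simpa using this
  filter_upwards [h1.eventually (gt_mem_nhds one_pos)] with ξ hξ χ h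
  by_contra hn
  push Not at hn
  have hp : 0 < ‖χ‖ ^ m := pow_pos (hε.trans hn) _
  have h2 : ‖χ‖ ^ m ≤ (∑ k ∈ Finset.range m, ‖c k ξ‖ / ε ^ (m - k)) * ‖χ‖ ^ m := by
    have e : χ ^ m = -∑ k ∈ Finset.range m, c k ξ * χ ^ k := eq_neg_of_add_eq_zero_left h
    calc ‖χ‖ ^ m = ‖∑ k ∈ Finset.range m, c k ξ * χ ^ k‖ := by rw [← norm_pow, e, norm_neg]
      _ ≤ ∑ k ∈ Finset.range m, ‖c k ξ * χ ^ k‖ := norm_sum_le _ _
      _ ≤ _ := by
        rw [Finset.sum_mul]
        refine Finset.sum_le_sum fun k hk => ?_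
        have hk' := (Finset.mem_range.1 hk).le
        rw [norm_mul, norm_pow, div_mul_eq_mul_div, mul_div_assoc]
        refine mul_le_mul_of_nonneg_left ?_ (norm_nonneg _)
        rw [le_div_iff₀ (pow_pos hε _)]
        calc ‖χ‖ ^ k * ε ^ (m - k) ≤ ‖χ‖ ^ k * ‖χ‖ ^ (m - k) := by gcongr
          _ = ‖χ‖ ^ m := by rw [← pow_add, Nat.add_sub_cancel' hk']
  nlinarith

theorem coef {R : ℂ[X]} (hR : R ≠ 0) (A : ℂ[X]) (j : ℕ)
    (h : ∀ i, j * R.natDegree ≤ i + j + R.natDegree → A.coeff i = 0) :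
    Tendsto (fun ξ => R.eval ξ * A.eval ξ * (ξ / R.eval ξ) ^ j) (cobounded ℂ) (𝓝 0) := by
  by_cases hA : A = 0
  · simp [hA]
  have h1 : A.natDegree + j + R.natDegree < j * R.natDegree := by
    by_contra hn
    push Not at hn
    exact hA (leadingCoeff_eq_zero.1 (h _ hn))
  have h2 : (R * A * X ^ j).degree < (R ^ j).degree := by
    refine degree_lt_degree ?_
    rw [natDegree_mul (mul_ne_zero hR hA) (pow_ne_zero _ X_ne_zero), natDegree_mul hR hA,
      natDegree_X_pow, natDegree_pow]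
    omega
  refine (isLittleO_cobounded_of_degree_lt h2).tendsto_div_nhds_zero.congr fun ξ => ?_
  simp only [eval_mul, eval_pow, eval_X, div_pow]
  rw [mul_div_assoc]

end PolP

open PolP

theorem sPolyR (h : MP_5d7cf0_gt.T.S_Poly) : SPolyR := by
  classical
  intro R e a c hR han hlim hgr
  set G : ℂ → ℂ := fun ξ => if R.eval ξ = 0 then limUnder (𝓝[≠] ξ) e else e ξ with hG
  have hGe : ∀ ξ, R.eval ξ ≠ 0 → G ξ = e ξ := fun ξ hξ => by simp [hG, hξ]
  have hd : Differentiable ℂ G := by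
    intro β
    by_cases hβ : R.eval β = 0
    · obtain ⟨s, hs, hs'⟩ := eventually_nhdsWithin_iff.1 (ne_near hR β) |>.exists_mem
      have ho : (fun z => e z - e β) =o[𝓝[≠] β] fun z => (z - β)⁻¹ := by
        refine (isLittleO_iff_tendsto' ?_).2 ?_
        · filter_upwards [self_mem_nhdsWithin] with z hz h0
          exact absurd (sub_eq_zero.1 (inv_eq_zero.1 h0)) hz
        · have t : Tendsto (fun z : ℂ => (z - β) * e β) (𝓝[≠] β) (𝓝 ((β - β) * e β)) :=
            tendsto_nhdsWithin_of_tendsto_nhds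
              ((continuous_id.sub continuous_const).mul continuous_const).continuousAt
          have := (hlim β hβ).sub t
          simp only [sub_self, zero_mul] at this
          refine this.congr fun z => ?_
          rw [div_inv_eq_mul]; ring
      have hD := Complex.differentiableOn_update_limUnder_of_isLittleO hs
        (fun z hz => (han z (hs' z hz.1 hz.2)).differentiableAt.differentiableWithinAt) ho
      refine (hD.differentiableAt hs).congr_of_eventuallyEq ?_
      filter_upwards [hs] with z hz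
      by_cases hzb : z = β
      · subst hzb; simp [hG, hβ]
      · rw [Function.update_of_ne hzb, hGe z (hs' z hz hzb)]
    · refine (han β hβ).differentiableAt.congr_of_eventuallyEq ?_
      filter_upwards [R.continuous.continuousAt.eventually_ne hβ] with z hz using hGe z hz
  obtain ⟨q, hq, hq'⟩ := h G a c hd (by
    filter_upwards [hgr, ne_inf hR] with z h1 h2
    rwa [hGe z h2])
  exact ⟨q, hq, fun ξ hξ => by rw [← hGe ξ hξ, hq']⟩

theorem sRb : SRb := by
  intro R m A
  refine ⟨fun β hβ ε hε => ?_, fun hD hR ε hε => ?_⟩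
  · have := bound (l := 𝓝 β) m (fun k ξ => R.eval ξ * (A k).eval ξ) (fun k _ => by
      have t := (R.continuous.mul (A k).continuous).continuousAt (x := β)
      have e : R.eval β * (A k).eval β = 0 := by rw [hβ, zero_mul]
      rw [← e]
      exact t) hε
    filter_upwards [this] with ξ hξ ψ hψ
    refine hξ ψ ?_
    rw [← hψ, Finset.mul_sum]
    simp only [mul_assoc]
  · have := bound (l := cobounded ℂ) m
      (fun k ξ => R.eval ξ * (A k).eval ξ * (ξ / R.eval ξ) ^ (m - k))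
      (fun k hk => coef hR (A k) (m - k) (hD k hk)) hε
    filter_upwards [this, ne_inf hR] with ξ hξ h0 ψ hψ
    have h1 := hξ (ξ / R.eval ξ * ψ) (by
      have e := congrArg (fun t => (ξ / R.eval ξ) ^ m * t) hψ
      simp only [mul_zero] at e
      rw [← e, mul_add, ← mul_pow, Finset.mul_sum, Finset.mul_sum]
      congr 1
      refine Finset.sum_congr rfl fun k hk => ?_
      have hk' := (Finset.mem_range.1 hk).le
      have : (ξ / R.eval ξ) ^ m = (ξ / R.eval ξ) ^ (m - k) * (ξ / R.eval ξ) ^ k := by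
        rw [← pow_add, Nat.sub_add_cancel hk']
      rw [this, mul_pow]; ring)
    rw [norm_mul, norm_div, div_mul_eq_mul_div, div_le_iff₀ (norm_pos_iff.2 h0)] at h1
    exact h1

end Pool.Agent.P.MP_7ede32_ag.Hod
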