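import Pool.Agent.P.MP_7ede32_ag.Hod.RU

/-!
Positivity of the Hermitian form on holomorphic forms; a holomorphic form with a primitive outside
a finite set vanishes.
-/

open Set Filter Topology MeasureTheory ComplexConjugate Polynomial Bornology Manifold
open scoped ComplexOrder

namespace Pool.Agent.P.MP_7ede32_ag.Hod

open MP_5d7cf0_gt.T (RS zc loc An D Sm Db Hf Om an_of_Db an_extend const_of_an D_congr D_const
  D_sub An.sub om_eq_zero_of_finite om_finite_zeros eventually_notMem eventually_notMem')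

namespace PosP

variable {Y : Type} [TopologicalSpace Y] [ChartedSpace ℂ Y] [RS Y]

/-- local primitives -/
theorem prim {w : Y → ℂ} {p : Y} (h : Hf w p) : ∃ u, ∀ᶠ y in 𝓝 p, An u y ∧ D u y = w y := by
  obtain ⟨u, hu⟩ := lc_hf h
  have h1 : An u p := an_of_Db (hu.mono fun y hy => ⟨hy.1, (congrArg Prod.snd hy.2).symm⟩)
  refine ⟨u, ?_⟩
  filter_upwards [hu, h1.eventually] with y h2 h3
  exact ⟨h3, (congrArg Prod.fst (h2.2.trans (dd_an h3))).symm⟩

omit [RS Y] in
theorem wd_eq (C : XC Y) (w : Y → ℂ) (p : Y) :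
    C.wd (hf w) (cj (hf w)) p = ((‖w p‖ ^ 2 / ‖D C.x p‖ ^ 2 : ℝ) : ℂ) := by
  simp only [XC.wd, hf, cj, map_zero, mul_zero, sub_zero, Complex.mul_conj, Complex.ofReal_div,
    Complex.normSq_eq_norm_sq]

theorem tr_eq (C : XC Y) (w : Y → ℂ) : C.tr (C.wd (hf w) (cj (hf w))) =
    fun ξ => ((∑ p ∈ (C.Φ_finite ξ).toFinset, ‖w p‖ ^ 2 / ‖D C.x p‖ ^ 2 : ℝ) : ℂ) := by
  funext ξ
  rw [XC.tr, finsum_mem_eq_finite_toFinset_sum _ (C.Φ_finite ξ), Complex.ofReal_sum]
  exact Finset.sum_congr rfl fun p _ => wd_eq C w p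

end PosP

theorem sPos (h : SPr) : SPos := by
  intro Y _ _ _ C w hw
  set g : ℂ → ℝ := fun ξ => ∑ p ∈ (C.Φ_finite ξ).toFinset, ‖w p‖ ^ 2 / ‖D C.x p‖ ^ 2 with hg
  have hg0 : 0 ≤ g := fun ξ => Finset.sum_nonneg fun p _ => by positivity
  have e : C.Q (hf w) (hf w) = ((∫ ξ, g ξ : ℝ) : ℂ) := by
    rw [XC.Q, XC.pr, PosP.tr_eq, integral_complex_ofReal]
  refine ⟨by rw [e]; exact Complex.zero_le_real.mpr (integral_nonneg hg0), fun h0 => ?_⟩
  have hi : Integrable g := by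
    have := C.int_cl h (cl_hf hw) (cl_hf hw).cj
    rw [PosP.tr_eq] at this
    exact this.re.congr (Eventually.of_forall fun ξ => Complex.ofReal_re _)
  rw [e, Complex.ofReal_eq_zero, integral_eq_zero_iff_of_nonneg hg0 hi] at h0
  by_contra hne
  have hZ := (om_finite_zeros hw hne).union C.fin
  obtain ⟨p, hp⟩ := hZ.exists_notMem
  have hp' : p ∉ C.Sg := fun h1 => hp (Or.inr h1)
  obtain ⟨s, hs⟩ := exists_isSec (C.reg p hp').1 (C.reg p hp').2.1
  have h1 : ∀ᶠ ξ in 𝓝 (C.x p), g ξ ≠ 0 := by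
    filter_upwards [hs.tendsto.eventually (eventually_notMem' hZ hp), hs.right] with ξ h2 h3
    have h4 : s ξ ∉ C.Sg := fun h1 => h2 (Or.inr h1)
    have h5 : w (s ξ) ≠ 0 := fun h1 => h2 (Or.inl h1)
    have h6 := (C.reg _ h4).2.1
    refine (Finset.sum_pos' (fun q _ => by positivity) ⟨s ξ, ?_, by positivity⟩).ne'
    exact (C.Φ_finite ξ).mem_toFinset.mpr ⟨h4, h3⟩
  exact (Measure.measure_pos_of_mem_nhds volume h1).ne' h0

theorem sRMer : SRMer := by
  intro Y _ _ _ w hw U hU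
  have hA : {p | ¬(An U p ∧ D U p = w p)}.Finite := hU
  obtain ⟨v, hv, e⟩ := an_extend (u := U) hA finite_empty
    (fun y hy _ => (not_not.mp hy).1) fun a _ => by
      obtain ⟨u, hu⟩ := PosP.prim (hw a)
      obtain ⟨c, hc⟩ := const_of_D_punctured (u := fun y => U y - u y) (p := a) (by
        filter_upwards [eventually_notMem hA a, hu.filter_mono nhdsWithin_le_nhds] with y h1 h2
        have h3 := not_not.mp h1
        exact ⟨h3.1.sub h2.1, by rw [D_sub h3.1 h2.1, h3.2, h2.2, sub_self]⟩)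
      have h1 := (hu.self_of_nhds.1.continuousAt.norm.tendsto.eventually
        (gt_mem_nhds (lt_add_one _))).filter_mono (nhdsWithin_le_nhds (s := {a}ᶜ))
      refine ⟨‖c‖ + (‖u a‖ + 1), ?_⟩
      filter_upwards [hc, h1] with y h2 h3
      rw [sub_eq_iff_eq_add.mp h2]
      exact (norm_add_le _ _).trans (add_le_add le_rfl h3.le)
  obtain ⟨c, hc⟩ := const_of_an fun y => hv y (Or.inr (notMem_empty y))
  refine om_eq_zero_of_finite hw hA fun y hy => ?_
  rw [← (not_not.mp hy).2, ← D_const (p := y) c]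
  refine D_congr ?_
  filter_upwards [eventually_notMem' hA hy] with y' h1
  rw [← e y' h1, hc]

end Pool.Agent.P.MP_7ede32_ag.Hod
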