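import Pool.Agent.P.MP_7ede32_ag.Hod.RU

/-!
Integrability of the wedge product.
-/

set_option linter.unusedSectionVars false

open Set Filter Topology MeasureTheory ComplexConjugate

namespace Pool.Agent.P.MP_7ede32_ag.Hod

open MP_5d7cf0_gt.T (RS zc loc An D Sm Db Hf Om an_zc D_zc_ne D_zc_self source_mem zc_symm symm_zc
  zc_mem)

namespace PrP

variable {Y : Type} [TopologicalSpace Y] [ChartedSpace ℂ Y] [RS Y] {θ θ' : Y → ℂ × ℂ} {p y : Y}

/-- the density of the wedge product in the chart at `p` -/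
noncomputable def den (θ θ' : Y → ℂ × ℂ) (p y : Y) : ℂ :=
  ((θ y).1 * (θ' y).2 - (θ y).2 * (θ' y).1) / ((‖D (zc p) y‖ ^ 2 : ℝ) : ℂ)

theorem den_self (h : Cn θ p) (h' : Cn θ' p) : ContinuousAt (den θ θ' p) p := by
  refine ((h.1.mul h'.2).sub (h.2.mul h'.1)).congr (Eventually.of_forall fun y => ?_)
  simp only [den, Pi.sub_apply, Pi.mul_apply]
  rw [← Complex.normSq_eq_norm_sq, ← Complex.mul_conj]
  ring

theorem den_cont (hy : y ∈ (chartAt ℂ p).source)
    (h : (Cn θ y ∧ Cn θ' y) ∨ ∀ᶠ z in 𝓝 y, θ' z = 0) : ContinuousAt (den θ θ' p) y := by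
  rcases h with h | h
  · have h1 : ContinuousAt (fun z => D (zc p) z / D (zc y) z) y :=
      MP_5d7cf0_gt.T.An.continuousAt (an_zc hy).hf
    have h2 : ContinuousAt (fun z => ((‖D (zc p) z / D (zc y) z‖ ^ 2 : ℝ) : ℂ)) y :=
      Complex.continuous_ofReal.continuousAt.comp (h1.norm.pow 2)
    refine ((den_self h.1 h.2).div h2 ?_).congr ?_
    · rw [D_zc_self, div_one]
      exact_mod_cast pow_ne_zero 2 (norm_ne_zero_iff.2 (D_zc_ne hy))
    · filter_upwards [source_mem (mem_chart_source ℂ y)] with z hz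
      have h3 : ((‖D (zc y) z‖ : ℝ) : ℂ) ≠ 0 := by
        exact_mod_cast norm_ne_zero_iff.2 (D_zc_ne hz)
      simp only [den, Pi.div_apply, norm_div]
      push_cast
      rw [div_pow, div_div_div_cancel_right₀ (pow_ne_zero 2 h3)]
  · refine (continuousAt_const (y := (0 : ℂ))).congr (h.mono fun z hz => ?_)
    simp [den, hz]

theorem piece (h : SCh) (C : XC Y)
    (hθ : ∀ p, (Cn θ p ∧ Cn θ' p) ∨ ∀ᶠ y in 𝓝 p, θ' y = 0) {ρ : Y → ℂ} {K : Set Y}
    (h1 : ∀ y, Sm ρ y) (h2 : IsCompact K) (h3 : K ⊆ (chartAt ℂ p).source)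
    (h4 : ∀ y ∉ K, ρ y = 0) : Integrable (C.tr fun y => ρ y * C.wd θ θ' y) := by
  classical
  have hK : IsCompact (zc p '' K) :=
    h2.image_of_continuousOn ((chartAt ℂ p).continuousOn.mono h3)
  let f : ℂ → ℂ := fun z => if z ∈ (chartAt ℂ p).target then
    ρ ((chartAt ℂ p).symm z) * den θ θ' p ((chartAt ℂ p).symm z) else 0
  have h5 : ∀ z ∉ zc p '' K, f z = 0 := fun z hz => by
    by_cases e : z ∈ (chartAt ℂ p).target
    · simp only [f, if_pos e]
      rw [h4 _ fun h6 => hz ⟨_, h6, zc_symm e⟩, zero_mul]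
    · exact if_neg e
  have h6 : Continuous f := continuous_iff_continuousAt.2 fun z => by
    by_cases e : z ∈ (chartAt ℂ p).target
    · have e1 := (chartAt ℂ p).map_target e
      refine (ContinuousAt.comp (g := fun y => ρ y * den θ θ' p y)
        ((h1 _).continuousAt.mul (den_cont e1 (hθ _))) ((chartAt ℂ p).continuousAt_symm e)).congr ?_
      filter_upwards [(chartAt ℂ p).open_target.mem_nhds e] with w hw
      exact (if_pos hw).symm
    · refine (continuousAt_const (y := (0 : ℂ))).congr ?_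
      filter_upwards [hK.isClosed.isOpen_compl.mem_nhds (x := z) (by
        rintro ⟨y, hy, rfl⟩
        exact e (zc_mem (h3 hy)))] with w hw
      exact (h5 w hw).symm
  have key := (h Y C (fun y => ρ y * ((θ y).1 * (θ' y).2 - (θ y).2 * (θ' y).1)) f p _ hK
    (by
      rintro _ ⟨y, hy, rfl⟩
      exact zc_mem (h3 hy)) h6 h5
    (fun y hy => by
      have h7 : ((‖D (zc p) y‖ ^ 2 : ℝ) : ℂ) ≠ 0 := by
        exact_mod_cast pow_ne_zero 2 (norm_ne_zero_iff.2 (D_zc_ne hy))
      simp only [f, if_pos (zc_mem hy), symm_zc hy, den]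
      rw [mul_assoc, div_mul_cancel₀ _ h7])
    (fun y hy => by rw [h4 y fun h7 => hy (h3 h7), zero_mul])).1
  simpa only [XC.wd, mul_div_assoc] using key

end PrP

theorem sPr (h : SCh) : SPr := by
  intro Y _ _ _ C θ θ' hθ
  obtain ⟨s, ρ, K, h1, h2⟩ := exists_pou (fun p : Y => (chartAt ℂ p).source)
    fun p => source_mem (mem_chart_source ℂ p)
  have e : C.tr (C.wd θ θ') = fun ξ => ∑ p ∈ s, C.tr (fun y => ρ p y * C.wd θ θ' y) ξ := by
    funext ξ
    simp only [XC.tr, finsum_mem_eq_finite_toFinset_sum _ (C.Φ_finite ξ)]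
    rw [Finset.sum_comm]
    refine Finset.sum_congr rfl fun y _ => ?_
    rw [← Finset.sum_mul, h1, one_mul]
  rw [e]
  exact integrable_finsetSum s fun p _ =>
    PrP.piece h C hθ (h2 p).1 (h2 p).2.1 (h2 p).2.2.1 (h2 p).2.2.2

end Pool.Agent.P.MP_7ede32_ag.Hod
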