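import Pool.Agent.P.MP_7ede32_ag.Hod.RU

/-!
Meromorphic functions on a plane model are rational; spaces of differentials have finite dimension.
-/

open Set Filter Topology MeasureTheory ComplexConjugate Polynomial Bornology Manifold

namespace Pool.Agent.P.MP_7ede32_ag.Hod

open MP_5d7cf0_gt.T (RS zc loc An D Sm Db Hf Om)

namespace RatUP

theorem poly_grow (R : ℂ[X]) : ∃ c : ℝ, 0 ≤ c ∧
    ∀ᶠ ξ in cobounded ℂ, ‖R.eval ξ‖ ≤ c * ‖ξ‖ ^ R.natDegree := by
  have h : R.degree ≤ (X ^ R.natDegree : ℂ[X]).degree := by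
    rw [degree_X_pow]; exact degree_le_natDegree
  obtain ⟨c, hc, h1⟩ := (isBigO_cobounded_of_degree_le h).exists_pos
  refine ⟨c, hc.le, ?_⟩
  filter_upwards [h1.bound] with ξ hξ
  simpa using hξ

variable {Y : Type} [TopologicalSpace Y] [ChartedSpace ℂ Y] {p : Y}

theorem tendsto_t : Tendsto (fun y => zc p y - zc p p) (𝓝[≠] p) (𝓝 0) := by
  have h := (MP_5d7cf0_gt.T.continuousAt_zc (mem_chart_source ℂ p)).tendsto.sub_const (zc p p)
  rw [sub_self] at h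
  exact h.mono_left nhdsWithin_le_nhds

theorem an_bdd {β : Y → ℂ} (h : An β p) : ∃ c : ℝ, 0 ≤ c ∧ ∀ᶠ y in 𝓝[≠] p, ‖β y‖ ≤ c := by
  refine ⟨‖β p‖ + 1, by positivity, ?_⟩
  have h1 := h.continuousAt.norm.tendsto.eventually (eventually_le_nhds (lt_add_one ‖β p‖))
  exact h1.filter_mono nhdsWithin_le_nhds

theorem pole_order {U : Y → ℂ} (h : MeromorphicAt (loc U p) (zc p p)) : ∃ m : ℕ, ∀ m' ≥ m,
    ∃ c : ℝ, 0 ≤ c ∧ ∀ᶠ y in 𝓝[≠] p, ‖U y‖ * ‖zc p y - zc p p‖ ^ m' ≤ c := by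
  obtain ⟨m, hm⟩ := h
  refine ⟨m, fun m' hm' => ?_⟩
  set g : ℂ → ℂ := fun z => (z - zc p p) ^ m • loc U p z
  have h1 := hm.continuousAt.norm.tendsto.eventually (eventually_le_nhds (lt_add_one ‖g (zc p p)‖))
  have h2 := (MP_5d7cf0_gt.T.continuousAt_zc (mem_chart_source ℂ p)).tendsto.eventually h1
  refine ⟨‖g (zc p p)‖ + 1, by positivity, ?_⟩
  have h3 := (tendsto_t (p := p)).norm.eventually (eventually_le_nhds (by simp : ‖(0 : ℂ)‖ < 1))
  filter_upwards [mem_nhdsWithin_of_mem_nhds h2, h3, mem_nhdsWithin_of_mem_nhds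
    (MP_5d7cf0_gt.T.source_mem (mem_chart_source ℂ p))] with y h4 h5 h6
  refine le_trans ?_ h4
  simp only [g, MP_5d7cf0_gt.T.loc_zc h6, smul_eq_mul, norm_mul, norm_pow]
  rw [mul_comm]
  exact mul_le_mul_of_nonneg_right (pow_le_pow_of_le_one (norm_nonneg _) h5 hm') (norm_nonneg _)

theorem tendsto_mul_bdd {A : Type} {l : Filter A} {f φ : A → ℂ} {β : ℂ} {c : ℝ}
    (h : Tendsto f l (𝓝 β)) (hb : ∀ᶠ y in l, ‖φ y‖ ≤ c) :
    Tendsto (fun y => (f y - β) * φ y) l (𝓝 0) := by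
  have h1 := (h.sub_const β).norm.mul_const c
  rw [sub_self, norm_zero, zero_mul] at h1
  refine squeeze_zero_norm' ?_ h1
  filter_upwards [hb] with y hy
  rw [norm_mul]
  exact mul_le_mul_of_nonneg_left hy (norm_nonneg _)

/-- polynomials of bounded degrees are linearly dependent -/
theorem dep (n d : ℕ) (N : Fin (n * (d + 1) + 1) → ℂ[X][X]) (h1 : ∀ i, (N i).degree < n)
    (h2 : ∀ i j, ((N i).coeff j).natDegree ≤ d) :
    ∃ c : Fin (n * (d + 1) + 1) → ℂ, c ≠ 0 ∧ ∑ i, c i • N i = 0 := by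
  let v : Fin (n * (d + 1) + 1) → Fin n × Fin (d + 1) → ℂ :=
    fun i q => ((N i).coeff q.1).coeff q.2
  have h : ¬ LinearIndependent ℂ v := fun h => by
    have := h.fintype_card_le_finrank
    simp at this
  obtain ⟨c, hc, i₀, hi⟩ := Fintype.not_linearIndependent_iff.mp h
  refine ⟨c, fun h0 => hi (by rw [h0]; rfl), ?_⟩
  ext j l
  simp only [finsetSum_coeff, coeff_smul, coeff_zero, smul_eq_mul]
  by_cases hj : j < n
  · by_cases hl : l < d + 1
    · simpa [v] using congrFun hc (⟨j, hj⟩, ⟨l, hl⟩)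
    · refine Finset.sum_eq_zero fun i _ => ?_
      rw [coeff_eq_zero_of_natDegree_lt ((h2 i j).trans_lt (by omega)), mul_zero]
  · refine Finset.sum_eq_zero fun i _ => ?_
    rw [coeff_eq_zero_of_degree_lt ((h1 i).trans_le (by exact_mod_cast not_lt.mp hj)), coeff_zero,
      mul_zero]

variable [RS Y]

theorem dv_ne (C : XC Y) (p : Y) : ∀ᶠ y in 𝓝[≠] p, An (dv C.x p) y ∧ dv C.x p y ≠ 0 := by
  filter_upwards [C.off_near p, mem_nhdsWithin_of_mem_nhds
    (MP_5d7cf0_gt.T.source_mem (mem_chart_source ℂ p))] with y h1 h2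
  exact ⟨an_dv h2 (C.reg y h1).1, div_ne_zero (C.reg y h1).2.1 (MP_5d7cf0_gt.T.D_zc_ne h2)⟩

/-- a multiple differential is given by a function that is holomorphic outside `Sg` -/
theorem hol_ext (C : XC Y) {ν : ℕ} {F : Y → ℂ} (h : C.Hol ν F) :
    ∃ G : Y → ℂ, (∀ p ∉ C.Sg, An G p) ∧ ∀ᶠ p in cofinite, G p = F p := by
  have h1 : ∀ᶠ y in cofinite, An F y := by
    refine cofinite_iff.mpr fun p => ?_
    obtain ⟨β, hβ, h2⟩ := h p
    filter_upwards [dv_ne C p, mem_nhdsWithin_of_mem_nhds hβ.eventually,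
      mem_nhdsWithin_of_mem_nhds
        (eventually_nhdsWithin_iff.mp (h2.and (dv_ne C p))).eventually_nhds,
      self_mem_nhdsWithin] with y h3 h4 h5 h6
    refine (h4.div (h3.1.pow ν) (pow_ne_zero _ h3.2)).congr ?_
    filter_upwards [h5, isOpen_compl_singleton.mem_nhds h6] with z h7 h8
    rw [← (h7 h8).1, mul_div_cancel_right₀ _ (pow_ne_zero _ (h7 h8).2.2)]
  have hA : ({y | ¬ An F y} \ C.Sg).Finite := Set.Finite.subset h1 sdiff_subset
  obtain ⟨G, hG1, hG2⟩ := MP_5d7cf0_gt.T.an_extend (u := F) hA C.fin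
    (fun y h2 h3 => by_contra fun h4 => h2 ⟨h4, h3⟩) (fun a ha => by
      obtain ⟨β, hβ, h2⟩ := h a
      have h3 : An (dv C.x a) a := an_dv (mem_chart_source ℂ a) (C.reg a ha.2).1
      have h4 : dv C.x a a ≠ 0 :=
        div_ne_zero (C.reg a ha.2).2.1 (MP_5d7cf0_gt.T.D_zc_ne (mem_chart_source ℂ a))
      obtain ⟨c, -, hc⟩ := an_bdd (hβ.div (h3.pow ν) (pow_ne_zero _ h4))
      refine ⟨c, ?_⟩
      filter_upwards [hc, h2, dv_ne C a] with y h5 h6 h7
      rwa [← h6, mul_div_cancel_right₀ _ (pow_ne_zero _ h7.2)] at h5)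
  refine ⟨G, fun p hp => hG1 p (Or.inr hp), ?_⟩
  filter_upwards [hA.compl_mem_cofinite] with y hy using hG2 y hy

theorem fin2 (h : SLag) (M : PM Y) (ν : ℕ) : ∃ d : ℕ, ∀ F : Fin (d + 1) → Y → ℂ,
    (∀ i, M.Hol ν (F i)) → ∃ c : Fin (d + 1) → ℂ, c ≠ 0 ∧ ∀ᶠ p in cofinite, ∑ i, c i * F i p = 0 := by
  obtain ⟨d, hd⟩ := h Y M (M.R.natDegree * ν)
  refine ⟨M.P.natDegree * (d + 1), fun F hF => ?_⟩
  have key : ∀ i, ∃ N : ℂ[X][X], N.degree < M.P.degree ∧ (∀ j, (N.coeff j).natDegree ≤ d) ∧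
      ∀ᶠ p in cofinite, M.ev N p = F i p * (M.R.eval (M.x p) ^ ν * M.ev (derivative M.P) p) := by
    intro i
    obtain ⟨G, hG1, hG2⟩ := hol_ext M.toXC (hF i)
    have loc' : ∀ p, ∃ c : ℝ, 0 ≤ c ∧ ∀ᶠ y in 𝓝[≠] p,
        ‖G y * M.R.eval (M.x y) ^ ν‖ ≤ c * ‖M.R.eval (M.x y) / dv M.x p y‖ ^ ν := fun p => by
      obtain ⟨β, hβ, h2⟩ := hF i p
      obtain ⟨c, hc0, hc⟩ := an_bdd hβ
      refine ⟨c, hc0, ?_⟩
      filter_upwards [hc, h2, dv_ne M.toXC p, cofinite_iff.mp hG2 p] with y h3 h4 h5 h6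
      have h7 : G y * M.R.eval (M.x y) ^ ν = β y * (M.R.eval (M.x y) / dv M.x p y) ^ ν := by
        rw [h6, ← h4, mul_assoc, ← mul_pow, mul_div_cancel₀ _ h5.2]
      rw [h7, norm_mul, norm_pow]
      exact mul_le_mul_of_nonneg_right h3 (by positivity)
    obtain ⟨N, h1, h2, h3⟩ := hd (fun y => G y * M.R.eval (M.x y) ^ ν)
      (fun p hp => (hG1 p hp).mul (((M.reg p hp).1.poly M.R).pow ν))
      (fun p hp β hβ => by
        obtain ⟨c, hc0, hc⟩ := loc' p
        obtain ⟨c', hc0', hc'⟩ := simple_root M.sep (M.root_of_tendsto hp hβ)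
        refine tendsto_mul_bdd hβ (c := c * c' ^ ν) ?_
        filter_upwards [hc, hβ.eventually hc', (M.fin_facts hβ).1.norm.eventually
          (eventually_le_nhds (by simp : ‖(0 : ℂ)‖ < 1))] with y h4 h5 h6
        refine h4.trans (mul_le_mul_of_nonneg_left (pow_le_pow_left₀ (norm_nonneg _) ?_ _) hc0)
        rw [norm_div] at h6 ⊢
        calc _ ≤ c' * ‖M.x y - β‖ / ‖dv M.x p y‖ :=
              div_le_div_of_nonneg_right h5.1 (norm_nonneg _)
          _ = c' * (‖M.x y - β‖ / ‖dv M.x p y‖) := mul_div_assoc _ _ _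
          _ ≤ c' := mul_le_of_le_one_right hc0'.le h6)
      (fun p hp hβ => by
        obtain ⟨c, hc0, hc⟩ := loc' p
        obtain ⟨c', hc0', hc'⟩ := poly_grow M.R
        refine ⟨c * c' ^ ν, ?_⟩
        filter_upwards [hc, hβ.eventually hc', (M.inf_facts hβ).1.norm.eventually
          (eventually_le_nhds (by simp : ‖(0 : ℂ)‖ < 1)),
          hβ.eventually (eventually_cobounded_le_norm (E := ℂ) 1)] with y h4 h5 h6 h7
        rw [mul_assoc, pow_mul, ← mul_pow]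
        refine h4.trans (mul_le_mul_of_nonneg_left (pow_le_pow_left₀ (norm_nonneg _) ?_ _) hc0)
        rw [norm_div] at h6 ⊢
        have h8 : 1 / ‖dv M.x p y‖ ≤ 1 :=
          (div_le_div_of_nonneg_right h7 (norm_nonneg _)).trans h6
        rw [div_eq_mul_one_div]
        exact (mul_le_of_le_one_right (norm_nonneg _) h8).trans h5)
    refine ⟨N, h1, h2, ?_⟩
    filter_upwards [hG2, M.off] with p h4 h5
    rw [h3 p h5, h4, mul_assoc]
  choose N h1 h2 h3 using key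
  obtain ⟨c, hc, h4⟩ := dep M.P.natDegree d N
    (fun i => (h1 i).trans_eq (degree_eq_natDegree M.monic.ne_zero)) h2
  refine ⟨c, hc, ?_⟩
  filter_upwards [eventually_all.mpr h3, M.off] with p h5 h6
  have h7 : M.ev (∑ i, c i • N i) p = ∑ i, c i * M.ev (N i) p := by
    simp only [PM.ev, evalEval_finsetSum, evalEval_smul, smul_eq_mul]
  rw [h4] at h7
  simp only [h5, ← mul_assoc, ← Finset.sum_mul] at h7
  have h8 : M.ev 0 p = 0 := by simp [PM.ev]
  rw [h8] at h7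
  exact ((mul_eq_zero.mp ((mul_eq_zero.mp h7.symm).resolve_right (M.der_ne h6))).resolve_right
    (pow_ne_zero _ (M.reg p h6).2.2))

end RatUP

open RatUP

theorem sRatU (h : SLag) : SRatU := by
  intro Y _ _ _ M U hU hm
  have h1 : ∃ m : ℕ, ∀ p ∈ M.Sg, ∃ c : ℝ, 0 ≤ c ∧
      ∀ᶠ y in 𝓝[≠] p, ‖U y‖ * ‖zc p y - zc p p‖ ^ m ≤ c := by
    choose! m hm' using fun p hp => pole_order (hm p hp)
    obtain ⟨m₀, hm₀⟩ := (M.fin.image m).bddAbove
    exact ⟨m₀, fun p hp => hm' p hp m₀ (hm₀ (mem_image_of_mem m hp))⟩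
  obtain ⟨m, hm'⟩ := h1
  obtain ⟨d, hd⟩ := h Y M (m + M.R.natDegree * m)
  obtain ⟨N, -, -, h3⟩ := hd (fun y => U y * M.R.eval (M.x y) ^ m)
    (fun p hp => (hU p hp).mul (((M.reg p hp).1.poly M.R).pow m))
    (fun p hp β hβ => by
      obtain ⟨c, hc0, hc⟩ := hm' p hp
      obtain ⟨c', hc0', hc'⟩ := simple_root M.sep (M.root_of_tendsto hp hβ)
      obtain ⟨c'', hc''⟩ := (M.fin_facts hβ).2.2
      refine tendsto_mul_bdd hβ (c := (c' * |c''|) ^ m * c) ?_
      filter_upwards [hc, hβ.eventually hc', hc''] with y h4 h5 h6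
      have h7 : ‖M.R.eval (M.x y)‖ ≤ c' * |c''| * ‖zc p y - zc p p‖ := by
        rw [mul_assoc]
        exact h5.1.trans (mul_le_mul_of_nonneg_left
          (h6.trans (mul_le_mul_of_nonneg_right (le_abs_self _) (norm_nonneg _))) hc0'.le)
      rw [norm_mul, norm_pow]
      calc _ ≤ ‖U y‖ * (c' * |c''| * ‖zc p y - zc p p‖) ^ m :=
            mul_le_mul_of_nonneg_left (pow_le_pow_left₀ (norm_nonneg _) h7 _) (norm_nonneg _)
        _ = (c' * |c''|) ^ m * (‖U y‖ * ‖zc p y - zc p p‖ ^ m) := by rw [mul_pow]; ring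
        _ ≤ _ := mul_le_mul_of_nonneg_left h4 (by positivity))
    (fun p hp hβ => by
      obtain ⟨c, hc0, hc⟩ := hm' p hp
      obtain ⟨c', hc0', hc'⟩ := poly_grow M.R
      obtain ⟨c'', hc''⟩ := (M.inf_facts hβ).2.2
      refine ⟨|c''| ^ m * c * c' ^ m, ?_⟩
      filter_upwards [hc, hβ.eventually hc', hc''] with y h4 h5 h6
      have h7 : 1 ≤ |c''| * ‖M.x y‖ * ‖zc p y - zc p p‖ :=
        h6.trans (mul_le_mul_of_nonneg_right
          (mul_le_mul_of_nonneg_right (le_abs_self _) (norm_nonneg _)) (norm_nonneg _))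
      have h8 : ‖U y‖ ≤ |c''| ^ m * c * ‖M.x y‖ ^ m :=
        calc ‖U y‖ ≤ ‖U y‖ * (|c''| * ‖M.x y‖ * ‖zc p y - zc p p‖) ^ m :=
              le_mul_of_one_le_right (norm_nonneg _) (one_le_pow₀ h7)
          _ = |c''| ^ m * ‖M.x y‖ ^ m * (‖U y‖ * ‖zc p y - zc p p‖ ^ m) := by
              rw [mul_pow, mul_pow]; ring
          _ ≤ |c''| ^ m * ‖M.x y‖ ^ m * c := mul_le_mul_of_nonneg_left h4 (by positivity)
          _ = _ := by ring
      rw [norm_mul, norm_pow]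
      calc _ ≤ |c''| ^ m * c * ‖M.x y‖ ^ m * (c' * ‖M.x y‖ ^ M.R.natDegree) ^ m :=
            mul_le_mul h8 (pow_le_pow_left₀ (norm_nonneg _) h5 _) (by positivity) (by positivity)
        _ = _ := by rw [mul_pow, pow_add, pow_mul]; ring)
  refine ⟨m + M.k, M.B * N, fun p hp => ?_⟩
  have h4 := congrArg (evalEval (M.x p) (M.y p)) M.bez
  have h5 := M.on hp
  have h6 := h3 p hp
  simp only [PM.ev] at h5 h6 ⊢
  rw [evalEval_C, evalEval_add, evalEval_mul, evalEval_mul, h5, mul_zero, zero_add, eval_pow] at h4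
  rw [evalEval_mul, h6, pow_add, h4]
  ring

theorem sFinD (h : SLag) : SFinD := by
  intro Y _ _ _ M
  refine ⟨?_, fin2 h M⟩
  obtain ⟨d, hd⟩ := fin2 h M 1
  rw [FiniteDimensional, ← Module.rank_lt_aleph0_iff]
  by_contra h1
  obtain ⟨w, hw⟩ := exists_linearIndependent_of_le_rank (R := ℂ) (M := Om Y) (n := d + 1)
    (Cardinal.natCast_lt_aleph0.le.trans (not_lt.mp h1))
  obtain ⟨c, hc, h2⟩ := hd (fun i p => (w i : Y → ℂ) p / D M.x p) fun i => M.hol_one (w i).2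
  refine hc (funext (Fintype.linearIndependent_iff.mp hw c (Subtype.ext ?_)))
  refine MP_5d7cf0_gt.T.om_eq_zero_of_finite (∑ i, c i • w i).2 (h2.and M.off) fun y hy => ?_
  have h3 := not_not.mp hy
  simp only [← mul_div_assoc, ← Finset.sum_div] at h3
  simpa using (div_eq_zero_iff.mp h3.1).resolve_right (M.reg y h3.2).2.1

end Pool.Agent.P.MP_7ede32_ag.Hod
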