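import Pool.Agent.P.MP_7ede32_ag.Hod.RU

/-!
From a birational model to a plane model.
-/

open Set Filter Topology Polynomial Bornology

namespace Pool.Agent.P.MP_7ede32_ag.Hod

open MP_5d7cf0_gt.T (RS zc loc An D Hf Om)

namespace RefP

open MP_5d7cf0_gt.T

/-- the difference quotient in the second variable -/
theorem exists_quot (P : ℂ[X][X]) : Continuous (fun z : ℂ × ℂ => P.evalEval z.1 z.2) ∧
    ∃ Q : ℂ × ℂ × ℂ → ℂ, Continuous Q ∧
      (∀ ξ a b, P.evalEval ξ a - P.evalEval ξ b = (a - b) * Q (ξ, a, b)) ∧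
      ∀ ξ a, Q (ξ, a, a) = (derivative P).evalEval ξ a := by
  induction P using Polynomial.induction_on with
  | C a =>
    refine ⟨?_, fun _ => 0, continuous_const, fun ξ a b => by simp [evalEval_C], fun ξ b => by simp⟩
    simp only [evalEval_C]
    exact a.continuous.comp continuous_fst
  | add p q hp hq =>
    obtain ⟨h1, Q, h2, h3, h4⟩ := hp
    obtain ⟨k1, Q', k2, k3, k4⟩ := hq
    refine ⟨?_, fun z => Q z + Q' z, h2.add k2, fun ξ a b => ?_, fun ξ a => ?_⟩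
    · simp only [evalEval_add]
      exact h1.add k1
    · simp only [evalEval_add]
      linear_combination h3 ξ a b + k3 ξ a b
    · simp only [derivative_add, evalEval_add, h4, k4]
  | monomial n a h =>
    obtain ⟨h1, Q, h2, h3, h4⟩ := h
    rw [pow_succ, ← mul_assoc]
    generalize C a * X ^ n = p at *
    refine ⟨?_, fun z => Q z * z.2.1 + p.evalEval z.1 z.2.2, ?_, fun ξ a b => ?_, fun ξ a => ?_⟩
    · simp only [evalEval_mul, evalEval_X]
      exact h1.mul continuous_snd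
    · exact (h2.mul continuous_snd.fst).add
        (h1.comp (continuous_fst.prodMk continuous_snd.snd))
    · simp only [evalEval_mul, evalEval_X]
      linear_combination a * h3 ξ a b
    · simp only [derivative_mul, derivative_X, mul_one, evalEval_add, evalEval_mul, evalEval_X, h4]

/-- near a simple root the root is unique -/
theorem root_unique {P : ℂ[X][X]} {β η : ℂ} (h : (derivative P).evalEval β η ≠ 0) :
    ∀ᶠ z : ℂ × ℂ × ℂ in 𝓝 (β, η, η),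
      P.evalEval z.1 z.2.1 = 0 → P.evalEval z.1 z.2.2 = 0 → z.2.1 = z.2.2 := by
  obtain ⟨-, Q, h1, h2, h3⟩ := exists_quot P
  filter_upwards [h1.continuousAt.eventually_ne (show Q (β, η, η) ≠ 0 by rwa [h3])] with z hz a b
  have := h2 z.1 z.2.1 z.2.2
  rw [a, b, sub_zero] at this
  exact sub_eq_zero.mp ((mul_eq_zero.mp this.symm).resolve_right hz)

variable {Y : Type} [TopologicalSpace Y] [ChartedSpace ℂ Y] [RS Y]

/-- the data after the extension over the points with a finite limit -/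
structure Dat (x y : Y → ℂ) (I : Set Y) (P : ℂ[X][X]) : Prop where
  fin : I.Finite
  ax : ∀ p ∉ I, An x p
  ay : ∀ p ∉ I, An y p
  nc : ∀ p ∉ I, ¬∀ᶠ q in 𝓝 p, x q = x p
  on : ∀ p ∉ I, P.evalEval (x p) (y p) = 0
  pole : ∀ p ∈ I, Tendsto x (𝓝[≠] p) (cobounded ℂ)
  bij : {ξ | ¬BijOn y {p | p ∉ I ∧ x p = ξ} {η | P.evalEval ξ η = 0}}.Finite

namespace Dat

variable {x y : Y → ℂ} {I : Set Y} {P : ℂ[X][X]} (H : Dat x y I P)
include H

theorem fib (ξ : ℂ) : {p | p ∉ I ∧ x p = ξ}.Finite := by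
  refine finite_of_isolated fun p => ?_
  by_cases hp : p ∈ I
  · filter_upwards [(H.pole p hp).eventually (p := fun c => c ≠ ξ)
      (isBounded_singleton (x := ξ))] with q hq h using hq h.2
  · rcases ((H.ax p hp).sub (an_const ξ)).zero_or with h | h
    · refine absurd (h.mono fun q hq => ?_) (H.nc p hp)
      rw [sub_eq_zero.mp hq, sub_eq_zero.mp h.self_of_nhds]
    · filter_upwards [h] with q hq h using hq (sub_eq_zero.mpr h.2)

theorem key {p p' : Y} (hp : p ∉ I) (hp' : p' ∉ I) (hy : y p' = y p)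
    (h : (derivative P).evalEval (x p) (y p) ≠ 0) :
    ∃ U ∈ 𝓝 p, ∃ U' ∈ 𝓝 p', ∀ᶠ c in 𝓝[≠] (x p), ∀ q ∈ U, ∀ q' ∈ U', x q = c → x q' = c →
      q = q' := by
  have h1 : Tendsto (fun z : Y × Y => (x z.1, y z.1, y z.2)) (𝓝 (p, p')) (𝓝 (x p, y p, y p)) :=
    ((H.ax p hp).continuousAt.tendsto.comp (continuous_fst.tendsto (p, p'))).prodMk_nhds
      (((H.ay p hp).continuousAt.tendsto.comp (continuous_fst.tendsto (p, p'))).prodMk_nhds
        ((hy ▸ (H.ay p' hp').continuousAt.tendsto).comp (continuous_snd.tendsto (p, p'))))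
  obtain ⟨U, hU, U', hU', h2⟩ := mem_nhds_prod_iff.mp (h1.eventually (root_unique h))
  refine ⟨_, inter_mem hU (eventually_notMem' H.fin hp), _,
    inter_mem hU' (eventually_notMem' H.fin hp'), ?_⟩
  filter_upwards [eventually_notMem H.bij (x p)] with c hc q hq q' hq' e e'
  refine (not_not.mp hc).injOn ⟨hq.2, e⟩ ⟨hq'.2, e'⟩ ?_
  refine h2 (mk_mem_prod hq.1 hq'.1) (H.on q hq.2) ?_
  have := H.on q' hq'.2
  rwa [e', ← e] at this

theorem D_ne {p : Y} (hp : p ∉ I) (h : (derivative P).evalEval (x p) (y p) ≠ 0) : D x p ≠ 0 := by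
  obtain ⟨U, hU, U', hU', h1⟩ := H.key hp hp rfl h
  obtain ⟨n, ψ, h2, h3, h4, h5, h6⟩ := (H.ax p hp).nf (H.nc p hp)
  intro h0
  obtain ⟨c, ⟨s, h7, h8⟩, h9⟩ :=
    ((nf_preimages h2 h3 h4 h5 h6 (inter_mem hU hU')).and h1).exists
  obtain ⟨a, ha, b, hb, hab⟩ := Finset.one_lt_card.mp (h7 ▸ (nf_D h2 h3 h4 h5 h6).mp h0)
  exact hab (h9 a (h8 a ha).1.1 b (h8 b hb).1.2 (h8 a ha).2 (h8 b hb).2)

theorem inj {p p' : Y} (hp : p ∉ I) (hp' : p' ∉ I) (hx : x p' = x p) (hy : y p' = y p)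
    (h : (derivative P).evalEval (x p) (y p) ≠ 0) : p = p' := by
  by_contra hne
  obtain ⟨U, hU, U', hU', h1⟩ := H.key hp hp' hy h
  obtain ⟨V, V', hV, hV', h2⟩ := t2_separation_nhds hne
  have h3 : x '' (U ∩ V) ∈ 𝓝 (x p) :=
    (H.ax p hp).nhds_le_map (H.nc p hp) (image_mem_map (inter_mem hU hV))
  have h4 : x '' (U' ∩ V') ∈ 𝓝 (x p) :=
    hx ▸ (H.ax p' hp').nhds_le_map (H.nc p' hp') (image_mem_map (inter_mem hU' hV'))
  obtain ⟨c, h5, ⟨q, h6, h7⟩, q', h8, h9⟩ :=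
    (h1.and (mem_nhdsWithin_of_mem_nhds (inter_mem h3 h4))).exists
  exact disjoint_left.mp h2 h6.2 (h5 q h6.1 q' h8.1 h7 h9 ▸ h8.2)

theorem bijOn {A B : ℂ[X][X]} {R : ℂ[X]} {k : ℕ} (hP : P.Monic)
    (hb : C (R ^ k) = A * P + B * derivative P) {ξ : ℂ} (hξ : R.eval ξ ≠ 0) :
    BijOn y {p | p ∉ I ∧ x p = ξ} {η | P.evalEval ξ η = 0} := by
  have hd : ∀ p, p ∉ I → x p = ξ → (derivative P).evalEval (x p) (y p) ≠ 0 := fun p h1 h2 =>
    der_ne hb (h2 ▸ hξ) (H.on p h1)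
  have hm : MapsTo y {p | p ∉ I ∧ x p = ξ} {η | P.evalEval ξ η = 0} := fun p hp =>
    hp.2 ▸ H.on p hp.1
  have hi : InjOn y {p | p ∉ I ∧ x p = ξ} := fun p hp p' hp' e =>
    H.inj hp.1 hp'.1 (hp'.2.trans hp.2.symm) e.symm (hd p hp.1 hp.2)
  refine ⟨hm, hi, (eq_of_subset_of_ncard_le hm.image_subset ?_ (roots_card hP hb hξ).1).ge⟩
  rw [hi.ncard_image, (roots_card hP hb hξ).2]
  have h1 : ∀ p, ∃ U : Set Y, p ∉ I → x p = ξ → U ∈ 𝓝 p ∧ InjOn x U := fun p => by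
    by_cases hp : p ∉ I ∧ x p = ξ
    · obtain ⟨U, h⟩ := (H.ax p hp.1).injOn (H.D_ne hp.1 (hd p hp.1 hp.2))
      exact ⟨U, fun _ _ => h⟩
    · exact ⟨∅, fun h h' => absurd ⟨h, h'⟩ hp⟩
  choose U hU using h1
  have h2 := proper_fin H.ax H.pole ξ (U := {q | ∃ p, (p ∉ I ∧ x p = ξ) ∧ q ∈ U p})
    (mem_nhdsSet_iff_forall.mpr fun p hp =>
      mem_of_superset (hU p hp.1 hp.2).1 fun q hq => ⟨p, hp, hq⟩)
  obtain ⟨c, h3, h4, h5⟩ := ((eventually_notMem H.bij ξ).and (mem_nhdsWithin_of_mem_nhds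
    (h2.and (R.continuous.continuousAt.eventually_ne hξ)))).exists
  have : Nonempty Y := inferInstance
  choose! g hg using h4
  rw [← (roots_card hP hb h5).2, ← (not_not.mp h3).ncard_eq]
  refine ncard_le_ncard_of_injOn g (fun q hq => (hg q hq.1 hq.2).1) (fun q hq q' hq' e => ?_)
    (H.fib ξ)
  have h6 := hg q hq.1 hq.2
  exact (hU _ h6.1.1 h6.1.2).2 h6.2 (e ▸ (hg q' hq'.1 hq'.2).2) (hq.2.trans hq'.2.symm)

end Dat

theorem exists_dat {x y : Y → ℂ} {S : Set Y} {P : ℂ[X][X]} (hS : S.Finite) (hP : P.Monic)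
    (h1 : ∀ p ∉ S, An x p ∧ An y p ∧ D x p ≠ 0 ∧ P.evalEval (x p) (y p) = 0)
    (h2 : ∀ p ∈ S, (∃ β, Tendsto x (𝓝[≠] p) (𝓝 β)) ∨ Tendsto x (𝓝[≠] p) (cobounded ℂ))
    (h3 : ∀ᶠ ξ in cofinite, BijOn y {p | p ∉ S ∧ x p = ξ} {η | P.evalEval ξ η = 0}) :
    ∃ x' y' : Y → ℂ, ∃ I ⊆ S, Dat x' y' I P ∧ ∀ p ∉ S, x' p = x p ∧ y' p = y p := by
  set F : Set Y := {p | p ∈ S ∧ ∃ β, Tendsto x (𝓝[≠] p) (𝓝 β)} with hF
  have hFS : F ⊆ S := fun p hp => hp.1
  have hf : F.Finite := hS.subset hFS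
  have hb : ∀ a ∈ F, ∃ C : ℝ, ∀ᶠ q in 𝓝[≠] a, ‖x q‖ ≤ C := fun a ⟨_, β, h⟩ =>
    ⟨‖β‖ + 1, h.norm.eventually (ge_mem_nhds (lt_add_one _))⟩
  obtain ⟨x', k1, k2⟩ := an_extend hf hS (fun p _ hp => (h1 p hp).1) hb
  obtain ⟨c, a, hc⟩ := root_grow hP
  obtain ⟨y', k3, k4⟩ := an_extend hf hS (fun p _ hp => (h1 p hp).2.1) fun p hp => by
    obtain ⟨C, hC⟩ := hb p hp
    refine ⟨|c| * (1 + C) ^ a, ?_⟩
    filter_upwards [hC, eventually_notMem hS p] with q h4 h5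
    refine (hc _ _ (h1 q h5).2.2.2).trans ?_
    have : 0 ≤ ‖x q‖ := norm_nonneg _
    gcongr
    exact le_abs_self c
  have hI : ∀ p, p ∉ S \ F → p ∈ F ∨ p ∉ S := fun p hp => by
    by_cases h : p ∈ F
    exacts [Or.inl h, Or.inr fun h' => hp ⟨h', h⟩]
  refine ⟨x', y', S \ F, sdiff_subset, ⟨hS.subset sdiff_subset, fun p hp => k1 p (hI p hp),
    fun p hp => k3 p (hI p hp), fun p hp h => ?_, fun p hp => ?_, fun p hp => ?_, ?_⟩,
    fun p hp => ⟨k2 p fun h => hp h.1, k4 p fun h => hp h.1⟩⟩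
  · obtain ⟨q, h4, h5⟩ := ((eventually_notMem hS p).and
      (mem_nhdsWithin_of_mem_nhds (D_of_const h))).exists
    refine (h1 q h4).2.2.1 (Eq.trans (D_congr ?_) h5)
    filter_upwards [eventually_notMem' hf fun h => h4 h.1] with q' hq' using (k2 q' hq').symm
  · have h4 : ContinuousAt (fun q => P.evalEval (x' q) (y' q)) p :=
      (exists_quot P).1.continuousAt.comp (f := fun q => (x' q, y' q))
        ((k1 p (hI p hp)).continuousAt.prodMk (k3 p (hI p hp)).continuousAt)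
    refine tendsto_nhds_unique (h4.tendsto.mono_left (nhdsWithin_le_nhds (s := {p}ᶜ)))
      (tendsto_const_nhds.congr' ?_)
    filter_upwards [eventually_notMem hS p] with q hq
    rw [k2 q fun h => hq h.1, k4 q fun h => hq h.1, (h1 q hq).2.2.2]
  · refine ((h2 p hp.1).resolve_left fun h => hp.2 ⟨hp.1, h⟩).congr' ?_
    filter_upwards [eventually_notMem hf p] with q hq using (k2 q hq).symm
  · refine (eventually_cofinite.mp h3).union (hf.image x') |>.subset fun ξ hξ => ?_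
    by_contra h4
    rw [mem_union, not_or, mem_ofPred_eq, not_not] at h4
    refine hξ ?_
    have e : {p | p ∉ S \ F ∧ x' p = ξ} = {p | p ∉ S ∧ x p = ξ} := by
      ext p
      constructor
      · rintro ⟨h5, h6⟩
        have h7 : p ∉ F := fun h => h4.2 ⟨p, h, h6⟩
        exact ⟨(hI p h5).resolve_left h7, (k2 p h7).symm.trans h6⟩
      · rintro ⟨h5, h6⟩
        exact ⟨fun h => h5 h.1, (k2 p fun h => h5 h.1).trans h6⟩
    rw [e]
    exact h4.1.congr fun p hp => (k4 p fun h => hp.1 h.1).symm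

end RefP

theorem sRef : SRef := by
  intro Y _ _ _ x y S P A B R k hS hR hP h0 hb h1 h2 h3
  obtain ⟨x', y', I, hI, H, h4⟩ := RefP.exists_dat hS hP h1 h2 h3
  have e : ∀ p, p ∉ I ∪ {p | p ∉ I ∧ R.eval (x' p) = 0} ↔ p ∉ I ∧ R.eval (x' p) ≠ 0 := fun p => by
    simp only [mem_union, mem_ofPred_eq]
    tauto
  refine ⟨⟨⟨x', I ∪ {p | p ∉ I ∧ R.eval (x' p) = 0}, R, H.fin.union ?_, hR, fun p hp => ?_,
    fun p hp => ?_⟩, y', P, A, B, k, hP, h0, hb, fun p hp => H.ay p ((e p).mp hp).1,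
    fun ξ hξ => ?_⟩, rfl, rfl, fun p hp => ⟨(h4 p hp).1, (h4 p hp).2, fun h => ?_⟩⟩
  · refine ((R.roots.toFinset.finite_toSet).biUnion fun ξ _ => H.fib ξ).subset fun p hp => ?_
    exact mem_biUnion (x := x' p)
      (Finset.mem_coe.mpr (Multiset.mem_toFinset.mpr ((mem_roots hR.ne_zero).mpr hp.2)))
      ⟨hp.1, rfl⟩
  · obtain ⟨h5, h6⟩ := (e p).mp hp
    exact ⟨H.ax p h5, H.D_ne h5 (der_ne hb h6 (H.on p h5)), h6⟩
  · rcases hp with hp | hp
    · exact Or.inr (H.pole p hp)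
    · exact Or.inl ⟨_, hp.2, (H.ax p hp.1).continuousAt.tendsto.mono_left nhdsWithin_le_nhds⟩
  · have e2 : {p | p ∉ I ∪ {p | p ∉ I ∧ R.eval (x' p) = 0} ∧ x' p = ξ} =
        {p | p ∉ I ∧ x' p = ξ} := by
      ext p
      rw [mem_ofPred_eq, e]
      exact ⟨fun h => ⟨h.1.1, h.2⟩, fun h => ⟨⟨h.1, h.2 ▸ hξ⟩, h.2⟩⟩
    change BijOn y' {p | p ∉ I ∪ {p | p ∉ I ∧ R.eval (x' p) = 0} ∧ x' p = ξ} _
    rw [e2]
    exact H.bijOn hP hb hξ
  · exact (e p).mpr ⟨fun h' => hp (hI h'), by rwa [(h4 p hp).1]⟩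

end Pool.Agent.P.MP_7ede32_ag.Hod
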