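import Pool.Agent.P.MP_7ede32_ag.Hod.StF
import Pool.Agent.P.MP_7ede32_ag.Hod.MT
import Pool.Agent.P.MP_7ede32_ag.Hod.BrU

/-!
Flat forms, first integrals, and relations that do not depend on the fibre.
-/

open Set Filter Topology MeasureTheory ComplexConjugate Polynomial Matrix

noncomputable section

namespace Pool.Agent.P.MP_7ede32_ag.Hod

open Ell (E2)

namespace Rel1P

variable {L : PeriodPair} {𝒴 : Pl L} {g : ℕ} {N : Fin g → (KK L)[X][X]} {Θ : MF g} {t : ℂ}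

theorem anV_vecMul (h : AnM Θ t) (a : Fin g → ℂ) : AnV (fun t => a ᵥ* Θ t) t := by
  intro i
  simp only [vecMul, dotProduct]
  exact Finset.analyticAt_fun_sum _ fun k _ => analyticAt_const.mul (h k i)

theorem deriv_vecMul (h : AnM Θ t) (a : Fin g → ℂ) (i : Fin g) :
    deriv (fun t => (a ᵥ* Θ t) i) t = (a ᵥ* dM Θ t) i := by
  simp only [vecMul, dotProduct]
  exact (HasDerivAt.fun_sum fun k _ =>
    ((h k i).differentiableAt.hasDerivAt).const_mul (a k)).deriv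

theorem an_cb {a : VF g} {φ : Fin g → E3 → ℂ} {q : E3} (ha : AnV a q.1)
    (hφ : ∀ i, AnalyticAt ℂ (φ i) q) : AnalyticAt ℂ (cb a φ) q :=
  Finset.analyticAt_fun_sum _ fun i _ => ((ha i).comp analyticAt_fst).mul (hφ i)

/-- a first integral gives coordinates in which an invariant form does not depend on `t` -/
theorem chart {s B r : E3 → ℂ} {q : E3}
    (h : ∀ᶠ q' in 𝓝 q, 𝒴.On q' → 𝒴.Ok q' ∧ AnalyticAt ℂ s q' ∧ 𝒴.LD 1 s B q' = 0 ∧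
      (B q' ≠ 0 → 𝒴.dT r q' = s q' * 𝒴.dX r q'))
    (ho : 𝒴.On q) (hB : AnalyticAt ℂ B q) (hr : AnalyticAt ℂ r q) (h0 : B q ≠ 0)
    (h1 : 𝒴.dX r q ≠ 0) : ∃ (f : ℂ → ℂ) (v₀ : ℂ), ∀ᶠ t in 𝓝 q.1, ∃ δ : ℂ → E3,
      Tendsto δ (𝓝[≠] v₀) (𝒴.fb t) ∧
      ∀ᶠ v in 𝓝[≠] v₀, r (δ v) = v ∧ B (δ v) / 𝒴.dX r (δ v) = f v := by
  have hk := (h.self_of_nhds ho).1
  obtain ⟨γ, hγ, hq, hc, -⟩ := hk.par hr h1
  have hT : Tendsto γ (𝓝 (q.1, r q)) (𝓝 q) := by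
    have := hγ.continuousAt.tendsto
    rwa [hq] at this
  set x : E2 → ℂ := fun y => (γ y).2.1 with hx
  have hxa : AnalyticAt ℂ x (q.1, r q) := analyticAt_fst.comp (analyticAt_snd.comp hγ)
  have E0 : ∀ᶠ y in 𝓝 ((q.1, r q) : E2), 𝒴.Ok (γ y) ∧ AnalyticAt ℂ s (γ y) ∧
      𝒴.LD 1 s B (γ y) = 0 ∧ 𝒴.dT r (γ y) = s (γ y) * 𝒴.dX r (γ y) := by
    filter_upwards [hT.eventually h, hc, hT.eventually (hB.continuousAt.eventually_ne h0)]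
      with y e1 e2 e3
    obtain ⟨a1, a2, a3, a4⟩ := e1 e2.1
    exact ⟨a1, a2, a3, a4 e3⟩
  have E1 : ∀ᶠ y in 𝓝 ((q.1, r q) : E2), dw x y * 𝒴.dX r (γ y) = 1 ∧
      du x y = -(deriv id y.1 * s (γ y)) := by
    filter_upwards [E0, hγ.eventually_analyticAt, hT.eventually hr.eventually_analyticAt,
      hc.eventually_nhds] with y e0 e1 e2 e3
    obtain ⟨a1, a2⟩ := Pl.par_deriv e0.1 e1 e2 e3
    refine ⟨a1, ?_⟩
    rw [deriv_id]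
    rw [e0.2.2.2] at a2
    linear_combination dw x y * a2 - (s (γ y) + du x y) * a1
  have E2' : ∀ᶠ y in 𝓝 ((q.1, r q) : E2), du (fun y => B (γ y) * dw x y ^ 1) y = 0 := by
    filter_upwards [E0, hγ.eventually_analyticAt, hT.eventually hB.eventually_analyticAt,
      hc.eventually_nhds, E1.eventually_nhds] with y e0 e1 e2 e3 e4
    rw [Pl.str 1 e0.1 e1 (τ := id) analyticAt_id (e3.mono fun y' e => ⟨e.1, e.2.1⟩) e2 e0.2.1 hx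
      (e4.mono fun y' e => e.2), e0.2.2.1, mul_zero, zero_mul]
  have hf : AnalyticAt ℂ (fun y => B (γ y) * dw x y ^ 1) (q.1, r q) :=
    (AnalyticAt.comp (by rwa [hq]) hγ).mul ((an_dw hxa).pow 1)
  have E3 := eq_of_du hf E2'
  refine ⟨fun v => B (γ (q.1, v)) * dw x (q.1, v) ^ 1, r q, ?_⟩
  have hl : Tendsto (fun t : ℂ => ((t, r q) : E2)) (𝓝 q.1) (𝓝 (q.1, r q)) :=
    (continuous_id.prodMk continuous_const).continuousAt.tendsto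
  filter_upwards [hl.eventually hγ.eventually_analyticAt, hl.eventually hc.eventually_nhds,
    hl.eventually E1.eventually_nhds, hl.eventually E3.eventually_nhds] with t e1 e2 e3 e4
  refine ⟨fun v => γ (t, v), Pl.par_fb (y := (t, r q)) e1 (e2.mono fun y' e => ⟨e.1, e.2.1⟩)
    (left_ne_zero_of_mul_eq_one e3.self_of_nhds.1), ?_⟩
  have hv : Tendsto (fun v : ℂ => ((t, v) : E2)) (𝓝[≠] (r q)) (𝓝 (t, r q)) :=
    (continuous_const.prodMk continuous_id).continuousAt.tendsto.mono_left nhdsWithin_le_nhds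
  filter_upwards [hv.eventually e2, hv.eventually e3, hv.eventually e4] with v a1 a2 a3
  refine ⟨a1.2.2, Eq.trans ?_ a3⟩
  rw [div_eq_iff (right_ne_zero_of_mul_eq_one a2.1), pow_one, mul_assoc, a2.1, mul_one]

end Rel1P

open Rel1P

theorem sRel1 : SRel1 := by
  intro L 𝒴 g N m s z Θ hV hF a b
  have hφ : ∀ᶠ q in 𝒴.gen, ∀ i, AnalyticAt ℂ (𝒴.phs N i) q :=
    eventually_all.2 fun i => (Pl.rat_ph (N i)).1
  filter_upwards [Pl.gz_le hφ, Pl.gz_le hV.ld, Pl.gz_fst hF] with q h1 h2 h3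
  have hA : ∀ c, AnalyticAt ℂ (𝒴.cf N Θ c) q := fun c => an_cb (anV_vecMul h3.1 c) h1
  have hL : ∀ c, 𝒴.LD 1 s (𝒴.cf N Θ c) q = 0 := by
    intro c
    rw [Pl.cf, Pl.LD_cb 1 (anV_vecMul h3.1 c) fun i => (h1 i).differentiableAt]
    simp only [deriv_vecMul h3.1, h2, h3.2.2, vecMul_neg, ← vecMul_vecMul, Finset.sum_add_distrib,
      Pi.neg_apply, neg_mul, Finset.sum_neg_distrib, Finset.mul_sum]
    rw [Finset.sum_comm, neg_add_eq_zero]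
    refine Finset.sum_congr rfl fun i _ => ?_
    rw [vecMul, dotProduct, Finset.sum_mul]
    refine Finset.sum_congr rfl fun k _ => ?_
    rw [mul_assoc]
    rfl
  refine ⟨hA a, hL a, fun h0 => ?_⟩
  have e1 := hL a
  have e2 := hL b
  rw [Pl.dT_div (hA a).differentiableAt (hA b).differentiableAt h0,
    Pl.dX_div (hA a).differentiableAt (hA b).differentiableAt h0, ← mul_div_assoc]
  congr 1
  simp only [Pl.LD, Nat.cast_one, one_mul] at e1 e2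
  linear_combination 𝒴.cf N Θ b q * e1 - 𝒴.cf N Θ a q * e2

theorem sRelC (h1 : SRel1) (h2 : SIrr) : SRelC := by
  intro L 𝒴 Φ g N m s z Θ a b r hB hV hF hab hr
  have hP : ∀ᶠ q in 𝒴.gz z, (AnalyticAt ℂ (𝒴.cf N Θ a) q ∧ AnalyticAt ℂ (𝒴.cf N Θ b) q) ∧
      ∀ᶠ q' in 𝓝 q, 𝒴.On q' → 𝒴.Ok q' ∧ AnalyticAt ℂ s q' ∧ 𝒴.LD 1 s (𝒴.cf N Θ b) q' = 0 ∧
      (𝒴.cf N Θ b q' ≠ 0 → 𝒴.dT r q' = s q' * 𝒴.dX r q') := by
    have e1 := h1 L 𝒴 g N m s z Θ hV hF a b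
    have e2 := h1 L 𝒴 g N m s z Θ hV hF b b
    refine ((e1.and e2).mono fun q e => ⟨e.1.1, e.2.1⟩).and (Pl.gz_nhds ?_)
    filter_upwards [e1, e2, Pl.gz_le 𝒴.gen_ok, Pl.gz_le hV.rat.1] with q a1 a2 a3 a4
    exact ⟨a3, a4, a2.2.1, hr ▸ a1.2.2⟩
  have hI : ∀ᶠ t in cd, 𝒴.Irr t := mem_of_superset Φ.mem fun t h => Md.irr h2 (Φ.md t h)
  have hG := ((Pl.gz_fb hP).and hF).and (nhdsNE_le_cd z (hI.and hB.ind))
  obtain ⟨ε, hε, hU⟩ := Metric.mem_nhdsWithin_iff.1 hG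
  have hN : ∀ t ∈ Metric.ball z ε \ {z}, ∀ᶠ q in 𝒴.fb t, 𝒴.cf N Θ b q ≠ 0 ∧ 𝒴.dX r q ≠ 0 := by
    intro t ht
    obtain ⟨⟨-, a1, a2, -⟩, a3, a4, a5⟩ := hU ht
    rw [hr]
    refine Pl.Ind.dX_ne a4 a5 a3 (anV_vecMul a1 a) (anV_vecMul a1 b) fun c d e => hab c d ?_
    refine eq_zero_of_vecMul_eq_zero a2 ?_
    rw [add_vecMul, smul_vecMul, smul_vecMul]
    exact e
  have hR : ∀ H : ℂ[X][X], ∀ t ∈ Metric.ball z ε \ {z},
      𝒴.RatF t fun q => H.evalEval (r q) (𝒴.cf N Θ b q / 𝒴.dX r q) := by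
    intro H t ht
    obtain ⟨⟨-, a1, -, -⟩, a3, -, a5⟩ := hU ht
    have b1 : ∀ c, 𝒴.RatF t (𝒴.cf N Θ c) := fun c => Pl.ratF_cb (anV_vecMul a1 c) a5
    have b2 : 𝒴.RatF t r := hr ▸ (b1 a).div (b1 b) a3 ((hN t ht).mono fun _ e => e.1)
    exact b2.evalEval ((b1 b).div (b2.dX a3.1) a3 ((hN t ht).mono fun _ e => e.2)) H
  refine ⟨Metric.ball z ε \ {z}, sdiff_mem_nhdsWithin_compl (Metric.ball_mem_nhds z hε) _,
    fun H t ht t' ht' => ?_⟩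
  refine (MP_5d7cf0_gt.T.isPreconnected_punctured z ε).induction₂'
    (fun t t' => (∀ᶠ q in 𝒴.fb t, H.evalEval (r q) (𝒴.cf N Θ b q / 𝒴.dX r q) = 0) →
      ∀ᶠ q in 𝒴.fb t', H.evalEval (r q) (𝒴.cf N Θ b q / 𝒴.dX r q) = 0)
    (fun t₀ h₀ => ?_) (fun _ _ _ _ _ _ e1 e2 e => e2 (e1 e)) ht ht'
  have hne : {q | q.1 = t₀ ∧ 𝒴.On q ∧ _}.Nonempty := Set.nonempty_iff_ne_empty.2 fun e =>
    Pl.fb_uncountable ((hU h₀).1.1.and (hN t₀ h₀)) (e ▸ Set.countable_empty)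
  obtain ⟨q, rfl, b1, ⟨⟨b2, b3⟩, b4⟩, b5, b6⟩ := hne
  obtain ⟨f, v₀, hc⟩ := chart b4 b1 b3 (hr ▸ b2.div b3 b5) b5 b6
  have key : ∀ t ∈ Metric.ball z ε \ {z}, (∃ δ : ℂ → E3, Tendsto δ (𝓝[≠] v₀) (𝒴.fb t) ∧
      ∀ᶠ v in 𝓝[≠] v₀, r (δ v) = v ∧ 𝒴.cf N Θ b (δ v) / 𝒴.dX r (δ v) = f v) →
      ((∀ᶠ q in 𝒴.fb t, H.evalEval (r q) (𝒴.cf N Θ b q / 𝒴.dX r q) = 0) ↔
        ∀ᶠ v in 𝓝[≠] v₀, H.evalEval v (f v) = 0) := by
    rintro t ht ⟨δ, c1, c2⟩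
    refine ⟨fun e => ?_, fun e => ((hR H t ht).zero_or (hU ht).2.1).resolve_right fun e' => ?_⟩
    · filter_upwards [c1.eventually e, c2] with v d1 d2
      rwa [d2.1, d2.2] at d1
    · obtain ⟨v, d1, d2, d3⟩ := ((c1.eventually e').and (c2.and e)).exists
      rw [d2.1, d2.2] at d1
      exact d1 d3
  filter_upwards [mem_nhdsWithin_of_mem_nhds hc, self_mem_nhdsWithin] with t c1 c2
  have k1 := key _ h₀ hc.self_of_nhds
  have k2 := key t c2 c1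
  exact ⟨fun e => k2.2 (k1.1 e), fun e => k1.2 (k2.1 e)⟩

end Pool.Agent.P.MP_7ede32_ag.Hod
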