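import Pool.Agent.P.MP_7ede32_ag.Hod.StF
import Pool.Agent.P.MP_7ede32_ag.Hod.MT

/-!
A uniform bound near the zeros of a ratio of flat forms.
-/

open Set Filter Topology Polynomial Matrix

noncomputable section

namespace Pool.Agent.P.MP_7ede32_ag.Hod

open MP_5d7cf0_gt.T (RS zc loc An D Om D_congr)

namespace Rel2P

/-- the integral equation as a polynomial -/
def HH (R : ℂ[X]) (m : ℕ) (A : ℕ → ℂ[X]) : ℂ[X][X] :=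
  (C R * X) ^ m + C R * ∑ k ∈ Finset.range m, C (A k) * (C R * X) ^ k

theorem HH_iff (R : ℂ[X]) (m : ℕ) (A : ℕ → ℂ[X]) (ξ ψ : ℂ) :
    (HH R m A).evalEval ξ ψ = 0 ↔ CP R m A ξ (R.eval ξ * ψ) := by
  simp [HH, CP, evalEval_finsetSum, evalEval_C]

/-- the bound in the plane -/
theorem bound (h4 : SRb) {R : ℂ[X]} (hR : R.Separable) (h0 : R.eval 0 = 0) (m : ℕ)
    (A : ℕ → ℂ[X]) : ∃ δ : ℝ → ℝ, (∀ ε > 0, 0 < δ ε) ∧ ∀ ε > 0, ∀ ξ ψ : ℂ, ‖ξ‖ < δ ε →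
      (HH R m A).evalEval ξ ψ = 0 → ‖ξ‖ * ‖ψ‖ ≤ ε := by
  obtain ⟨c, hc, hs⟩ := simple_root hR h0
  have key : ∀ ε : ℝ, ∃ δ : ℝ, 0 < ε → 0 < δ ∧ ∀ ξ ψ : ℂ, ‖ξ‖ < δ →
      (HH R m A).evalEval ξ ψ = 0 → ‖ξ‖ * ‖ψ‖ ≤ ε := by
    intro ε
    by_cases hε : 0 < ε
    swap
    · exact ⟨0, fun h => absurd h hε⟩
    obtain ⟨δ, hδ, hb⟩ := Metric.eventually_nhds_iff.1
      (hs.and ((h4 R m A).1 0 h0 (ε / c) (div_pos hε hc)))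
    refine ⟨δ, fun _ => ⟨hδ, fun ξ ψ hξ hH => ?_⟩⟩
    obtain ⟨⟨-, h1⟩, h2⟩ := hb (y := ξ) (by simpa using hξ)
    have h3 := h2 _ ((HH_iff R m A ξ ψ).1 hH)
    rw [sub_zero] at h1
    rw [norm_mul, le_div_iff₀ hc] at h3
    nlinarith [norm_nonneg ψ]
  choose δ hδ using key
  exact ⟨δ, fun ε hε => (hδ ε hε).1, fun ε hε => (hδ ε hε).2⟩

variable {L : PeriodPair} {𝒴 : Pl L} {g : ℕ} {N : Fin g → (KK L)[X][X]} {Θ : MF g} {t : ℂ}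

theorem anV (h : AnM Θ t) (c : Fin g → ℂ) : AnV (fun t => c ᵥ* Θ t) t := fun j => by
  simp only [vecMul, dotProduct]
  exact Finset.analyticAt_fun_sum _ fun i _ => analyticAt_const.mul (h i j)

theorem an_cf {q : E3} (hq : 𝒴.Ok q) (h : AnM Θ q.1) (hN : ∀ i, Rg2 (N i) q.1) (c : Fin g → ℂ) :
    AnalyticAt ℂ (𝒴.cf N Θ c) q := by
  unfold Pl.cf cb
  exact Finset.analyticAt_fun_sum _ fun i _ =>
    ((anV h c i).comp analyticAt_fst).mul (Pl.anO_ph (hN i) q hq rfl)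

theorem indep (h : (Θ t).det ≠ 0) {a b : Fin g → ℂ}
    (hab : ∀ c d : ℂ, c • a + d • b = 0 → c = 0 ∧ d = 0) (c d : ℂ)
    (e : c • (a ᵥ* Θ t) + d • (b ᵥ* Θ t) = 0) : c = 0 ∧ d = 0 := by
  refine hab c d (Matrix.eq_zero_of_vecMul_eq_zero h ?_)
  rw [add_vecMul, smul_vecMul, smul_vecMul, e]

/-- the relation on one fibre -/
theorem one (h2 : SXCE) (h3 : SChr) (μ : Md 𝒴 t) {w : Fin g → μ.Y → ℂ} (hw : μ.IsB N w)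
    (hΘ : AnM Θ t) (hd : (Θ t).det ≠ 0) {a b : Fin g → ℂ}
    (hab : ∀ c d : ℂ, c • a + d • b = 0 → c = 0 ∧ d = 0) :
    ∃ (R : ℂ[X]) (m : ℕ) (A : ℕ → ℂ[X]), R.Separable ∧ R.eval 0 = 0 ∧ ∀ᶠ q in 𝒴.fb t,
      (HH R m A).evalEval (𝒴.cf N Θ a q / 𝒴.cf N Θ b q)
        (𝒴.cf N Θ b q / 𝒴.dX (fun q => 𝒴.cf N Θ a q / 𝒴.cf N Θ b q) q) = 0 := by
  set W : (Fin g → ℂ) → μ.Y → ℂ := fun c => ∑ i, (c ᵥ* Θ t) i • w i with hW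
  have hO : ∀ c, W c ∈ Om μ.Y := fun c =>
    Submodule.sum_mem _ fun i _ => Submodule.smul_mem _ _ (hw.1 i).2.1
  have hv : ∀ c, ∀ p ∉ μ.M.Sg, W c p = 𝒴.cf N Θ c (μ.j p) * D μ.M.x p := by
    intro c p hp
    simp only [hW, Finset.sum_apply, Pi.smul_apply, smul_eq_mul, Pl.cf, cb, Finset.sum_mul]
    refine Finset.sum_congr rfl fun i _ => ?_
    rw [(hw.1 i).2.2 p hp, Md.fm, mul_assoc]
    rfl
  have hi : ∀ c d : ℂ, c • W a + d • W b = 0 → c = 0 ∧ d = 0 := by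
    intro c d e
    refine indep hd hab c d (funext fun i => ?_)
    refine Fintype.linearIndependent_iff.1 hw.2.1 (c • (a ᵥ* Θ t) + d • (b ᵥ* Θ t)) ?_ i
    rw [← e]
    simp only [hW, Finset.smul_sum, ← Finset.sum_add_distrib, Pi.add_apply, Pi.smul_apply,
      smul_eq_mul, add_smul, mul_smul]
  obtain ⟨C, hx, h0, hne⟩ := h2 μ.Y (W a) (hO a) (W b) (hO b) hi
  obtain ⟨ξ₀, hξ₀⟩ : ∃ ξ₀, C.R.eval ξ₀ ≠ 0 := by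
    by_contra hc
    push Not at hc
    exact C.R_ne (Polynomial.funext (by simpa using hc))
  obtain ⟨A, -, hA⟩ := h3 μ.Y C (W b) (hO b) ξ₀ hξ₀
  refine ⟨C.R, (C.Φ ξ₀).ncard, A, C.sep, h0, μ.cofinite_iff.1 ?_⟩
  have hxj : ∀ p ∉ μ.M.Sg, C.x p = 𝒴.cf N Θ a (μ.j p) / 𝒴.cf N Θ b (μ.j p) := by
    intro p hp
    rw [hx]
    simp only [hv a p hp, hv b p hp]
    exact mul_div_mul_right _ _ (μ.M.reg p hp).2.1
  filter_upwards [C.off, μ.M.off] with p hp hp'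
  have hb : 𝒴.cf N Θ b (μ.j p) ≠ 0 := fun h => hne p hp (by rw [hv b p hp', h, zero_mul])
  have hN : ∀ i, Rg2 (N i) (μ.j p).1 := fun i => (hw.1 i).1
  have hr : AnalyticAt ℂ (fun q => 𝒴.cf N Θ a q / 𝒴.cf N Θ b q) (μ.j p) :=
    (an_cf (Md.ok_j hp') hΘ hN a).div (an_cf (Md.ok_j hp') hΘ hN b) hb
  have hD : D C.x p = 𝒴.dX (fun q => 𝒴.cf N Θ a q / 𝒴.cf N Θ b q) (μ.j p) * D μ.M.x p := by
    rw [← (Md.an_comp hp' hr).2]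
    exact D_congr ((μ.M.off_nhds hp').mono hxj)
  have := hA p hp
  rw [hv b p hp', hD, mul_div_mul_right _ _ (μ.M.reg p hp').2.1, hxj p hp'] at this
  exact (HH_iff _ _ _ _ _).2 this

end Rel2P

open Rel2P in
theorem sRel2 (h1 : SRelC) (h2 : SXCE) (h3 : SChr) (h4 : SRb) (h5 : SIrr) : SRel2 := by
  intro L 𝒴 Φ g N m s z Θ a b hB hV hF hab
  obtain ⟨U, hU, hC⟩ := h1 L 𝒴 Φ g N m s z Θ a b _ hB hV hF hab rfl
  have hG : ∀ᶠ t in 𝓝[≠] z, t ∈ U ∧ (AnM Θ t ∧ (Θ t).det ≠ 0) ∧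
      ∃ (μ : Md 𝒴 t) (w : Fin g → μ.Y → ℂ), μ.IsB N w := by
    filter_upwards [hU, hF, nhdsNE_le_cd z hB, nhdsNE_le_cd z Φ.mem] with t h1 h2 h3 h4
    exact ⟨h1, ⟨h2.1, h2.2.1⟩, Φ.md t h4, h3 h4⟩
  obtain ⟨t₀, ht₀, ⟨hΘ₀, hd₀⟩, μ₀, w₀, hw₀⟩ := hG.exists
  obtain ⟨R, n, A, hR, h0, hH⟩ := one h2 h3 μ₀ hw₀ hΘ₀ hd₀ hab
  obtain ⟨δ, hδ, hb⟩ := bound h4 hR h0 n A
  refine ⟨δ, hδ, ?_⟩
  filter_upwards [Pl.gz_fst hG, Pl.gz_le 𝒴.gen_ok] with q hq hok hne ε hε hlt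
  obtain ⟨hqU, ⟨hΘ, hd⟩, μ, w, hw⟩ := hq
  have hN : ∀ i, Rg2 (N i) q.1 := fun i => (hw.1 i).1
  have hA := an_cf hok hΘ hN a
  have hr : AnalyticAt ℂ (fun q => 𝒴.cf N Θ a q / 𝒴.cf N Θ b q) q :=
    hA.div (an_cf hok hΘ hN b) hne
  have hf := hok.fb_closure ((hC _ t₀ ht₀ q.1 hqU hH).and
    (hw.ind.dX_ne hw.1.ratF (μ.irr h5) (anV hΘ a) (anV hΘ b) (indep hd hab)))
  have hlt' := hr.continuousAt.norm.eventually (gt_mem_nhds hlt)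
  refine le_of_tendsto_of_tendsto_of_frequently hA.continuousAt.norm
    ((hok.an_dX hr).continuousAt.norm.const_mul ε) ((hf.and_eventually hlt').mono ?_)
  rintro q' ⟨⟨-, -, e, e1, e2⟩, e3⟩
  have h := hb ε hε _ _ e3 e
  change 𝒴.cf N Θ b q' ≠ 0 at e1
  change 𝒴.dX (fun q => 𝒴.cf N Θ a q / 𝒴.cf N Θ b q) q' ≠ 0 at e2
  rw [← norm_mul, div_mul_div_cancel₀ e1, norm_div, div_le_iff₀ (norm_pos_iff.2 e2)] at h
  exact h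

end Pool.Agent.P.MP_7ede32_ag.Hod
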