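import Pool.Agent.P.MP_7ede32_ag.Hod.StR
import Pool.Agent.P.MP_5d7cf0_gt.T.St

/-!
Two points with the same canonical image are exchanged by the hyperelliptic involution.
-/

open Set Filter Topology

noncomputable section

namespace Pool.Agent.P.MP_7ede32_ag.Hod

open MP_5d7cf0_gt.T (RS zc loc An D Hf Om SP Two an_zc_self an_const D_mul D_sub D_zc_self D_const
  map_zc_ne D_congr D_comp source_mem D_zc_ne eventually_notMem)

namespace SepP

variable {Y : Type} [TopologicalSpace Y] [ChartedSpace ℂ Y] [RS Y] {u f φ r : Y → ℂ} {p : Y}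

/-- the inverse of a function with a simple pole, with its derivative -/
theorem inv_of {a : ℂ} (ha : a ≠ 0) (hu : An u p)
    (h : ∀ᶠ y in 𝓝[≠] p, f y = a / (zc p y - zc p p) + u y) :
    ∃ φ, An φ p ∧ φ p = 0 ∧ D φ p = a⁻¹ ∧ ∀ᶠ y in 𝓝[≠] p, φ y * f y = 1 := by
  have z : An (fun y => zc p y - zc p p) p := an_zc_self.sub (an_const _)
  have d : An (fun y => a + (zc p y - zc p p) * u y) p := (an_const a).add (z.mul hu)
  have d0 : a + (zc p p - zc p p) * u p ≠ 0 := by simpa using ha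
  refine ⟨fun y => (zc p y - zc p p) * (a + (zc p y - zc p p) * u y)⁻¹, z.mul (d.inv d0), by simp,
    ?_, ?_⟩
  · rw [D_mul z (d.inv d0), D_sub an_zc_self (an_const _), D_zc_self, D_const]
    simp
  · have t : Tendsto (zc p) (𝓝[≠] p) (𝓝[≠] (zc p p)) := (map_zc_ne (mem_chart_source ℂ p)).le
    filter_upwards [h, t.eventually self_mem_nhdsWithin,
      mem_nhdsWithin_of_mem_nhds (d.continuousAt.eventually_ne d0)] with y h1 h2 h3
    have h4 : zc p y - zc p p ≠ 0 := sub_ne_zero.2 h2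
    have h5 : a + (zc p y - zc p p) * u y ≠ 0 := h3
    rw [h1]
    field_simp

/-- a function read in a local coordinate -/
theorem read (hφ : An φ p) (h0 : φ p = 0) (hD : D φ p ≠ 0) (hr : An r p) :
    ∃ G : ℂ → ℂ, AnalyticAt ℂ G 0 ∧ D r p = deriv G 0 * D φ p ∧
      ∀ Q : Y → Prop, (∀ᶠ y in 𝓝[≠] p, Q y) →
        ∀ᶠ ζ in 𝓝[≠] (0 : ℂ), ∃ y, Q y ∧ φ y = ζ ∧ G ζ = r y := by
  obtain ⟨e, he, hφe, h⟩ := hφ.exists_homeo hD
  have hG : AnalyticAt ℂ (r ∘ e.symm) (φ p) := (h p he).2.2 r hr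
  have e1 : r =ᶠ[𝓝 p] fun y => (r ∘ e.symm) (φ y) := by
    filter_upwards [e.open_source.mem_nhds he] with y hy
    rw [← hφe, Function.comp, e.left_inv hy]
  refine ⟨r ∘ e.symm, h0 ▸ hG, ?_, fun Q hQ => ?_⟩
  · rw [D_congr e1, D_comp hφ hG.differentiableAt, h0]
  · rw [← h0, ← hφ.map_ne hD, eventually_map]
    filter_upwards [hQ, mem_nhdsWithin_of_mem_nhds e1] with y h1 h2
    exact ⟨y, h1, rfl, h2.symm⟩

theorem an_quo {a b : Y → ℂ} (ha : Hf a p) (hb : Hf b p) (h0 : b p ≠ 0) :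
    An (fun z => a z / b z) p := by
  refine (An.div ha hb (by simpa [D_zc_self] using h0)).congr ?_
  filter_upwards [source_mem (mem_chart_source ℂ p)] with z hz
  exact div_div_div_cancel_right₀ (D_zc_ne hz) _ _

end SepP

open SepP in
theorem sSep (h1 : MP_5d7cf0_gt.T.S_ML) (h2 : MP_5d7cf0_gt.T.S_Bpf) (h3 : MP_5d7cf0_gt.T.S_Two)
    (h4 : MP_5d7cf0_gt.T.S_Iota) (h5 : MP_5d7cf0_gt.T.S_Odd) (_h6 : MP_5d7cf0_gt.T.S_Deg) :
    SSep := by
  classical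
  intro Y _ _ _ p p' l hpp hw hl
  have l0 : l ≠ 0 := by
    obtain ⟨w, hw, h0⟩ := h2 Y hw p'
    rw [hl w hw] at h0
    exact left_ne_zero_of_mul h0
  refine ⟨l0, fun w₁ hw₁ w₂ hw₂ h0 => ?_⟩
  obtain ⟨f, k1, k2⟩ := h1 Y {p, p'} (fun y => if y = p then -l else 1) fun v hv => by
    rw [Finset.sum_pair hpp, if_pos rfl, if_neg hpp.symm, hl v hv]
    ring
  obtain ⟨u, hu, hf⟩ := k2 p (by simp)
  obtain ⟨u', hu', hf'⟩ := k2 p' (by simp)
  rw [if_pos rfl] at hf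
  rw [if_neg hpp.symm] at hf'
  obtain ⟨φ, a1, a2, a3, a4⟩ := inv_of (neg_ne_zero.2 l0) hu hf
  obtain ⟨φ', b1, b2, b3, b4⟩ := inv_of one_ne_zero hu' hf'
  have a5 : D φ p ≠ 0 := by rw [a3]; exact inv_ne_zero (neg_ne_zero.2 l0)
  have b5 : D φ' p' ≠ 0 := by rw [b3]; exact inv_ne_zero one_ne_zero
  obtain ⟨R, ι, ht⟩ := h3 Y p p' f hpp (fun y a b => k1 y (by simp [a, b])) ⟨φ, a1, a2, a5, a4⟩
    ⟨φ', b1, b2, b5, b4⟩
  have hι := (h4 Y f _ R ι ht).2.2.2.1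
  have inv : ∀ y, y ∉ ({p, p'} : Finset Y) → y ∉ R → w₁ (ι y) / w₂ (ι y) = w₁ y / w₂ y := by
    intro y hy hR
    have d1 := ht.der y hy hR
    have d2 := ht.der (ι y) (ht.mem y hy) ((hι y hy).2.2 hR).1
    rw [← div_div_div_cancel_right₀ d2, h5 Y f _ R ι ht w₁ hw₁ y hy hR,
      h5 Y f _ R ι ht w₂ hw₂ y hy hR, neg_div_neg_eq, div_div_div_cancel_right₀ d1]
  have h0' : w₂ p' ≠ 0 := by rw [hl w₂ hw₂]; exact mul_ne_zero l0 h0
  obtain ⟨G, c1, c2, c3⟩ := read a1 a2 a5 (an_quo (hw₁ p) (hw₂ p) h0)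
  obtain ⟨G', d1, d2, d3⟩ := read b1 b2 b5 (an_quo (hw₁ p') (hw₂ p') h0')
  have n1 := fun q : Y => eventually_notMem (({p, p'} : Finset Y).finite_toSet) q
  have n2 := fun q : Y => eventually_notMem R.finite_toSet q
  have e1 : G =ᶠ[𝓝[≠] 0] G' := by
    filter_upwards [c3 _ (a4.and ((n1 p).and (n2 p))), d3 _ (b4.and (n1 p'))] with ζ
      ⟨y, ⟨y1, y2, y3⟩, y4, y5⟩ ⟨z, ⟨z1, z2⟩, z4, z5⟩
    have hζ : ζ ≠ 0 := y4 ▸ left_ne_zero_of_mul_eq_one y1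
    have hfz : f z = f y := by
      rw [y4] at y1
      rw [z4] at z1
      exact mul_left_cancel₀ hζ (z1.trans y1.symm)
    rw [y5, z5]
    rcases (ht.fib y y2 z z2).1 hfz with h | h
    · rw [h]
    · rw [h]
      exact (inv y y2 y3).symm
  have e2 : G =ᶠ[𝓝 0] G' := (c1.frequently_eq_iff_eventually_eq d1).1 e1.frequently
  rw [d2, c2, a3, b3, e2.deriv_eq]
  field_simp

end Pool.Agent.P.MP_7ede32_ag.Hod
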