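import Pool.Agent.P.MP_7ede32_ag.Hod.StB

/-!
Normalisation of the sigma function.
-/

open Set Filter Topology ComplexConjugate Complex

namespace Pool.Agent.P.MP_7ede32_ag.Hod

namespace SigP

/-- the transformation law for the period `w` -/
def Per (σ : ℂ → ℂ) (β : ℝ) (w : ℂ) : Prop :=
  ∃ c : ℂ, ‖c‖ = Real.exp (β * ‖w‖ ^ 2) ∧ ∀ z, σ (z + w) = c * exp (2 * β * conj w * z) * σ z

theorem nsq (w : ℂ) : ‖w‖ ^ 2 = w.re * w.re + w.im * w.im := by
  rw [Complex.sq_norm, normSq_apply]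

/-- the periods with the transformation law form a group -/
def grp (σ : ℂ → ℂ) (β : ℝ) : AddSubgroup ℂ where
  carrier := {w | Per σ β w}
  zero_mem' := ⟨1, by simp, fun z => by simp⟩
  add_mem' := by
    rintro w w' ⟨c, h1, h2⟩ ⟨c', h3, h4⟩
    refine ⟨c * c' * exp (2 * β * conj w' * w), ?_, fun z => ?_⟩
    · rw [norm_mul, norm_mul, h1, h3, norm_exp, ← Real.exp_add, ← Real.exp_add]
      congr 1
      simp only [nsq]
      simp
      ring
    · rw [← add_assoc, h4, h2, map_add,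
        show 2 * β * conj w' * (z + w) = 2 * β * conj w' * w + 2 * β * conj w' * z by ring,
        show 2 * β * (conj w + conj w') * z = 2 * β * conj w * z + 2 * β * conj w' * z by ring,
        Complex.exp_add, Complex.exp_add]
      ring
  neg_mem' := by
    rintro w ⟨c, h1, h2⟩
    have hc : c ≠ 0 := norm_pos_iff.mp (h1 ▸ Real.exp_pos _)
    refine ⟨c⁻¹ * exp (2 * β * conj w * w), ?_, fun z => ?_⟩
    · rw [norm_mul, norm_inv, h1, norm_exp, ← Real.exp_neg, ← Real.exp_add]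
      congr 1
      simp only [nsq]
      simp
      ring
    · have h3 := h2 (z + -w)
      rw [neg_add_cancel_right] at h3
      rw [h3, map_neg]
      have h4 : exp (2 * β * conj w * w) * exp (2 * β * -conj w * z) *
          exp (2 * β * conj w * (z + -w)) = 1 := by
        rw [← Complex.exp_add, ← Complex.exp_add, ← Complex.exp_zero]
        congr 1
        ring
      have h5 := inv_mul_cancel₀ hc
      linear_combination (-σ (z + -w) * (c⁻¹ * c)) * h4 - σ (z + -w) * h5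

theorem det_ne (L : PeriodPair) : L.ω₁.re * L.ω₂.im - L.ω₁.im * L.ω₂.re ≠ 0 := fun h => by
  have h1 := LinearIndependent.pair_iff.1 L.indep L.ω₂.im (-L.ω₁.im) (by
    apply Complex.ext <;> simp <;> linarith)
  have h2 := LinearIndependent.pair_iff.1 L.indep L.ω₂.re (-L.ω₁.re) (by
    apply Complex.ext <;> simp <;> linarith)
  have h3 : L.ω₂ = 0 := Complex.ext h2.1 h1.1
  exact one_ne_zero (LinearIndependent.pair_iff.1 L.indep 0 1 (by simp [h3])).2

theorem per_of {σ : ℂ → ℂ} {w a b α γ : ℂ} {β : ℝ}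
    (h : ∀ z, σ (z + w) = exp (a * z + b) * σ z) (ha : a = 2 * α * w + 2 * β * conj w)
    (hγ : (γ * w).re = (b - α * w ^ 2).re - β * ‖w‖ ^ 2) :
    Per (fun z => σ z * exp (-α * z ^ 2 - γ * z)) β w := by
  refine ⟨exp (b - α * w ^ 2 - γ * w), ?_, fun z => ?_⟩
  · rw [norm_exp, sub_re, hγ]
    congr 1
    ring
  · have : exp (a * z + b) * exp (-α * (z + w) ^ 2 - γ * (z + w)) =
        exp (b - α * w ^ 2 - γ * w) * exp (2 * β * conj w * z) * exp (-α * z ^ 2 - γ * z) := by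
      rw [← Complex.exp_add, ← Complex.exp_add, ← Complex.exp_add, ha]
      congr 1
      ring
    simp only [h]
    linear_combination σ z * this

theorem pos_of (L : PeriodPair) {σ : ℂ → ℂ} {β : ℝ} (hd : Differentiable ℂ σ)
    (h0 : ∀ z, σ z = 0 ↔ z ∈ L.lattice) (hp : ∀ w ∈ L.lattice, Per σ β w) : 0 < β := by
  by_contra hβ
  have hK := IsZLattice.isCompact_range_of_periodic L.lattice
    (fun z => ‖σ z‖ * Real.exp (-β * ‖z‖ ^ 2)) (by have := hd.continuous; fun_prop)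
    fun z w hw => by
      obtain ⟨c, h1, h2⟩ := hp w hw
      rw [h2, norm_mul, norm_mul, h1, norm_exp, ← Real.exp_add, mul_comm (Real.exp _), mul_assoc,
        ← Real.exp_add]
      congr 2
      simp only [nsq]
      simp
      ring
  obtain ⟨C, hC⟩ := hK.bddAbove
  have hb : Bornology.IsBounded (range σ) := by
    refine isBounded_iff_forall_norm_le.mpr ⟨C, ?_⟩
    rintro _ ⟨z, rfl⟩
    refine le_trans (le_mul_of_one_le_right (norm_nonneg _) (Real.one_le_exp ?_)) (hC ⟨z, rfl⟩)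
    exact mul_nonneg (by linarith) (sq_nonneg _)
  exact L.ω₁_div_two_notMem_lattice ((h0 _).mp
    ((hd.apply_eq_apply_of_bounded hb _ 0).trans ((h0 0).mpr (zero_mem _))))

end SigP

open SigP in
theorem sSig (h : SSig0) : SSig := by
  intro L
  obtain ⟨σ, hd, h0, hs, hp⟩ := h L
  obtain ⟨a₁, b₁, h1⟩ := hp _ L.ω₁_mem_lattice
  obtain ⟨a₂, b₂, h2⟩ := hp _ L.ω₂_mem_lattice
  have hdet := det_ne L
  have hne : σ (L.ω₁ / 2) ≠ 0 := fun e => L.ω₁_div_two_notMem_lattice ((h0 _).mp e)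
  have hω : L.ω₁ ≠ 0 := fun e => hdet (by simp [e])
  obtain ⟨n, hn⟩ : ∃ n : ℤ, a₁ * L.ω₂ - a₂ * L.ω₁ = n * (2 * Real.pi * I) := by
    have e1 := h2 (L.ω₁ / 2 + L.ω₁)
    rw [add_right_comm, h1, h1, h2, ← mul_assoc, ← mul_assoc, ← Complex.exp_add,
      ← Complex.exp_add] at e1
    obtain ⟨n, hn⟩ := Complex.exp_eq_exp_iff_exists_int.mp (mul_right_cancel₀ hne e1)
    exact ⟨n, by linear_combination hn⟩
  set d := L.ω₁.re * L.ω₂.im - L.ω₁.im * L.ω₂.re with hdd
  set β : ℝ := n * Real.pi / (2 * d) with hβ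
  set α : ℂ := (a₁ - 2 * β * conj L.ω₁) / (2 * L.ω₁) with hα
  have ha₁ : a₁ = 2 * α * L.ω₁ + 2 * β * conj L.ω₁ := by
    rw [hα]
    field_simp
    ring
  have ha₂ : a₂ = 2 * α * L.ω₂ + 2 * β * conj L.ω₂ := by
    have e1 : conj L.ω₁ * L.ω₂ - conj L.ω₂ * L.ω₁ = 2 * d * I := by
      apply Complex.ext <;> simp [hdd] <;> ring
    have e2 : (β : ℂ) * (2 * d) = n * Real.pi := by
      have : β * (2 * d) = n * Real.pi := by
        rw [hβ]
        field_simp
      exact_mod_cast this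
    refine mul_right_cancel₀ hω ?_
    linear_combination L.ω₂ * ha₁ - hn + 2 * β * e1 + 2 * I * e2
  set r₁ := (b₁ - α * L.ω₁ ^ 2).re - β * ‖L.ω₁‖ ^ 2
  set r₂ := (b₂ - α * L.ω₂ ^ 2).re - β * ‖L.ω₂‖ ^ 2
  set γ : ℂ := ⟨(r₁ * L.ω₂.im - r₂ * L.ω₁.im) / d, (r₁ * L.ω₂.re - r₂ * L.ω₁.re) / d⟩ with hγ
  have p₁ := per_of (γ := γ) h1 ha₁ (by
    change _ = r₁
    rw [mul_re, hγ]
    field_simp
    ring)
  have p₂ := per_of (γ := γ) h2 ha₂ (by
    change _ = r₂
    rw [mul_re, hγ]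
    field_simp
    ring)
  have hE : Differentiable ℂ fun z => exp (-α * z ^ 2 - γ * z) := by fun_prop
  have hall : ∀ w ∈ L.lattice, Per (fun z => σ z * exp (-α * z ^ 2 - γ * z)) β w := fun w hw => by
    obtain ⟨m, k, rfl⟩ := PeriodPair.mem_lattice.mp hw
    rw [← zsmul_eq_mul, ← zsmul_eq_mul]
    set G := grp (fun z => σ z * exp (-α * z ^ 2 - γ * z)) β
    exact G.add_mem (G.zsmul_mem p₁ m) (G.zsmul_mem p₂ k)
  have hz : ∀ z, σ z * exp (-α * z ^ 2 - γ * z) = 0 ↔ z ∈ L.lattice := fun z => by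
    rw [mul_eq_zero, h0, or_iff_left (Complex.exp_ne_zero _)]
  refine ⟨_, β, hd.mul hE, hz, fun z hz' => ?_, pos_of L (hd.mul hE) hz hall, hall⟩
  rw [deriv_mul (hd z) (hE z), (h0 z).mpr hz', zero_mul, add_zero]
  exact mul_ne_zero (hs z hz') (Complex.exp_ne_zero _)

end Pool.Agent.P.MP_7ede32_ag.Hod
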