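import Pool.Agent.P.MP_7ede32_ag.Hod.StB

/-!
The Weierstrass sigma function as an infinite product.
-/

open Set Filter Topology Metric Complex

namespace Pool.Agent.P.MP_7ede32_ag.Hod

namespace Sig0P

/-- the primary factor of genus two -/
noncomputable def E (u : ℂ) : ℂ := (1 - u) * exp (u + u ^ 2 / 2)

theorem hasDerivAt_E (u : ℂ) : HasDerivAt E (-u ^ 2 * exp (u + u ^ 2 / 2)) u := by
  have h1 : HasDerivAt (fun u : ℂ => u + u ^ 2 / 2) (1 + u) u := by
    simpa using (hasDerivAt_id u).fun_add ((hasDerivAt_pow 2 u).div_const 2)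
  have h2 := ((hasDerivAt_id u).const_sub 1).fun_mul h1.cexp
  refine h2.congr_deriv ?_
  simp only [id]
  ring

theorem E_zero : E 0 = 1 := by simp [E]

theorem E_bound {u : ℂ} (h : ‖u‖ ≤ 1) : ‖E u - 1‖ ≤ Real.exp 2 * ‖u‖ ^ 3 := by
  have := (convex_closedBall (0 : ℂ) ‖u‖).norm_image_sub_le_of_norm_hasDerivWithin_le
    (f := E) (C := Real.exp 2 * ‖u‖ ^ 2) (fun v _ => (hasDerivAt_E v).hasDerivWithinAt)
    (fun v hv => by
      rw [mem_closedBall_zero_iff] at hv
      have h1 : ‖v + v ^ 2 / 2‖ ≤ 2 := by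
        refine (norm_add_le _ _).trans ?_
        rw [norm_div, norm_pow, Complex.norm_ofNat]
        nlinarith [norm_nonneg v]
      rw [norm_mul, norm_neg, norm_pow, mul_comm]
      gcongr
      exact (norm_exp_le_exp_norm _).trans (Real.exp_le_exp.mpr h1))
    (mem_closedBall_self (norm_nonneg u)) (mem_closedBall_zero_iff.mpr le_rfl)
  rw [E_zero, sub_zero] at this
  exact this.trans_eq (by ring)

variable (L : PeriodPair)

theorem far (r : ℝ) : ∀ᶠ l : L.lattice in cofinite, r < ‖l‖ := by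
  refine (isCompact_iff_finite.mp (isCompact_closedBall (0 : L.lattice) r)).subset fun l hl => ?_
  simpa using hl

theorem summ (r : ℝ) : Summable fun l : L.lattice => Real.exp 2 * r ^ 3 * ‖l‖ ^ (-3 : ℤ) :=
  (ZLattice.summable_norm_zpow _ _ (by simp)).mul_left _

theorem bound {r : ℝ} : ∀ᶠ l : L.lattice in cofinite, ∀ z : ℂ, ‖z‖ ≤ r →
    ‖E (z / l) - 1‖ ≤ Real.exp 2 * r ^ 3 * ‖l‖ ^ (-3 : ℤ) := by
  filter_upwards [far L r] with l hl z hz
  have h0 : 0 < ‖(l : ℂ)‖ := ((norm_nonneg z).trans hz).trans_lt hl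
  have h1 : ‖z / l‖ ≤ 1 := by
    rw [norm_div, div_le_one h0]
    exact hz.trans hl.le
  refine (E_bound h1).trans ?_
  rw [norm_div, div_pow, mul_assoc, zpow_neg, div_eq_mul_inv]
  exact mul_le_mul_of_nonneg_left (mul_le_mul_of_nonneg_right
    (pow_le_pow_left₀ (norm_nonneg z) hz 3) (by positivity)) (Real.exp_pos 2).le

theorem diff_E (l : ℂ) : Differentiable ℂ fun z => E (z / l) := fun z =>
  (hasDerivAt_E _).differentiableAt.comp z (differentiableAt_id.div_const l)

/-- the product of the primary factors -/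
noncomputable def Pd (z : ℂ) : ℂ := ∏' l : L.lattice, E (z / l)

theorem tendsto_P : TendstoLocallyUniformlyOn
    (fun (s : Finset L.lattice) z => ∏ l ∈ s, E (z / l)) (Pd L) atTop univ := by
  refine hasProdLocallyUniformlyOn_of_forall_compact (f := fun (l : L.lattice) z => E (z / l))
    isOpen_univ fun K _ hK => ?_
  obtain ⟨r, hr⟩ := hK.isBounded.subset_closedBall 0
  have := (summ L r).hasProdUniformlyOn_one_add (f := fun (l : L.lattice) z => E (z / l) - 1) hK
    ((bound L).mono fun l hl z hz => hl z (mem_closedBall_zero_iff.mp (hr hz)))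
    fun l => ((diff_E l).continuous.sub continuous_const).continuousOn
  simp only [add_sub_cancel] at this
  exact this

theorem diff_fin (s : Finset L.lattice) : Differentiable ℂ fun z => ∏ l ∈ s, E (z / l) :=
  Differentiable.fun_finsetProd fun l _ => diff_E l

theorem diff_P : Differentiable ℂ (Pd L) :=
  differentiableOn_univ.mp ((tendsto_P L).differentiableOn
    (Eventually.of_forall fun s => (diff_fin L s).differentiableOn) isOpen_univ)

variable {L}

theorem one_sub_ne {z : ℂ} (hz : z ∉ L.lattice) (l : L.lattice) : 1 - z / l ≠ 0 := fun h => by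
  rw [sub_eq_zero, eq_comm] at h
  exact hz (eq_of_div_eq_one h ▸ l.2)

theorem E_ne {z : ℂ} (hz : z ∉ L.lattice) (l : L.lattice) : E (z / l) ≠ 0 :=
  mul_ne_zero (one_sub_ne hz l) (exp_ne_zero _)

theorem P_ne {z : ℂ} (hz : z ∉ L.lattice) : Pd L z ≠ 0 := by
  have := tprod_one_add_ne_zero_of_summable (f := fun l : L.lattice => E (z / l) - 1)
    (fun l => by simpa using E_ne hz l)
    ((summ L ‖z‖).of_norm_bounded_eventually ((bound L).mono fun l hl => by
      simpa using hl z le_rfl))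
  simp only [add_sub_cancel] at this
  exact this

theorem logDeriv_E {z : ℂ} (hz : z ∉ L.lattice) (l : L.lattice) :
    logDeriv (fun z => E (z / l)) z =
      if (l : ℂ) = 0 then 0 else (z - l)⁻¹ + (l : ℂ)⁻¹ + z / l ^ 2 := by
  have h := ((hasDerivAt_E (z / l)).comp z ((hasDerivAt_id z).div_const (l : ℂ))).deriv
  have h1 := one_sub_ne hz l
  have h2 := exp_ne_zero (z / l + (z / l) ^ 2 / 2)
  have h3 : z - l ≠ 0 := fun e => hz (sub_eq_zero.mp e ▸ l.2)
  have h4 : l - z ≠ 0 := fun e => hz (sub_eq_zero.mp e ▸ l.2)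
  rw [logDeriv_apply, show deriv (fun z => E (z / l)) z = _ from h, E]
  split_ifs with h0
  · simp [h0]
  · generalize exp (z / l + (z / l) ^ 2 / 2) = e at h2
    field_simp
    ring

theorem isOpen_U : IsOpen (L.lattice : Set ℂ)ᶜ := L.isClosed_lattice.isOpen_compl

theorem countable_lattice : (L.lattice : Set ℂ).Countable :=
  Set.countable_coe_iff.mp (L.latticeEquivProd.toEquiv.countable_iff.mpr inferInstance)

theorem hasDerivAt_fin (s : Finset L.lattice) {z : ℂ} (hz : z ∉ L.lattice) :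
    HasDerivAt (logDeriv fun z => ∏ l ∈ s, E (z / l))
      (-∑ l ∈ s, if (l : ℂ) = 0 then 0 else (1 / (z - l) ^ 2 - 1 / (l : ℂ) ^ 2)) z := by
  have h1 : ∀ l : L.lattice, HasDerivAt
      (fun z : ℂ => if (l : ℂ) = 0 then (0 : ℂ) else (z - l)⁻¹ + (l : ℂ)⁻¹ + z / l ^ 2)
      (-if (l : ℂ) = 0 then 0 else (1 / (z - l) ^ 2 - 1 / (l : ℂ) ^ 2)) z := fun l => by
    have h3 : z - l ≠ 0 := fun e => hz (sub_eq_zero.mp e ▸ l.2)
    split_ifs with h0
    · simpa using hasDerivAt_const z (0 : ℂ)
    · refine (((((hasDerivAt_id z).sub_const (l : ℂ)).fun_inv h3).add_const _).fun_add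
        ((hasDerivAt_id z).div_const _)).congr_deriv ?_
      simp only [id]
      ring
  rw [← Finset.sum_neg_distrib]
  refine (HasDerivAt.fun_sum fun l _ => h1 l).congr_of_eventuallyEq ?_
  filter_upwards [isOpen_U.mem_nhds hz] with w hw
  rw [logDeriv_prod (fun l _ => E_ne hw l) fun l _ => diff_E l w]
  exact Finset.sum_congr rfl fun l _ => logDeriv_E hw l

theorem hasDerivAt_P {z : ℂ} (hz : z ∉ L.lattice) :
    HasDerivAt (logDeriv (Pd L)) (-L.weierstrassPExcept 0 z) z := by
  have h0 := (tendsto_P L).deriv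
    (Eventually.of_forall fun s => (diff_fin L s).differentiableOn) isOpen_univ
  have h1 : TendstoLocallyUniformlyOn
      (fun s : Finset L.lattice => logDeriv fun z => ∏ l ∈ s, E (z / l)) (logDeriv (Pd L)) atTop
      (L.lattice : Set ℂ)ᶜ :=
    (h0.mono (subset_univ _)).div₀ ((tendsto_P L).mono (subset_univ _))
      (diff_P L).deriv.continuous.continuousOn (diff_P L).continuous.continuousOn
      fun w hw => P_ne hw
  have h2 : ∀ᶠ s : Finset L.lattice in atTop, DifferentiableOn ℂ
      (logDeriv fun z => ∏ l ∈ s, E (z / l)) (L.lattice : Set ℂ)ᶜ :=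
    Eventually.of_forall fun s w hw => (hasDerivAt_fin s hw).differentiableAt.differentiableWithinAt
  have h3 := (h1.deriv h2 isOpen_U).tendsto_at hz
  simp only [Function.comp_def, (hasDerivAt_fin _ hz).deriv] at h3
  rw [← tendsto_nhds_unique h3 (Tendsto.neg (L.hasSum_weierstrassPExcept 0 z))]
  exact ((h1.differentiableOn h2 isOpen_U).differentiableAt (isOpen_U.mem_nhds hz)).hasDerivAt

variable (L) in
/-- the sigma function -/
noncomputable def σ (z : ℂ) : ℂ := z * Pd L z

theorem diff_σ : Differentiable ℂ (σ L) := differentiable_id.mul (diff_P L)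

theorem σ_ne {z : ℂ} (hz : z ∉ L.lattice) : σ L z ≠ 0 :=
  mul_ne_zero (fun h => hz (h ▸ zero_mem _)) (P_ne hz)

theorem σ_zero {z : ℂ} (hz : z ∈ L.lattice) : σ L z = 0 := by
  by_cases h : z = 0
  · rw [σ, h, zero_mul]
  · rw [σ, Pd, tprod_of_exists_eq_zero ⟨⟨z, hz⟩, by simp [E, h]⟩, mul_zero]

theorem hasDerivAt_σ_zero : HasDerivAt (σ L) 1 0 := by
  refine ((hasDerivAt_id (0 : ℂ)).fun_mul (diff_P L 0).hasDerivAt).congr_deriv ?_
  simp [Pd, E_zero]

theorem hasDerivAt_σ {z : ℂ} (hz : z ∉ L.lattice) :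
    HasDerivAt (logDeriv (σ L)) (-L.weierstrassP z) z := by
  have h0 : ∀ w, w ∉ L.lattice → w ≠ 0 := fun w hw h => hw (h ▸ zero_mem _)
  refine (((hasDerivAt_inv (h0 z hz)).fun_add (hasDerivAt_P hz)).congr_deriv
    ?_).congr_of_eventuallyEq ?_
  · rw [← L.weierstrassPExcept_add 0]
    simp only [ZeroMemClass.coe_zero]
    ring
  · filter_upwards [isOpen_U.mem_nhds hz] with w hw
    rw [← one_div, ← logDeriv_id']
    exact logDeriv_mul w (h0 w hw) (P_ne hw) differentiableAt_id (diff_P L w)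

theorem quasi {w : ℂ} (hw : w ∈ L.lattice) :
    ∃ a b : ℂ, ∀ z, σ L (z + w) = exp (a * z + b) * σ L z := by
  have hc : IsPreconnected (L.lattice : Set ℂ)ᶜ :=
    (countable_lattice.isConnected_compl_of_one_lt_rank (by simp)).isPreconnected
  have hs : ∀ z, z ∉ L.lattice → z + w ∉ L.lattice := fun z hz h =>
    hz (by simpa using sub_mem h hw)
  have h1 : ∀ z, z ∉ L.lattice →
      HasDerivAt (fun z => logDeriv (σ L) (z + w) - logDeriv (σ L) z) 0 z := fun z hz => by
    refine (((hasDerivAt_σ (hs z hz)).comp_add_const z w).fun_sub (hasDerivAt_σ hz)).congr_deriv ?_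
    rw [L.weierstrassP_add_coe z ⟨w, hw⟩, sub_self]
  obtain ⟨a, ha⟩ := isOpen_U.exists_is_const_of_deriv_eq_zero hc
    (fun z hz => (h1 z hz).differentiableAt.differentiableWithinAt) fun z hz => (h1 z hz).deriv
  have d1 : Differentiable ℂ fun z => σ L (z + w) := diff_σ.comp (differentiable_id.add_const w)
  have d2 : Differentiable ℂ fun z => exp (a * z) := by fun_prop
  obtain ⟨c, hc0, h2⟩ := (logDeriv_eqOn_iff d1.differentiableOn (d2.mul diff_σ).differentiableOn
    isOpen_U hc (fun z hz => mul_ne_zero (exp_ne_zero _) (σ_ne hz))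
    fun z hz => σ_ne (hs z hz)).mp fun z hz => by
      have e1 : logDeriv (fun z => σ L (z + w)) z = logDeriv (σ L) (z + w) := by
        rw [logDeriv_apply, logDeriv_apply, deriv_comp_add_const]
      have e2 : logDeriv (fun z => exp (a * z)) z = a := by
        rw [logDeriv_apply, ((hasDerivAt_id' z).const_mul a).cexp.deriv, mul_one,
          mul_div_cancel_left₀ _ (exp_ne_zero _)]
      rw [e1, ← sub_add_cancel (logDeriv (σ L) (z + w)) (logDeriv (σ L) z), ha z hz]
      exact ((logDeriv_mul (f := fun z => exp (a * z)) z (exp_ne_zero _) (σ_ne hz) (d2 z)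
        (diff_σ z)).trans (by rw [e2])).symm
  refine ⟨a, log c, fun z => ?_⟩
  have := congrFun (Continuous.ext_on (countable_lattice.dense_compl ℂ) d1.continuous
    ((d2.mul diff_σ).const_smul c).continuous h2) z
  rw [this, exp_add, exp_log hc0]
  simp only [Pi.smul_apply, Pi.mul_apply, smul_eq_mul]
  ring

end Sig0P

open Sig0P in
theorem sSig0 : SSig0 := fun L => by
  refine ⟨σ L, diff_σ, fun z => ⟨fun h => by_contra fun hz => σ_ne hz h, σ_zero⟩, fun w hw => ?_,
    fun w => quasi⟩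
  obtain ⟨a, b, h⟩ := quasi hw
  have h1 := (((hasDerivAt_id' (0 : ℂ)).const_mul a).add_const b).cexp.fun_mul
    (hasDerivAt_σ_zero (L := L))
  have h2 : deriv (fun z => σ L (z + w)) 0 = _ := (funext h ▸ h1).deriv
  rw [deriv_comp_add_const, zero_add, σ_zero (zero_mem _), mul_zero, zero_add, mul_one] at h2
  exact h2 ▸ exp_ne_zero _

end Pool.Agent.P.MP_7ede32_ag.Hod
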