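import Pool.Agent.P.MP_7ede32_ag.Hod.RU
import Mathlib.Analysis.Calculus.LineDeriv.IntegrationByParts

/-!
Stokes theorem on a compact Riemann surface.
-/

open Set Filter Topology MeasureTheory ComplexConjugate Polynomial Bornology Manifold
open scoped ContDiff

namespace Pool.Agent.P.MP_7ede32_ag.Hod

open MP_5d7cf0_gt.T (RS zc loc An D Sm Db Hf Om dbar dbar_congr dbar_const dbar_mul
  contDiffAt_dbar source_mem target_mem zc_mem zc_symm symm_zc loc_zc Db_eq D_zc_ne
  continuousAt_zc)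

namespace StP

section plane

variable {f g : ℂ → ℂ} {z : ℂ} {K : Set ℂ}

theorem int_fderiv (hg : ContDiff ℝ ∞ g) (hc : HasCompactSupport g) (v : ℂ) :
    Integrable (fun z => fderiv ℝ g z v) ∧ ∫ z, fderiv ℝ g z v = 0 := by
  have h1 : Integrable (fun z => fderiv ℝ g z v) :=
    ((hg.continuous_fderiv (by simp)).clm_apply continuous_const).integrable_of_hasCompactSupport
      (hc.fderiv_apply ℝ v)
  have h2 := integral_mul_fderiv_eq_neg_fderiv_mul_of_integrable (μ := (volume : Measure ℂ))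
    (f := fun _ : ℂ => (1 : ℂ)) (g := g) (v := v) (by simp) (by simpa using h1)
    (by simpa using hg.continuous.integrable_of_hasCompactSupport hc)
    (fun _ _ => differentiableAt_const _) fun x _ => hg.differentiable (by simp) x
  exact ⟨h1, by simpa using h2⟩

theorem int_dbar (hg : ContDiff ℝ ∞ g) (hc : HasCompactSupport g) :
    Integrable (dbar g) ∧ ∫ z, dbar g z = 0 := by
  obtain ⟨h1, h2⟩ := int_fderiv hg hc 1
  obtain ⟨h3, h4⟩ := int_fderiv hg hc Complex.I
  refine ⟨(h1.add (h3.const_mul Complex.I)).const_mul (1 / 2 : ℂ), ?_⟩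
  simp only [dbar]
  rw [integral_const_mul, integral_add h1 (h3.const_mul Complex.I), integral_const_mul, h2, h4]
  simp

theorem cd_conj (hg : ContDiffAt ℝ ∞ g z) : ContDiffAt ℝ ∞ (fun w => conj (g w)) z :=
  Complex.conjCLE.contDiff.contDiffAt.comp z hg

theorem int_dz (hg : ContDiff ℝ ∞ g) (hc : HasCompactSupport g) :
    Integrable (dz g) ∧ ∫ z, dz g z = 0 := by
  obtain ⟨h1, h2⟩ := int_dbar (g := fun w => conj (g w))
    (contDiff_iff_contDiffAt.mpr fun _ => cd_conj hg.contDiffAt)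
    (hc.comp_left (g := fun w : ℂ => conj w) (map_zero _))
  refine ⟨Complex.conjCLE.toContinuousLinearMap.integrable_comp h1, ?_⟩
  simp only [dz]
  rw [integral_conj, h2, map_zero]

theorem dz_congr (h : f =ᶠ[𝓝 z] g) : dz f z = dz g z :=
  congrArg (fun w : ℂ => conj w) (dbar_congr (h.fun_comp fun w => conj w))

theorem dz_zero : dz (fun _ => 0) z = 0 := by
  simp [dz, dbar_const]

theorem dz_mul (hf : ContDiffAt ℝ ∞ f z) (hg : ContDiffAt ℝ ∞ g z) :
    dz (fun z => f z * g z) z = dz f z * g z + f z * dz g z := by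
  unfold dz
  simp only [map_mul]
  rw [dbar_mul ((cd_conj hf).differentiableAt (by simp)) ((cd_conj hg).differentiableAt (by simp))]
  simp

theorem cont_dz (hg : ContDiff ℝ ∞ g) : Continuous (dz g) :=
  continuous_iff_continuousAt.mpr fun _ => Complex.continuous_conj.continuousAt.comp
    (contDiffAt_dbar (cd_conj hg.contDiffAt)).continuousAt

theorem ev_zero (hK : IsCompact K) (h0 : ∀ z ∉ K, g z = 0) (hz : z ∉ K) :
    g =ᶠ[𝓝 z] fun _ => 0 :=
  mem_of_superset (hK.isClosed.isOpen_compl.mem_nhds hz) fun w hw => h0 w hw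

/-- a function on an open set with compact support, extended by zero -/
theorem cd_ind {O : Set ℂ} (hO : IsOpen O) (hK : IsCompact K) (hs : K ⊆ O)
    (hg : ∀ z ∈ O, ContDiffAt ℝ ∞ g z) (h0 : ∀ z ∈ O, z ∉ K → g z = 0) :
    ContDiff ℝ ∞ (O.indicator g) ∧ (∀ z ∉ K, O.indicator g z = 0) ∧
      ∀ z ∈ O, O.indicator g =ᶠ[𝓝 z] g := by
  have h1 : ∀ z ∉ K, O.indicator g z = 0 := fun z hz => by
    by_cases h : z ∈ O
    · rw [indicator_of_mem h, h0 z h hz]
    · rw [indicator_of_notMem h]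
  have h2 : ∀ z ∈ O, O.indicator g =ᶠ[𝓝 z] g := fun z hz =>
    mem_of_superset (hO.mem_nhds hz) fun w hw => indicator_of_mem hw g
  refine ⟨contDiff_iff_contDiffAt.mpr fun z => ?_, h1, h2⟩
  by_cases h : z ∈ O
  · exact (hg z h).congr_of_eventuallyEq (h2 z h)
  · exact contDiffAt_const.congr_of_eventuallyEq (ev_zero hK h1 fun hz => h (hs hz))

end plane

variable {Y : Type} [TopologicalSpace Y] [ChartedSpace ℂ Y] [RS Y]

/-- the case of a function supported in a chart -/
theorem loc_case (h1 : SCh) (C : XC Y) {θ : Y → ℂ × ℂ} {u : Y → ℂ} (hθ : Cl θ)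
    (hu : ∀ p, Sm u p) (p : Y) {K : Set Y} (hK : IsCompact K) (hs : K ⊆ (chartAt ℂ p).source)
    (h0 : ∀ y ∉ K, u y = 0) : C.pr θ (dd u) = 0 := by
  set a := loc (fun y => (θ y).1 / D (zc p) y) p with ha
  set b := loc (fun y => (θ y).2 / conj (D (zc p) y)) p with hb
  set U := loc u p with hU
  set O := (chartAt ℂ p).target with hO
  have hOo : IsOpen O := (chartAt ℂ p).open_target
  have hK' : IsCompact (zc p '' K) :=
    hK.image_of_continuousOn fun y hy => (continuousAt_zc (hs hy)).continuousWithinAt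
  have hs' : zc p '' K ⊆ O := by
    rintro _ ⟨y, hy, rfl⟩
    exact zc_mem (hs hy)
  have key : ∀ z ∈ O, ContDiffAt ℝ ∞ a z ∧ ContDiffAt ℝ ∞ b z ∧ dbar a z = dz b z ∧
      ContDiffAt ℝ ∞ U z := fun z hz => by
    have hy := (chartAt ℂ p).map_target hz
    have h2 := (hθ _).chart hy
    have h3 := ((hu _).loc hy).self_of_nhds
    rw [zc_symm hz] at h2 h3
    exact ⟨h2.1, h2.2.1, h2.2.2, h3⟩
  have hU0 : ∀ z ∈ O, z ∉ zc p '' K → U z = 0 := fun z hz hk =>
    h0 _ fun hy => hk ⟨_, hy, zc_symm hz⟩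
  obtain ⟨a1, a2, a3⟩ := cd_ind (g := fun z => a z * U z) hOo hK' hs'
    (fun z hz => (key z hz).1.mul (key z hz).2.2.2) fun z hz hk => by rw [hU0 z hz hk, mul_zero]
  obtain ⟨b1, b2, b3⟩ := cd_ind (g := fun z => b z * U z) hOo hK' hs'
    (fun z hz => (key z hz).2.1.mul (key z hz).2.2.2) fun z hz hk => by rw [hU0 z hz hk, mul_zero]
  obtain ⟨a4, a5⟩ := int_dbar a1 (HasCompactSupport.intro hK' a2)
  obtain ⟨b4, b5⟩ := int_dz b1 (HasCompactSupport.intro hK' b2)
  have h := (h1 Y C (fun y => (θ y).1 * (dd u y).2 - (θ y).2 * (dd u y).1)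
    (fun z => dbar (O.indicator fun z => a z * U z) z - dz (O.indicator fun z => b z * U z) z)
    p _ hK' hs' ((continuous_iff_continuousAt.mpr fun _ =>
      (contDiffAt_dbar a1.contDiffAt).continuousAt).sub (cont_dz b1)) ?_ ?_ ?_).2
  · rw [integral_sub a4 b4, a5, b5, sub_zero] at h
    exact h
  · intro z hz
    rw [dbar_congr (ev_zero hK' a2 hz), dz_congr (ev_zero hK' b2 hz), dbar_const, dz_zero, sub_zero]
  · intro y hy
    obtain ⟨k1, k2, k3, k4⟩ := key _ (zc_mem hy)
    have hD := D_zc_ne hy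
    have hD' : conj (D (zc p) y) ≠ 0 := by simpa using hD
    have e1 : (θ y).1 = a (zc p y) * D (zc p) y := by
      rw [ha, loc_zc hy, div_mul_cancel₀ _ hD]
    have e2 : (θ y).2 = b (zc p y) * conj (D (zc p) y) := by
      rw [hb, loc_zc hy, div_mul_cancel₀ _ hD']
    rw [dbar_congr (a3 _ (zc_mem hy)), dz_congr (b3 _ (zc_mem hy)),
      dbar_mul (k1.differentiableAt (by simp)) (k4.differentiableAt (by simp)), dz_mul k2 k4, k3,
      e1, e2]
    simp only [dd]
    rw [Db_eq hy (hu y), Dz_eq hy (hu y), Complex.ofReal_pow, ← Complex.mul_conj']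
    ring
  · intro y hy
    have e : u =ᶠ[𝓝 y] fun _ => 0 :=
      mem_of_superset (hK.isClosed.isOpen_compl.mem_nhds fun h => hy (hs h)) fun w hw => h0 w hw
    rw [dd_congr e, dd_const]
    simp

end StP

theorem sSt (h1 : SCh) (h2 : SPr) : SSt := by
  intro Y _ _ _ C θ u hθ hu
  obtain ⟨s, ρ, K, hs, hρ⟩ := exists_pou (fun p : Y => (chartAt ℂ p).source) fun p =>
    chart_source_mem_nhds ℂ p
  have hm : ∀ p y, Sm (fun y => ρ p y * u y) y := fun p y => ((hρ p).1 y).mul (hu y)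
  have e : dd u = ∑ p ∈ s, (1 : ℂ) • dd fun y => ρ p y * u y := by
    funext y
    have : u = fun y => ∑ p ∈ s, ρ p y * u y := by
      funext y
      rw [← Finset.sum_mul, hs, one_mul]
    rw [Finset.sum_apply]
    simp only [one_smul]
    rw [← dd_sum fun p _ => hm p y, ← this]
  rw [C.pr_anti, e, (C.pr_sum s _ _ fun p _ => C.int_cl h2 (cl_dd (hm p)) hθ).2, neg_eq_zero]
  refine Finset.sum_eq_zero fun p _ => ?_
  rw [C.pr_anti, StP.loc_case h1 C hθ (hm p) p (hρ p).2.1 (hρ p).2.2.1 fun y hy => by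
    rw [(hρ p).2.2.2 y hy, zero_mul], neg_zero, mul_zero]

end Pool.Agent.P.MP_7ede32_ag.Hod
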