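import Pool.Agent.P.MP_7ede32_ag.Hod.RU

/-!
The extremal property of the holomorphic part of a closed form.
-/

open Set Filter Topology MeasureTheory ComplexConjugate Polynomial Bornology Manifold Matrix
open scoped ComplexOrder

namespace Pool.Agent.P.MP_7ede32_ag.Hod

open MP_5d7cf0_gt.T (RS zc loc An D Sm Db Hf Om)

namespace SupP

variable {Y : Type} [TopologicalSpace Y] [ChartedSpace ℂ Y] [RS Y] (C : XC Y)

omit [RS Y] in
theorem hf_comb {k : ℕ} (a : Fin k → ℂ) (w : Fin k → Y → ℂ) :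
    hf (∑ j, a j • w j) = ∑ j, a j • hf (w j) := by
  rw [hf_sum]
  exact Finset.sum_congr rfl fun j _ => hf_smul _

omit [RS Y] in
theorem comb_mem {k : ℕ} (a : Fin k → ℂ) {w : Fin k → Y → ℂ} (hw : ∀ i, w i ∈ Om Y) :
    ∑ j, a j • w j ∈ Om Y :=
  Submodule.sum_mem _ fun j _ => Submodule.smul_mem _ _ (hw j)

/-- the form on two combinations -/
theorem Q_comb (h2 : SPr) {k m : ℕ} (a : Fin k → ℂ) (b : Fin m → ℂ) {w : Fin k → Y → ℂ}
    {v : Fin m → Y → ℂ} (hw : ∀ i, w i ∈ Om Y) (hv : ∀ i, v i ∈ Om Y) :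
    C.Q (hf (∑ j, a j • w j)) (hf (∑ j, b j • v j)) =
      ∑ i, a i * ∑ j, conj (b j) * C.Q (hf (w i)) (hf (v j)) := by
  rw [hf_comb a w, (C.Q_sum h2 Finset.univ a (fun i => hf (w i)) (fun i _ => cl_hf (hw i))
    (cl_hf (comb_mem b hv))).1]
  refine Finset.sum_congr rfl fun i _ => ?_
  rw [hf_comb b v, (C.Q_sum h2 Finset.univ b (fun i => hf (v i)) (fun i _ => cl_hf (hv i))
    (cl_hf (hw i))).2]

theorem quad (h2 : SPr) {k : ℕ} {w : Fin k → Y → ℂ} (hw : ∀ i, w i ∈ Om Y) (x : Fin k → ℂ) :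
    star x ⬝ᵥ (C.gram (fun i => hf (w i)) fun i => hf (w i)) *ᵥ x =
      C.Q (hf (∑ j, conj (x j) • w j)) (hf (∑ j, conj (x j) • w j)) := by
  rw [Q_comb C h2 _ _ hw hw]
  simp only [dotProduct, mulVec, XC.gram, of_apply, Pi.star_apply, Complex.conj_conj,
    RCLike.star_def]
  exact Finset.sum_congr rfl fun i _ => congrArg _ (Finset.sum_congr rfl fun j _ => mul_comm _ _)

theorem gram_psd (h2 : SPr) (h4 : SPos) {k : ℕ} {w : Fin k → Y → ℂ} (hw : ∀ i, w i ∈ Om Y) :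
    (C.gram (fun i => hf (w i)) fun i => hf (w i)).PosSemidef :=
  PosSemidef.of_dotProduct_mulVec_nonneg (C.gram_herm _) fun x => by
    rw [quad C h2 hw]
    exact (h4 Y C _ (comb_mem _ hw)).1

theorem gram_pd (h2 : SPr) (h4 : SPos) {k : ℕ} {w : Fin k → Y → ℂ} (hw : ∀ i, w i ∈ Om Y)
    (hl : LinearIndependent ℂ w) : (C.gram (fun i => hf (w i)) fun i => hf (w i)).PosDef :=
  PosDef.of_dotProduct_mulVec_pos (C.gram_herm _) fun x hx => by
    rw [quad C h2 hw]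
    have h := h4 Y C _ (comb_mem (fun j => conj (x j)) hw)
    refine lt_of_le_of_ne h.1 fun e => hx ?_
    have h0 := Fintype.linearIndependent_iff.1 hl _ (h.2 e.symm)
    funext j
    simpa using h0 j

/-- the form on two Hodge decompositions -/
theorem Q_dec (h2 : SPr) (h3 : SSt) {a b a' b' u u' : Y → ℂ} (ha : a ∈ Om Y) (hb : b ∈ Om Y)
    (ha' : a' ∈ Om Y) (hb' : b' ∈ Om Y) (hu : ∀ p, Sm u p) (hu' : ∀ p, Sm u' p) :
    C.Q (hf a) (hf a' + cj (hf b') + dd u') = C.Q (hf a) (hf a') ∧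
    C.Q (hf a + cj (hf b) + dd u) (hf a' + cj (hf b') + dd u') =
      C.Q (hf a) (hf a') - conj (C.Q (hf b) (hf b')) := by
  have ca := cl_hf ha
  have cb := (cl_hf hb).cj
  have ca' := cl_hf ha'
  have cb' := (cl_hf hb').cj
  have cu := cl_dd hu
  have cu' := cl_dd hu'
  have e : ∀ σ, Cl σ → C.Q σ (hf a' + cj (hf b') + dd u') = C.Q σ (hf a') + C.Q σ (cj (hf b')) :=
    fun σ hσ => by
      rw [(C.Q_add h2 (ca'.add cb') cu' hσ).2, (C.Q_add h2 ca' cb' hσ).2, (C.Q_dd h3 hσ hu').1,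
        add_zero]
  have e1 : C.Q (hf a) (hf a' + cj (hf b') + dd u') = C.Q (hf a) (hf a') := by
    rw [e _ ca, C.Q_hf_cj, add_zero]
  have c := (ca'.add cb').add cu'
  refine ⟨e1, ?_⟩
  have e2 : C.Q (cj (hf b)) (hf a') = 0 := by
    rw [← C.Q_conj, C.Q_hf_cj, map_zero]
  rw [(C.Q_add h2 (ca.add cb) cu c).1, (C.Q_add h2 ca cb c).1, (C.Q_dd h3 c hu).2, add_zero, e1,
    e _ cb, e2, zero_add, C.Q_cj, sub_eq_add_neg]

end SupP

open SupP in
theorem sSup (h1 : SHodge) (h2 : SPr) (h3 : SSt) (h4 : SPos) : SSup := by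
  intro Y _ _ _ C g k w θ H Γ hw hl hs hθ hH hΓ
  have hfd : FiniteDimensional ℂ (Om Y) :=
    haveI := FiniteDimensional.span_of_finite ℂ (finite_range w)
    Submodule.finiteDimensional_of_le (S₂ := Submodule.span ℂ (range w)) hs
  choose w₀ hw₀ η hη u hu hd using fun i => h1 Y C hfd (θ i) (hθ i)
  choose c hc using fun i => (Submodule.mem_span_range_iff_exists_fun ℂ).1 (hs _ (hw₀ i))
  have hpd : H.PosDef := hH ▸ gram_pd C h2 h4 hw hl
  have hdet : IsUnit H.det := (isUnit_iff_isUnit_det H).1 hpd.isUnit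
  set cM : Matrix (Fin k) (Fin g) ℂ := Matrix.of c with hcM
  have eΓ : Γ = H * cMᴴ := by
    ext i l
    have := (Q_dec C h2 h3 (hw i) (hη l) (hw₀ l) (hη l) (hu l) (hu l)).1
    rw [← hd l] at this
    rw [hΓ, hH, mul_apply]
    simp only [XC.gram, of_apply, conjTranspose_apply, hcM, RCLike.star_def]
    rw [this, ← hc l, hf_comb, (C.Q_sum h2 Finset.univ (c l) (fun j => hf (w j))
      (fun j _ => cl_hf (hw j)) (cl_hf (hw i))).2]
    exact Finset.sum_congr rfl fun j _ => mul_comm _ _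
  have e1 : Γᴴ * H⁻¹ = cM := by
    rw [eΓ, conjTranspose_mul, conjTranspose_conjTranspose, hpd.isHermitian.eq, Matrix.mul_assoc,
      mul_nonsing_inv H hdet, Matrix.mul_one]
  have e2 : Γᴴ * H⁻¹ * Γ - C.gram θ θ = (C.gram (fun i => hf (η i)) fun i => hf (η i))ᵀ := by
    rw [e1, eΓ]
    ext l m
    have := (Q_dec C h2 h3 (hw₀ l) (hη l) (hw₀ m) (hη m) (hu l) (hu m)).2
    rw [← hd l, ← hd m, ← hc l, ← hc m, Q_comb C h2 _ _ hw hw, C.Q_conj] at this
    rw [Matrix.sub_apply, Matrix.mul_apply, hH]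
    simp only [XC.gram, of_apply, mul_apply, conjTranspose_apply, transpose_apply, hcM,
      RCLike.star_def]
    rw [this, sub_sub_eq_add_sub, add_sub_right_comm, add_eq_right, sub_eq_zero]
    exact Finset.sum_congr rfl fun i _ => congrArg _ (Finset.sum_congr rfl fun j _ => mul_comm _ _)
  refine ⟨hpd, e2 ▸ (gram_psd C h2 h4 hη).transpose, fun h i => ⟨u i, hu i, ?_⟩⟩
  rw [h, sub_self] at e2
  have h0 : η i = 0 := (h4 Y C _ (hη i)).2 (congrFun (congrFun e2 i) i).symm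
  have h1 : cj (hf (η i)) = 0 := by
    funext p
    simp [h0, cj, hf]
  rw [hd i, h1, add_zero, e1, ← hc i]
  rfl

end Pool.Agent.P.MP_7ede32_ag.Hod
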