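import Pool.Agent.P.MP_7ede32_ag.Hod.RU

/-!
A bound for positive subspaces of closed forms, and nondegeneracy of the Hermitian form.
-/

open Set Filter Topology MeasureTheory ComplexConjugate Matrix
open scoped ComplexOrder

namespace Pool.Agent.P.MP_7ede32_ag.Hod

open MP_5d7cf0_gt.T (RS zc loc An D Sm Db Hf Om sm_sum sm_const)

namespace Sup2P

variable {Y : Type} [TopologicalSpace Y] [ChartedSpace ℂ Y]

omit [TopologicalSpace Y] [ChartedSpace ℂ Y] in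
theorem hf_zero : hf (0 : Y → ℂ) = 0 := by
  funext p
  simp [hf]

omit [TopologicalSpace Y] [ChartedSpace ℂ Y] in
theorem cj_zero : cj (0 : Y → ℂ × ℂ) = 0 := by
  funext p
  simp [cj]

theorem cj_sum {ι : Type*} (s : Finset ι) (f : ι → Y → ℂ × ℂ) :
    cj (∑ i ∈ s, f i) = ∑ i ∈ s, cj (f i) := by
  classical
  induction s using Finset.induction_on with
  | empty => simpa using cj_zero
  | insert a s ha ih => rw [Finset.sum_insert ha, Finset.sum_insert ha, cj_add, ih]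

variable [RS Y] (C : XC Y)

omit [RS Y] in
theorem Q_cj_hf (w w' : Y → ℂ) : C.Q (cj (hf w)) (hf w') = 0 := by
  rw [← C.Q_conj, C.Q_hf_cj, map_zero]

theorem form (hP : SPr) {k : ℕ} {θ : Fin k → Y → ℂ × ℂ} (h : ∀ i, Cl (θ i)) (x : Fin k → ℂ) :
    star x ⬝ᵥ (C.gram θ θ *ᵥ x) =
      C.Q (∑ i, conj (x i) • θ i) (∑ i, conj (x i) • θ i) := by
  have hc : Cl (∑ i, conj (x i) • θ i) := cl_sum fun i _ => (h i).smul _
  rw [(C.Q_sum hP Finset.univ (fun i => conj (x i)) θ (fun i _ => h i) hc).1]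
  simp only [dotProduct, mulVec, XC.gram, Matrix.of_apply, Pi.star_apply]
  refine Finset.sum_congr rfl fun i _ => ?_
  rw [(C.Q_sum hP Finset.univ (fun i => conj (x i)) θ (fun i _ => h i) (h i)).2]
  simp only [Complex.conj_conj, mul_comm]
  rfl

/-- the form against a form of type `(1,0)` -/
theorem Q_dec (hP : SPr) (hS : SSt) {w₀ w₁ u : Y → ℂ} (h₀ : w₀ ∈ Om Y) (h₁ : w₁ ∈ Om Y)
    (hu : ∀ p, Sm u p) {σ : Y → ℂ × ℂ} (hσ : Cl σ) :
    C.Q (hf w₀ + cj (hf w₁) + dd u) σ = C.Q (hf w₀) σ + C.Q (cj (hf w₁)) σ := by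
  rw [(C.Q_add hP ((cl_hf h₀).add (cl_hf h₁).cj) (cl_dd hu) hσ).1,
    (C.Q_add hP (cl_hf h₀) (cl_hf h₁).cj hσ).1, (C.Q_dd hS hσ hu).2, add_zero]

theorem part1 (h1 : SHodge) (h2 : SPr) (h3 : SSt) (h4 : SPos) (hfd : FiniteDimensional ℂ (Om Y))
    (k : ℕ) (θ : Fin k → Y → ℂ × ℂ) (hθ : ∀ i, Cl (θ i)) (hpos : (C.gram θ θ).PosDef) :
    k ≤ Module.finrank ℂ (Om Y) := by
  choose w₀ hw₀ w₁ hw₁ u hu e using fun i => h1 Y C hfd (θ i) (hθ i)
  have hli : LinearIndependent ℂ fun i => (⟨w₀ i, hw₀ i⟩ : Om Y) := by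
    rw [Fintype.linearIndependent_iff]
    intro a ha
    by_contra hne
    have hx : (star a : Fin k → ℂ) ≠ 0 := by
      intro h0
      apply hne
      intro i
      simpa using congrFun h0 i
    have hp := hpos.dotProduct_mulVec_pos hx
    rw [form C h2 hθ] at hp
    simp only [Pi.star_apply, RCLike.star_def, Complex.conj_conj] at hp
    have ha' : ∑ i, a i • w₀ i = 0 := by
      have := congrArg Subtype.val ha
      simpa using this
    have hη : ∑ i, conj (a i) • w₁ i ∈ Om Y :=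
      Submodule.sum_mem _ fun i _ => Submodule.smul_mem _ _ (hw₁ i)
    have hU : ∀ p, Sm (fun y => ∑ i, a i * u i y) p := fun p =>
      sm_sum fun i _ => (sm_const (a i)).mul (hu i p)
    have hsum : ∑ i, a i • θ i =
        hf 0 + cj (hf (∑ i, conj (a i) • w₁ i)) + dd fun y => ∑ i, a i * u i y := by
      rw [← ha', hf_sum, hf_sum, cj_sum]
      have : (dd fun y => ∑ i, a i * u i y) = ∑ i, a i • dd (u i) := by
        funext p
        rw [dd_sum fun i _ => (sm_const (a i)).mul (hu i p), Finset.sum_apply]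
        exact Finset.sum_congr rfl fun i _ => dd_const_mul (a i) (hu i p)
      rw [this, ← Finset.sum_add_distrib, ← Finset.sum_add_distrib]
      refine Finset.sum_congr rfl fun i _ => ?_
      rw [hf_smul, hf_smul, cj_smul, Complex.conj_conj, e i, smul_add, smul_add]
    rw [hsum, hf_zero, zero_add] at hp
    have hc := (cl_hf hη).cj
    rw [(C.Q_add h2 hc (cl_dd hU) (hc.add (cl_dd hU))).1, (C.Q_add h2 hc (cl_dd hU) hc).2,
      (C.Q_dd h3 hc hU).1, (C.Q_dd h3 (hc.add (cl_dd hU)) hU).2, add_zero, add_zero, C.Q_cj,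
      C.Q_conj] at hp
    exact absurd (h4 Y C _ hη).1 (not_le_of_gt (neg_pos.mp hp))
  simpa using hli.fintype_card_le_finrank

theorem part2 (h2 : SPr) (h4 : SPos) (k : ℕ) (w : Fin k → Y → ℂ) (hw : ∀ i, w i ∈ Om Y)
    (hli : LinearIndependent ℂ w) : (C.gram (fun i => hf (w i)) fun i => hf (w i)).PosDef := by
  refine PosDef.of_dotProduct_mulVec_pos (C.gram_herm _) fun x hx => ?_
  rw [form C h2 fun i => cl_hf (hw i)]
  have hη : ∑ i, conj (x i) • w i ∈ Om Y :=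
    Submodule.sum_mem _ fun i _ => Submodule.smul_mem _ _ (hw i)
  have e : ∑ i, conj (x i) • hf (w i) = hf (∑ i, conj (x i) • w i) := by
    rw [hf_sum]
    exact Finset.sum_congr rfl fun i _ => (hf_smul _).symm
  rw [e]
  refine lt_of_le_of_ne (h4 Y C _ hη).1 fun h0 => hx ?_
  have := Fintype.linearIndependent_iff.mp hli _ ((h4 Y C _ hη).2 h0.symm)
  funext i
  simpa using this i

theorem part3 (h1 : SHodge) (h2 : SPr) (h3 : SSt) (h4 : SPos) (h5 : SCut)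
    (hfd : FiniteDimensional ℂ (Om Y)) (θ : Y → ℂ × ℂ) (hθ : Cl θ)
    (h : ∀ σ, C.Zc σ → C.Q θ σ = 0) : ∃ u, (∀ p, Sm u p) ∧ θ = dd u := by
  obtain ⟨w₀, hw₀, w₁, hw₁, u, hu, e⟩ := h1 Y C hfd θ hθ
  obtain ⟨σ₀, u₀, hz₀, hu₀, e₀⟩ := (h5 Y C).2 w₀ hw₀
  obtain ⟨σ₁, u₁, hz₁, hu₁, e₁⟩ := (h5 Y C).2 w₁ hw₁
  have a₀ : C.Q θ (hf w₀) = 0 := by
    have := h σ₀ hz₀
    rwa [e₀, (C.Q_sub h2 (cl_hf hw₀) (cl_dd hu₀) hθ).2, (C.Q_dd h3 hθ hu₀).1, sub_zero] at this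
  have a₁ : C.Q θ (cj (hf w₁)) = 0 := by
    have := h _ hz₁.cj
    have hc : ∀ p, Sm (fun y => conj (u₁ y)) p := fun p => (hu₁ p).conj
    rwa [e₁, cj_sub, ← dd_conj, (C.Q_sub h2 (cl_hf hw₁).cj (cl_dd hc) hθ).2,
      (C.Q_dd h3 hθ hc).1, sub_zero] at this
  rw [e, Q_dec C h2 h3 hw₀ hw₁ hu (cl_hf hw₀), Q_cj_hf, add_zero] at a₀
  rw [e, Q_dec C h2 h3 hw₀ hw₁ hu (cl_hf hw₁).cj, C.Q_hf_cj, zero_add, C.Q_cj, C.Q_conj,
    neg_eq_zero] at a₁
  refine ⟨u, hu, ?_⟩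
  rw [e, (h4 Y C _ hw₀).2 a₀, (h4 Y C _ hw₁).2 a₁, hf_zero, cj_zero, add_zero, zero_add]

end Sup2P

theorem sSup2 (h1 : SHodge) (h2 : SPr) (h3 : SSt) (h4 : SPos) (h5 : SCut) : SSup2 :=
  fun _ _ _ _ C hfd => ⟨Sup2P.part1 C h1 h2 h3 h4 hfd, Sup2P.part2 C h2 h4,
    Sup2P.part3 C h1 h2 h3 h4 h5 hfd⟩

end Pool.Agent.P.MP_7ede32_ag.Hod
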