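import Pool.Agent.P.MP_7ede32_ag.Hod.StA
import Pool.Agent.P.MP_7ede32_ag.Hod.StR
import Pool.Agent.P.MP_7ede32_ag.Hod.AT2

/-!
Periodic functions of polynomial growth are polynomials over the field of elliptic functions.
-/

open Set Filter Topology Polynomial Bornology

namespace Pool.Agent.P.MP_7ede32_ag.Hod

open Ell (E2)

namespace SymRP

theorem off_fin {T : Set ℂ} (hT : T.Finite) (β : ℂ) : ∀ᶠ ξ in 𝓝[≠] β, ξ ∉ T :=
  hT.eventually_cofinite_notMem.filter_mono (nhdsNE_le_cofinite β)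

/-- one fibre -/
theorem slice (h : SPolyR) {T : Set ℂ} (hT : T.Finite) {f : ℂ → ℂ} {c b : ℝ} {a : ℕ} (hb : 0 ≤ b)
    (h1 : ∀ ξ ∉ T, AnalyticAt ℂ f ξ) (h2 : ∀ ξ ∉ T, ‖f ξ‖ ≤ c * (b + ‖ξ‖) ^ a) :
    ∃ q : ℂ[X], q.natDegree ≤ a ∧ (∀ ξ ∉ T, f ξ = q.eval ξ) ∧
      ∀ ξ, ‖q.eval ξ‖ ≤ |c| * (b + ‖ξ‖) ^ a := by
  have hR : ∀ ξ, (∏ β ∈ hT.toFinset, (X - C β)).eval ξ ≠ 0 ↔ ξ ∉ T := fun ξ => by
    simp only [eval_prod, eval_sub, eval_X, eval_C, Finset.prod_ne_zero_iff, sub_ne_zero,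
      Finite.mem_toFinset]
    exact ⟨fun h h' => h ξ h' rfl, fun h β hβ e => h (e ▸ hβ)⟩
  have h3 : ∀ ξ ∉ T, ‖f ξ‖ ≤ |c| * (b + ‖ξ‖) ^ a := fun ξ hξ =>
    (h2 ξ hξ).trans (mul_le_mul_of_nonneg_right (le_abs_self c) (by positivity))
  obtain ⟨q, hq, e⟩ := h (∏ β ∈ hT.toFinset, (X - C β)) f a (|c| * 2 ^ a)
    (monic_prod_of_monic _ _ fun β _ => monic_X_sub_C β).ne_zero
    (fun ξ hξ => h1 ξ ((hR ξ).1 hξ)) (fun β _ => by
      have t : Tendsto (fun ξ : ℂ => ‖ξ - β‖ * (|c| * (b + ‖ξ‖) ^ a)) (𝓝 β)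
          (𝓝 (‖β - β‖ * (|c| * (b + ‖β‖) ^ a))) := Continuous.tendsto (by fun_prop) β
      rw [sub_self, norm_zero, zero_mul] at t
      refine squeeze_zero_norm' ((off_fin hT β).mono fun ξ hξ => ?_)
        (t.mono_left nhdsWithin_le_nhds)
      rw [norm_mul]
      exact mul_le_mul_of_nonneg_left (h3 ξ hξ) (norm_nonneg _)) (by
      filter_upwards [tendsto_norm_cobounded_atTop.eventually_ge_atTop b,
        hT.isBounded.compl] with ξ hξ hξT
      refine (h3 ξ hξT).trans ?_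
      rw [mul_assoc, ← mul_pow]
      gcongr
      linarith)
  refine ⟨q, hq, fun ξ hξ => e ξ ((hR ξ).2 hξ), fun β => ?_⟩
  have t1 : Tendsto (fun ξ => ‖q.eval ξ‖) (𝓝[≠] β) (𝓝 ‖q.eval β‖) :=
    (q.continuous.norm.tendsto β).mono_left nhdsWithin_le_nhds
  have t2 : Tendsto (fun ξ : ℂ => |c| * (b + ‖ξ‖) ^ a) (𝓝[≠] β) (𝓝 (|c| * (b + ‖β‖) ^ a)) :=
    (Continuous.tendsto (by fun_prop) β).mono_left nhdsWithin_le_nhds
  exact le_of_tendsto_of_tendsto t1 t2 ((off_fin hT β).mono fun ξ hξ => by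
    simpa only [← e ξ ((hR ξ).2 hξ)] using h3 ξ hξ)

/-- Lagrange interpolation for the coefficients -/
theorem coeff_eq {s : Finset ℂ} {a : ℕ} (hs : s.card = a + 1) {q : ℂ[X]} (hq : q.natDegree ≤ a)
    (j : ℕ) : q.coeff j = ∑ i ∈ s, q.eval i * (Lagrange.basis s id i).coeff j := by
  have h : q.degree < s.card := by
    rw [hs]
    exact degree_le_natDegree.trans_lt (by exact_mod_cast Nat.lt_succ_of_le hq)
  conv_lhs => rw [Lagrange.eq_interpolate (v := id) (injOn_id _) h]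
  simp [Lagrange.interpolate_apply, finsetSum_coeff]

/-- a function that is dominated by a power of a meromorphic function is meromorphic -/
theorem mer_of_bound {f g : ℂ → ℂ} {z : ℂ} {c b : ℝ} {a : ℕ}
    (hg : MeromorphicAt g z) (h1 : ∀ᶠ t in 𝓝[≠] z, AnalyticAt ℂ f t)
    (h2 : ∀ᶠ t in 𝓝[≠] z, ‖f t‖ ≤ c * (b + ‖g t‖) ^ a) : MeromorphicAt f z := by
  obtain ⟨n, hn⟩ := hg
  refine ⟨n * a + 1, Complex.analyticAt_of_differentiable_on_punctured_nhds_of_continuousAt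
    (h1.mono fun t ht => by have := ht.differentiableAt; fun_prop) ?_⟩
  rw [continuousAt_iff_punctured_nhds]
  have t : Tendsto (fun t : ℂ => ‖t - z‖ * (c * (‖t - z‖ ^ n * b + ‖(t - z) ^ n • g t‖) ^ a))
      (𝓝 z) (𝓝 (‖z - z‖ * (c * (‖z - z‖ ^ n * b + ‖(z - z) ^ n • g z‖) ^ a))) := by
    have := hn.continuousAt
    exact ContinuousAt.tendsto (f := fun t : ℂ =>
      ‖t - z‖ * (c * (‖t - z‖ ^ n * b + ‖(t - z) ^ n • g t‖) ^ a)) (by fun_prop)
  rw [sub_self, norm_zero, zero_mul] at t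
  rw [sub_self, zero_pow (Nat.succ_ne_zero _), zero_smul]
  refine squeeze_zero_norm' (h2.mono fun t ht => ?_) (t.mono_left nhdsWithin_le_nhds)
  rw [norm_smul, norm_smul, norm_pow, norm_pow, ← mul_add, mul_pow, ← pow_mul, pow_succ']
  calc ‖t - z‖ * ‖t - z‖ ^ (n * a) * ‖f t‖
      ≤ ‖t - z‖ * ‖t - z‖ ^ (n * a) * (c * (b + ‖g t‖) ^ a) := by gcongr
    _ = _ := by ring

end SymRP

open SymRP in
theorem sSymR (h : SPolyR) : SSymR := by
  intro L T e c a hper hG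
  classical
  set Good : ℂ → Prop := fun t => (T t).Finite ∧ ∀ ξ ∉ T t, AnalyticAt ℂ e (t, ξ) ∧
      (∀ᶠ y in 𝓝 ((t, ξ) : E2), y.2 ∉ T y.1) ∧
      ‖e (t, ξ)‖ ≤ c * (1 + ‖L.weierstrassP t‖ + ‖ξ‖) ^ a with hGood
  have hq : ∀ t, ∃ q : ℂ[X], Good t → q.natDegree ≤ a ∧ (∀ ξ ∉ T t, e (t, ξ) = q.eval ξ) ∧
      ∀ ξ, ‖q.eval ξ‖ ≤ |c| * (1 + ‖L.weierstrassP t‖ + ‖ξ‖) ^ a := by
    intro t
    by_cases ht : Good t
    · obtain ⟨q, hq⟩ := slice h ht.1 (f := fun ξ => e (t, ξ)) (c := c)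
        (b := 1 + ‖L.weierstrassP t‖) (a := a) (by positivity)
        (fun ξ hξ => (ht.2 ξ hξ).1.comp (f := fun ξ : ℂ => ((t, ξ) : E2))
          (analyticAt_const.prod analyticAt_id)) fun ξ hξ => (ht.2 ξ hξ).2.2
      exact ⟨q, fun _ => hq⟩
    · exact ⟨0, fun h' => (ht h').elim⟩
  choose q hq using hq
  have han : ∀ j, ∀ᶠ t in cd, AnalyticAt ℂ (fun t => (q t).coeff j) t := by
    intro j
    filter_upwards [cd_nhds hG] with t₀ h₀
    have h₁ : Good t₀ := h₀.self_of_nhds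
    obtain ⟨s, hs, hs'⟩ := h₁.1.infinite_compl.exists_subset_card_eq (a + 1)
    have hc : ∀ i : ℂ, AnalyticAt ℂ (fun t : ℂ => ((t, i) : E2)) t₀ := fun i =>
      analyticAt_id.prod analyticAt_const
    have h2 : AnalyticAt ℂ (fun t => ∑ i ∈ s, e (t, i) * (Lagrange.basis s id i).coeff j) t₀ :=
      Finset.analyticAt_fun_sum _ fun i hi =>
        ((h₁.2 i (hs hi)).1.comp (f := fun t : ℂ => ((t, i) : E2)) (hc i)).mul analyticAt_const
    refine h2.congr ?_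
    have h3 : ∀ᶠ t in 𝓝 t₀, ∀ i ∈ s, i ∉ T t := (eventually_all_finset s).2 fun i hi =>
      (hc i).continuousAt.tendsto.eventually (h₁.2 i (hs hi)).2.1
    filter_upwards [h₀, h3] with t ht ht'
    rw [coeff_eq hs' (hq t ht).1]
    exact Finset.sum_congr rfl fun i hi => by rw [(hq t ht).2.1 i (ht' i hi)]
  have hmer : ∀ j, Meromorphic fun t => (q t).coeff j := by
    intro j z
    obtain ⟨s, -, hs⟩ := (infinite_univ (α := ℂ)).exists_subset_card_eq (a + 1)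
    refine mer_of_bound (b := 1 + ∑ i ∈ s, ‖i‖) (a := a)
      (c := ∑ i ∈ s, |c| * ‖(Lagrange.basis s id i).coeff j‖)
      (L.meromorphic_weierstrassP z) (Full.cd_iff.1 (han j) z) ?_
    filter_upwards [Full.cd_iff.1 hG z] with t ht
    rw [coeff_eq hs (hq t ht).1, Finset.sum_mul]
    refine norm_sum_le_of_le _ fun i hi => ?_
    have h1 : ‖i‖ ≤ ∑ i ∈ s, ‖i‖ :=
      Finset.single_le_sum (f := fun i : ℂ => ‖i‖) (fun _ _ => norm_nonneg _) hi
    have h2 : ‖(q t).eval i‖ ≤ |c| * (1 + ∑ i ∈ s, ‖i‖ + ‖L.weierstrassP t‖) ^ a := by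
      refine ((hq t ht).2.2 i).trans ?_
      gcongr ?_ * ?_ ^ a
      linarith
    rw [norm_mul, mul_right_comm]
    gcongr
  have hp : ∀ w ∈ L.lattice, ∀ᶠ t in cd, q (t + w) = q t := by
    intro w hw
    filter_upwards [hG, (tendsto_add_cd w).eventually hG] with t h1 h2
    refine eq_of_infinite_eval_eq _ _ ((h1.1.union h2.1).infinite_compl.mono fun ξ hξ => ?_)
    rw [mem_compl_iff, mem_union, not_or] at hξ
    show (q (t + w)).eval ξ = (q t).eval ξ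
    rw [← (hq t h1).2.1 ξ hξ.1, ← (hq _ h2).2.1 ξ hξ.2, hper w hw]
  choose k hk using fun j => exists_kk (L := L) (hmer j) fun w hw =>
    (hp w hw).mono fun t ht => by simp only [ht]
  refine ⟨∑ j ∈ Finset.range (a + 1), monomial j (k j), ?_⟩
  filter_upwards [hG, (eventually_all_finset (Finset.range (a + 1))).2 fun j _ => hk j]
    with t ht hk' ξ hξ
  rw [(hq t ht).2.1 ξ hξ]
  congr 1
  ext j
  rw [coeff_sp1, finsetSum_coeff]
  simp only [coeff_monomial, Finset.sum_ite_eq']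
  split_ifs with hj
  · exact (hk' j hj).symm
  · rw [rv_zero]
    exact coeff_eq_zero_of_natDegree_lt ((hq t ht).1.trans_lt (by simpa using hj))

end Pool.Agent.P.MP_7ede32_ag.Hod
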