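import Pool.Agent.P.MP_7ede32_ag.Hod.StR

/-!
The linear algebra of the infinitesimal Torelli theorem.
-/

open Set Filter Matrix

namespace Pool.Agent.P.MP_7ede32_ag.Hod

namespace Tor1P

variable {g : ℕ} {Pt : Type} {𝓕 : Filter Pt}

lemma wedge (B : Matrix (Fin g) (Fin g) ℂ) (x y : Fin g → ℂ) (i j : Fin g) :
    (B *ᵥ x) i * (B *ᵥ y) j - (B *ᵥ x) j * (B *ᵥ y) i =
      ∑ a, ∑ b, B i a * B j b * (x a * y b - x b * y a) := by
  simp only [mulVec, dotProduct, Finset.sum_mul_sum]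
  rw [Finset.sum_comm (f := fun a b => B j a * x a * (B i b * y b)), ← Finset.sum_sub_distrib]
  refine Finset.sum_congr rfl fun a _ => ?_
  rw [← Finset.sum_sub_distrib]
  exact Finset.sum_congr rfl fun b _ => by ring

lemma pts [𝓕.NeBot] (φ : Pt → Fin g → ℂ) (R : Pt → Prop)
    (h1 : ∀ a : Fin g → ℂ, a ≠ 0 → ∀ᶠ p in 𝓕, a ⬝ᵥ φ p ≠ 0) (h2 : ∀ᶠ p in 𝓕, R p) :
    ∃ q : Fin g → Pt, (∀ k, R (q k)) ∧ IsUnit (Matrix.of fun i k => φ (q k) i) := by
  have hs : Submodule.span ℂ (φ '' {p | R p}) = ⊤ := by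
    by_contra h
    obtain ⟨f, hf, hle⟩ := Submodule.exists_le_ker_of_lt_top _ (lt_top_iff_ne_top.2 h)
    set a : Fin g → ℂ := fun i => f fun j => if i = j then 1 else 0 with ha
    have hfa : ∀ x, f x = a ⬝ᵥ x := fun x => by
      rw [LinearMap.pi_apply_eq_sum_univ f x, dotProduct]
      exact Finset.sum_congr rfl fun i _ => by simp [ha, mul_comm]
    have ha0 : a ≠ 0 := fun h0 => hf (LinearMap.ext fun x => by rw [hfa, h0]; simp)
    obtain ⟨p, hp1, hp2⟩ := ((h1 a ha0).and h2).exists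
    exact hp1 (by rw [← hfa]; exact hle (Submodule.subset_span ⟨p, hp2, rfl⟩))
  obtain ⟨f, hf, -, hli⟩ := Submodule.exists_fun_fin_finrank_span_eq ℂ (φ '' {p | R p})
  have hg : Module.finrank ℂ (Submodule.span ℂ (φ '' {p | R p})) = g := by
    rw [hs, finrank_top]; simp
  choose q hq1 hq2 using hf
  refine ⟨fun k => q (Fin.cast hg.symm k), fun k => hq1 _, ?_⟩
  rw [← linearIndependent_cols_iff_isUnit]
  have := hli.comp (Fin.cast hg.symm) (Fin.cast_injective _)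
  have e : (Matrix.of fun i k => φ (q (Fin.cast hg.symm k)) i).col = f ∘ Fin.cast hg.symm := by
    ext k i
    simp [Matrix.col, hq2]
  rw [e]
  exact this

lemma three [𝓕.NeBot] (φ u : Pt → Fin g → ℂ) (A : Fin g → Fin g → ℂ)
    (h1 : ∀ a : Fin g → ℂ, a ≠ 0 → ∀ᶠ p in 𝓕, a ⬝ᵥ φ p ≠ 0)
    (h2 : ∀ᶠ p in 𝓕, ∀ i j, (u p i - A i j) * φ p j = (u p j - A j i) * φ p i)
    {i j l : Fin g} (hji : j ≠ i) (hA : A i j ≠ A i l) :
    ∃ α β : ℂ, ∀ᶠ p in 𝓕, φ p i * φ p j = φ p l * (α * φ p j + β * φ p i) := by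
  have hc : ∀ᶠ p in 𝓕, (A i j - A i l) * (φ p j * φ p l) + (A j l - A j i) * (φ p i * φ p l) +
      (A l i - A l j) * (φ p i * φ p j) = 0 := h2.mono fun p hp => by
    linear_combination -(φ p l * hp i j + φ p i * hp j l + φ p j * hp l i)
  by_cases h0 : A l i - A l j = 0
  · exfalso
    have hl := h1 (Pi.single l 1) (by simp)
    have ha := h1 (Pi.single j (A i j - A i l) + Pi.single i (A j l - A j i)) (fun h => by
      have := congrFun h j
      simp [Pi.single_eq_of_ne hji, sub_eq_zero] at this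
      exact hA this)
    obtain ⟨p, ⟨hp1, hp2⟩, hp3⟩ := ((hc.and hl).and ha).exists
    rw [single_dotProduct, one_mul] at hp2
    rw [add_dotProduct, single_dotProduct, single_dotProduct] at hp3
    refine mul_ne_zero hp2 hp3 ?_
    rw [h0] at hp1
    linear_combination hp1
  · refine ⟨-(A i j - A i l) / (A l i - A l j), -(A j l - A j i) / (A l i - A l j),
      hc.mono fun p hp => ?_⟩
    field_simp
    linear_combination hp

lemma core [𝓕.NeBot] (φ u : Pt → Fin g → ℂ) (A : Fin g → Fin g → ℂ)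
    (h1 : ∀ a : Fin g → ℂ, a ≠ 0 → ∀ᶠ p in 𝓕, a ⬝ᵥ φ p ≠ 0)
    (h2 : ∀ᶠ p in 𝓕, ∀ i j, (u p i - A i j) * φ p j = (u p j - A j i) * φ p i) :
    (∃ f : Fin g → ℂ, ∀ᶠ p in 𝓕, ∀ i j, (u p i - f i) * φ p j = (u p j - f j) * φ p i) ∨
    ∃ i₁ i₂ : Fin g, i₁ ≠ i₂ ∧ ∀ l, ∃ α β : ℂ,
      ∀ᶠ p in 𝓕, φ p i₁ * φ p i₂ = φ p l * (α * φ p i₂ + β * φ p i₁) := by
  classical
  by_cases h : ∀ i j l, j ≠ i → l ≠ i → A i j = A i l
  · left
    have hf : ∀ i, ∃ f : ℂ, ∀ j, j ≠ i → A i j = f := fun i => by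
      by_cases hi : ∃ l, l ≠ i
      · obtain ⟨l, hl⟩ := hi
        exact ⟨A i l, fun j hj => h i j l hj hl⟩
      · exact ⟨0, fun j hj => absurd ⟨j, hj⟩ hi⟩
    choose f hf using hf
    refine ⟨f, h2.mono fun p hp i j => ?_⟩
    by_cases hij : i = j
    · rw [hij]
    · rw [← hf i j (Ne.symm hij), ← hf j i hij]; exact hp i j
  · right
    push Not at h
    obtain ⟨i, j, l, hj, hl, hA⟩ := h
    refine ⟨i, j, hj.symm, fun m => ?_⟩
    by_cases hmi : m = i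
    · exact ⟨1, 0, Eventually.of_forall fun p => by rw [hmi]; ring⟩
    by_cases hm : A i j = A i m
    · by_cases hmj : m = j
      · exact ⟨0, 1, Eventually.of_forall fun p => by rw [hmj]; ring⟩
      obtain ⟨α, β, e1⟩ := three φ u A h1 h2 (l := m) hl (by rw [← hm]; exact hA.symm)
      obtain ⟨α', β', e2⟩ := three φ u A h1 h2 hj hA
      refine ⟨α + β * α', β * β', ?_⟩
      filter_upwards [e1, e2, h1 (Pi.single l 1) (by simp)] with p e1 e2 e3
      rw [single_dotProduct, one_mul] at e3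
      refine mul_left_cancel₀ e3 ?_
      linear_combination φ p j * e1 + φ p m * β * e2
    · exact three φ u A h1 h2 hj hm

end Tor1P

open Tor1P in
theorem sTor1 : STor1 := by
  intro g Pt 𝓕 _ φ u c h1 h2
  obtain ⟨q, hq, hM⟩ := pts φ _ h1 h2
  set M : Matrix (Fin g) (Fin g) ℂ := Matrix.of fun i k => φ (q k) i with hMd
  have hdet : IsUnit M.det := (isUnit_iff_isUnit_det M).1 hM
  have hMT : ∀ x : Fin g → ℂ, M *ᵥ (M⁻¹ *ᵥ x) = x := fun x => by
    rw [mulVec_mulVec, mul_nonsing_inv _ hdet, one_mulVec]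
  have hTq : ∀ k, M⁻¹ *ᵥ φ (q k) = Pi.single k 1 := fun k => by
    have : φ (q k) = M *ᵥ Pi.single k 1 := by ext i; simp [hMd]
    rw [this, mulVec_mulVec, nonsing_inv_mul _ hdet, one_mulVec]
  set c' : Fin g → Fin g → Fin g → ℂ :=
    fun i j => (∑ a, ∑ b, (M⁻¹ i a * M⁻¹ j b) • c a b) ᵥ* M with hc'
  have hrel : ∀ p, (∀ i j, u p i * φ p j - u p j * φ p i = c i j ⬝ᵥ φ p) → ∀ i j,
      (M⁻¹ *ᵥ u p) i * (M⁻¹ *ᵥ φ p) j - (M⁻¹ *ᵥ u p) j * (M⁻¹ *ᵥ φ p) i =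
        c' i j ⬝ᵥ (M⁻¹ *ᵥ φ p) := fun p hp i j => by
    rw [wedge, hc', ← dotProduct_mulVec, hMT, sum_dotProduct]
    refine Finset.sum_congr rfl fun a _ => ?_
    rw [sum_dotProduct]
    exact Finset.sum_congr rfl fun b _ => by rw [hp, smul_dotProduct, smul_eq_mul]
  set A : Fin g → Fin g → ℂ := fun i k => (M⁻¹ *ᵥ u (q k)) i with hA
  have hcA : ∀ i j, c' i j = Pi.single j (A i j) - Pi.single i (A j i) := fun i j => by
    ext k
    have := hrel (q k) (hq k) i j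
    rw [hTq, dotProduct_single, mul_one] at this
    rw [← this, Pi.sub_apply]
    congr 1
    · by_cases hk : k = j
      · subst hk; simp [hA]
      · rw [Pi.single_eq_of_ne hk, Pi.single_eq_of_ne (Ne.symm hk), mul_zero]
    · by_cases hk : k = i
      · subst hk; simp [hA]
      · rw [Pi.single_eq_of_ne hk, Pi.single_eq_of_ne (Ne.symm hk), mul_zero]
  have h1' : ∀ a : Fin g → ℂ, a ≠ 0 → ∀ᶠ p in 𝓕, a ⬝ᵥ (M⁻¹ *ᵥ φ p) ≠ 0 := fun a ha => by
    have : a ᵥ* M⁻¹ ≠ 0 := fun h0 => ha (by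
      have h3 := congrArg (· ᵥ* M) h0
      simpa [vecMul_vecMul, nonsing_inv_mul _ hdet] using h3)
    exact (h1 _ this).mono fun p hp => by rwa [dotProduct_mulVec]
  have h2' : ∀ᶠ p in 𝓕, ∀ i j, ((M⁻¹ *ᵥ u p) i - A i j) * (M⁻¹ *ᵥ φ p) j =
      ((M⁻¹ *ᵥ u p) j - A j i) * (M⁻¹ *ᵥ φ p) i := h2.mono fun p hp i j => by
    have := hrel p hp i j
    rw [hcA, sub_dotProduct, single_dotProduct, single_dotProduct] at this
    linear_combination this
  rcases core (fun p => M⁻¹ *ᵥ φ p) (fun p => M⁻¹ *ᵥ u p) A h1' h2' with ⟨f, hf⟩ | ⟨i, j, hij, h⟩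
  · refine Or.inl ⟨M *ᵥ f, hf.mono fun p hp i j => ?_⟩
    have := wedge M (M⁻¹ *ᵥ u p - f) (M⁻¹ *ᵥ φ p) i j
    rw [mulVec_sub, hMT, hMT, Finset.sum_eq_zero fun a _ => Finset.sum_eq_zero fun b _ => by
      rw [Pi.sub_apply, Pi.sub_apply, hp a b, sub_self, mul_zero]] at this
    rw [Pi.sub_apply, Pi.sub_apply] at this
    exact sub_eq_zero.1 this
  · exact Or.inr ⟨M⁻¹, i, j, (isUnit_nonsing_inv_det M hdet).ne_zero, hij, h⟩

end Pool.Agent.P.MP_7ede32_ag.Hod
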