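import Pool.Agent.P.MP_7ede32_ag.Hod.RU

/-!
Transport of forms along an isomorphism of coverings.
-/

open Set Filter Topology MeasureTheory ComplexConjugate Polynomial Bornology Manifold

noncomputable section

namespace Pool.Agent.P.MP_7ede32_ag.Hod

open MP_5d7cf0_gt.T (RS zc loc An D Sm Db Hf Om Hol)

namespace TpP

variable {Y₀ Y : Type} [TopologicalSpace Y₀] [ChartedSpace ℂ Y₀] [TopologicalSpace Y]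
  [ChartedSpace ℂ Y]

open Classical in
/-- the transported form -/
def tp (C₀ : XC Y₀) (C : XC Y) (Ω : Set ℂ) (τ : Y → Y₀) (θ : Y₀ → ℂ × ℂ) (p : Y) : ℂ × ℂ :=
  if p ∉ C.Sg ∧ C.x p ∈ Ω then
    ((θ (τ p)).1 * (D C.x p / D C₀.x (τ p)), (θ (τ p)).2 * conj (D C.x p / D C₀.x (τ p)))
  else 0

variable {C₀ : XC Y₀} {C : XC Y} {Ω K : Set ℂ} {τ : Y → Y₀} {θ θ' : Y₀ → ℂ × ℂ} {p : Y}

theorem tp_pos (h : p ∉ C.Sg ∧ C.x p ∈ Ω) : tp C₀ C Ω τ θ p =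
    ((θ (τ p)).1 * (D C.x p / D C₀.x (τ p)), (θ (τ p)).2 * conj (D C.x p / D C₀.x (τ p))) :=
  if_pos h

theorem tp_neg (h : ¬(p ∉ C.Sg ∧ C.x p ∈ Ω)) : tp C₀ C Ω τ θ p = 0 := if_neg h

theorem mem (hB : ∀ ξ ∈ Ω, BijOn τ (C.Φ ξ) (C₀.Φ ξ)) (h : p ∉ C.Sg ∧ C.x p ∈ Ω) :
    τ p ∉ C₀.Sg ∧ C₀.x (τ p) = C.x p :=
  (hB _ h.2).mapsTo (show p ∈ C.Φ (C.x p) from ⟨h.1, rfl⟩)

theorem supp (hB : ∀ ξ ∈ Ω, BijOn τ (C.Φ ξ) (C₀.Φ ξ)) (hθ : C₀.Zk K θ)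
    (h : tp C₀ C Ω τ θ p ≠ 0) : p ∉ C.Sg ∧ C.x p ∈ K := by
  by_cases hg : p ∉ C.Sg ∧ C.x p ∈ Ω
  · refine ⟨hg.1, ?_⟩
    rw [← (mem hB hg).2]
    refine (hθ.2 _ fun h0 => h ?_).2
    rw [tp_pos hg, h0]
    simp
  · exact absurd (tp_neg hg) h

theorem wd_eq (hB : ∀ ξ ∈ Ω, BijOn τ (C.Φ ξ) (C₀.Φ ξ)) (h : p ∉ C.Sg ∧ C.x p ∈ Ω) :
    C.wd (tp C₀ C Ω τ θ) (cj (tp C₀ C Ω τ θ')) p = C₀.wd θ (cj θ') (τ p) := by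
  have h1 : D C.x p ≠ 0 := (C.reg p h.1).2.1
  have h2 : D C₀.x (τ p) ≠ 0 := (C₀.reg _ (mem hB h).1).2.1
  have h3 : conj (D C.x p) ≠ 0 := (_root_.map_ne_zero _).mpr h1
  have h4 : conj (D C₀.x (τ p)) ≠ 0 := (_root_.map_ne_zero _).mpr h2
  have e : ∀ z : ℂ, ((‖z‖ ^ 2 : ℝ) : ℂ) = z * conj z := fun z => by
    rw [Complex.mul_conj, Complex.normSq_eq_norm_sq]
  simp only [XC.wd, cj, tp_pos h, e, map_mul, map_div₀, Complex.conj_conj]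
  field_simp

theorem tr_eq (hK : K ⊆ Ω) (hB : ∀ ξ ∈ Ω, BijOn τ (C.Φ ξ) (C₀.Φ ξ)) (hθ : C₀.Zk K θ) (ξ : ℂ) :
    C.tr (C.wd (tp C₀ C Ω τ θ) (cj (tp C₀ C Ω τ θ'))) ξ = C₀.tr (C₀.wd θ (cj θ')) ξ := by
  by_cases hξ : ξ ∈ Ω
  · exact finsum_mem_eq_of_bijOn τ (hB ξ hξ) fun p hp => wd_eq hB ⟨hp.1, hp.2 ▸ hξ⟩
  · have e1 : C.tr (C.wd (tp C₀ C Ω τ θ) (cj (tp C₀ C Ω τ θ'))) ξ = 0 := by
      refine finsum_mem_eq_zero_of_forall_eq_zero fun p hp => ?_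
      have : tp C₀ C Ω τ θ p = 0 := tp_neg fun hg => hξ (hp.2 ▸ hg.2)
      simp [XC.wd, this]
    have e2 : C₀.tr (C₀.wd θ (cj θ')) ξ = 0 := by
      refine finsum_mem_eq_zero_of_forall_eq_zero fun p hp => ?_
      have : θ p = 0 := by
        by_contra h0
        exact hξ (hK (hp.2 ▸ (hθ.2 p h0).2))
      simp [XC.wd, this]
    rw [e1, e2]

variable [RS Y₀] [RS Y]

omit [RS Y₀] in
theorem good_ev (hΩ : IsOpen Ω) (h : p ∉ C.Sg ∧ C.x p ∈ Ω) :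
    ∀ᶠ y in 𝓝 p, y ∉ C.Sg ∧ C.x y ∈ Ω :=
  (MP_5d7cf0_gt.T.eventually_notMem' C.fin h.1).and
    ((C.reg p h.1).1.continuousAt.eventually (hΩ.mem_nhds h.2))

theorem hol (hΩ : IsOpen Ω) (hB : ∀ ξ ∈ Ω, BijOn τ (C.Φ ξ) (C₀.Φ ξ))
    (hc : ∀ p ∉ C.Sg, C.x p ∈ Ω → ContinuousAt τ p) (h : p ∉ C.Sg ∧ C.x p ∈ Ω) :
    Hol τ p ∧ D (zc (τ p) ∘ τ) p = D C.x p / D C₀.x (τ p) := by
  have e : C.x =ᶠ[𝓝 p] fun y => C₀.x (τ y) :=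
    (good_ev hΩ h).mono fun y hy => (mem hB hy).2.symm
  have h0 := C₀.reg _ (mem hB h).1
  have h1 : Hol τ p :=
    MP_5d7cf0_gt.T.hol_of_local (hc p h.1 h.2) h0.1 h0.2.1 ((C.reg p h.1).1.congr e)
  refine ⟨h1, ?_⟩
  rw [MP_5d7cf0_gt.T.D_congr e, h1.D_comp h0.1, mul_div_cancel_left₀ _ h0.2.1]

theorem cl (hΩ : IsOpen Ω) (hK : IsCompact K) (hKΩ : K ⊆ Ω) (hR : ∀ ξ ∈ K, C.R.eval ξ ≠ 0)
    (hB : ∀ ξ ∈ Ω, BijOn τ (C.Φ ξ) (C₀.Φ ξ))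
    (hc : ∀ p ∉ C.Sg, C.x p ∈ Ω → ContinuousAt τ p) (hθ : C₀.Zk K θ) :
    Cl (tp C₀ C Ω τ θ) := fun p => by
  by_cases hg : p ∉ C.Sg ∧ C.x p ∈ Ω
  · obtain ⟨u, hu⟩ := hθ.1 (τ p)
    refine ⟨fun y => u (τ y), ?_⟩
    filter_upwards [(hc p hg.1 hg.2).eventually hu, good_ev hΩ hg] with y h1 h2
    obtain ⟨h3, h4⟩ := hol hΩ hB hc h2
    obtain ⟨h5, h6⟩ := dd_comp h3 h1.1
    exact ⟨h5, by rw [h6, h4, ← h1.2, tp_pos h2]⟩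
  · have key : ∀ᶠ y in 𝓝 p, y ∉ C.Sg → C.x y ∉ K := by
      by_cases hp : p ∈ C.Sg
      · have h1 : ∀ᶠ y in 𝓝[≠] p, C.x y ∉ K := by
          rcases C.bad p hp with ⟨β, hβ, ht⟩ | ht
          · exact ht.eventually (hK.isClosed.isOpen_compl.mem_nhds fun h => hR β h hβ)
          · exact ht.eventually hK.isBounded.compl
        filter_upwards [eventually_nhdsWithin_iff.mp h1] with y hy hs
        exact hy fun e => hs (e ▸ hp)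
      · have h1 : C.x p ∉ K := fun h => hg ⟨hp, hKΩ h⟩
        filter_upwards [(C.reg p hp).1.continuousAt.eventually
          (hK.isClosed.isOpen_compl.mem_nhds h1)] with y hy _ using hy
    refine lc_of_zero (key.mono fun y hy => ?_)
    by_contra h0
    exact hy (supp hB hθ h0).1 (supp hB hθ h0).2

end TpP

theorem sTp : STp := by
  intro Y₀ Y _ _ _ _ _ _ C₀ C Ω K τ hΩ hK hKΩ hR hB hc
  refine ⟨TpP.tp C₀ C Ω τ, fun θ hθ => ⟨⟨TpP.cl hΩ hK hKΩ hR hB hc hθ, fun p => TpP.supp hB hθ⟩,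
    fun θ' _ => ?_, fun p h1 h2 => ?_⟩⟩
  · simp only [XC.Q, XC.pr, TpP.tr_eq hKΩ hB hθ]
  · have h3 : D C.x p ≠ 0 := (C.reg p h1).2.1
    rw [TpP.tp_pos ⟨h1, h2⟩]
    field_simp

end Pool.Agent.P.MP_7ede32_ag.Hod
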