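import Pool.Agent.P.MP_7ede32_ag.Hod.StF
import Pool.Agent.P.MP_7ede32_ag.Hod.StB
import Pool.Agent.P.MP_7ede32_ag.Hod.MT

/-!
The pairing with a transported form is holomorphic in the parameter.
-/

open Set Filter Topology MeasureTheory ComplexConjugate Polynomial Matrix

noncomputable section

namespace Pool.Agent.P.MP_7ede32_ag.Hod

open MP_5d7cf0_gt.T (RS zc loc An D Om Hf)
open Ell (E2)

namespace Tr1P

variable {Y : Type} [TopologicalSpace Y] [ChartedSpace ℂ Y] [RS Y] {C : XC Y}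

omit [RS Y] in
theorem tend {s : ℂ → Y} {p : Y} {ξ₀ : ℂ} (t₀ : ℂ) (hp : p ∈ C.Φ ξ₀) (hs : IsSec C.x s p) :
    Tendsto (fun q : E2 => (q.1, s q.2)) (𝓝 (t₀, ξ₀)) (𝓝 (t₀, p)) := by
  have h1 : Tendsto s (𝓝 ξ₀) (𝓝 p) := by
    have := hs.tendsto
    rwa [hp.2] at this
  exact (continuous_fst.tendsto _).prodMk_nhds (h1.comp (continuous_snd.tendsto _))

theorem ev_fib (h2 : SCov) {t₀ ξ₀ : ℂ} (h0 : C.R.eval ξ₀ ≠ 0) {r : ℂ × Y → Prop}
    (hr : ∀ p ∈ C.Φ ξ₀, ∀ᶠ z in 𝓝 (t₀, p), r z) :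
    ∀ᶠ q in 𝓝 ((t₀, ξ₀) : E2), ∀ p ∈ C.Φ q.2, r (q.1, p) := by
  obtain ⟨n, -, hn⟩ := h2 Y C
  obtain ⟨-, s, hs, hb⟩ := hn ξ₀ h0
  have h1 : ∀ᶠ q in 𝓝 ((t₀, ξ₀) : E2), ∀ p ∈ C.Φ ξ₀, r (q.1, s p q.2) :=
    (eventually_all_finite (C.Φ_finite ξ₀)).2 fun p hp =>
      (tend t₀ hp (hs p hp)).eventually (hr p hp)
  filter_upwards [h1, (continuous_snd.tendsto ((t₀, ξ₀) : E2)).eventually hb] with q e1 e2 p hp
  obtain ⟨p', hp', rfl⟩ := e2.surjOn hp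
  exact e1 p' hp'

theorem cont_tr (h2 : SCov) {t₀ ξ₀ : ℂ} (h0 : C.R.eval ξ₀ ≠ 0) {h : ℂ × Y → ℂ}
    (hh : ∀ p ∈ C.Φ ξ₀, ContinuousAt h (t₀, p)) :
    ContinuousAt (fun q : E2 => C.tr (fun p => h (q.1, p)) q.2) (t₀, ξ₀) := by
  obtain ⟨n, -, hn⟩ := h2 Y C
  obtain ⟨-, s, hs, hb⟩ := hn ξ₀ h0
  have hf := C.Φ_finite ξ₀
  have h1 : Tendsto (fun q : E2 => ∑ p ∈ hf.toFinset, h (q.1, s p q.2)) (𝓝 (t₀, ξ₀))
      (𝓝 (∑ p ∈ hf.toFinset, h (t₀, p))) :=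
    tendsto_finsetSum _ fun p hp =>
      (hh p (hf.mem_toFinset.1 hp)).tendsto.comp
        (tend t₀ (hf.mem_toFinset.1 hp) (hs p (hf.mem_toFinset.1 hp)))
  have e0 : C.tr (fun p => h (t₀, p)) ξ₀ = ∑ p ∈ hf.toFinset, h (t₀, p) :=
    finsum_mem_eq_finite_toFinset_sum _ hf
  show Tendsto _ _ (𝓝 (C.tr (fun p => h (t₀, p)) ξ₀))
  rw [e0]
  refine h1.congr' ?_
  filter_upwards [(continuous_snd.tendsto ((t₀, ξ₀) : E2)).eventually hb] with q e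
  rw [← finsum_mem_eq_finite_toFinset_sum (fun p => h (q.1, s p q.2)) hf]
  exact finsum_mem_eq_of_bijOn (fun p => s p q.2) e fun _ _ => rfl

theorem deriv_tr {h : ℂ → Y → ℂ} {h' : Y → ℂ} {t ξ : ℂ}
    (hh : ∀ p ∈ C.Φ ξ, HasDerivAt (fun s => h s p) (h' p) t) :
    HasDerivAt (fun s => C.tr (h s) ξ) (C.tr h' ξ) t := by
  have hf := C.Φ_finite ξ
  have e : ∀ u : Y → ℂ, C.tr u ξ = ∑ p ∈ hf.toFinset, u p := fun u =>
    finsum_mem_eq_finite_toFinset_sum _ hf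
  simp only [e]
  exact HasDerivAt.fun_sum fun p hp => hh p (hf.mem_toFinset.1 hp)

theorem cont_c {θ : Y → ℂ × ℂ} (hθ : Cl θ) {p : Y} (hp : p ∉ C.Sg) :
    ContinuousAt (fun y => conj ((θ y).1 / D C.x y)) p := by
  have hs := mem_chart_source ℂ p
  have h1 : ContinuousAt (dv C.x p) p := (an_dv hs (C.reg p hp).1).continuousAt
  have h2 : dv C.x p p ≠ 0 := div_ne_zero (C.reg p hp).2.1 (MP_5d7cf0_gt.T.D_zc_ne hs)
  refine Complex.continuous_conj.continuousAt.comp (((hθ p).cn.1.div h1 h2).congr ?_)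
  filter_upwards [MP_5d7cf0_gt.T.source_mem hs] with y hy
  simp only [Pi.div_apply, dv]
  rw [div_div_div_cancel_right₀ (MP_5d7cf0_gt.T.D_zc_ne hy)]

omit [RS Y] in
theorem int_K {θ : Y → ℂ × ℂ} {K : Set ℂ} (hK : C.Zk K θ) (a : Y → ℂ) :
    ∫ ξ in K, C.tr (fun p => a p * conj ((θ p).1 / D C.x p)) ξ =
      ∫ ξ, C.tr (fun p => a p * conj ((θ p).1 / D C.x p)) ξ := by
  refine setIntegral_eq_integral_of_forall_compl_eq_zero fun ξ hξ => ?_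
  refine finsum_mem_eq_zero_of_forall_eq_zero fun p hp => ?_
  have : θ p = 0 := by
    by_contra hne
    exact hξ (hp.2 ▸ (hK.2 p hne).2)
  simp [this]

theorem Q_fm {L : PeriodPair} {𝒴 : Pl L} {t : ℂ} (μ : Md 𝒴 t) (θ : μ.Y → ℂ × ℂ) (F : E3 → ℂ) :
    μ.M.Q (hf (μ.fm F)) θ =
      ∫ ξ, μ.M.tr (fun p => F (μ.j p) * conj ((θ p).1 / D μ.M.x p)) ξ := by
  rw [XC.Q_hf]
  refine integral_congr_ae (Eventually.of_forall fun ξ => ?_)
  refine finsum_mem_congr rfl fun p hp => ?_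
  rw [Md.fm, mul_div_cancel_right₀ _ (μ.M.reg p hp.1).2.1]

end Tr1P

open Tr1P in
theorem sTr1 (h1 : SParInt) (h2 : SCov) : STr1 := by
  intro L 𝒴 t₀ μ θ F hθ hF
  obtain ⟨K, hK, hR, hZ⟩ := μ.M.zk_of_zc hθ
  have hA : ∀ p ∉ μ.M.Sg, AnalyticAt ℂ F (μ.j p) := fun p hp => hF _ (Md.ok_j hp) rfl
  have hG : ∀ p ∉ μ.M.Sg, AnalyticAt ℂ (fun q => F (𝒴.prj q)) (μ.j p) := fun p hp =>
    AnalyticAt.comp (g := F) (f := 𝒴.prj) (by rw [(Md.ok_j hp).prj.2.1]; exact hA p hp)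
      (Md.ok_j hp).prj.1
  have hc : ∀ p ∉ μ.M.Sg, ∀ t : ℂ, ContinuousAt
      (fun z : ℂ × μ.Y => ((z.1, μ.M.x z.2, μ.M.y z.2) : E3)) (t, p) := fun p hp t =>
    continuousAt_fst.prodMk
      ((ContinuousAt.comp (f := Prod.snd) (μ.M.reg p hp).1.continuousAt continuousAt_snd).prodMk
        (ContinuousAt.comp (f := Prod.snd) (μ.M.yan p hp).continuousAt continuousAt_snd))
  have e : μ.Gam θ F = fun t => ∫ ξ in K, μ.M.tr
      (fun p => F (𝒴.prj (t, μ.M.x p, μ.M.y p)) * conj ((θ p).1 / D μ.M.x p)) ξ :=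
    funext fun t => (int_K hZ _).symm
  obtain ⟨a1, a2⟩ := h1 (fun t ξ => μ.M.tr
      (fun p => F (𝒴.prj (t, μ.M.x p, μ.M.y p)) * conj ((θ p).1 / D μ.M.x p)) ξ)
    (fun ξ => μ.M.tr (fun p => 𝒴.dT F (μ.j p) * conj ((θ p).1 / D μ.M.x p)) ξ) K t₀ hK
    (fun ξ₀ h0 => by
      have b1 := ev_fib (C := μ.M.toXC) h2 (t₀ := t₀) (hR ξ₀ h0)
        (r := fun z => AnalyticAt ℂ (fun q => F (𝒴.prj q)) ((z.1, μ.M.x z.2, μ.M.y z.2) : E3))
        fun p hp => (hc p hp.1 t₀).eventually (hG p hp.1).eventually_analyticAt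
      have b2 : ∀ᶠ q in 𝓝 ((t₀, ξ₀) : E2), μ.M.R.eval q.2 ≠ 0 :=
        (μ.M.R.continuous.comp continuous_snd).continuousAt.eventually_ne (hR ξ₀ h0)
      filter_upwards [b1, b2] with q c1 c2
      refine ⟨cont_tr (C := μ.M.toXC) h2 (t₀ := q.1) c2 (h := fun z =>
        F (𝒴.prj (z.1, μ.M.x z.2, μ.M.y z.2)) * conj ((θ z.2).1 / D μ.M.x z.2)) fun p hp => ?_,
        (deriv_tr (C := μ.M.toXC) (h' := fun p => deriv (fun t =>
          F (𝒴.prj (t, μ.M.x p, μ.M.y p)) * conj ((θ p).1 / D μ.M.x p)) q.1)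
          fun p hp => ?_).differentiableAt⟩
      · exact (ContinuousAt.comp (g := fun q => F (𝒴.prj q)) (x := (q.1, p))
          (f := fun z : ℂ × μ.Y => ((z.1, μ.M.x z.2, μ.M.y z.2) : E3)) (c1 p hp).continuousAt
          (hc p hp.1 q.1)).mul (ContinuousAt.comp (f := Prod.snd) (x := (q.1, p))
            (cont_c (C := μ.M.toXC) hθ.1 hp.1) continuousAt_snd)
      · refine (DifferentiableAt.mul_const ?_ _).hasDerivAt
        exact DifferentiableAt.comp (g := fun q => F (𝒴.prj q)) q.1 (c1 p hp).differentiableAt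
          (differentiableAt_id.prodMk (differentiableAt_const _)))
    (fun ξ _ => (deriv_tr (C := μ.M.toXC) fun p hp =>
      ((Md.ok_j hp.1).hasDerivAt_t (hA p hp.1).differentiableAt).mul_const _).deriv)
  refine ⟨e ▸ a1, ?_, ?_⟩
  · rw [Q_fm]
    refine integral_congr_ae (Eventually.of_forall fun ξ => ?_)
    refine finsum_mem_congr rfl fun p hp => ?_
    exact congrArg (fun q => F q * conj ((θ p).1 / D μ.M.x p)) (Md.ok_j hp.1).prj.2.1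
  · rw [e, a2, int_K hZ, Q_fm]

end Pool.Agent.P.MP_7ede32_ag.Hod
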