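import Pool.Agent.P.MP_7ede32_ag.Hod.StF
import Pool.Agent.P.MP_7ede32_ag.Hod.StA
import Pool.Agent.P.MP_7ede32_ag.Hod.MT

/-!
Transport of closed forms to the nearby fibres.
-/

open Set Filter Topology MeasureTheory ComplexConjugate Polynomial Matrix

noncomputable section

namespace Pool.Agent.P.MP_7ede32_ag.Hod

open MP_5d7cf0_gt.T (RS zc loc An D Om)
open Ell (E2)

namespace Tr2P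

variable {L : PeriodPair} {𝒴 : Pl L} {t₀ t : ℂ}

/-- one compact set for finitely many forms -/
theorem exists_K {Y : Type} [TopologicalSpace Y] [ChartedSpace ℂ Y] [RS Y] (C : XC Y)
    {𝒮 : Set (Y → ℂ × ℂ)} (hf : 𝒮.Finite) (h : ∀ θ ∈ 𝒮, C.Zc θ) :
    ∃ K, IsCompact K ∧ (∀ ξ ∈ K, C.R.eval ξ ≠ 0) ∧ ∀ θ ∈ 𝒮, C.Zk K θ := by
  choose K h1 h2 h3 using fun θ : 𝒮 => C.zk_of_zc (h θ.1 θ.2)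
  have := hf.to_subtype
  refine ⟨⋃ θ, K θ, isCompact_iUnion h1, fun ξ hξ => ?_, fun θ hθ => ?_⟩
  · obtain ⟨θ, hθ⟩ := mem_iUnion.1 hξ
    exact h2 θ ξ hθ
  · exact (h3 ⟨θ, hθ⟩).mono (subset_iUnion K ⟨θ, hθ⟩)

/-- the point of the central fibre that matches `p` -/
def τ (μ₀ : Md 𝒴 t₀) (μ : Md 𝒴 t) (p : μ.Y) : μ₀.Y := Classical.epsilon fun p₀ =>
  p₀ ∉ μ₀.M.Sg ∧ μ₀.j p₀ = (t₀, μ.M.x p, 𝒴.nr (t₀, μ.M.x p, μ.M.y p))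

/-- the matching of the roots over `ξ` -/
structure Mt (𝒴 : Pl L) (t₀ t ξ : ℂ) : Prop where
  r₀ : (sp1 𝒴.R t₀).eval ξ ≠ 0
  r : (sp1 𝒴.R t).eval ξ ≠ 0
  bij : BijOn (fun η => 𝒴.nr (t, ξ, η)) (𝒴.rts t₀ ξ) (𝒴.rts t ξ)
  inv : ∀ η ∈ 𝒴.rts t₀ ξ, 𝒴.nr (t₀, ξ, 𝒴.nr (t, ξ, η)) = η
  cont : ∀ η ∈ 𝒴.rts t ξ, ContinuousAt (fun y : E2 => 𝒴.nr (t₀, y.1, y.2)) (ξ, η)

variable {μ₀ : Md 𝒴 t₀} {μ : Md 𝒴 t} {p : μ.Y}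

theorem y_mem (hp : p ∉ μ.M.Sg) : μ.M.y p ∈ 𝒴.rts t (μ.M.x p) :=
  Pl.mem_rts.2 (Md.ok_j hp).2.1

theorem spec (hp : p ∉ μ.M.Sg) (h : Mt 𝒴 t₀ t (μ.M.x p)) :
    τ μ₀ μ p ∉ μ₀.M.Sg ∧ μ₀.j (τ μ₀ μ p) = (t₀, μ.M.x p, 𝒴.nr (t₀, μ.M.x p, μ.M.y p)) ∧
      μ₀.M.x (τ μ₀ μ p) = μ.M.x p ∧
      𝒴.nr (t, μ.M.x p, μ₀.M.y (τ μ₀ μ p)) = μ.M.y p := by
  obtain ⟨η, hη, e⟩ := h.bij.surjOn (Finset.mem_coe.2 (y_mem hp))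
  have e1 : 𝒴.nr (t₀, μ.M.x p, μ.M.y p) = η := by
    rw [← e]
    exact h.inv η hη
  have hk : 𝒴.Ok (t₀, μ.M.x p, 𝒴.nr (t₀, μ.M.x p, μ.M.y p)) := by
    rw [e1]
    exact ⟨μ₀.rt, Pl.mem_rts.1 hη, h.r₀⟩
  have hs := Classical.epsilon_spec (μ₀.surj_j hk rfl)
  refine ⟨hs.1, hs.2, congrArg (fun q : E3 => q.2.1) hs.2, ?_⟩
  have e2 : μ₀.M.y (τ μ₀ μ p) = η := (congrArg (fun q : E3 => q.2.2) hs.2).trans e1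
  rw [e2]
  exact e

theorem bijOn {ξ : ℂ} (h : Mt 𝒴 t₀ t ξ) : BijOn (τ μ₀ μ) (μ.M.Φ ξ) (μ₀.M.Φ ξ) := by
  refine ⟨fun p hp => ?_, fun p hp p' hp' e => ?_, fun p₀ hp₀ => ?_⟩
  · obtain ⟨hp, rfl⟩ := hp
    exact ⟨(spec hp h).1, (spec hp h).2.2.1⟩
  · obtain ⟨hp, rfl⟩ := hp
    have e1 : μ.M.x p' = μ.M.x p := hp'.2
    have e2 := (spec (μ₀ := μ₀) hp h).2.2.2
    have e3 := (spec (μ₀ := μ₀) hp'.1 (e1 ▸ h)).2.2.2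
    rw [← e, e1, e2] at e3
    refine Md.inj_j hp hp'.1 ?_
    simp only [Md.j, e1, e3]
  · obtain ⟨hp₀, rfl⟩ := hp₀
    have h0 := y_mem hp₀
    have h1 := h.bij.mapsTo (Finset.mem_coe.2 h0)
    obtain ⟨p, hp, e⟩ := μ.surj_j
      (q := (t, μ₀.M.x p₀, 𝒴.nr (t, μ₀.M.x p₀, μ₀.M.y p₀))) ⟨μ.rt, Pl.mem_rts.1 h1, h.r⟩ rfl
    have e1 : μ.M.x p = μ₀.M.x p₀ := congrArg (fun q : E3 => q.2.1) e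
    have e2 : μ.M.y p = 𝒴.nr (t, μ₀.M.x p₀, μ₀.M.y p₀) := congrArg (fun q : E3 => q.2.2) e
    have hs := spec (μ₀ := μ₀) hp (e1 ▸ h)
    refine ⟨p, ⟨hp, e1⟩, Md.inj_j hs.1 hp₀ ?_⟩
    rw [hs.2.1, e1, e2, h.inv _ h0]
    rfl

theorem cont {Ω : Set ℂ} (hΩ : IsOpen Ω) (h : ∀ ξ ∈ Ω, Mt 𝒴 t₀ t ξ) (hp : p ∉ μ.M.Sg)
    (hx : μ.M.x p ∈ Ω) : ContinuousAt (τ μ₀ μ) p := by
  have cx : ContinuousAt μ.M.x p := (μ.M.reg p hp).1.continuousAt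
  have cy : ContinuousAt μ.M.y p := (μ.M.yan p hp).continuousAt
  have hs := spec (μ₀ := μ₀) hp (h _ hx)
  obtain ⟨s, hsec⟩ := exists_isSec (μ₀.M.reg _ hs.1).1 (μ₀.M.reg _ hs.1).2.1
  have s0 : s (μ.M.x p) = τ μ₀ μ p := by rw [← hs.2.2.1]; exact hsec.self
  have cs : ContinuousAt (fun y => s (μ.M.x y)) p :=
    ContinuousAt.comp (hs.2.2.1 ▸ hsec.cont) cx
  have ts : Tendsto (fun y => s (μ.M.x y)) (𝓝 p) (𝓝 (τ μ₀ μ p)) := s0 ▸ cs.tendsto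
  have hn := (Md.ok_j hs.1).nr.2.2
  have t1 : Tendsto (fun y => μ₀.j (s (μ.M.x y))) (𝓝 p) (𝓝 (μ₀.j (τ μ₀ μ p))) :=
    (Md.continuousAt_j hs.1).tendsto.comp ts
  have t2 : Tendsto (fun y => ((t₀, μ.M.x y, 𝒴.nr (t₀, μ.M.x y, μ.M.y y)) : E3)) (𝓝 p)
      (𝓝 (μ₀.j (τ μ₀ μ p))) := by
    rw [hs.2.1]
    exact (continuousAt_const.prodMk (cx.prodMk
      (ContinuousAt.comp (f := fun y => ((μ.M.x y, μ.M.y y) : E2))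
        ((h _ hx).cont _ (y_mem hp)) (cx.prodMk cy)))).tendsto
  refine cs.congr ?_
  filter_upwards [t1.eventually hn, t2.eventually hn,
    MP_5d7cf0_gt.T.eventually_notMem' μ.M.fin hp, cx.eventually (hΩ.mem_nhds hx),
    ts.eventually (MP_5d7cf0_gt.T.eventually_notMem' μ₀.M.fin hs.1),
    cx.eventually (hs.2.2.1 ▸ hsec.right)] with y a1 a2 a3 a4 a5 a6
  have hy := spec (μ₀ := μ₀) a3 (h _ a4)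
  refine Md.inj_j a5 hy.1 ?_
  have o2 := (Md.ok_j hy.1).2.1
  rw [hy.2.1] at o2 ⊢
  rw [← a1.2.1 (Md.ok_j a5).2.1, ← a2.2.1 o2]
  simp only [Pl.prj]
  rw [a1.2.2, a2.2.2]
  simp only [Md.j, a6]

end Tr2P

theorem sTr2 (h1 : SMatch) (h2 : STp) : STr2 := by
  intro L 𝒴 t₀ μ₀ 𝒮 hf hS
  obtain ⟨K, hK, hR, hZ⟩ := Tr2P.exists_K μ₀.M.toXC hf hS
  obtain ⟨Ω, hΩ, hKΩ, hev⟩ := h1 L 𝒴 t₀ K μ₀.rt hK fun ξ hξ => μ₀.hR ▸ hR ξ hξ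
  have h0 := hev.self_of_nhds.2
  filter_upwards [hev] with t ht μ
  have hm : ∀ ξ ∈ Ω, Tr2P.Mt 𝒴 t₀ t ξ := fun ξ hξ =>
    ⟨(h0 ξ hξ).1, (ht.2 ξ hξ).1, (ht.2 ξ hξ).2.1, (ht.2 ξ hξ).2.2.1, (ht.2 ξ hξ).2.2.2⟩
  have hR' : ∀ ξ ∈ K, μ.M.R.eval ξ ≠ 0 := fun ξ hξ => μ.hR ▸ (hm ξ (hKΩ hξ)).r
  obtain ⟨tp, htp⟩ := h2 μ₀.Y μ.Y μ₀.M.toXC μ.M.toXC Ω K (Tr2P.τ μ₀ μ) hΩ hK hKΩ hR'
    (fun ξ hξ => Tr2P.bijOn (hm ξ hξ)) fun p hp hx => Tr2P.cont hΩ hm hp hx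
  refine ⟨tp, fun θ hθ => ?_⟩
  obtain ⟨a1, a2, a3⟩ := htp θ (hZ θ hθ)
  refine ⟨μ.M.zc_of_zk hK hR' a1, fun θ' hθ' => a2 θ' (hZ θ' hθ'), fun F => ?_⟩
  rw [XC.Q_hf, Md.Gam]
  refine congrArg _ (funext fun ξ => ?_)
  by_cases hξ : ξ ∈ Ω
  · refine finsum_mem_eq_of_bijOn (Tr2P.τ μ₀ μ) (Tr2P.bijOn (hm ξ hξ)) fun p hp => ?_
    obtain ⟨hp, rfl⟩ := hp
    have hs := Tr2P.spec (μ₀ := μ₀) hp (hm _ hξ)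
    rw [a3 p hp hξ, Md.fm, mul_div_cancel_right₀ _ (μ.M.reg p hp).2.1, hs.2.2.1]
    simp only [Pl.prj, hs.2.2.2, Md.j]
  · have e1 : ∀ p ∈ μ.M.Φ ξ, tp θ p = 0 := fun p hp => by
      by_contra h
      exact hξ (hKΩ (hp.2 ▸ (a1.2 p h).2))
    have e2 : ∀ p ∈ μ₀.M.Φ ξ, θ p = 0 := fun p hp => by
      by_contra h
      exact hξ (hKΩ (hp.2 ▸ ((hZ θ hθ).2 p h).2))
    unfold XC.tr
    rw [finsum_mem_eq_zero_of_forall_eq_zero fun p hp => by simp [e1 p hp],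
      finsum_mem_eq_zero_of_forall_eq_zero fun p hp => by simp [e2 p hp]]

end Pool.Agent.P.MP_7ede32_ag.Hod
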