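import Pool.Agent.P.MP_7ede32_ag.Hod.StF
import Pool.Agent.P.MP_7ede32_ag.Hod.StA
import Pool.Agent.P.MP_7ede32_ag.Hod.MT

/-!
The vector field of a family with vanishing Kodaira-Spencer class.
-/

open Set Filter Topology Polynomial Matrix

namespace Pool.Agent.P.MP_7ede32_ag.Hod

open MP_5d7cf0_gt.T (RS zc loc An D Om Hf an_const D_zc_self)

namespace VFP

variable {L : PeriodPair} {𝒴 : Pl L} {g : ℕ} {N : Fin g → (KK L)[X][X]} {u : Fin g → E3 → ℂ}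

/-- the constants of integration are elliptic functions -/
theorem desc (h1 : SDesc) (hu : ∀ i, 𝒴.Rat (u i)) (h : ∃ᶠ t in cc, 𝒴.AltI N u t) :
    ∃ c : Fin g → KK L, ∀ᶠ q in 𝒴.gen, ∀ i j,
      (u i q - rv (c i) q.1) * 𝒴.phs N j q = (u j q - rv (c j) q.1) * 𝒴.phs N i q := by
  let a : Fin g × Fin g → E3 → ℂ := fun ij q =>
    u ij.1 q * 𝒴.phs N ij.2 q - u ij.2 q * 𝒴.phs N ij.1 q
  let b : Fin g × Fin g → Fin g → E3 → ℂ := fun ij k q =>
    (if ij.1 = k then 1 else 0) * 𝒴.phs N ij.2 q - (if ij.2 = k then 1 else 0) * 𝒴.phs N ij.1 q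
  have hb : ∀ (f : Fin g → ℂ) ij q, ∑ k, f k * b ij k q =
      f ij.1 * 𝒴.phs N ij.2 q - f ij.2 * 𝒴.phs N ij.1 q := by
    intro f ij q
    simp [b, mul_sub, Finset.sum_sub_distrib]
  have hφ : ∀ i, 𝒴.Rat (𝒴.phs N i) := fun i => Pl.rat_ph (N i)
  have key := h1 L 𝒴 (range a ∪ range fun x : (Fin g × Fin g) × Fin g => b x.1 x.2)
    ((countable_range _).union (countable_range _)) (by
      rintro F (⟨ij, rfl⟩ | ⟨x, rfl⟩)
      · exact ((hu _).mul (hφ _)).sub ((hu _).mul (hφ _))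
      · exact ((Pl.rat_const _).mul (hφ _)).sub ((Pl.rat_const _).mul (hφ _)))
  obtain ⟨t, ⟨f, hf⟩, ht⟩ := (h.and_eventually key).exists
  obtain ⟨c, hc⟩ := ht (Fin g) (Fin g × Fin g) a b f (fun ij => Or.inl ⟨ij, rfl⟩)
    (fun ij k => Or.inr ⟨(ij, k), rfl⟩) (fun ij => hf.mono fun q hq => by
      rw [hb]
      simp only [a]
      linear_combination hq ij.1 ij.2)
  refine ⟨c, ?_⟩
  filter_upwards [eventually_all.2 hc] with q hq i j
  have := hq (i, j)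
  rw [hb (fun k => rv (c k) q.1)] at this
  simp only [a] at this
  linear_combination this

/-- regularity along one fibre -/
theorem reg (h2 : MP_5d7cf0_gt.T.S_Bpf) {t : ℂ} (μ : Md 𝒴 t) {w : Fin g → μ.Y → ℂ}
    (hw : μ.IsB N w) (hg : 0 < g) (hA : μ.CwA N u) {s : E3 → ℂ} {f : Fin g → ℂ}
    (hs : ∀ᶠ q in 𝒴.fb t, ∀ i, s q * 𝒴.phs N i q = u i q - f i) : μ.SReg s := by
  intro p
  obtain ⟨w', hw', h0⟩ := h2 μ.Y ⟨w ⟨0, hg⟩, (hw.1 _).2.1, hw.2.1.ne_zero _⟩ p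
  obtain ⟨i, hi⟩ : ∃ i, w i p ≠ 0 := by
    by_contra hc
    push Not at hc
    obtain ⟨c, rfl⟩ := (Submodule.mem_span_range_iff_exists_fun ℂ).1 (hw.2.2 w' hw')
    exact h0 (by simp [hc])
  obtain ⟨a, ha, ea⟩ := hA p i
  have hβ : An (fun y => w i y / D (zc p) y) p := (hw.1 i).2.1 p
  have hβ0 : w i p / D (zc p) p ≠ 0 := by rwa [D_zc_self, div_one]
  refine ⟨fun y => (a y - f i) / (w i y / D (zc p) y), (ha.sub (an_const _)).div hβ hβ0, ?_⟩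
  filter_upwards [ea, hw.1.coef i p, μ.near hs p, Md.xv_ne (μ := μ) p,
    mem_nhdsWithin_of_mem_nhds (hβ.continuousAt.eventually_ne hβ0)] with y e1 e2 e3 e4 e5
  have e6 := e3.2 i
  have e7 := e4.1
  replace e5 : w i y / D (zc p) y ≠ 0 := e5
  rw [eq_div_iff e5, ← e1, ← e2]
  field_simp
  linear_combination e6

end VFP

open VFP in
theorem sVF (h1 : SDesc) (h2 : MP_5d7cf0_gt.T.S_Bpf) (h3 : SIrr) : SVF := by
  intro L 𝒴 Φ g N m u hB hg hC hA hI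
  obtain ⟨c, hc⟩ := desc h1 hC.rat hI
  have hφ : ∀ i, 𝒴.Rat (𝒴.phs N i) := fun i => Pl.rat_ph (N i)
  have h0 := hB.ne h3 ⟨0, hg⟩
  have hG : ∀ᶠ t in cd, t ∈ Φ.G := Φ.mem
  have hi : Irreducible 𝒴.P :=
    irreducible_of_sp 𝒴.monic (hG.mono fun t h => (Md.irr h3 (Φ.md t h)).2).frequently
  have hs : 𝒴.Rat fun q => (u ⟨0, hg⟩ q - rv (c ⟨0, hg⟩) q.1) / 𝒴.phs N ⟨0, hg⟩ q :=
    ((hC.rat _).sub (Pl.rat_rv _)).div (hφ _) hi h0
  set s : E3 → ℂ := fun q => (u ⟨0, hg⟩ q - rv (c ⟨0, hg⟩) q.1) / 𝒴.phs N ⟨0, hg⟩ q with hsd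
  have e : ∀ᶠ q in 𝒴.gen, ∀ i, s q * 𝒴.phs N i q = u i q - rv (c i) q.1 := by
    filter_upwards [hc, h0] with q hq hq0 i
    simp only [hsd]
    field_simp
    linear_combination hq ⟨0, hg⟩ i
  refine ⟨s, ⟨hs, ?_⟩, ?_⟩
  · filter_upwards [Pl.gen_nhds e, hC.eq, 𝒴.gen_ok, hs.1, eventually_all.2 fun i => (hφ i).1,
      eventually_all.2 fun i => (hC.rat i).1,
      Pl.gen_fst (eventually_all.2 fun i => rg_cd (c i))] with q e1 e2 ok a1 a2 a3 a4 i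
    have d1 := a1.differentiableAt
    have d2 := (a2 i).differentiableAt
    have d3 := (a3 i).differentiableAt
    have d4 := (a4 i).an.differentiableAt
    have d5 : DifferentiableAt ℂ (fun q : E3 => rv (c i) q.1) q := d4.comp q differentiableAt_fst
    have e3 := ok.dX_congr (d1.fun_mul d2) (d3.fun_sub d5) (e1.mono fun q' h _ ho => h ho i)
    rw [Pl.dX_mul d1 d2, Pl.dX_sub d3 d5, Pl.dX_fst d4, e2 i] at e3
    simp only [Pl.LD, Nat.cast_one]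
    linear_combination -e3
  · filter_upwards [hB, hA, Pl.gen_fb e] with t hb ha he h
    obtain ⟨w, hw⟩ := hb h
    refine reg h2 _ hw hg (ha h) (f := fun i => rv (c i) t) ?_
    filter_upwards [he, 𝒴.fb_on t] with q h1 h2 i
    rw [h1 i, h2.1]

end Pool.Agent.P.MP_7ede32_ag.Hod
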