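import Pool.Agent.P.MP_7ede32_ag.Hod.RU

/-!
The covering given by the ratio of two holomorphic forms.
-/

open Set Filter Topology Polynomial Bornology

namespace Pool.Agent.P.MP_7ede32_ag.Hod

open MP_5d7cf0_gt.T (RS zc loc An D Hf Om)

namespace XCEP

variable {Y : Type} [TopologicalSpace Y] [ChartedSpace ℂ Y] [RS Y] {w₁ w₂ : Y → ℂ} {p : Y}

theorem ratio_eq (w₁ w₂ : Y → ℂ) (p : Y) : (fun y => (w₁ y / D (zc p) y) / (w₂ y / D (zc p) y))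
    =ᶠ[𝓝 p] fun y => w₁ y / w₂ y := by
  filter_upwards [MP_5d7cf0_gt.T.source_mem (mem_chart_source ℂ p)] with y hy
  exact div_div_div_cancel_right₀ (MP_5d7cf0_gt.T.D_zc_ne hy) _ _

theorem an_ratio (h1 : w₁ ∈ Om Y) (h2 : w₂ ∈ Om Y) (hp : w₂ p ≠ 0) :
    An (fun y => w₁ y / w₂ y) p := by
  refine MP_5d7cf0_gt.T.An.congr (MP_5d7cf0_gt.T.An.div (h1 p) (h2 p) ?_) (ratio_eq w₁ w₂ p)
  simpa [MP_5d7cf0_gt.T.D_zc_self] using hp

theorem mer_ratio (h1 : w₁ ∈ Om Y) (h2 : w₂ ∈ Om Y) (p : Y) :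
    MeromorphicAt (loc (fun y => w₁ y / w₂ y) p) (zc p p) := by
  have a1 : AnalyticAt ℂ (loc (fun y => w₁ y / D (zc p) y) p) (zc p p) := h1 p
  have a2 : AnalyticAt ℂ (loc (fun y => w₂ y / D (zc p) y) p) (zc p p) := h2 p
  refine (a1.meromorphicAt.div a2.meromorphicAt).congr ?_
  exact (MP_5d7cf0_gt.T.loc_congr (mem_chart_source ℂ p) (ratio_eq w₁ w₂ p)).filter_mono
    nhdsWithin_le_nhds

omit [RS Y] in
theorem tendsto_of_loc {u : Y → ℂ} {l : Filter ℂ} (h : Tendsto (loc u p) (𝓝[≠] (zc p p)) l) :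
    Tendsto u (𝓝[≠] p) l := by
  rw [← MP_5d7cf0_gt.T.map_symm_ne (mem_chart_source ℂ p)]
  exact h

theorem lim_ratio (h1 : w₁ ∈ Om Y) (h2 : w₂ ∈ Om Y) (p : Y) :
    ∃ β, Tendsto (fun y => w₁ y / w₂ y) (𝓝[≠] p) (𝓝 β) ∨
      Tendsto (fun y => w₁ y / w₂ y) (𝓝[≠] p) (cobounded ℂ) := by
  rcases lt_or_ge (meromorphicOrderAt (loc (fun y => w₁ y / w₂ y) p) (zc p p)) 0 with h | h
  · exact ⟨0, Or.inr (tendsto_of_loc (tendsto_cobounded_of_meromorphicOrderAt_neg h))⟩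
  · obtain ⟨c, hc⟩ := tendsto_nhds_of_meromorphicOrderAt_nonneg (mer_ratio h1 h2 p) h
    exact ⟨c, Or.inl (tendsto_of_loc hc)⟩

theorem fibre_finite (h1 : w₁ ∈ Om Y) (h2 : w₂ ∈ Om Y)
    (hi : ∀ a b : ℂ, a • w₁ + b • w₂ = 0 → a = 0 ∧ b = 0) (β : ℂ) :
    {p | w₂ p ≠ 0 ∧ w₁ p / w₂ p = β}.Finite := by
  have hm : (1 : ℂ) • w₁ + (-β) • w₂ ∈ Om Y :=
    (Om Y).add_mem ((Om Y).smul_mem _ h1) ((Om Y).smul_mem _ h2)
  refine (MP_5d7cf0_gt.T.om_finite_zeros hm fun h => one_ne_zero (hi _ _ h).1).subset ?_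
  rintro p ⟨hp, he⟩
  rw [div_eq_iff hp] at he
  simp [he]

theorem crit_finite (h1 : w₁ ∈ Om Y) (h2 : w₂ ∈ Om Y)
    (hi : ∀ a b : ℂ, a • w₁ + b • w₂ = 0 → a = 0 ∧ b = 0) (hZ : {p | w₂ p = 0}.Finite) :
    {p | D (fun y => w₁ y / w₂ y) p = 0}.Finite := by
  refine MP_5d7cf0_gt.T.finite_of_isolated fun p => ?_
  have hs : ∀ᶠ y in 𝓝[≠] p, y ∈ (chartAt ℂ p).source :=
    nhdsWithin_le_nhds (MP_5d7cf0_gt.T.source_mem (mem_chart_source ℂ p))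
  have hz := MP_5d7cf0_gt.T.eventually_notMem hZ p
  have key : ∀ᶠ y in 𝓝[≠] p, D (fun y => w₁ y / w₂ y) y =
      deriv (loc (fun y => w₁ y / w₂ y) p) (zc p y) * D (zc p) y := by
    filter_upwards [hs, hz] with y hy hy'
    exact MP_5d7cf0_gt.T.D_eq hy (an_ratio h1 h2 hy')
  have ht : Tendsto (zc p) (𝓝[≠] p) (𝓝[≠] (zc p p)) :=
    (MP_5d7cf0_gt.T.map_zc_ne (mem_chart_source ℂ p)).le
  rcases (mer_ratio h1 h2 p).deriv.eventually_eq_zero_or_eventually_ne_zero with h | h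
  · exfalso
    have h0 : ∀ᶠ y in 𝓝[≠] p, D (fun y => w₁ y / w₂ y) y = 0 := by
      filter_upwards [key, ht.eventually h] with y hy hy'
      rw [hy, hy', zero_mul]
    have h3 : ∀ᶠ y in 𝓝[≠] p, ∀ᶠ y' in 𝓝 y, D (fun y => w₁ y / w₂ y) y' = 0 := by
      have e := (eventually_nhdsWithin_iff.1 h0).eventually_nhds
      filter_upwards [nhdsWithin_le_nhds e, self_mem_nhdsWithin] with y hy hy'
      filter_upwards [hy, isOpen_compl_singleton.mem_nhds hy'] with y' a b using a b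
    obtain ⟨y, hy, hy'⟩ := (h3.and hz).exists
    have hc := (an_ratio h1 h2 hy').eventually_const hy
    have hf := MP_5d7cf0_gt.T.eventually_notMem (fibre_finite h1 h2 hi (w₁ y / w₂ y)) y
    obtain ⟨y', a, b, c⟩ := (hf.and ((hc.filter_mono nhdsWithin_le_nhds).and
      (MP_5d7cf0_gt.T.eventually_notMem hZ y))).exists
    exact a ⟨c, b⟩
  · filter_upwards [key, ht.eventually h, hs] with y hy hy' hy''
    rw [hy]
    exact mul_ne_zero hy' (MP_5d7cf0_gt.T.D_zc_ne hy'')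

end XCEP

open XCEP in
theorem sXCE : SXCE := by
  intro Y _ _ _ w₁ h1 w₂ h2 hi
  classical
  have hw : w₂ ≠ 0 := fun h => one_ne_zero (hi 0 1 (by simp [h])).2
  have hZ := MP_5d7cf0_gt.T.om_finite_zeros h2 hw
  have hC := crit_finite h1 h2 hi hZ
  choose b hb using lim_ratio h1 h2
  set S₀ : Set Y := {p | w₂ p = 0} ∪ {p | D (fun y => w₁ y / w₂ y) p = 0} with hS₀
  have hS : S₀.Finite := hZ.union hC
  set T : Finset ℂ := insert 0 (hS.toFinset.image b) with hT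
  set R : ℂ[X] := ∏ β ∈ T, (X - C β) with hR
  have hroot : ∀ ξ, R.eval ξ = 0 ↔ ξ ∈ T := fun ξ => by
    simp only [hR, eval_prod, eval_sub, eval_X, eval_C, Finset.prod_eq_zero_iff, sub_eq_zero]
    exact ⟨fun ⟨a, ha, e⟩ => e ▸ ha, fun h => ⟨ξ, h, rfl⟩⟩
  refine ⟨⟨fun p => w₁ p / w₂ p, S₀ ∪ {p | R.eval (w₁ p / w₂ p) = 0}, R, ?_, ?_, ?_, ?_⟩, rfl,
    (hroot 0).2 (Finset.mem_insert_self _ _), fun p hp h => hp (Or.inl (Or.inl h))⟩
  · refine hS.union ((hZ.union (T.finite_toSet.biUnion fun β _ =>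
      fibre_finite h1 h2 hi β)).subset fun p hp => ?_)
    by_cases h : w₂ p = 0
    · exact Or.inl h
    · exact Or.inr (mem_biUnion ((hroot _).1 hp) ⟨h, rfl⟩)
  · exact separable_prod_X_sub_C_iff'.2 fun _ _ _ _ h => h
  · exact fun p hp => ⟨an_ratio h1 h2 fun h => hp (Or.inl (Or.inl h)),
      fun h => hp (Or.inl (Or.inr h)), fun h => hp (Or.inr h)⟩
  · intro p hp
    by_cases h : p ∈ S₀
    · refine (hb p).imp_left fun ht => ⟨b p, (hroot _).2 ?_, ht⟩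
      exact Finset.mem_insert_of_mem (Finset.mem_image_of_mem b (hS.mem_toFinset.2 h))
    · refine Or.inl ⟨w₁ p / w₂ p, hp.resolve_left h, ?_⟩
      exact (an_ratio h1 h2 fun e => h (Or.inl e)).continuousAt.tendsto.mono_left
        nhdsWithin_le_nhds

end Pool.Agent.P.MP_7ede32_ag.Hod
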