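import Pool.Agent.P.MP_5d7cf0_gt.T.Two
import Pool.Agent.P.MP_5d7cf0_gt.T.Gen
import Pool.Agent.P.MP_5d7cf0_gt.T.Desc
import Pool.Agent.P.MP_5d7cf0_gt.T.Pq
import Pool.Agent.P.MP_5d7cf0_gt.T.KerB
import Pool.Agent.P.MP_5d7cf0_gt.T.KerA
import Pool.Agent.P.MP_5d7cf0_gt.T.Cover
import Pool.Agent.P.MP_5d7cf0_gt.T.Deg
import Pool.Agent.P.MP_5d7cf0_gt.T.CT
import Pool.Agent.P.MP_5d7cf0_gt.T.Dol
import Pool.Agent.P.MP_7ede32_ag.Full.All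
import Pool.Agent.P.MP_7ede32_ag.Hod.A2O
import Pool.Agent.P.MP_7ede32_ag.Hod.Area
import Pool.Agent.P.MP_7ede32_ag.Hod.Aut
import Pool.Agent.P.MP_7ede32_ag.Hod.Bas
import Pool.Agent.P.MP_7ede32_ag.Hod.Bez
import Pool.Agent.P.MP_7ede32_ag.Hod.BrCh
import Pool.Agent.P.MP_7ede32_ag.Hod.Ch
import Pool.Agent.P.MP_7ede32_ag.Hod.Chr
import Pool.Agent.P.MP_7ede32_ag.Hod.Cod
import Pool.Agent.P.MP_7ede32_ag.Hod.Conn1
import Pool.Agent.P.MP_7ede32_ag.Hod.Conn2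
import Pool.Agent.P.MP_7ede32_ag.Hod.Count
import Pool.Agent.P.MP_7ede32_ag.Hod.Cov
import Pool.Agent.P.MP_7ede32_ag.Hod.Cut
import Pool.Agent.P.MP_7ede32_ag.Hod.Cw
import Pool.Agent.P.MP_7ede32_ag.Hod.Cyc
import Pool.Agent.P.MP_7ede32_ag.Hod.Desc
import Pool.Agent.P.MP_7ede32_ag.Hod.DescV1
import Pool.Agent.P.MP_7ede32_ag.Hod.DescV2
import Pool.Agent.P.MP_7ede32_ag.Hod.Det
import Pool.Agent.P.MP_7ede32_ag.Hod.Dich2
import Pool.Agent.P.MP_7ede32_ag.Hod.EllRes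
import Pool.Agent.P.MP_7ede32_ag.Hod.EllSp
import Pool.Agent.P.MP_7ede32_ag.Hod.Ext2
import Pool.Agent.P.MP_7ede32_ag.Hod.ExtC
import Pool.Agent.P.MP_7ede32_ag.Hod.Flat1
import Pool.Agent.P.MP_7ede32_ag.Hod.Flat2
import Pool.Agent.P.MP_7ede32_ag.Hod.Flat2a
import Pool.Agent.P.MP_7ede32_ag.Hod.GMr
import Pool.Agent.P.MP_7ede32_ag.Hod.Gam
import Pool.Agent.P.MP_7ede32_ag.Hod.Gen2
import Pool.Agent.P.MP_7ede32_ag.Hod.GenL
import Pool.Agent.P.MP_7ede32_ag.Hod.Hodge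
import Pool.Agent.P.MP_7ede32_ag.Hod.HypA
import Pool.Agent.P.MP_7ede32_ag.Hod.HypB
import Pool.Agent.P.MP_7ede32_ag.Hod.Irr
import Pool.Agent.P.MP_7ede32_ag.Hod.Jet
import Pool.Agent.P.MP_7ede32_ag.Hod.Lag
import Pool.Agent.P.MP_7ede32_ag.Hod.LeafP
import Pool.Agent.P.MP_7ede32_ag.Hod.Lsc
import Pool.Agent.P.MP_7ede32_ag.Hod.Match
import Pool.Agent.P.MP_7ede32_ag.Hod.MaxP
import Pool.Agent.P.MP_7ede32_ag.Hod.Mean
import Pool.Agent.P.MP_7ede32_ag.Hod.ODE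
import Pool.Agent.P.MP_7ede32_ag.Hod.Par
import Pool.Agent.P.MP_7ede32_ag.Hod.ParInt
import Pool.Agent.P.MP_7ede32_ag.Hod.Pol
import Pool.Agent.P.MP_7ede32_ag.Hod.Pos
import Pool.Agent.P.MP_7ede32_ag.Hod.Pr
import Pool.Agent.P.MP_7ede32_ag.Hod.RatU
import Pool.Agent.P.MP_7ede32_ag.Hod.Ref
import Pool.Agent.P.MP_7ede32_ag.Hod.Rel1
import Pool.Agent.P.MP_7ede32_ag.Hod.Rel2
import Pool.Agent.P.MP_7ede32_ag.Hod.Sep
import Pool.Agent.P.MP_7ede32_ag.Hod.SepY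
import Pool.Agent.P.MP_7ede32_ag.Hod.Sig
import Pool.Agent.P.MP_7ede32_ag.Hod.Sig0
import Pool.Agent.P.MP_7ede32_ag.Hod.St
import Pool.Agent.P.MP_7ede32_ag.Hod.Sup
import Pool.Agent.P.MP_7ede32_ag.Hod.Sup2
import Pool.Agent.P.MP_7ede32_ag.Hod.SymR
import Pool.Agent.P.MP_7ede32_ag.Hod.Tor1
import Pool.Agent.P.MP_7ede32_ag.Hod.Tp
import Pool.Agent.P.MP_7ede32_ag.Hod.Tr1
import Pool.Agent.P.MP_7ede32_ag.Hod.Tr2
import Pool.Agent.P.MP_7ede32_ag.Hod.VA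
import Pool.Agent.P.MP_7ede32_ag.Hod.VF
import Pool.Agent.P.MP_7ede32_ag.Hod.WpInj
import Pool.Agent.P.MP_7ede32_ag.Hod.WrP
import Pool.Agent.P.MP_7ede32_ag.Hod.XCE

/-!
Assembly of the parts on curves and on the base.
-/

namespace Pool.Agent.P.MP_7ede32_ag.Hod

open MP_5d7cf0_gt.T (dol pol kerA kerB mL bpf deg two iota odd poly)

theorem aDol : MP_5d7cf0_gt.T.S_Dol := dol MP_5d7cf0_gt.T.cover pol kerA (kerB kerA)

theorem aML : MP_5d7cf0_gt.T.S_ML := mL aDol pol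

theorem aBpf : MP_5d7cf0_gt.T.S_Bpf := bpf aML deg

theorem aPolyR : SPolyR := sPolyR poly

theorem aPr : SPr := sPr (sCh sArea)

theorem aSt : SSt := sSt (sCh sArea) aPr

theorem aHodge : SHodge := sHodge aDol pol aPr aSt (sPos aPr)

theorem aSup2 : SSup2 := sSup2 aHodge aPr aSt (sPos aPr) sCut

theorem aLag : SLag := sLag sCov sPrp aPolyR

theorem aChr : SChr := sChr sCov sPrp aPolyR

theorem aFinD : SFinD := sFinD aLag

theorem aTr2 : STr2 := sTr2 sMatch sTp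

theorem aBas : SBas :=
  sBas (sA2O (sVA aLag aChr sRb sIrr) aFinD sIrr) (sDescV2 (sDescV1 (sInvS sAut)))
    (sGenL aTr2 sCut aSt aPr aSup2 aFinD)

theorem aG2 : SG2 := sG2 (sGen2 aML deg aBpf) sIrr

theorem aGam : SGam := sGam (sTr1 sParInt sCov) aTr2 (sSup aHodge aPr aSt (sPos aPr)) sCut aSt aPr

theorem aGm : SGm := sGm aGam sLsc aPr

theorem aConn2 : SConn2 :=
  sConn2 (sConn1 aGam (sGMr sCut aSt aSup2 aPr (sRatU aLag) aFinD) aPr) sDesc sRMer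

theorem aSepY : SSepY := sSepY (sSep aML aBpf (two deg) iota (odd iota) deg)

theorem aPartY : SPartY := sPartY sTor1 (sPar sXCE aChr sCov) sIrr

theorem aVF : SVF := sVF sDesc aBpf sIrr

theorem aCyc2 : SCyc2 := sCyc2 sDesc aFinD

theorem aRel2 : SRel2 := sRel2 (sRelC sRel1 sIrr) sXCE aChr sRb sIrr

theorem aSig : SSig := sSig sSig0

theorem aDich : SDich := sDich' (sFlat1 aSig sMaxP sDet) (sCount sCod (sEllSp aSig))

theorem aFlat2 : SFlat2 := sFlat2 sODE (sFlat2a sODE)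

theorem aExtC : SExtC := sExtC Full.sOsg

theorem aExt2 : SExt2 := sExt2 aExtC

theorem aBrCh : SBrCh := sBrCh Geo.sbr_all Full.aDiv2 aExt2

end Pool.Agent.P.MP_7ede32_ag.Hod
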