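import Pool.Agent.P.MP_7ede32_ag.Hod.StF
import Pool.Agent.P.MP_7ede32_ag.Hod.StA
import Pool.Agent.P.MP_7ede32_ag.Hod.MT

/-!
The connection is defined over the field of elliptic functions.
-/

open Set Filter Topology MeasureTheory ComplexConjugate Polynomial Matrix

noncomputable section

namespace Pool.Agent.P.MP_7ede32_ag.Hod

open MP_5d7cf0_gt.T (RS zc loc An D Om)

namespace Conn2P

variable {L : PeriodPair} {𝒴 : Pl L} {g : ℕ}

/-- a monomial divided by a power of the discriminant -/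
def mon (𝒴 : Pl L) (k : ℕ) (e : ℕ × ℕ) (q : E3) : ℂ := q.2.1 ^ e.1 * q.2.2 ^ e.2 / ev1 𝒴.R q ^ k

theorem rat_mon (k : ℕ) (e : ℕ × ℕ) : 𝒴.Rat (mon 𝒴 k e) := by
  have h := (((Pl.rat_ξ (𝒴 := 𝒴)).pow e.1).mul ((Pl.rat_ev X).pow e.2)).mul
    ((Pl.rat_ev_div 1 𝒴.monR.ne_zero).pow k)
  convert h using 1
  funext q
  simp [mon, ev, div_eq_mul_inv]

theorem an_mon (k : ℕ) (e : ℕ × ℕ) {q : E3} (h : 𝒴.Ok q) : AnalyticAt ℂ (mon 𝒴 k e) q := by
  have h1 : AnalyticAt ℂ (fun q : E3 => q.2.1) q := analyticAt_fst.comp analyticAt_snd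
  have h2 : AnalyticAt ℂ (fun q : E3 => q.2.2) q := analyticAt_snd.comp analyticAt_snd
  exact ((h1.pow _).mul (h2.pow _)).div ((analyticAt_ev1 h.1.2.2.2.1).pow k) (pow_ne_zero _ h.2.2)

theorem poly_sum (N : ℂ[X][X]) : ∃ (s : Finset (ℕ × ℕ)) (c : ℕ × ℕ → ℂ), ∀ x y : ℂ,
    N.evalEval x y = ∑ e ∈ s, c e * (x ^ e.1 * y ^ e.2) := by
  obtain ⟨n, hn⟩ : ∃ n, ∀ j ∈ Finset.range (N.natDegree + 1), (N.coeff j).natDegree < n :=
    ⟨(Finset.range (N.natDegree + 1)).sup (fun j => (N.coeff j).natDegree) + 1, fun j hj =>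
      Nat.lt_succ_of_le (Finset.le_sup (f := fun j => (N.coeff j).natDegree) hj)⟩
  refine ⟨Finset.range n ×ˢ Finset.range (N.natDegree + 1), fun e => (N.coeff e.2).coeff e.1,
    fun x y => ?_⟩
  rw [Finset.sum_product_right, evalEval, eval_eq_sum_range (p := N), eval_finsetSum]
  refine Finset.sum_congr rfl fun j hj => ?_
  rw [eval_mul, eval_pow, eval_C, eval_eq_sum_range' (hn j hj), Finset.sum_mul]
  exact Finset.sum_congr rfl fun i _ => by ring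

theorem quo_sum (N : ℂ[X][X]) (k : ℕ) : ∃ (s : Finset (ℕ × ℕ)) (c : ℕ × ℕ → ℂ),
    (fun q : E3 => N.evalEval q.2.1 q.2.2 / ev1 𝒴.R q ^ k) =
      fun q => ∑ e : s, c e * mon 𝒴 k e q := by
  obtain ⟨s, c, h⟩ := poly_sum N
  refine ⟨s, c, funext fun q => ?_⟩
  rw [h, Finset.sum_div, ← Finset.sum_coe_sort s]
  exact Finset.sum_congr rfl fun e _ => by rw [mon, mul_div_assoc]

theorem dX_comb {ι : Type} [Fintype ι] {c : ι → ℂ → ℂ} {F : ι → E3 → ℂ} {q : E3}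
    (hc : ∀ i, AnalyticAt ℂ (c i) q.1) (hF : ∀ i, AnalyticAt ℂ (F i) q) :
    𝒴.dX (fun q => ∑ i, c i q.1 * F i q) q = ∑ i, c i q.1 * 𝒴.dX (F i) q := by
  have h1 : ∀ i, DifferentiableAt ℂ (fun q : E3 => c i q.1) q := fun i =>
    (hc i).differentiableAt.comp q differentiableAt_fst
  rw [Pl.dX_sum (f := fun i q => c i q.1 * F i q) fun i _ => (h1 i).mul (hF i).differentiableAt]
  refine Finset.sum_congr rfl fun i _ => ?_
  rw [Pl.dX_mul (h1 i) (hF i).differentiableAt, Pl.dX_fst (hc i).differentiableAt, zero_mul,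
    zero_add]

theorem an_quo (N : ℂ[X][X]) (k : ℕ) {q : E3} (h : 𝒴.Ok q) :
    AnalyticAt ℂ (fun q : E3 => N.evalEval q.2.1 q.2.2 / ev1 𝒴.R q ^ k) q := by
  obtain ⟨s, c, e⟩ := quo_sum (𝒴 := 𝒴) N k
  rw [e]
  exact Finset.analyticAt_fun_sum _ fun i _ => analyticAt_const.mul (an_mon k _ h)

/-- the relations spread out -/
theorem conn (h2 : SDesc) (N : Fin g → (KK L)[X][X])
    (h : ∀ᶠ t in cd, ∃ m₀ : Matrix (Fin g) (Fin g) ℂ, ∀ i, ∃ (k : ℕ) (N' : ℂ[X][X]),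
      ∀ᶠ q in 𝒴.fb t, 𝒴.dX (fun q => N'.evalEval q.2.1 q.2.2 / ev1 𝒴.R q ^ k) q =
        𝒴.dT (𝒴.phs N i) q - ∑ j, m₀ i j * 𝒴.phs N j q) : ∃ m u, 𝒴.Conn N m u := by
  have hD := h2 L 𝒴 (range (fun i => 𝒴.dT (𝒴.phs N i)) ∪ range (𝒴.phs N) ∪
      range fun e : ℕ × ℕ × ℕ => 𝒴.dX (mon 𝒴 e.1 e.2))
    (((countable_range _).union (countable_range _)).union (countable_range _)) (by
      rintro F ((⟨i, rfl⟩ | ⟨i, rfl⟩) | ⟨e, rfl⟩)
      · exact (Pl.rat_ph _).dT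
      · exact Pl.rat_ph _
      · exact (rat_mon _ _).dX)
  obtain ⟨t, hd, ⟨m₀, hm⟩, hr⟩ :=
    (hD.and ((h.and 𝒴.rt_cd).filter_mono cc_le_cd)).exists
  have row : ∀ i, ∃ (mi : Fin g → KK L) (ui : E3 → ℂ), 𝒴.Rat ui ∧ ∀ᶠ q in 𝒴.gen,
      𝒴.dX ui q = 𝒴.dT (𝒴.phs N i) q - ∑ j, rv (mi j) q.1 * 𝒴.phs N j q := by
    intro i
    obtain ⟨k, N', hN⟩ := hm i
    obtain ⟨s, c, e⟩ := quo_sum (𝒴 := 𝒴) N' k
    rw [e] at hN
    obtain ⟨c', hc'⟩ := hd (Fin g ⊕ s) Unit (fun _ => 𝒴.dT (𝒴.phs N i))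
      (fun _ => Sum.elim (𝒴.phs N) fun e => 𝒴.dX (mon 𝒴 k e))
      (Sum.elim (m₀ i) fun e => c e) (fun _ => Or.inl (Or.inl ⟨i, rfl⟩))
      (by
        rintro _ (j | e)
        · exact Or.inl (Or.inr ⟨j, rfl⟩)
        · exact Or.inr ⟨(k, e), rfl⟩)
      (fun _ => by
        filter_upwards [hN, Pl.fb_ok hr] with q h1 h2
        have := dX_comb (𝒴 := 𝒴) (c := fun (e : s) _ => c e) (F := fun e : s => mon 𝒴 k e)
          (fun _ => analyticAt_const) fun e => an_mon k e h2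
        rw [this] at h1
        rw [Fintype.sum_sum_type]
        simp only [Sum.elim_inl, Sum.elim_inr]
        rw [h1]
        ring)
    refine ⟨fun j => c' (Sum.inl j), fun q => ∑ e : s, rv (c' (Sum.inr e)) q.1 * mon 𝒴 k e q,
      Pl.rat_sum fun e _ => (Pl.rat_rv _).mul (rat_mon _ _), ?_⟩
    have hg : ∀ᶠ q in 𝒴.gen, ∀ e : s, Rg (c' (Sum.inr e)) q.1 :=
      Pl.gen_fst (eventually_all.2 fun e => rg_cd _)
    filter_upwards [hc' (), hg, 𝒴.gen_ok] with q h1 h2 h3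
    rw [dX_comb (c := fun e : s => rv (c' (Sum.inr e))) (fun e => (h2 e).an)
      fun e => an_mon k e h3, h1, Fintype.sum_sum_type]
    simp only [Sum.elim_inl, Sum.elim_inr]
    ring
  choose m u h1 h3 using row
  exact ⟨Matrix.of m, u, h1, eventually_all.2 h3⟩

/-- the matrix of the connection is unique -/
theorem uniq (h3 : SRMer) {t : ℂ} (μ : Md 𝒴 t) {N : Fin g → (KK L)[X][X]} {w : Fin g → μ.Y → ℂ}
    (hw : μ.IsB N w) {F G T : E3 → ℂ} {a b : Fin g → ℂ}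
    (hF : ∀ᶠ q in 𝒴.fb t, AnalyticAt ℂ F q ∧ 𝒴.dX F q = T q - ∑ j, a j * 𝒴.phs N j q)
    (hG : ∀ᶠ q in 𝒴.fb t, AnalyticAt ℂ G q ∧ 𝒴.dX G q = T q - ∑ j, b j * 𝒴.phs N j q) :
    b = a := by
  have h0 := h3 μ.Y (∑ j, (b j - a j) • w j)
    (Submodule.sum_mem _ fun j _ => Submodule.smul_mem _ _ (hw.1 j).2.1)
    (fun p => F (μ.j p) - G (μ.j p)) (by
      filter_upwards [μ.cofinite_iff.2 (hF.and hG), μ.M.fin.compl_mem_cofinite] with p hp hs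
      obtain ⟨⟨h1, h2⟩, h4, h5⟩ := hp
      obtain ⟨h6, h7⟩ := Md.an_comp (F := fun q => F q - G q) hs (h1.sub h4)
      refine ⟨h6, ?_⟩
      rw [h7, Pl.dX_sub h1.differentiableAt h4.differentiableAt, h2, h5, Finset.sum_apply,
        sub_sub_sub_cancel_left, ← Finset.sum_sub_distrib, Finset.sum_mul]
      refine Finset.sum_congr rfl fun j _ => ?_
      rw [Pi.smul_apply, (hw.1 j).2.2 p hs, Md.fm, smul_eq_mul]
      ring)
  funext j
  exact sub_eq_zero.1 (Fintype.linearIndependent_iff.1 hw.2.1 _ h0 j)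

end Conn2P

open Conn2P in
theorem sConn2 (h1 : SConn1) (h2 : SDesc) (h3 : SRMer) : SConn2 := by
  intro L 𝒴 Φ g N hB hE
  have h := h1 L 𝒴 Φ g N hB hE
  obtain ⟨m, u, hc⟩ := conn h2 N (h.mono fun t ⟨m₀, _, hm⟩ => ⟨m₀, hm⟩)
  refine ⟨m, u, hc, ?_⟩
  have hu : ∀ᶠ q in 𝒴.gen, ∀ i, AnalyticAt ℂ (u i) q := eventually_all.2 fun i => (hc.rat i).1
  filter_upwards [h, hB, Φ.mem, Pl.gen_fb (hu.and hc.eq)] with t ⟨m₀, hf, hm⟩ hb ht hg
  obtain ⟨w, hw⟩ := hb ht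
  have e : km m t = m₀ := by
    ext i j
    obtain ⟨k, N', hN⟩ := hm i
    have := uniq h3 (Φ.md t ht) hw (T := 𝒴.dT (𝒴.phs N i)) (a := m₀ i)
      (b := fun j => rv (m i j) t) (G := u i)
      (F := fun q => N'.evalEval q.2.1 q.2.2 / ev1 𝒴.R q ^ k)
      (by
        filter_upwards [hN, Pl.fb_ok (Φ.md t ht).rt] with q h4 h5
        exact ⟨an_quo N' k h5, h4⟩)
      (by
        filter_upwards [hg, 𝒴.fb_on t] with q h4 h5
        refine ⟨h4.1 i, ?_⟩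
        rw [h4.2 i, h5.1])
    exact congrFun this j
  intro i j
  rw [e]
  exact hf i j

end Pool.Agent.P.MP_7ede32_ag.Hod
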