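import Pool.Agent.P.MP_7ede32_ag.Full.Mer
import Pool.Agent.P.MP_7ede32_ag.Ell.Basic

/-!
Matrices of holomorphic functions, Hermitian metrics and systems of lattices on an elliptic curve.
-/

open Set Filter Topology Matrix ComplexConjugate
open scoped ComplexOrder

noncomputable section

namespace Pool.Agent.P.MP_7ede32_ag.Hod

open Ell (E2)

/-- the codiscrete filter -/
abbrev cd : Filter ℂ := codiscrete ℂ

/-- the cocountable filter -/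
abbrev cc : Filter ℂ := cocountable

/-- vector valued functions -/
abbrev VF (g : ℕ) := ℂ → Fin g → ℂ

/-- matrix valued functions -/
abbrev MF (g : ℕ) := ℂ → Matrix (Fin g) (Fin g) ℂ

variable {g : ℕ}

/-- analytic vector -/
def AnV (a : VF g) (z : ℂ) : Prop := ∀ i, AnalyticAt ℂ (fun t => a t i) z

/-- meromorphic vector -/
def MeV (a : VF g) (z : ℂ) : Prop := ∀ i, MeromorphicAt (fun t => a t i) z

/-- vector with a removable singularity -/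
def ExV (a : VF g) (z : ℂ) : Prop := ∃ b, AnV b z ∧ a =ᶠ[𝓝[≠] z] b

/-- analytic matrix -/
def AnM (G : MF g) (z : ℂ) : Prop := ∀ i j, AnalyticAt ℂ (fun t => G t i j) z

/-- meromorphic matrix -/
def MeM (G : MF g) (z : ℂ) : Prop := ∀ i j, MeromorphicAt (fun t => G t i j) z

/-- the derivative of a matrix -/
def dM (G : MF g) (t : ℂ) : Matrix (Fin g) (Fin g) ℂ :=
  Matrix.of fun i j => deriv (fun s => G s i j) t

/-- `a` is a holomorphic combination of the rows of `G` -/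
def Sp (G : MF g) (z : ℂ) (a : VF g) : Prop :=
  ∃ b, AnV b z ∧ ∀ᶠ t in 𝓝[≠] z, a t = b t ᵥ* G t

/-- a holomorphic barrier for the metric `h` at `t₀` -/
def Bar (h : MF g) (t₀ : ℂ) (Γ : MF g) : Prop :=
  AnM Γ t₀ ∧ Γ t₀ = h t₀ ∧ ∀ᶠ t in 𝓝 t₀, ((Γ t)ᴴ * (h t)⁻¹ * Γ t - h t₀).PosSemidef

/-- equality in the barrier -/
def BarEq (h : MF g) (t₀ : ℂ) (Γ : MF g) : Prop :=
  ∀ᶠ t in 𝓝 t₀, (Γ t)ᴴ * (h t)⁻¹ * Γ t = h t₀

/-- lower semicontinuity -/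
def Lsc (h : MF g) (t₀ : ℂ) : Prop :=
  ∀ θ : ℝ, θ < 1 → ∀ᶠ t in 𝓝 t₀, (h t - (θ : ℂ) • h t₀).PosSemidef

/-- the metric is good at `t₀` -/
def Gm (h : MF g) (t₀ : ℂ) : Prop := (h t₀).PosDef ∧ Lsc h t₀ ∧ ∃ Γ, Bar h t₀ Γ

/-- the metric is parallel for the connection `m` -/
def Fl (h m : MF g) (t : ℂ) : Prop :=
  ∀ i j, DifferentiableAt ℝ (fun s => h s i j) t ∧ ∀ v, fderiv ℝ (fun s => h s i j) t v =
    v * (m t * h t) i j + conj v * (h t * (m t)ᴴ) i j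

/-- lower bound for the metric in the frame `G` -/
def LowB (h G : MF g) (z : ℂ) : Prop :=
  ∃ c : ℝ, 0 < c ∧ ∀ᶠ t in 𝓝[≠] z, (G t * h t * (G t)ᴴ - (c : ℂ) • 1).PosSemidef

/-- upper bound for the determinant of the metric in the frame `G` -/
def UpB (h G : MF g) (z : ℂ) : Prop :=
  ∃ c : ℝ, ∀ᶠ t in 𝓝[≠] z, ‖(G t).det‖ ^ 2 * ‖(h t).det‖ ≤ c

/-- the rows of `G` are a basis of the lattice `Λ` -/
def Fr (Λ : Set (VF g)) (z : ℂ) (G : MF g) : Prop :=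
  MeM G z ∧ (∀ᶠ t in 𝓝[≠] z, (G t).det ≠ 0) ∧ ∀ a, a ∈ Λ ↔ Sp G z a

/-- a lattice of germs of meromorphic vectors -/
structure IsLat (Λ : Set (VF g)) (z : ℂ) : Prop where
  mer : ∀ a ∈ Λ, MeV a z
  congr : ∀ a ∈ Λ, ∀ a', a =ᶠ[𝓝[≠] z] a' → a' ∈ Λ
  add : ∀ a ∈ Λ, ∀ a' ∈ Λ, a + a' ∈ Λ
  smul : ∀ a ∈ Λ, ∀ c : ℂ → ℂ, AnalyticAt ℂ c z → (fun t => c t • a t) ∈ Λ
  big : ∃ k : ℕ, ∀ i, (fun t => (t - z) ^ k • (Pi.single i 1 : Fin g → ℂ)) ∈ Λ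
  small : ∃ k : ℕ, ∀ a ∈ Λ, ExV (fun t => (t - z) ^ k • a t) z

/-- a periodic system of lattices -/
structure LS (L : PeriodPair) (Λ : ℂ → Set (VF g)) : Prop where
  lat : ∀ z, IsLat (Λ z) z
  per : ∀ w ∈ L.lattice, ∀ z, ∀ a ∈ Λ z, (fun t => a (t - w)) ∈ Λ (z + w)
  std : ∀ᶠ z in cd, ∀ a, AnV a z → a ∈ Λ z

/-- frames at finitely many points of the elliptic curve -/
structure ZS (L : PeriodPair) (g : ℕ) where
  Z : Finset ℂ
  G : ℂ → MF g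
  m : ℂ → ℤ
  sep : ∀ z ∈ Z, ∀ z' ∈ Z, z - z' ∈ L.lattice → z = z'
  mer : ∀ z ∈ Z, MeM (G z) z
  ord : ∀ z ∈ Z, meromorphicOrderAt (fun t => (G z t).det) z = m z

/-- the points away from the marked points -/
def ZS.Off {L : PeriodPair} (S : ZS L g) (t : ℂ) : Prop := ∀ z ∈ S.Z, t - z ∉ L.lattice

/-- a nonzero section over an unramified cover that vanishes to order three at `z₁` -/
structure PS (L : PeriodPair) (n : ℕ) (z₁ : ℂ) (κ : VF g) : Prop where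
  pos : 0 < n
  mer : ∀ z, MeV κ z
  per : ∀ w ∈ L.lattice, ∀ t, κ (t + n * w) = κ t
  ne : ¬ ∀ᶠ t in cd, κ t = 0
  van : ∃ b, AnV b z₁ ∧ ∀ᶠ t in 𝓝[≠] z₁, κ t = (t - z₁) ^ 3 • b t

/-- a normalised sigma function -/
structure IsSig (L : PeriodPair) (σ : ℂ → ℂ) (β : ℝ) : Prop where
  diff : Differentiable ℂ σ
  zero : ∀ z, σ z = 0 ↔ z ∈ L.lattice
  simple : ∀ z ∈ L.lattice, deriv σ z ≠ 0
  pos : 0 < β
  per : ∀ w ∈ L.lattice, ∃ c : ℂ, ‖c‖ = Real.exp (β * ‖w‖ ^ 2) ∧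
    ∀ z, σ (z + w) = c * Complex.exp (2 * β * conj w * z) * σ z

/-- `w` is a nonzero holomorphic solution of `w' = c w` -/
def LW (c : ℂ → ℂ) (z : ℂ) (w : ℂ → ℂ) : Prop :=
  AnalyticAt ℂ w z ∧ ∀ᶠ t in 𝓝[≠] z, w t ≠ 0 ∧ deriv w t = c t * w t

/-- the derivative in the first variable -/
def du (f : E2 → ℂ) (y : E2) : ℂ := fderiv ℂ f y (1, 0)

/-- the derivative in the second variable -/
def dw (f : E2 → ℂ) (y : E2) : ℂ := fderiv ℂ f y (0, 1)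

/-- the lattice `n L` -/
def nL (L : PeriodPair) (n : ℕ) (hn : 0 < n) : PeriodPair where
  ω₁ := n * L.ω₁
  ω₂ := n * L.ω₂
  indep := by
    refine LinearIndependent.pair_iff.2 fun s t h => LinearIndependent.pair_iff.1 L.indep s t ?_
    have h0 : (n : ℂ) ≠ 0 := Nat.cast_ne_zero.2 hn.ne'
    refine mul_left_cancel₀ h0 ?_
    simp only [Complex.real_smul] at h ⊢
    linear_combination h

theorem mem_nL {L : PeriodPair} {n : ℕ} {hn : 0 < n} {w : ℂ} :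
    w ∈ (nL L n hn).lattice ↔ ∃ w₀ ∈ L.lattice, w = n * w₀ := by
  simp only [PeriodPair.mem_lattice, nL]
  constructor
  · rintro ⟨a, b, rfl⟩
    exact ⟨_, ⟨a, b, rfl⟩, by ring⟩
  · rintro ⟨_, ⟨a, b, rfl⟩, rfl⟩
    exact ⟨a, b, by ring⟩

end Pool.Agent.P.MP_7ede32_ag.Hod
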