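import Pool.Agent.P.MP_7ede32_ag.Hod.DR
import Pool.Agent.P.MP_7ede32_ag.Hod.DB

/-!
Plane curves over the field of elliptic functions.
-/

open Set Filter Topology MeasureTheory ComplexConjugate Polynomial Matrix

noncomputable section

namespace Pool.Agent.P.MP_7ede32_ag.Hod

open Full (Mer)

/-- the coordinates are `(t, ξ, η)` -/
abbrev E3 := ℂ × ℂ × ℂ

theorem tendsto_add_cd (w : ℂ) : Tendsto (fun z => z + w) cd cd := fun s hs => by
  refine Full.cd_iff.2 fun x => ?_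
  have h : Tendsto (fun z => z + w) (𝓝[≠] x) (𝓝[≠] (x + w)) :=
    tendsto_nhdsWithin_iff.2 ⟨(continuous_add_const w).continuousAt.tendsto.mono_left
      nhdsWithin_le_nhds, eventually_mem_nhdsWithin.mono fun y hy h => hy (add_right_cancel h)⟩
  exact h.eventually (Full.cd_iff.1 hs (x + w))

/-- the field of elliptic functions -/
def EF (L : PeriodPair) : Subfield Mer where
  carrier := {f | ∀ w ∈ L.lattice, (fun z => f.rep (z + w)) =ᶠ[cd] f.rep}
  mul_mem' {a b} ha hb w hw := by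
    filter_upwards [Mer.rep_mul a b, (tendsto_add_cd w).eventually (Mer.rep_mul a b), ha w hw,
      hb w hw] with z h1 h2 h3 h4
    rw [h1, h2, Pi.mul_apply, Pi.mul_apply, h3, h4]
  one_mem' w _ := by
    filter_upwards [Mer.rep_one, (tendsto_add_cd w).eventually Mer.rep_one] with z h1 h2
    rw [h1, h2]
  add_mem' {a b} ha hb w hw := by
    filter_upwards [Mer.rep_add a b, (tendsto_add_cd w).eventually (Mer.rep_add a b), ha w hw,
      hb w hw] with z h1 h2 h3 h4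
    rw [h1, h2, Pi.add_apply, Pi.add_apply, h3, h4]
  zero_mem' w _ := by
    filter_upwards [Mer.rep_zero, (tendsto_add_cd w).eventually Mer.rep_zero] with z h1 h2
    rw [h1, h2]
  neg_mem' {a} ha w hw := by
    filter_upwards [Mer.rep_neg a, (tendsto_add_cd w).eventually (Mer.rep_neg a), ha w hw]
      with z h1 h2 h3
    rw [h1, h2, Pi.neg_apply, Pi.neg_apply, h3]
  inv_mem' a ha w hw := by
    filter_upwards [Mer.rep_inv a, (tendsto_add_cd w).eventually (Mer.rep_inv a), ha w hw]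
      with z h1 h2 h3
    rw [h1, h2, h3]

/-- the field of elliptic functions, as a type -/
abbrev KK (L : PeriodPair) : Type := EF L

variable {L : PeriodPair} {g : ℕ}

/-- the value of an elliptic function -/
def rv (c : KK L) (t : ℂ) : ℂ := limUnder (𝓝[≠] t) c.1.rep

/-- the elliptic function has no pole at `t` -/
def Rg (c : KK L) (t : ℂ) : Prop := 0 ≤ meromorphicOrderAt c.1.rep t

/-- specialisation of a polynomial in one variable -/
def sp1 (p : (KK L)[X]) (t : ℂ) : ℂ[X] := p.sum fun i c => monomial i (rv c t)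

/-- specialisation of a polynomial in two variables -/
def sp (N : (KK L)[X][X]) (t : ℂ) : ℂ[X][X] := N.sum fun j p => monomial j (sp1 p t)

/-- no coefficient has a pole at `t` -/
def Rg1 (p : (KK L)[X]) (t : ℂ) : Prop := ∀ i, Rg (p.coeff i) t

/-- no coefficient has a pole at `t` -/
def Rg2 (N : (KK L)[X][X]) (t : ℂ) : Prop := ∀ j, Rg1 (N.coeff j) t

/-- a polynomial in `ξ` as a function -/
def ev1 (p : (KK L)[X]) (q : E3) : ℂ := (sp1 p q.1).eval q.2.1

/-- a polynomial in `ξ, η` as a function -/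
def ev (N : (KK L)[X][X]) (q : E3) : ℂ := (sp N q.1).evalEval q.2.1 q.2.2

/-- a matrix of elliptic functions as a function -/
def km (m : Matrix (Fin g) (Fin g) (KK L)) : MF g := fun t => Matrix.of fun i j => rv (m i j) t

/-- a combination with coefficients that depend on `t` -/
def cb (a : VF g) (φ : Fin g → E3 → ℂ) (q : E3) : ℂ := ∑ i, a q.1 i * φ i q

/-- a family of plane curves `P = 0`, unramified over `R ≠ 0` -/
structure Pl (L : PeriodPair) where
  P : (KK L)[X][X]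
  A : (KK L)[X][X]
  B : (KK L)[X][X]
  R : (KK L)[X]
  a : (KK L)[X]
  b : (KK L)[X]
  k : ℕ
  monic : P.Monic
  pos : 0 < P.natDegree
  monR : R.Monic
  sep : a * R + b * derivative R = 1
  bez : C (R ^ k) = A * P + B * derivative P

namespace Pl

variable (𝒴 : Pl L)

/-- all the data are regular at `t` -/
def Rt (t : ℂ) : Prop :=
  Rg2 𝒴.P t ∧ Rg2 𝒴.A t ∧ Rg2 𝒴.B t ∧ Rg1 𝒴.R t ∧ Rg1 𝒴.a t ∧ Rg1 𝒴.b t

/-- the points of the surface -/
def On (q : E3) : Prop := ev 𝒴.P q = 0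

/-- the unramified points of the surface -/
def Ok (q : E3) : Prop := 𝒴.Rt q.1 ∧ 𝒴.On q ∧ ev1 𝒴.R q ≠ 0

/-- the derivative of the equation in `η` -/
def py (q : E3) : ℂ := ev (derivative 𝒴.P) q

/-- the lift of `d / dt` -/
def vT (q : E3) : E3 := (1, 0, -fderiv ℂ (ev 𝒴.P) q (1, 0, 0) / 𝒴.py q)

/-- the lift of `d / dξ` -/
def vX (q : E3) : E3 := (0, 1, -fderiv ℂ (ev 𝒴.P) q (0, 1, 0) / 𝒴.py q)

/-- the derivative in `t` on the surface -/
def dT (F : E3 → ℂ) (q : E3) : ℂ := fderiv ℂ F q (𝒴.vT q)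

/-- the derivative in `ξ` on the surface -/
def dX (F : E3 → ℂ) (q : E3) : ℂ := fderiv ℂ F q (𝒴.vX q)

/-- the Lie derivative of `F (dξ) ^ ν` along `d / dt - s d / dξ` -/
def LD (ν : ℕ) (s F : E3 → ℂ) (q : E3) : ℂ :=
  𝒴.dT F q - s q * 𝒴.dX F q - ν * 𝒴.dX s q * F q

/-- generic points of the surface -/
def gen : Filter E3 :=
  comap Prod.fst cd ⊓ ⨅ D ∈ {D : (KK L)[X] | D ≠ 0}, 𝓟 {q | 𝒴.On q ∧ ev1 D q ≠ 0}

/-- generic points of the surface near the fibre over `z` -/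
def gz (z : ℂ) : Filter E3 := 𝒴.gen ⊓ comap Prod.fst (𝓝[≠] z)

/-- generic points of the fibre over `t` -/
def fb (t : ℂ) : Filter E3 := 𝓟 {q | q.1 = t ∧ 𝒴.On q} ⊓ comap (fun q => q.2.1) cofinite

/-- the points over `(t, ξ)` -/
def rts (t ξ : ℂ) : Finset ℂ := ((sp 𝒴.P t).map (evalRingHom ξ)).roots.toFinset

/-- the nearest root -/
def nr (q : E3) : ℂ := Classical.epsilon fun η => 𝒴.On (q.1, q.2.1, η) ∧
  ∀ η', 𝒴.On (q.1, q.2.1, η') → ‖η - q.2.2‖ ≤ ‖η' - q.2.2‖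

/-- the projection to the surface -/
def prj (q : E3) : E3 := (q.1, q.2.1, 𝒴.nr q)

/-- the coefficient of the form `N dξ / P_η` -/
def ph (N : (KK L)[X][X]) (q : E3) : ℂ := ev N q / 𝒴.py q

/-- the coefficients of a family of forms -/
def phs (N : Fin g → (KK L)[X][X]) (i : Fin g) : E3 → ℂ := 𝒴.ph (N i)

/-- the Hodge metric -/
def hm (N : Fin g → (KK L)[X][X]) : MF g := fun t => Matrix.of fun i j =>
  ∫ ξ, ∑ η ∈ 𝒴.rts t ξ, 𝒴.phs N i (t, ξ, η) * conj (𝒴.phs N j (t, ξ, η))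

/-- rational functions on the surface -/
def Rat (F : E3 → ℂ) : Prop :=
  (∀ᶠ q in 𝒴.gen, AnalyticAt ℂ F q) ∧
    ∃ (N : (KK L)[X][X]) (D : (KK L)[X]), D ≠ 0 ∧ ∀ᶠ q in 𝒴.gen, F q = ev N q / ev1 D q

/-- rational functions on a fibre -/
def RatF (t : ℂ) (F : E3 → ℂ) : Prop :=
  (∀ᶠ q in 𝒴.fb t, AnalyticAt ℂ F q) ∧ ∃ (N : ℂ[X][X]) (D : ℂ[X]), D ≠ 0 ∧
    ∀ᶠ q in 𝒴.fb t, F q = N.evalEval q.2.1 q.2.2 / D.eval q.2.1

/-- analytic at all unramified points of the fibre -/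
def AnO (F : E3 → ℂ) (t : ℂ) : Prop := ∀ q, 𝒴.Ok q → q.1 = t → AnalyticAt ℂ F q

/-- linearly independent on the fibre -/
def Ind (t : ℂ) (φ : Fin g → E3 → ℂ) : Prop :=
  ∀ c : Fin g → ℂ, (∀ᶠ q in 𝒴.fb t, ∑ i, c i * φ i q = 0) → c = 0

/-- the fibre is irreducible -/
def Irr (t : ℂ) : Prop := 𝒴.Rt t ∧ Irreducible (sp 𝒴.P t)

end Pl

end Pool.Agent.P.MP_7ede32_ag.Hod
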