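import Pool.Agent.P.MP_7ede32_ag.Hod.DA

/-!
Smooth models of the fibres.
-/

open Set Filter Topology MeasureTheory ComplexConjugate Polynomial Matrix

noncomputable section

namespace Pool.Agent.P.MP_7ede32_ag.Hod

open MP_5d7cf0_gt.T (RS zc loc An D Om)
open Ell (E2)

variable {L : PeriodPair} {g : ℕ}

/-- a smooth model of the fibre over `t`; `χ p` describes a holomorphic lift of `d / dt` near `p` -/
structure Md (𝒴 : Pl L) (t : ℂ) where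
  Y : Type
  [top : TopologicalSpace Y]
  [chart : ChartedSpace ℂ Y]
  [rs : RS Y]
  M : PM Y
  hP : M.P = sp 𝒴.P t
  hR : M.R = sp1 𝒴.R t
  rt : 𝒴.Rt t
  χ : Y → Y → ℂ
  mer : ∀ p, MeromorphicAt (loc (χ p) p) (zc p p)

attribute [instance] Md.top Md.chart Md.rs

namespace Md

variable {𝒴 : Pl L} {t : ℂ} (μ : Md 𝒴 t)

/-- the map to the plane curve -/
def j (p : μ.Y) : E3 := (t, μ.M.x p, μ.M.y p)

/-- the form `F dξ` -/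
def fm (F : E3 → ℂ) (p : μ.Y) : ℂ := F (μ.j p) * D μ.M.x p

/-- the derivative of `ξ` in the coordinate at `p` -/
def xv (p y : μ.Y) : ℂ := dv μ.M.x p y

/-- `F (dξ) ^ ν` is holomorphic on the fibre -/
def HolF (ν : ℕ) (F : E3 → ℂ) : Prop := μ.M.Hol ν fun p => F (μ.j p)

/-- `F (dξ) ^ ν` is holomorphic to first order along the fibre -/
def RegF (ν : ℕ) (F : E3 → ℂ) : Prop :=
  ∀ p, ∃ β β₁, An β p ∧ An β₁ p ∧ ∀ᶠ y in 𝓝[≠] p, F (μ.j y) * μ.xv p y ^ ν = β y ∧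
    𝒴.dT F (μ.j y) * μ.xv p y ^ ν = β₁ y - μ.χ p y * dv β p y - ν * dv (μ.χ p) p y * β y

/-- the polynomials `N` give the holomorphic forms `w` -/
def IsF (N : Fin g → (KK L)[X][X]) (w : Fin g → μ.Y → ℂ) : Prop :=
  ∀ i, Rg2 (N i) t ∧ w i ∈ Om μ.Y ∧ ∀ p ∉ μ.M.Sg, w i p = μ.fm (𝒴.phs N i) p

/-- the polynomials `N` give a basis `w` of the holomorphic forms -/
def IsB (N : Fin g → (KK L)[X][X]) (w : Fin g → μ.Y → ℂ) : Prop :=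
  μ.IsF N w ∧ LinearIndependent ℂ w ∧ ∀ w' ∈ Om μ.Y, w' ∈ Submodule.span ℂ (range w)

/-- the pairing of `F dξ` on the fibre over `s` with the transport of the form `θ` -/
def Gam (θ : μ.Y → ℂ × ℂ) (F : E3 → ℂ) (s : ℂ) : ℂ :=
  ∫ ξ, μ.M.tr (fun p => F (𝒴.prj (s, μ.M.x p, μ.M.y p)) * conj ((θ p).1 / D μ.M.x p)) ξ

/-- the principal parts of the functions `u i` -/
def CwA (N : Fin g → (KK L)[X][X]) (u : Fin g → E3 → ℂ) : Prop :=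
  ∀ p i, ∃ a, An a p ∧ ∀ᶠ y in 𝓝[≠] p,
    u i (μ.j y) + μ.χ p y * (𝒴.phs N i (μ.j y) * μ.xv p y) = a y

/-- the vector field `d / dt - s d / dξ` is holomorphic along the fibre -/
def SReg (s : E3 → ℂ) : Prop :=
  ∀ p, ∃ σ, An σ p ∧ ∀ᶠ y in 𝓝[≠] p, s (μ.j y) / μ.xv p y + μ.χ p y = σ y

end Md

/-- smooth models of almost all fibres -/
structure Fam (𝒴 : Pl L) where
  G : Set ℂ
  mem : G ∈ cd
  md : ∀ t ∈ G, Md 𝒴 t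
  up : ∀ ν F, 𝒴.Rat F → (∀ᶠ t in cd, ∀ h : t ∈ G, (md t h).HolF ν F) →
    ∀ᶠ t in cd, ∀ h : t ∈ G, (md t h).RegF ν F

namespace Fam

variable {𝒴 : Pl L} (Φ : Fam 𝒴)

/-- holomorphic on almost all fibres -/
def H (ν : ℕ) (F : E3 → ℂ) : Prop := ∀ᶠ t in cd, ∀ h : t ∈ Φ.G, (Φ.md t h).HolF ν F

/-- a basis of the holomorphic forms on almost all fibres -/
def Bas (N : Fin g → (KK L)[X][X]) : Prop := ∀ᶠ t in cd, ∀ h : t ∈ Φ.G, ∃ w, (Φ.md t h).IsB N w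

/-- the vector field is holomorphic along almost all fibres -/
def Reg (s : E3 → ℂ) : Prop := ∀ᶠ t in cd, ∀ h : t ∈ Φ.G, (Φ.md t h).SReg s

end Fam

namespace Pl

variable (𝒴 : Pl L) (N : Fin g → (KK L)[X][X])

/-- the Gauss-Manin connection preserves the holomorphic forms -/
structure Conn (m : Matrix (Fin g) (Fin g) (KK L)) (u : Fin g → E3 → ℂ) : Prop where
  rat : ∀ i, 𝒴.Rat (u i)
  eq : ∀ᶠ q in 𝒴.gen, ∀ i,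
    𝒴.dX (u i) q = 𝒴.dT (𝒴.phs N i) q - ∑ j, rv (m i j) q.1 * 𝒴.phs N j q

/-- the Koszul relations -/
def CwB (u : Fin g → E3 → ℂ) (t : ℂ) : Prop :=
  ∃ c : Fin g → Fin g → Fin g → ℂ, ∀ᶠ q in 𝒴.fb t, ∀ i j,
    u i q * 𝒴.phs N j q - u j q * 𝒴.phs N i q = c i j ⬝ᵥ fun k => 𝒴.phs N k q

/-- the Kodaira-Spencer class vanishes at `t` -/
def AltI (u : Fin g → E3 → ℂ) (t : ℂ) : Prop :=
  ∃ f : Fin g → ℂ, ∀ᶠ q in 𝒴.fb t, ∀ i j,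
    (u i q - f i) * 𝒴.phs N j q = (u j q - f j) * 𝒴.phs N i q

/-- the canonical map of the fibre is not injective -/
def AltII (t : ℂ) : Prop :=
  ∀ T : E3 → Prop, (∀ᶠ q in 𝒴.fb t, T q) → ∀ᶠ q in 𝒴.fb t, ∃ q', T q' ∧ q'.1 = t ∧ 𝒴.On q' ∧
    q' ≠ q ∧ ∃ l : ℂ, ∀ i, 𝒴.phs N i q' = l * 𝒴.phs N i q

/-- two points with the same canonical image -/
def SepAt (t : ℂ) : Prop :=
  ∀ (q q' : E3) (l : ℂ), 𝒴.Ok q → 𝒴.Ok q' → q.1 = t → q'.1 = t → q ≠ q' →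
    (∀ i, 𝒴.phs N i q' = l * 𝒴.phs N i q) → ∀ a b : VF g, AnV a t → AnV b t →
    cb b (𝒴.phs N) q ≠ 0 →
    𝒴.dX (fun q => cb a (𝒴.phs N) q / cb b (𝒴.phs N) q) q' =
      -l * 𝒴.dX (fun q => cb a (𝒴.phs N) q / cb b (𝒴.phs N) q) q

/-- two charts with the same canonical image -/
def TwoCh (i₁ i₂ : Fin g) (T : E3 → Prop) : Prop :=
  ∃ (y₀ : E2) (γ γ' : E2 → E3), AnalyticAt ℂ γ y₀ ∧ AnalyticAt ℂ γ' y₀ ∧ ∀ᶠ y in 𝓝 y₀,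
    (T (γ y) ∧ 𝒴.On (γ y) ∧ (γ y).1 = y.1 ∧ 𝒴.phs N i₁ (γ y) / 𝒴.phs N i₂ (γ y) = y.2) ∧
    (T (γ' y) ∧ 𝒴.On (γ' y) ∧ (γ' y).1 = y.1 ∧ 𝒴.phs N i₁ (γ' y) / 𝒴.phs N i₂ (γ' y) = y.2) ∧
    γ y ≠ γ' y ∧
    ∀ i, 𝒴.phs N i (γ' y) * 𝒴.phs N i₂ (γ y) = 𝒴.phs N i (γ y) * 𝒴.phs N i₂ (γ' y)

/-- the vector field `d / dt - s d / dξ` acts on the holomorphic forms -/
structure VFd (m : Matrix (Fin g) (Fin g) (KK L)) (s : E3 → ℂ) : Prop where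
  rat : 𝒴.Rat s
  ld : ∀ᶠ q in 𝒴.gen, ∀ i, 𝒴.LD 1 s (𝒴.phs N i) q = ∑ j, rv (m i j) q.1 * 𝒴.phs N j q

/-- a combination of the rows of a frame -/
def cf (Θ : MF g) (c : Fin g → ℂ) : E3 → ℂ := cb (fun t => c ᵥ* Θ t) (𝒴.phs N)

end Pl

/-- a flat frame on a punctured disc -/
def FlF (m : Matrix (Fin g) (Fin g) (KK L)) (z : ℂ) (Θ : MF g) : Prop :=
  ∀ᶠ t in 𝓝[≠] z, AnM Θ t ∧ (Θ t).det ≠ 0 ∧ dM Θ t = -(Θ t * km m t)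

end Pool.Agent.P.MP_7ede32_ag.Hod
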