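import Pool.Agent.P.MP_5d7cf0_gt.T.RS

/-!
Definitions on a compact Riemann surface: smooth one-forms, a covering of the line, the integral,
plane models.
-/

open Set Filter Topology MeasureTheory ComplexConjugate Polynomial

noncomputable section

namespace Pool.Agent.P.MP_7ede32_ag.Hod

open MP_5d7cf0_gt.T (RS zc loc An D Sm Db Hf Om dbar)

/-- the operator `d / dz` in the plane -/
def dz (g : ℂ → ℂ) (z : ℂ) : ℂ := conj (dbar (fun w => conj (g w)) z)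

/-- degree conditions on the coefficients of an integral equation -/
def DegC {K : Type} [CommRing K] (ρ m : ℕ) (A : ℕ → K[X]) : Prop :=
  ∀ k < m, ∀ i, (m - k) * ρ ≤ i + (m - k) + ρ → (A k).coeff i = 0

/-- the integral equation -/
def CP (R : ℂ[X]) (m : ℕ) (A : ℕ → ℂ[X]) (ξ ψ : ℂ) : Prop :=
  ψ ^ m + R.eval ξ * ∑ k ∈ Finset.range m, (A k).eval ξ * ψ ^ k = 0

/-- the algebraic form of: `N dx / P_y` is a holomorphic form on the curve `P = 0` -/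
def AV {K : Type} [CommRing K] (P : K[X][X]) (R : K[X]) (N : K[X][X]) : Prop :=
  ∃ (m : ℕ) (A : ℕ → K[X]), DegC R.natDegree m A ∧ P ∣ (C R * N) ^ m +
    C R * ∑ k ∈ Finset.range m, C (A k) * (C R * N) ^ k * derivative P ^ (m - k)

variable {Y : Type} [TopologicalSpace Y] [ChartedSpace ℂ Y]

/-- the `(1,0)` part of `du` -/
def Dz (u : Y → ℂ) (p : Y) : ℂ := dz (loc u p) (zc p p)

/-- A smooth one-form is the pair of its coefficients in the preferred chart; this is `du`. -/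
def dd (u : Y → ℂ) (p : Y) : ℂ × ℂ := (Dz u p, Db u p)

/-- the conjugate form -/
def cj (θ : Y → ℂ × ℂ) (p : Y) : ℂ × ℂ := (conj (θ p).2, conj (θ p).1)

/-- a form of type `(1,0)` -/
def hf (w : Y → ℂ) (p : Y) : ℂ × ℂ := (w p, 0)

/-- the derivative of `u` at `y` with respect to the coordinate at `p` -/
def dv (u : Y → ℂ) (p y : Y) : ℂ := D u y / D (zc p) y

/-- exact near `p` -/
def Lc (θ : Y → ℂ × ℂ) (p : Y) : Prop := ∃ u, ∀ᶠ y in 𝓝 p, Sm u y ∧ θ y = dd u y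

/-- closed forms -/
def Cl (θ : Y → ℂ × ℂ) : Prop := ∀ p, Lc θ p

/-- the form is continuous at `p` -/
def Cn (θ : Y → ℂ × ℂ) (p : Y) : Prop :=
  ContinuousAt (fun y => (θ y).1 / D (zc p) y) p ∧
    ContinuousAt (fun y => (θ y).2 / conj (D (zc p) y)) p

/-- `s` is a holomorphic local inverse of `x` at `p` -/
structure IsSec (x : Y → ℂ) (s : ℂ → Y) (p : Y) : Prop where
  self : s (x p) = p
  cont : ContinuousAt s (x p)
  left : ∀ᶠ y in 𝓝 p, s (x y) = y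
  right : ∀ᶠ ξ in 𝓝 (x p), x (s ξ) = ξ
  an : AnalyticAt ℂ (zc p ∘ s) (x p)

/-- a meromorphic function `x` that is unramified and finite outside `Sg` -/
structure XC (Y : Type) [TopologicalSpace Y] [ChartedSpace ℂ Y] where
  x : Y → ℂ
  Sg : Set Y
  R : ℂ[X]
  fin : Sg.Finite
  sep : R.Separable
  reg : ∀ p ∉ Sg, An x p ∧ D x p ≠ 0 ∧ R.eval (x p) ≠ 0
  bad : ∀ p ∈ Sg, (∃ β, R.eval β = 0 ∧ Tendsto x (𝓝[≠] p) (𝓝 β)) ∨
    Tendsto x (𝓝[≠] p) (Bornology.cobounded ℂ)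

namespace XC

variable (C : XC Y)

/-- the fibre of `x` -/
def Φ (ξ : ℂ) : Set Y := {p | p ∉ C.Sg ∧ C.x p = ξ}

/-- the trace -/
def tr (F : Y → ℂ) (ξ : ℂ) : ℂ := ∑ᶠ p ∈ C.Φ ξ, F p

/-- the density of the wedge product with respect to the coordinate `x` -/
def wd (θ θ' : Y → ℂ × ℂ) (p : Y) : ℂ :=
  ((θ p).1 * (θ' p).2 - (θ p).2 * (θ' p).1) / ((‖D C.x p‖ ^ 2 : ℝ) : ℂ)

/-- the integral of the wedge product -/
def pr (θ θ' : Y → ℂ × ℂ) : ℂ := ∫ ξ, C.tr (C.wd θ θ') ξ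

/-- the Hermitian form -/
def Q (θ θ' : Y → ℂ × ℂ) : ℂ := C.pr θ (cj θ')

/-- closed forms that vanish near `Sg` -/
def Zc (θ : Y → ℂ × ℂ) : Prop := Cl θ ∧ ∀ p ∈ C.Sg, ∀ᶠ y in 𝓝 p, θ y = 0

/-- closed forms that live over `K` -/
def Zk (K : Set ℂ) (θ : Y → ℂ × ℂ) : Prop := Cl θ ∧ ∀ p, θ p ≠ 0 → p ∉ C.Sg ∧ C.x p ∈ K

/-- `F (dx) ^ ν` has removable singularities only -/
def Hol (ν : ℕ) (F : Y → ℂ) : Prop :=
  ∀ p, ∃ β, An β p ∧ ∀ᶠ y in 𝓝[≠] p, F y * dv C.x p y ^ ν = β y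

/-- the Gram matrix -/
def gram {ι κ : Type} (θ : ι → Y → ℂ × ℂ) (θ' : κ → Y → ℂ × ℂ) : Matrix ι κ ℂ :=
  Matrix.of fun i j => C.Q (θ i) (θ' j)

end XC

/-- a plane model `P (x, y) = 0` -/
structure PM (Y : Type) [TopologicalSpace Y] [ChartedSpace ℂ Y] extends XC Y where
  y : Y → ℂ
  P : ℂ[X][X]
  A : ℂ[X][X]
  B : ℂ[X][X]
  k : ℕ
  monic : P.Monic
  pos : 0 < P.natDegree
  bez : C (R ^ k) = A * P + B * derivative P
  yan : ∀ p ∉ Sg, An y p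
  bij : ∀ ξ, R.eval ξ ≠ 0 → BijOn y {p | p ∉ Sg ∧ x p = ξ} {η | P.evalEval ξ η = 0}

/-- a polynomial as a function on the surface -/
def PM.ev (M : PM Y) (N : ℂ[X][X]) (p : Y) : ℂ := N.evalEval (M.x p) (M.y p)

end Pool.Agent.P.MP_7ede32_ag.Hod
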