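import Pool.Agent.P.MP_7ede32_ag.Hod.DF
import Pool.Agent.P.MP_7ede32_ag.Full.StC

/-!
The surface, its plane model and the dictionary.
-/

open Set Filter Topology Polynomial Matrix Bornology

noncomputable section

namespace Pool.Agent.P.MP_7ede32_ag.Hod

open Geo (Sf0 wedge D)
open Full (Mf GT Nc PCh Sec)
open Ell (E2 jac)
open MP_5d7cf0_gt.T (RS zc)

/-- charts -/
abbrev Ch (X : Type) [TopologicalSpace X] := OpenPartialHomeomorph X E2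

/-- a family of meromorphic functions that come from pluricanonical sections -/
structure Mg {X : Type} [MetricSpace X] (S : Sf0 X) (L : PeriodPair) extends Mf S L where
  I : Set ι
  ix_mem : ix ∈ I
  W_ne : ∀ y ∉ Z, ∀ e ∈ S.A, y ∈ e.source → wedge (S.dπ e y) (D (f ix) e y) ≠ 0
  regA : ∀ e ∈ S.A, ∀ p ∈ e.source, ∃ β : X → ℂ, S.AnAt β p ∧ ∀ᶠ y in 𝓝 p, y ∉ Z →
    f ia y * wedge (S.dπ e y) (D (f ix) e y) ^ μ = β y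
  regI : ∀ i ∈ I, ∀ e ∈ S.A, ∀ p ∈ e.source, ∃ α : X → ℂ, S.AnAt α p ∧ ∀ᶠ y in 𝓝 p, y ∉ Z →
    f i y * f ia y * wedge (S.dπ e y) (D (f ix) e y) ^ μ = α y
  injI : ∀ y ∉ Z, ∀ y' ∉ Z, (∀ i ∈ I, f i y = f i y') → y = y'

/-- the conclusion of the theorem -/
def Concl {X : Type} [MetricSpace X] (S : Sf0 X) : Prop :=
  ∃ (B : Set (ℂ ⧸ S.Λ)) (T : Set (ℂ → X)) (n : ℕ), B.Finite ∧ T.Finite ∧ 0 < n ∧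
    (∀ f ∈ T, S.Hol f ∧ (∀ z, S.π (f z) = S.Λ.mkQ z) ∧ ∀ w ∈ S.Λ, ∀ z, f (z + n * w) = f z) ∧
    ∀ h : ℂ → X, S.Hol h → (∃ z, h z ≠ h 0) → (∃ s ∈ B, ∀ z, S.π (h z) = s) ∨
      ∃ f ∈ T, ∃ φ : ℂ → ℂ, Differentiable ℂ φ ∧ h = f ∘ φ

/-- a surface of general type fibred over an elliptic curve -/
structure Sx where
  X : Type
  [met : MetricSpace X]
  [cpt : CompactSpace X]
  [con : ConnectedSpace X]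
  S : Sf0 X
  L : PeriodPair
  hΛ : S.Λ = L.lattice
  nc : Nc S
  fib : ∀ s, IsConnected {p | S.π p = s}
  G : GT S
  M : Mg S L

attribute [instance] Sx.met Sx.cpt Sx.con

namespace Sx

variable (𝒳 : Sx)

/-- the point `p` lies over `z` -/
def Ov (p : 𝒳.X) (z : ℂ) : Prop := 𝒳.S.π p = 𝒳.S.Λ.mkQ z

/-- the polar set -/
def Z : Set 𝒳.X := 𝒳.M.Z

/-- the fibre coordinate -/
def x : 𝒳.X → ℂ := 𝒳.M.f 𝒳.M.ix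

/-- the coefficient of `dt ∧ dx` -/
def W (e : Ch 𝒳.X) (y : 𝒳.X) : ℂ := wedge (𝒳.S.dπ e y) (D 𝒳.x e y)

/-- the lift of the fibration near the fibre over `z` -/
def lam (z : ℂ) (p : 𝒳.X) : ℂ := z + 𝒳.S.mu (𝒳.S.Λ.mkQ z) p

/-- good fibres -/
def GdF (z : ℂ) : Prop :=
  ∀ p, 𝒳.Ov p z → ¬ 𝒳.S.Crit p ∧ (∀ᶠ y in 𝓝[≠] p, 𝒳.Ov y z → y ∉ 𝒳.Z) ∧
    (𝒳.M.Gd 𝒳.x p ∨ Tendsto 𝒳.x (𝓝[𝒳.Zᶜ] p) (cobounded ℂ))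

/-- the values of `x` at the points of `Z` over `z` -/
def Tz (z : ℂ) : Set ℂ := {ξ | ∃ p ∈ 𝒳.Z, 𝒳.Ov p z ∧ Tendsto 𝒳.x (𝓝[𝒳.Zᶜ] p) (𝓝 ξ)}

/-- the points over `(z, ξ)` -/
def Φ (z ξ : ℂ) : Set 𝒳.X := {p | p ∉ 𝒳.Z ∧ 𝒳.Ov p z ∧ 𝒳.x p = ξ}

open Classical in
/-- the same as a finite set -/
def Φf (z ξ : ℂ) : Finset 𝒳.X := if h : (𝒳.Φ z ξ).Finite then h.toFinset else ∅

/-- the map `(t, x)` is a covering over a neighbourhood of `(z, ξ)` -/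
def CovAt (z ξ : ℂ) : Prop :=
  (𝒳.Φ z ξ).Finite ∧ (∀ᶠ q in 𝓝 ((z, ξ) : E2), q.2 ∉ 𝒳.Tz q.1) ∧ ∃ s : 𝒳.X → E2 → 𝒳.X,
    (∀ p ∈ 𝒳.Φ z ξ, s p (z, ξ) = p ∧ ContinuousAt (s p) (z, ξ) ∧
      ∀ F : 𝒳.X → ℂ, 𝒳.S.AnAt F p → AnalyticAt ℂ (fun q => F (s p q)) (z, ξ)) ∧
    ∀ᶠ q in 𝓝 ((z, ξ) : E2), BijOn (fun p => s p q) (𝒳.Φ z ξ) (𝒳.Φ q.1 q.2)

/-- holomorphic off `Z`, of polynomial growth -/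
def PB (F : 𝒳.X → ℂ) : Prop :=
  (∀ p ∉ 𝒳.Z, 𝒳.S.AnAt F p) ∧ ∃ (c : ℝ) (a : ℕ), ∀ p ∉ 𝒳.Z,
    ‖F p‖ ≤ c * (1 + ‖𝒳.M.f 𝒳.M.iu p‖ + ‖𝒳.x p‖) ^ a

/-- a chart centred at `p` in which the fibration is `z + u ^ μ` -/
def NF (e : Ch 𝒳.X) (p : 𝒳.X) (z : ℂ) (μ : ℕ) : Prop :=
  e ∈ 𝒳.S.A ∧ p ∈ e.source ∧ e p = 0 ∧ 𝒳.Ov p z ∧ 0 < μ ∧
    ∀ᶠ y in 𝓝 p, 𝒳.lam z y = z + (e y).1 ^ μ

end Sx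

/-- a plane model -/
structure Pm (𝒳 : Sx) where
  𝒴 : Pl 𝒳.L
  Qy : MvPolynomial 𝒳.M.ι ℂ
  pb : 𝒳.PB (𝒳.M.ev Qy)
  gd : ∀ᶠ z in cd, 𝒳.GdF z
  prod : ∀ᶠ z in cd, ∀ ξ ∉ 𝒳.Tz z,
    (sp 𝒴.P z).map (evalRingHom ξ) = ∏ p ∈ 𝒳.Φf z ξ, (X - C (𝒳.M.ev Qy p))
  on : ∀ᶠ z in cd, ∀ p ∉ 𝒳.Z, 𝒳.Ov p z → 𝒴.On (z, 𝒳.x p, 𝒳.M.ev Qy p)
  bij : ∀ᶠ z in cd, ∀ᶠ ξ in cofinite, BijOn (𝒳.M.ev Qy) (𝒳.Φ z ξ) {η | 𝒴.On (z, ξ, η)}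

namespace Pm

variable {𝒳 : Sx} (Q : Pm 𝒳)

/-- the second fibre coordinate -/
def y : 𝒳.X → ℂ := 𝒳.M.ev Q.Qy

/-- the map to the plane model near the fibre over `z` -/
def jm (z : ℂ) (p : 𝒳.X) : E3 := (𝒳.lam z p, 𝒳.x p, Q.y p)

/-- generic points near `p` -/
def Nb (p : 𝒳.X) (z : ℂ) : Filter 𝒳.X := 𝓝[𝒳.Zᶜ] p ⊓ comap (Q.jm z) Q.𝒴.gen

/-- `α` is the coefficient of `F (dt ∧ dξ) ^ ν` in the chart `e` near `p` -/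
def Co (e : Ch 𝒳.X) (p : 𝒳.X) (z : ℂ) (ν : ℕ) (F : E3 → ℂ) (α : 𝒳.X → ℂ) : Prop :=
  𝒳.S.AnAt α p ∧ ∀ᶠ y in Q.Nb p z, F (Q.jm z y) * 𝒳.W e y ^ ν = α y

/-- `F (dt ∧ dξ) ^ ν` is holomorphic at `p` -/
def HX (ν : ℕ) (F : E3 → ℂ) (p : 𝒳.X) (z : ℂ) : Prop :=
  ∀ e ∈ 𝒳.S.A, p ∈ e.source → ∃ α, Q.Co e p z ν F α

/-- `F (dt ∧ dξ) ^ ν` is holomorphic along the fibre over `z` -/
def HXf (ν : ℕ) (F : E3 → ℂ) (z : ℂ) : Prop := ∀ p, 𝒳.Ov p z → Q.HX ν F p z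

/-- the functions of the family are rational on the plane model -/
def RatAll : Prop :=
  ∀ i, ∃ F, Q.𝒴.Rat F ∧ ∀ᶠ q in Q.𝒴.gen, ∀ p ∉ 𝒳.Z, 𝒳.Ov p q.1 → 𝒳.x p = q.2.1 →
    Q.y p = q.2.2 → 𝒳.M.f i p = F q

/-- a chart in which the vector field is `d / du` -/
def Str (e : Ch 𝒳.X) (p : 𝒳.X) (z : ℂ) (s : E3 → ℂ) : Prop :=
  𝒳.NF e p z 1 ∧ ∀ᶠ y in Q.Nb p z, D 𝒳.x e y (1, 0) = -s (Q.jm z y)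

end Pm

/-- the Riemann surface `Y` is the fibre over `z` -/
structure FbD (𝒳 : Sx) (z : ℂ) (Y : Type) [TopologicalSpace Y] [ChartedSpace ℂ Y] where
  ι : Y → 𝒳.X
  emb : Topology.IsEmbedding ι
  rng : ∀ p, p ∈ range ι ↔ 𝒳.Ov p z
  E : Y → Ch 𝒳.X
  nf : ∀ a, 𝒳.NF (E a) (ι a) z 1
  zc_eq : ∀ a, ∀ᶠ b in 𝓝 a, E a (ι b) = (0, zc a b)

/-- the fibre as a smooth model of the plane curve -/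
structure MdX {𝒳 : Sx} (Q : Pm 𝒳) (z : ℂ) where
  md : Md Q.𝒴 z
  fb : FbD 𝒳 z md.Y
  gd : 𝒳.GdF z
  on : ∀ᶠ t in 𝓝 z, ∀ p ∉ 𝒳.Z, 𝒳.Ov p t → Q.𝒴.On (t, 𝒳.x p, Q.y p)
  hx : ∀ a, fb.ι a ∉ 𝒳.Z → md.M.x a = 𝒳.x (fb.ι a) ∧ md.M.y a = Q.y (fb.ι a) ∧
    (md.M.R.eval (md.M.x a) ≠ 0 → a ∉ md.M.Sg)
  hχ : ∀ a b, md.χ a b = D 𝒳.x (fb.E a) (fb.ι b) (1, 0) / D 𝒳.x (fb.E a) (fb.ι b) (0, 1)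

/-- models of almost all fibres -/
structure MFam {𝒳 : Sx} (Q : Pm 𝒳) where
  G : Set ℂ
  mem : G ∈ cd
  mx : ∀ z ∈ G, MdX Q z

/-- the dictionary between the surface and the family of curves -/
structure Tk (𝒳 : Sx) where
  Q : Pm 𝒳
  rat : Q.RatAll
  Φ : Fam Q.𝒴
  hx : ∀ ν F, Q.𝒴.Rat F → Φ.H ν F → ∀ᶠ z in cd, Q.HXf ν F z
  fh : ∀ ν F, Q.𝒴.Rat F → (∀ᶠ z in cd, Q.HXf ν F z) → Φ.H ν F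
  inj : ∀ᶠ z in cd, ∀ p ∉ 𝒳.Z, ∀ p' ∉ 𝒳.Z, 𝒳.Ov p z → 𝒳.Ov p' z →
    ev1 Q.𝒴.R (z, 𝒳.x p, Q.y p) ≠ 0 → 𝒳.x p = 𝒳.x p' → Q.y p = Q.y p' → p = p'

/-- the dictionary and a basis of the holomorphic forms -/
structure Cx (𝒳 : Sx) extends Tk 𝒳 where
  g : ℕ
  N : Fin g → (KK 𝒳.L)[X][X]
  bas : Φ.Bas N

namespace Cx

variable {𝒳 : Sx} (T : Cx 𝒳)

/-- the coefficients of the basis -/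
def φ : Fin T.g → E3 → ℂ := T.Q.𝒴.phs T.N

/-- the Hodge metric -/
def h : MF T.g := T.Q.𝒴.hm T.N

/-- the direct image of the canonical bundle -/
def Lat (z : ℂ) : Set (VF T.g) := {a | MeV a z ∧ T.Q.HXf 1 (cb a T.φ) z}

/-- the rows of a frame -/
def row (Θ : MF T.g) (k : Fin T.g) : E3 → ℂ := cb (fun t => Θ t k) T.φ

/-- the ratio `ρ` of two rows is not constant on the fibre -/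
def Leaf (Θ : MF T.g) (e : Ch 𝒳.X) (p : 𝒳.X) (z : ℂ) (μ : ℕ) (ρ : 𝒳.X → ℂ) : Prop :=
  𝒳.NF e p z μ ∧ 𝒳.S.AnAt ρ p ∧ D ρ e p (0, 1) ≠ 0 ∧
    ∃ (α : Fin T.g → 𝒳.X → ℂ) (i j : Fin T.g), (∀ k, T.Q.Co e p z 1 (T.row Θ k) (α k)) ∧
      (∀ᶠ y in 𝓝 p, α i y = ρ y * α j y) ∧ ¬ ∀ᶠ y in 𝓝 p, α j y = 0

end Cx

/-- a flat frame of the lattice `Λ` -/
def FFr {L : PeriodPair} {g : ℕ} (m : Matrix (Fin g) (Fin g) (KK L)) (Λ : Set (VF g)) (z : ℂ)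
    (Θ : MF g) : Prop :=
  FlF m z Θ ∧ (∀ i, (fun t => Θ t i) ∈ Λ) ∧ ∃ i, (fun t => (t - z)⁻¹ • Θ t i) ∉ Λ

/-- a pluricanonical section on the unramified cover of degree `n ^ 2` -/
structure LSec (𝒳 : Sx) (n m : ℕ) where
  c : ℂ → Ch 𝒳.X → 𝒳.X → ℂ
  an : ∀ z, ∀ e ∈ 𝒳.S.A, ∀ p ∈ e.source, 𝒳.Ov p z → 𝒳.S.AnAt (fun y => c (𝒳.lam z y) e y) p
  per : ∀ w ∈ 𝒳.L.lattice, ∀ z, ∀ e ∈ 𝒳.S.A, ∀ p ∈ e.source, 𝒳.Ov p z →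
    c (z + n * w) e p = c z e p
  compat : ∀ z, ∀ e ∈ 𝒳.S.A, ∀ e' ∈ 𝒳.S.A, ∀ p ∈ e.source, p ∈ e'.source → 𝒳.Ov p z →
    c z e p = c z e' p * jac (fderiv ℂ (e' ∘ e.symm) (e p)) ^ m

/-- a two-form on the cover that vanishes on a smooth fibre -/
structure SecC (𝒳 : Sx) (n : ℕ) (z₁ : ℂ) extends LSec 𝒳 n 1 where
  nz : ∃ z, ∃ e ∈ 𝒳.S.A, ∃ p ∈ e.source, 𝒳.Ov p z ∧ c z e p ≠ 0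
  van : ∀ e ∈ 𝒳.S.A, ∀ p ∈ e.source, 𝒳.Ov p z₁ → ∃ β : 𝒳.X → ℂ, 𝒳.S.AnAt β p ∧
    ∀ᶠ y in 𝓝 p, c (𝒳.lam z₁ y) e y = (𝒳.lam z₁ y - z₁) ^ 3 * β y
  ncrit : ∀ p, 𝒳.Ov p z₁ → ¬ 𝒳.S.Crit p

/-- the unramified cover, as a space -/
structure CvT (𝒳 : Sx) (Λ' : Submodule ℤ ℂ) where
  X' : Type
  [met : MetricSpace X']
  [cpt : CompactSpace X']
  [con : ConnectedSpace X']
  π' : X' → ℂ ⧸ Λ'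
  pr : X' → 𝒳.X
  cont : Continuous pr
  ov : ∀ a z, π' a = Λ'.mkQ z → 𝒳.Ov (pr a) z
  inj : ∀ a b, pr a = pr b → π' a = π' b → a = b
  surj : ∀ p z, 𝒳.Ov p z → ∃ a, pr a = p ∧ π' a = Λ'.mkQ z
  lam : ∀ a z, π' a = Λ'.mkQ z → ∀ᶠ b in 𝓝 a, π' b = Λ'.mkQ (𝒳.lam z (pr b))
  tend : ∀ a z, π' a = Λ'.mkQ z → ∀ (l : Filter ℂ) (h : ℂ → X') (φ : ℂ → ℂ),
    Tendsto (pr ∘ h) l (𝓝 (pr a)) → Tendsto φ l (𝓝 z) → (∀ᶠ i in l, π' (h i) = Λ'.mkQ (φ i)) →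
    Tendsto h l (𝓝 a)
  map_pr : ∀ a, map pr (𝓝 a) = 𝓝 (pr a)

attribute [instance] CvT.met CvT.cpt CvT.con

/-- an atlas for the cover -/
structure CvA {𝒳 : Sx} {Λ' : Submodule ℤ ℂ} (T : CvT 𝒳 Λ') where
  A : Set (Ch T.X')
  ch : ∀ e', e' ∈ A ↔ ∀ a ∈ e'.source, ∃ e ∈ 𝒳.S.A, T.pr a ∈ e.source ∧
    ∀ᶠ b in 𝓝 a, e' b = e (T.pr b)
  ch' : ∀ a, ∀ e ∈ 𝒳.S.A, T.pr a ∈ e.source → ∃ e' ∈ A, a ∈ e'.source ∧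
    ∀ᶠ b in 𝓝 a, e' b = e (T.pr b)

/-- the working structure `S'` on the cover -/
structure IsCv {𝒳 : Sx} {Λ' : Submodule ℤ ℂ} {T : CvT 𝒳 Λ'} (𝒜 : CvA T) (S' : Sf0 T.X') :
    Prop where
  hA : S'.A = 𝒜.A
  hΛ : S'.Λ = Λ'
  hπ : ∀ a z, S'.π a = S'.Λ.mkQ z ↔ T.π' a = Λ'.mkQ z

/-- the section `σ` on the cover is given by `s` -/
def IsPull {𝒳 : Sx} {Λ' : Submodule ℤ ℂ} {T : CvT 𝒳 Λ'} (𝒜 : CvA T) {n m : ℕ} (s : LSec 𝒳 n m)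
    (c : Ch T.X' → E2 → ℂ) : Prop :=
  ∀ e' ∈ 𝒜.A, ∀ a ∈ e'.source, ∀ z, T.π' a = Λ'.mkQ z → ∀ e ∈ 𝒳.S.A, T.pr a ∈ e.source →
    (∀ᶠ b in 𝓝 a, e' b = e (T.pr b)) → c e' (e' a) = s.c z e (T.pr a)

end Pool.Agent.P.MP_7ede32_ag.Hod
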