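import Pool.Agent.P.MP_7ede32_ag.Hod.StB

/-!
The dichotomy: sections over an unramified cover, or a flat metric.
-/

open Set Filter Topology Matrix Metric
open scoped ComplexOrder

namespace Pool.Agent.P.MP_7ede32_ag.Hod

open Full (cd_iff)

namespace DichP

variable {L : PeriodPair} {g : ℕ}

theorem tendsto_sub (t w : ℂ) : Tendsto (fun s => s - w) (𝓝 (t + w)) (𝓝 t) := by
  have : Tendsto (fun s : ℂ => s - w) (𝓝 (t + w)) (𝓝 (t + w - w)) :=
    (continuous_id.sub continuous_const).tendsto _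
  rwa [add_sub_cancel_right] at this

theorem an_shift {f : ℂ → ℂ} {t : ℂ} (w : ℂ) (hf : AnalyticAt ℂ f t) :
    AnalyticAt ℂ (fun s => f (s - w)) (t + w) := by
  have h1 : AnalyticAt ℂ (fun s : ℂ => s - w) (t + w) := analyticAt_id.sub analyticAt_const
  exact AnalyticAt.comp_of_eq hf h1 (add_sub_cancel_right t w)

theorem gm_shift {h : MF g} {w : ℂ} (hw : ∀ t, h (t + w) = h t) {t : ℂ} (H : Gm h t) :
    Gm h (t + w) := by
  have e : ∀ s, h (s - w) = h s := fun s => by rw [← hw (s - w), sub_add_cancel]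
  obtain ⟨h1, h2, Γ, h3, h4, h5⟩ := H
  refine ⟨by rwa [hw], fun θ hθ => ?_, fun s => Γ (s - w), fun i j => an_shift w (h3 i j), ?_, ?_⟩
  · filter_upwards [(tendsto_sub t w).eventually (h2 θ hθ)] with s hs
    rwa [hw, ← e s]
  · show Γ (t + w - w) = h (t + w)
    rw [add_sub_cancel_right, hw, h4]
  · filter_upwards [(tendsto_sub t w).eventually h5] with s hs
    rwa [hw, ← e s]

theorem mem_shift {Λ : ℂ → Set (VF g)} (hΛ : LS L Λ) {w : ℂ} (hw : w ∈ L.lattice) {z : ℂ}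
    {a : VF g} (ha : (fun t => a (t + w)) ∈ Λ z) : a ∈ Λ (z + w) := by
  simpa only [sub_add_cancel] using hΛ.per w hw z _ ha

theorem std_shift {Λ : ℂ → Set (VF g)} (hΛ : LS L Λ) {w : ℂ} (hw : w ∈ L.lattice) {t : ℂ}
    (H : ∀ a, AnV a t → a ∈ Λ t) (a : VF g) (ha : AnV a (t + w)) : a ∈ Λ (t + w) := by
  refine mem_shift hΛ hw (H _ fun i => ?_)
  have := an_shift (-w) (ha i)
  simpa only [sub_neg_eq_add, add_neg_cancel_right] using this

theorem off_cd (S : ZS L g) : ∀ᶠ t in cd, S.Off t := by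
  refine (eventually_all_finset S.Z).2 fun z _ => cd_iff.2 fun x => ?_
  have h1 := (tendsto_sub (x - z) z).eventually (L.compl_lattice_sdiff_singleton_mem_nhds (x - z))
  rw [sub_add_cancel] at h1
  filter_upwards [mem_nhdsWithin_of_mem_nhds h1, self_mem_nhdsWithin] with t h2 h3 h4
  exact h2 ⟨h4, fun h5 => h3 (sub_left_injective h5)⟩

/-- finitely many classes -/
theorem exists_fin {q : ℂ → Prop} (h1 : ∀ᶠ t in cd, q t)
    (h2 : ∀ w ∈ L.lattice, ∀ t, q t → q (t + w)) :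
    ∃ F : Finset ℂ, ∀ t, ¬q t → ∃ x ∈ F, t - x ∈ L.lattice := by
  have hK : IsCompact (closedBall (0 : ℂ) (∑ i, ‖L.basis i‖)) := isCompact_closedBall _ _
  have hf := hK.finite_sdiff_of_mem_codiscreteWithin
    (codiscreteWithin_mono (subset_univ _) h1)
  refine ⟨hf.toFinset, fun t ht => ⟨ZSpan.fract L.basis t, ?_, ?_⟩⟩
  · have h3 : ((ZSpan.floor L.basis t : Submodule.span ℤ (range L.basis)) : ℂ) ∈ L.lattice := by
      rw [L.lattice_eq_span_range_basis]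
      exact Subtype.property _
    refine hf.mem_toFinset.2 ⟨mem_closedBall_zero_iff.2 (ZSpan.norm_fract_le _ _), fun h4 => ht ?_⟩
    have h5 := h2 _ h3 _ h4
    rwa [ZSpan.fract_apply, sub_add_cancel] at h5
  · rw [ZSpan.fract_apply, sub_sub_cancel, L.lattice_eq_span_range_basis]
    exact Subtype.property _

/-- incongruent representatives -/
theorem exists_sep (L : PeriodPair) (F : Finset ℂ) (z : ℂ) : ∃ Z : Finset ℂ, z ∈ Z ∧
    (∀ y ∈ Z, ∀ y' ∈ Z, y - y' ∈ L.lattice → y = y') ∧ ∀ x ∈ F, ∃ y ∈ Z, x - y ∈ L.lattice := by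
  classical
  induction F using Finset.induction_on with
  | empty => exact ⟨{z}, by simp, by simp, by simp⟩
  | insert x F _ ih =>
    obtain ⟨Z, h1, h2, h3⟩ := ih
    by_cases h4 : ∃ y ∈ Z, x - y ∈ L.lattice
    · exact ⟨Z, h1, h2, Finset.forall_mem_insert _ _ _ |>.2 ⟨h4, h3⟩⟩
    · refine ⟨insert x Z, Finset.mem_insert_of_mem h1, fun y hy y' hy' h5 => ?_, fun x' hx' => ?_⟩
      · rcases Finset.mem_insert.1 hy with e | c <;> rcases Finset.mem_insert.1 hy' with e' | c'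
        · rw [e, e']
        · exact absurd ⟨y', c', e ▸ h5⟩ h4
        · exact absurd ⟨y, c, by simpa [e'] using L.lattice.neg_mem h5⟩ h4
        · exact h2 y c y' c' h5
      · rcases Finset.mem_insert.1 hx' with rfl | hx'
        · exact ⟨x', Finset.mem_insert_self _ _, by simp⟩
        · obtain ⟨y, hy, h5⟩ := h3 x' hx'
          exact ⟨y, Finset.mem_insert_of_mem hy, h5⟩

theorem exists_ZS {Λ : ℂ → Set (VF g)} {q : ℂ → Prop} (h1 : ∀ᶠ t in cd, q t)
    (h2 : ∀ w ∈ L.lattice, ∀ t, q t → q (t + w)) (G : ℂ → MF g) (hG : ∀ y, Fr (Λ y) y (G y))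
    (z : ℂ) : ∃ S : ZS L g, S.G = G ∧ z ∈ S.Z ∧ ∀ t, S.Off t → q t := by
  obtain ⟨F, hF⟩ := exists_fin h1 h2
  obtain ⟨Z, h3, h4, h5⟩ := exists_sep L F z
  refine ⟨⟨Z, G, fun y => (meromorphicOrderAt (fun t => (G y t).det) y).untop₀, h4,
    fun y _ => (hG y).1, fun y _ => (WithTop.coe_untop₀_of_ne_top fun e => ?_).symm⟩, rfl, h3,
    fun t ht => by_contra fun hq => ?_⟩
  · obtain ⟨t, h6, h7⟩ := ((meromorphicOrderAt_eq_top_iff.1 e).and (hG y).2.1).exists
    exact h7 h6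
  · obtain ⟨x, hx, h6⟩ := hF t hq
    obtain ⟨y, hy, h7⟩ := h5 x hx
    exact ht y hy (by simpa using L.lattice.add_mem h6 h7)

end DichP

open DichP in
theorem sDich (h1 : SFrame) (h2 : SFlat1) (h3 : SCount) : SDich := by
  classical
  intro L g Λ h hΛ hper hG hlow
  have hq : ∀ᶠ t in cd, Gm h t ∧ ∀ a, AnV a t → a ∈ Λ t := hG.and hΛ.std
  have hs : ∀ w ∈ L.lattice, ∀ t, (Gm h t ∧ ∀ a, AnV a t → a ∈ Λ t) →
      Gm h (t + w) ∧ ∀ a, AnV a (t + w) → a ∈ Λ (t + w) :=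
    fun w hw t H => ⟨gm_shift (hper w hw) H.1, std_shift hΛ hw H.2⟩
  choose G₀ hG₀ using fun y => h1 g (Λ y) y (hΛ.lat y)
  by_cases hc : ∃ S : ZS L g, (∀ y, Fr (Λ y) y (S.G y)) ∧
      (∀ t, S.Off t → Gm h t ∧ ∀ a, AnV a t → a ∈ Λ t) ∧ ∑ z ∈ S.Z, S.m z < 0
  · obtain ⟨S, a1, a2, a3⟩ := hc
    refine Or.inl ((off_cd S).mono fun z₁ hz => ?_)
    obtain ⟨n, κ, b1, b2, b3⟩ := h3 L g S z₁ a3 hz
    refine ⟨n, κ, b1, fun y => ?_⟩
    by_cases hy : S.Off y
    · exact (a2 y hy).2 κ (b2 y hy)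
    · simp only [ZS.Off, not_forall, not_not] at hy
      obtain ⟨z, hz, hw⟩ := hy
      have := mem_shift hΛ hw (((a1 z).2.2 _).2 (b3 z hz _ hw))
      rwa [add_sub_cancel] at this
  · have key : ∀ (G : ℂ → MF g), (∀ y, Fr (Λ y) y (G y)) → ∀ z,
        (∀ᶠ t in cd, ∀ Γ, Bar h t Γ → BarEq h t Γ) ∧ UpB h (G z) z := fun G hG' z => by
      obtain ⟨S, rfl, a2, a3⟩ := exists_ZS hq hs G hG' z
      obtain ⟨b1, b2⟩ := h2 L g S h hper (fun t ht => (a3 t ht).1)
        (fun y _ => hlow y _ (hG' y)) (not_lt.1 fun a4 => hc ⟨S, hG', a3, a4⟩)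
      exact ⟨(off_cd S).mono b1, b2 z a2⟩
    refine Or.inr ⟨(key G₀ hG₀ 0).1, fun z G hz => ?_⟩
    have := (key (Function.update G₀ z G) (fun y => by
      rcases eq_or_ne y z with rfl | hy
      · rwa [Function.update_self]
      · rw [Function.update_of_ne hy]
        exact hG₀ y) z).2
    rwa [Function.update_self] at this

end Pool.Agent.P.MP_7ede32_ag.Hod
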