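import Pool.Agent.P.MP_7ede32_ag.Hod.BrT

/-!
Toolbox: rational functions on a fibre.
-/

open Set Filter Topology MeasureTheory ComplexConjugate Polynomial Matrix

noncomputable section

namespace Pool.Agent.P.MP_7ede32_ag.Hod

open Full (Mer)
open Ell (E2)

namespace FTP

theorem evalEval_comp (H N : ℂ[X][X]) (x y : ℂ) :
    (H.comp N).evalEval x y = H.evalEval x (N.evalEval x y) := by
  induction H using Polynomial.induction_on' with
  | add p q hp hq => rw [add_comp, evalEval_add, evalEval_add, hp, hq]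
  | monomial n a =>
    simp only [← C_mul_X_pow_eq_monomial, mul_comp, C_comp, pow_comp, X_comp, evalEval_mul,
      evalEval_pow, evalEval_C, evalEval_X]

theorem bezout {P N : ℂ[X][X]} (hP : P.Monic) (hi : Irreducible P) (h : ¬ P ∣ N) :
    ∃ (a b : ℂ[X][X]) (D : ℂ[X]), D ≠ 0 ∧ a * N + b * P = C D := by
  have := AdjoinRoot.isDomain_of_prime hi.prime
  have := hP.finite_adjoinRoot
  have hx : AdjoinRoot.mk P N ≠ 0 := fun e => h (AdjoinRoot.mk_eq_zero.1 e)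
  have hint : IsIntegral ℂ[X] (AdjoinRoot.mk P N) := Algebra.IsIntegral.isIntegral _
  obtain ⟨D, hD, y, hy⟩ := hint.isAlgebraic.exists_nonzero_dvd (mem_nonZeroDivisors_of_ne_zero hx)
  obtain ⟨a, rfl⟩ := AdjoinRoot.mk_surjective y
  have e : AdjoinRoot.mk P (C D) = AdjoinRoot.mk P (N * a) := by rw [map_mul, ← hy]; rfl
  obtain ⟨b, hb⟩ := AdjoinRoot.mk_eq_mk.1 e
  exact ⟨a, b, D, hD, by linear_combination -hb⟩

theorem integral {P : ℂ[X][X]} (hP : P.Monic) (N : ℂ[X][X]) :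
    ∃ M : ℂ[X][X], M.Monic ∧ P ∣ M.comp N := by
  have := hP.finite_adjoinRoot
  obtain ⟨M, hM, e⟩ : IsIntegral ℂ[X] (AdjoinRoot.mk P N) := Algebra.IsIntegral.isIntegral _
  refine ⟨M, hM, AdjoinRoot.mk_eq_zero.1 ?_⟩
  rw [← AdjoinRoot.aeval_eq, aeval_comp, AdjoinRoot.aeval_eq]
  exact e

variable {L : PeriodPair}

theorem ev_cst (L : PeriodPair) (N : ℂ[X][X]) :
    ev (N.map (mapRingHom (cst L))) = fun q : E3 => N.evalEval q.2.1 q.2.2 :=
  funext fun q => by rw [ev, (sp_cst N).2]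

theorem an_poly (N : ℂ[X][X]) (q : E3) :
    AnalyticAt ℂ (fun q : E3 => N.evalEval q.2.1 q.2.2) q := by
  induction N using Polynomial.induction_on' with
  | add p p' hp hq => simpa only [evalEval_add] using hp.fun_add hq
  | monomial n a =>
    simp only [← C_mul_X_pow_eq_monomial, evalEval_mul, evalEval_pow, evalEval_C, evalEval_X]
    exact ((AnalyticOnNhd.eval_polynomial a _ (mem_univ _)).comp
      (analyticAt_fst.comp analyticAt_snd)).mul ((analyticAt_snd.comp analyticAt_snd).pow n)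

theorem an_poly1 (D : ℂ[X]) (q : E3) : AnalyticAt ℂ (fun q : E3 => D.eval q.2.1) q := by
  simpa only [evalEval_C] using an_poly (C D) q

variable {𝒴 : Pl L} {t : ℂ}

theorem fb_zero (𝒴 : Pl L) (t : ℂ) :
    ∀ᶠ q in 𝒴.fb t, (sp 𝒴.P t).evalEval q.2.1 q.2.2 = 0 :=
  (𝒴.fb_on t).mono fun q h => by rw [← h.1]; exact h.2

end FTP

open FTP

namespace Pl

variable {L : PeriodPair} {𝒴 : Pl L} {t : ℂ} {F G : E3 → ℂ}

theorem ratF_fst {c : ℂ → ℂ} (h : AnalyticAt ℂ c t) : 𝒴.RatF t fun q => c q.1 := by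
  refine ⟨(𝒴.fb_on t).mono fun q hq => ?_, C (C (c t)), 1, one_ne_zero,
    (𝒴.fb_on t).mono fun q hq => ?_⟩
  · exact AnalyticAt.comp (g := c) (f := Prod.fst) (hq.1 ▸ h) analyticAt_fst
  · simp only [evalEval_C, eval_C, eval_one, div_one, hq.1]

theorem ratF_const (c : ℂ) : 𝒴.RatF t fun _ => c := ratF_fst analyticAt_const

theorem ratF_ξ : 𝒴.RatF t fun q => q.2.1 := by
  refine ⟨Eventually.of_forall fun q => analyticAt_fst.comp analyticAt_snd, C X, 1, one_ne_zero,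
    Eventually.of_forall fun q => ?_⟩
  simp only [evalEval_C, eval_X, eval_one, div_one]

theorem ratF_poly (N : ℂ[X][X]) : 𝒴.RatF t fun q => N.evalEval q.2.1 q.2.2 := by
  exact ⟨Eventually.of_forall (an_poly N), N, 1, one_ne_zero,
    Eventually.of_forall fun q => by simp only [eval_one, div_one]⟩

theorem ratF_ev {N : (KK L)[X][X]} (hN : Rg2 N t) : 𝒴.RatF t (ev N) :=
  ⟨(𝒴.fb_on t).mono fun q hq => analyticAt_ev (hq.1 ▸ hN), sp N t, 1, one_ne_zero,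
    (𝒴.fb_on t).mono fun q hq => by rw [eval_one, div_one, ev, hq.1]⟩

theorem ratF_ph (h : 𝒴.Rt t) {N : (KK L)[X][X]} (hN : Rg2 N t) : 𝒴.RatF t (𝒴.ph N) := by
  refine ⟨?_, sp N t * sp 𝒴.B t, sp1 𝒴.R t ^ 𝒴.k, pow_ne_zero _ (monic_sp1 𝒴.monR).1.ne_zero, ?_⟩
  · filter_upwards [fb_ok h, 𝒴.fb_on t] with q h1 h2
    exact anO_ph hN q h1 h2.1
  · filter_upwards [fb_ok h, 𝒴.fb_on t] with q h1 h2
    rw [ph, div_eq_mul_inv, h1.inv_py, ev, ev, ev1, h2.1, (h.2.2.2.1.pow _).2, evalEval_mul,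
      mul_div_assoc]

theorem RatF.congr (h : 𝒴.RatF t F) (hG : ∀ᶠ q in 𝒴.fb t, AnalyticAt ℂ G q)
    (e : ∀ᶠ q in 𝒴.fb t, F q = G q) : 𝒴.RatF t G := by
  obtain ⟨-, N, D, hD, e'⟩ := h
  exact ⟨hG, N, D, hD, by filter_upwards [e, e'] with q h1 h2 using h1.symm.trans h2⟩

theorem RatF.add (h : 𝒴.RatF t F) (h' : 𝒴.RatF t G) : 𝒴.RatF t fun q => F q + G q := by
  obtain ⟨a, N, D, hD, e⟩ := h
  obtain ⟨a', N', D', hD', e'⟩ := h'
  refine ⟨by filter_upwards [a, a'] with q h1 h2 using h1.add h2, N * C D' + C D * N', D * D',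
    mul_ne_zero hD hD', ?_⟩
  filter_upwards [e, e', fb_ne hD, fb_ne hD'] with q h1 h2 h3 h4
  rw [h1, h2, div_add_div _ _ h3 h4]
  simp only [evalEval_add, evalEval_mul, evalEval_C, eval_mul]

theorem RatF.sub (h : 𝒴.RatF t F) (h' : 𝒴.RatF t G) : 𝒴.RatF t fun q => F q - G q := by
  obtain ⟨a, N, D, hD, e⟩ := h
  obtain ⟨a', N', D', hD', e'⟩ := h'
  refine ⟨by filter_upwards [a, a'] with q h1 h2 using h1.sub h2, N * C D' - C D * N', D * D',
    mul_ne_zero hD hD', ?_⟩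
  filter_upwards [e, e', fb_ne hD, fb_ne hD'] with q h1 h2 h3 h4
  rw [h1, h2, div_sub_div _ _ h3 h4]
  simp only [evalEval_sub, evalEval_mul, evalEval_C, eval_mul]

theorem RatF.mul (h : 𝒴.RatF t F) (h' : 𝒴.RatF t G) : 𝒴.RatF t fun q => F q * G q := by
  obtain ⟨a, N, D, hD, e⟩ := h
  obtain ⟨a', N', D', hD', e'⟩ := h'
  refine ⟨by filter_upwards [a, a'] with q h1 h2 using h1.mul h2, N * N', D * D',
    mul_ne_zero hD hD', ?_⟩
  filter_upwards [e, e'] with q h1 h2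
  rw [h1, h2, div_mul_div_comm, evalEval_mul, eval_mul]

theorem RatF.div_poly (h : 𝒴.RatF t F) {D : ℂ[X]} (hD : D ≠ 0) :
    𝒴.RatF t fun q => F q / D.eval q.2.1 := by
  obtain ⟨a, N, D', hD', e⟩ := h
  refine ⟨by filter_upwards [a, fb_ne hD] with q h1 h2 using h1.div (an_poly1 D q) h2, N, D' * D,
    mul_ne_zero hD' hD, ?_⟩
  filter_upwards [e] with q h1
  rw [h1, div_div, eval_mul]

theorem RatF.pow (h : 𝒴.RatF t F) (n : ℕ) : 𝒴.RatF t fun q => F q ^ n := by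
  induction n with
  | zero => simpa only [pow_zero] using ratF_const 1
  | succ n ih => simpa only [pow_succ] using ih.mul h

theorem ratF_sum {ι : Type*} {u : Finset ι} {f : ι → E3 → ℂ} (h : ∀ i ∈ u, 𝒴.RatF t (f i)) :
    𝒴.RatF t fun q => ∑ i ∈ u, f i q := by
  classical
  induction u using Finset.induction_on with
  | empty => simpa only [Finset.sum_empty] using ratF_const 0
  | insert i u hi ih =>
    simp only [Finset.sum_insert hi]
    exact (h i (Finset.mem_insert_self _ _)).add (ih fun j hj => h j (Finset.mem_insert_of_mem hj))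

theorem ratF_cb {g : ℕ} {a : VF g} {φ : Fin g → E3 → ℂ} (ha : AnV a t)
    (h : ∀ i, 𝒴.RatF t (φ i)) : 𝒴.RatF t (cb a φ) := by
  exact ratF_sum (f := fun i q => a q.1 i * φ i q) fun i _ =>
    (ratF_fst (c := fun t => a t i) (ha i)).mul (h i)

theorem RatF.evalEval (h : 𝒴.RatF t F) (h' : 𝒴.RatF t G) (H : ℂ[X][X]) :
    𝒴.RatF t fun q => H.evalEval (F q) (G q) := by
  have h1 : ∀ p : ℂ[X], 𝒴.RatF t fun q => p.eval (F q) := fun p => by
    induction p using Polynomial.induction_on' with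
    | add p p' hp hq => simpa only [eval_add] using hp.add hq
    | monomial n a => simpa only [eval_monomial] using (ratF_const a).mul (h.pow n)
  induction H using Polynomial.induction_on' with
  | add p p' hp hq => simpa only [evalEval_add] using hp.add hq
  | monomial n a =>
    simp only [← C_mul_X_pow_eq_monomial, evalEval_mul, evalEval_pow, evalEval_C, evalEval_X]
    exact (h1 a).mul (h'.pow n)

theorem ratF_dX_ev (hr : 𝒴.Rt t) {N : (KK L)[X][X]} (hN : Rg2 N t) :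
    𝒴.RatF t (𝒴.dX (ev N)) := by
  obtain ⟨N', hN'⟩ := exists_ev_ξ N
  obtain ⟨P', hP'⟩ := exists_ev_ξ 𝒴.P
  refine ((ratF_ev (hN' (t, 0, 0) hN).1).sub ((ratF_ph hr (hP' (t, 0, 0) hr.1).1).mul
    (ratF_ev hN.derivative.1))).congr ?_ ?_
  · filter_upwards [fb_ok hr, 𝒴.fb_on t] with q h1 h2
    exact h1.an_dX (analyticAt_ev (h2.1 ▸ hN))
  · filter_upwards [fb_ok hr, 𝒴.fb_on t] with q h1 h2
    have hq : Rg2 N q.1 := h2.1 ▸ hN
    have e : 𝒴.vX q = (0, 1, 0) + (-(𝒴.ph P' q)) • ((0, 0, 1) : E3) := by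
      rw [vX, (hP' q h1.1.1).2, ph]
      simp [neg_div]
    rw [Pl.dX, e, map_add, map_smul, (hN' q hq).2, fderiv_ev_η hq, smul_eq_mul]
    ring

theorem ratF_dX_poly (hr : 𝒴.Rt t) (N : ℂ[X][X]) :
    𝒴.RatF t (𝒴.dX fun q => N.evalEval q.2.1 q.2.2) := by
  rw [← ev_cst L]
  exact ratF_dX_ev hr (sp_cst N).1

theorem RatF.dX (h : 𝒴.RatF t F) (hr : 𝒴.Rt t) : 𝒴.RatF t (𝒴.dX F) := by
  obtain ⟨a, N, D, hD, e⟩ := h
  have h1 : 𝒴.RatF t (𝒴.dX fun q => D.eval q.2.1) := by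
    simpa only [evalEval_C] using ratF_dX_poly hr (C D)
  have h2 : 𝒴.RatF t fun q => D.eval q.2.1 := by
    simpa only [evalEval_C] using ratF_poly (𝒴 := 𝒴) (t := t) (C D)
  refine ((((ratF_dX_poly hr N).mul h2).sub ((ratF_poly N).mul h1)).div_poly
    (pow_ne_zero 2 hD)).congr ?_ ?_
  · filter_upwards [fb_ok hr, a] with q h1 h2 using h1.an_dX h2
  · filter_upwards [fb_ok hr, a, fb_nhds e, fb_ne hD, 𝒴.fb_on t] with q h1 h2 h3 h4 h5
    rw [h1.dX_congr h2.differentiableAt ((an_poly N q).div (an_poly1 D q) h4).differentiableAt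
      (by rw [h5.1]; exact h3), eval_pow]
    exact (dX_div (an_poly N q).differentiableAt (an_poly1 D q).differentiableAt h4).symm

/-- identity theorem on an irreducible fibre -/
theorem RatF.zero_or (h : 𝒴.RatF t F) (hi : 𝒴.Irr t) :
    (∀ᶠ q in 𝒴.fb t, F q = 0) ∨ ∀ᶠ q in 𝒴.fb t, F q ≠ 0 := by
  obtain ⟨-, N, D, hD, e⟩ := h
  by_cases hd : sp 𝒴.P t ∣ N
  · left
    obtain ⟨M, rfl⟩ := hd
    filter_upwards [e, fb_zero 𝒴 t] with q h1 h2
    rw [h1, evalEval_mul, h2, zero_mul, zero_div]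
  · right
    obtain ⟨a, b, D', hD', hb⟩ := bezout (monic_sp 𝒴.monic).1 hi.2 hd
    filter_upwards [e, fb_zero 𝒴 t, fb_ne hD, fb_ne hD'] with q h1 h2 h3 h4
    rw [h1]
    refine div_ne_zero (fun h0 => h4 ?_) h3
    rw [← evalEval_C q.2.1 q.2.2, ← hb, evalEval_add, evalEval_mul, evalEval_mul, h0, h2, mul_zero,
      mul_zero, add_zero]

theorem RatF.eq_of_frequently (h : 𝒴.RatF t F) (h' : 𝒴.RatF t G) (hi : 𝒴.Irr t)
    (e : ∃ᶠ q in 𝒴.fb t, F q = G q) : ∀ᶠ q in 𝒴.fb t, F q = G q := by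
  rcases (h.sub h').zero_or hi with h0 | h0
  · exact h0.mono fun q hq => sub_eq_zero.1 hq
  · obtain ⟨q, h1, h2⟩ := (e.and_eventually h0).exists
    exact absurd (sub_eq_zero.2 h1) h2

theorem RatF.div (h : 𝒴.RatF t F) (h' : 𝒴.RatF t G) (hi : 𝒴.Irr t)
    (h0 : ∀ᶠ q in 𝒴.fb t, G q ≠ 0) : 𝒴.RatF t fun q => F q / G q := by
  obtain ⟨a', N, D, hD, e⟩ := h'
  have hd : ¬ sp 𝒴.P t ∣ N := by
    rintro ⟨M, rfl⟩
    obtain ⟨q, h1, h2, h3⟩ := (e.and ((fb_zero 𝒴 t).and h0)).exists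
    exact h3 (by rw [h1, evalEval_mul, h2, zero_mul, zero_div])
  obtain ⟨a, b, D', hD', hb⟩ := bezout (monic_sp 𝒴.monic).1 hi.2 hd
  refine ((h.mul (ratF_poly (a * C D))).div_poly hD').congr ?_ ?_
  · filter_upwards [h.1, a', h0] with q h1 h2 h3 using h1.div h2 h3
  · filter_upwards [e, fb_zero 𝒴 t, fb_ne hD, fb_ne hD', h0] with q h1 h2 h3 h4 h5
    have h6 : D'.eval q.2.1 = a.evalEval q.2.1 q.2.2 * N.evalEval q.2.1 q.2.2 := by
      rw [← evalEval_C q.2.1 q.2.2, ← hb, evalEval_add, evalEval_mul, evalEval_mul, h2, mul_zero,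
        add_zero]
    rw [h6] at h4
    have h7 := left_ne_zero_of_mul h4
    have h8 := right_ne_zero_of_mul h4
    rw [h1, h6, evalEval_mul, evalEval_C]
    field_simp

theorem RatF.const_of_dX (h : 𝒴.RatF t F) (hi : 𝒴.Irr t) (h0 : ∃ᶠ q in 𝒴.fb t, 𝒴.dX F q = 0) :
    ∃ c, ∀ᶠ q in 𝒴.fb t, F q = c := by
  have h1 : ∀ᶠ q in 𝒴.fb t, 𝒴.dX F q = 0 := (h.dX hi.1).eq_of_frequently (ratF_const 0) hi h0
  obtain ⟨q, hq, ht, hn⟩ := ((fb_ok hi.1).and ((𝒴.fb_on t).and (fb_nhds (h.1.and h1)))).exists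
  obtain rfl := ht.1
  obtain ⟨-, -, hnr⟩ := hq.nr
  obtain ⟨hp, hpq, -⟩ := hq.prj
  have hι : AnalyticAt ℂ (fun ξ : ℂ => ((q.1, ξ, q.2.2) : E3)) q.2.1 :=
    analyticAt_const.prod (analyticAt_id.prod analyticAt_const)
  set γ : ℂ → E3 := fun ξ => 𝒴.prj (q.1, ξ, q.2.2) with hγ
  have aγ : AnalyticAt ℂ γ q.2.1 :=
    AnalyticAt.comp (g := 𝒴.prj) (f := fun ξ : ℂ => ((q.1, ξ, q.2.2) : E3)) hp hι
  have tγ : Tendsto γ (𝓝 q.2.1) (𝓝 q) := by
    have := aγ.continuousAt.tendsto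
    rwa [show γ q.2.1 = q from hpq] at this
  have ok : ∀ᶠ ξ in 𝓝 q.2.1, 𝒴.Ok (γ ξ) :=
    (hι.continuousAt.tendsto.eventually hnr).mono fun ξ hξ => hξ.1
  have key : ∀ᶠ ξ in 𝓝 q.2.1, DifferentiableAt ℂ (fun ξ => F (γ ξ)) ξ ∧
      fderiv ℂ (fun ξ => F (γ ξ)) ξ = 0 := by
    filter_upwards [ok, ok.eventually_nhds, aγ.eventually_analyticAt, tγ.eventually hn]
      with ξ k1 k2 k3 k4
    obtain ⟨k5, k6⟩ := k4 rfl k1.2.1
    refine ⟨k5.differentiableAt.comp ξ k3.differentiableAt, ?_⟩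
    ext1
    rw [Ok.chain k1 k3.differentiableAt (k2.mono fun _ k => k.2.1) k5.differentiableAt, k6]
    have : (fun b => (γ b).1) = fun _ => q.1 := rfl
    simp [this]
  obtain ⟨ε, hε, hb⟩ := Metric.eventually_nhds_iff_ball.1 key
  refine ⟨F (γ q.2.1), h.eq_of_frequently (ratF_const _) hi (hq.frequently_fb ?_)⟩
  have hs : ∀ᶠ q' in 𝓝 q, q'.2.1 ∈ Metric.ball q.2.1 ε :=
    (continuous_fst.comp continuous_snd).continuousAt.eventually (Metric.ball_mem_nhds _ hε)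
  filter_upwards [hnr, hs] with q' k1 k2 k3 k4
  have e : γ q'.2.1 = q' := by
    rw [← k1.2.1 k4, hγ]
    simp only [prj, k1.2.2, k3]
  rw [← e]
  exact Metric.isOpen_ball.is_const_of_fderiv_eq_zero (convex_ball _ _).isPreconnected
    (fun ξ hξ => (hb ξ hξ).1.differentiableWithinAt) (fun ξ hξ => (hb ξ hξ).2) k2
    (Metric.mem_ball_self hε)

/-- a rational function on the fibre is algebraic over the field generated by `ξ` -/
theorem RatF.alg (h : 𝒴.RatF t F) :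
    ∃ H : ℂ[X][X], H ≠ 0 ∧ ∀ᶠ q in 𝒴.fb t, H.evalEval q.2.1 (F q) = 0 := by
  obtain ⟨-, N, D, hD, e⟩ := h
  obtain ⟨M, hM, K, hK⟩ := integral (monic_sp (t := t) 𝒴.monic).1 N
  refine ⟨M.comp (C D * X), fun h0 => ?_, ?_⟩
  · rcases comp_eq_zero_iff.1 h0 with h1 | h1
    · exact hM.ne_zero h1
    · exact hD (by simpa using congrArg (fun p => p.coeff 1) h1.2)
  · filter_upwards [e, fb_zero 𝒴 t, fb_ne hD] with q h1 h2 h3
    rw [evalEval_comp, evalEval_mul, evalEval_C, evalEval_X, h1, mul_div_cancel₀ _ h3,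
      ← evalEval_comp, hK, evalEval_mul, h2, zero_mul]

theorem Ind.ne {g : ℕ} {φ : Fin g → E3 → ℂ} (h : 𝒴.Ind t φ) (hφ : ∀ i, 𝒴.RatF t (φ i))
    (hi : 𝒴.Irr t) {c : Fin g → ℂ} (hc : c ≠ 0) : ∀ᶠ q in 𝒴.fb t, ∑ i, c i * φ i q ≠ 0 := by
  exact ((ratF_sum (f := fun i q => c i * φ i q) fun i _ =>
    (ratF_const (c i)).mul (hφ i)).zero_or hi).resolve_left fun h0 => hc (h c h0)

/-- the ratio of two independent combinations is not constant -/
theorem Ind.dX_ne {g : ℕ} {φ : Fin g → E3 → ℂ} (h : 𝒴.Ind t φ) (hφ : ∀ i, 𝒴.RatF t (φ i))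
    (hi : 𝒴.Irr t) {a b : VF g} (ha : AnV a t) (hb : AnV b t)
    (hab : ∀ c d : ℂ, c • a t + d • b t = 0 → c = 0 ∧ d = 0) :
    ∀ᶠ q in 𝒴.fb t, cb b φ q ≠ 0 ∧ 𝒴.dX (fun q => cb a φ q / cb b φ q) q ≠ 0 := by
  have hb0 : ∀ᶠ q in 𝒴.fb t, cb b φ q ≠ 0 := by
    have : b t ≠ 0 := fun h0 => one_ne_zero (hab 0 1 (by simp [h0])).2
    filter_upwards [h.ne hφ hi this, 𝒴.fb_on t] with q h1 h2
    rwa [cb, h2.1]
  have hr := (ratF_cb ha hφ).div (ratF_cb hb hφ) hi hb0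
  refine hb0.and (((hr.dX hi.1).zero_or hi).resolve_left fun h0 => ?_)
  obtain ⟨c, hc⟩ := hr.const_of_dX hi h0.frequently
  refine one_ne_zero (hab 1 (-c) (h _ ?_)).1
  filter_upwards [hc, hb0, 𝒴.fb_on t] with q h1 h2 h3
  rw [div_eq_iff h2, cb, cb, h3.1, Finset.mul_sum, ← sub_eq_zero, ← Finset.sum_sub_distrib] at h1
  rw [← h1]
  refine Finset.sum_congr rfl fun i _ => ?_
  simp only [Pi.add_apply, Pi.smul_apply, smul_eq_mul]
  ring

end Pl

end Pool.Agent.P.MP_7ede32_ag.Hod
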