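import Pool.Agent.P.MP_7ede32_ag.Hod.RU
import Pool.Agent.P.MP_7ede32_ag.Hod.StR
import Pool.Agent.P.MP_5d7cf0_gt.T.St

/-!
The Hodge decomposition, from Serre duality in finite dimension.
-/

open Set Filter Topology MeasureTheory ComplexConjugate Module

namespace Pool.Agent.P.MP_7ede32_ag.Hod

open MP_5d7cf0_gt.T (RS zc loc An D Sm Db Hf Om LEx Ex Polar LExS ExS)

namespace HodgeP

/-- the linear algebra -/
theorem lin {V O : Type} [AddCommGroup V] [Module ℂ V] [AddCommGroup O] [Module ℂ O]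
    [FiniteDimensional ℂ O] (L X : Submodule ℂ V) (B : O →ₗ[ℂ] L →ₗ[ℂ] ℂ)
    (c : O →ₛₗ[starRingEnd ℂ] L) (Ψ : X.dualAnnihilator →ₗ[ℂ] O) (hXL : X ≤ L)
    (hX : ∀ w (β : L), (β : V) ∈ X → B w β = 0) (hc : ∀ w, B w (c w) = 0 → w = 0)
    (hΨ : ∀ l, Ψ l = 0 → ∀ β ∈ L, l.1 β = 0) (β : L) : ∃ w, ((β - c w : L) : V) ∈ X := by
  classical
  let J : O →ₗ[ℂ] X.dualAnnihilator := LinearMap.codRestrict _ (Subspace.dualLift L ∘ₗ B)
    fun w => (Submodule.mem_dualAnnihilator _).2 fun v hv => by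
      rw [LinearMap.comp_apply, Subspace.dualLift_of_mem (hXL hv)]
      exact hX w _ hv
  have hJ : ∀ w (γ : L), (J w).1 γ = B w γ := fun w γ => Subspace.dualLift_of_subtype γ
  have inj : Function.Injective (Ψ ∘ₗ J) := by
    rw [injective_iff_map_eq_zero]
    intro w hw
    exact hc w ((hJ w (c w)).symm.trans (hΨ _ hw _ (c w).2))
  have sur : Function.Surjective (Ψ ∘ₗ J) := LinearMap.injective_iff_surjective.1 inj
  have key : ∀ l : X.dualAnnihilator, ∃ w, ∀ γ : L, l.1 γ = B w γ := fun l => by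
    obtain ⟨w, hw⟩ := sur (Ψ l)
    refine ⟨w, fun γ => ?_⟩
    have h := hΨ (l - J w) (by rw [map_sub, ← hw]; simp) γ γ.2
    rw [← hJ]
    exact sub_eq_zero.1 h
  let e := Module.finBasis ℂ O
  let c' : (Fin (finrank ℂ O) → ℂ) →ₗ[ℂ] L := Fintype.linearCombination ℂ fun i => c (e i)
  have hc' : ∀ a, c' a = c (∑ i, conj (a i) • e i) := fun a => by
    simp [c', Fintype.linearCombination_apply, map_sum, LinearMap.map_smulₛₗ]
  have inj2 : Function.Injective (B.flip ∘ₗ c') := by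
    rw [injective_iff_map_eq_zero]
    intro a ha
    have h1 : (∑ i, conj (a i) • e i) = 0 := hc _ (by
      rw [← hc']
      exact LinearMap.congr_fun ha _)
    have h2 := Fintype.linearIndependent_iff.1 e.linearIndependent _ h1
    funext i
    simpa using h2 i
  have sur2 : Function.Surjective (B.flip ∘ₗ c') :=
    (LinearMap.injective_iff_surjective_of_finrank_eq_finrank (by simp)).1 inj2
  obtain ⟨a, ha⟩ := sur2 (B.flip β)
  refine ⟨∑ i, conj (a i) • e i, ?_⟩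
  refine (Subspace.forall_mem_dualAnnihilator_apply_eq_zero_iff X _).1 fun l hl => ?_
  obtain ⟨w, hw⟩ := key ⟨l, hl⟩
  refine (hw _).trans ?_
  rw [map_sub, ← hc', sub_eq_zero]
  exact (LinearMap.congr_fun ha w).symm

variable {Y : Type} [TopologicalSpace Y] [ChartedSpace ℂ Y] [RS Y]

/-- a form of type `(0,1)` -/
def af (β : Y → ℂ) (p : Y) : ℂ × ℂ := (0, β p)

theorem int1 (h3 : SPr) (C : XC Y) {w β : Y → ℂ} (hw : w ∈ Om Y) (hβ : LEx β) :
    Integrable (C.tr (C.wd (hf w) (af β))) :=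
  h3 Y C _ _ fun p => Or.inl ⟨(cl_hf hw p).cn, cn_lEx hβ⟩

theorem int2 (h3 : SPr) (C : XC Y) {w β : Y → ℂ} (hw : w ∈ Om Y) (hβ : LEx β) :
    Integrable (C.tr (C.wd (af β) (hf w))) :=
  h3 Y C _ _ fun p => Or.inl ⟨cn_lEx hβ, (cl_hf hw p).cn⟩

/-- the pairing -/
noncomputable def pair (h3 : SPr) (C : XC Y) : Om Y →ₗ[ℂ] LExS Y →ₗ[ℂ] ℂ :=
  LinearMap.mk₂ ℂ (fun w β => C.pr (hf w.1) (af β.1))
    (fun w w' β => by
      rw [Submodule.coe_add, hf_add]
      exact (C.pr_add (int1 h3 C w.2 β.2) (int1 h3 C w'.2 β.2)).2)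
    (fun a w β => by rw [Submodule.coe_smul, hf_smul, C.pr_smul, smul_eq_mul])
    (fun w β β' => by
      have e : af ((β + β' : LExS Y) : Y → ℂ) = af β.1 + af β'.1 := by
        funext p; simp [af]
      rw [e, C.pr_anti, (C.pr_add (int2 h3 C w.2 β.2) (int2 h3 C w.2 β'.2)).2,
        C.pr_anti (θ := hf w.1) (σ := af β.1), C.pr_anti (θ := hf w.1) (σ := af β'.1)]
      ring)
    (fun a w β => by
      have e : af ((a • β : LExS Y) : Y → ℂ) = a • af β.1 := by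
        funext p; simp [af]
      rw [e, C.pr_anti, C.pr_smul, C.pr_anti (θ := hf w.1) (σ := af β.1), smul_eq_mul]
      ring)

/-- conjugation -/
noncomputable def cc : Om Y →ₛₗ[starRingEnd ℂ] LExS Y where
  toFun w := ⟨fun p => conj (w.1 p), (cl_hf w.2).cj.lEx⟩
  map_add' w w' := by ext p; simp
  map_smul' a w := by ext p; simp

end HodgeP

open HodgeP

theorem sHodge (h1 : MP_5d7cf0_gt.T.S_Dol) (h2 : MP_5d7cf0_gt.T.S_Pol) (h3 : SPr) (h4 : SSt)
    (h5 : SPos) : SHodge := by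
  intro Y _ _ _ C hfin θ hθ
  choose κ hκ using fun p => (h2 Y p).1
  have hA : ∀ l : (ExS Y).dualAnnihilator, ∀ β, Ex β → l.1 β = 0 := fun l β hβ =>
    (Submodule.mem_dualAnnihilator _).1 l.2 β hβ
  let Ψ : (ExS Y).dualAnnihilator →ₗ[ℂ] Om Y :=
    { toFun := fun l => ⟨fun p => l.1 (κ p), (h1 Y _ κ (hA l) hκ).1⟩
      map_add' := fun l l' => rfl
      map_smul' := fun a l => rfl }
  obtain ⟨w₁, u, hu⟩ := lin (LExS Y) (ExS Y) (pair h3 C) cc Ψ (fun β hβ => Ex.lEx hβ)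
    (fun w β hβ => by
      obtain ⟨u, hu⟩ := hβ
      refine Eq.trans ?_ (h4 Y C (hf w.1) u (cl_hf w.2) fun p => (hu p).1)
      refine C.pr_congr' fun p _ => ?_
      simp [XC.wd, hf, af, dd, (hu p).2])
    (fun w hw => by
      refine Subtype.ext ((h5 Y C w.1 w.2).2 (Eq.trans ?_ hw))
      refine C.pr_congr' fun p _ => ?_
      simp [XC.wd, hf, af, cj, cc])
    (fun l hl β hβ => (h1 Y _ κ (hA l) hκ).2 (fun p => congrFun (congrArg Subtype.val hl) p) β hβ)
    ⟨_, hθ.lEx⟩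
  have hcl : Cl (θ - cj (hf w₁.1) - dd u) :=
    (hθ.sub (cl_hf w₁.2).cj).sub (cl_dd fun p => (hu p).1)
  have h0 : ∀ y, ((θ - cj (hf w₁.1) - dd u) y).2 = 0 := fun y => by
    have := (hu y).2
    simp only [cc, LinearMap.coe_mk, AddHom.coe_mk, Submodule.coe_sub, Pi.sub_apply] at this
    simp [cj, hf, dd, this]
  refine ⟨fun y => ((θ - cj (hf w₁.1) - dd u) y).1,
    fun p => (hcl p).hf (Eventually.of_forall h0), w₁.1, w₁.2, u, fun p => (hu p).1, ?_⟩
  have e : hf (fun y => ((θ - cj (hf w₁.1) - dd u) y).1) = θ - cj (hf w₁.1) - dd u := by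
    funext y
    exact Prod.ext rfl (h0 y).symm
  rw [e]
  abel

end Pool.Agent.P.MP_7ede32_ag.Hod
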