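import Pool.Agent.P.MP_7ede32_ag.Hod.StX
import Pool.Agent.P.MP_7ede32_ag.Hod.MdT
import Pool.Agent.P.MP_7ede32_ag.Hod.StF
import Pool.Agent.P.MP_7ede32_ag.Hod.StB

/-!
A ratio of two rows of a flat frame that is not constant on a component of the fibre.
-/

open Set Filter Topology Polynomial Matrix

noncomputable section

namespace Pool.Agent.P.MP_7ede32_ag.Hod

open Geo (Sf0 wedge D)
open Ell (E2 jac)

namespace Leaf1P

/-- the inequality of the leaf lemma -/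
def Pq (f g : E2 → ℂ) (c : ℂ) (δ : ℝ → ℝ) (n : ℕ) (y : E2) : Prop :=
  g y ≠ 0 → ∀ ε > 0, ‖f y / g y - c‖ < δ ε →
    ‖f y - c * g y‖ ≤ ε * ‖y.1‖ ^ n * ‖dw (fun y => f y / g y) y‖

theorem close {f g : E2 → ℂ} {c : ℂ} {δ : ℝ → ℝ} {n : ℕ} {y : E2} (hf : AnalyticAt ℂ f y)
    (hg : AnalyticAt ℂ g y) (h : ∃ᶠ y' in 𝓝 y, Pq f g c δ n y') : Pq f g c δ n y := by
  intro h0 ε hε h1
  have hr : AnalyticAt ℂ (fun y => f y / g y) y := hf.div hg h0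
  have c1 : ContinuousAt (fun y => ‖f y / g y - c‖) y :=
    (hr.continuousAt.sub continuousAt_const).norm
  have c2 : ContinuousAt (fun y => ‖f y - c * g y‖) y :=
    (hf.continuousAt.sub (continuousAt_const.mul hg.continuousAt)).norm
  have c3 : ContinuousAt (fun y : E2 => ε * ‖y.1‖ ^ n * ‖dw (fun y => f y / g y) y‖) y := by
    refine (continuousAt_const.mul (continuousAt_fst.norm.pow n)).mul ?_
    exact (hr.fderiv.continuousAt.clm_apply continuousAt_const).norm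
  refine le_of_tendsto_of_tendsto_of_frequently c2 c3 ?_
  refine (h.and_eventually ((hg.continuousAt.eventually_ne h0).and
    (c1.eventually (gt_mem_nhds h1)))).mono fun y' h' => h'.1 h'.2.1 ε hε h'.2.2

variable {𝒳 : Sx} {T : Cx 𝒳} {Θ : MF T.g} {z : ℂ} {e : Ch 𝒳.X} {p : 𝒳.X} {μ : ℕ}

theorem cf_single (k : Fin T.g) : T.Q.𝒴.cf T.N Θ (Pi.single k 1) = T.row Θ k := by
  unfold Pl.cf Cx.row Cx.φ
  congr 1
  funext t
  rw [single_one_vecMul]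
  rfl

theorem cf_sub (i j : Fin T.g) (c : ℂ) (q : E3) :
    T.Q.𝒴.cf T.N Θ (Pi.single i 1 - c • Pi.single j 1) q = T.row Θ i q - c * T.row Θ j q := by
  unfold Pl.cf Cx.row Cx.φ cb
  simp only [sub_vecMul, smul_vecMul, single_one_vecMul, Finset.mul_sum, ← Finset.sum_sub_distrib]
  refine Finset.sum_congr rfl fun k _ => ?_
  simp only [Pi.sub_apply, Pi.smul_apply, smul_eq_mul, Matrix.row]
  ring

theorem an_row {q : E3} (hq : T.Q.𝒴.Ok q) (h : AnM Θ q.1) (hN : ∀ i, Rg2 (T.N i) q.1)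
    (k : Fin T.g) : AnalyticAt ℂ (T.row Θ k) q := by
  unfold Cx.row cb
  exact Finset.analyticAt_fun_sum _ fun i _ =>
    ((h k i).comp analyticAt_fst).mul (Pl.anO_ph (hN i) q hq rfl)

theorem ind_row {m : Matrix (Fin T.g) (Fin T.g) (KK 𝒳.L)} (h : FlF m z Θ) :
    ∀ᶠ t in 𝓝[≠] z ⊓ cc, (∀ i, T.Q.𝒴.RatF t (T.row Θ i)) ∧ T.Q.𝒴.Ind t (T.row Θ) := by
  filter_upwards [h.filter_mono inf_le_left,
    (T.bas.ind.filter_mono cc_le_cd).filter_mono inf_le_right] with t h1 h2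
  refine ⟨fun i => Pl.ratF_cb (fun j => h1.1 i j) h2.2, fun c hc => ?_⟩
  refine eq_zero_of_vecMul_eq_zero h1.2.1 (h2.1 _ ?_)
  have hq : ∀ᶠ q in T.Q.𝒴.fb t, q.1 = t :=
    Eventually.filter_mono inf_le_left (eventually_principal.2 fun q hq => hq.1)
  filter_upwards [hc, hq] with q h3 h4
  rw [← h3]
  unfold Cx.row Cx.φ cb
  simp only [vecMul, dotProduct, Finset.mul_sum, Finset.sum_mul, h4]
  rw [Finset.sum_comm]
  exact Finset.sum_congr rfl fun i _ => Finset.sum_congr rfl fun j _ => by ring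

theorem indep {g : ℕ} {i j : Fin g} (hij : i ≠ j) (c c' d : ℂ)
    (h : c' • ((Pi.single i 1 : Fin g → ℂ) - c • (Pi.single j 1 : Fin g → ℂ)) +
      d • (Pi.single j 1 : Fin g → ℂ) = 0) : c' = 0 ∧ d = 0 := by
  have h1 := congrFun h i
  have h2 := congrFun h j
  simp [hij, hij.symm] at h1 h2
  refine ⟨h1, ?_⟩
  simpa [h1] using h2

theorem bound_nb {m : Matrix (Fin T.g) (Fin T.g) (KK 𝒳.L)} (hF : FlF m z Θ) (hn : 𝒳.NF e p z μ)
    {i j : Fin T.g} {α β : 𝒳.X → ℂ} (hα : T.Q.Co e p z 1 (T.row Θ i) α)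
    (hβ : T.Q.Co e p z 1 (T.row Θ j) β) {c : ℂ} {δ : ℝ → ℝ}
    (h : ∀ᶠ q in T.Q.𝒴.gz z, T.row Θ j q ≠ 0 → ∀ ε > 0,
      ‖(T.row Θ i q - c * T.row Θ j q) / T.row Θ j q‖ < δ ε →
        ‖T.row Θ i q - c * T.row Θ j q‖ ≤
          ε * ‖T.Q.𝒴.dX (fun q => (T.row Θ i q - c * T.row Θ j q) / T.row Θ j q) q‖) :
    ∀ᶠ y in T.Q.Nb p z,
      Pq (α ∘ e.symm) (β ∘ e.symm) c (fun ε => δ (ε / μ)) (μ - 1) (e y) := by
  have hp : 𝒳.Ov p z := hn.2.2.2.1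
  have hμ : (0 : ℝ) < μ := Nat.cast_pos.2 hn.2.2.2.2.1
  have h1 : ∀ᶠ y in T.Q.Nb p z, T.row Θ i (T.Q.jm z y) * 𝒳.W e y ^ 1 = α y ∧
      T.row Θ j (T.Q.jm z y) * 𝒳.W e y ^ 1 = β y ∧ 𝒳.W e y ≠ 0 := by
    filter_upwards [hα.2, hβ.2, Pm.nb_off,
      Eventually.filter_mono Pm.nb_le (e.open_source.mem_nhds hn.2.1)] with y a1 a2 a3 a4
    exact ⟨a1, a2, Sx.W_ne a3 hn.1 a4⟩
  have h2 : ∀ᶠ q in T.Q.𝒴.gz z, ∀ k, AnalyticAt ℂ (T.row Θ k) q := by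
    filter_upwards [Pl.gz_fst hF, Eventually.filter_mono Pl.gz_le T.Q.𝒴.gen_ok,
      Eventually.filter_mono Pl.gz_le
        (Pl.gen_fst (eventually_all.2 fun i => rg2_cd (T.N i)))] with q a1 a2 a3
    exact an_row a2 a1.1 a3
  filter_upwards [Pm.nb_nhds hp h1, Pm.nb_gz hp h, Pm.nb_gz hp h2, Pm.nb_chain hn,
    Eventually.filter_mono Pm.nb_le hn.W_eq, Eventually.filter_mono Pm.nb_le hβ.1.eventually,
    Eventually.filter_mono Pm.nb_le (e.open_source.mem_nhds hn.2.1)] with y a1 a2 a3 a4 a5 a6 a7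
  obtain ⟨b1, b2, b3⟩ := a1.self_of_nhds
  intro h0 ε hε hlt
  simp only [Function.comp, e.left_inv a7] at h0 hlt ⊢
  have hj : T.row Θ j (T.Q.jm z y) ≠ 0 := fun h => h0 (by rw [← b2, h, zero_mul])
  have hr : AnalyticAt ℂ (fun q => (T.row Θ i q - c * T.row Θ j q) / T.row Θ j q) (T.Q.jm z y) :=
    ((a3 i).sub (analyticAt_const.mul (a3 j))).div (a3 j) hj
  have he : ∀ᶠ y' in 𝓝 y, (T.row Θ i (T.Q.jm z y') - c * T.row Θ j (T.Q.jm z y')) /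
      T.row Θ j (T.Q.jm z y') = α y' / β y' - c := by
    filter_upwards [a1, a6.continuousAt.eventually_ne h0] with y' ⟨d1, d2, d3⟩ d4
    have d5 : T.row Θ j (T.Q.jm z y') ≠ 0 := fun h => d4 (by rw [← d2, h, zero_mul])
    rw [← d1, ← d2]
    field_simp
  have hd : dw (fun v => α (e.symm v) / β (e.symm v)) (e y) = D 𝒳.x e y (0, 1) *
      T.Q.𝒴.dX (fun q => (T.row Θ i q - c * T.row Θ j q) / T.row Θ j q) (T.Q.jm z y) := by
    rw [← (a4 _ hr.differentiableAt).1]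
    have h3 := (Sx.eventually_chart a7).1 he
    unfold dw D
    rw [← fderiv_sub_const c]
    exact congrArg (fun φ : E2 →L[ℂ] ℂ => φ (0, 1)) (EventuallyEq.fderiv_eq h3).symm
  have h4 := a2 hj (ε / μ) (div_pos hε hμ) (by rw [he.self_of_nhds]; exact hlt)
  have h5 : α y - c * β y = (T.row Θ i (T.Q.jm z y) - c * T.row Θ j (T.Q.jm z y)) * 𝒳.W e y := by
    rw [← b1, ← b2]; ring
  rw [hd, h5, a5]
  simp only [norm_mul, norm_pow, Complex.norm_natCast]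
  refine (mul_le_mul_of_nonneg_right h4 (by positivity)).trans (le_of_eq ?_)
  field_simp

theorem bound_nhds (hn : 𝒳.NF e p z μ) {α β : 𝒳.X → ℂ} (hα : 𝒳.S.AnAt α p) (hβ : 𝒳.S.AnAt β p)
    {c : ℂ} {δ : ℝ → ℝ} {n : ℕ}
    (h : ∀ᶠ y in T.Q.Nb p z, Pq (α ∘ e.symm) (β ∘ e.symm) c δ n (e y)) :
    ∀ᶠ v in 𝓝 (0 : E2), Pq (α ∘ e.symm) (β ∘ e.symm) c δ n v := by
  filter_upwards [hn.eventually.1 (Pm.nb_dense hn.2.2.2.1 h), hn.lam_symm,
    (hn.an hα).eventually_analyticAt, (hn.an hβ).eventually_analyticAt] with v a1 a2 a3 a4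
  refine close a3 a4 ?_
  have h1 := (e.continuousAt (e.map_target a2.1)).tendsto
  rw [e.right_inv a2.1] at h1
  exact h1.frequently a1

theorem leaf_of (hn : 𝒳.NF e p z μ) {α : Fin T.g → 𝒳.X → ℂ}
    (hα : ∀ k, T.Q.Co e p z 1 (T.row Θ k) (α k)) {i j : Fin T.g}
    (h : ∃ᶠ v in 𝓝 (0 : ℂ), ∃ ρ : E2 → ℂ, AnalyticAt ℂ ρ (0, v) ∧ dw ρ (0, v) ≠ 0 ∧
      (∀ᶠ y in 𝓝 ((0, v) : E2), (α i ∘ e.symm) y = ρ y * (α j ∘ e.symm) y) ∧
      ¬ ∀ᶠ y in 𝓝 ((0, v) : E2), (α j ∘ e.symm) y = 0) :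
    ∃ e p μ ρ, T.Leaf Θ e p z μ ρ := by
  have hp : 𝒳.Ov p z := hn.2.2.2.1
  have ht : Tendsto (fun v : ℂ => ((0, v) : E2)) (𝓝 0) (𝓝 0) :=
    (continuous_const.prodMk continuous_id).tendsto' _ _ rfl
  have h1 := ht.eventually (hn.eventually.1 (eventually_all.2 fun k => (hα k).loc hp))
  obtain ⟨v, ⟨ρ, a1, a2, a3, a4⟩, ⟨e', b1, b2, b3, b4⟩, b5, b6⟩ :=
    (h.and_eventually (hn.shift.and (h1.and (ht.eventually hn.lam_symm)))).exists
  have hs : e.symm (0, v) ∈ e.source := e.map_target b6.1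
  have hv : e (e.symm (0, v)) = (0, v) := e.right_inv b6.1
  have hr : (ρ ∘ e) ∘ e.symm =ᶠ[𝓝 (0, v)] ρ := by
    filter_upwards [e.open_target.mem_nhds b6.1] with u hu
    simp only [Function.comp, e.right_inv hu]
  rw [b1.2.2.2.1.lam_self] at b5
  refine ⟨e', e.symm (0, v), μ, ρ ∘ e, b1, ?_, ?_, α, i, j, fun k => (b5 k).shift b2 b3 b4, ?_, ?_⟩
  · refine Sf0.anAt_of_chart hn.1 hs ?_
    rw [hv]
    exact a1.congr hr.symm
  · have h2 : (ρ ∘ e) ∘ e'.symm = fun u => ((ρ ∘ e) ∘ e.symm) (u + (0, v)) := by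
      funext u
      simp only [Function.comp, b4]
    unfold D
    rw [h2, fderiv_comp_add_right, b1.2.2.1, zero_add, hr.fderiv_eq]
    exact a2
  · rw [Sx.eventually_chart hs, hv]
    filter_upwards [a3, hr] with u d1 d2
    rw [← d2] at d1
    exact d1
  · rw [Sx.eventually_chart hs, hv]
    exact a4

end Leaf1P

open Leaf1P in
theorem sLeaf1 (h1 : SNF0) (h2 : SInd) (h3 : SRel2) (h4 : SLeafP) : SLeaf1 := by
  intro 𝒳 T m s z Θ hg hV ⟨hF, hΛ, i₀, hi₀⟩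
  have hx : ¬ T.Q.HXf 1 (fun q => (q.1 - z)⁻¹ * T.row Θ i₀ q) z := fun h => by
    refine hi₀ ⟨fun k => ?_, ?_⟩
    · exact ((MeromorphicAt.id z).fun_sub (MeromorphicAt.const z z)).fun_inv.fun_mul
        ((hΛ i₀).1 k)
    · refine h.congr (Eventually.of_forall fun q => ?_)
      unfold Cx.row cb
      simp only [Pi.smul_apply, smul_eq_mul, Finset.mul_sum, mul_assoc]
  have hy := mt (h1 𝒳 T.Q 1 (T.row Θ i₀) z (hΛ i₀).2) hx
  push Not at hy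
  obtain ⟨e, p, μ, α₀, hn, hc, k, hk, hd⟩ := hy
  have hp : 𝒳.Ov p z := hn.2.2.2.1
  choose α hα using fun k => (hΛ k).2 p hp e hn.1 hn.2.1
  have ht : Tendsto (fun u : ℂ => ((u, 0) : E2)) (𝓝 0) (𝓝 0) :=
    (continuous_id.prodMk continuous_const).tendsto' _ _ rfl
  obtain ⟨i, j, -, h⟩ := h4 T.g μ (fun k => α k ∘ e.symm) hg (fun k => hn.an (hα k).1)
    ⟨i₀, k, hk, by
      have h5 : (fun u => α₀ (e.symm (u, 0))) =ᶠ[𝓝 0] fun u => α i₀ (e.symm (u, 0)) :=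
        ht.eventually (hn.eventually.1 (hc.unique hp (hα i₀)))
      rw [h5.iteratedDeriv_eq k] at hd
      exact hd⟩
    (fun c hc => by
      obtain ⟨u, b1, b2⟩ := ((h2 𝒳 T.toTk e p z μ T.g 1 (T.row Θ) α hn hα
        (ind_row hF)).and_eventually
        (Eventually.filter_mono nhdsWithin_le_nhds (Eventually.curry_nhds hc))).exists
      exact b1 c b2)
    (fun i j hij c => by
      obtain ⟨δ, b1, b2⟩ := h3 𝒳.L T.Q.𝒴 T.Φ T.g T.N m s z Θ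
        (Pi.single i 1 - c • Pi.single j 1) (Pi.single j 1) T.bas hV hF (indep hij c)
      simp only [cf_sub, cf_single] at b2
      refine ⟨fun ε => δ (ε / μ), fun ε hε => b1 _ (div_pos hε (Nat.cast_pos.2 hn.2.2.2.2.1)), ?_⟩
      exact bound_nhds hn (hα i).1 (hα j).1 (bound_nb hF hn (hα i) (hα j) b2))
  exact leaf_of hn hα h

end Pool.Agent.P.MP_7ede32_ag.Hod
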