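import Pool.Agent.P.MP_7ede32_ag.Hod.StB

/-!
Linear differential equations on a disc, by Picard iteration in a Banach algebra.
-/

open Set Filter Topology Metric

namespace Pool.Agent.P.MP_7ede32_ag.Hod

namespace ODEP

variable {A : Type*} [NormedRing A] [NormedAlgebra ℂ A] [CompleteSpace A]

/-- The Picard iterates. -/
theorem exists_iter (m : ℂ → A) (c : ℂ) (r : ℝ) (hm : DifferentiableOn ℂ m (ball c r)) :
    ∃ B : ℕ → ℂ → A, B 0 = (fun _ => 1) ∧ ∀ k, B (k + 1) c = 0 ∧
      ∀ t ∈ ball c r, HasDerivAt (B (k + 1)) (B k t * m t) t := by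
  have step : ∀ f : {f : ℂ → A // DifferentiableOn ℂ f (ball c r)},
      ∃ g : {f : ℂ → A // DifferentiableOn ℂ f (ball c r)}, g.1 c = 0 ∧
        ∀ t ∈ ball c r, HasDerivAt g.1 (f.1 t * m t) t := by
    intro f
    obtain ⟨g, h0, hg⟩ := (f.2.mul hm).isExactOn_ball.with_val_at c 0
    exact ⟨⟨g, fun t ht => (hg t ht).differentiableAt.differentiableWithinAt⟩, h0, hg⟩
  choose P hP using step
  refine ⟨fun k => (P^[k] ⟨fun _ => 1, differentiableOn_const 1⟩).1, rfl, fun k => ?_⟩
  simp only [Function.iterate_succ_apply']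
  exact hP _

omit [CompleteSpace A] in
/-- The bound for the iterates. -/
theorem iter_bound (m : ℂ → A) (c : ℂ) (ρ M : ℝ) (hM0 : 0 ≤ M)
    (hM : ∀ t ∈ ball c ρ, ‖m t‖ ≤ M) (B : ℕ → ℂ → A) (h0 : B 0 = fun _ => 1)
    (hB : ∀ k, B (k + 1) c = 0 ∧ ∀ t ∈ ball c ρ, HasDerivAt (B (k + 1)) (B k t * m t) t) :
    ∀ k, ∀ t ∈ ball c ρ, ‖B k t‖ ≤ ‖(1 : A)‖ * ((M * ‖t - c‖) ^ k / k.factorial) := by
  intro k
  induction k with
  | zero => intro t _; simp [h0]
  | succ k ih =>
    intro t ht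
    set a : ℝ := M * ‖t - c‖ with ha
    have ha0 : 0 ≤ a := mul_nonneg hM0 (norm_nonneg _)
    have hγ : ∀ s : ℝ, HasDerivAt (fun s : ℝ => c + (s : ℂ) * (t - c)) (t - c) s := by
      intro s
      simpa using ((Complex.ofRealCLM.hasDerivAt (x := s)).mul_const (t - c)).const_add c
    have hn : ∀ s ∈ Icc (0 : ℝ) 1, ‖c + (s : ℂ) * (t - c) - c‖ = s * ‖t - c‖ := by
      intro s hs
      simp [abs_of_nonneg hs.1]
    have hin : ∀ s ∈ Icc (0 : ℝ) 1, c + (s : ℂ) * (t - c) ∈ ball c ρ := by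
      intro s hs
      rw [mem_ball, dist_eq_norm, hn s hs]
      have h1 : ‖t - c‖ < ρ := by simpa [dist_eq_norm] using ht
      have h2 : s * ‖t - c‖ ≤ 1 * ‖t - c‖ := mul_le_mul_of_nonneg_right hs.2 (norm_nonneg _)
      linarith
    have hd : ∀ s ∈ Icc (0 : ℝ) 1, HasDerivAt (fun s : ℝ => B (k + 1) (c + (s : ℂ) * (t - c)))
        ((t - c) • (B k (c + (s : ℂ) * (t - c)) * m (c + (s : ℂ) * (t - c)))) s := by
      intro s hs
      exact ((hB k).2 _ (hin s hs)).scomp_of_eq s (hγ s) rfl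
    have key := image_norm_le_of_norm_deriv_right_le_deriv_boundary (a := 0) (b := 1)
      (f := fun s : ℝ => B (k + 1) (c + (s : ℂ) * (t - c)))
      (f' := fun s : ℝ => (t - c) • (B k (c + (s : ℂ) * (t - c)) * m (c + (s : ℂ) * (t - c))))
      (B := fun s : ℝ => ‖(1 : A)‖ * ((a * s) ^ (k + 1) / (k + 1).factorial))
      (B' := fun s : ℝ => ‖(1 : A)‖ * (a * (a * s) ^ k / k.factorial))
      (fun s hs => (hd s hs).continuousAt.continuousWithinAt)
      (fun s hs => (hd s (Ico_subset_Icc_self hs)).hasDerivWithinAt)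
      (by simp [(hB k).1])
      (fun s => by
        have h1 : HasDerivAt (fun s : ℝ => a * s) a s := by
          simpa using (hasDerivAt_id s).const_mul a
        have h2 := ((h1.pow (k + 1)).div_const ((k + 1).factorial : ℝ)).const_mul ‖(1 : A)‖
        refine HasDerivAt.congr_deriv h2 ?_
        have h3 : ((k + 1).factorial : ℝ) = (k + 1) * k.factorial := by
          rw [Nat.factorial_succ]; push_cast; ring
        have h4 : (k.factorial : ℝ) ≠ 0 := by positivity
        rw [h3]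
        simp only [Nat.add_sub_cancel]
        push_cast
        field_simp)
      (fun s hs => by
        have hs' := Ico_subset_Icc_self hs
        have h1 := ih _ (hin s hs')
        rw [hn s hs'] at h1
        have h2 := hM _ (hin s hs')
        have h3 : M * (s * ‖t - c‖) = a * s := by rw [ha]; ring
        rw [h3] at h1
        have h4 : 0 ≤ ‖(1 : A)‖ * ((a * s) ^ k / k.factorial) := (norm_nonneg _).trans h1
        calc _ ≤ ‖t - c‖ * (‖B k (c + (s : ℂ) * (t - c))‖ * ‖m (c + (s : ℂ) * (t - c))‖) := by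
              rw [norm_smul]
              exact mul_le_mul_of_nonneg_left (norm_mul_le _ _) (norm_nonneg _)
          _ ≤ ‖t - c‖ * (‖(1 : A)‖ * ((a * s) ^ k / k.factorial) * M) :=
              mul_le_mul_of_nonneg_left (mul_le_mul h1 h2 (norm_nonneg _) h4) (norm_nonneg _)
          _ = _ := by rw [ha]; ring)
      (x := 1) ⟨zero_le_one, le_rfl⟩
    simpa using key

/-- The solution of `B' = B m` with `B c = 1` on a disc. -/
theorem exists_sol (m : ℂ → A) (c : ℂ) (r : ℝ) (hm : DifferentiableOn ℂ m (ball c r)) :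
    ∃ B : ℂ → A, B c = 1 ∧ ∀ t ∈ ball c r, HasDerivAt B (B t * m t) t := by
  obtain ⟨B, h0, hB⟩ := exists_iter m c r hm
  refine ⟨fun t => 1 + ∑' k, B (k + 1) t, by simp [fun k => (hB k).1], fun t ht => ?_⟩
  obtain ⟨ρ, hρ1, hρ2⟩ := exists_between (mem_ball.1 ht)
  have hρ0 : 0 < ρ := dist_nonneg.trans_lt hρ1
  have hsub : closedBall c ρ ⊆ ball c r := closedBall_subset_ball hρ2
  obtain ⟨M₀, hM₀⟩ := (isCompact_closedBall c ρ).exists_bound_of_continuousOn
    (hm.continuousOn.mono hsub)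
  have hM0 : 0 ≤ M₀ := (norm_nonneg _).trans (hM₀ c (mem_closedBall_self hρ0.le))
  have hM : ∀ t ∈ ball c ρ, ‖m t‖ ≤ M₀ := fun t ht => hM₀ t (ball_subset_closedBall ht)
  have hB' : ∀ k, B (k + 1) c = 0 ∧
      ∀ t ∈ ball c ρ, HasDerivAt (B (k + 1)) (B k t * m t) t :=
    fun k => ⟨(hB k).1, fun t ht => (hB k).2 t (hsub (ball_subset_closedBall ht))⟩
  have hb := iter_bound m c ρ M₀ hM0 hM B h0 hB'
  have hb' : ∀ k, ∀ y ∈ ball c ρ, ‖B k y‖ ≤ ‖(1 : A)‖ * ((M₀ * ρ) ^ k / k.factorial) := by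
    intro k y hy
    refine (hb k y hy).trans ?_
    have h1 : ‖y - c‖ ≤ ρ := by
      have := mem_ball.1 hy
      rw [dist_eq_norm] at this
      exact this.le
    gcongr
  have hs : Summable fun k : ℕ => ‖(1 : A)‖ * ((M₀ * ρ) ^ k / k.factorial) :=
    (Real.summable_pow_div_factorial (M₀ * ρ)).mul_left _
  have ht' : t ∈ ball c ρ := mem_ball.2 hρ1
  have hd := hasDerivAt_tsum_of_isPreconnected (𝕜 := ℂ) (g := fun k => B (k + 1))
    (g' := fun k y => B k y * m y) (hs.mul_right M₀) isOpen_ball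
    (convex_ball c ρ).isPreconnected (fun k y hy => (hB' k).2 y hy)
    (fun k y hy => (norm_mul_le _ _).trans
      (mul_le_mul (hb' k y hy) (hM y hy) (norm_nonneg _) ((norm_nonneg _).trans (hb' k y hy))))
    (mem_ball_self hρ0) (by simp [fun k => (hB k).1, summable_zero]) ht'
  have hst : Summable fun k => B k t := Summable.of_norm_bounded hs fun k => hb' k t ht'
  have he : ∑' k, B k t * m t = (1 + ∑' k, B (k + 1) t) * m t := by
    rw [hst.tsum_mul_right, hst.tsum_eq_zero_add, h0]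
  rw [he] at hd
  exact hd.const_add 1

end ODEP

attribute [local instance] Matrix.linftyOpNormedRing Matrix.linftyOpNormedAlgebra in
theorem sODE : SODE := by
  intro g m c r hm
  let e : Matrix (Fin g) (Fin g) ℂ ≃L[ℂ] (Fin g → Fin g → ℂ) :=
    (Matrix.ofLinearEquiv ℂ).symm.toContinuousLinearEquiv
  have hm' : DifferentiableOn ℂ m (ball c r) := by
    intro t ht
    have h1 : DifferentiableAt ℂ (fun s => e (m s)) t :=
      differentiableAt_pi.2 fun i => differentiableAt_pi.2 fun j => (hm t ht i j).differentiableAt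
    exact (e.comp_differentiableAt_iff.1 h1).differentiableWithinAt
  obtain ⟨B, h0, hB⟩ := ODEP.exists_sol m c r hm'
  have hE : ∀ t ∈ ball c r, ∀ i j, HasDerivAt (fun s => B s i j) ((B t * m t) i j) t := by
    intro t ht i j
    have h1 : HasDerivAt (fun s => e (B s)) (e (B t * m t)) t :=
      (e : Matrix (Fin g) (Fin g) ℂ →L[ℂ] (Fin g → Fin g → ℂ)).hasFDerivAt.comp_hasDerivAt t
        (hB t ht)
    exact hasDerivAt_pi.1 (hasDerivAt_pi.1 h1 i) j
  refine ⟨B, h0, fun t ht => ⟨fun i j => ?_, ?_⟩⟩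
  · exact DifferentiableOn.analyticAt
      (fun s hs => (hE s hs i j).differentiableAt.differentiableWithinAt) (isOpen_ball.mem_nhds ht)
  · ext i j
    exact (hE t ht i j).deriv

end Pool.Agent.P.MP_7ede32_ag.Hod
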