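import Pool.Agent.P.MP_7ede32_ag.Hod.RT2

/-!
Toolbox: compact Riemann surfaces.
-/

open Set Filter Topology MeasureTheory ComplexConjugate Polynomial Bornology Manifold
open scoped ContDiff

namespace Pool.Agent.P.MP_7ede32_ag.Hod

open MP_5d7cf0_gt.T (RS zc loc An D Sm Db Hf Om Hol LEx dbar)

variable {Y : Type} [TopologicalSpace Y] [ChartedSpace ℂ Y] {u v w : Y → ℂ} {p y : Y}
  {θ θ' : Y → ℂ × ℂ}

variable [RS Y]

theorem cofinite_iff {q : Y → Prop} : (∀ᶠ y in cofinite, q y) ↔ ∀ p, ∀ᶠ y in 𝓝[≠] p, q y := by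
  constructor
  · intro h p
    filter_upwards [MP_5d7cf0_gt.T.eventually_notMem (Filter.eventually_cofinite.1 h) p] with y hy
    exact not_not.1 hy
  · intro h
    refine Filter.eventually_cofinite.2 (MP_5d7cf0_gt.T.finite_of_isolated fun p => ?_)
    filter_upwards [h p] with y hy
    exact fun h' => h' hy

instance RS.infinite : Infinite Y := by
  by_contra hf
  have : Finite Y := not_infinite_iff_finite.1 hf
  obtain ⟨p⟩ : Nonempty Y := inferInstance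
  have h := MP_5d7cf0_gt.T.eventually_notMem (Set.toFinite (univ : Set Y)) p
  obtain ⟨y, hy⟩ := h.exists
  exact hy (mem_univ y)

namespace RTP

open MP_5d7cf0_gt.T MP_5d7cf0_gt.T.CoverP Metric

theorem exists_rho' (p : Y) {V : Set Y} (hV : V ∈ 𝓝 p) : ∃ (ρ : Y → ℂ) (K : Set Y),
    (∀ y, Sm ρ y) ∧ (∀ᶠ y in 𝓝 p, ρ y = 1) ∧ IsCompact K ∧ K ⊆ V ∧ (∀ y ∉ K, ρ y = 0) ∧
      ∀ y, 0 ≤ (ρ y).re := by
  have hp := mem_chart_source ℂ p
  have h1 : (chartAt ℂ p).target ∩ (chartAt ℂ p).symm ⁻¹' V ∈ 𝓝 (zc p p) :=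
    inter_mem (target_mem hp) (tendsto_symm hp hV)
  obtain ⟨ε, h0, hs⟩ := nhds_basis_closedBall.mem_iff.1 h1
  obtain ⟨b, hb1, hb2, hb3, hb4⟩ := exists_bump (zc p p) (half_pos h0) (half_lt_self h0)
  have hs1 : closedBall (zc p p) ε ⊆ (chartAt ℂ p).target := fun z hz => (hs hz).1
  refine ⟨ext p b, (chartAt ℂ p).symm '' closedBall (zc p p) ε, fun y => ?_, ?_,
    isCompact_symm_image (isCompact_closedBall _ _) hs1, ?_, fun y hy => ?_, fun y => ?_⟩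
  · exact sm_ext (isCompact_closedBall _ _) hs1
      (fun z hz => hb4 z fun h => hz (ball_subset_closedBall h))
      fun _ => Eventually.of_forall fun _ => hb1.contDiffAt
  · filter_upwards [source_mem hp,
      (continuousAt_zc hp).eventually (closedBall_mem_nhds _ (half_pos h0))] with y hy hy'
    rw [ext_of_mem _ hy, hb3 _ hy']
  · rintro _ ⟨z, hz, rfl⟩
    exact (hs hz).2
  · by_cases e : y ∈ (chartAt ℂ p).source
    · rw [ext_of_mem _ e]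
      exact hb4 _ fun h => hy ⟨_, ball_subset_closedBall h, symm_zc e⟩
    · exact ext_of_notMem _ e
  · by_cases e : y ∈ (chartAt ℂ p).source
    · rw [ext_of_mem _ e]
      exact hb2 _
    · rw [ext_of_notMem _ e, Complex.zero_re]

end RTP

theorem exists_rho (p : Y) {V : Set Y} (hV : V ∈ 𝓝 p) : ∃ (ρ : Y → ℂ) (K : Set Y),
    (∀ y, Sm ρ y) ∧ (∀ᶠ y in 𝓝 p, ρ y = 1) ∧ IsCompact K ∧ K ⊆ V ∧ ∀ y ∉ K, ρ y = 0 := by
  obtain ⟨ρ, K, h1, h2, h3, h4, h5, -⟩ := RTP.exists_rho' p hV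
  exact ⟨ρ, K, h1, h2, h3, h4, h5⟩

/-- a smooth partition of unity subordinate to given neighbourhoods -/
theorem exists_pou (V : Y → Set Y) (hV : ∀ p, V p ∈ 𝓝 p) : ∃ (s : Finset Y) (ρ : Y → Y → ℂ)
    (K : Y → Set Y), (∀ y, ∑ p ∈ s, ρ p y = 1) ∧ ∀ p, (∀ y, Sm (ρ p) y) ∧ IsCompact (K p) ∧
      K p ⊆ V p ∧ ∀ y ∉ K p, ρ p y = 0 := by
  choose b K h1 h2 h3 h4 h5 h6 using fun p : Y => RTP.exists_rho' p (hV p)
  obtain ⟨t, ht⟩ := CompactSpace.elim_nhds_subcover (fun p : Y => {y | b p y = 1}) h2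
  have hne : ∀ y, ∑ q ∈ t, b q y ≠ 0 := fun y h => by
    have e1 := congrArg Complex.re h
    rw [Complex.re_sum, Complex.zero_re] at e1
    refine absurd e1 (Finset.sum_pos' (fun i _ => h6 i y) ?_).ne'
    obtain ⟨q, hq, e2⟩ := mem_iUnion₂.1 (ht.superset (mem_univ y))
    refine ⟨q, hq, ?_⟩
    have e3 : b q y = 1 := e2
    rw [e3, Complex.one_re]
    exact one_pos
  refine ⟨t, fun p y => b p y * (∑ q ∈ t, b q y)⁻¹, K, fun y => ?_, fun p => ⟨fun y => ?_,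
    h3 p, h4 p, fun y hy => ?_⟩⟩
  · rw [← Finset.sum_mul, mul_inv_cancel₀ (hne y)]
  · exact (h1 p y).mul ((MP_5d7cf0_gt.T.sm_sum fun q _ => h1 q y).inv (hne y))
  · simp only [h5 p y hy, zero_mul]

theorem om_extend' {A : Set Y} (hA : A.Finite) (h : ∀ y ∉ A, Hf w y)
    (hb : ∀ a ∈ A, Tendsto (fun y => (zc a y - zc a a) * (w y / D (zc a) y)) (𝓝[≠] a) (𝓝 0)) :
    ∃ w' ∈ Om Y, ∀ y ∉ A, w' y = w y := by
  refine MP_5d7cf0_gt.T.om_extend hA h fun a ha => ?_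
  have h1 : ∀ᶠ y in 𝓝[≠] a, An (fun y => w y / D (zc a) y) y := by
    filter_upwards [MP_5d7cf0_gt.T.eventually_notMem hA a, mem_nhdsWithin_of_mem_nhds
      (MP_5d7cf0_gt.T.source_mem (mem_chart_source ℂ a))] with y h1 h2
    exact (h y h1).div_D (MP_5d7cf0_gt.T.an_zc h2) (MP_5d7cf0_gt.T.D_zc_ne h2)
  obtain ⟨β, h2, h3⟩ := an_of_littleO h1 (hb a ha)
  refine ⟨‖β a‖ + 1, ?_⟩
  have h4 : ∀ᶠ y in 𝓝 a, ‖β y‖ < ‖β a‖ + 1 :=
    h2.continuousAt.norm.eventually (gt_mem_nhds (lt_add_one _))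
  filter_upwards [h3, mem_nhdsWithin_of_mem_nhds h4] with y e1 e2
  rw [e1]
  exact e2.le

end Pool.Agent.P.MP_7ede32_ag.Hod
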