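import Pool.Agent.P.MP_7ede32_ag.Hod.StR
import Pool.Agent.P.MP_5d7cf0_gt.T.Cover

/-!
Toolbox: calculus of smooth one-forms on a Riemann surface.
-/

set_option linter.unusedSectionVars false

open Set Filter Topology MeasureTheory ComplexConjugate Polynomial Bornology Manifold
open scoped ContDiff

namespace Pool.Agent.P.MP_7ede32_ag.Hod

open MP_5d7cf0_gt.T (RS zc loc An D Sm Db Hf Om Hol LEx dbar)

section plane

variable {f g : ℂ → ℂ} {z : ℂ}

theorem fderiv_cj (v : ℂ) : fderiv ℝ (fun w => conj (f w)) z v = conj (fderiv ℝ f z v) := by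
  have := Complex.conjCLE.comp_fderiv (f := f) (x := z)
  exact congrArg (fun L : ℂ →L[ℝ] ℂ => L v) this

theorem dz_eq : dz f z = (1 / 2 : ℂ) * (fderiv ℝ f z 1 - Complex.I * fderiv ℝ f z Complex.I) := by
  rw [dz, dbar, fderiv_cj, fderiv_cj]
  simp only [map_mul, map_add, map_div₀, map_one, map_ofNat, Complex.conj_conj, Complex.conj_I]
  ring

theorem dz_holo (hf : DifferentiableAt ℂ f z) : dz f z = deriv f z := by
  rw [dz_eq, MP_5d7cf0_gt.T.fderiv_holo hf, MP_5d7cf0_gt.T.fderiv_holo hf]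
  linear_combination (-1 / 2 * deriv f z) * Complex.I_mul_I

theorem dz_comp_holo (hg : DifferentiableAt ℝ g (f z)) (hf : DifferentiableAt ℂ f z) :
    dz (g ∘ f) z = deriv f z * dz g (f z) := by
  have h : DifferentiableAt ℝ (fun w => conj (g w)) (f z) :=
    Complex.conjCLE.differentiableAt.comp (f z) hg
  have := MP_5d7cf0_gt.T.dbar_comp_holo h hf
  rw [dz, dz, show (fun w => conj ((g ∘ f) w)) = (fun w => conj (g w)) ∘ f from rfl, this, map_mul,
    Complex.conj_conj]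

theorem contDiffAt_dz (hf : ContDiffAt ℝ ∞ f z) : ContDiffAt ℝ ∞ (dz f) z := by
  have h : ContDiffAt ℝ ∞ (fun w => conj (f w)) z := Complex.conjCLE.contDiff.contDiffAt.comp z hf
  exact Complex.conjCLE.contDiff.contDiffAt.comp z (MP_5d7cf0_gt.T.contDiffAt_dbar h)

theorem dbar_dz (hf : ContDiffAt ℝ ∞ f z) : dbar (dz f) z = dz (dbar f) z := by
  have hF : DifferentiableAt ℝ (fderiv ℝ f) z :=
    (hf.fderiv_right (m := ∞) le_rfl).differentiableAt (by simp)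
  have h1 : ∀ v : ℂ, HasFDerivAt (fun w => fderiv ℝ f w v)
      ((ContinuousLinearMap.apply ℝ ℂ v).comp (fderiv ℝ (fderiv ℝ f) z)) z := fun v =>
    (ContinuousLinearMap.apply ℝ ℂ v).hasFDerivAt.comp z hF.hasFDerivAt
  have hs := (hf.isSymmSndFDerivAt (by
    simp only [minSmoothness_of_isRCLikeNormedField]
    exact WithTop.coe_le_coe.2 (le_top : ((2 : ℕ) : ℕ∞) ≤ ⊤))).eq 1 Complex.I
  have e1 : dz f = fun w => (1 / 2 : ℂ) * (fderiv ℝ f w 1 - Complex.I * fderiv ℝ f w Complex.I) :=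
    funext fun _ => dz_eq
  have h2 := (((h1 1).fun_sub ((h1 Complex.I).const_mul Complex.I)).const_mul (1 / 2 : ℂ)).fderiv
  have h3 := (((h1 1).fun_add ((h1 Complex.I).const_mul Complex.I)).const_mul (1 / 2 : ℂ)).fderiv
  have e2 : dbar f = fun w => (1 / 2 : ℂ) * (fderiv ℝ f w 1 + Complex.I * fderiv ℝ f w Complex.I) :=
    rfl
  rw [dz_eq, dbar, e1, e2, h2, h3]
  simp only [smul_apply, sub_apply, add_apply, ContinuousLinearMap.comp_apply,
    ContinuousLinearMap.apply_apply, smul_eq_mul, hs]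
  ring

end plane

variable {Y : Type} [TopologicalSpace Y] [ChartedSpace ℂ Y] {u v w : Y → ℂ} {p y : Y}
  {θ θ' : Y → ℂ × ℂ}

theorem Dz_eq_conj : Dz u p = conj (Db (fun y => conj (u y)) p) := rfl

theorem dd_congr (e : u =ᶠ[𝓝 p] v) : dd u p = dd v p := by
  have e' : (fun y => conj (u y)) =ᶠ[𝓝 p] fun y => conj (v y) := e.mono fun _ h => congrArg _ h
  rw [dd, dd, Dz_eq_conj, Dz_eq_conj, MP_5d7cf0_gt.T.Db_congr e, MP_5d7cf0_gt.T.Db_congr e']

theorem dd_const (c : ℂ) : dd (fun _ : Y => c) p = 0 := by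
  rw [dd, Dz_eq_conj, MP_5d7cf0_gt.T.Db_const, MP_5d7cf0_gt.T.Db_const, map_zero]
  rfl

theorem dd_an (h : An u p) : dd u p = (D u p, 0) := by
  rw [dd, h.Db_zero, Dz, dz_holo (AnalyticAt.differentiableAt h)]
  rfl

theorem dd_add (hu : Sm u p) (hv : Sm v p) : dd (fun y => u y + v y) p = dd u p + dd v p := by
  simp only [dd, Dz_eq_conj, map_add, MP_5d7cf0_gt.T.Db_add hu hv,
    MP_5d7cf0_gt.T.Db_add hu.conj hv.conj, Prod.mk_add_mk]

theorem dd_sub (hu : Sm u p) (hv : Sm v p) : dd (fun y => u y - v y) p = dd u p - dd v p := by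
  simp only [dd, Dz_eq_conj, map_sub, MP_5d7cf0_gt.T.Db_sub hu hv,
    MP_5d7cf0_gt.T.Db_sub hu.conj hv.conj, Prod.mk_sub_mk]

theorem dd_mul (hu : Sm u p) (hv : Sm v p) :
    dd (fun y => u y * v y) p = u p • dd v p + v p • dd u p := by
  simp only [dd, Dz_eq_conj, map_mul, map_add, MP_5d7cf0_gt.T.Db_mul hu hv,
    MP_5d7cf0_gt.T.Db_mul hu.conj hv.conj, Prod.mk_add_mk, Prod.smul_mk, smul_eq_mul,
    Complex.conj_conj, Prod.mk.injEq]
  constructor <;> ring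

theorem dd_const_mul (c : ℂ) (hu : Sm u p) : dd (fun y => c * u y) p = c • dd u p := by
  rw [dd_mul (MP_5d7cf0_gt.T.sm_const c) hu, dd_const, smul_zero, add_zero]

theorem dd_sum {ι : Type*} {s : Finset ι} {f : ι → Y → ℂ} (h : ∀ i ∈ s, Sm (f i) p) :
    dd (fun y => ∑ i ∈ s, f i y) p = ∑ i ∈ s, dd (f i) p := by
  classical
  induction s using Finset.induction_on with
  | empty => simpa using dd_const 0
  | insert a s ha ih =>
    simp only [Finset.sum_insert ha]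
    rw [dd_add (h a (Finset.mem_insert_self _ _))
      (MP_5d7cf0_gt.T.sm_sum fun i hi => h i (Finset.mem_insert_of_mem hi)),
      ih fun i hi => h i (Finset.mem_insert_of_mem hi)]

theorem dd_conj : dd (fun y => conj (u y)) = cj (dd u) := by
  funext p
  simp only [dd, cj, Dz_eq_conj, Complex.conj_conj]

theorem cj_cj : cj (cj θ) = θ := by
  funext p
  simp only [cj, Complex.conj_conj]

theorem cj_add : cj (θ + θ') = cj θ + cj θ' := by
  funext p
  simp [cj]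

theorem cj_sub : cj (θ - θ') = cj θ - cj θ' := by
  funext p
  simp [cj]

theorem cj_smul (c : ℂ) : cj (c • θ) = conj c • cj θ := by
  funext p
  simp [cj]

theorem cj_eq_zero : cj θ p = 0 ↔ θ p = 0 := by
  simp [cj, Prod.ext_iff, and_comm]

theorem hf_add : hf (u + v) = hf u + hf v := by
  funext p
  simp [hf]

theorem hf_smul (c : ℂ) : hf (c • u) = c • hf u := by
  funext p
  simp [hf]

theorem hf_sum {ι : Type*} (s : Finset ι) (f : ι → Y → ℂ) :
    hf (∑ i ∈ s, f i) = ∑ i ∈ s, hf (f i) := by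
  funext p
  simp [hf, Prod.ext_iff, Prod.fst_sum, Prod.snd_sum]

theorem Lc.congr (h : Lc θ p) (e : θ =ᶠ[𝓝 p] θ') : Lc θ' p := by
  obtain ⟨u, hu⟩ := h
  refine ⟨u, ?_⟩
  filter_upwards [hu, e] with y h1 h2
  exact ⟨h1.1, h2 ▸ h1.2⟩

theorem Lc.eventually (h : Lc θ p) : ∀ᶠ y in 𝓝 p, Lc θ y := by
  obtain ⟨u, hu⟩ := h
  exact hu.eventually_nhds.mono fun y hy => ⟨u, hy⟩

theorem lc_of_zero (h : ∀ᶠ y in 𝓝 p, θ y = 0) : Lc θ p :=
  ⟨fun _ => 0, h.mono fun _ hy => ⟨MP_5d7cf0_gt.T.sm_const 0, hy.trans (dd_const 0).symm⟩⟩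

theorem Lc.add (h : Lc θ p) (h' : Lc θ' p) : Lc (θ + θ') p := by
  obtain ⟨u, hu⟩ := h
  obtain ⟨v, hv⟩ := h'
  refine ⟨fun y => u y + v y, ?_⟩
  filter_upwards [hu, hv] with y h1 h2
  exact ⟨h1.1.add h2.1, by rw [dd_add h1.1 h2.1, ← h1.2, ← h2.2]; rfl⟩

theorem Lc.sub (h : Lc θ p) (h' : Lc θ' p) : Lc (θ - θ') p := by
  obtain ⟨u, hu⟩ := h
  obtain ⟨v, hv⟩ := h'
  refine ⟨fun y => u y - v y, ?_⟩
  filter_upwards [hu, hv] with y h1 h2
  exact ⟨h1.1.sub h2.1, by rw [dd_sub h1.1 h2.1, ← h1.2, ← h2.2]; rfl⟩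

theorem Lc.smul (c : ℂ) (h : Lc θ p) : Lc (c • θ) p := by
  obtain ⟨u, hu⟩ := h
  refine ⟨fun y => c * u y, ?_⟩
  filter_upwards [hu] with y h1
  exact ⟨(MP_5d7cf0_gt.T.sm_const c).mul h1.1, by rw [dd_const_mul c h1.1, ← h1.2]; rfl⟩

theorem Lc.cj (h : Lc θ p) : Lc (cj θ) p := by
  obtain ⟨u, hu⟩ := h
  refine ⟨fun y => conj (u y), ?_⟩
  filter_upwards [hu] with y h1
  exact ⟨h1.1.conj, by rw [dd_conj, Hod.cj, Hod.cj, h1.2]⟩

theorem Cl.add (h : Cl θ) (h' : Cl θ') : Cl (θ + θ') := fun p => (h p).add (h' p)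

theorem Cl.sub (h : Cl θ) (h' : Cl θ') : Cl (θ - θ') := fun p => (h p).sub (h' p)

theorem Cl.smul (c : ℂ) (h : Cl θ) : Cl (c • θ) := fun p => (h p).smul c

theorem Cl.cj (h : Cl θ) : Cl (cj θ) := fun p => (h p).cj

theorem cl_sum {ι : Type*} {s : Finset ι} {f : ι → Y → ℂ × ℂ} (h : ∀ i ∈ s, Cl (f i)) :
    Cl (∑ i ∈ s, f i) := by
  classical
  induction s using Finset.induction_on with
  | empty => exact fun p => lc_of_zero (Eventually.of_forall fun _ => rfl)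
  | insert a s ha ih =>
    rw [Finset.sum_insert ha]
    exact (h a (Finset.mem_insert_self _ _)).add (ih fun i hi => h i (Finset.mem_insert_of_mem hi))

theorem Cl.lEx (h : Cl θ) : LEx fun p => (θ p).2 := fun p => by
  obtain ⟨u, hu⟩ := h p
  exact ⟨u, hu.mono fun y hy => ⟨hy.1, (congrArg Prod.snd hy.2).symm⟩⟩

theorem XC.Zc.cj {C : XC Y} (h : C.Zc θ) : C.Zc (cj θ) :=
  ⟨h.1.cj, fun p hp => (h.2 p hp).mono fun _ hy => cj_eq_zero.2 hy⟩

theorem XC.Zk.cj {C : XC Y} {K : Set ℂ} (h : C.Zk K θ) : C.Zk K (cj θ) :=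
  ⟨h.1.cj, fun p hp => h.2 p fun e => hp (cj_eq_zero.2 e)⟩

theorem XC.Zk.mono {C : XC Y} {K K' : Set ℂ} (h : C.Zk K θ) (hK : K ⊆ K') : C.Zk K' θ :=
  ⟨h.1, fun p hp => ⟨(h.2 p hp).1, hK (h.2 p hp).2⟩⟩

end Pool.Agent.P.MP_7ede32_ag.Hod
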