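import Pool.Agent.P.MP_7ede32_ag.Hod.RT1

/-!
Toolbox: one-forms in charts.
-/

open Set Filter Topology MeasureTheory ComplexConjugate Polynomial Bornology Manifold
open scoped ContDiff

namespace Pool.Agent.P.MP_7ede32_ag.Hod

open MP_5d7cf0_gt.T (RS zc loc An D Sm Db Hf Om Hol LEx dbar)
open MP_5d7cf0_gt.T (loc_self loc_zc eq_loc an_zc an_zc_self D_eq D_zc_ne D_zc_self D_comp D_congr
  Db_eq Db_comp an_of_Db dbar_congr source_mem target_mem zc_symm eventually_chart
  eventually_chart_ne continuousAt_zc map_zc_ne contDiffAt_dbar isPreconnected_punctured)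

variable {Y : Type} [TopologicalSpace Y] [ChartedSpace ℂ Y] {u v w : Y → ℂ} {p y : Y}
  {θ θ' : Y → ℂ × ℂ}

theorem dz_congr' {f g : ℂ → ℂ} {z : ℂ} (h : f =ᶠ[𝓝 z] g) : dz f z = dz g z := by
  rw [dz, dz, dbar_congr (g := fun w => conj (g w)) (h.mono fun w hw => by simp only [hw])]

theorem Dz_congr' (e : u =ᶠ[𝓝 p] v) : Dz u p = Dz v p := congrArg Prod.fst (dd_congr e)

/-- chain rule for a holomorphic inner function -/
theorem Dz_comp' {g : ℂ → ℂ} (hu : An u p) (hg : DifferentiableAt ℝ g (u p)) :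
    Dz (fun y => g (u y)) p = D u p * dz g (u p) := by
  have := dz_comp_holo (g := g) (f := loc u p) (z := zc p p) (by rwa [loc_self])
    (AnalyticAt.differentiableAt hu)
  rwa [loc_self] at this

theorem loc_eq_of {g : ℂ → ℂ} (hy : y ∈ (chartAt ℂ p).source)
    (e : ∀ᶠ y' in 𝓝 y, u y' = g (zc p y')) : loc u p =ᶠ[𝓝 (zc p y)] g := by
  filter_upwards [(eventually_chart hy).mp e, target_mem hy] with z h1 h2
  rw [zc_symm h2] at h1
  exact h1

theorem continuousAt_of_loc (h : ContinuousAt (loc u p) (zc p p)) : ContinuousAt u p :=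
  (ContinuousAt.comp h (continuousAt_zc (mem_chart_source ℂ p))).congr
    (eq_loc (mem_chart_source ℂ p)).symm

variable [IsManifold 𝓘(ℂ) ω Y]

theorem Dz_eq (hy : y ∈ (chartAt ℂ p).source) (h : Sm u y) :
    Dz u y = D (zc p) y * dz (loc u p) (zc p y) := by
  rw [Dz_congr' (eq_loc (p := p) hy)]
  exact Dz_comp' (an_zc hy) ((h.loc hy).self_of_nhds.differentiableAt (by simp))

theorem dv_eq (hy : y ∈ (chartAt ℂ p).source) (h : An u y) :
    dv u p y = deriv (loc u p) (zc p y) := by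
  rw [dv, D_eq hy h, mul_div_cancel_right₀ _ (D_zc_ne hy)]

theorem an_dv (hy : y ∈ (chartAt ℂ p).source) (h : An u y) : An (dv u p) y :=
  h.hf.div_D (an_zc hy) (D_zc_ne hy)

omit [IsManifold 𝓘(ℂ) ω Y] in
theorem cl_dd (h : ∀ p, Sm u p) : Cl (dd u) :=
  fun _ => ⟨u, Eventually.of_forall fun y => ⟨h y, rfl⟩⟩

/-- local primitives -/
theorem exists_prim (hw : Hf w p) : ∃ F : Y → ℂ, ∀ᶠ y in 𝓝 p, An F y ∧ D F y = w y := by
  have hy := mem_chart_source ℂ p
  obtain ⟨r, hr, hb⟩ := Metric.eventually_nhds_iff_ball.mp (AnalyticAt.eventually_analyticAt hw)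
  obtain ⟨G, hG⟩ := DifferentiableOn.isExactOn_ball
    (f := loc (fun z => w z / D (zc p) z) p) (c := zc p p) (r := r)
    fun z hz => (hb z hz).differentiableAt.differentiableWithinAt
  have hGa : AnalyticOnNhd ℂ G (Metric.ball (zc p p) r) :=
    DifferentiableOn.analyticOnNhd
      (fun z hz => (hG z hz).differentiableAt.differentiableWithinAt) Metric.isOpen_ball
  refine ⟨fun z => G (zc p z), ?_⟩
  filter_upwards [source_mem hy, (continuousAt_zc hy).eventually (Metric.ball_mem_nhds _ hr)]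
    with z h1 h2
  refine ⟨(an_zc h1).comp (hGa _ h2), ?_⟩
  rw [D_comp (an_zc h1) (hG _ h2).differentiableAt, (hG _ h2).deriv, loc_zc h1,
    div_mul_cancel₀ _ (D_zc_ne h1)]

theorem lc_hf (h : Hf w p) : Lc (hf w) p := by
  obtain ⟨F, hF⟩ := exists_prim h
  refine ⟨F, hF.mono fun y hy => ⟨hy.1.sm, ?_⟩⟩
  rw [dd_an hy.1, hy.2, hf]

theorem cl_hf (h : w ∈ Om Y) : Cl (hf w) := fun p => lc_hf (h p)

theorem Lc.hf (h : Lc θ p) (h0 : ∀ᶠ y in 𝓝 p, (θ y).2 = 0) : Hf (fun y => (θ y).1) p := by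
  obtain ⟨u, hu⟩ := h
  have h1 : An u p := an_of_Db (by
    filter_upwards [hu, h0] with y h1 h2
    rw [h1.2] at h2
    exact ⟨h1.1, h2⟩)
  refine h1.hf.congr ?_
  filter_upwards [hu, h1.eventually] with y h2 h3
  rw [h2.2, dd_an h3]

/-- the coefficients in a chart are smooth and satisfy the closedness equation -/
theorem Lc.chart (hy : y ∈ (chartAt ℂ p).source) (h : Lc θ y) :
    ContDiffAt ℝ ∞ (loc (fun y => (θ y).1 / D (zc p) y) p) (zc p y) ∧
    ContDiffAt ℝ ∞ (loc (fun y => (θ y).2 / conj (D (zc p) y)) p) (zc p y) ∧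
    dbar (loc (fun y => (θ y).1 / D (zc p) y) p) (zc p y) =
      dz (loc (fun y => (θ y).2 / conj (D (zc p) y)) p) (zc p y) := by
  obtain ⟨u, hu⟩ := h
  have e1 : loc (fun y => (θ y).1 / D (zc p) y) p =ᶠ[𝓝 (zc p y)] dz (loc u p) := by
    refine loc_eq_of hy ?_
    filter_upwards [hu, source_mem hy] with y' h1 h2
    rw [h1.2, dd, Dz_eq h2 h1.1, mul_div_cancel_left₀ _ (D_zc_ne h2)]
  have e2 : loc (fun y => (θ y).2 / conj (D (zc p) y)) p =ᶠ[𝓝 (zc p y)] dbar (loc u p) := by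
    refine loc_eq_of hy ?_
    filter_upwards [hu, source_mem hy] with y' h1 h2
    rw [h1.2, dd, Db_eq h2 h1.1, mul_div_cancel_left₀ _ (by simpa using D_zc_ne h2)]
  have h1 := (hu.self_of_nhds.1.loc hy).self_of_nhds
  refine ⟨(contDiffAt_dz h1).congr_of_eventuallyEq e1,
    (contDiffAt_dbar h1).congr_of_eventuallyEq e2, ?_⟩
  rw [dbar_congr e1, dz_congr' e2, dbar_dz h1]

theorem Lc.cn (h : Lc θ p) : Cn θ p := by
  obtain ⟨h1, h2, -⟩ := h.chart (mem_chart_source ℂ p)
  exact ⟨continuousAt_of_loc h1.continuousAt, continuousAt_of_loc h2.continuousAt⟩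

theorem cn_lEx {β : Y → ℂ} (h : LEx β) : Cn (fun y => (0, β y)) p :=
  ⟨by simpa only [zero_div] using continuousAt_const,
    (h.sm_div (mem_chart_source ℂ p)).continuousAt⟩

omit [IsManifold 𝓘(ℂ) ω Y] in
theorem Cn.cj (h : Cn θ p) : Cn (cj θ) p :=
  ⟨(Complex.continuous_conj.continuousAt.comp h.2).congr
      (Eventually.of_forall fun y => by simp [Hod.cj]),
    (Complex.continuous_conj.continuousAt.comp h.1).congr
      (Eventually.of_forall fun y => by simp [Hod.cj])⟩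

/-- pull-back of an exact form -/
theorem dd_comp {Y' : Type} [TopologicalSpace Y'] [ChartedSpace ℂ Y'] [IsManifold 𝓘(ℂ) ω Y']
    {j : Y → Y'} {u : Y' → ℂ} (hj : Hol j y) (hu : Sm u (j y)) :
    Sm (fun y => u (j y)) y ∧ dd (fun y => u (j y)) y =
      ((dd u (j y)).1 * D (zc (j y) ∘ j) y, (dd u (j y)).2 * conj (D (zc (j y) ∘ j) y)) := by
  have e : (fun y => u (j y)) =ᶠ[𝓝 y] fun y' => loc u (j y) ((zc (j y) ∘ j) y') :=
    hj.1.eventually (eq_loc (u := u) (mem_chart_source ℂ (j y)))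
  refine ⟨(hj.2.sm.comp (g := loc u (j y)) hu).congr e.symm, ?_⟩
  rw [dd_congr e, dd, Dz_comp' hj.2 hu.diff, Db_comp hj.2 hu.diff, mul_comm,
    mul_comm (conj _)]
  rfl

theorem exists_isSec {x : Y → ℂ} (h : An x p) (h0 : D x p ≠ 0) : ∃ s, IsSec x s p := by
  obtain ⟨e, h1, rfl, h2⟩ := h.exists_homeo h0
  refine ⟨e.symm, e.left_inv h1, e.continuousAt_symm (e.map_source h1), ?_, ?_,
    (h2 p h1).2.2 _ an_zc_self⟩
  · filter_upwards [e.open_source.mem_nhds h1] with y hy using e.left_inv hy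
  · filter_upwards [e.open_target.mem_nhds (e.map_source h1)] with ξ hξ using e.right_inv hξ

omit [IsManifold 𝓘(ℂ) ω Y] in
theorem IsSec.tendsto {x : Y → ℂ} {s : ℂ → Y} (h : IsSec x s p) : Tendsto s (𝓝 (x p)) (𝓝 p) := by
  have := h.cont.tendsto
  rwa [h.self] at this

omit [IsManifold 𝓘(ℂ) ω Y] in
theorem IsSec.analyticAt {x : Y → ℂ} {s : ℂ → Y} (h : IsSec x s p) (hu : An u p) :
    AnalyticAt ℂ (fun ξ => u (s ξ)) (x p) :=
  (AnalyticAt.comp (g := loc u p) (f := zc p ∘ s)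
    (by rw [Function.comp, h.self]; exact hu) h.an).congr
    (h.tendsto.eventually (eq_loc (u := u) (mem_chart_source ℂ p)).symm)

omit [IsManifold 𝓘(ℂ) ω Y] in
theorem IsSec.deriv {x : Y → ℂ} {s : ℂ → Y} (h : IsSec x s p) (hx : An x p) (hu : An u p) :
    D x p ≠ 0 ∧ deriv (fun ξ => u (s ξ)) (x p) = D u p / D x p := by
  have key : ∀ u : Y → ℂ, An u p → D u p = _root_.deriv (fun ξ => u (s ξ)) (x p) * D x p :=
    fun u hu => by
      rw [← D_comp hx (h.analyticAt hu).differentiableAt]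
      exact D_congr (h.left.mono fun y hy => by simp only [hy])
  have h0 : D x p ≠ 0 := fun h0 => by
    have := key _ an_zc_self
    rw [h0, mul_zero, D_zc_self] at this
    exact one_ne_zero this
  exact ⟨h0, by rw [key u hu, mul_div_cancel_right₀ _ h0]⟩

theorem an_div_D {x : Y → ℂ} (hw : Hf w p) (hx : An x p) (h0 : D x p ≠ 0) :
    An (fun y => w y / D x y) p := hw.div_D hx h0

theorem hf_mul_D {x : Y → ℂ} (hu : An u p) (hx : An x p) : Hf (fun y => u y * D x y) p :=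
  MP_5d7cf0_gt.T.Hf.mul hu hx.hf

/-- a function with zero derivative on a punctured neighbourhood is constant there -/
theorem const_of_D_punctured (h : ∀ᶠ y in 𝓝[≠] p, An u y ∧ D u y = 0) :
    ∃ c, ∀ᶠ y in 𝓝[≠] p, u y = c := by
  have hp := mem_chart_source ℂ p
  have h1 : ∀ᶠ z in 𝓝[≠] (zc p p), DifferentiableAt ℂ (loc u p) z ∧ deriv (loc u p) z = 0 := by
    rw [← map_zc_ne hp, eventually_map]
    filter_upwards [h, mem_nhdsWithin_of_mem_nhds (source_mem hp)] with y h1 h2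
    refine ⟨(h1.1.loc h2).differentiableAt, ?_⟩
    rw [← dv_eq h2 h1.1, dv, h1.2, zero_div]
  obtain ⟨r, hr, hb⟩ := Metric.eventually_nhds_iff_ball.mp (eventually_nhdsWithin_iff.mp h1)
  obtain ⟨c, hc⟩ := (Metric.isOpen_ball.sdiff isClosed_singleton).exists_is_const_of_deriv_eq_zero
    (isPreconnected_punctured (zc p p) r) (f := loc u p)
    (fun z hz => (hb z hz.1 hz.2).1.differentiableWithinAt) fun z hz => (hb z hz.1 hz.2).2
  refine ⟨c, (eventually_chart_ne hp).mpr ?_⟩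
  filter_upwards [mem_nhdsWithin_of_mem_nhds (Metric.ball_mem_nhds _ hr), self_mem_nhdsWithin]
    with z h2 h3
  exact hc z ⟨h2, h3⟩

/-- removable singularities -/
theorem an_of_littleO (h : ∀ᶠ y in 𝓝[≠] p, An u y)
    (h0 : Tendsto (fun y => (zc p y - zc p p) * u y) (𝓝[≠] p) (𝓝 0)) :
    ∃ β, An β p ∧ ∀ᶠ y in 𝓝[≠] p, u y = β y := by
  classical
  have hp := mem_chart_source ℂ p
  have hs := mem_nhdsWithin_of_mem_nhds (t := {p}ᶜ) (source_mem hp)
  have h1 : ∀ᶠ z in 𝓝[≠] (zc p p), DifferentiableAt ℂ (loc u p) z := by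
    rw [← map_zc_ne hp, eventually_map]
    filter_upwards [h, hs] with y h1 h2
    exact (h1.loc h2).differentiableAt
  have h2 : Tendsto (fun z => (z - zc p p) * loc u p z) (𝓝[≠] (zc p p)) (𝓝 0) := by
    rw [← map_zc_ne hp, tendsto_map'_iff]
    refine h0.congr' ?_
    filter_upwards [hs] with y hy
    simp only [Function.comp, loc_zc hy]
  have h3 : Tendsto (fun z => (z - zc p p) * loc u p (zc p p)) (𝓝[≠] (zc p p)) (𝓝 0) := by
    have : ContinuousAt (fun z => (z - zc p p) * loc u p (zc p p)) (zc p p) := by fun_prop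
    simpa using this.tendsto.mono_left nhdsWithin_le_nhds
  have h4 := Complex.differentiableOn_update_limUnder_of_isLittleO (f := loc u p)
    (eventually_nhdsWithin_iff.mp h1) (fun z hz => (hz.1 hz.2).differentiableWithinAt)
    (Asymptotics.isLittleO_of_tendsto' (by
      filter_upwards [self_mem_nhdsWithin] with z hz h5
      exact absurd (sub_eq_zero.mp (inv_eq_zero.mp h5)) hz) (by
      have h5 := h2.sub h3
      rw [sub_zero] at h5
      refine h5.congr fun z => ?_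
      rw [div_inv_eq_mul]
      ring))
  refine ⟨_, an_zc_self.comp (h4.analyticAt (eventually_nhdsWithin_iff.mp h1)), ?_⟩
  filter_upwards [hs, self_mem_nhdsWithin] with y h5 h6
  have h7 : zc p y ≠ zc p p := fun h7 => h6 ((chartAt ℂ p).injOn h5 hp h7)
  rw [Function.update_of_ne h7, loc_zc h5]

end Pool.Agent.P.MP_7ede32_ag.Hod
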