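import Pool.Agent.P.MP_7ede32_ag.Hod.RU1

/-!
Toolbox: the local behaviour of the covering.
-/

open Set Filter Topology MeasureTheory ComplexConjugate Polynomial Bornology Manifold
open scoped ContDiff

namespace Pool.Agent.P.MP_7ede32_ag.Hod

open MP_5d7cf0_gt.T (RS zc loc An D Sm Db Hf Om)

variable {Y : Type} [TopologicalSpace Y] [ChartedSpace ℂ Y] {p : Y} {θ θ' σ σ' : Y → ℂ × ℂ}

namespace RU2P

open MP_5d7cf0_gt.T

theorem plane {g : ℂ → ℂ} {z₀ : ℂ} (hg : AnalyticAt ℂ g z₀) (hc : ¬∀ᶠ z in 𝓝 z₀, g z = g z₀) :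
    ∃ c : ℝ, ∀ᶠ z in 𝓝 z₀, ‖(z - z₀) * deriv g z‖ ≤ c * ‖g z - g z₀‖ := by
  have h1 : AnalyticAt ℂ (fun z => g z - g z₀) z₀ := hg.sub analyticAt_const
  obtain ⟨n, h, hh, h0, he⟩ := h1.exists_eventuallyEq_pow_smul_nonzero_iff.mpr
    fun h2 => hc (h2.mono fun z hz => sub_eq_zero.mp hz)
  have h3 : ContinuousAt (fun z => ((n : ℂ) * h z + (z - z₀) * deriv h z) / h z) z₀ :=
    ((continuousAt_const.mul hh.continuousAt).add
      ((continuousAt_id.sub continuousAt_const).mul hh.deriv.continuousAt)).div hh.continuousAt h0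
  refine ⟨‖((n : ℂ) * h z₀ + (z₀ - z₀) * deriv h z₀) / h z₀‖ + 1, ?_⟩
  filter_upwards [he.eventually_nhds, hh.eventually_analyticAt, hh.continuousAt.eventually_ne h0,
    h3.norm.eventually (ge_mem_nhds (lt_add_one _))] with z h4 h5 h6 h7
  have h8 : HasDerivAt (fun z => g z₀ + (z - z₀) ^ n * h z)
      (n * (z - z₀) ^ (n - 1) * 1 * h z + (z - z₀) ^ n * deriv h z) z :=
    ((((hasDerivAt_id z).sub_const z₀).pow n).mul h5.differentiableAt.hasDerivAt).const_add _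
  have h9 : deriv g z = n * (z - z₀) ^ (n - 1) * 1 * h z + (z - z₀) ^ n * deriv h z := by
    refine (h8.congr_of_eventuallyEq ?_).deriv
    filter_upwards [h4] with w hw
    rw [smul_eq_mul] at hw
    rw [← hw]; ring
  have h10 : (z - z₀) * ((n : ℂ) * (z - z₀) ^ (n - 1)) = n * (z - z₀) ^ n := by
    cases n with
    | zero => simp
    | succ m => simp only [Nat.add_sub_cancel]; ring
  have h11 : (z - z₀) * deriv g z =
      ((n : ℂ) * h z + (z - z₀) * deriv h z) / h z * (g z - g z₀) := by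
    rw [h9, h4.self_of_nhds, smul_eq_mul]
    field_simp
    linear_combination h z * h10
  rw [h11, norm_mul]
  exact mul_le_mul_of_nonneg_right h7 (norm_nonneg _)

variable [IsManifold 𝓘(ℂ) ω Y] {φ x : Y → ℂ}

theorem core (h : An φ p) (hc : ¬∀ᶠ y in 𝓝 p, φ y = φ p) :
    Tendsto (fun y => (φ y - φ p) / dv φ p y) (𝓝[≠] p) (𝓝 0) ∧
    (∃ c : ℝ, ∀ᶠ y in 𝓝[≠] p, ‖(zc p y - zc p p) * dv φ p y‖ ≤ c * ‖φ y - φ p‖) ∧
    ∃ c : ℝ, ∀ᶠ y in 𝓝[≠] p, ‖φ y - φ p‖ ≤ c * ‖zc p y - zc p p‖ := by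
  have hp := mem_chart_source ℂ p
  refine ⟨?_, ?_, ?_⟩
  · simpa only [dv, div_div_eq_mul_div] using h.tendsto_div_D hc
  · obtain ⟨c, h1⟩ := plane h fun h2 => hc (by
      rw [eventually_chart hp]
      rw [loc_self] at h2
      exact h2)
    refine ⟨c, mem_nhdsWithin_of_mem_nhds ?_⟩
    filter_upwards [(continuousAt_zc hp).eventually h1, D_div_eq h, source_mem hp] with y h2 h3 h4
    rw [loc_zc h4, loc_self] at h2
    rw [dv, h3]
    exact h2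
  · obtain ⟨c, h1⟩ := (AnalyticAt.differentiableAt h).isBigO_sub.bound
    refine ⟨c, mem_nhdsWithin_of_mem_nhds ?_⟩
    filter_upwards [(continuousAt_zc hp).eventually h1, source_mem hp] with y h2 h4
    rwa [loc_zc h4, loc_self] at h2

omit [ChartedSpace ℂ Y] [IsManifold 𝓘(ℂ) ω Y] in
theorem ev_ev [T1Space Y] {q : Y → Prop} (h : ∀ᶠ y in 𝓝[≠] p, q y) :
    ∀ᶠ y in 𝓝[≠] p, ∀ᶠ y' in 𝓝 y, q y' := by
  filter_upwards [eventually_eventually_nhdsWithin.mpr h, self_mem_nhdsWithin] with y h1 h2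
  rwa [isOpen_compl_singleton.nhdsWithin_eq h2] at h1

theorem ext_fin [T1Space Y] (h : ∀ᶠ y in 𝓝[≠] p, An x y ∧ D x y ≠ 0) {β : ℂ}
    (ht : Tendsto x (𝓝[≠] p) (𝓝 β)) : ∃ v, An v p ∧ v p = β ∧ (¬∀ᶠ y in 𝓝 p, v y = v p) ∧
      ∀ᶠ y in 𝓝[≠] p, v y = x y ∧ D v y = D x y := by
  obtain ⟨v, h1, h2⟩ := an_update (h.mono fun y hy => hy.1) (C := ‖β‖ + 1)
    (ht.norm.eventually (ge_mem_nhds (lt_add_one _)))
  have h3 : ∀ᶠ y in 𝓝[≠] p, v y = x y := by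
    filter_upwards [self_mem_nhdsWithin] with y hy using h2 y hy
  have h4 : ∀ᶠ y in 𝓝[≠] p, v y = x y ∧ D v y = D x y := by
    filter_upwards [ev_ev h3] with y hy using ⟨hy.self_of_nhds, D_congr hy⟩
  refine ⟨v, h1, tendsto_nhds_unique
    (h1.continuousAt.tendsto.mono_left (nhdsWithin_le_nhds (s := {p}ᶜ)))
    (ht.congr' (h3.mono fun y hy => hy.symm)), fun h5 => ?_, h4⟩
  obtain ⟨y, h6, h7, h8⟩ := (h.and (h4.and (mem_nhdsWithin_of_mem_nhds (D_of_const h5)))).exists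
  exact h6.2 (h7.2.symm.trans h8)

end RU2P

namespace XC

variable (C : XC Y)

variable [RS Y]

theorem off : ∀ᶠ p in cofinite, p ∉ C.Sg := C.fin.compl_mem_cofinite

theorem off_near (p : Y) : ∀ᶠ y in 𝓝[≠] p, y ∉ C.Sg := by
  exact MP_5d7cf0_gt.T.eventually_notMem C.fin p

theorem off_nhds (h : p ∉ C.Sg) : ∀ᶠ y in 𝓝 p, y ∉ C.Sg := by
  exact MP_5d7cf0_gt.T.eventually_notMem' C.fin h

theorem reg_near (p : Y) : ∀ᶠ y in 𝓝[≠] p, An C.x y ∧ D C.x y ≠ 0 :=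
  (C.off_near p).mono fun y hy => ⟨(C.reg y hy).1, (C.reg y hy).2.1⟩

theorem Φ_finite (ξ : ℂ) : (C.Φ ξ).Finite := by
  refine MP_5d7cf0_gt.T.finite_of_isolated fun p => ?_
  by_cases hp : p ∈ C.Sg
  · rcases C.bad p hp with ⟨β, h1, h2⟩ | h2
    · by_cases h3 : β = ξ
      · exact Eventually.of_forall fun y hy => (C.reg y hy.1).2.2 (by rw [hy.2, ← h3, h1])
      · exact (h2.eventually_ne h3).mono fun y hy hy' => hy hy'.2
    · exact (h2.eventually (p := fun c => c ≠ ξ) (Bornology.isBounded_singleton (x := ξ))).mono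
        fun y hy hy' => hy hy'.2
  · obtain ⟨h1, h2, -⟩ := C.reg p hp
    rcases (h1.sub (MP_5d7cf0_gt.T.an_const ξ)).zero_or with h3 | h3
    · refine absurd ?_ h2
      rw [MP_5d7cf0_gt.T.D_congr (v := fun _ => ξ) (h3.mono fun y hy => sub_eq_zero.mp hy),
        MP_5d7cf0_gt.T.D_const]
    · exact h3.mono fun y hy hy' => hy (sub_eq_zero.mpr hy'.2)

theorem tendsto_x : Tendsto C.x cofinite cofinite := by
  refine Tendsto.cofinite_of_finite_preimage_singleton fun ξ => ?_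
  refine (C.fin.union (C.Φ_finite ξ)).subset fun y hy => ?_
  by_cases h : y ∈ C.Sg
  · exact Or.inl h
  · exact Or.inr ⟨h, hy⟩

theorem mer_x (p : Y) : MeromorphicAt (loc C.x p) (zc p p) := by
  have hp := mem_chart_source ℂ p
  by_cases h : p ∈ C.Sg
  · rcases C.bad p h with ⟨β, -, h2⟩ | h2
    · obtain ⟨v, h3, -, -, h4⟩ := RU2P.ext_fin (C.reg_near p) h2
      refine (AnalyticAt.meromorphicAt h3).congr ?_
      exact (MP_5d7cf0_gt.T.eventually_chart_ne hp).mp (h4.mono fun y hy => hy.1)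
    · obtain ⟨φ, h3, -, -, h4⟩ := MP_5d7cf0_gt.T.exists_inv
        ((C.reg_near p).mono fun y hy => hy.1) h2
      refine (AnalyticAt.meromorphicAt h3).inv.congr ?_
      exact (MP_5d7cf0_gt.T.eventually_chart_ne hp (P := fun y => (φ y)⁻¹ = C.x y)).mp
        (h4.mono fun y hy => (eq_inv_of_mul_eq_one_right hy).symm)
  · exact AnalyticAt.meromorphicAt (C.reg p h).1

theorem fin_facts {β : ℂ} (h : Tendsto C.x (𝓝[≠] p) (𝓝 β)) :
    Tendsto (fun y => (C.x y - β) / dv C.x p y) (𝓝[≠] p) (𝓝 0) ∧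
    (∃ c : ℝ, ∀ᶠ y in 𝓝[≠] p, ‖(zc p y - zc p p) * dv C.x p y‖ ≤ c * ‖C.x y - β‖) ∧
    ∃ c : ℝ, ∀ᶠ y in 𝓝[≠] p, ‖C.x y - β‖ ≤ c * ‖zc p y - zc p p‖ := by
  obtain ⟨v, h1, h2, h3, h4⟩ := RU2P.ext_fin (C.reg_near p) h
  obtain ⟨h5, ⟨c, h6⟩, c', h7⟩ := RU2P.core h1 h3
  rw [h2] at h5 h6 h7
  refine ⟨h5.congr' ?_, ⟨c, ?_⟩, c', ?_⟩
  · filter_upwards [h4] with y hy
    rw [dv, dv, hy.1, hy.2]
  · filter_upwards [h4, h6] with y hy h8
    rwa [dv, hy.1, hy.2] at h8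
  · filter_upwards [h4, h7] with y hy h8
    rwa [hy.1] at h8

theorem inf_facts (h : Tendsto C.x (𝓝[≠] p) (cobounded ℂ)) :
    Tendsto (fun y => C.x y / dv C.x p y) (𝓝[≠] p) (𝓝 0) ∧
    (∃ c : ℝ, ∀ᶠ y in 𝓝[≠] p, ‖(zc p y - zc p p) * dv C.x p y‖ ≤ c * ‖C.x y‖) ∧
    ∃ c : ℝ, ∀ᶠ y in 𝓝[≠] p, 1 ≤ c * ‖C.x y‖ * ‖zc p y - zc p p‖ := by
  obtain ⟨φ, h1, h2, h3, h4⟩ := MP_5d7cf0_gt.T.exists_inv
    ((C.reg_near p).mono fun y hy => hy.1) h
  obtain ⟨h5, ⟨c, h6⟩, c', h7⟩ := RU2P.core h1 h3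
  simp only [h2, sub_zero] at h5 h6 h7
  have h8 : ∀ᶠ y in 𝓝[≠] p, φ y ≠ 0 ∧ C.x y = (φ y)⁻¹ ∧ dv C.x p y = -dv φ p y / φ y ^ 2 := by
    filter_upwards [RU2P.ev_ev h4, mem_nhdsWithin_of_mem_nhds h1.eventually] with y h8 h9
    refine ⟨left_ne_zero_of_mul_eq_one h8.self_of_nhds,
      eq_inv_of_mul_eq_one_right h8.self_of_nhds, ?_⟩
    rw [dv, dv, MP_5d7cf0_gt.T.D_of_mul_eq_one h9 h8]
    ring
  refine ⟨?_, ⟨c, ?_⟩, c', ?_⟩
  · have h9 := h5.neg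
    rw [neg_zero] at h9
    refine h9.congr' ?_
    filter_upwards [h8] with y hy
    obtain ⟨a, b, d⟩ := hy
    rw [b, d, div_div_eq_mul_div, div_neg]
    congr 2
    field_simp
  · filter_upwards [h8, h6] with y hy h9
    obtain ⟨a, b, d⟩ := hy
    have h10 : 0 < ‖φ y‖ := norm_pos_iff.mpr a
    rw [b, d, ← mul_div_assoc, norm_div, mul_neg, norm_neg, norm_pow, norm_inv,
      div_le_iff₀ (by positivity)]
    refine h9.trans (le_of_eq ?_)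
    field_simp
  · filter_upwards [h8, h7] with y hy h9
    obtain ⟨a, b, -⟩ := hy
    have h10 : 0 < ‖φ y‖ := norm_pos_iff.mpr a
    rw [b, norm_inv, mul_right_comm, ← div_eq_mul_inv, le_div_iff₀ h10, one_mul]
    exact h9

theorem root_of_tendsto (hp : p ∈ C.Sg) {β : ℂ} (h : Tendsto C.x (𝓝[≠] p) (𝓝 β)) :
    C.R.eval β = 0 := by
  rcases C.bad p hp with ⟨β', h1, h2⟩ | h2
  · rwa [tendsto_nhds_unique h h2]
  · exact absurd h2 (h.not_tendsto (Metric.disjoint_nhds_cobounded β))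

end XC

end Pool.Agent.P.MP_7ede32_ag.Hod
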