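import Pool.Agent.P.MP_7ede32_ag.Hod.PmE
import Pool.Agent.P.MP_7ede32_ag.Hod.RaT

/-!
The functions of the family are rational on the plane model.
-/

open Set Filter Topology Polynomial

noncomputable section

namespace Pool.Agent.P.MP_7ede32_ag.Hod

namespace RatQP

/-- the interpolation polynomial at a node -/
theorem eval_lag {α : Type} [DecidableEq α] {s : Finset α} {p : α} (hp : p ∈ s) (F y : α → ℂ) :
    (∑ a ∈ s, C (F a) * ∏ b ∈ s.erase a, (X - C (y b))).eval (y p) =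
      F p * (derivative (∏ a ∈ s, (X - C (y a)))).eval (y p) := by
  have h0 : ∀ a ∈ s, a ≠ p → (∏ b ∈ s.erase a, (X - C (y b))).eval (y p) = 0 := fun a _ h => by
    rw [eval_prod]
    exact Finset.prod_eq_zero (Finset.mem_erase.2 ⟨h.symm, hp⟩) (by simp)
  rw [derivative_prod_finset, eval_finsetSum, eval_finsetSum, Finset.sum_eq_single_of_mem p hp,
    Finset.sum_eq_single_of_mem p hp]
  · simp
  · intro a ha h
    rw [eval_mul, h0 a ha h, zero_mul]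
  · intro a ha h
    rw [eval_mul, h0 a ha h, mul_zero]

variable {𝒳 : Sx}

open PmEP in
/-- a function of polynomial growth, times the derivative of the equation, is a polynomial -/
theorem exists_N (h1 : SCovX1) (h3 : SSymX) (h4 : Geo.SInv) (Q : Pm 𝒳) {F : 𝒳.X → ℂ}
    (hF : 𝒳.PB F) : ∃ N : (KK 𝒳.L)[X][X], ∀ᶠ z in cd, ∀ p ∉ 𝒳.Z, 𝒳.Ov p z →
      ev N (z, 𝒳.x p, Q.y p) = F p * Q.𝒴.py (z, 𝒳.x p, Q.y p) := by
  classical
  obtain ⟨N, hN⟩ := (h3 𝒳 F Q.y hF Q.pb).2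
  refine ⟨N, ?_⟩
  filter_upwards [hN, Q.gd, Q.prod, Q.𝒴.rt_cd, rg2_cd N] with z h5 h6 h7 h8 h9 p hp hz
  obtain ⟨hT, hc⟩ := h1 𝒳 z h6
  obtain ⟨γ, hγ, hγ'⟩ := exists_path h4 hp hz
  have h10 : Tendsto (fun ξ => ((z, ξ, Q.y (γ ξ)) : E3)) (𝓝 (𝒳.x p)) (𝓝 (z, 𝒳.x p, Q.y p)) :=
    tendsto_const_nhds.prodMk_nhds (tendsto_id.prodMk_nhds
      ((Q.pb.1 p hp).continuousAt.tendsto.comp hγ))
  have h11 := ((analyticAt_ev (q := (z, 𝒳.x p, Q.y p)) h9).continuousAt.tendsto.comp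
    h10).mono_left (nhdsWithin_le_nhds (s := {𝒳.x p}ᶜ))
  have h12 := (((hF.1 p hp).continuousAt.tendsto.comp hγ).mul
    ((analyticAt_ev (q := (z, 𝒳.x p, Q.y p)) h8.1.derivative.1).continuousAt.tendsto.comp
      h10)).mono_left (nhdsWithin_le_nhds (s := {𝒳.x p}ᶜ))
  refine tendsto_nhds_unique h11 (h12.congr' ?_)
  filter_upwards [hT.eventually_cofinite_notMem.filter_mono (nhdsNE_le_cofinite _),
    mem_nhdsWithin_of_mem_nhds hγ'] with ξ h13 h14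
  have h15 := eval_lag ((Sx.mem_Φf (hc ξ h13).1).2 h14) F Q.y
  have h16 := h5 ξ h13
  have h17 : (sp Q.𝒴.P z).map (evalRingHom ξ) = ∏ p ∈ 𝒳.Φf z ξ, (X - C (Q.y p)) := h7 ξ h13
  rw [← h17, derivative_map, map_evalRingHom_eval, ← h8.1.derivative.2] at h15
  refine (h15.symm.trans ?_)
  rw [← h16, map_evalRingHom_eval]
  rfl

end RatQP

open PmEP RatQP in
theorem sRatQ (h1 : SCovX1) (h2 : SIntg) (h3 : SSymX) (h4 : Geo.SInv) : SRatQ := by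
  intro 𝒳 Q i
  obtain ⟨a, ha, hF⟩ := h2 𝒳 i
  obtain ⟨D, hD, hDa⟩ := Sx.exists_D 𝒳.L ha
  obtain ⟨N, hN⟩ := exists_N h1 h3 h4 Q hF
  refine ⟨fun q => Q.𝒴.ph N q * (ev 1 q / ev1 D q), (Pl.rat_ph N).mul (Pl.rat_ev_div 1 hD), ?_⟩
  filter_upwards [Pl.gen_fst hN, Q.𝒴.gen_ok, Pl.gen_ne hD] with q h5 h6 h7 p hp hz hx hy
  have h8 := h5 p hp hz
  rw [hx, hy, ev_ren a i (z := q.1) (ξ := q.2.1) ⟨hp, hz, hx⟩,
    ← hDa _ (Sx.hu hp hz).1] at h8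
  rw [Pl.ph, RaT.ev_one, show ev N q = _ from h8]
  have h9 := h6.py_ne
  change (sp1 D q.1).eval q.2.1 ≠ 0 at h7
  change _ = _ / Q.𝒴.py q * (1 / (sp1 D q.1).eval q.2.1)
  field_simp

end Pool.Agent.P.MP_7ede32_ag.Hod
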