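import Pool.Agent.P.MP_7ede32_ag.Hod.StF
import Pool.Agent.P.MP_7ede32_ag.Hod.MT

/-!
Points with the same canonical image, and the alternative of the infinitesimal Torelli theorem,
on the fibres of the family.
-/

open Set Filter Topology MeasureTheory ComplexConjugate Polynomial Matrix

noncomputable section

namespace Pool.Agent.P.MP_7ede32_ag.Hod

open MP_5d7cf0_gt.T (RS zc loc An D Om D_congr)

namespace SepYP

variable {L : PeriodPair} {g : ℕ} {𝒴 : Pl L} {t : ℂ} {μ : Md 𝒴 t} {p p' : μ.Y}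
  {N : Fin g → (KK L)[X][X]} {w : Fin g → μ.Y → ℂ}

theorem an_cb (hw : μ.IsF N w) {a : VF g} (ha : AnV a t) (hp : p ∉ μ.M.Sg) :
    AnalyticAt ℂ (cb a (𝒴.phs N)) (μ.j p) := by
  refine Finset.analyticAt_fun_sum (f := fun i (q : E3) => a q.1 i * 𝒴.phs N i q) _ fun i _ => ?_
  exact (AnalyticAt.comp (g := fun s => a s i) (f := Prod.fst) (x := μ.j p) (ha i)
    analyticAt_fst).mul (Pl.anO_ph (hw i).1 _ (Md.ok_j hp) rfl)

theorem sum_cb (hw : μ.IsF N w) (a : VF g) (hp : p ∉ μ.M.Sg) :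
    (∑ i, a t i • w i) p = cb a (𝒴.phs N) (μ.j p) * D μ.M.x p := hw.sum (a t) hp

theorem D_ratio (hw : μ.IsF N w) {a b : VF g} (ha : AnV a t) (hb : AnV b t) (hp : p ∉ μ.M.Sg)
    (h0 : cb b (𝒴.phs N) (μ.j p) ≠ 0) :
    D (fun y => (∑ i, a t i • w i) y / (∑ i, b t i • w i) y) p =
      𝒴.dX (fun q => cb a (𝒴.phs N) q / cb b (𝒴.phs N) q) (μ.j p) * D μ.M.x p := by
  rw [← (Md.an_comp hp ((an_cb hw ha hp).fun_div (an_cb hw hb hp) h0)).2]
  refine D_congr ((μ.M.off_nhds hp).mono fun y hy => ?_)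
  simp only
  rw [sum_cb hw a hy, sum_cb hw b hy, mul_div_mul_right _ _ (μ.M.reg y hy).2.1]

theorem om_sum (hw : μ.IsF N w) (c : Fin g → ℂ) : ∑ i, c i • w i ∈ Om μ.Y :=
  Submodule.sum_mem _ fun i _ => Submodule.smul_mem _ _ (hw i).2.1

end SepYP

open SepYP

theorem sSepY (h : SSep) : SSepY := by
  intro L 𝒴 Φ g N hN
  filter_upwards [hN, Φ.mem] with t h1 ht
  obtain ⟨w, hw⟩ := h1 ht
  generalize Φ.md t ht = μ at w hw
  intro q q' l hq hq' e e' hne hl a b ha hb h0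
  obtain ⟨p, hp, rfl⟩ := μ.surj_j hq e
  obtain ⟨p', hp', rfl⟩ := μ.surj_j hq' e'
  have hx := (μ.M.reg p hp).2.1
  have hx' := (μ.M.reg p' hp').2.1
  have hcb : ∀ c : Fin g → ℂ,
      ∑ i, c i * 𝒴.phs N i (μ.j p') = l * ∑ i, c i * 𝒴.phs N i (μ.j p) := fun c => by
    rw [Finset.mul_sum]
    exact Finset.sum_congr rfl fun i _ => by rw [hl i]; ring
  have h2 : (∑ i, b t i • w i) p ≠ 0 := by
    rw [sum_cb hw.1 b hp]
    exact mul_ne_zero h0 hx
  obtain ⟨h3, h4⟩ := h μ.Y p p' (l * D μ.M.x p' / D μ.M.x p) (fun e => hne (by rw [e]))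
    ⟨_, om_sum hw.1 (b t), fun e => h2 (by rw [e]; rfl)⟩ (fun w' hw' => by
      obtain ⟨c, rfl⟩ := (Submodule.mem_span_range_iff_exists_fun ℂ).1 (hw.2.2 w' hw')
      rw [hw.1.sum c hp, hw.1.sum c hp', hcb]
      field_simp)
  have hl0 : l ≠ 0 := fun e => h3 (by rw [e, zero_mul, zero_div])
  have h0' : cb b (𝒴.phs N) (μ.j p') ≠ 0 := by
    have : cb b (𝒴.phs N) (μ.j p') = l * cb b (𝒴.phs N) (μ.j p) := hcb (b t)
    rw [this]
    exact mul_ne_zero hl0 h0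
  have h5 := h4 _ (om_sum hw.1 (a t)) _ (om_sum hw.1 (b t)) h2
  rw [D_ratio hw.1 ha hb hp h0, D_ratio hw.1 ha hb hp' h0'] at h5
  refine mul_right_cancel₀ hx' (h5.trans ?_)
  field_simp

theorem sPartY (h1 : STor1) (h2 : SPar) (h3 : SIrr) : SPartY := by
  intro L 𝒴 Φ g N u hN
  filter_upwards [hN, Φ.mem] with t h4 ht
  obtain ⟨w, hw⟩ := h4 ht
  generalize Φ.md t ht = μ at w hw
  rintro ⟨c, hc⟩
  rcases h1 g E3 (𝒴.fb t) (fun q i => 𝒴.phs N i q) (fun q i => u i q) c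
    (fun a ha => Pl.Ind.ne hw.ind hw.1.ratF (Md.irr h3 μ) ha) hc with
    ⟨f, hf⟩ | ⟨T, i₁, i₂, hT, hi, hr⟩
  · exact Or.inl ⟨f, hf⟩
  refine Or.inr fun S hS => μ.cofinite_iff.1 ?_
  have hu : IsUnit T.det := isUnit_iff_ne_zero.2 hT
  have hv : ∀ c : Fin g → ℂ, ∑ l, c l • ∑ i, T l i • w i = ∑ i, (c ᵥ* T) i • w i := fun c => by
    simp only [Finset.smul_sum, smul_smul, vecMul, dotProduct, Finset.sum_smul]
    exact Finset.sum_comm
  have hli : LinearIndependent ℂ fun l => ∑ i, T l i • w i := by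
    refine Fintype.linearIndependent_iff.2 fun c hc => ?_
    rw [hv] at hc
    have h5 : c ᵥ* T = 0 := funext (Fintype.linearIndependent_iff.1 hw.2.1 _ hc)
    exact congrFun (Matrix.eq_zero_of_vecMul_eq_zero hT h5)
  have hsp : ∀ w' ∈ Om μ.Y, w' ∈ Submodule.span ℂ (range fun l => ∑ i, T l i • w i) := by
    intro w' hw'
    obtain ⟨c, rfl⟩ := (Submodule.mem_span_range_iff_exists_fun ℂ).1 (hw.2.2 w' hw')
    refine (Submodule.mem_span_range_iff_exists_fun ℂ).2 ⟨c ᵥ* T⁻¹, ?_⟩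
    rw [hv, vecMul_vecMul, nonsing_inv_mul _ hu, vecMul_one]
  have hfin : (μ.M.Sg ∪ {p | ¬ S (μ.j p)}).Finite :=
    μ.M.fin.union (eventually_cofinite.1 (μ.cofinite_iff.2 hS))
  have h6 := h2 μ.Y g (fun l => ∑ i, T l i • w i) i₁ i₂ (fun l => om_sum hw.1 (T l)) hli hsp hi
    (fun l => by
      obtain ⟨α, β, h7⟩ := hr l
      refine ⟨α, β, ?_⟩
      filter_upwards [μ.cofinite_iff.2 h7, μ.M.off] with p h8 h9
      simp only [hw.1.sum _ h9]
      simp only [mulVec, dotProduct] at h8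
      linear_combination D μ.M.x p ^ 2 * h8) _ hfin
  filter_upwards [h6, μ.M.off] with p ⟨p', h7, h8, l, h9⟩ hp
  have hp' : p' ∉ μ.M.Sg := fun e => h7 (Or.inl e)
  refine ⟨μ.j p', not_not.1 fun e => h7 (Or.inr e), rfl, (Md.ok_j hp').2.1,
    fun e => h8 (Md.inj_j hp' hp e), l * D μ.M.x p / D μ.M.x p', fun i => ?_⟩
  have hx := (μ.M.reg p hp).2.1
  have hx' := (μ.M.reg p' hp').2.1
  rw [← hw.1.div i hp, ← hw.1.div i hp', h9 _ (hw.1 i).2.1]
  field_simp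

end Pool.Agent.P.MP_7ede32_ag.Hod
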