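import Pool.Agent.P.MP_7ede32_ag.Hod.RU

/-!
The algebraic description of holomorphic forms on a plane model.
-/

open Set Filter Topology MeasureTheory ComplexConjugate Polynomial Bornology Manifold

namespace Pool.Agent.P.MP_7ede32_ag.Hod

open MP_5d7cf0_gt.T (RS zc loc An D Sm Db Hf Om)

namespace VAP

/-- evaluation of the integral equation -/
theorem ev_eq (P N : ℂ[X][X]) (R : ℂ[X]) (m : ℕ) (A : ℕ → ℂ[X]) (ξ η : ℂ) :
    ((C R * N) ^ m + C R * ∑ k ∈ Finset.range m,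
      C (A k) * (C R * N) ^ k * derivative P ^ (m - k)).evalEval ξ η =
    (R.eval ξ * N.evalEval ξ η) ^ m + R.eval ξ * ∑ k ∈ Finset.range m,
      (A k).eval ξ * (R.eval ξ * N.evalEval ξ η) ^ k * (derivative P).evalEval ξ η ^ (m - k) := by
  simp only [evalEval_add, evalEval_mul, evalEval_pow, evalEval_C, evalEval_finsetSum]

theorem alg_eq (r φ d : ℂ) (m : ℕ) (a : ℕ → ℂ) :
    (r * (φ * d)) ^ m + r * ∑ k ∈ Finset.range m, a k * (r * (φ * d)) ^ k * d ^ (m - k) =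
    ((r * φ) ^ m + r * ∑ k ∈ Finset.range m, a k * (r * φ) ^ k) * d ^ m := by
  rw [add_mul, mul_assoc r (∑ k ∈ Finset.range m, _), Finset.sum_mul]
  congr 1
  · ring
  · congr 1
    refine Finset.sum_congr rfl fun k hk => ?_
    have hk' : k ≤ m := (Finset.mem_range.1 hk).le
    obtain ⟨j, rfl⟩ := Nat.exists_eq_add_of_le hk'
    rw [Nat.add_sub_cancel_left]
    ring

variable {Y : Type} [TopologicalSpace Y] [ChartedSpace ℂ Y] [RS Y]

theorem chart_near (p : Y) : ∀ᶠ y in 𝓝[≠] p, D (zc p) y ≠ 0 := by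
  refine Eventually.filter_mono nhdsWithin_le_nhds ?_
  filter_upwards [MP_5d7cf0_gt.T.source_mem (mem_chart_source ℂ p)] with y hy
  exact MP_5d7cf0_gt.T.D_zc_ne hy

theorem part1 (h3 : SRb) (M : PM Y) (N : ℂ[X][X]) (h : AV M.P M.R N) : ∃ w ∈ Om Y, ∀ p ∉ M.Sg,
    w p = M.ev N p / M.ev (derivative M.P) p * D M.x p := by
  obtain ⟨m, A, hA, Q, hQ⟩ := h
  set φ : Y → ℂ := fun p => M.ev N p / M.ev (derivative M.P) p with hφ
  have hcp : ∀ p ∉ M.Sg, CP M.R m A (M.x p) (M.R.eval (M.x p) * φ p) := by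
    intro p hp
    have hd := M.der_ne hp
    have h1 := congrArg (evalEval (M.x p) (M.y p)) hQ
    have h2 : M.P.evalEval (M.x p) (M.y p) = 0 := M.on hp
    rw [ev_eq, evalEval_mul, h2, zero_mul] at h1
    have h4 : N.evalEval (M.x p) (M.y p) =
        φ p * (derivative M.P).evalEval (M.x p) (M.y p) := by
      have hd' : (derivative M.P).evalEval (M.x p) (M.y p) ≠ 0 := hd
      simp only [hφ, PM.ev]
      field_simp
    rw [h4, alg_eq] at h1
    exact (mul_eq_zero.1 h1).resolve_right (pow_ne_zero _ hd)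
  have han : ∀ p ∉ M.Sg, An φ p := fun p hp =>
    (M.an_ev N hp).div (M.an_ev _ hp) (M.der_ne hp)
  refine om_extend' (w := fun y => φ y * D M.x y) M.fin
    (fun y hy => hf_mul_D (han y hy) (M.reg y hy).1) fun a ha => ?_
  have key : ∀ c : ℝ, (∀ ε > 0, ∀ᶠ y in 𝓝[≠] a,
      ‖(zc a y - zc a a) * dv M.x a y‖ * ‖φ y‖ ≤ c * ε) →
      Tendsto (fun y => (zc a y - zc a a) * (φ y * D M.x y / D (zc a) y)) (𝓝[≠] a) (𝓝 0) := by
    intro c hc
    rw [NormedAddGroup.tendsto_nhds_zero]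
    intro ε hε
    have hp : 0 < ε / (2 * (|c| + 1)) := by positivity
    filter_upwards [hc _ hp] with y hy
    have e : (zc a y - zc a a) * (φ y * D M.x y / D (zc a) y) =
        (zc a y - zc a a) * dv M.x a y * φ y := by
      simp only [dv]; ring
    rw [e, norm_mul]
    refine hy.trans_lt ?_
    have h1 : c * (ε / (2 * (|c| + 1))) ≤ (|c| + 1) * (ε / (2 * (|c| + 1))) :=
      mul_le_mul_of_nonneg_right (by linarith [le_abs_self c]) hp.le
    have h2 : (|c| + 1) * (ε / (2 * (|c| + 1))) = ε / 2 := by field_simp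
    linarith
  rcases M.bad a ha with ⟨β, hβ, ht⟩ | ht
  · obtain ⟨c, hc⟩ := (M.toXC.fin_facts ht).2.1
    obtain ⟨c', hc', hs⟩ := simple_root M.sep hβ
    refine key (|c| * c') fun ε hε => ?_
    filter_upwards [hc, ht.eventually hs, ht.eventually ((h3 M.R m A).1 β hβ ε hε),
      M.toXC.off_near a] with y h1 h2 h4 h5
    have h6 := h4 _ (hcp y h5)
    rw [norm_mul] at h6
    have h7 : ‖(zc a y - zc a a) * dv M.x a y‖ ≤ |c| * (c' * ‖M.R.eval (M.x y)‖) :=
      h1.trans ((mul_le_mul_of_nonneg_right (le_abs_self c) (norm_nonneg _)).trans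
        (mul_le_mul_of_nonneg_left h2.2 (abs_nonneg c)))
    calc _ ≤ |c| * (c' * ‖M.R.eval (M.x y)‖) * ‖φ y‖ :=
          mul_le_mul_of_nonneg_right h7 (norm_nonneg _)
      _ = |c| * c' * (‖M.R.eval (M.x y)‖ * ‖φ y‖) := by ring
      _ ≤ |c| * c' * ε := mul_le_mul_of_nonneg_left h6 (by positivity)
  · obtain ⟨c, hc⟩ := (M.toXC.inf_facts ht).2.1
    refine key |c| fun ε hε => ?_
    filter_upwards [hc, ht.eventually ((h3 M.R m A).2 hA M.toXC.R_ne ε hε),
      M.toXC.off_near a] with y h1 h4 h5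
    have h6 := h4 _ (hcp y h5)
    have hR : 0 < ‖M.R.eval (M.x y)‖ := norm_pos_iff.2 (M.reg y h5).2.2
    rw [norm_mul] at h6
    have h8 : ‖M.x y‖ * ‖φ y‖ ≤ ε := by
      refine le_of_mul_le_mul_right ?_ hR
      linarith
    have h7 : ‖(zc a y - zc a a) * dv M.x a y‖ ≤ |c| * ‖M.x y‖ :=
      h1.trans (mul_le_mul_of_nonneg_right (le_abs_self c) (norm_nonneg _))
    calc _ ≤ |c| * ‖M.x y‖ * ‖φ y‖ := mul_le_mul_of_nonneg_right h7 (norm_nonneg _)
      _ = |c| * (‖M.x y‖ * ‖φ y‖) := by ring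
      _ ≤ |c| * ε := mul_le_mul_of_nonneg_left h8 (abs_nonneg c)

/-- multiply `w / dx` by a function that is small with respect to `dx / dz` -/
theorem small (C : XC Y) {w g : Y → ℂ} (hw : w ∈ Om Y) {p : Y}
    (h : Tendsto (fun y => g y / dv C.x p y) (𝓝[≠] p) (𝓝 0)) :
    Tendsto (fun y => g y * (w y / D C.x y)) (𝓝[≠] p) (𝓝 0) := by
  have h1 := h.mul ((MP_5d7cf0_gt.T.Hf.tendsto (hw p)).mono_left nhdsWithin_le_nhds)
  rw [zero_mul] at h1
  refine h1.congr' ?_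
  filter_upwards [chart_near p, C.off_near p] with y h2 h3
  have h4 := (C.reg y h3).2.1
  simp only [dv]
  field_simp

theorem part2 (h1 : SLag) (h2 : SChr) (h4 : SIrr) (M : PM Y) (w : Y → ℂ) (hw : w ∈ Om Y) :
    ∃ N, N.degree < M.P.degree ∧ AV M.P M.R N ∧ ∀ p ∉ M.Sg,
      w p = M.ev N p / M.ev (derivative M.P) p * D M.x p := by
  obtain ⟨d, hd⟩ := h1 Y M 0
  obtain ⟨N, hN, -, hev⟩ := hd (fun p => w p / D M.x p)
    (fun p hp => an_div_D (hw p) (M.reg p hp).1 (M.reg p hp).2.1)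
    (fun p _ β ht => small M.toXC hw (M.toXC.fin_facts ht).1)
    (fun p _ ht => by
      have h5 := small M.toXC hw (M.toXC.inf_facts ht).1
      rw [NormedAddGroup.tendsto_nhds_zero] at h5
      refine ⟨1, ?_⟩
      filter_upwards [h5 1 one_pos, ht.eventually (eventually_cobounded_le_norm 1)] with y h6 h7
      rw [norm_mul] at h6
      rw [pow_zero, mul_one]
      nlinarith [norm_nonneg (w y / D M.x y)])
  refine ⟨N, hN, ?_, fun p hp => ?_⟩
  · obtain ⟨ξ₀, hξ⟩ : ∃ ξ₀, M.R.eval ξ₀ ≠ 0 := by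
      by_contra hcon
      push Not at hcon
      exact M.toXC.R_ne (Polynomial.funext fun ξ => by rw [hcon ξ, eval_zero])
    obtain ⟨A, hA, hcp⟩ := h2 Y M.toXC w hw ξ₀ hξ
    refine ⟨_, A, hA, (h4 Y M).1 _ ?_⟩
    filter_upwards [M.toXC.off] with p hp
    have h5 : N.evalEval (M.x p) (M.y p) =
        w p / D M.x p * (derivative M.P).evalEval (M.x p) (M.y p) := hev p hp
    have h6 := hcp p hp
    unfold CP at h6
    rw [PM.ev, ev_eq, h5, alg_eq, h6, zero_mul]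
  · have h5 := M.der_ne hp
    have h6 := (M.reg p hp).2.1
    rw [hev p hp]
    field_simp

end VAP

theorem sVA (h1 : SLag) (h2 : SChr) (h3 : SRb) (h4 : SIrr) : SVA := fun _ _ _ _ M =>
  ⟨VAP.part1 h3 M, VAP.part2 h1 h2 h4 M⟩

end Pool.Agent.P.MP_7ede32_ag.Hod
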